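import Pool.Agent.H40.AvoDefs

set_option autoImplicit false

namespace Pool.Agent.H40.Avo

variable {d : ℕ} {A : Type}

theorem peel (D : Finset (Fin d → ℤ)) (h : Cvx D) (hne : D.Nonempty) :
    ∃ v ∈ D, Cvx (D.erase v) := by
  have hf : ((fun (w : Fin d → ℤ) i => (w i : ℝ)) '' (D : Set (Fin d → ℤ))).Finite :=
    D.finite_toSet.image _
  obtain ⟨e, he⟩ := (hf.isCompact_convexHull ℝ).extremePoints_nonempty
    (convexHull_nonempty_iff.2 (hne.to_set.image _))
  obtain ⟨v, hv, rfl⟩ := extremePoints_convexHull_subset he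
  refine ⟨v, hv, fun z hz => Finset.mem_erase.2 ⟨?_, h z (convexHull_mono
    (Set.image_mono (Finset.coe_subset.2 (D.erase_subset v))) hz)⟩⟩
  rintro rfl
  refine (((convex_convexHull ℝ _).mem_extremePoints_iff_mem_sdiff_convexHull_sdiff).1 he).2
    (convexHull_mono ?_ hz)
  rintro _ ⟨w, hw, rfl⟩
  have hw' := Finset.mem_erase.1 hw
  exact ⟨subset_convexHull ℝ _ ⟨w, hw'.2, rfl⟩, fun h => hw'.1 (funext fun i =>
    Int.cast_injective (α := ℝ) (congrFun h i))⟩

theorem box (n : ℕ) : Cvx (Fintype.piFinset fun _ : Fin d => Finset.Icc (-(n : ℤ)) n) := by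
  intro z hz
  have h1 := convexHull_min (t := Set.univ.pi fun _ : Fin d => Set.Icc (-(n : ℝ)) n) (by
    rintro _ ⟨w, hw, rfl⟩ i -
    have := Finset.mem_Icc.1 (Fintype.mem_piFinset.1 hw i)
    show -(n : ℝ) ≤ (w i : ℝ) ∧ (w i : ℝ) ≤ n
    exact ⟨by exact_mod_cast this.1, by exact_mod_cast this.2⟩)
    (convex_pi fun _ _ => convex_Icc _ _) hz
  refine Fintype.mem_piFinset.2 fun i => Finset.mem_Icc.2 ?_
  have : -(n : ℝ) ≤ (z i : ℝ) ∧ (z i : ℝ) ≤ n := h1 i trivial
  exact ⟨by exact_mod_cast this.1, by exact_mod_cast this.2⟩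

theorem main [Finite A] (X : Set ((Fin d → ℤ) → A)) (hX : IsSubshift X) (hA : IsAvo X) :
    SFTConvex X := by
  classical
  obtain ⟨N, hN⟩ := hA
  let F : Set (Pat d A) := {q | q.1 ⊆ insert 0 N ∧ ¬ GV X q}
  have key : ∀ (n : ℕ) (p : Pat d A), p.1.card = n → Cvx p.1 → LV F p → GV X p := by
    intro n
    induction n with
    | zero =>
      intro p hp _ h
      by_contra hc
      have he : p.1 = ∅ := Finset.card_eq_zero.1 hp
      exact h p ⟨by simp [he], hc⟩ 0 fun v => absurd v.2 (by simp [he])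
    | succ n ih =>
      rintro ⟨D, p⟩ hp hc h
      obtain ⟨v, hv, h1⟩ := peel D hc (Finset.card_pos.1 (by simp only at hp; omega))
      obtain ⟨x, hx, h2⟩ := ih ⟨D.erase v, fun w => p ⟨w.1, Finset.mem_of_mem_erase w.2⟩⟩
        (by simp only at hp ⊢; rw [Finset.card_erase_of_mem hv, hp]; rfl) h1
        fun q hq u h3 => h q hq u fun w => ⟨_, (h3 w).2⟩
      let q : Pat d A := ⟨(insert 0 N).filter fun w => w + v ∈ D,
        fun w => p ⟨w.1 + v, (Finset.mem_filter.1 w.2).2⟩⟩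
      have h3 : GV X q := by
        by_contra h4
        exact h q ⟨Finset.filter_subset _ _, h4⟩ v fun w => ⟨(Finset.mem_filter.1 w.2).2, rfl⟩
      obtain ⟨y, hy, h4⟩ := h3
      have h5 : ∀ w (hw : w ∈ D), w - v ∈ insert 0 N → y (w - v) = p ⟨w, hw⟩ := fun w hw h5 =>
        (h4 ⟨w - v, Finset.mem_filter.2 ⟨h5, by simpa using hw⟩⟩).trans
          (congrArg p (Subtype.ext (sub_add_cancel w v)))
      have h6 : p ⟨v, hv⟩ ∈ Ex X x (D.erase v) v := by
        rw [hN _ v h1 (D.notMem_erase v) (by rwa [Finset.insert_erase hv]) x hx]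
        exact ⟨_, hX.2 y hy v, fun w hw => (h5 w _ (Finset.mem_insert_of_mem hw.2)).trans
          (h2 ⟨w, hw.1⟩).symm, h5 v hv (by simp)⟩
      obtain ⟨z, hz, h7, h8⟩ := h6
      refine ⟨z, hz, fun w => ?_⟩
      by_cases hw : w.1 = v
      · obtain ⟨w, _⟩ := w
        subst hw
        exact h8
      · have : w.1 ∈ D.erase v := Finset.mem_erase.2 ⟨hw, w.2⟩
        exact (h7 _ this).trans (h2 ⟨_, this⟩)
  refine ⟨F, ?_, Set.Subset.antisymm (fun x hx q hq u h => hq.2 ⟨_, hX.2 x hx (-u),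
    fun v => by simpa using h v⟩) fun x hx => ?_, fun p => key _ p rfl⟩
  · refine (((insert 0 N).powerset.finite_toSet.biUnion fun D _ =>
      Set.finite_range (fun p : D → A => (⟨D, p⟩ : Pat d A))).subset ?_)
    rintro ⟨D, p⟩ hq
    exact Set.mem_biUnion (Finset.mem_coe.2 (Finset.mem_powerset.2 hq.1)) ⟨p, rfl⟩
  · letI : TopologicalSpace A := ⊥
    choose y hy h using fun n : ℕ => key _ ⟨_, fun w => x w.1⟩ rfl (box n)
      fun q hq u h => hx q hq u fun v => (h v).2
    refine hX.1.mem_of_tendsto (f := y) (b := Filter.atTop) (tendsto_pi_nhds.2 fun v => ?_)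
      (Filter.Eventually.of_forall hy)
    refine tendsto_const_nhds.congr' ?_
    obtain ⟨B, hB⟩ := Finite.exists_le fun i => (v i).natAbs
    filter_upwards [Filter.eventually_ge_atTop B] with n hn
    refine (h n ⟨v, Fintype.mem_piFinset.2 fun i => Finset.mem_Icc.2 ?_⟩).symm
    have := hB i
    omega

end Pool.Agent.H40.Avo
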