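import Mathlib

set_option autoImplicit false

namespace Pool.Agent.H40.Avo

variable {d : ℕ} {A : Type}

/-- A subshift: closed in the product topology (`A` discrete) and shift invariant. -/
def IsSubshift (X : Set ((Fin d → ℤ) → A)) : Prop :=
  @IsClosed _ (@Pi.topologicalSpace _ (fun _ => A) fun _ => ⊥) X ∧
    ∀ x ∈ X, ∀ u : Fin d → ℤ, (fun v => x (v - u)) ∈ X

/-- A pattern: a finite support with a letter at each of its points. -/
def Pat (d : ℕ) (A : Type) : Type := Σ D : Finset (Fin d → ℤ), D → A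

/-- The pattern is the restriction of a point of `X`. -/
def GV (X : Set ((Fin d → ℤ) → A)) (p : Pat d A) : Prop := ∃ x ∈ X, ∀ v : p.1, x v = p.2 v

/-- The configurations in which no translate of a pattern of `F` occurs. -/
def XF (F : Set (Pat d A)) : Set ((Fin d → ℤ) → A) :=
  {x | ∀ q ∈ F, ∀ u : Fin d → ℤ, ¬ ∀ v : q.1, x (v + u) = q.2 v}

/-- No translate of a pattern of `F` with support inside the support of `p` occurs in `p`. -/
def LV (F : Set (Pat d A)) (p : Pat d A) : Prop :=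
  ∀ q ∈ F, ∀ u : Fin d → ℤ, ¬ ∀ v : q.1, ∃ h : v.1 + u ∈ p.1, p.2 ⟨v.1 + u, h⟩ = q.2 v

/-- `C` is the set of integer points of its real convex hull. -/
def Cvx (C : Finset (Fin d → ℤ)) : Prop :=
  ∀ z : Fin d → ℤ,
    (fun i => (z i : ℝ)) ∈ convexHull ℝ ((fun w i => (w i : ℝ)) '' (C : Set (Fin d → ℤ))) → z ∈ C

/-- The letters that extend `x` restricted to `D` to `v` in a globally valid way. -/
def Ex (X : Set ((Fin d → ℤ) → A)) (x : (Fin d → ℤ) → A) (D : Set (Fin d → ℤ))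
    (v : Fin d → ℤ) : Set A :=
  {a | ∃ y ∈ X, (∀ w ∈ D, y w = x w) ∧ y v = a}

/-- Avo for convex sets, with a uniform finite window `N`. -/
def IsAvo (X : Set ((Fin d → ℤ) → A)) : Prop :=
  ∃ N : Finset (Fin d → ℤ), ∀ (C : Finset (Fin d → ℤ)) (v : Fin d → ℤ), Cvx C → v ∉ C →
    Cvx (insert v C) → ∀ x ∈ X, Ex X x C v = Ex X x {w | w ∈ C ∧ w - v ∈ N} v

/-- SFT on convex sets. -/
def SFTConvex (X : Set ((Fin d → ℤ) → A)) : Prop :=
  ∃ F : Set (Pat d A), F.Finite ∧ X = XF F ∧ ∀ p : Pat d A, Cvx p.1 → LV F p → GV X p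

end Pool.Agent.H40.Avo
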