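import Pool.Agent.H40.BsigDefs

set_option autoImplicit false

namespace Pool.Agent.H40.Bsig

open Filter

instance : Countable Tm := by
  let enc : Tm → ℕ := fun φ => Tm.rec (motive := fun _ => ℕ) (fun i => Nat.pair 0 i) (Nat.pair 1 0)
    (Nat.pair 2 0) (fun _ _ a b => Nat.pair 3 (Nat.pair a b))
    (fun _ _ a b => Nat.pair 4 (Nat.pair a b)) φ
  refine ⟨⟨enc, fun φ => ?_⟩⟩
  induction φ with
  | var i => intro ψ h; cases ψ <;> simp_all [enc]
  | zero => intro ψ h; cases ψ <;> simp_all [enc]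
  | one => intro ψ h; cases ψ <;> simp_all [enc]
  | add _ _ ih1 ih2 =>
    intro χ h; cases χ <;> simp [enc] at h; exact congrArg₂ _ (ih1 h.1) (ih2 h.2)
  | mul _ _ ih1 ih2 =>
    intro χ h; cases χ <;> simp [enc] at h; exact congrArg₂ _ (ih1 h.1) (ih2 h.2)

instance : Countable Fm := by
  obtain ⟨e, he⟩ := exists_injective_nat Tm
  let enc : Fm → ℕ := fun φ => Fm.rec (motive := fun _ => ℕ)
    (fun s t => Nat.pair 0 (Nat.pair (e s) (e t))) (fun s t => Nat.pair 1 (Nat.pair (e s) (e t)))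
    (fun s i => Nat.pair 2 (Nat.pair (e s) i)) (fun _ a => Nat.pair 3 a)
    (fun _ _ a b => Nat.pair 4 (Nat.pair a b)) (fun t _ a => Nat.pair 5 (Nat.pair (e t) a))
    (fun _ a => Nat.pair 6 a) (fun _ a => Nat.pair 7 a) (fun _ a => Nat.pair 8 a) φ
  refine ⟨⟨enc, fun φ => ?_⟩⟩
  induction φ with
  | eq s t => intro ψ h; cases ψ <;> simp_all [enc, he.eq_iff]
  | lt s t => intro ψ h; cases ψ <;> simp_all [enc, he.eq_iff]
  | mem s t => intro ψ h; cases ψ <;> simp_all [enc, he.eq_iff]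
  | neg _ ih => intro ψ h; cases ψ <;> simp [enc] at h; exact congrArg _ (ih h)
  | and _ _ ih1 ih2 =>
    intro χ h; cases χ <;> simp [enc] at h; exact congrArg₂ _ (ih1 h.1) (ih2 h.2)
  | ball _ _ ih => intro χ h; cases χ <;> simp [enc] at h; exact congrArg₂ _ (he h.1) (ih h.2)
  | all _ ih => intro ψ h; cases ψ <;> simp [enc] at h; exact congrArg _ (ih h)
  | ex _ ih => intro ψ h; cases ψ <;> simp [enc] at h; exact congrArg _ (ih h)
  | allS _ ih => intro ψ h; cases ψ <;> simp [enc] at h; exact congrArg _ (ih h)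

def Tm.sup : Tm → ℕ
  | .var i => i + 1
  | .zero => 0
  | .one => 0
  | .add s t => max s.sup t.sup
  | .mul s t => max s.sup t.sup

def Fm.sup : Fm → ℕ
  | .eq s t => max s.sup t.sup
  | .lt s t => max s.sup t.sup
  | .mem t i => max t.sup (i + 1)
  | .neg φ => φ.sup
  | .and φ ψ => max φ.sup ψ.sup
  | .ball t φ => max t.sup φ.sup
  | .all φ => φ.sup
  | .ex φ => φ.sup
  | .allS φ => φ.sup

theorem ev_congr {M : Mod} (t : Tm) {v v' : ℕ → M.N} (h : ∀ i < t.sup, v i = v' i) :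
    t.ev M v = t.ev M v' := by
  induction t with
  | var i => exact h i (Nat.lt_succ_self i)
  | zero => rfl
  | one => rfl
  | add _ _ a b =>
    exact congrArg₂ M.add (a fun i hi => h i (lt_max_of_lt_left hi))
      (b fun i hi => h i (lt_max_of_lt_right hi))
  | mul _ _ a b =>
    exact congrArg₂ M.mul (a fun i hi => h i (lt_max_of_lt_left hi))
      (b fun i hi => h i (lt_max_of_lt_right hi))

theorem cons_congr {α : Type} {n : ℕ} {v v' : ℕ → α} (h : ∀ i < n, v i = v' i) (x : α) :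
    ∀ i < n, cons x v i = cons x v' i
  | 0, _ => rfl
  | i + 1, hi => h i (by omega)

theorem sat_congr {M : Mod} (φ : Fm) : ∀ {v v' : ℕ → M.N} {V V' : ℕ → Set M.N},
    (∀ i < φ.sup, v i = v' i) → (∀ i < φ.sup, V i = V' i) → (Sat M φ v V ↔ Sat M φ v' V') := by
  induction φ with
  | eq s t =>
    intro v v' V V' h _
    simp only [Sat, ev_congr s fun i hi => h i (lt_max_of_lt_left hi),
      ev_congr t fun i hi => h i (lt_max_of_lt_right hi)]
  | lt s t =>
    intro v v' V V' h _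
    simp only [Sat, ev_congr s fun i hi => h i (lt_max_of_lt_left hi),
      ev_congr t fun i hi => h i (lt_max_of_lt_right hi)]
  | mem s i =>
    intro v v' V V' h h'
    simp only [Sat, ev_congr s fun i hi => h i (lt_max_of_lt_left hi),
      h' i (lt_max_of_lt_right (Nat.lt_succ_self i))]
  | neg _ ih => exact fun h h' => not_congr (ih h h')
  | and _ _ a b =>
    exact fun h h' => and_congr
      (a (fun i hi => h i (lt_max_of_lt_left hi)) fun i hi => h' i (lt_max_of_lt_left hi))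
      (b (fun i hi => h i (lt_max_of_lt_right hi)) fun i hi => h' i (lt_max_of_lt_right hi))
  | ball t _ ih =>
    intro v v' V V' h h'
    simp only [Sat, ev_congr t fun i hi => h i (lt_max_of_lt_left hi)]
    exact forall₂_congr fun x _ => ih (cons_congr (fun i hi => h i (lt_max_of_lt_right hi)) x)
      fun i hi => h' i (lt_max_of_lt_right hi)
  | all _ ih => exact fun h h' => forall_congr' fun x => ih (cons_congr h x) h'
  | ex _ ih => exact fun h h' => exists_congr fun x => ih (cons_congr h x) h'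
  | allS _ ih => exact fun h h' => forall₂_congr fun x _ => ih h (cons_congr h' x)

abbrev std : Mod := ⟨ℕ, 0, 1, (· + ·), (· * ·), (· < ·), Set.univ⟩

theorem ex_use {θ : Fm} (h : Bdd θ) : ∀ u : ℕ → ℕ, ∃ b, ∀ V V' : ℕ → Set ℕ,
    (∀ i, ∀ x < b, x ∈ V i ↔ x ∈ V' i) → (Sat std θ u V ↔ Sat std θ u V') := by
  induction h with
  | eq => exact fun _ => ⟨0, fun _ _ _ => Iff.rfl⟩
  | lt => exact fun _ => ⟨0, fun _ _ _ => Iff.rfl⟩
  | mem t i => exact fun u => ⟨t.ev std u + 1, fun _ _ h => h i _ (Nat.lt_succ_self _)⟩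
  | neg _ ih => exact fun u => (ih u).imp fun _ h V V' e => not_congr (h V V' e)
  | and _ _ a b =>
    intro u
    obtain ⟨x, hx⟩ := a u
    obtain ⟨y, hy⟩ := b u
    exact ⟨max x y, fun V V' e => and_congr (hx V V' fun i t h => e i t (lt_max_of_lt_left h))
      (hy V V' fun i t h => e i t (lt_max_of_lt_right h))⟩
  | ball t _ ih =>
    intro u
    choose b hb using fun x => ih (cons x u)
    exact ⟨(Finset.range (t.ev std u)).sup b, fun V V' e => forall₂_congr fun x hx => hb x V V'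
      fun i y h => e i y (h.trans_le (Finset.le_sup (f := b) (Finset.mem_range.2 hx)))⟩

def dec : ℕ → ℕ → ℕ
  | d, 0 => d.unpair.1
  | d, i + 1 => dec d.unpair.2 i

theorem dec_le (i : ℕ) : ∀ d, dec d i ≤ d := by
  induction i with
  | zero => exact Nat.unpair_left_le
  | succ i ih => exact fun d => (ih _).trans (Nat.unpair_right_le d)

theorem dec_pair (a d : ℕ) : dec (Nat.pair a d) = cons a (dec d) :=
  funext (by rintro (_ | i) <;> simp [dec, cons])

noncomputable def ops : ℕ → Fm ⊕ ℕ × Bool := (exists_surjective_nat _).choose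
noncomputable def cod (o : Fm ⊕ ℕ × Bool) : ℕ := ((exists_surjective_nat _).choose_spec o).choose
theorem ops_cod (o : Fm ⊕ ℕ × Bool) : ops (cod o) = o :=
  ((exists_surjective_nat _).choose_spec o).choose_spec

open Classical in
noncomputable def use (e x : ℕ) : ℕ :=
  Sum.elim (fun θ => if h : Bdd θ then (ex_use h (dec x)).choose else 0) (fun _ => 0) (ops e)

abbrev H : Type := ℕ → ℕ → ℕ → Prop

def restr (h : H) (z : ℕ) : H := fun y c x => y < z ∧ h y c x

theorem restr_restr (h : H) {z x : ℕ} (hz : z ≤ x) : restr (restr h x) z = restr h z := by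
  funext y c t
  exact propext ⟨fun e => ⟨e.1, e.2.2⟩, fun e => ⟨e.1, e.1.trans_le hz, e.2⟩⟩

noncomputable def wit (h : H) (c x : ℕ) : ℕ := sInf {y | h y c x}

def Rh (h : H) (c x : ℕ) : Prop := ∃ y, h y c x

noncomputable def Fh (fam : ℕ → ℕ → ℕ) (h : H) (b : ℕ) : ℕ :=
  ((Finset.range (b + 1) ×ˢ Finset.range (b + 1)).sup fun p =>
    use p.1 p.2 + fam p.1 p.2 + wit h p.1 p.2) + (b + 1) ^ 2

section F

variable {fam : ℕ → ℕ → ℕ} {h : H}

theorem Fh_mono : Monotone (Fh fam h) := fun a b e => Nat.add_le_add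
  (Finset.sup_mono (Finset.product_subset_product (Finset.range_mono (by omega))
    (Finset.range_mono (by omega)))) (Nat.pow_le_pow_left (by omega) 2)

theorem sq_le_Fh (b : ℕ) : (b + 1) ^ 2 ≤ Fh fam h b := Nat.le_add_left _ _

theorem lt_Fh (b : ℕ) : b < Fh fam h b := lt_of_lt_of_le (by nlinarith) (sq_le_Fh b)

theorem Fh_dom {b c x : ℕ} (hc : c ≤ b) (hx : x ≤ b) :
    use c x + fam c x + wit h c x < Fh fam h b :=
  Nat.lt_add_of_pos_right (by positivity) |>.trans_le' (Finset.le_sup (f := fun p : ℕ × ℕ =>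
    use p.1 p.2 + fam p.1 p.2 + wit h p.1 p.2) (b := (c, x)) (Finset.mem_product.2
      ⟨Finset.mem_range.2 (Nat.lt_succ_of_le hc), Finset.mem_range.2 (Nat.lt_succ_of_le hx)⟩))

theorem wit_restr (z c x : ℕ) :
    wit (restr h z) c x ≤ wit h c x ∧ (wit h c x < z → wit (restr h z) c x = wit h c x) := by
  by_cases e : {y | restr h z y c x}.Nonempty
  · have e1 := Nat.sInf_mem e
    have e2 : {y | h y c x}.Nonempty := ⟨_, e1.2⟩
    have e3 : wit h c x ≤ wit (restr h z) c x := Nat.sInf_le e1.2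
    have e4 : wit (restr h z) c x ≤ wit h c x := Nat.sInf_le ⟨e3.trans_lt e1.1, Nat.sInf_mem e2⟩
    exact ⟨e4, fun _ => e4.antisymm e3⟩
  · have e1 : wit (restr h z) c x = 0 := by
      rw [wit, Set.not_nonempty_iff_eq_empty.1 e, Nat.sInf_empty]
    refine ⟨e1 ▸ Nat.zero_le _, fun e2 => e1.trans (Nat.sInf_eq_zero.2 (Or.inr ?_)).symm⟩
    by_contra e3
    exact e ⟨_, e2, Nat.sInf_mem (Set.nonempty_iff_ne_empty.2 e3)⟩

theorem Fh_restr_le (z b : ℕ) : Fh fam (restr h z) b ≤ Fh fam h b :=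
  Nat.add_le_add_right (Finset.sup_mono_fun fun p _ =>
    Nat.add_le_add_left (wit_restr z p.1 p.2).1 _) _

theorem Fh_restr_eq {z b : ℕ} (e : Fh fam h b ≤ z) : Fh fam (restr h z) b = Fh fam h b :=
  congrArg (· + _) (Finset.sup_congr rfl fun p hp => by
    have := Finset.mem_product.1 hp
    have := Fh_dom (fam := fam) (h := h) (Nat.lt_succ_iff.1 (Finset.mem_range.1 this.1))
      (Nat.lt_succ_iff.1 (Finset.mem_range.1 this.2))
    rw [(wit_restr z p.1 p.2).2 (by omega)])

theorem Rh_restr {z b c x : ℕ} (e : Fh fam h b ≤ z) (hc : c ≤ b) (hx : x ≤ b) :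
    Rh (restr h z) c x ↔ Rh h c x := by
  refine ⟨fun ⟨y, e⟩ => ⟨y, e.2⟩, fun e' => ⟨wit h c x, ?_, Nat.sInf_mem e'⟩⟩
  have := Fh_dom (fam := fam) (h := h) hc hx
  omega

theorem it_mono (a : ℕ) : StrictMono fun j => (Fh fam h)^[j] a :=
  strictMono_nat_of_lt_succ fun j => by rw [Function.iterate_succ_apply']; exact lt_Fh _

theorem it_restr_le (z a j : ℕ) : (Fh fam (restr h z))^[j] a ≤ (Fh fam h)^[j] a := by
  induction j with
  | zero => rfl
  | succ j ih =>
    rw [Function.iterate_succ_apply', Function.iterate_succ_apply']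
    exact (Fh_restr_le _ _).trans (Fh_mono ih)

theorem it_restr_eq {z a j : ℕ} (e : (Fh fam h)^[j] a ≤ z) :
    (Fh fam (restr h z))^[j] a = (Fh fam h)^[j] a := by
  induction j with
  | zero => rfl
  | succ j ih =>
    have := ih (((it_mono a).monotone (Nat.le_succ j)).trans e)
    rw [Function.iterate_succ_apply'] at e
    rw [Function.iterate_succ_apply', Function.iterate_succ_apply', this, Fh_restr_eq e]

end F

def Good (θ : Fm) (h : H) (z d x : ℕ) : Prop :=
  ∃ w < z, ∀ V : ℕ → Set ℕ, (∀ i < θ.sup, ∀ t < z, (Rh h (dec d.unpair.2 (2 * i)) t → t ∈ V i) ∧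
    (Rh h (dec d.unpair.2 (2 * i + 1)) t → t ∉ V i)) → Sat std θ (cons w (cons x (dec d.unpair.1))) V

structure Par where
  fam : ℕ → ℕ → ℕ
  Ψ : ℕ → H → ℕ → ℕ → Prop

namespace Par

variable (p : Par)

def Φ (h : H) (z c x : ℕ) : Prop :=
  Sum.elim (fun θ => Good θ h z c.unpair.2 x)
    (fun o => z = x ∧ (p.Ψ o.1 h c.unpair.2 x ↔ o.2 = true)) (ops c.unpair.1)

def hist : ℕ → H
  | 0 => fun _ _ _ => False
  | z + 1 => fun y c x => hist z y c x ∨ (y = z ∧ p.Φ (hist z) z c x)

def g : H := fun y => p.Φ (p.hist y) y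

theorem hist_eq (z : ℕ) : p.hist z = restr p.g z := by
  induction z with
  | zero => funext y c x; simp [hist, restr]
  | succ z ih =>
    funext y c x
    refine propext ⟨?_, fun e => ?_⟩
    · rintro (e | ⟨rfl, e⟩)
      · rw [ih] at e
        exact ⟨e.1.trans (Nat.lt_succ_self z), e.2⟩
      · exact ⟨Nat.lt_succ_self _, e⟩
    · rcases Nat.lt_succ_iff_lt_or_eq.1 e.1 with e' | rfl
      · exact Or.inl (ih ▸ ⟨e', e.2⟩)
      · exact Or.inr ⟨rfl, e.2⟩

theorem g_sig (θ : Fm) (z d x : ℕ) :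
    p.g z (Nat.pair (cod (.inl θ)) d) x ↔ Good θ (restr p.g z) z d x := by
  simp only [g, Φ, Nat.unpair_pair, ops_cod, hist_eq, Sum.elim_inl]

theorem R_dec (j : ℕ) (b : Bool) (d x : ℕ) :
    Rh p.g (Nat.pair (cod (.inr (j, b))) d) x ↔ (p.Ψ j (restr p.g x) d x ↔ b = true) := by
  simp only [Rh, g, Φ, Nat.unpair_pair, ops_cod, hist_eq, Sum.elim_inr]
  exact ⟨fun ⟨_, e, h⟩ => e ▸ h, fun h => ⟨x, rfl, h⟩⟩

noncomputable abbrev F : ℕ → ℕ := Fh p.fam p.g

end Par

end Pool.Agent.H40.Bsig
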