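import Pool.Agent.H40.Bsig2

set_option autoImplicit false

namespace Pool.Agent.H40.Bsig

open Filter

theorem ae_iff {P Q : ℕ → Prop} (h : (∀ᶠ m in U, P m) ↔ ∀ᶠ m in U, Q m) : ∀ᶠ m in U, (P m ↔ Q m) := by
  by_cases e : ∀ᶠ m in U, P m
  · exact (e.and (h.1 e)).mono fun m a => iff_of_true a.1 a.2
  · exact ((ae_not.2 e).and (ae_not.2 fun e' => e (h.2 e'))).mono fun m a => iff_of_false a.1 a.2

theorem overspill {P : ℕ → ℕ → Prop} (h : ∀ j, ∀ᶠ m in U, P j m) :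
    ∃ K : ℕ → ℕ, (∀ j, ∀ᶠ m in U, j ≤ K m) ∧ ∀ᶠ m in U, P (K m) m := by
  classical
  exact ⟨fun m => Nat.findGreatest (P · m) m,
    fun j => ((h j).and (U_ge j)).mono fun m e => Nat.le_findGreatest e.2 e.1,
    (h 0).mono fun m e => Nat.findGreatest_spec (P := (P · m)) (Nat.zero_le m) e⟩

abbrev sp (i j : ℕ) : ℕ := (i + j) * (i + j) + i

theorem sp_inj {a b c d : ℕ} (h : sp a b = sp c d) : a = c ∧ b = d := by
  have : a + b = c + d := by
    unfold sp at h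
    rcases lt_trichotomy (a + b) (c + d) with e | e | e
    · nlinarith
    · exact e
    · nlinarith
  unfold sp at h
  rw [this] at h
  omega

theorem le_sp (a b : ℕ) : a ≤ sp a b ∧ b ≤ sp a b := ⟨Nat.le_add_left _ _, by unfold sp; nlinarith⟩

theorem cons_comp {α : Type} (x : α) (u : ℕ → α) (ρ : ℕ → ℕ) :
    cons x (fun i => u (ρ i)) = fun i => cons x u (cons 0 (fun i => ρ i + 1) i) :=
  funext (by rintro (_ | i) <;> rfl)

section BF

variable {M : Mod} {Z : M.N → Set M.N} {B : (ℕ → M.N) → (ℕ → M.N) → Prop}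

structure IsBF (M : Mod) (Z : M.N → Set M.N) (B : (ℕ → M.N) → (ℕ → M.N) → Prop) : Prop where
  symm : ∀ {u u'}, B u u' → B u' u
  reix : ∀ {u u'} (π : ℕ → ℕ), B u u' → B (fun i => u (π i)) fun i => u' (π i)
  forth : ∀ {u u'}, B u u' → ∀ x, ∃ x', B (cons x u) (cons x' u')
  atom : ∀ {u u'}, B u u' → (M.lt (u 0) (u 1) → M.lt (u' 0) (u' 1)) ∧ (u 0 = u 1 → u' 0 = u' 1) ∧
    (u 0 = M.zero → u' 0 = M.zero) ∧ (u 0 = M.one → u' 0 = M.one) ∧
    (u 0 = M.add (u 2) (u 1) → u' 0 = M.add (u' 2) (u' 1)) ∧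
    (u 0 = M.mul (u 2) (u 1) → u' 0 = M.mul (u' 2) (u' 1)) ∧ (u 0 ∈ Z (u 1) → u' 0 ∈ Z (u' 1))

theorem IsBF.drop (h : IsBF M Z B) {u u' : ℕ → M.N} {x x' y y' z z' : M.N}
    (b : B (cons x (cons y (cons z u))) (cons x' (cons y' (cons z' u')))) : B (cons x u) (cons x' u') := by
  have := h.reix (cons 0 fun i => i + 3) b
  have e : ∀ (x y z : M.N) (u : ℕ → M.N),
      (fun i => cons x (cons y (cons z u)) (cons 0 (fun i => i + 3) i)) = cons x u :=
    fun _ _ _ _ => funext (by rintro (_ | i) <;> rfl)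
  rwa [e, e] at this

theorem IsBF.tm (h : IsBF M Z B) (t : Tm) : ∀ {u u' : ℕ → M.N} (ρ : ℕ → ℕ), B u u' →
    B (cons (t.ev M fun i => u (ρ i)) u) (cons (t.ev M fun i => u' (ρ i)) u') := by
  induction t with
  | var i =>
    intro u u' ρ b
    have e : ∀ u : ℕ → M.N, (fun j => u (cons (ρ i) id j)) = cons (u (ρ i)) u :=
      fun _ => funext (by rintro (_ | i) <;> rfl)
    have := h.reix (cons (ρ i) id) b
    rwa [e, e] at this
  | zero =>
    intro u u' ρ b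
    obtain ⟨x, hx⟩ := h.forth b M.zero
    obtain rfl : x = M.zero := (h.atom hx).2.2.1 rfl
    exact hx
  | one =>
    intro u u' ρ b
    obtain ⟨x, hx⟩ := h.forth b M.one
    obtain rfl : x = M.one := (h.atom hx).2.2.2.1 rfl
    exact hx
  | add s t a a' =>
    intro u u' ρ b
    obtain ⟨x, hx⟩ := h.forth (a' (fun i => ρ i + 1) (a ρ b)) ((s.add t).ev M fun i => u (ρ i))
    obtain rfl : x = (s.add t).ev M fun i => u' (ρ i) := (h.atom hx).2.2.2.2.1 rfl
    exact h.drop hx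
  | mul s t a a' =>
    intro u u' ρ b
    obtain ⟨x, hx⟩ := h.forth (a' (fun i => ρ i + 1) (a ρ b)) ((s.mul t).ev M fun i => u (ρ i))
    obtain rfl : x = (s.mul t).ev M fun i => u' (ρ i) := (h.atom hx).2.2.2.2.2.1 rfl
    exact h.drop hx

theorem IsBF.mem (h : IsBF M Z B) {u u' : ℕ → M.N} (b : B u u') (i j : ℕ) :
    u i ∈ Z (u j) ↔ u' i ∈ Z (u' j) :=
  ⟨(h.atom (h.reix (cons i fun _ => j) b)).2.2.2.2.2.2,
    (h.atom (h.reix (cons i fun _ => j) (h.symm b))).2.2.2.2.2.2⟩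

theorem IsBF.sat (h : IsBF M Z B) (φ : Fm)
    (hS : ∀ X, X ∈ M.S ↔ ∃ c c', X = Z c ∧ Xᶜ = Z c') :
    ∀ (ρ σ : ℕ → ℕ) {u u' : ℕ → M.N}, B u u' →
    (Sat M φ (fun i => u (ρ i)) (fun i => Z (u (σ i))) ↔
      Sat M φ (fun i => u' (ρ i)) fun i => Z (u' (σ i))) := by
  have two : ∀ {P : (ℕ → M.N) → Prop}, (∀ u u', B u u' → P u → P u') → ∀ {u u'}, B u u' → (P u ↔ P u') :=
    fun e _ _ b => ⟨e _ _ b, e _ _ (h.symm b)⟩
  induction φ with
  | eq s t =>
    exact fun ρ σ _ _ => two (P := fun u => Sat M (.eq s t) (fun i => u (ρ i)) fun i => Z (u (σ i)))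
      fun u u' b => (h.atom (h.tm s (fun i => ρ i + 1) (h.tm t ρ b))).2.1
  | lt s t =>
    exact fun ρ σ _ _ => two (P := fun u => Sat M (.lt s t) (fun i => u (ρ i)) fun i => Z (u (σ i)))
      fun u u' b => (h.atom (h.tm s (fun i => ρ i + 1) (h.tm t ρ b))).1
  | mem t i => exact fun ρ σ _ _ b => h.mem (h.tm t ρ b) 0 (σ i + 1)
  | neg _ ih => exact fun ρ σ _ _ b => not_congr (ih ρ σ b)
  | and _ _ a a' => exact fun ρ σ _ _ b => and_congr (a ρ σ b) (a' ρ σ b)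
  | ball t φ ih =>
    refine fun ρ σ _ _ => two (P := fun u => Sat M (.ball t φ) (fun i => u (ρ i)) fun i => Z (u (σ i)))
      fun u u' b e x' hx' => ?_
    obtain ⟨x, hx⟩ := h.forth (h.symm (h.tm t ρ b)) x'
    have e' := e x ((h.atom hx).1 hx')
    have := ih (cons 0 fun i => ρ i + 1 + 1) (fun i => σ i + 1 + 1) hx
    rw [← cons_comp x' (cons _ u') fun i => ρ i + 1, ← cons_comp x (cons _ u) fun i => ρ i + 1] at this
    exact this.2 e'
  | all φ ih =>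
    refine fun ρ σ _ _ => two (P := fun u => Sat M (.all φ) (fun i => u (ρ i)) fun i => Z (u (σ i)))
      fun u u' b e x' => ?_
    obtain ⟨x, hx⟩ := h.forth (h.symm b) x'
    have := ih (cons 0 fun i => ρ i + 1) (fun i => σ i + 1) hx
    rw [← cons_comp, ← cons_comp] at this
    exact this.2 (e x)
  | ex φ ih =>
    refine fun ρ σ _ _ => two (P := fun u => Sat M (.ex φ) (fun i => u (ρ i)) fun i => Z (u (σ i)))
      fun u u' b ⟨x, e⟩ => ?_
    obtain ⟨x', hx⟩ := h.forth b x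
    have := ih (cons 0 fun i => ρ i + 1) (fun i => σ i + 1) hx
    rw [← cons_comp, ← cons_comp] at this
    exact ⟨x', this.1 e⟩
  | allS φ ih =>
    refine fun ρ σ _ _ => two (P := fun u => Sat M (.allS φ) (fun i => u (ρ i)) fun i => Z (u (σ i)))
      fun u u' b e X hX => ?_
    obtain ⟨c, c', rfl, hc⟩ := (hS X).1 hX
    obtain ⟨d, hd⟩ := h.forth (h.symm b) c
    obtain ⟨d', hd'⟩ := h.forth hd c'
    have e' := e (Z d) ((hS _).2 ⟨d, d', rfl, Set.ext fun x => by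
      obtain ⟨x', hx⟩ := h.forth (h.symm hd') x
      exact (not_congr (h.mem hx 0 2)).trans
        ((Set.ext_iff.1 hc x').trans (h.mem hx 0 1).symm)⟩)
    have := ih (fun i => ρ i + 1) (cons 0 fun i => σ i + 1) hd
    have e2 : ∀ (x : M.N) (u : ℕ → M.N), (fun i => Z (cons x u (cons 0 (fun i => σ i + 1) i))) =
      cons (Z x) fun i => Z (u (σ i)) := fun _ _ => funext (by rintro (_ | i) <;> rfl)
    rw [e2, e2] at this
    exact this.2 e'

end BF

namespace Cut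

variable {p : Cut}

theorem rfl_ae {f : ℕ → ℕ} : ∀ᶠ m in U, f m = f m := Eventually.of_forall fun _ => rfl

theorem pair_ae (x y : p.I) : ∀ᶠ m in U, rep (pair p.M x y) m = sp (rep x m) (rep y m) :=
  los_tm (.add (.mul (.add (.var 0) (.var 1)) (.add (.var 0) (.var 1))) (.var 0)) (cons x fun _ => y)
    (fun m => cons (rep x m) fun _ => rep y m) (cons_ae (fun _ => rfl_ae) rfl_ae)

theorem dv_iff (a i n : p.I) :
    (∃ q, p.M.mul (p.M.add (p.M.mul a (p.M.add i p.M.one)) p.M.one) q = n) ↔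
      ∀ᶠ m in U, ∃ q, (rep a m * (rep i m + 1) + 1) * q = rep n m := by
  have key : ∀ q : p.I, ∀ᶠ m in U, rep (p.M.mul (p.M.add (p.M.mul a (p.M.add i p.M.one)) p.M.one) q) m =
      (rep a m * (rep i m + 1) + 1) * rep q m := fun q =>
    los_tm (.mul (.add (.mul (.var 0) (.add (.var 1) .one)) .one) (.var 2))
      (cons a (cons i fun _ => q)) (fun m => cons (rep a m) (cons (rep i m) fun _ => rep q m))
      (cons_ae (cons_ae (fun _ => rfl_ae) rfl_ae) rfl_ae)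
  refine ⟨fun ⟨q, e⟩ => (key q).mono fun m e' => ⟨_, e ▸ e'.symm⟩, fun h => ?_⟩
  obtain ⟨f, hf⟩ := ae_choose h
  obtain ⟨q, hq⟩ := ex_rep (f := f) ((bd_rep n).mono (hf.mono fun m e => by
    rw [← e]
    exact Nat.le_mul_of_pos_left _ (Nat.succ_pos _)))
  exact ⟨q, (ext_iff _ _).2 (((key q).and (hf.and hq)).mono fun m e => by rw [e.1, e.2.2, e.2.1])⟩

theorem codes_iff {W : ℕ → Set ℕ} {b : ℕ → ℕ} (hb : p.Bd b) (hW : ∀ m, ∀ x ∈ W m, x < b m) (c : p.I) :
    Codes p.M c {x | ∀ᶠ m in U, rep x m ∈ W m} ↔ ∀ᶠ m in U, Codes std (rep c m) (W m) := by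
  constructor
  · rintro ⟨k, a, n, rfl, h⟩
    have := (ball_iff (hb.max (bd_rep k)) fun m i => i ∈ W m ↔ i < rep k m ∧
      ∃ q, (rep a m * (i + 1) + 1) * q = rep n m).1 fun i _ => ae_iff
        ((h i).trans ((and_congr Iff.rfl (dv_iff a i n)).trans eventually_and.symm))
    filter_upwards [this, pair_ae k (pair p.M a n), pair_ae a n] with m a1 a2 a3
    refine ⟨rep k m, rep a m, rep n m, by rw [a2, a3]; rfl, fun i => ?_⟩
    by_cases e : i < Max.max (b m) (rep k m)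
    · exact a1 i e
    · exact iff_of_false (fun e' => e (lt_max_of_lt_left (hW m i e'))) fun e' =>
        e (lt_max_of_lt_right e'.1)
  · intro h
    obtain ⟨k, hk⟩ := ae_choose h
    obtain ⟨a, ha⟩ := ae_choose hk
    obtain ⟨n, hn⟩ := ae_choose ha
    have e : ∀ᶠ m in U, rep c m = sp (k m) (sp (a m) (n m)) := hn.mono fun m e => e.1
    obtain ⟨k', hk'⟩ := ex_rep (f := k) ((bd_rep c).mono (e.mono fun m e => e ▸ (le_sp _ _).1))
    obtain ⟨a', ha'⟩ := ex_rep (f := a) ((bd_rep c).mono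
      (e.mono fun m e => e ▸ (le_sp _ _).1.trans (le_sp _ _).2))
    obtain ⟨n', hn'⟩ := ex_rep (f := n) ((bd_rep c).mono
      (e.mono fun m e => e ▸ (le_sp _ _).2.trans (le_sp _ _).2))
    refine ⟨k', a', n', (ext_iff _ _).2 ?_, fun i => Iff.trans (eventually_congr ?_)
      ((and_congr Iff.rfl (dv_iff a' i n')).trans eventually_and.symm).symm⟩
    · filter_upwards [e, hk', ha', hn', pair_ae k' (pair p.M a' n'), pair_ae a' n'] with
        m a1 a2 a3 a4 a5 a6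
      rw [a5, a6, a1, a2, a3, a4]
    · filter_upwards [hn, hk', ha', hn'] with m a1 a2 a3 a4
      rw [a2, a3, a4]
      exact a1.2 _

theorem not_ind (G : ℕ → ℕ → ℕ → ℕ) (h1 : ∀ z k m, G z k m ≤ p.F^[k] m)
    (h2 : ∀ j, ∃ z : p.I, ∀ᶠ m in U, ∀ k, j ≤ k → p.F^[j] m ≤ G (rep z m) k m) {φ : Fm}
    (hφ : Lv 2 true φ) (v : ℕ → p.I) {V : ℕ → Set p.I} (hV : ∀ i, V i ∈ p.M.S)
    (h3 : ∀ k, Sat p.M φ (cons k v) V ↔
      ∃ y : p.I, ∀ z : p.I, ∀ᶠ m in U, G (rep z m) (rep k m) m ≤ rep y m) : ¬ Ind p.M 2 := by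
  have key : ∀ k, Sat p.M φ (cons k v) V ↔ ∃ j, ∀ᶠ m in U, rep k m = j := fun k => by
    refine (h3 k).trans ⟨fun ⟨y, hy⟩ => (std_or _).resolve_right fun h => ?_, fun ⟨j, hj⟩ => ?_⟩
    · obtain ⟨j, hj⟩ := bd_rep y
      obtain ⟨z, hz⟩ := h2 (j + 1)
      obtain ⟨m, a1, a2, a3, a4⟩ := (hj.and (hz.and ((hy z).and (h (j + 1))))).exists
      exact absurd ((a2 _ a4).trans (a3.trans a1)) (p.itm m (Nat.lt_succ_self j)).not_ge
    · obtain ⟨y, hy⟩ := ex_rep (bd_it (p := p) j)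
      exact ⟨y, fun z => (hj.and hy).mono fun m e => by rw [e.1, e.2]; exact h1 _ _ _⟩
  intro h
  obtain ⟨a, ha⟩ := ex_rep (bd_it (p := p) 0)
  obtain ⟨j, hj⟩ := (key a).1 (h φ hφ v V hV ((key _).2 ⟨0, rep_mk _ _⟩) (fun x hx =>
    ((key x).1 hx).elim fun j e => (key _).2 ⟨j + 1, (e.and (succ_ae x)).mono fun m e => by
      rw [e.2, e.1]⟩) a)
  obtain ⟨m, a1, a2, a3⟩ := (ha.and (hj.and (U_ge (j + 1)))).exists
  rw [a1] at a2
  exact absurd (a2 ▸ a3 : j + 1 ≤ j) (by omega)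

end Cut

theorem ex_codes {W : Set ℕ} {k : ℕ} (hW : ∀ x ∈ W, x < k) : ∃ c, Codes std c W := by
  classical
  refine ⟨_, k, k.factorial, ∏ j ∈ (Finset.range k).filter (· ∈ W), (k.factorial * (j + 1) + 1), rfl,
    fun i => ⟨fun h => ⟨hW i h, (Finset.dvd_prod_of_mem _ (Finset.mem_filter.2
      ⟨Finset.mem_range.2 (hW i h), h⟩)).imp fun _ => Eq.symm⟩, fun ⟨h1, q, h2⟩ => by_contra fun h => ?_⟩⟩
  have h3 : Nat.Coprime (k.factorial * (i + 1) + 1)
      (∏ j ∈ (Finset.range k).filter (· ∈ W), (k.factorial * (j + 1) + 1)) :=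
    Nat.Coprime.prod_right fun j hj => by
      have hj := Finset.mem_filter.1 hj
      have hj' := Finset.mem_range.1 hj.1
      have key : ∀ i j : ℕ, i < j → j < k →
          Nat.Coprime (k.factorial * (i + 1) + 1) (k.factorial * (j + 1) + 1) := fun i j a b => by
        rw [mul_comm _ (i + 1), mul_comm _ (j + 1)]
        exact Nat.coprime_mul_succ (Nat.dvd_factorial (by omega) (by omega))
      rcases lt_trichotomy i j with e | e | e
      · exact key i j e hj'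
      · exact absurd (e ▸ hj.2) h
      · exact (key j i e h1).symm
  have := Nat.Coprime.eq_one_of_dvd h3 ⟨q, h2.symm⟩
  have := k.factorial_pos
  nlinarith

end Pool.Agent.H40.Bsig
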