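import Pool.Agent.H40.Bsig3

set_option autoImplicit false

namespace Pool.Agent.H40.Bsig

open Filter Cut

namespace Par

noncomputable def cut (p : Par) : Cut := ⟨p.F, Fh_mono, sq_le_Fh, fun _ => Rh p.g⟩

variable {p : Par}

theorem dom {f g : ℕ → ℕ} (h : p.cut.Bd f) (h' : p.cut.Bd g) :
    p.cut.Bd fun m => use (f m) (g m) + p.fam (f m) (g m) + wit p.g (f m) (g m) :=
  (h.max h').F.mono (Eventually.of_forall fun _ =>
    (Fh_dom (le_max_left _ _) (le_max_right _ _)).le)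

theorem sig : p.cut.Sig := by
  intro θ hθ V hV
  classical
  choose c c' h1 h2 using hV
  obtain ⟨d₂, h3, h4⟩ := code (2 * θ.sup) fun i => if i % 2 = 0 then c (i / 2) else c' (i / 2)
  refine ⟨cod (.inl θ), d₂, h3, fun v d₁ h5 h6 x => ?_⟩
  have h7 : ∀ᶠ m in U, ∀ i ∈ Set.Iio θ.sup, dec (d₁ m) i = rep (v i) m ∧
      dec (d₂ m) (2 * i) = rep (c i) m ∧ dec (d₂ m) (2 * i + 1) = rep (c' i) m :=
    (eventually_all_finite (Set.finite_Iio _)).2 fun i (hi : i < _) => (h6 i hi).and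
      ((by simpa using h4 (2 * i) (by omega) : ∀ᶠ m in U, dec (d₂ m) (2 * i) = rep (c i) m).and (by
        simpa [Nat.add_mod, show (2 * i + 1) / 2 = i by omega] using h4 (2 * i + 1) (by omega)))
  have h8 : ∀ b, p.cut.Bd b → ∀ᶠ m in U, ∀ i ∈ Set.Iio θ.sup, ∀ t < b m,
      (Rh p.g (rep (c' i) m) t ↔ ¬ Rh p.g (rep (c i) m) t) := fun b hb =>
    (eventually_all_finite (Set.finite_Iio _)).2 fun i _ => (ball_iff hb _).1 fun t _ => by
      have e : t ∈ Zs (c' i) ↔ t ∉ Zs (c i) := by rw [← h1, ← h2]; rfl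
      by_cases e' : t ∈ Zs (c i)
      · exact (e'.and (ae_not.2 fun e'' => e.1 e'' e')).mono fun m a => iff_of_false a.2 fun b => b a.1
      · exact ((e.2 e').and (ae_not.2 e')).mono fun m a => iff_of_true a.1 a.2
  have h9 : ∀ w : p.cut.I, Sat p.cut.M θ (cons w (cons x v)) V ↔ ∀ᶠ m in U,
      Sat std θ (cons (rep w m) (cons (rep x m) (dec (d₁ m)))) fun i => {t | Rh p.g (rep (c i) m) t} :=
    fun w => (los hθ (W := fun m i => {t | Rh p.g (rep (c i) m) t}) (fun i t => by rw [h1]; rfl) _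
      (fun m => cons (rep w m) (cons (rep x m) fun i => rep (v i) m))
      (cons_ae (cons_ae (fun _ => Eventually.of_forall fun _ => rfl)
        (Eventually.of_forall fun _ => rfl)) (Eventually.of_forall fun _ => rfl))).trans
      (eventually_congr (h7.mono fun m e => sat_congr θ
        (cons_congr (cons_congr (fun i hi => (e i hi).1.symm) _) _) fun _ _ => rfl))
  refine ⟨fun ⟨w, hw⟩ => ?_, fun h => ?_⟩
  · have hb := (dom (bd_const (cod (.inl θ))) ((bd_rep w).pair ((bd_rep x).pair h5))).mono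
      (Eventually.of_forall fun m => (Nat.le_add_right _ _).trans (Nat.le_add_right _ _))
    filter_upwards [(h9 w).1 hw, h7, h8 _ hb] with m a1 a2 a3
    set b := use (cod (.inl θ)) (Nat.pair (rep w m) (Nat.pair (rep x m) (d₁ m))) with hb
    refine ⟨p.F (max (max b (rep w m)) (d₂ m)), (p.g_sig _ _ _ _).2 ⟨rep w m,
      ((le_max_right _ _).trans (le_max_left _ _)).trans_lt (lt_Fh _), fun V' e => ?_⟩⟩
    simp only [Nat.unpair_pair] at e ⊢
    have e1 := (ex_use hθ (dec (Nat.pair (rep w m) (Nat.pair (rep x m) (d₁ m))))).choose_spec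
      (fun i => {t | Rh p.g (rep (c i) m) t})
      (fun i => if i < θ.sup then V' i else {t | Rh p.g (rep (c i) m) t}) fun i t ht => by
        have ht' : t < b := by rw [hb, use, ops_cod]; simpa [hθ] using ht
        split_ifs with hi
        · have e2 : t ≤ max (max b (rep w m)) (d₂ m) :=
            ht'.le.trans ((le_max_left _ _).trans (le_max_left _ _))
          have e3 := e i hi t (e2.trans_lt (lt_Fh _))
          rw [Rh_restr le_rfl ((dec_le _ _).trans (le_max_right _ _)) e2,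
            Rh_restr le_rfl ((dec_le _ _).trans (le_max_right _ _)) e2, (a2 i hi).2.1,
            (a2 i hi).2.2, a3 i hi t ht'] at e3
          exact ⟨e3.1, fun e4 => by_contra fun e5 => e3.2 e5 e4⟩
        · rfl
    rw [dec_pair, dec_pair] at e1
    exact (sat_congr θ (fun _ _ => rfl) fun i hi => if_pos hi).1 (e1.1 a1)
  · obtain ⟨z, hz, h'⟩ : ∃ z, p.cut.Bd z ∧ ∀ᶠ m in U,
        p.g (z m) (Nat.pair (cod (.inl θ)) (Nat.pair (d₁ m) (d₂ m))) (rep x m) :=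
      ⟨_, dom ((bd_const (cod (.inl θ))).pair (h5.pair h3)) (bd_rep x) |>.mono
        (Eventually.of_forall fun m => Nat.le_add_left _ _), h.mono fun m e => Nat.sInf_mem e⟩
    obtain ⟨f, hf⟩ := ae_choose (h'.mono fun m e => (p.g_sig _ _ _ _).1 e)
    obtain ⟨w, hw⟩ := ex_rep (hz.mono (hf.mono fun _ e => e.1.le))
    refine ⟨w, (h9 w).2 ?_⟩
    filter_upwards [hf, hw, h7, h8 _ hz] with m a1 a2 a3 a4
    have e := a1.2 fun i => {t | Rh p.g (rep (c i) m) t}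
    simp only [Nat.unpair_pair] at e
    refine a2 ▸ e fun i hi t ht => ⟨fun ⟨y, e'⟩ => ⟨y, (a3 i hi).2.1 ▸ e'.2⟩, fun ⟨y, e'⟩ =>
      (a4 i hi t ht).1 ⟨y, (a3 i hi).2.2 ▸ e'.2⟩⟩

theorem decS (j : ℕ) {d : ℕ → ℕ} (hd : p.cut.Bd d) :
    {x : p.cut.I | ∀ᶠ m in U, p.Ψ j (restr p.g (rep x m)) (d m) (rep x m)} ∈ p.cut.M.S := by
  obtain ⟨c, hc⟩ := ex_rep ((bd_const (cod (.inr (j, true)))).pair hd)
  obtain ⟨c', hc'⟩ := ex_rep ((bd_const (cod (.inr (j, false)))).pair hd)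
  refine ⟨c, c', Set.ext fun x => eventually_congr (hc.mono fun m e => ?_),
    Set.ext fun x => ae_not.symm.trans (eventually_congr (hc'.mono fun m e => ?_))⟩ <;>
    (rw [e]; simp [cut, R_dec])

end Par

section Game

def rel (R : ℕ → ℕ → Prop) (a b c : ℕ) : Fin 7 → Prop :=
  ![a < b, a = b, a = 0, a = 1, a = c + b, a = c * b, R b a]

def At (R : ℕ → ℕ → Prop) (k : ℕ) (u u' : ℕ → ℕ) : Prop :=
  ∀ i < k, ∀ j < k, ∀ l < k, rel R (u i) (u j) (u l) = rel R (u' i) (u' j) (u' l)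

def E (β : ℕ → ℕ) (R : ℕ → ℕ → Prop) : ℕ → (ℕ → ℕ) → (ℕ → ℕ) → Prop
  | 0, _, _ => True
  | k + 1, u, u' => At R (k + 1) u u' ∧ ∀ j ≤ k,
    (∀ x ≤ β j, ∃ x' ≤ β j, E β R k (cons x u) (cons x' u')) ∧
      ∀ x' ≤ β j, ∃ x ≤ β j, E β R k (cons x u) (cons x' u')

variable {β β' : ℕ → ℕ} {R R' : ℕ → ℕ → Prop}

theorem E.symm : ∀ {k u u'}, E β R k u u' → E β R k u' u
  | 0, _, _, _ => trivial
  | _ + 1, _, _, h => ⟨fun i a j b l c => (h.1 i a j b l c).symm, fun j hj =>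
    ⟨fun x hx => ((h.2 j hj).2 x hx).imp fun _ e => ⟨e.1, e.2.symm⟩,
      fun x hx => ((h.2 j hj).1 x hx).imp fun _ e => ⟨e.1, e.2.symm⟩⟩⟩

theorem E.loc {b : ℕ} (hR : ∀ x ≤ b, ∀ y ≤ b, R x y ↔ R' x y) : ∀ {k u u'},
    (∀ j < k, β j = β' j ∧ β j ≤ b) → (∀ i, u i ≤ b) → (∀ i, u' i ≤ b) → E β R k u u' → E β' R' k u u'
  | 0, _, _, _, _, _, _ => trivial
  | k + 1, u, u', hβ, hu, hu', h => by
    have e : ∀ {u : ℕ → ℕ}, (∀ i, u i ≤ b) → ∀ i j l, rel R' (u i) (u j) (u l) = rel R (u i) (u j) (u l) :=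
      fun hu i j l => by rw [rel, rel, propext (hR _ (hu j) _ (hu i))]
    have c : ∀ {u : ℕ → ℕ} {x : ℕ}, (∀ i, u i ≤ b) → x ≤ b → ∀ i, cons x u i ≤ b := fun hu hx => by
      rintro (_ | i)
      exacts [hx, hu i]
    refine ⟨fun i a j a' l a'' => by rw [e hu, e hu', h.1 i a j a' l a''], fun j hj => ?_⟩
    obtain ⟨e1, e2⟩ := hβ j (Nat.lt_succ_of_le hj)
    rw [← e1]
    exact ⟨fun x hx => ((h.2 j hj).1 x hx).imp fun _ e => ⟨e.1, E.loc hR
      (fun j a => hβ j (a.trans k.lt_succ_self)) (c hu (hx.trans e2)) (c hu' (e.1.trans e2)) e.2⟩,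
      fun x hx => ((h.2 j hj).2 x hx).imp fun _ e => ⟨e.1, E.loc hR
        (fun j a => hβ j (a.trans k.lt_succ_self)) (c hu (e.1.trans e2)) (c hu' (hx.trans e2)) e.2⟩⟩

theorem E.pred : ∀ {k u u'}, E β R (k + 1) u u' → E β R k u u'
  | 0, _, _, _ => trivial
  | k + 1, _, _, h => ⟨fun i a j b l c => h.1 i (by omega) j (by omega) l (by omega), fun j hj =>
    ⟨fun x hx => ((h.2 j (by omega)).1 x hx).imp fun _ e => ⟨e.1, e.2.pred⟩,
      fun x hx => ((h.2 j (by omega)).2 x hx).imp fun _ e => ⟨e.1, e.2.pred⟩⟩⟩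

theorem E.anti {k l : ℕ} {u u' : ℕ → ℕ} (e : k ≤ l) (h : E β R l u u') : E β R k u u' := by
  induction e with
  | refl => exact h
  | step _ ih => exact ih h.pred

theorem E_fin (k : ℕ) : ∃ (T : Type) (_ : Finite T), ∀ β R, ∃ τ : (ℕ → ℕ) → T,
    ∀ u u', τ u = τ u' → E β R k u u' := by
  induction k with
  | zero => exact ⟨Unit, inferInstance, fun _ _ => ⟨fun _ => (), fun _ _ _ => trivial⟩⟩
  | succ k ih =>
    obtain ⟨T, _, ih⟩ := ih
    refine ⟨(Fin (k + 1) → Fin (k + 1) → Fin (k + 1) → Fin 7 → Prop) × (Fin (k + 1) → Set T),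
      inferInstance, fun β R => ?_⟩
    obtain ⟨τ, hτ⟩ := ih β R
    refine ⟨fun u => (fun i j l => rel R (u i) (u j) (u l), fun j => {t | ∃ x ≤ β j, τ (cons x u) = t}),
      fun u u' e => ⟨fun i a j b l c => congrFun (congrFun (congrFun (congrArg Prod.fst e) ⟨i, a⟩)
        ⟨j, b⟩) ⟨l, c⟩, fun j hj => ?_⟩⟩
    have := Set.ext_iff.1 (congrFun (congrArg Prod.snd e) ⟨j, Nat.lt_succ_of_le hj⟩)
    exact ⟨fun x hx => ((this _).1 ⟨x, hx, rfl⟩).imp fun _ e => ⟨e.1, hτ _ _ e.2.symm⟩,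
      fun x hx => ((this _).2 ⟨x, hx, rfl⟩).imp fun _ e => ⟨e.1, hτ _ _ e.2⟩⟩

theorem E_pig (k : ℕ) : ∃ N, ∀ β R (w : ℕ → ℕ → ℕ) (a : ℕ), N ≤ a →
    ∃ x ≤ a, ∃ x' ≤ a, x' ≠ x ∧ E β R k (w x) (w x') := by
  obtain ⟨T, _, h⟩ := E_fin k
  have := Fintype.ofFinite T
  refine ⟨Fintype.card T, fun β R w a ha => ?_⟩
  obtain ⟨τ, hτ⟩ := h β R
  obtain ⟨x, x', a1, a2⟩ := Fintype.exists_ne_map_eq_of_card_lt (fun x : Fin (a + 1) => τ (w x))
    (by simpa using Nat.lt_succ_of_le ha)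
  exact ⟨x, Nat.le_of_lt_succ x.2, x', Nat.le_of_lt_succ x'.2, fun e => a1 (Fin.ext e).symm, hτ _ _ a2⟩

end Game

namespace Cut

variable (p : Cut)

def GB (u u' : ℕ → p.I) : Prop := ∃ (π K : ℕ → ℕ) (A A' : ℕ → ℕ → ℕ), (∀ j, ∀ᶠ m in U, j ≤ K m) ∧
  (∀ i, ∀ᶠ m in U, rep (u i) m = A m (π i) ∧ rep (u' i) m = A' m (π i)) ∧
  ∀ᶠ m in U, E (fun j => p.F^[j] m) (p.R m) (K m) (A m) (A' m)

theorem isBF : IsBF p.M Zs p.GB where
  symm := fun ⟨π, K, A, A', a, b, c⟩ => ⟨π, K, A', A, a, fun i => (b i).mono fun _ => And.symm,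
    c.mono fun _ => E.symm⟩
  reix := fun ρ ⟨π, K, A, A', a, b, c⟩ => ⟨fun i => π (ρ i), K, A, A', a, fun i => b (ρ i), c⟩
  forth := fun {u u'} ⟨π, K, A, A', a, b, c⟩ x => by
    obtain ⟨j, hj⟩ := bd_rep x
    obtain ⟨f, hf⟩ := ae_choose (P := fun m x' => x' ≤ p.F^[j] m ∧ E (fun j => p.F^[j] m) (p.R m)
        (K m - 1) (cons (rep x m) (A m)) (cons x' (A' m))) (by
      filter_upwards [hj, a (j + 1), c] with m a1 a2 a3
      obtain ⟨k, hk⟩ : ∃ k, K m = k + 1 := ⟨K m - 1, by omega⟩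
      rw [hk] at a3 ⊢
      exact (a3.2 j (by omega)).1 _ a1)
    obtain ⟨x', hx⟩ := ex_rep (f := f) ((bd_it j).mono (hf.mono fun _ e => e.1))
    refine ⟨x', cons 0 fun i => π i + 1, fun m => K m - 1, fun m => cons (rep x m) (A m),
      fun m => cons (f m) (A' m), fun j => (a (j + 1)).mono fun m e => Nat.le_sub_one_of_lt e, ?_,
      hf.mono fun _ e => e.2⟩
    rintro (_ | i)
    · exact hx.mono fun _ e => ⟨rfl, e⟩
    · exact b i
  atom := fun {u u'} ⟨π, K, A, A', a, b, c⟩ => by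
    have key : ∀ᶠ m in U, rel (p.R m) (rep (u 0) m) (rep (u 1) m) (rep (u 2) m) =
        rel (p.R m) (rep (u' 0) m) (rep (u' 1) m) (rep (u' 2) m) := by
      filter_upwards [a (π 0 + π 1 + π 2 + 1), b 0, b 1, b 2, c] with m a1 a2 a3 a4 a5
      rw [a2.1, a2.2, a3.1, a3.2, a4.1, a4.2]
      exact (a5.anti a1).1 _ (by omega) _ (by omega) _ (by omega)
    have k2 : ∀ n : Fin 7, (∀ᶠ m in U, rel (p.R m) (rep (u 0) m) (rep (u 1) m) (rep (u 2) m) n) →
        ∀ᶠ m in U, rel (p.R m) (rep (u' 0) m) (rep (u' 1) m) (rep (u' 2) m) n :=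
      fun n h => (h.and key).mono fun m e => e.2 ▸ e.1
    have k3 : ∀ (t : Tm) (w : ℕ → p.I), w 0 = t.ev p.M w ↔
        ∀ᶠ m in U, rep (w 0) m = t.ev std fun i => rep (w i) m := fun t w => (ext_iff _ _).trans
      (eventually_congr ((los_tm t w _ fun _ => rfl_ae).mono fun m e => by rw [e]))
    exact ⟨k2 0, fun e => (ext_iff _ _).2 (k2 1 ((ext_iff _ _).1 e)),
      fun e => (k3 .zero _).2 (k2 2 ((k3 .zero _).1 e)), fun e => (k3 .one _).2 (k2 3 ((k3 .one _).1 e)),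
      fun e => (k3 (.add (.var 2) (.var 1)) _).2 (k2 4 ((k3 (.add (.var 2) (.var 1)) _).1 e)),
      fun e => (k3 (.mul (.var 2) (.var 1)) _).2 (k2 5 ((k3 (.mul (.var 2) (.var 1)) _).1 e)), k2 6⟩

end Cut

end Pool.Agent.H40.Bsig
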