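import Pool.Agent.H40.Bsig4

set_option autoImplicit false

namespace Pool.Agent.H40.Bsig

open Filter Cut

def Aset (d s : ℕ) : Set ℕ := {p | ∃ x ≤ d, p = sp s x}

theorem Aset_lt {d s x : ℕ} (h : x ∈ Aset d s) : x < sp s d + 1 := by
  obtain ⟨y, a, rfl⟩ := h
  have := Nat.mul_le_mul (Nat.add_le_add_left a s) (Nat.add_le_add_left a s)
  unfold sp
  omega

noncomputable def cd (d s : ℕ) : ℕ := sInf {c | Codes std c (Aset d s)}

def wv (s x : ℕ) : ℕ → ℕ := cons (sp s x) (cons s (dec s))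

def Hh (h : H) (k d p : ℕ) : Prop := ∃ x' ≤ d, ∃ s x, p = sp s x ∧ x' ≠ x ∧
  E (fun j => (Fh cd h)^[j] d) (Rh h) k (wv s x) (wv s x')

def Psi : ℕ → H → ℕ → ℕ → Prop
  | 0, h, d, x => ∃ k y z, x = sp (sp k y) z ∧ (Fh cd (restr h z))^[k] d ≤ y
  | 1, h, d, x => ∃ p u z, x = sp (sp p u) z ∧ u.unpair.2 ≤ z ∧
      (u.unpair.2 < (Fh cd (restr h z))^[u.unpair.1] d ∨ Hh (restr h z) u.unpair.1 d p)
  | _, _, d, x => ∃ s, x = sp s (cd d s)

noncomputable def P0 : Par := ⟨cd, Psi⟩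

noncomputable def thr (h : H) (k d p : ℕ) : ℕ := Fh cd h ((Fh cd h)^[k] d + sp p d)

theorem Hh_loc {h : H} {k d p z : ℕ} (e : thr h k d p ≤ z) : Hh (restr h z) k d p ↔ Hh h k d p := by
  have e1 : ∀ j < k, (Fh cd h)^[j] d ≤ (Fh cd h)^[k] d + sp p d := fun j hj =>
    ((it_mono d).monotone hj.le).trans (Nat.le_add_right _ _)
  have e2 : ∀ j < k, (Fh cd (restr h z))^[j] d = (Fh cd h)^[j] d := fun j hj =>
    it_restr_eq ((e1 j hj).trans ((lt_Fh _).le.trans e))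
  have e3 : ∀ s x, s ≤ p → sp s x ≤ sp p d → ∀ i, wv s x i ≤ (Fh cd h)^[k] d + sp p d := by
    rintro s x a b (_ | _ | i)
    · exact b.trans (Nat.le_add_left _ _)
    · exact (a.trans (le_sp _ _).1).trans (Nat.le_add_left _ _)
    · exact ((dec_le _ _).trans (a.trans (le_sp _ _).1)).trans (Nat.le_add_left _ _)
  refine exists_congr fun x' => and_congr_right fun a => exists₂_congr fun s x =>
    and_congr_right fun b => and_congr_right fun _ => ?_
  have c : s ≤ p := b ▸ (le_sp _ _).1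
  have c1 := e3 s x c (b ▸ (le_sp _ _).1)
  have c2 := e3 s x' c (Nat.add_le_add
    (Nat.mul_le_mul (Nat.add_le_add c a) (Nat.add_le_add c a)) c)
  exact ⟨E.loc (fun x a y b => Rh_restr e a b) (fun j hj => ⟨e2 j hj, e2 j hj ▸ e1 j hj⟩) c1 c2,
    E.loc (fun x a y b => (Rh_restr e a b).symm) (fun j hj => ⟨(e2 j hj).symm, e1 j hj⟩) c1 c2⟩

def pT (s t : Tm) : Tm := .add (.mul (.add s t) (.add s t)) s

theorem bd_sp {p : Cut} {f g : ℕ → ℕ} (h : p.Bd f) (h' : p.Bd g) : p.Bd fun m => sp (f m) (g m) :=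
  ((h.add h').mul (h.add h')).add h

noncomputable abbrev C0 : Cut := P0.cut

def XS (j : ℕ) : Set C0.I := {x | ∀ᶠ m in U, Psi j (restr P0.g (rep x m)) m (rep x m)}

theorem XS_mem (j : ℕ) : XS j ∈ C0.M.S := Par.decS (p := P0) j (bd_it 0)

theorem tri_ae (a b c : C0.I) :
    ∀ᶠ m in U, rep (pair C0.M (pair C0.M a b) c) m = sp (sp (rep a m) (rep b m)) (rep c m) :=
  ((pair_ae _ c).and (pair_ae a b)).mono fun _ e => by rw [e.1, e.2]

theorem notInd : ¬ Ind C0.M 2 := by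
  refine not_ind (fun z k m => (Fh cd (restr P0.g z))^[k] m) (fun z k m => it_restr_le z m k)
    (fun j => (ex_rep (bd_it j)).imp fun z hz => hz.mono fun m e k hk =>
      (it_restr_eq (fam := cd) (h := P0.g) e.ge).symm.trans_le ((it_mono m).monotone hk))
    (φ := .ex (.all (.mem (pT (pT (.var 2) (.var 1)) (.var 0)) 0))) ⟨_, ⟨_, .mem _ _, rfl⟩, rfl⟩
    (fun _ => C0.M.zero) (fun _ => XS_mem 0) fun k => exists_congr fun y => forall_congr' fun z =>
      eventually_congr ((tri_ae k y z).mono fun m (e : rep ((pT (pT (.var 2) (.var 1))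
        (.var 0)).ev C0.M (cons z (cons y (cons k fun _ => C0.M.zero)))) m = _) => ?_)
  rw [e]
  refine ⟨fun ⟨k', y', z', a, b⟩ => ?_, fun a => ⟨_, _, _, rfl, ?_⟩⟩
  · obtain ⟨a1, rfl⟩ := sp_inj a
    obtain ⟨rfl, rfl⟩ := sp_inj a1
    rwa [restr_restr _ (le_sp _ _).2] at b
  · rwa [restr_restr _ (le_sp _ _).2]

def X0 : Set C0.I := {p | ∀ u, ∃ z, pair C0.M (pair C0.M p u) z ∈ XS 1}

theorem mem1 (p u z : C0.I) : pair C0.M (pair C0.M p u) z ∈ XS 1 ↔ ∀ᶠ m in U,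
    (rep u m).unpair.2 ≤ rep z m ∧ ((rep u m).unpair.2 < (Fh cd (restr P0.g (rep z m)))^[
      (rep u m).unpair.1] m ∨ Hh (restr P0.g (rep z m)) (rep u m).unpair.1 m (rep p m)) := by
  refine eventually_congr ((tri_ae p u z).mono fun m e => ?_)
  rw [e]
  refine ⟨fun ⟨k', y', z', a, b⟩ => ?_, fun a => ⟨_, _, _, rfl, ?_⟩⟩
  · obtain ⟨a1, rfl⟩ := sp_inj a
    obtain ⟨rfl, rfl⟩ := sp_inj a1
    rwa [restr_restr _ (le_sp _ _).2] at b
  · rwa [restr_restr _ (le_sp _ _).2]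

theorem bd_thr (j : ℕ) (p : C0.I) : C0.Bd fun m => thr P0.g j m (rep p m) :=
  ((bd_it j).add (bd_sp (bd_rep p) (bd_it 0))).F

theorem mem_X0 (p : C0.I) : p ∈ X0 ↔ ∀ j, ∀ᶠ m in U, Hh P0.g j m (rep p m) := by
  refine ⟨fun h j => ?_, fun h u => ?_⟩
  · obtain ⟨u, hu⟩ := ex_rep ((bd_const j).pair (bd_thr j p))
    obtain ⟨z, hz⟩ := h u
    filter_upwards [hu, (mem1 p u z).1 hz] with m a b
    simp only [a, Nat.unpair_pair] at b
    exact (Hh_loc b.1).1 (b.2.resolve_left (not_lt.2 ((it_restr_le _ _ _).trans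
      ((Nat.le_add_right _ _).trans (lt_Fh _).le))))
  · have hy : C0.Bd fun m => (rep u m).unpair.2 :=
      (bd_rep u).mono (Eventually.of_forall fun _ => Nat.unpair_right_le _)
    rcases std_or fun m => (rep u m).unpair.1 with ⟨j, hj⟩ | hk
    · obtain ⟨z, hz⟩ := ex_rep (hy.max (bd_thr j p))
      refine ⟨z, (mem1 p u z).2 ?_⟩
      filter_upwards [hj, hz, h j] with m a b c
      rw [a, b]
      exact ⟨le_max_left _ _, Or.inr ((Hh_loc (le_max_right _ _)).2 c)⟩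
    · obtain ⟨j, hj⟩ := hy
      obtain ⟨z, hz⟩ := ex_rep (bd_it (p := C0) (j + 1))
      refine ⟨z, (mem1 p u z).2 ?_⟩
      filter_upwards [hj, hz, hk (j + 1)] with m a b c
      have d := a.trans_lt (C0.itm m j.lt_succ_self)
      exact ⟨b ▸ d.le, Or.inl (d.trans_le ((it_restr_eq (fam := cd) (h := P0.g) b.ge).symm.trans_le
        ((it_mono m).monotone c)))⟩

def A0 (s : C0.I) : Set C0.I := {x | ∀ᶠ m in U, rep x m ∈ Aset m (rep s m)}

theorem mem2 (s c : C0.I) : pair C0.M s c ∈ XS 2 ↔ ∀ᶠ m in U, rep c m = cd m (rep s m) := by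
  refine eventually_congr ((pair_ae s c).mono fun m e => ?_)
  rw [e]
  exact ⟨fun ⟨s', a⟩ => (sp_inj a).1 ▸ (sp_inj a).2, fun a => ⟨_, by rw [a]⟩⟩

theorem meets (s : C0.I) : (A0 s ∩ X0).Nonempty := by
  choose N hN using E_pig
  obtain ⟨K, h1, h2⟩ := overspill fun j => U_ge (N j)
  obtain ⟨f, hf⟩ := ae_choose (h2.mono fun m e =>
    hN (K m) (fun j => P0.F^[j] m) (Rh P0.g) (wv (rep s m)) m e)
  obtain ⟨p, hp⟩ := ex_rep (bd_sp (bd_rep s) ((bd_it 0).mono (hf.mono fun _ e => e.1)))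
  refine ⟨p, (hf.and hp).mono fun m e => ⟨_, e.1.1, e.2⟩, (mem_X0 p).2 fun j => ?_⟩
  filter_upwards [hf, hp, h1 j] with m ⟨_, x', a1, a2, a3⟩ b c
  exact ⟨x', a1, _, _, b, a2, a3.anti c⟩

theorem nochoice (f : C0.I → C0.I) (φ : Fm) (v : ℕ → C0.I) (V : ℕ → Set C0.I)
    (hV : ∀ i, V i ∈ C0.M.S) (hf : ∀ x y, f x = y ↔ Sat C0.M φ (cons y (cons x v)) V) :
    ∃ s, f s ∉ A0 s ∩ X0 := by
  classical
  choose c c' h1 _ using hV
  obtain ⟨d, h3, h4⟩ := code (2 * φ.sup) fun i => if i % 2 = 0 then v (i / 2) else c (i / 2)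
  obtain ⟨s, hs⟩ := ex_rep h3
  choose w hw using fun i => ex_rep (f := fun m => dec (rep s m) i)
    ((bd_rep s).mono (Eventually.of_forall fun _ => dec_le _ _))
  have h5 : ∀ i < 2 * φ.sup, w i = if i % 2 = 0 then v (i / 2) else c (i / 2) := fun i hi =>
    (ext_iff _ _).2 (((hw i).and (hs.and (h4 i hi))).mono fun m e => by rw [e.1, e.2.1, e.2.2])
  have key : ∀ p, f s = p ↔ Sat C0.M φ (fun i => cons p (cons s w) (cons 0 (cons 1 fun i => 2 * i + 2) i))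
      fun i => Zs (cons p (cons s w) (2 * i + 1 + 2)) := fun p => (hf s p).trans (sat_congr φ (by
    rintro (_ | _ | i) hi
    · rfl
    · rfl
    · show v i = w (2 * i)
      simpa using (h5 (2 * i) (by omega)).symm) fun i hi => (h1 i).trans (congrArg Zs (by
      show c i = w (2 * i + 1)
      simpa [Nat.add_mod, show (2 * i + 1) / 2 = i by omega] using (h5 (2 * i + 1) (by omega)).symm)))
  refine ⟨s, fun ⟨a, b⟩ => ?_⟩
  obtain ⟨K, h6, h7⟩ := overspill ((mem_X0 _).1 b)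
  obtain ⟨x', h8⟩ := ae_choose h7
  obtain ⟨x, h9⟩ := ae_choose (show ∀ᶠ m in U, ∃ x, rep (f s) m = sp (rep s m) x ∧ x' m ≠ x ∧
      E (fun j => P0.F^[j] m) (Rh P0.g) (K m) (wv (rep s m) x) (wv (rep s m) (x' m)) by
    filter_upwards [h8, a] with m ⟨_, t, x, a1, a2⟩ ⟨y, _, a3⟩
    obtain ⟨rfl, rfl⟩ := sp_inj (a3.symm.trans a1)
    exact ⟨_, a1, a2⟩)
  obtain ⟨p, hp⟩ := ex_rep (bd_sp (bd_rep s) ((bd_it 0).mono (h8.mono fun _ e => e.1)))
  have := (key p).2 (((C0.isBF.sat φ (fun _ => Iff.rfl) _ _ ⟨id, K, fun m => wv (rep s m) (x m),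
    fun m => wv (rep s m) (x' m), h6, ?_, h9.mono fun _ e => e.2.2⟩)).1 ((key _).1 rfl))
  · obtain ⟨m, a1, a2⟩ := (h9.and hp).exists
    rw [this, a2] at a1
    exact a1.2.1 (sp_inj a1.1).2
  · rintro (_ | _ | i)
    · exact (h9.and hp).mono fun _ e => ⟨e.1.1, e.2⟩
    · exact Eventually.of_forall fun _ => ⟨rfl, rfl⟩
    · exact (hw i).mono fun _ e => ⟨e, e⟩

theorem coded (s c : C0.I) (h : pair C0.M s c ∈ XS 2) : IsCode C0.M c (A0 s) := by
  have h := (mem2 s c).1 h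
  have key := codes_iff (W := fun m => Aset m (rep s m))
    ((bd_sp (bd_rep s) (bd_it 0)).add (bd_const 1)) fun m x => Aset_lt
  refine ⟨(key c).2 (h.mono fun m e => e ▸ Nat.sInf_mem (ex_codes fun _ => Aset_lt)),
    fun c' h' h'' => ?_⟩
  obtain ⟨m, a1, a2, a3⟩ := (h.and (((key c').1 h').and h'')).exists
  exact (Nat.sInf_le a2).not_gt (a3.trans_eq a1)

end Pool.Agent.H40.Bsig
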