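import Mathlib

set_option autoImplicit false

namespace Pool.Agent.H40.Bsig

/-- Number terms (de Bruijn variables). -/
inductive Tm : Type
  | var (i : ℕ) : Tm
  | zero : Tm
  | one : Tm
  | add (s t : Tm) : Tm
  | mul (s t : Tm) : Tm

/-- Formulas of second-order arithmetic; `ball t φ` is `∀ x < t, φ` and `allS` binds a set. -/
inductive Fm : Type
  | eq (s t : Tm) : Fm
  | lt (s t : Tm) : Fm
  | mem (t : Tm) (i : ℕ) : Fm
  | neg (φ : Fm) : Fm
  | and (φ ψ : Fm) : Fm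
  | ball (t : Tm) (φ : Fm) : Fm
  | all (φ : Fm) : Fm
  | ex (φ : Fm) : Fm
  | allS (φ : Fm) : Fm

/-- Structures for second-order arithmetic. -/
structure Mod : Type 1 where
  N : Type
  zero : N
  one : N
  add : N → N → N
  mul : N → N → N
  lt : N → N → Prop
  S : Set (Set N)

/-- Extend a valuation by a new value for variable `0`. -/
def cons {α : Type} (a : α) (v : ℕ → α) : ℕ → α
  | 0 => a
  | n + 1 => v n

/-- Value of a term. -/
def Tm.ev (M : Mod) (v : ℕ → M.N) : Tm → M.N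
  | .var i => v i
  | .zero => M.zero
  | .one => M.one
  | .add s t => M.add (s.ev M v) (t.ev M v)
  | .mul s t => M.mul (s.ev M v) (t.ev M v)

/-- Satisfaction. -/
def Sat (M : Mod) : Fm → (ℕ → M.N) → (ℕ → Set M.N) → Prop
  | .eq s t, v, _ => s.ev M v = t.ev M v
  | .lt s t, v, _ => M.lt (s.ev M v) (t.ev M v)
  | .mem t i, v, V => t.ev M v ∈ V i
  | .neg φ, v, V => ¬ Sat M φ v V
  | .and φ ψ, v, V => Sat M φ v V ∧ Sat M ψ v V
  | .ball t φ, v, V => ∀ x, M.lt x (t.ev M v) → Sat M φ (cons x v) V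
  | .all φ, v, V => ∀ x, Sat M φ (cons x v) V
  | .ex φ, v, V => ∃ x, Sat M φ (cons x v) V
  | .allS φ, v, V => ∀ Z ∈ M.S, Sat M φ v (cons Z V)

/-- Bounded formulas. -/
inductive Bdd : Fm → Prop
  | eq (s t : Tm) : Bdd (.eq s t)
  | lt (s t : Tm) : Bdd (.lt s t)
  | mem (t : Tm) (i : ℕ) : Bdd (.mem t i)
  | neg {φ : Fm} : Bdd φ → Bdd φ.neg
  | and {φ ψ : Fm} : Bdd φ → Bdd ψ → Bdd (φ.and ψ)
  | ball (t : Tm) {φ : Fm} : Bdd φ → Bdd (.ball t φ)

/-- `Lv n true` is the class `Σ_n` and `Lv n false` is the class `Π_n`. -/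
def Lv : ℕ → Bool → Fm → Prop
  | 0, _, φ => Bdd φ
  | n + 1, true, φ => ∃ ψ, Lv n false ψ ∧ φ = ψ.ex
  | n + 1, false, φ => ∃ ψ, Lv n true ψ ∧ φ = ψ.all

variable (M : Mod)

/-- The basic axioms. -/
def Basic : Prop :=
  (∀ n, M.add n M.one ≠ M.zero) ∧ (∀ m n, M.add m M.one = M.add n M.one → m = n) ∧
  (∀ m, M.add m M.zero = m) ∧ (∀ m n, M.add m (M.add n M.one) = M.add (M.add m n) M.one) ∧
  (∀ m, M.mul m M.zero = M.zero) ∧ (∀ m n, M.mul m (M.add n M.one) = M.add (M.mul m n) m) ∧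
  (∀ m, ¬ M.lt m M.zero) ∧ ∀ m n, M.lt m (M.add n M.one) ↔ M.lt m n ∨ m = n

/-- Induction for `Σ_n` formulas with parameters. -/
def Ind (n : ℕ) : Prop :=
  ∀ φ, Lv n true φ → ∀ v V, (∀ i, V i ∈ M.S) → Sat M φ (cons M.zero v) V →
    (∀ x, Sat M φ (cons x v) V → Sat M φ (cons (M.add x M.one) v) V) → ∀ x, Sat M φ (cons x v) V

/-- Bounding for `Σ_n` formulas with parameters. -/
def Bnd (n : ℕ) : Prop :=
  ∀ φ, Lv n true φ → ∀ v V, (∀ i, V i ∈ M.S) → ∀ a,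
    (∀ x, M.lt x a → ∃ y, Sat M φ (cons y (cons x v)) V) →
    ∃ b, ∀ x, M.lt x a → ∃ y, M.lt y b ∧ Sat M φ (cons y (cons x v)) V

/-- Recursive comprehension. -/
def DCA : Prop :=
  ∀ φ ψ, Lv 1 true φ → Lv 1 false ψ → ∀ v V, (∀ i, V i ∈ M.S) →
    (∀ x, Sat M φ (cons x v) V ↔ Sat M ψ (cons x v) V) → {x | Sat M φ (cons x v) V} ∈ M.S

/-- `M` is a model of RCA₀. -/
def RCA0 : Prop := Basic M ∧ M.S.Nonempty ∧ Ind M 1 ∧ DCA M

/-- The pairing `(i, j) = (i + j)² + i`. -/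
def pair (i j : M.N) : M.N := M.add (M.mul (M.add i j) (M.add i j)) i

/-- `c = (k, (m, n))` and `A` is the set of `i < k` with `m (i + 1) + 1` dividing `n`. -/
def Codes (c : M.N) (A : Set M.N) : Prop :=
  ∃ k m n, c = pair M k (pair M m n) ∧
    ∀ i, i ∈ A ↔ M.lt i k ∧ ∃ q, M.mul (M.add (M.mul m (M.add i M.one)) M.one) q = n

/-- `c` is the code of the finite set `A`: the least number that codes it. -/
def IsCode (c : M.N) (A : Set M.N) : Prop := Codes M c A ∧ ∀ c', Codes M c' A → ¬ M.lt c' c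

end Pool.Agent.H40.Bsig
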