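import Pool.Agent.H40.BsptDefs

set_option autoImplicit false

namespace Pool.Agent.H40.Bspt

instance : Countable Fm := by
  let enc : Fm → ℕ := fun φ => Fm.rec (motive := fun _ => ℕ)
    (fun i j => Nat.pair 0 (Nat.pair i j)) (fun i j => Nat.pair 1 (Nat.pair i j))
    (fun _ a => Nat.pair 2 a) (fun _ _ a b => Nat.pair 3 (Nat.pair a b)) (fun _ a => Nat.pair 4 a) φ
  refine ⟨⟨enc, fun φ => ?_⟩⟩
  induction φ with
  | mem i j => intro ψ h; cases ψ <;> simp_all [enc]
  | eq i j => intro ψ h; cases ψ <;> simp_all [enc]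
  | neg φ ih => intro ψ h; cases ψ <;> simp [enc] at h; exact congrArg _ (ih h)
  | and φ ψ ih1 ih2 =>
    intro χ h; cases χ <;> simp [enc] at h; exact congrArg₂ _ (ih1 h.1) (ih2 h.2)
  | ex φ ih => intro ψ h; cases ψ <;> simp [enc] at h; exact congrArg _ (ih h)

variable {M : Type}

def oc {α : Type} (a : M) (v : α → M) : Option α → M
  | none => a
  | some i => v i

inductive Df (E : M → M → Prop) : (α : Type) → ((α → M) → Prop) → Prop
  | mem {α : Type} (s t : α ⊕ M) : Df E α fun v => E (Sum.elim v id s) (Sum.elim v id t)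
  | eq {α : Type} (s t : α ⊕ M) : Df E α fun v => Sum.elim v id s = Sum.elim v id t
  | neg {α : Type} {P : (α → M) → Prop} : Df E α P → Df E α fun v => ¬ P v
  | and {α : Type} {P Q : (α → M) → Prop} : Df E α P → Df E α Q → Df E α fun v => P v ∧ Q v
  | ex {α : Type} {P : (Option α → M) → Prop} :
      Df E (Option α) P → Df E α fun v => ∃ a, P (oc a v)

def Tm {α : Type} (s : (α → M) → M) : Prop := ∃ t : α ⊕ M, s = fun v => Sum.elim v id t

theorem Tm.var {α : Type} (a : α) : Tm fun v : α → M => v a := ⟨Sum.inl a, rfl⟩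
theorem Tm.const {α : Type} (m : M) : Tm fun _ : α → M => m := ⟨Sum.inr m, rfl⟩

variable {E : M → M → Prop}

namespace Df

theorem congr {α : Type} {P Q : (α → M) → Prop} (h : Df E α P) (e : ∀ v, P v ↔ Q v) : Df E α Q :=
  (show P = Q from funext fun v => propext (e v)) ▸ h

theorem ren {α : Type} {P : (α → M) → Prop} (h : Df E α P) : ∀ (β : Type) (σ : α → β ⊕ M),
    Df E β fun w => P fun a => Sum.elim w id (σ a) := by
  induction h with
  | mem s t =>
    refine fun β σ => (Df.mem (Sum.elim σ Sum.inr s) (Sum.elim σ Sum.inr t)).congr fun v => ?_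
    cases s <;> cases t <;> rfl
  | eq s t =>
    refine fun β σ => (Df.eq (Sum.elim σ Sum.inr s) (Sum.elim σ Sum.inr t)).congr fun v => ?_
    cases s <;> cases t <;> rfl
  | neg _ ih => exact fun β σ => (ih β σ).neg
  | and _ _ ih1 ih2 => exact fun β σ => (ih1 β σ).and (ih2 β σ)
  | ex _ ih =>
    refine fun β σ => (ih (Option β) fun o => o.elim (Sum.inl none) fun a =>
      Sum.map some id (σ a)).ex.congr fun v => exists_congr fun b =>
        iff_of_eq (congrArg _ (funext ?_))
    rintro (_ | a)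
    · rfl
    · simp only [Option.elim, oc]
      cases σ a <;> rfl

theorem sub {α β : Type} {P : (α → M) → Prop} (h : Df E α P) (s : (β → M) → α → M)
    (hs : ∀ a, Tm fun w => s w a) : Df E β fun w => P (s w) := by
  choose σ hσ using hs
  exact (h.ren β σ).congr fun w => iff_of_eq (congrArg _ (funext fun a => (congrFun (hσ a) w).symm))

theorem supp {α : Type} {P : (α → M) → Prop} (h : Df E α P) : ∃ F : Set α, F.Finite ∧
    ∀ v v', (∀ a ∈ F, v a = v' a) → (P v ↔ P v') := by
  have key : ∀ {α : Type} (s t : α ⊕ M) (R : M → M → Prop), ∃ F : Set α, F.Finite ∧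
      ∀ v v', (∀ a ∈ F, v a = v' a) →
        (R (Sum.elim v id s) (Sum.elim v id t) ↔ R (Sum.elim v' id s) (Sum.elim v' id t)) := by
    intro α s t R
    refine ⟨Sum.inl ⁻¹' {s, t}, (Set.toFinite _).preimage Sum.inl_injective.injOn, fun v v' h => ?_⟩
    have : ∀ u ∈ ({s, t} : Set (α ⊕ M)), Sum.elim v id u = Sum.elim v' id u := by
      rintro (a | a) ha
      · exact h a ha
      · rfl
    rw [this s (Or.inl rfl), this t (Or.inr rfl)]
  induction h with
  | mem s t => exact key s t E
  | eq s t => exact key s t Eq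
  | neg _ ih => exact ih.imp fun F h => ⟨h.1, fun v v' e => not_congr (h.2 v v' e)⟩
  | and _ _ ih1 ih2 =>
    obtain ⟨F, h1, h2⟩ := ih1
    obtain ⟨G, h3, h4⟩ := ih2
    exact ⟨F ∪ G, h1.union h3, fun v v' e => and_congr (h2 v v' fun a ha => e a (Or.inl ha))
      (h4 v v' fun a ha => e a (Or.inr ha))⟩
  | ex _ ih =>
    obtain ⟨F, h1, h2⟩ := ih
    refine ⟨some ⁻¹' F, h1.preimage (Option.some_injective _).injOn, fun v v' e =>
      exists_congr fun b => h2 _ _ ?_⟩
    rintro (_ | a) ha
    · rfl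
    · exact e a ha

theorem toFm {α : Type} {P : (α → M) → Prop} (h : Df E α P) : ∀ g : α ⊕ M → ℕ,
    ∃ φ, ∀ v, (∀ m, v (g (Sum.inr m)) = m) → (Sat E φ v ↔ P fun a => v (g (Sum.inl a))) := by
  have key : ∀ {α : Type} (g : α ⊕ M → ℕ) (v : ℕ → M), (∀ m, v (g (Sum.inr m)) = m) →
      ∀ s, Sum.elim (fun a => v (g (Sum.inl a))) id s = v (g s) := by
    rintro α g v h (a | a)
    · rfl
    · exact (h a).symm
  induction h with
  | mem s t => exact fun g => ⟨.mem (g s) (g t), fun v h => by simp only [key g v h]; rfl⟩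
  | eq s t => exact fun g => ⟨.eq (g s) (g t), fun v h => by simp only [key g v h]; rfl⟩
  | neg _ ih => exact fun g => (ih g).elim fun φ h => ⟨φ.neg, fun v e => not_congr (h v e)⟩
  | and _ _ ih1 ih2 =>
    intro g
    obtain ⟨φ, h1⟩ := ih1 g
    obtain ⟨ψ, h2⟩ := ih2 g
    exact ⟨φ.and ψ, fun v e => and_congr (h1 v e) (h2 v e)⟩
  | ex _ ih =>
    intro g
    obtain ⟨φ, h1⟩ := ih (Sum.elim (fun o => o.elim 0 fun a => g (Sum.inl a) + 1)
      fun m => g (Sum.inr m) + 1)
    refine ⟨φ.ex, fun v e => exists_congr fun b => (h1 (cons b v) e).trans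
      (iff_of_eq (congrArg _ (funext ?_)))⟩
    rintro (_ | a) <;> rfl

variable {α : Type} {P Q : (α → M) → Prop} {s t u : (α → M) → M}

theorem mem' (hs : Tm s) (ht : Tm t) : Df E α fun v => E (s v) (t v) := by
  obtain ⟨s, rfl⟩ := hs
  obtain ⟨t, rfl⟩ := ht
  exact Df.mem s t

theorem eq' (hs : Tm s) (ht : Tm t) : Df E α fun v => s v = t v := by
  obtain ⟨s, rfl⟩ := hs
  obtain ⟨t, rfl⟩ := ht
  exact Df.eq s t

theorem imp (h : Df E α P) (h' : Df E α Q) : Df E α fun v => P v → Q v :=
  (h.and h'.neg).neg.congr fun _ => by tauto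

theorem or (h : Df E α P) (h' : Df E α Q) : Df E α fun v => P v ∨ Q v :=
  (h.neg.imp h').congr fun _ => by tauto

theorem iff (h : Df E α P) (h' : Df E α Q) : Df E α fun v => P v ↔ Q v :=
  ((h.imp h').and (h'.imp h)).congr fun _ => by tauto

theorem ex' {R : M → (α → M) → Prop}
    (h : Df E (Option α) fun w => R (w none) fun a => w (some a)) : Df E α fun v => ∃ a, R a v :=
  h.ex

theorem all' {R : M → (α → M) → Prop}
    (h : Df E (Option α) fun w => R (w none) fun a => w (some a)) : Df E α fun v => ∀ a, R a v :=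
  h.neg.ex.neg.congr fun _ => not_exists_not

theorem exB [Nonempty M] {β : Type} {R : (β → M) → (α → M) → Prop}
    (h : Df E (β ⊕ α) fun w => R (fun b => w (Sum.inl b)) fun a => w (Sum.inr a)) :
    Df E α fun v => ∃ x, R x v := by
  classical
  obtain ⟨m⟩ := ‹Nonempty M›
  obtain ⟨F, h1, h2⟩ := h.supp
  have key : ∀ G : Set β, G.Finite → Df E (β ⊕ α) fun w => ∃ x : β → M,
      (∀ b ∉ G, x b = w (Sum.inl b)) ∧ R x fun a => w (Sum.inr a) := by
    intro G hG
    induction G, hG using Set.Finite.induction_on with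
    | empty =>
      exact h.congr fun w => ⟨fun h => ⟨_, fun _ _ => rfl, h⟩, fun ⟨x, h3, h4⟩ =>
        (show x = _ from funext fun b => h3 b id) ▸ h4⟩
    | @insert b G _ _ ih =>
      refine (ex' (R := fun c w => ∃ x : β → M, (∀ b' ∉ G, x b' =
        Function.update w (Sum.inl b) c (Sum.inl b')) ∧
          R x fun a => Function.update w (Sum.inl b) c (Sum.inr a))
        (ih.sub (fun w => Function.update (fun a => w (some a)) (Sum.inl b) (w none))
          fun a => ?_)).congr fun w => ⟨fun ⟨c, x, h3, h4⟩ => ⟨x, fun b' hb => ?_, by simpa using h4⟩,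
            fun ⟨x, h3, h4⟩ => ⟨x b, x, fun b' hb => ?_, by simpa using h4⟩⟩
      · by_cases ha : a = Sum.inl b
        · subst ha
          simpa using Tm.var none
        · simpa [ha] using Tm.var (some a)
      · rw [h3 b' fun h => hb (Or.inr h), Function.update_of_ne fun h => hb (Or.inl (by simpa using h))]
      · by_cases ha : b' = b
        · simp [ha]
        · rw [Function.update_of_ne (by simpa using ha), h3 b' (by simp [ha, hb])]
  refine ((key _ (h1.preimage Sum.inl_injective.injOn)).sub (fun v => Sum.elim (fun _ => m) v)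
    ?_).congr fun v => ⟨fun ⟨x, _, h⟩ => ⟨x, h⟩, fun ⟨x, h⟩ =>
      ⟨fun b => if Sum.inl b ∈ F then x b else m, fun b hb => if_neg hb,
        (h2 (Sum.elim x v) (Sum.elim (fun b => if Sum.inl b ∈ F then x b else m) v) ?_).1 h⟩⟩
  · rintro (b | a)
    · exact Tm.const m
    · exact Tm.var a
  · rintro (b | a) hb
    · exact (if_pos hb).symm
    · rfl

theorem allB [Nonempty M] {β : Type} {R : (β → M) → (α → M) → Prop}
    (h : Df E (β ⊕ α) fun w => R (fun b => w (Sum.inl b)) fun a => w (Sum.inr a)) :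
    Df E α fun v => ∀ x, R x v :=
  (exB (R := fun x v => ¬ R x v) h.neg).neg.congr fun _ => not_exists_not

theorem finAll [Nonempty M] (n : ℕ) {R : ℕ → (α → M) → Prop} (h : ∀ i, Df E α (R i)) :
    Df E α fun v => ∀ i < n, R i v := by
  induction n with
  | zero =>
    obtain ⟨m⟩ := ‹Nonempty M›
    exact (eq' (Tm.const m) (Tm.const m)).congr fun _ => by simp
  | succ n ih => exact (ih.and (h n)).congr fun _ => Nat.forall_lt_succ_right.symm

theorem sat (φ : Fm) : Df E ℕ (Sat E φ) := by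
  induction φ with
  | mem i j => exact mem' (Tm.var i) (Tm.var j)
  | eq i j => exact eq' (Tm.var i) (Tm.var j)
  | neg _ ih => exact ih.neg
  | and _ _ ih1 ih2 => exact ih1.and ih2
  | ex _ ih =>
    refine ex' (ih.sub _ ?_)
    rintro (_ | i)
    · exact Tm.var none
    · exact Tm.var (some i)

theorem countable [Countable M] [Nonempty M] [Countable α] : Countable {P // Df E α P} := by
  obtain ⟨m⟩ := ‹Nonempty M›
  obtain ⟨g, hg⟩ := exists_injective_nat (α ⊕ M)
  choose f hf using fun P : {P // Df E α P} => P.2.toFm g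
  refine Function.Injective.countable (f := f) fun P Q h => Subtype.ext (funext fun w => propext ?_)
  have e := hg.extend_apply (Sum.elim w id) fun _ => m
  have e' : (fun a => Function.extend g (Sum.elim w id) (fun _ => m) (g (Sum.inl a))) = w :=
    funext fun a => e _
  rw [← e', ← hf P _ fun m => e _, h, hf Q _ fun m => e _]

end Df

theorem Tm.cons {α : Type} {s : (α → M) → M} {t : (α → M) → ℕ → M} (hs : Tm s)
    (ht : ∀ i, Tm fun v => t v i) : ∀ i, Tm fun v => cons (s v) (t v) i
  | 0 => hs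
  | i + 1 => ht i

/-! ### Uniform definability -/

def UD (P : ∀ K : Type, (K → K → Prop) → (ℕ → K) → Prop) : Prop :=
  ∃ φ, ∀ K E v, Sat E φ v ↔ P K E v

def Fm.ren : (ℕ → ℕ) → Fm → Fm
  | ρ, .mem i j => .mem (ρ i) (ρ j)
  | ρ, .eq i j => .eq (ρ i) (ρ j)
  | ρ, .neg φ => (φ.ren ρ).neg
  | ρ, .and φ ψ => (φ.ren ρ).and (ψ.ren ρ)
  | ρ, .ex φ => (φ.ren (cons 0 fun i => ρ i + 1)).ex

theorem sat_ren (φ : Fm) : ∀ (ρ : ℕ → ℕ) (v : ℕ → M), Sat E (φ.ren ρ) v ↔ Sat E φ (v ∘ ρ) := by
  induction φ with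
  | mem i j => exact fun _ _ => Iff.rfl
  | eq i j => exact fun _ _ => Iff.rfl
  | neg _ ih => exact fun ρ v => not_congr (ih ρ v)
  | and _ _ ih1 ih2 => exact fun ρ v => and_congr (ih1 ρ v) (ih2 ρ v)
  | ex _ ih =>
    refine fun ρ v => exists_congr fun a => (ih _ _).trans (iff_of_eq (congrArg _ (funext ?_)))
    rintro (_ | i) <;> rfl

namespace UD

variable {P Q : ∀ K : Type, (K → K → Prop) → (ℕ → K) → Prop}

theorem mem (i j : ℕ) : UD fun _ E v => E (v i) (v j) := ⟨.mem i j, fun _ _ _ => Iff.rfl⟩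
theorem eq (i j : ℕ) : UD fun _ _ v => v i = v j := ⟨.eq i j, fun _ _ _ => Iff.rfl⟩
theorem congr (h : UD P) (e : ∀ K E v, P K E v ↔ Q K E v) : UD Q :=
  h.imp fun _ h K E v => (h K E v).trans (e K E v)
theorem neg (h : UD P) : UD fun K E v => ¬ P K E v :=
  h.elim fun φ h => ⟨φ.neg, fun K E v => not_congr (h K E v)⟩
theorem and (h : UD P) (h' : UD Q) : UD fun K E v => P K E v ∧ Q K E v :=
  h.elim fun φ h => h'.elim fun ψ h' => ⟨φ.and ψ, fun K E v => and_congr (h K E v) (h' K E v)⟩
theorem imp (h : UD P) (h' : UD Q) : UD fun K E v => P K E v → Q K E v :=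
  (h.and h'.neg).neg.congr fun _ _ _ => by tauto
theorem or (h : UD P) (h' : UD Q) : UD fun K E v => P K E v ∨ Q K E v :=
  (h.neg.imp h').congr fun _ _ _ => by tauto
theorem iff (h : UD P) (h' : UD Q) : UD fun K E v => P K E v ↔ Q K E v :=
  ((h.imp h').and (h'.imp h)).congr fun _ _ _ => by tauto
theorem ex {R : ∀ K : Type, (K → K → Prop) → K → (ℕ → K) → Prop}
    (h : UD fun K E w => R K E (w 0) fun i => w (i + 1)) : UD fun K E v => ∃ a, R K E a v :=
  h.elim fun φ h => ⟨φ.ex, fun K E v => exists_congr fun a => h K E (cons a v)⟩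
theorem all {R : ∀ K : Type, (K → K → Prop) → K → (ℕ → K) → Prop}
    (h : UD fun K E w => R K E (w 0) fun i => w (i + 1)) : UD fun K E v => ∀ a, R K E a v :=
  (ex (R := fun K E a v => ¬ R K E a v) h.neg).neg.congr fun _ _ _ => not_exists_not
theorem sat1 (φ : Fm) (i : ℕ) (ρ : ℕ → ℕ) : UD fun _ E v => Sat E φ (cons (v i) fun k => v (ρ k)) :=
  ⟨φ.ren (cons i ρ), fun _ _ _ => (sat_ren _ _ _).trans (iff_of_eq (congrArg _ (funext (by
    rintro (_ | i) <;> rfl))))⟩
theorem sat2 (φ : Fm) (i j : ℕ) (ρ : ℕ → ℕ) :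
    UD fun _ E v => Sat E φ (cons (v i) (cons (v j) fun k => v (ρ k))) :=
  ⟨φ.ren (cons i (cons j ρ)), fun _ _ _ => (sat_ren _ _ _).trans (iff_of_eq (congrArg _ (funext (by
    rintro (_ | _ | i) <;> rfl))))⟩

theorem ind (i : ℕ) : UD fun _ E v => Ind E (v i) := by
  unfold Ind
  repeat' first | apply mem | apply eq | apply neg | apply and | apply or | apply iff | apply ex | apply all | apply imp

theorem nat (i : ℕ) : UD fun _ E v => IsNat E (v i) := all ((ind _).imp (mem _ _))

theorem pair (i j k : ℕ) : UD fun _ E v => IsPair E (v i) (v j) (v k) := by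
  unfold IsPair
  repeat' first | apply mem | apply eq | apply or | apply iff | apply ex | apply all

theorem app (i j k : ℕ) : UD fun _ E v => App E (v i) (v j) (v k) := ex ((mem _ _).and (pair _ _ _))

theorem bij (i j k : ℕ) : UD fun _ E v => Bij E (v i) (v j) (v k) := by
  unfold Bij
  repeat' first | apply app | apply mem | apply eq | apply neg | apply and | apply or | apply iff | apply ex | apply all | apply imp

theorem fin (i : ℕ) : UD fun _ E v => IsFin E (v i) := ex (ex ((nat _).and (bij _ _ _)))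

theorem df (h : UD P) : Df E ℕ (P M E) := h.elim fun φ h => (Df.sat φ).congr (h M E)

end UD

namespace Df

variable {α : Type} {s t u : (α → M) → M}

theorem nat (hs : Tm s) : Df E α fun v => IsNat E (s v) :=
  (UD.nat 0).df.sub (fun v _ => s v) fun _ => hs

theorem fin (hs : Tm s) : Df E α fun v => IsFin E (s v) :=
  (UD.fin 0).df.sub (fun v _ => s v) fun _ => hs

theorem pair (hs : Tm s) (ht : Tm t) (hu : Tm u) : Df E α fun v => IsPair E (s v) (t v) (u v) :=
  (UD.pair 0 1 2).df.sub (fun v => cons (s v) (cons (t v) fun _ => u v))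
    (hs.cons (ht.cons fun _ => hu))

theorem bij (hs : Tm s) (ht : Tm t) (hu : Tm u) : Df E α fun v => Bij E (s v) (t v) (u v) :=
  (UD.bij 0 1 2).df.sub (fun v => cons (s v) (cons (t v) fun _ => u v))
    (hs.cons (ht.cons fun _ => hu))

end Df

end Pool.Agent.H40.Bspt
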