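import Pool.Agent.H40.Bspt1

set_option autoImplicit false

namespace Pool.Agent.H40.Bspt

variable {M : Type} {E : M → M → Prop}

def IsS (E : M → M → Prop) (s b y : M) : Prop := ∀ w, E w s ↔ E w b ∨ w = y

theorem Df.isS {α : Type} {s t u : (α → M) → M} (hs : Tm s) (ht : Tm t) (hu : Tm u) :
    Df E α fun v => IsS E (s v) (t v) (u v) :=
  ((UD.all ((UD.mem 0 1).iff ((UD.mem 0 2).or (UD.eq 0 3)))).df (P := fun _ E v =>
    IsS E (v 0) (v 1) (v 2))).sub (fun v => cons (s v) (cons (t v) fun _ => u v))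
    (hs.cons (ht.cons fun _ => hu))

namespace IsZF

variable (h : IsZF E)
include h

theorem ne : Nonempty M := ⟨h.inf.choose⟩

theorem irr (x : M) : ¬ E x x := fun hx => by
  obtain ⟨p, hp⟩ := h.pair x x
  obtain ⟨y, h1, h2⟩ := h.found p ⟨x, (hp x).2 (Or.inl rfl)⟩
  obtain rfl : y = x := by simpa using (hp y).1 h1
  exact h2 y hx h1

theorem union2 (x y : M) : ∃ u, ∀ z, E z u ↔ E z x ∨ E z y := by
  obtain ⟨p, hp⟩ := h.pair x y
  obtain ⟨u, hu⟩ := h.union p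
  exact ⟨u, fun z => by simp [hu, hp]⟩

theorem ins (b y : M) : ∃ s, IsS E s b y := by
  obtain ⟨p, hp⟩ := h.pair y y
  obtain ⟨u, hu⟩ := h.union2 b p
  exact ⟨u, fun z => by simp [hu, hp]⟩

theorem emp : ∃ z, ∀ y, ¬ E y z := h.inf.elim fun _ hI => hI.1.imp fun _ h => h.2

theorem nat0 {z : M} (hz : ∀ y, ¬ E y z) : IsNat E z := fun _ ⟨⟨z', h1, h2⟩, _⟩ =>
  h.ext z' z (fun y => iff_of_false (h2 y) (hz y)) ▸ h1

theorem natS {x s : M} (hx : IsNat E x) (hs : IsS E s x x) : IsNat E s := fun I hI => by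
  obtain ⟨s', h1, h2⟩ := hI.2 x (hx I hI)
  exact h.ext s' s (fun y => (h2 y).trans (hs y).symm) ▸ h1

theorem exPair (x y : M) : ∃ p, IsPair E p x y := by
  obtain ⟨a, ha⟩ := h.pair x x
  obtain ⟨b, hb⟩ := h.pair x y
  obtain ⟨p, hp⟩ := h.pair a b
  refine ⟨p, fun z => (hp z).trans (or_congr ⟨fun e w => by simp [e, ha], fun e => h.ext _ _
    fun w => by simp [e, ha]⟩ ⟨fun e w => by simp [e, hb], fun e => h.ext _ _ fun w => by
      simp [e, hb]⟩)⟩

theorem pair_inj {p x y x' y' : M} (h1 : IsPair E p x y) (h2 : IsPair E p x' y') :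
    x = x' ∧ y = y' := by
  have key : ∀ {x y x' y' : M}, IsPair E p x y → IsPair E p x' y' → x' = x ∧ (y = x' ∨ y = y') := by
    intro x y x' y' h1 h2
    obtain ⟨a, ha⟩ := h.pair x x
    obtain ⟨b, hb⟩ := h.pair x y
    constructor
    · rcases (h2 a).1 ((h1 a).2 (Or.inl fun w => by simp [ha])) with e | e
      · simpa using (ha x').1 ((e x').2 rfl)
      · simpa using (ha x').1 ((e x').2 (Or.inl rfl))
    · rcases (h2 b).1 ((h1 b).2 (Or.inr hb)) with e | e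
      · exact Or.inl ((e y).1 ((hb y).2 (Or.inr rfl)))
      · exact (e y).1 ((hb y).2 (Or.inr rfl))
  obtain ⟨rfl, a1⟩ := key h1 h2
  obtain ⟨-, a2⟩ := key h2 h1
  exact ⟨rfl, a1.elim (fun e => a2.elim (fun e' => e.trans e'.symm) Eq.symm) id⟩

variable [Countable M]

theorem sepD {P : M → Prop} (hP : Df E Unit fun w => P (w ())) (x : M) :
    ∃ y, ∀ z, E z y ↔ E z x ∧ P z := by
  haveI := h.ne
  obtain ⟨e, he⟩ := exists_surjective_nat M
  choose κ hκ using he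
  obtain ⟨φ, hφ⟩ := hP.toFm (Sum.elim (fun _ => 0) fun m => κ m + 1)
  exact (h.sep φ e x).imp fun y hy z => (hy z).trans (and_congr_right' (hφ (cons z e) hκ))

theorem collD {R : M → M → Prop} (hR : Df E Bool fun w => R (w false) (w true)) (x : M)
    (hx : ∀ a, E a x → ∃ b, R a b) : ∃ y, ∀ a, E a x → ∃ b, E b y ∧ R a b := by
  haveI := h.ne
  obtain ⟨e, he⟩ := exists_surjective_nat M
  choose κ hκ using he
  obtain ⟨φ, hφ⟩ := hR.toFm (Sum.elim (fun b => if b then 0 else 1) fun m => κ m + 2)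
  exact (h.coll φ e x fun a ha => (hx a ha).imp fun b => (hφ (cons b (cons a e)) hκ).2).imp
    fun y hy a ha => (hy a ha).imp fun b hb => ⟨hb.1, (hφ (cons b (cons a e)) hκ).1 hb.2⟩

theorem omega : ∃ w, ∀ n, E n w ↔ IsNat E n := by
  obtain ⟨I, hI⟩ := h.inf
  exact (h.sepD (Df.nat (Tm.var ())) I).imp fun w hw n => (hw n).trans
    (and_iff_right_of_imp fun hn => hn I hI)

theorem natInd {P : M → Prop} (hP : Df E Unit fun w => P (w ())) (h0 : ∀ z, (∀ y, ¬ E y z) → P z)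
    (h1 : ∀ x s, IsNat E x → P x → IsS E s x x → P s) (n : M) (hn : IsNat E n) : P n := by
  obtain ⟨w, hw⟩ := h.omega
  obtain ⟨J, hJ⟩ := h.sepD hP w
  obtain ⟨z, hz⟩ := h.emp
  refine ((hJ n).1 (hn J ⟨⟨z, (hJ z).2 ⟨(hw z).2 (h.nat0 hz), h0 z hz⟩, hz⟩, fun x hx => ?_⟩)).2
  obtain ⟨s, hs⟩ := h.ins x x
  have := (hJ x).1 hx
  have h2 := (hw x).1 this.1
  exact ⟨s, (hJ s).2 ⟨(hw s).2 (h.natS h2 hs), h1 x s h2 this.2 hs⟩, hs⟩

theorem nat_tr {n : M} (hn : IsNat E n) : ∀ m, E m n → IsNat E m ∧ ∀ k, E k m → E k n := by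
  refine h.natInd (P := fun n => ∀ m, E m n → IsNat E m ∧ ∀ k, E k m → E k n) ?_
    (fun z hz m hm => (hz m hm).elim) (fun x s hx ih hs m hm => ?_) n hn
  · repeat' first | exact Tm.var _ | apply Df.nat | apply Df.mem' | apply Df.and | apply Df.all' | apply Df.imp
  · rcases (hs m).1 hm with e | rfl
    · exact ⟨(ih m e).1, fun k hk => (hs k).2 (Or.inl ((ih m e).2 k hk))⟩
    · exact ⟨hx, fun k hk => (hs k).2 (Or.inl hk)⟩

theorem nat_le {m : M} (hm : IsNat E m) :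
    ∀ n, IsNat E n → (∀ k, E k n → E k m) → E n m ∨ n = m := by
  refine h.natInd (P := fun m => ∀ n, IsNat E n → (∀ k, E k n → E k m) → E n m ∨ n = m) ?_
    (fun z hz n _ h1 => Or.inr (h.ext _ _ fun k => iff_of_false (fun e => hz k (h1 k e)) (hz k)))
    (fun x s hx ih hs n hn h1 => ?_) m hm
  · repeat' first | exact Tm.var _ | apply Df.nat | apply Df.mem' | apply Df.eq' | apply Df.or | apply Df.all' | apply Df.imp
  · by_cases hxn : E x n
    · refine Or.inr (h.ext _ _ fun k => ⟨h1 k, fun e => ?_⟩)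
      rcases (hs k).1 e with e | rfl
      · exact (h.nat_tr hn x hxn).2 k e
      · exact hxn
    · exact Or.inl ((hs n).2 (ih n hn fun k hk => ((hs k).1 (h1 k hk)).resolve_right
        fun e => hxn (e ▸ hk)))

theorem nat_lin {m n : M} (hm : IsNat E m) (hn : IsNat E n) :
    (∀ k, E k n → E k m) ∨ ∀ k, E k m → E k n := by
  refine h.natInd (P := fun n => (∀ k, E k n → E k m) ∨ ∀ k, E k m → E k n) ?_
    (fun z hz => Or.inl fun k hk => (hz k hk).elim) (fun x s hx ih hs => ?_) n hn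
  · repeat' first | exact Tm.var _ | exact Tm.const _ | apply Df.mem' | apply Df.or | apply Df.all' | apply Df.imp
  · rcases ih with ih | ih
    · rcases h.nat_le hm x hx ih with e | rfl
      · exact Or.inl fun k hk => ((hs k).1 hk).elim (ih k) fun e' => e' ▸ e
      · exact Or.inr fun k hk => (hs k).2 (Or.inl hk)
    · exact Or.inr fun k hk => (hs k).2 (Or.inl (ih k hk))

theorem finInd {P : M → Prop} (hP : Df E Unit fun w => P (w ())) (h0 : ∀ z, (∀ y, ¬ E y z) → P z)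
    (h1 : ∀ b y s, IsFin E b → P b → IsS E s b y → P s) (a : M) (ha : IsFin E a) : P a := by
  obtain ⟨n, f, hn, hf⟩ := ha
  refine h.natInd (P := fun n => ∀ a, Bij E f n a → P a) ?_ (fun z hz a ha => h0 a fun y hy => ?_)
    (fun x s hx ih hs a ha => ?_) n hn a hf
  · exact Df.all' ((Df.bij (Tm.const _) (Tm.var _) (Tm.var _)).imp
      (hP.sub (fun w _ => w none) fun _ => Tm.var _))
  · exact (ha.2 y hy).elim fun x hx => hz x hx.1.1
  · obtain ⟨y, h2, h3⟩ := ha.1 x ((hs x).2 (Or.inr rfl))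
    obtain ⟨b, hb⟩ := h.sepD (P := fun w => ¬ w = y) (Df.eq' (Tm.var _) (Tm.const _)).neg a
    have h4 : Bij E f x b := by
      refine ⟨fun k hk => ?_, fun w hw => ?_⟩
      · obtain ⟨w, h5, h6⟩ := ha.1 k ((hs k).2 (Or.inl hk))
        refine ⟨w, ⟨(hb w).2 ⟨h5.1, ?_⟩, h5.2⟩, fun w' h7 => h6 w' ⟨((hb w').1 h7.1).1, h7.2⟩⟩
        rintro rfl
        obtain ⟨k', -, h8⟩ := ha.2 w h5.1
        exact h.irr x (((h8 k ⟨(hs k).2 (Or.inl hk), h5.2⟩).trans
          (h8 x ⟨(hs x).2 (Or.inr rfl), h2.2⟩).symm) ▸ hk)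
      · obtain ⟨k, h5, h6⟩ := ha.2 w ((hb w).1 hw).1
        refine ⟨k, ⟨((hs k).1 h5.1).resolve_right ?_, h5.2⟩,
          fun k' h7 => h6 k' ⟨(hs k').2 (Or.inl h7.1), h7.2⟩⟩
        rintro rfl
        exact ((hb w).1 hw).2 (h3 w ⟨((hb w).1 hw).1, h5.2⟩)
    refine h1 b y a ⟨x, f, hx, h4⟩ (ih b h4) fun w => ?_
    rw [hb]
    by_cases e : w = y
    · simp [e, h2.1]
    · simp [e]

omit [Countable M] in
theorem fin0 {z : M} (hz : ∀ y, ¬ E y z) : IsFin E z :=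
  ⟨z, z, h.nat0 hz, fun x hx => (hz x hx).elim, fun x hx => (hz x hx).elim⟩

theorem finS {a y s : M} (ha : IsFin E a) (hs : IsS E s a y) : IsFin E s := by
  by_cases hy : E y a
  · exact h.ext a s (fun w => ⟨fun e => (hs w).2 (Or.inl e), fun e => ((hs w).1 e).elim id
      fun e' => e' ▸ hy⟩) ▸ ha
  obtain ⟨n, f, hn, hf⟩ := ha
  obtain ⟨n', hn'⟩ := h.ins n n
  obtain ⟨g, hg⟩ := h.sepD (P := fun p => ∃ x w, E x n ∧ E w a ∧ IsPair E p x w) (by
    repeat' first | exact Tm.var _ | exact Tm.const _ | apply Df.pair | apply Df.mem' | apply Df.and | apply Df.ex') f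
  obtain ⟨q, hq⟩ := h.exPair n y
  obtain ⟨f', hf'⟩ := h.ins g q
  have key : ∀ x w, App E f' x w ↔ (E x n ∧ E w a ∧ App E f x w) ∨ (x = n ∧ w = y) := by
    refine fun x w => ⟨fun ⟨p, h1, h2⟩ => ?_, ?_⟩
    · rcases (hf' p).1 h1 with e | rfl
      · obtain ⟨h3, x', w', h4, h5, h6⟩ := (hg p).1 e
        obtain ⟨rfl, rfl⟩ := h.pair_inj h2 h6
        exact Or.inl ⟨h4, h5, p, h3, h2⟩
      · exact Or.inr (h.pair_inj h2 hq)
    · rintro (⟨h1, h2, p, h3, h4⟩ | ⟨rfl, rfl⟩)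
      · exact ⟨p, (hf' p).2 (Or.inl ((hg p).2 ⟨h3, x, w, h1, h2, h4⟩)), h4⟩
      · exact ⟨q, (hf' q).2 (Or.inr rfl), hq⟩
  have hi := h.irr n
  refine ⟨n', f', h.natS hn hn', fun x hx => ?_, fun w hw => ?_⟩
  · rcases (hn' x).1 hx with e | rfl
    · obtain ⟨w, h1, h2⟩ := hf.1 x e
      exact ⟨w, ⟨(hs w).2 (Or.inl h1.1), (key _ _).2 (Or.inl ⟨e, h1⟩)⟩, fun w' h3 =>
        ((key _ _).1 h3.2).elim (fun h4 => h2 w' h4.2) fun h4 => (hi (h4.1 ▸ e)).elim⟩
    · exact ⟨y, ⟨(hs y).2 (Or.inr rfl), (key _ _).2 (Or.inr ⟨rfl, rfl⟩)⟩, fun w' h3 =>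
        ((key _ _).1 h3.2).elim (fun h4 => (hi h4.1).elim) And.right⟩
  · rcases (hs w).1 hw with e | rfl
    · obtain ⟨x, h1, h2⟩ := hf.2 w e
      exact ⟨x, ⟨(hn' x).2 (Or.inl h1.1), (key _ _).2 (Or.inl ⟨h1.1, e, h1.2⟩)⟩, fun x' h3 =>
        ((key _ _).1 h3.2).elim (fun h4 => h2 x' ⟨h4.1, h4.2.2⟩) fun h4 => (hy (h4.2 ▸ e)).elim⟩
    · exact ⟨n, ⟨(hn' n).2 (Or.inr rfl), (key _ _).2 (Or.inr ⟨rfl, rfl⟩)⟩, fun x' h3 =>
        ((key _ _).1 h3.2).elim (fun h4 => (hy h4.2.1).elim) And.left⟩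

theorem finU {a b : M} (ha : IsFin E a) (hb : IsFin E b) :
    ∃ c, IsFin E c ∧ ∀ w, E w c ↔ E w a ∨ E w b := by
  refine h.finInd (P := fun b => ∃ c, IsFin E c ∧ ∀ w, E w c ↔ E w a ∨ E w b) ?_
    (fun z hz => ⟨a, ha, fun w => by simp [hz w]⟩) (fun b y s _ ⟨c, h1, h2⟩ hs => ?_) b hb
  · repeat' first | exact Tm.var _ | exact Tm.const _ | apply Df.fin | apply Df.mem' | apply Df.and | apply Df.or | apply Df.iff | apply Df.ex' | apply Df.all'
  · obtain ⟨c', hc⟩ := h.ins c y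
    exact ⟨c', h.finS h1 hc, fun w => by rw [hc, h2, hs, or_assoc]⟩

theorem collN (X : M) (n : ℕ) : ∀ {R : M → (ℕ → M) → Prop},
    Df E (Option ℕ) (fun w => R (w none) fun i => w (some i)) → (∀ x, ∃ b, R b x) →
    (∀ b x x', (∀ i < n, x i = x' i) → R b x → R b x') →
    ∃ Y, ∀ x, (∀ i < n, E (x i) X) → ∃ b, E b Y ∧ R b x := by
  haveI := h.ne
  induction n with
  | zero =>
    intro R _ h1 h2
    obtain ⟨b, hb⟩ := h1 fun _ => X
    obtain ⟨Y, hY⟩ := h.pair b b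
    exact ⟨Y, fun x _ => ⟨b, (hY b).2 (Or.inl rfl), h2 b _ _ (by simp) hb⟩⟩
  | succ n ih =>
    intro R hR h1 h2
    have hU : ∀ {α : Type} {b t : (α → M) → M} {x : (α → M) → ℕ → M}, Tm b → Tm t →
        (∀ i, Tm fun w => x w i) → Df E α fun w => R (b w) (Function.update (x w) n (t w)) := by
      intro α b t x hb ht hx
      refine hR.sub (fun w => oc (b w) (Function.update (x w) n (t w))) ?_
      rintro (_ | i)
      · exact hb
      · by_cases e : i = n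
        · simpa [oc, e] using ht
        · simpa [oc, e] using hx i
    obtain ⟨Z, hZ⟩ := h.collD (R := fun t Y => ∀ x : ℕ → M, (∀ i < n, E (x i) X) →
        ∃ b, E b Y ∧ R b (Function.update x n t))
      (Df.allB ((Df.finAll n fun i => Df.mem' (Tm.var _) (Tm.const _)).imp (Df.ex'
        ((Df.mem' (Tm.var _) (Tm.var _)).and (hU (Tm.var _) (Tm.var _) fun _ => Tm.var _))))) X
      fun t _ => ih (hU (Tm.var _) (Tm.const _) fun _ => Tm.var _) (fun _ => h1 _)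
        fun b x x' e => h2 b _ _ fun i hi => by
          by_cases e' : i = n
          · simp [e']
          · simp [e', e i (by omega)]
    obtain ⟨Y, hY⟩ := h.union Z
    refine ⟨Y, fun x hx => ?_⟩
    obtain ⟨Y', h3, h4⟩ := hZ (x n) (hx n (by omega))
    obtain ⟨b, h5, h6⟩ := h4 x fun i hi => hx i (by omega)
    exact ⟨b, (hY b).2 ⟨Y', h3, h5⟩, by simpa using h6⟩

end IsZF

end Pool.Agent.H40.Bspt
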