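import Pool.Agent.H40.Bspt2

set_option autoImplicit false

namespace Pool.Agent.H40.Bspt

variable {M : Type} {E : M → M → Prop}

structure Cond (E : M → M → Prop) where
  n : ℕ
  Ψ : (ℕ → M) → (ℕ → M) → Prop
  df : Df E (ℕ ⊕ ℕ) fun w => Ψ (fun i => w (Sum.inl i)) fun i => w (Sum.inr i)
  supp : ∀ p x x', (∀ i < n, x i = x' i) → Ψ p x → Ψ p x'
  bd : ∃ X p, ∀ x, Ψ p x → ∀ i < n, E (x i) X
  dir : ∀ p q, ∃ r, ∀ x, Ψ r x → Ψ p x ∧ Ψ q x
  ne : ∀ p, ∃ x, Ψ p x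

namespace Cond

def Ae (c : Cond E) (S : (ℕ → M) → Prop) : Prop := ∃ p, ∀ x, c.Ψ p x → S x
def Pos (c : Cond E) (S : (ℕ → M) → Prop) : Prop := ∀ p, ∃ x, c.Ψ p x ∧ S x
def Le (c' c : Cond E) : Prop := ∀ S, c.Ae S → c'.Ae S

theorem df' (c : Cond E) {α : Type} {p x : (α → M) → ℕ → M} (hp : ∀ i, Tm fun w => p w i)
    (hx : ∀ i, Tm fun w => x w i) : Df E α fun w => c.Ψ (p w) (x w) :=
  c.df.sub (fun w => Sum.elim (p w) (x w)) fun a => by cases a <;> simp [hp, hx]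

theorem dfPos [Nonempty M] (c : Cond E) {α : Type} {S : (ℕ → M) → (α → M) → Prop}
    (h : Df E (ℕ ⊕ ℕ ⊕ α) fun w => S (fun i => w (Sum.inl i)) fun a => w (Sum.inr (Sum.inr a))) :
    Df E α fun v => c.Pos fun x => S x v :=
  Df.allB (Df.exB ((c.df' (fun _ => Tm.var _) fun _ => Tm.var _).and h))

theorem Pos.or {c : Cond E} {S T : (ℕ → M) → Prop} (h : c.Pos fun x => S x ∨ T x) :
    c.Pos S ∨ c.Pos T := by
  by_contra hc
  simp only [Pos, not_or, not_forall, not_exists, not_and] at hc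
  obtain ⟨⟨p, hp⟩, q, hq⟩ := hc
  obtain ⟨r, hr⟩ := c.dir p q
  obtain ⟨x, h1, h2⟩ := h r
  exact h2.elim (hp x (hr x h1).1) (hq x (hr x h1).2)

theorem Pos.mono {c : Cond E} {S T : (ℕ → M) → Prop} (h : c.Pos S) (e : ∀ x, S x → T x) :
    c.Pos T := fun p => (h p).imp fun x hx => ⟨hx.1, e x hx.2⟩

theorem extend (h : IsZF E) (c : Cond E) (n : ℕ) (hn : c.n ≤ n) (Θ : M → (ℕ → M) → Prop)
    (h1 : Df E (Option ℕ) fun w => Θ (w none) fun i => w (some i))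
    (h2 : ∀ a x x', (∀ i < n, x i = x' i) → Θ a x → Θ a x')
    (h3 : ∀ a b, ∃ d, ∀ x, Θ d x → Θ a x ∧ Θ b x) (h4 : ∀ a, c.Pos (Θ a))
    (h5 : ∃ a Y, ∀ x, Θ a x → ∀ i < n, c.n ≤ i → E (x i) Y) :
    ∃ c' : Cond E, c'.Le c ∧ c'.n = n ∧ ∀ a, c'.Ae (Θ a) := by
  refine ⟨⟨n, fun p x => c.Ψ (fun i => p (i + 1)) x ∧ Θ (p 0) x,
    (c.df' (fun _ => Tm.var _) fun _ => Tm.var _).and (h1.sub
      (fun w => oc (w (Sum.inl 0)) fun i => w (Sum.inr i)) ?_),
    fun p x x' e hx => ⟨c.supp _ x x' (fun i hi => e i (by omega)) hx.1, h2 _ x x' e hx.2⟩, ?_,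
    fun p q => ?_, fun p => h4 _ _⟩, fun S ⟨p, hp⟩ => ⟨cons (p 0) p, fun x hx => hp x hx.1⟩, rfl,
    fun a => ⟨fun _ => a, fun x hx => hx.2⟩⟩
  · rintro (_ | i) <;> exact Tm.var _
  · obtain ⟨X, p, hX⟩ := c.bd
    obtain ⟨a, Y, hY⟩ := h5
    obtain ⟨u, hu⟩ := h.union2 X Y
    exact ⟨u, cons a p, fun x hx i hi => (hu _).2 ((lt_or_ge i c.n).imp (hX x hx.1 i) (hY x hx.2 i hi))⟩
  · obtain ⟨r, hr⟩ := c.dir (fun i => p (i + 1)) fun i => q (i + 1)
    obtain ⟨d, hd⟩ := h3 (p 0) (q 0)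
    exact ⟨cons d r, fun x hx => ⟨⟨(hr x hx.1).1, (hd x hx.2).1⟩, (hr x hx.1).2, (hd x hx.2).2⟩⟩

end Cond

def Good (E : M → M → Prop) (Φ : M → M → Prop) : Prop :=
  (∀ a, ∃ y, Φ a y) ∧ (∀ a b, ∃ d, ∀ y, Φ d y → Φ a y ∧ Φ b y) ∧ ∃ a Y, ∀ y, Φ a y → E y Y

namespace Cond

theorem prod (h : IsZF E) (c : Cond E) {Φ : M → M → Prop}
    (h1 : Df E Bool fun w => Φ (w false) (w true)) (h2 : Good E Φ) :
    ∃ c' : Cond E, c'.Le c ∧ c'.n = c.n + 1 ∧ ∀ a, c'.Ae fun x => Φ a (x c.n) := by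
  refine extend h c _ (by omega) _ (h1.sub (fun w b => if b then w (some c.n) else w none) ?_)
    (fun a x x' e hx => e c.n (by omega) ▸ hx)
    (fun a b => (h2.2.1 a b).imp fun d hd x => hd _) (fun a p => ?_)
    (h2.2.2.imp fun a => Exists.imp fun Y hY x hx i _ _ => (show c.n = i by omega) ▸ hY _ hx)
  · rintro (_ | _) <;> exact Tm.var _
  · obtain ⟨x, hx⟩ := c.ne p
    obtain ⟨y, hy⟩ := h2.1 a
    exact ⟨Function.update x c.n y, c.supp p x _
      (fun i hi => (Function.update_of_ne hi.ne _ _).symm) hx, by simpa using hy⟩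

theorem pad (h : IsZF E) (c : Cond E) (k : ℕ) : ∃ c' : Cond E, c'.Le c ∧ k ≤ c'.n := by
  induction k with
  | zero => exact ⟨c, fun _ => id, Nat.zero_le _⟩
  | succ k ih =>
    obtain ⟨c', h1, h2⟩ := ih
    obtain ⟨m⟩ := h.ne
    obtain ⟨Y, hY⟩ := h.pair m m
    obtain ⟨c'', h3, h4, -⟩ := prod h c' (Φ := fun _ y => y = m) (Df.eq' (Tm.var _) (Tm.const _))
      ⟨fun _ => ⟨m, rfl⟩, fun a _ => ⟨a, fun _ h => ⟨h, h⟩⟩, m, Y, fun y hy => (hY y).2 (Or.inl hy)⟩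
    exact ⟨c'', fun S hS => h3 S (h1 S hS), by omega⟩

variable [Countable M]

theorem henkin (h : IsZF E) (c₀ : Cond E) {R : M → (ℕ → M) → Prop}
    (hR : Df E (Option ℕ) fun w => R (w none) fun i => w (some i)) :
    ∃ c' : Cond E, c'.Le c₀ ∧ ∃ i, c'.Ae fun x => (∃ b, R b x) → R (x i) x := by
  obtain ⟨m⟩ := h.ne
  obtain ⟨F, h1, h2⟩ := hR.supp
  obtain ⟨k, hk⟩ := (h1.preimage (Option.some_injective _).injOn).bddAbove
  obtain ⟨c, h3, h4⟩ := pad h c₀ (k + 1)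
  have h5 : ∀ b x x', (∀ i < c.n, x i = x' i) → (R b x ↔ R b x') := fun b x x' e =>
    h2 (oc b x) (oc b x') (by
      rintro (_ | i) hi
      · rfl
      · exact e i (Nat.lt_of_lt_of_le (Nat.lt_succ_of_le (hk hi)) h4))
  have hR' : ∀ {α : Type} {b : (α → M) → M} {x : (α → M) → ℕ → M}, Tm b →
      (∀ i, Tm fun w => x w i) → Df E α fun w => R (b w) (x w) := by
    intro α b x hb hx
    refine hR.sub (fun w => oc (b w) (x w)) ?_
    rintro (_ | i)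
    · exact hb
    · exact hx i
  have hE : Df E (Option ℕ) fun w => ∃ b, R b fun i => w (some i) :=
    Df.ex' (hR' (Tm.var _) fun _ => Tm.var _)
  obtain ⟨X, p₀, hX⟩ := c.bd
  obtain ⟨Y, hY⟩ := h.collN X c.n (R := fun b x => (∃ b', R b' x) → R b x) (hE.imp hR)
    (fun x => by
      by_cases e : ∃ b', R b' x
      · exact e.imp fun _ hb _ => hb
      · exact ⟨m, fun e' => (e e').elim⟩)
    fun b x x' e hb ⟨b', hb'⟩ => (h5 b x x' e).1 (hb ⟨b', (h5 b' x x' e).2 hb'⟩)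
  obtain ⟨c', h6, -, h7⟩ := extend h c (c.n + 1) (by omega)
    (fun _ x => E (x c.n) Y ∧ ((∃ b, R b x) → R (x c.n) x))
    ((Df.mem' (Tm.var _) (Tm.const _)).and (hE.imp (hR' (Tm.var _) fun _ => Tm.var _)))
    (fun _ x x' e hx => by
      have e' : ∀ i < c.n, x i = x' i := fun i hi => e i (by omega)
      rw [← e c.n (by omega)]
      exact ⟨hx.1, fun ⟨b, hb⟩ => (h5 _ x x' e').1 (hx.2 ⟨b, (h5 _ x x' e').2 hb⟩)⟩)
    (fun a _ => ⟨a, fun _ h => ⟨h, h⟩⟩) (fun _ p => by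
      obtain ⟨r, hr⟩ := c.dir p p₀
      obtain ⟨x, hx⟩ := c.ne r
      obtain ⟨b, h6, h7⟩ := hY x (hX x (hr x hx).2)
      have e : ∀ i < c.n, x i = Function.update x c.n b i := fun i hi =>
        (Function.update_of_ne hi.ne _ _).symm
      refine ⟨Function.update x c.n b, c.supp p x _ e (hr x hx).1, ?_⟩
      simp only [Function.update_self]
      exact ⟨h6, fun ⟨b', hb⟩ => (h5 _ _ _ e).1 (h7 ⟨b', (h5 _ _ _ e).2 hb⟩)⟩)
    ⟨m, Y, fun x hx i _ _ => (show c.n = i by omega) ▸ hx.1⟩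
  exact ⟨c', fun S hS => h6 S (h3 S hS), c.n, (h7 m).imp fun p hp x hx => (hp x hx).2⟩

theorem fin (h : IsZF E) (c₀ : Cond E) (i : ℕ) {a : M} (ha : IsFin E a) :
    ∃ c' : Cond E, c'.Le c₀ ∧ ((c'.Ae fun x => ¬ E (x i) a) ∨ ∃ y, c'.Ae fun x => x i = y) := by
  haveI := h.ne
  obtain ⟨c, h3, h4⟩ := pad h c₀ (i + 1)
  by_cases hp : c.Pos fun x => E (x i) a
  · obtain ⟨y, hy⟩ := h.finInd (P := fun b => (c.Pos fun x => E (x i) b) → ∃ y, c.Pos fun x => x i = y)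
      ((c.dfPos (Df.mem' (Tm.var _) (Tm.var _))).imp
        (Df.ex' (c.dfPos (Df.eq' (Tm.var _) (Tm.var _)))))
      (fun z hz h5 => (h5 fun _ => a).elim fun x hx => (hz _ hx.2).elim)
      (fun b y s _ ih hs h5 => (Pos.or (h5.mono fun x => (hs _).1)).elim ih fun h6 => ⟨y, h6⟩) a ha hp
    obtain ⟨c', h6, -, h7⟩ := extend h c c.n le_rfl (fun _ x => x i = y)
      (Df.eq' (Tm.var _) (Tm.const _)) (fun _ x x' e hx => e i h4 ▸ hx)
      (fun a _ => ⟨a, fun _ h => ⟨h, h⟩⟩) (fun _ => hy) ⟨a, a, fun _ _ _ _ _ => by omega⟩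
    exact ⟨c', fun S hS => h6 S (h3 S hS), Or.inr ⟨y, h7 a⟩⟩
  · simp only [Pos, not_forall, not_exists, not_and] at hp
    exact ⟨c, h3, Or.inl hp⟩

theorem stdp (h : IsZF E) (c₀ : Cond E) (i : ℕ) : ∃ c' : Cond E, c'.Le c₀ ∧ ∃ B,
    (∀ m, E m B → IsNat E m) ∧ ∀ m, IsNat E m → c'.Ae fun x => E m (x i) ↔ E m B := by
  haveI := h.ne
  obtain ⟨c, h3, h4⟩ := pad h c₀ (i + 1)
  let Z : M → M → (ℕ → M) → Prop := fun s a x => ∀ m, E m a → (E m (x i) ↔ E m s)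
  let G : M → M → Prop := fun a s => ∀ m, E m a → (E m s ↔ c.Pos fun x => Z s m x ∧ E m (x i))
  have dZ : ∀ {α : Type} {s a t : (α → M) → M}, Tm s → Tm a → Tm t →
      Df E α fun w => ∀ m, E m (a w) → (E m (t w) ↔ E m (s w)) := by
    rintro α _ _ _ ⟨s, rfl⟩ ⟨a, rfl⟩ ⟨t, rfl⟩
    cases s <;> cases a <;> cases t <;>
      repeat' first | exact Tm.var _ | exact Tm.const _ | apply Df.mem' | apply Df.iff | apply Df.all' | apply Df.imp
  have dG0 : Df E Bool fun w => G (w false) (w true) :=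
    Df.all' ((Df.mem' (Tm.var _) (Tm.var _)).imp ((Df.mem' (Tm.var _) (Tm.var _)).iff
      (c.dfPos ((dZ (Tm.var _) (Tm.var _) (Tm.var _)).and (Df.mem' (Tm.var _) (Tm.var _))))))
  have dG : ∀ {α : Type} {a s : (α → M) → M}, Tm a → Tm s → Df E α fun w => G (a w) (s w) :=
    fun {α a s} ha hs => dG0.sub (fun w b => if b then s w else a w) (by rintro (_ | _) <;> assumption)
  have hZ : ∀ s s' m, (∀ k, E k m → (E k s ↔ E k s')) → Z s m = Z s' m := fun s s' m e =>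
    funext fun x => propext (forall₂_congr fun k hk => by rw [e k hk])
  have ex : ∀ a, IsNat E a → ∃ s, (∀ m, E m s → E m a) ∧ G a s ∧ c.Pos (Z s a) := by
    refine h.natInd (Df.ex' ((Df.all' ((Df.mem' (Tm.var _) (Tm.var _)).imp
      (Df.mem' (Tm.var _) (Tm.var _)))).and ((dG (Tm.var _) (Tm.var _)).and
        (c.dfPos (dZ (Tm.var _) (Tm.var _) (Tm.var _))))))
      (fun z hz => ⟨z, fun _ => id, fun m hm => (hz m hm).elim,
        fun p => (c.ne p).imp fun x hx => ⟨hx, fun m hm => (hz m hm).elim⟩⟩)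
      fun a a' ha ⟨s, h5, h6, h7⟩ ha' => ?_
    have key : ∀ s', (∀ k, E k a → (E k s ↔ E k s')) → (∀ m, E m s' → E m a') →
        (E a s' ↔ c.Pos fun x => Z s a x ∧ E a (x i)) →
        (c.Pos fun x => Z s a x ∧ (E a (x i) ↔ E a s')) →
        ∃ s, (∀ m, E m s → E m a') ∧ G a' s ∧ c.Pos (Z s a') := by
      refine fun s' e1 e2 e3 e4 => ⟨s', e2, fun m hm => ?_, e4.mono fun x hx m hm => ?_⟩
      · rcases (ha' m).1 hm with e | rfl
        · rw [← e1 m e, h6 m e, hZ s s' m fun k hk => e1 k ((h.nat_tr ha m e).2 k hk)]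
        · rw [e3, hZ s s' m e1]
      · rcases (ha' m).1 hm with e | rfl
        · rw [hx.1 m e, e1 m e]
        · exact hx.2
    by_cases hp : c.Pos fun x => Z s a x ∧ E a (x i)
    · obtain ⟨s', hs'⟩ := h.ins s a
      have e : E a s' := (hs' a).2 (Or.inr rfl)
      exact key s' (fun k hk => by simp [hs' k, show k ≠ a from fun e => h.irr a (e ▸ hk)])
        (fun m hm => (ha' m).2 (((hs' m).1 hm).imp_left (h5 m))) (iff_of_true e hp)
        (hp.mono fun x hx => ⟨hx.1, iff_of_true hx.2 e⟩)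
    · have e : ¬ E a s := fun e => h.irr a (h5 a e)
      exact key s (fun _ _ => Iff.rfl) (fun m hm => (ha' m).2 (Or.inl (h5 m hm))) (iff_of_false e hp)
        (((Pos.or (T := fun x => Z s a x ∧ ¬ E a (x i)) (h7.mono fun x hx =>
          (em _).imp (And.intro hx) (And.intro hx))).resolve_left hp).mono
          fun x hx => ⟨hx.1, iff_of_false hx.2 e⟩)
  have un : ∀ a s a' s', IsNat E a → IsNat E a' → G a s → G a' s' → ∀ t, IsNat E t →
      ∀ m, E m t → E m a → E m a' → (E m s ↔ E m s') := by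
    intro a s a' s' ha ha' h5 h6
    refine h.natInd ?_ (fun z hz m hm => (hz m hm).elim) fun t t' _ ih ht m hm h7 h8 => ?_
    · repeat' first | exact Tm.var _ | exact Tm.const _ | apply Df.mem' | apply Df.iff | apply Df.all' | apply Df.imp
    · rcases (ht m).1 hm with e | rfl
      · exact ih m e h7 h8
      · rw [h5 m h7, h6 m h8, hZ s s' m fun k hk =>
          ih k hk ((h.nat_tr ha m h7).2 k hk) ((h.nat_tr ha' m h8).2 k hk)]
  obtain ⟨w, hw⟩ := h.omega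
  obtain ⟨B, hB⟩ := h.sepD (P := fun m => ∃ a s, IsNat E a ∧ G a s ∧ E m a ∧ E m s) (by
    repeat' first | exact Tm.var _ | apply dG | apply Df.nat | apply Df.mem' | apply Df.and | apply Df.ex') w
  obtain ⟨c', h6, -, h7⟩ := extend h c c.n le_rfl (fun a x => IsNat E a → Z B a x)
    ((Df.nat (Tm.var _)).imp (dZ (Tm.const _) (Tm.var _) (Tm.var _)))
    (fun _ x x' e hx ha m hm => e i h4 ▸ hx ha m hm) (fun a b => by
      by_cases ha : IsNat E a
      · by_cases hb : IsNat E b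
        · rcases h.nat_lin ha hb with e | e
          · exact ⟨a, fun x hx => ⟨hx, fun _ m hm => hx ha m (e m hm)⟩⟩
          · exact ⟨b, fun x hx => ⟨fun _ m hm => hx hb m (e m hm), hx⟩⟩
        · exact ⟨a, fun x hx => ⟨hx, fun e => (hb e).elim⟩⟩
      · exact ⟨b, fun x hx => ⟨fun e => (ha e).elim, hx⟩⟩)
    (fun a => by
      by_cases ha : IsNat E a
      · obtain ⟨s, -, h5, h6⟩ := ex a ha
        rw [hZ s B a fun k hk => ⟨fun e => (hB k).2 ⟨(hw k).2 (h.nat_tr ha k hk).1, a, s, ha, h5,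
          hk, e⟩, fun e => by
            obtain ⟨-, a', s', h7, h8, h9, h10⟩ := (hB k).1 e
            exact (un a s a' s' ha h7 h5 h8 a ha k hk hk h9).2 h10⟩] at h6
        exact h6.mono fun x hx _ => hx
      · exact fun p => (c.ne p).imp fun x hx => ⟨hx, fun e => (ha e).elim⟩)
    ⟨w, w, fun _ _ _ _ _ => by omega⟩
  refine ⟨c', fun S hS => h6 S (h3 S hS), B, fun m hm => (hw m).1 ((hB m).1 hm).1, fun m hm => ?_⟩
  obtain ⟨s, hs⟩ := h.ins m m
  exact (h7 s).imp fun p hp x hx => hp x hx (h.natS hm hs) m ((hs m).2 (Or.inr rfl))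

theorem generic (h : IsZF E) {ι : Type} [Countable ι] (D : ι → (((ℕ → M) → Prop) → Prop) → Prop)
    (h1 : ∀ r A A', (∀ S, A S → A' S) → D r A → D r A')
    (h2 : ∀ r (c : Cond E), ∃ c' : Cond E, c'.Le c ∧ D r c'.Ae) :
    ∃ U : Ultrafilter (ℕ → M), ∀ r, D r fun S => ∀ᶠ x in U, S x := by
  obtain ⟨m⟩ := h.ne
  obtain ⟨e, he⟩ := exists_surjective_nat (Option ι)
  have h3 : ∀ (r : Option ι) (c : Cond E), ∃ c' : Cond E, c'.Le c ∧ ∀ r', r = some r' → D r' c'.Ae := by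
    rintro (_ | r) c
    · exact ⟨c, fun _ => id, by simp⟩
    · simpa using h2 r c
  choose f h4 h5 using h3
  let c : ℕ → Cond E := fun k => Nat.rec ⟨0, fun _ _ => m = m, Df.eq' (Tm.const _) (Tm.const _),
    fun _ _ _ _ => id, ⟨m, fun _ => m, by simp⟩, fun p _ => ⟨p, fun _ h => ⟨h, h⟩⟩,
    fun p => ⟨p, rfl⟩⟩ (fun k c => f (e k) c) k
  have h6 : ∀ k l, k ≤ l → (c l).Le (c k) := fun k l hl => by
    induction hl with
    | refl => exact fun _ => id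
    | step _ ih => exact fun S hS => h4 _ _ S (ih S hS)
  let F : Filter (ℕ → M) := ⟨{S | ∃ k, (c k).Ae (· ∈ S)}, ⟨0, fun _ => m, fun _ _ => trivial⟩,
    by
      rintro S T ⟨k, p, hp⟩ e
      exact ⟨k, p, fun x hx => e (hp x hx)⟩,
    by
      rintro S T ⟨k, hk⟩ ⟨l, hl⟩
      obtain ⟨p, hp⟩ := h6 k _ (le_max_left k l) _ hk
      obtain ⟨q, hq⟩ := h6 l _ (le_max_right k l) _ hl
      obtain ⟨r, hr⟩ := (c (max k l)).dir p q
      exact ⟨_, r, fun x hx => ⟨hp x (hr x hx).1, hq x (hr x hx).2⟩⟩⟩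
  haveI : F.NeBot := Filter.forall_mem_nonempty_iff_neBot.1 (by
    rintro S ⟨k, p, hp⟩
    exact ((c k).ne p).imp hp)
  refine ⟨Ultrafilter.of F, fun r => ?_⟩
  obtain ⟨k, hk⟩ := he (some r)
  exact h1 r _ _ (fun S hS => Ultrafilter.of_le F ⟨k + 1, hS⟩) (h5 _ (c k) r hk)

end Cond

theorem exU [Countable M] (h : IsZF E) : ∃ U : Ultrafilter (ℕ → M),
    (∀ R : M → (ℕ → M) → Prop, Df E (Option ℕ) (fun w => R (w none) fun i => w (some i)) →
      ∃ i, ∀ᶠ x in (U : Filter (ℕ → M)), (∃ b, R b x) → R (x i) x) ∧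
    (∀ Φ : M → M → Prop, Df E Bool (fun w => Φ (w false) (w true)) → Good E Φ →
      ∃ i, ∀ a, ∀ᶠ x in (U : Filter (ℕ → M)), Φ a (x i)) ∧
    (∀ i, (∃ X, ∀ᶠ x in (U : Filter (ℕ → M)), E (x i) X) ∧ ∃ B, (∀ m, E m B → IsNat E m) ∧
      ∀ m, IsNat E m → ∀ᶠ x in (U : Filter (ℕ → M)), E m (x i) ↔ E m B) ∧
    ∀ i a, IsFin E a → (∀ᶠ x in (U : Filter (ℕ → M)), ¬ E (x i) a) ∨
      ∃ y, ∀ᶠ x in (U : Filter (ℕ → M)), x i = y := by
  haveI := h.ne
  haveI := Df.countable (E := E) (α := Option ℕ)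
  haveI := Df.countable (E := E) (α := Bool)
  obtain ⟨U, hU⟩ := Cond.generic h
    (ι := {P // Df E (Option ℕ) P} ⊕ {P // Df E Bool P} ⊕ ℕ ⊕ ℕ ⊕ ℕ × {a // IsFin E a})
    (Sum.elim (fun P A => ∃ i, A fun x => (∃ b, P.1 (oc b x)) → P.1 (oc (x i) x))
      (Sum.elim (fun P A => Good E (fun a y => P.1 fun b => if b then y else a) →
        ∃ i, ∀ a, A fun x => P.1 fun b => if b then x i else a)
      (Sum.elim (fun i A => ∃ X, A fun x => E (x i) X)
      (Sum.elim (fun i A => ∃ B, (∀ m, E m B → IsNat E m) ∧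
        ∀ m, IsNat E m → A fun x => E m (x i) ↔ E m B)
      fun z A => (A fun x => ¬ E (x z.1) z.2.1) ∨ ∃ y, A fun x => x z.1 = y))))
    (by
      rintro (P | P | i | i | z) A A' e
      · exact Exists.imp fun _ => e _
      · exact fun h1 h2 => (h1 h2).imp fun _ h3 a => e _ (h3 a)
      · exact Exists.imp fun _ => e _
      · exact Exists.imp fun _ h1 => ⟨h1.1, fun m hm => e _ (h1.2 m hm)⟩
      · exact Or.imp (e _) (Exists.imp fun _ => e _))
    (by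
      rintro (P | P | i | i | z) c
      · exact c.henkin h (R := fun b x => P.1 (oc b x)) (P.2.sub _ (by
          rintro (_ | i) <;> exact Tm.var _))
      · by_cases hg : Good E fun a y => P.1 fun b => if b then y else a
        · obtain ⟨c', h1, -, h2⟩ := c.prod h (P.2.sub _ (by rintro (_ | _) <;> exact Tm.var _)) hg
          exact ⟨c', h1, fun _ => ⟨_, h2⟩⟩
        · exact ⟨c, fun _ => id, fun e => (hg e).elim⟩
      · obtain ⟨c', h1, h2⟩ := c.pad h (i + 1)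
        obtain ⟨X, p, hp⟩ := c'.bd
        exact ⟨c', h1, X, p, fun x hx => hp x hx i h2⟩
      · exact c.stdp h i
      · exact c.fin h z.1 z.2.2)
  exact ⟨U, fun R hR => hU (.inl ⟨_, hR⟩), fun Φ hΦ => hU (.inr (.inl ⟨_, hΦ⟩)),
    fun i => ⟨hU (.inr (.inr (.inl i))), hU (.inr (.inr (.inr (.inl i))))⟩,
    fun i a ha => hU (.inr (.inr (.inr (.inr (i, ⟨a, ha⟩)))))⟩

end Pool.Agent.H40.Bspt
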