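import Pool.Agent.H40.Bspt3

set_option autoImplicit false

namespace Pool.Agent.H40.Bspt

open Filter

variable {M : Type} {E : M → M → Prop}

def sto (U : Ultrafilter (ℕ → M)) : Setoid ℕ where
  r i j := ∀ᶠ x in (U : Filter (ℕ → M)), x i = x j
  iseqv := ⟨fun _ => Eventually.of_forall fun _ => rfl, fun h => h.mono fun _ => Eq.symm,
    fun h h' => by filter_upwards [h, h'] with x a b using a.trans b⟩

def NE (E : M → M → Prop) (U : Ultrafilter (ℕ → M)) (a b : Quotient (sto U)) : Prop :=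
  ∀ᶠ x in (U : Filter (ℕ → M)), E (x a.out) (x b.out)

theorem out_mk (U : Ultrafilter (ℕ → M)) (i : ℕ) :
    ∀ᶠ x in (U : Filter (ℕ → M)), x (Quotient.mk (sto U) i).out = x i :=
  Quotient.mk_out (s := sto U) i

theorem eq_iff {U : Ultrafilter (ℕ → M)} (a b : Quotient (sto U)) :
    a = b ↔ ∀ᶠ x in (U : Filter (ℕ → M)), x a.out = x b.out :=
  (Quotient.out_equiv_out (s := sto U)).symm

theorem los {U : Ultrafilter (ℕ → M)}
    (h : ∀ R : M → (ℕ → M) → Prop, Df E (Option ℕ) (fun w => R (w none) fun i => w (some i)) →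
      ∃ i, ∀ᶠ x in (U : Filter (ℕ → M)), (∃ b, R b x) → R (x i) x) (φ : Fm) :
    ∀ w : ℕ → Quotient (sto U), Sat (NE E U) φ w ↔
      ∀ᶠ x in (U : Filter (ℕ → M)), Sat E φ fun k => x (w k).out := by
  induction φ with
  | mem i j => exact fun _ => Iff.rfl
  | eq i j => exact fun _ => eq_iff _ _
  | neg _ ih => exact fun w => (not_congr (ih w)).trans Ultrafilter.eventually_not.symm
  | and _ _ ih1 ih2 => exact fun w => (and_congr (ih1 w) (ih2 w)).trans eventually_and.symm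
  | ex φ ih =>
    intro w
    have e : ∀ (a : Quotient (sto U)) (x : ℕ → M),
        (fun k => x (cons a w k).out) = cons (x a.out) fun k => x (w k).out := fun a x =>
      funext (by rintro (_ | k) <;> rfl)
    refine ⟨fun ⟨a, ha⟩ => ((ih _).1 ha).mono fun x hx => ⟨_, e a x ▸ hx⟩, fun h1 => ?_⟩
    obtain ⟨i, hi⟩ := h (fun b x => Sat E φ (cons b fun k => x (w k).out))
      ((Df.sat φ).sub _ ((Tm.var _).cons fun _ => Tm.var _))
    refine ⟨Quotient.mk _ i, (ih _).2 ?_⟩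
    filter_upwards [h1, hi, out_mk U i] with x a1 a2 a3
    rw [e, a3]
    exact a2 a1

theorem main [Countable M] (h : IsZF E) : ∃ (N : Type) (E' : N → N → Prop) (j : M → N),
    Function.Injective j ∧ (∀ a b, E' (j a) (j b) ↔ E a b) ∧ BSPT E' (Set.range j) := by
  obtain ⟨U, h1, h2, h3, h4⟩ := exU h
  have hj : ∀ m : M, ∃ a : Quotient (sto U), ∀ᶠ x in (U : Filter (ℕ → M)), x a.out = m := fun m => by
    obtain ⟨i, hi⟩ := h1 (fun b _ => b = m) (Df.eq' (Tm.var _) (Tm.const _))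
    exact ⟨Quotient.mk _ i, (hi.and (out_mk U i)).mono fun x hx => hx.2.trans (hx.1 ⟨m, rfl⟩)⟩
  choose j hj using hj
  have L : ∀ {P : ∀ K : Type, (K → K → Prop) → (ℕ → K) → Prop}, UD P →
      ∀ (w : ℕ → Quotient (sto U)) (g : (ℕ → M) → ℕ → M),
      (∀ k, ∀ᶠ x in (U : Filter (ℕ → M)), x (w k).out = g x k) →
      (P _ (NE E U) w ↔ ∀ᶠ x in (U : Filter (ℕ → M)), P M E (g x)) := by
    rintro P ⟨φ, hφ⟩ w g hg
    obtain ⟨F, a1, a2⟩ := (Df.sat (E := E) φ).supp
    rw [← hφ, los h1]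
    refine eventually_congr (((eventually_all_finite a1).2 fun k _ => hg k).mono fun x hx => ?_)
    rw [← hφ]
    exact a2 _ _ hx
  have T : ∀ {P : ∀ K : Type, (K → K → Prop) → (ℕ → K) → Prop}, UD P → ∀ v : ℕ → M,
      (P _ (NE E U) (fun k => j (v k)) ↔ P M E v) := fun hP v =>
    (L hP _ (fun _ => v) fun k => hj _).trans eventually_const
  have V : ∀ {P : ∀ K : Type, (K → K → Prop) → (ℕ → K) → Prop}, UD P → (∀ v, P M E v) →
      ∀ w, P _ (NE E U) w := fun hP hv w =>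
    (L hP w (fun x k => x (w k).out) fun _ => Eventually.of_forall fun _ => rfl).2
      (Eventually.of_forall fun _ => hv _)
  have hE : ∀ a b, NE E U (j a) (j b) ↔ E a b := fun a b => T (UD.mem 0 1) (cons a fun _ => b)
  have hN : ∀ a, IsNat (NE E U) (j a) ↔ IsNat E a := fun a => T (UD.nat 0) fun _ => a
  have hF : ∀ a, IsFin (NE E U) (j a) ↔ IsFin E a := fun a => T (UD.fin 0) fun _ => a
  have hS : ∀ a b, (∀ y, NE E U y (j a) → NE E U y (j b)) ↔ ∀ y, E y a → E y b := fun a b =>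
    T (P := fun _ E v => ∀ y, E y (v 0) → E y (v 1)) (UD.all ((UD.mem _ _).imp (UD.mem _ _)))
      (cons a fun _ => b)
  have hM : ∀ a b, NE E U a (j b) ↔ ∀ᶠ x in (U : Filter (ℕ → M)), E (x a.out) b := fun a b =>
    eventually_congr ((hj b).mono fun x hx => by rw [hx])
  obtain ⟨m⟩ := h.ne
  have c1 : ∀ (a : M) (v : ℕ → M), cons (j a) (fun k => j (v k)) = fun k => j (cons a v k) :=
    fun a v => funext (by rintro (_ | k) <;> rfl)
  obtain ⟨w, hw⟩ := h.omega
  refine ⟨_, NE E U, j, fun a b e => (T (UD.eq 0 1) (cons a fun _ => b)).1 e, hE,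
    ⟨?_, ?_, ?_, ?_, ?_, ?_, fun φ v => ?_, fun φ v => ?_⟩, fun φ v hv hx => ?_, ?_,
    fun A hA => ?_, fun a => ?_, fun φ v hv => ?_⟩
  · refine V (P := fun _ E _ => ∀ x y, (∀ z, E z x ↔ E z y) → x = y) ?_ (fun _ => h.ext) fun _ => j m
    repeat' first | apply UD.mem | apply UD.eq | apply UD.iff | apply UD.all | apply UD.imp
  · refine V (P := fun _ E _ => ∀ x, (∃ y, E y x) → ∃ y, E y x ∧ ∀ z, E z y → ¬ E z x) ?_
      (fun _ => h.found) fun _ => j m
    repeat' first | apply UD.mem | apply UD.neg | apply UD.and | apply UD.ex | apply UD.all | apply UD.imp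
  · refine V (P := fun _ E _ => ∀ x y, ∃ p, ∀ z, E z p ↔ z = x ∨ z = y) ?_
      (fun _ => h.pair) fun _ => j m
    repeat' first | apply UD.mem | apply UD.eq | apply UD.or | apply UD.iff | apply UD.ex | apply UD.all
  · refine V (P := fun _ E _ => ∀ x, ∃ u, ∀ z, E z u ↔ ∃ y, E y x ∧ E z y) ?_
      (fun _ => h.union) fun _ => j m
    repeat' first | apply UD.mem | apply UD.and | apply UD.iff | apply UD.ex | apply UD.all
  · refine V (P := fun _ E _ => ∀ x, ∃ p, ∀ z, E z p ↔ ∀ y, E y z → E y x) ?_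
      (fun _ => h.power) fun _ => j m
    repeat' first | apply UD.mem | apply UD.iff | apply UD.ex | apply UD.all | apply UD.imp
  · exact V (P := fun _ E _ => ∃ I, Ind E I) (UD.ex (UD.ind _)) (fun _ => h.inf) fun _ => j m
  · refine V (P := fun _ E v => ∀ x, ∃ y, ∀ z, E z y ↔ E z x ∧ Sat E φ (cons z v)) ?_ (h.sep φ) v
    repeat' first | apply UD.mem | apply UD.sat1 | apply UD.and | apply UD.iff | apply UD.ex | apply UD.all
  · refine V (P := fun _ E v => ∀ x, (∀ a, E a x → ∃ b, Sat E φ (cons b (cons a v))) →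
      ∃ y, ∀ a, E a x → ∃ b, E b y ∧ Sat E φ (cons b (cons a v))) ?_ (h.coll φ) v
    repeat' first | apply UD.mem | apply UD.sat2 | apply UD.and | apply UD.ex | apply UD.all | apply UD.imp
  · choose u hu using hv
    obtain rfl : (fun k => j (u k)) = v := funext hu
    refine (T (P := fun _ E v => ∀ x, Sat E φ (cons x v)) (UD.all (UD.sat1 _ _ _)) u).2 fun x => ?_
    exact (T ⟨φ, fun _ _ _ => Iff.rfl⟩ _).1 (c1 x u ▸ hx _ ⟨x, rfl⟩)
  · obtain ⟨z, hz⟩ := h.emp
    obtain ⟨i, hi⟩ := h2 (fun a y => IsNat E y ∧ (IsNat E a → ∀ k, E k a → E k y)) (by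
      repeat' first | exact Tm.var _ | apply Df.nat | apply Df.mem' | apply Df.and | apply Df.all' | apply Df.imp)
      ⟨fun a => by
        by_cases ha : IsNat E a
        · exact ⟨a, ha, fun _ _ => id⟩
        · exact ⟨z, h.nat0 hz, fun e => (ha e).elim⟩, fun a b => by
        by_cases ha : IsNat E a
        · by_cases hb : IsNat E b
          · rcases h.nat_lin ha hb with e | e
            · exact ⟨a, fun y hy => ⟨hy, hy.1, fun _ k hk => hy.2 ha k (e k hk)⟩⟩
            · exact ⟨b, fun y hy => ⟨⟨hy.1, fun _ k hk => hy.2 hb k (e k hk)⟩, hy⟩⟩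
          · exact ⟨a, fun y hy => ⟨hy, hy.1, fun e => (hb e).elim⟩⟩
        · exact ⟨b, fun y hy => ⟨⟨hy.1, fun e => (ha e).elim⟩, hy⟩⟩,
        z, w, fun y hy => (hw y).2 hy.1⟩
    refine ⟨Quotient.mk _ i, (L (UD.nat 0) (fun _ => _) (fun x _ => x i) fun _ => out_mk U i).2
      ((hi z).mono fun x hx => hx.1), ?_⟩
    rintro _ ⟨n, rfl⟩ hn e
    obtain ⟨s, hs⟩ := h.ins n n
    obtain ⟨x, a1, a2, a3⟩ := ((hi s).and ((out_mk U i).and (hj n))).exists
    rw [← e, a3] at a2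
    exact h.irr n (a2 ▸ a1.2 (h.natS ((hN n).1 hn) hs) n ((hs n).2 (Or.inr rfl)))
  · obtain ⟨B, a1, a2⟩ := (h3 A.out).2
    refine ⟨j B, ⟨B, rfl⟩, (T (P := fun _ E v => ∀ x, E x (v 0) → IsNat E x)
      (UD.all ((UD.mem _ _).imp (UD.nat _))) fun _ => B).2 a1, ?_⟩
    rintro _ ⟨n, rfl⟩ hn
    rw [hE]
    exact eventually_const.symm.trans (eventually_congr (((a2 n ((hN n).1 hn)).and (hj n)).mono
      fun x hx => by rw [hx.2, hx.1]))
  · obtain ⟨X, hX⟩ := (h3 a.out).1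
    exact ⟨j X, ⟨X, rfl⟩, (hM _ _).2 hX⟩
  · choose u hu using hv
    obtain rfl : (fun k => j (u k)) = v := funext hu
    rintro _ ⟨A, rfl⟩ _ ⟨X, rfl⟩
    refine ⟨fun H => ?_, fun ⟨x, a1, a2⟩ => ?_⟩
    · have H' : ∀ a, IsFin E a → (∀ y, E y a → E y A) →
          ∃ x, E x X ∧ ∀ y, E y a → Sat E φ (cons x (cons y u)) := fun a a1 a2 =>
        (T (P := fun _ E v => ∃ x, E x (v 0) ∧ ∀ y, E y (v 1) →
          Sat E φ (cons x (cons y fun k => v (k + 2)))) (by
            repeat' first | apply UD.mem | apply UD.sat2 | apply UD.and | apply UD.ex | apply UD.all | apply UD.imp)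
          (cons X (cons a u))).1 (H _ ⟨a, rfl⟩ ((hF a).2 a1) ((hS a A).2 a2))
      obtain ⟨z, hz⟩ := h.emp
      obtain ⟨i, hi⟩ := h2 (fun a x => E x X ∧ (IsFin E a ∧ (∀ y, E y a → E y A) →
        ∀ y, E y a → Sat E φ (cons x (cons y u))))
        ((Df.mem' (Tm.var _) (Tm.const _)).and (((Df.fin (Tm.var _)).and (Df.all'
          ((Df.mem' (Tm.var _) (Tm.var _)).imp (Df.mem' (Tm.var _) (Tm.const _))))).imp (Df.all'
          ((Df.mem' (Tm.var _) (Tm.var _)).imp ((Df.sat φ).sub _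
            ((Tm.var _).cons ((Tm.var _).cons fun _ => Tm.const _)))))))
        ⟨fun a => by
          by_cases ha : IsFin E a ∧ ∀ y, E y a → E y A
          · exact (H' a ha.1 ha.2).imp fun x hx => ⟨hx.1, fun _ => hx.2⟩
          · exact (H' z (h.fin0 hz) fun y hy => (hz y hy).elim).imp
              fun x hx => ⟨hx.1, fun e => (ha e).elim⟩, fun a b => by
          by_cases ha : IsFin E a ∧ ∀ y, E y a → E y A
          · by_cases hb : IsFin E b ∧ ∀ y, E y b → E y A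
            · obtain ⟨c, a1, a2⟩ := h.finU ha.1 hb.1
              have a3 := And.intro a1 fun y hy => ((a2 y).1 hy).elim (ha.2 y) (hb.2 y)
              exact ⟨c, fun x hx => ⟨⟨hx.1, fun _ y hy => hx.2 a3 y ((a2 y).2 (Or.inl hy))⟩,
                hx.1, fun _ y hy => hx.2 a3 y ((a2 y).2 (Or.inr hy))⟩⟩
            · exact ⟨a, fun y hy => ⟨hy, hy.1, fun e => (hb e).elim⟩⟩
          · exact ⟨b, fun y hy => ⟨⟨hy.1, fun e => (ha e).elim⟩, hy⟩⟩,
          z, X, fun y hy => hy.1⟩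
      refine ⟨Quotient.mk _ i, (hM _ _).2 (((hi z).and (out_mk U i)).mono fun x hx =>
        hx.2 ▸ hx.1.1), ?_⟩
      rintro _ ⟨y, rfl⟩ hy
      obtain ⟨s, hs⟩ := h.ins z y
      refine (L ⟨φ, fun _ _ _ => Iff.rfl⟩ _ (fun x => cons (x i) (cons y u)) ?_).2
        ((hi s).mono fun x hx => hx.2 ⟨h.finS (h.fin0 hz) hs, fun y' hy' => ((hs y').1 hy').elim
          (fun e => (hz _ e).elim) fun e => e ▸ (hE _ _).1 hy⟩ y ((hs y).2 (Or.inr rfl)))
      rintro (_ | _ | k)
      · exact out_mk U i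
      · exact hj _
      · exact hj _
    · rintro _ ⟨a, rfl⟩ a3 a4
      refine ⟨x, a1, fun y hy => a2 y ?_ (a4 y hy)⟩
      rcases h4 y.out a ((hF a).1 a3) with e | ⟨b, e⟩
      · exact (e.and ((hM _ _).1 hy)).exists.elim fun _ e => (e.1 e.2).elim
      · exact ⟨b, (eq_iff _ _).2 (((hj b).and e).mono fun _ e => e.1.trans e.2.symm)⟩

end Pool.Agent.H40.Bspt
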