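import Mathlib

set_option autoImplicit false

namespace Pool.Agent.H40.Bspt

/-- Formulas of the language of set theory (de Bruijn variables). -/
inductive Fm : Type
  | mem (i j : ℕ) : Fm
  | eq (i j : ℕ) : Fm
  | neg (φ : Fm) : Fm
  | and (φ ψ : Fm) : Fm
  | ex (φ : Fm) : Fm

variable {M : Type}

/-- Extend a valuation by a new value for variable `0`. -/
def cons (a : M) (v : ℕ → M) : ℕ → M
  | 0 => a
  | n + 1 => v n

/-- Satisfaction in the structure `(M, E)`. -/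
def Sat (E : M → M → Prop) : Fm → (ℕ → M) → Prop
  | .mem i j, v => E (v i) (v j)
  | .eq i j, v => v i = v j
  | .neg φ, v => ¬ Sat E φ v
  | .and φ ψ, v => Sat E φ v ∧ Sat E ψ v
  | .ex φ, v => ∃ a, Sat E φ (cons a v)

variable (E : M → M → Prop)

/-- `I` is inductive: contains an empty set and is closed under `x ↦ x ∪ {x}`. -/
def Ind (I : M) : Prop :=
  (∃ z, E z I ∧ ∀ y, ¬ E y z) ∧ ∀ x, E x I → ∃ s, E s I ∧ ∀ y, E y s ↔ E y x ∨ y = x

/-- `n` is a natural number: it lies in every inductive set. -/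
def IsNat (n : M) : Prop := ∀ I, Ind E I → E n I

/-- `p` is the Kuratowski pair of `x` and `y`. -/
def IsPair (p x y : M) : Prop :=
  ∀ z, E z p ↔ (∀ w, E w z ↔ w = x) ∨ (∀ w, E w z ↔ w = x ∨ w = y)

/-- The pair of `x` and `y` belongs to `f`. -/
def App (f x y : M) : Prop := ∃ p, E p f ∧ IsPair E p x y

/-- `f` gives a bijection between `n` and `a`. -/
def Bij (f n a : M) : Prop :=
  (∀ x, E x n → ∃ y, (E y a ∧ App E f x y) ∧ ∀ y', E y' a ∧ App E f x y' → y' = y) ∧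
    ∀ y, E y a → ∃ x, (E x n ∧ App E f x y) ∧ ∀ x', E x' n ∧ App E f x' y → x' = x

/-- `a` is finite: in bijection with a natural number. -/
def IsFin (a : M) : Prop := ∃ n f, IsNat E n ∧ Bij E f n a

/-- `(M, E)` is a model of ZF (with the separation and collection schemes). -/
structure IsZF : Prop where
  ext : ∀ x y, (∀ z, E z x ↔ E z y) → x = y
  found : ∀ x, (∃ y, E y x) → ∃ y, E y x ∧ ∀ z, E z y → ¬ E z x
  pair : ∀ x y, ∃ p, ∀ z, E z p ↔ z = x ∨ z = y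
  union : ∀ x, ∃ u, ∀ z, E z u ↔ ∃ y, E y x ∧ E z y
  power : ∀ x, ∃ p, ∀ z, E z p ↔ ∀ y, E y z → E y x
  inf : ∃ I, Ind E I
  sep : ∀ (φ : Fm) (v : ℕ → M) (x : M), ∃ y, ∀ z, E z y ↔ E z x ∧ Sat E φ (cons z v)
  coll : ∀ (φ : Fm) (v : ℕ → M) (x : M), (∀ a, E a x → ∃ b, Sat E φ (cons b (cons a v))) →
    ∃ y, ∀ a, E a x → ∃ b, E b y ∧ Sat E φ (cons b (cons a v))

/-- `(M, E, S)` is a model of BSPT′, with `S` the class of standard sets. -/
structure BSPT (S : Set M) : Prop where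
  zf : IsZF E
  transfer : ∀ (φ : Fm) (v : ℕ → M), (∀ i, v i ∈ S) → (∀ x ∈ S, Sat E φ (cons x v)) →
    ∀ x, Sat E φ (cons x v)
  nontriv : ∃ ν, IsNat E ν ∧ ∀ n ∈ S, IsNat E n → n ≠ ν
  stdPart : ∀ A, (∀ x, E x A → IsNat E x) → ∃ B ∈ S, (∀ x, E x B → IsNat E x) ∧
    ∀ n ∈ S, IsNat E n → (E n B ↔ E n A)
  bounded : ∀ x, ∃ X ∈ S, E x X
  ideal : ∀ (φ : Fm) (v : ℕ → M), (∀ i, v i ∈ S) → ∀ A ∈ S, ∀ X ∈ S,
    (∀ a ∈ S, IsFin E a → (∀ y, E y a → E y A) →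
      ∃ x, E x X ∧ ∀ y, E y a → Sat E φ (cons x (cons y v))) ↔
    ∃ x, E x X ∧ ∀ y ∈ S, E y A → Sat E φ (cons x (cons y v))

end Pool.Agent.H40.Bspt
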