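import Pool.Agent.H40.CKDefs

set_option autoImplicit false

namespace Pool.Agent.H40.CK

def Fm.neg (a : Fm) : Fm := .imp a .bot
def top : Fm := .imp .bot .bot

inductive D (Ax : Set Fm) (Γ : List Fm) : Fm → Prop
  | thm {a : Fm} : Thm Ax a → D Ax Γ a
  | hyp {a : Fm} : a ∈ Γ → D Ax Γ a
  | mp {a b : Fm} : D Ax Γ (.imp a b) → D Ax Γ a → D Ax Γ b

variable {Ax : Set Fm}

theorem Thm.id (a : Fm) : Thm Ax (.imp a a) :=
  .mp (.mp (.s a (.imp a a) a) (.k _ _)) (.k a a)

theorem D.ded {Γ : List Fm} {a b : Fm} (h : D Ax (a :: Γ) b) : D Ax Γ (.imp a b) := by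
  induction h with
  | thm h => exact .mp (.thm (.k _ _)) (.thm h)
  | hyp h =>
    rcases List.mem_cons.mp h with rfl | h
    · exact .thm (.id _)
    · exact .mp (.thm (.k _ _)) (.hyp h)
  | mp _ _ ih1 ih2 => exact .mp (.mp (.thm (.s _ _ _)) ih1) ih2

theorem D.close {a : Fm} (h : D Ax [] a) : Thm Ax a := by
  induction h with
  | thm h => exact h
  | hyp h => cases h
  | mp _ _ ih1 ih2 => exact .mp ih1 ih2

theorem D.h0 {Γ : List Fm} {a : Fm} : D Ax (a :: Γ) a := .hyp (by simp)
theorem D.h1 {Γ : List Fm} {a b : Fm} : D Ax (b :: a :: Γ) a := .hyp (by simp)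
theorem D.h2 {Γ : List Fm} {a b c : Fm} : D Ax (c :: b :: a :: Γ) a := .hyp (by simp)

def sb (a b : Fm) : ℕ → Fm := fun n => if n = 0 then a else b

theorem kDia_inst (h : kDia ∈ Ax) (a b : Fm) :
    Thm Ax (.imp (.box (.imp a b)) (.imp (.dia a) (.dia b))) := .subst (sb a b) (.ax h)

theorem cDia_inst (h : cDia ∈ Ax) (a b : Fm) :
    Thm Ax (.imp (.dia (.or a b)) (.or (.dia a) (.dia b))) := .subst (sb a b) (.ax h)

theorem wCD_inst (h : wCD ∈ Ax) (a b : Fm) :
    Thm Ax (.imp (.box (.or a b)) (.imp (.imp (.dia a) (.box b)) (.box b))) :=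
  .subst (sb a b) (.ax h)

theorem dia_nbn (h : kDia ∈ Ax) (hn : nDia ∈ Ax) (a : Fm) :
    Thm Ax (.imp (.dia a) (a.neg.box.neg)) :=
  D.close (.ded (.ded (.mp (.thm (.ax hn)) (.mp (.mp (.thm (kDia_inst h a .bot)) .h0) .h1))))

theorem box_mono {a b : Fm} (h : Thm Ax (.imp a b)) : Thm Ax (.imp a.box b.box) :=
  .mp (.kbox a b) (.nec h)

def AA : Fm := .imp (.box (.or (.var 0) (.var 1)))
  (.or (Fm.var 0).neg.box.neg (Fm.var 1).neg.box.neg)

def xi : Fm := .imp (.imp AA (.box (.var 2))) (.box (.var 2))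

theorem xi_free : xi.DiaFree := by simp [xi, AA, Fm.neg, Fm.DiaFree]

theorem xi_L2 : Thm ax2 xi := by
  have hk : kDia ∈ ax2 := by simp [ax2]
  have hn : nDia ∈ ax2 := by simp [ax2]
  have hw : wCD ∈ ax2 := by simp [ax2]
  have hc : cDia ∈ ax2 := by simp [ax2]
  have h1 : Thm ax2 (.imp (.dia top) AA) := by
    refine D.close (.ded (.ded ?_))
    refine .mp (.mp (.mp (.thm (.orE (.dia (.var 0)) (.dia (.var 1)) _)) ?_) ?_) ?_
    · exact .ded (.mp (.thm (.orL _ _)) (.mp (.thm (dia_nbn hk hn _)) .h0))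
    · exact .ded (.mp (.thm (.orR _ _)) (.mp (.thm (dia_nbn hk hn _)) .h0))
    · refine .mp (.thm (cDia_inst hc _ _)) (.mp (.mp (.thm (kDia_inst hk top _)) ?_) .h1)
      exact .mp (.thm (box_mono (.k _ _))) .h0
  refine D.close (.ded ?_)
  refine .mp (.mp (.thm (wCD_inst hw top (.var 2))) ?_) ?_
  · exact .thm (.nec (.mp (.orL _ _) (.id _)))
  · exact .ded (.mp .h1 (.mp (.thm h1) .h0))

/-! The countermodel -/

def le7 (a b : Fin 7) : Bool :=
  ![![true, true, true, true, false, false, false],
    ![false, true, true, true, false, false, false],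
    ![false, false, true, false, false, false, false],
    ![false, false, false, true, false, false, false],
    ![false, false, false, false, true, true, true],
    ![false, false, false, false, false, true, false],
    ![false, false, false, false, false, false, true]] a b

def r7 (a b : Fin 7) : Bool :=
  ![![false, false, false, false, true, true, true],
    ![false, false, false, false, false, true, true],
    ![false, false, false, false, false, false, true],
    ![false, false, false, false, false, true, false],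
    ![false, false, false, false, false, false, false],
    ![false, false, false, false, false, false, false],
    ![false, false, false, false, false, false, false]] a b

theorem le7_refl : ∀ a, le7 a a = true := by decide
theorem le7_trans : ∀ a b c, le7 a b = true → le7 b c = true → le7 a c = true := by decide

def F (V : ℕ → Fin 7 → Prop) : Fm → Fin 7 → Prop
  | .var n, x => V n x
  | .bot, _ => False
  | .and a b, x => F V a x ∧ F V b x
  | .or a b, x => F V a x ∨ F V b x
  | .imp a b, x => ∀ y, le7 x y = true → F V a y → F V b y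
  | .box a, x => ∀ y, le7 x y = true → ∀ z, r7 y z = true → F V a z
  | .dia a, x => ∀ y, le7 x y = true →
      (∀ y', le7 y y' = true → ∀ z, r7 y' z = true → ∀ z', le7 z z' = true → F V a z' → False) →
        False

def Up (V : ℕ → Fin 7 → Prop) : Prop := ∀ n x y, le7 x y = true → V n x → V n y

theorem F_mono {V : ℕ → Fin 7 → Prop} (hV : Up V) (a : Fm) :
    ∀ x y, le7 x y = true → F V a x → F V a y := by
  induction a with
  | var n => exact hV n
  | bot => exact fun _ _ _ h => h
  | and a b iha ihb => exact fun x y h h1 => ⟨iha x y h h1.1, ihb x y h h1.2⟩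
  | or a b iha ihb => exact fun x y h h1 => h1.imp (iha x y h) (ihb x y h)
  | imp a b _ _ => exact fun x y h h1 z hz => h1 z (le7_trans _ _ _ h hz)
  | box a _ => exact fun x y h h1 z hz => h1 z (le7_trans _ _ _ h hz)
  | dia a _ => exact fun x y h h1 z hz => h1 z (le7_trans _ _ _ h hz)

theorem F_subst (V : ℕ → Fin 7 → Prop) (σ : ℕ → Fm) (a : Fm) :
    ∀ x, F V (a.subst σ) x ↔ F (fun n => F V (σ n)) a x := by
  induction a with
  | var n => exact fun _ => Iff.rfl
  | bot => exact fun _ => Iff.rfl
  | and a b iha ihb => intro x; simp only [Fm.subst, F, iha, ihb]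
  | or a b iha ihb => intro x; simp only [Fm.subst, F, iha, ihb]
  | imp a b iha ihb => intro x; simp only [Fm.subst, F, iha, ihb]
  | box a iha => intro x; simp only [Fm.subst, F, iha]
  | dia a iha => intro x; simp only [Fm.subst, F, iha]

theorem wCD_valid (V : ℕ → Fin 7 → Prop) (hV : Up V) (x : Fin 7) : F V wCD x := by
  intro y _ h1 z hyz h2
  have h1 := F_mono hV _ _ _ hyz h1
  clear hyz
  -- a maximal world with a single successor
  have one : ∀ w v : Fin 7, le7 z w = true → r7 w v = true → (∀ w', le7 w w' = true → w' = w) →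
      V 1 v := by
    intro w v hw hv hmax
    rcases h1 w hw v hv with hp | hq
    · refine h2 w hw (fun w' hw' hn => ?_) w (le7_refl _) v hv
      obtain rfl := hmax w' hw'
      exact hn w' (le7_refl _) v hv v (le7_refl _) hp
    · exact hq
  intro w hw v hv
  have c : (w = 0 ∧ v = 4) ∨ (v = 6 ∧ le7 w 2 = true) ∨ (v = 5 ∧ le7 w 3 = true) :=
    (by decide : ∀ w v : Fin 7, r7 w v = true →
      (w = 0 ∧ v = 4) ∨ (v = 6 ∧ le7 w 2 = true) ∨ (v = 5 ∧ le7 w 3 = true)) w v hv
  rcases c with ⟨rfl, rfl⟩ | ⟨rfl, h⟩ | ⟨rfl, h⟩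
  · rcases h1 0 hw 4 hv with hp | hq
    · refine h2 0 hw (fun w' hw' hn => ?_) 0 (le7_refl _) 4 hv
      have : ∃ v, r7 w' v = true ∧ le7 4 v = true :=
        (by decide : ∀ w' : Fin 7, le7 0 w' = true → ∃ v, r7 w' v = true ∧ le7 4 v = true) w' hw'
      obtain ⟨v, a1, a2⟩ := this
      exact hn w' (le7_refl _) v a1 v (le7_refl _) (hV 0 _ _ a2 hp)
    · exact hq
  · exact one 2 6 (le7_trans _ _ _ hw h) rfl (by decide)
  · exact one 3 5 (le7_trans _ _ _ hw h) rfl (by decide)

theorem sound1 {a : Fm} (h : Thm ax1 a) : ∀ V, Up V → ∀ x, F V a x := by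
  induction h with
  | k a b => exact fun V hV x y _ h z hz _ => F_mono hV _ _ _ hz h
  | s a b c =>
    exact fun V hV x y _ h z hz h' w hw ha =>
      h w (le7_trans _ _ _ hz hw) ha w (le7_refl _) (h' w hw ha)
  | andI a b => exact fun V hV x y _ h z hz h' => ⟨F_mono hV _ _ _ hz h, h'⟩
  | andL a b => exact fun V hV x y _ h => h.1
  | andR a b => exact fun V hV x y _ h => h.2
  | orL a b => exact fun V hV x y _ h => Or.inl h
  | orR a b => exact fun V hV x y _ h => Or.inr h
  | orE a b c =>
    exact fun V hV x y _ h z hz h' w hw ha =>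
      ha.elim (h w (le7_trans _ _ _ hz hw)) (h' w hw)
  | efq a => exact fun V hV x y _ h => h.elim
  | kbox a b =>
    exact fun V hV x y _ h z hz h' w hw v hv =>
      h w (le7_trans _ _ _ hz hw) v hv v (le7_refl _) (h' w hw v hv)
  | ax h =>
    intro V hV x
    rcases h with rfl | rfl | rfl
    · exact fun y _ h z hz h' w hw hn => h' w hw (fun w' hw' v hv v' hv' hp =>
        hn w' hw' v hv v' hv' (h w' (le7_trans _ _ _ hz (le7_trans _ _ _ hw hw')) v hv v' hv' hp))
    · exact fun y _ h => h y (le7_refl _) (fun _ _ _ _ _ _ h => h)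
    · exact wCD_valid V hV x
  | mp _ _ ih1 ih2 => exact fun V hV x => ih1 V hV x x (le7_refl _) (ih2 V hV x)
  | nec _ ih => exact fun V hV x y _ z _ => ih V hV z
  | subst σ _ ih =>
    intro V hV x
    rw [F_subst]
    exact ih _ (fun n => F_mono hV (σ n)) x

def V0 : ℕ → Fin 7 → Prop := fun n x => if n = 0 then x = 5 else if n = 1 then x = 6 else
  (x = 5 ∨ x = 6)

theorem xi_not_L1 : ¬ Thm ax1 xi := by
  intro h
  have hV : Up V0 := by
    intro n x y
    unfold V0
    split_ifs <;> revert x y <;> decide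
  have := sound1 h V0 hV 0
  simp [xi, AA, Fm.neg, F, Fin.forall_fin_succ, le7, r7, V0] at this

/-! The box fragment of `L₁` -/

def chi : Fm := .imp (.box (.or (.var 0) (.var 1)))
  (.imp (.imp (Fm.var 0).neg.box.neg (.box (.var 1))) (.box (.var 1)))

theorem chi_free : chi.DiaFree := by simp [chi, Fm.neg, Fm.DiaFree]

def tr : Fm → Fm
  | .var n => .var n
  | .bot => .bot
  | .and a b => .and (tr a) (tr b)
  | .or a b => .or (tr a) (tr b)
  | .imp a b => .imp (tr a) (tr b)
  | .box a => .box (tr a)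
  | .dia a => (tr a).neg.box.neg

theorem tr_free {a : Fm} (h : a.DiaFree) : tr a = a := by
  induction a with
  | var n => rfl
  | bot => rfl
  | and a b iha ihb => simp only [tr, iha h.1, ihb h.2]
  | or a b iha ihb => simp only [tr, iha h.1, ihb h.2]
  | imp a b iha ihb => simp only [tr, iha h.1, ihb h.2]
  | box a iha => simp only [tr, iha h]
  | dia a iha => exact h.elim

theorem tr_subst (σ : ℕ → Fm) (a : Fm) : tr (a.subst σ) = (tr a).subst (fun n => tr (σ n)) := by
  induction a with
  | var n => rfl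
  | bot => rfl
  | and a b iha ihb => simp only [tr, Fm.subst, iha, ihb]
  | or a b iha ihb => simp only [tr, Fm.subst, iha, ihb]
  | imp a b iha ihb => simp only [tr, Fm.subst, iha, ihb]
  | box a iha => simp only [tr, Fm.subst, iha]
  | dia a iha => simp only [tr, Fm.subst, Fm.neg, iha]

theorem tr_thm {a : Fm} (h : Thm ax1 a) : Thm {chi} (tr a) := by
  induction h with
  | k a b => exact .k _ _
  | s a b c => exact .s _ _ _
  | andI a b => exact .andI _ _
  | andL a b => exact .andL _ _
  | andR a b => exact .andR _ _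
  | orL a b => exact .orL _ _
  | orR a b => exact .orR _ _
  | orE a b c => exact .orE _ _ _
  | efq a => exact .efq _
  | kbox a b => exact .kbox _ _
  | ax h =>
    rcases h with rfl | rfl | rfl
    · refine D.close (.ded (.ded (.ded (.mp .h1 ?_))))
      refine .mp (.mp (.thm (.kbox (Fm.var 1).neg _)) ?_) .h0
      refine .mp (.thm (box_mono (a := .imp (.var 0) (.var 1)) ?_)) .h2
      exact D.close (.ded (.ded (.ded (.mp .h1 (.mp .h2 .h0)))))
    · exact D.close (.ded (.mp .h0 (.thm (.nec (.id _)))))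
    · exact .ax rfl
  | mp _ _ ih1 ih2 => exact .mp ih1 ih2
  | nec _ ih => exact .nec ih
  | subst σ _ ih => rw [tr_subst]; exact .subst _ ih

theorem chi_L1 : Thm ax1 chi := by
  have hk : kDia ∈ ax1 := by simp [ax1]
  have hn : nDia ∈ ax1 := by simp [ax1]
  have hw : wCD ∈ ax1 := by simp [ax1]
  refine D.close (.ded (.ded (.mp (.mp (.thm (.ax hw)) .h1) ?_)))
  exact .ded (.mp .h1 (.mp (.thm (dia_nbn hk hn _)) .h0))

theorem chi_thm {a : Fm} (h : Thm {chi} a) : Thm ax1 a := by
  induction h with
  | k a b => exact .k _ _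
  | s a b c => exact .s _ _ _
  | andI a b => exact .andI _ _
  | andL a b => exact .andL _ _
  | andR a b => exact .andR _ _
  | orL a b => exact .orL _ _
  | orR a b => exact .orR _ _
  | orE a b c => exact .orE _ _ _
  | efq a => exact .efq _
  | kbox a b => exact .kbox _ _
  | ax h => rw [h]; exact chi_L1
  | mp _ _ ih1 ih2 => exact .mp ih1 ih2
  | nec _ ih => exact .nec ih
  | subst σ _ ih => exact .subst _ ih

theorem frag1 (a : Fm) (ha : a.DiaFree) : Thm ax1 a ↔ Thm {chi} a :=
  ⟨fun h => tr_free ha ▸ tr_thm h, chi_thm⟩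

end Pool.Agent.H40.CK
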