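import Pool.Agent.H40.CK

set_option autoImplicit false

namespace Pool.Agent.H40.CK

inductive Wd (n : ℕ) : Type
  | w : Wd n
  | w2 : Wd n
  | u (i : Fin n) : Wd n
  | v : Wd n
  | t (i : Fin n) : Wd n

variable {n : ℕ}

def Wd.le : Wd n → Wd n → Prop
  | .w, .w => True
  | .w, .w2 => True
  | .w, .u _ => True
  | .w2, .w2 => True
  | .w2, .u _ => True
  | .u i, .u j => i = j
  | .v, .v => True
  | .v, .t _ => True
  | .t i, .t j => i = j
  | _, _ => False

def Wd.R : Wd n → Wd n → Prop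
  | .w, .v => True
  | .w, .t _ => True
  | .w2, .t _ => True
  | .u i, .t j => j ≠ i
  | _, _ => False

theorem Wd.le_refl (a : Wd n) : a.le a := by cases a <;> simp [Wd.le]

theorem Wd.le_trans {a b c : Wd n} (h1 : a.le b) (h2 : b.le c) : a.le c := by
  cases a <;> cases b <;> cases c <;> simp_all [Wd.le]

def G (dm : (Wd n → Prop) → Wd n → Prop) (V : ℕ → Wd n → Prop) : Fm → Wd n → Prop
  | .var k, x => V k x
  | .bot, _ => False
  | .and a b, x => G dm V a x ∧ G dm V b x
  | .or a b, x => G dm V a x ∨ G dm V b x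
  | .imp a b, x => ∀ y, x.le y → G dm V a y → G dm V b y
  | .box a, x => ∀ y, x.le y → ∀ z, y.R z → G dm V a z
  | .dia a, x => dm (G dm V a) x

def UpP (P : Wd n → Prop) : Prop := ∀ x y, x.le y → P x → P y

theorem G_subst (dm : (Wd n → Prop) → Wd n → Prop) (V : ℕ → Wd n → Prop) (σ : ℕ → Fm) (a : Fm) :
    G dm V (a.subst σ) = G dm (fun k => G dm V (σ k)) a := by
  induction a with
  | var n => rfl
  | bot => rfl
  | and a b iha ihb => funext x; simp only [Fm.subst, G, iha, ihb]
  | or a b iha ihb => funext x; simp only [Fm.subst, G, iha, ihb]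
  | imp a b iha ihb => funext x; simp only [Fm.subst, G, iha, ihb]
  | box a iha => funext x; simp only [Fm.subst, G, iha]
  | dia a iha => funext x; simp only [Fm.subst, G, iha]

theorem sound (dm : (Wd n → Prop) → Wd n → Prop) (Adm : (Wd n → Prop) → Prop)
    (hup : ∀ P, Adm P → UpP P) (hadm : ∀ V, (∀ k, Adm (V k)) → ∀ a, Adm (G dm V a))
    {Ax : Set Fm} (hAx : ∀ a ∈ Ax, ∀ V, (∀ k, Adm (V k)) → ∀ x, G dm V a x)
    {a : Fm} (h : Thm Ax a) : ∀ V, (∀ k, Adm (V k)) → ∀ x, G dm V a x := by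
  induction h with
  | k a b => exact fun V hV x y _ h z hz _ => hup _ (hadm V hV _) _ _ hz h
  | s a b c =>
    exact fun V hV x y _ h z hz h' w hw ha =>
      h w (Wd.le_trans hz hw) ha w (Wd.le_refl _) (h' w hw ha)
  | andI a b => exact fun V hV x y _ h z hz h' => ⟨hup _ (hadm V hV _) _ _ hz h, h'⟩
  | andL a b => exact fun V hV x y _ h => h.1
  | andR a b => exact fun V hV x y _ h => h.2
  | orL a b => exact fun V hV x y _ h => Or.inl h
  | orR a b => exact fun V hV x y _ h => Or.inr h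
  | orE a b c =>
    exact fun V hV x y _ h z hz h' w hw ha => ha.elim (h w (Wd.le_trans hz hw)) (h' w hw)
  | efq a => exact fun V hV x y _ h => h.elim
  | kbox a b =>
    exact fun V hV x y _ h z hz h' w hw v hv =>
      h w (Wd.le_trans hz hw) v hv v (Wd.le_refl _) (h' w hw v hv)
  | ax h => exact hAx _ h
  | mp _ _ ih1 ih2 => exact fun V hV x => ih1 V hV x x (Wd.le_refl _) (ih2 V hV x)
  | nec _ ih => exact fun V hV x y _ z _ => ih V hV z
  | subst σ _ ih =>
    intro V hV x
    rw [G_subst]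
    exact ih _ (fun k => hadm V hV (σ k)) x

theorem up_full (V : ℕ → Wd n → Prop) (hV : ∀ k, UpP (V k)) (a : Fm) :
    UpP (G (fun _ _ => False) V a) := by
  induction a with
  | var n => exact hV n
  | bot => exact fun _ _ _ h => h
  | and a b iha ihb => exact fun x y h h1 => ⟨iha x y h h1.1, ihb x y h h1.2⟩
  | or a b iha ihb => exact fun x y h h1 => h1.imp (iha x y h) (ihb x y h)
  | imp a b _ _ => exact fun x y h h1 z hz => h1 z (Wd.le_trans h hz)
  | box a _ => exact fun x y h h1 z hz => h1 z (Wd.le_trans h hz)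
  | dia a _ => exact fun x y h h1 => h1

def dm0 (i0 : Fin n) (P : Wd n → Prop) : Wd n → Prop
  | .w => P (.t i0)
  | .w2 => P (.t i0)
  | .u i => ∃ j, j ≠ i ∧ P (.t j)
  | .v => False
  | .t _ => False

def Adm0 (i0 j0 : Fin n) (P : Wd n → Prop) : Prop := UpP P ∧ (P (.t i0) ↔ P (.t j0))

theorem t_le {i : Fin n} {y : Wd n} (h : (Wd.t i).le y) : y = .t i := by
  cases y <;> simp_all [Wd.le]

theorem u_le {i : Fin n} {y : Wd n} (h : (Wd.u i).le y) : y = .u i := by
  cases y <;> simp_all [Wd.le]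

theorem adm0 {i0 j0 : Fin n} (hij : i0 ≠ j0) (V : ℕ → Wd n → Prop)
    (hV : ∀ k, Adm0 i0 j0 (V k)) (a : Fm) : Adm0 i0 j0 (G (dm0 i0) V a) := by
  induction a with
  | var n => exact hV n
  | bot => exact ⟨fun _ _ _ h => h, Iff.rfl⟩
  | and a b iha ihb =>
    exact ⟨fun x y h h1 => ⟨iha.1 x y h h1.1, ihb.1 x y h h1.2⟩, and_congr iha.2 ihb.2⟩
  | or a b iha ihb =>
    exact ⟨fun x y h h1 => h1.imp (iha.1 x y h) (ihb.1 x y h), or_congr iha.2 ihb.2⟩
  | imp a b iha ihb =>
    refine ⟨fun x y h h1 z hz => h1 z (Wd.le_trans h hz), ?_, ?_⟩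
    · intro h y hy ha
      obtain rfl := t_le hy
      exact ihb.2.mp (h _ (Wd.le_refl _) (iha.2.mpr ha))
    · intro h y hy ha
      obtain rfl := t_le hy
      exact ihb.2.mpr (h _ (Wd.le_refl _) (iha.2.mp ha))
  | box a _ =>
    refine ⟨fun x y h h1 z hz => h1 z (Wd.le_trans h hz), ?_, ?_⟩
    · intro _ y hy z hz
      obtain rfl := t_le hy
      cases z <;> exact hz.elim
    · intro _ y hy z hz
      obtain rfl := t_le hy
      cases z <;> exact hz.elim
  | dia a iha =>
    refine ⟨fun x y h h1 => ?_, Iff.rfl⟩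
    have key : ∀ i : Fin n, G (dm0 i0) V a (.t i0) → ∃ j, j ≠ i ∧ G (dm0 i0) V a (.t j) := by
      intro i h
      by_cases e : i0 = i
      · exact ⟨j0, fun e' => hij (e.trans e'.symm), iha.2.mp h⟩
      · exact ⟨i0, e, h⟩
    cases x <;> cases y <;> first
      | exact h1
      | exact h.elim
      | exact key _ h1
      | (obtain rfl : _ = _ := h; exact h1)

theorem ax2_valid {i0 j0 : Fin n} (hij : i0 ≠ j0) : ∀ a ∈ ax2, ∀ V, (∀ k, Adm0 i0 j0 (V k)) →
    ∀ x, G (dm0 i0) V a x := by
  intro a ha V hV x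
  rcases ha with rfl | rfl | rfl | rfl
  · intro y _ h z hz h'
    cases z with
    | w => exact h _ hz (.t i0) trivial _ (Wd.le_refl _) h'
    | w2 => exact h _ hz (.t i0) trivial _ (Wd.le_refl _) h'
    | u i =>
      obtain ⟨j, hj, h'⟩ := h'
      exact ⟨j, hj, h _ hz (.t j) hj _ (Wd.le_refl _) h'⟩
    | v => exact h'
    | t i => exact h'
  · intro y _ h
    cases y with
    | u i => exact h.elim (fun _ h => h.2)
    | _ => exact h
  · intro y _ h1 z hyz h2
    have h1 : G (dm0 i0) V (.box (.or (.var 0) (.var 1))) z :=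
      fun w hw => h1 w (Wd.le_trans hyz hw)
    have one : ∀ i j : Fin n, z.le (.u i) → j ≠ i → V 1 (.t j) := by
      intro i j hi hj
      rcases h1 _ hi (.t j) hj with hp | hq
      · exact h2 _ hi ⟨j, hj, hp⟩ _ (Wd.le_refl _) (.t j) hj
      · exact hq
    have two : ∀ j : Fin n, z.le .w2 → V 1 (.t j) := by
      intro j hz
      by_cases e : j = i0
      · exact one j0 j (Wd.le_trans hz trivial) (e ▸ hij)
      · exact one i0 j (Wd.le_trans hz trivial) e
    intro w hw s hs
    cases w <;> cases s <;> try exact hs.elim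
    · rcases h1 _ hw .v hs with hp | hq
      · exact h2 _ hw ((hV 0).1 .v (.t i0) trivial hp) _ (Wd.le_refl _) .v hs
      · exact hq
    · exact two _ (Wd.le_trans hw trivial)
    · exact two _ hw
    · exact one _ _ hw hs
  · intro y _ h
    cases y with
    | w => exact h
    | w2 => exact h
    | u i =>
      obtain ⟨j, hj, h | h⟩ := h
      · exact Or.inl ⟨j, hj, h⟩
      · exact Or.inr ⟨j, hj, h⟩
    | v => exact h.elim
    | t i => exact h.elim

def Fm.vars : Fm → Finset ℕ
  | .var k => {k}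
  | .bot => ∅
  | .and a b => a.vars ∪ b.vars
  | .or a b => a.vars ∪ b.vars
  | .imp a b => a.vars ∪ b.vars
  | .box a => a.vars
  | .dia a => a.vars

theorem G_congr (dm dm' : (Wd n → Prop) → Wd n → Prop) (V V' : ℕ → Wd n → Prop) {a : Fm}
    (ha : a.DiaFree) (h : ∀ k ∈ a.vars, V k = V' k) : G dm V a = G dm' V' a := by
  induction a with
  | var k => exact h k (by simp [Fm.vars])
  | bot => rfl
  | and a b iha ihb =>
    funext x
    simp only [G, iha ha.1 (fun k hk => h k (by simp [Fm.vars, hk])),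
      ihb ha.2 (fun k hk => h k (by simp [Fm.vars, hk]))]
  | or a b iha ihb =>
    funext x
    simp only [G, iha ha.1 (fun k hk => h k (by simp [Fm.vars, hk])),
      ihb ha.2 (fun k hk => h k (by simp [Fm.vars, hk]))]
  | imp a b iha ihb =>
    funext x
    simp only [G, iha ha.1 (fun k hk => h k (by simp [Fm.vars, hk])),
      ihb ha.2 (fun k hk => h k (by simp [Fm.vars, hk]))]
  | box a iha => funext x; simp only [G, iha ha h]
  | dia a iha => exact ha.elim

theorem small_valid {c : Fm} (hc : c.DiaFree) (h : Thm ax2 c) (hn : 2 ^ c.vars.card < n)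
    (V : ℕ → Wd n → Prop) (hV : ∀ k, UpP (V k)) (x : Wd n) : G (fun _ _ => False) V c x := by
  classical
  obtain ⟨i0, j0, hij, e⟩ := Fintype.exists_ne_map_eq_of_card_lt
    (fun (i : Fin n) (s : c.vars) => V s (.t i)) (by simpa using hn)
  let V' : ℕ → Wd n → Prop := fun k => if k ∈ c.vars then V k else fun _ => False
  have hV' : ∀ k, Adm0 i0 j0 (V' k) := by
    intro k
    by_cases hk : k ∈ c.vars
    · simp only [V', if_pos hk]
      exact ⟨hV k, iff_of_eq (congrFun e ⟨k, hk⟩)⟩
    · simp only [V', if_neg hk]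
      exact ⟨fun _ _ _ h => h, Iff.rfl⟩
  rw [G_congr _ (dm0 i0) V V' hc (fun k hk => by simp only [V', if_pos hk])]
  exact sound (dm0 i0) (Adm0 i0 j0) (fun _ h => h.1) (adm0 hij) (ax2_valid hij) h V' hV' x

def orL : List Fm → Fm
  | [] => .bot
  | a :: l => .or a (orL l)

theorem G_orL (dm : (Wd n → Prop) → Wd n → Prop) (V : ℕ → Wd n → Prop) (l : List Fm) (x : Wd n) :
    G dm V (orL l) x ↔ ∃ a ∈ l, G dm V a x := by
  induction l with
  | nil => simp [orL, G]
  | cons a l ih => simp [orL, G, ih]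

theorem orL_free (l : List Fm) (h : ∀ a ∈ l, a.DiaFree) : (orL l).DiaFree := by
  induction l with
  | nil => trivial
  | cons a l ih => exact ⟨h a (by simp), ih (fun b hb => h b (by simp [hb]))⟩

theorem dia_orL (l : List Fm) :
    Thm ax2 (.imp (.dia (orL l)) (orL (l.map (fun a => a.neg.box.neg)))) := by
  have hk : kDia ∈ ax2 := by simp [ax2]
  have hn : nDia ∈ ax2 := by simp [ax2]
  have hc : cDia ∈ ax2 := by simp [ax2]
  induction l with
  | nil => exact .ax hn
  | cons a l ih =>
    refine D.close (.ded ?_)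
    refine .mp (.mp (.mp (.thm (.orE (.dia a) (.dia (orL l)) _)) ?_) ?_)
      (.mp (.thm (cDia_inst hc _ _)) .h0)
    · exact .ded (.mp (.thm (.orL _ _)) (.mp (.thm (dia_nbn hk hn _)) .h0))
    · exact .ded (.mp (.thm (.orR _ _)) (.mp (.thm ih) .h0))

def xs (n : ℕ) : List Fm := (List.range n).map (fun i => .var (i + 1))

def xiN (n : ℕ) : Fm :=
  .imp (.imp (.imp (.box (orL (xs n))) (orL ((xs n).map (fun a => a.neg.box.neg))))
    (.box (.var 0))) (.box (.var 0))

theorem xiN_free (n : ℕ) : (xiN n).DiaFree := by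
  refine ⟨⟨⟨orL_free _ ?_, orL_free _ ?_⟩, trivial⟩, trivial⟩
  · simp only [xs, List.mem_map]
    rintro _ ⟨i, -, rfl⟩
    trivial
  · simp only [xs, List.mem_map]
    rintro _ ⟨_, ⟨i, -, rfl⟩, rfl⟩
    exact ⟨⟨trivial, trivial⟩, trivial⟩

theorem xiN_L2 (n : ℕ) : Thm ax2 (xiN n) := by
  have hk : kDia ∈ ax2 := by simp [ax2]
  have hw : wCD ∈ ax2 := by simp [ax2]
  refine D.close (.ded ?_)
  refine .mp (.mp (.thm (wCD_inst hw top (.var 0))) ?_) ?_
  · exact .thm (.nec (.mp (.orL _ _) (.id _)))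
  · refine .ded (.mp .h1 (.ded (.mp (.thm (dia_orL _)) ?_)))
    exact .mp (.mp (.thm (kDia_inst hk top _)) (.mp (.thm (box_mono (.k _ _))) .h0)) .h1

def VN (n : ℕ) : ℕ → Wd n → Prop := fun k x =>
  match x with
  | .t i => k = 0 ∨ k = i.val + 1
  | _ => False

theorem VN_up (k : ℕ) : UpP (VN n k) := by
  intro x y h hx
  cases x with
  | t i => rw [t_le h]; exact hx
  | _ => exact hx.elim

theorem xiN_fails : ¬ G (fun _ _ => False) (VN n) (xiN n) .w := by
  intro h
  refine h .w trivial ?_ .w trivial .v trivial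
  intro y hy hA z hz s hs
  by_cases e : y = .w
  · exfalso
    subst e
    have := hA .w2 trivial (by
      intro y' hy' s hs
      cases s with
      | t i =>
        rw [G_orL]
        exact ⟨.var (i.val + 1), by simp [xs], Or.inr rfl⟩
      | v => cases y' <;> first | exact hs.elim | exact hy'.elim
      | _ => cases y' <;> exact hs.elim)
    rw [G_orL] at this
    simp only [xs, List.mem_map, List.mem_range] at this
    obtain ⟨_, ⟨_, ⟨i, hi, rfl⟩, rfl⟩, h⟩ := this
    refine h (.u ⟨i, hi⟩) trivial ?_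
    intro y' hy' s hs s' hs' hp
    obtain rfl := u_le hy'
    cases s with
    | t j =>
      obtain rfl := t_le hs'
      rcases hp with hp | hp
      · omega
      · exact hs (Fin.ext (by simpa using hp.symm))
    | _ => exact hs.elim
  · cases s with
    | t i => exact Or.inl rfl
    | v =>
      exfalso
      cases z <;> try exact hs.elim
      cases y <;> first | exact e rfl | exact hz.elim
    | _ => cases z <;> exact hs.elim

theorem not_finAx2 : ¬ BoxFragmentFinAx ax2 := by
  rintro ⟨X, hX, hfree, h⟩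
  obtain ⟨N, hN⟩ := (hX.image (fun c => 2 ^ c.vars.card)).bddAbove
  refine xiN_fails (n := N + 1) ?_
  refine sound (fun _ _ => False) UpP (fun _ h => h) up_full (Ax := X) ?_
    ((h _ (xiN_free _)).mp (xiN_L2 _)) _ VN_up _
  intro c hc V hV x
  exact small_valid (hfree c hc) ((h c (hfree c hc)).mpr (.ax hc))
    (Nat.lt_succ_of_le (hN ⟨c, hc, rfl⟩)) V hV x

theorem finAx1 : BoxFragmentFinAx ax1 :=
  ⟨{chi}, Set.finite_singleton _, fun c hc => by rw [hc]; exact chi_free, frag1⟩

end Pool.Agent.H40.CK
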