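import Mathlib

set_option autoImplicit false

namespace Pool.Agent.H40.CK

/-- Formulas of intuitionistic modal logic with `□` and `◇`. -/
inductive Fm : Type
  | var (n : ℕ) : Fm
  | bot : Fm
  | and (a b : Fm) : Fm
  | or (a b : Fm) : Fm
  | imp (a b : Fm) : Fm
  | box (a : Fm) : Fm
  | dia (a : Fm) : Fm

/-- The formula contains no `◇`. -/
def Fm.DiaFree : Fm → Prop
  | .var _ => True
  | .bot => True
  | .and a b => a.DiaFree ∧ b.DiaFree
  | .or a b => a.DiaFree ∧ b.DiaFree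
  | .imp a b => a.DiaFree ∧ b.DiaFree
  | .box a => a.DiaFree
  | .dia _ => False

/-- Uniform substitution. -/
def Fm.subst (σ : ℕ → Fm) : Fm → Fm
  | .var n => σ n
  | .bot => .bot
  | .and a b => .and (a.subst σ) (b.subst σ)
  | .or a b => .or (a.subst σ) (b.subst σ)
  | .imp a b => .imp (a.subst σ) (b.subst σ)
  | .box a => .box (a.subst σ)
  | .dia a => .dia (a.subst σ)

/-- Theorems of `CK_□ ⊕ Ax`: a Hilbert calculus for intuitionistic logic, the axiom `K_□`, the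
formulas in `Ax`, modus ponens, necessitation and uniform substitution. -/
inductive Thm (Ax : Set Fm) : Fm → Prop
  | k (a b : Fm) : Thm Ax (.imp a (.imp b a))
  | s (a b c : Fm) : Thm Ax (.imp (.imp a (.imp b c)) (.imp (.imp a b) (.imp a c)))
  | andI (a b : Fm) : Thm Ax (.imp a (.imp b (.and a b)))
  | andL (a b : Fm) : Thm Ax (.imp (.and a b) a)
  | andR (a b : Fm) : Thm Ax (.imp (.and a b) b)
  | orL (a b : Fm) : Thm Ax (.imp a (.or a b))
  | orR (a b : Fm) : Thm Ax (.imp b (.or a b))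
  | orE (a b c : Fm) : Thm Ax (.imp (.imp a c) (.imp (.imp b c) (.imp (.or a b) c)))
  | efq (a : Fm) : Thm Ax (.imp .bot a)
  | kbox (a b : Fm) : Thm Ax (.imp (.box (.imp a b)) (.imp (.box a) (.box b)))
  | ax {a : Fm} : a ∈ Ax → Thm Ax a
  | mp {a b : Fm} : Thm Ax (.imp a b) → Thm Ax a → Thm Ax b
  | nec {a : Fm} : Thm Ax a → Thm Ax (.box a)
  | subst {a : Fm} (σ : ℕ → Fm) : Thm Ax a → Thm Ax (a.subst σ)

/-- `K_◇ : □(p → q) → (◇p → ◇q)` -/
def kDia : Fm := .imp (.box (.imp (.var 0) (.var 1))) (.imp (.dia (.var 0)) (.dia (.var 1)))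

/-- `N_◇ : ◇⊥ → ⊥` -/
def nDia : Fm := .imp (.dia .bot) .bot

/-- `C_◇ : ◇(p ∨ q) → ◇p ∨ ◇q` -/
def cDia : Fm := .imp (.dia (.or (.var 0) (.var 1))) (.or (.dia (.var 0)) (.dia (.var 1)))

/-- `wCD : □(p ∨ q) → ((◇p → □q) → □q)` -/
def wCD : Fm :=
  .imp (.box (.or (.var 0) (.var 1))) (.imp (.imp (.dia (.var 0)) (.box (.var 1))) (.box (.var 1)))

/-- The axioms of `L₁ = CK ⊕ N_◇ ⊕ wCD` over `CK_□`. -/
def ax1 : Set Fm := {kDia, nDia, wCD}

/-- The axioms of `L₂ = L₁ ⊕ C_◇` over `CK_□`. -/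
def ax2 : Set Fm := {kDia, nDia, wCD, cDia}

/-- The `◇`-free fragment of `CK_□ ⊕ Ax` is finitely axiomatisable: it is the set of `◇`-free
theorems of `CK_□ ⊕ X` for some finite set `X` of `◇`-free formulas. -/
def BoxFragmentFinAx (Ax : Set Fm) : Prop :=
  ∃ X : Set Fm, X.Finite ∧ (∀ c ∈ X, c.DiaFree) ∧ ∀ φ : Fm, φ.DiaFree → (Thm Ax φ ↔ Thm X φ)

end Pool.Agent.H40.CK
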