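import Mathlib

/-! Language of contact algebras and the standard contact algebra of regular closed sets. -/

namespace Pool.Agent.H40.Con

open FirstOrder Set

/-- Function symbols: the constants `0`, `1`, complement, product and sum. -/
inductive Fn : ℕ → Type
  | zero : Fn 0
  | one : Fn 0
  | star : Fn 1
  | mul : Fn 2
  | add : Fn 2

/-- The one relation symbol: binary contact. -/
inductive Rl : ℕ → Type
  | contact : Rl 2

/-- The first-order language of contact algebras. -/
def lang : FirstOrder.Language.{0, 0} := ⟨Fn, Rl⟩

/-- Regular closed subsets of a space. -/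
def RC (X : Type) [TopologicalSpace X] : Type := {a : Set X // closure (interior a) = a}

variable {X : Type} [TopologicalSpace X]

theorem rc_open {u : Set X} (hu : IsOpen u) : closure (interior (closure u)) = closure u := by
  apply subset_antisymm
  · exact closure_minimal interior_subset isClosed_closure
  · exact closure_mono (interior_maximal subset_closure hu)

theorem rc_union (a b : RC X) : closure (interior (a.1 ∪ b.1)) = a.1 ∪ b.1 := by
  have ha : IsClosed a.1 := a.2 ▸ isClosed_closure
  have hb : IsClosed b.1 := b.2 ▸ isClosed_closure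
  apply subset_antisymm
  · exact closure_minimal interior_subset (ha.union hb)
  · apply union_subset
    · calc a.1 = closure (interior a.1) := a.2.symm
        _ ⊆ _ := closure_mono (interior_mono subset_union_left)
    · calc b.1 = closure (interior b.1) := b.2.symm
        _ ⊆ _ := closure_mono (interior_mono subset_union_right)

theorem rc_compl (a : RC X) : closure (interior (closure a.1ᶜ)) = closure a.1ᶜ :=
  rc_open (isOpen_compl_iff.2 (a.2 ▸ isClosed_closure))

/-- The standard contact algebra on `RC X`: `0 = ∅`, `1 = X`, `a* = Cl (X \ a)`,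
`a · b = Cl (Int (a ∩ b))`, `a + b = a ∪ b`, and `a C b` iff `a ∩ b` is nonempty. -/
instance rcStructure : lang.Structure (RC X) where
  funMap := fun {_} f => match f with
    | Fn.zero => fun _ => ⟨∅, by simp⟩
    | Fn.one => fun _ => ⟨univ, by simp⟩
    | Fn.star => fun x => ⟨closure (x 0).1ᶜ, rc_compl (x 0)⟩
    | Fn.mul => fun x => ⟨closure (interior ((x 0).1 ∩ (x 1).1)), rc_open isOpen_interior⟩
    | Fn.add => fun x => ⟨(x 0).1 ∪ (x 1).1, rc_union (x 0) (x 1)⟩
  RelMap := fun {_} r => match r with
    | Rl.contact => fun x => ((x 0).1 ∩ (x 1).1).Nonempty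

/-- A clan of the standard contact algebra `RC X`: a nonempty upward closed family of nonzero
regions, prime for sums, any two of whose members are in contact. -/
structure IsClan (Γ : Set (RC X)) : Prop where
  nonempty : Γ.Nonempty
  ne_zero : ∀ a ∈ Γ, a.1 ≠ ∅
  up : ∀ a ∈ Γ, ∀ b : RC X, a.1 ⊆ b.1 → b ∈ Γ
  prime : ∀ a b c : RC X, c.1 = a.1 ∪ b.1 → c ∈ Γ → a ∈ Γ ∨ b ∈ Γ
  contact : ∀ a ∈ Γ, ∀ b ∈ Γ, (a.1 ∩ b.1).Nonempty

/-- C-semiregular spaces: `T0`, the regular closed sets form a base for the closed sets, and every
clan of `RC X` is the family of all regions containing some point. -/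
structure CSemiregular (X : Type) [TopologicalSpace X] : Prop where
  t0 : T0Space X
  base : ∀ s : Set X, IsClosed s → ∀ x, x ∉ s → ∃ a : RC X, s ⊆ a.1 ∧ x ∉ a.1
  fixed : ∀ Γ : Set (RC X), IsClan Γ → ∃ x : X, Γ = {a : RC X | x ∈ a.1}

end Pool.Agent.H40.Con
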