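import Pool.Agent.H40.ConDefs

namespace Pool.Agent.H40.Con

open FirstOrder Set Topology

section Pw

variable {V : Type}

/-- Powerset contact algebra of an adjacency relation. -/
def Pw (_R : V → V → Prop) : Type := Set V

def ctc (R : V → V → Prop) (a b : Set V) : Prop := ∃ x ∈ a, ∃ y ∈ b, x = y ∨ R x y

def fm {n : ℕ} (f : Fn n) (x : Fin n → Set V) : Set V := match f, x with
  | Fn.zero, _ => ∅
  | Fn.one, _ => univ
  | Fn.star, x => (x 0)ᶜ
  | Fn.mul, x => x 0 ∩ x 1
  | Fn.add, x => x 0 ∪ x 1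

instance pwStructure (R : V → V → Prop) : lang.Structure (Pw R) where
  funMap := fun {_} f x => fm f x
  RelMap := fun {_} r => match r with
    | Rl.contact => fun x => ctc R (x 0) (x 1)

def ev {α : Type} (v : α → Set V) : lang.Term α → Set V
  | .var a => v a
  | .func f ts => fm f (fun i => ev v (ts i))

theorem realize_eq (R : V → V → Prop) {α : Type} (v : α → Pw R) (t : lang.Term α) :
    Language.Term.realize (M := Pw R) v t = ev (V := V) v t := by
  induction t with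
  | var a => rfl
  | func f ts ih =>
    show fm f (fun i => Language.Term.realize (M := Pw R) v (ts i)) = fm f (fun i => ev v (ts i))
    congr 1; funext i; exact ih i

theorem ev_pre {W : Type} (h : W → V) {α : Type} (v : α → Set V) (t : lang.Term α) :
    h ⁻¹' ev v t = ev (fun a => h ⁻¹' v a) t := by
  induction t with
  | var a => rfl
  | func f ts ih =>
    cases f <;> simp only [ev, fm, preimage_empty, preimage_univ, preimage_compl, preimage_inter,
      preimage_union, ih]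

end Pw

section FV

variable {W : Type} (E : ℕ → W → W → Prop)

def RR (N : ℕ → ℕ) (p q : ℕ × W) : Prop := p.1 = q.1 ∧ E (N p.1) p.2 q.2

def sl (i : ℕ) (s : Set (ℕ × W)) : Set W := (fun w => (i, w)) ⁻¹' s

theorem eq_iff_sl (s t : Set (ℕ × W)) : s = t ↔ ∀ i, sl i s = sl i t := by
  constructor
  · rintro rfl i; rfl
  · intro h; ext ⟨i, w⟩
    exact Set.ext_iff.1 (h i) w

theorem ctc_iff_sl (N : ℕ → ℕ) (s t : Set (ℕ × W)) :
    ctc (RR E N) s t ↔ ∃ i, ctc (E (N i)) (sl i s) (sl i t) := by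
  constructor
  · rintro ⟨⟨i, w⟩, hx, ⟨j, u⟩, hy, h⟩
    rcases h with h | ⟨h1, h2⟩
    · obtain ⟨rfl, rfl⟩ := Prod.mk.inj h
      exact ⟨i, w, hx, w, hy, Or.inl rfl⟩
    · simp only at h1 h2; subst h1
      exact ⟨i, w, hx, u, hy, Or.inr h2⟩
  · rintro ⟨i, w, hx, u, hy, h⟩
    refine ⟨(i, w), hx, (i, u), hy, ?_⟩
    rcases h with rfl | h
    · exact Or.inl rfl
    · exact Or.inr ⟨rfl, h⟩

theorem sl_ev {α : Type} {k : ℕ} (i : ℕ) (v : α → Set (ℕ × W)) (xs : Fin k → Set (ℕ × W))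
    (t : lang.Term (α ⊕ Fin k)) :
    sl i (ev (Sum.elim v xs) t) = ev (Sum.elim (fun a => sl i (v a)) (fun a => sl i (xs a))) t := by
  unfold sl
  rw [ev_pre]
  congr 1; funext a; cases a <;> rfl

theorem fv {α : Type} {k : ℕ} (φ : lang.BoundedFormula α k) :
    ∃ (T : Type) (_ : Finite T) (τ : ℕ → (α → Set W) → (Fin k → Set W) → T),
      ∀ (N N' : ℕ → ℕ) (v : α → Pw (RR E N)) (xs : Fin k → Pw (RR E N))
        (v' : α → Pw (RR E N')) (xs' : Fin k → Pw (RR E N')),
        (∀ i, τ (N i) (fun a => sl i (v a)) (fun a => sl i (xs a)) =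
          τ (N' i) (fun a => sl i (v' a)) (fun a => sl i (xs' a))) →
        (φ.Realize v xs ↔ φ.Realize v' xs') := by
  induction φ with
  | falsum => exact ⟨Unit, inferInstance, fun _ _ _ => (), fun _ _ _ _ _ _ _ => Iff.rfl⟩
  | equal t₁ t₂ =>
    refine ⟨Prop, inferInstance, fun _ v xs => ev (Sum.elim v xs) t₁ = ev (Sum.elim v xs) t₂, ?_⟩
    intro N N' v xs v' xs' h
    simp only [Language.BoundedFormula.Realize, realize_eq]
    refine (eq_iff_sl _ _).trans (Iff.trans ?_ (eq_iff_sl _ _).symm)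
    refine forall_congr' fun i => ?_
    have := h i
    simp only [eq_iff_iff] at this
    erw [sl_ev, sl_ev, sl_ev, sl_ev]
    exact this
  | rel r ts =>
    cases r
    refine ⟨Prop, inferInstance,
      fun n v xs => ctc (E n) (ev (Sum.elim v xs) (ts 0)) (ev (Sum.elim v xs) (ts 1)), ?_⟩
    intro N N' v xs v' xs' h
    show ctc (RR E N) (Language.Term.realize (M := Pw (RR E N)) (Sum.elim v xs) (ts 0))
      (Language.Term.realize (M := Pw (RR E N)) (Sum.elim v xs) (ts 1)) ↔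
      ctc (RR E N') (Language.Term.realize (M := Pw (RR E N')) (Sum.elim v' xs') (ts 0))
      (Language.Term.realize (M := Pw (RR E N')) (Sum.elim v' xs') (ts 1))
    simp only [realize_eq]
    refine (ctc_iff_sl E N _ _).trans (Iff.trans ?_ (ctc_iff_sl E N' _ _).symm)
    refine exists_congr fun i => ?_
    have := h i
    simp only [eq_iff_iff] at this
    erw [sl_ev, sl_ev, sl_ev, sl_ev]
    exact this
  | imp φ ψ ih₁ ih₂ =>
    obtain ⟨T₁, _, τ₁, h₁⟩ := ih₁
    obtain ⟨T₂, _, τ₂, h₂⟩ := ih₂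
    refine ⟨T₁ × T₂, inferInstance, fun n v xs => (τ₁ n v xs, τ₂ n v xs), ?_⟩
    intro N N' v xs v' xs' h
    simp only [Language.BoundedFormula.realize_imp]
    exact imp_congr (h₁ N N' v xs v' xs' fun i => (Prod.mk.inj (h i)).1)
      (h₂ N N' v xs v' xs' fun i => (Prod.mk.inj (h i)).2)
  | @all k φ ih =>
    obtain ⟨T, _, τ, h₁⟩ := ih
    refine ⟨Set T, inferInstance, fun n v xs => range fun x => τ n v (Fin.snoc xs x), ?_⟩
    have key : ∀ (N N' : ℕ → ℕ) (v : α → Pw (RR E N)) (xs : Fin k → Pw (RR E N))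
        (v' : α → Pw (RR E N')) (xs' : Fin k → Pw (RR E N')),
        (∀ i, (range fun x => τ (N i) (fun a => sl i (v a)) (Fin.snoc (fun a => sl i (xs a)) x)) =
          range fun x => τ (N' i) (fun a => sl i (v' a)) (Fin.snoc (fun a => sl i (xs' a)) x)) →
        (∀ x, φ.Realize v (Fin.snoc xs x)) → ∀ x, φ.Realize v' (Fin.snoc xs' x) := by
      intro N N' v xs v' xs' h H x'
      have : ∀ i, ∃ y : Set W, τ (N i) (fun a => sl i (v a)) (Fin.snoc (fun a => sl i (xs a)) y) =
          τ (N' i) (fun a => sl i (v' a)) (Fin.snoc (fun a => sl i (xs' a)) (sl i x')) := by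
        intro i
        have : τ (N' i) (fun a => sl i (v' a)) (Fin.snoc (fun a => sl i (xs' a)) (sl i x')) ∈
            range fun x => τ (N i) (fun a => sl i (v a)) (Fin.snoc (fun a => sl i (xs a)) x) := by
          rw [h i]; exact mem_range_self _
        exact this
      choose y hy using this
      let x : Pw (RR E N) := {p : ℕ × W | p.2 ∈ y p.1}
      refine (h₁ N N' v (Fin.snoc xs x) v' (Fin.snoc xs' x') fun i => ?_).1 (H x)
      have e1 : (fun a => sl i ((Fin.snoc xs x : Fin (k + 1) → Pw (RR E N)) a)) =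
          Fin.snoc (fun a => sl i (xs a)) (y i) := by
        funext a
        refine Fin.lastCases ?_ (fun a => ?_) a
        · simp only [Fin.snoc_last]; rfl
        · simp only [Fin.snoc_castSucc]
      have e2 : (fun a => sl i ((Fin.snoc xs' x' : Fin (k + 1) → Pw (RR E N')) a)) =
          Fin.snoc (fun a => sl i (xs' a)) (sl i x') := by
        funext a
        refine Fin.lastCases ?_ (fun a => ?_) a
        · simp only [Fin.snoc_last]
        · simp only [Fin.snoc_castSucc]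
      rw [e1, e2]; exact hy i
    intro N N' v xs v' xs' h
    simp only [Language.BoundedFormula.realize_all]
    exact ⟨key N N' v xs v' xs' h, key N' N v' xs' v xs fun i => (h i).symm⟩

end FV

section Clan

variable {V : Type}

structure Cl (R : V → V → Prop) (Γ : Set (Set V)) : Prop where
  top : univ ∈ Γ
  bot : ∅ ∉ Γ
  up : ∀ a ∈ Γ, ∀ b, a ⊆ b → b ∈ Γ
  prime : ∀ a b, a ∪ b ∈ Γ → a ∈ Γ ∨ b ∈ Γ
  contact : ∀ a ∈ Γ, ∀ b ∈ Γ, ctc R a b

def XX (R : V → V → Prop) : Type := {Γ : Set (Set V) // Cl R Γ}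

variable {R : V → V → Prop}

def g (R : V → V → Prop) (a : Set V) : Set (XX R) := {Γ | a ∈ Γ.1}

instance (R : V → V → Prop) : TopologicalSpace (XX R) :=
  TopologicalSpace.generateFrom {u | ∃ a, u = (g R a)ᶜ}

theorem g_union (a b : Set V) : g R (a ∪ b) = g R a ∪ g R b := by
  ext Γ
  constructor
  · exact Γ.2.prime a b
  · rintro (h | h)
    · exact Γ.2.up a h _ subset_union_left
    · exact Γ.2.up b h _ subset_union_right

theorem g_empty : g R ∅ = ∅ := by
  ext Γ; exact ⟨Γ.2.bot, fun h => h.elim⟩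

theorem g_univ : g R univ = univ := by
  ext Γ; exact ⟨fun _ => trivial, fun _ => Γ.2.top⟩

theorem basis : TopologicalSpace.IsTopologicalBasis {u : Set (XX R) | ∃ a, u = (g R a)ᶜ} where
  exists_subset_inter := by
    rintro _ ⟨a, rfl⟩ _ ⟨b, rfl⟩ x hx
    refine ⟨(g R (a ∪ b))ᶜ, ⟨_, rfl⟩, ?_, ?_⟩
    · rw [g_union, compl_union]; exact hx
    · rw [g_union, compl_union]
  sUnion_eq := by
    apply eq_univ_of_forall
    intro x
    exact ⟨(g R ∅)ᶜ, ⟨_, rfl⟩, x.2.bot⟩
  eq_generateFrom := rfl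

theorem open_g (a : Set V) : IsOpen (g R a)ᶜ := basis.isOpen ⟨a, rfl⟩

def pt (R : V → V → Prop) (v : V) : XX R :=
  ⟨{a | v ∈ a}, trivial, fun h => h, fun _ h _ hab => hab h, fun _ _ h => h,
    fun _ ha _ hb => ⟨v, ha, v, hb, Or.inl rfl⟩⟩

theorem pre_g (a : Set V) : pt R ⁻¹' g R a = a := rfl

theorem single_eq (v : V) : ({pt R v} : Set (XX R)) = (g R {v}ᶜ)ᶜ := by
  ext Γ
  constructor
  · rintro rfl h; exact h rfl
  · intro h
    have h' : ({v}ᶜ : Set V) ∉ Γ.1 := h
    apply Subtype.ext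
    ext a
    constructor
    · intro ha
      by_contra hv
      exact h' (Γ.2.up a ha _ fun x hx e => hv (by rw [← mem_singleton_iff.1 e]; exact hx))
    · intro hv
      have : ({v} : Set V) ∪ {v}ᶜ ∈ Γ.1 := by rw [union_compl_self]; exact Γ.2.top
      rcases Γ.2.prime _ _ this with h1 | h1
      · exact Γ.2.up _ h1 _ (singleton_subset_iff.2 hv)
      · exact absurd h1 h'

theorem key (s : Set (XX R)) : closure (interior s) = g R (pt R ⁻¹' s) := by
  ext Γ
  rw [basis.mem_closure_iff]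
  constructor
  · intro h
    by_contra hn
    obtain ⟨Δ, h1, h2⟩ := h _ ⟨_, rfl⟩ hn
    obtain ⟨_, ⟨b, rfl⟩, h3, h4⟩ := basis.exists_subset_of_mem_open h2 isOpen_interior
    have : pt R ⁻¹' s ∪ b = univ := by
      apply eq_univ_of_forall
      intro v
      by_cases hv : v ∈ b
      · exact Or.inr hv
      · exact Or.inl (show pt R v ∈ s from interior_subset (h4 (show pt R v ∈ (g R b)ᶜ from hv)))
    rcases Δ.2.prime _ _ (this ▸ Δ.2.top) with h5 | h5
    · exact h1 h5
    · exact h3 h5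
  · rintro h _ ⟨a, rfl⟩ ha
    have : ¬ pt R ⁻¹' s ⊆ a := fun hs => ha (Γ.2.up _ h _ hs)
    obtain ⟨v, hv, hva⟩ := not_subset.1 this
    refine ⟨pt R v, hva, ?_⟩
    exact interior_maximal (singleton_subset_iff.2 (show pt R v ∈ s from hv))
      (single_eq (R := R) v ▸ open_g _) rfl

def toRC (R : V → V → Prop) (a : Set V) : RC (XX R) := ⟨g R a, key _⟩

theorem toRC_pre (s : RC (XX R)) : toRC R (pt R ⁻¹' s.1) = s :=
  Subtype.ext ((key s.1).symm.trans s.2)

theorem g_contact (hR : ∀ x y, R x y → R y x) (a b : Set V) :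
    (g R a ∩ g R b).Nonempty ↔ ctc R a b := by
  constructor
  · rintro ⟨Γ, ha, hb⟩; exact Γ.2.contact a ha b hb
  · rintro ⟨x, hx, y, hy, h⟩
    refine ⟨⟨{s | x ∈ s ∨ y ∈ s}, Or.inl trivial, ?_, ?_, ?_, ?_⟩, Or.inl hx, Or.inr hy⟩
    · rintro (h | h) <;> exact h
    · rintro s (h | h) t hst
      · exact Or.inl (hst h)
      · exact Or.inr (hst h)
    · rintro s t ((h | h) | (h | h))
      · exact Or.inl (Or.inl h)
      · exact Or.inr (Or.inl h)
      · exact Or.inl (Or.inr h)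
      · exact Or.inr (Or.inr h)
    · rintro s (hs | hs) t (ht | ht)
      · exact ⟨x, hs, x, ht, Or.inl rfl⟩
      · exact ⟨x, hs, y, ht, h⟩
      · exact ⟨y, hs, x, ht, h.imp Eq.symm (hR _ _)⟩
      · exact ⟨y, hs, y, ht, Or.inl rfl⟩

def iso (hR : ∀ x y, R x y → R y x) : lang.Equiv (Pw R) (RC (XX R)) where
  toFun := toRC R
  invFun := fun s => pt R ⁻¹' s.1
  left_inv := fun _ => rfl
  right_inv := toRC_pre
  map_fun' := by
    intro n f x
    apply Subtype.ext
    cases f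
    · exact g_empty
    · exact g_univ
    · show g R (x 0)ᶜ = closure (g R (x 0))ᶜ
      rw [← (open_g (R := R) (x 0)).interior_eq, key]; rfl
    · show g R (x 0 ∩ x 1) = closure (interior (g R (x 0) ∩ g R (x 1)))
      rw [key]; rfl
    · exact g_union _ _
  map_rel' := by
    intro n r x
    cases r
    exact g_contact hR _ _

theorem csemi (hR : ∀ x y, R x y → R y x) : CSemiregular (XX R) where
  t0 := by
    refine (t0Space_iff_inseparable _).2 fun x y h => ?_
    apply Subtype.ext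
    ext a
    exact not_iff_not.1 (h.mem_open_iff (open_g a))
  base := by
    intro s hs x hx
    obtain ⟨_, ⟨a, rfl⟩, h1, h2⟩ := basis.exists_subset_of_mem_open (show x ∈ sᶜ from hx)
      hs.isOpen_compl
    exact ⟨toRC R a, compl_subset_compl.1 h2, h1⟩
  fixed := by
    intro Γ hΓ
    refine ⟨⟨{a | toRC R a ∈ Γ}, ?_, ?_, ?_, ?_, ?_⟩, ?_⟩
    · obtain ⟨a, ha⟩ := hΓ.nonempty
      exact hΓ.up a ha _ (by show _ ⊆ g R univ; rw [g_univ]; exact subset_univ _)
    · exact fun h => hΓ.ne_zero _ h g_empty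
    · exact fun a ha b hab => hΓ.up _ ha _ fun Δ h => Δ.2.up a h b hab
    · exact fun a b h => hΓ.prime _ _ _ (g_union a b) h
    · exact fun a ha b hb => (g_contact hR a b).1 (hΓ.contact _ ha _ hb)
    · ext s
      have := toRC_pre s
      constructor
      · intro h
        show _ ∈ s.1
        rw [← this]
        show toRC R (pt R ⁻¹' s.1) ∈ Γ
        rw [this]; exact h
      · intro h
        have h' : _ ∈ s.1 := h
        rw [← this] at h'
        have h'' : toRC R (pt R ⁻¹' s.1) ∈ Γ := h'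
        rwa [this] at h''

end Clan

section Shift

abbrev WW : Type := Fin 3 × ℕ × ℕ

def sh (N : ℕ) (p q : ℕ × ℕ) : Prop :=
  p.1 < p.2 ∧ p.2 < N ∧ q.1 < q.2 ∧ q.2 < N ∧ (p.2 = q.1 ∨ q.2 = p.1)

def EE (N : ℕ) (w u : WW) : Prop := w.1 ≠ u.1 ∧ sh N w.2 u.2

theorem RR_symm (N : ℕ → ℕ) (p q : ℕ × WW) (h : RR EE N p q) : RR EE N q p := by
  obtain ⟨h1, h2, h3, h4, h5, h6, h7⟩ := h
  exact ⟨h1.symm, h2.symm, h5, h1 ▸ h6, h3, h1 ▸ h4, h7.symm⟩

def part (j : Fin 3) : Set (ℕ × WW) := {p | p.2.1 = j}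

theorem fin_prime {V : Type} {R : V → V → Prop} {Γ : Set (Set V)} (h : Cl R Γ) {ι : Type}
    (s : Finset ι) (f : ι → Set V) (hf : (⋃ i ∈ s, f i) ∈ Γ) : ∃ i ∈ s, f i ∈ Γ := by
  classical
  induction s using Finset.induction_on with
  | empty => simp only [Finset.notMem_empty, iUnion_of_empty, iUnion_empty] at hf; exact absurd hf h.bot
  | insert a s _ ih =>
    rw [Finset.set_biUnion_insert] at hf
    rcases h.prime _ _ hf with h1 | h1
    · exact ⟨a, Finset.mem_insert_self _ _, h1⟩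
    · obtain ⟨i, hi, h2⟩ := ih h1
      exact ⟨i, Finset.mem_insert_of_mem hi, h2⟩

theorem no_clan (N : ℕ) (Γ : Set (Set (ℕ × WW))) (h : Cl (RR EE fun _ => N) Γ) :
    ¬ ∀ j, part j ∈ Γ := by
  intro H
  have : ∀ j : Fin 3, ∃ q : ℕ × ℕ, {p : ℕ × WW | p.2 = (j, q)} ∈ Γ := by
    intro j
    have e : part j = (⋃ q ∈ Finset.range N ×ˢ Finset.range N, {p : ℕ × WW | p.2 = (j, q)}) ∪
        {p : ℕ × WW | p.2.1 = j ∧ ¬ (p.2.2.1 < N ∧ p.2.2.2 < N)} := by
      ext ⟨i, k, x, y⟩
      simp only [part, mem_ofPred_eq, mem_union, mem_iUnion, Finset.mem_product, Finset.mem_range]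
      constructor
      · rintro rfl
        by_cases hh : x < N ∧ y < N
        · exact Or.inl ⟨(x, y), hh, rfl⟩
        · exact Or.inr ⟨rfl, hh⟩
      · rintro (⟨q, -, hq⟩ | hq)
        · exact (Prod.mk.inj hq).1
        · exact hq.1
    rcases h.prime _ _ (e ▸ H j) with h1 | h1
    · obtain ⟨q, -, hq⟩ := fin_prime h _ _ h1
      exact ⟨q, hq⟩
    · obtain ⟨x, hx, y, hy, hxy⟩ := h.contact _ h1 _ (H (j + 1))
      have hj : j ≠ j + 1 := (by decide : ∀ j : Fin 3, j ≠ j + 1) j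
      rcases hxy with rfl | ⟨-, -, h3, h4, -⟩
      · exact absurd (hx.1.symm.trans hy) hj
      · exact absurd ⟨h3.trans h4, h4⟩ hx.2
  choose q hq using this
  have adj : ∀ j k : Fin 3, j ≠ k → sh N (q j) (q k) := by
    intro j k hjk
    obtain ⟨⟨i, x⟩, hx, ⟨i', y⟩, hy, hxy⟩ := h.contact _ (hq j) _ (hq k)
    simp only [mem_ofPred_eq] at hx hy
    subst hx hy
    rcases hxy with hxy | ⟨-, -, h3⟩
    · exact absurd (Prod.mk.inj (Prod.mk.inj hxy).2).1 hjk
    · exact h3
  have h01 := adj 0 1 (by decide)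
  have h02 := adj 0 2 (by decide)
  have h12 := adj 1 2 (by decide)
  unfold sh at h01 h02 h12
  omega

theorem has_clan (N : ℕ → ℕ) (hN : ∀ m, ∃ i, m < N i) :
    ∃ Γ : Set (Set (ℕ × WW)), Cl (RR EE N) Γ ∧ ∀ j, part j ∈ Γ := by
  classical
  let Ind : Set (ℕ × ℕ × ℕ) → Prop := fun I =>
    ∀ i p q, (i, p) ∈ I → (i, q) ∈ I → ¬ sh (N i) p q
  obtain ⟨U, hU⟩ := Ultrafilter.exists_ultrafilter_of_finite_inter_nonempty
    {s : Set (ℕ × ℕ × ℕ) | Ind sᶜ} (by
      intro T hT
      by_contra hne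
      obtain ⟨i, hi⟩ := hN (2 ^ T.card)
      have cov : ∀ z : ℕ × ℕ × ℕ, ∃ s ∈ T, z ∉ s := by
        intro z
        by_contra hz
        push Not at hz
        exact hne ⟨z, fun s hs => hz s hs⟩
      let S : ℕ → Finset (Set (ℕ × ℕ × ℕ)) := fun x =>
        T.filter fun s => ∃ y, x < y ∧ y < N i ∧ (i, x, y) ∉ s
      have hlt : ∀ x y, x < y → y < N i → S x ≠ S y := by
        intro x y hxy hy e
        obtain ⟨s, hs, hz⟩ := cov (i, x, y)
        have h1 : s ∈ S x := Finset.mem_filter.2 ⟨hs, y, hxy, hy, hz⟩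
        rw [e] at h1
        obtain ⟨-, z, hyz, hz', h2⟩ := Finset.mem_filter.1 h1
        exact hT hs i (x, y) (y, z) hz h2 ⟨hxy, hy, hyz, hz', Or.inl rfl⟩
      have := Finset.card_le_card_of_injOn (s := Finset.range (N i)) (t := T.powerset) S
        (fun x _ => Finset.mem_coe.2 (Finset.mem_powerset.2 (Finset.filter_subset _ _)))
        (by
          intro x hx y hy e
          simp only [Finset.coe_range, mem_Iio] at hx hy
          rcases lt_trichotomy x y with h | h | h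
          · exact absurd e (hlt x y h hy)
          · exact h
          · exact absurd e.symm (hlt y x h hx))
      rw [Finset.card_range, Finset.card_powerset] at this
      omega)
  let e : Fin 3 → ℕ × ℕ × ℕ → ℕ × WW := fun j z => (z.1, j, z.2)
  refine ⟨{s | ∃ j, e j ⁻¹' s ∈ U}, ⟨⟨0, Filter.univ_mem⟩, ?_, ?_, ?_, ?_⟩, ?_⟩
  · rintro ⟨j, h⟩; exact U.empty_notMem h
  · rintro a ⟨j, h⟩ b hab; exact ⟨j, Filter.mem_of_superset h (preimage_mono hab)⟩
  · rintro a b ⟨j, h⟩
    rcases Ultrafilter.union_mem_iff.1 h with h | h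
    · exact Or.inl ⟨j, h⟩
    · exact Or.inr ⟨j, h⟩
  · rintro a ⟨j, ha⟩ b ⟨k, hb⟩
    have hab : e j ⁻¹' a ∩ e k ⁻¹' b ∈ U := Filter.inter_mem ha hb
    by_cases hjk : j = k
    · subst hjk
      obtain ⟨z, h1, h2⟩ := U.nonempty_of_mem hab
      exact ⟨_, h1, _, h2, Or.inl rfl⟩
    · have : ¬ Ind (e j ⁻¹' a ∩ e k ⁻¹' b) := by
        intro hI
        have : (e j ⁻¹' a ∩ e k ⁻¹' b)ᶜ ∈ U := hU (by simpa using hI)
        exact (Ultrafilter.compl_mem_iff_notMem.1 this) hab
      simp only [Ind] at this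
      push Not at this
      obtain ⟨i, p, q, hp, hq, hpq⟩ := this
      exact ⟨_, hp.1, _, hq.2, Or.inr ⟨rfl, hjk, hpq⟩⟩
  · intro j
    exact ⟨j, Filter.univ_mem' fun _ => rfl⟩

end Shift

theorem not_definable (n : ℕ) (hn : 3 ≤ n) (φ : lang.Formula (Fin n)) :
    ∃ (X : Type) (_ : TopologicalSpace X), Nonempty X ∧ CSemiregular X ∧
      ∃ a : Fin n → RC X, ¬ (φ.Realize a ↔ (⋂ i, (a i).1).Nonempty) := by
  classical
  obtain ⟨T, _, τ, hτ⟩ := fv EE φ
  let c : Fin n → Fin 3 := fun i => if h : i.1 < 3 then ⟨i.1, h⟩ else 0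
  have hc : ∀ j : Fin 3, ∃ i, c i = j := fun j =>
    ⟨⟨j.1, lt_of_lt_of_le j.2 hn⟩, by simp [c]⟩
  let w : Fin n → Set WW := fun i => {u | u.1 = c i}
  obtain ⟨t, ht⟩ := Finite.exists_infinite_fiber fun m => τ m w default
  let S : Set ℕ := (fun m => τ m w default) ⁻¹' {t}
  have hS : S.Infinite := Set.infinite_coe_iff.1 ht
  have : ∀ m, ∃ k ∈ S, m < k := fun m => hS.exists_gt m
  choose N hNS hN using this
  have H := hτ N (fun _ => N 0) (fun i => part (c i)) default (fun i => part (c i)) default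
    (fun i => by
      have h1 : τ (N i) w default = t := hNS i
      have h2 : τ (N 0) w default = t := hNS 0
      have e : ∀ f : Fin 0 → Set WW, f = default := fun f => funext fun a => a.elim0
      rw [e (fun a => sl i _), e (fun a => sl i _)]
      exact h1.trans h2.symm)
  have tr : ∀ M : ℕ → ℕ, φ.Realize (fun i => toRC (RR EE M) (part (c i))) ↔
      φ.Realize (M := Pw (RR EE M)) (fun i => part (c i)) := fun M =>
    Language.StrongHomClass.realize_formula (M := Pw (RR EE M)) (iso (RR_symm M)) φ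
      (v := fun i => part (c i))
  by_cases hφ : φ.Realize (M := Pw (RR EE N)) (fun i => part (c i))
  · refine ⟨XX (RR EE fun _ => N 0), inferInstance, ⟨pt _ default⟩, csemi (RR_symm _),
      fun i => toRC _ (part (c i)), fun h => ?_⟩
    obtain ⟨Γ, hΓ⟩ := h.1 ((tr _).2 (H.1 hφ))
    refine no_clan (N 0) Γ.1 Γ.2 fun j => ?_
    obtain ⟨i, rfl⟩ := hc j
    exact mem_iInter.1 hΓ i
  · refine ⟨XX (RR EE N), inferInstance, ⟨pt _ default⟩, csemi (RR_symm _),
      fun i => toRC _ (part (c i)), fun h => hφ ((tr _).1 (h.2 ?_))⟩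
    obtain ⟨Γ, h1, h2⟩ := has_clan N fun m => ⟨m, hN m⟩
    exact ⟨⟨Γ, h1⟩, mem_iInter.2 fun i => h2 (c i)⟩

end Pool.Agent.H40.Con
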