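import Pool.Agent.H40.CrysDefs

namespace Pool.Agent.H40.Crys

open Matrix Set

/-! ### Back and forth for the additive group of integers -/

def Sim {X : Type} [AddCommGroup X] (F : Set (X →+ ℤ)) (M : ℤ) (x y : X) : Prop :=
  (∀ l ∈ F, l x = 0 ↔ l y = 0) ∧ ∃ c : ℤ, IsCoprime c M ∧ ∃ e, y = c • x + M • e

theorem Sim.symm {X : Type} [AddCommGroup X] {F : Set (X →+ ℤ)} {M : ℤ} {x y : X}
    (h : Sim F M x y) : Sim F M y x := by
  obtain ⟨h1, c, ⟨a, b, hab⟩, e, rfl⟩ := h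
  refine ⟨fun l hl => (h1 l hl).symm, a, ⟨c, b, by linear_combination hab⟩, b • x - a • e, ?_⟩
  have : x = (a * c + b * M) • x := by rw [hab, one_smul]
  calc x = (a * c + b * M) • x := this
    _ = _ := by module

theorem Sim.mono {X : Type} [AddCommGroup X] {F F' : Set (X →+ ℤ)} {M M' : ℤ} {x y : X}
    (h : Sim F M x y) (hF : F' ⊆ F) (hM : M' ∣ M) : Sim F' M' x y := by
  obtain ⟨h1, c, hc, e, rfl⟩ := h
  obtain ⟨k, rfl⟩ := hM
  exact ⟨fun l hl => h1 l (hF hl), c, hc.of_mul_right_left, k • e, by module⟩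

def Ext (Y : Type) [AddCommGroup Y] : Prop :=
  ∀ (X : Type) [AddCommGroup X] (F' : Set (X × Y →+ ℤ)) (M' : ℤ), F'.Finite → M' ≠ 0 →
    ∃ (F : Set (X →+ ℤ)) (M : ℤ), F.Finite ∧ M ≠ 0 ∧
      ∀ x y, Sim F M x y → ∀ z : Y, ∃ w : Y, Sim F' M' (x, z) (y, w)

theorem ext_int : Ext ℤ := by
  classical
  intro X _ F' M' hF hM
  let a : (X × ℤ →+ ℤ) → ℤ := fun l => l (0, 1)
  let r : (X × ℤ →+ ℤ) → (X →+ ℤ) := fun l => l.comp (AddMonoidHom.inl X ℤ)
  have hl : ∀ (l : X × ℤ →+ ℤ) x z, l (x, z) = r l x + a l * z := by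
    intro l x z
    have : ((x, z) : X × ℤ) = (x, 0) + z • (0, 1) := by simp
    rw [this, map_add, map_zsmul]
    simp [a, r, mul_comm]
  let P : ℤ := ∏ l ∈ hF.toFinset, if a l = 0 then 1 else a l
  have hP : P ≠ 0 := Finset.prod_ne_zero_iff.2 fun l _ => by split_ifs with h <;> simp [h]
  have hdiv : ∀ l ∈ F', a l ≠ 0 → a l ∣ P := fun l h1 h2 => by
    have := Finset.dvd_prod_of_mem (fun l => if a l = 0 then 1 else a l) (hF.mem_toFinset.2 h1)
    simpa [h2] using this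
  refine ⟨r '' F' ∪ image2 (fun l m => a l • r m - a m • r l) F' F', M' * P,
    (hF.image _).union (hF.image2 _ hF), mul_ne_zero hM hP, ?_⟩
  rintro x y ⟨h1, c, hc, e, he⟩ z
  have fin : ∀ k : ℤ, (∀ l ∈ F', l (x, z) = 0 ↔ l (y, c * z + M' * k) = 0) →
      ∃ w, Sim F' M' (x, z) (y, w) := fun k hk =>
    ⟨c * z + M' * k, hk, c, hc.of_mul_right_left, (P • e, k), by
      rw [he]; ext
      · simp [mul_smul]
      · simp⟩
  by_cases h : ∃ l ∈ F', a l ≠ 0 ∧ l (x, z) = 0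
  · obtain ⟨l, hlF, hla, hlz⟩ := h
    obtain ⟨q, hq⟩ := hdiv l hlF hla
    rw [hl] at hlz
    have hy : r l y + a l * (c * z + M' * (-(q * r l e))) = 0 := by
      rw [he, map_add, map_zsmul, map_zsmul, hq]
      simp only [smul_eq_mul]
      linear_combination c * hlz
    refine fin (-(q * r l e)) fun m hm => ?_
    have h2 := h1 _ (Or.inr (mem_image2_of_mem hlF hm))
    simp only [AddMonoidHom.sub_apply, AddMonoidHom.smul_apply, smul_eq_mul] at h2
    rw [hl, hl]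
    constructor
    · intro h3
      have h4 := h2.1 (by linear_combination a l * h3 - a m * hlz)
      exact mul_left_cancel₀ hla (by linear_combination h4 + a m * hy)
    · intro h3
      have h4 := h2.2 (by linear_combination a l * h3 - a m * hy)
      exact mul_left_cancel₀ hla (by linear_combination h4 + a m * hlz)
  · push Not at h
    have hfin : (⋃ l ∈ F', {k : ℤ | a l ≠ 0 ∧ r l y + a l * (c * z + M' * k) = 0}).Finite := by
      refine hF.biUnion fun l _ => Set.Subsingleton.finite ?_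
      rintro k ⟨h1, h2⟩ k' ⟨-, h3⟩
      exact mul_left_cancel₀ (mul_ne_zero h1 hM) (by linear_combination h2 - h3)
    obtain ⟨k, hk⟩ := hfin.exists_notMem
    simp only [mem_iUnion, mem_ofPred_eq, not_exists, not_and] at hk
    refine fin k fun m hm => ?_
    by_cases ha : a m = 0
    · rw [hl, hl, ha]
      simpa using h1 _ (Or.inl (mem_image_of_mem _ hm))
    · refine iff_of_false (h m hm ha) ?_
      rw [hl]; exact hk m hm ha

theorem Sim.map {X Y : Type} [AddCommGroup X] [AddCommGroup Y] (f : X →+ Y) {F : Set (Y →+ ℤ)}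
    {M : ℤ} {x y : X} (h : Sim ((fun l => l.comp f) '' F) M x y) : Sim F M (f x) (f y) := by
  obtain ⟨h1, c, hc, e, rfl⟩ := h
  exact ⟨fun l hl => h1 _ (mem_image_of_mem _ hl), c, hc, f e, by simp⟩

theorem ext_fin (n : ℕ) : Ext (Fin n → ℤ) := by
  induction n with
  | zero =>
    intro X _ F' M' hF hM
    refine ⟨_, M', hF.image fun l => l.comp (AddMonoidHom.inl X (Fin 0 → ℤ)), hM,
      fun x y h z => ⟨0, ?_⟩⟩
    rw [Subsingleton.elim z 0]
    exact Sim.map (AddMonoidHom.inl X (Fin 0 → ℤ)) h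
  | succ n ih =>
    intro X _ F' M' hF hM
    let f : (X × (Fin n → ℤ)) × ℤ →+ X × (Fin (n + 1) → ℤ) :=
      { toFun := fun p => (p.1.1, Fin.cons p.2 p.1.2)
        map_zero' := by
          ext i
          · rfl
          · refine Fin.cases ?_ (fun i => ?_) i <;> simp
        map_add' := fun p q => by
          ext i
          · rfl
          · refine Fin.cases ?_ (fun i => ?_) i <;> simp }
    obtain ⟨F₁, M₁, hF₁, hM₁, h₁⟩ := ext_int _ _ M' (hF.image fun l => l.comp f) hM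
    obtain ⟨F₂, M₂, hF₂, hM₂, h₂⟩ := ih X F₁ M₁ hF₁ hM₁
    refine ⟨F₂, M₂, hF₂, hM₂, fun x y h z => ?_⟩
    obtain ⟨w₁, hw₁⟩ := h₂ x y h (Fin.tail z)
    obtain ⟨w₂, hw₂⟩ := h₁ _ _ hw₁ (z 0)
    refine ⟨Fin.cons w₂ w₁, ?_⟩
    have := Sim.map f hw₂
    simpa [f] using this

/-! ### Formulas in the semidirect product -/

variable {n : ℕ} {G₀ : Subgroup (GL (Fin n) ℤ)}

def mk (t : Fin n → ℤ) (g : G₀) : Cryst G₀ := ⟨Multiplicative.ofAdd t, g⟩

theorem mk_mul (s t : Fin n → ℤ) (g h : G₀) : mk s g * mk t h = mk (s + g.1.1 *ᵥ t) (g * h) := rfl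

theorem mk_inv (s : Fin n → ℤ) (g : G₀) : (mk s g)⁻¹ = mk ((g⁻¹).1.1 *ᵥ (-s)) g⁻¹ := rfl

theorem mk_one : (1 : Cryst G₀) = mk 0 1 := rfl

theorem mk_inj {s t : Fin n → ℤ} {g h : G₀} : mk s g = mk t h ↔ s = t ∧ g = h := by
  simp [mk, SemidirectProduct.ext_iff]

theorem mk_surj (x : Cryst G₀) : ∃ t g, x = mk t g := ⟨x.left.toAdd, x.right, rfl⟩

attribute [local instance] grpStr

theorem term_lin {X β : Type} [AddCommGroup X] (p : β → X →+ (Fin n → ℤ)) (g : β → G₀)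
    (t : grpLang.Term β) : ∃ (L : X →+ (Fin n → ℤ)) (γ : G₀), ∀ x,
      t.realize (fun b => mk (p b x) (g b)) = mk (L x) γ := by
  induction t with
  | var b => exact ⟨p b, g b, fun _ => rfl⟩
  | func f ts ih =>
    choose L γ h using ih
    cases f
    · exact ⟨0, 1, fun _ => rfl⟩
    · refine ⟨((γ 0)⁻¹).1.1.mulVecLin.toAddMonoidHom.comp (-L 0), (γ 0)⁻¹, fun x => ?_⟩
      show ((ts 0).realize _)⁻¹ = _
      rw [h]; rfl
    · refine ⟨L 0 + (γ 0).1.1.mulVecLin.toAddMonoidHom.comp (L 1), γ 0 * γ 1, fun x => ?_⟩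
      show (ts 0).realize _ * (ts 1).realize _ = _
      rw [h, h]; rfl

theorem ef [Finite G₀] {α : Type} {k : ℕ} (φ : grpLang.BoundedFormula α k) :
    ∀ (X : Type) [AddCommGroup X] (p : α → X →+ (Fin n → ℤ)) (q : Fin k → X →+ (Fin n → ℤ))
      (g : α → G₀) (h : Fin k → G₀), ∃ (F : Set (X →+ ℤ)) (M : ℤ), F.Finite ∧ M ≠ 0 ∧
        ∀ x y, Sim F M x y →
          (φ.Realize (fun a => mk (p a x) (g a)) (fun i => mk (q i x) (h i)) ↔
            φ.Realize (fun a => mk (p a y) (g a)) (fun i => mk (q i y) (h i))) := by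
  induction φ with
  | falsum => exact fun X _ _ _ _ _ => ⟨∅, 1, finite_empty, one_ne_zero, fun _ _ _ => Iff.rfl⟩
  | equal t₁ t₂ =>
    intro X _ p q g h
    obtain ⟨L₁, γ₁, h₁⟩ := term_lin (Sum.elim p q) (Sum.elim g h) t₁
    obtain ⟨L₂, γ₂, h₂⟩ := term_lin (Sum.elim p q) (Sum.elim g h) t₂
    have e : ∀ x, Sum.elim (fun a => mk (p a x) (g a)) (fun i => mk (q i x) (h i)) =
        fun b => mk (Sum.elim p q b x) (Sum.elim g h b) := fun x => by
      funext b; cases b <;> rfl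
    refine ⟨range fun i => (Pi.evalAddMonoidHom (fun _ => ℤ) i).comp (L₁ - L₂), 1,
      finite_range _, one_ne_zero, fun x y hs => ?_⟩
    simp only [FirstOrder.Language.BoundedFormula.Realize, e, h₁, h₂, mk_inj]
    refine and_congr_left fun _ => ?_
    simp only [funext_iff]
    refine forall_congr' fun i => ?_
    have := hs.1 _ ⟨i, rfl⟩
    simpa [sub_eq_zero] using this
  | rel r _ => exact Empty.elim r
  | imp φ ψ ih₁ ih₂ =>
    intro X _ p q g h
    obtain ⟨F₁, M₁, hF₁, hM₁, h₁⟩ := ih₁ X p q g h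
    obtain ⟨F₂, M₂, hF₂, hM₂, h₂⟩ := ih₂ X p q g h
    refine ⟨F₁ ∪ F₂, M₁ * M₂, hF₁.union hF₂, mul_ne_zero hM₁ hM₂, fun x y hs => ?_⟩
    simp only [FirstOrder.Language.BoundedFormula.realize_imp]
    exact imp_congr (h₁ x y (hs.mono subset_union_left (dvd_mul_right _ _)))
      (h₂ x y (hs.mono subset_union_right (dvd_mul_left _ _)))
  | @all k φ ih =>
    intro X _ p q g h
    have := Fintype.ofFinite G₀
    let p' : α → X × (Fin n → ℤ) →+ (Fin n → ℤ) := fun a => (p a).comp (AddMonoidHom.fst _ _)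
    let q' : Fin (k + 1) → X × (Fin n → ℤ) →+ (Fin n → ℤ) :=
      Fin.snoc (fun i => (q i).comp (AddMonoidHom.fst _ _)) (AddMonoidHom.snd _ _)
    have H := fun γ : G₀ => ih (X × (Fin n → ℤ)) p' q' g (Fin.snoc h γ)
    choose F' M' hF' hM' H using H
    obtain ⟨F, M, hF, hM, hE⟩ := ext_fin n X (⋃ γ, F' γ) (∏ γ, M' γ) (finite_iUnion hF')
      (Finset.prod_ne_zero_iff.2 fun γ _ => hM' γ)
    have e : ∀ (x : X) (z : Fin n → ℤ) (γ : G₀),
        (fun i => mk (q' i (x, z)) ((Fin.snoc h γ : Fin (k + 1) → G₀) i)) =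
          Fin.snoc (fun i => mk (q i x) (h i)) (mk z γ) := by
      intro x z γ; funext i
      refine Fin.lastCases ?_ (fun i => ?_) i <;> simp [q']
    have key : ∀ x y, Sim F M x y →
        (∀ a, φ.Realize (fun a => mk (p a y) (g a)) (Fin.snoc (fun i => mk (q i y) (h i)) a)) →
        ∀ a, φ.Realize (fun a => mk (p a x) (g a)) (Fin.snoc (fun i => mk (q i x) (h i)) a) := by
      intro x y hs hy a
      obtain ⟨z, γ, rfl⟩ := mk_surj a
      obtain ⟨w, hw⟩ := hE x y hs z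
      have := H γ _ _ (hw.mono (subset_iUnion F' γ) (Finset.dvd_prod_of_mem _ (Finset.mem_univ γ)))
      rw [e, e] at this
      exact this.2 (hy _)
    refine ⟨F, M, hF, hM, fun x y hs => ?_⟩
    simp only [FirstOrder.Language.BoundedFormula.realize_all]
    exact ⟨key y x hs.symm, key x y hs⟩

def autEquiv {G : Type} [Group G] (σ : MulAut G) : grpLang.Equiv G G where
  toEquiv := σ.toEquiv
  map_fun' := by
    intro n f x
    cases f
    · exact map_one σ
    · exact map_inv σ _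
    · exact map_mul σ _ _
  map_rel' := fun r => Empty.elim r

theorem same_type [Finite G₀] (t s : Fin n → ℤ) (σ : G₀) (hs : s - σ.1.1 *ᵥ s = (5 : ℤ) • t)
    (φ : grpLang.Formula (Fin 1)) :
    φ.Realize (fun _ => mk t σ) ↔ φ.Realize (fun _ => mk ((2 : ℤ) • t) σ) := by
  obtain ⟨F, M, -, hM, H⟩ := ef φ ℤ (fun _ => zmultiplesHom _ t) Fin.elim0 (fun _ => σ) Fin.elim0
  obtain ⟨p, hp1, hp2, hp3⟩ := Nat.forall_exists_prime_gt_and_modEq M.natAbs (q := 5) (a := 2)
    (by norm_num) (by norm_num)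
  have hs' : Sim F M (1 : ℤ) (p : ℤ) := by
    refine ⟨fun l _ => ?_, p, ?_, 0, by simp⟩
    · have : l p = p * l 1 := by
        rw [← smul_eq_mul, ← map_zsmul]; simp
      rw [this]
      simp [hp2.ne_zero]
    · rw [Int.isCoprime_iff_nat_coprime, Int.natAbs_natCast]
      exact (Nat.coprime_of_lt_prime (Int.natAbs_ne_zero.2 hM) hp1 hp2)
  have h1 := H 1 p hs'
  have e0 : ∀ (f : Fin 0 → Cryst G₀) (v : Fin 1 → Cryst G₀),
      FirstOrder.Language.BoundedFormula.Realize φ v f ↔ φ.Realize v := fun f v =>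
    iff_of_eq (congrArg _ (funext fun a => a.elim0))
  rw [e0, e0] at h1
  simp only [zmultiplesHom_apply, one_smul] at h1
  obtain ⟨k, hk⟩ : ∃ k : ℤ, (p : ℤ) = 2 + 5 * k := ⟨(p : ℤ) / 5, by
    unfold Nat.ModEq at hp3; omega⟩
  have h2 := FirstOrder.Language.StrongHomClass.realize_formula
    (autEquiv (MulAut.conj (mk (k • s) (1 : G₀)))) φ (v := fun _ => mk ((2 : ℤ) • t) σ)
  refine h1.trans (Iff.trans (iff_of_eq ?_) h2)
  refine congrArg _ (funext fun i => ?_)
  show _ = mk (k • s) 1 * mk ((2 : ℤ) • t) σ * (mk (k • s) 1)⁻¹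
  rw [mk_inv, mk_mul, mk_mul, mk_inj]
  refine ⟨?_, by simp⟩
  simp only [inv_one, OneMemClass.coe_one, Units.val_one, one_mulVec, one_mul, mulVec_neg,
    mulVec_smul]
  rw [hk]
  have : σ.1.1 *ᵥ s = s - (5 : ℤ) • t := by rw [← hs]; abel
  rw [this]; module

end Pool.Agent.H40.Crys
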