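import Pool.Agent.H40.Crys1

namespace Pool.Agent.H40.Crys

open Matrix Set

section General

variable {n : ℕ} {G₀ : Subgroup (GL (Fin n) ℤ)}

theorem eq_one_of_fix (g : G₀) (h : ∀ t, g.1.1 *ᵥ t = t) : g = 1 := by
  apply Subtype.ext
  apply Units.ext
  apply Matrix.toLin'.injective
  ext1 i
  ext1
  simp [h]

theorem mk_pow (t : Fin n → ℤ) (m : ℕ) : (mk t (1 : G₀)) ^ m = mk (m • t) 1 := by
  induction m with
  | zero => simp [mk_one]
  | succ m ih => rw [pow_succ, ih, mk_mul, succ_nsmul]; simp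

theorem right_iff [Finite G₀] (x : Cryst G₀) :
    x.right = 1 ↔ ∀ y : Cryst G₀, x * y ^ Nat.card G₀ = y ^ Nat.card G₀ * x := by
  obtain ⟨s, g, rfl⟩ := mk_surj x
  constructor
  · intro h y
    have h1 : g = 1 := h
    have h2 : (y ^ Nat.card G₀).right = 1 := by
      have := map_pow (SemidirectProduct.rightHom (φ := act G₀)) y (Nat.card G₀)
      rw [pow_card_eq_one'] at this
      exact this
    obtain ⟨t, g', e⟩ := mk_surj (y ^ Nat.card G₀)
    rw [e] at h2 ⊢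
    have h3 : g' = 1 := h2
    subst h1 h3
    rw [mk_mul, mk_mul]; simp [add_comm]
  · intro h
    refine eq_one_of_fix g fun t => ?_
    have h1 := h (mk t 1)
    rw [mk_pow, mk_mul, mk_mul, mk_inj] at h1
    have h2 := h1.1
    simp only [OneMemClass.coe_one, Units.val_one, one_mulVec] at h2
    rw [add_comm, add_left_inj, mulVec_smul] at h2
    exact smul_right_injective _ (Nat.card_pos (α := G₀)).ne' h2

theorem aut_right [Finite G₀] (α : MulAut (Cryst G₀)) (x : Cryst G₀) (h : x.right = 1) :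
    (α x).right = 1 := by
  rw [right_iff] at h ⊢
  intro y
  obtain ⟨z, rfl⟩ := α.surjective y
  rw [← map_pow, ← map_mul, ← map_mul, h]

theorem aut_data [Finite G₀] (α : MulAut (Cryst G₀)) :
    ∃ (A : (Fin n → ℤ) →+ (Fin n → ℤ)) (c : G₀ → Fin n → ℤ) (d : G₀ → G₀),
      Function.Surjective A ∧ (∀ t g, α (mk t g) = mk (A t + c g) (d g)) ∧
      (∀ g t, (d g).1.1 *ᵥ A t = A (g.1.1 *ᵥ t)) ∧
      ∀ g h, g * h = h * g → c g + (d g).1.1 *ᵥ c h = c h + (d h).1.1 *ᵥ c g := by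
  have h1 : ∀ t, ∃ s, α (mk t 1) = mk s 1 := fun t => by
    obtain ⟨s, g, e⟩ := mk_surj (α (mk t 1))
    have := aut_right α (mk t 1) rfl
    rw [e] at this ⊢
    exact ⟨s, congrArg _ this⟩
  choose A hA using h1
  have h2 : ∀ g, ∃ s g', α (mk 0 g) = mk s g' := fun g => mk_surj _
  choose c d hc using h2
  have hadd : ∀ s t, A (s + t) = A s + A t := fun s t => by
    have : mk (s + t) (1 : G₀) = mk s 1 * mk t 1 := by rw [mk_mul]; simp
    have h := congrArg α this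
    rw [map_mul, hA, hA, hA, mk_mul, mk_inj] at h
    simpa using h.1
  refine ⟨AddMonoidHom.mk' A hadd, c, d, fun s => ?_, fun t g => ?_, fun g t => ?_,
    fun g h e => ?_⟩
  · obtain ⟨t, g, e⟩ := mk_surj (α.symm (mk s 1))
    have h := aut_right α.symm (mk s 1) rfl
    have h' : (α.symm (mk s 1)).right = 1 := h
    rw [e] at h'
    have hg : g = 1 := h'
    subst hg
    have := hA t
    rw [← e, MulEquiv.apply_symm_apply, mk_inj] at this
    exact ⟨t, this.1.symm⟩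
  · have : mk t g = mk t 1 * mk 0 g := by rw [mk_mul]; simp
    rw [this, map_mul, hA, hc, mk_mul]; simp
  · have : mk 0 g * mk t 1 = mk (g.1.1 *ᵥ t) 1 * mk 0 g := by rw [mk_mul, mk_mul]; simp
    have h := congrArg α this
    rw [map_mul, map_mul, hA, hA, hc, mk_mul, mk_mul, mk_inj] at h
    have := h.1
    simp only [OneMemClass.coe_one, Units.val_one, one_mulVec] at this
    rw [add_comm, add_left_inj] at this
    exact this
  · have : mk 0 g * mk 0 h = mk 0 h * mk 0 g := by rw [mk_mul, mk_mul, e]; simp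
    have h := congrArg α this
    rw [map_mul, map_mul, hc, hc, mk_mul, mk_mul, mk_inj] at h
    exact h.1

end General

def SS : Finset (Fin 4 → ℤ) :=
  {![1, 0, 0, 0], ![0, 1, 0, 0], ![0, 0, 1, 0], ![0, 0, 0, 1], ![-1, -1, -1, -1],
    ![-1, 0, 0, 0], ![0, -1, 0, 0], ![0, 0, -1, 0], ![0, 0, 0, -1], ![1, 1, 1, 1]}

def GG : Subgroup (GL (Fin 4) ℤ) where
  carrier := {g | (∀ v ∈ SS, g.1 *ᵥ v ∈ SS) ∧ ∀ v ∈ SS, (g⁻¹).1 *ᵥ v ∈ SS}
  one_mem' := by simp
  mul_mem' := fun {a b} ha hb => ⟨fun v hv => by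
      rw [Units.val_mul, ← mulVec_mulVec]; exact ha.1 _ (hb.1 _ hv), fun v hv => by
      rw [_root_.mul_inv_rev, Units.val_mul, ← mulVec_mulVec]; exact hb.2 _ (ha.2 _ hv)⟩
  inv_mem' := fun {a} ha => ⟨ha.2, by rw [inv_inv]; exact ha.1⟩

theorem single_mem (j : Fin 4) : (Pi.single j 1 : Fin 4 → ℤ) ∈ SS := by
  revert j; decide

instance : Finite GG := by
  refine Finite.of_injective (fun (g : GG) (j : Fin 4) =>
    (⟨g.1.1 *ᵥ Pi.single j 1, g.2.1 _ (single_mem j)⟩ : SS)) fun g h e => ?_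
  apply Subtype.ext
  apply Units.ext
  ext i j
  have := congrFun (congrArg Subtype.val (congrFun e j)) i
  simpa using this

def mkG (a b : Matrix (Fin 4) (Fin 4) ℤ)
    (h : a * b = 1 ∧ b * a = 1 ∧ (∀ v ∈ SS, a *ᵥ v ∈ SS) ∧ ∀ v ∈ SS, b *ᵥ v ∈ SS) : GG :=
  ⟨⟨a, b, h.1, h.2.1⟩, h.2.2⟩

def σM : Matrix (Fin 4) (Fin 4) ℤ := !![0, 0, 0, -1; 1, 0, 0, -1; 0, 1, 0, -1; 0, 0, 1, -1]
def γM : Matrix (Fin 4) (Fin 4) ℤ := !![1, 0, -1, 0; 0, 0, -1, 1; 0, 1, -1, 0; 0, 0, -1, 0]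
def τM (i : Fin 4) : Matrix (Fin 4) (Fin 4) ℤ :=
  Matrix.of fun a b => if b = i then -1 else if a = b then 1 else 0

def σG : GG := mkG σM (σM * σM * σM * σM) (by decide +kernel)
def γG : GG := mkG γM (γM * γM * γM) (by decide +kernel)
def νG : GG := mkG (-1) (-1) (by decide +kernel)
def τG (i : Fin 4) : GG := mkG (τM i) (τM i) (by revert i; decide +kernel)

theorem σ_apply (v : Fin 4 → ℤ) : σM *ᵥ v = ![-v 3, v 0 - v 3, v 1 - v 3, v 2 - v 3] := by
  ext i; fin_cases i <;> simp [σM, mulVec, dotProduct, Fin.sum_univ_four] <;> ring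

theorem irred : Irred GG := by
  intro W hW
  by_contra hn
  push Not at hn
  obtain ⟨v, hv, hv0⟩ := (Submodule.ne_bot_iff W).1 hn.1
  obtain ⟨i, hi⟩ := Function.ne_iff.1 hv0
  let r : Fin 4 → Fin 4 → ℚ := fun i a => if a = i then 2 else 1
  have hτ : ∀ j (w : Fin 4 → ℚ), (τM j).map (Int.cast : ℤ → ℚ) *ᵥ w = w - w j • r j := by
    intro j w
    ext a
    fin_cases j <;> fin_cases a <;> simp [τM, r, mulVec, dotProduct, Fin.sum_univ_four] <;> ring
  have hτ' : ∀ j, ∀ w ∈ W, w j ≠ 0 → r j ∈ W := by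
    intro j w hw hj
    have h1 := hW (τG j).1 (τG j).2 w hw
    have h2 : (τM j).map (Int.cast : ℤ → ℚ) *ᵥ w ∈ W := h1
    rw [hτ] at h2
    have h3 := W.sub_mem hw h2
    rw [sub_sub_cancel] at h3
    exact (W.smul_mem_iff hj).1 h3
  have h1 := hτ' i v hv hi
  have h2 : ∀ j, r j ∈ W := fun j => hτ' j _ h1 (by
    simp only [r]; split_ifs <;> norm_num)
  apply hn.2
  rw [eq_top_iff]
  intro w _
  have : w = (w 0 - (w 0 + w 1 + w 2 + w 3) / 5) • r 0 + (w 1 - (w 0 + w 1 + w 2 + w 3) / 5) • r 1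
      + (w 2 - (w 0 + w 1 + w 2 + w 3) / 5) • r 2 + (w 3 - (w 0 + w 1 + w 2 + w 3) / 5) • r 3 := by
    ext a; fin_cases a <;> simp [r] <;> ring
  rw [this]
  exact W.add_mem (W.add_mem (W.add_mem (W.smul_mem _ (h2 0)) (W.smul_mem _ (h2 1)))
    (W.smul_mem _ (h2 2))) (W.smul_mem _ (h2 3))

theorem dec (x : Fin 4 → ℤ) : x = x 0 • ![1, 0, 0, 0] + x 1 • ![0, 1, 0, 0] + x 2 • ![0, 0, 1, 0]
    + x 3 • ![0, 0, 0, 1] := by
  ext a; fin_cases a <;> simp

theorem arith (B : Matrix (Fin 4) (Fin 4) ℤ) (hB : B *ᵥ ![1, 0, 0, 0] ∈ SS)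
    (hc : ∀ w, B *ᵥ (σM *ᵥ w) = σM *ᵥ (σM *ᵥ (B *ᵥ w))) (x : Fin 4 → ℤ) (hx : B *ᵥ x = x)
    (hs : (x 0 + x 1 + x 2 + x 3) % 5 = 2) (hd : ∀ k : ℤ, (∀ i, k ∣ x i) → k ∣ 1) : False := by
  have e1 := hc ![1, 0, 0, 0]
  have e2 := hc ![0, 1, 0, 0]
  have e3 := hc ![0, 0, 1, 0]
  have s1 : σM *ᵥ ![1, 0, 0, 0] = ![0, 1, 0, 0] := by decide +kernel
  have s2 : σM *ᵥ ![0, 1, 0, 0] = ![0, 0, 1, 0] := by decide +kernel
  have s3 : σM *ᵥ ![0, 0, 1, 0] = ![0, 0, 0, 1] := by decide +kernel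
  rw [s1] at e1
  rw [s2] at e2
  rw [s3] at e3
  have hx' := hx
  conv_lhs at hx' => rw [dec x]
  rw [mulVec_add, mulVec_add, mulVec_add, mulVec_smul, mulVec_smul, mulVec_smul, mulVec_smul,
    e3, e2, e1] at hx'
  have hd' : ∀ i, (x 0 = 0 ∨ x 0 = x i) ∧ (x 1 = 0 ∨ x 1 = x i) ∧ (x 2 = 0 ∨ x 2 = x i) ∧
      (x 3 = 0 ∨ x 3 = x i) → x i = 1 ∨ x i = -1 := by
    intro i h
    refine Int.isUnit_iff.1 (isUnit_of_dvd_one (hd _ fun j => ?_))
    have : x j = 0 ∨ x j = x i := by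
      fin_cases j
      exacts [h.1, h.2.1, h.2.2.1, h.2.2.2]
    rcases this with e | e <;> rw [e]
    exact dvd_zero _
  have d0 := hd' 0
  have d1 := hd' 1
  have d2 := hd' 2
  have d3 := hd' 3
  have c0 := congrFun hx' 0
  have c1 := congrFun hx' 1
  have c2 := congrFun hx' 2
  have c3 := congrFun hx' 3
  simp only [SS, Finset.mem_insert, Finset.mem_singleton] at hB
  rcases hB with h | h | h | h | h | h | h | h | h | h <;>
  · rw [h] at c0 c1 c2 c3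
    simp [σ_apply] at c0 c1 c2 c3
    omega

theorem no_aut (α : MulAut (Cryst GG)) :
    α (mk ![1, 0, 0, 0] σG) ≠ mk ((2 : ℤ) • ![1, 0, 0, 0]) σG := by
  intro h
  obtain ⟨A, c, d, hA, h1, h2, h3⟩ := aut_data α
  rw [h1, mk_inj] at h
  obtain ⟨h4, h5⟩ := h
  have hσ : ∀ t, σM *ᵥ A t = A (σM *ᵥ t) := fun t => by
    have := h2 σG t
    rw [h5] at this; exact this
  have hν : ∀ w, (d νG).1.1 *ᵥ w = -w := fun w => by
    obtain ⟨t, rfl⟩ := hA w
    rw [h2, ← map_neg]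
    show A ((-1 : Matrix (Fin 4) (Fin 4) ℤ) *ᵥ t) = _
    rw [neg_mulVec, one_mulVec]
  have h6 := h3 νG σG (Subtype.ext (Units.ext (by
    show (-1 : Matrix (Fin 4) (Fin 4) ℤ) * σM = σM * (-1)
    simp)))
  rw [hν, h5] at h6
  have h7 : c νG + -c σG = c σG + σM *ᵥ c νG := h6
  rw [σ_apply] at h7
  have hγ : ∀ t, (d γG).1.1 *ᵥ A t = A (γM *ᵥ t) := h2 γG
  refine arith (d γG).1.1 ((d γG).2.1 _ (by decide)) (fun w => ?_) (A ![1, 0, 0, 0]) ?_ ?_ ?_
  · obtain ⟨t, rfl⟩ := hA w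
    rw [hσ, hγ, hγ, hσ, hσ, mulVec_mulVec, mulVec_mulVec, mulVec_mulVec]
    congr 2
    decide +kernel
  · rw [hγ]; congr 1; decide +kernel
  · have a0 := congrFun h4 0
    have a1 := congrFun h4 1
    have a2 := congrFun h4 2
    have a3 := congrFun h4 3
    have b0 := congrFun h7 0
    have b1 := congrFun h7 1
    have b2 := congrFun h7 2
    have b3 := congrFun h7 3
    simp at a0 a1 a2 a3 b0 b1 b2 b3
    omega
  · intro k hk
    have step : ∀ w : Fin 4 → ℤ, (∀ i, k ∣ w i) → ∀ i, k ∣ (σM *ᵥ w) i := fun w hw i => by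
      rw [σ_apply]
      fin_cases i
      · exact (hw 3).neg_right
      · exact (hw 0).sub (hw 3)
      · exact (hw 1).sub (hw 3)
      · exact (hw 2).sub (hw 3)
    have s1 : σM *ᵥ ![1, 0, 0, 0] = ![0, 1, 0, 0] := by decide +kernel
    have s2 : σM *ᵥ ![0, 1, 0, 0] = ![0, 0, 1, 0] := by decide +kernel
    have s3 : σM *ᵥ ![0, 0, 1, 0] = ![0, 0, 0, 1] := by decide +kernel
    have k1 := step _ hk
    rw [hσ, s1] at k1
    have k2 := step _ k1
    rw [hσ, s2] at k2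
    have k3 := step _ k2
    rw [hσ, s3] at k3
    obtain ⟨y, hy⟩ := hA ![1, 0, 0, 0]
    rw [dec y, map_add, map_add, map_add, map_zsmul, map_zsmul, map_zsmul, map_zsmul] at hy
    have := congrFun hy 0
    simp only [Pi.add_apply, Pi.smul_apply, smul_eq_mul, cons_val_zero] at this
    rw [← this]
    exact ((((hk 0).mul_left _).add ((k1 0).mul_left _)).add ((k2 0).mul_left _)).add
      ((k3 0).mul_left _)

theorem not_homog : ¬ Homogeneous (Cryst GG) := by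
  intro h
  obtain ⟨α, hα⟩ := h 1 le_rfl (fun _ => mk ![1, 0, 0, 0] σG)
    (fun _ => mk ((2 : ℤ) • ![1, 0, 0, 0]) σG) fun φ =>
      same_type _ ![4, 3, 2, 1] σG (by
        show _ - σM *ᵥ _ = _
        decide +kernel) φ
  exact no_aut α (congrFun hα 0)

end Pool.Agent.H40.Crys
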