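import Pool.Agent.H40.Crys2

namespace Pool.Agent.H40.Crys

open Matrix Set

variable {n : ℕ} {G₀ : Subgroup (GL (Fin n) ℤ)}

def gR (g : G₀) : Matrix (Fin n) (Fin n) ℝ := g.1.1.map (Int.castRingHom ℝ)

theorem gR_one : gR (1 : G₀) = 1 := by simp [gR]

theorem gR_mul (g h : G₀) : gR (g * h) = gR g * gR h := Matrix.map_mul (f := Int.castRingHom ℝ)

def cst (t : Fin n → ℤ) : Fin n → ℝ := fun i => t i

theorem gR_cst (g : G₀) (t : Fin n → ℤ) : gR g *ᵥ cst t = cst (g.1.1 *ᵥ t) := by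
  ext i; simp [gR, cst, mulVec, dotProduct]

theorem cst_add (s t : Fin n → ℤ) : cst (s + t) = cst s + cst t := by ext i; simp [cst]

theorem cst_inj : Function.Injective (cst (n := n)) := fun s t h => by
  ext i; simpa [cst] using congrFun h i

theorem exists_M [Finite G₀] : ∃ M : (Fin n → ℝ) ≃ₗ[ℝ] EuclideanSpace ℝ (Fin n),
    ∀ (g : G₀) x, ‖M (gR g *ᵥ x)‖ = ‖M x‖ := by
  have := Fintype.ofFinite G₀
  let B : (Fin n → ℝ) →ₗ[ℝ] EuclideanSpace ℝ (G₀ × Fin n) :=
    { toFun := fun x => WithLp.toLp 2 fun p => (gR p.1 *ᵥ x) p.2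
      map_add' := fun x y => by ext p; simp [mulVec_add]
      map_smul' := fun c x => by ext p; simp [mulVec_smul] }
  have hB : Function.Injective B := fun x y h => by
    ext i
    have := congrArg (fun z : EuclideanSpace ℝ (G₀ × Fin n) => z (1, i)) h
    simpa [B, gR_one] using this
  let e := LinearEquiv.ofInjective B hB
  have hd : Module.finrank ℝ (LinearMap.range B) = n := by
    rw [← e.finrank_eq]; simp
  let b := (stdOrthonormalBasis ℝ (LinearMap.range B)).reindex (finCongr hd)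
  refine ⟨e.trans b.repr.toLinearEquiv, fun g x => ?_⟩
  have h1 : ∀ y, ‖(e.trans b.repr.toLinearEquiv) y‖ = ‖B y‖ := fun y => by
    show ‖b.repr (e y)‖ = _
    rw [LinearIsometryEquiv.norm_map]; rfl
  rw [h1, h1, EuclideanSpace.norm_eq, EuclideanSpace.norm_eq]
  congr 1
  refine Fintype.sum_equiv (Equiv.prodCongr (Equiv.mulRight g) (Equiv.refl _)) _ _ fun p => ?_
  simp [B, gR_mul, mulVec_mulVec]

theorem realize [Finite G₀] : ∃ ι : Cryst G₀ →* Isom n, Function.Injective ι ∧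
    Crystallographic ι.range ∧ ∀ x, IsTranslation (ι x) ↔ x.right = 1 := by
  obtain ⟨M, hM⟩ := exists_M (G₀ := G₀)
  let f : Cryst G₀ → EuclideanSpace ℝ (Fin n) → EuclideanSpace ℝ (Fin n) := fun x y =>
    M (cst x.left.toAdd + gR x.right *ᵥ M.symm y)
  have hf : ∀ t g y, f (mk t g) y = M (cst t + gR g *ᵥ M.symm y) := fun _ _ _ => rfl
  have h0 : cst (0 : Fin n → ℤ) = 0 := by ext i; simp [cst]
  have f1 : ∀ y, f 1 y = y := fun y => by rw [mk_one, hf, gR_one, h0]; simp
  have fm : ∀ a b y, f (a * b) y = f a (f b y) := fun a b y => by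
    obtain ⟨s, g, rfl⟩ := mk_surj a
    obtain ⟨t, h, rfl⟩ := mk_surj b
    rw [mk_mul, hf, hf, hf, LinearEquiv.symm_apply_apply, mulVec_add, gR_cst, cst_add, gR_mul,
      mulVec_mulVec, add_assoc]
  have fi : ∀ a, Isometry (f a) := fun a => Isometry.of_dist_eq fun y z => by
    obtain ⟨s, g, rfl⟩ := mk_surj a
    rw [hf, hf, dist_eq_norm, dist_eq_norm, ← map_sub, add_sub_add_left_eq_sub, ← mulVec_sub, hM,
      map_sub, LinearEquiv.apply_symm_apply, LinearEquiv.apply_symm_apply]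
  let ι : Cryst G₀ →* Isom n :=
    { toFun := fun a => ⟨⟨f a, f a⁻¹, fun y => by rw [← fm, inv_mul_cancel, f1],
        fun y => by rw [← fm, mul_inv_cancel, f1]⟩, fi a⟩
      map_one' := IsometryEquiv.ext f1
      map_mul' := fun a b => IsometryEquiv.ext (fm a b) }
  have hι : ∀ t g y, ι (mk t g) y = M (cst t + gR g *ᵥ M.symm y) := fun _ _ _ => rfl
  have tr : ∀ x, IsTranslation (ι x) ↔ x.right = 1 := by
    intro x
    obtain ⟨t, g, rfl⟩ := mk_surj x
    constructor
    · rintro ⟨a, ha⟩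
      refine eq_one_of_fix g fun s => cst_inj ?_
      have h1 := ha 0
      have h2 := ha (M (cst s))
      rw [hι] at h1 h2
      simp only [map_zero, mulVec_zero, add_zero, zero_add] at h1
      rw [← h1, ← map_add, LinearEquiv.symm_apply_apply, gR_cst, add_comm] at h2
      exact add_right_cancel (M.injective h2)
    · intro h
      have : g = 1 := h
      subst this
      exact ⟨M (cst t), fun y => by rw [hι, gR_one]; simp [add_comm]⟩
  have Mc : Continuous M := M.toLinearMap.continuous_of_finiteDimensional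
  have Mc' : Continuous M.symm := M.symm.toLinearMap.continuous_of_finiteDimensional
  refine ⟨ι, (injective_iff_map_eq_one ι).2 fun x hx => ?_, ⟨fun K hK => ?_, ?_⟩, tr⟩
  · have h1 := (tr x).1 ⟨0, fun y => by rw [hx]; simp⟩
    obtain ⟨t, g, rfl⟩ := mk_surj x
    have : g = 1 := h1
    subst this
    have h2 := hι t 1 0
    rw [hx] at h2
    simp only [map_zero, mulVec_zero, add_zero, IsometryEquiv.coe_one, id] at h2
    have h3 : cst t = cst 0 := by rw [h0]; exact (M.map_eq_zero_iff).1 h2.symm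
    rw [cst_inj h3]; rfl
  · obtain ⟨R, hR⟩ := hK.isBounded.exists_norm_le
    obtain ⟨C, hC⟩ := ((isCompact_closedBall (0 : EuclideanSpace ℝ (Fin n)) (R + R)).image
      Mc').isBounded.exists_norm_le
    have hfin : (Set.pi univ fun _ : Fin n => Icc (-⌈C⌉) ⌈C⌉).Finite :=
      Finite.pi fun _ => finite_Icc _ _
    refine ((hfin.prod (finite_univ (α := G₀))).image fun p => ι (mk p.1 p.2)).subset ?_
    rintro _ ⟨⟨x, rfl⟩, _, ⟨y, hy, rfl⟩, hy'⟩
    obtain ⟨t, g, rfl⟩ := mk_surj x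
    refine ⟨(t, g), ⟨fun i _ => ?_, trivial⟩, rfl⟩
    have h1 : M (cst t) = ι (mk t g) y - M (gR g *ᵥ M.symm y) := by rw [hι, map_add]; abel
    have h2 : ‖M (cst t)‖ ≤ R + R := by
      rw [h1]
      refine (norm_sub_le _ _).trans (add_le_add (hR _ hy') ?_)
      rw [hM, LinearEquiv.apply_symm_apply]; exact hR _ hy
    have h3 := hC (cst t) ⟨M (cst t), by simpa using h2, M.symm_apply_apply _⟩
    have h4 : |(t i : ℝ)| ≤ ⌈C⌉ := ((norm_le_pi_norm (cst t) i).trans h3).trans (Int.le_ceil C)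
    have h5 : |t i| ≤ ⌈C⌉ := by exact_mod_cast h4
    exact abs_le.1 h5
  · refine ⟨M '' Set.pi univ fun _ => Icc 0 1,
      (isCompact_univ_pi fun _ => isCompact_Icc).image Mc, fun y => ?_⟩
    refine ⟨ι (mk (fun i => ⌊M.symm y i⌋) 1), ⟨_, rfl⟩, M fun i => Int.fract (M.symm y i),
      ⟨_, fun i _ => ⟨Int.fract_nonneg _, (Int.fract_lt_one _).le⟩, rfl⟩, ?_⟩
    rw [hι, gR_one, one_mulVec, LinearEquiv.symm_apply_apply, ← LinearEquiv.eq_symm_apply]
    ext i; simp [cst]

theorem counter : ∃ (n : ℕ) (G₀ : Subgroup (GL (Fin n) ℤ)) (ι : Cryst G₀ →* Isom n),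
    1 ≤ n ∧ Finite G₀ ∧ Function.Injective ι ∧ Crystallographic ι.range ∧
      (∀ x, IsTranslation (ι x) ↔ x.right = 1) ∧ Irred G₀ ∧ ¬ Homogeneous (Cryst G₀) := by
  obtain ⟨ι, h1, h2, h3⟩ := realize (G₀ := GG)
  exact ⟨4, GG, ι, by norm_num, inferInstance, h1, h2, h3, irred, not_homog⟩

end Pool.Agent.H40.Crys
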