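import Mathlib

/-! Split crystallographic groups and homogeneity in the language of groups. -/

namespace Pool.Agent.H40.Crys

open Matrix

/-- Function symbols of the language of groups. -/
inductive GF : ℕ → Type
  | one : GF 0
  | inv : GF 1
  | mul : GF 2

/-- The first-order language of groups. -/
def grpLang : FirstOrder.Language.{0, 0} := ⟨GF, fun _ => Empty⟩

/-- A group as a structure for the language of groups. -/
@[reducible] def grpStr (G : Type) [Group G] : grpLang.Structure G where
  funMap := fun {_} f => match f with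
    | GF.one => fun _ => 1
    | GF.inv => fun x => (x 0)⁻¹
    | GF.mul => fun x => x 0 * x 1
  RelMap := fun r _ => Empty.elim r

/-- Tuples with the same first-order type are related by an automorphism. -/
def Homogeneous (G : Type) [Group G] : Prop :=
  ∀ k : ℕ, 1 ≤ k → ∀ u v : Fin k → G,
    (∀ φ : grpLang.Formula (Fin k), @FirstOrder.Language.Formula.Realize _ G (grpStr G) _ φ u ↔
      @FirstOrder.Language.Formula.Realize _ G (grpStr G) _ φ v) →
    ∃ σ : MulAut G, σ ∘ u = v

variable {n : ℕ}

/-- The action of a group of integer matrices on the lattice `ℤ^n`. -/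
def act (G₀ : Subgroup (GL (Fin n) ℤ)) : G₀ →* MulAut (Multiplicative (Fin n → ℤ)) where
  toFun g :=
    { toFun := fun t => Multiplicative.ofAdd (g.1.1 *ᵥ t.toAdd)
      invFun := fun t => Multiplicative.ofAdd ((g.1⁻¹).1 *ᵥ t.toAdd)
      left_inv := fun t => by simp [mulVec_mulVec]
      right_inv := fun t => by simp [mulVec_mulVec]
      map_mul' := fun s t => by simp [mulVec_add] }
  map_one' := by ext t; simp
  map_mul' g h := by ext t; simp [mulVec_mulVec]

/-- The split extension `ℤ^n ⋊ G₀`. -/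
abbrev Cryst (G₀ : Subgroup (GL (Fin n) ℤ)) : Type :=
  SemidirectProduct (Multiplicative (Fin n → ℤ)) G₀ (act G₀)

/-- The only invariant subspaces of `ℚ^n` are zero and everything. -/
def Irred (G₀ : Subgroup (GL (Fin n) ℤ)) : Prop :=
  ∀ W : Submodule ℚ (Fin n → ℚ),
    (∀ g ∈ G₀, ∀ w ∈ W, (g.1.map (Int.cast : ℤ → ℚ)) *ᵥ w ∈ W) → W = ⊥ ∨ W = ⊤

/-- Isometries of Euclidean `n`-space. -/
abbrev Isom (n : ℕ) : Type := EuclideanSpace ℝ (Fin n) ≃ᵢ EuclideanSpace ℝ (Fin n)

/-- Discrete (acting properly discontinuously) and cocompact groups of isometries. -/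
def Crystallographic (Γ : Subgroup (Isom n)) : Prop :=
  (∀ K : Set (EuclideanSpace ℝ (Fin n)), IsCompact K →
    {γ : Isom n | γ ∈ Γ ∧ (γ '' K ∩ K).Nonempty}.Finite) ∧
  ∃ K : Set (EuclideanSpace ℝ (Fin n)), IsCompact K ∧ ∀ y, ∃ γ ∈ Γ, y ∈ γ '' K

/-- Translations. -/
def IsTranslation (γ : Isom n) : Prop := ∃ a, ∀ y, γ y = y + a

end Pool.Agent.H40.Crys
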