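import Pool.Agent.H40.GenDefs

set_option autoImplicit false

namespace Pool.Agent.H40.Gen

open Bsig (cons)

variable (M : Mod)

/-- The axioms for non-negative parts of discretely ordered commutative rings, together with the
recursion equations of exponentiation. -/
def PAm : Prop :=
  (∀ x y z, M.add (M.add x y) z = M.add x (M.add y z)) ∧ (∀ x y, M.add x y = M.add y x) ∧
  (∀ x y z, M.mul (M.mul x y) z = M.mul x (M.mul y z)) ∧ (∀ x y, M.mul x y = M.mul y x) ∧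
  (∀ x y z, M.mul x (M.add y z) = M.add (M.mul x y) (M.mul x z)) ∧
  (∀ x, M.add x M.zero = x) ∧ (∀ x, M.mul x M.zero = M.zero) ∧ (∀ x, M.mul x M.one = x) ∧
  (∀ x y z, M.lt x y → M.lt y z → M.lt x z) ∧ (∀ x, ¬ M.lt x x) ∧
  (∀ x y, M.lt x y ∨ x = y ∨ M.lt y x) ∧ (∀ x y z, M.lt x y → M.lt (M.add x z) (M.add y z)) ∧
  (∀ x y z, M.lt M.zero z → M.lt x y → M.lt (M.mul x z) (M.mul y z)) ∧
  (∀ x y, M.lt x y → ∃ z, M.add x z = y) ∧ M.lt M.zero M.one ∧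
  (∀ x, M.lt M.zero x → x = M.one ∨ M.lt M.one x) ∧ (∀ x, x = M.zero ∨ M.lt M.zero x) ∧
  (∀ x, M.pow x M.zero = M.one) ∧ ∀ x y, M.pow x (M.add y M.one) = M.mul (M.pow x y) x

/-- Ackermann coding: the `x`-th binary digit of `a` is `1`, that is
`a = (2 q + 1) 2 ^ x + r` with `r < 2 ^ x`. -/
def Mem (x a : M.N) : Prop := ∃ q r, M.lt r (M.pow (M.add M.one M.one) x) ∧
  a = M.add (M.mul (M.add (M.add q q) M.one) (M.pow (M.add M.one M.one) x)) r

/-- The `M`-finite set coded by `a` is a subset of `A`. -/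
def Sub (a : M.N) (A : Set M.N) : Prop := ∀ x, Mem M x a → x ∈ A

/-- Turing reducibility, in the form with pairs `x ⊆ A`, `y ∩ A = ∅`. -/
def Red (A B : Set M.N) : Prop := ∃ φ w, Lv 1 true φ ∧ ∀ x y, (Sub M x A ∧ Sub M y Aᶜ) ↔
  ∃ u v, Sub M u B ∧ Sub M v Bᶜ ∧ Sat M φ (cons x (cons y (cons u (cons v w))))

/-- Turing reducibility, in the form with quadruples `⟨K, i, σ, τ⟩`. -/
def RedK (A B : Set M.N) : Prop := ∃ φ w, Lv 1 true φ ∧ ∀ K,
  (Sub M K A ↔ ∃ u v, Sub M u B ∧ Sub M v Bᶜ ∧ Sat M φ (cons K (cons M.one (cons u (cons v w))))) ∧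
  (Sub M K Aᶜ ↔ ∃ u v, Sub M u B ∧ Sub M v Bᶜ ∧ Sat M φ (cons K (cons M.zero (cons u (cons v w)))))

end Pool.Agent.H40.Gen
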