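import Pool.Agent.H40.Gen1
import Pool.Agent.H40.TdDefs

set_option autoImplicit false

namespace Pool.Agent.H40.Gen.Cs

open Filter
open Bsig (cons cons_congr dec dec_pair dec_le pr_dec)

def W2 (φ : Fm) (a x z : ℕ) : Prop :=
  ∃ y < z, ∃ w ≤ z, Sat std φ (cons w (cons y (cons x (dec a))))

def Rel : ℕ → Fm → ℕ → ℕ → Prop
  | 0, φ, a, x => Sat std φ (cons x (dec a))
  | 1, φ, a, x => x < a.unpair.2 ∧ ∀ x' < a.unpair.2,
      sInf {y | W2 φ a.unpair.1 x' y} ≤ sInf {y | W2 φ a.unpair.1 x y}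
  | _, φ, a, x => ∃ w ≤ a.unpair.2, Sat std φ (cons w (cons x (dec a.unpair.1)))

def EE (z : ℕ) : ℕ := (z + 2) ^ (z + 2)

theorem sq_EE (z : ℕ) : (z + 2) ^ 2 ≤ EE z := Nat.pow_le_pow_right (by omega) (by omega)

theorem EE_mono : Monotone EE := fun a b e =>
  (Nat.pow_le_pow_left (by omega) _).trans (Nat.pow_le_pow_right (by omega) (by omega))

theorem lt_EE (z : ℕ) : z < EE z := lt_of_lt_of_le (by nlinarith) (sq_EE z)

structure Sys where
  U : Ultrafilter ℕ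
  C : Set (ℕ → ℕ)
  be : ℕ → ℕ → ℕ
  hc : ∀ c, (fun _ => c) ∈ C
  hp : ∀ f ∈ C, ∀ g ∈ C, (fun m => Nat.pair (f m) (g m)) ∈ C
  ho : ∀ n φ, ∀ f ∈ C, (fun m => sInf {x | Rel n φ (f m) x}) ∈ C
  hb : ∀ n, be n ∈ C
  step : ∀ n, ∀ᶠ m in U, EE (be n m) ≤ be (n + 1) m

variable {p : Sys}

theorem ae_not {P : ℕ → Prop} : (∀ᶠ m in p.U, ¬ P m) ↔ ¬ ∀ᶠ m in p.U, P m := Ultrafilter.eventually_not
theorem ae_or {P Q : ℕ → Prop} : (∀ᶠ m in p.U, P m ∨ Q m) ↔ (∀ᶠ m in p.U, P m) ∨ ∀ᶠ m in p.U, Q m :=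
  Ultrafilter.eventually_or
theorem rfl_ae {f : ℕ → ℕ} : ∀ᶠ m in p.U, f m = f m := Eventually.of_forall fun _ => rfl

theorem in_rel {Q : ℕ → ℕ → Prop} (h : PrimrecRel Q) {f : ℕ → ℕ} (hf : f ∈ p.C) :
    (fun m => sInf {x | Q (f m) x}) ∈ p.C := by
  obtain ⟨R, h1, h2⟩ := s1_five (P := fun x a _ _ _ => Q a x) (h.comp (pr_dec .id 1) (pr_dec .id 0))
    0 1 0 0 0
  obtain ⟨θ, -, h3⟩ := h1 id
  have := p.ho 0 θ.ex _ (p.hp f hf _ (p.hc 0))
  simp only [Rel, dec_pair] at this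
  refine (congrArg (· ∈ p.C) (funext fun m => congrArg sInf (Set.ext fun x => ?_))).mp this
  exact (exists_congr fun w => h3 _).trans (h2 (cons x (cons (f m) (dec 0)))).symm

theorem in_pr {F : ℕ → ℕ → ℕ} (hF : Primrec₂ F) {f g : ℕ → ℕ} (hf : f ∈ p.C) (hg : g ∈ p.C) :
    (fun m => F (f m) (g m)) ∈ p.C := by
  simpa using in_rel (Q := fun a x => x = F a.unpair.1 a.unpair.2)
    (Primrec.eq.comp .snd (hF.comp (Bsig.pr_l .fst) (Bsig.pr_r .fst))).primrecRel (p.hp f hf g hg)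

variable (p) in
def Bo (f : ℕ → ℕ) : Prop := ∃ n, ∀ᶠ m in p.U, f m ≤ p.be n m

theorem Bo.mono {f g : ℕ → ℕ} (h : Bo p g) (e : ∀ᶠ m in p.U, f m ≤ g m) : Bo p f :=
  h.imp fun _ h => (h.and e).mono fun _ e => e.2.trans e.1

theorem bo_be (n : ℕ) : Bo p (p.be n) := ⟨n, Eventually.of_forall fun _ => le_rfl⟩

theorem be_mono {n n' : ℕ} (h : n ≤ n') : ∀ᶠ m in p.U, p.be n m ≤ p.be n' m := by
  induction h with
  | refl => exact Eventually.of_forall fun _ => le_rfl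
  | step _ ih => exact (ih.and (p.step _)).mono fun m e => e.1.trans ((lt_EE _).le.trans e.2)

theorem bo_cst (c : ℕ) : Bo p fun _ => c := ⟨c, by
  induction c with
  | zero => exact Eventually.of_forall fun _ => Nat.zero_le _
  | succ c ih => exact (ih.and (p.step _)).mono fun m e => (e.1.trans_lt (lt_EE _)).trans_le e.2⟩

theorem Bo.two {f g k : ℕ → ℕ} (h : Bo p f) (h' : Bo p g)
    (e : ∀ m z, f m ≤ z → g m ≤ z → k m ≤ EE z) : Bo p k :=
  h.elim fun j h => h'.elim fun i h' => ⟨max j i + 1, by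
    filter_upwards [h, h', be_mono (le_max_left j i), be_mono (le_max_right j i), p.step (max j i)]
      with m a b c d k
    exact (e m _ (a.trans c) (b.trans d)).trans k⟩

theorem Bo.add {f g : ℕ → ℕ} (h : Bo p f) (h' : Bo p g) : Bo p fun m => f m + g m :=
  h.two h' fun m z a b => le_trans (by nlinarith) (sq_EE z)

theorem Bo.pair {f g : ℕ → ℕ} (h : Bo p f) (h' : Bo p g) : Bo p fun m => Nat.pair (f m) (g m) :=
  h.two h' fun m z a b => (Nat.pair_lt_max_add_one_sq _ _).le.trans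
    ((Nat.pow_le_pow_left (by omega) 2).trans (sq_EE z))

variable (p) in
def Bd (f : ℕ → ℕ) : Prop := f ∈ p.C ∧ Bo p f

theorem pr_pow2 : Primrec₂ fun a b : ℕ => a ^ b := Primrec₂.unpaired'.1 Nat.Primrec.pow

theorem bd_cst (c : ℕ) : Bd p fun _ => c := ⟨p.hc c, bo_cst c⟩
theorem Bd.add {f g : ℕ → ℕ} (h : Bd p f) (h' : Bd p g) : Bd p fun m => f m + g m :=
  ⟨in_pr Primrec.nat_add h.1 h'.1, h.2.add h'.2⟩
theorem Bd.mul {f g : ℕ → ℕ} (h : Bd p f) (h' : Bd p g) : Bd p fun m => f m * g m :=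
  ⟨in_pr Primrec.nat_mul h.1 h'.1, h.2.two h'.2 fun m z a b => le_trans (by nlinarith) (sq_EE z)⟩
theorem Bd.pow {f g : ℕ → ℕ} (h : Bd p f) (h' : Bd p g) : Bd p fun m => f m ^ g m :=
  ⟨in_pr pr_pow2 h.1 h'.1, h.2.two h'.2 fun m z a b =>
    (Nat.pow_le_pow_left (by omega) _).trans (Nat.pow_le_pow_right (by omega) (by omega))⟩
theorem Bd.pair {f g : ℕ → ℕ} (h : Bd p f) (h' : Bd p g) : Bd p fun m => Nat.pair (f m) (g m) :=
  ⟨p.hp _ h.1 _ h'.1, h.2.pair h'.2⟩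
theorem Bd.l {f : ℕ → ℕ} (h : Bd p f) : Bd p fun m => (f m).unpair.1 :=
  ⟨in_pr (F := fun a _ => a.unpair.1) (Bsig.pr_l .fst) h.1 h.1,
    h.2.mono (Eventually.of_forall fun _ => Nat.unpair_left_le _)⟩
theorem Bd.r {f : ℕ → ℕ} (h : Bd p f) : Bd p fun m => (f m).unpair.2 :=
  ⟨in_pr (F := fun a _ => a.unpair.2) (Bsig.pr_r .fst) h.1 h.1,
    h.2.mono (Eventually.of_forall fun _ => Nat.unpair_right_le _)⟩
theorem bd_be (n : ℕ) : Bd p (p.be n) := ⟨p.hb n, bo_be n⟩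

variable (p) in
def sto : Setoid {f // Bd p f} where
  r f g := ∀ᶠ m in p.U, f.1 m = g.1 m
  iseqv := ⟨fun _ => Eventually.of_forall fun _ => rfl, fun h => h.mono fun _ => Eq.symm,
    fun h h' => by filter_upwards [h, h'] with x a b using a.trans b⟩

variable (p) in
def I : Type := Quotient (sto p)

noncomputable def rep (x : I p) : ℕ → ℕ := (Quotient.out x).1
theorem bd_rep (x : I p) : Bd p (rep x) := (Quotient.out x).2
def mkI (f : ℕ → ℕ) (h : Bd p f) : I p := Quotient.mk (sto p) ⟨f, h⟩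
theorem rep_mk (f : ℕ → ℕ) (h : Bd p f) : ∀ᶠ m in p.U, rep (mkI f h) m = f m :=
  Quotient.mk_out (s := sto p) ⟨f, h⟩
theorem ext_iff (x y : I p) : x = y ↔ ∀ᶠ m in p.U, rep x m = rep y m :=
  (Quotient.out_equiv_out (s := sto p)).symm
theorem ex_rep {f : ℕ → ℕ} (h : Bd p f) : ∃ x : I p, ∀ᶠ m in p.U, rep x m = f m := ⟨_, rep_mk f h⟩

theorem ex_min {P : ℕ → ℕ → Prop} (h : (fun m => sInf {x | P m x}) ∈ p.C) {b : ℕ → ℕ} (hb : Bo p b)
    (e : ∀ᶠ m in p.U, ∃ x ≤ b m, P m x) :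
    ∃ x : I p, ∀ᶠ m in p.U, P m (rep x m) ∧ ∀ y, P m y → rep x m ≤ y := by
  obtain ⟨x, hx⟩ := ex_rep ⟨h, hb.mono (e.mono fun m ⟨x, a, b⟩ => (Nat.sInf_le b).trans a)⟩
  exact ⟨x, (hx.and e).mono fun m ⟨a, x, _, b⟩ =>
    a ▸ ⟨Nat.sInf_mem (s := {x | P m x}) ⟨x, b⟩, fun _ => Nat.sInf_le⟩⟩

variable (p) in
noncomputable abbrev M : Mod where
  N := I p
  zero := mkI _ (bd_cst 0)
  one := mkI _ (bd_cst 1)
  add x y := mkI _ ((bd_rep x).add (bd_rep y))
  mul x y := mkI _ ((bd_rep x).mul (bd_rep y))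
  pow x y := mkI _ ((bd_rep x).pow (bd_rep y))
  lt x y := ∀ᶠ m in p.U, rep x m < rep y m

theorem los_tm (t : Tm) (v : ℕ → I p) (u : ℕ → ℕ → ℕ) (h : ∀ i, ∀ᶠ m in p.U, rep (v i) m = u m i) :
    ∀ᶠ m in p.U, rep (t.ev (M p) v) m = t.ev std (u m) := by
  induction t with
  | var i => exact h i
  | zero => exact rep_mk _ _
  | one => exact rep_mk _ _
  | add s t a b =>
    filter_upwards [a, b, rep_mk _ ((bd_rep (s.ev (M p) v)).add (bd_rep (t.ev (M p) v)))] with m a b c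
    exact c.trans (congrArg₂ _ a b)
  | mul s t a b =>
    filter_upwards [a, b, rep_mk _ ((bd_rep (s.ev (M p) v)).mul (bd_rep (t.ev (M p) v)))] with m a b c
    exact c.trans (congrArg₂ _ a b)
  | pow s t a b =>
    filter_upwards [a, b, rep_mk _ ((bd_rep (s.ev (M p) v)).pow (bd_rep (t.ev (M p) v)))] with m a b c
    exact c.trans (congrArg₂ _ a b)

theorem cons_ae {v : ℕ → I p} {u : ℕ → ℕ → ℕ} (h : ∀ i, ∀ᶠ m in p.U, rep (v i) m = u m i)
    {x : I p} {f : ℕ → ℕ} (hx : ∀ᶠ m in p.U, rep x m = f m) :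
    ∀ i, ∀ᶠ m in p.U, rep (cons x v i) m = cons (f m) (u m) i
  | 0 => hx
  | i + 1 => h i

theorem code (v : ℕ → I p) (n : ℕ) : ∃ d, Bd p d ∧ ∀ᶠ m in p.U, ∀ i < n, dec (d m) i = rep (v i) m := by
  induction n generalizing v with
  | zero => exact ⟨_, bd_cst 0, by simp⟩
  | succ n ih =>
    obtain ⟨d, h1, h2⟩ := ih fun i => v (i + 1)
    refine ⟨_, (bd_rep (v 0)).pair h1, h2.mono fun m e => ?_⟩
    rw [dec_pair]
    rintro (_ | i) hi
    exacts [rfl, e i (by omega)]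

theorem wit (φ : Fm) {v : ℕ → I p} {u : ℕ → ℕ → ℕ} (h : ∀ i, ∀ᶠ m in p.U, rep (v i) m = u m i)
    {b : ℕ → ℕ} (hb : Bo p b) (e : ∀ᶠ m in p.U, ∃ x ≤ b m, Sat std φ (cons x (u m))) :
    ∃ x : I p, ∀ᶠ m in p.U,
      Sat std φ (cons (rep x m) (u m)) ∧ ∀ y, Sat std φ (cons y (u m)) → rep x m ≤ y := by
  obtain ⟨d, h1, h2⟩ := code v φ.sup
  have h3 : ∀ᶠ m in p.U, ∀ x, Sat std φ (cons x (dec (d m))) ↔ Sat std φ (cons x (u m)) :=
    (h2.and ((eventually_all_finite (Set.finite_Iio φ.sup)).2 fun i _ => h i)).mono fun m e x =>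
      sat_congr φ (cons_congr (fun i hi => (e.1 i hi).trans (e.2 i hi)) x)
  obtain ⟨x, hx⟩ := ex_min (p.ho 0 φ _ h1.1) hb ((e.and h3).mono fun m e => e.1.imp fun x a =>
    ⟨a.1, (e.2 x).2 a.2⟩)
  exact ⟨x, (hx.and h3).mono fun m e => ⟨(e.2 _).1 e.1.1, fun y a => e.1.2 y ((e.2 y).2 a)⟩⟩

theorem los {θ : Fm} (hθ : Bdd θ) : ∀ (v : ℕ → I p) (u : ℕ → ℕ → ℕ),
    (∀ i, ∀ᶠ m in p.U, rep (v i) m = u m i) → (Sat (M p) θ v ↔ ∀ᶠ m in p.U, Sat std θ (u m)) := by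
  induction hθ with
  | eq s t =>
    exact fun v u h => (ext_iff _ _).trans (eventually_congr
      (((los_tm s v u h).and (los_tm t v u h)).mono fun m e => by rw [e.1, e.2]; rfl))
  | lt s t =>
    exact fun v u h => eventually_congr
      (((los_tm s v u h).and (los_tm t v u h)).mono fun m e => by rw [e.1, e.2]; rfl)
  | neg _ ih => exact fun v u h => (not_congr (ih v u h)).trans ae_not.symm
  | and _ _ a b => exact fun v u h => (and_congr (a v u h) (b v u h)).trans eventually_and.symm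
  | @ball t φ _ ih =>
    intro v u h
    have k := los_tm t v u h
    have ih := fun x => ih (cons x v) (fun m => cons (rep x m) (u m)) (cons_ae h rfl_ae)
    refine ⟨fun e => by_contra fun hc => ?_, fun e x hx => (ih x).2 ((e.and (hx.and k)).mono
      fun m a => a.1 _ (a.2.2 ▸ a.2.1))⟩
    have h1 : ∀ᶠ m in p.U, ∃ x < rep (t.ev (M p) v) m, Sat std φ.neg (cons x (u m)) :=
      ((ae_not.2 hc).and k).mono fun m a => by simpa [Sat, a.2] using a.1
    obtain ⟨x, hx⟩ := wit φ.neg h (bd_rep _).2 (h1.mono fun m => Exists.imp fun _ a => ⟨a.1.le, a.2⟩)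
    exact (((ih x).1 (e x ((hx.and h1).mono fun m ⟨a, y, b, c⟩ => (a.2 y c).trans_lt b))).and
      hx).exists.elim fun m a => a.2.1 a.1

theorem absl0 {P : (ℕ → ℕ) → Prop} (h : B0 P) : ∃ θ, Bdd θ ∧
    ∀ v, Sat (M p) θ v ↔ ∀ᶠ m in p.U, P fun i => rep (v i) m :=
  (h id).imp fun _ h => ⟨h.1, fun v => (los h.1 v _ fun _ => rfl_ae).trans
    (eventually_congr (Eventually.of_forall fun _ => h.2 _))⟩

theorem add_ae (x y : I p) : ∀ᶠ m in p.U, rep ((M p).add x y) m = rep x m + rep y m := rep_mk _ _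
theorem mul_ae (x y : I p) : ∀ᶠ m in p.U, rep ((M p).mul x y) m = rep x m * rep y m := rep_mk _ _
theorem zero_ae : ∀ᶠ m in p.U, rep (M p).zero m = 0 := rep_mk _ _
theorem one_ae : ∀ᶠ m in p.U, rep (M p).one m = 1 := rep_mk _ _

theorem succ_ae (x : I p) : ∀ᶠ m in p.U, rep ((M p).add x (M p).one) m = rep x m + 1 :=
  ((add_ae x _).and one_ae).mono fun _ e => e.2 ▸ e.1

theorem pam : PAm (M p) := by
  have key : ∀ s t : Tm, (∀ u, s.ev std u = t.ev std u) → ∀ x y z : I p,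
      s.ev (M p) (cons x (cons y fun _ => z)) = t.ev (M p) (cons x (cons y fun _ => z)) :=
    fun s t h x y z => (los (.eq s t) _ _ fun _ => rfl_ae).2 (Eventually.of_forall fun _ => h _)
  refine ⟨key (.add (.add (.var 0) (.var 1)) (.var 2)) (.add (.var 0) (.add (.var 1) (.var 2)))
      fun _ => add_assoc _ _ _,
    fun x y => key (.add (.var 0) (.var 1)) (.add (.var 1) (.var 0)) (fun _ => add_comm _ _) x y y,
    key (.mul (.mul (.var 0) (.var 1)) (.var 2)) (.mul (.var 0) (.mul (.var 1) (.var 2)))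
      fun _ => mul_assoc _ _ _,
    fun x y => key (.mul (.var 0) (.var 1)) (.mul (.var 1) (.var 0)) (fun _ => mul_comm _ _) x y y,
    key (.mul (.var 0) (.add (.var 1) (.var 2))) (.add (.mul (.var 0) (.var 1)) (.mul (.var 0) (.var 2)))
      fun _ => mul_add _ _ _,
    fun x => key (.add (.var 0) .zero) (.var 0) (fun _ => rfl) x x x,
    fun x => key (.mul (.var 0) .zero) .zero (fun _ => rfl) x x x,
    fun x => key (.mul (.var 0) .one) (.var 0) (fun _ => mul_one _) x x x,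
    fun x y z a b => (a.and b).mono fun _ e => e.1.trans e.2,
    fun x a => a.exists.elim fun _ => lt_irrefl _, fun x y => ?_, fun x y z a => ?_, fun x y z a b => ?_,
    fun x y a => ?_, (zero_ae.and one_ae).mono fun _ e => by omega, fun x a => ?_, fun x => ?_,
    fun x => key (.pow (.var 0) .zero) .one (fun _ => rfl) x x x,
    fun x y => key (.pow (.var 0) (.add (.var 1) .one)) (.mul (.pow (.var 0) (.var 1)) (.var 0))
      (fun _ => rfl) x y y⟩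
  · rw [ext_iff, ← ae_or, ← ae_or]
    exact Eventually.of_forall fun _ => lt_trichotomy _ _
  · filter_upwards [a, add_ae x z, add_ae y z] with m a b c
    omega
  · filter_upwards [a, b, mul_ae x z, mul_ae y z, zero_ae] with m a b c d e
    rw [c, d]
    exact Nat.mul_lt_mul_of_pos_right b (e ▸ a)
  · obtain ⟨z, hz⟩ := ex_rep (f := fun m => rep y m - rep x m) ⟨in_pr Primrec.nat_sub (bd_rep y).1
      (bd_rep x).1, (bd_rep y).2.mono (Eventually.of_forall fun _ => Nat.sub_le _ _)⟩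
    refine ⟨z, (ext_iff _ _).2 ?_⟩
    filter_upwards [a, hz, add_ae x z] with m a b c
    omega
  · rw [ext_iff, ← ae_or]
    filter_upwards [a, zero_ae, one_ae] with m a b c
    omega
  · rw [ext_iff, ← ae_or]
    filter_upwards [zero_ae] with m a
    omega

variable (p) in
def LW (P : ℕ → ℕ → Prop) : Prop := ∀ b, Bo p b → (∀ᶠ m in p.U, ∃ x ≤ b m, P m x) →
  ∃ x : I p, ∀ᶠ m in p.U, P m (rep x m) ∧ ∀ y, P m y → rep x m ≤ y

theorem pred (y : I p) : ∃ x : I p, ∀ᶠ m in p.U, rep x m = rep y m - 1 :=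
  ex_rep ⟨in_pr Primrec.nat_sub (bd_rep y).1 (p.hc 1),
    (bd_rep y).2.mono (Eventually.of_forall fun _ => Nat.sub_le _ _)⟩

theorem int_ind {W : ℕ → ℕ → Prop} (h : LW p fun m x => ¬ W m x) (e : I p)
    (h0 : ∀ᶠ m in p.U, W m (rep (M p).zero m)) (h1 : ∀ x : I p, (M p).lt x e →
      (∀ᶠ m in p.U, W m (rep x m)) → ∀ᶠ m in p.U, W m (rep ((M p).add x (M p).one) m)) :
    ∀ᶠ m in p.U, W m (rep e m) := by
  by_contra hc
  have hc := ae_not.2 hc
  obtain ⟨y, hy⟩ := h _ (bd_rep e).2 (hc.mono fun m a => ⟨_, le_rfl, a⟩)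
  obtain ⟨x, hx⟩ := pred y
  have h2 : ∀ᶠ m in p.U, rep x m + 1 = rep y m := by
    filter_upwards [hy, hx, h0, zero_ae] with m a b c d
    have : rep y m ≠ 0 := fun e => a.1 (e ▸ d ▸ c)
    omega
  obtain ⟨m, a1, a2, a3, a4⟩ := ((h1 x ((hy.and (h2.and hc)).mono fun m a => by
    have := a.1.2 _ a.2.2
    omega) ((hy.and h2).mono fun m a => by_contra fun b => by
      have := a.1.2 _ b
      omega)).and (hy.and (h2.and (succ_ae x)))).exists
  exact a2.1 (a3 ▸ a4 ▸ a1)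

variable (p) in
def Lo (φ : Fm) : Prop := ∀ (v : ℕ → I p) (u : ℕ → ℕ → ℕ),
  (∀ i, ∀ᶠ m in p.U, rep (v i) m = u m i) → (Sat (M p) φ v ↔ ∀ᶠ m in p.U, Sat std φ (u m))

theorem Lo.ind {φ : Fm} (h : Lo p φ) (v : ℕ → I p) (h0 : Sat (M p) φ (cons (M p).zero v))
    (h1 : ∀ x, Sat (M p) φ (cons x v) → Sat (M p) φ (cons ((M p).add x (M p).one) v)) (x : I p) :
    Sat (M p) φ (cons x v) := by
  have k := fun x => h (cons x v) _ (cons_ae (fun i => rfl_ae) rfl_ae)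
  simp only [k] at h0 h1 ⊢
  exact int_ind (fun _ => wit φ.neg fun _ => rfl_ae) x h0 fun x _ => h1 x

theorem ind0 : Ind (M p) 0 := fun _ h => Lo.ind (los h)

theorem decs {d : ℕ → ℕ} (h : Bd p d) : ∃ w : ℕ → I p, ∀ i, ∀ᶠ m in p.U, rep (w i) m = dec (d m) i := by
  have : ∀ i d, Bd p d → Bd p fun m => dec (d m) i := fun i => by
    induction i with
    | zero => exact fun _ => Bd.l
    | succ i ih => exact fun _ h => ih _ h.r
  exact ⟨fun i => mkI _ (this i d h), fun i => rep_mk _ _⟩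

theorem recode (v : ℕ → I p) (n : ℕ) : ∃ (d : ℕ → ℕ) (w : ℕ → I p), Bd p d ∧ (∀ i < n, v i = w i) ∧
    ∀ i, ∀ᶠ m in p.U, rep (w i) m = dec (d m) i := by
  obtain ⟨d, h1, h2⟩ := code v n
  obtain ⟨w, hw⟩ := decs h1
  exact ⟨d, w, h1, fun i hi => (ext_iff _ _).2 ((h2.and (hw i)).mono fun m e =>
    (e.1 i hi).symm.trans e.2.symm), hw⟩

theorem Lo.bnd {φ : Fm} (hφ : Lo p φ) (v : ℕ → I p) (a : I p)
    (h : ∀ x, (M p).lt x a → ∃ y, Sat (M p) φ.ex (cons y (cons x v))) :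
    ∃ b, ∀ x, (M p).lt x a → ∃ y, (M p).lt y b ∧ Sat (M p) φ.ex (cons y (cons x v)) := by
  obtain ⟨d, v', h1, h2, h3⟩ := recode v φ.sup
  have key : ∀ w y x : I p, Sat (M p) φ (cons w (cons y (cons x v))) ↔ ∀ᶠ m in p.U,
      Sat std φ (cons (rep w m) (cons (rep y m) (cons (rep x m) (dec (d m))))) := fun w y x =>
    (sat_congr (M := M p) φ (cons_congr (cons_congr (cons_congr h2 x) y) w)).trans
      (hφ _ _ (cons_ae (cons_ae (cons_ae h3 rfl_ae) rfl_ae) rfl_ae))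
  have k2 : ∀ x, (M p).lt x a → ∃ b : I p, ∀ᶠ m in p.U, W2 φ (d m) (rep x m) (rep b m) := fun x hx => by
    obtain ⟨y, w, e⟩ := h x hx
    obtain ⟨b, hb⟩ := ex_rep (((bd_rep y).add (bd_rep w)).add (bd_cst 1))
    exact ⟨b, (hb.and ((key w y x).1 e)).mono fun m e => ⟨_, by omega, _, by omega, e.2⟩⟩
  by_cases ha : ∀ᶠ m in p.U, rep a m = 0
  · exact ⟨a, fun x hx => ((ha.and hx).exists.elim fun m e => by omega)⟩
  obtain ⟨x₀, h4⟩ := ex_min (p.ho 1 φ _ (h1.pair (bd_rep a)).1) (bd_rep a).2 ((ae_not.2 ha).mono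
    fun m e => by
      obtain ⟨x, a1, a2⟩ := Finset.exists_max_image (Finset.range (rep a m))
        (fun x => sInf {y | W2 φ (d m) x y}) (by simpa using e)
      simp only [Rel, Nat.unpair_pair]
      exact ⟨x, (Finset.mem_range.1 a1).le, Finset.mem_range.1 a1, fun x' h =>
        a2 x' (Finset.mem_range.2 h)⟩)
  simp only [Rel, Nat.unpair_pair] at h4
  obtain ⟨b, hb⟩ := k2 x₀ (h4.mono fun _ e => e.1.1)
  refine ⟨b, fun x hx => ?_⟩
  obtain ⟨b', hb'⟩ := k2 x hx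
  have h5 : ∀ᶠ m in p.U, ∃ y < rep b m, ∃ w ≤ rep b m,
      Sat std φ (cons w (cons y (cons (rep x m) (dec (d m))))) := by
    filter_upwards [h4, hb, hb', hx] with m a1 a2 a3 a4
    obtain ⟨y, a5, w, a6, a7⟩ := Nat.sInf_mem (s := {y | W2 φ (d m) (rep x m) y}) ⟨_, a3⟩
    have := (a1.1.2 _ a4).trans (Nat.sInf_le a2)
    exact ⟨y, a5.trans_le this, w, a6.trans this, a7⟩
  obtain ⟨y, hy⟩ := ex_min (p.ho 2 φ _ (((bd_rep x).pair h1).pair (bd_rep b)).1) (bd_rep b).2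
    (h5.mono fun _ => Exists.imp fun _ e => ⟨e.1.le, by simpa only [Rel, Nat.unpair_pair, dec_pair]
      using e.2⟩)
  simp only [Rel, Nat.unpair_pair, dec_pair] at hy
  obtain ⟨w, hw⟩ := wit φ (cons_ae (cons_ae h3 (rfl_ae (f := rep x))) (rfl_ae (f := rep y)))
    (bd_rep b).2 (hy.mono fun m e => e.1)
  exact ⟨y, (hy.and h5).mono fun m ⟨a, y, b, c⟩ => (a.2 y c).trans_lt b, w,
    (key w y x).2 (hw.mono fun _ => And.left)⟩

theorem bnd1 : Bnd (M p) 1 := by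
  rintro _ ⟨θ, hθ, rfl⟩
  exact Lo.bnd (los hθ)

theorem mem_std (x a : ℕ) : Mem std x a ↔ a.testBit x = true := by
  have h2 : 0 < 2 ^ x := by positivity
  rw [Nat.testBit_eq_decide_div_mod_eq, decide_eq_true_eq]
  refine ⟨fun ⟨q, r, h, e⟩ => ?_, fun e => ⟨a / 2 ^ x / 2, a % 2 ^ x, Nat.mod_lt _ h2, ?_⟩⟩
  · have e : a = (q + q + 1) * 2 ^ x + r := e
    have h : r < 2 ^ x := h
    rw [e, add_comm, Nat.add_mul_div_right _ _ h2, Nat.div_eq_of_lt h]
    exact (fun q : ℕ => (by omega : (0 + (q + q + 1)) % 2 = 1)) q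
  · show a = (a / 2 ^ x / 2 + a / 2 ^ x / 2 + 1) * 2 ^ x + a % 2 ^ x
    rw [show a / 2 ^ x / 2 + a / 2 ^ x / 2 + 1 = a / 2 ^ x by omega, Nat.div_add_mod']

theorem bit_lt {x a : ℕ} (h : a.testBit x = true) : x < a :=
  Nat.lt_two_pow_self.trans_le (Nat.ge_two_pow_of_testBit h)

theorem TD.pow {f g : (ℕ → ℕ) → ℕ} (a : TD f) (b : TD g) : TD fun v => f v ^ g v := fun ρ =>
  (a ρ).elim fun s a => (b ρ).elim fun t b => ⟨.pow s t, fun v => congrArg₂ (· ^ ·) (a v) (b v)⟩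

theorem b0_bit (i j : ℕ) : B0 fun v => (v j).testBit (v i) = true :=
  (B0.bex (.add (.var j) .one) (.bex (TD.pow (.add .one .one) (.var (i + 1)))
    (.eq (.var (j + 2)) (.add (.mul (.add (.add (.var 1) (.var 1)) .one)
      (TD.pow (.add .one .one) (.var (i + 2)))) (.var 0))))
    (R := fun q v => ∃ r < (1 + 1) ^ v i, v j = (q + q + 1) * (1 + 1) ^ v i + r)).congr fun v =>
    ⟨fun ⟨q, _, h⟩ => (mem_std _ _).1 ⟨q, h⟩, fun h => ((mem_std _ _).2 h).imp fun q h => ⟨by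
      obtain ⟨r, -, e⟩ := h
      have e : v j = (q + q + 1) * 2 ^ v i + r := e
      have : 0 < 2 ^ v i := by positivity
      nlinarith, h⟩⟩

theorem mem_iff (x a : I p) : Mem (M p) x a ↔ ∀ᶠ m in p.U, (rep a m).testBit (rep x m) = true := by
  have k := fun (q r : I p) => los (p := p) (.and (.lt (.var 0) (.pow (.add .one .one) (.var 2)))
    (.eq (.var 3) (.add (.mul (.add (.add (.var 1) (.var 1)) .one) (.pow (.add .one .one) (.var 2)))
      (.var 0)))) (cons r (cons q (cons x fun _ => a))) _ fun _ => rfl_ae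
  refine ⟨fun ⟨q, r, h⟩ => ((k q r).1 h).mono fun m e => (mem_std _ _).1 ⟨_, _, e⟩, fun h => ?_⟩
  have b : ∀ F : ℕ → ℕ → ℕ, Primrec₂ F → (∀ a x, F a x ≤ a) → ∃ q : I p, ∀ᶠ m in p.U,
      rep q m = F (rep a m) (rep x m) := fun F a1 a2 => ex_rep ⟨in_pr a1 (bd_rep a).1 (bd_rep x).1,
    (bd_rep a).2.mono (Eventually.of_forall fun _ => a2 _ _)⟩
  obtain ⟨q, hq⟩ := b (fun a x => a / 2 ^ x / 2) (Primrec.nat_div.comp (Primrec.nat_div.comp .fst
    (Bsig.pr_pow .snd)) (.const 2)) fun _ _ => (Nat.div_le_self _ _).trans (Nat.div_le_self _ _)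
  obtain ⟨r, hr⟩ := b (fun a x => a % 2 ^ x) (Primrec.nat_mod.comp .fst (Bsig.pr_pow .snd))
    fun _ _ => Nat.mod_le _ _
  refine ⟨q, r, (k q r).2 ?_⟩
  filter_upwards [h, hq, hr] with m a1 a2 a3
  rw [Nat.testBit_eq_decide_div_mod_eq, decide_eq_true_eq] at a1
  refine ⟨a3.trans_lt (Nat.mod_lt _ (Nat.two_pow_pos _)), ?_⟩
  show rep a m = (rep q m + rep q m + 1) * 2 ^ rep x m + rep r m
  rw [a2, a3, show ∀ z : ℕ, z % 2 = 1 → z / 2 + z / 2 + 1 = z from fun z _ => by omega, Nat.div_add_mod']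
  exact a1

theorem std_pam : PAm std :=
  ⟨add_assoc, add_comm, mul_assoc, mul_comm, mul_add, add_zero, mul_zero, mul_one, fun _ _ _ => lt_trans,
    lt_irrefl, lt_trichotomy, fun _ _ _ h => Nat.add_lt_add_right h _,
    fun _ _ _ a b => Nat.mul_lt_mul_of_pos_right b a, fun _ _ h => ⟨_, Nat.add_sub_of_le h.le⟩,
    Nat.one_pos, fun _ h => (Nat.succ_le_of_lt h).eq_or_lt.imp_left Eq.symm, Nat.eq_zero_or_pos,
    pow_zero, pow_succ⟩

theorem std_ind (n : ℕ) : Ind std n := fun _ _ _ h0 h1 x => Nat.rec h0 h1 x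

theorem std_bnd (n : ℕ) : Bnd std n := fun _ _ _ a h => by
  choose! y hy using h
  exact ⟨(Finset.range a).sup y + 1, fun x hx => ⟨y x, Nat.lt_succ_of_le
    (Finset.le_sup (f := y) (Finset.mem_range.2 hx)), hy x hx⟩⟩

end Pool.Agent.H40.Gen.Cs
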