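import Pool.Agent.H40.Cut1

set_option autoImplicit false

namespace Pool.Agent.H40.Gen.Cs

open Filter
open Bsig (cons cons_congr dec dec_pair dec_le pr_dec FF FF_it FF_mono lt_FF pair_FF dom Fz TT
  itz_le itz_eq pr_it pr_l pr_r pr_pair pr_ball pr_pow)

structure FS (p : Sys) : Prop where
  hF : ∀ n m, p.be n m = FF^[2 * n] m
  hid : (fun m => m) ∈ p.C
  hU : ∀ k : ℕ, ∀ᶠ m : ℕ in p.U, k ≤ m

theorem EE_FF : ∃ c, ∀ z, c ≤ z → EE z ≤ FF (FF z) := by
  obtain ⟨c, hc⟩ := dom (Q := fun x w => w = EE x) (Primrec.eq.comp .snd (pr_pow2.comp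
    (Primrec.nat_add.comp .fst (.const 2)) (Primrec.nat_add.comp .fst (.const 2)))).primrecRel
  exact ⟨c, fun z e => by simpa using (hc z).2 _ (pair_FF e le_rfl) ⟨_, rfl⟩⟩

variable {p : Sys}

theorem FS.bid (h : FS p) : Bd p fun m => m :=
  ⟨h.hid, 0, Eventually.of_forall fun m => (h.hF 0 m).ge⟩

theorem FS.F (h : FS p) {f : ℕ → ℕ} (a : Bo p f) : Bo p fun m => FF (f m) :=
  a.elim fun n a => ⟨n + 1, a.mono fun m e => by
    rw [h.hF] at e ⊢
    exact (FF_mono e).trans ((Function.iterate_succ_apply' _ _ _).symm.trans_le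
      ((FF_it m).monotone (by omega)))⟩

theorem FS.wit_pr (h : FS p) {Q : ℕ → ℕ → Prop} (hQ : PrimrecRel Q) {d : ℕ → ℕ} (hd : Bd p d)
    (e : ∀ᶠ m in p.U, ∃ w, Q (d m) w) :
    ∃ w : I p, ∀ᶠ m in p.U, Q (d m) (rep w m) ∧ ∀ y, Q (d m) y → rep w m ≤ y := by
  obtain ⟨c, hc⟩ := dom hQ
  exact ex_min (in_rel hQ hd.1) (h.F ((bo_cst c).pair hd.2)) (e.mono fun m => (hc _).2 _ le_rfl)

theorem FS.los1 (h : FS p) {θ : Fm} (hθ : Bdd θ) : Lo p θ.ex := fun v u a => by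
  refine ⟨fun ⟨w, hw⟩ => ((los hθ _ _ (cons_ae a rfl_ae)).1 hw).mono fun m e => ⟨_, e⟩, fun e => ?_⟩
  obtain ⟨d, h1, h2⟩ := code v θ.sup
  have k : ∀ᶠ m in p.U, ∀ x, Sat std θ (dec (Nat.pair x (d m))) ↔ Sat std θ (cons x (u m)) := by
    filter_upwards [h2, (eventually_all_finite (Set.finite_Iio θ.sup)).2 fun i _ => a i] with m b k x
    rw [dec_pair]
    exact sat_congr θ (cons_congr (fun i hi => (b i hi).trans (k i hi)) x)
  obtain ⟨x, hx⟩ := h.wit_pr ((pr_sat hθ).comp (pr_pair .snd .fst)).primrecRel h1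
    ((e.and k).mono fun m a => a.1.imp fun x => (a.2 x).2)
  exact ⟨x, (los hθ _ _ (cons_ae a rfl_ae)).2 ((hx.and k).mono fun _ e => (e.2 _).1 e.1.1)⟩

theorem FS.losP (h : FS p) {θ : Fm} (hθ : Bdd θ) : Lo p θ.all := fun v u a =>
  not_exists_not.symm.trans ((not_congr (h.los1 hθ.neg v u a)).trans (ae_not.symm.trans
    (eventually_congr (Eventually.of_forall fun _ => not_exists_not))))

theorem FS.ind1 (h : FS p) : Ind (M p) 1 := by
  rintro _ ⟨θ, hθ, rfl⟩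
  exact Lo.ind (h.los1 hθ)

theorem FS.bnd2 (h : FS p) : Bnd (M p) 2 := by
  rintro _ ⟨_, ⟨θ, hθ, rfl⟩, rfl⟩
  exact Lo.bnd (h.losP hθ)

theorem FS.absl (h : FS p) {P : (ℕ → ℕ) → Prop} (a : S1 P) : ∃ θ, Bdd θ ∧
    ∀ v, Sat (M p) θ.ex v ↔ ∀ᶠ m in p.U, P fun i => rep (v i) m := by
  obtain ⟨Q, a, h'⟩ := a
  obtain ⟨θ, h1, h3⟩ := a id
  exact ⟨θ, h1, fun v => (h.los1 h1 v _ fun _ => rfl_ae).trans (eventually_congr
    (Eventually.of_forall fun m => ((h' _).trans (exists_congr fun w => (h3 _).symm)).symm))⟩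

variable (p) in
def Om : Set (I p) := {x | ∃ j, ∀ᶠ m in p.U, rep x m ≤ j}

theorem om_not {x : I p} : x ∉ Om p ↔ ∀ j, ∀ᶠ m in p.U, j < rep x m :=
  not_exists.trans (forall_congr' fun _ => ae_not.symm.trans
    (eventually_congr (Eventually.of_forall fun _ => not_le)))

theorem FS.cut (h : FS p) : IsCut (M p) (Om p) := by
  obtain ⟨a, ha⟩ := ex_rep h.bid
  exact ⟨⟨_, 0, zero_ae.mono fun _ => le_of_eq⟩, fun e => om_not.2 (fun j =>
    (ha.and (h.hU (j + 1))).mono fun m e => by omega) (e ▸ trivial : a ∈ Om p),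
    fun _ ⟨j, b⟩ _ c => ⟨j, (b.and c).mono fun _ e => e.2.le.trans e.1⟩,
    fun x ⟨j, b⟩ => ⟨j + 1, (b.and (succ_ae x)).mono fun _ e => by omega⟩⟩

theorem FS.def2 (h : FS p) : Dfn (M p) 2 true (Om p) := by
  obtain ⟨θ, h1, h3⟩ := h.absl (P := fun v => ∃ z, v 0 < (Fz z)^[v 1] (v 2))
    (.ex (s1_five (P := fun z y k a _ => y < (Fz z)^[k] a) (Primrec.nat_lt.comp (pr_dec .id 1)
      (pr_it (pr_dec .id 0) (pr_dec .id 2) (pr_dec .id 3))) 0 1 2 3 0))
  obtain ⟨a, ha⟩ := ex_rep h.bid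
  refine ⟨θ.neg.all.ex, fun _ => a, ⟨_, ⟨_, h1.neg, rfl⟩, rfl⟩, fun k => Iff.symm ((exists_congr fun y =>
    not_exists.symm.trans ((not_congr (h3 _)).trans ae_not.symm)).trans
      ⟨fun ⟨y, hy⟩ => (bd_rep y).2.elim fun j hj => ⟨2 * j, ?_⟩, fun ⟨j, hj⟩ => ?_⟩)⟩
  · filter_upwards [hj, ha, hy] with m a1 a2 a3
    refine not_lt.1 fun a4 => a3 ⟨TT (FF^[rep k m] m), ?_⟩
    simp only [cons, a2]
    exact ((a1.trans_eq (h.hF _ _)).trans_lt (FF_it _ a4)).trans_eq (itz_eq le_rfl).symm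
  · obtain ⟨y, hy⟩ := ex_rep (p := p) (bd_be j)
    exact ⟨y, (hj.and (hy.and ha)).mono fun m e ⟨z, b⟩ => by
      simp only [cons, e.2.1, e.2.2, h.hF] at b
      exact b.not_ge ((itz_le _ _ _).trans ((FF_it _).monotone (e.1.trans (by omega))))⟩

theorem FS.over (h : FS p) {W : ℕ → ℕ → Prop} (hW : (fun m => sInf {z | m ≤ z ∨ ¬ W m (z + 1)}) ∈ p.C)
    (anti : ∀ m z z', z ≤ z' → W m z' → W m z) (a : ∀ z, ∀ᶠ m in p.U, W m z) :
    ∃ j : I p, j ∉ Om p ∧ ∀ᶠ m in p.U, W m (rep j m) := by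
  obtain ⟨j, hj⟩ := ex_min hW h.bid.2 (Eventually.of_forall fun m => ⟨m, le_rfl, Or.inl le_rfl⟩)
  have b : j ∉ Om p := om_not.2 fun z => by
    filter_upwards [hj, a (z + 1), h.hU (z + 1)] with m a1 a2 a3
    exact not_le.1 fun e => a1.1.elim (fun _ => by omega) fun c => c (anti _ _ _ (by omega) a2)
  refine ⟨j, b, (hj.and (om_not.1 b 0)).mono fun m e => by_contra fun c => ?_⟩
  have := e.1.2 (rep j m - 1) (Or.inr (by rwa [Nat.sub_add_cancel e.2]))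
  omega

theorem pr_bit {α : Type} [Primcodable α] {f g : α → ℕ} (hf : Primrec f) (hg : Primrec g) :
    PrimrecPred fun a => (f a).testBit (g a) = true :=
  (Primrec.eq.comp (Primrec.nat_mod.comp (Primrec.nat_div.comp hf (pr_pow hg)) (.const 2))
    (.const 1)).of_eq fun _ => by rw [Nat.testBit_eq_decide_div_mod_eq, decide_eq_true_eq]

theorem pr_imp {α : Type} [Primcodable α] {a b : α → Prop} (ha : PrimrecPred a) (hb : PrimrecPred b) :
    PrimrecPred fun x => a x → b x := (ha.not.or hb).of_eq fun _ => imp_iff_not_or.symm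

theorem ex_max (σ : ℕ → ℚ) (hσ : PrimrecRel fun a b => σ a < σ b) (K : I p) :
    (∀ᶠ m in p.U, rep K m = 0) ∨ ∃ y, Mem (M p) y K ∧
      ∀ᶠ m in p.U, ∀ x, (rep K m).testBit x = true → σ x ≤ σ (rep y m) := by
  refine or_iff_not_imp_left.2 fun e => ?_
  obtain ⟨y, hy⟩ := ex_min (in_rel (Q := fun a x => a.testBit x = true ∧
      ∀ y < a, a.testBit y = true → ¬ σ x < σ y) ((pr_bit .fst .snd).and (pr_ball .fst (pr_imp
        (pr_bit (Primrec.fst.comp .fst) .snd) (hσ.comp (Primrec.snd.comp .fst) .snd).not).primrecRel)).primrecRel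
    (bd_rep K).1) (bd_rep K).2 ((ae_not.2 e).mono fun m e => by
      obtain ⟨i, hi⟩ := Nat.exists_testBit_of_ne_zero e
      obtain ⟨x, a, b⟩ := Finset.exists_max_image ((Finset.range (rep K m)).filter
        fun x => (rep K m).testBit x = true) σ ⟨i, by simpa [bit_lt hi] using hi⟩
      simp only [Finset.mem_filter, Finset.mem_range] at a b
      exact ⟨x, a.1.le, a.2, fun y c d => (b y ⟨c, d⟩).not_gt⟩)
  exact ⟨y, (mem_iff _ _).2 (hy.mono fun _ a => a.1.1),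
    hy.mono fun _ a x b => not_lt.1 (a.1.2 x (bit_lt b) b)⟩

theorem sing (j : I p) : ∃ K : I p, (∀ᶠ m in p.U, rep K m = 2 ^ rep j m) ∧
    ∀ B, Sub (M p) K B ↔ j ∈ B := by
  obtain ⟨K, hK⟩ := ex_rep ((bd_cst 2).pow (bd_rep j))
  exact ⟨K, hK, fun B => ⟨fun e => e j ((mem_iff _ _).2 (hK.mono fun m a => by simp [a])),
    fun e x a => (ext_iff x j).2 ((((mem_iff _ _).1 a).and hK).mono fun m a => by
      simpa [a.2, Nat.testBit_two_pow, eq_comm] using a.1) ▸ e⟩⟩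

theorem sub_zero {K : I p} (h : ∀ᶠ m in p.U, rep K m = 0) (B : Set (I p)) : Sub (M p) K B :=
  fun _ a => (((mem_iff _ _).1 a).and h).exists.elim fun m e => by simp [e.2] at e

theorem sub_empty {K : I p} (h : Sub (M p) K ∅) : ∀ᶠ m in p.U, rep K m = 0 :=
  (ex_max (fun a => a) (Primrec.nat_lt.of_eq fun _ => by simp) K).resolve_right
    fun ⟨y, a, _⟩ => h y a

theorem sub_om {K : I p} (h : Sub (M p) K (Om p)) :
    ∃ i, ∀ᶠ m in p.U, ∀ x, (rep K m).testBit x = true → x ≤ i :=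
  (ex_max (fun a => a) (Primrec.nat_lt.of_eq fun _ => by simp) K).elim
    (fun e => ⟨0, e.mono fun m e => by simp [e]⟩) fun ⟨y, a, b⟩ => (h y a).imp fun i c =>
      (b.and c).mono fun m e x d => (Nat.cast_le.1 (e.1 x d)).trans e.2

theorem sub_nom {K : I p} (h : Sub (M p) K (Om p)ᶜ) (i : ℕ) :
    ∀ᶠ m in p.U, ∀ x, (rep K m).testBit x = true → i < x :=
  (ex_max (fun a => -a) ((Primrec.nat_lt.comp .snd .fst).primrecRel.of_eq fun _ => by simp) K).elim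
    (fun e => e.mono fun m e => by simp [e]) fun ⟨y, a, b⟩ =>
      (b.and (om_not.1 (h y a) i)).mono fun m e x d => e.2.trans_le (by simpa using e.1 x d)

theorem red_empty (X : Set (I p)) : RedK (M p) ∅ X := by
  refine ⟨(Fm.neg (.and (.eq (.var 2) .one) (.neg (.eq (.var 1) .zero)))).ex, fun _ => (M p).zero,
    ⟨_, .neg (.and (.eq _ _) (.neg (.eq _ _))), rfl⟩, fun K => ⟨⟨fun e => ⟨_, _, sub_zero zero_ae _,
      sub_zero zero_ae _, K, fun a => a.2 ((ext_iff _ _).2 (((sub_empty e).and zero_ae).mono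
        fun _ e => e.1.trans e.2.symm))⟩, fun ⟨_, _, _, _, _, e⟩ => ?_⟩, iff_of_true (fun _ _ => id)
          ⟨_, _, sub_zero zero_ae _, sub_zero zero_ae _, K, fun a => ?_⟩⟩⟩
  · exact (show K = (M p).zero from not_not.1 fun a => e ⟨rfl, a⟩) ▸ sub_zero zero_ae _
  · exact (((ext_iff _ _).1 a.1).and (zero_ae.and one_ae)).exists.elim fun m e => by
      have e1 : rep (M p).zero m = rep (M p).one m := e.1
      omega

end Pool.Agent.H40.Gen.Cs
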