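import Mathlib

set_option autoImplicit false

namespace Pool.Agent.H40.Deg

open FirstOrder FirstOrder.Language Polynomial

/-! ### Algebra -/

def Le (f g : ℂ[X]) : Prop :=
  ∀ c : ℂ, ∃ d : ℂ, ∃ h : ℂ[X], ∀ a : ℂ, f.eval a = c → ∃ b : ℂ, g.eval b = d ∧ h.eval b = a

theorem sub_ne {f : ℂ[X]} (hf : 0 < f.natDegree) (c : ℂ) : f - C c ≠ 0 := fun h => by
  rw [sub_eq_zero] at h
  rw [h, natDegree_C] at hf
  exact lt_irrefl _ hf

theorem mem_fib {f : ℂ[X]} (hf : 0 < f.natDegree) (c a : ℂ) :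
    a ∈ (f - C c).roots.toFinset ↔ f.eval a = c := by
  rw [Multiset.mem_toFinset, mem_roots (sub_ne hf c), IsRoot, eval_sub, eval_C, sub_eq_zero]

theorem card_le (f : ℂ[X]) (c : ℂ) : (f - C c).roots.toFinset.card ≤ f.natDegree :=
  (Multiset.toFinset_card_le _).trans ((card_roots' _).trans_eq (natDegree_sub_C))

theorem generic {f : ℂ[X]} (hf : 0 < f.natDegree) :
    ∃ c : ℂ, (f - C c).roots.toFinset.card = f.natDegree := by
  have hd : derivative f ≠ 0 := fun h => by
    have := derivative_eq_zero.1 h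
    omega
  obtain ⟨c, hc⟩ := Infinite.exists_notMem_finset ((derivative f).roots.toFinset.image f.eval)
  refine ⟨c, ?_⟩
  have hs : (f - C c).Separable := by
    rw [separable_def, isCoprime_iff_aeval_ne_zero_of_isAlgClosed ℂ ℂ]
    intro a
    by_contra h
    push Not at h
    apply hc
    simp only [coe_aeval_eq_eval, eval_sub, eval_C, derivative_sub, derivative_C, sub_zero] at h
    refine Finset.mem_image.2 ⟨a, ?_, sub_eq_zero.1 h.1⟩
    rw [Multiset.mem_toFinset, mem_roots hd]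
    exact h.2
  rw [Multiset.toFinset_card_of_nodup (nodup_roots hs), IsAlgClosed.card_roots_eq_natDegree,
    natDegree_sub_C]

theorem le_iff {f g : ℂ[X]} (hf : 0 < f.natDegree) (hg : 0 < g.natDegree) :
    Le f g ↔ f.natDegree ≤ g.natDegree := by
  classical
  constructor
  · intro H
    obtain ⟨c, hc⟩ := generic hf
    obtain ⟨d, h, hh⟩ := H c
    rw [← hc]
    refine le_trans (Finset.card_le_card (t := (g - C d).roots.toFinset.image h.eval) ?_)
      (Finset.card_image_le.trans (card_le g d))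
    intro a ha
    obtain ⟨b, hb, e⟩ := hh a ((mem_fib hf c a).1 ha)
    exact Finset.mem_image.2 ⟨b, (mem_fib hg d b).2 hb, e⟩
  · intro H c
    obtain ⟨d, hd⟩ := generic hg
    obtain ⟨e, he⟩ := Function.Embedding.exists_of_card_le_finset
      (α := (f - C c).roots.toFinset) (s := (g - C d).roots.toFinset)
      (by rw [Fintype.card_coe]; exact (card_le f c).trans (H.trans hd.ge))
    refine ⟨d, Lagrange.interpolate Finset.univ e Subtype.val, fun a ha =>
      ⟨e ⟨a, (mem_fib hf c a).2 ha⟩, ?_, ?_⟩⟩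
    · exact (mem_fib hg d _).1 (he ⟨_, rfl⟩)
    · exact Lagrange.eval_interpolate_at_node _ e.injective.injOn (Finset.mem_univ _)

/-! ### First-order translation -/

def Cst (x : ℂ[X]) : Prop := x = 0 ∨ ∃ u, x * u = 1

def Ev (f a c : ℂ[X]) : Prop := ∃ u, f + -c = (X + -a) * u

def Le' (f g : ℂ[X]) : Prop :=
  ∀ c, Cst c → ∃ d, Cst d ∧ ∃ h, ∀ a, Cst a → Ev f a c → ∃ b, Cst b ∧ Ev g b d ∧ Ev h b a

theorem cst_iff (x : ℂ[X]) : Cst x ↔ ∃ c, C c = x := by
  constructor
  · rintro (rfl | ⟨u, h⟩)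
    · exact ⟨0, C_0⟩
    · obtain ⟨r, -, h⟩ := isUnit_iff.1 (IsUnit.of_mul_eq_one u h)
      exact ⟨r, h⟩
  · rintro ⟨c, rfl⟩
    by_cases h : c = 0
    · left; rw [h, C_0]
    · right; exact ⟨C c⁻¹, by rw [← C_mul, mul_inv_cancel₀ h, C_1]⟩

theorem ev_iff (f : ℂ[X]) (a c : ℂ) : Ev f (C a) (C c) ↔ f.eval a = c := by
  have : Ev f (C a) (C c) ↔ X - C a ∣ f - C c := by
    simp only [Ev, ← sub_eq_add_neg]; rfl
  rw [this, dvd_iff_isRoot, IsRoot, eval_sub, eval_C, sub_eq_zero]

theorem le'_iff (f g : ℂ[X]) : Le' f g ↔ Le f g := by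
  simp only [Le', Le, cst_iff, forall_exists_index, forall_apply_eq_imp_iff,
    exists_exists_eq_and, ev_iff]

theorem cst_iff' (x : ℂ[X]) : Cst x ↔ x.natDegree = 0 := by
  rw [cst_iff, natDegree_eq_zero]

theorem deg_iff (f g : ℂ[X]) : f.degree = g.degree ↔
    (f = 0 ∧ g = 0) ∨ (¬ f = 0 ∧ ¬ g = 0 ∧ ((Cst f ∧ Cst g) ∨
      (¬ Cst f ∧ ¬ Cst g ∧ Le' f g ∧ Le' g f))) := by
  by_cases hf : f = 0
  · subst hf
    simp [eq_comm (a := (⊥ : WithBot ℕ))]
  by_cases hg : g = 0
  · subst hg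
    simp [hf]
  rw [degree_eq_natDegree hf, degree_eq_natDegree hg, Nat.cast_inj, cst_iff', cst_iff',
    le'_iff, le'_iff]
  simp only [hf, hg, false_and, false_or, not_false_iff, true_and]
  constructor
  · intro h
    by_cases h0 : f.natDegree = 0
    · exact Or.inl ⟨h0, h ▸ h0⟩
    · have h1 : g.natDegree ≠ 0 := h ▸ h0
      exact Or.inr ⟨h0, h1, (le_iff (Nat.pos_of_ne_zero h0) (Nat.pos_of_ne_zero h1)).2 h.le,
        (le_iff (Nat.pos_of_ne_zero h1) (Nat.pos_of_ne_zero h0)).2 h.ge⟩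
  · rintro (⟨h0, h1⟩ | ⟨h0, h1, h2, h3⟩)
    · rw [h0, h1]
    · exact le_antisymm ((le_iff (Nat.pos_of_ne_zero h0) (Nat.pos_of_ne_zero h1)).1 h2)
        ((le_iff (Nat.pos_of_ne_zero h1) (Nat.pos_of_ne_zero h0)).1 h3)

section Def

variable {R : Type} [Ring R] [FirstOrder.Ring.CompatibleRing R] (A : Set R) {γ : Type}

def DP (P : (γ → R) → Prop) : Prop := A.Definable Language.ring {v | P v}

def DF (f : (γ → R) → R) : Prop := A.TermDefinable Language.ring f

variable {A} {P Q : (γ → R) → Prop} {f g : (γ → R) → R}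

theorem DP.and (h : DP A P) (h' : DP A Q) : DP A fun v => P v ∧ Q v := Set.Definable.inter h h'
theorem DP.or (h : DP A P) (h' : DP A Q) : DP A fun v => P v ∨ Q v := Set.Definable.union h h'
theorem DP.not (h : DP A P) : DP A fun v => ¬ P v := Set.Definable.compl h
theorem DP.imp (h : DP A P) (h' : DP A Q) : DP A fun v => P v → Q v := by
  simpa only [imp_iff_not_or] using h.not.or h'

theorem DP.ex {P : (γ → R) → R → Prop}
    (h : DP A fun w : γ ⊕ Unit → R => P (w ∘ Sum.inl) (w (Sum.inr ()))) :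
    DP A fun v => ∃ x, P v x := by
  have := Set.Definable.exists_of_finite h
  unfold DP
  convert this using 3 with v
  exact ⟨fun ⟨x, hx⟩ => ⟨fun _ => x, hx⟩, fun ⟨x, hx⟩ => ⟨x (), hx⟩⟩

theorem DP.all {P : (γ → R) → R → Prop}
    (h : DP A fun w : γ ⊕ Unit → R => P (w ∘ Sum.inl) (w (Sum.inr ()))) :
    DP A fun v => ∀ x, P v x := by
  simpa only [not_exists, not_not] using (DP.ex (P := fun v x => ¬ P v x) h.not).not

theorem DF.eq (h : DF A f) (h' : DF A g) : DP A fun v => f v = g v :=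
  Set.DefinableFun.ofPred_eq h.definable_tupleGraph h'.definable_tupleGraph

theorem DF.var (i : γ) : DF A fun v => v i := ⟨Term.var i, rfl⟩

theorem DF.lift {δ : Type} (h : DF A f) (k : γ → δ) : DF A fun w => f (w ∘ k) := by
  obtain ⟨t, rfl⟩ := h
  exact ⟨t.relabel k, funext fun w => Term.realize_relabel.symm⟩

theorem DF.const {a : R} (ha : a ∈ A) : DF A fun _ : γ → R => a :=
  ⟨(Language.ring.con (⟨a, ha⟩ : A)).term, rfl⟩

theorem DF.fn1 (F : Language.ring.Functions 1) (h : DF A f) :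
    DF A fun v => Structure.funMap F ![f v] := by
  obtain ⟨t, rfl⟩ := h
  refine ⟨Functions.apply₁ (Sum.inl F) t, funext fun v => ?_⟩
  rw [Term.realize_functions_apply₁]; rfl

theorem DF.fn2 (F : Language.ring.Functions 2) (h : DF A f) (h' : DF A g) :
    DF A fun v => Structure.funMap F ![f v, g v] := by
  obtain ⟨t, rfl⟩ := h
  obtain ⟨t', rfl⟩ := h'
  refine ⟨Functions.apply₂ (Sum.inl F) t t', funext fun v => ?_⟩
  rw [Term.realize_functions_apply₂]; rfl

theorem DF.fn0 (F : Language.ring.Functions 0) :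
    DF A fun _ : γ → R => Structure.funMap F (default : Fin 0 → R) :=
  ⟨Constants.term (Sum.inl F), funext fun v => by rw [Term.realize_constants]; rfl⟩

theorem DF.add (h : DF A f) (h' : DF A g) : DF A fun v => f v + g v := by
  simpa [FirstOrder.Ring.CompatibleRing.funMap_add] using DF.fn2 FirstOrder.Ring.addFunc h h'
theorem DF.mul (h : DF A f) (h' : DF A g) : DF A fun v => f v * g v := by
  simpa [FirstOrder.Ring.CompatibleRing.funMap_mul] using DF.fn2 FirstOrder.Ring.mulFunc h h'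
theorem DF.neg (h : DF A f) : DF A fun v => - f v := by
  simpa [FirstOrder.Ring.CompatibleRing.funMap_neg] using DF.fn1 FirstOrder.Ring.negFunc h
theorem DF.zero : DF A fun _ : γ → R => 0 := by
  simpa [FirstOrder.Ring.CompatibleRing.funMap_zero] using DF.fn0 (A := A) FirstOrder.Ring.zeroFunc
theorem DF.one : DF A fun _ : γ → R => 1 := by
  simpa [FirstOrder.Ring.CompatibleRing.funMap_one] using DF.fn0 (A := A) FirstOrder.Ring.oneFunc

end Def

section Main

variable [FirstOrder.Ring.CompatibleRing ℂ[X]] {γ : Type} {f g h : (γ → ℂ[X]) → ℂ[X]}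

theorem dCst (hf : DF {X} f) : DP {X} fun v => Cst (f v) :=
  (hf.eq DF.zero).or (DP.ex (((hf.lift _).mul (DF.var _)).eq DF.one))

theorem dEv (hf : DF {X} f) (hg : DF {X} g) (hh : DF {X} h) :
    DP {X} fun v => Ev (f v) (g v) (h v) :=
  DP.ex (((hf.lift _).add (hh.lift _).neg).eq
    (((DF.const (Set.mem_singleton X)).add (hg.lift _).neg).mul (DF.var _)))

theorem dLe (hf : DF {X} f) (hg : DF {X} g) : DP {X} fun v => Le' (f v) (g v) :=
  DP.all ((dCst (DF.var _)).imp (DP.ex ((dCst (DF.var _)).and (DP.ex (DP.all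
    ((dCst (DF.var _)).imp ((dEv ((((hf.lift _).lift _).lift _).lift _) (DF.var _) (DF.var _)).imp
      (DP.ex ((dCst (DF.var _)).and ((dEv (((((hg.lift _).lift _).lift _).lift _).lift _)
        (DF.var _) (DF.var _)).and (dEv (DF.var _) (DF.var _) (DF.var _))))))))))))

theorem main : ({X} : Set ℂ[X]).Definable Language.ring
    {v : Fin 2 → ℂ[X] | (v 0).degree = (v 1).degree} := by
  simp only [deg_iff]
  exact (((DF.var 0).eq DF.zero).and ((DF.var 1).eq DF.zero)).or
    (((DF.var 0).eq DF.zero).not.and (((DF.var 1).eq DF.zero).not.and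
      (((dCst (DF.var 0)).and (dCst (DF.var 1))).or ((dCst (DF.var 0)).not.and
        ((dCst (DF.var 1)).not.and ((dLe (DF.var 0) (DF.var 1)).and
          (dLe (DF.var 1) (DF.var 0))))))))

end Main

end Pool.Agent.H40.Deg
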