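import Pool.Agent.H40.PathDefs

set_option autoImplicit false

namespace Pool.Agent.H40.Bsig

variable (M : Mod)

/-- The `n`-th set of the sequence `A`. -/
def Col (A : Set M.N) (n : M.N) : Set M.N := {x | pair M n x ∈ A}

/-- `B` has exactly `c` elements below `j`: the running count is an `M`-finite sequence. -/
def Cnt (B : Set M.N) (j c : M.N) : Prop :=
  ∃ s h, SeqCode M s (M.add j M.one) h ∧ h M.zero = M.zero ∧ h j = c ∧ ∀ i, M.lt i j →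
    (i ∈ B → h (M.add i M.one) = M.add (h i) M.one) ∧ (i ∉ B → h (M.add i M.one) = h i)

/-- `e = 2 ^ k`. -/
def Pow2 (k e : M.N) : Prop :=
  ∃ s h, SeqCode M s (M.add k M.one) h ∧ h M.zero = M.one ∧ h k = e ∧
    ∀ i, M.lt i k → h (M.add i M.one) = M.add (h i) (h i)

/-- `ρ_j (B △ C) ≤ 2 ^ (-k)` for all sufficiently large `j`. -/
def Close (B C : Set M.N) (k : M.N) : Prop :=
  ∃ i, ∀ j, M.lt i j → ∃ c e, Cnt M (symmDiff B C) j c ∧ Pow2 M k e ∧ ¬ M.lt j (M.mul c e)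

/-- Every `δ`-Cauchy sequence has a limit. -/
def Complete : Prop :=
  ∀ A ∈ M.S, (∀ k, ∃ m, ∀ n, M.lt m n → Close M (Col M A m) (Col M A n) k) →
    ∃ L ∈ M.S, ∀ k, ∃ m, ∀ n, M.lt m n → Close M (Col M A n) L k

/-- For every `X` some function dominates all total functions that are `Σ_1` in `X`. -/
def DOM : Prop :=
  ∀ X ∈ M.S, ∃ f : M.N → M.N, {p | ∃ n, p = pair M n (f n)} ∈ M.S ∧
    ∀ (g : M.N → M.N) φ v, Lv 1 true φ → (∀ x y, g x = y ↔ Sat M φ (cons y (cons x v)) fun _ => X) →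
      ∃ b, ∀ n, M.lt b n → ¬ M.lt (f n) (g n)

/-- The cohesiveness principle. -/
def COH : Prop :=
  ∀ R ∈ M.S, ∃ C ∈ M.S, (∀ b, ∃ x ∈ C, M.lt b x) ∧ ∀ i,
    (∃ b, ∀ x ∈ C, M.lt b x → x ∈ Col M R i) ∨ ∃ b, ∀ x ∈ C, M.lt b x → x ∉ Col M R i

end Pool.Agent.H40.Bsig
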