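import Pool.Agent.H40.Path3
import Pool.Agent.H40.Bsig5
import Pool.Agent.H40.DenDefs

set_option autoImplicit false

namespace Pool.Agent.H40.Bsig

open Filter

noncomputable def bb (l v : ℕ) : ℕ := sInf {b | ∀ h : ℕ → ℕ, (∀ i < l, h i ≤ v) →
  ∃ a ≤ b, ∃ a' ≤ b, ∀ i < l, h i = a % (a' * (i + 1) + 1)} + 2 ^ l

theorem bb_spec {l v : ℕ} {h : ℕ → ℕ} (e : ∀ i < l, h i ≤ v) :
    ∃ a ≤ bb l v, ∃ a' ≤ bb l v, ∀ i < l, h i = a % (a' * (i + 1) + 1) := by
  choose a a' ha using fun k : Fin l → Fin (v + 1) =>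
    ex_beta l fun i => if e : i < l then k ⟨i, e⟩ else 0
  obtain ⟨x, h1, y, h2, h3⟩ := Nat.sInf_mem (s := {b | ∀ h : ℕ → ℕ, (∀ i < l, h i ≤ v) →
      ∃ a ≤ b, ∃ a' ≤ b, ∀ i < l, h i = a % (a' * (i + 1) + 1)})
    ⟨Finset.univ.sup a + Finset.univ.sup a', fun h e => ⟨_, le_add_right (Finset.le_sup
      (Finset.mem_univ fun i => ⟨h i, Nat.lt_succ_of_le (e i i.2)⟩)), _, le_add_left (Finset.le_sup
        (Finset.mem_univ fun i => ⟨h i, Nat.lt_succ_of_le (e i i.2)⟩)), fun i hi => by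
          simpa [hi] using ha (fun i => ⟨h i, Nat.lt_succ_of_le (e i i.2)⟩) i hi⟩⟩ h e
  exact ⟨x, le_add_right h1, y, le_add_right h2, h3⟩

theorem ct_succ (P : ℕ → Prop) (n : ℕ) :
    (P n → ct P (n + 1) = ct P n + 1) ∧ (¬ P n → ct P (n + 1) = ct P n) := by
  simp only [ct, Nat.count_succ]
  exact ⟨fun h => by rw [if_pos h], fun h => by rw [if_neg h]; rfl⟩

theorem ct_le (P : ℕ → Prop) (n : ℕ) : ct P n ≤ n := @Nat.count_le _ (_) _

theorem ct_congr {P Q : ℕ → Prop} {n : ℕ} (h : ∀ x < n, P x ↔ Q x) : ct P n = ct Q n := by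
  induction n with
  | zero => rfl
  | succ n ih =>
    have := ih fun x e => h x (by omega)
    have := ct_succ P n
    have := ct_succ Q n
    have := h n n.lt_succ_self
    by_cases e : P n <;> simp_all

theorem ct_mono (P : ℕ → Prop) : Monotone (ct P) := @Nat.count_monotone _ (_)

theorem ct_lt (P : ℕ → Prop) (a n : ℕ) : ct (fun x => x < a ∧ P x) n ≤ ct P a := by
  rcases le_total n a with e | e
  · exact (ct_congr fun x hx => and_iff_right (hx.trans_le e)).trans_le (ct_mono P e)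
  · induction e with
    | refl => exact (ct_congr fun x hx => and_iff_right hx).le
    | step e ih => exact ((ct_succ _ _).2 fun h => h.1.not_ge e).trans_le ih

theorem blocks (B : ℕ → Prop) (T K j : ℕ) (h : ∀ s, T < 2 ^ s → 2 ^ s ≤ j → ∃ B' : ℕ → Prop,
    (∀ x, 2 ^ s ≤ x → x < 2 * 2 ^ s → B x → B' x) ∧ ct B' (2 * 2 ^ s) * K ≤ 2 * 2 ^ s) (hj : 0 < j) :
    ct B j * K ≤ (2 * T + 1) * K + 4 * j := by
  have key : ∀ s, 2 ^ s ≤ 2 * j → ct B (2 ^ s) * K ≤ (2 * T + 1) * K + 2 * 2 ^ s := fun s => by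
    induction s with
    | zero => exact fun _ => le_add_right (Nat.mul_le_mul_right _ ((ct_le _ _).trans (by omega)))
    | succ s ih =>
      intro e
      rw [pow_succ'] at *
      rcases le_or_gt (2 ^ s) T with e' | e'
      · exact le_add_right (Nat.mul_le_mul_right _ ((ct_le _ _).trans (by omega)))
      obtain ⟨B', h1, h2⟩ := h s e' (by omega)
      have := (ct_congr (Q := fun x => x < 2 * 2 ^ s ∧ B x) fun x hx => (and_iff_right hx).symm).trans_le
        ((cnt_or (p := fun x => x < 2 ^ s ∧ B x) (q := B') (fun x a => (lt_or_ge x _).imp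
          (⟨·, a.2⟩) fun b => h1 x b a.1 a.2) _).trans (Nat.add_le_add_right (ct_lt _ _ _) _))
      have := ih (by omega)
      nlinarith
  have a := Nat.lt_pow_succ_log_self one_lt_two j
  have b : 2 ^ (Nat.log 2 j).succ ≤ 2 * j := by
    rw [pow_succ']
    exact Nat.mul_le_mul_left _ (Nat.pow_log_le_self 2 hj.ne')
  have := key _ b
  have := Nat.mul_le_mul_right K (ct_mono B a.le)
  omega

namespace Cut

variable {p : Cut}

theorem beta_iff' (a b i x : p.I) :
    (p.M.lt x (p.M.add (p.M.mul b (p.M.add i p.M.one)) p.M.one) ∧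
      ∃ q, p.M.add (p.M.mul (p.M.add (p.M.mul b (p.M.add i p.M.one)) p.M.one) q) x = a) ↔
      ∀ᶠ m in U, rep x m = rep a m % (rep b m * (rep i m + 1) + 1) := by
  have k1 : ∀ᶠ m in U, rep (p.M.add (p.M.mul b (p.M.add i p.M.one)) p.M.one) m =
      rep b m * (rep i m + 1) + 1 := los_tm (.add (.mul (.var 0) (.add (.var 1) .one)) .one)
    (cons b fun _ => i) _ (cons_ae (fun _ => rfl_ae) rfl_ae)
  have key : ∀ q : p.I, ∀ᶠ m in U, rep (p.M.add (p.M.mul (p.M.add (p.M.mul b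
      (p.M.add i p.M.one)) p.M.one) q) x) m = (rep b m * (rep i m + 1) + 1) * rep q m + rep x m :=
    fun q => los_tm (.add (.mul (.add (.mul (.var 0) (.add (.var 1) .one)) .one) (.var 2)) (.var 3))
      (cons b (cons i (cons q fun _ => x))) _
      (cons_ae (cons_ae (cons_ae (fun _ => rfl_ae) rfl_ae) rfl_ae) rfl_ae)
  refine ⟨fun ⟨h, q, e⟩ => ?_, fun h => ⟨(h.and k1).mono fun m e => e.1.trans_lt
    ((Nat.mod_lt _ (Nat.succ_pos _)).trans_eq e.2.symm), ?_⟩⟩
  · filter_upwards [h, k1, key q] with m a1 a2 a3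
    rw [← e, a3, Nat.mul_add_mod, Nat.mod_eq_of_lt (a1.trans_eq a2)]
  · obtain ⟨q, hq⟩ := ex_rep (f := fun m => rep a m / (rep b m * (rep i m + 1) + 1))
      ((bd_rep a).mono (Eventually.of_forall fun _ => Nat.div_le_self _ _))
    exact ⟨q, (ext_iff _ _).2 (((key q).and (h.and hq)).mono fun m e => by
      rw [e.1, e.2.1, e.2.2, Nat.div_add_mod])⟩

theorem add_ae (x y : p.I) : ∀ᶠ m in U, rep (p.M.add x y) m = rep x m + rep y m := rep_mk _ _

theorem rec_iff (hb : ∀ f g, p.Bd f → p.Bd g → p.Bd fun m => bb (f m) (g m)) {r : ℕ → ℕ → ℕ}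
    {st : ℕ → ℕ → ℕ → ℕ → Prop} {a j c : p.I} {v : ℕ → ℕ} (hv : p.Bd v) (h0 : ∀ᶠ m in U, rep a m = r m 0)
    (h1 : ∀ m i y, st m i (r m i) y ↔ y = r m (i + 1)) (h2 : ∀ m, ∀ i ≤ rep j m, r m i ≤ v m)
    {T : p.I → p.I → p.I → Prop}
    (hT : ∀ i y z, p.M.lt i j → (T i y z ↔ ∀ᶠ m in U, st m (rep i m) (rep y m) (rep z m))) :
    (∃ s h, SeqCode p.M s (p.M.add j p.M.one) h ∧ h p.M.zero = a ∧ h j = c ∧
      ∀ i, p.M.lt i j → T i (h i) (h (p.M.add i p.M.one))) ↔ ∀ᶠ m in U, rep c m = r m (rep j m) := by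
  have z : ∀ᶠ m in U, rep p.M.zero m = 0 := rep_mk _ _
  have l0 : p.M.lt p.M.zero (p.M.add j p.M.one) := (z.and (succ_ae j)).mono fun m e => by omega
  have l1 : p.M.lt j (p.M.add j p.M.one) := (succ_ae j).mono fun m e => by omega
  have l2 : ∀ i, p.M.lt i j → p.M.lt i (p.M.add j p.M.one) ∧
      p.M.lt (p.M.add i p.M.one) (p.M.add j p.M.one) := fun i h =>
    ⟨(h.and (succ_ae j)).mono fun m e => by omega,
      (h.and ((succ_ae j).and (succ_ae i))).mono fun m e => by omega⟩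
  constructor
  · rintro ⟨_, h, ⟨x, y, rfl, a1⟩, rfl, rfl, a2⟩
    have a1 := fun i hi => (beta_iff' _ _ _ _).1 (a1 i hi)
    filter_upwards [h0, z, a1 _ l0, a1 _ l1, (ball_iff (bd_rep j) fun m i => st m i
      (rep x m % (rep y m * (i + 1) + 1)) (rep x m % (rep y m * (i + 1 + 1) + 1))).1 fun i hi => by
        filter_upwards [(hT _ _ _ hi).1 (a2 i hi), a1 _ (l2 i hi).1, a1 _ (l2 i hi).2, succ_ae i] with
          m b1 b2 b3 b4
        rwa [← b2, ← b4, ← b3]] with m b1 b2 b3 b4 b5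
    have : ∀ i ≤ rep j m, rep x m % (rep y m * (i + 1) + 1) = r m i := fun i hi => by
      induction i with
      | zero => rw [← b1, b3, b2]
      | succ i ih => exact (h1 m i _).1 (ih (by omega) ▸ b5 i hi)
    rw [b4, this _ le_rfl]
  · intro e
    choose x hx y hy hxy using fun m => bb_spec (l := rep j m + 1) fun i hi =>
      h2 m i (Nat.le_of_lt_succ hi)
    have b := hb _ _ ((bd_rep j).add (bd_const 1)) hv
    obtain ⟨x', hx'⟩ := ex_rep (b.mono (Eventually.of_forall hx))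
    obtain ⟨y', hy'⟩ := ex_rep (b.mono (Eventually.of_forall hy))
    choose h hh using fun i : p.I => ex_rep (f := fun m => rep x' m % (rep y' m * (rep i m + 1) + 1))
      ((bd_rep x').mono (Eventually.of_forall fun _ => Nat.mod_le _ _))
    have k : ∀ i, p.M.lt i (p.M.add j p.M.one) → ∀ᶠ m in U, rep (h i) m = r m (rep i m) := fun i hi => by
      filter_upwards [hh i, hx', hy', hi, succ_ae j] with m a1 a2 a3 a4 a5
      rw [a1, a2, a3, hxy m _ (a5 ▸ a4)]
    refine ⟨_, h, ⟨x', y', rfl, fun i _ => (beta_iff' _ _ _ _).2 (hh i)⟩, (ext_iff _ _).2 ?_,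
      (ext_iff _ _).2 (((k _ l1).and e).mono fun m e => e.1.trans e.2.symm), fun i hi => (hT _ _ _ hi).2 ?_⟩
    · filter_upwards [k _ l0, z, h0] with m a1 a2 a3
      rw [a1, a2, a3]
    · filter_upwards [k _ (l2 i hi).1, k _ (l2 i hi).2, succ_ae i] with m a1 a2 a3
      rw [a1, h1, a2, a3]

theorem close_iff (hb : ∀ f g, p.Bd f → p.Bd g → p.Bd fun m => bb (f m) (g m)) {B C : Set p.I}
    {W : ℕ → ℕ → Prop} (h : ∀ x, x ∈ symmDiff B C ↔ ∀ᶠ m in U, W m (rep x m)) (k : p.I) :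
    Close p.M B C k ↔ ∃ i, p.Bd i ∧ ∀ b, p.Bd b → ∀ᶠ m in U, ∀ j < b m, i m < j →
      ct (W m) j * 2 ^ rep k m ≤ j := by
  have bp : p.Bd fun m => 2 ^ rep k m := (hb _ _ (bd_rep k) (bd_rep k)).mono
    (Eventually.of_forall fun _ => Nat.le_add_left _ _)
  have k1 : ∀ j c, Cnt p.M (symmDiff B C) j c ↔ ∀ᶠ m in U, rep c m = ct (W m) (rep j m) := fun j c =>
    rec_iff hb (r := fun m => ct (W m)) (st := fun m i y z => (W m i → z = y + 1) ∧ (¬ W m i → z = y))
      (T := fun i y z => (i ∈ symmDiff B C → z = p.M.add y p.M.one) ∧ (i ∉ symmDiff B C → z = y))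
      (bd_rep j) (rep_mk _ _) (fun m i y => by
        have := ct_succ (W m) i
        by_cases e : W m i <;> simp_all) (fun m i e => (ct_le _ _).trans e) fun i y z _ => by
      rw [h, ext_iff, ext_iff]
      by_cases e : ∀ᶠ m in U, W m (rep i m)
      · simp only [e, true_imp_iff, not_true, false_imp_iff, and_true]
        exact eventually_congr ((e.and (succ_ae y)).mono fun m a => by simp [a.1, a.2])
      · simp only [e, true_imp_iff, not_false_iff, false_imp_iff, true_and]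
        exact eventually_congr ((ae_not.2 e).mono fun m a => by simp [a])
  have k2 : ∀ e, Pow2 p.M k e ↔ ∀ᶠ m in U, rep e m = 2 ^ rep k m := fun e =>
    rec_iff hb (r := fun _ i => 2 ^ i) (st := fun _ _ y z => z = y + y)
      (T := fun _ y z => z = p.M.add y y) bp (rep_mk _ _) (fun m i y => by rw [pow_succ, mul_two])
      (fun m i e => Nat.pow_le_pow_right two_pos e) fun i y z _ => (ext_iff _ _).trans
        (eventually_congr ((add_ae y y).mono fun m a => by rw [a]))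
  have k3 : ∀ j : p.I, (∃ c e, Cnt p.M (symmDiff B C) j c ∧ Pow2 p.M k e ∧ ¬ p.M.lt j (p.M.mul c e)) ↔
      ∀ᶠ m in U, ct (W m) (rep j m) * 2 ^ rep k m ≤ rep j m := fun j => by
    have mu : ∀ c e : p.I, ∀ᶠ m in U, rep (p.M.mul c e) m = rep c m * rep e m := fun _ _ => rep_mk _ _
    refine ⟨fun ⟨c, e, a1, a2, a3⟩ => ?_, fun h => ?_⟩
    · filter_upwards [(k1 _ _).1 a1, (k2 _).1 a2, ae_not.2 a3, mu c e] with m b1 b2 b3 b4
      rw [← b1, ← b2, ← b4]
      exact not_lt.1 b3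
    · obtain ⟨c, hc⟩ := ex_rep ((bd_rep j).mono (Eventually.of_forall fun m => ct_le (W m) _))
      obtain ⟨e, he⟩ := ex_rep bp
      refine ⟨c, e, (k1 _ _).2 hc, (k2 _).2 he, ae_not.1 ?_⟩
      filter_upwards [hc, he, h, mu c e] with m b1 b2 b3 b4
      rw [b4, b1, b2]
      exact b3.not_gt
  simp only [Close, k3]
  refine ⟨fun ⟨i, h⟩ => ⟨_, bd_rep i, fun b hb => (ball_iff hb _).1 fun j _ => ?_⟩, fun ⟨i, h1, h2⟩ => ?_⟩
  · by_cases e : p.M.lt i j
    · exact (h j e).mono fun _ a _ => a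
    · exact (ae_not.2 e).mono fun _ a b => absurd b a
  · obtain ⟨i', hi⟩ := ex_rep h1
    exact ⟨i', fun j e => ((h2 _ ((bd_rep j).add (bd_const 1))).and (hi.and e)).mono fun m a =>
      a.1 _ (Nat.lt_succ_self _) (a.2.1 ▸ a.2.2)⟩

end Cut

end Pool.Agent.H40.Bsig
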