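import Pool.Agent.H40.Den1

set_option autoImplicit false

namespace Pool.Agent.H40.Bsig

open Filter Cut Classical

def dd (W : ℕ → Prop) (n n' x : ℕ) : Prop := ¬ (W (sp n x) ↔ W (sp n' x))

def ok (W : ℕ → Prop) (f : ℕ → ℕ) (d a t i : ℕ) : Prop := ∀ i' ≤ i, f^[dec d i'] a ≤ t ∧
  ct (dd W (f^[dec d i'] a) (f^[dec d i] a)) (2 * t) * 2 ^ f^[i'] a ≤ 2 * t

noncomputable def nu (W : ℕ → Prop) (f : ℕ → ℕ) (d a t : ℕ) : ℕ :=
  f^[dec d (Nat.findGreatest (ok W f d a t) t)] a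

def Val (W : ℕ → Prop) (h : H) (d a x : ℕ) : Prop :=
  nu W (Fh bb (restr h (2 ^ Nat.log 2 x))) d a (2 ^ Nat.log 2 x) ≤ x ∧
    W (sp (nu W (Fh bb (restr h (2 ^ Nat.log 2 x))) d a (2 ^ Nat.log 2 x)) x)

theorem sp_mono {a b c d : ℕ} (h : a ≤ c) (h' : b ≤ d) : sp a b ≤ sp c d :=
  Nat.add_le_add (Nat.mul_le_mul (Nat.add_le_add h h') (Nat.add_le_add h h')) h

theorem log_le (x : ℕ) : 2 ^ Nat.log 2 x ≤ x + 1 := by
  rcases x with _ | x
  · simp
  · exact (Nat.pow_log_le_self 2 x.succ_ne_zero).trans (Nat.le_succ _)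

theorem Val_congr {W W' : ℕ → Prop} {h : H} {d a x : ℕ}
    (e : ∀ t ≤ sp (x + 1) (2 * (x + 1)), W t ↔ W' t) : Val W h d a x ↔ Val W' h d a x := by
  have l := log_le x
  have : ∀ f, ok W f d a (2 ^ Nat.log 2 x) = ok W' f d a (2 ^ Nat.log 2 x) := fun f => by
    have k : ∀ i i', f^[dec d i'] a ≤ 2 ^ Nat.log 2 x → f^[dec d i] a ≤ 2 ^ Nat.log 2 x →
        ct (dd W (f^[dec d i'] a) (f^[dec d i] a)) (2 * 2 ^ Nat.log 2 x) =
          ct (dd W' (f^[dec d i'] a) (f^[dec d i] a)) (2 * 2 ^ Nat.log 2 x) := fun i i' a b =>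
      ct_congr fun y hy => not_congr (iff_congr (e _ (sp_mono (by omega) (by omega)))
        (e _ (sp_mono (by omega) (by omega))))
    exact funext fun i => propext ⟨fun a i' b => ⟨(a i' b).1, k i i' (a i' b).1 (a i le_rfl).1 ▸
      (a i' b).2⟩, fun a i' b => ⟨(a i' b).1, (k i i' (a i' b).1 (a i le_rfl).1).symm ▸ (a i' b).2⟩⟩
  simp only [Val, nu, this]
  exact and_congr_right fun a => e _ (sp_mono (by omega) (by omega))

def PV (b : Bool) (h : H) (d u : ℕ) : Prop := ∃ x z, u = sp x z ∧ x < z ∧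
  (∀ t ≤ sp (x + 1) (2 * (x + 1)), Rh (restr h z) (dec d 0) t ∨ Rh (restr h z) (dec d 1) t) ∧
  (Val (Rh (restr h z) (dec d 0)) (restr h z) (dec d 2) (dec d 3) x ↔ b = true)

def Rs (h : H) (c : ℕ) : ℕ → Prop
  | 0 => False
  | s + 1 => ¬ Rs h c (Nat.findGreatest (Rh (restr h (s + 1)) c) s)
  decreasing_by exact Nat.lt_succ_of_le (Nat.findGreatest_le _)

theorem Rs_restr (h : H) (c x s : ℕ) : s ≤ x → (Rs (restr h x) c s ↔ Rs h c s) := by
  induction s using Nat.strong_induction_on with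
  | _ s ih =>
    rcases s with _ | s
    · simp [Rs]
    · intro e
      rw [Rs, Rs, restr_restr _ e]
      exact not_congr (ih _ (Nat.lt_succ_of_le (Nat.findGreatest_le _))
        ((Nat.findGreatest_le _).trans (by omega)))

def Psi1 : ℕ → H → ℕ → ℕ → Prop
  | 0, h, d, x => ∃ k y z, x = sp (sp k y) z ∧ (Fh bb (restr h z))^[k] d ≤ y
  | 1, h, d, x => PV true h d x
  | 2, h, d, x => PV false h d x
  | _, h, _, x => ∃ c s, x = sp c s ∧ Rs h c s

noncomputable def P1 : Par := ⟨bb, Psi1⟩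

noncomputable abbrev C3 : Cut := P1.cut

theorem hbb (f g : ℕ → ℕ) (a : C3.Bd f) (b : C3.Bd g) : C3.Bd fun m => bb (f m) (g m) :=
  (Par.dom (p := P1) a b).mono (Eventually.of_forall fun _ =>
    (Nat.le_add_left _ _).trans (Nat.le_add_right _ _))

theorem decV {c c' : C3.I} (hc : (Zs c)ᶜ = Zs c') {d : ℕ → ℕ} (hd : C3.Bd d) :
    {x : C3.I | ∀ᶠ m in U, Val (Rh P1.g (rep c m)) P1.g (d m) m (rep x m)} ∈ C3.M.S := by
  have hD := (bd_rep c).pair ((bd_rep c').pair (hd.pair ((bd_it 0).pair (bd_const 0))))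
  have key : ∀ (b : Bool) (x : C3.I), (∃ z, ∀ᶠ m in U, PV b (restr P1.g (rep (pair C3.M x z) m))
      (Nat.pair (rep c m) (Nat.pair (rep c' m) (Nat.pair (d m) (Nat.pair m 0))))
      (rep (pair C3.M x z) m)) ↔
      ∀ᶠ m in U, (Val (Rh P1.g (rep c m)) P1.g (d m) m (rep x m) ↔ b = true) := fun b x => by
    have hb := bd_sp ((bd_rep x).add (bd_const 1)) ((bd_const 2).mul ((bd_rep x).add (bd_const 1)))
    have h8 := (ball_iff (hb.add (bd_const 1)) fun m t =>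
      Rh P1.g (rep c' m) t ↔ ¬ Rh P1.g (rep c m) t).1 fun t _ =>
        ae_iff ((Set.ext_iff.1 hc t).symm.trans ae_not.symm)
    have k : ∀ m z, rep x m < z → (∀ t ≤ sp (rep x m + 1) (2 * (rep x m + 1)),
        Rh (restr P1.g z) (rep c m) t ↔ Rh P1.g (rep c m) t) →
        (Val (Rh (restr P1.g z) (rep c m)) (restr P1.g z) (d m) m (rep x m) ↔
          Val (Rh P1.g (rep c m)) P1.g (d m) m (rep x m)) := fun m z a b =>
      (Val_congr b).trans (by simp only [Val, restr_restr _ ((log_le _).trans a)])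
    refine ⟨fun ⟨z, hz⟩ => ?_, fun h => ?_⟩
    · filter_upwards [hz, pair_ae x z, h8] with m ⟨x', z', a1, a2, a3, a4⟩ a5 a6
      obtain ⟨rfl, rfl⟩ := sp_inj (a5.symm.trans a1)
      simp only [a5, restr_restr _ (le_sp _ _).2, dec, Nat.unpair_pair] at a3 a4
      exact (k m _ a2 fun t ht => ⟨fun ⟨y, e⟩ => ⟨y, e.2⟩, fun e => (a3 t ht).resolve_right
        fun ⟨y, e'⟩ => (a6 t (Nat.lt_succ_of_le ht)).1 ⟨y, e'.2⟩ e⟩).symm.trans a4
    · obtain ⟨z, hz⟩ := ex_rep ((hb.add (bd_rep c)).add (bd_rep c')).F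
      refine ⟨z, ?_⟩
      filter_upwards [hz, pair_ae x z, h8, h] with m a1 a2 a3 a4
      have r := fun c t => Rh_restr (fam := bb) (h := P1.g) (c := c) (x := t) a1.ge
      have := (le_sp (rep x m + 1) (2 * (rep x m + 1))).1
      have l : rep x m < rep z m := a1 ▸ lt_of_le_of_lt (by omega) (C3.lt_F _)
      refine ⟨_, _, a2, l, ?_⟩
      simp only [a2, restr_restr _ (le_sp _ _).2, dec, Nat.unpair_pair]
      refine ⟨fun t ht => ?_, (k m _ l fun t ht => r _ _ (by omega) (by omega)).trans a4⟩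
      rw [r _ _ (by omega) (by omega), r _ _ (by omega) (by omega), a3 t (Nat.lt_succ_of_le ht)]
      exact _root_.em _
  obtain ⟨e, he⟩ := sig1 Par.sig (.mem (pT (.var 1) (.var 0)) 0) (fun _ => Par.decS (p := P1) 1 hD)
    fun _ => c
  obtain ⟨e', he'⟩ := sig1 Par.sig (.mem (pT (.var 1) (.var 0)) 0) (fun _ => Par.decS (p := P1) 2 hD)
    fun _ => c
  exact ⟨e, e', Set.ext fun x => ((he x).symm.trans ((key true x).trans (by simp))).symm,
    Set.ext fun x => ((he' x).symm.trans ((key false x).trans (by simp))).symm⟩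

theorem mem_sd {α : Type} {B C : Set α} {x : α} {P Q : ℕ → Prop} (h : x ∈ B ↔ ∀ᶠ m in U, P m)
    (h' : x ∈ C ↔ ∀ᶠ m in U, Q m) : x ∈ symmDiff B C ↔ ∀ᶠ m in U, ¬ (P m ↔ Q m) := by
  rw [Set.mem_symmDiff, h, h', ae_not]
  refine ⟨fun e a => ?_, fun e => by_contra fun a => e (ae_iff (by tauto))⟩
  have := eventually_congr a
  tauto

def Cl (W : ℕ → ℕ → Prop) (k n n' : ℕ → ℕ) : Prop := ∃ i, C3.Bd i ∧ ∀ b, C3.Bd b →
  ∀ᶠ m in U, ∀ j < b m, i m < j → ct (dd (W m) (n m) (n' m)) j * 2 ^ k m ≤ j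

theorem dd_tri (W : ℕ → Prop) {n n' : ℕ} (p j k : ℕ) (a : ct (dd W p n) j * 2 ^ (k + 1) ≤ j)
    (b : ct (dd W p n') j * 2 ^ (k + 1) ≤ j) : ct (dd W n n') j * 2 ^ k ≤ j := by
  have := Nat.mul_le_mul_right (2 ^ k) (cnt_or (r := dd W n n') (p := dd W p n) (q := dd W p n')
    (fun x => by unfold dd; tauto) j)
  rw [pow_succ] at a b
  nlinarith

theorem complete : Complete C3.M := by
  rintro _ ⟨c, c', rfl, hc⟩ h
  have col : ∀ n x : C3.I, x ∈ Col C3.M (Zs c) n ↔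
      ∀ᶠ m in U, Rh P1.g (rep c m) (sp (rep n m) (rep x m)) :=
    fun n x => eventually_congr ((pair_ae n x).mono fun m e => by rw [e]; rfl)
  have h1 : ∀ i, ∃ p : C3.I, ∀ n n', C3.Bd n → C3.Bd n' → (∀ᶠ m in U, rep p m < n m) →
      (∀ᶠ m in U, rep p m < n' m) → Cl (fun m => Rh P1.g (rep c m)) (fun m => C3.F^[i] m) n n' := fun i => by
    obtain ⟨k, hk⟩ := ex_rep ((bd_it (p := C3) i).add (bd_const 1))
    refine (h k).imp fun p hp n n' a a' b b' => ?_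
    obtain ⟨x, hx⟩ := ex_rep a
    obtain ⟨x', hx'⟩ := ex_rep a'
    obtain ⟨t, h1, h2⟩ := (close_iff hbb (W := fun m => dd (Rh P1.g (rep c m)) (rep p m) (rep x m))
      (fun y => mem_sd (col p y) (col x y)) k).1
      (hp x ((b.and hx).mono fun _ e => e.2 ▸ e.1))
    obtain ⟨t', h3, h4⟩ := (close_iff hbb (W := fun m => dd (Rh P1.g (rep c m)) (rep p m) (rep x' m))
      (fun y => mem_sd (col p y) (col x' y)) k).1
      (hp x' ((b'.and hx').mono fun _ e => e.2 ▸ e.1))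
    refine ⟨_, h1.max h3, fun b hb => ?_⟩
    filter_upwards [h2 b hb, h4 b hb, hk, hx, hx'] with m a1 a2 a3 a4 a5 j a6 a7
    rw [← a4, ← a5]
    exact dd_tri _ (rep p m) _ _ (a3 ▸ a1 j a6 (lt_of_le_of_lt (le_max_left _ _) a7))
      (a3 ▸ a2 j a6 (lt_of_le_of_lt (le_max_right _ _) a7))
  choose p hp using h1
  choose G hG using fun i => (bd_rep (p i)).add (bd_const 1)
  let g : ℕ → ℕ := fun i => ∑ j ∈ Finset.range (i + 1), G j
  have h2 : ∀ i' i, i' ≤ i → ∀ᶠ m in U, rep (p i') m < C3.F^[g i] m := fun i' i e => (hG i').mono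
    fun m a => Nat.lt_of_lt_of_le a ((C3.itm m).monotone (Finset.single_le_sum (f := G)
      (fun _ _ => Nat.zero_le _) (Finset.mem_range.2 (Nat.lt_succ_of_le e))))
  have h3 : ∀ j (g : ℕ → ℕ), ∃ d, ∀ i < j, dec d i = g i := fun j => by
    induction j with
    | zero => exact fun _ => ⟨0, by simp⟩
    | succ j ih =>
      refine fun g => (ih fun i => g (i + 1)).elim fun d e => ⟨Nat.pair (g 0) d, ?_⟩
      rw [dec_pair]
      rintro (_ | i) hi
      exacts [rfl, e i (by omega)]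
  obtain ⟨K, h4, h5⟩ := overspill (P := fun j m => ∃ d ≤ m, ∀ i < j, dec d i = g i) fun j =>
    (h3 j g).elim fun d e => (U_ge d).mono fun m a => ⟨d, a, e⟩
  obtain ⟨d, hd⟩ := ae_choose h5
  refine ⟨_, decV hc ((bd_it 0).mono (hd.mono fun _ e => e.1)), fun k => ?_⟩
  obtain ⟨i, hi⟩ := (bd_rep k).add (bd_const 4)
  refine ⟨p i, fun n hn => (close_iff hbb (W := fun m x => ¬ (Rh P1.g (rep c m) (sp (rep n m) x) ↔
    Val (Rh P1.g (rep c m)) P1.g (d m) m x)) (fun y => mem_sd (col n y) Iff.rfl) k).2 ?_⟩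
  choose t h6 h7 using fun i' : Fin (i + 1) => hp i' _ _ (bd_it (g i')) (bd_it (g i))
    (h2 _ _ le_rfl) (h2 _ _ (Nat.le_of_lt_succ i'.2))
  obtain ⟨t', h8, h9⟩ := hp i _ _ (bd_it (g i)) (bd_rep n) (h2 _ _ le_rfl) hn
  choose J hJ using h6
  obtain ⟨J', hJ'⟩ := h8
  set N := Finset.univ.sup J + J' + g i + i with hN
  have bp : C3.Bd fun m => 2 ^ (rep k m + 3) := (hbb _ _ ((bd_rep k).add (bd_const 3)) (bd_rep k)).mono
    (Eventually.of_forall fun _ => Nat.le_add_left _ _)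
  refine ⟨_, (((bd_const 2).mul (bd_it N)).add (bd_const 1)).mul bp, fun b hb => ?_⟩
  have b2 := ((bd_const 2).mul hb).add (bd_const 1)
  filter_upwards [eventually_all.2 fun i' => (h7 i' _ b2).and (hJ i'), h9 _ b2, hJ', hd, h4 (i + 1), hi,
    U_ge i] with m a1 a2 a3 a4 a5 a6 a7 j a8 a9
  have mo : ∀ {x}, x ≤ N → C3.F^[x] m ≤ C3.F^[N] m := fun e => (C3.itm m).monotone e
  have := blocks (fun x => ¬ (Rh P1.g (rep c m) (sp (rep n m) x) ↔
      Val (Rh P1.g (rep c m)) P1.g (d m) m x)) (C3.F^[N] m) (2 ^ (rep k m + 3)) j (fun s c1 c2 => by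
    have e : ∀ {x}, x ≤ N → (Fh bb (restr P1.g (2 ^ s)))^[x] m = C3.F^[x] m := fun e =>
      it_restr_eq ((mo e).trans c1.le)
    have gm : ∀ i' ≤ i, g i' ≤ N := fun i' e => (Finset.sum_le_sum_of_subset (Finset.range_mono
      (Nat.succ_le_succ e))).trans (show g i ≤ N by omega)
    have o : ok (Rh P1.g (rep c m)) (Fh bb (restr P1.g (2 ^ s))) (d m) m (2 ^ s) i := fun i' c3 => by
      rw [a4.2 i' (by omega), a4.2 i (by omega), e (gm i' c3), e (gm i le_rfl), e (x := i') (by omega)]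
      have c4 := a1 ⟨i', Nat.lt_succ_of_le c3⟩
      have c5 : J ⟨i', Nat.lt_succ_of_le c3⟩ ≤ Finset.univ.sup J := Finset.le_sup (Finset.mem_univ _)
      have := c4.2.trans (mo (by omega))
      exact ⟨(mo (gm i' c3)).trans c1.le, c4.1 _ (by omega) (by omega)⟩
    have c3 : i ≤ 2 ^ s := a7.trans ((mo (Nat.zero_le _)).trans c1.le)
    have o' := Nat.findGreatest_spec c3 o
    have o2 := (o' i (Nat.le_findGreatest c3 o)).2
    rw [a4.2 i (by omega), e (gm i le_rfl), e (x := i) (by omega)] at o2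
    refine ⟨dd (Rh P1.g (rep c m)) (rep n m) (nu (Rh P1.g (rep c m)) (Fh bb (restr P1.g (2 ^ s)))
      (d m) m (2 ^ s)), fun x c4 c5 => ?_, ?_⟩
    · have : Nat.log 2 x = s := Nat.log_eq_of_pow_le_of_lt_pow c4 (by rwa [pow_succ'])
      simp only [Val, this, dd]
      exact fun r r' => r (r'.trans (and_iff_right ((o' _ le_rfl).1.trans c4)).symm)
    · have := a3.trans (mo (by omega))
      have p2 := Nat.pow_le_pow_right two_pos a6
      exact dd_tri _ (C3.F^[g i] m) _ _ ((Nat.mul_le_mul_left _ p2).trans (a2 _ (by omega) (by omega)))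
        ((Nat.mul_le_mul_left _ p2).trans o2)) (by omega)
  rw [pow_add] at this a9
  nlinarith

def YS (j : ℕ) : Set C3.I := {x | ∀ᶠ m in U, Psi1 j (restr P1.g (rep x m)) m (rep x m)}

theorem YS_mem (j : ℕ) : YS j ∈ C3.M.S := Par.decS (p := P1) j (bd_it 0)

theorem mem0 (k y z : C3.I) : pair C3.M (pair C3.M k y) z ∈ YS 0 ↔
    ∀ᶠ m in U, (Fh bb (restr P1.g (rep z m)))^[rep k m] m ≤ rep y m := by
  refine eventually_congr (((pair_ae (pair C3.M k y) z).and (pair_ae k y)).mono fun m e => ?_)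
  rw [e.1, e.2]
  refine ⟨fun ⟨k', y', z', a, b⟩ => ?_, fun a => ⟨_, _, _, rfl, ?_⟩⟩
  · obtain ⟨a1, rfl⟩ := sp_inj a
    obtain ⟨rfl, rfl⟩ := sp_inj a1
    rwa [restr_restr _ (le_sp _ _).2] at b
  · rwa [restr_restr _ (le_sp _ _).2]

theorem notInd3 : ¬ Ind C3.M 2 :=
  not_ind (fun z k m => (Fh bb (restr P1.g z))^[k] m) (fun z k m => it_restr_le z m k)
    (fun j => (ex_rep (bd_it j)).imp fun z hz => hz.mono fun m e k hk =>
      (it_restr_eq (fam := bb) (h := P1.g) e.ge).symm.trans_le ((it_mono m).monotone hk))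
    (φ := .ex (.all (.mem (pT (pT (.var 2) (.var 1)) (.var 0)) 0))) ⟨_, ⟨_, .mem _ _, rfl⟩, rfl⟩
    (fun _ => C3.M.zero) (fun _ => YS_mem 0) fun k => exists_congr fun y => forall_congr' (mem0 k y)

theorem notCOH : ¬ COH C3.M := fun h => by
  obtain ⟨_, ⟨c, c', rfl, -⟩, h1, h2⟩ := h _ (YS_mem 3)
  have col : ∀ x : C3.I, x ∈ Col C3.M (YS 3) c ↔ ∀ᶠ m in U, Rs P1.g (rep c m) (rep x m) := fun x => by
    refine eventually_congr ((pair_ae c x).mono fun m e => ?_)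
    rw [e]
    refine ⟨fun ⟨_, _, a, b⟩ => ?_, fun a => ⟨_, _, rfl, (Rs_restr _ _ _ _ (le_sp _ _).2).2 a⟩⟩
    obtain ⟨rfl, rfl⟩ := sp_inj a
    exact (Rs_restr _ _ _ _ (le_sp _ _).2).1 b
  have key : ∀ b, ∃ s ∈ Zs c, ∃ y ∈ Zs c, C3.M.lt b s ∧ C3.M.lt b y ∧
      (s ∈ Col C3.M (YS 3) c ↔ y ∉ Col C3.M (YS 3) c) := fun b => by
    obtain ⟨y₀, a1, a2⟩ := h1 b
    obtain ⟨z, hz⟩ := ex_rep ((bd_rep y₀).add (bd_rep c)).F
    obtain ⟨s, a3, a4⟩ := h1 z
    obtain ⟨y, hy⟩ := ex_rep (f := fun m => Nat.findGreatest (Rh (restr P1.g (rep s m)) (rep c m))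
      (rep s m - 1)) ((bd_rep s).mono (Eventually.of_forall fun m =>
        (Nat.findGreatest_le _).trans (Nat.sub_le _ _)))
    have k : ∀ᶠ m in U, rep y₀ m < rep s m ∧ Rh (restr P1.g (rep s m)) (rep c m) (rep y₀ m) := by
      filter_upwards [a1, hz, a4] with m b1 b2 b3
      exact ⟨((Nat.le_add_right _ _).trans_lt (C3.lt_F _)).trans (b2 ▸ b3), (Rh_restr (fam := bb)
        (b2 ▸ b3).le (Nat.le_add_left _ _) (Nat.le_add_right _ _)).2 b1⟩
    refine ⟨s, a3, y, (k.and hy).mono fun m e => ?_, (k.and a2).mono fun m e => e.2.trans e.1.1,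
      (k.and (hy.and a2)).mono fun m e => e.2.2.trans_le (e.2.1 ▸ Nat.le_findGreatest
        (Nat.le_sub_one_of_lt e.1.1) e.1.2), ?_⟩
    · obtain ⟨w, hw⟩ := Nat.findGreatest_spec (Nat.le_sub_one_of_lt e.1.1) e.1.2
      exact ⟨w, e.2 ▸ hw.2⟩
    · rw [col, col, ← ae_not]
      refine eventually_congr ((k.and hy).mono fun m e => ?_)
      obtain ⟨t, ht⟩ : ∃ t, rep s m = t + 1 := ⟨rep s m - 1, by omega⟩
      rw [e.2, ht, Rs]
      rfl
  rcases h2 c with ⟨b, h⟩ | ⟨b, h⟩ <;> obtain ⟨s, a1, y, a2, a3, a4, a5⟩ := key b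
  · exact a5.1 (h s a1 a3) (h y a2 a4)
  · exact h s a1 a3 (a5.2 (h y a2 a4))

theorem notDOM : ¬ DOM C3.M := fun h => by
  obtain ⟨f, hf, hd⟩ := h _ (YS_mem 0)
  let PP : C3.I → C3.I → C3.I → Prop := fun k n v =>
    ¬ ∀ z, C3.M.lt z (C3.M.add v C3.M.one) → pair C3.M (pair C3.M k n) z ∈ YS 0
  have up : ∀ x y : C3.I, ∃ u, C3.M.lt x u ∧ C3.M.lt y u := fun x y =>
    (ex_rep (((bd_rep x).add (bd_rep y)).add (bd_const 1))).imp fun u e =>
      ⟨e.mono fun m e => by omega, e.mono fun m e => by omega⟩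
  have hA : ∀ k : C3.I, ∃ b, ∀ n, C3.M.lt b n → ((¬ ∃ j, ∀ᶠ m in U, rep k m = j) ↔ PP k n (f n)) := by
    intro k
    rcases std_or (rep k) with ⟨j, hj⟩ | hk
    · refine (ex_rep (bd_it j)).imp fun b hb n hn => iff_of_false (not_not.2 ⟨j, hj⟩) (not_not.2
        fun z _ => (mem0 k n z).2 ((hj.and (hb.and hn)).mono fun m e => ?_))
      exact e.1 ▸ (it_restr_le _ _ _).trans (e.2.1 ▸ e.2.2).le
    have ne : ∀ n : C3.I, ∃ t, C3.Bd t ∧ ∀ᶠ m in U,
        ¬ (Fh bb (restr P1.g (t m)))^[rep k m] m ≤ rep n m := fun n => by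
      obtain ⟨j, hj⟩ := bd_rep n
      exact ⟨_, bd_it (j + 1), (hj.and (hk (j + 1))).mono fun m e => not_le.2 ((e.1.trans_lt (C3.itm m
        j.lt_succ_self)).trans_le ((it_restr_eq (fam := bb) (h := P1.g) le_rfl).symm.trans_le
          ((it_mono m).monotone e.2)))⟩
    choose t h1 h2 using ne
    choose g hg using fun n => ex_rep (f := fun m => sInf {z | ¬ (Fh bb (restr P1.g z))^[rep k m] m ≤
      rep n m}) ((h1 n).mono ((h2 n).mono fun m e => Nat.sInf_le e))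
    have g1 : ∀ n, pair C3.M (pair C3.M k n) (g n) ∉ YS 0 := fun n => (mem0 _ _ _).not.2 (ae_not.1
      (((hg n).and (h2 n)).mono fun m e => e.1 ▸ Nat.sInf_mem (s := {z | ¬ (Fh bb (restr P1.g z))^[
        rep k m] m ≤ rep n m}) ⟨_, e.2⟩))
    have g2 : ∀ n z, C3.M.lt z (g n) → pair C3.M (pair C3.M k n) z ∈ YS 0 := fun n z e =>
      (mem0 _ _ _).2 ((e.and (hg n)).mono fun m e => not_not.1 (Nat.notMem_of_lt_sInf (e.2 ▸ e.1)))
    refine (hd g (.ex (.and (.neg (.mem (pT (pT (.var 3) (.var 2)) (.var 1)) 0)) (.ball (.var 1)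
      (.mem (pT (pT (.var 4) (.var 3)) (.var 0)) 0)))) (fun _ => k)
      ⟨_, .and (.neg (.mem _ _)) (.ball _ (.mem _ _)), rfl⟩ fun x y => ⟨?_, fun ⟨_, a, b⟩ =>
        (ext_iff _ _).2 (((ae_not.2 fun e => a (g2 x y e)).and (ae_not.2 fun e : C3.M.lt (g x) y =>
          g1 x (b _ e))).mono fun m e => by omega)⟩).imp fun b hb n hn => iff_of_true
        (fun ⟨j, e⟩ => (e.and (hk (j + 1))).exists.elim fun m e => by omega) fun e => g1 n (e _
          (((ae_not.2 (hb n hn)).and (succ_ae (f n))).mono fun m e => by omega))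
    rintro rfl
    exact ⟨x, g1 x, g2 x⟩
  obtain ⟨a, ha⟩ := ex_rep (bd_it (p := C3) 0)
  let Q : Fm := .neg (.ball (.add (.var 0) .one) (.mem (pT (pT (.var 6) (.var 2)) (.var 0)) 0))
  let θ : Fm := .ball (.var 0) (.ball (.var 1) (.neg (.and (.and (.lt (.var 4) (.var 1))
    (.mem (pT (.var 1) (.var 0)) 1)) (.neg (.and (.neg (.and (.eq (.var 3) .zero) Q.neg))
      (.neg (.and Q (.neg (.eq (.var 3) .zero)))))))))
  have hQ : Bdd Q := .neg (.ball _ (.mem _ _))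
  have key : ∀ w y x, Sat C3.M θ.all (cons w (cons y (cons x fun _ => a)))
      (cons (YS 0) fun _ => {p | ∃ n, p = pair C3.M n (f n)}) ↔
      ∀ n, C3.M.lt y n → (w = C3.M.zero ↔ PP x n (f n)) := fun w y x => by
    refine ⟨fun e n hn => (up n (f n)).elim fun u c => ?_, fun e u n _ v _ ⟨⟨c, n', d⟩, r⟩ => r ?_⟩
    · have := not_not.1 fun r => e u n c.1 (f n) c.2 ⟨⟨hn, n, rfl⟩, r⟩
      exact ⟨fun r => not_not.1 fun s => this.1 ⟨r, s⟩, fun r => not_not.1 fun s => this.2 ⟨r, s⟩⟩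
    · have d' := ((ext_iff _ _).1 (show pair C3.M n v = _ from d)).and ((pair_ae n v).and
        (pair_ae n' (f n'))) |>.mono fun m e => sp_inj (e.2.1.symm.trans (e.1.trans e.2.2))
      obtain rfl := (ext_iff n n').2 (d'.mono fun _ => And.left)
      obtain rfl := (ext_iff v (f n)).2 (d'.mono fun _ => And.right)
      exact ⟨fun r => r.2 ((e n c).1 r.1), fun r => r.2 ((e n c).2 r.1)⟩
  obtain ⟨b, hb⟩ := bnd Par.sig θ.all.ex ⟨_, ⟨_, .ball _ (.ball _ (.neg (.and (.and (.lt _ _)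
    (.mem _ _)) (.neg (.and (.neg (.and (.eq _ _) hQ.neg)) (.neg (.and hQ (.neg (.eq _ _))))))))),
    rfl⟩, rfl⟩ (fun _ => a) (cons (YS 0) fun _ => {p | ∃ n, p = pair C3.M n (f n)})
    (by rintro (_ | _); exacts [YS_mem 0, hf]) a fun x _ => (hA x).imp fun y hy => by
      by_cases e : ∃ j, ∀ᶠ m in U, rep x m = j
      · exact ⟨_, (key _ y x).2 fun n hn => (iff_of_false (basic.1 a) (not_not.2 e)).trans (hy n hn)⟩
      · exact ⟨_, (key _ y x).2 fun n hn => (iff_of_true rfl e).trans (hy n hn)⟩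
  have k2 : ∀ x, C3.M.lt x a → ((∃ j, ∀ᶠ m in U, rep x m = j) ↔ ∀ᶠ m in U, ∀ z < rep (C3.M.add (f b)
      C3.M.one) m, (Fh bb (restr P1.g z))^[rep x m] m ≤ rep b m) := fun x hx => by
    obtain ⟨y, h1, w, h2⟩ := hb x hx
    obtain ⟨y', h3⟩ := hA x
    obtain ⟨u, h4, h5⟩ := up y y'
    exact (not_iff_not.1 ((h3 u h5).trans (((key w y x).1 h2 u h4).symm.trans
      ((key w y x).1 h2 b h1)))).trans ((forall₂_congr fun z _ => mem0 x b z).trans
        (ball_iff (bd_rep _) fun m z => (Fh bb (restr P1.g z))^[rep x m] m ≤ rep b m))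
  obtain ⟨x, hx⟩ := ex_rep (f := fun m => m - 1) ((bd_it 0).mono (Eventually.of_forall fun _ =>
    Nat.sub_le _ _))
  have l : ∀ y : C3.I, (∃ j, ∀ᶠ m in U, rep y m = j) → C3.M.lt y a := fun y ⟨j, e⟩ =>
    (e.and (ha.and (U_ge (j + 1)))).mono fun m e => by simp only [Function.iterate_zero, id] at e; omega
  have lx : C3.M.lt x a := (hx.and (ha.and (U_ge 1))).mono fun m e => by
    simp only [Function.iterate_zero, id] at e; omega
  obtain ⟨j, hj⟩ := (k2 x lx).2 ((ae_or.1 (int_ind (fun m y => ¬ y < rep a m ∨ ∀ z < rep (C3.M.add (f b)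
    C3.M.one) m, (Fh bb (restr P1.g z))^[y] m ≤ rep b m) (((k2 _ (l _ ⟨0, rep_mk _ _⟩)).1
      ⟨0, rep_mk _ _⟩).mono fun _ => Or.inr) (fun y e => by
    by_cases c : C3.M.lt y a
    · obtain ⟨j, hj⟩ := (k2 y c).2 ((ae_or.1 e).resolve_left fun e => ae_not.1 e c)
      have : ∃ j, ∀ᶠ m in U, rep (C3.M.add y C3.M.one) m = j :=
        ⟨j + 1, (hj.and (succ_ae y)).mono fun m e => by omega⟩
      exact ((k2 _ (l _ this)).1 this).mono fun _ => Or.inr
    · exact ((ae_not.2 c).and (succ_ae y)).mono fun m e => Or.inl (by omega)) x)).resolve_left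
      fun e => ae_not.1 e lx)
  exact (hj.and (hx.and (U_ge (j + 2)))).exists.elim fun m e => by omega

end Pool.Agent.H40.Bsig
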