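import Mathlib

set_option autoImplicit false

namespace Pool.Agent.H40.Dichrom

open Cardinal

/-- Positive sets for the iterated product of the ideal of bounded sets. -/
def Full {W : Type} [LinearOrder W] : (N : ℕ) → Set (Fin N → W) → Prop
  | 0, S => S.Nonempty
  | N + 1, S => ∀ b : W, ∃ x, b < x ∧ Full N {t | (Fin.cons x t : Fin (N + 1) → W) ∈ S}

theorem full_colour {W : Type} [LinearOrder W] {C : Type}
    (hb : ∀ g : C → W, ∃ w, ∀ c, g c < w) :
    ∀ (N : ℕ) (c : (Fin N → W) → C), ∃ col, Full N {x | c x = col}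
  | 0, c => ⟨c Fin.elim0, ⟨Fin.elim0, rfl⟩⟩
  | N + 1, c => by
    by_contra h
    push Not at h
    have h' : ∀ col, ∃ b : W, ∀ x, b < x →
        ¬ Full N {t | c (Fin.cons x t : Fin (N + 1) → W) = col} := by
      intro col
      have := h col
      simp only [Full, not_forall, not_exists, not_and] at this
      exact this
    choose b hb' using h'
    obtain ⟨w, hw⟩ := hb b
    obtain ⟨col, hcol⟩ := full_colour hb N (fun t => c (Fin.cons w t : Fin (N + 1) → W))
    exact hb' col w (hw col) hcol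

theorem pick {W : Type} [LinearOrder W] [Nonempty W] {ι : Type} [Finite ι]
    (P : ι → W → Prop) (hP : ∀ r b, ∃ x, b < x ∧ P r x) (rk : ι → ℕ) :
    ∃ x : ι → W, (∀ r, P r (x r)) ∧ ∀ r r', rk r < rk r' → x r < x r' := by
  choose y hy1 hy2 using hP
  have hub : ∀ b : W, ∃ b', b ≤ b' ∧ ∀ r, y r b ≤ b' := by
    intro b
    obtain ⟨m, hm⟩ := Finite.exists_le (fun r => y r b)
    exact ⟨max b m, le_max_left _ _, fun r => (hm r).trans (le_max_right _ _)⟩
  choose nxt hn1 hn2 using hub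
  let B : ℕ → W := fun k => Nat.rec (Classical.arbitrary W) (fun _ b => nxt b) k
  have hB : ∀ k, B (k + 1) = nxt (B k) := fun k => rfl
  have hmono : Monotone B := monotone_nat_of_le_succ (fun k => by rw [hB]; exact hn1 _)
  refine ⟨fun r => y r (B (rk r)), fun r => hy2 _ _, fun r r' h => ?_⟩
  calc y r (B (rk r)) ≤ B (rk r + 1) := by rw [hB]; exact hn2 _ _
    _ ≤ B (rk r') := hmono h
    _ < y r' (B (rk r')) := hy1 _ _

theorem realize {W : Type} [LinearOrder W] [Nonempty W] {ι : Type} [Finite ι] :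
    ∀ (N : ℕ) (S : ι → Set (Fin N → W)) (_ : ∀ r, Full N (S r)) (rk : Fin N → ι → ℕ),
      ∃ u : ι → (Fin N → W), (∀ r, u r ∈ S r) ∧
        ∀ i r r', rk i r < rk i r' → u r i < u r' i
  | 0, S, hS, _ => by
    choose u hu using hS
    exact ⟨u, hu, fun i => i.elim0⟩
  | N + 1, S, hS, rk => by
    obtain ⟨x, hx1, hx2⟩ := pick
      (fun r x => Full N {t | (Fin.cons x t : Fin (N + 1) → W) ∈ S r}) (fun r b => hS r b) (rk 0)
    obtain ⟨u, hu1, hu2⟩ := realize N
      (fun r => {t | (Fin.cons (x r) t : Fin (N + 1) → W) ∈ S r}) hx1 (fun i => rk i.succ)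
    refine ⟨fun r => Fin.cons (x r) (u r), fun r => hu1 r, fun i => ?_⟩
    refine Fin.cases ?_ (fun i => ?_) i
    · intro r r' h
      simpa using hx2 r r' h
    · intro r r' h
      simpa using hu2 i r r' h

/-- The digraph: an arc from `u` to `v` when `u` is below `v` in all coordinates but at most one. -/
def G (W : Type) [LinearOrder W] (N : ℕ) : Digraph (Fin N → W) where
  Adj u v := ∃ j, ∀ i, i ≠ j → u i < v i

theorem no_short {W : Type} [LinearOrder W] {N k : ℕ} (hk : k + 1 < N)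
    (f : Fin (k + 1) → (Fin N → W)) : ¬ ∀ i : Fin (k + 1), (G W N).Adj (f i) (f (i + 1)) := by
  intro h
  choose j hj using h
  have : ¬ Function.Surjective j := by
    intro hs
    have := Fintype.card_le_of_surjective j hs
    simp at this
    omega
  simp only [Function.Surjective, not_forall, not_exists] at this
  obtain ⟨i0, hi0⟩ := this
  obtain ⟨r, hr⟩ := Finite.exists_max (fun r => f r i0)
  exact absurd (hj r i0 (fun e => hi0 r e.symm)) (not_lt.mpr (hr _))

theorem mono_cycle {W : Type} [LinearOrder W] [Nonempty W] {C : Type}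
    (hb : ∀ g : C → W, ∃ w, ∀ c, g c < w) (k : ℕ) (c : (Fin (k + 1) → W) → C) :
    ∃ f : Fin (k + 1) → (Fin (k + 1) → W), Function.Injective f ∧
      (∀ i : Fin (k + 1), (G W (k + 1)).Adj (f i) (f (i + 1))) ∧
      ∀ i j : Fin (k + 1), c (f i) = c (f j) := by
  obtain ⟨col, hcol⟩ := full_colour hb (k + 1) c
  obtain ⟨u, hu1, hu2⟩ := realize (ι := Fin (k + 1)) (k + 1) (fun _ => {x | c x = col})
    (fun _ => hcol) (fun i r => (r - i - 1 : Fin (k + 1)).val)
  refine ⟨u, ?_, ?_, ?_⟩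
  · intro r r' h
    by_contra hne
    have h1 : (r - 0 - 1 : Fin (k + 1)).val ≠ (r' - 0 - 1 : Fin (k + 1)).val := by
      intro e
      apply hne
      have := Fin.ext e
      simpa using this
    rcases lt_or_gt_of_ne h1 with h2 | h2
    · exact absurd (hu2 0 r r' h2) (by rw [h]; exact lt_irrefl _)
    · exact absurd (hu2 0 r' r h2) (by rw [h]; exact lt_irrefl _)
  · intro r
    refine ⟨r, fun i hi => hu2 i r (r + 1) ?_⟩
    have e : (r + 1 - i - 1 : Fin (k + 1)) = r - i := by abel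
    rw [e]
    have h0 : (0 : Fin (k + 1)) < r - i := by
      rw [Fin.pos_iff_ne_zero']
      intro h
      exact hi (sub_eq_zero.mp h).symm
    exact Fin.sub_one_lt_iff.mpr h0
  · intro i j
    rw [show c (u i) = col from hu1 i, show c (u j) = col from hu1 j]

theorem bounded_of_regular {ρ : Cardinal.{0}} (hρ : ρ.IsRegular) {C : Type} (hC : #C < ρ)
    (g : C → ρ.ord.ToType) : ∃ w, ∀ c, g c < w := by
  by_contra h
  push Not at h
  have hcof : IsCofinal (Set.range g) := by
    intro w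
    obtain ⟨c, hc⟩ := h w
    exact ⟨g c, ⟨c, rfl⟩, hc⟩
  have h1 := Order.cof_le hcof
  rw [Ordinal.cof_toType, hρ.cof_ord] at h1
  exact absurd (h1.trans Cardinal.mk_range_le) (not_le.mpr hC)

theorem exists_regular {κ : Cardinal.{0}} (hκ : ℵ₀ ≤ κ) {μ : Cardinal.{0}} (h : μ < κ) :
    ∃ ρ : Cardinal.{0}, ρ.IsRegular ∧ μ < ρ ∧ ρ ≤ κ := by
  rcases lt_or_ge μ ℵ₀ with h1 | h1
  · exact ⟨ℵ₀, isRegular_aleph0, h1, hκ⟩
  · exact ⟨Order.succ μ, isRegular_succ h1, Order.lt_succ μ, Order.succ_le_of_lt h⟩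

theorem exists_emb {α β : Ordinal.{0}} (h : α ≤ β) :
    ∃ e : α.ToType → β.ToType, StrictMono e := by
  have : Nonempty (α.ToType ≤i β.ToType) := by
    apply Ordinal.type_le_iff.mp
    rwa [Ordinal.type_toType, Ordinal.type_toType]
  obtain ⟨e⟩ := this
  exact ⟨e, e.strictMono⟩

theorem main (κ : Cardinal.{0}) (hκ : Cardinal.aleph0 ≤ κ) (n : ℕ) :
    ∃ (V : Type) (D : Digraph V),
      Cardinal.mk V = κ ∧
      (∀ v : V, ¬ D.Adj v v) ∧
      (∀ k : ℕ, k + 1 < n → ∀ f : Fin (k + 1) → V, Function.Injective f →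
        ¬ ∀ i : Fin (k + 1), D.Adj (f i) (f (i + 1))) ∧
      (∀ (C : Type) (c : V → C), Cardinal.mk C < κ →
        ∃ k : ℕ, ∃ f : Fin (k + 1) → V, Function.Injective f ∧
          (∀ i : Fin (k + 1), D.Adj (f i) (f (i + 1))) ∧
          ∀ i j : Fin (k + 1), c (f i) = c (f j)) := by
  refine ⟨Fin (n + 1 + 1) → κ.ord.ToType, G κ.ord.ToType (n + 1 + 1), ?_, ?_, ?_, ?_⟩
  · rw [← Cardinal.power_def, Cardinal.mk_ord_toType, Cardinal.mk_fin, Cardinal.power_natCast]
    exact Cardinal.power_nat_eq hκ (by omega)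
  · rintro v ⟨j, hj⟩
    obtain ⟨i, hi⟩ := exists_ne j
    exact lt_irrefl _ (hj i hi)
  · intro k hk f _
    exact no_short (by omega) f
  · intro C c hC
    obtain ⟨ρ, hρ, h1, h2⟩ := exists_regular hκ hC
    obtain ⟨e, he⟩ := exists_emb (Cardinal.ord_le_ord.mpr h2)
    have : Nonempty ρ.ord.ToType := by
      rw [Ordinal.nonempty_toType_iff]
      exact hρ.ord_pos.ne'
    obtain ⟨f, hf1, hf2, hf3⟩ := mono_cycle (bounded_of_regular hρ h1) (n + 1)
      (fun x => c (fun i => e (x i)))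
    refine ⟨n + 1, fun r i => e (f r i), ?_, ?_, hf3⟩
    · intro r r' h
      apply hf1
      funext i
      exact he.injective (congrFun h i)
    · intro r
      obtain ⟨j, hj⟩ := hf2 r
      exact ⟨j, fun i hi => he (hj i hi)⟩

end Pool.Agent.H40.Dichrom
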