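import Pool.Agent.H40.FptDefs

set_option autoImplicit false

namespace Pool.Agent.H40.Fpt

open FirstOrder FirstOrder.Language

abbrev LX (X : Type) : FirstOrder.Language.{0, 0} := ⟨fun _ => Empty, fun n => Fin n → X⟩

@[reducible] def str {X : Type} (s : Equiv.Perm X) : (LX X).Structure X where
  funMap := fun f => f.elim
  RelMap := fun t u => ∃ k : ℤ, ∀ i, u i = (s ^ k) (t i)

section Gen

variable {X : Type} (s : Equiv.Perm X)

theorem pow_mem (k : ℤ) : s ^ k ∈ @Aut (LX X) X (str s) := by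
  intro n R x
  constructor
  · rintro ⟨j, h⟩
    refine ⟨-k + j, fun i => ?_⟩
    rw [zpow_add, Equiv.Perm.mul_apply, ← h i, zpow_neg]
    exact ((s ^ k).symm_apply_apply _).symm
  · rintro ⟨j, h⟩
    exact ⟨k + j, fun i => by rw [zpow_add, Equiv.Perm.mul_apply, ← h i]; rfl⟩

theorem mem_aut {x₀ : X} (h0 : Function.Injective fun k : ℤ => (s ^ k) x₀) {g : Equiv.Perm X}
    (hg : g ∈ @Aut (LX X) X (str s)) : ∃ k : ℤ, s ^ k = g := by
  have key : ∀ x, ∃ k : ℤ, g x₀ = (s ^ k) x₀ ∧ g x = (s ^ k) x := fun x => by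
    obtain ⟨k, hk⟩ := (hg 2 ![x₀, x] ![x₀, x]).2 ⟨0, fun _ => rfl⟩
    exact ⟨k, hk 0, hk 1⟩
  obtain ⟨k, hk, -⟩ := key x₀
  refine ⟨k, Equiv.ext fun x => ?_⟩
  obtain ⟨j, h1, h2⟩ := key x
  rw [h2, show k = j from h0 (hk.symm.trans h1)]

noncomputable def autEquiv {x₀ : X} (h0 : Function.Injective fun k : ℤ => (s ^ k) x₀) :
    Multiplicative ℤ ≃* @Aut (LX X) X (str s) :=
  MulEquiv.ofBijective (zpowersHom _ ⟨s, zpow_one s ▸ pow_mem s 1⟩) ⟨fun a b h =>
    Multiplicative.toAdd.injective (h0 (congrArg (fun g : @Aut (LX X) X (str s) => g.1 x₀) h)),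
    fun g => by
      obtain ⟨k, hk⟩ := mem_aut s h0 g.2
      exact ⟨Multiplicative.ofAdd k, Subtype.ext hk⟩⟩

theorem top_bot {x₀ : X} (h0 : Function.Injective fun k : ℤ => (s ^ k) x₀) :
    @autTop (LX X) X (str s) = ⊥ := by
  refine eq_bot_of_singletons_open fun g => ?_
  letI : TopologicalSpace X := ⊥
  haveI : DiscreteTopology X := ⟨rfl⟩
  refine ⟨(fun f : X → X => f x₀) ⁻¹' {g.1 x₀}, (isOpen_discrete _).preimage (continuous_apply x₀),
    Set.eq_singleton_iff_unique_mem.2 ⟨rfl, fun g' h => Subtype.ext ?_⟩⟩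
  obtain ⟨k, hk⟩ := mem_aut s h0 g.2
  obtain ⟨j, hj⟩ := mem_aut s h0 g'.2
  have h' : g'.1 x₀ = g.1 x₀ := h
  rw [← hk, ← hj] at h' ⊢
  rw [show j = k from h0 h']

def toEquiv {L : FirstOrder.Language.{0, 0}} {M : Type} [L.Structure M]
    (hL : ∀ n, IsEmpty (L.Functions n)) (g : Equiv.Perm M) (hg : g ∈ Aut L M) : L.Equiv M M where
  toEquiv := g
  map_fun' := fun f => (hL _).elim f
  map_rel' := fun R x => hg _ R x

theorem fraisse [Countable X] [Infinite X] : @IsFraisseStructure (LX X) X (str s) := by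
  letI := str s
  refine ⟨fun _ => inferInstanceAs (IsEmpty Empty),
    fun n => inferInstanceAs (Countable (Fin n → X)), inferInstance, inferInstance, ?_⟩
  rintro S ⟨t, ht⟩ f
  have h1 : (S : Set X) ⊆ t := by
    rw [← ht]
    exact (Substructure.closure_le (L := LX X)
      (S := ⟨(t : Set X), fun f => Empty.elim f⟩)).2 subset_rfl
  haveI : Finite S := (t.finite_toSet.subset h1).to_subtype
  obtain ⟨n, ⟨e⟩⟩ := Finite.exists_equiv_fin S
  obtain ⟨k, hk⟩ := (f.map_rel (n := n) (fun i => (e.symm i).1) e.symm).2 ⟨0, fun _ => rfl⟩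
  refine ⟨toEquiv (fun _ => inferInstanceAs (IsEmpty Empty)) _ (pow_mem s k), ?_⟩
  ext x
  have := hk (e x)
  simp only [Function.comp_apply, Equiv.symm_apply_apply] at this
  exact this

end Gen

section Types

variable {L : FirstOrder.Language.{0, 0}} {M : Type} [L.Structure M] {n : ℕ}
  {p : Set (L.Formula (M ⊕ Fin n))}

theorem IsType.mem_of (h : IsType L M n p) (s : Set (L.Formula (M ⊕ Fin n))) (hs : s ⊆ p)
    (hf : s.Finite) (φ : L.Formula (M ⊕ Fin n))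
    (hφ : ∀ x : Fin n → M, (∀ ψ ∈ s, ψ.Realize (Sum.elim id x)) → φ.Realize (Sum.elim id x)) :
    φ ∈ p := by
  refine (h.1 φ).resolve_right fun hn => ?_
  obtain ⟨x, hx⟩ := h.2 (insert φ.not s) (Set.insert_subset hn hs) (hf.insert _)
  exact hx _ (Or.inl rfl) (hφ x fun ψ hψ => hx ψ (Or.inr hψ))

theorem IsType.not_both (h : IsType L M n p) {φ : L.Formula (M ⊕ Fin n)} (h1 : φ ∈ p)
    (h2 : φ.not ∈ p) : False := by
  obtain ⟨x, hx⟩ := h.2 {φ, φ.not} (Set.pair_subset h1 h2) (Set.toFinite _)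
  exact hx _ (Or.inr rfl) (hx _ (Or.inl rfl))

theorem real_rel (g : M → M) (φ : L.Formula (M ⊕ Fin n)) (x : Fin n → M) :
    (φ.relabel (Sum.map g id)).Realize (Sum.elim id x) ↔ φ.Realize (Sum.elim g x) := by
  rw [Formula.realize_relabel]
  refine iff_of_eq (congrArg _ (funext ?_))
  rintro (a | a) <;> rfl

theorem IsType.act (hL : ∀ n, IsEmpty (L.Functions n)) (h : IsType L M n p) (g : Equiv.Perm M)
    (hg : g ∈ Aut L M) : IsType L M n (act L M n g p) := by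
  refine ⟨fun φ => (h.1 (φ.relabel (Sum.map g.symm id))).imp id fun h1 =>
    h.mem_of {_} (Set.singleton_subset_iff.2 h1) (Set.finite_singleton _) _ fun x hx => ?_,
    fun s hs hf => ?_⟩
  · exact (real_rel _ _ _).2 fun h2 => hx _ rfl ((real_rel _ _ _).2 h2)
  · obtain ⟨x, hx⟩ := h.2 ((fun φ => φ.relabel (Sum.map g.symm id)) '' s)
      (by rintro _ ⟨φ, hφ, rfl⟩; exact hs hφ) (hf.image _)
    refine ⟨g ∘ x, fun φ hφ => ?_⟩
    have h1 := (StrongHomClass.realize_formula (toEquiv hL g hg) φ).2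
      ((real_rel _ _ _).1 (hx _ ⟨φ, hφ, rfl⟩))
    refine (iff_of_eq (congrArg _ (funext ?_))).1 h1
    rintro (a | a)
    · exact g.apply_symm_apply a
    · rfl

def eqf (c : M) (i : Fin n) : L.Formula (M ⊕ Fin n) :=
  (Term.var (Sum.inr i)).equal (Term.var (Sum.inl c))

theorem real_eqf (c : M) (i : Fin n) (v : M → M) (x : Fin n → M) :
    (eqf c i : L.Formula (M ⊕ Fin n)).Realize (Sum.elim v x) ↔ x i = v c :=
  Formula.realize_equal

end Types

/-! ### The integers with two extra points -/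

def s1 : Equiv.Perm ℤ := Equiv.addRight 1

theorem s1_pow (k x : ℤ) : (s1 ^ k) x = x + k := by
  simp [s1]

def s2 : Equiv.Perm (ℤ ⊕ Bool) := Equiv.Perm.sumCongr s1 Equiv.boolNot

theorem s2_pow (k : ℤ) : s2 ^ k = Equiv.Perm.sumCongr (s1 ^ k) (Equiv.boolNot ^ k) :=
  (map_zpow (Equiv.Perm.sumCongrHom ℤ Bool) (s1, Equiv.boolNot) k).symm

theorem inj1 : Function.Injective fun k : ℤ => (s1 ^ k) 0 := fun a b h => by
  simpa [s1_pow] using h

theorem inj2 : Function.Injective fun k : ℤ => (s2 ^ k) (Sum.inl 0) := fun a b h => by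
  simpa [s2_pow, s1_pow] using h

theorem not_fpt : ¬ @FPT (LX (ℤ ⊕ Bool)) (ℤ ⊕ Bool) (str s2) := by
  letI := str s2
  have hL : ∀ n, IsEmpty ((LX (ℤ ⊕ Bool)).Functions n) := fun _ => inferInstanceAs (IsEmpty Empty)
  let φ₀ : (LX (ℤ ⊕ Bool)).Formula ((ℤ ⊕ Bool) ⊕ Fin 1) :=
    eqf (Sum.inr true) 0 ⊔ eqf (Sum.inr false) 0
  have h0 : ∀ (v : ℤ ⊕ Bool → ℤ ⊕ Bool) (x : Fin 1 → ℤ ⊕ Bool), φ₀.Realize (Sum.elim v x) ↔
      x 0 = v (Sum.inr true) ∨ x 0 = v (Sum.inr false) := fun v x => by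
    rw [Formula.realize_sup, real_eqf, real_eqf]
  intro h
  obtain ⟨p, ⟨hp, h1⟩, h2⟩ := h 1 le_rfl {p | IsType _ _ 1 p ∧ φ₀ ∈ p} ⟨fun p hp => hp.1,
    ⟨{φ | φ.Realize (Sum.elim id fun _ => Sum.inr true)},
      ⟨fun φ => em _, fun s hs _ => ⟨_, fun φ hφ => hs hφ⟩⟩, (h0 _ _).2 (Or.inl rfl)⟩,
    fun q hq h3 => ⟨hq, (hq.1 φ₀).resolve_right fun h4 => by
      obtain ⟨p, hp, h5⟩ := h3 _ h4
      exact hp.1.not_both hp.2 h5⟩,
    fun g hg p hp => ⟨hp.1.act hL g hg, hp.1.mem_of {_} (Set.singleton_subset_iff.2 hp.2)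
      (Set.finite_singleton _) _ fun x hx => by
        obtain ⟨k, hk⟩ := mem_aut s2 inj2 (inv_mem hg)
        have h5 := (h0 _ _).1 (hx _ rfl)
        rw [real_rel, h0, show g.symm = s2 ^ k from hk.symm, s2_pow]
        have h6 : (Equiv.boolNot ^ k) true ≠ (Equiv.boolNot ^ k) false :=
          (Equiv.boolNot ^ k).injective.ne (by simp)
        simp only [Equiv.Perm.sumCongr_apply, Sum.map_inr, id] at h5 ⊢
        revert h6
        cases (Equiv.boolNot ^ k) true <;> cases (Equiv.boolNot ^ k) false <;> tauto⟩⟩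
  have h3 := h2 (s2 ^ (1 : ℤ)) (pow_mem s2 1)
  have h4 : ∀ b : Bool, eqf (Sum.inr b) 0 ∉ p := by
    intro b hb
    have h5 : eqf (Sum.inr !b) 0 ∈ p := by
      rw [← h3]
      refine hp.mem_of {_} (Set.singleton_subset_iff.2 hb) (Set.finite_singleton _) _
        fun x hx => ?_
      rw [real_rel, real_eqf, (real_eqf _ _ _ _).1 (hx _ rfl)]
      cases b <;> rfl
    obtain ⟨x, hx⟩ := hp.2 _ (Set.pair_subset hb h5) (Set.toFinite _)
    have h6 := ((real_eqf _ _ _ _).1 (hx _ (Or.inl rfl))).symm.trans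
      ((real_eqf _ _ _ _).1 (hx _ (Or.inr rfl)))
    cases b <;> simp at h6
  refine h4 true (hp.mem_of _ (Set.pair_subset h1 ((hp.1 _).resolve_left (h4 false)))
    (Set.toFinite _) _ fun x hx => ?_)
  exact (real_eqf _ _ _ _).2 (((h0 _ _).1 (hx _ (Or.inl rfl))).resolve_right
    fun h => hx _ (Or.inr rfl) ((real_eqf _ _ _ _).2 h))

/-! ### Locality for the integers -/

def Close (r : ℕ) (P : Set (ℤ × ℤ)) : Prop :=
  ∀ z ∈ P, ∀ w ∈ P, ∀ d : ℤ, |d| ≤ r → (z.1 - w.1 = d ↔ z.2 - w.2 = d)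

theorem Close.ext {r : ℕ} {P : Set (ℤ × ℤ)} (h : Close (2 * r) P) (hf : P.Finite) (a : ℤ) :
    ∃ a', Close r (insert (a, a') P) := by
  have key : ∀ a', (∀ w ∈ P, ∀ d : ℤ, |d| ≤ r → (a - w.1 = d ↔ a' - w.2 = d)) →
      Close r (insert (a, a') P) := by
    intro a' h1
    rintro z (rfl | hz) w (rfl | hw) d hd
    · simp
    · exact h1 w hw d hd
    · have := h1 z hz (-d) (by rwa [abs_neg])
      simp only
      omega
    · exact h z hz w hw d (by push_cast; omega)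
  by_cases hc : ∃ z ∈ P, |a - z.1| ≤ r
  · obtain ⟨z, hz, h1⟩ := hc
    refine ⟨z.2 + (a - z.1), key _ fun w hw d hd => ?_⟩
    have := h z hz w hw (d - (a - z.1)) (by
      rw [abs_le] at *
      push_cast; omega)
    omega
  · obtain ⟨B, hB⟩ := (hf.image Prod.snd).bddAbove
    refine ⟨B + r + 1, key _ fun w hw d hd => ?_⟩
    have h1 : ¬ |a - w.1| ≤ r := fun h => hc ⟨w, hw, h⟩
    have h2 : w.2 ≤ B := hB ⟨w, hw, rfl⟩
    rw [abs_le] at *
    omega

theorem Close.swap {r : ℕ} {P : Set (ℤ × ℤ)} (h : Close r P) : Close r (Prod.swap '' P) := by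
  rintro _ ⟨z, hz, rfl⟩ _ ⟨w, hw, rfl⟩ d hd
  exact (h z hz w hw d hd).symm

theorem Close.mono {r r' : ℕ} {P : Set (ℤ × ℤ)} (h : Close r P) (h' : r' ≤ r) : Close r' P :=
  fun z hz w hw d hd => h z hz w hw d (hd.trans (by exact_mod_cast h'))

theorem term_var {α : Type} (t : (LX ℤ).Term α) : ∃ a, t = Term.var a := by
  cases t with
  | var a => exact ⟨a, rfl⟩
  | func f _ => exact f.elim

theorem local_ {α : Type} {l : ℕ} (φ : (LX ℤ).BoundedFormula α l) :
    ∃ (r : ℕ) (F : Set α), F.Finite ∧ ∀ P : Set (ℤ × ℤ), P.Finite → Close r P →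
      ∀ (v v' : α → ℤ) (xs xs' : Fin l → ℤ), (∀ a ∈ F, (v a, v' a) ∈ P) →
        (∀ i, (xs i, xs' i) ∈ P) →
        (@BoundedFormula.Realize _ _ (str s1) _ _ φ v xs ↔
          @BoundedFormula.Realize _ _ (str s1) _ _ φ v' xs') := by
  letI := str s1
  have pr : ∀ {l : ℕ} (P : Set (ℤ × ℤ)) (v v' : α → ℤ) (xs xs' : Fin l → ℤ) (b : α ⊕ Fin l),
      (∀ a, Sum.inl a = b → (v a, v' a) ∈ P) → (∀ i, (xs i, xs' i) ∈ P) →
      (Sum.elim v xs b, Sum.elim v' xs' b) ∈ P := by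
    rintro l P v v' xs xs' (a | i) h1 h2
    · exact h1 a rfl
    · exact h2 i
  induction φ with
  | falsum => exact ⟨0, ∅, Set.finite_empty, fun _ _ _ _ _ _ _ _ _ => Iff.rfl⟩
  | equal t₁ t₂ =>
    obtain ⟨a, rfl⟩ := term_var t₁
    obtain ⟨b, rfl⟩ := term_var t₂
    refine ⟨0, Sum.inl ⁻¹' {a, b}, (Set.toFinite _).preimage Sum.inl_injective.injOn,
      fun P _ hP v v' xs xs' h1 h2 => ?_⟩
    have := hP _ (pr P v v' xs xs' a (fun c hc => h1 c (Or.inl hc)) h2) _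
      (pr P v v' xs xs' b (fun c hc => h1 c (Or.inr hc)) h2) 0 (by simp)
    simp only [sub_eq_zero] at this
    exact this
  | @rel l k R ts =>
    choose a ha using fun i => term_var (ts i)
    obtain ⟨r, hr⟩ := Finite.exists_le fun z : Fin k × Fin k => (R z.1 - R z.2).natAbs
    refine ⟨r, Sum.inl ⁻¹' Set.range a, (Set.finite_range _).preimage Sum.inl_injective.injOn,
      fun P _ hP v v' xs xs' h1 h2 => ?_⟩
    have e : ∀ u : Fin k → ℤ, (∃ j : ℤ, ∀ i, u i = (s1 ^ j) (R i)) ↔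
        ∀ i j, u i - u j = R i - R j := by
      intro u
      simp only [s1_pow]
      constructor
      · rintro ⟨j, h⟩ i i'
        rw [h, h]; ring
      · intro h
        rcases isEmpty_or_nonempty (Fin k) with h0 | ⟨⟨i₀⟩⟩
        · exact ⟨0, fun i => h0.elim i⟩
        · exact ⟨u i₀ - R i₀, fun i => by have := h i i₀; omega⟩
    refine (e _).trans (Iff.trans (forall₂_congr fun i j => ?_) (e _).symm)
    simp only [ha, Term.realize_var]
    refine hP _ (pr P v v' xs xs' (a i) (fun c hc => h1 c ⟨i, hc.symm⟩) h2) _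
      (pr P v v' xs xs' (a j) (fun c hc => h1 c ⟨j, hc.symm⟩) h2) _ ?_
    have := hr (i, j)
    rw [Int.abs_eq_natAbs]
    exact_mod_cast this
  | imp φ ψ ih1 ih2 =>
    obtain ⟨r, F, h1, h2⟩ := ih1
    obtain ⟨r', F', h3, h4⟩ := ih2
    exact ⟨max r r', F ∪ F', h1.union h3, fun P hf hP v v' xs xs' h5 h6 => imp_congr
      (h2 P hf (hP.mono (le_max_left _ _)) v v' xs xs' (fun a ha => h5 a (Or.inl ha)) h6)
      (h4 P hf (hP.mono (le_max_right _ _)) v v' xs xs' (fun a ha => h5 a (Or.inr ha)) h6)⟩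
  | @all l φ ih =>
    obtain ⟨r, F, h1, h2⟩ := ih
    have key : ∀ P : Set (ℤ × ℤ), P.Finite → Close (2 * r) P →
        ∀ (v v' : α → ℤ) (xs xs' : Fin l → ℤ), (∀ a ∈ F, (v a, v' a) ∈ P) →
        (∀ i, (xs i, xs' i) ∈ P) → φ.all.Realize v' xs' → φ.all.Realize v xs := by
      intro P hf hP v v' xs xs' h3 h4 h5 a
      obtain ⟨a', h6⟩ := hP.ext hf a
      refine (h2 _ (hf.insert _) h6 v v' _ (Fin.snoc xs' a') (fun b hb => Or.inr (h3 b hb))
        fun i => ?_).2 (h5 a')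
      refine Fin.lastCases ?_ (fun j => ?_) i
      · simp
      · simpa using Or.inr (h4 j)
    exact ⟨2 * r, F, h1, fun P hf hP v v' xs xs' h3 h4 =>
      ⟨key _ (hf.image _) hP.swap v' v xs' xs (fun a ha => ⟨_, h3 a ha, rfl⟩)
        fun i => ⟨_, h4 i, rfl⟩, key P hf hP v v' xs xs' h3 h4⟩⟩

theorem fpt : @FPT (LX ℤ) ℤ (str s1) := by
  letI := str s1
  have hL : ∀ n, IsEmpty ((LX ℤ).Functions n) := fun _ => inferInstanceAs (IsEmpty Empty)
  rintro n - S ⟨h1, ⟨p, hp⟩, h2, h3⟩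
  have hT := h1 p hp
  have hm : ∀ m : ℕ, IsType _ _ n (act (LX ℤ) ℤ n (s1 ^ (m : ℤ)) p) := fun m =>
    hT.act hL _ (pow_mem s1 m)
  let U := Filter.hyperfilter ℕ
  let q : Set ((LX ℤ).Formula (ℤ ⊕ Fin n)) :=
    {φ | ∀ᶠ m : ℕ in U, φ ∈ act (LX ℤ) ℤ n (s1 ^ (m : ℤ)) p}
  have hq : IsType _ _ n q := by
    refine ⟨fun φ => Ultrafilter.eventually_or.1 (Filter.Eventually.of_forall fun m =>
      (hm m).1 φ), fun s hs hf => ?_⟩
    obtain ⟨m, h4⟩ := ((Filter.eventually_all_finite hf).2 hs).exists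
    exact (hm m).2 s h4 hf
  refine ⟨q, h2 q hq fun φ hφ => ?_, fun g hg => ?_⟩
  · obtain ⟨m, h4⟩ := Filter.Eventually.exists hφ
    exact ⟨_, h3 _ (pow_mem s1 m) p hp, h4⟩
  obtain ⟨k, rfl⟩ := mem_aut s1 inj1 hg
  have inv : ∀ (j x : ℤ), (s1 ^ j).symm x = x - j := fun j x => by
    rw [Equiv.symm_apply_eq, s1_pow]; ring
  have hC : {c : ℤ | ∃ i, eqf c i ∈ p}.Finite := by
    rw [Set.ofPred_exists]
    refine Set.finite_iUnion fun i => Set.Subsingleton.finite fun c hc c' hc' => ?_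
    obtain ⟨x, hx⟩ := hT.2 _ (Set.pair_subset hc hc') (Set.toFinite _)
    exact ((real_eqf _ _ _ _).1 (hx _ (Or.inl rfl))).symm.trans
      ((real_eqf _ _ _ _).1 (hx _ (Or.inr rfl)))
  obtain ⟨B, hB⟩ := hC.bddBelow
  ext φ
  obtain ⟨r, F, h4, h5⟩ := local_ φ
  obtain ⟨D, hD⟩ := ((h4.preimage Sum.inl_injective.injOn).image fun b : ℤ => |b|).bddAbove
  have key : ∀ m : ℕ, D + |k| + r + |B| < m →
      (φ.relabel (Sum.map (s1 ^ k).symm id) ∈ act (LX ℤ) ℤ n (s1 ^ (m : ℤ)) p ↔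
        φ ∈ act (LX ℤ) ℤ n (s1 ^ (m : ℤ)) p) := by
    intro m hlt
    let T : Set ((LX ℤ).Formula (ℤ ⊕ Fin n)) := (fun z : ℤ × Fin n => (eqf z.1 z.2).not) ''
      (Set.Icc (-(D + |k| + r) - m) (D + |k| + r - m) ×ˢ Set.univ)
    have hTf : T.Finite := ((Set.finite_Icc _ _).prod Set.finite_univ).image _
    have hTp : T ⊆ p := by
      rintro _ ⟨⟨c, i⟩, ⟨hc, -⟩, rfl⟩
      refine (hT.1 _).resolve_left fun h => ?_
      have a1 : B ≤ c := hB ⟨i, h⟩
      have a2 := hc.2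
      have a3 := neg_abs_le B
      simp only at a2
      omega
    have hx : ∀ x : Fin n → ℤ, (∀ ψ ∈ T, ψ.Realize (Sum.elim id x)) →
        (((φ.relabel (Sum.map (s1 ^ k).symm id)).relabel
          (Sum.map (s1 ^ (m : ℤ)).symm id)).Realize (Sum.elim id x) ↔
        (φ.relabel (Sum.map (s1 ^ (m : ℤ)).symm id)).Realize (Sum.elim id x)) := by
      intro x hx
      have far : ∀ i, D + |k| + r < |x i + m| := by
        intro i
        by_contra hc
        rw [not_lt, abs_le] at hc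
        exact hx _ ⟨(x i, i), ⟨⟨by simp only; omega, by simp only; omega⟩, trivial⟩, rfl⟩
          ((real_eqf _ _ _ _).2 rfl)
      rw [real_rel, real_rel, Formula.realize_relabel]
      refine h5 ((fun a => ((Sum.elim (s1 ^ (m : ℤ)).symm x ∘ Sum.map (s1 ^ k).symm id) a,
        Sum.elim (s1 ^ (m : ℤ)).symm x a)) '' F) (h4.image _) ?_ _ _ _ _
        (fun a ha => ⟨a, ha, rfl⟩) fun i => i.elim0
      have a4 := le_abs_self k
      have a5 := neg_abs_le k
      rintro _ ⟨a | i, ha, rfl⟩ _ ⟨b | j, hb, rfl⟩ d hd <;>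
        simp only [Function.comp_apply, Sum.map_inl, Sum.map_inr, Sum.elim_inl, Sum.elim_inr, inv,
          id]
      · omega
      · have a1 : |a| ≤ D := hD ⟨a, ha, rfl⟩
        have a2 := far j
        rw [abs_le] at a1 hd
        rw [lt_abs] at a2
        omega
      · have a1 : |b| ≤ D := hD ⟨b, hb, rfl⟩
        have a2 := far i
        rw [abs_le] at a1 hd
        rw [lt_abs] at a2
        omega
    exact ⟨fun h => hT.mem_of (insert _ T) (Set.insert_subset h hTp) (hTf.insert _) _ fun x h6 =>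
        (hx x fun ψ hψ => h6 ψ (Or.inr hψ)).1 (h6 _ (Or.inl rfl)),
      fun h => hT.mem_of (insert _ T) (Set.insert_subset h hTp) (hTf.insert _) _ fun x h6 =>
        (hx x fun ψ hψ => h6 ψ (Or.inr hψ)).2 (h6 _ (Or.inl rfl))⟩
  refine Filter.eventually_congr (Filter.Eventually.mono ?_ key)
  refine Filter.hyperfilter_le_cofinite ?_
  rw [Nat.cofinite_eq_atTop]
  filter_upwards [Filter.eventually_gt_atTop (D + |k| + r + |B|).toNat] with m h
  show D + |k| + r + |B| < (m : ℤ)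
  omega

end Pool.Agent.H40.Fpt
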