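import Pool.Agent.H40.ErpDefs
import Pool.Agent.H40.Fpt

set_option autoImplicit false

namespace Pool.Agent.H40.Erp

open FirstOrder FirstOrder.Language Pool.Agent.H40.Fpt

theorem pull {L : FirstOrder.Language.{0, 0}} {M N : Type} [L.Structure M] [L.Structure N]
    (j : L.ElementaryEmbedding M N) {m n : ℕ} (e : Fin m → N) (φ : L.Formula (Fin m ⊕ Fin n))
    {I : Type} [Finite I] (x : I → Fin n → M) :
    ∃ e' : Fin m → M, ∀ t, φ.Realize (Sum.elim e (j ∘ x t)) ↔ φ.Realize (Sum.elim e' (x t)) := by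
  classical
  let ψ : I → L.Formula (M ⊕ Fin m) := fun t =>
    φ.relabel (Sum.elim Sum.inr fun i => Sum.inl (x t i))
  have hψ : ∀ {P : Type} [L.Structure P] (v : M → P) (w : Fin m → P) (t : I),
      (ψ t).Realize (Sum.elim v w) ↔ φ.Realize (Sum.elim w (v ∘ x t)) := by
    intro P _ v w t
    rw [Formula.realize_relabel]
    refine iff_of_eq (congrArg _ (funext ?_))
    rintro (a | a) <;> rfl
  let θ : L.Formula (M ⊕ Fin m) := Formula.iInf fun t =>
    if φ.Realize (Sum.elim e (j ∘ x t)) then ψ t else (ψ t).not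
  have h1 : (θ.iExs (Fin m)).Realize (j ∘ id) := by
    refine Formula.realize_iExs.2 ⟨e, Formula.realize_iInf.2 fun t => ?_⟩
    split_ifs with h
    · exact (hψ _ _ _).2 h
    · exact fun h' => h ((hψ _ _ _).1 h')
  obtain ⟨e', h2⟩ := Formula.realize_iExs.1 ((j.map_formula _ _).1 h1)
  refine ⟨e', fun t => ?_⟩
  have h3 := Formula.realize_iInf.1 h2 t
  split_ifs at h3 with h
  · exact iff_of_true h ((hψ _ _ _).1 h3)
  · exact iff_of_false h fun h' => h3 ((hψ _ _ _).2 h')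

def sub {L : FirstOrder.Language.{0, 0}} {M : Type} [L.Structure M]
    (hL : ∀ n, IsEmpty (L.Functions n)) (S : Set M) : L.Substructure M :=
  ⟨S, fun f => (hL _).elim f⟩

theorem hLX : ∀ n, IsEmpty ((LX ℤ).Functions n) := fun _ => inferInstanceAs (IsEmpty Empty)

instance : (LX ℤ).Structure ℤ := str s1

def a0 : Fin 1 → sub hLX ({0} : Set ℤ) := fun _ => ⟨0, rfl⟩

def pt (c : ℤ) : Copies (LX ℤ) ℤ a0 :=
  ⟨fun _ => c, (toEquiv hLX _ (pow_mem s1 c)).toEmbedding.comp (sub hLX {0}).subtype,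
    funext fun _ => ((s1_pow c 0).trans (zero_add c)).symm⟩

theorem arrow : Arrow (LX ℤ) ℤ Set.univ (sub hLX ({0, 1} : Set ℤ)) a0 2 := by
  rintro χ ⟨N, _, j, m, e, φ, hφ⟩
  obtain ⟨r, F, -, h⟩ := local_ (φ 1)
  obtain ⟨e', he⟩ := pull j e (φ 1) fun (z : Fin (m + 1) × Bool) (_ : Fin 1) =>
    (z.1 : ℤ) * (2 * r + 4) + if z.2 then 1 else 0
  have h1 : ∃ t : Fin (m + 1), ∀ i, r + 1 < |(t : ℤ) * (2 * r + 4) - e' i| := by
    by_contra hc
    push Not at hc
    choose f hf using hc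
    obtain ⟨t, t', h2, h3⟩ := Fintype.exists_ne_map_eq_of_card_lt f (by simp)
    have a1 := hf t
    have a2 := hf t'
    rw [← h3] at a2
    rw [abs_le] at a1 a2
    have a3 : (t : ℤ) ≠ t' := fun h => h2 (Fin.ext (by exact_mod_cast h))
    rcases lt_or_gt_of_ne a3 with a4 | a4 <;> nlinarith
  obtain ⟨t, ht⟩ := h1
  set c : ℤ := (t : ℤ) * (2 * r + 4) with hc
  have h2 : χ (pt c) = χ (pt (c + 1)) := by
    have a1 := he (t, false)
    have a2 := he (t, true)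
    simp only [Bool.false_eq_true, if_false, if_true, add_zero, ← hc] at a1 a2
    have a3 : (φ 1).Realize (Sum.elim e' fun _ => c) ↔ (φ 1).Realize (Sum.elim e' fun _ => c + 1) := by
      refine h (Set.range fun a => (Sum.elim e' (fun _ : Fin 1 => c) a,
        Sum.elim e' (fun _ => c + 1) a)) (Set.finite_range _) ?_ _ _ _ _ (fun a _ => ⟨a, rfl⟩)
        fun i => i.elim0
      rintro _ ⟨a | i, rfl⟩ _ ⟨b | i', rfl⟩ d hd <;> simp only [Sum.elim_inl, Sum.elim_inr]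
      · have := ht a
        rw [abs_le] at hd
        rw [lt_abs] at this
        omega
      · have := ht b
        rw [abs_le] at hd
        rw [lt_abs] at this
        omega
      · omega
    have a4 : χ (pt c) = 1 ↔ χ (pt (c + 1)) = 1 :=
      (hφ _ _).trans (a1.trans (a3.trans (a2.symm.trans (hφ (pt (c + 1)) 1).symm)))
    revert a4
    generalize χ (pt c) = u
    generalize χ (pt (c + 1)) = w
    revert u w
    decide
  have h3 : ∀ x : Copies (LX ℤ) ℤ a0, x.1 0 = c ∨ x.1 0 = c + 1 → χ x = χ (pt c) := by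
    intro x hx
    rcases hx with hx | hx
    · exact congrArg χ (Subtype.ext (funext fun i => (Subsingleton.elim i 0) ▸ hx))
    · exact (congrArg χ (Subtype.ext (funext fun i => (Subsingleton.elim i 0) ▸ hx))).trans h2.symm
  have h4 : ∀ y ∈ Set.range ((toEquiv hLX _ (pow_mem s1 c)).toEmbedding.comp
      (sub hLX ({0, 1} : Set ℤ)).subtype), y = c ∨ y = c + 1 := by
    rintro _ ⟨⟨z, rfl | rfl⟩, rfl⟩
    · exact Or.inl ((s1_pow c 0).trans (zero_add c))
    · exact Or.inr ((s1_pow c 1).trans (add_comm 1 c))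
  exact ⟨_, Set.subset_univ _, fun x y hx hy =>
    (h3 x (h4 _ (hx 0))).trans (h3 y (h4 _ (hy 0))).symm⟩

theorem not_arrow (S : Set ℤ) (hS : S.Finite) :
    ¬ Arrow (LX ℤ) ℤ S (sub hLX ({0, 1} : Set ℤ)) a0 2 := by
  classical
  intro h
  have hF : Finite {c // c ∈ S ∧ Even c} := (hS.subset fun _ h => h.1).to_subtype
  let ψ : (LX ℤ).Formula (Fin 1 ⊕ Fin 1) := Formula.iSup fun c : {c // c ∈ S ∧ Even c} =>
    Relations.formula (L := LX ℤ) (n := 2) ![0, c.1] ![Term.var (Sum.inl 0), Term.var (Sum.inr 0)]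
  have hψ : ∀ x : Fin 1 → ℤ, ψ.Realize (Sum.elim (fun _ => 0) x) ↔ x 0 ∈ S ∧ Even (x 0) := by
    intro x
    rw [Formula.realize_iSup]
    constructor
    · rintro ⟨c, k, hk⟩
      have a1 : (0 : ℤ) = (s1 ^ k) 0 := hk 0
      have a2 : x 0 = (s1 ^ k) c.1 := hk 1
      rw [s1_pow] at a1 a2
      rw [show x 0 = c.1 by omega]
      exact c.2
    · intro hx
      refine ⟨⟨_, hx⟩, 0, fun i => ?_⟩
      fin_cases i <;> rfl
  obtain ⟨g, h1, h2⟩ := h (fun x => if x.1 0 ∈ S ∧ Even (x.1 0) then 1 else 0)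
    ⟨ℤ, inferInstance, ElementaryEmbedding.refl _ _, 1, fun _ => 0, ![ψ.not, ψ], fun x i => by
      fin_cases i
      · refine Iff.trans ?_ (not_congr (hψ x.1)).symm
        by_cases h : x.1 0 ∈ S ∧ Even (x.1 0) <;> simp [h]
      · refine Iff.trans ?_ (hψ x.1).symm
        by_cases h : x.1 0 ∈ S ∧ Even (x.1 0) <;> simp [h]⟩
  obtain ⟨k, hk⟩ := (g.map_rel (n := 2) ![0, 1] ![⟨0, Or.inl rfl⟩, ⟨1, Or.inr rfl⟩]).2
    ⟨0, fun i => by fin_cases i <;> rfl⟩
  have a1 : g ⟨0, Or.inl rfl⟩ = (s1 ^ k) 0 := hk 0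
  have a2 : g ⟨1, Or.inr rfl⟩ = (s1 ^ k) 1 := hk 1
  rw [s1_pow] at a1 a2
  have a3 := h2 (pt (0 + k)) (pt (1 + k)) (fun _ => ⟨_, a1⟩) fun _ => ⟨_, a2⟩
  have a4 : 0 + k ∈ S := h1 ⟨_, a1⟩
  have a5 : 1 + k ∈ S := h1 ⟨_, a2⟩
  simp only [pt, a4, a5, true_and, Int.even_add] at a3
  by_cases hk : Even k <;> simp [hk] at a3

section Types

variable {L : FirstOrder.Language.{0, 0}} {M : Type} [L.Structure M] {n : ℕ}

theorem lim {S : Set (Set (L.Formula (M ⊕ Fin n)))} (hS : IsSubflow L M n S) {I : Type}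
    (U : Ultrafilter I) (p : I → Set (L.Formula (M ⊕ Fin n))) (hp : ∀ i, p i ∈ S) :
    {φ | ∀ᶠ i in U, φ ∈ p i} ∈ S := by
  refine hS.2.2.1 _ ⟨fun φ => Ultrafilter.eventually_or.1 (Filter.Eventually.of_forall fun m =>
      (hS.1 _ (hp m)).1 φ), fun s hs hf => ?_⟩ fun φ hφ => ?_
  · obtain ⟨m, h4⟩ := ((Filter.eventually_all_finite hf).2 hs).exists
    exact (hS.1 _ (hp m)).2 s h4 hf
  · obtain ⟨m, h4⟩ := Filter.Eventually.exists hφ
    exact ⟨_, hp m, h4⟩

theorem exU (X : Type) : ∃ U : Ultrafilter (Finset X), ∀ x, ∀ᶠ s in (U : Filter (Finset X)), x ∈ s :=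
  ⟨Ultrafilter.of Filter.atTop, fun x => Ultrafilter.of_le _
    ((Filter.eventually_ge_atTop ({x} : Finset X)).mono fun _ h => h (Finset.mem_singleton_self x))⟩

theorem realized [Nonempty M] {p : Set (L.Formula (M ⊕ Fin n))} (hp : IsType L M n p) :
    ∃ (N : Type) (_ : L.Structure N) (j : L.ElementaryEmbedding M N) (e : Fin n → N),
      ∀ φ, φ ∈ p ↔ φ.Realize (Sum.elim j e) := by
  obtain ⟨U, hU⟩ := exU p
  choose x hx using fun s : Finset p => hp.2 (Subtype.val '' (s : Set p))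
    (by rintro _ ⟨a, -, rfl⟩; exact a.2) (s.finite_toSet.image _)
  have key : ∀ φ ∈ p, φ.Realize (Sum.elim
      (fun a => ((fun _ => a : Finset p → M) : (U : Filter (Finset p)).Product fun _ => M))
      fun i => ((fun s => x s i : Finset p → M) : (U : Filter (Finset p)).Product fun _ => M)) := by
    intro φ hφ
    refine (iff_of_eq (congrArg _ (funext ?_))).1
      ((Ultraproduct.realize_formula_cast (M := fun _ => M) φ
        (Sum.elim (fun a _ => a) fun i s => x s i)).2 ((hU ⟨φ, hφ⟩).mono fun s hs =>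
          (iff_of_eq (congrArg _ (funext ?_))).1 (hx s φ ⟨_, hs, rfl⟩))) <;>
      rintro (i | i) <;> rfl
  refine ⟨(U : Filter (Finset p)).Product fun _ => M, inferInstance,
    ⟨fun a => ((fun _ => a : Finset p → M) : (U : Filter (Finset p)).Product fun _ => M),
      fun k φ y => (Ultraproduct.realize_formula_cast (M := fun _ => M) φ
        (fun i _ => y i)).trans Filter.eventually_const⟩, _, fun φ =>
    ⟨key φ, fun h => (hp.1 φ).resolve_right fun h' => key _ h' h⟩⟩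

theorem mem_congr {p : Set (L.Formula (M ⊕ Fin n))} (hp : IsType L M n p)
    {φ ψ : L.Formula (M ⊕ Fin n)}
    (h : ∀ x, φ.Realize (Sum.elim id x) ↔ ψ.Realize (Sum.elim id x)) : φ ∈ p ↔ ψ ∈ p :=
  ⟨fun h1 => hp.mem_of {_} (Set.singleton_subset_iff.2 h1) (Set.finite_singleton _) _
    fun x hx => (h x).1 (hx _ rfl), fun h1 => hp.mem_of {_} (Set.singleton_subset_iff.2 h1)
      (Set.finite_singleton _) _ fun x hx => (h x).2 (hx _ rfl)⟩

theorem mem_act {p : Set (L.Formula (M ⊕ Fin n))} (hp : IsType L M n p) (g : Equiv.Perm M)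
    (v : M → M) (φ : L.Formula (M ⊕ Fin n)) :
    φ.relabel (Sum.map v id) ∈ act L M n g p ↔ φ.relabel (Sum.map (g.symm ∘ v) id) ∈ p :=
  mem_congr hp fun x => by
    rw [real_rel, real_rel, Formula.realize_relabel]
    refine iff_of_eq (congrArg _ (funext ?_))
    rintro (a | a) <;> rfl

theorem mem_id {p : Set (L.Formula (M ⊕ Fin n))} (hp : IsType L M n p)
    (φ : L.Formula (M ⊕ Fin n)) : φ.relabel (Sum.map id id) ∈ p ↔ φ ∈ p :=
  mem_congr hp fun x => real_rel _ _ _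

def Cst (ψ : L.Formula (M ⊕ Fin n)) (p : Set (L.Formula (M ⊕ Fin n))) : Prop :=
  ∀ g h : Aut L M, ψ.relabel (Sum.map g.1 id) ∈ p → ψ.relabel (Sum.map h.1 id) ∈ p

theorem step (hL : ∀ n, IsEmpty (L.Functions n)) (hM : L.IsUltrahomogeneous M) (hE : EDRP L M)
    [Nonempty M] {p : Set (L.Formula (M ⊕ Fin n))} (hp : IsType L M n p)
    (ψ : L.Formula (M ⊕ Fin n)) (T : Finset (Aut L M)) : ∃ u ∈ Aut L M, ∀ g ∈ T, ∀ h ∈ T,
      ψ.relabel (Sum.map g.1 id) ∈ act L M n u p → ψ.relabel (Sum.map h.1 id) ∈ act L M n u p := by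
  classical
  obtain ⟨N, _, j, e, he⟩ := realized hp
  let F : Set M := Sum.inl ⁻¹' (ψ.freeVarFinset : Set (M ⊕ Fin n))
  have hF : F.Finite := ψ.freeVarFinset.finite_toSet.preimage Sum.inl_injective.injOn
  haveI : Finite (sub hL F) := hF.to_subtype
  obtain ⟨k, ⟨a⟩⟩ := Finite.exists_equiv_fin (sub hL F)
  let B : Set M := ⋃ g ∈ T, g.1 '' F
  have hB : B.Finite := T.finite_toSet.biUnion fun _ _ => hF.image _
  let r : ψ.freeVarFinset → Fin n ⊕ Fin k := fun z => match z with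
    | ⟨Sum.inl c, hc⟩ => Sum.inr (a ⟨c, hc⟩)
    | ⟨Sum.inr i, _⟩ => Sum.inl i
  let φ : L.Formula (Fin n ⊕ Fin k) := BoundedFormula.restrictFreeVar ψ r
  have hφ : ∀ v : M → M, φ.Realize (Sum.elim e (j ∘ fun i => v (a.symm i).1)) ↔
      ψ.relabel (Sum.map v id) ∈ p := by
    intro v
    rw [he, Formula.realize_relabel]
    refine BoundedFormula.realize_restrictFreeVar _ ?_
    rintro ⟨c | i, hc⟩
    · exact congrArg (fun z : sub hL F => j (v z.1)) (a.symm_apply_apply ⟨c, hc⟩)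
    · rfl
  obtain ⟨f, -, h2⟩ := hE (sub hL F) k a.symm (sub hL B) ⟨inferInstance, ⟨Substructure.subtype _⟩⟩
    a.symm.bijective ⟨hB.to_subtype, ⟨Substructure.subtype _⟩⟩ 2 (by norm_num)
    (fun x => if φ.Realize (Sum.elim e (j ∘ x.1)) then 1 else 0)
    ⟨N, inferInstance, j, n, e, ![φ.not, φ], fun x i => by
      fin_cases i <;> by_cases h : φ.Realize (Sum.elim e (j ∘ x.1)) <;> simp [h]⟩
  obtain ⟨u, hu⟩ := hM (sub hL B) ⟨hB.toFinset, by
    rw [Set.Finite.coe_toFinset]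
    exact (sub hL B).closure_eq⟩ f
  have hu' : u.toEquiv ∈ Aut L M := fun _ R x => u.map_rel R x
  let cp : Aut L M → Copies L M a.symm := fun g => ⟨fun i => u (g.1 (a.symm i).1),
    u.toEmbedding.comp ((toEquiv hL g.1 g.2).toEmbedding.comp (Substructure.subtype _)), rfl⟩
  have hcp : ∀ g ∈ T, ∀ i, (cp g).1 i ∈ Set.range f := fun g hg i =>
    ⟨⟨g.1 (a.symm i).1, Set.mem_biUnion hg ⟨_, (a.symm i).2, rfl⟩⟩, by rw [hu]; rfl⟩
  refine ⟨u.toEquiv⁻¹, inv_mem hu', fun g hg h hh h3 => ?_⟩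
  rw [mem_act hp, ← hφ] at h3 ⊢
  have h4 := h2 _ _ (hcp g hg) (hcp h hh)
  by_contra h5
  simp only [] at h4
  rw [if_pos (show φ.Realize (Sum.elim e (j ∘ (cp g).1)) from h3),
    if_neg (show ¬ φ.Realize (Sum.elim e (j ∘ (cp h).1)) from h5)] at h4
  exact absurd h4 (by decide)

theorem sub_flow (hL : ∀ n, IsEmpty (L.Functions n)) (hM : L.IsUltrahomogeneous M)
    (hE : EDRP L M) [Nonempty M] {S : Set (Set (L.Formula (M ⊕ Fin n)))} (hS : IsSubflow L M n S)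
    (ψ : L.Formula (M ⊕ Fin n)) : IsSubflow L M n {p | p ∈ S ∧ Cst ψ p} := by
  refine ⟨fun p hp => hS.1 p hp.1, ?_, fun q hq h => ⟨hS.2.2.1 q hq fun φ hφ =>
    (h φ hφ).imp fun _ h => ⟨h.1.1, h.2⟩, fun g g' h1 => (hq.1 _).resolve_right fun h2 => ?_⟩,
    fun g hg p hp => ⟨hS.2.2.2 g hg p hp.1, fun u u' h => ?_⟩⟩
  · obtain ⟨p, hp⟩ := hS.2.1
    choose u h1 h2 using step hL hM hE (hS.1 p hp) ψ
    obtain ⟨U, hU⟩ := exU (Aut L M)
    refine ⟨_, lim hS U (fun T => act L M n (u T) p) fun T => hS.2.2.2 _ (h1 T) p hp,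
      fun g h h3 => ?_⟩
    filter_upwards [h3, hU g, hU h] with T a1 a2 a3
    exact h2 T g a2 h a3 a1
  · obtain ⟨p, ⟨h3, h4⟩, h5⟩ := h (ψ.relabel (Sum.map g.1 id) ⊓ (ψ.relabel (Sum.map g'.1 id)).not)
      (hq.mem_of _ (Set.pair_subset h1 h2) (Set.toFinite _) _ fun x hx =>
        Formula.realize_inf.2 ⟨hx _ (Or.inl rfl), hx _ (Or.inr rfl)⟩)
    have hp := hS.1 p h3
    exact hp.not_both (h4 g g' (hp.mem_of {_} (Set.singleton_subset_iff.2 h5)
      (Set.finite_singleton _) _ fun x hx => (Formula.realize_inf.1 (hx _ rfl)).1))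
      (hp.mem_of {_} (Set.singleton_subset_iff.2 h5)
      (Set.finite_singleton _) _ fun x hx => (Formula.realize_inf.1 (hx _ rfl)).2)
  · rw [mem_act (hS.1 p hp.1)] at h ⊢
    exact hp.2 ((⟨g, hg⟩ : Aut L M)⁻¹ * u) ((⟨g, hg⟩ : Aut L M)⁻¹ * u') h

theorem fpt_of_edrp (hL : ∀ n, IsEmpty (L.Functions n)) (hM : L.IsUltrahomogeneous M)
    (hE : EDRP L M) : FPT L M := by
  classical
  intro n hn S hS
  haveI : Nonempty M := by
    obtain ⟨p, hp⟩ := hS.2.1
    obtain ⟨x, -⟩ := (hS.1 p hp).2 ∅ (Set.empty_subset _) Set.finite_empty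
    exact ⟨x ⟨0, hn⟩⟩
  have h1 : ∀ T : Finset (L.Formula (M ⊕ Fin n)),
      IsSubflow L M n {p | p ∈ S ∧ ∀ ψ ∈ T, Cst ψ p} := by
    intro T
    induction T using Finset.induction_on with
    | empty => simpa using hS
    | insert ψ T _ ih =>
      have := sub_flow hL hM hE ih ψ
      simpa only [Finset.forall_mem_insert, Set.mem_ofPred_eq, and_assoc, and_comm, and_left_comm]
        using this
  choose p h2 h3 using fun T => (h1 T).2.1
  obtain ⟨U, hU⟩ := exU (L.Formula (M ⊕ Fin n))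
  have h4 := lim hS U p h2
  have h5 : ∀ ψ, Cst ψ {φ | ∀ᶠ i in U, φ ∈ p i} := fun ψ g h h5 => by
    filter_upwards [h5, hU ψ] with T a1 a2
    exact h3 T ψ a2 g h a1
  refine ⟨_, h4, fun g hg => Set.ext fun ψ => ?_⟩
  rw [← mem_id (hS.1 _ h4) ψ]
  exact ⟨h5 ψ (⟨g, hg⟩ : Aut L M)⁻¹ 1, h5 ψ 1 (⟨g, hg⟩ : Aut L M)⁻¹⟩

end Types

end Pool.Agent.H40.Erp
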