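import Pool.Agent.H40.FptDefs

set_option autoImplicit false

namespace Pool.Agent.H40.Erp

open FirstOrder

variable (L : FirstOrder.Language.{0, 0}) (M : Type) [L.Structure M]

/-- The copies of an enumerated structure `a`: the tuples `f ∘ a` for embeddings `f` into `M`. -/
def Copies {A : Type} [L.Structure A] {n : ℕ} (a : Fin n → A) : Type :=
  {x : Fin n → M // ∃ f : L.Embedding A M, x = f ∘ a}

/-- An externally definable colouring with `k` colours. -/
def ExtDef {A : Type} [L.Structure A] {n : ℕ} (a : Fin n → A) {k : ℕ}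
    (χ : Copies L M a → Fin k) : Prop :=
  ∃ (N : Type) (_ : L.Structure N) (j : L.ElementaryEmbedding M N) (m : ℕ) (e : Fin m → N)
    (φ : Fin k → L.Formula (Fin m ⊕ Fin n)),
    ∀ (x : Copies L M a) (i : Fin k), χ x = i ↔ (φ i).Realize (Sum.elim e (j ∘ x.1))

/-- The colouring is constant on the copies of `a` inside `S`. -/
def Mono {A : Type} [L.Structure A] {n : ℕ} (a : Fin n → A) {k : ℕ}
    (χ : Copies L M a → Fin k) (S : Set M) : Prop :=
  ∀ x y : Copies L M a, (∀ i, x.1 i ∈ S) → (∀ i, y.1 i ∈ S) → χ x = χ y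

/-- Every externally definable `k`-colouring has a monochromatic copy of `B` inside `S`. -/
def Arrow (S : Set M) (B : Type) [L.Structure B] {A : Type} [L.Structure A] {n : ℕ}
    (a : Fin n → A) (k : ℕ) : Prop :=
  ∀ χ : Copies L M a → Fin k, ExtDef L M a χ →
    ∃ g : L.Embedding B M, Set.range g ⊆ S ∧ Mono L M a χ (Set.range g)

/-- Membership in the age of `M`. -/
def InAge (B : Type) [L.Structure B] : Prop := Finite B ∧ Nonempty (L.Embedding B M)

/-- The externally definable Ramsey property. -/
def EDRP : Prop :=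
  ∀ (A : Type) [L.Structure A] (n : ℕ) (a : Fin n → A) (B : Type) [L.Structure B],
    InAge L M A → Function.Bijective a → InAge L M B → ∀ k ≥ 1, Arrow L M Set.univ B a k

end Pool.Agent.H40.Erp
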