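import Pool.Agent.H40.Js7

set_option autoImplicit false

/-! A permutation model in which every permutation owns a triple of atoms. -/

namespace Pool.Agent.H40.Fac

open Set Sum Equiv Cardinal

abbrev I : Type := ℕ × ℝ
abbrev A : Type := ℕ ⊕ I × Fin 3

def B : Subgroup (Perm A) where
  carrier := {g | ∀ n, g (inl n) = inl n}
  one_mem' _ := rfl
  mul_mem' a b n := by rw [Perm.mul_apply, b, a]
  inv_mem' a n := by rw [Perm.inv_eq_iff_eq, a]

def mv (σ : Perm A) : Set A := {x | x ∉ range inl ∧ σ x ≠ x}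

theorem b_base (g : B) {x : A} : g.1 x ∈ range inl ↔ x ∈ range inl :=
  ⟨fun ⟨n, h⟩ => ⟨n, g.1.injective ((g.2 n).trans h)⟩, fun ⟨n, h⟩ => ⟨n, h ▸ (g.2 n).symm⟩⟩

theorem mv_conj (g : B) (σ : Perm A) (x : A) : g.1 x ∈ mv (g.1 * σ * g.1⁻¹) ↔ x ∈ mv σ :=
  and_congr (b_base g).not (by simp)

def S : Type := {σ : Perm A // (mv σ).Finite}

instance : MulAction B S where
  smul g σ := ⟨g.1 * σ.1 * g.1⁻¹, (σ.2.image g.1).subset fun x h =>
    ⟨g.1⁻¹ x, (mv_conj g _ _).1 (by simpa using h), by simp⟩⟩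
  one_smul σ := Subtype.ext (by show 1 * σ.1 * 1⁻¹ = _; simp)
  mul_smul g h σ := Subtype.ext (by
    show g.1 * h.1 * σ.1 * (g.1 * h.1)⁻¹ = g.1 * (h.1 * σ.1 * h.1⁻¹) * g.1⁻¹
    group)

theorem sm_val (g : B) (σ : S) : (g • σ).1 = g.1 * σ.1 * g.1⁻¹ := rfl

theorem fix_conj {k : B} {σ : S} (h : ∀ x ∈ mv σ.1, k.1 x = x) : k • σ = σ := by
  have e : ∀ x, σ.1 x ≠ x → k.1 x = x := fun x a => by
    by_cases b : x ∈ range inl
    · obtain ⟨n, rfl⟩ := b
      exact k.2 n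
    · exact h x ⟨b, a⟩
  refine Subtype.ext (mul_inv_eq_iff_eq_mul.2 (Equiv.ext fun x => ?_))
  show k.1 (σ.1 x) = σ.1 (k.1 x)
  by_cases a : σ.1 x = x
  · rw [a]
    by_contra b
    exact b (by rw [k.1.injective (e _ (Ne.symm b)), a])
  · rw [e x a, e _ fun b => a (σ.1.injective b)]

theorem conj_congr {g g' : B} {σ : S} (h : ∀ x ∈ mv σ.1, g.1 x = g'.1 x) : g • σ = g' • σ := by
  rw [← inv_smul_eq_iff, ← mul_smul]
  exact fix_conj fun x a => by
    show g'.1⁻¹ (g.1 x) = x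
    rw [h x a]; simp

def lev : A → ℕ := Sum.elim (fun _ => 0) fun p => p.1.1

noncomputable def lam (σ : S) : ℕ := sSup ((fun x => lev x + 1) '' mv σ.1)

theorem lev_lt {σ : S} {x : A} (h : x ∈ mv σ.1) : lev x < lam σ :=
  le_csSup (σ.2.image fun x => lev x + 1).bddAbove ⟨x, h, rfl⟩

theorem lam_sm {g : B} (h : ∀ x, lev (g.1 x) = lev x) (σ : S) : lam (g • σ) = lam σ :=
  congrArg sSup (Set.ext fun _ => ⟨fun ⟨x, a, b⟩ => ⟨g.1⁻¹ x, (mv_conj g _ _).1 (by simpa [sm_val] using a),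
    by rw [← b]; simp [← h (g.1.symm x)]⟩, fun ⟨x, a, b⟩ => ⟨_, (mv_conj g _ _).2 a, by simp [← b, h x]⟩⟩)

theorem ex_code : Nonempty (S ↪ ℝ) := by
  have : ∀ σ : S, ∃ s : ℕ → A, {x | σ.1 x ≠ x} ⊆ range s := fun σ =>
    countable_iff_exists_subset_range.1 (((countable_range inl).union σ.2.countable).mono
      fun x h => or_iff_not_imp_left.2 fun a => ⟨a, h⟩)
  choose s hs using this
  refine (Cardinal.le_def _ _).1 ((mk_le_of_injective (f := fun σ n => (s σ n, σ.1 (s σ n)))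
    fun σ τ e => Subtype.ext (Equiv.ext fun x => by_contra fun a => ?_)).trans (by simp [mk_real]))
  have e1 : ∀ n, s σ n = s τ n := fun n => (Prod.ext_iff.1 (congrFun e n)).1
  have e2 : ∀ n, σ.1 (s σ n) = τ.1 (s σ n) := fun n => (Prod.ext_iff.1 (congrFun e n)).2.trans
    (by rw [e1])
  by_cases b : σ.1 x = x
  · obtain ⟨n, rfl⟩ := hs τ fun c => a (b.trans c.symm)
    exact a (e1 n ▸ e2 n)
  · obtain ⟨n, rfl⟩ := hs σ b
    exact a (e2 n)

noncomputable def ι : S ↪ I :=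
  ⟨fun σ => (lam σ, ex_code.some σ), fun _ _ e => ex_code.some.injective (Prod.ext_iff.1 e).2⟩

noncomputable def Φ : B →* Perm I := (Perm.viaEmbeddingHom ι).comp (MulAction.toPermHom B S)

theorem phi_i (g : B) (σ : S) : Φ g (ι σ) = ι (g • σ) := Perm.viaEmbedding_apply _ _ _

theorem phi_n (g : B) {i : I} (h : i ∉ range ι) : Φ g i = i := Perm.viaEmbedding_apply_of_notMem _ _ _ h

theorem phi_congr {g g' : B} {i : I} (h : ∀ x, lev x < i.1 → g.1 x = g'.1 x) : Φ g i = Φ g' i := by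
  by_cases a : i ∈ range ι
  · obtain ⟨σ, rfl⟩ := a
    rw [phi_i, phi_i, conj_congr fun x b => h x (lev_lt b)]
  · rw [phi_n g a, phi_n g' a]

def G : Subgroup B where
  carrier := {g | ∀ i c, ∃ d, g.1 (inr (i, c)) = inr (Φ g i, d)}
  one_mem' i c := ⟨c, by simp⟩
  mul_mem' {g h} a b i c := by
    obtain ⟨d, e⟩ := b i c
    simpa [e] using a _ d
  inv_mem' {g} a i c := by
    rcases e : g.1⁻¹ (inr (i, c)) with n | ⟨j, d⟩
    · exact absurd ((b_base g⁻¹).1 ⟨n, e.symm⟩) (by simp)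
    · obtain ⟨d', f⟩ := a j d
      rw [← e, show g.1 (g.1⁻¹ _) = _ from g.1.apply_symm_apply _] at f
      obtain rfl : i = Φ g j := (Prod.ext_iff.1 (inr_injective f)).1
      exact ⟨d, by simp [e]⟩

noncomputable def gs (ρ : I → Perm (Fin 3)) : ℕ → B
  | 0 => 1
  | n + 1 => ⟨Equiv.sumCongr 1 (Equiv.prodShear (Φ (gs ρ n)) ρ), fun _ => rfl⟩

theorem gs_lev (ρ : I → Perm (Fin 3)) (n : ℕ) : ∀ x, lev ((gs ρ n).1 x) = lev x := by
  induction n with
  | zero => exact fun _ => rfl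
  | succ n ih =>
    rintro (_ | ⟨i, c⟩)
    · rfl
    show (Φ (gs ρ n) i).1 = i.1
    by_cases a : i ∈ range ι
    · obtain ⟨σ, rfl⟩ := a
      rw [phi_i]
      exact lam_sm ih σ
    · rw [phi_n _ a]

theorem gs_st (ρ : I → Perm (Fin 3)) (n : ℕ) : ∀ m x, lev x < n → lev x < m →
    (gs ρ n).1 x = (gs ρ m).1 x := by
  induction n with
  | zero => exact fun _ _ h => absurd h (by omega)
  | succ n ih =>
    rintro (_ | m) x a b
    · omega
    rcases x with _ | ⟨i, c⟩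
    · rfl
    exact congrArg (fun j => inr (j, ρ i c)) (phi_congr fun x d =>
      ih m x (d.trans_le (Nat.le_of_lt_succ a)) (d.trans_le (Nat.le_of_lt_succ b)))

theorem ex_g (ρ : I → Perm (Fin 3)) : ∃ g : G, ∀ i c, g.1.1 (inr (i, c)) = inr (Φ g.1 i, ρ i c) := by
  let g : B := ⟨⟨fun x => (gs ρ (lev x + 1)).1 x, fun x => (gs ρ (lev x + 1)).1⁻¹ x,
    fun x => by simp [gs_lev], fun x => by
      have : lev ((gs ρ (lev x + 1)).1⁻¹ x) = lev x := by rw [← gs_lev ρ (lev x + 1)]; simp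
      simp only [this]; simp⟩, fun _ => rfl⟩
  have : ∀ i c, g.1 (inr (i, c)) = inr (Φ g i, ρ i c) := fun i c =>
    congrArg (fun j => inr (j, ρ i c)) (phi_congr fun x d => gs_st ρ _ _ x d (Nat.lt_succ_self _))
  exact ⟨⟨g, fun i c => ⟨_, this i c⟩⟩, this⟩

def Cl (J : Set I) : Prop := ∀ σ, ι σ ∈ J → ∀ i c, inr (i, c) ∈ mv σ.1 → i ∈ J

theorem cl_fix {J : Set I} (hJ : Cl J) {g : B} (h : ∀ i ∈ J, ∀ c, g.1 (inr (i, c)) = inr (Φ g i, c))
    (n : ℕ) : ∀ i, i.1 = n → (∀ σ, ι σ = i → ∀ j c, inr (j, c) ∈ mv σ.1 → j ∈ J) → Φ g i = i := by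
  induction n using Nat.strong_induction_on with
  | _ n ih =>
    rintro i rfl a
    by_cases b : i ∈ range ι
    · obtain ⟨σ, rfl⟩ := b
      rw [phi_i, fix_conj]
      rintro (m | ⟨j, c⟩) d
      · exact g.2 m
      · have := a σ rfl j c d
        rw [h j this, ih j.1 (lev_lt d) j rfl fun τ e => hJ τ (e ▸ this)]
    · exact phi_n g b

theorem ex_cl (n : ℕ) : ∀ i : I, i.1 = n → ∃ J, J.Finite ∧ Cl J ∧ i ∈ J := by
  induction n using Nat.strong_induction_on with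
  | _ n ih =>
    rintro i rfl
    by_cases b : i ∈ range ι
    · obtain ⟨σ, rfl⟩ := b
      choose! J a b c using fun (p : I × Fin 3) (h : inr p ∈ mv σ.1) => ih p.1.1 (lev_lt h) p.1 rfl
      refine ⟨insert (ι σ) (⋃ p ∈ inr ⁻¹' mv σ.1, J p), ((σ.2.preimage inr_injective.injOn).biUnion
        a).insert _, fun τ d j e f => Or.inr ?_, Or.inl rfl⟩
      rcases d with d | d
      · obtain rfl := ι.injective d
        exact mem_biUnion (x := (j, e)) f (c _ f)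
      · obtain ⟨p, d, k⟩ := mem_iUnion₂.1 d
        exact mem_biUnion d (b p d τ k j e f)
    · exact ⟨{i}, finite_singleton i, fun σ a => absurd ⟨σ, a⟩ b, rfl⟩

/-- a permutation commuting with the stabiliser of a finite set moves finitely many new atoms -/
theorem fin_mv {σ : Perm A} {F : Set A} (hF : F.Finite)
    (h : ∀ g : G, (∀ y ∈ F, g.1.1 y = y) → ∀ x, g.1.1 (σ x) = σ (g.1.1 x)) : (mv σ).Finite := by
  classical
  choose J a b c using fun p : I × Fin 3 => ex_cl _ p.1 rfl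
  let K := ⋃ p ∈ inr ⁻¹' F, J p
  have k1 : K.Finite := (hF.preimage inr_injective.injOn).biUnion fun p _ => a p
  have key : ∀ i ∉ K, ∀ ρ : Perm (Fin 3), ∃ g : G, (∀ x, g.1.1 (σ x) = σ (g.1.1 x)) ∧
      (∀ c, g.1.1 (inr (i, c)) = inr (i, ρ c)) ∧
      ∀ j c, j ≠ i → j ∈ K ∨ j.1 ≤ i.1 → g.1.1 (inr (j, c)) = inr (j, c) := fun i hi ρ => by
    obtain ⟨g, hg⟩ := ex_g (Function.update 1 i ρ)
    have k2 : Cl {j | j ≠ i ∧ (j ∈ K ∨ j.1 ≤ i.1)} := fun τ d j e f => by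
      rcases d.2 with k | k
      · obtain ⟨p, k, l⟩ := mem_iUnion₂.1 k
        have : j ∈ K := mem_biUnion k (b p τ l j e f)
        exact ⟨fun m => hi (m ▸ this), Or.inl this⟩
      · have : j.1 < i.1 := (lev_lt f).trans_le k
        exact ⟨fun m => absurd this (by simp [m]), Or.inr this.le⟩
    have k3 := cl_fix k2 (g := g.1) fun j d e => by simp [hg, Function.update_of_ne d.1]
    have k4 : ∀ j c, j ≠ i → j ∈ K ∨ j.1 ≤ i.1 → g.1.1 (inr (j, c)) = inr (j, c) := fun j c d e => by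
      simp [hg, Function.update_of_ne d, k3 _ j rfl fun τ f => k2 τ (f ▸ ⟨d, e⟩)]
    refine ⟨g, h g ?_, fun c => ?_, k4⟩
    · rintro (n | ⟨j, e⟩) d
      · exact g.1.2 n
      · have : j ∈ K := mem_biUnion (x := (j, e)) d (c _)
        exact k4 j e (fun m => hi (m ▸ this)) (Or.inl this)
    · rw [hg, Function.update_self, k3 _ i rfl fun τ f j e d => ?_]
      have : j.1 < i.1 := f ▸ lev_lt d
      exact ⟨fun m => absurd this (by simp [m]), Or.inr this.le⟩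
  refine ((k1.prod finite_univ).image inr).subset ?_
  rintro (n | ⟨i, c⟩) ⟨d, e⟩
  · exact absurd ⟨n, rfl⟩ d
  refine ⟨(i, c), ⟨by_contra fun hi => ?_, trivial⟩, rfl⟩
  have r1 : ∀ c : Fin 3, ∃ ρ : Perm (Fin 3), ρ c ≠ c := by decide
  have r2 : ∀ c d : Fin 3, d ≠ c → ∃ ρ : Perm (Fin 3), ρ c = c ∧ ρ d ≠ d := by decide
  have k5 : (∀ g : G, (∀ j c, j ≠ i → j ∈ K ∨ j.1 ≤ i.1 → g.1.1 (inr (j, c)) = inr (j, c)) →
      g.1.1 (σ (inr (i, c))) = σ (inr (i, c))) → False := fun k => by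
    obtain ⟨ρ, r⟩ := r1 c
    obtain ⟨g, g1, g2, g3⟩ := key i hi ρ
    have := σ.injective ((g1 _).symm.trans (k g g3))
    rw [g2] at this
    exact r (Prod.ext_iff.1 (inr_injective this)).2
  rcases f : σ (inr (i, c)) with n | ⟨j, c'⟩
  · exact k5 fun g _ => f ▸ g.1.2 n
  by_cases k : j = i
  · subst k
    obtain ⟨ρ, r, r'⟩ := r2 c c' fun m => e (m ▸ f)
    obtain ⟨g, g1, g2, -⟩ := key j hi ρ
    have := g1 (inr (j, c))
    rw [f, g2, g2, r, f] at this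
    exact r' (Prod.ext_iff.1 (inr_injective this)).2
  by_cases l : j ∈ K ∨ j.1 ≤ i.1
  · exact k5 fun g m => f ▸ m j c' k l
  · obtain ⟨ρ, r⟩ := r1 c'
    obtain ⟨g, g1, g2, g3⟩ := key j (fun m => l (Or.inl m)) ρ
    have := g1 (inr (i, c))
    rw [f, g2, g3 i c (Ne.symm k) (Or.inr (le_of_not_ge fun m => l (Or.inr m))), f] at this
    exact r (Prod.ext_iff.1 (inr_injective this)).2

end Pool.Agent.H40.Fac
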