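import Mathlib

set_option autoImplicit false

namespace Pool.Agent.H40.Fpt

open FirstOrder

variable (L : FirstOrder.Language.{0, 0}) (M : Type) [L.Structure M]

/-- A Fraïssé structure: countably infinite and ultrahomogeneous, in a countable relational
language. -/
def IsFraisseStructure : Prop :=
  (∀ n, IsEmpty (L.Functions n)) ∧ (∀ n, Countable (L.Relations n)) ∧ Countable M ∧ Infinite M ∧
    L.IsUltrahomogeneous M

/-- The automorphism group of a relational structure. -/
def Aut : Subgroup (Equiv.Perm M) where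
  carrier := {g | ∀ (n : ℕ) (R : L.Relations n) (x : Fin n → M),
    FirstOrder.Language.Structure.RelMap R (g ∘ x) ↔ FirstOrder.Language.Structure.RelMap R x}
  one_mem' := fun _ _ _ => Iff.rfl
  mul_mem' := fun {_ b} ha hb n R x => (ha n R (b ∘ x)).trans (hb n R x)
  inv_mem' := fun {a} ha n R x => (ha n R (a.symm ∘ x)).symm.trans
    (iff_of_eq (congrArg _ (funext fun i => a.apply_symm_apply (x i))))

/-- The topology of pointwise convergence on the automorphism group (`M` discrete). -/
@[reducible] def autTop : TopologicalSpace (Aut L M) :=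
  TopologicalSpace.induced (fun g : Aut L M => (g.1 : M → M))
    (@Pi.topologicalSpace M (fun _ => M) fun _ => ⊥)

/-- A complete `n`-type over `M`: a set of formulas in `n` variables with parameters from `M`
that is complete and finitely satisfiable in `M`. -/
def IsType (n : ℕ) (p : Set (L.Formula (M ⊕ Fin n))) : Prop :=
  (∀ φ, φ ∈ p ∨ φ.not ∈ p) ∧
    ∀ s ⊆ p, s.Finite → ∃ x : Fin n → M, ∀ φ ∈ s, φ.Realize (Sum.elim id x)

/-- The action on types by moving parameters: `φ(x, b) ∈ g • p` iff `φ(x, g⁻¹ b) ∈ p`. -/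
def act (n : ℕ) (g : Equiv.Perm M) (p : Set (L.Formula (M ⊕ Fin n))) :
    Set (L.Formula (M ⊕ Fin n)) :=
  {φ | φ.relabel (Sum.map g.symm id) ∈ p}

/-- A subflow of the Stone space `S_n(M)`: nonempty, closed and invariant. -/
def IsSubflow (n : ℕ) (S : Set (Set (L.Formula (M ⊕ Fin n)))) : Prop :=
  (∀ p ∈ S, IsType L M n p) ∧ S.Nonempty ∧
    (∀ q, IsType L M n q → (∀ φ ∈ q, ∃ p ∈ S, φ ∈ p) → q ∈ S) ∧
    ∀ g ∈ Aut L M, ∀ p ∈ S, act L M n g p ∈ S

/-- The fixed points on type spaces property. -/
def FPT : Prop :=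
  ∀ n ≥ 1, ∀ S, IsSubflow L M n S → ∃ p ∈ S, ∀ g ∈ Aut L M, act L M n g p = p

end Pool.Agent.H40.Fpt
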