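import Pool.Agent.H40.Lv4

set_option autoImplicit false

/-! Countable hulls with a generic filter, and absoluteness of bounded formulas. -/

namespace Pool.Agent.H40.Gn

open Pool.Agent.H42.ZF Pool.Agent.H40.Js Set Filter
open Pool.Agent.H40.Bspt (Fm IsZF)
open Pool.Agent.H40.Lv (sl_pair)

def fc : Fm → ℕ
  | .mem i j => Nat.pair 0 (Nat.pair i j)
  | .eq i j => Nat.pair 1 (Nat.pair i j)
  | .neg a => Nat.pair 2 (fc a)
  | .and a b => Nat.pair 3 (Nat.pair (fc a) (fc b))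
  | .ex a => Nat.pair 4 (fc a)

theorem fc_inj (a : Fm) : ∀ b, fc a = fc b → a = b := by
  induction a with
  | mem i j => intro b; cases b <;> simp [fc]
  | eq i j => intro b; cases b <;> simp [fc]
  | neg a ih => intro b; cases b <;> simp [fc]; exact ih _
  | and a c ih ih' => intro b; cases b <;> simp [fc]; exact fun x y => ⟨ih _ x, ih' _ y⟩
  | ex a ih => intro b; cases b <;> simp [fc]; exact ih _

def tc {B : Type} (f : B → ℕ) : T B → ℕ
  | .base b => Nat.pair 0 (f b)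
  | .cons s t => Nat.pair 1 (Nat.pair (tc f s) (tc f t))
  | .sk φ t => Nat.pair 2 (Nat.pair (fc φ) (tc f t))

instance {B : Type} [Countable B] : Countable (T B) := by
  obtain ⟨f, hf⟩ := exists_injective_nat B
  refine ⟨tc f, fun a => ?_⟩
  induction a with
  | base b => intro c; cases c <;> simp [tc, hf.eq_iff]
  | cons s t ih ih' => intro c; cases c <;> simp [tc]; exact fun x y => ⟨ih x, ih' y⟩
  | sk φ t ih => intro c; cases c <;> simp [tc]; exact fun x y => ⟨fc_inj _ _ x, ih y⟩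

variable {P : Type} [Preorder P]

theorem ex_seq {ι : Type} [Countable ι] (D : ι → Set P) (hD : ∀ i p, ∃ q ≤ p, q ∈ D i) (p : P) :
    ∃ U : Ult P, Iic p ∈ U.U ∧ ∀ i, ∃ q ∈ D i, Iic q ∈ U.U := by
  obtain ⟨e, he⟩ := exists_surjective_nat (Option ι)
  have : ∀ (n : ℕ) p, ∃ q ≤ p, ∀ i ∈ e n, q ∈ D i := fun n p => by
    cases e n with
    | none => exact ⟨p, le_rfl, by simp⟩
    | some i => simpa using hD i p
  choose f f1 f2 using this
  let s : ℕ → P := Nat.rec p fun n q => f n q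
  have mo : Antitone s := antitone_nat_of_succ_le fun n => f1 n _
  let F : Filter P :=
    { sets := {S | ∃ n, ∃ D : Set P, IsLowerSet D ∧ (∀ p, ∃ q ≤ p, q ∈ D) ∧ D ∩ Iic (s n) ⊆ S}
      univ_sets := ⟨0, univ, isLowerSet_univ, fun p => ⟨p, le_rfl, trivial⟩, subset_univ _⟩
      sets_of_superset := fun ⟨n, D, h1, h2, h3⟩ h => ⟨n, D, h1, h2, h3.trans h⟩
      inter_sets := fun ⟨n, D, h1, h2, h3⟩ ⟨m, D', h1', h2', h3'⟩ => ⟨max n m, D ∩ D', h1.inter h1',
        fun q => by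
          obtain ⟨r, hr, hD⟩ := h2 q
          obtain ⟨s, hs, hD'⟩ := h2' r
          exact ⟨s, hs.trans hr, h1 hs hD, hD'⟩,
        fun x hx => ⟨h3 ⟨hx.1.1, le_trans hx.2 (mo (le_max_left _ _))⟩,
          h3' ⟨hx.1.2, le_trans hx.2 (mo (le_max_right _ _))⟩⟩⟩ }
  have hF : F.NeBot := by
    rw [← Filter.forall_mem_nonempty_iff_neBot]
    rintro S ⟨n, D, -, h2, h3⟩
    obtain ⟨q, hq, hD⟩ := h2 (s n)
    exact ⟨q, h3 ⟨hD, hq⟩⟩
  have k : ∀ n, Iic (s n) ∈ Ultrafilter.of F := fun n => Ultrafilter.of_le F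
    ⟨n, univ, isLowerSet_univ, fun p => ⟨p, le_rfl, trivial⟩, inter_subset_right⟩
  refine ⟨⟨Ultrafilter.of F, fun D h1 h2 => Ultrafilter.of_le F ⟨0, D, h1, h2, inter_subset_left⟩⟩,
    k 0, fun i => ?_⟩
  obtain ⟨n, hn⟩ := he (some i)
  exact ⟨_, f2 n _ i hn, k (n + 1)⟩

/-- bounded formulas -/
inductive B0 : Type
  | mem (i j : ℕ) : B0
  | eq (i j : ℕ) : B0
  | app (f i j : ℕ) : B0
  | pr (f i j : ℕ) : B0
  | neg (a : B0) : B0
  | and (a b : B0) : B0
  | or (a b : B0) : B0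
  | imp (a b : B0) : B0
  | iff (a b : B0) : B0
  | ex (i : ℕ) (a : B0) : B0
  | all (i : ℕ) (a : B0) : B0

def tr : B0 → Fm
  | .mem i j => .mem i j
  | .eq i j => .eq i j
  | .app f i j => appF f i j
  | .pr f i j => pairF f i j
  | .neg a => .neg (tr a)
  | .and a b => .and (tr a) (tr b)
  | .or a b => orF (tr a) (tr b)
  | .imp a b => impF (tr a) (tr b)
  | .iff a b => fi (tr a) (tr b)
  | .ex i a => .ex (.and (.mem 0 (i + 1)) (tr a))
  | .all i a => allF (impF (.mem 0 (i + 1)) (tr a))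

def S0 {M : Type} (E : M → M → Prop) : B0 → (ℕ → M) → Prop
  | .mem i j, v => E (v i) (v j)
  | .eq i j, v => v i = v j
  | .app f i j, v => Bspt.App E (v f) (v i) (v j)
  | .pr f i j, v => Bspt.IsPair E (v f) (v i) (v j)
  | .neg a, v => ¬ S0 E a v
  | .and a b, v => S0 E a v ∧ S0 E b v
  | .or a b, v => S0 E a v ∨ S0 E b v
  | .imp a b, v => S0 E a v → S0 E b v
  | .iff a b, v => (S0 E a v ↔ S0 E b v)
  | .ex i a, v => ∃ x, E x (v i) ∧ S0 E a (Bspt.cons x v)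
  | .all i a, v => ∀ x, E x (v i) → S0 E a (Bspt.cons x v)

def S1 (U : Ult P) : B0 → (ℕ → M U) → Prop
  | .mem i j, v => E U (v i) (v j)
  | .eq i j, v => v i = v j
  | .app f i j, v => App (E U) (v f) (v i) (v j)
  | .pr f i j, v => IsPair (E U) (v f) (v i) (v j)
  | .neg a, v => ¬ S1 U a v
  | .and a b, v => S1 U a v ∧ S1 U b v
  | .or a b, v => S1 U a v ∨ S1 U b v
  | .imp a b, v => S1 U a v → S1 U b v
  | .iff a b, v => (S1 U a v ↔ S1 U b v)
  | .ex i a, v => ∃ x, E U x (v i) ∧ S1 U a (cs x v)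
  | .all i a, v => ∀ x, E U x (v i) → S1 U a (cs x v)

theorem s0_iff {M : Type} {E : M → M → Prop} (a : B0) : ∀ v, Bspt.Sat E (tr a) v ↔ S0 E a v := by
  induction a with
  | mem => exact fun _ => Iff.rfl
  | eq => exact fun _ => Iff.rfl
  | app => exact fun _ => sat_app
  | pr => intro v; simp only [tr, S0, pairF, Bspt.Sat, sat_all, sat_fi, sat_or, Bspt.cons, Bspt.IsPair]
  | neg a ih => exact fun v => not_congr (ih v)
  | and a b ih ih' => exact fun v => and_congr (ih v) (ih' v)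
  | or a b ih ih' => exact fun v => sat_or.trans (or_congr (ih v) (ih' v))
  | imp a b ih ih' => exact fun v => sat_imp.trans (imp_congr (ih v) (ih' v))
  | iff a b ih ih' => exact fun v => sat_fi.trans (iff_congr (ih v) (ih' v))
  | ex i a ih => exact fun v => exists_congr fun x => and_congr_right' (ih _)
  | all i a ih => exact fun v => sat_all.trans (forall_congr' fun x => sat_imp.trans
      (imp_congr_right fun _ => ih _))

variable {Γ : Type} [Group Γ] [MulAction Γ P] [Mo Γ P] [NF Γ]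

theorem s1_iff {U : Ult P} (a : B0) : ∀ v, (∀ i, L Γ U (v i)) → (SL Γ U (tr a) v ↔ S1 U a v) := by
  have k : ∀ {v : ℕ → M U} {x : M U}, (∀ i, L Γ U (v i)) → L Γ U x → ∀ i, L Γ U (cs x v i) := by
    rintro v x a b (_ | i)
    exacts [b, a i]
  induction a with
  | mem => exact fun _ _ => Iff.rfl
  | eq => exact fun _ _ => Iff.rfl
  | app => exact fun _ h => sl_app (h _) (h _) (h _)
  | pr => exact fun _ h => sl_pair (h _) (h _) (h _)
  | neg a ih => exact fun v h => not_congr (ih v h)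
  | and a b ih ih' => exact fun v h => and_congr (ih v h) (ih' v h)
  | or a b ih ih' => exact fun v h => sl_or.trans (or_congr (ih v h) (ih' v h))
  | imp a b ih ih' => exact fun v h => sl_imp.trans (imp_congr (ih v h) (ih' v h))
  | iff a b ih ih' => exact fun v h => sl_fi.trans (iff_congr (ih v h) (ih' v h))
  | ex i a ih => exact fun v h => exists_congr fun x => ⟨fun ⟨b, c, d⟩ => ⟨c, (ih _ (k h b)).1 d⟩,
      fun ⟨c, d⟩ => ⟨L_tr c (h i), c, (ih _ (k h (L_tr c (h i)))).2 d⟩⟩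
  | all i a ih => exact fun v h => sl_all.trans (forall_congr' fun x =>
      ⟨fun b c => (ih _ (k h (L_tr c (h i)))).1 (sl_imp.1 (b (L_tr c (h i))) c),
        fun b c => sl_imp.2 fun d => (ih _ (k h c)).2 (b d)⟩)

/-- A countable model obtained from a generic filter. -/
structure GM (Γ : Type) [Group Γ] [MulAction Γ P] [NF Γ] {B : Type} (ν : B → Nm P) where
  U : Ult P
  H : Type
  R : H → H → Prop
  zf : IsZF R
  j : H → M U
  c : B → H
  jc : ∀ b, j (c b) = mk U (ν b)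
  abs : ∀ a v, S0 R a v ↔ S1 U a fun i => j (v i)
  gen : ∀ a b, R a (c b) → ∃ i, Iic ((ν b).b i) ∈ U.U ∧ j a = mk U ((ν b).A i)
  nm : ∀ a, ∃ y, HS Γ y ∧ j a = mk U y

theorem ex_gm {B ι : Type} [Countable B] [Nonempty B] [Nonempty P] [Countable ι] {ν : B → Nm P}
    (hν : ∀ b, HS Γ (ν b)) (DS : Nm P → ι → Set P) (hD : ∀ τ k p, ∃ q ≤ p, q ∈ DS τ k) :
    ∃ G : GM Γ ν, ∀ a, ∃ τ, G.j a = mk G.U τ ∧ ∀ k, ∃ q ∈ DS τ k, Iic q ∈ G.U.U := by
  obtain ⟨U, -, hU⟩ := ex_seq (ι := T B × Option (B ⊕ ι)) (fun t => t.2.elim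
    {p | Frc p (fun U => ¬ L Γ U (mk U (ev Γ ν t.1 0))) ∨ ∃ y, HS Γ y ∧
      Frc p fun U => mk U (ev Γ ν t.1 0) = mk U y}
        (Sum.elim (fun b => DD (ev Γ ν t.1 0) (ν b)) (DS (ev Γ ν t.1 0)))) (by
      rintro ⟨s, _ | b | k⟩ p
      · by_cases h : Frc p fun U => L Γ U (mk U (ev Γ ν s 0))
        · exact (L_elim h).imp fun q a => ⟨a.1, Or.inr a.2⟩
        · exact ((cL _).cl.decide h).imp fun q a => ⟨a.1, Or.inl a.2⟩
      · exact DD_dense _ _ p
      · exact hD _ k p) (Classical.arbitrary P)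
  refine ⟨⟨U, Js.H Γ ν U, EH, hull_zf hν, Js.j, hb, fun _ => rfl, fun a v => (s0_iff a v).symm.trans
    ((truth hν _ v).trans (s1_iff a _ fun _ => j_L hν _)), fun a b h => ?_, fun a => ?_⟩,
    fun a => (j_surj a).elim fun s hs => ⟨_, hs, fun k => hU (s, some (.inr k))⟩⟩
  · obtain ⟨s, hs⟩ := j_surj a
    obtain ⟨q, h1, h2⟩ := hU (s, some (.inl b))
    unfold EH at h
    rw [hs] at h ⊢
    exact DD_use h1 h2 h
  · obtain ⟨s, hs⟩ := j_surj a
    obtain ⟨q, h1 | ⟨y, h1, h3⟩, h2⟩ := hU (s, none)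
    · exact absurd (ev_L hν s 0) (h1 U h2)
    · exact ⟨y, h1, hs.trans (h3 U h2)⟩

section
variable {ι : Type}

theorem cas {f : ι → Nm P} {s : Set ι} {S : ∀ U : Ult P, M U → Prop}
    [∀ x, C fun U => S U (mk U x)] (h : ∀ x ∈ s, ∀ U, S U (mk U (f x))) (U : Ult P) (z : M U)
    (hz : E U z (mk U (setN f s))) : S U z := by
  obtain ⟨z, rfl⟩ := mk_surj z
  exact setN_cases (R := fun U => S U (mk U z)) (fun x V a e => by rw [e]; exact h x a V) U hz

theorem casQ {f : ι → Nm P} {Q : ι → Ult P → Prop} {S : ∀ U : Ult P, M U → Prop}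
    [∀ x, C fun U => S U (mk U x)] (h : ∀ x U, Q x U → S U (mk U (f x))) (U : Ult P) (z : M U)
    (hz : E U z (mk U (fam f Q))) : S U z := by
  obtain ⟨z, rfl⟩ := mk_surj z
  exact fam_cases (R := fun U => S U (mk U z)) (fun x V a e => by rw [e]; exact h x V a) U hz

theorem fam_mem {f : ι → Nm P} {Q : ι → Ult P → Prop} [∀ i, C (Q i)]
    (h : ∀ x y (U : Ult P), mk U (f x) = mk U (f y) → x = y) {x : ι} {U : Ult P} :
    E U (mk U (f x)) (mk U (fam f Q)) ↔ Q x U :=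
  ⟨fam_cases (R := Q x) (fun y V a e => by rw [h x y V e]; exact a) U, fam_intro x⟩

omit [NF Γ] in
theorem app_iff {g : Γ} {U : Ult P}
    {f a b : Nm P} : App (E _) (mk (mv g U) (act g f)) (mk _ (act g a)) (mk _ (act g b)) ↔
      App (E U) (mk U f) (mk U a) (mk U b) := by
  refine ⟨fun h => ?_, Lv.app_mv⟩
  obtain ⟨U, rfl⟩ := mv_surj g⁻¹ U
  rw [mv_inv] at h
  simpa only [inv_act] using Lv.app_mv (g := g⁻¹) h

variable (Γ) in
def Ck (x : Nm P) : Prop := HS Γ x ∧ ∀ g : Γ, Eqv (act g x) x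

theorem ck_set {f : ι → Nm P} (s : Set ι) (h : ∀ i ∈ s, Ck Γ (f i)) : Ck Γ (setN f s) :=
  have a : ∀ g : Γ, Eqv (act g (setN f s)) (setN f s) := fun g =>
    fam_act (fun i => (h i.1 i.2).2 g) fun _ _ => Iff.rfl
  ⟨hs_fam (Eventually.of_forall a) fun i => (h i.1 i.2).1, a⟩

theorem ck_pair {x y : Nm P} (a : Ck Γ x) (b : Ck Γ y) : Ck Γ (kpair x y) :=
  ⟨hs_upair (hs_upair a.1 a.1) (hs_upair a.1 b.1), fun g =>
    upair_act (upair_act (a.2 g) (a.2 g)) (upair_act (a.2 g) (b.2 g))⟩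

theorem ck_nat (n : ℕ) : Ck Γ (natN n : Nm P) := ⟨hs_nat n, fun g => nat_act g n⟩

end

section
variable {B : Type} {ν : B → Nm P} (G : GM Γ ν)

omit [Mo Γ P]

theorem GM.mem {a b : G.H} : G.R a b ↔ E G.U (G.j a) (G.j b) :=
  G.abs (.mem 0 1) (Bspt.cons a fun _ => b)

theorem GM.inj {a b : G.H} : a = b ↔ G.j a = G.j b := G.abs (.eq 0 1) (Bspt.cons a fun _ => b)

theorem GM.app {f a b : G.H} : Bspt.App G.R f a b ↔ App (E G.U) (G.j f) (G.j a) (G.j b) :=
  G.abs (.app 0 1 2) (Bspt.cons f (Bspt.cons a fun _ => b))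

theorem GM.pair {f a b : G.H} : Bspt.IsPair G.R f a b ↔ IsPair (E G.U) (G.j f) (G.j a) (G.j b) :=
  G.abs (.pr 0 1 2) (Bspt.cons f (Bspt.cons a fun _ => b))

theorem GM.set {ι : Type} {f : ι → Nm P} {s : Set ι} {b : B} (h : ν b = setN f s) {a : G.H} :
    G.R a (G.c b) ↔ ∃ i ∈ s, G.j a = H42.ZF.mk G.U (f i) := by
  refine ⟨fun e => ?_, fun ⟨i, h1, h2⟩ => G.mem.2 (by rw [G.jc, h, h2]; exact setN_intro f h1 _)⟩
  have := G.gen a b e
  rw [h] at this
  obtain ⟨i, -, e⟩ := this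
  exact ⟨i.1.1.1, i.1.1.2, e⟩

end

section
open Pool.Agent.H40.Bspt Pool.Agent.H40.Jz Pool.Agent.H40.Zt
variable {M : Type} {E : M → M → Prop} (h : IsZF E) {ν : ℕ → M}
include h

theorem numer {w : M} (h1 : ∀ n z, E z (ν n) ↔ ∃ m < n, z = ν m) (hw : ∀ z, E z w ↔ ∃ n, z = ν n) :
    Numer E ν := by
  have hs : ∀ n : ℕ, IsS E (ν (n + 1 : ℕ)) (ν n) (ν n) := fun n w => by
    rw [h1, h1]
    constructor
    · rintro ⟨m, h, rfl⟩
      rcases Nat.lt_succ_iff_lt_or_eq.1 h with h | rfl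
      exacts [Or.inl ⟨m, h, rfl⟩, Or.inr rfl]
    · rintro (⟨m, h, rfl⟩ | rfl)
      exacts [⟨m, by omega, rfl⟩, ⟨n, by omega, rfl⟩]
  have h0 : ∀ y, ¬ E y (ν 0) := fun y h => by simpa using (h1 0 y).1 h
  refine ⟨h1, fun a => ⟨fun e => (hw a).1 (e w ⟨⟨_, (hw _).2 ⟨0, rfl⟩, h0⟩, fun x e => ?_⟩), ?_⟩⟩
  · obtain ⟨n, rfl⟩ := (hw x).1 e
    exact ⟨_, (hw _).2 ⟨n + 1, rfl⟩, hs n⟩
  · rintro ⟨n, rfl⟩
    induction n with
    | zero => exact h.nat0 h0
    | succ n ih => exact h.natS ih (hs n)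

theorem nu_inj (N : Numer E ν) : Function.Injective ν := fun m n e => by
  rcases lt_trichotomy m n with c | c | c
  · exact absurd ((N.1 n _).2 ⟨m, c, e.symm⟩) (h.irr _)
  · exact c
  · exact absurd ((N.1 m _).2 ⟨n, c, e⟩) (h.irr _)

omit h in
theorem fin_ext (N : Numer E ν) {a : M} (h : IsFin E a) : {z | E z a}.Finite := by
  obtain ⟨n, f, h1, h2⟩ := h
  obtain ⟨n, rfl⟩ := (N.2 _).1 h1
  have : {z | E z (ν n)}.Finite :=
    ((finite_lt_nat n).image ν).subset fun z hz => by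
      obtain ⟨m, h, e⟩ := (N.1 n z).1 hz
      exact ⟨m, h, e.symm⟩
  choose! G hG hG' using h2.1
  refine (this.image G).subset fun y hy => ?_
  obtain ⟨x, h3, -⟩ := h2.2 y hy
  exact ⟨x, h3.1, (hG' x h3.1 y ⟨hy, h3.2⟩).symm⟩

theorem ex_fin {s : Set M} (hs : s.Finite) : ∃ a, IsFin E a ∧ ∀ z, E z a ↔ z ∈ s := by
  induction s, hs using Set.Finite.induction_on with
  | empty => exact h.emp.imp fun a e => ⟨h.fin0 e, fun z => iff_of_false (e z) id⟩
  | @insert y s _ _ ih =>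
    obtain ⟨a, ha, hb⟩ := ih
    exact (h.ins a y).imp fun b hc => ⟨h.finS' ha hc, fun z => by rw [hc, hb]; exact or_comm⟩

end

end Pool.Agent.H40.Gn
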