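import Pool.Agent.H40.G9

set_option autoImplicit false

/-! Generalised Cohen models: finite support products with permutations of the copies. -/

namespace Pool.Agent.H40.Gn

open Pool.Agent.H42.ZF Pool.Agent.H40.Js Set Filter Sum
open Pool.Agent.H40.Bspt (Fm IsZF)

structure FD {S : Type} (Pos : ℕ → Set S → Prop) where
  f : ℕ × ℕ → Set S
  pos : ∀ j, Pos j.1 (f j)
  fin : {j | f j ≠ univ}.Finite

def GV : Type := ℕ → Equiv.Perm ℕ

instance : Group GV := inferInstanceAs (Group (ℕ → Equiv.Perm ℕ))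

instance : MulAction GV (ℕ × ℕ) where
  smul g t := (t.1, g t.1 t.2)
  one_smul _ := rfl
  mul_smul _ _ _ := rfl

instance : NF GV := suppNF GV (univ : Set (ℕ × ℕ)) fun _ _ _ => trivial

abbrev Fi (F : Set (ℕ × ℕ)) (g : GV) : Prop := ∀ t ∈ F, g • t = t

theorem ex_ext {α : Type} [Finite α] {f g : α → ℕ × ℕ} (a : Function.Injective f)
    (b : Function.Injective g) (c : ∀ x, (f x).1 = (g x).1) : ∃ π : GV, ∀ x, π • f x = g x := by
  choose π h using fun n => Equiv.Perm.exists_extending_pair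
    (f := fun x : {x // (f x).1 = n} => (f x).2) (g := fun x => (g x).2)
    (fun x y e => Subtype.ext (a (Prod.ext (x.2.trans y.2.symm) e)))
    fun x y e => Subtype.ext (b (Prod.ext (by rw [← c, ← c, x.2, y.2]) e))
  exact ⟨π, fun x => Prod.ext (c x) (h _ ⟨x, rfl⟩)⟩

theorem ex_mv {E A B : Set (ℕ × ℕ)} (e : E.Finite) (a : A.Finite) (b : B.Finite) :
    ∃ ρ : GV, Fi E ρ ∧ ∀ t ∈ A, t ∉ E → ρ • t ∉ B := by
  classical
  obtain ⟨N, hN⟩ := ((e.union b).image Prod.snd).bddAbove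
  haveI := (e.union a).to_subtype
  have k : ∀ t ∈ E ∪ B, t.2 ≤ N := fun t c => hN ⟨t, c, rfl⟩
  obtain ⟨ρ, h⟩ := ex_ext (f := fun t : (E ∪ A : Set (ℕ × ℕ)) => t.1)
    (g := fun t => if t.1 ∈ E then t.1 else (t.1.1, t.1.2 + N + 1)) Subtype.val_injective
    (fun s t c => Subtype.ext (by
      dsimp only at c
      split_ifs at c with d f f
      · exact c
      · have := k _ (Or.inl d); rw [c] at this; dsimp only at this; omega
      · have := k _ (Or.inl f); rw [← c] at this; dsimp only at this; omega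
      · exact Prod.ext (Prod.ext_iff.1 c).1 (by simpa using congrArg Prod.snd c)))
    fun t => by split_ifs <;> rfl
  refine ⟨ρ, fun t c => (h ⟨t, Or.inl c⟩).trans (if_pos c), fun t c d f => ?_⟩
  have := k _ (Or.inr f)
  rw [h ⟨t, Or.inr c⟩, if_neg d] at this
  dsimp only at this
  omega

section
variable {S : Type} {Pos : ℕ → Set S → Prop}

theorem FD.ext' {p q : FD Pos} (h : p.f = q.f) : p = q := by
  cases p; cases q; cases h; rfl

instance : Preorder (FD Pos) where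
  le q p := ∀ j, q.f j ⊆ p.f j
  le_refl _ _ := Subset.rfl
  le_trans _ _ _ a b j := (a j).trans (b j)

instance : MulAction GV (FD Pos) where
  smul g p := ⟨fun t => p.f (g⁻¹ • t), fun t => p.pos (g⁻¹ • t),
    (p.fin.image (g • ·)).subset fun t a => ⟨_, a, by simp⟩⟩
  one_smul _ := rfl
  mul_smul _ _ _ := rfl

instance : Mo GV (FD Pos) := ⟨fun _ _ _ h _ => h _⟩

theorem sm_f (g : GV) (p : FD Pos) (t : ℕ × ℕ) : (g • p).f (g • t) = p.f t := by
  show p.f (g⁻¹ • g • t) = _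
  rw [inv_smul_smul]

theorem ex_cp {s q : FD Pos} {ρ : GV}
    (h : ∀ t, q.f t ≠ univ → ρ • t = t ∧ s.f t ⊆ q.f t ∨ s.f (ρ • t) = univ) :
    ∃ r ≤ s, r ≤ ρ • q := by
  refine ⟨⟨fun j => s.f j ∩ (ρ • q).f j, fun t => ?_, (s.fin.union (ρ • q).fin).subset fun j a => by
    by_contra c
    simp_all⟩, fun _ => inter_subset_left, fun _ => inter_subset_right⟩
  obtain ⟨t, rfl⟩ := MulAction.surjective ρ t
  dsimp only
  rw [sm_f]
  by_cases a : q.f t = univ
  · rw [a, inter_univ]; exact s.pos _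
  rcases h t a with b | b
  · rw [b.1, inter_eq_left.2 b.2]; exact s.pos _
  · rw [b, univ_inter]; exact q.pos t

def Iu (F : Set (ℕ × ℕ)) (y : Nm (FD Pos)) : Prop := ∀ g, Fi F g → Eqv (act g y) y

theorem Iu.eq {F : Set (ℕ × ℕ)} {y : Nm (FD Pos)} (h : Iu F y) {g k : GV}
    (a : ∀ t ∈ F, g • t = k • t) : Eqv (act g y) (act k y) := fun U => by
  have := (h (k⁻¹ * g) fun t b => by rw [mul_smul, a t b, inv_smul_smul]).act k U
  rwa [act_mul, mul_inv_cancel_left] at this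

theorem key {R : ∀ U : Ult (FD Pos), M U → M U → Prop} [∀ x y, C fun U => R U (mk U x) (mk U y)]
    {E F F' : Set (ℕ × ℕ)} (e : E.Finite) (f : F.Finite) (f' : F'.Finite) {τ u : Nm (FD Pos)}
    (hR : ∀ g, Fi E g → ∀ U, R U (mk U τ) (mk U u) → R (mv g U) (mk _ (act g τ)) (mk _ (act g u)))
    (hτ : Iu F τ) (hu : Iu F' u) (d : ∀ t ∈ F, t ∈ F' → t ∈ E) {q : FD Pos}
    (hq : Frc q fun U => R U (mk U τ) (mk U u)) {π σ : GV} (a : Fi E π) (b : Fi E σ) :
    ∀ U, Iic (π • q) ∈ U.U ∧ Iic (σ • q) ∈ U.U →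
      ∃ w, R U (mk U (act π τ)) w ∧ R U (mk U (act σ τ)) w := by
  classical
  let G := E ∪ F ∪ ({j | q.f j ≠ univ} \ F')
  have g : G.Finite := (e.union f).union (q.fin.subset sdiff_subset)
  refine by_dense fun p hp => ?_
  obtain ⟨s, s0, s1, s2⟩ := ex_low hp
  obtain ⟨ρ, r1, r2⟩ := ex_mv e (g.union f') (s.fin.union ((g.image (π • ·)).union (g.image (σ • ·))))
  obtain ⟨r, r3, r4⟩ := ex_cp (s := s) (q := q) (ρ := ρ) fun t c => by
    by_cases i : t ∈ E
    · exact Or.inl ⟨r1 t i, by have := s1 t; rwa [← a t i, sm_f, a t i] at this⟩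
    · exact Or.inr (not_not.1 fun j => r2 t (by by_cases k : t ∈ F' <;> simp [G, k, c]) i (Or.inl j))
  have k : ∀ π, Fi E π → r ≤ π • q → (∀ t ∈ F', t ∉ E → ρ • t ∉ (π • ·) '' G) →
      Frc r fun U => R U (mk U (act π τ)) (mk U (act ρ u)) := fun π a c i => by
    haveI := (g.union f').to_subtype
    have j : ∀ t : (G ∪ F' : Set (ℕ × ℕ)), t.1 ∉ G → ∀ x ∈ G, π • x ≠ ρ • t.1 := fun t j x k l =>
      i t.1 (t.2.resolve_left j) (fun m => j (Or.inl (Or.inl m))) ⟨x, k, l⟩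
    obtain ⟨l, hl⟩ := ex_ext (f := fun t : (G ∪ F' : Set (ℕ × ℕ)) => t.1)
      (g := fun t => if t.1 ∈ G then π • t.1 else ρ • t.1) Subtype.val_injective
      (fun s t c => Subtype.ext (by
        dsimp only at c
        split_ifs at c with d f f
        exacts [MulAction.injective _ c, absurd c (j t f _ d), absurd c.symm (j s d _ f),
          MulAction.injective _ c])) fun t => by split_ifs <;> rfl
    have l1 : ∀ t ∈ G, l • t = π • t := fun t m => (hl ⟨t, Or.inl m⟩).trans (if_pos m)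
    have l2 : ∀ t ∈ F', l • t = ρ • t := fun t m => by
      by_cases n : t ∈ G
      · have : t ∈ E := n.elim (·.elim id (d t · m)) fun o => absurd m o.2
        rw [l1 t n, a t this, r1 t this]
      · exact (hl ⟨t, Or.inr m⟩).trans (if_neg n)
    refine (frc_mv (g := l) fun V hV => ?_).mono (p := l • q) fun t => ?_
    · dsimp only
      rw [← hτ.eq fun t m => l1 t (Or.inl (Or.inr m)), ← hu.eq l2]
      exact hR l (fun t m => (l1 t (Or.inl (Or.inl m))).trans (a t m)) V (hq V hV)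
    · obtain ⟨t, rfl⟩ := MulAction.surjective l t
      dsimp only
      rw [sm_f]
      by_cases m : t ∈ F'
      · rw [l2 t m, ← sm_f ρ q]; exact r4 _
      by_cases n : q.f t = univ
      · rw [n]; exact subset_univ _
      · rw [l1 t (Or.inr ⟨n, m⟩), ← sm_f π q]; exact c _
  exact ⟨r, r3.trans s0, fun V hV => ⟨_,
    k π a (r3.trans s1) (fun t c i j => r2 t (Or.inr c) i (Or.inr (Or.inl j))) V hV,
    k σ b (r3.trans s2) (fun t c i j => r2 t (Or.inr c) i (Or.inr (Or.inr j))) V hV⟩⟩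

def Rl {U : Ult (FD Pos)} (s z n x u : M U) : Prop := ∃ p, E U p z ∧ IsPair (E U) p x u ∧ App (E U) s p n

def Rf {U : Ult (FD Pos)} (y s z n j x f : M U) : Prop :=
  ∃ u, E U u y ∧ (App (E U) f j u ∧ ∀ v, E U v y → App (E U) f j v → v = u) ∧ Rl s z n x u

instance (s z n x u : Nm (FD Pos)) :
    C fun U => Rl (mk U s) (mk U z) (mk U n) (mk U x) (mk U u) := by unfold Rl; infer_instance

instance (y s z n j x f : Nm (FD Pos)) :
    C fun U => Rf (mk U y) (mk U s) (mk U z) (mk U n) (mk U j) (mk U x) (mk U f) := by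
  unfold Rf; infer_instance

theorem rf_mv (g : GV) {U : Ult (FD Pos)} {y s z n j x f : Nm (FD Pos)}
    (h : Rf (mk U y) (mk U s) (mk U z) (mk U n) (mk U j) (mk U x) (mk U f)) :
    Rf (mk (mv g U) (act g y)) (mk _ (act g s)) (mk _ (act g z)) (mk _ (act g n)) (mk _ (act g j))
      (mk _ (act g x)) (mk _ (act g f)) := by
  obtain ⟨u, a, ⟨b, c⟩, p, d, e, i⟩ := h
  obtain ⟨u, rfl⟩ := mk_surj u
  rw [e.uniq (isPair_kpair _ _)] at d i
  refine ⟨_, E_mv.2 a, ⟨app_iff.2 b, fun v k l => ?_⟩, _, E_mv.2 d, ?_, app_iff.2 i⟩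
  · obtain ⟨v, rfl⟩ := act_surj g v
    exact mk_mv.2 (c _ (E_mv.1 k) (app_iff.1 l))
  · rw [kpair_act (g := g) (fun _ => rfl) fun _ => rfl]
    exact isPair_kpair _ _

theorem so {y s z : Nm (FD Pos)} (hy : HS GV y) (hs : HS GV s) (hz : HS GV z) :
    ∃ K Φ, HS GV K ∧ HS GV Φ ∧ ∀ U : Ult (FD Pos),
    (∀ a, E U a (mk U K) → ∀ b, E U b (mk U K) → E U a b ∨ a = b ∨ E U b a) ∧
    ∀ f, L GV U f → ∀ n, E U n (mk U (setN natN univ)) →
      (∀ x, E U x (mk U y) → ∃ j, E U j (mk U (setN natN univ)) ∧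
        Rf (mk U y) (mk U s) (mk U z) n j x f) →
      ∀ x, E U x (mk U y) → ∃ α, E U α (mk U K) ∧ App (E U) (mk U Φ) α x ∧
        ∀ a, App (E U) (mk U Φ) α a → ∀ b, App (E U) (mk U Φ) α b →
          ∃ w, E U w (mk U y) ∧ Rl (mk U s) (mk U z) n a w ∧ Rl (mk U s) (mk U z) n b w := by
  obtain ⟨D, d, -, hD⟩ := supp_iff.1 ((hs_iff.1 hy).1.and ((hs_iff.1 hs).1.and (hs_iff.1 hz).1))
  let A : fixingSubgroup GV D × y.ι × FD Pos → Nm (FD Pos) := fun t => chk t.2
  let B : fixingSubgroup GV D × y.ι × FD Pos → Nm (FD Pos) := fun t => act t.1.1 (y.A t.2.1)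
  let Q : fixingSubgroup GV D × y.ι × FD Pos → Ult (FD Pos) → Prop :=
    fun t U => Iic (t.1.1 • t.2.2) ∈ U.U
  refine ⟨setN chk (univ : Set (y.ι × FD Pos)), fam (fun t => kpair (A t) (B t)) Q,
    (ck_set _ fun i _ => ⟨chk_hs i, fun g => chk_act g i⟩).1, hs_fam (supp_iff.2 ⟨D, d, subset_univ _,
      fun g a => fam_eqv ((Equiv.mulLeft ⟨g, (mem_fixingSubgroup_iff _).2 a⟩).prodCongr (Equiv.refl _))
        (fun t => kpair_act (chk_act g _) fun U => by rw [act_mul]; rfl) fun t U => by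
          show Iic ((g * t.1.1) • t.2.2) ∈ _ ↔ _
          rw [mul_smul, G_mv]⟩) fun t => hs_kpair (chk_hs _) (hs_act _ ((hs_iff.1 hy).2 _)),
    fun U => ⟨chk_tri U, fun f a n b c x e => ?_⟩⟩
  obtain ⟨f, rfl⟩ := mk_surj f
  obtain ⟨n, rfl⟩ := mk_surj n
  obtain ⟨x, rfl⟩ := mk_surj x
  revert b c e
  refine L_cases (fun f U hf a b => ?_) U a
  rw [a]
  refine setN_cases (fun n U _ b c e => ?_) U b
  rw [b] at c ⊢
  revert c
  refine mem_cases (fun i U o e c => ?_) U e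
  rw [e]
  refine by_dense (H := fun U => E U (mk U (y.A i)) (mk U y) ∧ ∀ x, E U x (mk U y) →
    ∃ j, E U j (mk U (setN natN univ)) ∧ Rf (mk U y) (mk U s) (mk U z) (mk U (natN n)) j x (mk U f))
    (R := fun U => ∃ α, E U α (mk U (setN chk (univ : Set (y.ι × FD Pos)))) ∧
      App (E U) (mk U (fam (fun t => kpair (A t) (B t)) Q)) α (mk U (y.A i)) ∧
      ∀ a, App (E U) (mk U (fam (fun t => kpair (A t) (B t)) Q)) α a →
        ∀ b, App (E U) (mk U (fam (fun t => kpair (A t) (B t)) Q)) α b → ∃ w, E U w (mk U y) ∧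
          Rl (mk U s) (mk U z) (mk U (natN n)) a w ∧ Rl (mk U s) (mk U z) (mk U (natN n)) b w)
    (fun p hp => ?_) U ⟨mem_intro y i U o, c⟩
  obtain ⟨F, f1, -, f2⟩ := supp_iff.1 (hs_iff.1 ((hs_iff.1 hy).2 i)).1
  obtain ⟨F', g1, -, g2⟩ := supp_iff.1 (hs_iff.1 hf).1
  obtain ⟨ρ, r1, r2⟩ := ex_mv d (g1.union p.fin) (f1.union p.fin)
  obtain ⟨r, r3, r4⟩ := ex_cp (s := p) (q := p) (ρ := ρ) fun t c => by
    by_cases i : t ∈ D
    exacts [Or.inl ⟨r1 t i, Subset.rfl⟩, Or.inr (not_not.1 fun j => r2 t (Or.inr c) i (Or.inr j))]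
  have k : Frc (ρ • p) fun U => ∀ x, E U x (mk U y) → ∃ j, E U j (mk U (setN natN univ)) ∧
      Rf (mk U y) (mk U s) (mk U z) (mk U (natN n)) j x (mk U (act ρ f)) :=
    frc_mv fun V hV x a => by
      obtain ⟨x, rfl⟩ := act_surj ρ x
      rw [← (hD ρ r1).1, E_mv] at a
      obtain ⟨j, b, c⟩ := (hp V hV).2 _ a
      obtain ⟨j, rfl⟩ := mk_surj j
      have := rf_mv ρ c
      rw [(hD ρ r1).1, (hD ρ r1).2.1, (hD ρ r1).2.2, nat_act] at this
      refine ⟨_, ?_, this⟩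
      rw [← (ck_set (Γ := GV) (f := natN) univ fun n _ => ck_nat n).2 ρ]
      exact E_mv.2 b
  obtain ⟨j, hj⟩ := frc_ex (p := r) fun V hV => k.mono r4 V hV _ (hp.mono r3 V hV).1
  obtain ⟨q, q1, m, q2⟩ := fam_elim (A := fun n : (univ : Set ℕ) => natN n) (Q := fun _ _ => True)
    (hj.imp fun _ e => e.1)
  have l := fun π σ a b => key (R := fun U x f => Rf (mk U y) (mk U s) (mk U z) (mk U (natN n))
    (mk U (natN m)) x f) (q := q) (π := π) (σ := σ) d f1 (g1.image (ρ • ·)) (u := act ρ f)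
    (fun g a V b => by
      have := rf_mv g b
      rwa [(hD g a).1, (hD g a).2.1, (hD g a).2.2, nat_act, nat_act] at this) f2
    (fun g a V => by
      rw [act_mul]
      exact Iu.eq g2 (fun t b => by rw [mul_smul, a _ ⟨t, b, rfl⟩]) V)
    (by
      rintro _ a ⟨t, b, rfl⟩
      by_cases c : t ∈ D
      · show ρ • t ∈ D
        rwa [r1 t c]
      · exact absurd (Or.inl a) (r2 t (Or.inl b) c))
    (fun V hV => by have := (hj.mono q1 V hV).2; rwa [(q2 V hV).2] at this) a b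
  refine ⟨q, q1.trans r3, fun V hV => ⟨_, setN_intro chk (mem_univ (i, q)) V, ⟨_, fam_intro
    (A := fun t => kpair (A t) (B t)) (Q := Q) (1, i, q) (by simpa [Q] using hV), ?_⟩, fun a b u c => ?_⟩⟩
  · have := isPair_kpair (U := V) (A (1, i, q)) (act (1 : GV) (y.A i))
    rwa [show mk V (act (1 : GV) (y.A i)) = mk V (y.A i) by rw [act_one]] at this
  · refine rcasQ (A := A) (B := B) (Q := Q) (S := fun U α a => α = mk U (chk (i, q)) → ∀ β b,
      App (E U) (mk U (fam (fun t => kpair (A t) (B t)) Q)) β b → β = mk U (chk (i, q)) →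
      ∃ w, E U w (mk U y) ∧ Rl (mk U s) (mk U z) (mk U (natN n)) a w ∧
        Rl (mk U s) (mk U z) (mk U (natN n)) b w) (fun t W a b β v c => rcasQ (A := A) (B := B) (Q := Q)
        (S := fun U β b => Q t U → β = mk U (chk (i, q)) → ∃ w, E U w (mk U y) ∧
          Rl (mk U s) (mk U z) (mk U (natN n)) (mk U (B t)) w ∧
          Rl (mk U s) (mk U z) (mk U (natN n)) b w) (fun t' W c d e => ?_) W β v c a) V _ _ b rfl _ _ c rfl
    obtain ⟨π, t⟩ := t
    obtain ⟨σ, t'⟩ := t'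
    obtain rfl : t = (i, q) := chk_inj b
    obtain rfl : t' = (i, q) := chk_inj e
    obtain ⟨w, ⟨u, a1, a2, a3⟩, v, b1, b2, b3⟩ := l π.1 σ.1 ((mem_fixingSubgroup_iff _).1 π.2)
      ((mem_fixingSubgroup_iff _).1 σ.2) W ⟨d, c⟩
    exact ⟨u, a1, a3, a2.2 v b1 b2.1 ▸ b3⟩

end

end Pool.Agent.H40.Gn
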