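import Pool.Agent.H40.G10

set_option autoImplicit false

/-! A generalised Cohen model in which `ℵ_ω` is a countable union of countable sets. -/

namespace Pool.Agent.H40.Gn

open Pool.Agent.H42.ZF Pool.Agent.H40.Js Set Filter Sum
open Cardinal hiding univ mk sum_le_sum
open Pool.Agent.H40.Bspt (Fm IsZF)

def VV (n : ℕ) : Type := (ℵ_ n).out

abbrev TT : Type := Σ n, VV n

theorem mk_VV (n : ℕ) : #(VV n) = ℵ_ n := mk_out _

def cyl (n : ℕ) (l : List (VV n)) : Set (ℕ → TT) := {x | ∀ m v, l[m]? = some v → x m = ⟨n, v⟩}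

abbrev PV := FD fun n s => ∃ l, cyl n l = s

theorem cyl_nil (n : ℕ) : cyl n [] = univ := by simp [cyl]

instance : Nonempty PV := ⟨⟨fun _ => univ, fun _ => ⟨[], cyl_nil _⟩, by simp⟩⟩

instance (n : ℕ) : Nonempty (VV n) := mk_ne_zero_iff.1 (by rw [mk_VV]; exact (aleph_pos _).ne')

instance : Nonempty TT := ⟨⟨0, Classical.arbitrary _⟩⟩

def gv (j : ℕ × ℕ) (a : Set (ℕ → TT)) : Set PV := {p | p.f j ⊆ a}

instance (j : ℕ × ℕ) (a : Set (ℕ → TT)) : C fun U : Ult PV => gv j a ∈ U.U :=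
  ⟨cl_set fun _ _ h h' => (h j).trans h'⟩

open Classical in
noncomputable def res (F : Set (ℕ × ℕ)) (p : PV) : PV :=
  ⟨fun t => if t ∈ F then p.f t else univ, fun t => by
    split_ifs
    exacts [p.pos t, ⟨[], cyl_nil _⟩], p.fin.subset fun t a b => by simp [b] at a⟩

theorem restr {F : Set (ℕ × ℕ)} (f : F.Finite) {Q : Ult PV → Prop} [C Q]
    (h : ∀ g, Fi F g → ∀ U, Q U → Q (mv g U)) {p : PV} (a : Frc p Q) : Frc (res F p) Q :=
  cl.dense fun s b => by
    obtain ⟨ρ, r1, r2⟩ := ex_mv f p.fin s.fin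
    obtain ⟨r, r3, r4⟩ := ex_cp (s := s) (q := p) (ρ := ρ) fun t c => by
      by_cases i : t ∈ F
      · exact Or.inl ⟨r1 t i, (b t).trans (if_pos i).subset⟩
      · exact Or.inr (not_not.1 (r2 t c i))
    exact ⟨r, r3, (frc_mv fun V hV => h ρ r1 V (a V hV)).mono r4⟩

noncomputable def eV (n : ℕ) : Nm PV := fam (fun t : VV n × ℕ => kpair (chk (⟨n, t.1⟩ : TT)) (natN t.2))
  fun t U => gv (n, 0) {x | x t.2 = ⟨n, t.1⟩} ∈ U.U

theorem ck_chk {J : Type} (t : J) : Ck GV (chk t : Nm PV) := ⟨chk_hs t, fun g => chk_act g t⟩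

theorem eV_hs (n : ℕ) : HS GV (eV n) :=
  hs_fam (supp_iff.2 ⟨{(n, 0)}, finite_singleton _, subset_univ _, fun g a =>
    fam_act (fun _ => (ck_pair (ck_chk _) (ck_nat _)).2 g) fun t U => by
      rw [mem_mv]
      refine iff_of_eq (congrArg (· ∈ U.U) (Set.ext fun p => ?_))
      show (g • p).f _ ⊆ _ ↔ _
      have := sm_f g p (n, 0)
      rw [a _ rfl] at this
      rw [this]
      rfl⟩) fun _ => (ck_pair (ck_chk _) (ck_nat _)).1

noncomputable def cV (n : ℕ) : Nm PV := setN chk {t : TT | t.1 = n}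

theorem eV_tot (n : ℕ) : ∀ (U : Ult PV) x, E U x (mk U (cV n)) →
    ∃ m, E U m (mk U (setN natN univ)) ∧ App (E U) (mk U (eV n)) x m := by
  refine cas ?_
  rintro ⟨k, v⟩ (rfl : k = n)
  refine cl.all fun p => ?_
  classical
  obtain ⟨l, hl⟩ := p.pos (k, 0)
  refine ⟨⟨Function.update p.f (k, 0) (cyl k (l ++ [v])), fun t => ?_, (p.fin.insert (k, 0)).subset
    fun k a => ?_⟩, fun t => ?_, fun V hV => ⟨_, setN_intro natN (mem_univ l.length) V, _,
      fam_intro (A := fun t : VV k × ℕ => kpair (chk (⟨k, t.1⟩ : TT)) (natN t.2)) (v, l.length)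
        (mem_of_superset hV fun q a => (a _).trans ?_), isPair_kpair _ _⟩⟩
  · rcases eq_or_ne t (k, 0) with rfl | a
    · exact ⟨l ++ [v], by simp⟩
    · simpa [a] using p.pos t
  · by_contra b
    rw [mem_insert_iff, not_or] at b
    simp_all
  · rcases eq_or_ne t (k, 0) with rfl | a
    · rw [← hl]
      simp only [Function.update_self]
      exact fun x b m w c => b m w (by
        rwa [List.getElem?_append_left (List.getElem?_eq_some_iff.1 c).1])
    · simp [a]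
  · simp only [Function.update_self]
    exact fun x b => b _ v (by simp)

theorem eV_inj (n : ℕ) : ∀ (U : Ult PV) x m, App (E U) (mk U (eV n)) x m → ∀ y k,
    App (E U) (mk U (eV n)) y k → m = k → x = y :=
  rcasQ fun s U a y k b => rcasQ (S := fun U y k => gv (n, 0) {x | x s.2 = ⟨n, s.1⟩} ∈ U.U →
    mk U (natN s.2) = k → mk U (chk (⟨n, s.1⟩ : TT)) = y) (fun t U c d e => by
      obtain ⟨p, f, g⟩ := Filter.nonempty_of_mem (inter_mem c d)
      obtain ⟨l, hl⟩ := p.pos (n, 0)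
      have : (fun m => (l[m]?).elim (Classical.arbitrary TT) fun v => ⟨n, v⟩) ∈ p.f (n, 0) :=
        hl ▸ fun m v i => by simp [i]
      rw [((g this).symm.trans (natN_inj e ▸ f this) : (⟨n, s.1⟩ : TT) = ⟨n, t.1⟩)]) U y k b a

theorem unc {y : Nm PV} (hy : HS GV y) : ∀ U : Ult PV, ¬ ((∀ x, E U x (mk U (setN chk (univ : Set TT))) →
    ∃ m, E U m (mk U (setN natN univ)) ∧ App (E U) (mk U y) x m) ∧
    ∀ x, E U x (mk U (setN chk (univ : Set TT))) → ∀ z, E U z (mk U (setN chk (univ : Set TT))) →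
      ∀ m, E U m (mk U (setN natN univ)) → App (E U) (mk U y) x m → App (E U) (mk U y) z m → x = z) := by
  refine cl.by_contra fun p hp => ?_
  replace hp := hp.imp fun _ => not_not.1
  obtain ⟨F, f, -, iy⟩ := supp_iff.1 (hs_iff.1 hy).1
  obtain ⟨N, hN⟩ := (f.image Prod.fst).bddAbove
  have : ∀ v : VV (N + 1), ∃ (q : PV) (m : ℕ), q ≤ p ∧
      Frc q fun U => App (E U) (mk U y) (mk U (chk (⟨_, v⟩ : TT))) (mk U (natN m)) := fun v => by
    obtain ⟨n, hn⟩ := frc_ex (hp.imp fun U e => e.1 _ (setN_intro chk (mem_univ (⟨_, v⟩ : TT)) U))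
    obtain ⟨q, q1, m, q2⟩ := fam_elim (A := fun n : (univ : Set ℕ) => natN n)
      (Q := fun _ _ => True) (hn.imp fun _ e => e.1)
    exact ⟨q, m, q1, fun U hU => by have := (hn.mono q1 U hU).2; rwa [(q2 U hU).2] at this⟩
  choose q m q1 q2 using this
  choose l hl using fun v t => (q v).pos t
  haveI := f.fintype
  have c := mk_le_of_injective (f := fun v => ((fun t : F => (⟨⟨t.1.1, Nat.lt_succ_of_le
    (hN ⟨_, t.2, rfl⟩)⟩, l v t⟩ : Σ k : Fin (N + 1), List (VV k))), m v)) fun v w e => by_contra fun d => by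
      obtain ⟨e1, e2⟩ := Prod.ext_iff.1 e
      have e3 : res F (q v) = res F (q w) := FD.ext' (funext fun t => by
        simp only [res]
        split_ifs with a
        · rw [← hl, ← hl, show l v t = l w t from eq_of_heq (Sigma.ext_iff.1 (congrFun e1 ⟨t, a⟩)).2]
        · rfl)
      obtain ⟨V, hV⟩ := ex_ult (res F (q v))
      have k := fun v => restr f (fun g a U e => (inv_app (iy g a) (ck_chk _) (ck_nat _)).2 e) (q2 v)
      refine (restr f (Q := fun U => ¬ (App (E U) (mk U y) (mk U (chk (⟨_, v⟩ : TT))) (mk U (natN (m v))) ∧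
        App (E U) (mk U y) (mk U (chk (⟨_, w⟩ : TT))) (mk U (natN (m v))))) (fun g a U e => by
          rwa [inv_app (iy g a) (ck_chk _) (ck_nat _), inv_app (iy g a) (ck_chk _) (ck_nat _)])
        ((hp.mono (q1 v)).imp fun U e i => d (eq_of_heq (Sigma.ext_iff.1 (chk_inj (e.2 _
          (setN_intro _ (mem_univ _) U) _ (setN_intro _ (mem_univ _) U) _ (setN_intro _ (mem_univ _) U)
          i.1 i.2))).2))) V hV ⟨k v V hV, (show m w = m v from e2.symm) ▸ k w V (e3 ▸ hV)⟩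
  have a : ℵ₀ ≤ ℵ_ N := aleph0_le_aleph _
  have b : #(Σ k : Fin (N + 1), List (VV k)) ≤ ℵ_ N := by
    rw [mk_sigma]
    refine (Cardinal.sum_le_sum _ (fun _ => ℵ_ N) fun k => ?_).trans ?_
    · rw [mk_list_eq_max_mk_aleph0, mk_VV]
      exact max_le (aleph_le_aleph.2 (by exact_mod_cast Nat.le_of_lt_succ k.2)) a
    · rw [sum_const']
      exact (mul_le_max_of_aleph0_le_right a).trans (max_le ((lt_aleph0_of_finite _).le.trans a) le_rfl)
  rw [mk_VV, mk_prod, lift_id, lift_id, ← power_def, mk_nat] at c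
  refine (c.trans ((mul_le_mul' ((power_le_power_right b).trans (Cardinal.pow_le a
    (lt_aleph0_of_finite _))) a).trans (mul_eq_self a).le)).not_gt (aleph_lt_aleph.2 ?_)
  exact_mod_cast N.lt_succ_self

structure VM {M : Type} (E : M → M → Prop) : Prop where
  so : ∀ X s Z, ∃ K Φ, (∀ a, E a K → ∀ b, E b K → E a b ∨ a = b ∨ E b a) ∧
    ∀ f n, Bspt.IsNat E n → (∀ x, E x X → ∃ j, Bspt.IsNat E j ∧ ∃ u, E u X ∧ (Bspt.App E f j u ∧
      ∀ v, E v X → Bspt.App E f j v → v = u) ∧ ∃ p, E p Z ∧ Bspt.IsPair E p x u ∧ Bspt.App E s p n) →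
      ∀ x, E x X → ∃ α, E α K ∧ Bspt.App E Φ α x ∧ ∀ a, E a X → Bspt.App E Φ α a → ∀ b, E b X →
        Bspt.App E Φ α b → ∃ w, E w X ∧ (∃ p, E p Z ∧ Bspt.IsPair E p a w ∧ Bspt.App E s p n) ∧
          ∃ p, E p Z ∧ Bspt.IsPair E p b w ∧ Bspt.App E s p n
  un : ∃ A W, (∀ z, E z W ↔ ∃ X, E X A ∧ E z X) ∧ (∀ X, X = A ∨ E X A → ∃ e,
    (∀ x, E x X → ∃ m, Bspt.IsNat E m ∧ Bspt.App E e x m) ∧
      ∀ x y m, Bspt.App E e x m → Bspt.App E e y m → x = y) ∧
    ∀ e, ¬ ((∀ x, E x W → ∃ m, Bspt.IsNat E m ∧ Bspt.App E e x m) ∧ ∀ x, E x W → ∀ y, E y W →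
      ∀ m, Bspt.IsNat E m → Bspt.App E e x m → Bspt.App E e y m → x = y)

noncomputable def vb : (ℕ ⊕ ℕ) ⊕ Option Bool → Nm PV := Sum.elim (Sum.elim cV eV) fun o =>
  o.elim (setN chk (univ : Set TT)) fun b =>
    cond b (setN cV univ) (setN (fun n => kpair (cV n) (natN n)) univ)

theorem cV_ck (n : ℕ) : Ck GV (cV n) := ck_set _ fun _ _ => ck_chk _

theorem vb_hs : ∀ b, HS GV (vb b) := by
  rintro ((n | n) | _ | _ | _)
  exacts [(cV_ck n).1, eV_hs n, (ck_set (f := chk) _ fun _ _ => ck_chk _).1,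
    (ck_set (f := fun n => kpair (cV n) (natN n)) _ fun n _ => ck_pair (cV_ck n) (ck_nat n)).1,
    (ck_set (f := cV) _ fun n _ => cV_ck n).1]

theorem ex_vm : ∃ (M : Type) (E : M → M → Prop) (Q : QM E), VM E := by
  obtain ⟨G, hG⟩ := ex_gm2 (bs_hs vb_hs)
  have jL : ∀ a, L GV G.U (G.j a) := fun a => (G.nm a).elim fun y k => k.2 ▸ L_hs k.1 _
  have jW : G.j (G.c (inl (inr none))) = mk G.U (setN natN univ) := G.jc _
  have jc : ∀ n, G.j (G.c (inr (inl (inl n)))) = mk G.U (cV n) := fun _ => G.jc _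
  have jT : G.j (G.c (inr (inr none))) = mk G.U (setN chk (univ : Set TT)) := G.jc _
  have hA : ∀ X, G.R X (G.c (inr (inr (some true)))) ↔ ∃ n, X = G.c (inr (inl (inl n))) := fun X =>
    (G.set (f := cV) (s := univ) rfl).trans (exists_congr fun n => by
      rw [G.inj, jc, and_iff_right (mem_univ _)])
  have tot : ∀ X e, (∀ x, E G.U x (G.j X) → ∃ m, E G.U m (mk G.U (setN natN univ)) ∧
      App (E G.U) (G.j e) x m) → ∀ x, G.R x X → ∃ m, Bspt.IsNat G.R m ∧ Bspt.App G.R e x m :=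
    fun X e a => by
      have := (G.abs (.all 0 (.ex 3 (.app 3 1 0))) (Bspt.cons X (Bspt.cons e
        fun _ => G.c (inl (inr none))))).2 (by simpa only [S1, cs, Bspt.cons, jW])
      simpa only [S0, Bspt.cons, G.w, ← G.num.2] using this
  refine ⟨G.H, G.R, G.qm, fun X s Z => ?_, G.c (inr (inr (some true))), G.c (inr (inr none)),
    fun z => ⟨fun a => ?_, fun ⟨X, a, b⟩ => ?_⟩, ?_, fun e a => ?_⟩
  · obtain ⟨y, hy, e⟩ := G.nm X
    obtain ⟨s', hs, e1⟩ := G.nm s
    obtain ⟨z, hz, e2⟩ := G.nm Z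
    obtain ⟨K, Φ, a, b, d⟩ := so hy hs hz
    obtain ⟨K', Φ', f, g⟩ := (hG (.ex (.ex (.and (tr (.all 1 (.all 2 (.or (.mem 1 0)
      (.or (.eq 1 0) (.mem 0 1)))))) (allF (tr (.all 6 (.imp (.all 4 (.ex 8 (.ex 6 (.and
        (.and (.app 4 1 0) (.all 7 (.imp (.app 5 2 0) (.eq 0 1)))) (.ex 9 (.and (.pr 0 3 1)
          (.app 9 0 4))))))) (.all 4 (.ex 4 (.and (.app 4 0 1) (.all 6 (.imp (.app 5 1 0)
            (.all 7 (.imp (.app 6 2 0) (.ex 8 (.and (.ex 11 (.and (.pr 0 3 1) (.app 11 0 6)))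
              (.ex 11 (.and (.pr 0 2 1) (.app 11 0 6)))))))))))))))))))
      (Bspt.cons X (Bspt.cons s (Bspt.cons Z fun _ => G.c (inl (inr none)))))).2
      ⟨_, L_hs a _, _, L_hs b _, (s1_iff _ _ (by
        rintro (_ | _ | i)
        exacts [L_hs b _, L_hs a _, jL _])).2 (d _).1, sl_all.2 fun f c => (s1_iff _ _ (by
        rintro (_ | _ | _ | i)
        exacts [c, L_hs b _, L_hs a _, jL _])).2 (by
          simp only [S1, cs, Bspt.cons, e, e1, e2, jW]
          exact fun n k l x m => ((d _).2 f c n k l x m).imp fun α o =>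
            ⟨o.1, o.2.1, fun a _ p b _ => o.2.2 a p b⟩)⟩
    rw [s0_iff] at f
    simp only [sat_all, s0_iff, S0, Bspt.cons, G.w, ← G.num.2] at f g
    exact ⟨K', Φ', f, g⟩
  · obtain ⟨t, -, b⟩ := (G.set (f := chk) (s := univ) rfl).1 a
    exact ⟨_, (hA _).2 ⟨t.1, rfl⟩, (G.set (f := chk) (s := {s : TT | s.1 = t.1}) rfl).2 ⟨t, rfl, b⟩⟩
  · obtain ⟨n, rfl⟩ := (hA X).1 a
    obtain ⟨t, -, b⟩ := (G.set (f := chk) (s := {s : TT | s.1 = n}) rfl).1 b
    exact (G.set (f := chk) (s := univ) rfl).2 ⟨t, trivial, b⟩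
  · rintro X (rfl | a)
    · refine ⟨G.c (inr (inr (some false))), tot _ _ ?_, fun x y m => ?_⟩
      · rw [G.jc, G.jc]
        exact cas (f := cV) (s := univ) (S := fun U x => ∃ m, E U m (mk U (setN natN univ)) ∧
          App (E U) (mk U (setN (fun n => kpair (cV n) (natN n)) univ)) x m) (fun n _ U =>
            ⟨_, setN_intro _ (mem_univ n) U, _, setN_intro _ (mem_univ n) U, isPair_kpair _ _⟩) _
      · rw [G.app, G.app, G.inj, G.jc]
        exact fun a b => rcasQ (A := fun n : (univ : Set ℕ) => cV n) (B := fun n => natN n)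
          (Q := fun _ _ => True) (S := fun U x m => ∀ y k, App (E U) (mk U (setN (fun n =>
            kpair (cV n) (natN n)) univ)) y k → m = k → x = y) (fun n U _ => rcasQ
              (A := fun n : (univ : Set ℕ) => cV n) (B := fun n => natN n) (Q := fun _ _ => True)
              (S := fun U y k => mk U (natN n) = k → mk U (cV n) = y)
              (fun k V _ e => by rw [natN_inj e]) U) _ _ _ a _ _ b rfl
    · obtain ⟨n, rfl⟩ := (hA X).1 a
      refine ⟨G.c (inr (inl (inr n))), tot _ _ ?_, fun x y m => ?_⟩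
      · rw [G.jc, G.jc]
        exact eV_tot n _
      · rw [G.app, G.app, G.inj, G.jc]
        exact fun a b => eV_inj n _ _ _ a _ _ b rfl
  · obtain ⟨y, hy, k⟩ := G.nm e
    have := (G.abs (.and (.all 0 (.ex 3 (.app 3 1 0))) (.all 0 (.all 1 (.all 4 (.imp (.app 4 2 0)
      (.imp (.app 4 1 0) (.eq 2 1))))))) (Bspt.cons (G.c (inr (inr none))) (Bspt.cons e
        fun _ => G.c (inl (inr none))))).1 (by simpa only [S0, Bspt.cons, G.w, ← G.num.2])
    simp only [S1, cs, Bspt.cons, jW, jT, k] at this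
    exact unc hy _ this

end Pool.Agent.H40.Gn
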