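import Mathlib

set_option autoImplicit false

/-! A polarized partition lemma for families of small functions. -/

namespace Pool.Agent.H40.Gn

open Cardinal Function

theorem pr1 (L V : Type) [Nonempty V] : ∃ K : Type, ∀ (J : Type) (S : K → L → J) (w : K → L → V),
    (∀ i l l', S i l = S i l' → w i l = w i l') → ∃ H : ℕ → K, Injective H ∧
      ∀ m n l l', S (H m) l = S (H n) l' → w (H m) l = w (H n) l' := by
  classical
  let μ := (L × L) ⊕ V ⊕ ℕ → Prop
  let ν := (μ → Prop) → Prop
  have a : ℵ₀ ≤ #((L × L) ⊕ V ⊕ ℕ) := aleph0_le_mk _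
  have b : #μ = 2 ^ #((L × L) ⊕ V ⊕ ℕ) := by simp only [μ, ← power_def, mk_Prop]
  have c : #ν = 2 ^ (2 : Cardinal) ^ #μ := by simp only [ν, ← power_def, mk_Prop]
  have a1 := (a.trans (b ▸ cantor _).le)
  have a2 := a1.trans (cantor _).le
  have a3 : ℵ₀ ≤ #ν := c ▸ a2.trans (cantor _).le
  have l1 : #(L × L) ≤ #μ := (mk_le_of_injective Sum.inl_injective).trans (b ▸ cantor _).le
  have l2 : #V ≤ #μ := (mk_le_of_injective (Sum.inr_injective.comp Sum.inl_injective)).trans
    (b ▸ cantor _).le
  refine ⟨Set ν, fun J S w h => ?_⟩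
  rcases isEmpty_or_nonempty L with e | e
  · haveI := infinite_iff.2 a3
    exact ⟨fun n => {Infinite.natEmbedding ν n}, Set.singleton_injective.comp
      (Infinite.natEmbedding ν).injective, fun _ _ l => e.elim l⟩
  obtain ⟨g⟩ : Nonempty (Set ν × L ↪ Set ν) := by
    rw [← le_def, mk_prod, lift_id, lift_id, mul_eq_left (by simpa using a3.trans (cantor _).le)
      _ (mk_ne_zero _)]
    rw [mk_set, c]
    exact ((mk_le_of_injective (f := fun l => (l, l)) fun _ _ e => (Prod.ext_iff.1 e).1).trans l1).trans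
      ((cantor _).le.trans ((cantor _).le.trans (cantor _).le))
  let e : J → Set ν := fun j => g (invFun (uncurry S) j)
  have e1 : ∀ i l i' l', e (S i l) = e (S i' l') → S i l = S i' l' := fun i l i' l' k => by
    have := congrArg (uncurry S) (g.injective k)
    exact (invFun_eq (f := uncurry S) ⟨(i, l), rfl⟩).symm.trans
      (this.trans (invFun_eq (f := uncurry S) ⟨(i', l'), rfl⟩))
  haveI := infinite_iff.2 a3
  have : ∀ i, ∃ t : (L × L → ν) × ((L × L → Prop) → V), ∀ l,
      t.2 (fun x => t.1 x ∈ e (S i l)) = w i l := fun i => by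
    have : ∀ x : L × L, ∃ y, (y ∈ e (S i x.1) ↔ y ∈ e (S i x.2)) → S i x.1 = S i x.2 := fun x =>
      by_contra fun k => by
        push Not at k
        exact (k (Classical.arbitrary _)).2 (e1 _ _ _ _ (Set.ext fun y => (k y).1))
    choose A hA using this
    refine ⟨(A, extend (fun l x => A x ∈ e (S i l)) (w i) fun _ => Classical.arbitrary _),
      fun l => FactorsThrough.extend_apply (f := fun l x => A x ∈ e (S i l)) (fun l l' k => h i l l' (hA (l, l') ?_))
        (fun _ => Classical.arbitrary _) l⟩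
    exact iff_of_eq (congrFun k (l, l'))
  choose t ht using this
  haveI : Infinite ((L × L → ν) × ((L × L → Prop) → V)) := Prod.infinite_of_left
  obtain ⟨x, hx⟩ := exists_infinite_fiber t (by
    rw [mk_set, mk_prod, lift_id, lift_id]
    refine lt_of_le_of_lt ?_ (cantor _)
    refine le_trans (mul_le_mul' ?_ ?_) (mul_eq_self a3).le
    · rw [← power_def, c, ← power_mul]
      exact power_le_power_left two_ne_zero ((mul_le_mul' le_rfl (l1.trans (cantor _).le)).trans
        (mul_eq_self a2).le)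
    · rw [← power_def, ← power_def, mk_Prop]
      refine (power_le_power_right (l2.trans (cantor _).le)).trans ?_
      rw [c, ← power_mul]
      exact power_le_power_left two_ne_zero ((mul_le_mul' (cantor _).le
        (power_le_power_left two_ne_zero l1)).trans (mul_eq_self a2).le))
  let H := Infinite.natEmbedding (t ⁻¹' {x})
  refine ⟨fun n => (H n).1, Subtype.val_injective.comp H.injective, fun m n l l' k => ?_⟩
  rw [← ht, ← ht, k, show t (H m).1 = x from (H m).2, show t (H n).1 = x from (H n).2]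

theorem prk (V : Type) [Nonempty V] (k : ℕ) : ∀ L : Type, ∃ K : Type, ∀ (J : Type)
    (S : (Fin k → K) → L → J) (w : (Fin k → K) → L → V),
    (∀ i l l', S i l = S i l' → w i l = w i l') → ∃ H : Fin k → ℕ → K, (∀ a, Injective (H a)) ∧
      ∀ (m n : Fin k → ℕ) l l', S (fun a => H a (m a)) l = S (fun a => H a (n a)) l' →
        w (fun a => H a (m a)) l = w (fun a => H a (n a)) l' := by
  induction k with
  | zero => exact fun L => ⟨Unit, fun J S w h => ⟨fun _ _ => (), fun a => a.elim0, fun _ _ => h _⟩⟩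
  | succ k ih =>
    intro L
    obtain ⟨K, a⟩ := ih (L × ℕ)
    obtain ⟨K', b⟩ := pr1 ((Fin k → K) × L) V
    refine ⟨K' ⊕ K, fun J S w h => ?_⟩
    let c : K' → (Fin k → K) → Fin (k + 1) → K' ⊕ K := fun i t => Fin.cons (.inl i) fun a => .inr (t a)
    obtain ⟨H, h1, h2⟩ := b ((Fin k → K) × J) (fun i x => (x.1, S (c i x.1) x.2))
      (fun i x => w (c i x.1) x.2) (by
        rintro i ⟨t, l⟩ ⟨t', l'⟩ e
        obtain ⟨rfl, e⟩ := Prod.ext_iff.1 e
        exact h _ _ _ e)
    obtain ⟨G, g1, g2⟩ := a J (fun t x => S (c (H x.2) t) x.1) (fun t x => w (c (H x.2) t) x.1)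
      fun t x y e => h2 x.2 y.2 (t, x.1) (t, y.1) (Prod.ext rfl e)
    refine ⟨Fin.cons (fun n => .inl (H n)) fun a n => .inr (G a n), Fin.cases
      (Sum.inl_injective.comp h1) fun a => Sum.inr_injective.comp (g1 a), fun m n l l' => ?_⟩
    have : ∀ m : Fin (k + 1) → ℕ, (fun a => (Fin.cons (fun n => Sum.inl (H n))
        (fun a n => Sum.inr (G a n)) : Fin (k + 1) → ℕ → K' ⊕ K) a (m a)) =
        c (H (m 0)) fun a => G a (m a.succ) := fun m => funext (Fin.cases rfl fun _ => rfl)
    rw [this, this]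
    exact g2 _ _ (l, m 0) (l', n 0)

end Pool.Agent.H40.Gn
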