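import Pool.Agent.H40.G11
import Pool.Agent.H40.G12

set_option autoImplicit false

/-! The generalised Cohen collapse model with very many copies. -/

namespace Pool.Agent.H40.Gn.Bk

open Pool.Agent.H42.ZF Pool.Agent.H40.Js Set Filter Sum
open Cardinal hiding univ mk sum_le_sum
open Pool.Agent.H40.Bspt (Fm IsZF)

def KK (k : ℕ) : Type := (prk (Bool × Set (ℕ → TT)) k ℕ).choose

abbrev K : Type := Option (Σ k, Fin k × KK k) × ℕ

structure FD {S : Type} (Pos : ℕ → Set S → Prop) where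
  f : ℕ × K → Set S
  pos : ∀ j, Pos j.1 (f j)
  fin : {j | f j ≠ univ}.Finite

def GV : Type := ℕ → Equiv.Perm K

instance : Group GV := inferInstanceAs (Group (ℕ → Equiv.Perm K))

instance : MulAction GV (ℕ × K) where
  smul g t := (t.1, g t.1 t.2)
  one_smul _ := rfl
  mul_smul _ _ _ := rfl

instance : NF GV := suppNF GV (univ : Set (ℕ × K)) fun _ _ _ => trivial

abbrev Fi (F : Set (ℕ × K)) (g : GV) : Prop := ∀ t ∈ F, g • t = t

theorem ex_ext {α : Type} [Finite α] {f g : α → ℕ × K} (a : Function.Injective f)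
    (b : Function.Injective g) (c : ∀ x, (f x).1 = (g x).1) : ∃ π : GV, ∀ x, π • f x = g x := by
  choose π h using fun n => Equiv.Perm.exists_extending_pair
    (f := fun x : {x // (f x).1 = n} => (f x).2) (g := fun x => (g x).2)
    (fun x y e => Subtype.ext (a (Prod.ext (x.2.trans y.2.symm) e)))
    fun x y e => Subtype.ext (b (Prod.ext (by rw [← c, ← c, x.2, y.2]) e))
  exact ⟨π, fun x => Prod.ext (c x) (h _ ⟨x, rfl⟩)⟩

theorem ex_mv {E A B : Set (ℕ × K)} (e : E.Finite) (a : A.Finite) (b : B.Finite) :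
    ∃ ρ : GV, Fi E ρ ∧ ∀ t ∈ A, t ∉ E → ρ • t ∉ B := by
  classical
  obtain ⟨N, hN⟩ := ((e.union b).image fun t => t.2.2).bddAbove
  haveI := (e.union a).to_subtype
  have k : ∀ t ∈ E ∪ B, t.2.2 ≤ N := fun t c => hN ⟨t, c, rfl⟩
  obtain ⟨ρ, h⟩ := ex_ext (f := fun t : (E ∪ A : Set (ℕ × K)) => t.1)
    (g := fun t => if t.1 ∈ E then t.1 else (t.1.1, t.1.2.1, t.1.2.2 + N + 1)) Subtype.val_injective
    (fun s t c => Subtype.ext (by
      dsimp only at c
      split_ifs at c with d f f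
      · exact c
      · have := k _ (Or.inl d); rw [c] at this; dsimp only at this; omega
      · have := k _ (Or.inl f); rw [← c] at this; dsimp only at this; omega
      · simpa [Prod.ext_iff] using c))
    fun t => by split_ifs <;> rfl
  refine ⟨ρ, fun t c => (h ⟨t, Or.inl c⟩).trans (if_pos c), fun t c d f => ?_⟩
  have := k _ (Or.inr f)
  rw [h ⟨t, Or.inr c⟩, if_neg d] at this
  dsimp only at this
  omega

section
variable {S : Type} {Pos : ℕ → Set S → Prop}

theorem FD.ext' {p q : FD Pos} (h : p.f = q.f) : p = q := by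
  cases p; cases q; cases h; rfl

instance : Preorder (FD Pos) where
  le q p := ∀ j, q.f j ⊆ p.f j
  le_refl _ _ := Subset.rfl
  le_trans _ _ _ a b j := (a j).trans (b j)

instance : MulAction GV (FD Pos) where
  smul g p := ⟨fun t => p.f (g⁻¹ • t), fun t => p.pos (g⁻¹ • t),
    (p.fin.image (g • ·)).subset fun t a => ⟨_, a, by simp⟩⟩
  one_smul _ := rfl
  mul_smul _ _ _ := rfl

instance : Mo GV (FD Pos) := ⟨fun _ _ _ h _ => h _⟩

theorem sm_f (g : GV) (p : FD Pos) (t : ℕ × K) : (g • p).f (g • t) = p.f t := by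
  show p.f (g⁻¹ • g • t) = _
  rw [inv_smul_smul]

theorem ex_cp {s q : FD Pos} {ρ : GV}
    (h : ∀ t, q.f t ≠ univ → ρ • t = t ∧ s.f t ⊆ q.f t ∨ s.f (ρ • t) = univ) :
    ∃ r ≤ s, r ≤ ρ • q := by
  refine ⟨⟨fun j => s.f j ∩ (ρ • q).f j, fun t => ?_, (s.fin.union (ρ • q).fin).subset fun j a => by
    by_contra c
    simp_all⟩, fun _ => inter_subset_left, fun _ => inter_subset_right⟩
  obtain ⟨t, rfl⟩ := MulAction.surjective ρ t
  dsimp only
  rw [sm_f]
  by_cases a : q.f t = univ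
  · rw [a, inter_univ]; exact s.pos _
  rcases h t a with b | b
  · rw [b.1, inter_eq_left.2 b.2]; exact s.pos _
  · rw [b, univ_inter]; exact q.pos t

def Iu (F : Set (ℕ × K)) (y : Nm (FD Pos)) : Prop := ∀ g, Fi F g → Eqv (act g y) y

theorem Iu.eq {F : Set (ℕ × K)} {y : Nm (FD Pos)} (h : Iu F y) {g k : GV}
    (a : ∀ t ∈ F, g • t = k • t) : Eqv (act g y) (act k y) := fun U => by
  have := (h (k⁻¹ * g) fun t b => by rw [mul_smul, a t b, inv_smul_smul]).act k U
  rwa [act_mul, mul_inv_cancel_left] at this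

theorem key {R : ∀ U : Ult (FD Pos), M U → M U → Prop} [∀ x y, C fun U => R U (mk U x) (mk U y)]
    {E F F' : Set (ℕ × K)} (e : E.Finite) (f : F.Finite) (f' : F'.Finite) {τ u : Nm (FD Pos)}
    (hR : ∀ g, Fi E g → ∀ U, R U (mk U τ) (mk U u) → R (mv g U) (mk _ (act g τ)) (mk _ (act g u)))
    (hτ : Iu F τ) (hu : Iu F' u) (d : ∀ t ∈ F, t ∈ F' → t ∈ E) {q : FD Pos}
    (hq : Frc q fun U => R U (mk U τ) (mk U u)) {π σ : GV} (a : Fi E π) (b : Fi E σ) :
    ∀ U, Iic (π • q) ∈ U.U ∧ Iic (σ • q) ∈ U.U →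
      ∃ w, R U (mk U (act π τ)) w ∧ R U (mk U (act σ τ)) w := by
  classical
  let G := E ∪ F ∪ ({j | q.f j ≠ univ} \ F')
  have g : G.Finite := (e.union f).union (q.fin.subset sdiff_subset)
  refine by_dense fun p hp => ?_
  obtain ⟨s, s0, s1, s2⟩ := ex_low hp
  obtain ⟨ρ, r1, r2⟩ := ex_mv e (g.union f') (s.fin.union ((g.image (π • ·)).union (g.image (σ • ·))))
  obtain ⟨r, r3, r4⟩ := ex_cp (s := s) (q := q) (ρ := ρ) fun t c => by
    by_cases i : t ∈ E
    · exact Or.inl ⟨r1 t i, by have := s1 t; rwa [← a t i, sm_f, a t i] at this⟩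
    · exact Or.inr (not_not.1 fun j => r2 t (by by_cases k : t ∈ F' <;> simp [G, k, c]) i (Or.inl j))
  have k : ∀ π, Fi E π → r ≤ π • q → (∀ t ∈ F', t ∉ E → ρ • t ∉ (π • ·) '' G) →
      Frc r fun U => R U (mk U (act π τ)) (mk U (act ρ u)) := fun π a c i => by
    haveI := (g.union f').to_subtype
    have j : ∀ t : (G ∪ F' : Set (ℕ × K)), t.1 ∉ G → ∀ x ∈ G, π • x ≠ ρ • t.1 := fun t j x k l =>
      i t.1 (t.2.resolve_left j) (fun m => j (Or.inl (Or.inl m))) ⟨x, k, l⟩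
    obtain ⟨l, hl⟩ := ex_ext (f := fun t : (G ∪ F' : Set (ℕ × K)) => t.1)
      (g := fun t => if t.1 ∈ G then π • t.1 else ρ • t.1) Subtype.val_injective
      (fun s t c => Subtype.ext (by
        dsimp only at c
        split_ifs at c with d f f
        exacts [MulAction.injective _ c, absurd c (j t f _ d), absurd c.symm (j s d _ f),
          MulAction.injective _ c])) fun t => by split_ifs <;> rfl
    have l1 : ∀ t ∈ G, l • t = π • t := fun t m => (hl ⟨t, Or.inl m⟩).trans (if_pos m)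
    have l2 : ∀ t ∈ F', l • t = ρ • t := fun t m => by
      by_cases n : t ∈ G
      · have : t ∈ E := n.elim (·.elim id (d t · m)) fun o => absurd m o.2
        rw [l1 t n, a t this, r1 t this]
      · exact (hl ⟨t, Or.inr m⟩).trans (if_neg n)
    refine (frc_mv (g := l) fun V hV => ?_).mono (p := l • q) fun t => ?_
    · dsimp only
      rw [← hτ.eq fun t m => l1 t (Or.inl (Or.inr m)), ← hu.eq l2]
      exact hR l (fun t m => (l1 t (Or.inl (Or.inl m))).trans (a t m)) V (hq V hV)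
    · obtain ⟨t, rfl⟩ := MulAction.surjective l t
      dsimp only
      rw [sm_f]
      by_cases m : t ∈ F'
      · rw [l2 t m, ← sm_f ρ q]; exact r4 _
      by_cases n : q.f t = univ
      · rw [n]; exact subset_univ _
      · rw [l1 t (Or.inr ⟨n, m⟩), ← sm_f π q]; exact c _
  exact ⟨r, r3.trans s0, fun V hV => ⟨_,
    k π a (r3.trans s1) (fun t c i j => r2 t (Or.inr c) i (Or.inr (Or.inl j))) V hV,
    k σ b (r3.trans s2) (fun t c i j => r2 t (Or.inr c) i (Or.inr (Or.inr j))) V hV⟩⟩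

def Rl {U : Ult (FD Pos)} (s z n x u : M U) : Prop := ∃ p, E U p z ∧ IsPair (E U) p x u ∧ App (E U) s p n

def Rf {U : Ult (FD Pos)} (y s z n j x f : M U) : Prop :=
  ∃ u, E U u y ∧ (App (E U) f j u ∧ ∀ v, E U v y → App (E U) f j v → v = u) ∧ Rl s z n x u

instance (s z n x u : Nm (FD Pos)) :
    C fun U => Rl (mk U s) (mk U z) (mk U n) (mk U x) (mk U u) := by unfold Rl; infer_instance

instance (y s z n j x f : Nm (FD Pos)) :
    C fun U => Rf (mk U y) (mk U s) (mk U z) (mk U n) (mk U j) (mk U x) (mk U f) := by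
  unfold Rf; infer_instance

theorem rf_mv (g : GV) {U : Ult (FD Pos)} {y s z n j x f : Nm (FD Pos)}
    (h : Rf (mk U y) (mk U s) (mk U z) (mk U n) (mk U j) (mk U x) (mk U f)) :
    Rf (mk (mv g U) (act g y)) (mk _ (act g s)) (mk _ (act g z)) (mk _ (act g n)) (mk _ (act g j))
      (mk _ (act g x)) (mk _ (act g f)) := by
  obtain ⟨u, a, ⟨b, c⟩, p, d, e, i⟩ := h
  obtain ⟨u, rfl⟩ := mk_surj u
  rw [e.uniq (isPair_kpair _ _)] at d i
  refine ⟨_, E_mv.2 a, ⟨app_iff.2 b, fun v k l => ?_⟩, _, E_mv.2 d, ?_, app_iff.2 i⟩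
  · obtain ⟨v, rfl⟩ := act_surj g v
    exact mk_mv.2 (c _ (E_mv.1 k) (app_iff.1 l))
  · rw [kpair_act (g := g) (fun _ => rfl) fun _ => rfl]
    exact isPair_kpair _ _

theorem so {y s z : Nm (FD Pos)} (hy : HS GV y) (hs : HS GV s) (hz : HS GV z) :
    ∃ K Φ, HS GV K ∧ HS GV Φ ∧ ∀ U : Ult (FD Pos),
    (∀ a, E U a (mk U K) → ∀ b, E U b (mk U K) → E U a b ∨ a = b ∨ E U b a) ∧
    ∀ f, L GV U f → ∀ n, E U n (mk U (setN natN univ)) →
      (∀ x, E U x (mk U y) → ∃ j, E U j (mk U (setN natN univ)) ∧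
        Rf (mk U y) (mk U s) (mk U z) n j x f) →
      ∀ x, E U x (mk U y) → ∃ α, E U α (mk U K) ∧ App (E U) (mk U Φ) α x ∧
        ∀ a, App (E U) (mk U Φ) α a → ∀ b, App (E U) (mk U Φ) α b →
          ∃ w, E U w (mk U y) ∧ Rl (mk U s) (mk U z) n a w ∧ Rl (mk U s) (mk U z) n b w := by
  obtain ⟨D, d, -, hD⟩ := supp_iff.1 ((hs_iff.1 hy).1.and ((hs_iff.1 hs).1.and (hs_iff.1 hz).1))
  let A : fixingSubgroup GV D × y.ι × FD Pos → Nm (FD Pos) := fun t => chk t.2
  let B : fixingSubgroup GV D × y.ι × FD Pos → Nm (FD Pos) := fun t => act t.1.1 (y.A t.2.1)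
  let Q : fixingSubgroup GV D × y.ι × FD Pos → Ult (FD Pos) → Prop :=
    fun t U => Iic (t.1.1 • t.2.2) ∈ U.U
  refine ⟨setN chk (univ : Set (y.ι × FD Pos)), fam (fun t => kpair (A t) (B t)) Q,
    (ck_set _ fun i _ => ⟨chk_hs i, fun g => chk_act g i⟩).1, hs_fam (supp_iff.2 ⟨D, d, subset_univ _,
      fun g a => fam_eqv ((Equiv.mulLeft ⟨g, (mem_fixingSubgroup_iff _).2 a⟩).prodCongr (Equiv.refl _))
        (fun t => kpair_act (chk_act g _) fun U => by rw [act_mul]; rfl) fun t U => by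
          show Iic ((g * t.1.1) • t.2.2) ∈ _ ↔ _
          rw [mul_smul, G_mv]⟩) fun t => hs_kpair (chk_hs _) (hs_act _ ((hs_iff.1 hy).2 _)),
    fun U => ⟨chk_tri U, fun f a n b c x e => ?_⟩⟩
  obtain ⟨f, rfl⟩ := mk_surj f
  obtain ⟨n, rfl⟩ := mk_surj n
  obtain ⟨x, rfl⟩ := mk_surj x
  revert b c e
  refine L_cases (fun f U hf a b => ?_) U a
  rw [a]
  refine setN_cases (fun n U _ b c e => ?_) U b
  rw [b] at c ⊢
  revert c
  refine mem_cases (fun i U o e c => ?_) U e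
  rw [e]
  refine by_dense (H := fun U => E U (mk U (y.A i)) (mk U y) ∧ ∀ x, E U x (mk U y) →
    ∃ j, E U j (mk U (setN natN univ)) ∧ Rf (mk U y) (mk U s) (mk U z) (mk U (natN n)) j x (mk U f))
    (R := fun U => ∃ α, E U α (mk U (setN chk (univ : Set (y.ι × FD Pos)))) ∧
      App (E U) (mk U (fam (fun t => kpair (A t) (B t)) Q)) α (mk U (y.A i)) ∧
      ∀ a, App (E U) (mk U (fam (fun t => kpair (A t) (B t)) Q)) α a →
        ∀ b, App (E U) (mk U (fam (fun t => kpair (A t) (B t)) Q)) α b → ∃ w, E U w (mk U y) ∧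
          Rl (mk U s) (mk U z) (mk U (natN n)) a w ∧ Rl (mk U s) (mk U z) (mk U (natN n)) b w)
    (fun p hp => ?_) U ⟨mem_intro y i U o, c⟩
  obtain ⟨F, f1, -, f2⟩ := supp_iff.1 (hs_iff.1 ((hs_iff.1 hy).2 i)).1
  obtain ⟨F', g1, -, g2⟩ := supp_iff.1 (hs_iff.1 hf).1
  obtain ⟨ρ, r1, r2⟩ := ex_mv d (g1.union p.fin) (f1.union p.fin)
  obtain ⟨r, r3, r4⟩ := ex_cp (s := p) (q := p) (ρ := ρ) fun t c => by
    by_cases i : t ∈ D
    exacts [Or.inl ⟨r1 t i, Subset.rfl⟩, Or.inr (not_not.1 fun j => r2 t (Or.inr c) i (Or.inr j))]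
  have k : Frc (ρ • p) fun U => ∀ x, E U x (mk U y) → ∃ j, E U j (mk U (setN natN univ)) ∧
      Rf (mk U y) (mk U s) (mk U z) (mk U (natN n)) j x (mk U (act ρ f)) :=
    frc_mv fun V hV x a => by
      obtain ⟨x, rfl⟩ := act_surj ρ x
      rw [← (hD ρ r1).1, E_mv] at a
      obtain ⟨j, b, c⟩ := (hp V hV).2 _ a
      obtain ⟨j, rfl⟩ := mk_surj j
      have := rf_mv ρ c
      rw [(hD ρ r1).1, (hD ρ r1).2.1, (hD ρ r1).2.2, nat_act] at this
      refine ⟨_, ?_, this⟩
      rw [← (ck_set (Γ := GV) (f := natN) univ fun n _ => ck_nat n).2 ρ]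
      exact E_mv.2 b
  obtain ⟨j, hj⟩ := frc_ex (p := r) fun V hV => k.mono r4 V hV _ (hp.mono r3 V hV).1
  obtain ⟨q, q1, m, q2⟩ := fam_elim (A := fun n : (univ : Set ℕ) => natN n) (Q := fun _ _ => True)
    (hj.imp fun _ e => e.1)
  have l := fun π σ a b => key (R := fun U x f => Rf (mk U y) (mk U s) (mk U z) (mk U (natN n))
    (mk U (natN m)) x f) (q := q) (π := π) (σ := σ) d f1 (g1.image (ρ • ·)) (u := act ρ f)
    (fun g a V b => by
      have := rf_mv g b
      rwa [(hD g a).1, (hD g a).2.1, (hD g a).2.2, nat_act, nat_act] at this) f2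
    (fun g a V => by
      rw [act_mul]
      exact Iu.eq g2 (fun t b => by rw [mul_smul, a _ ⟨t, b, rfl⟩]) V)
    (by
      rintro _ a ⟨t, b, rfl⟩
      by_cases c : t ∈ D
      · show ρ • t ∈ D
        rwa [r1 t c]
      · exact absurd (Or.inl a) (r2 t (Or.inl b) c))
    (fun V hV => by have := (hj.mono q1 V hV).2; rwa [(q2 V hV).2] at this) a b
  refine ⟨q, q1.trans r3, fun V hV => ⟨_, setN_intro chk (mem_univ (i, q)) V, ⟨_, fam_intro
    (A := fun t => kpair (A t) (B t)) (Q := Q) (1, i, q) (by simpa [Q] using hV), ?_⟩, fun a b u c => ?_⟩⟩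
  · have := isPair_kpair (U := V) (A (1, i, q)) (act (1 : GV) (y.A i))
    rwa [show mk V (act (1 : GV) (y.A i)) = mk V (y.A i) by rw [act_one]] at this
  · refine rcasQ (A := A) (B := B) (Q := Q) (S := fun U α a => α = mk U (chk (i, q)) → ∀ β b,
      App (E U) (mk U (fam (fun t => kpair (A t) (B t)) Q)) β b → β = mk U (chk (i, q)) →
      ∃ w, E U w (mk U y) ∧ Rl (mk U s) (mk U z) (mk U (natN n)) a w ∧
        Rl (mk U s) (mk U z) (mk U (natN n)) b w) (fun t W a b β v c => rcasQ (A := A) (B := B) (Q := Q)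
        (S := fun U β b => Q t U → β = mk U (chk (i, q)) → ∃ w, E U w (mk U y) ∧
          Rl (mk U s) (mk U z) (mk U (natN n)) (mk U (B t)) w ∧
          Rl (mk U s) (mk U z) (mk U (natN n)) b w) (fun t' W c d e => ?_) W β v c a) V _ _ b rfl _ _ c rfl
    obtain ⟨π, t⟩ := t
    obtain ⟨σ, t'⟩ := t'
    obtain rfl : t = (i, q) := chk_inj b
    obtain rfl : t' = (i, q) := chk_inj e
    obtain ⟨w, ⟨u, a1, a2, a3⟩, v, b1, b2, b3⟩ := l π.1 σ.1 ((mem_fixingSubgroup_iff _).1 π.2)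
      ((mem_fixingSubgroup_iff _).1 σ.2) W ⟨d, c⟩
    exact ⟨u, a1, a3, a2.2 v b1 b2.1 ▸ b3⟩

end

abbrev PV := FD fun n s => ∃ l, cyl n l = s

instance : Nonempty PV := ⟨⟨fun _ => univ, fun _ => ⟨[], cyl_nil _⟩, by simp⟩⟩

def gv (j : ℕ × K) (a : Set (ℕ → TT)) : Set PV := {p | p.f j ⊆ a}

instance (j : ℕ × K) (a : Set (ℕ → TT)) : C fun U : Ult PV => gv j a ∈ U.U :=
  ⟨cl_set fun _ _ h h' => (h j).trans h'⟩

open Classical in
noncomputable def res (F : Set (ℕ × K)) (p : PV) : PV :=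
  ⟨fun t => if t ∈ F then p.f t else univ, fun t => by
    split_ifs
    exacts [p.pos t, ⟨[], cyl_nil _⟩], p.fin.subset fun t a b => by simp [b] at a⟩

theorem restr {F : Set (ℕ × K)} (f : F.Finite) {Q : Ult PV → Prop} [C Q]
    (h : ∀ g, Fi F g → ∀ U, Q U → Q (mv g U)) {p : PV} (a : Frc p Q) : Frc (res F p) Q :=
  cl.dense fun s b => by
    obtain ⟨ρ, r1, r2⟩ := ex_mv f p.fin s.fin
    obtain ⟨r, r3, r4⟩ := ex_cp (s := s) (q := p) (ρ := ρ) fun t c => by
      by_cases i : t ∈ F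
      · exact Or.inl ⟨r1 t i, (b t).trans (if_pos i).subset⟩
      · exact Or.inr (not_not.1 (r2 t c i))
    exact ⟨r, r3, (frc_mv fun V hV => h ρ r1 V (a V hV)).mono r4⟩

noncomputable def eV (n : ℕ) : Nm PV := fam (fun t : VV n × ℕ => kpair (chk (⟨n, t.1⟩ : TT)) (natN t.2))
  fun t U => gv (n, none, 0) {x | x t.2 = ⟨n, t.1⟩} ∈ U.U

theorem ck_chk {J : Type} (t : J) : Ck GV (chk t : Nm PV) := ⟨chk_hs t, fun g => chk_act g t⟩

theorem eV_hs (n : ℕ) : HS GV (eV n) :=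
  hs_fam (supp_iff.2 ⟨{(n, none, 0)}, finite_singleton _, subset_univ _, fun g a =>
    fam_act (fun _ => (ck_pair (ck_chk _) (ck_nat _)).2 g) fun t U => by
      rw [mem_mv]
      refine iff_of_eq (congrArg (· ∈ U.U) (Set.ext fun p => ?_))
      show (g • p).f _ ⊆ _ ↔ _
      have := sm_f g p (n, none, 0)
      rw [a _ rfl] at this
      rw [this]
      rfl⟩) fun _ => (ck_pair (ck_chk _) (ck_nat _)).1

noncomputable def cV (n : ℕ) : Nm PV := setN chk {t : TT | t.1 = n}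

theorem eV_tot (n : ℕ) : ∀ (U : Ult PV) x, E U x (mk U (cV n)) →
    ∃ m, E U m (mk U (setN natN univ)) ∧ App (E U) (mk U (eV n)) x m := by
  refine cas ?_
  rintro ⟨k, v⟩ (rfl : k = n)
  refine cl.all fun p => ?_
  classical
  obtain ⟨l, hl⟩ := p.pos (k, none, 0)
  refine ⟨⟨Function.update p.f (k, none, 0) (cyl k (l ++ [v])), fun t => ?_, (p.fin.insert (k, none, 0)).subset
    fun k a => ?_⟩, fun t => ?_, fun V hV => ⟨_, setN_intro natN (mem_univ l.length) V, _,
      fam_intro (A := fun t : VV k × ℕ => kpair (chk (⟨k, t.1⟩ : TT)) (natN t.2)) (v, l.length)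
        (mem_of_superset hV fun q a => (a _).trans ?_), isPair_kpair _ _⟩⟩
  · rcases eq_or_ne t (k, none, 0) with rfl | a
    · exact ⟨l ++ [v], by simp⟩
    · simpa [a] using p.pos t
  · by_contra b
    rw [mem_insert_iff, not_or] at b
    simp_all
  · rcases eq_or_ne t (k, none, 0) with rfl | a
    · rw [← hl]
      simp only [Function.update_self]
      exact fun x b m w c => b m w (by
        rwa [List.getElem?_append_left (List.getElem?_eq_some_iff.1 c).1])
    · simp [a]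
  · simp only [Function.update_self]
    exact fun x b => b _ v (by simp)

theorem eV_inj (n : ℕ) : ∀ (U : Ult PV) x m, App (E U) (mk U (eV n)) x m → ∀ y k,
    App (E U) (mk U (eV n)) y k → m = k → x = y :=
  rcasQ fun s U a y k b => rcasQ (S := fun U y k => gv (n, none, 0) {x | x s.2 = ⟨n, s.1⟩} ∈ U.U →
    mk U (natN s.2) = k → mk U (chk (⟨n, s.1⟩ : TT)) = y) (fun t U c d e => by
      obtain ⟨p, f, g⟩ := Filter.nonempty_of_mem (inter_mem c d)
      obtain ⟨l, hl⟩ := p.pos (n, none, 0)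
      have : (fun m => (l[m]?).elim (Classical.arbitrary TT) fun v => ⟨n, v⟩) ∈ p.f (n, none, 0) :=
        hl ▸ fun m v i => by simp [i]
      rw [((g this).symm.trans (natN_inj e ▸ f this) : (⟨n, s.1⟩ : TT) = ⟨n, t.1⟩)]) U y k b a

theorem unc {y : Nm PV} (hy : HS GV y) : ∀ U : Ult PV, ¬ ((∀ x, E U x (mk U (setN chk (univ : Set TT))) →
    ∃ m, E U m (mk U (setN natN univ)) ∧ App (E U) (mk U y) x m) ∧
    ∀ x, E U x (mk U (setN chk (univ : Set TT))) → ∀ z, E U z (mk U (setN chk (univ : Set TT))) →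
      ∀ m, E U m (mk U (setN natN univ)) → App (E U) (mk U y) x m → App (E U) (mk U y) z m → x = z) := by
  refine cl.by_contra fun p hp => ?_
  replace hp := hp.imp fun _ => not_not.1
  obtain ⟨F, f, -, iy⟩ := supp_iff.1 (hs_iff.1 hy).1
  obtain ⟨N, hN⟩ := (f.image Prod.fst).bddAbove
  have : ∀ v : VV (N + 1), ∃ (q : PV) (m : ℕ), q ≤ p ∧
      Frc q fun U => App (E U) (mk U y) (mk U (chk (⟨_, v⟩ : TT))) (mk U (natN m)) := fun v => by
    obtain ⟨n, hn⟩ := frc_ex (hp.imp fun U e => e.1 _ (setN_intro chk (mem_univ (⟨_, v⟩ : TT)) U))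
    obtain ⟨q, q1, m, q2⟩ := fam_elim (A := fun n : (univ : Set ℕ) => natN n)
      (Q := fun _ _ => True) (hn.imp fun _ e => e.1)
    exact ⟨q, m, q1, fun U hU => by have := (hn.mono q1 U hU).2; rwa [(q2 U hU).2] at this⟩
  choose q m q1 q2 using this
  choose l hl using fun v t => (q v).pos t
  haveI := f.fintype
  have c := mk_le_of_injective (f := fun v => ((fun t : F => (⟨⟨t.1.1, Nat.lt_succ_of_le
    (hN ⟨_, t.2, rfl⟩)⟩, l v t⟩ : Σ k : Fin (N + 1), List (VV k))), m v)) fun v w e => by_contra fun d => by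
      obtain ⟨e1, e2⟩ := Prod.ext_iff.1 e
      have e3 : res F (q v) = res F (q w) := FD.ext' (funext fun t => by
        simp only [res]
        split_ifs with a
        · rw [← hl, ← hl, show l v t = l w t from eq_of_heq (Sigma.ext_iff.1 (congrFun e1 ⟨t, a⟩)).2]
        · rfl)
      obtain ⟨V, hV⟩ := ex_ult (res F (q v))
      have k := fun v => restr f (fun g a U e => (inv_app (iy g a) (ck_chk _) (ck_nat _)).2 e) (q2 v)
      refine (restr f (Q := fun U => ¬ (App (E U) (mk U y) (mk U (chk (⟨_, v⟩ : TT))) (mk U (natN (m v))) ∧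
        App (E U) (mk U y) (mk U (chk (⟨_, w⟩ : TT))) (mk U (natN (m v))))) (fun g a U e => by
          rwa [inv_app (iy g a) (ck_chk _) (ck_nat _), inv_app (iy g a) (ck_chk _) (ck_nat _)])
        ((hp.mono (q1 v)).imp fun U e i => d (eq_of_heq (Sigma.ext_iff.1 (chk_inj (e.2 _
          (setN_intro _ (mem_univ _) U) _ (setN_intro _ (mem_univ _) U) _ (setN_intro _ (mem_univ _) U)
          i.1 i.2))).2))) V hV ⟨k v V hV, (show m w = m v from e2.symm) ▸ k w V (e3 ▸ hV)⟩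
  have a : ℵ₀ ≤ ℵ_ N := aleph0_le_aleph _
  have b : #(Σ k : Fin (N + 1), List (VV k)) ≤ ℵ_ N := by
    rw [mk_sigma]
    refine (Cardinal.sum_le_sum _ (fun _ => ℵ_ N) fun k => ?_).trans ?_
    · rw [mk_list_eq_max_mk_aleph0, mk_VV]
      exact max_le (aleph_le_aleph.2 (by exact_mod_cast Nat.le_of_lt_succ k.2)) a
    · rw [sum_const']
      exact (mul_le_max_of_aleph0_le_right a).trans (max_le ((lt_aleph0_of_finite _).le.trans a) le_rfl)
  rw [mk_VV, mk_prod, lift_id, lift_id, ← power_def, mk_nat] at c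
  refine (c.trans ((mul_le_mul' ((power_le_power_right b).trans (Cardinal.pow_le a
    (lt_aleph0_of_finite _))) a).trans (mul_eq_self a).le)).not_gt (aleph_lt_aleph.2 ?_)
  exact_mod_cast N.lt_succ_self

noncomputable def vb : (ℕ ⊕ ℕ) ⊕ Option Bool → Nm PV := Sum.elim (Sum.elim cV eV) fun o =>
  o.elim (setN chk (univ : Set TT)) fun b =>
    cond b (setN cV univ) (setN (fun n => kpair (cV n) (natN n)) univ)

theorem cV_ck (n : ℕ) : Ck GV (cV n) := ck_set _ fun _ _ => ck_chk _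

theorem vb_hs : ∀ b, HS GV (vb b) := by
  rintro ((n | n) | _ | _ | _)
  exacts [(cV_ck n).1, eV_hs n, (ck_set (f := chk) _ fun _ _ => ck_chk _).1,
    (ck_set (f := fun n => kpair (cV n) (natN n)) _ fun n _ => ck_pair (cV_ck n) (ck_nat n)).1,
    (ck_set (f := cV) _ fun n _ => cV_ck n).1]

theorem vm_of (G : GM GV (bs vb))
    (hG : ∀ φ v, Bspt.Sat G.R φ v ↔ SL GV G.U φ fun i => G.j (v i)) : VM G.R := by
  have jL : ∀ a, L GV G.U (G.j a) := fun a => (G.nm a).elim fun y k => k.2 ▸ L_hs k.1 _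
  have jW : G.j (G.c (inl (inr none))) = mk G.U (setN natN univ) := G.jc _
  have jc : ∀ n, G.j (G.c (inr (inl (inl n)))) = mk G.U (cV n) := fun _ => G.jc _
  have jT : G.j (G.c (inr (inr none))) = mk G.U (setN chk (univ : Set TT)) := G.jc _
  have hA : ∀ X, G.R X (G.c (inr (inr (some true)))) ↔ ∃ n, X = G.c (inr (inl (inl n))) := fun X =>
    (G.set (f := cV) (s := univ) rfl).trans (exists_congr fun n => by
      rw [G.inj, jc, and_iff_right (mem_univ _)])
  have tot : ∀ X e, (∀ x, E G.U x (G.j X) → ∃ m, E G.U m (mk G.U (setN natN univ)) ∧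
      App (E G.U) (G.j e) x m) → ∀ x, G.R x X → ∃ m, Bspt.IsNat G.R m ∧ Bspt.App G.R e x m :=
    fun X e a => by
      have := (G.abs (.all 0 (.ex 3 (.app 3 1 0))) (Bspt.cons X (Bspt.cons e
        fun _ => G.c (inl (inr none))))).2 (by simpa only [S1, cs, Bspt.cons, jW])
      simpa only [S0, Bspt.cons, G.w, ← G.num.2] using this
  refine ⟨fun X s Z => ?_, G.c (inr (inr (some true))), G.c (inr (inr none)),
    fun z => ⟨fun a => ?_, fun ⟨X, a, b⟩ => ?_⟩, ?_, fun e a => ?_⟩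
  · obtain ⟨y, hy, e⟩ := G.nm X
    obtain ⟨s', hs, e1⟩ := G.nm s
    obtain ⟨z, hz, e2⟩ := G.nm Z
    obtain ⟨K, Φ, a, b, d⟩ := so hy hs hz
    obtain ⟨K', Φ', f, g⟩ := (hG (.ex (.ex (.and (tr (.all 1 (.all 2 (.or (.mem 1 0)
      (.or (.eq 1 0) (.mem 0 1)))))) (allF (tr (.all 6 (.imp (.all 4 (.ex 8 (.ex 6 (.and
        (.and (.app 4 1 0) (.all 7 (.imp (.app 5 2 0) (.eq 0 1)))) (.ex 9 (.and (.pr 0 3 1)
          (.app 9 0 4))))))) (.all 4 (.ex 4 (.and (.app 4 0 1) (.all 6 (.imp (.app 5 1 0)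
            (.all 7 (.imp (.app 6 2 0) (.ex 8 (.and (.ex 11 (.and (.pr 0 3 1) (.app 11 0 6)))
              (.ex 11 (.and (.pr 0 2 1) (.app 11 0 6)))))))))))))))))))
      (Bspt.cons X (Bspt.cons s (Bspt.cons Z fun _ => G.c (inl (inr none)))))).2
      ⟨_, L_hs a _, _, L_hs b _, (s1_iff _ _ (by
        rintro (_ | _ | i)
        exacts [L_hs b _, L_hs a _, jL _])).2 (d _).1, sl_all.2 fun f c => (s1_iff _ _ (by
        rintro (_ | _ | _ | i)
        exacts [c, L_hs b _, L_hs a _, jL _])).2 (by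
          simp only [S1, cs, Bspt.cons, e, e1, e2, jW]
          exact fun n k l x m => ((d _).2 f c n k l x m).imp fun α o =>
            ⟨o.1, o.2.1, fun a _ p b _ => o.2.2 a p b⟩)⟩
    rw [s0_iff] at f
    simp only [sat_all, s0_iff, S0, Bspt.cons, G.w, ← G.num.2] at f g
    exact ⟨K', Φ', f, g⟩
  · obtain ⟨t, -, b⟩ := (G.set (f := chk) (s := univ) rfl).1 a
    exact ⟨_, (hA _).2 ⟨t.1, rfl⟩, (G.set (f := chk) (s := {s : TT | s.1 = t.1}) rfl).2 ⟨t, rfl, b⟩⟩
  · obtain ⟨n, rfl⟩ := (hA X).1 a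
    obtain ⟨t, -, b⟩ := (G.set (f := chk) (s := {s : TT | s.1 = n}) rfl).1 b
    exact (G.set (f := chk) (s := univ) rfl).2 ⟨t, trivial, b⟩
  · rintro X (rfl | a)
    · refine ⟨G.c (inr (inr (some false))), tot _ _ ?_, fun x y m => ?_⟩
      · rw [G.jc, G.jc]
        exact cas (f := cV) (s := univ) (S := fun U x => ∃ m, E U m (mk U (setN natN univ)) ∧
          App (E U) (mk U (setN (fun n => kpair (cV n) (natN n)) univ)) x m) (fun n _ U =>
            ⟨_, setN_intro _ (mem_univ n) U, _, setN_intro _ (mem_univ n) U, isPair_kpair _ _⟩) _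
      · rw [G.app, G.app, G.inj, G.jc]
        exact fun a b => rcasQ (A := fun n : (univ : Set ℕ) => cV n) (B := fun n => natN n)
          (Q := fun _ _ => True) (S := fun U x m => ∀ y k, App (E U) (mk U (setN (fun n =>
            kpair (cV n) (natN n)) univ)) y k → m = k → x = y) (fun n U _ => rcasQ
              (A := fun n : (univ : Set ℕ) => cV n) (B := fun n => natN n) (Q := fun _ _ => True)
              (S := fun U y k => mk U (natN n) = k → mk U (cV n) = y)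
              (fun k V _ e => by rw [natN_inj e]) U) _ _ _ a _ _ b rfl
    · obtain ⟨n, rfl⟩ := (hA X).1 a
      refine ⟨G.c (inr (inl (inr n))), tot _ _ ?_, fun x y m => ?_⟩
      · rw [G.jc, G.jc]
        exact eV_tot n _
      · rw [G.app, G.app, G.inj, G.jc]
        exact fun a b => eV_inj n _ _ _ a _ _ b rfl
  · obtain ⟨y, hy, k⟩ := G.nm e
    have := (G.abs (.and (.all 0 (.ex 3 (.app 3 1 0))) (.all 0 (.all 1 (.all 4 (.imp (.app 4 2 0)
      (.imp (.app 4 1 0) (.eq 2 1))))))) (Bspt.cons (G.c (inr (inr none))) (Bspt.cons e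
        fun _ => G.c (inl (inr none))))).1 (by simpa only [S0, Bspt.cons, G.w, ← G.num.2])
    simp only [S1, cs, Bspt.cons, jW, jT, k] at this
    exact unc hy _ this

end Pool.Agent.H40.Gn.Bk
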