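import Pool.Agent.H40.G13

set_option autoImplicit false

/-! The prime ideal theorem in the generalised Cohen collapse model. -/

namespace Pool.Agent.H40.Gn.Bk

open Pool.Agent.H42.ZF Pool.Agent.H40.Js Set Filter Sum Function
open Pool.Agent.H40.Bspt (Fm IsZF)

section
variable {P Γ : Type} [Preorder P] [Group Γ] [MulAction Γ P] [Mo Γ P] {U : Ult P} (g : Γ)

noncomputable def iso (a : M U) : M (mv g U) := mk _ (act g (mk_surj a).choose)

theorem iso_mk (x : Nm P) : iso g (mk U x) = mk _ (act g x) := mk_mv.2 (mk_surj _).choose_spec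

theorem iso_surj : Surjective (iso g (U := U)) := fun a =>
  (act_surj g a).elim fun x e => ⟨mk U x, (iso_mk g x).trans e⟩

theorem iso_E {a b : M U} : E _ (iso g a) (iso g b) ↔ E U a b := by
  obtain ⟨a, rfl⟩ := mk_surj a
  obtain ⟨b, rfl⟩ := mk_surj b
  rw [iso_mk, iso_mk, E_mv]

theorem iso_app {f a b : M U} : App (E _) (iso g f) (iso g a) (iso g b) ↔ App (E U) f a b := by
  obtain ⟨f, rfl⟩ := mk_surj f
  obtain ⟨a, rfl⟩ := mk_surj a
  obtain ⟨b, rfl⟩ := mk_surj b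
  rw [iso_mk, iso_mk, iso_mk, app_iff]

def Hy (y o l c : M U) : Prop := (∃ z, E U z o) ∧ ∀ z, E U z o → ∀ a, E U a y → ∀ b, E U b y →
  App (E U) c a b → ∃ w, E U w o ∧ (∀ d, E U d y → App (E U) l z d → App (E U) l w d) ∧
    (App (E U) l w a ∨ App (E U) l w b)

def LB {μ : Type} (y o l : M U) (a : μ → M U) : Prop :=
  ∃ z, E U z o ∧ ∀ m, E U (a m) y → App (E U) l z (a m)

instance (priority := low) {μ : Type} [Finite μ] {Q : μ → Ult P → Prop} [∀ m, C (Q m)] :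
    C fun U => ∀ m, Q m U := ⟨cl_fin fun _ => cl⟩

instance (y o l c : Nm P) : C fun U => Hy (mk U y) (mk U o) (mk U l) (mk U c) := by
  unfold Hy; infer_instance

instance {μ : Type} [Finite μ] (y o l : Nm P) (a : μ → Nm P) :
    C fun U => LB (mk U y) (mk U o) (mk U l) fun m => mk U (a m) := by
  unfold LB; infer_instance

theorem hy_iso {y o l c : M U} : Hy (iso g y) (iso g o) (iso g l) (iso g c) ↔ Hy y o l c := by
  simp only [Hy, (iso_surj g).forall, (iso_surj g).exists, iso_E, iso_app]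

theorem lb_iso {μ : Type} {y o l : M U} {a : μ → M U} :
    LB (iso g y) (iso g o) (iso g l) (fun m => iso g (a m)) ↔ LB y o l a := by
  simp only [LB, (iso_surj g).exists, iso_E, iso_app]

end

theorem ex_ext2 {β : Type} [Finite β] {D : Set (ℕ × K)} (d : D.Finite) {f g : β → ℕ × K}
    (a : Injective f) (b : Injective g) (c : ∀ x, (f x).1 = (g x).1) (e : ∀ x, f x ∉ D)
    (i : ∀ x, g x ∉ D) : ∃ π : GV, Fi D π ∧ ∀ x, π • f x = g x := by
  haveI := d.to_subtype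
  obtain ⟨π, h⟩ := ex_ext (f := Sum.elim (fun t : D => t.1) f) (g := Sum.elim (fun t : D => t.1) g)
    (Subtype.val_injective.sumElim a fun t x k => e x (k ▸ t.2))
    (Subtype.val_injective.sumElim b fun t x k => i x (k ▸ t.2)) (by rintro (t | x); exacts [rfl, c x])
  exact ⟨π, fun t k => h (inl ⟨t, k⟩), fun x => h (inr x)⟩

theorem PV_ne (p : PV) (j : ℕ × K) : (p.f j).Nonempty := by
  obtain ⟨l, hl⟩ := p.pos j
  exact ⟨fun m => (l[m]?).elim (Classical.arbitrary TT) fun v => ⟨_, v⟩, hl ▸ fun m v i => by simp [i]⟩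

theorem sepP {F : Set (ℕ × K)} (f : F.Finite) (p : PV) :
    ∃ q ≤ p, ∀ j ∈ F, ∀ k ∈ F, (q.f j ∩ q.f k).Nonempty → j = k := by
  classical
  choose l hl using p.pos
  obtain ⟨N, hN⟩ := (f.image fun j => (l j).length).bddAbove
  haveI := f.to_subtype
  obtain ⟨ι, hι⟩ := exists_injective_nat F
  haveI : ∀ n, Infinite (VV n) := fun n => Cardinal.infinite_iff.2 (mk_VV n ▸ Cardinal.aleph0_le_aleph _)
  let v : ∀ j : F, VV j.1.1 := fun j => Infinite.natEmbedding _ (ι j)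
  refine ⟨⟨fun j => if h : j ∈ F then cyl _ (l j ++ List.replicate (N + 1) (v ⟨j, h⟩)) else p.f j,
    fun j => ?_, (p.fin.union f).subset fun j a => ?_⟩, fun j => ?_, fun j a k b u => ?_⟩
  · split_ifs
    exacts [⟨_, rfl⟩, p.pos j]
  · by_contra b
    simp_all
  · dsimp only
    split_ifs
    · rw [← hl]
      exact fun x b m w c => b m w (by
        rwa [List.getElem?_append_left (List.getElem?_eq_some_iff.1 c).1])
    · exact Subset.rfl
  · obtain ⟨x, c, d⟩ := u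
    have e : ∀ j (a : j ∈ F), x ∈ cyl _ (l j ++ List.replicate (N + 1) (v ⟨j, a⟩)) →
        x N = ⟨j.1, v ⟨j, a⟩⟩ := fun j a b => b N _ (by
      have : (l j).length ≤ N := hN ⟨j, a, rfl⟩
      rw [List.getElem?_append_right this, List.getElem?_replicate, if_pos (by omega)])
    simp only [dif_pos a, dif_pos b] at c d
    have := (e j a c).symm.trans (e k b d)
    obtain ⟨n, j⟩ := j
    obtain ⟨m, k⟩ := k
    obtain ⟨rfl, h⟩ := Sigma.ext_iff.1 this
    exact congrArg Subtype.val (hι ((Infinite.natEmbedding _).injective (eq_of_heq h)))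

section
variable (y o l c : Nm PV)

def nm (s : PV × GV × y.ι) : Nm PV := act s.2.1 (y.A s.2.2)

def ac (g : GV) (s : PV × GV × y.ι) : PV × GV × y.ι := (g • s.1, g * s.2.1, s.2.2)

def Cons (X : Set (PV × GV × y.ι)) : Prop := ∀ (μ : Type) [Finite μ] (s : μ → PV × GV × y.ι),
  (∀ m, s m ∈ X) → ∀ U : Ult PV, Hy (mk U y) (mk U o) (mk U l) (mk U c) → (∀ m, Iic (s m).1 ∈ U.U) →
    LB (mk U y) (mk U o) (mk U l) fun m => mk U (nm y (s m))

variable {y o l c}

theorem zorn (G : Set GV) {X : Set (PV × GV × y.ι)} (a : Cons y o l c X)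
    (b : ∀ g ∈ G, ∀ s ∈ X, ac y g s ∈ X) : ∃ Z, X ⊆ Z ∧
      Maximal (fun X => Cons y o l c X ∧ ∀ g ∈ G, ∀ s ∈ X, ac y g s ∈ X) Z :=
  zorn_subset_nonempty {X | Cons y o l c X ∧ ∀ g ∈ G, ∀ s ∈ X, ac y g s ∈ X} (fun S d e f =>
    ⟨⋃₀ S, ⟨fun μ _ s h => by
      choose Z z1 z2 using h
      haveI := f.to_subtype
      obtain ⟨W, k⟩ := (directedOn_iff_directed.1 e.directedOn).finite_le fun m => ⟨Z m, z1 m⟩
      exact (d W.2).1 μ s fun m => k m (z2 m), fun g h s ⟨Z, i, j⟩ => ⟨Z, i, (d i).2 g h s j⟩⟩,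
      fun _ => subset_sUnion_of_mem⟩) X ⟨a, b⟩

theorem dec {X : Set (PV × GV × y.ι)}
    (h : Maximal (fun X => Cons y o l c X ∧ ∀ g ∈ (∅ : Set GV), ∀ s ∈ X, ac y g s ∈ X) X) {p : PV}
    {a b : GV × y.ι} (hp : Frc p fun U => E U (mk U (nm y (p, a))) (mk U y) ∧
      E U (mk U (nm y (p, b))) (mk U y) ∧ App (E U) (mk U c) (mk U (nm y (p, a))) (mk U (nm y (p, b)))) :
    ∃ q ≤ p, (q, a) ∈ X ∨ (q, b) ∈ X := by
  have k : ∀ s, Cons y o l c (insert s X) → s ∈ X := fun s d =>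
    h.2 ⟨d, by simp⟩ (subset_insert _ _) (mem_insert _ _)
  by_cases d : Cons y o l c (insert (p, a) X)
  · exact ⟨p, le_rfl, Or.inl (k _ d)⟩
  simp only [Cons, not_forall] at d
  obtain ⟨μ, _, s, s1, U, u1, u2, u3⟩ := d
  obtain ⟨m, e⟩ : ∃ m, s m = (p, a) := by_contra fun e =>
    u3 (h.1.1 μ s (fun m => (s1 m).resolve_left fun f => e ⟨m, f⟩) U u1 u2)
  obtain ⟨q, q1, q2⟩ := (cl (Q := fun U => (∀ m, Iic (s m).1 ∈ U.U) ∧
    ¬ LB (mk U y) (mk U o) (mk U l) fun m => mk U (nm y (s m)))).ex (p := p) (e ▸ u2 m :) ⟨u2, u3⟩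
  refine ⟨q, q1, Or.inr (k _ fun ν _ t t1 V v1 v2 => ?_)⟩
  by_cases f : ∀ n, t n ∈ X
  · exact h.1.1 ν t f V v1 v2
  obtain ⟨n, f⟩ := not_forall.1 f
  have g : Iic q ∈ V.U := ((t1 n).resolve_right f ▸ v2 n :)
  obtain ⟨z, z1, z2⟩ := h.1.1 _ (Sum.elim (fun m : {m // s m ∈ X} => s m)
    fun n : {n // t n ∈ X} => t n) (by rintro (m | m); exacts [m.2, m.2]) V v1 (by
      rintro (m | m); exacts [(q2 V g).1 m, v2 m])
  obtain ⟨i, j, r⟩ := hp.mono q1 V g
  obtain ⟨w, w1, w2, w3⟩ := v1.2 z z1 _ i _ j r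
  refine ⟨w, w1, fun n u => (t1 n).elim (fun x => ?_) fun x => w2 _ u (z2 (inr ⟨n, x⟩) u)⟩
  simp only [x]
  exact w3.resolve_left fun x => (q2 V g).2 ⟨w, w1, fun m u => (s1 m).elim
    (fun v => by simp only [v]; exact x) fun v => w2 _ u (z2 (inl ⟨m, v⟩) u)⟩

variable {D : Set (ℕ × K)} (d : D.Finite) (iy : Iu D y) (io : Iu D o) (il : Iu D l) (ic : Iu D c)
include d iy io il ic

theorem ram (hy : HS GV y) {X : Set (PV × GV × y.ι)}
    (h : Maximal (fun X => Cons y o l c X ∧ ∀ g ∈ {g | Fi D g}, ∀ s ∈ X, ac y g s ∈ X) X) {p : PV}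
    (i : Bool → y.ι) (hp : Frc p fun U => E U (mk U (y.A (i true))) (mk U y) ∧
      E U (mk U (y.A (i false))) (mk U y) ∧ App (E U) (mk U c) (mk U (y.A (i true))) (mk U (y.A (i false)))) :
    ∃ q ≤ p, ∃ b, (q, 1, i b) ∈ X := by
  classical
  obtain ⟨Z, z1, z2⟩ := zorn ∅ h.1.1 (by simp)
  obtain ⟨F, f1, -, f2⟩ := supp_iff.1 ((hs_iff.1 ((hs_iff.1 hy).2 (i true))).1.and
    (hs_iff.1 ((hs_iff.1 hy).2 (i false))).1)
  have f : (D ∪ F ∪ {j | p.f j ≠ univ}).Finite := (d.union f1).union p.fin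
  have f3 : ∀ b, Iu (D ∪ F ∪ {j | p.f j ≠ univ}) (y.A (i b)) := fun b g a => by
    have := f2 g fun t e => a t (Or.inl (Or.inr e))
    cases b
    exacts [this.2, this.1]
  have f4 : D ⊆ D ∪ F ∪ {j | p.f j ≠ univ} := fun _ a => Or.inl (Or.inl a)
  have f5 : ∀ j ∉ D ∪ F ∪ {j | p.f j ≠ univ}, p.f j = univ := fun j a => not_not.1 fun b => a (Or.inr b)
  generalize D ∪ F ∪ {j | p.f j ≠ univ} = F at f f3 f4 f5
  obtain ⟨p', p1, p2⟩ := sepP f p
  haveI := (f.subset (sdiff_subset (t := D))).to_subtype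
  obtain ⟨k, ⟨e⟩⟩ := Finite.exists_equiv_fin (F \ D : Set (ℕ × K))
  obtain ⟨N, hN⟩ := (d.image fun t => t.2.2).bddAbove
  let ro : Fin k → ℕ × K := fun a => (e.symm a).1
  have r1 : Injective ro := Subtype.val_injective.comp e.symm.injective
  let co : ℕ → Fin k → KK k → ℕ × K := fun n a x => (n, some ⟨k, a, x⟩, N + 1)
  have c1 : ∀ n a x, co n a x ∉ D := fun n a x b => by simpa [co] using hN ⟨_, b, rfl⟩
  have c2 : ∀ n a x m b z, co n a x = co m b z → a = b ∧ x = z := fun n a x m b z u => by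
    simpa [co] using congrArg (·.2.1) u
  choose π π1 π2 using fun t : Fin k → KK k => ex_ext2 d (g := fun a => co (ro a).1 a (t a)) r1
    (fun a b u => (c2 _ _ _ _ _ _ u).1) (fun _ => rfl) (fun a => (e.symm a).2.2) fun _ => c1 _ _ _
  have : ∀ t, ∃ (q : PV) (b : Bool), q ≤ π t • p' ∧ (q, π t, i b) ∈ Z := fun t => by
    obtain ⟨q, a, b⟩ := dec z2 (p := π t • p') (a := (π t, i true)) (b := (π t, i false))
      (frc_mv fun V hV => by
        obtain ⟨a, b, u⟩ := hp.mono p1 V hV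
        simp only [nm]
        rw [← iy _ (π1 t), ← ic _ (π1 t), E_mv, E_mv, app_iff]
        exact ⟨a, b, u⟩)
    exact b.elim (⟨q, _, a, ·⟩) (⟨q, _, a, ·⟩)
  choose pt col t1 t2 using this
  have : ∀ t, ∃ S : ℕ → (ℕ × K) ⊕ Option (Fin k), inl '' ({j | (pt t).f j ≠ univ} ∪ D ∪
      range fun a => π t • ro a) ∪ range inr = range S := fun t => (((((pt t).fin.union d).union
        (finite_range _)).image _).union (finite_range _)).countable.exists_eq_range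
          ⟨inr none, Or.inr ⟨_, rfl⟩⟩
  choose S hS using this
  let val : (Fin k → KK k) → (ℕ × K) ⊕ Option (Fin k) → Bool × Set (ℕ → TT) := fun t =>
    Sum.elim (fun j => (false, (pt t).f j)) fun o => o.elim (col t, univ)
      fun a => (false, (pt t).f (π t • ro a))
  obtain ⟨H, h1, h2⟩ := (prk (Bool × Set (ℕ → TT)) k ℕ).choose_spec _ S (fun t n => val t (S t n))
    fun t n m a => congrArg (val t) a
  let T : (Fin k → ℕ) → Fin k → KK k := fun m a => H a (m a)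
  have h3 : ∀ m n j, j ∈ range (S (T m)) → j ∈ range (S (T n)) → val (T m) j = val (T n) j := by
    rintro m n _ ⟨a, rfl⟩ ⟨b, u⟩
    exact (h2 m n a b u.symm).trans (congrArg _ u)
  have h4 : ∀ m n j, val (T m) (inr j) = val (T n) (inr j) := fun m n j =>
    h3 m n _ (hS _ ▸ Or.inr ⟨j, rfl⟩) (hS _ ▸ Or.inr ⟨j, rfl⟩)
  have h5 : ∀ m n j, (pt (T m)).f j ≠ univ → j ∈ {j | (pt (T n)).f j ≠ univ} ∪ D ∪
      range (fun a => π (T n) • ro a) → (pt (T m)).f j = (pt (T n)).f j := fun m n j a b =>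
    congrArg Prod.snd (h3 m n (inl j) (hS _ ▸ Or.inl ⟨j, Or.inl (Or.inl a), rfl⟩)
      (hS _ ▸ Or.inl ⟨j, b, rfl⟩))
  let q := res F ((π (T 0))⁻¹ • pt (T 0))
  have q0 : ∀ j ∈ F, q.f j = (pt (T 0)).f (π (T 0) • j) := fun j a => (if_pos a).trans (by
    rw [← sm_f (π (T 0)), smul_inv_smul])
  have q1 : ∀ j ∈ F, q.f j ⊆ p'.f j := fun j a => by rw [q0 j a, ← sm_f (π (T 0)) p']; exact t1 _ _
  refine ⟨q, fun j => ?_, col (T 0), h.2 (y := X ∪ {s | ∃ σ, Fi D σ ∧ s = (σ • q, σ, i (col (T 0)))})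
    ⟨fun μ _ s s1 U u1 u2 => by_contra fun u3 => ?_, ?_⟩ subset_union_left
      (Or.inr ⟨1, fun _ _ => rfl, rfl⟩)⟩
  · by_cases a : j ∈ F
    exacts [(q1 j a).trans (p1 j), (f5 j a).symm ▸ subset_univ _]
  swap
  · rintro g a _ (b | ⟨σ, b, rfl⟩)
    · exact Or.inl (h.1.2 g a _ b)
    · exact Or.inr ⟨g * σ, fun t u => by rw [mul_smul, b t u, a t u], by rw [mul_smul]; rfl⟩
  obtain ⟨r, r2, r3⟩ := Filter.nonempty_of_mem (inter_mem ((cl (Q := fun U => Hy (mk U y) (mk U o)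
    (mk U l) (mk U c) ∧ ¬ LB (mk U y) (mk U o) (mk U l) fun m => mk U (nm y (s m))) U).1 ⟨u1, u3⟩)
    (iInter_mem.2 u2))
  replace r3 : ∀ m, r ≤ (s m).1 := mem_iInter.1 r3
  choose σ σ1 σ2 using fun m : {m // s m ∉ X} => (s1 m).resolve_left m.2
  have r4 : ∀ m j, r.f (σ m • j) ⊆ q.f j := fun m j => by
    have := r3 m (σ m • j)
    rwa [σ2, sm_f] at this
  let β := range fun x : {m // s m ∉ X} × Fin k => σ x.1 • ro x.2
  haveI : Finite β := (finite_range _).to_subtype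
  obtain ⟨ι, hι⟩ := exists_injective_nat β
  choose ρ hρ using fun j : β => j.2
  have ρ1 : ∀ m a, (ρ ⟨_, (m, a), rfl⟩).2 = a := fun m a => r1 (p2 _ (e.symm _).2.1 _ (e.symm _).2.1
    ((PV_ne r (σ m • ro a)).mono (subset_inter (by
      have := r4 (ρ ⟨_, (m, a), rfl⟩).1 (ro (ρ ⟨_, (m, a), rfl⟩).2)
      rw [show σ (ρ ⟨_, (m, a), rfl⟩).1 • ro (ρ ⟨_, (m, a), rfl⟩).2 = σ m • ro a from
        hρ ⟨_, (m, a), rfl⟩] at this
      exact this.trans (q1 _ (e.symm _).2.1)) ((r4 m _).trans (q1 _ (e.symm _).2.1)))))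
  obtain ⟨κ, κ1, κ2⟩ := ex_ext2 d (f := fun j : β => j.1)
    (g := fun j => co j.1.1 (ρ j).2 (H (ρ j).2 (ι j))) Subtype.val_injective (fun j j' u => by
      obtain ⟨u1, u2⟩ := c2 _ _ _ _ _ _ u
      rw [u1] at u2
      exact hι (h1 _ u2)) (fun _ => rfl) (by
      rintro ⟨_, ⟨m, a⟩, rfl⟩ u
      have v : σ m • ro a = ro a := MulAction.injective (σ m) (σ1 m _ u)
      exact (e.symm a).2.2 (show ro a ∈ D from v ▸ u)) fun _ => c1 _ _ _
  let tm : {m // s m ∉ X} → Fin k → KK k := fun m => T fun a => ι ⟨_, (m, a), rfl⟩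
  have κ3 : ∀ m a, κ • σ m • ro a = π (tm m) • ro a := fun m a => by
    rw [κ2 ⟨_, (m, a), rfl⟩, ρ1, π2]; rfl
  obtain ⟨θ, θ1, θ2⟩ := ex_mv (d.union (finite_range fun x : _ × Fin k => π (tm x.1) • ro x.2))
    (κ • r).fin (finite_iUnion fun m => (pt (tm m)).fin)
  have g1 : Fi D (θ * κ) := fun t a => by rw [mul_smul, κ1 t a, θ1 t (Or.inl a)]
  have g2 : ∀ m, ∀ j ∈ F, (θ * κ * σ m) • j = π (tm m) • j := fun m j a => by
    by_cases b : j ∈ D
    · rw [mul_smul, σ1 m j b, g1 j b, π1 _ j b]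
    · obtain ⟨x, rfl⟩ : ∃ x, j = ro x := ⟨e ⟨j, a, b⟩, by simp [ro]⟩
      rw [mul_smul, mul_smul, κ3, θ1 _ (Or.inr ⟨(m, x), rfl⟩)]
  let R : Option {m // s m ∉ X} → PV := fun o => o.elim ((θ * κ) • r) fun m => pt (tm m)
  have : ∀ j, ∃ x, ∀ z, (R x).f j ⊆ (R z).f j := fun j => by
    by_cases a : ∃ m, (pt (tm m)).f j ≠ univ
    swap
    · refine ⟨none, ?_⟩
      rintro (_ | m)
      exacts [Subset.rfl, (not_not.1 fun b => a ⟨m, b⟩).symm ▸ subset_univ _]
    obtain ⟨m, a⟩ := a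
    have kk : ∀ n, (pt (tm m)).f j ⊆ (pt (tm n)).f j := fun n => by
      by_cases b : (pt (tm n)).f j = univ
      exacts [b ▸ subset_univ _, (h5 _ _ j a (Or.inl (Or.inl b))).subset]
    have k' : ((θ * κ) • r).f j ⊆ (pt (tm m)).f j → ∃ x, ∀ z, (R x).f j ⊆ (R z).f j := fun b =>
      ⟨none, by rintro (_ | n); exacts [Subset.rfl, b.trans (kk n)]⟩
    by_cases b : j ∈ D
    · refine k' ?_
      have := r4 m j
      rw [σ1 m j b, q0 j (f4 b), π1 _ j b, ← h5 _ _ j a (Or.inl (Or.inr b)), ← sm_f (θ * κ),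
        g1 j b] at this
      exact this
    by_cases u : j ∈ range fun x : _ × Fin k => π (tm x.1) • ro x.2
    · obtain ⟨⟨n, x⟩, rfl⟩ := u
      refine k' ?_
      have := r4 n (ro x)
      rw [q0 _ (e.symm _).2.1, ← sm_f (θ * κ), ← mul_smul, g2 n _ (e.symm _).2.1] at this
      rw [h5 _ _ _ a (Or.inr ⟨x, rfl⟩)]
      exact this.trans (congrArg Prod.snd (h4 _ _ (some x))).subset
    refine ⟨some m, ?_⟩
    rintro (_ | n)
    · obtain ⟨j, rfl⟩ := MulAction.surjective θ j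
      refine (subset_univ _).trans (Eq.ge ?_)
      show ((θ * κ) • r).f (θ • j) = _
      rw [mul_smul, sm_f]
      refine not_not.1 fun v => θ2 j v (fun w => ?_) (mem_iUnion.2 ⟨m, a⟩)
      have := θ1 j w
      exact w.elim (fun w => b (show θ • j ∈ D from this.symm ▸ w))
        fun w => u (show θ • j ∈ _ from this.symm ▸ w)
    · exact kk n
  choose x hx using this
  obtain ⟨V, hV⟩ := ex_ult (P := PV) ⟨fun j => (R (x j)).f j, fun j => (R _).pos j,
    (finite_iUnion fun z => (R z).fin).subset fun j a => mem_iUnion.2 ⟨x j, a⟩⟩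
  have v : ∀ z, Iic (R z) ∈ V.U := fun z => frc_G (fun j => hx j z) V hV
  obtain ⟨V, rfl⟩ := mv_surj (θ * κ) V
  obtain ⟨v1, v2⟩ := r2 V (G_mv.1 (v none))
  have w : ∀ {z : Nm PV}, Iu D z → mk (mv (θ * κ) V) z = iso (θ * κ) (mk V z) := fun a => by
    rw [iso_mk, a _ g1]
  have := z2.1.1 μ (fun m => if a : s m ∈ X then ac y (θ * κ) (s m) else
    (pt (tm ⟨m, a⟩), π (tm ⟨m, a⟩), i (col (T 0)))) (fun m => by
      split_ifs with a
      · exact z1 (h.1.2 _ g1 _ a)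
      · rw [show col (T 0) = col (tm ⟨m, a⟩) from congrArg Prod.fst (h4 _ _ none)]
        exact t2 _) (mv (θ * κ) V) (by rwa [w iy, w io, w il, w ic, hy_iso]) fun m => by
      split_ifs with a
      exacts [G_mv.2 (frc_G (r3 m) V (G_mv.1 (v none))), v (some ⟨m, a⟩)]
  refine v2 ((lb_iso (θ * κ)).1 ?_)
  rw [← w iy, ← w io, ← w il]
  refine Eq.mp (congrArg _ (funext fun m => ?_)) this
  rw [iso_mk]
  split_ifs with a
  · simp only [nm, ac, act_mul]
  · rw [σ2 ⟨m, a⟩]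
    simp only [nm, act_mul]
    exact ((f3 _).eq (g2 ⟨m, a⟩) _).symm

end

theorem bpi {y o l c : Nm PV} (hy : HS GV y) (ho : HS GV o) (hl : HS GV l) (hc : HS GV c) :
    ∃ u, HS GV u ∧ ∀ U : Ult PV, Hy (mk U y) (mk U o) (mk U l) (mk U c) →
      (∀ a, E U a (mk U y) → ∀ b, E U b (mk U y) → App (E U) (mk U c) a b →
        E U a (mk U u) ∨ E U b (mk U u)) ∧
      ∀ a, E U a (mk U u) → ∀ b, E U b (mk U u) → ∀ d, E U d (mk U u) → ∃ z, E U z (mk U o) ∧
        (E U a (mk U y) → App (E U) (mk U l) z a) ∧ (E U b (mk U y) → App (E U) (mk U l) z b) ∧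
        (E U d (mk U y) → App (E U) (mk U l) z d) := by
  obtain ⟨D, d, -, hD⟩ := supp_iff.1 ((hs_iff.1 hy).1.and ((hs_iff.1 ho).1.and
    ((hs_iff.1 hl).1.and (hs_iff.1 hc).1)))
  obtain ⟨X, -, h⟩ := zorn (y := y) (o := o) (l := l) (c := c) {g | Fi D g} (X := ∅)
    (fun μ _ s a U b _ => b.1.imp fun z e => ⟨e, fun m => (a m).elim⟩) (by simp)
  let Q : PV × GV × y.ι → Ult PV → Prop := fun s U => s ∈ X ∧ Iic s.1 ∈ U.U
  refine ⟨fam (nm y) Q, hs_fam (supp_iff.2 ⟨D, d, subset_univ _, fun g a => fam_eqv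
    ((MulAction.toPerm g).prodCongr ((Equiv.mulLeft g).prodCongr (Equiv.refl _)))
    (fun s U => by rw [nm, act_mul]; rfl) fun s U => and_congr ⟨fun b => ?_, h.1.2 g a s⟩ G_mv⟩)
      fun s => hs_act _ ((hs_iff.1 hy).2 _), fun U a => ⟨fun x b z e f => ?_, fun x b z e w f => ?_⟩⟩
  · simpa [ac] using h.1.2 g⁻¹ (fun t e => by rw [inv_smul_eq_iff, a t e]) _ b
  · obtain ⟨x, rfl⟩ := mk_surj x
    obtain ⟨z, rfl⟩ := mk_surj z
    revert e f
    refine mem_cases (fun i U b1 b2 e => ?_) U b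
    revert b1 b2
    refine mem_cases (fun j U e1 e2 b1 b2 f => ?_) U e
    rw [b2, e2] at f ⊢
    refine by_dense (H := fun U => E U (mk U (y.A i)) (mk U y) ∧ E U (mk U (y.A j)) (mk U y) ∧
      App (E U) (mk U c) (mk U (y.A i)) (mk U (y.A j))) (R := fun U => E U (mk U (y.A i))
        (mk U (fam (nm y) Q)) ∨ E U (mk U (y.A j)) (mk U (fam (nm y) Q))) (fun p hp => ?_) U
          ⟨mem_intro y i U b1, mem_intro y j U e1, f⟩
    obtain ⟨q, q1, b, q2⟩ := ram d (fun g a => (hD g a).1) (fun g a => (hD g a).2.1)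
      (fun g a => (hD g a).2.2.1) (fun g a => (hD g a).2.2.2) hy h (fun b => cond b i j) hp
    refine ⟨q, q1, fun V hV => ?_⟩
    have := fam_intro (A := nm y) (Q := Q) (q, 1, cond b i j) ⟨q2, hV⟩
    rw [nm, act_one] at this
    cases b
    exacts [Or.inr this, Or.inl this]
  · let R := fun (U : Ult PV) (x z w : M U) => ∃ v, E U v (mk U o) ∧
      (E U x (mk U y) → App (E U) (mk U l) v x) ∧ (E U z (mk U y) → App (E U) (mk U l) v z) ∧
      (E U w (mk U y) → App (E U) (mk U l) v w)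
    refine casQ (S := fun U x => Hy (mk U y) (mk U o) (mk U l) (mk U c) → ∀ z,
      E U z (mk U (fam (nm y) Q)) → ∀ w, E U w (mk U (fam (nm y) Q)) → R U x z w) (fun s U s1 a z e =>
        casQ (S := fun U z => Q s U → Hy (mk U y) (mk U o) (mk U l) (mk U c) → ∀ w,
          E U w (mk U (fam (nm y) Q)) → R U (mk U (nm y s)) z w) (fun t U t1 s1 a w f =>
            casQ (S := fun U w => Q s U → Q t U → Hy (mk U y) (mk U o) (mk U l) (mk U c) →
              R U (mk U (nm y s)) (mk U (nm y t)) w) (fun r U r1 s1 t1 a => ?_) U w f s1 t1 a)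
                U z e s1 a) U x b a z e w f
    obtain ⟨v, v1, v2⟩ := h.1.1 (Option Bool) (fun o => o.elim s fun b => cond b t r)
      (by rintro (_ | _ | _); exacts [s1.1, r1.1, t1.1]) U a
      (by rintro (_ | _ | _); exacts [s1.2, r1.2, t1.2])
    exact ⟨v, v1, v2 none, v2 (some true), v2 (some false)⟩

end Pool.Agent.H40.Gn.Bk
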