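import Pool.Agent.H40.JzDefs3

set_option autoImplicit false

namespace Pool.Agent.H40.Jz

open Pool.Agent.H40.Bspt

variable {M : Type} (E : M → M → Prop)

/-- an infinite set all of whose infinite subsets are cofinite -/
def Amorph (x : M) : Prop :=
  ¬ IsFin E x ∧ ∀ y, Sub E y x → ¬ IsFin E y → Few E fun z => E z x ∧ ¬ E z y

/-- `(K, T, h)` is a Hausdorff compactification of the discrete space on `D` -/
def Cpt (D K T : M) (h : Ex E D → Ex E K) : Prop :=
  IsTop E K T ∧ Compact E K T ∧ T2 E K T ∧ Intl E (fun a => (h a).1) ∧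
    (∀ a, ∃ U, E U T ∧ E (h a).1 U ∧ ∀ b, E (h b).1 U → b = a) ∧
    ∀ U, E U T → (∃ z, E z U) → ∃ a, E (h a).1 U

/-- every infinite discrete space has a non-scattered Hausdorff compactification -/
def INSHC : Prop := ∀ D, ¬ IsFin E D → ∃ K T h, Cpt E D K T h ∧ ¬ Scattered E K T

/-- the Cantor cube (the power set of `ω` with the product topology) is a remainder of the discrete
space on `D` -/
def CantorRem (D : M) : Prop :=
  ∃ K T h, Cpt E D K T h ∧
    ∃ φ : {z // E z K ∧ ∀ a, (h a).1 ≠ z} → {r // ∀ n, E n r → IsNat E n},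
      Intl E (fun z => (φ z).1) ∧ Function.Bijective φ ∧
      (∀ z n, ∃ U, E U T ∧ E z.1 U ∧ ∀ w, E w.1 U → (E n (φ w).1 ↔ E n (φ z).1)) ∧
      ∀ z U, E U T → E z.1 U → ∃ F, IsFin E F ∧
        ∀ w, (∀ n, E n F → (E n (φ w).1 ↔ E n (φ z).1)) → E w.1 U

/-- a Boolean algebra whose carrier and order are sets of the model -/
structure BAlg where
  B : M
  [ba : BooleanAlgebra (Ex E B)]
  le : ∃ l, ∀ x y : Ex E B, App E l x.1 y.1 ↔ x ≤ y

attribute [instance] BAlg.ba

/-- every non-degenerate Boolean algebra has a prime ideal -/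
def BPI : Prop := ∀ B : BAlg E, (⊥ : Ex E B.B) ≠ ⊤ →
  ∃ (I : M) (J : Order.Ideal (Ex E B.B)), J.IsPrime ∧ ∀ x, x ∈ J ↔ E x.1 I

end Pool.Agent.H40.Jz
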