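import Pool.Agent.H40.JzDefs

set_option autoImplicit false

namespace Pool.Agent.H40.Jz

open Pool.Agent.H40.Bspt

variable {M : Type} (E : M → M → Prop)

/-- `(X, T)` has a countable dense subset -/
def Separable (X T : M) : Prop :=
  ∃ D, Sub E D X ∧ Ctbl E D ∧ ∀ U, E U T → (∃ x, E x U) → ∃ x, E x D ∧ E x U

/-- `(P, S)` is the topological product of the sequence `(X n, T n)`, `n ∈ ω`: `P` is the set of
all functions `f` on `ω` with `f n ∈ X n`, and `U ⊆ P` is open iff each `f ∈ U` lies in a box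
`{g | g n ∈ V for all (n, V) ∈ B} ⊆ U` with `B` a finite set of pairs `(n, V)`, `V ∈ T n`. -/
def IsPi (X T : Om E → M) (P S : M) : Prop :=
  (∀ f, E f P ↔ (∀ p, E p f → ∃ (n : Om E) (x : M), IsPair E p n.1 x) ∧
    ∀ n : Om E, ∃ x, E x (X n) ∧ ∀ y, App E f n.1 y ↔ y = x) ∧
  ∀ U, E U S ↔ Sub E U P ∧ ∀ f, E f U → ∃ B, IsFin E B ∧
    (∀ (n : Om E) V, App E B n.1 V → E V (T n) ∧ ∃ x, App E f n.1 x ∧ E x V) ∧
    ∀ g, E g P → (∀ (n : Om E) V, App E B n.1 V → ∃ x, App E g n.1 x ∧ E x V) → E g U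

/-- every product of a sequence of spaces with property `A` has property `B` -/
def SeqProd (A B : M → M → Prop) : Prop :=
  ∀ (X T : Om E → M) (P S : M), Intl E X → Intl E T →
    (∀ n, IsTop E (X n) (T n) ∧ A (X n) (T n)) → IsPi E X T P S → B P S

end Pool.Agent.H40.Jz
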