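import Pool.Agent.H40.Zr12
import Pool.Agent.H40.JzDefs14

set_option autoImplicit false
set_option synthInstance.maxSize 2000

/-! Products of one-point compactifications of countable discrete spaces. -/

namespace Pool.Agent.H40.Zt

open Pool.Agent.H40.Bspt Pool.Agent.H40.Jz Classical

variable {M : Type} {E : M → M → Prop} (h : IsZF E)
include h

theorem fin_ch {F : M} (a : IsFin E F) (R : M → M → Prop) [D2 E R] (b : ∀ x, E x F → ∃ y, R x y) :
    ∃ D, IsFin E D ∧ (∀ y, E y D → ∃ x, R x y) ∧ ∀ x, E x F → ∃ y, E y D ∧ R x y := by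
  have := @l2 _ E R _
  refine finI h (fun F => (∀ x, E x F → ∃ y, R x y) → ∃ D, IsFin E D ∧ (∀ y, E y D → ∃ x, R x y) ∧
    ∀ x, E x F → ∃ y, E y D ∧ R x y) (fun z c _ => ⟨z, h.fin0 c, fun y d => absurd d (c y),
      fun y d => absurd d (c y)⟩) (fun u y s _ c d e => ?_) F a b
  obtain ⟨D, d1, d2, d3⟩ := c fun x f => e x ((d x).2 (Or.inl f))
  obtain ⟨v, f⟩ := e y ((d y).2 (Or.inr rfl))
  obtain ⟨G, g⟩ := h.ins D v
  exact ⟨G, h.finS' d1 g, fun z i => ((g z).1 i).elim (d2 z) fun j : z = v => ⟨y, j ▸ f⟩,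
    fun x i => ((d x).1 i).elim (fun j => (d3 x j).imp fun z k => ⟨(g z).2 (Or.inl k.1), k.2⟩)
      fun j : x = y => ⟨v, (g v).2 (Or.inr rfl), j ▸ f⟩⟩

variable (E) in
noncomputable abbrev otp (C : M) : M :=
  cls E C fun U => Sub E U (sc E C) ∧ (E C U → Few E fun z => E z C ∧ ¬ E z U)

theorem mem_otp {C U : M} :
    E U (otp E C) ↔ Sub E U (sc E C) ∧ (E C U → Few E fun z => E z C ∧ ¬ E z U) :=
  let ⟨P, a⟩ := h.power (sc E C)
  mem_cls h (U := P) fun z b => (a z).2 b.1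

theorem opc (ℛ : Reals E) {C : M} (a : Ctbl E C) : IsTop E (sc E C) (otp E C) ∧
    Compact E (sc E C) (otp E C) ∧ Metrizable ℛ (sc E C) (otp E C) := by
  refine ⟨⟨fun U b => ((mem_otp h).1 b).1, (mem_otp h).2 ⟨fun _ => id, fun _ => few_one h
    fun y _ b => absurd ((mem_sc h).2 (Or.inl b.1)) b.2⟩, fun U V W b c d => ?_, fun S W b c =>
      (mem_otp h).2 ⟨fun z d => ((c z).1 d).elim fun U e => ((mem_otp h).1 (b U e.1)).1 z e.2,
        fun d => ((c C).1 d).elim fun U e => few_mono (((mem_otp h).1 (b U e.1)).2 e.2)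
          fun z f => ⟨f.1, fun g => f.2 ((c z).2 ⟨U, e.1, g⟩)⟩⟩⟩, fun S b c => ?_, ?_⟩
  · rw [mem_otp h] at b c ⊢
    exact ⟨fun z e => b.1 z ((d z).1 e).1, fun e => few_mono (few_or h (b.2 ((d C).1 e).1)
      (c.2 ((d C).1 e).2)) fun z f => by rw [d] at f; tauto⟩
  · obtain ⟨U, d, e⟩ := c C (self_sc h C)
    obtain ⟨F, f1, f2⟩ := ((mem_otp h).1 (b U d)).2 e
    obtain ⟨D, d1, d2, d3⟩ := fin_ch h f1 (fun z V => E V S ∧ (E z C → E z V)) fun z _ => by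
      by_cases g : E z C
      exacts [(c z ((mem_sc h).2 (Or.inl g))).imp fun V i => ⟨i.1, fun _ => i.2⟩,
        ⟨U, d, fun i => absurd i g⟩]
    obtain ⟨G, g⟩ := h.ins D U
    refine ⟨G, fun V i => ((g V).1 i).elim (fun j => (d2 V j).elim fun _ => And.left)
      fun j : V = U => j ▸ d, h.finS' d1 g, fun x i => ?_⟩
    by_cases j : E x U
    · exact ⟨U, (g U).2 (Or.inr rfl), j⟩
    · have k := ((mem_sc h).1 i).resolve_right fun k => j (k ▸ e)
      exact (d3 x (f2 x ⟨k, j⟩)).imp fun V l => ⟨(g V).2 (Or.inl l.1), l.2.2 k⟩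
  obtain ⟨φ, b, i⟩ := a
  obtain ⟨f, _, hf⟩ := intl_t h b
  have := @t1 _ E f _
  obtain ⟨c, _, c1, c3, c2⟩ := ex_c ℛ h
  have := @tR _ _ ℛ c _
  have fn : ∀ z, E z C → IsNat E (f z) := fun z a => hf ⟨z, a⟩ ▸ (φ ⟨z, a⟩).2
  let g : M → Ex E ℛ.R := fun z => if E z C then c (f z) else 0
  have g0 : g C = 0 := if_neg (h.irr _)
  have g1 : ∀ z, E z C → 0 < g z := fun z a => by simp only [g, if_pos a]; exact c1 _ (fn z a)
  have g2 : ∀ z, 0 ≤ g z := fun z => by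
    by_cases a : E z C
    exacts [(g1 z a).le, (if_neg a).ge]
  have g3 : ∀ ε > 0, Few E fun z => E z C ∧ ε ≤ g z := fun ε a => by
    obtain ⟨n, b, d⟩ := c2 ε a
    refine few_un h (fun m z => E z C ∧ f z = m) (fin_few (nat_fin h b)) (fun m => few_one h
      fun y z e k => congrArg Subtype.val (i (Subtype.ext ((hf ⟨y, e.1⟩).symm.trans
        ((e.2.trans k.2.symm).trans (hf ⟨z, k.1⟩)))))) fun z e => ⟨f z, ?_, e.1, rfl⟩
    have k := e.2
    simp only [g, if_pos e.1] at k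
    refine (tri h (fn z e.1) b).resolve_right fun l => ?_
    rcases l with l | l
    · exact (l ▸ k).not_gt d
    · have := chain h (fun n x => up ℛ x ≤ c n) (x := (c (f z)).1) (fun n x a b => by
        rw [c3 n a] at b; linarith [c1 n a]) (fn z e.1) l (by rw [up_val])
      rw [up_val] at this
      linarith
  have : T1 E fun z => (g z).1 := inferInstance
  clear_value g
  have := @tR _ _ ℛ g _
  let d : M → M → Ex E ℛ.R := fun x y => if x = y then 0 else max (g x) (g y)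
  have : T2 E fun x y => (d x y).1 := inferInstance
  refine ⟨fun x y => d x.1 y.1, intl2_of h (fun x y => (d x y).1) fun x y _ _ => (d x y).2,
    fun x y => ⟨fun a => by_contra fun b => ?_, fun a => if_pos (a ▸ rfl)⟩, fun x y => ?_,
    fun x y z => ?_, fun U => (mem_otp h).trans (and_congr_right fun a => ⟨fun b x e => ?_, fun b e => ?_⟩)⟩
  · simp only [d, if_neg (Subtype.val_injective.ne b)] at a
    rcases (mem_sc h).1 x.2 with j | j
    · linarith [g1 _ j, le_max_left (g x.1) (g y.1)]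
    · linarith [g1 _ (((mem_sc h).1 y.2).resolve_right fun k => b (Subtype.ext (j.trans k.symm))),
        le_max_right (g x.1) (g y.1)]
  · simp only [d, eq_comm (a := x.1), max_comm (g x.1)]
  · simp only [d]
    split_ifs with a b e <;> simp_all only [max_def, not_true_eq_false] <;> (try split_ifs) <;>
      linarith [g2 x.1, g2 y.1, g2 z.1]
  · rcases (mem_sc h).1 x.2 with j | j
    · refine ⟨g x.1, g1 _ j, fun y k => by_contra fun l => ?_⟩
      simp only [d, if_neg (show x.1 ≠ y.1 from fun m => l (m ▸ e))] at k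
      exact k.not_ge (le_max_left _ _)
    · obtain ⟨F, f1, f2⟩ := b (j ▸ e)
      obtain ⟨ε, k, l⟩ := finI h (fun F => ∃ ε > 0, ∀ z, E z F → E z C → ε ≤ g z)
        (fun z m => ⟨1, one_pos, fun y n => absurd n (m y)⟩) (fun u y s _ ⟨ε, m, n⟩ o => by
          by_cases p : E y C
          · exact ⟨min ε (g y), lt_min m (g1 y p), fun z q r => ((o z).1 q).elim
              (fun t => (min_le_left _ _).trans (n z t r)) fun t : z = y => t ▸ min_le_right _ _⟩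
          · exact ⟨ε, m, fun z q r => ((o z).1 q).elim (n z · r) fun t : z = y => absurd (t ▸ r) p⟩) F f1
      refine ⟨ε, k, fun y m => by_contra fun n => ?_⟩
      have o : x.1 ≠ y.1 := fun o => n (o ▸ e)
      have p := ((mem_sc h).1 y.2).resolve_right fun p => o (j.trans p.symm)
      simp only [d, if_neg o] at m
      exact m.not_ge ((l _ (f2 _ ⟨p, n⟩) p).trans (le_max_right _ _))
  · obtain ⟨ε, j, k⟩ := b ⟨C, self_sc h C⟩ e
    refine few_mono (g3 ε j) fun z l => ⟨l.1, not_lt.1 fun m => l.2 (k ⟨z, (mem_sc h).2 (Or.inl l.1)⟩ ?_)⟩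
    simp only [d, g0]
    split_ifs
    exacts [j, max_lt j m]

theorem ex_pi (X T : M → M) [T1 E X] [T1 E T] {B : M} (a : ∀ n, Sub E (X n) B) :
    ∃ P S, IsPi E (fun n => X n.1) (fun n => T n.1) P S ∧ ∀ g : M → M, T1 E g →
      (∀ n, IsNat E n → E (g n) (X n)) → ∃ f, E f P ∧ ∀ n y, IsNat E n → (App E f n y ↔ y = g n) := by
  have := @t1 _ E X _
  have := @t1 _ E T _
  obtain ⟨w, hw⟩ := h.omega'
  obtain ⟨Z, hZ⟩ := h.prod w B
  obtain ⟨Y, hY⟩ := h.power Z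
  obtain ⟨P, hP⟩ := sep h (fun f => ∀ n, IsNat E n → ∃ x, E x (X n) ∧ ∀ y, App E f n y ↔ y = x) Y
  obtain ⟨Q, hQ⟩ := h.power P
  obtain ⟨S, hS⟩ := sep h (fun U => ∀ f, E f U → ∃ B, IsFin E B ∧
    (∀ n, IsNat E n → ∀ V, App E B n V → E V (T n) ∧ ∃ x, App E f n x ∧ E x V) ∧
    ∀ g, E g P → (∀ n, IsNat E n → ∀ V, App E B n V → ∃ x, App E g n x ∧ E x V) → E g U) Q
  refine ⟨P, S, ⟨fun f => ?_, fun U => by simp only [hS, hQ, Subtype.forall]; rfl⟩, fun g _ b => ?_⟩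
  · simp only [hP, hY, hZ, hw, Subtype.forall, Subtype.exists]
    refine and_congr_left fun b => forall₂_congr fun p c => ⟨fun ⟨n, x, d, _, e⟩ => ⟨n, d, x, e⟩,
      fun ⟨n, d, x, e⟩ => (b n d).elim fun y f => ⟨n, x, d, a n x ((f.2 x).1 ⟨p, c, e⟩ ▸ f.1), e⟩⟩
  · have := @t1 _ E g _
    obtain ⟨f, hf⟩ := sep h (fun p => ∃ n, p = pr E n (g n)) Z
    have k : ∀ n y, IsNat E n → (App E f n y ↔ y = g n) := fun n y c => by
      rw [app_pr h, hf]
      exact ⟨fun ⟨_, m, d⟩ => by rw [(pr_inj h d).2, (pr_inj h d).1], fun d => ⟨(hZ _).2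
        ⟨n, y, (hw n).2 c, a n y (d ▸ b n c), pr_sp h _ _⟩, n, d ▸ rfl⟩⟩
    exact ⟨f, (hP f).2 ⟨(hY f).2 fun p c => ((hf p).1 c).1, fun n c => ⟨_, b n c, (k n · c)⟩⟩, k⟩

/-- an uncountable countable union of countable sets gives a non-separable product -/
theorem nonsep (ℛ : Reals E) {A W e : M} (a : ∀ z, E z W ↔ ∃ X, E X A ∧ E z X)
    (b : ∀ x, E x A → ∃ m, IsNat E m ∧ App E e x m) (c : ∀ x y m, App E e x m → App E e y m → x = y)
    (d : ∀ X, E X A → Ctbl E X) (u : ¬ Ctbl E W) : ∃ (X T : Om E → M) (P S : M), Intl E X ∧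
      Intl E T ∧ (∀ n, IsTop E (X n) (T n) ∧ Compact E (X n) (T n) ∧ Metrizable ℛ (X n) (T n)) ∧
      IsPi E X T P S ∧ ¬ Separable E P S := by
  let C : M → M := fun n => st E W fun z => ∃ X, E X A ∧ App E e X n ∧ E z X
  have c1 : ∀ n z, E z (C n) ↔ E z W ∧ ∃ X, E X A ∧ App E e X n ∧ E z X := fun n z => mem_st h
  have : T1 E C := inferInstance
  clear_value C
  have := @t1 _ E C _
  have c2 : ∀ n, Ctbl E (C n) := fun n => by
    by_cases f : ∃ X, E X A ∧ App E e X n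
    · obtain ⟨X, f, g⟩ := f
      rw [h.ext (C n) X fun z => (c1 n z).trans ⟨fun ⟨_, Y, i⟩ => c _ _ _ i.2.1 g ▸ i.2.2,
        fun i => ⟨(a z).2 ⟨X, f, i⟩, X, f, g, i⟩⟩]
      exact d X f
    · exact ctbl_of h (fun x _ => x ≠ x) (fun z g => absurd (((c1 n z).1 g).2.imp
        fun _ i => ⟨i.1, i.2.1⟩) f) fun _ _ _ _ _ i => absurd rfl i
  obtain ⟨w, hw⟩ := h.omega'
  obtain ⟨Y, hY⟩ := h.power W
  obtain ⟨B, hB⟩ := h.union2 W Y
  obtain ⟨B1, hB1⟩ := h.power B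
  obtain ⟨B2, hB2⟩ := h.power B1
  have s : ∀ n, Sub E (sc E (C n)) B := fun n z f => (hB z).2 (((mem_sc h).1 f).imp
    (fun g => ((c1 n z).1 g).1) fun g : z = C n => (hY z).2 fun y i => ((c1 n y).1 (g ▸ i)).1)
  obtain ⟨P, S, p, q⟩ := ex_pi h (fun n => sc E (C n)) (fun n => otp E (C n)) s
  have i : ∀ (g : M → M) [T1 E g] (W : M), (∀ n, E (g n) W) → Intl E fun n : Om E => g n.1 :=
    fun g _ W f => (intl_of h (S := w) g fun n _ => f n).imp fun _ i n => i ⟨n.1, (hw _).2 n.2⟩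
  refine ⟨_, _, P, S, i _ B1 fun n => (hB1 _).2 (s n), i _ B2 fun n => (hB2 _).2 fun U f =>
    (hB1 U).2 fun z g => s n z (((mem_otp h).1 f).1 z g), fun n => opc h ℛ (c2 _), p,
    fun ⟨D, d1, ⟨φ, ⟨ψ, d2⟩, d3⟩, d4⟩ => u (ctbl_of h (fun z k => ∃ g n m, E g D ∧ IsNat E n ∧
      IsNat E m ∧ App E g n z ∧ App E ψ g m ∧ k = pi E m n) (fun z f => ?_)
      fun y z k _ _ ⟨g, n, m, f1, f2, f3, f4, f5, f6⟩ ⟨g', n', m', g1, g2, g3, g4, g5, g6⟩ => ?_)⟩
  · obtain ⟨X, f1, f2⟩ := (a z).1 f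
    obtain ⟨n, f3, f4⟩ := b X f1
    have k := (c1 n z).2 ⟨f, X, f1, f4, f2⟩
    obtain ⟨g, g1, g2⟩ := q (fun m => if m = n then z else C m) inferInstance fun m _ => by
      split_ifs with j
      exacts [(mem_sc h).2 (Or.inl (j ▸ k)), self_sc h _]
    obtain ⟨U, hU⟩ := sep h (fun g => App E g n z) P
    obtain ⟨V, hV⟩ := h.pair z z
    simp only [or_self] at hV
    obtain ⟨F, hF⟩ := h.pair (pr E n V) (pr E n V)
    obtain ⟨x, l, m⟩ := d4 U ((p.2 U).2 ⟨fun g j => ((hU g).1 j).1, fun g j => ⟨F, few_fin h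
      (few_eq h (pr E n V)) fun y l => ((hF y).1 l).elim id id, fun m V' l => by
        obtain ⟨l1, rfl⟩ := pr_inj h (((hF _).1 ((app_pr h).1 l)).elim id id)
        simp only [l1]
        exact ⟨(mem_otp h).2 ⟨fun y o => (mem_sc h).2 (Or.inl ((hV y).1 o ▸ k)), fun o =>
          absurd ((hV _).1 o ▸ k) (h.irr _)⟩, z, ((hU g).1 j).2, (hV z).2 rfl⟩, fun g' l m => by
        obtain ⟨y, o, r⟩ := m ⟨n, f3⟩ V ((app_pr h).2 ((hF _).2 (Or.inl rfl)))
        exact (hU _).2 ⟨l, (hV y).1 r ▸ o⟩⟩⟩) ⟨g, (hU g).2 ⟨g1, (g2 n z f3).2 (if_pos rfl).symm⟩⟩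
    exact ⟨_, pi_nat h (φ ⟨x, l⟩).2 f3, x, n, _, l, f3, (φ ⟨x, l⟩).2, ((hU x).1 m).2,
      (d2 ⟨x, l⟩ _).2 rfl, rfl⟩
  · obtain ⟨rfl, rfl⟩ := pi_inj h f3 f2 g3 g2 (f6.symm.trans g6)
    obtain rfl : g = g' := congrArg Subtype.val (d3 (Subtype.ext
      (((d2 ⟨g, f1⟩ m).1 f5).symm.trans ((d2 ⟨g', g1⟩ m).1 g5))))
    obtain ⟨x, -, j⟩ := ((p.1 g).1 (d1 g f1)).2 ⟨n, f2⟩
    exact ((j y).1 f4).trans ((j z).1 g4).symm

end Pool.Agent.H40.Zt
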