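import Pool.Agent.H40.G11
import Pool.Agent.H40.Zr13

set_option autoImplicit false
set_option synthInstance.maxSize 2000

/-! Consequences of the small orbit property. -/

namespace Pool.Agent.H40.Gn

open Pool.Agent.H40.Bspt Pool.Agent.H40.Jz Pool.Agent.H40.Zt Classical

variable {M : Type} {E : M → M → Prop} (h : IsZF E) (S : VM E)
include h S

theorem VM.sep (ℛ : Reals E) (X T : M) (tp : IsTop E X T) (c : Compact E X T)
    (m : Metrizable ℛ X T) : Separable E X T := by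
  obtain ⟨δ, a, b, s, t, o⟩ := m
  obtain ⟨d, _, e⟩ := intl2_r ℛ a
  have := @tR2 _ _ ℛ d _
  simp only [← e, Subtype.forall, Subtype.mk.injEq] at b s t o
  have d0 : ∀ x y, E x X → E y X → (d x y = 0 ↔ x = y) := fun x y a c => b x a y c
  have dt : ∀ x y z, E x X → E y X → E z X → d x z ≤ d x y + d y z := fun x y z a b c =>
    t x a y b z c
  have ds : ∀ x y, E x X → E y X → d x y = d y x := fun x y a b => s x a y b
  obtain ⟨c', _, c1, -, c2⟩ := ex_c ℛ h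
  have := @tR _ _ ℛ c' _
  obtain ⟨w, hw⟩ := h.omega'
  obtain ⟨Z, hZ⟩ := ex_prod h X X
  obtain ⟨r, hr⟩ := rel h (fun p n => ∃ x u, p = pr E x u ∧ d x u < c' n) Z w
  have k : ∀ x u n p, IsPair E p x u → App E r p n → d x u < c' n := fun x u n p a b => by
    obtain ⟨y, v, e, f⟩ := ((hr _ _).1 b).2.2
    obtain ⟨rfl, rfl⟩ := h.pair_inj a (e ▸ pr_sp h y v)
    exact f
  obtain ⟨K, Φ, k1, k2⟩ := S.so X r Z
  obtain ⟨D, d1, d2, d3⟩ := sep_of h d ds dt (fun x y a b => k1 x a y b) tp c d0 o (App E Φ)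
    fun ε a x b => by
      obtain ⟨n, e, f⟩ := c2 _ (half_pos a)
      obtain ⟨F, ⟨m, g, g1, g2⟩, i⟩ := tot_bd h d dt c (fun x a => (d0 x x a a).2 rfl) o _ (c1 n e)
      obtain ⟨g', hg⟩ := rel h (App E g) m F
      refine (k2 g' n e (fun x a => ?_) x b).imp fun α j => ⟨j.1, j.2.1, fun u l p v q s => ?_⟩
      · obtain ⟨u, b, c, f⟩ := i x a
        obtain ⟨j, l, -⟩ := g2.2 u b
        obtain ⟨y, -, p⟩ := g2.1 j l.1
        exact ⟨j, nel h g1 l.1, u, c, ⟨(hg _ _).2 ⟨l.1, b, l.2⟩, fun v _ q =>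
          (p v ((hg _ _).1 q).2).trans (p u ⟨b, l.2⟩).symm⟩, _, hZ _ _ a c, pr_sp h _ _,
          (hr _ _).2 ⟨hZ _ _ a c, (hw n).2 e, x, u, rfl, ds x u a c ▸ f⟩⟩
      · obtain ⟨y, y1, ⟨_, -, y2, y3⟩, _, -, y4, y5⟩ := j.2.2 u l p v q s
        linarith [k _ _ _ _ y2 y3, k _ _ _ _ y4 y5, dt u y v l y1 q, ds y v y1 q]
  refine ⟨D, d1, d2, fun U a ⟨x, b⟩ => ?_⟩
  have e := tp.1 U a x b
  obtain ⟨ε, f, g⟩ := ((o U).1 a).2 x e b
  obtain ⟨p, i, j⟩ := d3 x e ε f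
  exact ⟨p, i, g p (d1 p i) (ds p x (d1 p i) e ▸ j)⟩

theorem VM.ncuc : ∃ A W, Ctbl E A ∧ (∀ X, E X A → Ctbl E X) ∧ (∀ z, E z W ↔ ∃ X, E X A ∧ E z X) ∧
    ¬ Ctbl E W ∧ ∃ e, (∀ x, E x A → ∃ m, IsNat E m ∧ App E e x m) ∧
      ∀ x y m, App E e x m → App E e y m → x = y := by
  obtain ⟨A, W, a, b, d⟩ := S.un
  have k : ∀ X, X = A ∨ E X A → Ctbl E X := fun X e => (b X e).elim fun f g =>
    ctbl_of h (App E f) g.1 fun x y m _ _ => g.2 x y m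
  exact ⟨A, W, k A (Or.inl rfl), fun X e => k X (Or.inr e), a, fun ⟨φ, ⟨f, g⟩, i⟩ => d f
    ⟨fun x e => ⟨_, (φ ⟨x, e⟩).2, (g ⟨x, e⟩ _).2 rfl⟩, fun x e y j m _ l n =>
      congrArg Subtype.val (i (Subtype.ext (((g ⟨x, e⟩ m).1 l).symm.trans ((g ⟨y, j⟩ m).1 n))))⟩,
    b A (Or.inl rfl)⟩

theorem VM.nsep (ℛ : Reals E) :
    ¬ SeqProd E (fun X T => Compact E X T ∧ Metrizable ℛ X T) (Separable E) := fun c => by
  obtain ⟨A, W, -, a, b, d, e, f, g⟩ := S.ncuc h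
  obtain ⟨X, T, P, Q, i, j, k, l, m⟩ := nonsep h ℛ b f g a d
  exact m (c X T P Q i j k l)

end Pool.Agent.H40.Gn
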