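import Pool.Agent.H40.G14
import Pool.Agent.H40.Zr14
import Pool.Agent.H40.JzDefs4

set_option autoImplicit false
set_option synthInstance.maxSize 2000

/-! A model with small orbits in which the prime ideal theorem holds. -/

namespace Pool.Agent.H40.Gn

def BM {M : Type} (E : M → M → Prop) : Prop := ∀ y o l c, ∃ u, ((∃ z, E z o ∧ z = z) ∧
  ∀ z, E z o → ∀ a, E a y → ∀ b, E b y → Bspt.App E c a b → ∃ w, E w o ∧
    (∀ d, E d y → Bspt.App E l z d → Bspt.App E l w d) ∧ (Bspt.App E l w a ∨ Bspt.App E l w b)) →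
  (∀ a, E a y → ∀ b, E b y → Bspt.App E c a b → E a u ∨ E b u) ∧
    ∀ a, E a u → ∀ b, E b u → ∀ d, E d u → ∃ z, E z o ∧ (E a y → Bspt.App E l z a) ∧
      (E b y → Bspt.App E l z b) ∧ (E d y → Bspt.App E l z d)

section
open Pool.Agent.H42.ZF Pool.Agent.H40.Js Bk

theorem ex_bm : ∃ (M : Type) (E : M → M → Prop) (Q : QM E), VM E ∧ BM E := by
  obtain ⟨G, hG⟩ := ex_gm2 (bs_hs Bk.vb_hs)
  have jL : ∀ a, L Bk.GV G.U (G.j a) := fun a => (G.nm a).elim fun y k => k.2 ▸ L_hs k.1 _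
  refine ⟨G.H, G.R, G.qm, vm_of G hG, fun Y O R K => ?_⟩
  obtain ⟨y, hy, e1⟩ := G.nm Y
  obtain ⟨o, ho, e2⟩ := G.nm O
  obtain ⟨l, hl, e3⟩ := G.nm R
  obtain ⟨c, hc, e4⟩ := G.nm K
  obtain ⟨u, a, b⟩ := bpi hy ho hl hc
  obtain ⟨u', f⟩ := (hG (.ex (tr (.imp (.and (.ex 2 (.eq 0 0)) (.all 2 (.all 2 (.all 3 (.imp (.app 7 1 0)
    (.ex 5 (.and (.all 5 (.imp (.app 8 4 0) (.app 8 1 0))) (.or (.app 7 0 2) (.app 7 0 1)))))))))
    (.and (.all 1 (.all 2 (.imp (.app 6 1 0) (.or (.mem 1 2) (.mem 0 2)))))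
      (.all 0 (.all 1 (.all 2 (.ex 5 (.and (.imp (.mem 3 5) (.app 7 0 3))
        (.and (.imp (.mem 2 5) (.app 7 0 2)) (.imp (.mem 1 5) (.app 7 0 1))))))))))))
    (Bspt.cons Y (Bspt.cons O (Bspt.cons R fun _ => K)))).2 ⟨_, L_hs a _, (s1_iff _ _ (by
      rintro (_ | i)
      exacts [L_hs a _, jL _])).2 (by
        simp only [S1, cs, Bspt.cons, e1, e2, e3, e4]
        exact fun k => b _ ⟨k.1.imp fun _ => And.left, k.2⟩)⟩
  rw [s0_iff] at f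
  exact ⟨u', f⟩

end

open Pool.Agent.H40.Bspt Pool.Agent.H40.Jz Pool.Agent.H40.Zt Classical

variable {M : Type} {E : M → M → Prop} (h : IsZF E) (S : BM E)
include h S

theorem BM.rel (y o : M) (l c : M → M → Prop) [D2 E l] [D2 E c] (z0 : ∃ z, E z o)
    (H : ∀ z, E z o → ∀ a, E a y → ∀ b, E b y → c a b → ∃ w, E w o ∧
      (∀ d, E d y → l z d → l w d) ∧ (l w a ∨ l w b)) : ∃ u, Sub E u y ∧
    (∀ a, E a y → ∀ b, E b y → c a b → E a u ∨ E b u) ∧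
      ∀ a, E a u → ∀ b, E b u → ∀ d, E d u → ∃ z, E z o ∧ l z a ∧ l z b ∧ l z d := by
  obtain ⟨L, hL⟩ := Zt.rel h l o y
  obtain ⟨K, hK⟩ := Zt.rel h c y y
  obtain ⟨u, a⟩ := S y o L K
  obtain ⟨a, b⟩ := a ⟨z0.imp fun _ a => ⟨a, rfl⟩, fun z a p b q d e =>
    (H z a p b q d ((hK _ _).1 e).2.2).imp fun w f => ⟨f.1, fun x g i =>
      (hL _ _).2 ⟨f.1, g, f.2.1 x g ((hL _ _).1 i).2.2⟩,
      f.2.2.imp (fun g => (hL _ _).2 ⟨f.1, b, g⟩) fun g => (hL _ _).2 ⟨f.1, d, g⟩⟩⟩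
  obtain ⟨v, hv⟩ := sep h (E · u) y
  refine ⟨v, fun z e => ((hv z).1 e).1, fun p e q f g => (a p e q f ((hK _ _).2 ⟨e, f, g⟩)).imp
    (fun i => (hv _).2 ⟨e, i⟩) fun i => (hv _).2 ⟨f, i⟩, fun p e q f r g => ?_⟩
  rw [hv] at e f g
  exact (b p e.2 q f.2 r g.2).imp fun z i => ⟨i.1, ((hL _ _).1 (i.2.1 e.1)).2.2,
    ((hL _ _).1 (i.2.2.1 f.1)).2.2, ((hL _ _).1 (i.2.2.2 g.1)).2.2⟩

theorem BM.bpi : BPI E := by
  rintro ⟨B, l, hl⟩ n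
  dsimp only at n ⊢
  obtain ⟨o, ho⟩ := sep h (· ≠ (⊤ : Ex E B).1) B
  have o1 : ∀ x : Ex E B, E x.1 o ↔ x ≠ ⊤ := fun x => by
    rw [ho, and_iff_right x.2]; exact Subtype.val_injective.ne_iff
  obtain ⟨u, u1, u2, u3⟩ := S.rel h B o (fun z a => App E l a z)
    (fun a b => ∀ z, E z B → App E l z a → App E l z b → z = (⊥ : Ex E B).1) ⟨_, (o1 ⊥).2 n⟩
    fun z a p b q d e => by
      lift z to Ex E B using ((ho z).1 a).1
      lift p to Ex E B using b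
      lift q to Ex E B using d
      have f : p ⊓ q = ⊥ := Subtype.ext (e _ (p ⊓ q).2 ((hl _ _).2 inf_le_left) ((hl _ _).2 inf_le_right))
      have g : ∀ w : Ex E B, ∀ d, E d B → App E l d z.1 → App E l d (z ⊔ w).1 := fun w d i j =>
        (hl ⟨d, i⟩ _).2 (((hl ⟨d, i⟩ _).1 j).trans le_sup_left)
      by_cases i : z ⊔ p = ⊤
      · refine ⟨_, (o1 (z ⊔ q)).2 fun j => (o1 z).1 a ?_, g q, Or.inr ((hl _ _).2 le_sup_right)⟩
        rw [← sup_bot_eq z, ← f, sup_inf_left, i, j, inf_idem]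
      · exact ⟨_, (o1 (z ⊔ p)).2 i, g p, Or.inl ((hl _ _).2 le_sup_right)⟩
  have v2 : ∀ x : Ex E B, E x.1 u ∨ E (xᶜ).1 u := fun x => u2 _ x.2 _ (xᶜ).2 fun z a b c =>
    congrArg Subtype.val (show (⟨z, a⟩ : Ex E B) = ⊥ from le_bot_iff.1 ((le_inf
      ((hl ⟨z, a⟩ _).1 b) ((hl ⟨z, a⟩ _).1 c)).trans (inf_compl_self x).le))
  have v3 : ∀ x y z : Ex E B, E x.1 u → E y.1 u → E z.1 u → x ⊔ y ⊔ z ≠ ⊤ := fun x y z a b c d => by
    obtain ⟨w, e, f, g, i⟩ := u3 _ a _ b _ c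
    lift w to Ex E B using ((ho w).1 e).1
    exact (o1 w).1 e (top_le_iff.1 (d ▸ sup_le (sup_le ((hl _ _).1 f) ((hl _ _).1 g)) ((hl _ _).1 i)))
  let J : Order.Ideal (Ex E B) := ⟨⟨{x | E x.1 u}, fun x y a b => (v2 y).resolve_right fun c =>
    v3 _ _ _ b b c (top_le_iff.1 (sup_compl_eq_top (x := y) ▸ sup_le_sup_right
      (a.trans le_sup_left) _))⟩, (v2 ⊥).elim (⟨_, ·⟩) (⟨_, ·⟩), fun x a y b => ⟨x ⊔ y,
        (v2 _).resolve_right fun c => v3 _ _ _ a b c sup_compl_eq_top, le_sup_left, le_sup_right⟩⟩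
  haveI : J.IsProper := Order.Ideal.isProper_of_notMem (p := ⊤) fun a => v3 _ _ _ a a a (by simp)
  exact ⟨u, J, Order.Ideal.isPrime_of_mem_or_compl_mem (v2 _), fun _ => Iff.rfl⟩

end Pool.Agent.H40.Gn
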