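import Pool.Agent.H40.G15

set_option autoImplicit false
set_option synthInstance.maxSize 2000

/-! Countable products of compact Hausdorff spaces under the ultrafilter property. -/

namespace Pool.Agent.H40.Gn

open Pool.Agent.H40.Bspt Pool.Agent.H40.Jz Pool.Agent.H40.Zt Classical

variable {M : Type} {E : M → M → Prop} (h : IsZF E)
include h

theorem met_t2 (ℛ : Reals E) {X T : M} (m : Metrizable ℛ X T) : Jz.T2 E X T := fun x y p q n => by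
  obtain ⟨δ, a, b, s, t, o⟩ := m
  obtain ⟨d, _, e⟩ := intl2_r ℛ a
  have := @tR2 _ _ ℛ d _
  simp only [← e, Subtype.forall, Subtype.mk.injEq] at b s t o
  have k : ∀ x, E x X → ∀ r, ∃ U, E U T ∧ ∀ z, E z U ↔ E z X ∧ d x z < r := fun x p r => by
    obtain ⟨U, u⟩ := sep h (fun z => d x z < r) X
    refine ⟨U, (o U).2 ⟨fun z c => ((u z).1 c).1, fun z c f => ⟨r - d x z, ?_, fun w g i =>
      (u w).2 ⟨g, ?_⟩⟩⟩, u⟩
    · linarith [((u z).1 f).2]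
    · linarith [t x p z c w g]
  have l : 0 < d x y := by
    have := t x p y q x p
    rw [(b x p x p).2 rfl, s y q x p] at this
    exact lt_of_le_of_ne (by linarith) fun c => n ((b x p y q).1 c.symm)
  obtain ⟨U, u, hu⟩ := k x p (d x y / 2)
  obtain ⟨V, v, hv⟩ := k y q (d x y / 2)
  refine ⟨U, V, u, v, (hu x).2 ⟨p, ?_⟩, (hv y).2 ⟨q, ?_⟩, fun z c f g => ?_⟩
  · rw [(b x p x p).2 rfl]; linarith
  · rw [(b y q y q).2 rfl]; linarith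
  · linarith [((hu z).1 f).2, ((hv z).1 g).2, t x p z c y q, s z c y q]

theorem pi_top {X T : Om E → M} {P S : M} (p : IsPi E X T P S) : IsTop E P S := by
  obtain ⟨e, he⟩ := h.emp
  refine ⟨fun U a => ((p.2 U).1 a).1, (p.2 P).2 ⟨fun _ => id, fun f _ => ⟨e, h.fin0 he,
    fun n V ⟨q, a, _⟩ => absurd a (he q), fun g a _ => a⟩⟩, fun U V W a b c => ?_, fun C W a b =>
      (p.2 W).2 ⟨fun z c => ((b z).1 c).elim fun U d => ((p.2 U).1 (a U d.1)).1 z d.2, fun f c =>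
        ((b f).1 c).elim fun U d => (((p.2 U).1 (a U d.1)).2 f d.2).imp fun B i =>
          ⟨i.1, i.2.1, fun g j k => (b g).2 ⟨U, d.1, i.2.2 g j k⟩⟩⟩⟩
  rw [p.2] at a b ⊢
  refine ⟨fun z d => a.1 z ((c z).1 d).1, fun f d => ?_⟩
  obtain ⟨A, a1, a2, a3⟩ := a.2 f ((c f).1 d).1
  obtain ⟨B, b1, b2, b3⟩ := b.2 f ((c f).1 d).2
  obtain ⟨D, d1, d2⟩ := h.finU' a1 b1
  exact ⟨D, d1, fun n V ⟨q, i, j⟩ => ((d2 q).1 i).elim (fun k => a2 n V ⟨q, k, j⟩)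
    fun k => b2 n V ⟨q, k, j⟩, fun g i j => (c g).2 ⟨a3 g i fun n V ⟨q, k, l⟩ =>
      j n V ⟨q, (d2 q).2 (Or.inl k), l⟩, b3 g i fun n V ⟨q, k, l⟩ => j n V ⟨q, (d2 q).2 (Or.inr k), l⟩⟩⟩

theorem BM.tych (S : BM E) :
    SeqProd E (fun X T => Compact E X T ∧ Jz.T2 E X T) (Compact E) := by
  intro X T P Q i j k p C c1 c2
  by_contra n
  obtain ⟨X', _, hX⟩ := intl_t h i
  obtain ⟨T', _, hT⟩ := intl_t h j
  have := @t1 _ E X' _
  have := @t1 _ E T' _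
  obtain ⟨Y, hY⟩ := h.power P
  obtain ⟨o, ho⟩ := sep h (fun z => ¬ ∃ D, Sub E D C ∧ IsFin E D ∧ ∀ x, E x z → ∃ U, E U D ∧ E x U) Y
  obtain ⟨u, -, u2, u3⟩ := S.rel h Y o (Sub E) (fun a b => ∀ f, E f P → E f a ∨ E f b)
    ⟨P, (ho P).2 ⟨(hY P).2 fun _ => id, n⟩⟩ fun z a x _ y _ e => by
      obtain ⟨v, hv⟩ := sep h (E · x) z
      obtain ⟨w, hw⟩ := sep h (E · y) z
      rw [ho, hY] at a
      by_cases f : E v o
      · exact ⟨v, f, fun d _ g s t => g s ((hv s).1 t).1, Or.inl fun s t => ((hv s).1 t).2⟩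
      refine ⟨w, (ho w).2 ⟨(hY w).2 fun s t => a.1 s ((hw s).1 t).1, fun ⟨B, b1, b2, b3⟩ => ?_⟩,
        fun d _ g s t => g s ((hw s).1 t).1, Or.inr fun s t => ((hw s).1 t).2⟩
      obtain ⟨A, a1, a2, a3⟩ := not_not.1 fun g =>
        f ((ho v).2 ⟨(hY v).2 fun s t => a.1 s ((hv s).1 t).1, g⟩)
      obtain ⟨D, d1, d2⟩ := h.finU' a2 b2
      exact a.2 ⟨D, fun U g => ((d2 U).1 g).elim (a1 U) (b1 U), d1, fun s t => (e s (a.1 s t)).elim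
        (fun g => (a3 s ((hv s).2 ⟨t, g⟩)).imp fun U l => ⟨(d2 U).2 (Or.inl l.1), l.2⟩)
        fun g => (b3 s ((hw s).2 ⟨t, g⟩)).imp fun U l => ⟨(d2 U).2 (Or.inr l.1), l.2⟩⟩
  let Bg : (M → Prop) → Prop := fun R => ∃ a, E a u ∧ ∀ f, E f P → E f a → R f
  have mo : ∀ {R R' : M → Prop}, Bg R → (∀ f, E f P → R f → R' f) → Bg R' := fun a b =>
    a.imp fun _ c => ⟨c.1, fun f d e => b f d (c.2 f d e)⟩
  have b1 : ∀ (R : M → Prop) [D1 E R], Bg R ∨ Bg fun f => ¬ R f := fun R _ => by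
    obtain ⟨v, hv⟩ := sep h R P
    have := @l1 _ E R _
    obtain ⟨w, hw⟩ := sep h (fun f => ¬ R f) P
    exact (u2 v ((hY v).2 fun s t => ((hv s).1 t).1) w ((hY w).2 fun s t => ((hw s).1 t).1)
      fun f a => (Classical.em (R f)).imp (fun b => (hv f).2 ⟨a, b⟩) fun b => (hw f).2 ⟨a, b⟩).imp
        (fun a => ⟨v, a, fun f _ b => ((hv f).1 b).2⟩) fun a => ⟨w, a, fun f _ b => ((hw f).1 b).2⟩
  have b2 : ∀ {R R' R'' : M → Prop} (U : M), E U C ∨ (∀ z, ¬ E z U) → Bg R → Bg R' → Bg R'' →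
      ¬ ∀ f, E f P → R f → R' f → R'' f → E f U := by
    rintro R R' R'' U e ⟨a, a1, a2⟩ ⟨b, b1, b2⟩ ⟨c, c1, c2⟩ d
    obtain ⟨z, z1, z2, z3, z4⟩ := u3 a a1 b b1 c c1
    rw [ho, hY] at z1
    have g : ∀ f, E f z → E f U := fun f g => d f (z1.1 f g) (a2 f (z1.1 f g) (z2 f g))
      (b2 f (z1.1 f g) (z3 f g)) (c2 f (z1.1 f g) (z4 f g))
    rcases e with e | e
    · obtain ⟨V, hV⟩ := h.pair U U
      simp only [or_self] at hV
      exact z1.2 ⟨V, fun s t => (hV s).1 t ▸ e, few_fin h (few_eq h U) fun s => (hV s).1,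
        fun f l => ⟨U, (hV U).2 rfl, g f l⟩⟩
    · exact z1.2 ⟨U, fun s t => absurd t (e s), h.fin0 e, fun f l => absurd (g f l) (e f)⟩
  obtain ⟨e, he⟩ := h.emp
  have b3 : ∀ (R : M → M → Prop) [D2 E R] (F : M), IsFin E F → (∀ x, E x F → Bg (R x)) →
      Bg fun f => ∀ x, E x F → R x f := fun R _ F a => by
    have := @l2 _ E R _
    refine finI h (fun F => (∀ x, E x F → ∃ a, E a u ∧ ∀ f, E f P → E f a → R x f) →
      ∃ a, E a u ∧ ∀ f, E f P → E f a → ∀ x, E x F → R x f) (fun z c _ => ?_)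
        (fun b y s _ c d f => ?_) F a
    · exact (b1 (· = e)).elim (mo · fun _ _ _ x l => absurd l (c x))
        (mo · fun _ _ _ x l => absurd l (c x))
    · exact (b1 fun f => ∀ x, E x s → R x f).resolve_right fun g => b2 e (Or.inr he) g
        (c fun x l => f x ((d x).2 (Or.inl l))) (f y ((d y).2 (Or.inr rfl))) fun q _ l m r =>
          absurd (fun x t => ((d x).1 t).elim (m x) fun v : x = y => v ▸ r) l
  let Lm : M → M → Prop := fun n x => E x (X' n) ∧ ∀ V, E V (T' n) → E x V →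
    ∃ a, E a u ∧ ∀ f, E f P → E f a → ∃ y, App E f n y ∧ E y V
  have l1 : ∀ n : Om E, ∃ x, Lm n.1 x := fun n => by_contra fun a => by
    obtain ⟨K, hK⟩ := sep h (fun V => ∃ a, E a u ∧ ∀ f, E f P → E f a →
      ¬ ∃ y, App E f n.1 y ∧ E y V) (T n)
    obtain ⟨D, d1, d2, d3⟩ := (k n).2.1 K (fun V b => ((hK V).1 b).1) fun x b => by
      obtain ⟨V, c, d, f⟩ : ∃ V, E V (T' n.1) ∧ E x V ∧
          ¬ Bg fun f => ∃ y, App E f n.1 y ∧ E y V := by_contra fun c =>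
        a ⟨x, hX n ▸ b, fun V d f => by_contra fun g => c ⟨V, d, f, g⟩⟩
      exact ⟨V, (hK V).2 ⟨hT n ▸ c, (b1 _).resolve_left f⟩, d⟩
    have := b3 (fun V f => ¬ ∃ y, App E f n.1 y ∧ E y V) D d2 fun V b => ((hK V).1 (d1 V b)).2
    refine b2 e (Or.inr he) this this this fun f b c _ _ => ?_
    obtain ⟨x, d, g⟩ := ((p.1 f).1 b).2 n
    obtain ⟨V, l, m⟩ := d3 x d
    exact absurd ⟨x, (g x).2 rfl, m⟩ (c V l)
  have l2 : ∀ (n : Om E) x y, Lm n.1 x → Lm n.1 y → x = y := fun n x y a b => by_contra fun c => by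
    obtain ⟨U, V, d1, d2, d3, d4, d5⟩ := (k n).2.2 x y (hX n ▸ a.1) (hX n ▸ b.1) c
    have := a.2 U (hT n ▸ d1) d3
    refine b2 e (Or.inr he) this this (b.2 V (hT n ▸ d2) d4) fun f l ⟨s, s1, s2⟩ _ ⟨t, t1, t2⟩ => ?_
    obtain ⟨z, z1, z2⟩ := ((p.1 f).1 l).2 n
    exact absurd ((z2 t).1 t1 ▸ t2) (d5 z z1 ((z2 s).1 s1 ▸ s2))
  obtain ⟨w, hw⟩ := h.omega'
  obtain ⟨B, hB⟩ : ∃ B, ∀ n : Om E, Sub E (X n) B := by
    obtain ⟨f, a⟩ := i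
    obtain ⟨f1, a1⟩ := h.union f
    obtain ⟨f2, a2⟩ := h.union f1
    obtain ⟨f3, a3⟩ := h.union f2
    refine ⟨f3, fun n x b => ?_⟩
    obtain ⟨q, c, d⟩ := (a n _).2 rfl
    obtain ⟨s, hs⟩ := h.pair n.1 (X n)
    exact (a3 x).2 ⟨_, (a2 _).2 ⟨s, (a1 s).2 ⟨q, c, (d s).2 (Or.inr hs)⟩, (hs _).2 (Or.inr rfl)⟩, b⟩
  obtain ⟨Z, hZ⟩ := ex_prod h w B
  obtain ⟨f, hf⟩ := sep h (fun q => ∃ n x, q = pr E n x ∧ IsNat E n ∧ Lm n x) Z
  have f1 : ∀ (n : Om E) x, App E f n.1 x ↔ Lm n.1 x := fun n x => by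
    rw [app_pr h, hf, ex_pr h (Q := fun n x => IsNat E n ∧ Lm n x)]
    exact ⟨fun a => a.2.2, fun a => ⟨hZ _ _ ((hw _).2 n.2) (hB n x (hX n ▸ a.1)), n.2, a⟩⟩
  have f2 : E f P := (p.1 f).2 ⟨fun q a => by
    obtain ⟨n, x, rfl, b, -⟩ := ((hf q).1 a).2
    exact ⟨⟨n, b⟩, x, pr_sp h _ _⟩, fun n => (l1 n).imp fun x a =>
      ⟨hX n ▸ a.1, fun y => (f1 n y).trans ⟨(l2 n y x · a), fun b => b ▸ a⟩⟩⟩
  obtain ⟨U, u4, u5⟩ := c2 f f2
  obtain ⟨F, g1, g2, g3⟩ := ((p.2 U).1 (c1 U u4)).2 f u5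
  have := b3 (fun q g => ∀ n, IsNat E n → ∀ V, IsPair E q n V → ∃ y, App E g n y ∧ E y V) F g1
    fun q a => by
      by_cases b : ∃ n, IsNat E n ∧ ∃ V, IsPair E q n V
      · obtain ⟨n, b, V, c⟩ := b
        obtain ⟨d, x, l, m⟩ := g2 ⟨n, b⟩ V ⟨q, a, c⟩
        refine mo (((f1 ⟨n, b⟩ x).1 l).2 V (hT ⟨n, b⟩ ▸ d) m) fun g _ r m _ W s => ?_
        obtain ⟨rfl, rfl⟩ := h.pair_inj c s
        exact r
      · exact (b1 (· = e)).elim (mo · fun _ _ _ n l V m => absurd ⟨n, l, V, m⟩ b)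
          (mo · fun _ _ _ n l V m => absurd ⟨n, l, V, m⟩ b)
  exact b2 U (Or.inl u4) this this this fun g a b _ _ =>
    g3 g a fun n V ⟨q, c, d⟩ => b q c n.1 n.2 V d

end Pool.Agent.H40.Gn
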