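import Pool.Agent.H40.G1

set_option autoImplicit false

/-! The real line of a model with standard natural numbers. -/

namespace Pool.Agent.H40.Gn

open Set Pool.Agent.H40.Bspt Pool.Agent.H40.Jz Pool.Agent.H40.Zt

theorem rat_near {r : ℝ} {u : Set ℝ} (h : u ∈ nhds r) :
    (∃ a : ℚ, (a : ℝ) < r ∧ (a : ℝ) ∈ u) ∧ ∃ a : ℚ, r < a ∧ (a : ℝ) ∈ u := by
  obtain ⟨l, m, ⟨a, b⟩, c⟩ := mem_nhds_iff_exists_Ioo_subset.1 h
  obtain ⟨p, d, e⟩ := exists_rat_btwn a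
  obtain ⟨q, f, g⟩ := exists_rat_btwn b
  exact ⟨⟨p, e, c ⟨d, e.trans b⟩⟩, q, f, c ⟨a.trans f, g⟩⟩

theorem r_add {q : ℚ} {r s : ℝ} : (∃ a b : ℚ, (a : ℝ) < r ∧ (b : ℝ) < s ∧ q < a + b) ↔ q < r + s := by
  refine ⟨fun ⟨a, b, c, d, e⟩ => ?_, fun h => ?_⟩
  · have : (q : ℝ) < a + b := by exact_mod_cast e
    linarith
  · obtain ⟨a, c, d⟩ := exists_rat_btwn (show q - s < r by linarith)
    obtain ⟨b, e, f⟩ := exists_rat_btwn (show (q : ℝ) - a < s by linarith)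
    exact ⟨a, b, d, f, by exact_mod_cast (show (q : ℝ) < a + b by linarith)⟩

theorem r_mul {q : ℚ} {r s : ℝ} : (∃ a a' b b' : ℚ, ((a : ℝ) < r ∧ ¬ (a' : ℝ) < r) ∧
    ((b : ℝ) < s ∧ ¬ (b' : ℝ) < s) ∧ (q < a * b ∧ q < a * b') ∧ q < a' * b ∧ q < a' * b') ↔
      q < r * s := by
  have k : ∀ {a a' r s t : ℝ}, a < r → ¬ a' < r → t < s * a → t < s * a' → t < s * r :=
    fun {a a' r s t} h1 h2 h3 h4 => by
      rcases le_total 0 s with h | h <;> nlinarith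
  refine ⟨fun ⟨a, a', b, b', c, d, e, f⟩ => ?_, fun h => ?_⟩
  · rw [mul_comm]
    refine k c.1 c.2 ?_ ?_ <;> rw [mul_comm] <;> refine k d.1 d.2 ?_ ?_
    exacts [by exact_mod_cast e.1, by exact_mod_cast e.2, by exact_mod_cast f.1, by exact_mod_cast f.2]
  · obtain ⟨u, hu, v, hv, c⟩ := mem_nhds_prod_iff.1 ((isOpen_lt (f := fun _ : ℝ × ℝ => (q : ℝ))
      continuous_const (continuous_fst.mul continuous_snd)).mem_nhds (x := (r, s)) h)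
    obtain ⟨⟨a, a1, a2⟩, a', a3, a4⟩ := rat_near hu
    obtain ⟨⟨b, b1, b2⟩, b', b3, b4⟩ := rat_near hv
    have l : ∀ {a b : ℚ}, (a : ℝ) ∈ u → (b : ℝ) ∈ v → q < a * b := fun {a b} x y => by
      exact_mod_cast (show (q : ℝ) < a * b from c (mk_mem_prod x y))
    exact ⟨a, a', b, b', ⟨a1, a3.not_gt⟩, ⟨b1, b3.not_gt⟩, ⟨l a2 b2, l a2 b4⟩, l a4 b2, l a4 b4⟩

theorem r_inv {q : ℚ} {r : ℝ} (h : 0 < r) : (∃ a : ℚ, ¬ (a : ℝ) < r ∧ q * a < 1) ↔ q < r⁻¹ := by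
  rw [← one_div, lt_div_iff₀ h]
  refine ⟨fun ⟨a, b, c⟩ => ?_, fun e => ?_⟩
  · have : (q : ℝ) * a < 1 := by exact_mod_cast c
    rcases le_total 0 (q : ℝ) with d | d <;> nlinarith
  · obtain ⟨-, a, b, c⟩ := rat_near ((isOpen_lt (f := fun x : ℝ => (q : ℝ) * x) (g := fun _ => 1)
      (continuous_const.mul continuous_id) continuous_const).mem_nhds (x := r) e)
    exact ⟨a, b.not_gt, by exact_mod_cast (show (q : ℝ) * a < 1 from c)⟩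

variable {M : Type} {E : M → M → Prop}

instance {α : Type} {s t u r : (α → M) → M} [T E s] [T E t] [T E u] [T E r] :
    D E fun v => Op E (s v) (t v) (u v) (r v) := l4 (D.df (self := by unfold Op; infer_instance))

structure QM (E : M → M → Prop) where
  zf : IsZF E
  ν : ℕ → M
  num : Numer E ν
  q : ℚ → M
  W : M
  inj : Function.Injective q
  w : ∀ z, E z W ↔ ∃ a, z = q a
  f : Fin 3 → M
  fa : ∀ x a b, Op E (f 0) (q x) (q a) (q b) ↔ x < a + b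
  fm : ∀ x a b, Op E (f 1) (q x) (q a) (q b) ↔ x < a * b
  fi : ∀ x a b, Op E (f 2) (q x) (q a) (q b) ↔ x * a < b

namespace QM

variable (Q : QM E)

theorem exW {P : M → Prop} : (∃ a, E a Q.W ∧ P a) ↔ ∃ a, P (Q.q a) :=
  ⟨fun ⟨_, b, c⟩ => ((Q.w _).1 b).imp fun _ e => by rwa [e] at c,
    fun ⟨a, b⟩ => ⟨_, (Q.w _).2 ⟨a, rfl⟩, b⟩⟩

theorem allW {P : M → Prop} : (∀ a, E a Q.W → P a) ↔ ∀ a, P (Q.q a) :=
  ⟨fun h a => h _ ((Q.w _).2 ⟨a, rfl⟩), fun h _ b => ((Q.w _).1 b).elim fun a e => e ▸ h a⟩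

theorem subW {c d : M} (h : Sub E c Q.W) (k : ∀ a, E (Q.q a) c → E (Q.q a) d) : Sub E c d :=
  fun z e => (Q.allW (P := fun z => E z c → E z d)).2 k z (h z e) e

def Cut (c : M) (r : ℝ) : Prop := Sub E c Q.W ∧ ∀ a : ℚ, E (Q.q a) c ↔ (a : ℝ) < r

variable {Q}

theorem Cut.uq {c d : M} {r : ℝ} (a : Q.Cut c r) (b : Q.Cut d r) : c = d :=
  Q.zf.ext _ _ fun z => ⟨Q.subW a.1 (fun x e => (b.2 x).2 ((a.2 x).1 e)) z,
    Q.subW b.1 (fun x e => (a.2 x).2 ((b.2 x).1 e)) z⟩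

theorem Cut.eq {c : M} {r s : ℝ} (a : Q.Cut c r) (b : Q.Cut c s) : r = s :=
  eq_of_forall_rat_lt_iff_lt fun x => (a.2 x).symm.trans (b.2 x)

theorem mk_cut (P : M → Prop) [D1 E P] {r : ℝ} (h : ∀ a : ℚ, P (Q.q a) ↔ (a : ℝ) < r) :
    Q.Cut (st E Q.W P) r :=
  ⟨fun _ a => ((mem_st Q.zf).1 a).1, fun a => (mem_st Q.zf).trans
    ((and_iff_right ((Q.w _).2 ⟨a, rfl⟩)).trans (h a))⟩

variable (Q)

def Ad (x y z : M) : Prop := ∃ a, E a Q.W ∧ ∃ b, E b Q.W ∧ E a x ∧ E b y ∧ Op E (Q.f 0) z a b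

def Mu (x y z : M) : Prop := ∃ a, E a Q.W ∧ ∃ a', E a' Q.W ∧ ∃ b, E b Q.W ∧ ∃ b', E b' Q.W ∧
  (E a x ∧ ¬ E a' x) ∧ (E b y ∧ ¬ E b' y) ∧ (Op E (Q.f 1) z a b ∧ Op E (Q.f 1) z a b') ∧
    Op E (Q.f 1) z a' b ∧ Op E (Q.f 1) z a' b'

instance {α : Type} {s t u : (α → M) → M} [T E s] [T E t] [T E u] :
    D E fun v => Q.Ad (s v) (t v) (u v) := @l3 _ E Q.Ad (by unfold Ad; infer_instance) _ _ _ _ _ _ _
instance {α : Type} {s t u : (α → M) → M} [T E s] [T E t] [T E u] :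
    D E fun v => Q.Mu (s v) (t v) (u v) := @l3 _ E Q.Mu (by unfold Mu; infer_instance) _ _ _ _ _ _ _

theorem ad {x y : M} {r s : ℝ} (a : Q.Cut x r) (b : Q.Cut y s) (z : ℚ) :
    Q.Ad x y (Q.q z) ↔ z < r + s := by
  simp only [Ad, exW, a.2, b.2, fa, r_add]

theorem mu {x y : M} {r s : ℝ} (a : Q.Cut x r) (b : Q.Cut y s) (z : ℚ) :
    Q.Mu x y (Q.q z) ↔ z < r * s := by
  simp only [Mu, exW, a.2, b.2, fm, r_mul]

theorem cut_rat (r : ℚ) : ∃ c, Q.Cut c r :=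
  ⟨_, mk_cut (fun z => Op E (Q.f 0) z (Q.q r) (Q.q 0)) fun a => by simp [fa]⟩

def K : Subfield ℝ where
  carrier := {r | ∃ c, Q.Cut c r}
  mul_mem' := fun ⟨x, a⟩ ⟨y, b⟩ => ⟨_, mk_cut (Q.Mu x y) (Q.mu a b)⟩
  add_mem' := fun ⟨x, a⟩ ⟨y, b⟩ => ⟨_, mk_cut (Q.Ad x y) (Q.ad a b)⟩
  one_mem' := by simpa using Q.cut_rat 1
  zero_mem' := by simpa using Q.cut_rat 0
  neg_mem' := fun {r} ⟨x, a⟩ => by
    obtain ⟨y, b⟩ := Q.cut_rat (-1)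
    exact ⟨_, mk_cut (Q.Mu x y) fun z => (Q.mu a b z).trans (by simp)⟩
  inv_mem' := by
    obtain ⟨y, b⟩ := Q.cut_rat (-1)
    have n : ∀ r, (∃ c, Q.Cut c r) → ∃ c, Q.Cut c (-r) := fun r ⟨x, a⟩ =>
      ⟨_, mk_cut (Q.Mu x y) fun z => (Q.mu a b z).trans (by simp)⟩
    have p : ∀ r, 0 < r → (∃ c, Q.Cut c r) → ∃ c, Q.Cut c r⁻¹ := fun r h ⟨x, a⟩ =>
      ⟨_, mk_cut (fun z => ∃ a, E a Q.W ∧ ¬ E a x ∧ Op E (Q.f 2) z a (Q.q 1)) fun z => by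
        simp only [exW, a.2, fi, r_inv h]⟩
    intro r h
    rcases lt_trichotomy r 0 with c | rfl | c
    · simpa using n _ (p _ (neg_pos.2 c) (n r h))
    · simpa using h
    · exact p r c h

def Lt (a b : M) : Prop := Op E (Q.f 0) a b (Q.q 0)

instance {α : Type} {s t : (α → M) → M} [T E s] [T E t] : D E fun v => Q.Lt (s v) (t v) := by
  unfold Lt; infer_instance

theorem lt {a b : ℚ} : Q.Lt (Q.q a) (Q.q b) ↔ a < b := by simp [Lt, fa]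

theorem of_cut {c : M} (h0 : Sub E c Q.W) (h1 : ∃ a, E (Q.q a) c) (h2 : ∃ a, ¬ E (Q.q a) c)
    (h3 : ∀ a b, b < a → E (Q.q a) c → E (Q.q b) c) (h4 : ∀ a, E (Q.q a) c → ∃ b, a < b ∧ E (Q.q b) c) :
    ∃ r, Q.Cut c r := by
  obtain ⟨a, h1⟩ := h1
  obtain ⟨b, h2⟩ := h2
  have bd : BddAbove ((↑) '' {a : ℚ | E (Q.q a) c} : Set ℝ) := ⟨b, by
    rintro _ ⟨x, d, rfl⟩
    exact_mod_cast not_lt.1 fun e => h2 (h3 x b e d)⟩
  refine ⟨sSup ((↑) '' {a : ℚ | E (Q.q a) c}), h0, fun x => ?_⟩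
  rw [lt_csSup_iff bd ⟨_, a, h1, rfl⟩]
  refine ⟨fun d => (h4 x d).elim fun y e => ⟨_, ⟨y, e.2, rfl⟩, by exact_mod_cast e.1⟩, ?_⟩
  rintro ⟨_, ⟨y, d, rfl⟩, e⟩
  exact h3 y x (by exact_mod_cast e) d

theorem ex_R : ∃ R, ∀ c, E c R ↔ ∃ r, Q.Cut c r := by
  obtain ⟨P, hP⟩ := Q.zf.power Q.W
  refine (sep Q.zf (fun c => (∃ a, E a Q.W ∧ E a c) ∧ (∃ a, E a Q.W ∧ ¬ E a c) ∧
    (∀ a, E a Q.W → ∀ b, E b Q.W → Q.Lt b a → E a c → E b c) ∧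
    ∀ a, E a Q.W → E a c → ∃ b, E b Q.W ∧ Q.Lt a b ∧ E b c) P).imp fun R h c => ?_
  simp only [h, hP, exW, allW, lt]
  refine ⟨fun ⟨a, b, c, d, e⟩ => Q.of_cut a b c d e, fun ⟨r, a, b⟩ => ⟨a, ?_⟩⟩
  simp only [b]
  refine ⟨(exists_rat_lt r), (exists_rat_gt r).imp fun _ e => e.not_gt, fun x y c d =>
    lt_trans (by exact_mod_cast c) d, fun x c => (exists_rat_btwn c).imp fun y d =>
      ⟨by exact_mod_cast d.1, d.2⟩⟩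

noncomputable def R : M := Q.ex_R.choose

theorem mem_R {c : M} : E c Q.R ↔ ∃ r, Q.Cut c r := Q.ex_R.choose_spec c

noncomputable def rE : Ex E Q.R ≃ Q.K := Equiv.ofBijective
  (fun x => ⟨(Q.mem_R.1 x.2).choose, Exists.intro _ (Q.mem_R.1 x.2).choose_spec⟩)
  ⟨fun x y e => Subtype.ext ((Q.mem_R.1 x.2).choose_spec.uq
      (by rw [show (Q.mem_R.1 x.2).choose = (Q.mem_R.1 y.2).choose from Subtype.ext_iff.1 e]
          exact (Q.mem_R.1 y.2).choose_spec)),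
    fun ⟨r, h⟩ => Exists.elim h fun c a => ⟨⟨c, Q.mem_R.2 ⟨r, a⟩⟩,
      Subtype.ext (Cut.eq (Q.mem_R.1 (Q.mem_R.2 ⟨r, a⟩)).choose_spec a)⟩⟩

theorem rE_cut (x : Ex E Q.R) : Q.Cut x.1 (Q.rE x) := (Q.mem_R.1 x.2).choose_spec

theorem intl2 (Φ : M → M → M → Prop) [D3 E Φ] (φ : Ex E Q.R → Ex E Q.R → Ex E Q.R)
    (h : ∀ x y (z : ℚ), Φ x.1 y.1 (Q.q z) ↔ (z : ℝ) < Q.rE (φ x y)) :
    Intl2 E fun x y => (φ x y).1 := by
  have := @l3 _ E Φ _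
  obtain ⟨P, hP⟩ := Q.zf.prod Q.R Q.R
  obtain ⟨f, hf⟩ := rel Q.zf (fun p z => ∃ x y, IsPair E p x y ∧ ∀ a, E a Q.W → (E a z ↔ Φ x y a))
    P Q.R
  refine ⟨f, fun x y z => ⟨fun ⟨p, a, b⟩ => ?_, fun e => ⟨_, pr_sp Q.zf _ _, (hf _ _).2
    ⟨(hP _).2 ⟨_, _, x.2, y.2, pr_sp Q.zf _ _⟩, e ▸ (φ x y).2, _, _, pr_sp Q.zf _ _,
      Q.allW.2 fun a => by rw [e, h, (Q.rE_cut _).2]⟩⟩⟩⟩
  obtain ⟨-, c, x', y', d, e⟩ := (hf _ _).1 b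
  obtain ⟨rfl, rfl⟩ := Q.zf.pair_inj a d
  exact Cut.uq ⟨(Q.rE_cut ⟨z, c⟩).1, fun a => (Q.allW.1 e a).trans (h x y a)⟩ (Q.rE_cut _)

noncomputable def reals : Reals E :=
  letI := Q.rE.field
  letI := LinearOrder.lift' Q.rE Q.rE.injective
  haveI : IsStrictOrderedRing (Ex E Q.R) :=
    Function.Injective.isStrictOrderedRing Q.rE (map_zero Q.rE.ringEquiv) (map_one Q.rE.ringEquiv)
      (map_add Q.rE.ringEquiv) (map_mul Q.rE.ringEquiv) Iff.rfl Iff.rfl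
  { R := Q.R
    add := Q.intl2 Q.Ad _ fun x y z => (Q.ad (Q.rE_cut x) (Q.rE_cut y) z).trans
      (by rw [show Q.rE (x + y) = Q.rE x + Q.rE y from map_add Q.rE.ringEquiv x y]; rfl)
    mul := Q.intl2 Q.Mu _ fun x y z => (Q.mu (Q.rE_cut x) (Q.rE_cut y) z).trans
      (by rw [show Q.rE (x * y) = Q.rE x * Q.rE y from map_mul Q.rE.ringEquiv x y]; rfl)
    le := (rel Q.zf (Sub E) Q.R Q.R).imp fun l h x y => by
      rw [h, and_iff_right x.2, and_iff_right y.2]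
      show _ ↔ (Q.rE x : ℝ) ≤ Q.rE y
      exact ⟨fun e => le_of_forall_rat_lt_imp_le fun a b =>
        (((Q.rE_cut y).2 a).1 (e _ (((Q.rE_cut x).2 a).2 b))).le, fun e => Q.subW (Q.rE_cut x).1
          fun a b => ((Q.rE_cut y).2 a).2 ((((Q.rE_cut x).2 a).1 b).trans_le e)⟩
    compl := fun S h1 h2 => by
      let e : Ex E Q.R → ℝ := fun x => Q.rE x
      have bd : BddAbove (e '' {x | E x.1 S}) := Monotone.map_bddAbove (f := e) (fun _ _ h => h) h2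
      have c := mk_cut (Q := Q) (fun z => ∃ x, E x S ∧ E x Q.R ∧ E z x)
        (r := sSup (e '' {x | E x.1 S})) fun a => by
          rw [lt_csSup_iff bd (h1.image e)]
          exact ⟨fun ⟨x, b, c, d⟩ => ⟨_, ⟨⟨x, c⟩, b, rfl⟩, ((Q.rE_cut ⟨x, c⟩).2 a).1 d⟩,
            fun ⟨_, ⟨x, b, rfl⟩, d⟩ => ⟨x.1, b, x.2, ((Q.rE_cut x).2 a).2 d⟩⟩
      have d := (Q.rE_cut ⟨_, Q.mem_R.2 ⟨_, c⟩⟩).eq c
      exact ⟨⟨_, Q.mem_R.2 ⟨_, c⟩⟩, fun x hx => (le_csSup bd ⟨x, hx, rfl⟩).trans d.ge,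
        fun x hx => d.le.trans (csSup_le (h1.image e) (by rintro _ ⟨y, a, rfl⟩; exact hx a))⟩ }

noncomputable def ρ : Ex E Q.reals.R →+* ℝ :=
  Q.K.subtype.comp (Q.rE.ringEquiv : Ex E Q.reals.R ≃+* Q.K).toRingHom

theorem ρ_cut (x : Ex E Q.reals.R) : Q.Cut x.1 (Q.ρ x) := Q.rE_cut x

theorem ρ_lt {x y : Ex E Q.reals.R} : x < y ↔ Q.ρ x < Q.ρ y := Iff.rfl

theorem mem_reals {c : M} : E c Q.reals.R ↔ ∃ r, Q.Cut c r := Q.mem_R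

end QM

end Pool.Agent.H40.Gn
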