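import Pool.Agent.H40.G2

set_option autoImplicit false

/-! Finite support forcing and the basic Cohen model. -/

namespace Pool.Agent.H40.Gn

open Pool.Agent.H42.ZF Pool.Agent.H40.Js Set Filter
open Pool.Agent.H40.Bspt (Fm IsZF)

structure FS (J : Type) {S : Type} (Pos : Set S → Prop) where
  f : J → Set S
  pos : ∀ j, Pos (f j)
  fin : {j | f j ≠ univ}.Finite

section
variable {J S : Type} {Pos : Set S → Prop}

theorem FS.ext' {p q : FS J Pos} (h : p.f = q.f) : p = q := by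
  cases p; cases q; cases h; rfl

instance : Preorder (FS J Pos) where
  le q p := ∀ j, q.f j ⊆ p.f j
  le_refl _ _ := Subset.rfl
  le_trans _ _ _ a b j := (a j).trans (b j)

theorem ex_inf {p q : FS J Pos} (h : ∀ j, Pos (p.f j ∩ q.f j)) : ∃ r, r ≤ p ∧ r ≤ q :=
  ⟨⟨fun j => p.f j ∩ q.f j, h, (p.fin.union q.fin).subset fun j a => by
    by_contra c
    simp_all⟩, fun _ => inter_subset_left, fun _ => inter_subset_right⟩

theorem ex_upd (p : FS J Pos) (j : J) {s : Set S} (h : Pos s) :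
    ∃ q : FS J Pos, q.f j = s ∧ ∀ k, k ≠ j → q.f k = p.f k := by
  classical
  exact ⟨⟨Function.update p.f j s, fun k => by by_cases e : k = j <;> simp [e, h, p.pos],
    (p.fin.insert j).subset fun k a => by by_cases e : k = j <;> simp_all⟩, by simp,
    fun k e => by simp [e]⟩

theorem ex_shr (p : FS J Pos) (j : J) {s : Set S} (h : Pos (p.f j ∩ s)) :
    ∃ q ≤ p, q.f j ⊆ s := by
  obtain ⟨q, a, b⟩ := ex_upd p j h
  refine ⟨q, fun k => ?_, a ▸ inter_subset_right⟩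
  by_cases e : k = j
  exacts [e ▸ a ▸ inter_subset_left, (b k e).subset]

def gen (j : J) (a : Set S) : Set (FS J Pos) := {p | p.f j ⊆ a}

instance (j : J) (a : Set S) : C fun U : Ult (FS J Pos) => gen j a ∈ U.U :=
  ⟨cl_set fun _ _ h h' => (h j).trans h'⟩

theorem gen_of {p : FS J Pos} {j : J} {a : Set S} (h : p.f j ⊆ a) :
    Frc p fun U => gen j a ∈ U.U := fun _ hU => mem_of_superset hU fun _ e => (e j).trans h

theorem gen_mono {U : Ult (FS J Pos)} {j : J} {a b : Set S} (h : gen j a ∈ U.U) (e : a ⊆ b) :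
    gen j b ∈ U.U := mem_of_superset h fun _ c => c.trans e

theorem gen_ex {U : Ult (FS J Pos)} {j : J} {a b : Set S} (h : gen j a ∈ U.U) (e : gen j b ∈ U.U) :
    ∃ s, Pos s ∧ s ⊆ a ∩ b :=
  let ⟨p, c, d⟩ := Filter.nonempty_of_mem (inter_mem h e)
  ⟨_, p.pos j, subset_inter c d⟩

end

section
variable {P : Type} [Preorder P] {Γ : Type} [Group Γ] [MulAction Γ P] [Mo Γ P] [NF Γ]

def qN (q : ℚ) : Nm P := natN (Denumerable.eqv ℚ q)

theorem qN_inj {a b : ℚ} {U : Ult P} (h : mk U (qN a) = mk U (qN b)) : a = b :=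
  (Denumerable.eqv ℚ).injective (natN_inj h)

def tN (t : ℚ × ℚ × ℚ) : Nm P := kpair (kpair (qN t.1) (qN t.2.1)) (qN t.2.2)

def rl : Fin 3 → Set (ℚ × ℚ × ℚ) :=
  ![{t | t.1 < t.2.1 + t.2.2}, {t | t.1 < t.2.1 * t.2.2}, {t | t.1 * t.2.1 < t.2.2}]

def bs {B : Type} (ν : B → Nm P) : (ℕ ⊕ Option (Fin 3)) ⊕ B → Nm P :=
  Sum.elim (Sum.elim natN fun o => o.elim (setN natN univ) fun k => setN tN (rl k)) ν

theorem bs_hs {B : Type} {ν : B → Nm P} (h : ∀ b, HS Γ (ν b)) : ∀ b, HS Γ (bs ν b) := by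
  rintro ((n | _ | k) | b)
  exacts [hs_nat n, (ck_set (f := natN) _ fun _ _ => ck_nat _).1, (ck_set (f := tN) _ fun _ _ =>
    ck_pair (ck_pair (ck_nat _) (ck_nat _)) (ck_nat _)).1, h b]

theorem inv_app {g : Γ} {y a b : Nm P} (hy : Eqv (act g y) y) (ha : Ck Γ a) (hb : Ck Γ b)
    {U : Ult P} : App (E _) (mk (mv g U) y) (mk _ a) (mk _ b) ↔
      App (E U) (mk U y) (mk U a) (mk U b) := by
  rw [← hy, ← ha.2 g, ← hb.2 g, app_iff]

variable {B : Type} {ν : B → Nm P} (G : GM Γ (bs ν))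

omit [Mo Γ P]

def GM.n (n : ℕ) : G.H := G.c (.inl (.inl n))

theorem GM.jn (n : ℕ) : G.j (G.n n) = H42.ZF.mk G.U (natN n) := G.jc _

theorem GM.w (z : G.H) : G.R z (G.c (.inl (.inr none))) ↔ ∃ n, z = G.n n :=
  (G.set (f := natN) (s := univ) rfl).trans (exists_congr fun n => by simp [G.inj, G.jn])

theorem GM.num : Jz.Numer G.R G.n := numer G.zf (fun n z => by
  simp only [G.mem, G.inj, G.jn]; exact mem_natN) G.w

theorem GM.op (k : Fin 3) (x a b : ℚ) : Jz.Op G.R (G.c (.inl (.inr (some k))))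
    (G.n (Denumerable.eqv ℚ x)) (G.n (Denumerable.eqv ℚ a)) (G.n (Denumerable.eqv ℚ b)) ↔
      (x, a, b) ∈ rl k := by
  have e : ∀ p, Bspt.IsPair G.R p (G.n (Denumerable.eqv ℚ x)) (G.n (Denumerable.eqv ℚ a)) →
      (Bspt.App G.R (G.c (.inl (.inr (some k)))) p (G.n (Denumerable.eqv ℚ b)) ↔ (x, a, b) ∈ rl k) := by
    intro p h
    rw [G.pair, G.jn, G.jn] at h
    rw [G.app, G.jn, G.jc, h.uniq (isPair_kpair _ _)]
    refine ⟨fun ⟨u, c, d⟩ => ?_, fun c => ⟨_, setN_intro tN c _, isPair_kpair _ _⟩⟩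
    rw [d.uniq (isPair_kpair _ _)] at c
    refine setN_cases (f := tN) (z := tN (x, a, b)) (R := fun _ => (x, a, b) ∈ rl k)
      (fun t V c e => ?_) _ c
    obtain ⟨e1, e2⟩ := (e ▸ isPair_kpair _ _ : IsPair (E V) (H42.ZF.mk V (tN t)) _ _).inj
      (isPair_kpair _ _)
    obtain ⟨e3, e4⟩ := (e1 ▸ isPair_kpair _ _ :
      IsPair (E V) (H42.ZF.mk V (kpair (qN t.1) (qN t.2.1))) _ _).inj (isPair_kpair _ _)
    rw [show x = _ from qN_inj e3, show a = _ from qN_inj e4, show b = _ from qN_inj e2]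
    exact c
  exact ⟨fun ⟨p, c, d⟩ => (e p c).1 d, fun c => ⟨_, Zt.pr_sp G.zf _ _, (e _ (Zt.pr_sp G.zf _ _)).2 c⟩⟩

def GM.qm : QM G.R where
  zf := G.zf
  ν := G.n
  num := G.num
  q a := G.n (Denumerable.eqv ℚ a)
  W := G.c (.inl (.inr none))
  inj := (nu_inj G.zf G.num).comp (Denumerable.eqv ℚ).injective
  w z := (G.w z).trans (Denumerable.eqv ℚ).surjective.exists
  f k := G.c (.inl (.inr (some k)))
  fa := G.op 0
  fm := G.op 1
  fi := G.op 2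

end

def Pc (s : Set ℝ) : Prop := ∃ a b, a < b ∧ Ioo a b ⊆ s

abbrev PC := FS ℕ Pc

abbrev GP := Equiv.Perm ℕ

instance : MulAction GP PC where
  smul g p := ⟨fun j => p.f (g⁻¹ j), fun _ => p.pos _, (p.fin.image g).subset fun j a =>
    ⟨_, a, by simp⟩⟩
  one_smul _ := rfl
  mul_smul _ _ _ := rfl

instance : Mo GP PC := ⟨fun _ _ _ h _ => h _⟩

instance nfP : NF GP := suppNF GP (univ : Set ℕ) fun _ _ _ => trivial

instance : Nonempty PC := ⟨⟨fun _ => univ, fun _ => ⟨0, 1, one_pos, subset_univ _⟩, by simp⟩⟩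

def aN (i : ℕ) : Nm PC := fam qN fun q U => gen i (Ioi (q : ℝ)) ∈ U.U

theorem aN_act (g : GP) (i : ℕ) : Eqv (act g (aN i)) (aN (g i)) :=
  fam_act (fun _ => nat_act g _) fun q U => by
    rw [mem_mv]
    refine iff_of_eq (congrArg (· ∈ U.U) (Set.ext fun p => ?_))
    show p.f (g⁻¹ (g i)) ⊆ _ ↔ _
    simp [gen]

def cb : Option ℕ → Nm PC := fun o => o.elim (setN aN univ) aN

theorem cb_hs : ∀ b, HS GP (cb b) := by
  have h : ∀ i, HS GP (aN i) := fun i => hs_fam (supp_iff.2 ⟨{i}, finite_singleton _,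
    subset_univ _, fun g e U => (aN_act g i U).trans (by rw [show g i = i from e i rfl]; rfl)⟩)
      fun _ => hs_nat _
  rintro (_ | i)
  · exact hs_fam (Eventually.of_forall fun g U => (setN_act g (aN_act g) _ U).trans rfl) fun _ => h _
  · exact h i

def Iv (F : Finset ℕ) (y : Nm PC) : Prop := ∀ g : GP, (∀ i ∈ F, g i = i) → Eqv (act g y) y

def DC (τ : Nm PC) : (ℕ × Finset ℕ) ⊕ (ℕ × ℚ) ⊕ (ℚ × ℚ) → Set PC
  | .inl t => {s | t.1 ∈ t.2 ∨ (∀ y, Iv t.2 y → Frc s fun U => mk U τ ≠ mk U y) ∨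
      (∃ p q : ℚ, s.f t.1 ⊆ Ioo (p : ℝ) q ∧
        Frc s fun U => App (E U) (mk U τ) (mk U (qN p)) (mk U (qN q))) ∨
      ∃ r : ℚ, ∀ p q : ℚ, p < r → r < q →
        Frc s fun U => ¬ App (E U) (mk U τ) (mk U (qN p)) (mk U (qN q))}
  | .inr (.inl t) => {s | ∃ a b : ℚ, s.f t.1 ⊆ Ioo (a : ℝ) b ∧ (t.2 < a ∨ b < t.2)}
  | .inr (.inr t) => {s | t.1 < t.2 → ∃ i, s.f i ⊆ Ioo (t.1 : ℝ) t.2}

theorem DC_dense (τ : Nm PC) : ∀ k p, ∃ q ≤ p, q ∈ DC τ k := by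
  rintro (⟨i, F⟩ | ⟨i, x⟩ | ⟨a, b⟩) s
  · by_cases h0 : i ∈ F
    · exact ⟨s, le_rfl, Or.inl h0⟩
    by_cases h1 : ∀ y, Iv F y → Frc s fun U => mk U τ ≠ mk U y
    · exact ⟨s, le_rfl, Or.inr (Or.inl h1)⟩
    push Not at h1
    obtain ⟨y, hy, h1⟩ := h1
    obtain ⟨s1, h2, h3⟩ := cl.decide h1
    replace h3 : Frc s1 fun U => mk U τ = mk U y := h3.imp fun _ => not_not.1
    obtain ⟨a, b, h4, h5⟩ := s1.pos i
    obtain ⟨r, h6, h7⟩ := exists_rat_btwn h4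
    by_cases h8 : ∀ p q : ℚ, p < r → r < q →
        Frc s1 fun U => ¬ App (E U) (mk U τ) (mk U (qN p)) (mk U (qN q))
    · exact ⟨s1, h2, Or.inr (Or.inr (Or.inr ⟨r, h8⟩))⟩
    push Not at h8
    obtain ⟨p, q, k1, k2, h8⟩ := h8
    obtain ⟨s2, k3, k4⟩ := cl.decide h8
    obtain ⟨k, hk⟩ := (s2.fin.union (F.finite_toSet.insert i)).infinite_compl.nonempty
    simp only [mem_compl_iff, mem_union, mem_ofPred_eq, mem_insert_iff, not_or, not_not] at hk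
    have k5 : Frc (Equiv.swap i k • s2) fun U => App (E U) (mk U y) (mk U (qN p)) (mk U (qN q)) :=
      frc_mv fun U hU => by
        have e : mk U τ = mk U y := h3.mono k3 U hU
        exact (inv_app (hy (Equiv.swap i k) fun j c => Equiv.swap_apply_of_ne_of_ne
          (fun e => h0 (e ▸ c)) fun e => hk.2.2 (e ▸ c)) (ck_nat _) (ck_nat _)).2
            (e ▸ not_not.1 (k4 U hU))
    have mo : ∀ {s t : Set ℝ}, Pc s → s ⊆ t → Pc t := fun ⟨a, b, c, d⟩ e => ⟨a, b, c, d.trans e⟩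
    have k6 : Pc (s1.f i ∩ Ioo (p : ℝ) q) := ⟨max a p, min b q,
      (max_lt h6 (by exact_mod_cast k1)).trans (lt_min h7 (by exact_mod_cast k2)),
      by rw [← Ioo_inter_Ioo]; exact inter_subset_inter_left _ h5⟩
    obtain ⟨s3, k7, k8⟩ := ex_upd s1 i k6
    obtain ⟨s4, l1, l2⟩ := ex_inf (p := s3) (q := Equiv.swap i k • s2) fun j => by
      show Pc (_ ∩ s2.f (Equiv.swap i k j))
      by_cases c : j = i
      · rwa [c, Equiv.swap_apply_left, hk.1, inter_univ, k7]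
      rw [k8 j c]
      by_cases d : j = k
      · rw [d, Equiv.swap_apply_right]
        exact mo (s2.pos i) (subset_inter ((subset_univ _).trans (hk.1 ▸ k3 k)) Subset.rfl)
      · rw [Equiv.swap_apply_of_ne_of_ne c d]
        exact mo (s2.pos j) (subset_inter (k3 j) Subset.rfl)
    have l3 : s4 ≤ s1 := fun j => (l1 j).trans (by
      by_cases c : j = i
      exacts [c ▸ k7 ▸ inter_subset_left, (k8 j c).subset])
    exact ⟨s4, l3.trans h2, Or.inr (Or.inr (Or.inl ⟨p, q, (l1 i).trans (k7 ▸ inter_subset_right),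
      fun U hU => by
        have e : mk U τ = mk U y := h3.mono l3 U hU
        dsimp only
        rw [e]
        exact k5.mono l2 U hU⟩))⟩
  · obtain ⟨a, b, h4, h5⟩ := s.pos i
    obtain ⟨c, d, h1, h2, h3, h6⟩ : ∃ c d : ℚ, a < c ∧ c < d ∧ d < b ∧ (x < c ∨ d < x) := by
      obtain ⟨u, h1, h2⟩ := exists_rat_btwn h4
      obtain ⟨v, h3, h6⟩ := exists_rat_btwn h2
      obtain ⟨w, h7, h8⟩ := exists_rat_btwn h6
      obtain ⟨z, h9, h0⟩ := exists_rat_btwn h8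
      rcases lt_or_ge x w with c | c
      · exact ⟨w, z, by linarith, by exact_mod_cast h9, h0, Or.inl c⟩
      · exact ⟨u, v, h1, by exact_mod_cast h3, h6, Or.inr (lt_of_lt_of_le (by exact_mod_cast h7) c)⟩
    exact (ex_shr s i (s := Ioo (c : ℝ) d) ⟨c, d, by exact_mod_cast h2, subset_inter
      ((Ioo_subset_Ioo h1.le h3.le).trans h5) Subset.rfl⟩).imp fun q e => ⟨e.1, c, d, e.2, h6⟩
  · by_cases h : a < b
    · obtain ⟨k, hk⟩ := s.fin.infinite_compl.nonempty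
      exact (ex_shr s k (s := Ioo (a : ℝ) b) ⟨a, b, by exact_mod_cast h, by
        rw [not_not.1 hk, univ_inter]⟩).imp fun q e => ⟨e.1, fun _ => ⟨k, e.2⟩⟩
    · exact ⟨s, le_rfl, fun e => absurd e h⟩

structure CM {M : Type} {E : M → M → Prop} (Q : QM E) (A : M) : Prop where
  sub : ∀ a, E a A → ∃ r, Q.Cut a r ∧ ∀ q : ℚ, r ≠ q
  dense : ∀ p q : ℚ, p < q → ∃ a r, E a A ∧ Q.Cut a r ∧ p < r ∧ r < q
  cov : ∀ O, (∀ r : ℚ, ∃ p q : ℚ, p < r ∧ r < q ∧ Bspt.App E O (Q.q p) (Q.q q)) →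
    {a | E a A ∧ ¬ ∃ p q : ℚ, Bspt.App E O (Q.q p) (Q.q q) ∧ E (Q.q p) a ∧ ¬ E (Q.q q) a}.Finite

theorem ex_cm : ∃ (M : Type) (E : M → M → Prop) (Q : QM E) (A : M), CM Q A := by
  obtain ⟨G, hG⟩ := ex_gm (bs_hs cb_hs) DC DC_dense
  let a : ℕ → G.H := fun i => G.c (.inr (some i))
  have jq : ∀ q, G.j (G.qm.q q) = mk G.U (qN q) := fun q => G.jn _
  have hA : ∀ z, G.R z (G.c (.inr none)) ↔ ∃ i, z = a i := fun z =>
    (G.set (f := aN) (s := univ) rfl).trans (exists_congr fun i => by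
      rw [G.inj, and_iff_right (mem_univ _)]; exact iff_of_eq (congrArg _ (G.jc (.inr (some i))).symm))
  have ha : ∀ i (q : ℚ), G.R (G.qm.q q) (a i) ↔ gen i (Ioi (q : ℝ)) ∈ G.U.U := fun i q => by
    rw [G.mem, jq, G.jc]
    exact fam_mem (f := qN) (Q := fun q U => gen i (Ioi (q : ℝ)) ∈ U.U) fun _ _ _ => qN_inj
  have io : ∀ i (p q : ℚ) (s : PC), Iic s ∈ G.U.U → s.f i ⊆ Ioo (p : ℝ) q →
      G.R (G.qm.q p) (a i) ∧ ¬ G.R (G.qm.q q) (a i) := fun i p q s h e => by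
    rw [ha, ha]
    refine ⟨gen_of (e.trans Ioo_subset_Ioi_self) _ h, fun c => ?_⟩
    obtain ⟨t, ⟨u, v, d, f⟩, k⟩ := gen_ex (gen_of e _ h) c
    have := k (f (left_lt_add_div_two.2 d |> fun x => ⟨x, add_div_two_lt_right.2 d⟩))
    exact lt_asymm this.1.2 this.2
  obtain ⟨τ, -, hτ⟩ := hG (a 0)
  have ct : ∀ i, ∃ r, G.qm.Cut (a i) r ∧ ∀ q : ℚ, r ≠ q := fun i => by
    have k : ∀ x : ℚ, ∃ p q : ℚ, (G.R (G.qm.q p) (a i) ∧ ¬ G.R (G.qm.q q) (a i)) ∧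
        (x < p ∨ q < x) := fun x =>
      let ⟨s, ⟨p, q, c, d⟩, e⟩ := hτ (.inr (.inl (i, x)))
      ⟨p, q, io i p q s e c, d⟩
    have mo : ∀ x y : ℚ, y < x → G.R (G.qm.q x) (a i) → G.R (G.qm.q y) (a i) := fun x y c d =>
      (ha _ _).2 (gen_mono ((ha _ _).1 d) (Ioi_subset_Ioi (by exact_mod_cast c.le)))
    obtain ⟨p, q, c, -⟩ := k 0
    obtain ⟨r, hr⟩ := G.qm.of_cut (c := a i) (fun z e => by
      obtain ⟨t, -, e⟩ := G.gen z (.inr (some i)) e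
      exact (G.qm.w z).2 ⟨t.1.1, G.inj.2 (e.trans (jq t.1.1).symm)⟩) ⟨p, c.1⟩ ⟨q, c.2⟩ mo fun x e => by
        obtain ⟨p, q, c, d | d⟩ := k x
        exacts [⟨p, d, c.1⟩, absurd (mo _ _ d e) c.2]
    refine ⟨r, hr, fun x e => ?_⟩
    obtain ⟨p, q, c, d⟩ := k x
    rw [hr.2, hr.2, e, Rat.cast_lt, Rat.cast_lt] at c
    exact d.elim c.1.not_gt c.2
  refine ⟨G.H, G.R, G.qm, G.c (.inr none), fun z e => ?_, fun p q h => ?_, fun O h => ?_⟩
  · obtain ⟨i, rfl⟩ := (hA z).1 e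
    exact ct i
  · obtain ⟨s, c, d⟩ := hτ (.inr (.inr (p, q)))
    obtain ⟨i, c⟩ := c h
    obtain ⟨r, e, f⟩ := ct i
    have := io i p q s d c
    exact ⟨a i, r, (hA _).2 ⟨i, rfl⟩, e, (e.2 _).1 this.1,
      lt_of_le_of_ne (not_lt.1 fun k => this.2 ((e.2 _).2 k)) (f q)⟩
  · obtain ⟨y, hy, e⟩ := G.nm O
    obtain ⟨F, h1, -, h2⟩ := supp_iff.1 (hs_iff.1 hy).1
    obtain ⟨σ, e', hσ⟩ := hG O
    refine (h1.image a).subset fun z ⟨c, d⟩ => ?_
    obtain ⟨i, rfl⟩ := (hA z).1 c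
    obtain ⟨s, k | k | ⟨p, q, k, l⟩ | ⟨r, k⟩, m⟩ := hσ (.inl (i, h1.toFinset))
    · exact ⟨i, h1.mem_toFinset.1 k, rfl⟩
    · exact absurd (e'.symm.trans e) (k y (fun g n => h2 g fun j o => n j (h1.mem_toFinset.2 o)) _ m)
    · exact absurd ⟨p, q, G.app.2 (by rw [jq, jq, e']; exact l _ m), io i p q s m k⟩ d
    · obtain ⟨p, q, n, o, t⟩ := h r
      rw [G.app, jq, jq, e'] at t
      exact absurd t (k p q n o _ m)

end Pool.Agent.H40.Gn
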