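import Pool.Agent.H40.JzDefs3

set_option autoImplicit false

namespace Pool.Agent.H40.Jz

open Pool.Agent.H40.Bspt

variable {M : Type} {E : M → M → Prop} (ℛ : Reals E)

/-- `T` is the usual topology of the real line of the model -/
def Usual (T : M) : Prop :=
  ∀ U, E U T ↔ Sub E U ℛ.R ∧ ∀ x : Ex E ℛ.R, E x.1 U → ∃ ε > 0, ∀ y, |y - x| < ε → E y.1 U

end Pool.Agent.H40.Jz
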