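import Pool.Agent.H40.G3
import Pool.Agent.H40.JzDefs9

set_option autoImplicit false

/-! The usual topology of the real line of a model with standard natural numbers. -/

namespace Pool.Agent.H40.Gn.QM

open Set Pool.Agent.H40.Bspt Pool.Agent.H40.Jz Pool.Agent.H40.Zt

variable {M : Type} {E : M → M → Prop} (Q : QM E)

theorem ρ_inj : Function.Injective Q.ρ := Q.ρ.injective

theorem ρ_mem (x : Ex E Q.reals.R) (a : ℚ) : E (Q.q a) x.1 ↔ (a : ℝ) < Q.ρ x := (Q.ρ_cut x).2 a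

theorem ρ_of {c : M} {r : ℝ} (h : Q.Cut c r) : ∃ x : Ex E Q.reals.R, x.1 = c ∧ Q.ρ x = r :=
  ⟨⟨c, Q.mem_reals.2 ⟨r, h⟩⟩, rfl, (Q.ρ_cut _).eq h⟩

theorem lt' (x y : Ex E Q.reals.R) : (∃ z, E z y.1 ∧ ¬ E z x.1) ↔ Q.ρ x < Q.ρ y := by
  refine ⟨fun ⟨z, a, b⟩ => ?_, fun h => (exists_rat_btwn h).elim fun a e =>
    ⟨_, (Q.ρ_mem y a).2 e.2, fun c => e.1.not_gt ((Q.ρ_mem x a).1 c)⟩⟩
  obtain ⟨z, rfl⟩ := (Q.w z).1 ((Q.ρ_cut y).1 z a)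
  exact (not_lt.1 fun c => b ((Q.ρ_mem x z).2 c)).trans_lt ((Q.ρ_mem y z).1 a)

theorem ball {x : Ex E Q.reals.R} {Φ : Ex E Q.reals.R → Prop} :
    (∃ ε > 0, ∀ y, |y - x| < ε → Φ y) ↔ ∃ p q : ℚ, p < Q.ρ x ∧ Q.ρ x < q ∧
      ∀ y, p < Q.ρ y → Q.ρ y ≤ q → Φ y := by
  simp only [abs_lt]
  simp only [gt_iff_lt, Q.ρ_lt, map_zero, map_neg, map_sub]
  refine ⟨fun ⟨ε, a, b⟩ => ?_, fun ⟨p, q, a, b, c⟩ => ?_⟩
  · obtain ⟨p, c, d⟩ := exists_rat_btwn (sub_lt_self (Q.ρ x) a)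
    obtain ⟨q, e, f⟩ := exists_rat_btwn (lt_add_of_pos_right (Q.ρ x) a)
    exact ⟨p, q, d, e, fun y g k => b y ⟨by linarith, by linarith⟩⟩
  · obtain ⟨δ, d, e⟩ := exists_rat_btwn (lt_min (sub_pos.2 a) (sub_pos.2 b))
    rw [lt_min_iff] at e
    refine ⟨δ, by rwa [map_ratCast], fun y f => ?_⟩
    rw [map_ratCast] at f
    exact c y (by linarith) (by linarith)

theorem ex_usual : ∃ T, Usual Q.reals T := by
  obtain ⟨P, hP⟩ := Q.zf.power Q.reals.R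
  refine (sep Q.zf (fun U => ∀ x, E x Q.reals.R → E x U → ∃ p, E p Q.W ∧ ∃ q, E q Q.W ∧ E p x ∧
    (∃ s, E s Q.W ∧ Q.Lt s q ∧ ¬ E s x) ∧ ∀ y, E y Q.reals.R → E p y → ¬ E q y → E y U) P).imp
      fun T h U => ?_
  simp only [h, hP, Q.ball, exW, lt]
  refine and_congr_right' (Subtype.forall'.trans (forall_congr' fun x => imp_congr_right fun _ =>
    exists₂_congr fun p q => and_congr (Q.ρ_mem x p) (and_congr ?_ (Subtype.forall'.trans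
      (forall_congr' fun y => by rw [Q.ρ_mem, Q.ρ_mem, not_lt])))))
  simp only [Q.ρ_mem, not_lt]
  exact ⟨fun ⟨s, a, b⟩ => b.trans_lt (by exact_mod_cast a), fun a => (exists_rat_btwn a).imp
    fun s b => ⟨by exact_mod_cast b.2, b.1.le⟩⟩

variable {Q} {T : M} (u : Usual Q.reals T)
include u

theorem op {U : M} (h : E U T) (x : Ex E Q.reals.R) (e : E x.1 U) : ∃ p q : ℚ, p < Q.ρ x ∧
    Q.ρ x < q ∧ ∀ y, p < Q.ρ y → Q.ρ y ≤ q → E y.1 U := Q.ball.1 (((u U).1 h).2 x e)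

theorem ex_open (Φ : M → Prop) [D1 E Φ] {S : Set ℝ} (hS : IsOpen S)
    (h : ∀ y : Ex E Q.reals.R, Φ y.1 ↔ Q.ρ y ∈ S) :
    ∃ U, E U T ∧ ∀ y : Ex E Q.reals.R, E y.1 U ↔ Q.ρ y ∈ S := by
  obtain ⟨U, hU⟩ := sep Q.zf Φ Q.reals.R
  have k : ∀ y : Ex E Q.reals.R, E y.1 U ↔ Q.ρ y ∈ S := fun y => by rw [hU, h, and_iff_right y.2]
  refine ⟨U, (u U).2 ⟨fun z a => ((hU z).1 a).1, fun x a => Q.ball.2 ?_⟩, k⟩
  obtain ⟨l, m, ⟨b, c⟩, d⟩ := mem_nhds_iff_exists_Ioo_subset.1 (hS.mem_nhds ((k x).1 a))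
  obtain ⟨p, e, f⟩ := exists_rat_btwn b
  obtain ⟨q, g, i⟩ := exists_rat_btwn c
  exact ⟨p, q, f, g, fun y j o => (k y).2 (d ⟨e.trans j, o.trans_lt i⟩)⟩

theorem ex_gt (a : Ex E Q.reals.R) : ∃ U, E U T ∧ ∀ y : Ex E Q.reals.R, E y.1 U ↔ Q.ρ a < Q.ρ y :=
  ex_open u (fun y => ∃ z, E z y ∧ ¬ E z a.1) isOpen_Ioi (Q.lt' a)

theorem ex_lt (a : Ex E Q.reals.R) : ∃ U, E U T ∧ ∀ y : Ex E Q.reals.R, E y.1 U ↔ Q.ρ y < Q.ρ a :=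
  ex_open u (fun y => ∃ z, E z a.1 ∧ ¬ E z y) isOpen_Iio (Q.lt' · a)

theorem ex_io (a b : Ex E Q.reals.R) :
    ∃ U, E U T ∧ ∀ y : Ex E Q.reals.R, E y.1 U ↔ Q.ρ a < Q.ρ y ∧ Q.ρ y < Q.ρ b :=
  ex_open u (fun y => (∃ z, E z y ∧ ¬ E z a.1) ∧ ∃ z, E z b.1 ∧ ¬ E z y) isOpen_Ioo
    fun y => and_congr (Q.lt' a y) (Q.lt' y b)

theorem ex_cf {C : M} (h : {z | E z C}.Finite) :
    ∃ U, E U T ∧ ∀ y : Ex E Q.reals.R, E y.1 U ↔ ¬ E y.1 C := by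
  have k : ∀ y : Ex E Q.reals.R, ¬ E y.1 C ↔ Q.ρ y ∈ (Q.ρ '' {y | E y.1 C})ᶜ := fun y =>
    not_congr (Q.ρ_inj.mem_set_image (s := {y | E y.1 C})).symm
  exact (ex_open u (fun y => ¬ E y C) ((h.preimage Subtype.val_injective.injOn).image
    _).isClosed.isOpen_compl k).imp fun U a => ⟨a.1, fun y => (a.2 y).trans (k y).symm⟩

end Pool.Agent.H40.Gn.QM
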