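import Pool.Agent.H40.G3

set_option autoImplicit false

/-! A symmetric extension with a countable crowded compact remainder. -/

namespace Pool.Agent.H40.Gn

open Pool.Agent.H42.ZF Pool.Agent.H40.Js Set Filter Sum

theorem split2 {s t : Set ℕ} (hs : s.Infinite) (ht : t.Infinite) :
    ∃ a, (s ∩ a).Infinite ∧ (t ∩ aᶜ).Infinite := by
  by_cases h : (s ∩ t).Infinite
  · let e := fun n => (h.natEmbedding _ n).1
    have i : Function.Injective e := Subtype.val_injective.comp (h.natEmbedding _).injective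
    refine ⟨range fun n => e (2 * n), infinite_of_injective_forall_mem (f := fun n => e (2 * n))
      (fun a b c => by simpa using i c) fun n => ⟨(h.natEmbedding _ _).2.1, n, rfl⟩,
      infinite_of_injective_forall_mem (f := fun n => e (2 * n + 1))
      (fun a b c => by simpa using i c) fun n => ⟨(h.natEmbedding _ _).2.2, fun ⟨m, c⟩ => ?_⟩⟩
    have := i c
    omega
  · exact ⟨tᶜ, (hs.sdiff (not_infinite.1 h)).mono fun x a => ⟨a.1, fun b => a.2 ⟨a.1, b⟩⟩, by simpa⟩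

theorem thin {ι : Type} {F : Set ι} (hF : F.Finite) (S : ι → Set ℕ) (h : ∀ i ∈ F, (S i).Infinite)
    {s : Set ℕ} (hs : s.Infinite) : ∃ Z ⊆ s, Z.Infinite ∧ ∀ i ∈ F, (S i \ Z).Infinite := by
  induction F, hF using Set.Finite.induction_on with
  | empty => exact ⟨s, Subset.rfl, hs, by simp⟩
  | @insert i F _ _ ih =>
    obtain ⟨Z, a, b, c⟩ := ih fun j e => h j (Or.inr e)
    obtain ⟨u, d, e⟩ := split2 b (h i (Or.inl rfl))
    refine ⟨Z ∩ u, inter_subset_left.trans a, d, ?_⟩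
    rintro j (rfl | f)
    exacts [e.mono fun x g => ⟨g.1, fun k => g.2 k.2⟩, (c j f).mono fun x g => ⟨g.1, fun k => g.2 k.1⟩]

theorem ex_swap {s t : Set ℕ} (hs : s.Infinite) (ht : t.Infinite) (h : ∀ i ∈ s, i ∉ t) :
    ∃ σ : GP, σ⁻¹ = σ ∧ (∀ i ∈ s, σ i ∈ t) ∧ (∀ i ∈ t, σ i ∈ s) ∧ ∀ i ∉ s, i ∉ t → σ i = i := by
  classical
  haveI := hs.to_subtype
  haveI := ht.to_subtype
  obtain ⟨e⟩ : Nonempty (s ≃ t) := nonempty_equiv_of_countable
  let f : ℕ → ℕ := fun i => if a : i ∈ s then e ⟨i, a⟩ else if b : i ∈ t then e.symm ⟨i, b⟩ else i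
  have f1 : ∀ i a, f i = e ⟨i, a⟩ := fun i a => dif_pos a
  have f2 : ∀ i b, f i = e.symm ⟨i, b⟩ := fun i b => (dif_neg fun a => h i a b).trans (dif_pos b)
  have f3 : ∀ i ∉ s, i ∉ t → f i = i := fun i a b => (dif_neg a).trans (dif_neg b)
  have iv : Function.Involutive f := fun i => by
    by_cases a : i ∈ s
    · rw [f1 i a, f2 _ (e _).2]; simp
    by_cases b : i ∈ t
    · rw [f2 i b, f1 _ (e.symm _).2]; simp
    · rw [f3 i a b, f3 i a b]
  exact ⟨iv.toPerm f, rfl, fun i a => show f i ∈ t from (f1 i a).symm ▸ (e _).2,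
    fun i b => show f i ∈ s from (f2 i b).symm ▸ (e.symm _).2, f3⟩

theorem ex_move {S : Set ℕ} (h : S.Finite) : ∃ e : GP, ∀ k ∈ S, e k ∉ S := by
  obtain ⟨N, hN⟩ := h.bddAbove
  haveI := h.to_subtype
  obtain ⟨e, he⟩ := Equiv.Perm.exists_extending_pair (f := fun k : S => k.1) (g := fun k => k.1 + N + 1)
    Subtype.val_injective fun a b c => Subtype.ext (by simpa using c)
  exact ⟨e, fun k a b => by have := hN b; rw [he ⟨k, a⟩] at this; dsimp only at this; omega⟩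

def GD : Type := GG GP ℕ ℕ

instance : Group GD := inferInstanceAs (Group (GG GP ℕ ℕ))

abbrev PD := FS (ℕ ⊕ ℕ × ℕ) (Set.Infinite (α := ℕ))

def sm (σ : GP) (a : Set ℕ) : Set ℕ := {i | σ⁻¹ i ∈ a}

instance : MulAction GD PD where
  smul g p := ⟨Sum.elim (fun n => sm g.1.1 (p.f (inl n))) fun t => p.f (inr (g.1.2⁻¹ t)), by
    rintro (n | t)
    exacts [(p.pos _).preimage (by simp), p.pos _],
    (p.fin.image (Sum.map id g.1.2)).subset (by
      rintro (n | t) a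
      exacts [⟨inl n, fun e => a (by simp [e, sm]), rfl⟩, ⟨_, a, by simp⟩])⟩
  one_smul _ := FS.ext' (funext (by rintro (_ | _) <;> rfl))
  mul_smul _ _ _ := FS.ext' (funext (by rintro (_ | _) <;> rfl))

instance : Mo GD PD := ⟨fun _ _ _ h => by
  rintro (n | t)
  exacts [fun i a => h (inl n) a, h _]⟩

instance : Nonempty PD := ⟨⟨fun _ => univ, fun _ => infinite_univ, by simp⟩⟩

def Fx {ι : Type} (χ : ℕ → ι) (F : Set (ℕ × ℕ)) (g : GD) : Prop :=
  (∀ i, χ (g.1.1 i) = χ i) ∧ ∀ t ∈ F, g.1.2 t = t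

instance : NF GD where
  F := { sets := {J | ∃ (ι : Type) (_ : Finite ι) (χ : ℕ → ι) (F : Set (ℕ × ℕ)), F.Finite ∧
            ∀ g, Fx χ F g → g ∈ J}
         univ_sets := ⟨Unit, inferInstance, fun _ => (), ∅, finite_empty, fun _ _ => trivial⟩
         sets_of_superset := fun ⟨ι, a, χ, F, b, c⟩ h => ⟨ι, a, χ, F, b, fun g d => h (c g d)⟩
         inter_sets := fun ⟨ι, _, χ, F, b, c⟩ ⟨κ, _, ψ, G, d, e⟩ => ⟨ι × κ, inferInstance,
          fun i => (χ i, ψ i), F ∪ G, b.union d, fun g f =>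
            ⟨c g ⟨fun i => congrArg Prod.fst (f.1 i), fun t k => f.2 t (Or.inl k)⟩,
              e g ⟨fun i => congrArg Prod.snd (f.1 i), fun t k => f.2 t (Or.inr k)⟩⟩⟩ }
  conj h := fun _ ⟨ι, a, χ, F, b, c⟩ => ⟨ι, a, fun i => χ (h.1.1⁻¹ i), h.1.2 '' F, b.image _,
    fun g d => c _ ⟨fun i => (d.1 (h.1.1 i)).trans (by simp), fun t e => by
      show h.1.2⁻¹ (g.1.2 (h.1.2 t)) = t
      rw [d.2 _ ⟨t, e, rfl⟩]; simp⟩⟩
  inv := fun _ ⟨ι, a, χ, F, b, c⟩ => ⟨ι, a, χ, F, b, fun g d => c _ ⟨fun i =>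
    (d.1 (g.1.1⁻¹ i)).symm.trans (by simp), fun t e => by
      show g.1.2⁻¹ t = t
      rw [Equiv.Perm.inv_eq_iff_eq, d.2 t e]⟩⟩

theorem ev_iff {p : GD → Prop} : (∀ᶠ g in NF.F, p g) ↔ ∃ (ι : Type) (_ : Finite ι) (χ : ℕ → ι)
    (F : Set (ℕ × ℕ)), F.Finite ∧ ∀ g, Fx χ F g → p g := Iff.rfl

theorem lift (σ : GP) {p q : PD} (h : q ≤ p) (k : ∀ n, (q.f (inl n) ∩ sm σ (p.f (inl n))).Infinite) :
    ∃ g : GD, g.1.1 = σ ∧ (∀ t : ℕ × ℕ, σ t.1 = t.1 → g.1.2 t = t) ∧ ∃ r ≤ q, r ≤ g • p := by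
  obtain ⟨e, he⟩ := ex_move ((q.fin.preimage inr_injective.injOn).image Prod.snd)
  let g : GD := ⟨(σ, σ.prodShear fun j => if σ j = j then 1 else e), fun _ => rfl⟩
  have f : ∀ t : ℕ × ℕ, σ t.1 = t.1 → g.1.2 t = t := fun t a => Prod.ext a (by
    show (if σ t.1 = t.1 then 1 else e) t.2 = _
    rw [if_pos a]; rfl)
  refine ⟨g, rfl, f, (ex_inf ?_).imp fun _ a => a⟩
  rintro (n | t)
  · exact k n
  obtain ⟨t, rfl⟩ := g.1.2.surjective t
  show (_ ∩ p.f (inr (g.1.2⁻¹ (g.1.2 t)))).Infinite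
  rw [Equiv.Perm.coe_inv, Equiv.symm_apply_apply]
  by_cases a : σ t.1 = t.1
  · rw [f t a]; exact (q.pos _).mono (subset_inter Subset.rfl (h _))
  by_cases b : p.f (inr t) = univ
  · rw [b, inter_univ]; exact q.pos _
  rw [not_not.1 fun c => he t.2 ⟨t, fun d => b (univ_subset_iff.1 (d ▸ h (inr t))), rfl⟩
    ⟨g.1.2 t, c, by show (if σ t.1 = t.1 then 1 else e) t.2 = _; rw [if_neg a]⟩, univ_inter]
  exact p.pos _

theorem fam_eqv {P Γ ι : Type} [Preorder P] [Group Γ] [MulAction Γ P] [Mo Γ P] {A : ι → Nm P}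
    {Q Q' : ι → Ult P → Prop} [∀ i, C (Q i)] [∀ i, C (Q' i)] {g : Γ} (e : ι ≃ ι)
    (hA : ∀ i, Eqv (act g (A i)) (A (e i))) (hQ : ∀ i U, Q' (e i) (mv g U) ↔ Q i U) :
    Eqv (act g (fam A Q)) (fam A Q') := fun U =>
  (fam_act (B := fun i => A (e i)) (Q' := fun i => Q' (e i)) hA hQ U).trans (M_ext fun z =>
    ⟨casQ (S := fun U z => E U z (mk U (fam A Q'))) (fun i _ a => fam_intro (e i) a) U z,
      casQ (S := fun U z => E U z (mk U (fam (fun i => A (e i)) fun i => Q' (e i)))) (fun i V a => by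
        obtain ⟨i, rfl⟩ := e.surjective i
        exact fam_intro (A := fun i => A (e i)) (Q := fun i => Q' (e i)) i a) U z⟩)

theorem gen_or (j : ℕ ⊕ ℕ × ℕ) (a : Set ℕ) (U : Ult PD) : gen j a ∈ U.U ∨ gen j aᶜ ∈ U.U :=
  (cl (Q := fun U : Ult PD => gen j a ∈ U.U ∨ gen j aᶜ ∈ U.U)).all (fun p => by
    rcases infinite_union.1 ((inter_union_compl (p.f j) a).symm ▸ p.pos j) with h | h
    exacts [(ex_shr p j h).imp fun q e => ⟨e.1, (gen_of e.2).imp fun _ => Or.inl⟩,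
      (ex_shr p j h).imp fun q e => ⟨e.1, (gen_of e.2).imp fun _ => Or.inr⟩]) U

theorem gen_inf {j : ℕ ⊕ ℕ × ℕ} {a b : Set ℕ} {U : Ult PD} (h : gen j a ∈ U.U) (e : gen j b ∈ U.U) :
    (a ∩ b).Infinite := (gen_ex h e).elim fun _ c => c.1.mono c.2

theorem gen_sep {j k : ℕ ⊕ ℕ × ℕ} (h : j ≠ k) (p : PD) :
    ∃ q ≤ p, ∃ a, Frc q fun U => gen j a ∈ U.U ∧ gen k a ∉ U.U := by
  obtain ⟨a, b, c⟩ := split2 (p.pos j) (p.pos k)
  obtain ⟨q, d, e⟩ := ex_upd p j b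
  obtain ⟨r, f, g⟩ := ex_shr q k (s := aᶜ) (by rwa [e k h.symm])
  refine ⟨r, f.trans fun i => ?_, a, fun U hU => ⟨gen_of ((f j).trans (d ▸ inter_subset_right)) U hU,
    fun i => by simpa using gen_inf i (gen_of g U hU)⟩⟩
  by_cases l : i = j
  exacts [l ▸ d ▸ inter_subset_left, (e i l).subset]

def xN (t : ℕ × ℕ) : Nm PD := fam (setN natN) fun a U => gen (inr t) a ∈ U.U

def dN (i : ℕ) : Nm PD := setN xN {t | t.1 = i}

def bQ (a : Set ℕ) : ℕ ⊕ ℕ → Ult PD → Prop := Sum.elim (fun i _ => i ∈ a) fun n U => gen (inl n) a ∈ U.U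

instance (a : Set ℕ) : ∀ i, C (bQ a i) := by
  rintro (i | n) <;> unfold bQ <;> simp only [elim_inl, elim_inr] <;> infer_instance

def bN (a : Set ℕ) : Nm PD := fam (Sum.elim dN natN) (bQ a)

theorem xN_act (g : GD) (t : ℕ × ℕ) : Eqv (act g (xN t)) (xN (g.1.2 t)) :=
  fam_act (fun a => (ck_set (Γ := GD) a fun _ _ => ck_nat _).2 g) fun a U => by
    rw [mem_mv]
    refine iff_of_eq (congrArg (· ∈ U.U) (Set.ext fun p => ?_))
    show p.f (inr (g.1.2⁻¹ (g.1.2 t))) ⊆ _ ↔ _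
    simp [gen]

theorem dN_act (g : GD) (i : ℕ) : Eqv (act g (dN i)) (dN (g.1.1 i)) := fun U => by
  rw [dN, setN_act g.1.2 (xN_act g)]
  refine congrArg (fun s => mk U (setN xN s)) (Set.ext fun x => ?_)
  show (g⁻¹.1.2 x).1 = i ↔ x.1 = _
  rw [g⁻¹.2 x]
  exact g.1.1.symm_apply_eq

theorem bN_act (g : GD) (a : Set ℕ) : Eqv (act g (bN a)) (bN (sm g.1.1 a)) :=
  fam_eqv (g.1.1.sumCongr (Equiv.refl ℕ)) (by rintro (i | n); exacts [dN_act g i, nat_act g n]) (by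
    rintro (i | n) U
    · simp [bQ, sm]
    · show gen (inl n) _ ∈ (mv g U).U ↔ gen (inl n) a ∈ U.U
      rw [mem_mv]
      exact iff_of_eq (congrArg (· ∈ U.U) (Set.ext fun p =>
        preimage_subset_preimage_iff (f := g.1.1.symm) (by simp))))

theorem xN_hs (t : ℕ × ℕ) : HS GD (xN t) :=
  hs_fam (ev_iff.2 ⟨Unit, inferInstance, fun _ => (), {t}, finite_singleton _, fun g e U =>
    (xN_act g t U).trans (by rw [e.2 t rfl]; rfl)⟩) fun a => (ck_set a fun _ _ => ck_nat _).1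

theorem dN_hs (i : ℕ) : HS GD (dN i) :=
  hs_iff.2 ⟨ev_iff.2 ⟨Unit, inferInstance, fun _ => (), {(i, 0)}, finite_singleton _, fun g e U =>
    (dN_act g i U).trans (by
      rw [show g.1.1 i = i from (g.2 (i, 0)).symm.trans (congrArg Prod.fst (e.2 _ rfl))])⟩,
    fun _ => xN_hs _⟩

theorem bN_hs (a : Set ℕ) : HS GD (bN a) :=
  hs_fam (ev_iff.2 ⟨Prop, inferInstance, (· ∈ a), ∅, finite_empty, fun g e U =>
    (bN_act g a U).trans (by
      rw [show sm g.1.1 a = a from Set.ext fun i => iff_of_eq ((e.1 _).symm.trans (by simp))]; rfl)⟩)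
    (by rintro (i | n); exacts [dN_hs i, hs_nat n])

theorem xN_inj (s t : ℕ × ℕ) (U : Ult PD) (h : mk U (xN s) = mk U (xN t)) : s = t := by
  by_contra c
  refine (cl (Q := fun U => mk U (xN s) ≠ mk U (xN t))).all (fun p => ?_) U h
  obtain ⟨q, d, a, e⟩ := gen_sep (inr_injective.ne c) p
  have k : ∀ (a b : Set ℕ) (U : Ult PD), mk U (setN natN a) = mk U (setN natN b) → a = b := by
    have : ∀ (a b : Set ℕ) (U : Ult PD), mk U (setN natN a) = mk U (setN natN b) → a ⊆ b :=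
      fun a b U e i f => setN_cases (f := natN) (z := natN i) (R := fun _ => i ∈ b)
        (fun j _ g k => by rwa [natN_inj k]) U
        (e ▸ setN_intro natN f U)
    exact fun a b U e => (this a b U e).antisymm (this b a U e.symm)
  refine ⟨q, d, e.imp fun V f g => f.2 ((fam_mem (Q := fun a U => gen (inr t) a ∈ U.U) k).1 ?_)⟩
  exact g ▸ (fam_mem (Q := fun a U => gen (inr s) a ∈ U.U) k).2 f.1

theorem e_inj : ∀ (s t : ℕ ⊕ ℕ) (U : Ult PD),
    mk U (Sum.elim dN natN s) = mk U (Sum.elim dN natN t) → s = t := by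
  have k : ∀ i n (U : Ult PD), mk U (dN i) ≠ mk U (natN n) := fun i n U e => by
    have : ∀ k, ∃ m : Fin n, mk U (xN (i, k)) = mk U (natN m) := fun k =>
      (mem_natN.1 (e ▸ setN_intro xN (s := {t | t.1 = i}) (x := (i, k)) rfl U)).elim
        fun m a => ⟨⟨m, a.1⟩, a.2⟩
    choose m hm using this
    exact not_injective_infinite_finite m fun a b c => congrArg Prod.snd
      (xN_inj _ _ U ((hm a).trans (c ▸ (hm b).symm)))
  rintro (i | n) (j | m) U e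
  · exact congrArg inl (setN_cases (f := xN) (s := {t | t.1 = j}) (z := xN (i, 0)) (R := fun _ => i = j)
      (fun t V g k => (congrArg Prod.fst (xN_inj _ _ V k)).trans g) U
        (show E U _ (mk U (dN j)) from (show mk U (dN i) = mk U (dN j) from e) ▸
          setN_intro xN (s := {t | t.1 = i}) rfl U))
  exacts [absurd e (k _ _ U), absurd e.symm (k _ _ U), congrArg inr (natN_inj e)]

theorem b_d {a : Set ℕ} {i : ℕ} {U : Ult PD} : E U (mk U (dN i)) (mk U (bN a)) ↔ i ∈ a :=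
  fam_mem (x := inl i) e_inj

theorem b_n {a : Set ℕ} {n : ℕ} {U : Ult PD} :
    E U (mk U (natN n)) (mk U (bN a)) ↔ gen (inl n) a ∈ U.U := fam_mem (x := inr n) e_inj

theorem b_un {a b c : Set ℕ} (h : c ⊆ a ∪ b) : ∀ (U : Ult PD) z, E U z (mk U (bN c)) →
    E U z (mk U (bN a)) ∨ E U z (mk U (bN b)) := casQ (by
  rintro (i | n) U e
  · exact (h e).imp b_d.2 b_d.2
  · exact (gen_or (inl n) a U).imp b_n.2 fun f => b_n.2 (mem_of_superset (inter_mem e f)
      fun p (g : _ ⊆ c ∧ _ ⊆ aᶜ) i k => (h (g.1 k)).resolve_left (g.2 k)))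

end Pool.Agent.H40.Gn
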