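import Pool.Agent.H40.G5

set_option autoImplicit false

/-! Forcing facts for the crowded remainder. -/

namespace Pool.Agent.H40.Gn

open Pool.Agent.H42.ZF Pool.Agent.H40.Js Set Filter Sum

variable {ι : Type} {χ : ℕ → ι} {F : Set (ℕ × ℕ)} {y : Nm PD}

def Iw (χ : ℕ → ι) (F : Set (ℕ × ℕ)) (y : Nm PD) : Prop := ∀ g, Fx χ F g → Eqv (act g y) y

/-- exchange two infinite sets of one colour -/
theorem swp (hF : F.Finite) {p q : PD} (h : q ≤ p) {c : ι} {s t : Set ℕ} (hs : s.Infinite)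
    (ht : t.Infinite) (h1 : ∀ i ∈ s, i ∉ t) (h2 : ∀ i ∈ s, χ i = c) (h3 : ∀ i ∈ t, χ i = c)
    (h4 : ∀ n, p.f (inl n) ≠ univ → (q.f (inl n) \ t).Infinite) :
    ∃ g : GD, Fx χ F g ∧ t \ Prod.fst '' F ⊆ sm g.1.1 s ∧ ∃ r ≤ q, r ≤ g • p := by
  obtain ⟨Z, z1, z2, z3⟩ := thin (p.fin.preimage inl_injective.injOn) (fun n => q.f (inl n) \ t) h4
    (hs.sdiff (hF.image Prod.fst))
  obtain ⟨σ, a, b, d, e⟩ := ex_swap z2 (ht.sdiff (hF.image Prod.fst)) fun i k l => h1 i (z1 k).1 l.1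
  obtain ⟨g, rfl, g1, g2⟩ := lift σ h fun n => by
    by_cases k : p.f (inl n) = univ
    · simpa [k, sm] using q.pos (inl n)
    · exact (z3 n k).mono fun i l => ⟨l.1.1, by
        show σ⁻¹ i ∈ p.f (inl n)
        rw [a, e i l.2 fun m => l.1.2 m.1]
        exact h _ l.1.1⟩
  refine ⟨g, ⟨fun i => ?_, fun u k => g1 u (e _ (fun l => (z1 l).2 ⟨u, k, rfl⟩) fun l => l.2 ⟨u, k, rfl⟩)⟩,
    fun i k => show g.1.1⁻¹ i ∈ s from a ▸ (z1 (d i k)).1, g2⟩
  by_cases k : i ∈ Z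
  · rw [h3 _ (b i k).1, h2 i (z1 k).1]
  by_cases l : i ∈ t \ Prod.fst '' F
  · rw [h2 _ (z1 (d i l)).1, h3 i l.1]
  · rw [e i k l]

theorem hom (hy : Iw χ F y) {i j : ℕ} (h1 : χ i = χ j) (h2 : i ∉ Prod.fst '' F)
    (h3 : j ∉ Prod.fst '' F) (U : Ult PD) :
    E U (mk U (dN i)) (mk U y) → E U (mk U (dN j)) (mk U y) := by
  refine by_dense (H := fun U => E U (mk U (dN i)) (mk U y))
    (R := fun U => E U (mk U (dN j)) (mk U y)) (fun p hp => ?_) U
  obtain ⟨g, a, b, r, c, d⟩ := lift (Equiv.swap i j) (le_refl p) fun n =>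
    ((p.pos (inl n)).sdiff (toFinite {i, j})).mono fun k l => ⟨l.1, by
      simp only [Set.mem_sdiff, mem_insert_iff, mem_singleton_iff, not_or] at l
      show Equiv.swap i j k ∈ p.f (inl n)
      rw [Equiv.swap_apply_of_ne_of_ne l.2.1 l.2.2]
      exact l.1⟩
  refine ⟨r, c, (frc_mv (g := g) fun V hV => ?_).mono d⟩
  have := (E_mv (g := g)).2 (hp V hV)
  rwa [dN_act, a, Equiv.swap_apply_left, hy g ⟨fun k => by
    rw [a, Equiv.swap_apply_def]; split_ifs <;> simp_all, fun t e => b t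
      (Equiv.swap_apply_of_ne_of_ne (fun f => h2 ⟨t, e, f⟩) fun f => h3 ⟨t, e, f⟩)⟩] at this

def DN : Nm PD := setN dN univ
def BN : Nm PD := setN bN univ
def WN : Nm PD := setN natN univ

theorem trace (hy : HS GD y) (U : Ult PD) : ∃ β, E U β (mk U BN) ∧
    ∀ z, E U z (mk U DN) → (E U z β ↔ E U z (mk U y)) := by
  classical
  obtain ⟨ι, _, χ, F, hF, hy⟩ := ev_iff.1 (hs_iff.1 hy).1
  haveI := (hF.image Prod.fst).to_subtype
  let ψ : ℕ → ι ⊕ (Prod.fst '' F) := fun i => if h : i ∈ Prod.fst '' F then inr ⟨i, h⟩ else inl (χ i)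
  have k : ∀ i j, ψ i = ψ j → ∀ V, E V (mk V (dN i)) (mk V y) → E V (mk V (dN j)) (mk V y) := by
    intro i j e V
    by_cases a : i ∈ Prod.fst '' F <;> by_cases b : j ∈ Prod.fst '' F <;>
      simp only [ψ, a, b, dite_true, dite_false, inr.injEq, inl.injEq, Subtype.mk.injEq, reduceCtorEq] at e
    exacts [e ▸ id, hom hy e a b V]
  let r : range ψ → ℕ := fun t => t.2.choose
  have l : ∀ i V, E V (mk V (dN i)) (mk V y) ↔ E V (mk V (dN (r ⟨_, i, rfl⟩))) (mk V y) := fun i V =>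
    ⟨k _ _ (Exists.choose_spec (⟨i, rfl⟩ : ψ i ∈ range ψ)).symm V,
      k _ _ (Exists.choose_spec (⟨i, rfl⟩ : ψ i ∈ range ψ)) V⟩
  haveI : C fun V => ∀ t, E V (mk V (dN (r t))) (mk V y) ↔ E U (mk U (dN (r t))) (mk U y) :=
    ⟨cl_fin fun _ => cl⟩
  exact ⟨mk U (bN {i | E U (mk U (dN i)) (mk U y)}), setN_intro bN (mem_univ _) U, fun z a =>
    cas (S := fun V z => (∀ t, E V (mk V (dN (r t))) (mk V y) ↔ E U (mk U (dN (r t))) (mk U y)) →
      (E V z (mk V (bN {i | E U (mk U (dN i)) (mk U y)})) ↔ E V z (mk V y)))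
      (fun i _ V e => by rw [b_d, l i V, e, ← l i U]; rfl) U z a fun _ => Iff.rfl⟩

theorem fresh (p : PD) {s : Set ℕ} (hs : s.Infinite) : ∃ m, ∃ q ≤ p, q.f (inl m) ⊆ s := by
  obtain ⟨m, hm⟩ := (p.fin.preimage inl_injective.injOn).infinite_compl.nonempty
  exact ⟨m, ex_shr p _ (by rwa [not_not.1 hm, univ_inter])⟩

theorem dich (hF : F.Finite) (hy : Iw χ F y) {n : ℕ} {a : Set ℕ} {U : Ult PD}
    (h : ∀ w, E U w (mk U WN) → (App (E U) (mk U y) (mk U (natN n)) w ↔ E U w (mk U (bN a)))) (c : ι) :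
    (χ ⁻¹' {c} ∩ a).Finite ∨ (χ ⁻¹' {c} \ a).Finite := by
  by_contra hc
  rw [not_or] at hc
  obtain ⟨p, hp⟩ := Filter.nonempty_of_mem ((cl (Q := fun U => ∀ w, E U w (mk U WN) →
    (App (E U) (mk U y) (mk U (natN n)) w ↔ E U w (mk U (bN a)))) U).1 h)
  obtain ⟨Z, z1, z2, z3⟩ := thin (p.fin.preimage inl_injective.injOn) (fun n => p.f (inl n))
    (fun _ _ => p.pos _) hc.2
  obtain ⟨g, a1, a2, r, a3, a4⟩ := swp (χ := χ) (c := c) hF (le_refl p) hc.1 z2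
    (fun i k l => (z1 l).2 k.2) (fun i k => k.1) (fun i k => (z1 k).1) z3
  obtain ⟨m, q, b1, b2⟩ := fresh r (z2.sdiff (hF.image Prod.fst))
  obtain ⟨V, hV⟩ := ex_ult q
  have w := fun V : Ult PD => setN_intro natN (mem_univ m) V
  have e : gen (inl m) a ∈ V.U := b_n.1 ((hp.mono (b1.trans a3) V hV _ (w V)).1 (by
    obtain ⟨V, rfl⟩ := mv_surj g V
    refine (inv_app (hy g a1) (ck_nat _) (ck_nat _)).2 ((hp V (G_mv.1
      (frc_G (b1.trans a4) _ hV)) _ (w V)).2 ((E_mv (g := g)).1 ?_))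
    rw [nat_act, bN_act, b_n]
    exact gen_of (b2.trans (a2.trans fun i k => k.2)) _ hV))
  exact (gen_inf e (gen_of b2 V hV)).nonempty.elim fun i k => (z1 k.2.1).2 k.1

def Id (y : Nm PD) (U : Ult PD) : Prop :=
  (∀ u, E U u (mk U y) → ∀ v, E U v (mk U y) → ∀ w, E U w (mk U BN) →
    (∀ z, E U z w → E U z u ∨ E U z v) → E U w (mk U y)) ∧
  ∀ z, E U z (mk U (bN univ)) → ∃ u, E U u (mk U BN) ∧ E U u (mk U y) ∧ E U z u

instance : C (Id y) := by unfold Id; infer_instance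

abbrev In (y : Nm PD) (a : Set ℕ) (U : Ult PD) : Prop := E U (mk U (bN a)) (mk U y)

theorem Id.un {U : Ult PD} (h : Id y U) {a b c : Set ℕ} (h1 : In y a U) (h2 : In y b U)
    (e : c ⊆ a ∪ b) : In y c U := h.1 _ h1 _ h2 _ (setN_intro bN (mem_univ _) U) (b_un e U)

theorem cov {p : PD} (hp : Frc p (Id y)) (t : ℕ ⊕ ℕ) :
    ∃ q ≤ p, ∃ a, Frc q fun U => In y a U ∧ bQ a t U := by
  obtain ⟨u, hu⟩ := frc_ex (hp.imp fun U e => e.2 _ (fam_intro (A := Sum.elim dN natN) (Q := bQ univ) t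
    (by cases t; exacts [trivial, univ_mem' fun _ => subset_univ _])))
  obtain ⟨q, a, i, b⟩ := fam_elim (A := fun x : (univ : Set (Set ℕ)) => bN x) (Q := fun _ _ => True)
    (hu.imp fun _ e => e.1)
  refine ⟨q, a, i, fun U hU => ?_⟩
  have := (hu.mono a U hU).2
  rw [(b U hU).2] at this
  exact ⟨this.1, (fam_mem e_inj).1 this.2⟩

theorem Id.fin {U : Ult PD} (h : Id y U) {a : Set ℕ} (ha : a.Finite) : In y a U := by
  have k : ∀ i, In y {i} U := fun i => by_dense (H := Id y) (R := In y {i}) (fun p hp =>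
    let ⟨q, b, a, c⟩ := cov hp (inl i)
    ⟨q, b, fun V hV => (hp.mono b V hV).un (c V hV).1 (c V hV).1
      (singleton_subset_iff.2 (Or.inl (c V hV).2))⟩) U h
  induction a, ha using Set.Finite.induction_on with
  | empty => exact h.un (k 0) (k 0) (empty_subset _)
  | @insert i a _ _ ih => exact h.un (k i) ih Subset.rfl

theorem cov' {p : PD} (hp : Frc p (Id y)) (n : ℕ) :
    ∃ q ≤ p, ∃ a, Frc q (In y a) ∧ q.f (inl n) ⊆ a := by
  obtain ⟨q, b, a, c⟩ := cov hp (inr n)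
  obtain ⟨U, d, e⟩ := c.ex
  obtain ⟨r, f, g⟩ := Filter.nonempty_of_mem (inter_mem d e.2)
  exact ⟨r, le_trans f b, a, (c.mono f).imp fun _ k => k.1, g⟩

theorem cov_fin {S : Set ℕ} (hS : S.Finite) {p : PD} (hp : Frc p (Id y)) :
    ∃ q ≤ p, ∃ a, Frc q (In y a) ∧ ∀ n ∈ S, q.f (inl n) ⊆ a := by
  induction S, hS using Set.Finite.induction_on with
  | empty => exact ⟨p, le_rfl, ∅, hp.imp fun _ e => e.fin finite_empty, by simp⟩
  | @insert n S _ _ ih =>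
    obtain ⟨q, b, a, c, d⟩ := ih
    obtain ⟨r, e, a', f, g⟩ := cov' (hp.mono b) n
    refine ⟨r, e.trans b, a ∪ a', fun U hU => (hp.mono (e.trans b) U hU).un (c.mono e U hU) (f U hU)
      Subset.rfl, ?_⟩
    rintro m (rfl | k)
    exacts [g.trans subset_union_right, ((e _).trans (d m k)).trans subset_union_left]

theorem cls (hF : F.Finite) (hy : Iw χ F y) (c : ι) : ∀ U, Id y U → In y (χ ⁻¹' {c}) U := by
  refine by_dense fun p hp => ?_
  by_cases h0 : (χ ⁻¹' {c}).Finite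
  · exact ⟨p, le_rfl, hp.imp fun _ e => e.fin h0⟩
  obtain ⟨m, q1, a1, a2⟩ := fresh p h0
  obtain ⟨q2, b1, b, b2, b3⟩ := cov' (hp.mono a1) m
  obtain ⟨q3, c1, A, c2, c3⟩ := cov_fin (q2.fin.preimage inl_injective.injOn) (hp.mono (b1.trans a1))
  have l := c1.trans (b1.trans a1)
  by_cases h1 : (χ ⁻¹' {c} \ (A ∪ b)).Finite
  · exact ⟨q3, l, fun U hU => (hp.mono l U hU).un ((hp.mono l U hU).un (c2 U hU) (b2.mono c1 U hU)
      Subset.rfl) ((hp.mono l U hU).fin h1) fun i k => (em _).imp_right fun o => ⟨k, o⟩⟩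
  obtain ⟨g, d1, d2, r, d3, d4⟩ := swp (χ := χ) (c := c) (s := χ ⁻¹' {c} ∩ b) hF c1
    ((q2.pos _).mono (subset_inter ((b1 _).trans a2) b3)) h1 (fun i k o => o.2 (Or.inr k.2))
    (fun i k => k.1) (fun i k => k.1) fun n k => (q3.pos _).mono fun i o =>
      ⟨o, fun t => t.2 (Or.inl (c3 n k o))⟩
  refine ⟨r, d3.trans l, fun U hU => ?_⟩
  have e := hp.mono (d3.trans l) U hU
  have f : In y (sm g.1.1 b) U := (frc_mv (g := g) fun V hV => by
    have := (E_mv (g := g)).2 (b2 V hV)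
    rwa [bN_act, hy g d1] at this).mono d4 U hU
  refine e.un (e.un (c2.mono d3 U hU) (b2.mono (d3.trans c1) U hU) Subset.rfl)
    (e.un f (e.fin (hF.image Prod.fst)) Subset.rfl) fun i k => ?_
  by_cases o : i ∈ A ∪ b
  · exact Or.inl o
  by_cases t : i ∈ Prod.fst '' F
  exacts [Or.inr (Or.inr t), Or.inr (Or.inl (d2 ⟨⟨k, o⟩, t⟩).2)]

theorem cpt (hy : HS GD y) (U : Ult PD) (h : Id y U) : In y univ U := by
  obtain ⟨ι, _, χ, F, hF, hy⟩ := ev_iff.1 (hs_iff.1 hy).1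
  have : ∀ S : Set ι, S.Finite → In y (χ ⁻¹' S) U := fun S hS => by
    induction S, hS using Set.Finite.induction_on with
    | empty => exact h.fin finite_empty
    | @insert c S _ _ ih => exact h.un (cls hF hy c U h) ih Subset.rfl
  exact this univ finite_univ

theorem sepn {n m : ℕ} (h : n ≠ m) (U : Ult PD) : ∃ β, E U β (mk U BN) ∧ E U (mk U (natN n)) β ∧
    ¬ E U (mk U (natN m)) β :=
  (cl (Q := fun U => ∃ β, E U β (mk U BN) ∧ E U (mk U (natN n)) β ∧ ¬ E U (mk U (natN m)) β)).all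
    (fun p => let ⟨q, a, b, c⟩ := gen_sep (inl_injective.ne h) p
      ⟨q, a, c.imp fun V e => ⟨_, setN_intro bN (mem_univ b) V, b_n.2 e.1, fun f => e.2 (b_n.1 f)⟩⟩) U

end Pool.Agent.H40.Gn
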