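import Pool.Agent.H40.JzDefs3

set_option autoImplicit false

namespace Pool.Agent.H40.Jz

open Pool.Agent.H40.Bspt

variable {M : Type} (E : M → M → Prop)

/-- `(K, T, h)` is a Hausdorff compactification of the space `(X, S)`: `h` is an injective map of
the model into the compact Hausdorff space `K`, continuous, open onto its image, with dense image -/
def Cpf (X S K T : M) (h : Ex E X → M) : Prop :=
  IsTop E K T ∧ Compact E K T ∧ T2 E K T ∧ Intl E h ∧ (∀ x, E (h x) K) ∧ Function.Injective h ∧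
    (∀ U x, E U T → E (h x) U → ∃ V, E V S ∧ E x.1 V ∧ ∀ y : Ex E X, E y.1 V → E (h y) U) ∧
    (∀ V (x : Ex E X), E V S → E x.1 V → ∃ U, E U T ∧ E (h x) U ∧ ∀ y, E (h y) U → E y.1 V) ∧
    ∀ U, E U T → (∃ z, E z U) → ∃ x, E (h x) U

/-- `z` is a point of the remainder -/
def Rem {X : M} (K : M) (h : Ex E X → M) (z : M) : Prop := E z K ∧ ∀ x, h x ≠ z

/-- `(X, S)` has a denumerable remainder -/
def DenRem (X S : M) : Prop := ∃ K T h, Cpf E X S K T h ∧ ∃ φ : Om E → M, Intl E φ ∧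
  Function.Injective φ ∧ ∀ z, Rem E K h z ↔ ∃ n, z = φ n

/-- `ℕ(∞)` is a remainder of `(X, S)`: the map `n ↦ φ n`, `∞ ↦ o` is a bijection onto the remainder
and a subset `Z` of the remainder is relatively open iff it omits `o` or omits finitely many `φ n` -/
def NinfRem (X S : M) : Prop := ∃ K T h, Cpf E X S K T h ∧ ∃ (φ : Om E → M) (o : M), Intl E φ ∧
  Function.Injective φ ∧ (∀ n, φ n ≠ o) ∧ (∀ z, Rem E K h z ↔ z = o ∨ ∃ n, z = φ n) ∧
  ∀ Z, (∀ z, E z Z → Rem E K h z) → ((∃ U, E U T ∧ ∀ z, Rem E K h z → (E z U ↔ E z Z)) ↔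
    (E o Z → Few E fun n => ∃ a : IsNat E n, ¬ E (φ ⟨n, a⟩) Z))

/-- every point has a compact neighbourhood -/
def LocCompact (X S : M) : Prop :=
  ∀ x, E x X → ∃ U C, E U S ∧ E x U ∧ Sub E U C ∧ Sub E C X ∧ Compact E C S

end Pool.Agent.H40.Jz
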