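import Pool.Agent.H40.G6
import Pool.Agent.H40.JzDefs10

set_option autoImplicit false

/-! The small model with a crowded countable remainder. -/

namespace Pool.Agent.H40.Gn

open Set Filter Sum

section
open Pool.Agent.H40.Bspt Pool.Agent.H40.Jz

structure RM {M : Type} (E : M → M → Prop) where
  zf : IsZF E
  ν : ℕ → M
  num : Numer E ν
  W : M
  D : M
  B : M
  K : M
  d : ℕ → M
  x : ℕ → Ultrafilter ℕ
  w : ∀ z, E z W ↔ ∃ n, z = ν n
  dm : ∀ z, E z D ↔ ∃ i, z = d i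
  km : ∀ z, E z K ↔ (∃ i, z = d i) ∨ ∃ n, z = ν n
  di : Function.Injective d
  dn : ∀ i n, d i ≠ ν n
  fr : ∀ n a, a ∈ x n → a.Infinite
  kb : E K B
  rep : ∀ β, E β B → Sub E β K ∧ ∀ n, E (ν n) β ↔ {i | E (d i) β} ∈ x n
  tr : ∀ X, ∃ β, E β B ∧ ∀ z, E z D → (E z β ↔ E z X)
  sp : ∀ n m, n ≠ m → ∃ β, E β B ∧ E (ν n) β ∧ ¬ E (ν m) β
  cpt : ∀ I, (∀ u, E u I → ∀ v, E v I → ∀ w, E w B → (∀ z, E z w → E z u ∨ E z v) → E w I) →
    (∀ z, E z K → ∃ u, E u B ∧ E u I ∧ E z u) → E K I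
  ns : ∀ S, (∀ n, ∃ β, E β B ∧ ∀ w, E w W → (App E S (ν n) w ↔ E w β)) →
    ∃ n m, n ≠ m ∧ ∀ k, App E S (ν n) (ν k) ↔ App E S (ν m) (ν k)

end

open Pool.Agent.H42.ZF Pool.Agent.H40.Js

def db : ℕ ⊕ Fin 3 → Nm PD := Sum.elim dN ![DN, BN, bN univ]

theorem db_hs : ∀ b, HS GD (db b) := by
  rintro (i | k)
  · exact dN_hs i
  fin_cases k
  · exact hs_iff.2 ⟨Eventually.of_forall fun g U => (setN_act g.1.1 (dN_act g) _ U).trans rfl,
      fun _ => dN_hs _⟩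
  · exact hs_iff.2 ⟨Eventually.of_forall fun g U => (setN_act (f := bN) (Equiv.Set.congr g.1.1)
      (fun a V => (bN_act g a V).trans (by
        rw [show sm g.1.1 a = Equiv.Set.congr g.1.1 a from (Equiv.image_eq_preimage_symm _ _).symm]))
        _ U).trans rfl, fun _ => bN_hs _⟩
  · exact bN_hs _

def ult (U : Ult PD) (n : ℕ) : Ultrafilter ℕ := Ultrafilter.ofComplNotMemIff
  { sets := {a | gen (inl n) a ∈ U.U}
    univ_sets := univ_mem' fun _ => subset_univ _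
    sets_of_superset := gen_mono
    inter_sets := fun a b => mem_of_superset (inter_mem a b) fun _ c => subset_inter c.1 c.2 }
  fun a => ⟨(gen_or _ a U).resolve_right, fun b c => by simpa using gen_inf b c⟩

theorem ex_rm : ∃ (M : Type) (E : M → M → Prop), Nonempty (RM E) := by
  obtain ⟨G, -⟩ := ex_gm (bs_hs db_hs) (fun _ (_ : Unit) => univ) fun _ _ p => ⟨p, le_rfl, trivial⟩
  let d : ℕ → G.H := fun i => G.c (.inr (.inl i))
  have jd : ∀ i, G.j (d i) = mk G.U (dN i) := fun i => G.jc _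
  have jB : G.j (G.c (.inr (.inr 1))) = mk G.U BN := G.jc _
  have jK : G.j (G.c (.inr (.inr 2))) = mk G.U (bN univ) := G.jc _
  have jW : G.j (G.c (.inl (.inr none))) = mk G.U WN := G.jc _
  have hb : ∀ β, G.R β (G.c (.inr (.inr 1))) → ∃ a, G.j β = mk G.U (bN a) := fun β e =>
    ((G.set (f := bN) (s := univ) rfl).1 e).imp fun _ a => a.2
  refine ⟨G.H, G.R, ⟨⟨G.zf, G.n, G.num, G.c (.inl (.inr none)), G.c (.inr (.inr 0)),
    G.c (.inr (.inr 1)), G.c (.inr (.inr 2)), d, ult G.U, G.w, fun z =>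
      (G.set (f := dN) (s := univ) rfl).trans (exists_congr fun i => by simp [G.inj, jd]),
    fun z => ⟨fun e => ?_, ?_⟩, fun i k e => inl_injective (e_inj (inl i) (inl k) G.U
      ((jd i).symm.trans ((G.inj.1 e).trans (jd k)))), fun i n e => inl_ne_inr (e_inj (inl i) (inr n) G.U
      ((jd i).symm.trans ((G.inj.1 e).trans (G.jn n)))), fun n a e => by simpa using gen_inf e e,
    G.mem.2 (by rw [jK, jB]; exact setN_intro bN (mem_univ _) _), fun β e => ?_, fun X => ?_,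
    fun n m e => ?_, fun I a b => ?_, fun S h => ?_⟩⟩⟩
  · obtain ⟨⟨⟨i | n, _⟩, _⟩, -, e⟩ := G.gen z (.inr (.inr 2)) e
    exacts [Or.inl ⟨i, G.inj.2 (e.trans (jd i).symm)⟩, Or.inr ⟨n, G.inj.2 (e.trans (G.jn n).symm)⟩]
  · rintro (⟨i, rfl⟩ | ⟨n, rfl⟩) <;> rw [G.mem, jK]
    exacts [jd i ▸ b_d.2 trivial, G.jn n ▸ b_n.2 (univ_mem' fun _ => subset_univ _)]
  · obtain ⟨a, e⟩ := hb β e
    refine ⟨fun z f => ?_, fun n => ?_⟩
    · rw [G.mem] at f ⊢
      rw [jK]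
      exact (b_un (a := univ) (b := univ) (c := a) (by simp) _ _ (e ▸ f)).elim id id
    · simp only [G.mem, jd, G.jn, e, b_d, b_n]
      rfl
  · obtain ⟨y, a, b⟩ := G.nm X
    refine (G.abs (.ex 1 (.all 3 (.iff (.mem 0 1) (.mem 0 2)))) (Bspt.cons X (Bspt.cons
      (G.c (.inr (.inr 1))) fun _ => G.c (.inr (.inr 0))))).2 ?_
    simp only [S1, cs, Bspt.cons, G.jc, b]
    exact trace a G.U
  · refine (G.abs (.ex 2 (.and (.mem 1 0) (.neg (.mem 2 0)))) (Bspt.cons (G.n n) (Bspt.cons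
      (G.n m) fun _ => G.c (.inr (.inr 1))))).2 ?_
    simp only [S1, cs, Bspt.cons, jB, G.jn]
    exact sepn e G.U
  · obtain ⟨y, c, e⟩ := G.nm I
    have := (G.abs (.and (.all 0 (.all 1 (.all 3 (.imp (.all 0 (.or (.mem 0 3) (.mem 0 2)))
      (.mem 0 3))))) (.all 2 (.ex 2 (.and (.mem 0 2) (.mem 1 0))))) (Bspt.cons I (Bspt.cons
      (G.c (.inr (.inr 1))) fun _ => G.c (.inr (.inr 2))))).1 ⟨a, b⟩
    simp only [S1, cs, Bspt.cons, jB, jK, e] at this
    rw [G.mem, jK, e]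
    exact cpt c G.U this
  · obtain ⟨y, c, e⟩ := G.nm S
    obtain ⟨ι, _, χ, F, hF, hy⟩ := ev_iff.1 (hs_iff.1 c).1
    have : ∀ n, ∃ a, ∀ w, E G.U w (mk G.U WN) →
        (App (E G.U) (mk G.U y) (mk G.U (natN n)) w ↔ E G.U w (mk G.U (bN a))) := fun n => by
      obtain ⟨β, f, g⟩ := h n
      obtain ⟨a, f⟩ := hb β f
      have := (G.abs (.all 3 (.iff (.app 1 2 0) (.mem 0 3))) (Bspt.cons S (Bspt.cons (G.n n)
        (Bspt.cons β fun _ => G.c (.inl (.inr none)))))).1 g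
      simp only [S1, cs, Bspt.cons, jW, G.jn, e, f] at this
      exact ⟨a, this⟩
    choose a ha using this
    obtain ⟨n, m, f, g⟩ := Finite.exists_ne_map_eq_of_infinite fun n c => (χ ⁻¹' {c} \ a n).Finite
    refine ⟨n, m, f, fun k => ?_⟩
    obtain ⟨c, hc⟩ : ∃ c, χ ⁻¹' {c} ∈ ult G.U k :=
      ((ult G.U k).map χ).eq_pure_of_finite.imp fun c e => by
        rw [← Ultrafilter.mem_map, e]; exact Ultrafilter.mem_pure.2 rfl
    have l : ∀ n, gen (inl k) (a n) ∈ G.U.U ↔ (χ ⁻¹' {c} \ a n).Finite := fun n =>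
      ⟨fun o => (dich hF hy (ha n) c).resolve_left (gen_inf hc o),
        fun o => (gen_or _ _ _).resolve_right fun t => gen_inf hc t o⟩
    have w := setN_intro natN (mem_univ k) G.U
    simp only [G.app, G.jn, e, ha _ _ w, b_n, l, congrFun g c]

end Pool.Agent.H40.Gn
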