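import Pool.Agent.H40.G7

set_option autoImplicit false

/-! A discrete space with a denumerable remainder that does not have `ℕ(∞)` as a remainder. -/

namespace Pool.Agent.H40.Gn.RM

open Set Filter Pool.Agent.H40.Bspt Pool.Agent.H40.Jz Pool.Agent.H40.Zt

variable {M : Type} {E : M → M → Prop} (R : RM E)

def e (i : ℕ) : Ex E R.D := ⟨R.d i, (R.dm _).2 ⟨i, rfl⟩⟩

theorem e_surj (x : Ex E R.D) : ∃ i, x = R.e i := ((R.dm _).1 x.2).imp fun _ a => Subtype.ext a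

theorem mkb (P : M → Prop) [D1 E P] : ∃ β, E β R.B ∧ ∀ i, E (R.d i) β ↔ P (R.d i) := by
  obtain ⟨X, a⟩ := sep R.zf P R.D
  exact (R.tr X).imp fun β b => ⟨b.1, fun i => (b.2 _ (R.e i).2).trans
    ((a _).trans (and_iff_right (R.e i).2))⟩

theorem cof {k : ℕ} {a b : Set ℕ} (h : a ∈ R.x k) (f : (a \ b).Finite) : b ∈ R.x k :=
  by_contra fun c => R.fr k _ (inter_mem h (Ultrafilter.compl_mem_iff_notMem.2 c)) f

section
variable {R} {S K T : M} {h : Ex E R.D → M} (hS : ∀ U, E U S ↔ Sub E U R.D)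
  (c : Cpf E R.D S K T h)
include c

theorem inter {U V : M} (a : E U T) (b : E V T) : ∃ W, E W T ∧ ∀ z, E z W ↔ E z U ∧ E z V :=
  (sep R.zf (fun z => E z V) U).imp fun W d => ⟨c.1.2.2.1 U V W a b d, d⟩

theorem union {U V : M} (a : E U T) (b : E V T) : ∃ W, E W T ∧ ∀ z, E z W ↔ E z U ∨ E z V := by
  obtain ⟨P, d⟩ := R.zf.pair U V
  obtain ⟨W, f⟩ := R.zf.union P
  exact ⟨W, c.1.2.2.2 P W (fun z g => ((d z).1 g).elim (· ▸ a) (· ▸ b)) f, fun z => by simp [f, d]⟩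

theorem avoid {z U : M} (a : Rem E K h z) (b : E U T) (d : E z U) :
    {i | E (h (R.e i)) U}.Infinite := fun f => by
  have : ∀ s : Set ℕ, s.Finite → ∃ V, E V T ∧ E z V ∧ Sub E V U ∧ ∀ i ∈ s, ¬ E (h (R.e i)) V :=
    fun s hs => by
      induction s, hs using Set.Finite.induction_on with
      | empty => exact ⟨U, b, d, fun _ => id, by simp⟩
      | @insert i s _ _ ih =>
        obtain ⟨V, v1, v2, v3, v4⟩ := ih
        obtain ⟨U1, U2, u1, u2, u3, u4, u5⟩ := c.2.2.1 z _ a.1 (c.2.2.2.2.1 (R.e i)) (a.2 _).symm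
        obtain ⟨W, w1, w2⟩ := inter c v1 u1
        refine ⟨W, w1, (w2 z).2 ⟨v2, u3⟩, fun y k => v3 y ((w2 y).1 k).1, ?_⟩
        rintro j (rfl | k) l
        exacts [u5 _ (c.2.2.2.2.1 _) ((w2 _).1 l).2 u4, v4 j k ((w2 _).1 l).1]
  obtain ⟨V, v1, v2, v3, v4⟩ := this _ f
  obtain ⟨x, k⟩ := c.2.2.2.2.2.2.2.2 V v1 ⟨z, v2⟩
  obtain ⟨i, rfl⟩ := R.e_surj x
  exact v4 i (v3 _ k) k

theorem sepr {z U0 : M} (a : E z K) (b : E U0 T) (d : E z U0) : ∃ U V, E U T ∧ E V T ∧ E z U ∧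
    (∀ r, E r K → E r U0 ∨ E r V) ∧ ∀ r, E r U → ¬ E r V := by
  obtain ⟨C, hC⟩ := sep R.zf (fun V => V = U0 ∨ ∃ U, E U T ∧ E z U ∧ ∀ r, E r U → ¬ E r V) T
  obtain ⟨D, d1, d2, d3⟩ := c.2.1 C (fun V f => ((hC V).1 f).1) fun r f => by
    by_cases g : r = z
    · exact ⟨U0, (hC _).2 ⟨b, Or.inl rfl⟩, g ▸ d⟩
    · obtain ⟨U1, U2, u1, u2, u3, u4, u5⟩ := c.2.2.1 r z f a g
      exact ⟨U1, (hC _).2 ⟨u1, Or.inr ⟨U2, u2, u4, fun t k l => u5 t (c.1.1 _ u1 t l) l k⟩⟩, u3⟩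
  have : ∀ s : Set M, s.Finite → (∀ V ∈ s, E V C) → ∃ U V, E U T ∧ E V T ∧ E z U ∧
      (∀ W ∈ s, ∀ r, E r W → E r U0 ∨ E r V) ∧ ∀ r, E r U → ¬ E r V := fun s hs => by
    induction s, hs using Set.Finite.induction_on with
    | empty =>
      obtain ⟨o, ho⟩ := R.zf.emp
      exact fun _ => ⟨U0, o, b, c.1.2.2.2 o o (fun x f => absurd f (ho x)) (by simp [ho]), d, by simp,
        fun r _ => ho r⟩
    | @insert W s _ _ ih =>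
      intro f
      obtain ⟨U, V, u1, u2, u3, u4, u5⟩ := ih fun V g => f V (Or.inr g)
      obtain ⟨w, rfl | ⟨U', v1, v2, v3⟩⟩ := (hC W).1 (f W (Or.inl rfl))
      · refine ⟨U, V, u1, u2, u3, ?_, u5⟩
        rintro W' (rfl | g)
        exacts [fun _ => Or.inl, u4 W' g]
      · obtain ⟨A, a1, a2⟩ := inter c u1 v1
        obtain ⟨B, b1, b2⟩ := union c u2 w
        refine ⟨A, B, a1, b1, (a2 z).2 ⟨u3, v2⟩, ?_, fun r g k => ((b2 r).1 k).elim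
          (u5 r ((a2 r).1 g).1) (v3 r ((a2 r).1 g).2)⟩
        rintro W' (rfl | g) r k
        exacts [Or.inr ((b2 r).2 (Or.inr k)), (u4 W' g r k).imp_right fun l => (b2 r).2 (Or.inl l)]
  obtain ⟨U, V, u1, u2, u3, u4, u5⟩ := this _ (fin_ext R.num d2) d1
  exact ⟨U, V, u1, u2, u3, fun r f => (d3 r f).elim fun W g => u4 W g.1 r g.2, u5⟩

include hS

theorem fin {U V : M} (a : E U T) (b : E V T) (d : ∀ z, Rem E K h z → E z U ∨ E z V) :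
    {i | ¬ E (h (R.e i)) U ∧ ¬ E (h (R.e i)) V}.Finite := by
  obtain ⟨C, hC⟩ := sep R.zf (fun W => W = U ∨ W = V ∨ ∃ z, ∀ w, E w W → w = z) T
  obtain ⟨D, d1, d2, d3⟩ := c.2.1 C (fun V f => ((hC V).1 f).1) fun r f => by
    by_cases g : ∀ x, h x ≠ r
    · exact (d r ⟨f, g⟩).elim (fun k => ⟨U, (hC _).2 ⟨a, Or.inl rfl⟩, k⟩)
        fun k => ⟨V, (hC _).2 ⟨b, Or.inr (Or.inl rfl)⟩, k⟩
    push Not at g
    obtain ⟨x, rfl⟩ := g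
    obtain ⟨P, hP⟩ := R.zf.pair x.1 x.1
    obtain ⟨W, w1, w2, w3⟩ := c.2.2.2.2.2.2.2.1 P x ((hS P).2 fun z k => ((hP z).1 k).elim
      (· ▸ x.2) (· ▸ x.2)) ((hP _).2 (Or.inl rfl))
    refine ⟨W, (hC _).2 ⟨w1, Or.inr (Or.inr ⟨h x, fun z k => by_contra fun l => ?_⟩)⟩, w2⟩
    obtain ⟨U1, U2, u1, u2, u3, u4, u5⟩ := c.2.2.1 z _ (c.1.1 _ w1 z k) f l
    obtain ⟨A, a1, a2⟩ := inter c w1 u1
    obtain ⟨y, m⟩ := c.2.2.2.2.2.2.2.2 A a1 ⟨z, (a2 z).2 ⟨k, u3⟩⟩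
    obtain rfl : y = x := Subtype.ext (((hP _).1 (w3 y ((a2 _).1 m).1)).elim id id)
    exact u5 _ f ((a2 _).1 m).2 u4
  refine ((fin_ext R.num d2).biUnion (t := fun W => {i | (∃ z, ∀ w, E w W → w = z) ∧
    E (h (R.e i)) W}) fun W _ => Set.Subsingleton.finite fun i ⟨⟨z, k⟩, l⟩ j m => R.di
      (congrArg Subtype.val (c.2.2.2.2.2.1 ((k _ l).trans (k _ m.2).symm)))).subset fun i k => ?_
  obtain ⟨W, l, m⟩ := d3 _ (c.2.2.2.2.1 (R.e i))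
  exact mem_biUnion l ⟨(((hC W).1 (d1 W l)).2.resolve_left fun n => k.1 (n ▸ m)).resolve_left
    fun n => k.2 (n ▸ m), m⟩

end

theorem cmp {β : M} (a : E β R.B) : ∃ γ, E γ R.B ∧ ∀ z, E z R.K → (E z γ ↔ ¬ E z β) := by
  obtain ⟨γ, b, c⟩ := R.mkb fun z => ¬ E z β
  refine ⟨γ, b, fun z d => ?_⟩
  rcases (R.km z).1 d with ⟨i, rfl⟩ | ⟨n, rfl⟩
  · exact c i
  · simp only [(R.rep _ a).2, (R.rep _ b).2, c]
    exact Ultrafilter.compl_mem_iff_notMem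

theorem sing (i : ℕ) : ∃ β, E β R.B ∧ ∀ z, E z β ↔ z = R.d i := by
  obtain ⟨β, b, c⟩ := R.mkb fun z => z = R.d i
  refine ⟨β, b, fun z => ⟨fun d => ?_, fun d => d ▸ (c i).2 rfl⟩⟩
  rcases (R.km z).1 ((R.rep _ b).1 z d) with ⟨j, rfl⟩ | ⟨n, rfl⟩
  · exact (c j).1 d
  · exact absurd ((finite_singleton i).subset fun j k => R.di ((c j).1 k))
      (R.fr n _ (((R.rep _ b).2 n).1 d))

theorem ex_cpf {S : M} (hS : ∀ U, E U S ↔ Sub E U R.D) : ∃ T, Cpf E R.D S R.K T (·.1) ∧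
    ∀ β, E β R.B → E β T := by
  obtain ⟨P, hP⟩ := R.zf.power R.K
  obtain ⟨T, hT⟩ := sep R.zf (fun U => ∀ z, E z U → ∃ β, E β R.B ∧ E z β ∧ Sub E β U) P
  have bt : ∀ β, E β R.B → E β T := fun β a => (hT _).2 ⟨(hP _).2 (R.rep _ a).1, fun z b =>
    ⟨β, a, b, fun _ => id⟩⟩
  have dk : ∀ x : Ex E R.D, E x.1 R.K := fun x => (R.km _).2 (Or.inl ((R.dm _).1 x.2))
  refine ⟨T, ⟨⟨fun U a => (hP _).1 ((hT U).1 a).1, bt _ R.kb, fun U V W a b c => (hT W).2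
    ⟨(hP _).2 fun z d => (hP _).1 ((hT U).1 a).1 z ((c z).1 d).1, fun z d => ?_⟩, fun C W a b =>
      (hT W).2 ⟨(hP _).2 fun z c => ((b z).1 c).elim fun U d => (hP _).1 ((hT U).1 (a U d.1)).1 z d.2,
        fun z c => ((b z).1 c).elim fun U d => (((hT U).1 (a U d.1)).2 z d.2).imp fun β f =>
          ⟨f.1, f.2.1, fun w g => (b w).2 ⟨U, d.1, f.2.2 w g⟩⟩⟩⟩, fun C a b => ?_,
    fun x y a b c => ?_, (rel R.zf (fun a b => b = a) R.D R.D).imp fun f a x y => (a _ _).trans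
      ⟨fun b => b.2.2, fun b => ⟨x.2, b ▸ x.2, b⟩⟩, dk, Subtype.val_injective, fun U x a b => ?_,
    fun V x a b => ?_, fun U a ⟨z, b⟩ => ?_⟩, bt⟩
  · obtain ⟨β, b1, b2, b3⟩ := ((hT U).1 a).2 z ((c z).1 d).1
    obtain ⟨γ, c1, c2, c3⟩ := ((hT V).1 b).2 z ((c z).1 d).2
    obtain ⟨δ, d1, d2⟩ := R.mkb fun z => E z β ∧ E z γ
    have k : ∀ w, E w R.K → (E w δ ↔ E w β ∧ E w γ) := fun w f => by
      rcases (R.km w).1 f with ⟨i, rfl⟩ | ⟨n, rfl⟩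
      · exact d2 i
      · simp only [(R.rep _ b1).2, (R.rep _ c1).2, (R.rep _ d1).2, d2]
        exact inter_mem_iff
    exact ⟨δ, d1, (k z ((R.rep _ b1).1 z b2)).2 ⟨b2, c2⟩, fun w f =>
      have := (k w ((R.rep _ d1).1 w f)).1 f
      (c w).2 ⟨b3 w this.1, c3 w this.2⟩⟩
  · obtain ⟨I, hI⟩ := sep R.zf (fun β => ∃ D, Sub E D C ∧ IsFin E D ∧ ∀ x, E x β →
      ∃ U, E U D ∧ E x U) R.B
    refine ((hI _).1 (R.cpt I (fun u c v d w f g => ?_) fun z c => ?_)).2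
    · obtain ⟨-, D, d1, d2, d3⟩ := (hI u).1 c
      obtain ⟨-, D', e1, e2, e3⟩ := (hI v).1 d
      obtain ⟨G, g1, g2⟩ := R.zf.finU' d2 e2
      exact (hI w).2 ⟨f, G, fun z k => ((g2 z).1 k).elim (d1 z) (e1 z), g1, fun x k => (g x k).elim
        (fun l => (d3 x l).imp fun U m => ⟨(g2 U).2 (Or.inl m.1), m.2⟩)
        fun l => (e3 x l).imp fun U m => ⟨(g2 U).2 (Or.inr m.1), m.2⟩⟩
    · obtain ⟨U, d, f⟩ := b z c
      obtain ⟨β, b1, b2, b3⟩ := ((hT U).1 (a U d)).2 z f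
      obtain ⟨D, d1, d2⟩ := ex_fin R.zf (finite_singleton U)
      exact ⟨β, b1, (hI β).2 ⟨b1, D, fun w g => (d2 w).1 g ▸ d, d1, fun x g =>
        ⟨U, (d2 U).2 rfl, b3 x g⟩⟩, b2⟩
  · obtain ⟨β, b1, b2, b3⟩ : ∃ β, E β R.B ∧ E x β ∧ ¬ E y β := by
      rcases (R.km x).1 a with ⟨i, rfl⟩ | ⟨n, rfl⟩
      · exact (R.sing i).imp fun β d => ⟨d.1, (d.2 _).2 rfl, fun f => c ((d.2 _).1 f).symm⟩
      rcases (R.km y).1 b with ⟨i, rfl⟩ | ⟨m, rfl⟩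
      · obtain ⟨β, d, f⟩ := R.sing i
        exact (R.cmp d).imp fun γ g => ⟨g.1, (g.2 _ a).2 fun k => c ((f _).1 k),
          fun k => (g.2 _ b).1 k ((f _).2 rfl)⟩
      · exact R.sp n m fun d => c (d ▸ rfl)
    obtain ⟨γ, c1, c2⟩ := R.cmp b1
    exact ⟨β, γ, bt _ b1, bt _ c1, b2, (c2 y b).2 b3, fun z d f g => (c2 z d).1 g f⟩
  · obtain ⟨V, hV⟩ := R.zf.pair x.1 x.1
    exact ⟨V, (hS V).2 fun z k => ((hV z).1 k).elim (· ▸ x.2) (· ▸ x.2), (hV _).2 (Or.inl rfl),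
      fun y k => show E y.1 U from ((hV _).1 k).elim (· ▸ b) (· ▸ b)⟩
  · obtain ⟨i, rfl⟩ := R.e_surj x
    obtain ⟨β, c, d⟩ := R.sing i
    exact ⟨β, bt _ c, (d _).2 rfl, fun y f => (d y.1).1 f ▸ b⟩
  · obtain ⟨β, b1, b2, b3⟩ := ((hT U).1 a).2 z b
    rcases (R.km z).1 ((R.rep _ b1).1 z b2) with ⟨i, rfl⟩ | ⟨n, rfl⟩
    · exact ⟨R.e i, b⟩
    · exact (R.fr n _ (((R.rep _ b1).2 n).1 b2)).nonempty.elim fun i c => ⟨R.e i, b3 _ c⟩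

theorem rem {z : M} : Rem E R.K (fun x : Ex E R.D => x.1) z ↔ ∃ n, z = R.ν n :=
  ⟨fun a => ((R.km z).1 a.1).resolve_left fun ⟨i, b⟩ => a.2 (R.e i) b.symm,
    fun ⟨n, a⟩ => ⟨(R.km z).2 (Or.inr ⟨n, a⟩), fun x b => (R.e_surj x).elim fun i c =>
      R.dn i n (by rw [← a, ← b, c]; rfl)⟩⟩

theorem den {S : M} (hS : ∀ U, E U S ↔ Sub E U R.D) : DenRem E R.D S := by
  obtain ⟨T, a, -⟩ := R.ex_cpf hS
  have k : ∀ n : Om E, E n.1 R.W := fun n => (R.w _).2 ((R.num.2 _).1 n.2)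
  exact ⟨R.K, T, _, a, (·.1), (rel R.zf (fun a b => b = a) R.W R.W).imp fun f a x y => (a _ _).trans
    ⟨fun b => b.2.2, fun b => ⟨k x, b ▸ k x, b⟩⟩, Subtype.val_injective, fun z => R.rem.trans
      ⟨fun b => ⟨⟨z, (R.num.2 z).2 b⟩, rfl⟩, fun ⟨n, b⟩ => (R.num.2 z).1 (b ▸ n.2)⟩⟩

theorem no_inf {S : M} (hS : ∀ U, E U S ↔ Sub E U R.D) : ¬ NinfRem E R.D S := by
  rintro ⟨K, T, h, c, φ, o, ⟨g, hg⟩, h1, h2, h3, h4⟩
  obtain ⟨T0, c0, bt⟩ := R.ex_cpf hS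
  obtain ⟨f, hf⟩ := c.2.2.2.1
  let ψ : ℕ → M := fun n => φ ⟨R.ν n, (R.num.2 _).2 ⟨n, rfl⟩⟩
  have rm : ∀ n, Rem E K h (ψ n) := fun n => (h3 _).2 (Or.inr ⟨_, rfl⟩)
  let G : M → M → M → Prop := fun z U V => E U T ∧ E V T ∧ E z U ∧
    (∀ r, E r K → (∀ x, E x R.D → ¬ App E f x r) → r = z ∨ E r V) ∧ ∀ r, E r U → ¬ E r V
  have gr : ∀ {z U V}, G z U V → ∀ r, Rem E K h r → r = z ∨ E r V := fun a r b =>
    a.2.2.2.1 r b.1 fun x d k => b.2 ⟨x, d⟩ ((hf ⟨x, d⟩ r).1 k).symm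
  have ex : ∀ n, ∃ U V, G (ψ n) U V := fun n => by
    obtain ⟨Z, hZ⟩ := R.zf.pair (ψ n) (ψ n)
    simp only [or_self] at hZ
    obtain ⟨U0, a, b⟩ := (h4 Z fun z k => (hZ z).1 k ▸ rm n).2 fun k => absurd ((hZ o).1 k).symm (h2 _)
    obtain ⟨U, V, u1, u2, u3, u4, u5⟩ := sepr c (rm n).1 a ((b _ (rm n)).2 ((hZ _).2 rfl))
    exact ⟨U, V, u1, u2, u3, fun r k l => (u4 r k).imp_left fun m => (hZ r).1 ((b r ⟨k, fun x e =>
      l x.1 x.2 ((hf x r).2 e.symm)⟩).1 m), u5⟩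
  have mk : ∀ U, ∃ β, E β R.B ∧ ∀ i, E (R.d i) β ↔ E (h (R.e i)) U := fun U =>
    (R.mkb fun x => ∃ r, App E f x r ∧ E r U).imp fun β a => ⟨a.1, fun i => (a.2 i).trans (by
      simp only [hf (R.e i), exists_eq_left, show R.d i = (R.e i).1 from rfl])⟩
  obtain ⟨s, hs⟩ := rel R.zf (fun n w => ∃ z, App E g n z ∧ ∃ U V, (E U T ∧ E V T ∧ E z U ∧
    (∀ r, E r K → (∀ x, E x R.D → ¬ App E f x r) → r = z ∨ E r V) ∧ ∀ r, E r U → ¬ E r V) ∧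
    ∃ β, E β R.B ∧ (∀ x, E x R.D → ∀ r, App E f x r → (E x β ↔ E r U)) ∧ E w β) R.W R.W
  have key : ∀ n k U V, G (ψ n) U V → (App E s (R.ν n) (R.ν k) ↔ {i | E (h (R.e i)) U} ∈ R.x k) := by
    intro n k U V a
    have e := hg ⟨R.ν n, (R.num.2 _).2 ⟨n, rfl⟩⟩
    rw [hs, and_iff_right ((R.w _).2 ⟨_, rfl⟩), and_iff_right ((R.w _).2 ⟨_, rfl⟩)]
    refine ⟨fun ⟨z, b, U', V', d, β, b1, b2, b3⟩ => ?_, fun b => ?_⟩
    · obtain rfl := (e z).1 b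
      refine R.cof (((R.rep _ b1).2 k).1 b3) ((fin hS c a.1 d.2.1 fun r l => (gr d r l).imp_left
        fun t => by rw [t]; exact a.2.2.1).subset fun i l => ⟨l.2, d.2.2.2.2 _ ((b2 _ (R.e i).2 _ ((hf _ _).2 rfl)).1 l.1)⟩)
    · obtain ⟨β, b1, b2⟩ := mk U
      refine ⟨_, (e _).2 rfl, U, V, a, β, b1, fun x l r m => ?_, ((R.rep _ b1).2 k).2 (by simpa only [b2])⟩
      obtain ⟨i, t⟩ := R.e_surj ⟨x, l⟩
      rw [(hf ⟨x, l⟩ r).1 m, t, ← b2, show x = R.d i from congrArg Subtype.val t]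
  choose U V hU using ex
  obtain ⟨n, m, a, b⟩ := R.ns s fun n => (mk (U n)).imp fun β a => ⟨a.1, fun w b => by
    obtain ⟨k, rfl⟩ := (R.w w).1 b
    simp only [key n k _ _ (hU n), (R.rep _ a.1).2, a.2]⟩
  obtain ⟨β, b1, b2⟩ := mk (U n)
  obtain ⟨γ, c1, c2⟩ := R.cmp b1
  obtain ⟨k, hk⟩ : ∃ k, E (R.ν k) β := by_contra fun l =>
    avoid c (rm n) (hU n).1 (hU n).2.2.1 ((fin hS c0 (bt _ c1) (bt _ c1) fun z t => Or.inl
      ((c2 z t.1).2 fun u => l ((R.rem.1 t).imp fun _ v => by rwa [v] at u))).subset fun i t =>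
        and_self_iff.2 fun u => (c2 _ (c0.2.2.2.2.1 (R.e i))).1 u ((b2 i).2 t))
  rw [(R.rep _ b1).2] at hk
  simp only [b2] at hk
  refine R.fr k _ (inter_mem hk ((key m k _ _ (hU m)).1 ((b k).1 ((key n k _ _ (hU n)).2 hk))))
    ((fin hS c (hU n).2.1 (hU m).2.1 fun r l => (gr (hU n) r l).symm.imp_right fun t =>
      (gr (hU m) r l).resolve_left fun u => a (nu_inj R.zf R.num (congrArg Subtype.val
        (h1 (t.symm.trans u))))).subset fun i l => ⟨(hU n).2.2.2.2 _ l.1, (hU m).2.2.2.2 _ l.2⟩)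

theorem inf : ¬ IsFin E R.D := fun a => infinite_range_of_injective R.di
  ((fin_ext R.num a).subset fun _ ⟨i, b⟩ => (R.dm _).2 ⟨i, b.symm⟩)

end Pool.Agent.H40.Gn.RM
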