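import Pool.Agent.H40.G5

set_option autoImplicit false

/-! The second Cohen model: every set is covered by well-ordered many images of `𝒫(ω)`. -/

namespace Pool.Agent.H40.Gn

open Pool.Agent.H42.ZF Pool.Agent.H40.Js Set Filter Sum
open Pool.Agent.H40.Bspt (Fm IsZF)

section
variable {P : Type} [Preorder P] {Γ : Type} [Group Γ] [MulAction Γ P] [Mo Γ P] [NF Γ]

theorem ex_gm2 {B : Type} [Countable B] [Nonempty B] [Nonempty P] {ν : B → Nm P}
    (hν : ∀ b, HS Γ (ν b)) :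
    ∃ G : GM Γ ν, ∀ φ v, Bspt.Sat G.R φ v ↔ SL Γ G.U φ fun i => G.j (v i) := by
  obtain ⟨U, -, hU⟩ := ex_seq (ι := T B × Option B) (fun t => t.2.elim
    {p | Frc p (fun U => ¬ L Γ U (mk U (ev Γ ν t.1 0))) ∨ ∃ y, HS Γ y ∧
      Frc p fun U => mk U (ev Γ ν t.1 0) = mk U y} (fun b => DD (ev Γ ν t.1 0) (ν b))) (by
      rintro ⟨s, _ | b⟩ p
      · by_cases h : Frc p fun U => L Γ U (mk U (ev Γ ν s 0))
        · exact (L_elim h).imp fun q a => ⟨a.1, Or.inr a.2⟩
        · exact ((cL _).cl.decide h).imp fun q a => ⟨a.1, Or.inl a.2⟩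
      · exact DD_dense _ _ p) (Classical.arbitrary P)
  refine ⟨⟨U, Js.H Γ ν U, EH, hull_zf hν, Js.j, hb, fun _ => rfl, fun a v => (s0_iff a v).symm.trans
    ((truth hν _ v).trans (s1_iff a _ fun _ => j_L hν _)), fun a b h => ?_, fun a => ?_⟩, truth hν⟩
  · obtain ⟨s, hs⟩ := j_surj a
    obtain ⟨q, h1, h2⟩ := hU (s, some b)
    unfold EH at h
    rw [hs] at h ⊢
    exact DD_use h1 h2 h
  · obtain ⟨s, hs⟩ := j_surj a
    obtain ⟨q, h1 | ⟨y, h1, h3⟩, h2⟩ := hU (s, none)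
    · exact absurd (ev_L hν s 0) (h1 U h2)
    · exact ⟨y, h1, hs.trans (h3 U h2)⟩

omit [MulAction Γ P] [Mo Γ P] [NF Γ] [Group Γ] in
theorem rcasQ {ι : Type} {A B : ι → Nm P} {Q : ι → Ult P → Prop}
    {S : ∀ U : Ult P, M U → M U → Prop} [∀ x y, C fun U => S U (mk U x) (mk U y)]
    (h : ∀ i U, Q i U → S U (mk U (A i)) (mk U (B i))) (U : Ult P) (a b : M U)
    (hz : App (E U) (mk U (fam (fun i => kpair (A i) (B i)) Q)) a b) : S U a b := by
  obtain ⟨a, rfl⟩ := mk_surj a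
  obtain ⟨b, rfl⟩ := mk_surj b
  obtain ⟨p, h1, h2⟩ := hz
  rw [h2.uniq (isPair_kpair a b)] at h1
  refine fam_cases (R := fun U => S U (mk U a) (mk U b)) (fun i V c e => ?_) U h1
  obtain ⟨e1, e2⟩ := (e ▸ isPair_kpair a b).inj (isPair_kpair _ _)
  rw [e1, e2]
  exact h i V c

theorem kpair_act {g : Γ} {x y x' y' : Nm P} (a : Eqv (act g x) x') (b : Eqv (act g y) y') :
    Eqv (act g (kpair x y)) (kpair x' y') := upair_act (upair_act a a) (upair_act a b)

theorem hs_kpair {x y : Nm P} (a : HS Γ x) (b : HS Γ y) : HS Γ (kpair x y) :=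
  hs_upair (hs_upair a a) (hs_upair a b)

omit [MulAction Γ P] [Mo Γ P] [NF Γ] [Group Γ] in
theorem chk_tri {J : Type} : ∀ (U : Ult P) x, E U x (mk U (setN chk (univ : Set J))) →
    ∀ y, E U y (mk U (setN chk (univ : Set J))) → E U x y ∨ x = y ∨ E U y x :=
  have k : ∀ {α β : J} (U : Ult P), WellOrderingRel α β → E U (mk U (chk α)) (mk U (chk β)) :=
    fun {α β} U a => by rw [chk_eq β]; exact setN_intro chk (s := {x | WellOrderingRel x β}) a U
  cas fun α _ => cas fun β _ U => (trichotomous_of WellOrderingRel α β).imp (k U)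
    (Or.imp (congrArg fun x => mk U (chk x)) (k U))

end

def A2 : Type := ℕ × Bool

instance : MulAction (ℕ → Equiv.Perm Bool) A2 where
  smul s a := (a.1, s a.1 a.2)
  one_smul _ := rfl
  mul_smul _ _ _ := rfl

def G2 : Type := GG (ℕ → Equiv.Perm Bool) A2 ℕ

instance : Group G2 := inferInstanceAs (Group (GG (ℕ → Equiv.Perm Bool) A2 ℕ))

instance : MulAction G2 (A2 × ℕ) where
  smul g t := g.1.2 t
  one_smul _ := rfl
  mul_smul _ _ _ := rfl

abbrev P2 := FS ((A2 × ℕ) × ℕ) (Set.Nonempty (α := Bool))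

instance : MulAction G2 P2 where
  smul g p := ⟨fun t => p.f (g⁻¹ • t.1, t.2), fun _ => p.pos _,
    (p.fin.image fun t => (g • t.1, t.2)).subset fun t a => ⟨_, a, by simp⟩⟩
  one_smul _ := rfl
  mul_smul _ _ _ := rfl

instance : Mo G2 P2 := ⟨fun _ _ _ h _ => h _⟩

instance : NF G2 := suppNF G2 (univ : Set (A2 × ℕ)) fun _ _ _ => trivial

instance : Nonempty P2 := ⟨⟨fun _ => univ, fun _ => univ_nonempty, by simp⟩⟩

def cN (e : ℕ → A2 × ℕ) : Nm P2 :=
  fam (fun t : ℕ × ℕ => natN (Nat.pair t.1 t.2)) fun t U => gen (e t.1, t.2) {true} ∈ U.U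

theorem cN_act (g : G2) (e : ℕ → A2 × ℕ) : Eqv (act g (cN e)) (cN fun k => g • e k) :=
  fam_act (fun _ => nat_act g _) fun t U => by
    rw [mem_mv]
    refine iff_of_eq (congrArg (· ∈ U.U) (Set.ext fun p => ?_))
    show p.f (g⁻¹ • g • e t.1, t.2) ⊆ _ ↔ _
    simp [gen]

theorem cN_hs {e : ℕ → A2 × ℕ} (h : (range e).Finite) : HS G2 (cN e) :=
  hs_fam (supp_iff.2 ⟨_, h, subset_univ _, fun g a U => (cN_act g e U).trans (by
    rw [show (fun k => g • e k) = e from funext fun k => a _ ⟨k, rfl⟩]; rfl)⟩) fun _ => hs_nat _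

theorem cN_inj {e e' : ℕ → A2 × ℕ} {U : Ult P2} (h : mk U (cN e) = mk U (cN e')) : e = e' := by
  refine funext fun k => by_contra fun c => ?_
  refine (cl (Q := fun U => mk U (cN e) ≠ mk U (cN e'))).all (fun p => ?_) U h
  obtain ⟨m, hm⟩ := (p.fin.image Prod.snd).infinite_compl.nonempty
  have u : ∀ t, p.f (t, m) = univ := fun t => by_contra fun a => hm ⟨_, a, rfl⟩
  obtain ⟨q, d, f⟩ := ex_upd p (e k, m) (singleton_nonempty true)
  obtain ⟨r, g, i⟩ := ex_shr q (e' k, m) (s := {false}) (by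
    rw [f _ (by simpa using Ne.symm c), u, univ_inter]; exact singleton_nonempty _)
  have l : ∀ (x y : ℕ × ℕ) (U : Ult P2), mk U (natN (Nat.pair x.1 x.2)) =
      mk U (natN (Nat.pair y.1 y.2)) → x = y := fun x y U a =>
    Prod.ext (Nat.pair_eq_pair.1 (natN_inj a)).1 (Nat.pair_eq_pair.1 (natN_inj a)).2
  refine ⟨r, g.trans fun t => ?_, fun V hV a => ?_⟩
  · by_cases b : t = (e k, m)
    exacts [b ▸ u _ ▸ subset_univ _, (f t b).subset]
  · obtain ⟨s, ⟨b, n⟩, o⟩ := gen_ex ((fam_mem (x := (k, m))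
      (Q := fun t U => gen (e' t.1, t.2) {true} ∈ U.U) l).1 (a ▸ (fam_mem (x := (k, m))
      (Q := fun t U => gen (e t.1, t.2) {true} ∈ U.U) l).2 (gen_of ((g _).trans d.subset) V hV)))
      (gen_of i V hV)
    exact Bool.noConfusion ((o n).1.symm.trans (o n).2)

def wN : Nm P2 := setN natN univ

theorem svc {y : Nm P2} (hy : HS G2 y) : ∃ K Φ D, HS G2 K ∧ HS G2 Φ ∧ HS G2 D ∧ ∀ U : Ult P2,
    (∀ a, E U a (mk U K) → ∀ b, E U b (mk U K) → E U a b ∨ a = b ∨ E U b a) ∧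
    (∀ p x, App (E U) (mk U Φ) p x → ∀ q z, App (E U) (mk U Φ) q z → p = q → x = z) ∧
    ∀ x, E U x (mk U y) → ∃ p, E U p (mk U D) ∧ ∃ α, E U α (mk U K) ∧ ∃ A, E U A (mk U D) ∧
      (∀ n, E U n A → E U n (mk U wN)) ∧ IsPair (E U) p α A ∧ App (E U) (mk U Φ) p x := by
  have : ∀ i, ∃ e : ℕ → A2 × ℕ, (range e).Finite ∧ ∀ g : G2, (∀ k, g • e k = e k) →
      Eqv (act g (y.A i)) (y.A i) := fun i => by
    obtain ⟨F, a, -, b⟩ := supp_iff.1 (hs_iff.1 ((hs_iff.1 hy).2 i)).1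
    obtain ⟨e, c⟩ := (a.insert ((0, true), 0)).countable.exists_eq_range (insert_nonempty _ _)
    exact ⟨e, c ▸ a.insert _, fun g d => b g fun t f => by
      obtain ⟨k, rfl⟩ : t ∈ range e := c ▸ Or.inr f
      exact d k⟩
  choose e e1 e2 using this
  let A : G2 × y.ι → Nm P2 := fun t => kpair (chk t.2) (cN fun k => t.1 • e t.2 k)
  let D := orbN G2 (Sum.elim (fun i => kpair (chk i) (cN (e i))) fun i => cN (e i))
  refine ⟨setN chk (univ : Set y.ι), fam (fun t => kpair (A t) (act t.1 (y.A t.2))) fun _ _ => True, D,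
    (ck_set _ fun i _ => ⟨chk_hs i, fun g => chk_act g i⟩).1, hs_fam (Eventually.of_forall fun g =>
      fam_eqv ((Equiv.mulLeft g).prodCongr (Equiv.refl _)) (fun t => kpair_act (kpair_act
        (chk_act g _) fun U => (cN_act g _ U).trans (by simp [mul_smul])) fun U => by
          rw [act_mul]; rfl) fun _ _ => Iff.rfl) fun t => hs_kpair (hs_kpair (chk_hs _)
          (cN_hs (((e1 t.2).image (t.1 • ·)).subset fun _ ⟨k, a⟩ => ⟨_, ⟨k, rfl⟩, a⟩)))
            (hs_act _ ((hs_iff.1 hy).2 _)), hs_orbN (by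
      rintro (i | i)
      exacts [hs_kpair (chk_hs _) (cN_hs (e1 i)), cN_hs (e1 i)]), fun U => ⟨chk_tri U, ?_, ?_⟩⟩
  · refine rcasQ (A := A) (B := fun t => act t.1 (y.A t.2)) (S := fun U p x => ∀ q z, App (E U)
      (mk U (fam (fun t => kpair (A t) (act t.1 (y.A t.2))) fun _ _ => True)) q z → p = q → x = z)
      (fun s W _ => rcasQ (A := A)
      (B := fun t => act t.1 (y.A t.2)) (S := fun U q z => mk U (A s) = q →
        mk U (act s.1 (y.A s.2)) = z) (fun t V _ a => ?_) W) U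
    obtain ⟨b, c⟩ := (a ▸ isPair_kpair _ _ : IsPair (E V) (mk V (A t)) _ _).inj (isPair_kpair _ _)
    obtain ⟨g, i⟩ := s
    obtain ⟨g', j⟩ := t
    obtain rfl : i = j := chk_inj b
    have := (e2 i (g⁻¹ * g') fun k => by
      rw [mul_smul, ← show g • e i k = g' • e i k from congrFun (cN_inj c) k, inv_smul_smul]).act g V
    rw [act_mul, mul_inv_cancel_left] at this
    exact this.symm
  · intro x a
    obtain ⟨x, rfl⟩ := mk_surj x
    refine mem_cases (fun i V _ b => ?_) U a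
    refine ⟨_, mem_orbN _ (inl i) V, _, setN_intro chk (mem_univ i) V, _, mem_orbN _ (inr i) V,
      casQ (f := fun t : ℕ × ℕ => natN (Nat.pair t.1 t.2)) (S := fun U z => E U z (mk U wN))
        (Q := fun t U => gen (e i t.1, t.2) {true} ∈ U.U)
        (fun t W _ => setN_intro natN (mem_univ _) W) V,
      isPair_kpair _ _, _, fam_intro (A := fun t => kpair (A t) (act t.1 (y.A t.2))) (1, i) trivial, ?_⟩
    have := isPair_kpair (U := V) (A (1, i)) (act (1 : G2) (y.A i))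
    rw [b]
    rwa [act_one] at this ⊢

def zN (t : A2 × ℕ) : Nm P2 := cN fun _ => t

def uN (a : A2) : Nm P2 := setN zN {t | t.1 = a}

def pN (n : ℕ) : Nm P2 := setN uN {a | a.1 = n}

theorem uN_act (g : G2) (a : A2) : Eqv (act g (uN a)) (uN (g.1.1 • a)) := fun U => by
  rw [uN, setN_act (f := zN) g.1.2 fun t => cN_act g fun _ => t]
  refine congrArg (fun s => mk U (setN _ s)) (Set.ext fun x => ?_)
  show (g⁻¹.1.2 x).1 = a ↔ x.1 = _
  rw [g⁻¹.2 x]
  exact inv_smul_eq_iff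

theorem uN_hs (a : A2) : HS G2 (uN a) :=
  hs_iff.2 ⟨supp_iff.2 ⟨{(a, 0)}, finite_singleton _, subset_univ _, fun g e U =>
    (uN_act g a U).trans (by
      rw [show g.1.1 • a = a from (g.2 (a, 0)).symm.trans (congrArg Prod.fst (e _ rfl))])⟩,
    fun t => cN_hs (e := fun _ => t.1.1.1) (by simp)⟩

theorem pN_ck (n : ℕ) : Ck G2 (pN n) :=
  have a : ∀ g : G2, Eqv (act g (pN n)) (pN n) := fun g U =>
    (setN_act (MulAction.toPerm g.1.1) (uN_act g) _ U).trans rfl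
  ⟨hs_iff.2 ⟨Eventually.of_forall a, fun t => uN_hs t.1.1.1⟩, a⟩

theorem uN_inj {a b : A2} {U : Ult P2} (h : mk U (uN a) = mk U (uN b)) : a = b :=
  setN_cases (f := zN) (s := {t | t.1 = b}) (z := zN (a, 0))
    (R := fun _ => a = b) (fun t V c d => (congrArg Prod.fst (congrFun (cN_inj d) 0)).trans c) U
    (show E U _ (mk U (uN b)) from h ▸ setN_intro zN (s := {t | t.1 = a}) (x := (a, 0)) rfl U)

theorem flip {y : Nm P2} (hy : HS G2 y) : ∃ n, ∀ b U,
    App (E U) (mk U y) (mk U (pN n)) (mk U (uN (n, b))) →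
      App (E U) (mk U y) (mk U (pN n)) (mk U (uN (n, !b))) := by
  obtain ⟨F, a, -, c⟩ := supp_iff.1 (hs_iff.1 hy).1
  obtain ⟨n, hn⟩ := (a.image fun t => t.1.1).infinite_compl.nonempty
  refine ⟨n, fun b => by_dense fun p hp => ?_⟩
  obtain ⟨e, he⟩ := ex_move (p.fin.image fun t => t.1.2)
  let s : ℕ → Equiv.Perm Bool := fun k => if k = n then Equiv.swap true false else 1
  let g : G2 := ⟨(s, (MulAction.toPerm s).prodShear fun a : A2 => if a.1 = n then e else 1),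
    fun _ => rfl⟩
  have f : ∀ t : A2 × ℕ, t.1.1 ≠ n → g • t = t := fun t d => by
    show ((t.1.1, s t.1.1 t.1.2), (if t.1.1 = n then e else 1) t.2) = t
    simp only [s, if_neg d]
    rfl
  obtain ⟨r, r1, r2⟩ := ex_inf (p := p) (q := g • p) fun ⟨t, m⟩ => by
    obtain ⟨t, rfl⟩ := MulAction.surjective g t
    show (p.f (g • t, m) ∩ p.f (g⁻¹ • g • t, m)).Nonempty
    rw [inv_smul_smul]
    by_cases d : t.1.1 = n
    · by_cases k : p.f (t, m) = univ
      · rw [k, inter_univ]; exact p.pos _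
      rw [not_not.1 fun l => he t.2 ⟨_, k, rfl⟩ ⟨(g • t, m), l,
        show (if t.1.1 = n then e else 1) t.2 = _ by rw [if_pos d]⟩, univ_inter]
      exact p.pos _
    · rw [f t d, inter_self]; exact p.pos _
  refine ⟨r, r1, (frc_mv (g := g) fun V hV => ?_).mono r2⟩
  have := (app_iff (g := g)).2 (hp V hV)
  rw [c g fun t d => f t fun k => hn ⟨t, d, k⟩, (pN_ck n).2, uN_act] at this
  rwa [show ((n, !b) : A2) = s • (show A2 from (n, b)) from Prod.ext rfl (by
    show _ = s n b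
    cases b <;> simp [s])]

structure SM {M : Type} (E : M → M → Prop) (ν : ℕ → M) : Prop where
  svc : ∀ X, ∃ K Φ D, (∀ a, E a K → ∀ b, E b K → E a b ∨ a = b ∨ E b a) ∧
    (∀ p, E p D → ∀ x, E x X → ∀ z, E z X → Bspt.App E Φ p x → Bspt.App E Φ p z → x = z) ∧
    ∀ x, E x X → ∃ p, E p D ∧ ∃ α, E α K ∧ ∃ A, E A D ∧ (∀ n, E n A → Bspt.IsNat E n) ∧
      Bspt.IsPair E p α A ∧ Bspt.App E Φ p x
  prs : ∃ (A s : M) (P : ℕ → M) (u : ℕ → Bool → M), (∀ z, E z A ↔ ∃ n, z = P n) ∧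
    (∀ n y, Bspt.App E s (ν n) y ↔ y = P n) ∧ Function.Injective P ∧
    (∀ n z, E z (P n) ↔ ∃ b, z = u n b) ∧ (∀ n b, u n b ≠ u n !b) ∧
    ∀ f, ∃ n, ∀ b, Bspt.App E f (P n) (u n b) → Bspt.App E f (P n) (u n !b)

def sb : (ℕ × Bool) ⊕ ℕ ⊕ Bool → Nm P2 := Sum.elim uN (Sum.elim pN fun b =>
  cond b (setN pN univ) (setN (fun n => kpair (natN n) (pN n)) univ))

theorem sb_hs : ∀ b, HS G2 (sb b) := by
  rintro (a | n | _ | _)
  exacts [uN_hs a, (pN_ck n).1, (ck_set (f := fun n => kpair (natN n) (pN n)) _ fun n _ =>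
    ck_pair (ck_nat n) (pN_ck n)).1, (ck_set (f := pN) _ fun n _ => pN_ck n).1]

theorem pN_inj {m n : ℕ} {U : Ult P2} (h : mk U (pN m) = mk U (pN n)) : m = n :=
  setN_cases (f := uN) (s := {a | a.1 = n}) (z := uN (m, true))
    (R := fun _ => m = n) (fun t V c d => (congrArg Prod.fst (uN_inj d)).trans c) U
    (show E U _ (mk U (pN n)) from h ▸ setN_intro uN (s := {a | a.1 = m}) (x := (m, true)) rfl U)

theorem ex_sm : ∃ (M : Type) (E : M → M → Prop) (Q : QM E), SM E Q.ν := by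
  obtain ⟨G, hG⟩ := ex_gm2 (bs_hs sb_hs)
  have jL : ∀ a, L G2 G.U (G.j a) := fun a => (G.nm a).elim fun y k => k.2 ▸ L_hs k.1 _
  have ju : ∀ a, G.j (G.c (inr (inl a))) = mk G.U (uN a) := fun a => G.jc _
  have jp : ∀ n, G.j (G.c (inr (inr (inl n)))) = mk G.U (pN n) := fun a => G.jc _
  refine ⟨G.H, G.R, G.qm, fun X => ?_, G.c (inr (inr (inr true))), G.c (inr (inr (inr false))),
    fun n => G.c (inr (inr (inl n))), fun n b => G.c (inr (inl (n, b))), fun z => ?_, fun n y => ?_,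
    fun m n e => ?_, fun n z => ?_, fun n b e => ?_, fun f => ?_⟩
  · obtain ⟨y, hy, e⟩ := G.nm X
    obtain ⟨K, Φ, D, a, b, c, d⟩ := svc hy
    have jW : G.j (G.c (inl (inr none))) = mk G.U wN := G.jc _
    obtain ⟨K', Φ', D', f⟩ := (hG (.ex (.ex (.ex (tr (.and (.all 2 (.all 3 (.or (.mem 1 0)
      (.or (.eq 1 0) (.mem 0 1))))) (.and (.all 0 (.all 4 (.all 5 (.imp (.app 4 2 1)
        (.imp (.app 4 2 0) (.eq 1 0)))))) (.all 3 (.ex 1 (.ex 4 (.ex 3 (.and (.all 0 (.mem 0 9))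
          (.and (.pr 2 1 0) (.app 5 2 3))))))))))))) (Bspt.cons X fun _ => G.c (inl (inr none)))).2
      ⟨_, L_hs a _, _, L_hs b _, _, L_hs c _, (s1_iff _ _ (by
        rintro (_ | _ | _ | i)
        exacts [L_hs c _, L_hs b _, L_hs a _, jL _])).2 (by
          simp only [S1, cs, Bspt.cons, e, jW]
          exact ⟨(d _).1, fun p _ x _ z _ k l => (d _).2.1 p x k p z l rfl, (d _).2.2⟩)⟩
    rw [s0_iff] at f
    simp only [S0, Bspt.cons, G.w, ← G.num.2] at f
    exact ⟨K', Φ', D', f⟩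
  · exact (G.set (f := pN) (s := univ) rfl).trans (exists_congr fun n => by
      rw [G.inj, jp, and_iff_right (mem_univ _)])
  · rw [G.app, G.inj, jp, G.jc]
    refine ⟨fun a => rcasQ (A := fun n : (univ : Set ℕ) => natN n) (B := fun n => pN n)
      (Q := fun _ _ => True) (S := fun U a b => a = mk U (natN n) → b = mk U (pN n))
      (fun m V _ e => by rw [natN_inj e]) _ _ _ a (G.jn n), fun a => ?_⟩
    rw [a, show G.j (G.qm.ν n) = _ from G.jn n]
    exact ⟨_, setN_intro (fun n => kpair (natN n) (pN n)) (mem_univ n) _, isPair_kpair _ _⟩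
  · rw [G.inj, jp, jp] at e
    exact pN_inj e
  · refine (G.set (f := uN) (s := {a | a.1 = n}) rfl).trans ⟨?_, fun ⟨b, e⟩ => ⟨(n, b), rfl, ?_⟩⟩
    · rintro ⟨⟨_, b⟩, rfl, e⟩
      exact ⟨b, G.inj.2 (e.trans (ju _).symm)⟩
    · rw [e, ju]
  · rw [G.inj, ju, ju] at e
    simpa using congrArg Prod.snd (uN_inj e)
  · obtain ⟨y, hy, e⟩ := G.nm f
    refine (flip hy).imp fun n a b => ?_
    simp only [G.app, ju, jp, e]
    exact a b _

end Pool.Agent.H40.Gn
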