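import Pool.Agent.H40.GameLib

set_option autoImplicit false

namespace Pool.Agent.H40.Game

inductive Col : Type
  | a | b | d | e0 | e1 | h
  deriving DecidableEq, Fintype

abbrev Q := Option (ℕ × Bool)

open Classical in
noncomputable def sq (n : ℕ) : Bool := decide (∃ t, t * t = n)

def ee (i : Bool) : Col := if i then .e1 else .e0

noncomputable def step (r : Bool) : Q → Col → Q
  | q, .h => if r then some (0, false) else q
  | none, _ => none
  | some (n, i), .a => some (n + 1, i)
  | some (n, i), .b => some (n + 1, xor i (sq n))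
  | some (0, _), .d => none
  | some (n + 1, i), .d => some (n, i)
  | some (n, i), .e0 => if n = 0 ∧ i = false then none else some (n, i)
  | some (n, i), .e1 => if n = 0 ∧ i = true then none else some (n, i)

def qle : Q → Q → Prop
  | none, _ => True
  | some _, none => False
  | some (n, i), some (m, j) => n < m ∨ (n = m ∧ i = j)

theorem qle_refl (q : Q) : qle q q := by
  rcases q with _ | ⟨n, i⟩ <;> simp [qle]

theorem qle_trans {p q r : Q} (h1 : qle p q) (h2 : qle q r) : qle p r := by
  rcases p with _ | ⟨n, i⟩ <;> rcases q with _ | ⟨m, j⟩ <;> rcases r with _ | ⟨k, l⟩ <;>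
    simp only [qle] at * <;> grind

theorem qle_none {q : Q} (h : qle q none) : q = none := by
  rcases q with _ | ⟨n, i⟩
  · rfl
  · exact h.elim

theorem step_mono (r : Bool) {p q : Q} (h : qle p q) (c : Col) : qle (step r p c) (step r q c) := by
  rcases p with _ | ⟨n, i⟩ <;> rcases q with _ | ⟨m, j⟩
  · exact qle_refl _
  · cases c <;> cases r <;> simp [step, qle]
  · exact h.elim
  · rcases h with h | ⟨rfl, rfl⟩
    · obtain ⟨m, rfl⟩ : ∃ k, m = k + 1 := ⟨m - 1, by omega⟩
      cases c
      · simp only [step, qle]; omega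
      · simp only [step, qle]; omega
      · cases n
        · simp [step, qle]
        · simp only [step, qle]; omega
      · simp only [step, Nat.add_eq_zero_iff, one_ne_zero, and_false, false_and, if_false]
        split_ifs
        · trivial
        · exact Or.inl h
      · simp only [step, Nat.add_eq_zero_iff, one_ne_zero, and_false, false_and, if_false]
        split_ifs
        · trivial
        · exact Or.inl h
      · cases r
        · simp only [step, qle, Bool.false_eq_true, if_false]; omega
        · simp [step, qle]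
    · exact qle_refl _

theorem step_none_false (c : Col) : step false none c = none := by cases c <;> rfl

theorem step_none (r : Bool) {c : Col} (hc : c ≠ .h) : step r none c = none := by
  cases c <;> first | rfl | exact absurd rfl hc

theorem step_true_h (q : Q) : step true q .h = some (0, false) := by
  rcases q with _ | ⟨n, i⟩ <;> rfl

noncomputable def runFrom (r : Bool) (q : Q) (w : ℕ → Col) : ℕ → Q
  | 0 => q
  | t + 1 => step r (runFrom r q w t) (w t)

noncomputable def run (r : Bool) (w : ℕ → Col) : ℕ → Q := runFrom r (some (0, false)) w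

theorem run_succ (r : Bool) (w : ℕ → Col) (t : ℕ) : run r w (t + 1) = step r (run r w t) (w t) :=
  rfl

def Wsafe : Set (ℕ → Col) := {w | ∀ t, run false w t ≠ none}

def Wpi : Set (ℕ → Col) := {w | {t | run true w t = none ∧ w t = .h}.Finite}

theorem isSafety_Wsafe : IsSafety Wsafe := by
  refine ⟨{l | l.foldl (step false) (some (0, false)) = none}, ?_⟩
  ext w
  have : ∀ t, ((List.range t).map w).foldl (step false) (some (0, false)) = run false w t := by
    intro t
    induction t with
    | zero => rfl
    | succ t ih => rw [hist_succ, List.foldl_append, ih]; rfl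
  simp only [Wsafe, Set.mem_ofPred_eq, this]

def BB (q : Q) (w : ℕ → Col) : Set ℕ := {t | runFrom true q w t = none ∧ w t = .h}

theorem BB_fin (q q' : Q) (w : ℕ → Col) (h : (BB q' w).Finite) : (BB q w).Finite := by
  have agree : ∀ t0, w t0 = .h → ∀ t, t0 < t → runFrom true q w t = runFrom true q' w t := by
    intro t0 h0 t ht
    induction ht with
    | refl => simp only [runFrom, h0, step_true_h]
    | step _ ih => simp only [runFrom, ih]
  have sub : BB q w ⊆ BB q' w ∪ {t | w t = .h ∧ ∀ t0 < t, w t0 ≠ .h} := by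
    rintro t ⟨h1, h2⟩
    by_cases hh : ∀ t0 < t, w t0 ≠ .h
    · exact Or.inr ⟨h2, hh⟩
    · push Not at hh
      obtain ⟨t0, h3, h4⟩ := hh
      exact Or.inl ⟨agree t0 h4 t h3 ▸ h1, h2⟩
  refine (h.union (Set.Subsingleton.finite ?_)).subset sub
  rintro s ⟨s1, s2⟩ t ⟨t1, t2⟩
  by_contra hne
  rcases lt_or_gt_of_ne hne with h | h
  · exact t2 s h s1
  · exact s2 t h t1

theorem runFrom_cons (q : Q) (c : Col) (y : ℕ → Col) (t : ℕ) :
    runFrom true q (fun n => Nat.casesOn n c y) (t + 1) = runFrom true (step true q c) y t := by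
  induction t with
  | zero => rfl
  | succ t ih => rw [runFrom, ih]; rfl

theorem prefixIndep_Wpi : PrefixIndependent Wpi := by
  intro x y
  induction x with
  | nil => rfl
  | cons c x ih =>
    rw [← ih]
    show (BB _ (fun n => Nat.casesOn n c (cat x y))).Finite ↔ (BB _ _).Finite
    generalize cat x y = z
    constructor
    · intro h
      refine BB_fin _ (step true (some (0, false)) c) _ ?_
      refine (h.preimage (f := Nat.succ) Nat.succ_injective.injOn).subset ?_
      rintro t ⟨h1, h2⟩
      exact ⟨(runFrom_cons _ _ _ _).trans h1, h2⟩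
    · intro h
      have h' := BB_fin (step true (some (0, false)) c) _ _ h
      refine ((h'.image Nat.succ).insert 0).subset ?_
      rintro (_ | t) ⟨h1, h2⟩
      · exact Or.inl rfl
      · exact Or.inr ⟨t, ⟨(runFrom_cons _ _ _ _).symm.trans h1, h2⟩, rfl⟩

def side : Q → Bool
  | none => false
  | some (_, i) => i

/-! ### Two states of general memory suffice for the safety condition -/

section safe

variable (A : Arena Col)

noncomputable def dl (r : Bool) : Q → A.V × Col × A.V → Q := fun q e => step r q e.2.1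

def ht : Q → A.V × Col × A.V → Prop := fun q e => step false q e.2.1 = none

theorem att_down {Own : A.V → Prop} {ρ : ℕ} {v : A.V} {p q : Q} (h : qle p q)
    (ha : Att Own (dl A false) (ht A) ρ v q) : Att Own (dl A false) (ht A) ρ v p :=
  Att.sim (δ' := dl A false) (hit' := ht A) (fun q p => qle p q) (fun _ s s' e hR =>
    ⟨fun h1 => qle_none (by have := step_mono false hR e.2.1; rwa [show step false s e.2.1 = none
      from h1] at this), fun _ => Or.inr (step_mono false hR e.2.1)⟩) ρ v q p h ha

theorem run_eq {r : Bool} {π : ℕ → A.V × Col × A.V} {st : ℕ → Q} (h0 : st 0 = some (0, false))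
    (hs : ∀ t, st (t + 1) = step r (st t) (π t).2.1) (t : ℕ) :
    run r (fun n => (π n).2.1) t = st t := by
  induction t with
  | zero => exact h0.symm
  | succ t ih => rw [run_succ, ih, hs]

theorem safe_nec {S : Strategy A} {u : A.V} (h : S.Wins Wsafe u) (ρ : ℕ) :
    ¬ Att (fun v => ¬ A.isP v) (dl A false) (ht A) ρ u (some (0, false)) := by
  intro ha
  obtain ⟨π, hπ, st, h0, hst⟩ := spoil' S u ((some (0, false), ρ) : Q × ℕ)
    (fun s e => (step false s.1 e.2.1, s.2 - 1))
    (fun v s => s.1 = none ∨ Att (fun v => ¬ A.isP v) (dl A false) (ht A) s.2 v s.1)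
    (fun _ _ => True) (Or.inr ha) (by
      rintro v ⟨q, ρ⟩ (hq | hq) hp e he hv
      · exact ⟨trivial, Or.inl (by simp only at hq; rw [hq]; exact step_none_false _)⟩
      · cases ρ with
        | zero => exact hq.elim
        | succ ρ => exact ⟨trivial, hq.2 (not_not.mpr hp) e he hv⟩) (by
      rintro v ⟨q, ρ⟩ (hq | hq) hp
      · obtain ⟨e, he, hv⟩ := A.out v
        exact ⟨e, he, hv, trivial, Or.inl (by simp only at hq; rw [hq]; exact step_none_false _)⟩
      · cases ρ with
        | zero => exact hq.elim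
        | succ ρ =>
          obtain ⟨e, he, hv, h⟩ := hq.1 hp
          exact ⟨e, he, hv, trivial, h⟩)
  have e1 := run_eq A (r := false) (π := π) (st := fun t => (st t).1) (by simp [h0])
    (fun t => by simp [(hst t).1]) ρ
  have e2 : ∀ t, (st t).2 = ρ - t := by
    intro t
    induction t with
    | zero => simp [h0]
    | succ t ih => rw [(hst t).1]; simp only [ih]; omega
  rcases (hst ρ).2.1 with h1 | h1
  · exact h π hπ ρ (e1.trans h1)
  · rw [e2, Nat.sub_self] at h1
    exact h1

theorem genMem_safe : GenMemSuffices Wsafe 2 := by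
  classical
  intro A
  let Win : A.V → Q → Prop := fun v q => ∀ ρ, ¬ Att (fun v => ¬ A.isP v) (dl A false) (ht A) ρ v q
  let r : A.V → Bool → ℕ := fun v i => sInf {n | Win v (some (n, i))}
  let upd : Bool → A.V × Col × A.V → Bool := fun m e => side (step false (some (r e.1 m, m)) e.2.1)
  have key : ∀ (m : Bool) (e : A.V × Col × A.V), ¬ ht A (some (r e.1 m, m)) e →
      Win e.2.2 (dl A false (some (r e.1 m, m)) e) →
      qle (some (r e.2.2 (upd m e), upd m e)) (step false (some (r e.1 m, m)) e.2.1) ∧
        Win e.2.2 (some (r e.2.2 (upd m e), upd m e)) := by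
    intro m e h1 h2
    simp only [upd, dl, ht] at *
    generalize step false (some (r e.1 m, m)) e.2.1 = q at *
    rcases q with _ | ⟨n, i⟩
    · exact absurd rfl h1
    · have hle : r e.2.2 i ≤ n := Nat.sInf_le h2
      refine ⟨?_, Nat.sInf_mem (s := {n | Win e.2.2 (some (n, i))}) ⟨n, h2⟩⟩
      simp only [side, qle, and_true]
      omega
  obtain ⟨S, hS1, hS2⟩ := track (A := A) false upd (fun v m => Win v (some (r v m, m)))
    (fun m e => qle (some (r e.2.2 (upd m e), upd m e)) (step false (some (r e.1 m, m)) e.2.1))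
    (by
      intro v m hi hp
      obtain ⟨e, he, rfl, h1, h2⟩ := (trap hi).2 (not_not.mpr hp)
      exact ⟨e, he, rfl, key m e h1 h2⟩)
    (by
      rintro v m hi hp e he rfl
      obtain ⟨h1, h2⟩ := (trap hi).1 hp e he rfl
      exact key m e h1 h2)
  refine ⟨Bool, inferInstance, false, upd, S, rfl, ?_, hS1⟩
  rintro u ⟨S', hS'⟩ π hπ
  have hw : Win u (some (0, false)) := safe_nec A hS'
  have r0 : r u false = 0 := Nat.eq_zero_of_le_zero (Nat.sInf_le hw)
  obtain ⟨mem, h0, hm⟩ := hS2 u π (by rw [r0]; exact hw) hπ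
  have : ∀ t, qle (some (r (π t).1 (mem t), mem t)) (run false (fun n => (π n).2.1) t) := by
    intro t
    induction t with
    | zero => rw [hπ.1, h0, r0]; exact qle_refl _
    | succ t ih =>
      rw [(hm t).1, (hπ.2.1 t).2, run_succ]
      exact qle_trans (hm t).2.2 (step_mono false ih _)
  intro t ht
  have := this t
  rw [ht] at this
  exact this

end safe

/-! ### Three states suffice for the condition with resets -/

section pi

variable (A : Arena Col)

open Classical in
noncomputable def dk : Q × ℕ → A.V × Col × A.V → Q × ℕ := fun s e =>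
  (step true s.1 e.2.1, if s.1 = none ∧ e.2.1 = .h then s.2 - 1 else s.2)

def hk : Q × ℕ → A.V × Col × A.V → Prop := fun s e => (s.1 = none ∧ e.2.1 = .h) ∧ s.2 = 0

def Sf (v : A.V) (q : Q) (k : ℕ) : Prop :=
  ∀ ρ, ¬ Att (fun v => ¬ A.isP v) (dk A) (hk A) ρ v (q, k)

variable {A}

theorem Sf.up {v : A.V} {q q' : Q} {k k' : ℕ} (h : Sf A v q k) (h1 : k ≤ k')
    (h2 : qle q q' ∨ k < k') : Sf A v q' k' := by
  intro ρ ha
  refine h ρ (Att.sim (fun s s' : Q × ℕ => s'.2 ≤ s.2 ∧ (qle s'.1 s.1 ∨ s'.2 < s.2)) ?_ ρ v _ _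
    ⟨h1, h2⟩ ha)
  rintro - ⟨p, a⟩ ⟨p', a'⟩ e ⟨b1, b2⟩
  simp only [hk, dk] at *
  constructor
  · rintro ⟨⟨rfl, c2⟩, rfl⟩
    rcases b2 with b2 | b2
    · exact ⟨⟨qle_none b2, c2⟩, by omega⟩
    · omega
  · intro _
    right
    by_cases hc : e.2.1 = .h
    · simp only [hc, and_true, step_true_h, qle_refl, true_or]
      split_ifs with c1 c2 c2
      · omega
      · omega
      · subst c2
        rcases b2 with b2 | b2
        · exact absurd (qle_none b2) c1
        · omega
      · omega
    · simp only [hc, and_false, if_false]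
      exact ⟨b1, b2.imp (fun h => step_mono true h _) id⟩

theorem pi_nec {S : Strategy A} {u : A.V} (h : S.Wins Wpi u) : ∃ k, Sf A u (some (0, false)) k := by
  classical
  by_contra hu
  push Not at hu
  let Z : A.V → Prop := fun v => ∀ k, ¬ Sf A v (some (0, false)) k
  have : ∀ v, ∃ k, ¬ Z v → Sf A v (some (0, false)) k := by
    intro v
    by_cases hz : Z v
    · exact ⟨0, fun h => absurd hz h⟩
    · simp only [Z, not_forall, not_not] at hz
      exact hz.imp (fun _ h _ => h)
  choose kk hkk using this
  have := A.finV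
  obtain ⟨K, hK⟩ := Finite.exists_le kk
  let hit : Q → A.V × Col × A.V → Prop := fun q e => (q = none ∧ e.2.1 = .h) ∧ Z e.2.2
  have hz : ∀ v, ∃ ρ, Z v → Att (fun v => ¬ A.isP v) (dl A true) hit ρ v (some (0, false)) := by
    intro v
    by_cases hz : Z v
    · have := hz (K + 1)
      simp only [Sf, not_forall, not_not] at this
      obtain ⟨ρ, hρ⟩ := this
      refine ⟨ρ, fun _ => Att.sim (fun (s : Q × ℕ) (q : Q) => s = (q, K + 1)) ?_ ρ v _ _ rfl hρ⟩
      rintro ρ _ q e rfl
      refine ⟨fun h => absurd h.2 (by simp), fun ha => ?_⟩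
      by_cases hb : q = none ∧ e.2.1 = .h
      · left
        refine ⟨hb, ?_⟩
        by_contra hz
        simp only [dk, if_pos hb, Nat.add_sub_cancel] at ha
        rw [hb.2, step_true_h] at ha
        exact (hkk _ hz).up (hK _) (Or.inl (qle_refl _)) ρ ha
      · right
        simp only [dk, if_neg hb, dl]
    · exact ⟨0, fun h => absurd h hz⟩
  choose rr hrr using hz
  have key : ∀ (q : Q) (ρ : ℕ) (e : A.V × Col × A.V),
      (hit q e ∨ Att (fun v => ¬ A.isP v) (dl A true) hit ρ e.2.2 (dl A true q e)) →
      Att (fun v => ¬ A.isP v) (dl A true) hit (if hit q e then rr e.2.2 else ρ + 1 - 1) e.2.2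
        (step true q e.2.1) := by
    intro q ρ e h
    by_cases hh : hit q e
    · rw [if_pos hh, hh.1.2, step_true_h]
      exact hrr _ hh.2
    · rw [if_neg hh]
      exact h.resolve_left hh
  obtain ⟨π, hπ, st, h0, hst⟩ := spoil' S u ((some (0, false), rr u) : Q × ℕ)
    (fun s e => (step true s.1 e.2.1, if hit s.1 e then rr e.2.2 else s.2 - 1))
    (fun v s => Att (fun v => ¬ A.isP v) (dl A true) hit s.2 v s.1)
    (fun _ _ => True) (hrr u hu) (by
      rintro v ⟨q, ρ⟩ hq hp e he hv
      cases ρ with
      | zero => exact hq.elim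
      | succ ρ => exact ⟨trivial, key q ρ e (hq.2 (not_not.mpr hp) e he hv)⟩) (by
      rintro v ⟨q, ρ⟩ hq hp
      cases ρ with
      | zero => exact hq.elim
      | succ ρ =>
        obtain ⟨e, he, hv, h⟩ := hq.1 hp
        exact ⟨e, he, hv, trivial, key q ρ e h⟩)
  have e1 := run_eq A (r := true) (π := π) (st := fun t => (st t).1) (by simp [h0])
    (fun t => by simp [(hst t).1])
  obtain ⟨B, hB⟩ := (h π hπ).bddAbove
  refine no_desc (fun n => (st (B + 1 + n)).2) (fun n => ?_)
  have nh : ¬ hit (st (B + 1 + n)).1 (π (B + 1 + n)) := by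
    intro hh
    have : B + 1 + n ≤ B := hB ⟨(e1 _).trans hh.1.1, hh.1.2⟩
    omega
  have pos : (st (B + 1 + n)).2 ≠ 0 := by
    intro e
    have := (hst (B + 1 + n)).2.1
    rw [e] at this
    exact this
  show (st (B + 1 + n + 1)).2 < _
  rw [(hst (B + 1 + n)).1]
  simp only [if_neg nh]
  omega

theorem genMem_pi : GenMemSuffices Wpi 3 := by
  classical
  intro A
  let kb : A.V → ℕ := fun v => sInf {k | Sf A v none k}
  let G : A.V → Q → Prop := fun v q => 1 ≤ kb v ∧ Sf A v q (kb v - 1)
  let r : A.V → Option Bool → Q := fun v m => m.map (fun i => (sInf {n | G v (some (n, i))}, i))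
  let β : A.V → Option Bool → ℕ := fun v m => if m = none then kb v else kb v - 1
  let upd : Option Bool → A.V × Col × A.V → Option Bool := fun m e =>
    if G e.2.2 (step true (r e.1 m) e.2.1) then some (side (step true (r e.1 m) e.2.1)) else none
  have norm : ∀ (v : A.V) (q : Q) (k : ℕ), Sf A v q k →
      let m := if G v q then some (side q) else none
      qle (r v m) q ∧ β v m ≤ k ∧ Sf A v (r v m) (β v m) := by
    intro v q k h
    have h1 : Sf A v none (k + 1) := h.up (by omega) (Or.inr (by omega))
    have h2 : kb v ≤ k + 1 := Nat.sInf_le h1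
    have h3 : Sf A v none (kb v) := Nat.sInf_mem (s := {k | Sf A v none k}) ⟨_, h1⟩
    by_cases hg : G v q
    · simp only [if_pos hg]
      rcases q with _ | ⟨n, i⟩
      · have : kb v ≤ kb v - 1 := Nat.sInf_le hg.2
        have := hg.1
        omega
      · have a1 : sInf {n | G v (some (n, i))} ≤ n := Nat.sInf_le hg
        have a2 : G v (some (sInf {n | G v (some (n, i))}, i)) :=
          Nat.sInf_mem (s := {n | G v (some (n, i))}) ⟨n, hg⟩
        refine ⟨?_, ?_, ?_⟩
        · simp only [r, side, Option.map_some, qle, and_true]; omega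
        · simp only [β, reduceCtorEq, if_false]; omega
        · simp only [β, reduceCtorEq, if_false]; exact a2.2
    · simp only [if_neg hg]
      refine ⟨trivial, ?_, h3⟩
      simp only [β, if_true]
      by_contra hlt
      exact hg ⟨by omega, h.up (by omega) (Or.inl (qle_refl _))⟩
  have key : ∀ (m : Option Bool) (e : A.V × Col × A.V), ¬ hk A (r e.1 m, β e.1 m) e →
      (∀ ρ, ¬ Att (fun v => ¬ A.isP v) (dk A) (hk A) ρ e.2.2 (dk A (r e.1 m, β e.1 m) e)) →
      (qle (r e.2.2 (upd m e)) (step true (r e.1 m) e.2.1) ∧ β e.2.2 (upd m e) ≤ β e.1 m ∧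
        (r e.1 m = none ∧ e.2.1 = .h → β e.2.2 (upd m e) < β e.1 m)) ∧
        Sf A e.2.2 (r e.2.2 (upd m e)) (β e.2.2 (upd m e)) := by
    intro m e h1 h2
    obtain ⟨a1, a2, a3⟩ := norm _ _ _ h2
    refine ⟨⟨a1, le_trans a2 ?_, fun hb => lt_of_le_of_lt a2 ?_⟩, a3⟩
    · split_ifs <;> omega
    · rw [if_pos hb]
      have : β e.1 m ≠ 0 := fun h => h1 ⟨hb, h⟩
      omega
  obtain ⟨S, hS1, hS2⟩ := track (A := A) none upd (fun v m => Sf A v (r v m) (β v m))
    (fun m e => qle (r e.2.2 (upd m e)) (step true (r e.1 m) e.2.1) ∧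
      β e.2.2 (upd m e) ≤ β e.1 m ∧ (r e.1 m = none ∧ e.2.1 = .h → β e.2.2 (upd m e) < β e.1 m))
    (by
      intro v m hi hp
      obtain ⟨e, he, rfl, h1, h2⟩ := (trap hi).2 (not_not.mpr hp)
      exact ⟨e, he, rfl, key m e h1 h2⟩)
    (by
      rintro v m hi hp e he rfl
      obtain ⟨h1, h2⟩ := (trap hi).1 hp e he rfl
      exact key m e h1 h2)
  refine ⟨Option Bool, inferInstance, none, upd, S, rfl, ?_, hS1⟩
  rintro u ⟨S', hS'⟩ π hπ
  obtain ⟨k, hk⟩ := pi_nec hS'
  have h1 : Sf A u none (k + 1) := hk.up (by omega) (Or.inr (by omega))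
  obtain ⟨mem, h0, hm⟩ := hS2 u π (Nat.sInf_mem (s := {k | Sf A u none k}) ⟨_, h1⟩) hπ
  have le : ∀ t, qle (r (π t).1 (mem t)) (run true (fun n => (π n).2.1) t) := by
    intro t
    induction t with
    | zero => rw [h0]; trivial
    | succ t ih =>
      rw [(hm t).1, (hπ.2.1 t).2, run_succ]
      exact qle_trans (hm t).2.2.1 (step_mono true ih _)
  let g : ℕ → ℕ := fun t => β (π t).1 (mem t)
  have g1 : Antitone g := antitone_nat_of_succ_le (fun t => by
    simp only [g]
    rw [(hm t).1, (hπ.2.1 t).2]
    exact (hm t).2.2.2.1)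
  have g2 : ∀ t, run true (fun n => (π n).2.1) t = none ∧ (π t).2.1 = .h → g (t + 1) < g t := by
    intro t ht
    simp only [g]
    rw [(hm t).1, (hπ.2.1 t).2]
    exact (hm t).2.2.2.2 ⟨qle_none (ht.1 ▸ le t), ht.2⟩
  refine Set.Finite.of_finite_image (f := g) ((Set.finite_Iic (g 0)).subset ?_) ?_
  · rintro _ ⟨t, -, rfl⟩
    exact g1 (Nat.zero_le t)
  · intro s hs t ht e
    by_contra hne
    rcases lt_or_gt_of_ne hne with h | h
    · have := g2 s hs
      have := g1 (show s + 1 ≤ t from h)
      omega
    · have := g2 t ht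
      have := g1 (show t + 1 ≤ s from h)
      omega

end pi

end Pool.Agent.H40.Game
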