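import Pool.Agent.H40.GameAut

set_option autoImplicit false

namespace Pool.Agent.H40.Game

def wt : Col → ℤ
  | .a => 1
  | .b => 1
  | .d => -1
  | _ => 0

theorem wt_ge (c : Col) : -1 ≤ wt c := by cases c <;> simp [wt]

theorem step_level {n n' : ℕ} {i i' : Bool} {c : Col}
    (h : step false (some (n, i)) c = some (n', i')) : (n' : ℤ) = n + wt c := by
  cases c
  · simp only [step, Option.some.injEq, Prod.mk.injEq] at h; simp only [wt]; omega
  · simp only [step, Option.some.injEq, Prod.mk.injEq] at h; simp only [wt]; omega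
  · cases n
    · simp [step] at h
    · simp only [step, Option.some.injEq, Prod.mk.injEq] at h; simp only [wt]; omega
  · simp only [step] at h
    split_ifs at h
    simp only [Option.some.injEq, Prod.mk.injEq] at h; simp only [wt]; omega
  · simp only [step] at h
    split_ifs at h
    simp only [Option.some.injEq, Prod.mk.injEq] at h; simp only [wt]; omega
  · simp only [step, Bool.false_eq_true, if_false, Option.some.injEq, Prod.mk.injEq] at h
    simp only [wt]; omega

theorem step_pos {n : ℕ} (i : Bool) (c : Col) (hn : 1 ≤ n) :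
    step false (some (n, i)) c ≠ none := by
  obtain ⟨n, rfl⟩ : ∃ m, n = m + 1 := ⟨n - 1, by omega⟩
  cases c <;> simp [step]

variable {A : Arena Col}

def WinR (A : Arena Col) (v : A.V) (q : Q) : Prop := ∃ ρ, Att A.isP (dl A false) (ht A) ρ v q

theorem compl_nec {S : Strategy A} {u : A.V} (h : S.Wins Wsafeᶜ u) :
    WinR A u (some (0, false)) := by
  by_contra hu
  simp only [WinR, not_exists] at hu
  obtain ⟨π, hπ, st, h0, hst⟩ := spoil' S u (some (0, false) : Q) (dl A false)
    (fun v q => ∀ ρ, ¬ Att A.isP (dl A false) (ht A) ρ v q) (fun q e => ¬ ht A q e) hu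
    (fun v q hq hp => (trap hq).1 hp) (fun v q hq hp => (trap hq).2 hp)
  have e1 := run_eq A (r := false) (π := π) h0 (fun t => (hst t).1)
  refine h π hπ (fun t => ?_)
  rw [e1]
  cases t with
  | zero => rw [h0]; simp
  | succ t => rw [(hst t).1]; exact (hst t).2.2

/-- the region from which all levels are winning carries a positional potential strategy -/
theorem region (A : Arena Col) : ∃ (U : A.V → Prop) (f : A.V → ℕ) (K R : ℕ),
    (∀ v n i, ¬ U v → WinR A v (some (n, i)) → n ≤ R) ∧
    (∀ v, U v → A.isP v → ∃ e ∈ A.E, e.1 = v ∧ U e.2.2 ∧ (f e.2.2 : ℤ) + K * wt e.2.1 < f v) ∧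
    (∀ v, U v → ¬ A.isP v → ∀ e ∈ A.E, e.1 = v → U e.2.2 ∧ (f e.2.2 : ℤ) + K * wt e.2.1 < f v) := by
  have := A.finV
  let U0 : A.V → Prop := fun v => ∀ n i, WinR A v (some (n, i))
  have hR : ∀ v, ∃ R, ¬ U0 v → ∀ n i, WinR A v (some (n, i)) → n ≤ R := by
    intro v
    by_cases h : U0 v
    · exact ⟨0, fun h' => absurd h h'⟩
    · simp only [U0, not_forall] at h
      obtain ⟨n0, i0, h⟩ := h
      refine ⟨n0, fun _ n i ⟨ρ, hρ⟩ => ?_⟩
      by_contra hlt
      exact h ⟨ρ, att_down A (q := some (n, i)) (Or.inl (by omega)) hρ⟩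
  choose RR hRR using hR
  obtain ⟨R, hRb⟩ := Finite.exists_le RR
  let d2 : ℤ → A.V × Col × A.V → ℤ := fun j e => j + wt e.2.1
  let h2 : ℤ → A.V × Col × A.V → Prop := fun j e => j + wt e.2.1 = 0 ∧ U0 e.2.2
  have hT : ∀ v, ∃ T, U0 v → Att A.isP d2 h2 T v 1 := by
    intro v
    by_cases h : U0 v
    · obtain ⟨ρ, hρ⟩ := h (R + 2) false
      refine ⟨ρ, fun _ => Att.sim (fun (q : Q) (j : ℤ) => 1 ≤ j ∧ ∃ n i, q = some (n, i) ∧
        (n : ℤ) = R + 1 + j) ?_ ρ v _ _ ⟨le_rfl, R + 2, false, rfl, by push_cast; ring⟩ hρ⟩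
      rintro ρ _ j e ⟨hj, n, i, rfl, hn⟩
      have hne := step_pos i e.2.1 (show 1 ≤ n by omega)
      refine ⟨fun h => absurd h hne, fun ha => ?_⟩
      obtain ⟨⟨n', i'⟩, hs⟩ := Option.ne_none_iff_exists'.mp hne
      have hl := step_level hs
      have := wt_ge e.2.1
      simp only [dl, hs] at ha ⊢
      by_cases c : j + wt e.2.1 = 0
      · left
        refine ⟨c, ?_⟩
        by_contra hu
        have := (hRR _ hu n' i' ⟨ρ, ha⟩).trans (hRb _)
        omega
      · right
        exact ⟨by simp only [d2]; omega, n', i', rfl, by simp only [d2]; omega⟩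
    · exact ⟨0, fun h' => absurd h' h⟩
  choose TT hTT using hT
  obtain ⟨T, hTb⟩ := Finite.exists_le TT
  have bound : ∀ ρ v j, Att A.isP d2 h2 ρ v j → j ≤ ρ := by
    intro ρ
    induction ρ with
    | zero => exact fun _ _ h => h.elim
    | succ ρ ih =>
      intro v j h
      obtain ⟨e, -, -, h | h⟩ := h.edge
      · have := wt_ge e.2.1
        have := h.1
        omega
      · have := wt_ge e.2.1
        have := ih _ _ h
        simp only [d2] at this
        omega
  let Y : A.V → ℕ → Prop := fun v x => ∃ ρ ≤ T, ∃ j : ℤ, Att A.isP d2 h2 ρ v j ∧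
    (T : ℤ) * T + ρ - T * j ≤ x
  have hU : ∀ v, U0 v → Y v (T * T) := fun v h =>
    ⟨T, le_rfl, 1, (hTT v h).mono (hTb v), by push_cast; linarith⟩
  have key : ∀ (ρ : ℕ) (j : ℤ) (x : ℕ) (e : A.V × Col × A.V), ρ + 1 ≤ T →
      (T : ℤ) * T + (ρ + 1 : ℕ) - T * j ≤ x → (h2 j e ∨ Att A.isP d2 h2 ρ e.2.2 (d2 j e)) →
      (∃ x, Y e.2.2 x) ∧ ((sInf {x | Y e.2.2 x} : ℕ) : ℤ) + T * wt e.2.1 < x := by
    intro ρ j x e hρ hx h
    suffices ∃ x' : ℕ, Y e.2.2 x' ∧ (x' : ℤ) + T * wt e.2.1 < x by
      obtain ⟨x', a, b⟩ := this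
      have : sInf {x | Y e.2.2 x} ≤ x' := Nat.sInf_le a
      exact ⟨⟨x', a⟩, by omega⟩
    rcases h with h | h
    · refine ⟨T * T, hU _ h.2, ?_⟩
      have : wt e.2.1 = -j := by have := h.1; omega
      rw [this]
      push_cast at hx ⊢
      linarith
    · have hb := bound _ _ _ h
      have hb' : d2 j e ≤ T := by omega
      have nn : 0 ≤ (T : ℤ) * T + ρ - T * d2 j e := by nlinarith
      refine ⟨((T : ℤ) * T + ρ - T * d2 j e).toNat, ⟨ρ, by omega, _, h, by omega⟩, ?_⟩
      rw [Int.toNat_of_nonneg nn]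
      simp only [d2]
      push_cast at hx
      linarith
  refine ⟨fun v => ∃ x, Y v x, fun v => sInf {x | Y v x}, T, R, ?_, ?_, ?_⟩
  · intro v n i h hw
    exact (hRR v (fun h' => h ⟨_, hU v h'⟩) n i hw).trans (hRb v)
  · intro v hv hp
    obtain ⟨ρ, h1, j, h3, h4⟩ : Y v (sInf {x | Y v x}) := Nat.sInf_mem (s := {x | Y v x}) hv
    cases ρ with
    | zero => exact h3.elim
    | succ ρ =>
      obtain ⟨e, he, hv, h⟩ := h3.1 hp
      exact ⟨e, he, hv, key ρ j _ e h1 h4 h⟩
  · intro v hv hp e he hv'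
    obtain ⟨ρ, h1, j, h3, h4⟩ : Y v (sInf {x | Y v x}) := Nat.sInf_mem (s := {x | Y v x}) hv
    cases ρ with
    | zero => exact h3.elim
    | succ ρ => exact key ρ j _ e h1 h4 (h3.2 hp e he hv')

theorem genMem_compl : GenMemSuffices Wsafeᶜ 3 := by
  classical
  intro A
  obtain ⟨U, f, K, R, hR, hUP, hUA⟩ := region A
  let r : A.V → Bool → ℕ := fun v i => Nat.findGreatest (fun n => WinR A v (some (n, i))) R
  let rk : A.V → Q → ℕ := fun v q => sInf {ρ | Att A.isP (dl A false) (ht A) ρ v q}
  let upd : Option Bool → A.V × Col × A.V → Option Bool := fun m e =>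
    m.bind (fun i => (step false (some (r e.1 i, i)) e.2.1).map Prod.snd)
  let Inv : A.V → Option Bool → Prop := fun v m =>
    U v ∨ ∀ i, m = some i → WinR A v (some (r v i, i))
  let Good : Option Bool → A.V × Col × A.V → Prop := fun m e =>
    (U e.1 → U e.2.2 ∧ (f e.2.2 : ℤ) + K * wt e.2.1 < f e.1) ∧
    (¬ U e.1 → ∀ i, m = some i → ∀ q, step false (some (r e.1 i, i)) e.2.1 = some q →
      WinR A e.2.2 (some q) ∧ rk e.2.2 (some q) < rk e.1 (some (r e.1 i, i)))
  have rr : ∀ v n i, ¬ U v → WinR A v (some (n, i)) → n ≤ r v i ∧ WinR A v (some (r v i, i)) :=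
    fun v n i hu hw => ⟨Nat.le_findGreatest (hR v n i hu hw) hw,
      Nat.findGreatest_spec (P := fun n => WinR A v (some (n, i))) (hR v n i hu hw) hw⟩
  have key : ∀ (i : Bool) (ρ : ℕ) (e : A.V × Col × A.V), ¬ U e.1 →
      rk e.1 (some (r e.1 i, i)) = ρ + 1 →
      (ht A (some (r e.1 i, i)) e ∨
        Att A.isP (dl A false) (ht A) ρ e.2.2 (dl A false (some (r e.1 i, i)) e)) →
      Good (some i) e ∧ Inv e.2.2 (upd (some i) e) := by
    intro i ρ e hu hρ h
    have k1 : ∀ q, step false (some (r e.1 i, i)) e.2.1 = some q →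
        WinR A e.2.2 (some q) ∧ rk e.2.2 (some q) < rk e.1 (some (r e.1 i, i)) := by
      intro q hq
      rcases h with h | h
      · rw [ht, hq] at h; cases h
      · rw [dl, hq] at h
        have : rk e.2.2 (some q) ≤ ρ := Nat.sInf_le h
        exact ⟨⟨ρ, h⟩, by omega⟩
    refine ⟨⟨fun h => absurd h hu, fun _ j hj => ?_⟩, ?_⟩
    · obtain rfl := Option.some.inj hj
      exact k1
    · by_cases hu' : U e.2.2
      · exact Or.inl hu'
      · right
        intro j hj
        simp only [upd, Option.bind_some, Option.map_eq_some_iff] at hj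
        obtain ⟨⟨n, j⟩, h1, rfl⟩ := hj
        exact (rr _ n j hu' (k1 _ h1).1).2
  have rkpos : ∀ v q, WinR A v q → ∃ ρ, rk v q = ρ + 1 ∧
      Att A.isP (dl A false) (ht A) (ρ + 1) v q := by
    intro v q h
    have h1 : Att A.isP (dl A false) (ht A) (rk v q) v q :=
      Nat.sInf_mem (s := {ρ | Att A.isP (dl A false) (ht A) ρ v q}) h
    cases hr : rk v q with
    | zero => rw [hr] at h1; exact h1.elim
    | succ ρ => rw [hr] at h1; exact ⟨ρ, rfl, h1⟩
  have nonecase : ∀ e : A.V × Col × A.V, ¬ U e.1 → Good none e ∧ Inv e.2.2 (upd none e) :=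
    fun e hu => ⟨⟨fun h => absurd h hu, fun _ _ h => by cases h⟩, Or.inr (fun _ h => by cases h)⟩
  obtain ⟨S, hS1, hS2⟩ := track (A := A) (some false) upd Inv Good
    (by
      intro v m hi hp
      by_cases hu : U v
      · obtain ⟨e, he, rfl, h⟩ := hUP v hu hp
        exact ⟨e, he, rfl, ⟨fun _ => h, fun h => absurd hu h⟩, Or.inl h.1⟩
      · cases m with
        | none =>
          obtain ⟨e, he, rfl⟩ := A.out v
          exact ⟨e, he, rfl, nonecase e hu⟩
        | some i =>
          obtain ⟨ρ, h1, h2⟩ := rkpos _ _ (hi.resolve_left hu i rfl)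
          obtain ⟨e, he, rfl, h⟩ := h2.1 hp
          exact ⟨e, he, rfl, key i ρ e hu h1 h⟩)
    (by
      rintro v m hi hp e he rfl
      by_cases hu : U e.1
      · have h := hUA _ hu hp e he rfl
        exact ⟨⟨fun _ => h, fun h => absurd hu h⟩, Or.inl h.1⟩
      · cases m with
        | none => exact nonecase e hu
        | some i =>
          obtain ⟨ρ, h1, h2⟩ := rkpos _ _ (hi.resolve_left hu i rfl)
          exact key i ρ e hu h1 (h2.2 hp e he rfl))
  refine ⟨Option Bool, inferInstance, some false, upd, S, rfl, ?_, hS1⟩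
  rintro u ⟨S', hS'⟩ π hπ hsafe
  have hw := compl_nec hS'
  obtain ⟨mem, h0, hm⟩ := hS2 u π (by
    by_cases hu : U u
    · exact Or.inl hu
    · right
      intro i hi
      obtain rfl := Option.some.inj hi
      exact (rr u 0 false hu hw).2) hπ
  have : ∀ t, ∃ p : ℕ × Bool, run false (fun n => (π n).2.1) t = some p :=
    fun t => Option.ne_none_iff_exists'.mp (hsafe t)
  choose p hp using this
  have lev : ∀ t, ((p (t + 1)).1 : ℤ) = (p t).1 + wt (π t).2.1 := by
    intro t
    have := hp (t + 1)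
    rw [run_succ, hp t] at this
    exact step_level this
  by_cases hex : ∃ t0, U (π t0).1
  · obtain ⟨t0, h1⟩ := hex
    have hU : ∀ n, U (π (t0 + n)).1 := by
      intro n
      induction n with
      | zero => exact h1
      | succ n ih =>
        rw [← Nat.add_assoc, (hπ.2.1 _).2]
        exact ((hm _).2.2.1 ih).1
    refine no_desc (fun n => f (π (t0 + n)).1 + K * (p (t0 + n)).1) (fun n => ?_)
    have a := ((hm _).2.2.1 (hU n)).2
    have b := lev (t0 + n)
    rw [← (hπ.2.1 _).2] at a
    have : ((f (π (t0 + n + 1)).1 + K * (p (t0 + n + 1)).1 : ℕ) : ℤ) <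
        ((f (π (t0 + n)).1 + K * (p (t0 + n)).1 : ℕ) : ℤ) := by
      push_cast
      rw [b]
      linarith
    exact_mod_cast this
  · push Not at hex
    have stp : ∀ t i, mem t = some i → qle (some (p t)) (some (r (π t).1 i, i)) →
        ∃ n' i', step false (some (r (π t).1 i, i)) (π t).2.1 = some (n', i') ∧
          mem (t + 1) = some i' ∧ qle (some (p (t + 1))) (some (n', i')) ∧
          n' ≤ r (π (t + 1)).1 i' ∧
          rk (π (t + 1)).1 (some (n', i')) < rk (π t).1 (some (r (π t).1 i, i)) := by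
      intro t i h1 h2
      have h3 := step_mono false h2 (π t).2.1
      rw [← hp t, ← run_succ false (fun n => (π n).2.1) t, hp (t + 1)] at h3
      cases hs : step false (some (r (π t).1 i, i)) (π t).2.1 with
      | none => rw [hs] at h3; exact h3.elim
      | some q =>
        obtain ⟨n', i'⟩ := q
        rw [hs] at h3
        obtain ⟨a, b⟩ := (hm t).2.2.2 (hex t) i h1 _ hs
        rw [← (hπ.2.1 t).2] at a b
        refine ⟨n', i', rfl, ?_, h3, (rr _ _ _ (hex _) a).1, b⟩
        rw [(hm t).1, h1]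
        simp only [upd, Option.bind_some, hs, Option.map_some]
    have inv : ∀ t, ∃ i, mem t = some i ∧ qle (some (p t)) (some (r (π t).1 i, i)) := by
      intro t
      induction t with
      | zero =>
        refine ⟨false, h0, ?_⟩
        rw [← hp 0]
        show qle (some (0, false)) _
        simp only [qle, and_true]
        omega
      | succ t ih =>
        obtain ⟨i, h1, h2⟩ := ih
        obtain ⟨n', i', -, a, b, c, -⟩ := stp t i h1 h2
        refine ⟨i', a, qle_trans b ?_⟩
        simp only [qle, and_true]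
        omega
    choose ii hi1 hi2 using inv
    refine no_desc (fun t => toLex (R + (p t).1 - r (π t).1 (ii t),
      rk (π t).1 (some (r (π t).1 (ii t), ii t)))) (fun t => ?_)
    obtain ⟨n', i', a0, a, b, c, d⟩ := stp t _ (hi1 t) (hi2 t)
    obtain rfl : i' = ii (t + 1) := Option.some.inj (a.symm.trans (hi1 _))
    have l1 := step_level a0
    have l2 := lev t
    have b1 : r (π t).1 (ii t) ≤ R := Nat.findGreatest_le R
    have b2 : r (π (t + 1)).1 (ii (t + 1)) ≤ R := Nat.findGreatest_le R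
    rw [Prod.Lex.toLex_lt_toLex]
    rcases c.lt_or_eq with c | c
    · left
      simp only
      omega
    · right
      refine ⟨by simp only; omega, ?_⟩
      simp only
      rw [← c]
      exact d

end Pool.Agent.H40.Game
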