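import Mathlib

set_option autoImplicit false

namespace Pool.Agent.H40.Game

/-- A finite arena with edges coloured in `C`; `isP` marks the nodes of Protagonist, the other
nodes belong to Antagonist; an edge is a triple (source, colour, target). -/
structure Arena (C : Type) where
  V : Type
  finV : Finite V
  neV : Nonempty V
  isP : V → Prop
  E : Set (V × C × V)
  finE : E.Finite
  out : ∀ v, ∃ e ∈ E, e.1 = v

variable {C : Type}

/-- The last node of the finite path that starts at `u` and follows the edges `l`. -/
def Arena.last (A : Arena C) (u : A.V) (l : List (A.V × C × A.V)) : A.V :=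
  l.foldl (fun _ e => e.2.2) u

/-- `l` is a list of consecutive edges of the arena starting at `u`. -/
def Arena.IsPath (A : Arena C) : A.V → List (A.V × C × A.V) → Prop
  | _, [] => True
  | u, e :: l => e ∈ A.E ∧ e.1 = u ∧ A.IsPath e.2.2 l

/-- A Protagonist strategy: to every finite path (start node and edges) ending in a node of
Protagonist it assigns an outgoing edge of the last node. -/
structure Strategy (A : Arena C) where
  move : A.V → List (A.V × C × A.V) → A.V × C × A.V
  valid : ∀ u l, A.IsPath u l → A.isP (A.last u l) → move u l ∈ A.E ∧ (move u l).1 = A.last u l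

/-- `π` is an infinite play from `u` consistent with `S`. -/
def Strategy.Play {A : Arena C} (S : Strategy A) (u : A.V) (π : ℕ → A.V × C × A.V) : Prop :=
  (π 0).1 = u ∧ (∀ n, π n ∈ A.E ∧ (π (n + 1)).1 = (π n).2.2) ∧
    ∀ n, A.isP (π n).1 → π n = S.move u ((List.range n).map π)

/-- `S` wins from `u`. -/
def Strategy.Wins {A : Arena C} (S : Strategy A) (W : Set (ℕ → C)) (u : A.V) : Prop :=
  ∀ π, S.Play u π → (fun n => (π n).2.1) ∈ W

/-- `S` wins from every node from which some strategy wins. -/
def Strategy.Optimal {A : Arena C} (S : Strategy A) (W : Set (ℕ → C)) : Prop :=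
  ∀ u, (∃ S' : Strategy A, S'.Wins W u) → S.Wins W u

/-- `S` is built on the memory structure `(M, m₀, δ)`. -/
def Strategy.BuiltOn {A : Arena C} (S : Strategy A) {M : Type} (m₀ : M)
    (δ : M → A.V × C × A.V → M) : Prop :=
  ∀ u l u' l', A.IsPath u l → A.IsPath u' l' → A.last u l = A.last u' l' → A.isP (A.last u l) →
    l.foldl δ m₀ = l'.foldl δ m₀ → S.move u l = S.move u' l'

/-- In every arena some optimal strategy is built on a memory structure with `k` states. -/
def GenMemSuffices (W : Set (ℕ → C)) (k : ℕ) : Prop :=
  ∀ A : Arena C, ∃ (M : Type) (_ : Fintype M) (m₀ : M) (δ : M → A.V × C × A.V → M)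
    (S : Strategy A), Fintype.card M = k ∧ S.Optimal W ∧ S.BuiltOn m₀ δ

/-- In every arena some optimal strategy is built on a chromatic memory structure with `k`
states. -/
def ChrMemSuffices (W : Set (ℕ → C)) (k : ℕ) : Prop :=
  ∀ A : Arena C, ∃ (M : Type) (_ : Fintype M) (m₀ : M) (δ : M → C → M)
    (S : Strategy A), Fintype.card M = k ∧ S.Optimal W ∧ S.BuiltOn m₀ (fun m e => δ m e.2.1)

/-- `GenMem W`, with value `⊤` if no finite number of states suffices. -/
noncomputable def genMem (W : Set (ℕ → C)) : ℕ∞ := ⨅ (k : ℕ) (_ : GenMemSuffices W k), (k : ℕ∞)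

/-- `ChrMem W`, with value `⊤` if no finite number of states suffices. -/
noncomputable def chrMem (W : Set (ℕ → C)) : ℕ∞ := ⨅ (k : ℕ) (_ : ChrMemSuffices W k), (k : ℕ∞)

/-- `W` is a safety condition: it consists of the sequences with no initial segment in a set `P`
of forbidden words. -/
def IsSafety (W : Set (ℕ → C)) : Prop :=
  ∃ P : Set (List C), W = {w | ∀ n, (List.range n).map w ∉ P}

/-- Concatenation of a finite and an infinite word. -/
def cat : List C → (ℕ → C) → ℕ → C
  | [], y => y
  | c :: x, y => fun n => Nat.casesOn n c (cat x y)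

/-- `x y ∈ W ↔ y ∈ W` for all finite `x` and infinite `y`. -/
def PrefixIndependent (W : Set (ℕ → C)) : Prop := ∀ x y, cat x y ∈ W ↔ y ∈ W

end Pool.Agent.H40.Game
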