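import Pool.Agent.H40.GameDefs

set_option autoImplicit false

namespace Pool.Agent.H40.Game

variable {C : Type} {A : Arena C}

theorem last_snoc (u : A.V) (l : List (A.V × C × A.V)) (e : A.V × C × A.V) :
    A.last u (l ++ [e]) = e.2.2 := by
  simp [Arena.last]

theorem path_snoc (l : List (A.V × C × A.V)) (e : A.V × C × A.V) : ∀ u : A.V,
    A.IsPath u (l ++ [e]) ↔ A.IsPath u l ∧ e ∈ A.E ∧ e.1 = A.last u l := by
  induction l with
  | nil => intro u; simp [Arena.IsPath, Arena.last]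
  | cons a l ih =>
    intro u
    simp only [List.cons_append, Arena.IsPath, ih, and_assoc]
    rfl

theorem hist_succ {X : Type} (π : ℕ → X) (n : ℕ) :
    (List.range (n + 1)).map π = (List.range n).map π ++ [π n] := by
  simp [List.range_succ]

theorem Strategy.Play.path {S : Strategy A} {u : A.V} {π : ℕ → A.V × C × A.V} (h : S.Play u π)
    (n : ℕ) : A.IsPath u ((List.range n).map π) ∧ A.last u ((List.range n).map π) = (π n).1 := by
  induction n with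
  | zero => exact ⟨trivial, h.1.symm⟩
  | succ n ih =>
    rw [hist_succ, path_snoc, last_snoc]
    exact ⟨⟨ih.1, (h.2.1 n).1, ih.2.symm⟩, (h.2.1 n).2.symm⟩

theorem track {M : Type} (m₀ : M) (upd : M → A.V × C × A.V → M) (Inv : A.V → M → Prop)
    (Good : M → A.V × C × A.V → Prop)
    (hP : ∀ v m, Inv v m → A.isP v → ∃ e ∈ A.E, e.1 = v ∧ Good m e ∧ Inv e.2.2 (upd m e))
    (hA : ∀ v m, Inv v m → ¬ A.isP v → ∀ e ∈ A.E, e.1 = v → Good m e ∧ Inv e.2.2 (upd m e)) :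
    ∃ S : Strategy A, S.BuiltOn m₀ upd ∧ ∀ u π, Inv u m₀ → S.Play u π →
      ∃ mem : ℕ → M, mem 0 = m₀ ∧ ∀ t, mem (t + 1) = upd (mem t) (π t) ∧ Inv (π t).1 (mem t) ∧
        Good (mem t) (π t) := by
  have : ∀ v m, ∃ e ∈ A.E, e.1 = v ∧ (Inv v m → A.isP v → Good m e ∧ Inv e.2.2 (upd m e)) := by
    intro v m
    by_cases h : Inv v m ∧ A.isP v
    · obtain ⟨e, h1, h2, h3⟩ := hP v m h.1 h.2
      exact ⟨e, h1, h2, fun _ _ => h3⟩
    · obtain ⟨e, h1, h2⟩ := A.out v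
      exact ⟨e, h1, h2, fun a b => absurd ⟨a, b⟩ h⟩
  choose σ h1 h2 h3 using this
  refine ⟨⟨fun u l => σ (A.last u l) (l.foldl upd m₀), fun u l _ _ => ⟨h1 _ _, h2 _ _⟩⟩, ?_, ?_⟩
  · intro u l u' l' _ _ e1 _ e2
    simp only [e1, e2]
  · intro u π hu hπ
    have key : ∀ t, Inv (π t).1 (((List.range t).map π).foldl upd m₀) →
        Good (((List.range t).map π).foldl upd m₀) (π t) ∧
          Inv (π t).2.2 (upd (((List.range t).map π).foldl upd m₀) (π t)) := by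
      intro t ht
      by_cases hp : A.isP (π t).1
      · have e := hπ.2.2 t hp
        simp only [(hπ.path t).2] at e
        have := h3 _ _ ht hp
        rwa [← e] at this
      · exact hA _ _ ht hp _ (hπ.2.1 t).1 rfl
    have inv : ∀ t, Inv (π t).1 (((List.range t).map π).foldl upd m₀) := by
      intro t
      induction t with
      | zero => rw [hπ.1]; exact hu
      | succ t ih =>
        rw [hist_succ, List.foldl_append, (hπ.2.1 t).2]
        exact (key t ih).2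
    refine ⟨fun t => ((List.range t).map π).foldl upd m₀, rfl, fun t => ⟨?_, inv t,
      (key t (inv t)).1⟩⟩
    simp only [hist_succ, List.foldl_append]
    rfl

theorem spoil (S : Strategy A) (u : A.V) {St : Type} (s₀ : St) (δ : St → A.V × C × A.V → St)
    (Inv : A.V → St → Prop) (Good : St → A.V × C × A.V → Prop) (h0 : Inv u s₀)
    (hstep : ∀ l, A.IsPath u l → Inv (A.last u l) (l.foldl δ s₀) →
      ∃ e ∈ A.E, e.1 = A.last u l ∧ (A.isP (A.last u l) → e = S.move u l) ∧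
        Good (l.foldl δ s₀) e ∧ Inv e.2.2 (δ (l.foldl δ s₀) e)) :
    ∃ π, S.Play u π ∧ ∃ st : ℕ → St, st 0 = s₀ ∧ ∀ t, st (t + 1) = δ (st t) (π t) ∧
      Inv (π t).1 (st t) ∧ Good (st t) (π t) := by
  choose f h1 h2 h3 h4 h5 using hstep
  let T := {l // A.IsPath u l ∧ Inv (A.last u l) (l.foldl δ s₀)}
  let g : T → A.V × C × A.V := fun l => f l.1 l.2.1 l.2.2
  let nx : T → T := fun l => ⟨l.1 ++ [g l], by
    rw [path_snoc, last_snoc, List.foldl_append]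
    exact ⟨⟨l.2.1, h1 _ _ _, h2 _ _ _⟩, h5 _ _ _⟩⟩
  let L : ℕ → T := fun n => nx^[n] ⟨[], trivial, h0⟩
  have hL : ∀ n, L (n + 1) = nx (L n) := fun n => Function.iterate_succ_apply' _ _ _
  have hh : ∀ n, (List.range n).map (fun n => g (L n)) = (L n).1 := by
    intro n
    induction n with
    | zero => rfl
    | succ n ih => rw [hist_succ, ih, hL]
  have hs : ∀ n, (g (L n)).1 = A.last u (L n).1 := fun n => h2 _ _ _
  refine ⟨fun n => g (L n), ⟨hs 0, fun n => ⟨h1 _ _ _, ?_⟩, fun n hn => ?_⟩,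
    fun n => (L n).1.foldl δ s₀, rfl, fun t => ⟨?_, ?_, h4 _ _ _⟩⟩
  · rw [hs, hL, last_snoc]
  · rw [hh]
    exact h3 _ _ _ (hs n ▸ hn)
  · simp only [hL, nx, List.foldl_append]
    rfl
  · rw [hs]
    exact (L t).2.2

theorem spoil' (S : Strategy A) (u : A.V) {St : Type} (s₀ : St) (δ : St → A.V × C × A.V → St)
    (Inv : A.V → St → Prop) (Good : St → A.V × C × A.V → Prop) (h0 : Inv u s₀)
    (hP : ∀ v m, Inv v m → A.isP v → ∀ e ∈ A.E, e.1 = v → Good m e ∧ Inv e.2.2 (δ m e))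
    (hA : ∀ v m, Inv v m → ¬ A.isP v → ∃ e ∈ A.E, e.1 = v ∧ Good m e ∧ Inv e.2.2 (δ m e)) :
    ∃ π, S.Play u π ∧ ∃ st : ℕ → St, st 0 = s₀ ∧ ∀ t, st (t + 1) = δ (st t) (π t) ∧
      Inv (π t).1 (st t) ∧ Good (st t) (π t) := by
  refine spoil S u s₀ δ Inv Good h0 (fun l hl hi => ?_)
  by_cases hp : A.isP (A.last u l)
  · obtain ⟨a, b⟩ := S.valid u l hl hp
    exact ⟨_, a, b, fun _ => rfl, hP _ _ hi hp _ a b⟩
  · obtain ⟨e, a, b, c⟩ := hA _ _ hi hp
    exact ⟨e, a, b, fun h => absurd h hp, c⟩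

section att

variable {St : Type} (Own : A.V → Prop) (δ : St → A.V × C × A.V → St)
  (hit : St → A.V × C × A.V → Prop)

def Att : ℕ → A.V → St → Prop
  | 0, _, _ => False
  | ρ + 1, v, s => (Own v → ∃ e ∈ A.E, e.1 = v ∧ (hit s e ∨ Att ρ e.2.2 (δ s e))) ∧
      (¬ Own v → ∀ e ∈ A.E, e.1 = v → (hit s e ∨ Att ρ e.2.2 (δ s e)))

variable {Own δ hit}

theorem Att.sim {St' : Type} {δ' : St' → A.V × C × A.V → St'} {hit' : St' → A.V × C × A.V → Prop}
    (R : St → St' → Prop)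
    (h : ∀ ρ s s' e, R s s' → (hit s e → hit' s' e) ∧
      (Att Own δ hit ρ e.2.2 (δ s e) → hit' s' e ∨ R (δ s e) (δ' s' e))) :
    ∀ ρ v s s', R s s' → Att Own δ hit ρ v s → Att Own δ' hit' ρ v s'
  | 0, _, _, _, _, h0 => h0
  | ρ + 1, v, s, s', hR, h0 => by
    have key : ∀ e, (hit s e ∨ Att Own δ hit ρ e.2.2 (δ s e)) →
        (hit' s' e ∨ Att Own δ' hit' ρ e.2.2 (δ' s' e)) := by
      rintro e (h1 | h1)
      · exact Or.inl ((h ρ s s' e hR).1 h1)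
      · exact ((h ρ s s' e hR).2 h1).imp id (fun h2 => Att.sim R h ρ _ _ _ h2 h1)
    refine ⟨fun ho => ?_, fun ho e he hv => key e (h0.2 ho e he hv)⟩
    obtain ⟨e, he, hv, h1⟩ := h0.1 ho
    exact ⟨e, he, hv, key e h1⟩

theorem Att.succ : ∀ {ρ v s}, Att Own δ hit ρ v s → Att Own δ hit (ρ + 1) v s
  | 0, _, _, h => h.elim
  | _ + 1, _, _, h => ⟨fun ho => (h.1 ho).imp (fun _ h => ⟨h.1, h.2.1, h.2.2.imp id Att.succ⟩),
      fun ho e he hv => (h.2 ho e he hv).imp id Att.succ⟩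

theorem Att.mono {ρ ρ' : ℕ} {v : A.V} {s : St} (h : Att Own δ hit ρ v s) (hle : ρ ≤ ρ') :
    Att Own δ hit ρ' v s := by
  induction hle with
  | refl => exact h
  | step _ ih => exact ih.succ

theorem trap {v : A.V} {s : St} (h : ∀ ρ, ¬ Att Own δ hit ρ v s) :
    (Own v → ∀ e ∈ A.E, e.1 = v → ¬ hit s e ∧ ∀ ρ, ¬ Att Own δ hit ρ e.2.2 (δ s e)) ∧
    (¬ Own v → ∃ e ∈ A.E, e.1 = v ∧ ¬ hit s e ∧ ∀ ρ, ¬ Att Own δ hit ρ e.2.2 (δ s e)) := by
  constructor
  · intro ho e he hv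
    exact ⟨fun h1 => h 1 ⟨fun _ => ⟨e, he, hv, Or.inl h1⟩, fun h => absurd ho h⟩,
      fun ρ h1 => h (ρ + 1) ⟨fun _ => ⟨e, he, hv, Or.inr h1⟩, fun h => absurd ho h⟩⟩
  · intro ho
    by_contra hn
    have : ∀ e : A.E, ∃ ρ, e.1.1 = v → hit s e ∨ Att Own δ hit ρ e.1.2.2 (δ s e) := by
      intro e
      by_contra h1
      push Not at h1
      exact hn ⟨e, e.2, (h1 0).1, (h1 0).2.1, fun ρ => (h1 ρ).2.2⟩
    choose r hr using this
    have := A.finE.to_subtype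
    obtain ⟨B, hB⟩ := Finite.exists_le r
    exact h (B + 1) ⟨fun h => absurd h ho,
      fun _ e he hv => (hr ⟨e, he⟩ hv).imp id (fun h => h.mono (hB _))⟩

theorem Att.edge {ρ : ℕ} {v : A.V} {s : St} (h : Att Own δ hit (ρ + 1) v s) :
    ∃ e ∈ A.E, e.1 = v ∧ (hit s e ∨ Att Own δ hit ρ e.2.2 (δ s e)) := by
  by_cases ho : Own v
  · exact h.1 ho
  · obtain ⟨e, he, hv⟩ := A.out v
    exact ⟨e, he, hv, h.2 ho e he hv⟩

end att

theorem no_desc {α : Type} [Preorder α] [WellFoundedLT α] (f : ℕ → α) :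
    ¬ ∀ n, f (n + 1) < f n := by
  intro h
  obtain ⟨_, ⟨n, rfl⟩, hn⟩ := wellFounded_lt.has_min (Set.range f) ⟨_, 0, rfl⟩
  exact hn _ ⟨n + 1, rfl⟩ (h n)

theorem genMem_lt_top {W : Set (ℕ → C)} {k : ℕ} (h : GenMemSuffices W k) : genMem W < ⊤ :=
  lt_of_le_of_lt (iInf₂_le k h) (ENat.natCast_lt_top k)

theorem chrMem_eq_top {W : Set (ℕ → C)} (h : ∀ k, ¬ ChrMemSuffices W k) : chrMem W = ⊤ := by
  simp [chrMem, h]

end Pool.Agent.H40.Game
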