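import Pool.Agent.H40.GameAut

set_option autoImplicit false

namespace Pool.Agent.H40.Game

theorem iter_per {M : Type} [Fintype M] (f : M → M) (x : M) {t : ℕ} (ht : Fintype.card M ≤ t) :
    f^[t + (Fintype.card M).factorial] x = f^[t] x := by
  have key : ∀ i j : ℕ, i < j → j ≤ Fintype.card M → f^[i] x = f^[j] x →
      f^[t + (Fintype.card M).factorial] x = f^[t] x := by
    intro i j hij hj e
    obtain ⟨c, hc⟩ := Nat.dvd_factorial (m := j - i) (n := Fintype.card M) (by omega) (by omega)
    rw [hc]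
    clear hc
    induction c with
    | zero => simp
    | succ c ih =>
      rw [← ih]
      have e1 : t + (j - i) * (c + 1) = (t + (j - i) * c - i) + j := by
        rw [Nat.mul_succ]; omega
      have e2 : t + (j - i) * c = (t + (j - i) * c - i) + i := by omega
      rw [e1, Function.iterate_add_apply, ← e, ← Function.iterate_add_apply, ← e2]
  obtain ⟨i, j, hij, e⟩ := Fintype.exists_ne_map_eq_of_card_lt
    (fun i : Fin (Fintype.card M + 1) => f^[i.val] x) (by simp)
  rcases lt_or_gt_of_ne hij with h | h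
  · exact key i j h (by omega) e
  · exact key j i h (by omega) e.symm

section low

variable (k : ℕ)

def mm : ℕ := k.factorial + k + 1
def jj (x : Bool) : ℕ := if x then mm k * mm k else mm k * mm k + k.factorial
def nn : ℕ := mm k * mm k + k.factorial + k + 1

theorem sq_jj (x : Bool) : sq (jj k x) = x := by
  cases x
  · simp only [sq, jj, Bool.false_eq_true, if_false, decide_eq_false_iff_not]
    refine Nat.not_exists_sq (m := mm k) ?_ ?_
    · have := k.factorial_pos; omega
    · have : k.factorial < mm k := by unfold mm; omega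
      nlinarith
  · simp only [sq, jj, if_true, decide_eq_true_eq]
    exact ⟨_, rfl⟩

theorem jj_lt (x : Bool) : jj k x + k < nn k := by
  cases x
  · simp [jj, nn]
  · simp only [jj, nn, if_true]; omega

theorem nn_ge : 2 ≤ nn k := by
  have := k.factorial_pos
  unfold nn
  omega

def wcol (x : Bool) (t : ℕ) : Col := if t = jj k x then .b else .a

abbrev VV := Fin (2 * nn k + 2) × Bool

def zz (v : VV k) (y : Bool) : Bool := if v.1.val = 0 ∨ v.1.val = nn k then y else v.2

def col (v : VV k) (y : Bool) : Col :=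
  if v.1.val < nn k then wcol k (zz k v y) v.1.val else if v.1.val < 2 * nn k then .d
  else if v.1.val = 2 * nn k then ee (zz k v y) else .h

def nxt (v : VV k) (y : Bool) : VV k :=
  if h : v.1.val < 2 * nn k + 1 then
    (⟨v.1.val + 1, by omega⟩, if v.1.val + 1 = nn k then false else zz k v y)
  else (0, false)

@[reducible] def AL : Arena Col where
  V := VV k
  finV := inferInstance
  neV := ⟨(0, false)⟩
  isP v := v.1.val = nn k
  E := {e | ∃ y, e = (e.1, col k e.1 y, nxt k e.1 y)}
  finE := Set.toFinite _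
  out v := ⟨(v, col k v false, nxt k v false), ⟨false, rfl⟩, rfl⟩

def XX (v : VV k) (q : Q) : Prop := ∃ l i, q = some (l, i) ∧ (v.1.val ≤ nn k → l = v.1.val) ∧
  (nn k ≤ v.1.val → l = 2 * nn k - v.1.val) ∧ (nn k < v.1.val → v.1.val ≤ 2 * nn k → v.2 ≠ i)

theorem XX_step (r : Bool) (v : VV k) (l : ℕ) (i : Bool) (y : Bool) (h : XX k v (some (l, i)))
    (hy : v.1.val = nn k → y ≠ i) : XX k (nxt k v y) (step r (some (l, i)) (col k v y)) := by
  obtain ⟨⟨t, ht⟩, z⟩ := v
  obtain ⟨l, i, e, h1, h2, h3⟩ := h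
  obtain ⟨rfl, rfl⟩ := Prod.mk.inj (Option.some.inj e)
  have hn := nn_ge k
  simp only at h1 h2 h3 hy
  simp only [XX, nxt, col, zz]
  by_cases c1 : t < nn k
  · rw [dif_pos (by omega), if_pos c1]
    simp only [wcol]
    split_ifs <;> exact ⟨_, _, rfl, by omega, by omega, by omega⟩
  by_cases c2 : t < 2 * nn k
  · rw [dif_pos (by omega), if_neg c1, if_pos c2]
    obtain ⟨l, rfl⟩ : ∃ l', l = l' + 1 := ⟨l - 1, by omega⟩
    refine ⟨l, i, rfl, by simp only; omega, by simp only; omega, fun _ _ => ?_⟩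
    simp only
    rw [if_neg (by omega)]
    split_ifs with c
    · exact hy (by omega)
    · exact h3 (by omega) (by omega)
  by_cases c3 : t = 2 * nn k
  · rw [dif_pos (by omega), if_neg c1, if_neg c2, if_pos c3, if_neg (by omega)]
    have := h3 (by omega) (by omega)
    refine ⟨l, i, ?_, by simp only; omega, by simp only; omega, by simp only; omega⟩
    cases z <;> cases i <;> simp_all [ee, step]
  · rw [dif_neg (by omega), if_neg c1, if_neg c2, if_neg c3]
    have hl : l = 0 := by omega
    subst hl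
    cases r
    · exact ⟨0, i, rfl, by simp, by simp, by simp⟩
    · exact ⟨0, false, rfl, by simp, by simp, by simp⟩

theorem eve_wins (r : Bool) : ∃ S : Strategy (AL k), ∀ π, S.Play (0, false) π →
    ∀ t, run r (fun n => (π n).2.1) t ≠ none := by
  obtain ⟨S, -, hS⟩ := track (A := AL k) (some (0, false) : Q) (fun q e => step r q e.2.1)
    (XX k) (fun _ _ => True)
    (by
      intro v q hi _
      have hi' := hi
      obtain ⟨l, i, rfl, -⟩ := hi'
      exact ⟨(v, col k v (!i), nxt k v (!i)), ⟨!i, rfl⟩, rfl, trivial,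
        XX_step k r v l i _ hi (fun _ => by simp)⟩)
    (by
      rintro v q hi hp e ⟨y, he⟩ rfl
      have hi' := hi
      obtain ⟨l, i, rfl, -⟩ := hi'
      refine ⟨trivial, ?_⟩
      rw [he]
      exact XX_step k r e.1 l i _ hi (fun h => absurd h hp))
  refine ⟨S, fun π hπ t ht => ?_⟩
  have hn := nn_ge k
  obtain ⟨mem, h0, hm⟩ := hS (0, false) π ⟨0, false, rfl, by simp, by simp, by simp⟩ hπ
  rw [run_eq (AL k) h0 (fun t => (hm t).1)] at ht
  obtain ⟨l, i, e, -⟩ := (hm t).2.1
  rw [ht] at e
  cases e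

variable {M : Type} (δ : M → Col → M)

def FF (x : Bool) (μ : M) : ℕ → M
  | 0 => μ
  | t + 1 => δ (FF x μ t) (wcol k x t)

theorem FF_le (x : Bool) (μ : M) (t : ℕ) (h : t ≤ jj k x) :
    FF k δ x μ t = (fun m => δ m .a)^[t] μ := by
  induction t with
  | zero => rfl
  | succ t ih =>
    rw [FF, ih (by omega), wcol, if_neg (by omega), Function.iterate_succ_apply']

theorem FF_gt (x : Bool) (μ : M) (t : ℕ) :
    FF k δ x μ (jj k x + 1 + t) = (fun m => δ m .a)^[t] (δ ((fun m => δ m .a)^[jj k x] μ) .b) := by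
  induction t with
  | zero => rw [Nat.add_zero, FF, FF_le k δ x μ _ le_rfl, wcol, if_pos rfl]; rfl
  | succ t ih =>
    rw [← Nat.add_assoc, FF, ih, wcol, if_neg (by omega), Function.iterate_succ_apply']

theorem FF_eq [Fintype M] (hk : Fintype.card M = k) (x : Bool) (μ : M) :
    FF k δ x μ (nn k) = FF k δ true μ (nn k) := by
  cases x
  swap
  · rfl
  have e1 : nn k = jj k false + 1 + k := by simp only [jj, nn]; simp; omega
  have e2 : nn k = jj k true + 1 + (k + k.factorial) := by simp only [jj, nn]; simp; omega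
  have h1 : FF k δ false μ (nn k) = _ := e1 ▸ FF_gt k δ false μ k
  have h2 : FF k δ true μ (nn k) = _ := e2 ▸ FF_gt k δ true μ (k + k.factorial)
  rw [h1, h2]
  subst hk
  rw [iter_per _ _ le_rfl]
  simp only [jj, Bool.false_eq_true, if_false, if_true]
  rw [iter_per]
  have : Fintype.card M ≤ mm (Fintype.card M) := by unfold mm; omega
  nlinarith

def Det (Y : M → Bool) (v : VV k) (s : M × Q) : Prop :=
  (v.1.val = 0 → s.2 = some (0, false)) ∧
  (0 < v.1.val → v.1.val ≤ nn k → ∃ μ x, x = Y (FF k δ true μ (nn k)) ∧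
    s.1 = FF k δ x μ v.1.val ∧ s.2 = some (v.1.val, if jj k x < v.1.val then x else false) ∧
    v.2 = if v.1.val = nn k then false else x) ∧
  (nn k < v.1.val → v.1.val ≤ 2 * nn k → s.2 = some (2 * nn k - v.1.val, v.2)) ∧
  (v.1.val = 2 * nn k + 1 → s.2 = none)

theorem Det_step [Fintype M] (hk : Fintype.card M = k) (r : Bool) (Y : M → Bool) (v : VV k)
    (s : M × Q) (y : Bool) (h : Det k δ Y v s)
    (h0 : v.1.val = 0 → y = Y (FF k δ true s.1 (nn k))) (h1 : v.1.val = nn k → y = Y s.1) :
    (r = false ∧ step r s.2 (col k v y) = none) ∨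
      Det k δ Y (nxt k v y) (δ s.1 (col k v y), step r s.2 (col k v y)) := by
  obtain ⟨⟨t, ht⟩, z⟩ := v
  obtain ⟨μ', q⟩ := s
  obtain ⟨d0, d1, d2, d3⟩ := h
  have hn := nn_ge k
  simp only at d0 d1 d2 d3 h0 h1
  simp only [Det, nxt, col, zz]
  by_cases c1 : t < nn k
  · right
    rw [dif_pos (by omega), if_pos c1]
    refine ⟨by simp, fun _ _ => ?_, by simp only; omega, by simp only; omega⟩
    have main : ∀ (μ : M) (x : Bool), x = Y (FF k δ true μ (nn k)) → μ' = FF k δ x μ t →
        q = some (t, if jj k x < t then x else false) →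
        (if t = 0 ∨ t = nn k then y else z) = x →
        ∃ μ x, x = Y (FF k δ true μ (nn k)) ∧
          δ μ' (wcol k (if t = 0 ∨ t = nn k then y else z) t) = FF k δ x μ (t + 1) ∧
          step r q (wcol k (if t = 0 ∨ t = nn k then y else z) t) =
            some (t + 1, if jj k x < t + 1 then x else false) ∧
          (if t + 1 = nn k then false else (if t = 0 ∨ t = nn k then y else z)) =
            if t + 1 = nn k then false else x := by
      intro μ x a1 a2 a3 a4
      refine ⟨μ, x, a1, ?_, ?_, ?_⟩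
      · rw [a4, a2]; rfl
      · rw [a4, a3, wcol]
        by_cases c : t = jj k x
        · rw [if_pos c, if_neg (by omega), if_pos (by omega), step, c, sq_jj]
          simp
        · rw [if_neg c, step]
          by_cases c' : jj k x < t
          · rw [if_pos c', if_pos (by omega)]
          · rw [if_neg c', if_neg (by omega)]
      · rw [a4]
    by_cases c0 : t = 0
    · subst c0
      exact main μ' y (h0 rfl) rfl (by rw [d0 rfl]; simp) (by simp)
    · obtain ⟨μ, x, a1, a2, a3, a4⟩ := d1 (by omega) (by omega)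
      rw [if_neg (by omega)] at a4
      exact main μ x a1 a2 a3 (by rw [if_neg (by omega), a4])
  by_cases c2 : t < 2 * nn k
  · right
    rw [dif_pos (by omega), if_neg c1, if_pos c2]
    refine ⟨by simp, by simp only; omega, fun _ _ => ?_, by simp only; omega⟩
    simp only
    rw [if_neg (by omega)]
    by_cases c : t = nn k
    · obtain ⟨μ, x, a1, a2, a3, a4⟩ := d1 (by omega) (by omega)
      have := jj_lt k x
      rw [if_pos (by omega)] at a3
      rw [if_pos (Or.inr c), h1 c, a2, a3, c, FF_eq k δ hk, ← a1]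
      obtain ⟨l, hl⟩ : ∃ l, nn k = l + 1 := ⟨nn k - 1, by omega⟩
      rw [hl, step]
      congr 2
      omega
    · rw [if_neg (by omega), d2 (by omega) (by omega)]
      obtain ⟨l, hl⟩ : ∃ l, 2 * nn k - t = l + 1 := ⟨2 * nn k - t - 1, by omega⟩
      rw [hl, step]
      congr 2
      omega
  by_cases c3 : t = 2 * nn k
  · right
    rw [dif_pos (by omega), if_neg c1, if_neg c2, if_pos c3, if_neg (by omega)]
    refine ⟨by simp, by simp only; omega, by simp only; omega, fun _ => ?_⟩
    rw [d2 (by omega) (by omega), if_neg (by omega), c3, Nat.sub_self]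
    cases z <;> simp [ee, step]
  · rw [dif_neg (by omega), if_neg c1, if_neg c2, if_neg c3, d3 (by omega)]
    cases r
    · exact Or.inl ⟨rfl, rfl⟩
    · exact Or.inr ⟨fun _ => rfl, by simp, by simp, by simp⟩

theorem adam_wins [Fintype M] (hk : Fintype.card M = k) (r : Bool) (m₀ : M) (S : Strategy (AL k))
    (hS : S.BuiltOn m₀ (fun m e => δ m e.2.1)) : ∃ π, S.Play (0, false) π ∧
      ∀ t, ∃ t', t ≤ t' ∧ run r (fun n => (π n).2.1) t' = none ∧ (π t').2.1 = .h := by
  classical
  have hn := nn_ge k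
  let vP : VV k := (⟨nn k, by omega⟩, false)
  have : ∀ μ : M, ∃ y, ∀ l, (AL k).IsPath (0, false) l → (AL k).last (0, false) l = vP →
      l.foldl (fun m e => δ m e.2.1) m₀ = μ →
        S.move (0, false) l = (vP, col k vP y, nxt k vP y) := by
    intro μ
    by_cases h : ∃ l, (AL k).IsPath (0, false) l ∧ (AL k).last (0, false) l = vP ∧
      l.foldl (fun m e => δ m e.2.1) m₀ = μ
    · obtain ⟨l, h1, h2, h3⟩ := h
      obtain ⟨⟨y, hy⟩, h4⟩ := S.valid _ l h1 (by rw [h2])
      refine ⟨y, fun l' a1 a2 a3 => ?_⟩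
      rw [← hS _ l _ l' h1 a1 (h2.trans a2.symm) (by rw [h2]) (h3.trans a3.symm), hy, h4, h2]
    · exact ⟨false, fun l a1 a2 a3 => absurd ⟨l, a1, a2, a3⟩ h⟩
  choose Y hY using this
  have fold1 : ∀ (l : List (VV k × Col × VV k)) (s : M × Q),
      (l.foldl (fun (s : M × Q) e => (δ s.1 e.2.1, step r s.2 e.2.1)) s).1 =
        l.foldl (fun m e => δ m e.2.1) s.1 := by
    intro l
    induction l with
    | nil => intro s; rfl
    | cons a l ih => intro s; simp only [List.foldl_cons, ih]
  obtain ⟨π, hπ, st, h0, hst⟩ := spoil S (0, false) ((m₀, some (0, false)) : M × Q)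
    (fun s e => (δ s.1 e.2.1, step r s.2 e.2.1))
    (fun v s => (r = false ∧ s.2 = none) ∨ Det k δ Y v s) (fun _ _ => True)
    (Or.inr ⟨fun _ => rfl, by simp, by simp, by simp⟩) (by
      intro l hl hi
      have f1 := fold1 l (m₀, some (0, false))
      revert hi f1
      generalize l.foldl (fun (s : M × Q) (e : VV k × Col × VV k) =>
        (δ s.1 e.2.1, step r s.2 e.2.1)) (m₀, some (0, false)) = s
      intro hi f1
      rcases hi with hi | hi
      · have : ∀ e : VV k × Col × VV k, r = false ∧ step r s.2 e.2.1 = none := fun e =>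
          ⟨hi.1, by rw [hi.1, hi.2]; exact step_none_false _⟩
        by_cases hp : (AL k).isP ((AL k).last (0, false) l)
        · obtain ⟨a, b⟩ := S.valid _ l hl hp
          exact ⟨_, a, b, fun _ => rfl, trivial, Or.inl (this _)⟩
        · obtain ⟨e, a, b⟩ := (AL k).out ((AL k).last (0, false) l)
          exact ⟨e, a, b, fun h => absurd h hp, trivial, Or.inl (this _)⟩
      · by_cases hp : (AL k).isP ((AL k).last (0, false) l)
        · have hv : (AL k).last (0, false) l = vP := by
            obtain ⟨μ, x, -, -, -, a4⟩ := hi.2.1 (by rw [show _ = nn k from hp]; omega)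
              (le_of_eq hp)
            rw [if_pos (show _ = nn k from hp)] at a4
            exact Prod.ext (Fin.ext hp) a4
          refine ⟨_, ⟨Y s.1, rfl⟩, hv.symm, fun _ => (hY s.1 l hl hv f1.symm).symm, trivial, ?_⟩
          rw [hv] at hi
          exact Det_step k δ hk r Y vP s _ hi (fun h => by simp only [vP] at h; omega)
            (fun _ => rfl)
        · exact ⟨(_, col k _ (Y (FF k δ true s.1 (nn k))), nxt k _ (Y (FF k δ true s.1 (nn k)))),
            ⟨Y (FF k δ true s.1 (nn k)), rfl⟩, rfl, fun h => absurd h hp, trivial,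
            Det_step k δ hk r Y _ s _ hi (fun _ => rfl) (fun h => absurd h hp)⟩)
  have e1 := run_eq (AL k) (r := r) (π := π) (st := fun t => (st t).2) (by simp [h0])
    (fun t => by simp [(hst t).1])
  refine ⟨π, hπ, fun t => ?_⟩
  have reach : ∀ (d t : ℕ), (π t).1.1.val + d = 2 * nn k + 1 →
      ∃ t', t ≤ t' ∧ (π t').1.1.val = 2 * nn k + 1 := by
    intro d
    induction d with
    | zero => exact fun t h => ⟨t, le_rfl, h⟩
    | succ d ih =>
      intro t h
      obtain ⟨t', h1, h2⟩ := ih (t + 1) (by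
        obtain ⟨⟨y, hy⟩, h2⟩ := hπ.2.1 t
        rw [h2, hy]
        simp only [nxt]
        rw [dif_pos (by omega)]
        simp only
        omega)
      exact ⟨t', by omega, h2⟩
  obtain ⟨t', h1, h2⟩ := reach (2 * nn k + 1 - (π t).1.1.val) t (by
    have := (π t).1.1.isLt
    omega)
  refine ⟨t', h1, ?_, ?_⟩
  · rw [e1]
    rcases (hst t').2.1 with h | h
    · exact h.2
    · exact h.2.2.2 h2
  · obtain ⟨⟨y, hy⟩, -⟩ := hπ.2.1 t'
    rw [hy]
    simp only [col]
    rw [if_neg (by omega), if_neg (by omega), if_neg (by omega)]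

end low

theorem chr_safe (k : ℕ) : ¬ ChrMemSuffices Wsafe k := by
  intro h
  obtain ⟨M, _, m₀, δ, S, hk, hopt, hb⟩ := h (AL k)
  obtain ⟨S', hS'⟩ := eve_wins k false
  obtain ⟨π, hπ, h⟩ := adam_wins k δ hk false m₀ S hb
  obtain ⟨t, -, ht, -⟩ := h 0
  exact hopt _ ⟨S', hS'⟩ π hπ t ht

theorem chr_pi (k : ℕ) : ¬ ChrMemSuffices Wpi k := by
  intro h
  obtain ⟨M, _, m₀, δ, S, hk, hopt, hb⟩ := h (AL k)
  obtain ⟨S', hS'⟩ := eve_wins k true
  obtain ⟨π, hπ, h⟩ := adam_wins k δ hk true m₀ S hb
  have hw : S'.Wins Wpi (0, false) := fun π hπ =>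
    Set.finite_empty.subset (fun t ht => hS' π hπ t ht.1)
  obtain ⟨B, hB⟩ := (hopt _ ⟨S', hw⟩ π hπ).bddAbove
  obtain ⟨t, h1, h2⟩ := h (B + 1)
  have : t ≤ B := hB h2
  omega

end Pool.Agent.H40.Game
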