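import Pool.Agent.H40.BsigDefs

set_option autoImplicit false

namespace Pool.Agent.H40.Gen

open Bsig (cons)

/-- Terms of arithmetic with exponentiation (de Bruijn variables). -/
inductive Tm : Type
  | var (i : ℕ) : Tm
  | zero : Tm
  | one : Tm
  | add (s t : Tm) : Tm
  | mul (s t : Tm) : Tm
  | pow (s t : Tm) : Tm

/-- First-order formulas; `ball t φ` is `∀ x < t, φ`. -/
inductive Fm : Type
  | eq (s t : Tm) : Fm
  | lt (s t : Tm) : Fm
  | neg (φ : Fm) : Fm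
  | and (φ ψ : Fm) : Fm
  | ball (t : Tm) (φ : Fm) : Fm
  | all (φ : Fm) : Fm
  | ex (φ : Fm) : Fm

/-- Structures for the language. -/
structure Mod : Type 1 where
  N : Type
  zero : N
  one : N
  add : N → N → N
  mul : N → N → N
  pow : N → N → N
  lt : N → N → Prop

/-- Value of a term. -/
def Tm.ev (M : Mod) (v : ℕ → M.N) : Tm → M.N
  | .var i => v i
  | .zero => M.zero
  | .one => M.one
  | .add s t => M.add (s.ev M v) (t.ev M v)
  | .mul s t => M.mul (s.ev M v) (t.ev M v)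
  | .pow s t => M.pow (s.ev M v) (t.ev M v)

/-- Satisfaction. -/
def Sat (M : Mod) : Fm → (ℕ → M.N) → Prop
  | .eq s t, v => s.ev M v = t.ev M v
  | .lt s t, v => M.lt (s.ev M v) (t.ev M v)
  | .neg φ, v => ¬ Sat M φ v
  | .and φ ψ, v => Sat M φ v ∧ Sat M ψ v
  | .ball t φ, v => ∀ x, M.lt x (t.ev M v) → Sat M φ (cons x v)
  | .all φ, v => ∀ x, Sat M φ (cons x v)
  | .ex φ, v => ∃ x, Sat M φ (cons x v)

/-- Bounded formulas. -/
inductive Bdd : Fm → Prop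
  | eq (s t : Tm) : Bdd (.eq s t)
  | lt (s t : Tm) : Bdd (.lt s t)
  | neg {φ : Fm} : Bdd φ → Bdd φ.neg
  | and {φ ψ : Fm} : Bdd φ → Bdd ψ → Bdd (φ.and ψ)
  | ball (t : Tm) {φ : Fm} : Bdd φ → Bdd (.ball t φ)

/-- `Lv n true` is the class `Σ_n` and `Lv n false` is the class `Π_n`. -/
def Lv : ℕ → Bool → Fm → Prop
  | 0, _, φ => Bdd φ
  | n + 1, true, φ => ∃ ψ, Lv n false ψ ∧ φ = ψ.ex
  | n + 1, false, φ => ∃ ψ, Lv n true ψ ∧ φ = ψ.all

variable (M : Mod)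

/-- The Peano axioms without induction, with the recursion equations of exponentiation. -/
def Basic : Prop :=
  (∀ n, M.add n M.one ≠ M.zero) ∧ (∀ m n, M.add m M.one = M.add n M.one → m = n) ∧
  (∀ m, M.add m M.zero = m) ∧ (∀ m n, M.add m (M.add n M.one) = M.add (M.add m n) M.one) ∧
  (∀ m, M.mul m M.zero = M.zero) ∧ (∀ m n, M.mul m (M.add n M.one) = M.add (M.mul m n) m) ∧
  (∀ m, M.pow m M.zero = M.one) ∧ (∀ m n, M.pow m (M.add n M.one) = M.mul (M.pow m n) m) ∧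
  (∀ m, ¬ M.lt m M.zero) ∧ ∀ m n, M.lt m (M.add n M.one) ↔ M.lt m n ∨ m = n

/-- Induction for `Σ_n` formulas with parameters. -/
def Ind (n : ℕ) : Prop :=
  ∀ φ, Lv n true φ → ∀ v, Sat M φ (cons M.zero v) →
    (∀ x, Sat M φ (cons x v) → Sat M φ (cons (M.add x M.one) v)) → ∀ x, Sat M φ (cons x v)

/-- Bounding for `Σ_n` formulas with parameters. -/
def Bnd (n : ℕ) : Prop :=
  ∀ φ, Lv n true φ → ∀ v a, (∀ x, M.lt x a → ∃ y, Sat M φ (cons y (cons x v))) →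
    ∃ b, ∀ x, M.lt x a → ∃ y, M.lt y b ∧ Sat M φ (cons y (cons x v))

/-- Cuts: nonempty proper subsets closed downwards and under successor. -/
def IsCut (J : Set M.N) : Prop :=
  J.Nonempty ∧ J ≠ Set.univ ∧ (∀ x ∈ J, ∀ y, M.lt y x → y ∈ J) ∧ ∀ x ∈ J, M.add x M.one ∈ J

/-- `J` is definable with parameters by a `Σ_n` (`b = true`) or `Π_n` (`b = false`) formula. -/
def Dfn (n : ℕ) (b : Bool) (J : Set M.N) : Prop :=
  ∃ φ v, Lv n b φ ∧ ∀ x, x ∈ J ↔ Sat M φ (cons x v)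

end Pool.Agent.H40.Gen
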