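import Pool.Agent.H40.Path2
import Pool.Agent.H40.GenDefs

set_option autoImplicit false

namespace Pool.Agent.H40.Gen

open Bsig (cons cons_congr cons_comp dec dec_pair ex_beta pr_dec pr_pair pr_ball)

instance : Countable Tm := by
  let enc : Tm → ℕ := fun φ => Tm.rec (motive := fun _ => ℕ) (fun i => Nat.pair 0 i) (Nat.pair 1 0)
    (Nat.pair 2 0) (fun _ _ a b => Nat.pair 3 (Nat.pair a b))
    (fun _ _ a b => Nat.pair 4 (Nat.pair a b)) (fun _ _ a b => Nat.pair 5 (Nat.pair a b)) φ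
  refine ⟨⟨enc, fun φ => ?_⟩⟩
  induction φ with
  | var i => intro ψ h; cases ψ <;> simp_all [enc]
  | zero => intro ψ h; cases ψ <;> simp_all [enc]
  | one => intro ψ h; cases ψ <;> simp_all [enc]
  | add _ _ ih1 ih2 =>
    intro χ h; cases χ <;> simp [enc] at h; exact congrArg₂ _ (ih1 h.1) (ih2 h.2)
  | mul _ _ ih1 ih2 =>
    intro χ h; cases χ <;> simp [enc] at h; exact congrArg₂ _ (ih1 h.1) (ih2 h.2)
  | pow _ _ ih1 ih2 =>
    intro χ h; cases χ <;> simp [enc] at h; exact congrArg₂ _ (ih1 h.1) (ih2 h.2)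

instance : Countable Fm := by
  obtain ⟨e, he⟩ := exists_injective_nat Tm
  let enc : Fm → ℕ := fun φ => Fm.rec (motive := fun _ => ℕ)
    (fun s t => Nat.pair 0 (Nat.pair (e s) (e t))) (fun s t => Nat.pair 1 (Nat.pair (e s) (e t)))
    (fun _ a => Nat.pair 3 a)
    (fun _ _ a b => Nat.pair 4 (Nat.pair a b)) (fun t _ a => Nat.pair 5 (Nat.pair (e t) a))
    (fun _ a => Nat.pair 6 a) (fun _ a => Nat.pair 7 a) φ
  refine ⟨⟨enc, fun φ => ?_⟩⟩
  induction φ with
  | eq s t => intro ψ h; cases ψ <;> simp_all [enc, he.eq_iff]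
  | lt s t => intro ψ h; cases ψ <;> simp_all [enc, he.eq_iff]
  | neg _ ih => intro ψ h; cases ψ <;> simp [enc] at h; exact congrArg _ (ih h)
  | and _ _ ih1 ih2 =>
    intro χ h; cases χ <;> simp [enc] at h; exact congrArg₂ _ (ih1 h.1) (ih2 h.2)
  | ball _ _ ih => intro χ h; cases χ <;> simp [enc] at h; exact congrArg₂ _ (he h.1) (ih h.2)
  | all _ ih => intro ψ h; cases ψ <;> simp [enc] at h; exact congrArg _ (ih h)
  | ex _ ih => intro ψ h; cases ψ <;> simp [enc] at h; exact congrArg _ (ih h)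

def Tm.sup : Tm → ℕ
  | .var i => i + 1
  | .zero => 0
  | .one => 0
  | .add s t => max s.sup t.sup
  | .mul s t => max s.sup t.sup
  | .pow s t => max s.sup t.sup

def Fm.sup : Fm → ℕ
  | .eq s t => max s.sup t.sup
  | .lt s t => max s.sup t.sup
  | .neg φ => φ.sup
  | .and φ ψ => max φ.sup ψ.sup
  | .ball t φ => max t.sup φ.sup
  | .all φ => φ.sup
  | .ex φ => φ.sup

theorem ev_congr {M : Mod} (t : Tm) {v v' : ℕ → M.N} (h : ∀ i < t.sup, v i = v' i) :
    t.ev M v = t.ev M v' := by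
  induction t with
  | var i => exact h i (Nat.lt_succ_self i)
  | zero => rfl
  | one => rfl
  | add _ _ a b =>
    exact congrArg₂ M.add (a fun i hi => h i (lt_max_of_lt_left hi))
      (b fun i hi => h i (lt_max_of_lt_right hi))
  | mul _ _ a b =>
    exact congrArg₂ M.mul (a fun i hi => h i (lt_max_of_lt_left hi))
      (b fun i hi => h i (lt_max_of_lt_right hi))
  | pow _ _ a b =>
    exact congrArg₂ M.pow (a fun i hi => h i (lt_max_of_lt_left hi))
      (b fun i hi => h i (lt_max_of_lt_right hi))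

theorem sat_congr {M : Mod} (φ : Fm) : ∀ {v v' : ℕ → M.N},
    (∀ i < φ.sup, v i = v' i) → (Sat M φ v ↔ Sat M φ v') := by
  induction φ with
  | eq s t =>
    intro v v' h
    simp only [Sat, ev_congr s fun i hi => h i (lt_max_of_lt_left hi),
      ev_congr t fun i hi => h i (lt_max_of_lt_right hi)]
  | lt s t =>
    intro v v' h
    simp only [Sat, ev_congr s fun i hi => h i (lt_max_of_lt_left hi),
      ev_congr t fun i hi => h i (lt_max_of_lt_right hi)]
  | neg _ ih => exact fun h => not_congr (ih h)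
  | and _ _ a b =>
    exact fun h => and_congr (a fun i hi => h i (lt_max_of_lt_left hi))
      (b fun i hi => h i (lt_max_of_lt_right hi))
  | ball t _ ih =>
    intro v v' h
    simp only [Sat, ev_congr t fun i hi => h i (lt_max_of_lt_left hi)]
    exact forall₂_congr fun x _ => ih (cons_congr (fun i hi => h i (lt_max_of_lt_right hi)) x)
  | all _ ih => exact fun h => forall_congr' fun x => ih (cons_congr h x)
  | ex _ ih => exact fun h => exists_congr fun x => ih (cons_congr h x)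

abbrev std : Mod := ⟨ℕ, 0, 1, (· + ·), (· * ·), (· ^ ·), (· < ·)⟩

def TD (f : (ℕ → ℕ) → ℕ) : Prop := ∀ ρ : ℕ → ℕ, ∃ t : Tm, ∀ v, t.ev std v = f fun i => v (ρ i)

theorem TD.var (i : ℕ) : TD fun v => v i := fun ρ => ⟨.var (ρ i), fun _ => rfl⟩
theorem TD.zero : TD fun _ => 0 := fun _ => ⟨.zero, fun _ => rfl⟩
theorem TD.one : TD fun _ => 1 := fun _ => ⟨.one, fun _ => rfl⟩
theorem TD.add {f g : (ℕ → ℕ) → ℕ} (a : TD f) (b : TD g) : TD fun v => f v + g v := fun ρ =>
  (a ρ).elim fun s a => (b ρ).elim fun t b => ⟨.add s t, fun v => congrArg₂ (· + ·) (a v) (b v)⟩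
theorem TD.mul {f g : (ℕ → ℕ) → ℕ} (a : TD f) (b : TD g) : TD fun v => f v * g v := fun ρ =>
  (a ρ).elim fun s a => (b ρ).elim fun t b => ⟨.mul s t, fun v => congrArg₂ (· * ·) (a v) (b v)⟩

def B0 (P : (ℕ → ℕ) → Prop) : Prop :=
  ∀ ρ : ℕ → ℕ, ∃ θ, Bdd θ ∧ ∀ v, Sat std θ v ↔ P fun i => v (ρ i)

section

variable {P Q : (ℕ → ℕ) → Prop} {f g : (ℕ → ℕ) → ℕ} {R : ℕ → (ℕ → ℕ) → Prop}

theorem B0.congr (h : B0 P) (e : ∀ v, P v ↔ Q v) : B0 Q :=
  (show P = Q from funext fun v => propext (e v)) ▸ h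
theorem B0.eq (a : TD f) (b : TD g) : B0 fun v => f v = g v := fun ρ =>
  (a ρ).elim fun s a => (b ρ).elim fun t b =>
    ⟨.eq s t, .eq s t, fun v => by rw [Sat, a, b]⟩
theorem B0.lt (a : TD f) (b : TD g) : B0 fun v => f v < g v := fun ρ =>
  (a ρ).elim fun s a => (b ρ).elim fun t b =>
    ⟨.lt s t, .lt s t, fun v => by rw [Sat, a, b]⟩
theorem B0.not (a : B0 P) : B0 fun v => ¬ P v := fun ρ => (a ρ).elim fun θ a =>
  ⟨θ.neg, a.1.neg, fun v => not_congr (a.2 v)⟩
theorem B0.and (a : B0 P) (b : B0 Q) : B0 fun v => P v ∧ Q v := fun ρ => (a ρ).elim fun θ a =>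
  (b ρ).elim fun θ' b => ⟨θ.and θ', a.1.and b.1, fun v => and_congr (a.2 v) (b.2 v)⟩
theorem B0.or (a : B0 P) (b : B0 Q) : B0 fun v => P v ∨ Q v :=
  (a.not.and b.not).not.congr fun _ => by tauto
theorem B0.ball (a : TD f) (b : B0 fun v => R (v 0) fun i => v (i + 1)) :
    B0 fun v => ∀ x < f v, R x v := fun ρ => (a ρ).elim fun t a =>
  (b (cons 0 fun i => ρ i + 1)).elim fun θ b => ⟨.ball t θ, b.1.ball t, fun v => by
    rw [Sat, a]
    exact forall₂_congr fun x _ => b.2 _⟩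
theorem B0.bex (a : TD f) (b : B0 fun v => R (v 0) fun i => v (i + 1)) :
    B0 fun v => ∃ x < f v, R x v :=
  (B0.ball (R := fun x v => ¬ R x v) a b.not).not.congr fun _ => by simp
theorem B0.ren (a : B0 P) (π : ℕ → ℕ) : B0 fun v => P fun i => v (π i) := fun ρ => a fun i => ρ (π i)

def S1 (P : (ℕ → ℕ) → Prop) : Prop := ∃ Q, B0 Q ∧ ∀ v, P v ↔ ∃ w, Q (cons w v)

theorem S1.congr (h : S1 P) (e : ∀ v, P v ↔ Q v) : S1 Q :=
  (show P = Q from funext fun v => propext (e v)) ▸ h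
theorem B0.s1 (a : B0 P) : S1 P := ⟨_, a.ren (· + 1), fun _ => ⟨fun h => ⟨0, h⟩, fun h => h.elim fun _ => id⟩⟩
theorem S1.ren (a : S1 P) (π : ℕ → ℕ) : S1 fun v => P fun i => v (π i) :=
  a.elim fun Q a => ⟨_, a.1.ren (cons 0 fun i => π i + 1), fun v => (a.2 _).trans
    (exists_congr fun w => by rw [cons_comp])⟩

theorem B0.sub (a : B0 P) (π : ℕ → ℕ) {s : (ℕ → ℕ) → ℕ → ℕ} (e : ∀ v i, s v i = v (π i)) :
    B0 fun v => P (s v) := (a.ren π).congr fun v => by rw [funext (e v)]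

theorem S1.ex (b : S1 fun v => R (v 0) fun i => v (i + 1)) : S1 fun v => ∃ x, R x v := by
  obtain ⟨Q, a, b⟩ := b
  refine ⟨fun v => ∃ x < v 0, ∃ y < v 0, Q (cons y (cons x fun i => v (i + 1))),
    .bex (.var 0) (.bex (.var 1) (a.sub (cons 0 (cons 1 fun i => i + 3)) ?_)),
    fun v => ⟨fun ⟨x, h⟩ => ?_, fun ⟨w, x, _, y, _, h⟩ => ⟨x, (b (cons x v)).2 ⟨y, h⟩⟩⟩⟩
  · rintro v (_ | _ | i) <;> rfl
  obtain ⟨y, h⟩ := (b (cons x v)).1 h
  exact ⟨x + y + 1, x, by show x < x + y + 1; omega, y, by show y < x + y + 1; omega, h⟩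

theorem S1.ball (a : TD f) (b : S1 fun v => R (v 0) fun i => v (i + 1)) :
    S1 fun v => ∀ x < f v, R x v := by
  obtain ⟨Q, b, c⟩ := b
  refine ⟨fun v => ∀ x < f fun i => v (i + 1), ∃ y < v 0, Q (cons y (cons x fun i => v (i + 1))),
    .ball (fun ρ => a fun i => ρ (i + 1)) (.bex (.var 1) (b.sub (cons 0 (cons 1 fun i => i + 3)) ?_)),
    fun v => ⟨fun h => ?_, fun ⟨w, h⟩ x hx => (c (cons x v)).2 ((h x hx).imp fun _ => And.right)⟩⟩
  · rintro v (_ | _ | i) <;> rfl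
  choose! y hy using fun x hx => (c (cons x v)).1 (h x hx)
  exact ⟨(Finset.range (f v)).sup y + 1, fun x hx => ⟨y x, Nat.lt_succ_of_le
    (Finset.le_sup (f := y) (Finset.mem_range.2 hx)), hy x hx⟩⟩

theorem S1.or (a : S1 P) (b : S1 Q) : S1 fun v => P v ∨ Q v :=
  a.elim fun _ a => b.elim fun _ b => ⟨_, a.1.or b.1, fun v => (or_congr (a.2 v) (b.2 v)).trans exists_or.symm⟩

theorem S1.and (a : S1 P) (b : S1 Q) : S1 fun v => P v ∧ Q v := by
  obtain ⟨P', a, a'⟩ := a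
  obtain ⟨Q', b, b'⟩ := b
  refine (S1.ex (S1.ex (B0.s1 (.and (a.sub (cons 0 fun i => i + 2) ?_)
    (b.sub (cons 1 fun i => i + 2) ?_)))) (R := fun y v => ∃ x, P' (cons x v) ∧ Q' (cons y v))).congr
      fun v => by simp [a', b']
  all_goals rintro v (_ | i) <;> rfl

end

def Rep (f : ℕ → ℕ) : Prop := ∀ i j, S1 fun v => v i = f (v j)

theorem b0_pair {f g h : (ℕ → ℕ) → ℕ} (a : TD f) (b : TD g) (c : TD h) :
    B0 fun v => f v = Nat.pair (g v) (h v) :=
  (((B0.lt b c).and (.eq a ((c.mul c).add b))).or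
    ((B0.lt b c).not.and (.eq a (((b.mul b).add b).add c)))).congr fun v => by
      rw [Nat.pair]
      split_ifs with e <;> simp [e]

theorem b0_mod {f g h : (ℕ → ℕ) → ℕ} (a : TD f) (b : TD g) (c : TD h) :
    B0 fun v => f v = g v % (h v + 1) :=
  ((B0.lt a (c.add .one)).and (.bex (b.add .one) (R := fun q v => (h v + 1) * q + f v = g v)
    (.eq (.add (.mul (.add (fun ρ => c fun i => ρ (i + 1)) .one) (.var 0)) fun ρ => a fun i => ρ (i + 1))
      fun ρ => b fun i => ρ (i + 1)))).congr fun v => ⟨fun ⟨a, q, _, e⟩ => by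
        rw [← e, Nat.mul_add_mod, Nat.mod_eq_of_lt a], fun e => ⟨e ▸ Nat.mod_lt _ (Nat.succ_pos _),
          _, Nat.lt_succ_of_le (Nat.div_le_self _ (h v + 1)), e ▸ Nat.div_add_mod _ _⟩⟩

theorem rep_prim {f : ℕ → ℕ} (h : Nat.Primrec f) : Rep f := by
  induction h with
  | zero => exact fun i j => (B0.eq (.var i) .zero).s1
  | succ => exact fun i j => (B0.eq (.var i) (.add (.var j) .one)).s1
  | left => exact fun i j => (S1.ex (b0_pair (.var (j + 1)) (.var (i + 1)) (.var 0)).s1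
      (R := fun b v => v j = Nat.pair (v i) b)).congr fun v =>
        ⟨fun ⟨b, e⟩ => by simp [e], fun e => ⟨_, by rw [e, Nat.pair_unpair]⟩⟩
  | right => exact fun i j => (S1.ex (b0_pair (.var (j + 1)) (.var 0) (.var (i + 1))).s1
      (R := fun b v => v j = Nat.pair b (v i))).congr fun v =>
        ⟨fun ⟨b, e⟩ => by simp [e], fun e => ⟨_, by rw [e, Nat.pair_unpair]⟩⟩
  | @pair f g _ _ a b => exact fun i j => (S1.ex (S1.ex ((a 1 (j + 2)).and ((b 0 (j + 2)).and
      (b0_pair (.var (i + 2)) (.var 1) (.var 0)).s1)))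
      (R := fun x v => ∃ y, x = f (v j) ∧ y = g (v j) ∧ v i = Nat.pair x y)).congr fun v => by simp
  | @comp f g _ _ a b => exact fun i j => (S1.ex ((b 0 (j + 1)).and (a (i + 1) 0))
      (R := fun x v => x = g (v j) ∧ v i = f x)).congr fun v => by simp
  | @prec f g _ _ a b =>
    intro i j
    refine (S1.ex (.ex (.ex (.ex (.and (b0_pair (.var (j + 4)) (.var 3) (.var 2)).s1 (.and
      (b0_mod (.var (i + 4)) (.var 1) (.mul (.var 0) (.add (.var 2) .one))).s1 (.and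
      (.ex (.and (a 0 4) (b0_mod (.var 0) (.var 2) (.mul (.var 1) (.add .zero .one))).s1))
      (.ball (.var 2) (.ex (.ex (.ex (.ex (.and
        (b0_mod (.var 3) (.var 6) (.mul (.var 5) (.add (.var 4) .one))).s1 (.and
        (b0_mod (.var 2) (.var 6) (.mul (.var 5) (.add (.add (.var 4) .one) .one))).s1 (.and
        (b0_pair (.var 1) (.var 4) (.var 3)).s1 (.and (b0_pair (.var 0) (.var 8) (.var 1)).s1
        (b 2 0))))))))))))))))
      (R := fun z v => ∃ n a b, v j = Nat.pair z n ∧ v i = a % (b * (n + 1) + 1) ∧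
        (∃ y, y = f z ∧ y = a % (b * (0 + 1) + 1)) ∧ ∀ k < n, ∃ x y p q, x = a % (b * (k + 1) + 1) ∧
          y = a % (b * (k + 1 + 1) + 1) ∧ p = Nat.pair k x ∧ q = Nat.pair z p ∧ y = g q)).congr
      fun v => ⟨fun ⟨z, n, a, b, e1, e2, ⟨_, rfl, e3⟩, e4⟩ => ?_, fun e => ?_⟩
    · simp only [e1, e2, Nat.unpaired, Nat.unpair_pair]
      clear e1 e2
      induction n with
      | zero => exact e3.symm
      | succ n ih =>
        obtain ⟨_, _, _, _, rfl, rfl, rfl, rfl, e⟩ := e4 n n.lt_succ_self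
        rw [e, ih fun k hk => e4 k (hk.trans n.lt_succ_self)]
    · obtain ⟨a, b, h⟩ := ex_beta ((v j).unpair.2 + 1) fun n => n.rec (f (v j).unpair.1)
        fun y IH => g (Nat.pair (v j).unpair.1 (Nat.pair y IH))
      exact ⟨_, _, a, b, (Nat.pair_unpair _).symm, e.trans (h _ (Nat.lt_succ_self _)),
        ⟨_, rfl, h 0 (Nat.succ_pos _)⟩, fun k hk => ⟨_, _, _, _, rfl, rfl, rfl, rfl, by
          rw [← h k (by omega), ← h (k + 1) (by omega)]⟩⟩

theorem s1_prim {P : ℕ → Prop} (h : PrimrecPred P) (j : ℕ) : S1 fun v => P (v j) := by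
  classical
  exact (S1.ex ((B0.eq (.var 0) .zero).s1.and (rep_prim (Primrec.nat_iff.1
    (Primrec.ite h (.const 0) (.const 1))) 0 (j + 1)))
    (R := fun x v => x = 0 ∧ x = if P (v j) then 0 else 1)).congr fun v => by simp

theorem s1_five {P : ℕ → ℕ → ℕ → ℕ → ℕ → Prop}
    (h : PrimrecPred fun d => P (dec d 0) (dec d 1) (dec d 2) (dec d 3) (dec d 4)) (i j k l n : ℕ) :
    S1 fun v => P (v i) (v j) (v k) (v l) (v n) := by
  have r := fun i => rep_prim (Primrec.nat_iff.1 (pr_dec .id i))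
  exact (S1.ex ((r 0 (i + 1) 0).and ((r 1 (j + 1) 0).and ((r 2 (k + 1) 0).and ((r 3 (l + 1) 0).and
    ((r 4 (n + 1) 0).and (s1_prim h 0)))))) (R := fun d v => v i = dec d 0 ∧ v j = dec d 1 ∧
      v k = dec d 2 ∧ v l = dec d 3 ∧ v n = dec d 4 ∧
        P (dec d 0) (dec d 1) (dec d 2) (dec d 3) (dec d 4))).congr fun v =>
    ⟨fun ⟨d, a, b, c, e, f, g⟩ => by rwa [a, b, c, e, f], fun h => ⟨Nat.pair (v i) (Nat.pair (v j)
      (Nat.pair (v k) (Nat.pair (v l) (Nat.pair (v n) 0)))), by simpa [dec] using h⟩⟩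

theorem pr_tm (t : Tm) : Primrec fun d => t.ev std (dec d) := by
  induction t with
  | var i => exact pr_dec .id i
  | zero => exact .const 0
  | one => exact .const 1
  | add _ _ a b => exact Primrec.nat_add.comp a b
  | mul _ _ a b => exact Primrec.nat_mul.comp a b
  | pow _ _ a b => exact (Primrec₂.unpaired'.1 Nat.Primrec.pow).comp a b

theorem pr_sat {θ : Fm} (h : Bdd θ) : PrimrecPred fun d => Sat std θ (dec d) := by
  induction h with
  | eq s t => exact Primrec.eq.comp (pr_tm s) (pr_tm t)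
  | lt s t => exact Primrec.nat_lt.comp (pr_tm s) (pr_tm t)
  | neg _ a => exact a.not
  | and _ _ a b => exact a.and b
  | ball t _ a => exact pr_ball (pr_tm t) ((a.comp (pr_pair .snd .fst)).of_eq fun p => by rw [dec_pair])

end Pool.Agent.H40.Gen
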