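import Pool.Agent.H40.Gen1

set_option autoImplicit false

namespace Pool.Agent.H40.Gen

open Filter
open Bsig (cons cons_congr dec dec_pair dec_le U U_ge ae_not ae_or FF FF_it FF_mono lt_FF pair_FF dom)

def BB (m : ℕ) : ℕ := 2 * (2 ^ m + 3)

def sd (m k c t : ℕ) : ℕ := c + if t < 2 ^ m + 3 then 0 else 2 ^ k

def q (m : ℕ) : ℕ → ℕ → ℕ → ℕ
  | 0, c, _ => c
  | k + 1, c, j => q m k (sd m k c (j / BB m ^ k)) (j % BB m ^ k)

theorem sd_le (m k c t : ℕ) : c ≤ sd m k c t ∧ sd m k c t + 2 ^ k ≤ c + 2 ^ (k + 1) := by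
  have : 0 < 2 ^ k := by positivity
  unfold sd
  split_ifs <;> omega

theorem q_mem (m k : ℕ) : ∀ c j, c ≤ q m k c j ∧ q m k c j < c + 2 ^ k := by
  induction k with
  | zero => exact fun c j => ⟨le_rfl, c.lt_succ_self⟩
  | succ k ih => exact fun c j => ⟨(sd_le _ _ _ _).1.trans (ih _ _).1, (ih _ _).2.trans_le (sd_le _ _ _ _).2⟩

def Good (m k a c : ℕ) : Prop := ∀ j < BB m ^ k, q m m 0 (a + j) = q m k c j

theorem BB_pos (m k : ℕ) : 0 < BB m ^ k := pow_pos (by unfold BB; positivity) k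

theorem Good.step {m k a c t : ℕ} (h : Good m (k + 1) a c) (ht : t < BB m) :
    Good m k (a + t * BB m ^ k) (sd m k c t) := fun j hj => by
  rw [add_assoc, h _ (by rw [pow_succ]; nlinarith), q, add_comm _ j, Nat.add_mul_div_right _ _ (BB_pos m k),
    Nat.div_eq_of_lt hj, zero_add, Nat.add_mul_mod_self_right, Nat.mod_eq_of_lt hj]

theorem ex_step (m k a c x : ℕ) (L : ℕ → ℕ) : ∃ t, 0 < t ∧ t < BB m ∧
    (∀ y ≤ 2 ^ m, L y < a + t * BB m ^ k ∨ a + t * BB m ^ k + BB m ^ k ≤ L y) ∧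
    (x < sd m k c t ∨ sd m k c t + 2 ^ k ≤ x) := by
  obtain ⟨s, hs, h⟩ : ∃ s, s + 2 ^ m + 3 ≤ BB m ∧ ∀ r < 2 ^ m + 2,
      x < sd m k c (s + 1 + r) ∨ sd m k c (s + 1 + r) + 2 ^ k ≤ x := by
    by_cases e : x < c + 2 ^ k
    · exact ⟨2 ^ m + 3, by unfold BB; omega, fun r _ => Or.inl (by rwa [sd, if_neg (by omega)])⟩
    · exact ⟨0, by unfold BB; omega, fun r _ => Or.inr (by rw [sd, if_pos (by omega)]; omega)⟩
  obtain ⟨r, h1, h2⟩ := Finset.exists_mem_notMem_of_card_lt_card (s := (Finset.range (2 ^ m + 1)).image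
    fun y => (L y - a) / BB m ^ k - (s + 1)) (t := Finset.range (2 ^ m + 2))
    (Finset.card_image_le.trans_lt (by simp))
  have h1 := Finset.mem_range.1 h1
  refine ⟨s + 1 + r, by omega, by omega, fun y hy => by_contra fun e => h2 (Finset.mem_image.2
    ⟨y, Finset.mem_range.2 (by omega), ?_⟩), h r h1⟩
  rw [Nat.div_eq_of_lt_le (k := s + 1 + r) (by omega) (by rw [add_mul _ 1]; omega)]
  omega

noncomputable def cw (m : ℕ) : ℕ :=
  sInf {w | ∀ j < BB m ^ m, q m m 0 j = w.unpair.1 % (w.unpair.2 * (j + 1) + 1)}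

noncomputable def AA (m : ℕ) : ℕ := BB m ^ m + cw m

noncomputable def lev (φ : Fm) (m d x : ℕ) : ℕ :=
  sInf {i | ∃ y ≤ FF^[i] (AA m), Sat std φ (cons y (cons x (dec d)))}

def Nx (φ : Fm) (m k s d x s' : ℕ) : Prop := ∃ t, 0 < t ∧ t < BB m ∧
  s'.unpair.1 = s.unpair.1 + t * BB m ^ k ∧ s'.unpair.2 = sd m k s.unpair.2 t ∧
  (∀ y ≤ 2 ^ m, lev φ m d y < s'.unpair.1 ∨ s'.unpair.1 + BB m ^ k ≤ lev φ m d y) ∧
  (x < s'.unpair.2 ∨ s'.unpair.2 + 2 ^ k ≤ x)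

def W2 (φ : Fm) (a x z : ℕ) : Prop :=
  ∃ y < z, ∃ w ≤ z, Sat std φ (cons w (cons y (cons x (dec a))))

def Rel : ℕ → Fm → ℕ → ℕ → ℕ → ℕ → Prop
  | 0, φ, a, _, _, x => Sat std φ (cons x (dec a))
  | 1, φ, a, b, _, x => x < b ∧ ∀ x' < b, sInf {y | W2 φ a x' y} ≤ sInf {y | W2 φ a x y}
  | 2, φ, a, b, c, x => ((∃ y ≤ b, Sat std φ (cons y (cons x (dec a)))) ↔ c = 0)
  | 3, φ, u, s, w, x => Nx φ u.unpair.1 (u.unpair.1 - u.unpair.2 - 1) s w.unpair.1 w.unpair.2 x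
  | 4, _, m, _, _, x => x = AA m
  | 5, _, m, _, _, x => x = cw m
  | _, _, m, _, _, x => x = BB m ^ m

inductive T : Type
  | id : T
  | cst (c : ℕ) : T
  | bin (k : ℕ) (s t : T) : T
  | ap (n : ℕ) (φ : Fm) (s t u : T) : T

instance : Countable T := by
  obtain ⟨e, he⟩ := exists_injective_nat Fm
  let enc : T → ℕ := fun φ => T.rec (motive := fun _ => ℕ) (Nat.pair 0 0) (fun i => Nat.pair 1 i)
    (fun k _ _ a b => Nat.pair 2 (Nat.pair k (Nat.pair a b)))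
    (fun k φ _ _ _ a b c => Nat.pair 3 (Nat.pair k (Nat.pair (e φ) (Nat.pair a (Nat.pair b c))))) φ
  refine ⟨⟨enc, fun φ => ?_⟩⟩
  induction φ with
  | id => intro ψ h; cases ψ <;> simp_all [enc]
  | cst => intro ψ h; cases ψ <;> simp_all [enc]
  | bin _ _ _ a b => intro χ h; cases χ <;> simp [enc] at h; rw [h.1, a h.2.1, b h.2.2]
  | ap _ _ _ _ _ a b c =>
    intro χ h; cases χ <;> simp [enc] at h; rw [h.1, he h.2.1, a h.2.2.1, b h.2.2.2.1, c h.2.2.2.2]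

noncomputable def bop : ℕ → ℕ → ℕ → ℕ
  | 0, a, b => a + b
  | 1, a, b => a * b
  | 2, a, b => a ^ b
  | 3, a, b => Nat.pair a b
  | 4, a, _ => a.unpair.1
  | 5, a, _ => a.unpair.2
  | 6, a, b => a - b
  | _, a, b => FF^[a] b

noncomputable def T.ev : T → ℕ → ℕ
  | .id, m => m
  | .cst c, _ => c
  | .bin k s t, m => bop k (s.ev m) (t.ev m)
  | .ap n φ s t u, m => sInf {x | Rel n φ (s.ev m) (t.ev m) (u.ev m) x}

def In (f : ℕ → ℕ) : Prop := ∃ t : T, f = t.ev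

theorem In.id : In fun m => m := ⟨.id, rfl⟩
theorem In.cst (c : ℕ) : In fun _ => c := ⟨.cst c, rfl⟩
theorem In.bin (k : ℕ) {f g : ℕ → ℕ} : In f → In g → In fun m => bop k (f m) (g m) := by
  rintro ⟨s, rfl⟩ ⟨t, rfl⟩
  exact ⟨.bin k s t, rfl⟩

def Ch (P : ℕ → ℕ → Prop) : Prop := In fun m => sInf {x | P m x}

theorem In.ap (n : ℕ) (φ : Fm) {f g h : ℕ → ℕ} : In f → In g → In h →
    Ch fun m => Rel n φ (f m) (g m) (h m) := by
  rintro ⟨s, rfl⟩ ⟨t, rfl⟩ ⟨u, rfl⟩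
  exact ⟨.ap n φ s t u, rfl⟩

theorem in_AA : In AA := by simpa [Ch, Rel] using In.ap 4 (.eq .zero .zero) .id .id .id
theorem in_cw : In cw := by simpa [Ch, Rel] using In.ap 5 (.eq .zero .zero) .id .id .id
theorem in_N : In fun m => BB m ^ m := by simpa [Ch, Rel] using In.ap 6 (.eq .zero .zero) .id .id .id

noncomputable def rq : ℕ → Fm × T × T :=
  (@exists_surjective_nat _ ⟨(.eq .zero .zero, .id, .id)⟩ _).choose

theorem rq_surj : Function.Surjective rq := (@exists_surjective_nat _ ⟨(.eq .zero .zero, .id, .id)⟩ _).choose_spec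

noncomputable def st : ℕ → T
  | 0 => .cst 0
  | n + 1 => .ap 3 (rq n).1 (.bin 3 .id (.cst n)) (st n) (.bin 3 (rq n).2.1 (rq n).2.2)

noncomputable def aa (n m : ℕ) : ℕ := ((st n).ev m).unpair.1
noncomputable def cc (n m : ℕ) : ℕ := ((st n).ev m).unpair.2

theorem in_aa (n : ℕ) : In (aa n) := ⟨.bin 4 (st n) .id, rfl⟩

theorem nx (n m : ℕ) : Nx (rq n).1 m (m - n - 1) ((st n).ev m) ((rq n).2.1.ev m) ((rq n).2.2.ev m)
    ((st (n + 1)).ev m) := by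
  obtain ⟨t, h⟩ := ex_step m (m - n - 1) (aa n m) (cc n m) ((rq n).2.2.ev m)
    (lev (rq n).1 m ((rq n).2.1.ev m))
  simp only [st, T.ev, Rel, bop, Nat.unpair_pair]
  exact Nat.sInf_mem (s := {x | Nx _ _ _ _ _ _ x}) ⟨Nat.pair (aa n m + t * BB m ^ (m - n - 1))
    (sd m (m - n - 1) (cc n m) t), t, h.1, h.2.1, congrArg Prod.fst (Nat.unpair_pair _ _),
    congrArg Prod.snd (Nat.unpair_pair _ _), by simpa only [Nat.unpair_pair] using h.2.2⟩

theorem good {n m : ℕ} (h : n ≤ m) : Good m (m - n) (aa n m) (cc n m) := by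
  induction n with
  | zero => exact fun j _ => by simp [aa, cc, st, T.ev]
  | succ n ih =>
    obtain ⟨t, _, a, b, c, _⟩ := nx n m
    have := ih (by omega)
    rw [show m - n = m - n - 1 + 1 by omega] at this
    rw [aa, cc, b, c]
    exact this.step a

theorem chain {n n' m : ℕ} (h : n ≤ n') (h' : n' ≤ m) : aa n m + (n' - n) ≤ aa n' m ∧
    aa n' m + BB m ^ (m - n') ≤ aa n m + BB m ^ (m - n) ∧ cc n m ≤ cc n' m ∧
      cc n' m + 2 ^ (m - n') ≤ cc n m + 2 ^ (m - n) := by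
  induction h with
  | refl => simp
  | @step k e ih =>
    obtain ⟨t, a1, a2, a3, a4, _⟩ := nx k m
    have := ih (by omega)
    have b := sd_le m (m - k - 1) (cc k m) t
    have b1 := BB_pos m (m - k - 1)
    have b2 : (t + 1) * BB m ^ (m - k - 1) ≤ BB m ^ (m - k) := by
      rw [show m - k = m - k - 1 + 1 by omega, pow_succ']
      exact Nat.mul_le_mul_right _ a2
    have b3 := Nat.le_mul_of_pos_left (BB m ^ (m - k - 1)) a1
    have e : n ≤ k := e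
    rw [show m - k - 1 + 1 = m - k by omega] at b
    rw [add_mul, one_mul] at b2
    simp only [aa, cc, Nat.succ_eq_add_one, ← Nat.sub_sub] at *
    omega

noncomputable def be (n m : ℕ) : ℕ := FF^[aa n m] (AA m)

def Bo (f : ℕ → ℕ) : Prop := ∃ n, ∀ᶠ m in U, f m ≤ be n m

theorem Bo.mono {f g : ℕ → ℕ} (h : Bo g) (e : ∀ᶠ m in U, f m ≤ g m) : Bo f :=
  h.imp fun _ h => (h.and e).mono fun _ e => e.2.trans e.1

theorem bo_be (n : ℕ) : Bo (be n) := ⟨n, Eventually.of_forall fun _ => le_rfl⟩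

theorem be_mono {n n' : ℕ} (h : n ≤ n') : ∀ᶠ m in U, be n m ≤ be n' m := (U_ge n').mono fun m e =>
  (FF_it _).monotone ((Nat.le_add_right _ _).trans (chain h e).1)

theorem bo_AA : Bo AA := ⟨0, Eventually.of_forall fun m => (FF_it _).monotone (Nat.zero_le (aa 0 m))⟩

theorem pow_le_N (m : ℕ) : 2 ^ m ≤ BB m ^ m := Nat.pow_le_pow_left (Nat.le_mul_of_pos_right _ (Nat.succ_pos _)) m

theorem bo_cst (c : ℕ) : Bo fun _ => c := bo_AA.mono ((U_ge c).mono fun m e =>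
  (e.trans Nat.lt_two_pow_self.le).trans ((pow_le_N m).trans (Nat.le_add_right _ _)))

theorem Bo.F {f : ℕ → ℕ} (h : Bo f) : Bo fun m => FF (f m) :=
  h.elim fun n h => ⟨n + 1, (h.and (U_ge (n + 1))).mono fun m e => (FF_mono e.1).trans
    ((Function.iterate_succ_apply' _ _ _).symm.trans_le ((FF_it _).monotone (by
      simpa using (chain n.le_succ e.2).1)))⟩

theorem Bo.max {f g : ℕ → ℕ} (h : Bo f) (h' : Bo g) : Bo fun m => max (f m) (g m) :=
  h.elim fun j h => h'.elim fun k h' => ⟨Max.max j k, by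
    filter_upwards [h, h', be_mono (le_max_left j k), be_mono (le_max_right j k)] with m a b c d
    exact max_le (a.trans c) (b.trans d)⟩

theorem Bo.pair {f g : ℕ → ℕ} (h : Bo f) (h' : Bo g) : Bo fun m => Nat.pair (f m) (g m) :=
  (h.max h').F.mono (Eventually.of_forall fun _ => pair_FF (le_max_left _ _) (le_max_right _ _))

theorem Bo.pr {F : ℕ → ℕ → ℕ} (hF : Primrec₂ F) {f g : ℕ → ℕ} (h : Bo f) (h' : Bo g) :
    Bo fun m => F (f m) (g m) := by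
  obtain ⟨c, hc⟩ := dom (Q := fun x w => w = F x.unpair.1 x.unpair.2)
    (Primrec.eq.comp .snd (hF.comp (Bsig.pr_l .fst) (Bsig.pr_r .fst)))
  exact ((bo_cst c).pair (h.pair h')).F.mono (Eventually.of_forall fun m => by
    simpa using (hc (Nat.pair (f m) (g m))).2 _ le_rfl ⟨_, rfl⟩)

def Bd (f : ℕ → ℕ) : Prop := In f ∧ Bo f

theorem bd_cst (c : ℕ) : Bd fun _ => c := ⟨.cst c, bo_cst c⟩
theorem Bd.add {f g : ℕ → ℕ} (h : Bd f) (h' : Bd g) : Bd fun m => f m + g m :=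
  ⟨h.1.bin 0 h'.1, h.2.pr Primrec.nat_add h'.2⟩
theorem Bd.mul {f g : ℕ → ℕ} (h : Bd f) (h' : Bd g) : Bd fun m => f m * g m :=
  ⟨h.1.bin 1 h'.1, h.2.pr Primrec.nat_mul h'.2⟩
theorem Bd.pow {f g : ℕ → ℕ} (h : Bd f) (h' : Bd g) : Bd fun m => f m ^ g m :=
  ⟨h.1.bin 2 h'.1, h.2.pr (Primrec₂.unpaired'.1 Nat.Primrec.pow) h'.2⟩
theorem Bd.pair {f g : ℕ → ℕ} (h : Bd f) (h' : Bd g) : Bd fun m => Nat.pair (f m) (g m) :=
  ⟨h.1.bin 3 h'.1, h.2.pair h'.2⟩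
theorem Bd.l {f : ℕ → ℕ} (h : Bd f) : Bd fun m => (f m).unpair.1 :=
  ⟨h.1.bin 4 h.1, h.2.mono (Eventually.of_forall fun _ => Nat.unpair_left_le _)⟩
theorem Bd.r {f : ℕ → ℕ} (h : Bd f) : Bd fun m => (f m).unpair.2 :=
  ⟨h.1.bin 5 h.1, h.2.mono (Eventually.of_forall fun _ => Nat.unpair_right_le _)⟩
theorem bd_be (n : ℕ) : Bd (be n) := ⟨(in_aa n).bin 7 in_AA, bo_be n⟩

def sto : Setoid {f // Bd f} where
  r f g := ∀ᶠ m in U, f.1 m = g.1 m
  iseqv := ⟨fun _ => Eventually.of_forall fun _ => rfl, fun h => h.mono fun _ => Eq.symm,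
    fun h h' => by filter_upwards [h, h'] with x a b using a.trans b⟩

def I : Type := Quotient sto

noncomputable def rep (x : I) : ℕ → ℕ := (Quotient.out x).1
theorem bd_rep (x : I) : Bd (rep x) := (Quotient.out x).2
def mkI (f : ℕ → ℕ) (h : Bd f) : I := Quotient.mk sto ⟨f, h⟩
theorem rep_mk (f : ℕ → ℕ) (h : Bd f) : ∀ᶠ m in U, rep (mkI f h) m = f m :=
  Quotient.mk_out (s := sto) ⟨f, h⟩
theorem ext_iff (x y : I) : x = y ↔ ∀ᶠ m in U, rep x m = rep y m :=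
  (Quotient.out_equiv_out (s := sto)).symm
theorem ex_rep {f : ℕ → ℕ} (h : Bd f) : ∃ x : I, ∀ᶠ m in U, rep x m = f m := ⟨_, rep_mk f h⟩
theorem rfl_ae {f : ℕ → ℕ} : ∀ᶠ m in U, f m = f m := Eventually.of_forall fun _ => rfl

theorem Ch.ex {P : ℕ → ℕ → Prop} (h : Ch P) {b : ℕ → ℕ} (hb : Bo b) (e : ∀ᶠ m in U, ∃ x ≤ b m, P m x) :
    ∃ x : I, ∀ᶠ m in U, P m (rep x m) ∧ ∀ y, P m y → rep x m ≤ y := by
  obtain ⟨x, hx⟩ := ex_rep ⟨h, hb.mono (e.mono fun m ⟨x, a, b⟩ => (Nat.sInf_le b).trans a)⟩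
  exact ⟨x, (hx.and e).mono fun m ⟨a, x, _, b⟩ =>
    a ▸ ⟨Nat.sInf_mem (s := {x | P m x}) ⟨x, b⟩, fun _ => Nat.sInf_le⟩⟩

noncomputable abbrev M : Mod where
  N := I
  zero := mkI _ (bd_cst 0)
  one := mkI _ (bd_cst 1)
  add x y := mkI _ ((bd_rep x).add (bd_rep y))
  mul x y := mkI _ ((bd_rep x).mul (bd_rep y))
  pow x y := mkI _ ((bd_rep x).pow (bd_rep y))
  lt x y := ∀ᶠ m in U, rep x m < rep y m

theorem los_tm (t : Tm) (v : ℕ → I) (u : ℕ → ℕ → ℕ) (h : ∀ i, ∀ᶠ m in U, rep (v i) m = u m i) :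
    ∀ᶠ m in U, rep (t.ev M v) m = t.ev std (u m) := by
  induction t with
  | var i => exact h i
  | zero => exact rep_mk _ _
  | one => exact rep_mk _ _
  | add s t a b =>
    filter_upwards [a, b, rep_mk _ ((bd_rep (s.ev M v)).add (bd_rep (t.ev M v)))] with m a b c
    exact c.trans (congrArg₂ _ a b)
  | mul s t a b =>
    filter_upwards [a, b, rep_mk _ ((bd_rep (s.ev M v)).mul (bd_rep (t.ev M v)))] with m a b c
    exact c.trans (congrArg₂ _ a b)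
  | pow s t a b =>
    filter_upwards [a, b, rep_mk _ ((bd_rep (s.ev M v)).pow (bd_rep (t.ev M v)))] with m a b c
    exact c.trans (congrArg₂ _ a b)

theorem cons_ae {v : ℕ → I} {u : ℕ → ℕ → ℕ} (h : ∀ i, ∀ᶠ m in U, rep (v i) m = u m i)
    {x : I} {f : ℕ → ℕ} (hx : ∀ᶠ m in U, rep x m = f m) :
    ∀ i, ∀ᶠ m in U, rep (cons x v i) m = cons (f m) (u m) i
  | 0 => hx
  | i + 1 => h i

theorem code (v : ℕ → I) (n : ℕ) : ∃ d, Bd d ∧ ∀ᶠ m in U, ∀ i < n, dec (d m) i = rep (v i) m := by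
  induction n generalizing v with
  | zero => exact ⟨_, bd_cst 0, by simp⟩
  | succ n ih =>
    obtain ⟨d, h1, h2⟩ := ih fun i => v (i + 1)
    refine ⟨_, (bd_rep (v 0)).pair h1, h2.mono fun m e => ?_⟩
    rw [dec_pair]
    rintro (_ | i) hi
    exacts [rfl, e i (by omega)]

theorem wit (φ : Fm) {v : ℕ → I} {u : ℕ → ℕ → ℕ} (h : ∀ i, ∀ᶠ m in U, rep (v i) m = u m i) {b : ℕ → ℕ}
    (hb : Bo b) (e : ∀ᶠ m in U, ∃ x ≤ b m, Sat std φ (cons x (u m))) : ∃ x : I, ∀ᶠ m in U,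
      Sat std φ (cons (rep x m) (u m)) ∧ ∀ y, Sat std φ (cons y (u m)) → rep x m ≤ y := by
  obtain ⟨d, h1, h2⟩ := code v φ.sup
  have h3 : ∀ᶠ m in U, ∀ x, Sat std φ (cons x (dec (d m))) ↔ Sat std φ (cons x (u m)) :=
    (h2.and ((eventually_all_finite (Set.finite_Iio φ.sup)).2 fun i _ => h i)).mono fun m e x =>
      sat_congr φ (cons_congr (fun i hi => (e.1 i hi).trans (e.2 i hi)) x)
  obtain ⟨x, hx⟩ := (In.ap 0 φ h1.1 h1.1 h1.1).ex hb ((e.and h3).mono fun m e => e.1.imp fun x a =>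
    ⟨a.1, (e.2 x).2 a.2⟩)
  exact ⟨x, (hx.and h3).mono fun m e => ⟨(e.2 _).1 e.1.1, fun y a => e.1.2 y ((e.2 y).2 a)⟩⟩

theorem los {θ : Fm} (hθ : Bdd θ) : ∀ (v : ℕ → I) (u : ℕ → ℕ → ℕ),
    (∀ i, ∀ᶠ m in U, rep (v i) m = u m i) → (Sat M θ v ↔ ∀ᶠ m in U, Sat std θ (u m)) := by
  induction hθ with
  | eq s t =>
    exact fun v u h => (ext_iff _ _).trans (eventually_congr
      (((los_tm s v u h).and (los_tm t v u h)).mono fun m e => by rw [e.1, e.2]; rfl))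
  | lt s t =>
    exact fun v u h => eventually_congr
      (((los_tm s v u h).and (los_tm t v u h)).mono fun m e => by rw [e.1, e.2]; rfl)
  | neg _ ih => exact fun v u h => (not_congr (ih v u h)).trans ae_not.symm
  | and _ _ a b => exact fun v u h => (and_congr (a v u h) (b v u h)).trans eventually_and.symm
  | @ball t φ _ ih =>
    intro v u h
    have k := los_tm t v u h
    have ih := fun x => ih (cons x v) (fun m => cons (rep x m) (u m)) (cons_ae h rfl_ae)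
    refine ⟨fun e => by_contra fun hc => ?_, fun e x hx => (ih x).2 ((e.and (hx.and k)).mono
      fun m a => a.1 _ (a.2.2 ▸ a.2.1))⟩
    have h1 : ∀ᶠ m in U, ∃ x < rep (t.ev M v) m, Sat std φ.neg (cons x (u m)) :=
      ((ae_not.2 hc).and k).mono fun m a => by simpa [Sat, a.2] using a.1
    obtain ⟨x, hx⟩ := wit φ.neg h (bd_rep _).2 (h1.mono fun m => Exists.imp fun _ a => ⟨a.1.le, a.2⟩)
    exact (((ih x).1 (e x ((hx.and h1).mono fun m ⟨a, y, b, c⟩ => (a.2 y c).trans_lt b))).and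
      hx).exists.elim fun m a => a.2.1 a.1

theorem los1 {θ : Fm} (hθ : Bdd θ) (v : ℕ → I) (u : ℕ → ℕ → ℕ)
    (h : ∀ i, ∀ᶠ m in U, rep (v i) m = u m i) : Sat M θ.ex v ↔ ∀ᶠ m in U, Sat std θ.ex (u m) := by
  refine ⟨fun ⟨w, hw⟩ => ((los hθ _ _ (cons_ae h rfl_ae)).1 hw).mono fun m e => ⟨_, e⟩, fun e => ?_⟩
  obtain ⟨d, h1, h2⟩ := code v θ.sup
  obtain ⟨c, hc⟩ := dom ((pr_sat hθ).comp (Bsig.pr_pair .snd .fst)).primrecRel
  obtain ⟨x, hx⟩ := wit θ h ((bo_cst c).pair h1.2).F (by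
    filter_upwards [e, h2, (eventually_all_finite (Set.finite_Iio θ.sup)).2 fun i _ => h i] with m a b k
    have : ∀ x, Sat std θ (dec (Nat.pair x (d m))) ↔ Sat std θ (cons x (u m)) := fun x => by
      rw [dec_pair]
      exact sat_congr θ (cons_congr (fun i hi => (b i hi).trans (k i hi)) x)
    exact ((hc _).2 _ le_rfl (a.imp fun x => (this x).2)).imp fun x a => ⟨a.1, (this x).1 a.2⟩)
  exact ⟨x, (los hθ _ _ (cons_ae h rfl_ae)).2 (hx.mono fun _ => And.left)⟩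

theorem losP {θ : Fm} (hθ : Bdd θ) (v : ℕ → I) (u : ℕ → ℕ → ℕ)
    (h : ∀ i, ∀ᶠ m in U, rep (v i) m = u m i) : Sat M θ.all v ↔ ∀ᶠ m in U, Sat std θ.all (u m) :=
  not_exists_not.symm.trans ((not_congr (los1 hθ.neg v u h)).trans (ae_not.symm.trans
    (eventually_congr (Eventually.of_forall fun _ => not_exists_not))))

end Pool.Agent.H40.Gen
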