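import Pool.Agent.H40.Gen2

set_option autoImplicit false

namespace Pool.Agent.H40.Gen

open Filter
open Bsig (cons cons_congr dec dec_pair dec_le U U_ge ae_not ae_or FF FF_it FF_mono lt_FF Fz TT
  itz_le itz_eq pr_it pr_dec pr_l pr_r ex_beta)

theorem basic : Basic M := by
  have key : ∀ {θ : Fm}, Bdd θ → (∀ u, Sat std θ u) → ∀ x y : I, Sat M θ (cons x fun _ => y) :=
    fun hθ h x y => (los hθ _ _ fun _ => rfl_ae).2 (Eventually.of_forall fun _ => h _)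
  refine ⟨fun n => key (.neg (.eq (.add (.var 0) .one) .zero)) (fun u => Nat.succ_ne_zero _) n n,
    fun m n e => by_contra fun e' => key (.neg (.and (.eq (.add (.var 0) .one) (.add (.var 1) .one))
      (.neg (.eq (.var 0) (.var 1))))) (fun u h => h.2 (Nat.succ_injective h.1)) m n ⟨e, e'⟩,
    fun m => key (.eq (.add (.var 0) .zero) (.var 0)) (fun _ => rfl) m m,
    key (.eq (.add (.var 0) (.add (.var 1) .one)) (.add (.add (.var 0) (.var 1)) .one)) fun _ => rfl,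
    fun m => key (.eq (.mul (.var 0) .zero) .zero) (fun _ => rfl) m m,
    key (.eq (.mul (.var 0) (.add (.var 1) .one)) (.add (.mul (.var 0) (.var 1)) (.var 0)))
      fun _ => rfl,
    fun m => key (.eq (.pow (.var 0) .zero) .one) (fun _ => rfl) m m,
    key (.eq (.pow (.var 0) (.add (.var 1) .one)) (.mul (.pow (.var 0) (.var 1)) (.var 0)))
      fun _ => rfl,
    fun m => key (.neg (.lt (.var 0) .zero)) (fun u => Nat.not_lt_zero _) m m, fun m n => ?_⟩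
  rw [ext_iff]
  refine (eventually_congr ?_).trans ae_or
  filter_upwards [rep_mk _ ((bd_rep n).add (bd_rep M.one)), rep_mk _ (bd_cst 1)] with k a b
  have a' : rep (M.add n M.one) k = rep n k + 1 := a.trans (congrArg _ b)
  omega

theorem succ_ae (x : I) : ∀ᶠ m in U, rep (M.add x M.one) m = rep x m + 1 :=
  los_tm (.add (.var 0) .one) (fun _ => x) (fun m _ => rep x m) fun _ => rfl_ae

def LW (P : ℕ → ℕ → Prop) : Prop := ∀ b, Bo b → (∀ᶠ m in U, ∃ x ≤ b m, P m x) →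
  ∃ x : I, ∀ᶠ m in U, P m (rep x m) ∧ ∀ y, P m y → rep x m ≤ y

theorem int_ind {W : ℕ → ℕ → Prop} (h : LW fun m x => ¬ W m x) (e : I)
    (h0 : ∀ᶠ m in U, W m (rep M.zero m)) (h1 : ∀ x : I, M.lt x e → (∀ᶠ m in U, W m (rep x m)) →
      ∀ᶠ m in U, W m (rep (M.add x M.one) m)) : ∀ᶠ m in U, W m (rep e m) := by
  by_contra hc
  have hc := ae_not.2 hc
  obtain ⟨y, hy⟩ := h _ (bd_rep e).2 (hc.mono fun m a => ⟨_, le_rfl, a⟩)
  obtain ⟨x, hx⟩ := ex_rep (f := fun m => rep y m - 1) ⟨(bd_rep y).1.bin 6 (.cst 1),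
    (bd_rep y).2.mono (Eventually.of_forall fun _ => Nat.sub_le _ _)⟩
  have h2 : ∀ᶠ m in U, rep x m + 1 = rep y m := by
    filter_upwards [hy, hx, h0, rep_mk _ (bd_cst 0)] with m a b c d
    have : rep y m ≠ 0 := fun e => a.1 (e ▸ (show rep M.zero m = 0 from d) ▸ c)
    omega
  obtain ⟨m, a1, a2, a3, a4⟩ := ((h1 x ((hy.and (h2.and hc)).mono fun m a => by
    have := a.1.2 _ a.2.2
    omega) ((hy.and h2).mono fun m a => by_contra fun b => by
      have := a.1.2 _ b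
      omega)).and (hy.and (h2.and (succ_ae x)))).exists
  exact a2.1 (a3 ▸ a4 ▸ a1)

theorem ind1 : Ind M 1 := by
  rintro _ ⟨θ, hθ, rfl⟩ v h0 h1 x
  have k := fun x => los1 hθ (cons x v) _ (cons_ae (fun i => rfl_ae) rfl_ae)
  simp only [k] at h0 h1 ⊢
  exact int_ind (fun _ => wit θ.ex.neg fun _ => rfl_ae) x h0 fun x _ => h1 x

theorem lw2 (φ : Fm) {d b : ℕ → ℕ} (hd : In d) (hb : In b) :
    (LW fun m x => ∃ y ≤ b m, Sat std φ (cons y (cons x (dec (d m))))) ∧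
      LW fun m x => ¬ ∃ y ≤ b m, Sat std φ (cons y (cons x (dec (d m)))) :=
  ⟨fun _ => by simpa only [Rel, iff_true] using (In.ap 2 φ hd hb (.cst 0)).ex,
    fun _ => by simpa only [Rel, one_ne_zero, iff_false] using (In.ap 2 φ hd hb (.cst 1)).ex⟩

theorem decs {d : ℕ → ℕ} (h : Bd d) : ∃ w : ℕ → I, ∀ i, ∀ᶠ m in U, rep (w i) m = dec (d m) i := by
  have : ∀ i d, Bd d → Bd fun m => dec (d m) i := fun i => by
    induction i with
    | zero => exact fun _ => Bd.l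
    | succ i ih => exact fun _ h => ih _ h.r
  exact ⟨fun i => mkI _ (this i d h), fun i => rep_mk _ _⟩

theorem recode (v : ℕ → I) (n : ℕ) : ∃ (d : ℕ → ℕ) (w : ℕ → I), Bd d ∧ (∀ i < n, v i = w i) ∧
    ∀ i, ∀ᶠ m in U, rep (w i) m = dec (d m) i := by
  obtain ⟨d, h1, h2⟩ := code v n
  obtain ⟨w, hw⟩ := decs h1
  exact ⟨d, w, h1, fun i hi => (ext_iff _ _).2 ((h2.and (hw i)).mono fun m e =>
    (e.1 i hi).symm.trans e.2.symm), hw⟩

theorem bnd2 : Bnd M 2 := by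
  rintro _ ⟨_, ⟨θ, hθ, rfl⟩, rfl⟩ v a h
  obtain ⟨d, v', h1, h2, h3⟩ := recode v θ.sup
  have key : ∀ w y x : I, Sat M θ.all (cons w (cons y (cons x v))) ↔ ∀ᶠ m in U,
      Sat std θ.all (cons (rep w m) (cons (rep y m) (cons (rep x m) (dec (d m))))) := fun w y x =>
    (sat_congr (M := M) θ.all (cons_congr (cons_congr (cons_congr h2 x) y) w)).trans
      (losP hθ _ _ (cons_ae (cons_ae (cons_ae h3 rfl_ae) rfl_ae) rfl_ae))
  have k2 : ∀ x, M.lt x a → ∃ b : I, ∀ᶠ m in U, W2 θ.all (d m) (rep x m) (rep b m) := fun x hx => by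
    obtain ⟨y, w, e⟩ := h x hx
    obtain ⟨b, hb⟩ := ex_rep (((bd_rep y).add (bd_rep w)).add (bd_cst 1))
    exact ⟨b, (hb.and ((key w y x).1 e)).mono fun m e => ⟨_, by omega, _, by omega, e.2⟩⟩
  by_cases ha : ∀ᶠ m in U, rep a m = 0
  · exact ⟨a, fun x hx => ((ha.and hx).exists.elim fun m e => by omega)⟩
  obtain ⟨x₀, h4⟩ := (In.ap 1 θ.all h1.1 (bd_rep a).1 h1.1).ex (bd_rep a).2 ((ae_not.2 ha).mono
    fun m e => by
      obtain ⟨x, a1, a2⟩ := Finset.exists_max_image (Finset.range (rep a m))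
        (fun x => sInf {y | W2 θ.all (d m) x y}) (by simpa using e)
      exact ⟨x, (Finset.mem_range.1 a1).le, Finset.mem_range.1 a1, fun x' h =>
        a2 x' (Finset.mem_range.2 h)⟩)
  obtain ⟨b, hb⟩ := k2 x₀ (h4.mono fun _ e => e.1.1)
  refine ⟨b, fun x hx => ?_⟩
  obtain ⟨b', hb'⟩ := k2 x hx
  have h5 : ∀ᶠ m in U, ∃ y < rep b m, ∃ w ≤ rep b m,
      Sat std θ.all (cons w (cons y (dec (Nat.pair (rep x m) (d m))))) := by
    filter_upwards [h4, hb, hb', hx] with m a1 a2 a3 a4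
    obtain ⟨y, a5, w, a6, a7⟩ := Nat.sInf_mem (s := {y | W2 θ.all (d m) (rep x m) y}) ⟨_, a3⟩
    have := (a1.1.2 _ a4).trans (Nat.sInf_le a2)
    exact ⟨y, a5.trans_le this, w, a6.trans this, by rwa [dec_pair]⟩
  obtain ⟨y, hy⟩ := (lw2 θ.all ((bd_rep x).pair h1).1 (bd_rep b).1).1 _ (bd_rep b).2
    (h5.mono fun _ => Exists.imp fun _ e => ⟨e.1.le, e.2⟩)
  obtain ⟨w, hw⟩ := wit θ.all (cons_ae (cons_ae h3 (rfl_ae (f := rep x))) (rfl_ae (f := rep y)))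
    (bd_rep b).2 (hy.mono fun m e => by simpa only [dec_pair] using e.1)
  exact ⟨y, (hy.and h5).mono fun m ⟨a, y, b, c⟩ => (a.2 y c).trans_lt b, w,
    (key w y x).2 (hw.mono fun _ => And.left)⟩

theorem absl {P : (ℕ → ℕ) → Prop} (h : S1 P) : ∃ θ, Bdd θ ∧
    ∀ v, Sat M θ.ex v ↔ ∀ᶠ m in U, P fun i => rep (v i) m := by
  obtain ⟨Q, h, h'⟩ := h
  obtain ⟨θ, h1, h3⟩ := h id
  exact ⟨θ, h1, fun v => (los1 h1 v _ fun _ => rfl_ae).trans (eventually_congr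
    (Eventually.of_forall fun m => ((h' _).trans (exists_congr fun w => (h3 _).symm)).symm))⟩

theorem aa_lt {n m : ℕ} (h : n ≤ m) : aa n m < BB m ^ m := by
  have := (chain n.zero_le h).2.1
  have := BB_pos m (m - n)
  have : aa 0 m = 0 := by simp [aa, st, T.ev]
  rw [Nat.sub_zero] at *
  omega

theorem notInd : ¬ Ind M 2 := by
  obtain ⟨θ, h1, h3⟩ := absl (P := fun v => ∃ z, v 0 < (Fz z)^[v 1] (v 2))
    (.ex (s1_five (P := fun z y k a _ => y < (Fz z)^[k] a) (Primrec.nat_lt.comp (pr_dec .id 1)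
      (pr_it (pr_dec .id 0) (pr_dec .id 2) (pr_dec .id 3))) 0 1 2 3 0))
  obtain ⟨a, ha⟩ := ex_rep ⟨in_AA, bo_AA⟩
  have key : ∀ k, Sat M θ.neg.all.ex (cons k fun _ => a) ↔ ∃ j, ∀ᶠ m in U, rep k m ≤ aa j m := fun k => by
    refine (exists_congr fun y => not_exists.symm.trans ((not_congr (h3 _)).trans
      ae_not.symm)).trans ⟨fun ⟨y, hy⟩ => (bd_rep y).2.imp fun j hj => ?_, fun ⟨j, hj⟩ => ?_⟩
    · filter_upwards [hj, ha, hy] with m a1 a2 a3
      refine not_lt.1 fun a4 => a3 ⟨TT (FF^[rep k m] (AA m)), ?_⟩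
      simp only [cons, a2]
      exact (a1.trans_lt (FF_it _ a4)).trans_eq (itz_eq le_rfl).symm
    · obtain ⟨y, hy⟩ := ex_rep (bd_be j)
      exact ⟨y, (hj.and (hy.and ha)).mono fun m e ⟨z, b⟩ => by
        simp only [cons, e.2.1, e.2.2] at b
        exact b.not_ge ((itz_le _ _ _).trans ((FF_it _).monotone e.1))⟩
  intro h
  obtain ⟨j, hj⟩ := (key a).1 (h _ ⟨_, ⟨_, h1.neg, rfl⟩, rfl⟩ _
    ((key _).2 ⟨0, (rep_mk _ _).mono fun _ e => e.trans_le (Nat.zero_le _)⟩) (fun x hx =>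
      ((key x).1 hx).elim fun j e => (key _).2 ⟨j + 1, by
        filter_upwards [e, succ_ae x, U_ge (j + 1)] with m a b c
        have := (chain j.le_succ c).1
        simp only [Nat.succ_eq_add_one] at this
        omega⟩) a)
  obtain ⟨m, a1, a2, a3⟩ := (ha.and (hj.and (U_ge j))).exists
  exact (aa_lt a3).not_ge ((Nat.le_add_right _ _).trans (a1 ▸ a2))

theorem sig2 {θ : Fm} (hθ : Bdd θ) (v : ℕ → I) : ∃ W : ℕ → ℕ → Prop, LW W ∧ (LW fun m x => ¬ W m x) ∧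
    ∀ x : I, (∀ᶠ m in U, rep x m ≤ 2 ^ m) → (Sat M θ.all.ex (cons x v) ↔ ∀ᶠ m in U, W m (rep x m)) := by
  obtain ⟨d, v', h1, h2, h3⟩ := recode v θ.sup
  obtain ⟨t, rfl⟩ := h1.1
  obtain ⟨n, hn⟩ := rq_surj (θ.all, t, t)
  have key : ∀ y x : I, Sat M θ.all (cons y (cons x v)) ↔ ∀ᶠ m in U,
      Sat std θ.all (cons (rep y m) (cons (rep x m) (dec (t.ev m)))) := fun y x =>
    (sat_congr (M := M) θ.all (cons_congr (cons_congr h2 x) y)).trans
      (losP hθ _ _ (cons_ae (cons_ae h3 rfl_ae) rfl_ae))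
  refine ⟨_, (lw2 θ.all h1.1 (bd_be (n + 1)).1).1, (lw2 θ.all h1.1 (bd_be (n + 1)).1).2,
    fun x hx => ⟨fun ⟨y, hy⟩ => ?_, fun h => ?_⟩⟩
  · obtain ⟨k, hk⟩ := (bd_rep y).2
    filter_upwards [(key y x).1 hy, hk, hx, U_ge (max k (n + 1))] with m a1 a2 a3 a4
    obtain ⟨_, _, _, _, _, a5, _⟩ := nx n m
    rw [hn] at a5
    have a6 : lev θ.all m (t.ev m) (rep x m) ≤ aa k m := Nat.sInf_le ⟨_, a2, a1⟩
    have a7 := (chain (le_max_left k (n + 1)) a4).1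
    have a8 := (chain (le_max_right k (n + 1)) a4).2.1
    have a9 := BB_pos m (m - max k (n + 1))
    obtain ⟨y, b1, b2⟩ := Nat.sInf_mem (s := {i | ∃ y ≤ FF^[i] (AA m),
      Sat std θ.all (cons y (cons (rep x m) (dec (t.ev m))))}) ⟨_, _, a2, a1⟩
    refine ⟨y, b1.trans ((FF_it _).monotone ((a5 _ a3).resolve_right fun e => ?_).le), b2⟩
    simp only [aa, ← Nat.sub_sub] at *
    omega
  · obtain ⟨y, hy⟩ := wit θ.all (cons_ae h3 (rfl_ae (f := rep x))) (bo_be _) h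
    exact ⟨y, (key y x).2 (hy.mono fun _ => And.left)⟩

def J : Set I := {x | ∃ n, ∀ᶠ m in U, rep x m < cc n m}

theorem cc_lt {n n' m : ℕ} (h : max n n' ≤ m) : cc n m < cc n' m + 2 ^ (m - n') := by
  have := (chain (le_max_left n n') h).2.2.1
  have := (chain (le_max_right n n') h).2.2.2
  have : 0 < 2 ^ (m - max n n') := by positivity
  omega

theorem split (x : I) : x ∉ J ↔ ∃ n, ∀ᶠ m in U, cc n m + 2 ^ (m - n) ≤ rep x m := by
  refine ⟨fun h => ?_, fun ⟨n, h⟩ ⟨n', h'⟩ => (h.and (h'.and (U_ge (max n' n)))).exists.elim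
    fun m e => by have := cc_lt e.2.2; omega⟩
  obtain ⟨t, ht⟩ := (bd_rep x).1
  obtain ⟨n, hn⟩ := rq_surj (.eq .zero .zero, t, t)
  refine ⟨n + 1, (ae_or.1 (Eventually.of_forall fun m => ?_)).resolve_left fun e => h ⟨n + 1, e⟩⟩
  obtain ⟨_, _, _, _, _, _, a⟩ := nx n m
  rwa [hn, ← ht] at a

noncomputable def ee : I := mkI _ ((bd_cst 2).pow ⟨.id, bo_AA.mono (Eventually.of_forall fun m =>
  Nat.lt_two_pow_self.le.trans ((pow_le_N m).trans (Nat.le_add_right _ _)))⟩)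

theorem ee_ae : ∀ᶠ m in U, rep ee m = 2 ^ m := rep_mk _ _

theorem ee_J : ee ∉ J := (split _).2 ⟨0, ee_ae.mono fun m e => by simp [e, cc, st, T.ev]⟩

theorem J_zero : M.zero ∈ J := by_contra fun h => ((split _).1 h).elim fun n h =>
  (h.and (rep_mk _ (bd_cst 0))).exists.elim fun m e => by
    have : 0 < 2 ^ (m - n) := by positivity
    have : rep M.zero m = 0 := e.2
    omega

theorem J_succ (x : I) (h : x ∈ J) : M.add x M.one ∈ J := by_contra fun h' =>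
  ((split _).1 h').elim fun n h' => h.elim fun k h =>
    (h.and (h'.and ((succ_ae x).and (U_ge (max k n))))).exists.elim fun m e => by
      have := cc_lt e.2.2.2
      omega

theorem cut : IsCut M J := ⟨⟨_, J_zero⟩, fun e => ee_J (e ▸ trivial),
  fun _ h _ e => h.imp fun _ h => (h.and e).mono fun _ e => e.2.trans e.1, J_succ⟩

theorem notInt (W : ℕ → ℕ → Prop) (h : LW fun m x => ¬ W m x) :
    ¬ ∀ x : I, (∀ᶠ m in U, rep x m ≤ 2 ^ m) → (x ∈ J ↔ ∀ᶠ m in U, W m (rep x m)) := fun e =>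
  ee_J ((e _ (ee_ae.mono fun _ => le_of_eq)).2 (int_ind h ee ((e _ ((rep_mk _ _).mono fun _ a =>
    a.trans_le (Nat.zero_le _))).1 J_zero) fun x a b => (e _ ((a.and (ee_ae.and (succ_ae x))).mono
      fun m a => by omega)).1 (J_succ x ((e _ ((a.and ee_ae).mono fun m a => by omega)).2 b))))

theorem not2 (b : Bool) : ¬ Dfn M 2 b J := by
  cases b
  · rintro ⟨_, v, ⟨_, ⟨θ, hθ, rfl⟩, rfl⟩, h⟩
    obtain ⟨W, h1, _, h3⟩ := sig2 (Bdd.neg hθ) v
    exact notInt (fun m x => ¬ W m x) (by simpa only [not_not] using h1) fun x hx =>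
      (h x).trans (((not_congr (h3 x hx)).trans ae_not.symm).symm.trans (by simp [Sat])).symm
  · rintro ⟨_, v, ⟨_, ⟨θ, hθ, rfl⟩, rfl⟩, h⟩
    obtain ⟨W, _, h2, h3⟩ := sig2 hθ v
    exact notInt W h2 fun x hx => (h x).trans (h3 x hx)

theorem itz_mono (z a : ℕ) : Monotone fun j => (Fz z)^[j] a :=
  monotone_nat_of_le_succ fun j => by
    rw [Function.iterate_succ_apply']
    exact le_trans (by nlinarith) (Nat.le_add_right _ _)

theorem sig3 {R : ℕ → ℕ → Prop} (hR : B0 fun v => R (v 4) (v 0)) : ∃ θ v, Bdd θ ∧ ∀ x : I,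
    Sat M θ.ex.all.ex (cons x v) ↔ ∃ n, ∀ n', ∀ᶠ m in U, ∀ j, aa n m ≤ j → j ≤ aa n' m →
      R (rep x m) (q m m 0 j) := by
  obtain ⟨θ, h1, h3⟩ := absl (P := fun v => (Fz (v 0))^[(v 1).unpair.1] (v 3) ≤ (v 1).unpair.2 ∧
      ∀ j < v 6, j < (v 1).unpair.1 ∨ (∃ z, v 0 < (Fz z)^[j] (v 3)) ∨
        ∃ p, p = v 4 % (v 5 * (j + 1) + 1) ∧ R (v 2) p)
    (.and (s1_five (P := fun y u a _ _ => (Fz y)^[u.unpair.1] a ≤ u.unpair.2) (Primrec.nat_le.comp
      (pr_it (pr_dec .id 0) (pr_l (pr_dec .id 1)) (pr_dec .id 2)) (pr_r (pr_dec .id 1))) 0 1 3 0 0)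
      (.ball (.var 6) (.or (s1_five (P := fun j u _ _ _ => j < u.unpair.1) (Primrec.nat_lt.comp
        (pr_dec .id 0) (pr_l (pr_dec .id 1))) 0 2 0 0 0) (.or (.ex (s1_five
          (P := fun z y k a _ => y < (Fz z)^[k] a) (Primrec.nat_lt.comp (pr_dec .id 1)
            (pr_it (pr_dec .id 0) (pr_dec .id 2) (pr_dec .id 3))) 0 2 1 5 0))
          (.ex (.and (b0_mod (.var 0) (.var 6) (.mul (.var 7) (.add (.var 1) .one))).s1 hR.s1))))))
  have hc : Bd cw := ⟨in_cw, bo_AA.mono (Eventually.of_forall fun _ => Nat.le_add_left _ _)⟩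
  obtain ⟨A, hA⟩ := ex_rep ⟨in_AA, bo_AA⟩
  obtain ⟨a, ha⟩ := ex_rep hc.l
  obtain ⟨b, hb⟩ := ex_rep hc.r
  obtain ⟨N, hN⟩ := ex_rep ⟨in_N, bo_AA.mono (Eventually.of_forall fun _ => Nat.le_add_right _ _)⟩
  have hw : ∀ m, ∀ j < BB m ^ m, q m m 0 j = (cw m).unpair.1 % ((cw m).unpair.2 * (j + 1) + 1) :=
    fun m => Nat.sInf_mem (s := {w | ∀ j < BB m ^ m, q m m 0 j = w.unpair.1 % (w.unpair.2 * (j + 1) + 1)})
      ((ex_beta _ _).elim fun a h => h.elim fun b h => ⟨Nat.pair a b, by simpa using h⟩)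
  refine ⟨θ, cons A (cons a (cons b fun _ => N)), h1, fun x => (exists_congr fun u => forall_congr'
    fun y => h3 _).trans ⟨fun ⟨u, hu⟩ => ?_, fun ⟨n, hn⟩ => ?_⟩⟩
  · obtain ⟨n, hn⟩ := (bd_rep u).2
    obtain ⟨y, hy⟩ := ex_rep (f := fun m => TT (be (n + 1) m))
      ⟨(In.cst 2).bin 7 ((bd_be _).add (bd_cst _)).1, ((bd_be _).add (bd_cst _)).2.F.F⟩
    refine ⟨n + 1, fun n' => ?_⟩
    obtain ⟨y', hy'⟩ := ex_rep (bd_be n')
    filter_upwards [hn, hy, hy', hu y, hu y', hA, ha, hb, hN, U_ge (n + 1), U_ge n'] with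
      m a1 a2 a3 a4 a5 a6 a7 a8 a9 a10 a11 j b1 b2
    simp only [cons, a2, a3, a6, a7, a8, a9] at a4 a5
    have b3 := b2.trans_lt (aa_lt a11)
    rcases a5.2 j b3 with e | ⟨z, e⟩ | ⟨_, rfl, e⟩
    · have := (itz_eq le_rfl).symm.trans_le ((itz_mono _ _ (b1.trans e.le)).trans
        (a4.1.trans ((Nat.unpair_right_le _).trans a1)))
      exact absurd (FF_it _ (by simpa using (chain n.le_succ a10).1)) this.not_gt
    · exact absurd ((itz_le _ _ _).trans ((FF_it _).monotone b2)) e.not_ge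
    · rwa [hw m j b3]
  · obtain ⟨u, hu⟩ := ex_rep (Bd.pair ⟨in_aa n, bo_AA.mono ((U_ge n).mono fun _ e =>
      (aa_lt e).le.trans (Nat.le_add_right _ _))⟩ (bd_be n))
    refine ⟨u, fun y => ?_⟩
    obtain ⟨n', h⟩ := (bd_rep y).2
    filter_upwards [hu, h, hn n', hA, ha, hb, hN] with m a1 a2 a3 a6 a7 a8 a9
    simp only [cons, a1, a6, a7, a8, a9, Nat.unpair_pair]
    refine ⟨itz_le _ _ _, fun j hj => (lt_or_ge _ _).imp_right fun b1 => (lt_or_ge (aa n' m) j).imp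
      (fun b2 => ⟨_, (a2.trans_lt (FF_it _ b2)).trans_eq (itz_eq le_rfl).symm⟩)
      fun b2 => ⟨_, rfl, hw m j hj ▸ a3 j b1 b2⟩⟩

theorem q_in {n n' m j : ℕ} (h : max n n' ≤ m) (a : aa n m ≤ j) (b : j ≤ aa n' m) :
    cc n m ≤ q m m 0 j ∧ q m m 0 j < cc n m + 2 ^ (m - n) := by
  have h1 := (chain (le_max_left n n') h).2.1
  have h2 := (chain (le_max_right n n') h).1
  have h3 := BB_pos m (m - max n n')
  obtain ⟨k, rfl⟩ := Nat.exists_eq_add_of_le a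
  rw [good ((le_max_left _ _).trans h) k (by omega)]
  exact q_mem _ _ _ _

theorem def3 (b : Bool) : Dfn M 3 b J := by
  obtain ⟨θ, v, h1, h2⟩ := sig3 (R := (· < ·)) (.lt (.var 4) (.var 0))
  obtain ⟨θ', v', h3, h4⟩ := sig3 (R := fun a b => ¬ a < b) (B0.lt (.var 4) (.var 0)).not
  have k1 : ∀ x, x ∈ J → Sat M θ.ex.all.ex (cons x v) := fun x ⟨n, h⟩ => (h2 x).2 ⟨n, fun n' =>
    (h.and (U_ge (max n n'))).mono fun m e j a b => e.1.trans_le (q_in e.2 a b).1⟩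
  have k2 : ∀ x, x ∉ J → Sat M θ'.ex.all.ex (cons x v') := fun x h => ((split x).1 h).elim fun n h =>
    (h4 x).2 ⟨n, fun n' => (h.and (U_ge (max n n'))).mono fun m e j a b =>
      ((q_in e.2 a b).2.trans_le e.1).le.not_gt⟩
  have k3 : ∀ x, Sat M θ.ex.all.ex (cons x v) → ¬ Sat M θ'.ex.all.ex (cons x v') := fun x a b => by
    obtain ⟨n, a⟩ := (h2 x).1 a
    obtain ⟨n', b⟩ := (h4 x).1 b
    obtain ⟨m, a, b, c⟩ := ((a (max n n')).and ((b (max n n')).and (U_ge (max n n')))).exists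
    exact b _ ((Nat.le_add_right _ _).trans (chain (le_max_right _ _) c).1) le_rfl
      (a _ ((Nat.le_add_right _ _).trans (chain (le_max_left _ _) c).1) le_rfl)
  cases b
  · exact ⟨θ'.neg.all.ex.all, v', ⟨_, ⟨_, ⟨_, h3.neg, rfl⟩, rfl⟩, rfl⟩, fun x =>
      (⟨fun a => k3 x (k1 x a), fun a => by_contra fun b => a (k2 x b)⟩ : _ ↔ ¬ _).trans (by simp [Sat])⟩
  · exact ⟨θ.ex.all.ex, v, ⟨_, ⟨_, ⟨_, h1, rfl⟩, rfl⟩, rfl⟩, fun x =>
      ⟨k1 x, fun a => by_contra fun b => k3 x a (k2 x b)⟩⟩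

end Pool.Agent.H40.Gen
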