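import Pool.Agent.H40.GgmDefs

set_option autoImplicit false

namespace Pool.Agent.H40.Ggm

variable {N : Type}

theorem val_imp (v : Fm N → Prop) (a b : Fm N) : (a.imp b).val v ↔ (a.val v → b.val v) := by
  simp only [Fm.imp, Fm.val]; tauto

/-! ### Soundness -/

section
variable {A : N → Type} (pref : N → (∀ i, A i) → (∀ i, A i) → Prop) (W : Set (∀ i, A i))
  (V : ℕ → Set (∀ i, A i))

theorem sat_imp (a b : Fm N) (s : ∀ i, A i) :
    sat pref W V (a.imp b) s ↔ (sat pref W V a s → sat pref W V b s) := by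
  simp only [Fm.imp, sat]; tauto

theorem sat_val (s : ∀ i, A i) (a : Fm N) :
    a.val (fun b => sat pref W V b s) ↔ sat pref W V a s := by
  induction a with
  | var n => rfl
  | not a ih => exact not_congr ih
  | or a b ih1 ih2 => exact or_congr ih1 ih2
  | dia m a _ => rfl

end

theorem sound {a : Fm N} (h : Prov a) : Valid a := by
  intro A _ pref hr ht W V
  induction h with
  | taut a h => exact fun s _ => (sat_val pref W V s a).1 (h _)
  | mp a b _ _ ih1 ih2 => exact fun s hs => (sat_imp _ _ _ _ _ _).1 (ih2 s hs) (ih1 s hs)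
  | mono m a b _ ih =>
    exact fun s hs => (sat_imp _ _ _ _ _ _).2 fun ⟨t, h1, h2, h3⟩ =>
      ⟨t, h1, h2, (sat_imp _ _ _ _ _ _).1 (ih t h1) h3⟩
  | nec m a _ ih => exact fun s hs ⟨t, h1, _, h3⟩ => ih t h1 h3
  | add m a b =>
    exact fun s hs => (sat_imp _ _ _ _ _ _).2 fun ⟨t, h1, h2, h3⟩ =>
      h3.imp (fun h => ⟨t, h1, h2, h⟩) fun h => ⟨t, h1, h2, h⟩
  | refl m a =>
    refine fun s hs => (sat_imp _ _ _ _ _ _).2 fun h => ⟨s, hs, ?_, h⟩
    cases m
    · exact hr _ _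
    · rfl
    · exact fun _ _ => rfl
  | trans m a =>
    refine fun s hs => (sat_imp _ _ _ _ _ _).2 fun ⟨t, _, h2, u, h3, h4, h5⟩ => ⟨u, h3, ?_, h5⟩
    cases m
    · exact ht _ _ _ _ h2 h4
    · exact h2.trans h4
    · exact fun j hj => (h2 j hj).trans (h4 j hj)
  | symmSim i a =>
    exact fun s hs => (sat_imp _ _ _ _ _ _).2 fun h ⟨t, _, h2, h3⟩ => h3 ⟨s, hs, h2.symm, h⟩
  | symmApp i a =>
    exact fun s hs => (sat_imp _ _ _ _ _ _).2 fun h ⟨t, _, h2, h3⟩ =>
      h3 ⟨s, hs, fun j hj => (h2 j hj).symm, h⟩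
  | incl i j a hj =>
    exact fun s hs => (sat_imp _ _ _ _ _ _).2 fun ⟨t, h1, h2, h3⟩ => ⟨t, h1, h2 j hj, h3⟩
  | two i j a _ hk =>
    refine fun s hs => (sat_imp _ _ _ _ _ _).2 fun ⟨t, h1, h2, h3⟩ => ⟨t, h1, fun k h => ?_, h3⟩
    obtain rfl := (hk k).resolve_left h
    exact h2

/-! ### Canonical model -/

theorem t1 {a : Fm N} (ha : Prov a) (b : Fm N) (h : ∀ v, a.val v → b.val v) : Prov b :=
  .mp _ _ ha (.taut _ fun v => (val_imp v _ _).2 (h v))

def bt : Fm N := .not (.or (.var 0) (.not (.var 0)))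

theorem val_bt (v : Fm N → Prop) : (bt : Fm N).val v ↔ False := by
  simp only [bt, Fm.val]; tauto

def Thy (T : Set (Fm N)) : Prop :=
  (∀ a, Prov a → a ∈ T) ∧ (∀ a b, a ∈ T → a.imp b ∈ T → b ∈ T) ∧ bt ∉ T

def Mx (T : Set (Fm N)) : Prop := Thy T ∧ ∀ a, a ∈ T ∨ a.not ∈ T

theorem Thy.c1 {T : Set (Fm N)} (h : Thy T) {a : Fm N} (ha : a ∈ T) (b : Fm N)
    (hb : ∀ v, a.val v → b.val v) : b ∈ T :=
  h.2.1 _ _ ha (h.1 _ (.taut _ fun v => (val_imp v _ _).2 (hb v)))

theorem Thy.c2 {T : Set (Fm N)} (h : Thy T) {a a' : Fm N} (ha : a ∈ T) (ha' : a' ∈ T) (b : Fm N)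
    (hb : ∀ v, a.val v → a'.val v → b.val v) : b ∈ T :=
  h.2.1 _ _ ha' (h.c1 ha _ fun v h1 => (val_imp v _ _).2 (hb v h1))

theorem lind {T : Set (Fm N)} (h : Thy T) : ∃ G, Mx G ∧ T ⊆ G := by
  obtain ⟨G, h1, hG⟩ := zorn_subset_nonempty {T : Set (Fm N) | Thy T} (by
    intro c hc hch ⟨T₀, h₀⟩
    refine ⟨⋃₀ c, ⟨fun a ha => ⟨T₀, h₀, (hc h₀).1 a ha⟩, ?_, ?_⟩, fun s hs =>
      Set.subset_sUnion_of_mem hs⟩
    · rintro a b ⟨S, hS, ha⟩ ⟨S', hS', hb⟩
      rcases hch.total hS hS' with h | h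
      · exact ⟨S', hS', (hc hS').2.1 a b (h ha) hb⟩
      · exact ⟨S, hS, (hc hS).2.1 a b ha (h hb)⟩
    · rintro ⟨S, hS, h⟩
      exact (hc hS).2.2 h) T h
  refine ⟨G, ⟨hG.prop, fun a => ?_⟩, h1⟩
  have g : Thy G := hG.prop
  by_cases hb : a.imp bt ∈ G
  · exact Or.inr (g.c1 hb _ fun v => by simp only [val_imp, val_bt, Fm.val]; tauto)
  · left
    have h2 : Thy {b | a.imp b ∈ G} :=
      ⟨fun b hb => g.1 _ (t1 hb _ fun v h => (val_imp v _ _).2 fun _ => h),
        fun b c h3 h4 => g.c2 h3 h4 _ fun v => by simp only [val_imp]; tauto, hb⟩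
    have h3 : G ⊆ {b | a.imp b ∈ G} := fun b hb =>
      g.c1 hb _ fun v h => (val_imp v _ _).2 fun _ => h
    exact hG.le_of_ge h2 h3 (g.1 _ (.taut _ fun v => (val_imp v _ _).2 id))

theorem Mx.not_iff {G : Set (Fm N)} (h : Mx G) (a : Fm N) : a.not ∈ G ↔ a ∉ G :=
  ⟨fun h1 h2 => h.1.2.2 (h.1.c2 h1 h2 _ fun v h3 h4 => absurd h4 h3), (h.2 a).resolve_left⟩

theorem Mx.or_iff {G : Set (Fm N)} (h : Mx G) (a b : Fm N) : a.or b ∈ G ↔ a ∈ G ∨ b ∈ G := by
  constructor
  · intro h1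
    rcases h.2 a with h2 | h2
    · exact Or.inl h2
    · exact Or.inr (h.1.c2 h1 h2 _ fun v h3 h4 => h3.resolve_left h4)
  · rintro (h1 | h1)
    · exact h.1.c1 h1 _ fun v => Or.inl
    · exact h.1.c1 h1 _ fun v => Or.inr

abbrev Wd (N : Type) : Type := {G : Set (Fm N) // Mx G}

def CR (m : Md N) (G D : Wd N) : Prop := ∀ a ∈ D.1, Fm.dia m a ∈ G.1

theorem exi (m : Md N) (G : Wd N) (a : Fm N) (h : Fm.dia m a ∈ G.1) :
    ∃ D, CR m G D ∧ a ∈ D.1 := by
  have g := G.2.1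
  have key : ∀ b c : Fm N, (∀ v, b.val v → c.val v) → Fm.dia m b ∈ G.1 → Fm.dia m c ∈ G.1 :=
    fun b c h1 h2 => g.2.1 _ _ h2 (g.1 _ (.mono m _ _ (.taut _ fun v => (val_imp v _ _).2 (h1 v))))
  have h1 : Thy {b | Fm.dia m (a.imp b).not ∉ G.1} := by
    refine ⟨fun b hb => (G.2.not_iff _).1 (g.1 _ (.nec m _ (t1 hb _ fun v => ?_))),
      fun b c h2 h3 h4 => ?_, fun h2 => h2 (key _ _ (fun v => ?_) h)⟩
    · simp only [Fm.val, val_imp]; tauto
    · have h5 := key _ (.or (a.imp b).not (a.imp (b.imp c)).not)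
        (fun v => by simp only [Fm.val, val_imp]; tauto) h4
      exact ((G.2.or_iff _ _).1 (g.2.1 _ _ h5 (g.1 _ (.add m _ _)))).elim h2 h3
    · simp only [Fm.val, val_imp, val_bt]; tauto
  obtain ⟨D, h2, h3⟩ := lind h1
  refine ⟨⟨D, h2⟩, fun b hb => ?_, h3 ?_⟩
  · by_contra hc
    refine (h2.not_iff b).1 (h3 fun h4 => hc (key _ _ (fun v => ?_) h4)) hb
    simp only [Fm.val, val_imp]; tauto
  · refine (G.2.not_iff _).1 (g.1 _ (.nec m _ (.taut _ fun v => ?_)))
    simp only [Fm.val, val_imp]; tauto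

theorem CR_refl (m : Md N) (G : Wd N) : CR m G G := fun a ha =>
  G.2.1.2.1 _ _ ha (G.2.1.1 _ (.refl m a))

theorem CR_trans {m : Md N} {G D E : Wd N} (h1 : CR m G D) (h2 : CR m D E) : CR m G E :=
  fun a ha => G.2.1.2.1 _ _ (h1 _ (h2 a ha)) (G.2.1.1 _ (.trans m a))

theorem CR_symm {m : Md N} (hm : ∀ a : Fm N, Prov (a.imp (.not (.dia m (.not (.dia m a))))))
    {G D : Wd N} (h : CR m G D) : CR m D G := fun a ha => by
  by_contra hc
  exact (G.2.not_iff _).1 (G.2.1.2.1 _ _ ha (G.2.1.1 _ (hm a))) (h _ ((D.2.not_iff _).2 hc))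

/-! ### Unravelling -/

abbrev Nd (N : Type) : Type := Wd N × List (Md N × Wd N)

def lst (r : Wd N) : List (Md N × Wd N) → Wd N
  | [] => r
  | e :: _ => e.2

def Ok (r : Wd N) : List (Md N × Wd N) → Prop
  | [] => True
  | e :: l => CR e.1 (lst r l) e.2 ∧ Ok r l

open Classical in
noncomputable def drp (p : Md N → Prop) : List (Md N × Wd N) → List (Md N × Wd N)
  | [] => []
  | e :: l => if p e.1 then drp p l else e :: l

theorem drp_suffix (p q : Md N → Prop) (h : ∀ m, p m → q m) (l : List (Md N × Wd N)) :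
    drp q l <:+ drp p l := by
  have h0 : ∀ l : List (Md N × Wd N), drp q l <:+ l := by
    intro l
    induction l with
    | nil => exact List.suffix_rfl
    | cons e l ih =>
      rw [drp]
      split_ifs
      · exact ih.trans (List.suffix_cons e l)
      · exact List.suffix_rfl
  induction l with
  | nil => exact List.suffix_rfl
  | cons e l ih =>
    by_cases hp : p e.1
    · rw [drp, drp, if_pos hp, if_pos (h _ hp)]
      exact ih
    · rw [drp.eq_2 p, if_neg hp]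
      exact h0 _

theorem drp_ex (J : Set N) (hJ : J.Nonempty) (p : N → Md N → Prop) (l : List (Md N × Wd N)) :
    ∃ j ∈ J, drp (fun m => ∀ j ∈ J, p j m) l = drp (p j) l := by
  induction l with
  | nil => exact ⟨_, hJ.some_mem, rfl⟩
  | cons e l ih =>
    by_cases h : ∀ j ∈ J, p j e.1
    · obtain ⟨j, h1, h2⟩ := ih
      exact ⟨j, h1, by rw [drp, drp, if_pos h, if_pos (h j h1), h2]⟩
    · have h' := h
      push Not at h'
      obtain ⟨j, h1, h2⟩ := h'
      exact ⟨j, h1, by rw [drp, drp, if_neg h, if_neg h2]⟩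

theorem drp_inter (J : Set N) (hJ : J.Nonempty) (p : N → Md N → Prop)
    (l l' : List (Md N × Wd N)) (h : ∀ j ∈ J, drp (p j) l = drp (p j) l') :
    drp (fun m => ∀ j ∈ J, p j m) l = drp (fun m => ∀ j ∈ J, p j m) l' := by
  obtain ⟨j, h1, h2⟩ := drp_ex J hJ p l
  obtain ⟨k, h3, h4⟩ := drp_ex J hJ p l'
  refine (fun (a : _ <:+ _) (b : _ <:+ _) => a.eq_of_length_le b.length_le) ?_ ?_
  · rw [h2, h j h1]
    exact drp_suffix _ _ (fun m hm => hm j h1) _
  · rw [h4, ← h k h3]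
    exact drp_suffix _ _ (fun m hm => hm k h3) _

theorem drp_rel (m : Md N) (p : Md N → Prop) (h : ∀ m' G D, p m' → CR m' G D → CR m G D)
    (r : Wd N) (l : List (Md N × Wd N)) (hl : Ok r l) : CR m (lst r (drp p l)) (lst r l) := by
  induction l with
  | nil => exact CR_refl _ _
  | cons e l ih =>
    rw [drp]
    split_ifs with hp
    · exact CR_trans (ih hl.2) (h _ _ _ hp hl.1)
    · exact CR_refl _ _

def LL (i : N) : Md N → Prop
  | .le _ => False
  | .sim j => j = i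
  | .app j => j ≠ i

noncomputable def sg (x : Nd N) : N → Nd N := fun i => (x.1, drp (LL i) x.2)

variable [Nontrivial N]

theorem sg_sim (i : N) (x y : Nd N) (hx : Ok x.1 x.2) (hy : Ok y.1 y.2) (h : sg x i = sg y i) :
    CR (.sim i) (lst x.1 x.2) (lst y.1 y.2) := by
  have h1 : ∀ m' G D, LL i m' → CR m' G D → CR (.sim i) G D := by
    intro m' G D h2 h3
    cases m' with
    | le _ => exact h2.elim
    | sim j => exact (show j = i from h2) ▸ h3
    | app j => exact fun a ha => G.2.1.2.1 _ _ (h3 a ha) (G.2.1.1 _ (.incl j i a (Ne.symm h2)))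
  have h2 := drp_rel _ _ h1 _ _ hx
  have h3 := drp_rel _ _ h1 _ _ hy
  rw [show drp (LL i) x.2 = drp (LL i) y.2 from congrArg Prod.snd h] at h2
  rw [← show x.1 = y.1 from (Prod.ext_iff.1 h).1] at h3 ⊢
  exact CR_trans (CR_symm (Prov.symmSim i) h2) h3

theorem sg_app (i : N) (x y : Nd N) (hx : Ok x.1 x.2) (hy : Ok y.1 y.2)
    (h : ∀ j, j ≠ i → sg x j = sg y j) : CR (.app i) (lst x.1 x.2) (lst y.1 y.2) := by
  have h1 : ∀ m' G D, (∀ j ∈ {j | j ≠ i}, LL j m') → CR m' G D → CR (.app i) G D := by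
    intro m' G D h2 h3
    obtain ⟨k, hk⟩ := exists_ne i
    cases m' with
    | le _ => exact (h2 k hk).elim
    | sim j =>
      refine fun a ha => G.2.1.2.1 _ _ (h3 a ha) (G.2.1.1 _ (.two i j a ?_ fun l => ?_))
      · exact (show j = k from h2 k hk) ▸ hk
      · exact (em (l = i)).imp id fun hl => (show j = l from h2 l hl).symm
    | app j =>
      obtain rfl : j = i := by
        by_contra hc
        exact h2 j hc rfl
      exact h3
  have h2 := drp_rel _ _ h1 _ _ hx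
  have h3 := drp_rel _ _ h1 _ _ hy
  obtain ⟨k, hk⟩ := exists_ne i
  rw [drp_inter {j | j ≠ i} ⟨k, hk⟩ LL x.2 y.2 fun j hj => congrArg Prod.snd (h j hj)] at h2
  rw [← show x.1 = y.1 from (Prod.ext_iff.1 (h k hk)).1] at h3 ⊢
  exact CR_trans (CR_symm (Prov.symmApp i) h2) h3

theorem sg_inj : Function.Injective (sg : Nd N → N → Nd N) := by
  intro x y h
  obtain ⟨i, k, hik⟩ := exists_pair_ne N
  have h1 : ∀ l : List (Md N × Wd N), drp (fun m => ∀ j ∈ Set.univ, LL j m) l = l := by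
    intro l
    cases l with
    | nil => rfl
    | cons e l =>
      rw [drp, if_neg]
      intro h2
      obtain ⟨m, G⟩ := e
      cases m with
      | le _ => exact h2 i trivial
      | sim j => exact hik ((show j = i from h2 i trivial).symm.trans (h2 k trivial))
      | app j => exact h2 j trivial rfl
  have h2 := drp_inter Set.univ ⟨i, trivial⟩ LL x.2 y.2 fun j _ =>
    congrArg Prod.snd (congrFun h j)
  rw [h1, h1] at h2
  exact Prod.ext (Prod.ext_iff.1 (congrFun h i)).1 h2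

def pf (i : N) (s t : N → Nd N) : Prop :=
  s = t ∨ ∃ x y, sg x = s ∧ sg y = t ∧ CR (.le i) (lst x.1 x.2) (lst y.1 y.2)

theorem truth (a : Fm N) : ∀ x : Nd N, Ok x.1 x.2 →
    (sat (A := fun _ => Nd N) pf (sg '' {x | Ok x.1 x.2})
      (fun n => sg '' {x | Fm.var n ∈ (lst x.1 x.2).1}) a (sg x) ↔ a ∈ (lst x.1 x.2).1) := by
  induction a with
  | var n => exact fun x _ => sg_inj.mem_set_image
  | not a ih => exact fun x hx => (not_congr (ih x hx)).trans ((lst x.1 x.2).2.not_iff a).symm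
  | or a b iha ihb =>
    exact fun x hx => (or_congr (iha x hx) (ihb x hx)).trans ((lst x.1 x.2).2.or_iff a b).symm
  | dia m a ih =>
    intro x hx
    constructor
    · rintro ⟨_, ⟨y, hy, rfl⟩, h1, h2⟩
      refine (?_ : CR m _ _) a ((ih y hy).1 h2)
      cases m with
      | le i =>
        rcases h1 with h1 | ⟨x', y', h3, h4, h5⟩
        · rw [sg_inj h1]
          exact CR_refl _ _
        · rwa [sg_inj h3, sg_inj h4] at h5
      | sim i => exact sg_sim i x y hx hy h1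
      | app i => exact sg_app i x y hx hy h1
    · intro h
      obtain ⟨D, h1, h2⟩ := exi m _ a h
      have h3 : Ok x.1 ((m, D) :: x.2) := ⟨h1, hx⟩
      refine ⟨_, ⟨(x.1, (m, D) :: x.2), h3, rfl⟩, ?_, (ih (x.1, (m, D) :: x.2) h3).2 h2⟩
      cases m with
      | le i => exact Or.inr ⟨_, _, rfl, rfl, h1⟩
      | sim i => exact Prod.ext rfl (if_pos (c := LL i (.sim i)) rfl).symm
      | app i => exact fun j hj => Prod.ext rfl (if_pos (c := LL j (.app i)) (Ne.symm hj)).symm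

theorem complete {a : Fm N} (h : Valid a) : Prov a := by
  by_contra hc
  have h1 : Thy {b : Fm N | Prov (a.not.imp b)} :=
    ⟨fun b hb => t1 hb _ fun v h => (val_imp v _ _).2 fun _ => h,
      fun b c h3 h4 => .mp _ _ h4 (t1 h3 _ fun v => by simp only [val_imp]; tauto),
      fun h2 => hc (t1 h2 _ fun v => by simp only [val_imp, val_bt, Fm.val]; tauto)⟩
  obtain ⟨G, h2, h3⟩ := lind h1
  refine (h2.not_iff a).1 (h3 (.taut _ fun v => (val_imp v _ _).2 id))
    ((truth a (⟨G, h2⟩, []) trivial).1 (h _ (fun _ => ⟨(⟨G, h2⟩, [])⟩) _ (fun _ _ => Or.inl rfl)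
      ?_ _ _ _ ⟨(⟨G, h2⟩, []), trivial, rfl⟩))
  rintro i s t u (rfl | ⟨x, y, rfl, rfl, h4⟩) h5
  · exact h5
  · rcases h5 with rfl | ⟨y', z, h6, rfl, h7⟩
    · exact Or.inr ⟨x, y, rfl, rfl, h4⟩
    · rw [sg_inj h6] at h7
      exact Or.inr ⟨x, z, rfl, rfl, CR_trans h4 h7⟩

end Pool.Agent.H40.Ggm
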