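import Mathlib

set_option autoImplicit false

namespace Pool.Agent.H40.Ggm

/-- The three families of modalities: preference, indistinguishability, action freedom. -/
inductive Md (N : Type) : Type
  | le : N → Md N
  | sim : N → Md N
  | app : N → Md N

/-- The language `L_N`. -/
inductive Fm (N : Type) : Type
  | var : ℕ → Fm N
  | not : Fm N → Fm N
  | or : Fm N → Fm N → Fm N
  | dia : Md N → Fm N → Fm N

variable {N : Type}

def Fm.imp (a b : Fm N) : Fm N := .or (.not a) b

/-- The accessibility relations on strategy profiles. -/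
def Rel {A : N → Type} (pref : N → (∀ i, A i) → (∀ i, A i) → Prop) :
    Md N → (∀ i, A i) → (∀ i, A i) → Prop
  | .le i, s, t => pref i s t
  | .sim i, s, t => s i = t i
  | .app i, s, t => ∀ j, j ≠ i → s j = t j

/-- Truth in the general game model with set of worlds `W`. -/
def sat {A : N → Type} (pref : N → (∀ i, A i) → (∀ i, A i) → Prop) (W : Set (∀ i, A i))
    (V : ℕ → Set (∀ i, A i)) : Fm N → (∀ i, A i) → Prop
  | .var n, s => s ∈ V n
  | .not a, s => ¬ sat pref W V a s
  | .or a b, s => sat pref W V a s ∨ sat pref W V b s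
  | .dia m a, s => ∃ t ∈ W, Rel pref m s t ∧ sat pref W V a t

/-- Validity on all general game models for `N`. -/
def Valid (a : Fm N) : Prop :=
  ∀ (A : N → Type) (_ : ∀ i, Nonempty (A i)) (pref : N → (∀ i, A i) → (∀ i, A i) → Prop),
    (∀ i s, pref i s s) → (∀ i s t u, pref i s t → pref i t u → pref i s u) →
    ∀ (W : Set (∀ i, A i)) (V : ℕ → Set (∀ i, A i)), ∀ s ∈ W, sat pref W V a s

/-- Classical truth value, letters and diamond formulas being the atoms. -/
def Fm.val (v : Fm N → Prop) : Fm N → Prop
  | .var n => v (.var n)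
  | .not a => ¬ a.val v
  | .or a b => a.val v ∨ b.val v
  | .dia m a => v (.dia m a)

/-- The axiom system: normal modal logic in diamond form, S4 for preference, S5 for the two
equivalences, the inclusions, and their converse when there are exactly two players. -/
inductive Prov : Fm N → Prop
  | taut (a : Fm N) : (∀ v, a.val v) → Prov a
  | mp (a b : Fm N) : Prov a → Prov (a.imp b) → Prov b
  | mono (m : Md N) (a b : Fm N) : Prov (a.imp b) → Prov ((Fm.dia m a).imp (.dia m b))
  | nec (m : Md N) (a : Fm N) : Prov (.not a) → Prov (.not (.dia m a))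
  | add (m : Md N) (a b : Fm N) : Prov ((Fm.dia m (.or a b)).imp (.or (.dia m a) (.dia m b)))
  | refl (m : Md N) (a : Fm N) : Prov (a.imp (.dia m a))
  | trans (m : Md N) (a : Fm N) : Prov ((Fm.dia m (.dia m a)).imp (.dia m a))
  | symmSim (i : N) (a : Fm N) : Prov (a.imp (.not (.dia (.sim i) (.not (.dia (.sim i) a)))))
  | symmApp (i : N) (a : Fm N) : Prov (a.imp (.not (.dia (.app i) (.not (.dia (.app i) a)))))
  | incl (i j : N) (a : Fm N) : j ≠ i → Prov ((Fm.dia (.app i) a).imp (.dia (.sim j) a))
  | two (i j : N) (a : Fm N) : j ≠ i → (∀ k, k = i ∨ k = j) →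
      Prov ((Fm.dia (.sim j) a).imp (.dia (.app i) a))

end Pool.Agent.H40.Ggm
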