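import Mathlib

set_option autoImplicit false

namespace Pool.Agent.H40.Gr

open Set Filter Topology BoundedContinuousFunction Classical

abbrev V := ℕ →ᵇ ℝ

noncomputable def mkV (f : ℕ → ℝ) (C : ℝ) (h : ∀ n, |f n| ≤ C) : V := ofNormedAddCommGroupDiscrete f C h

theorem nV {f : V} {C : ℝ} (h0 : 0 ≤ C) (h : ∀ n, |f n| ≤ C) : ‖f‖ ≤ C := (norm_le h0).2 h

theorem aV (f : V) (n : ℕ) : |f n| ≤ ‖f‖ := f.norm_coe_le_norm n

noncomputable def ind (A : Set ℕ) : V := mkV (fun n => if n ∈ A then 1 else 0) 1 fun n => by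
  split_ifs <;> simp

theorem ind_ap (A : Set ℕ) (n : ℕ) : ind A n = if n ∈ A then 1 else 0 := rfl

noncomputable def p (φ : StrongDual ℝ V) (h : V) : ℝ := ‖φ.comp (ContinuousLinearMap.mul ℝ V h)‖

theorem p0 (φ : StrongDual ℝ V) (h : V) : 0 ≤ p φ h := norm_nonneg _

theorem p1 (φ : StrongDual ℝ V) (h g : V) : |φ (h * g)| ≤ p φ h * ‖g‖ :=
  (φ.comp (ContinuousLinearMap.mul ℝ V h)).le_opNorm g

theorem p2 (φ : StrongDual ℝ V) (h : V) {c : ℝ} (hc : c < p φ h) : ∃ g : V, ‖g‖ ≤ 1 ∧ c < φ (h * g) := by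
  obtain ⟨g, g1, g2⟩ := (φ.comp (ContinuousLinearMap.mul ℝ V h)).exists_lt_apply_of_lt_opNorm hc
  rcases lt_abs.1 g2 with k | k
  · exact ⟨g, g1.le, k⟩
  · exact ⟨-g, by simpa using g1.le, by
      rw [show h * -g = -(h * g) by ext; simp, map_neg]; exact k⟩

theorem p3 (φ : StrongDual ℝ V) (h : V) : p φ h ≤ ‖φ‖ * ‖h‖ :=
  (ContinuousLinearMap.opNorm_comp_le _ _).trans
    (mul_le_mul_of_nonneg_left (ContinuousLinearMap.opNorm_mul_apply_le _ _ _) (norm_nonneg _))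

theorem psub (φ : StrongDual ℝ V) (h k : V) : p φ (h + k) ≤ p φ h + p φ k := by
  unfold p; rw [map_add, ContinuousLinearMap.comp_add]; exact norm_add_le _ _

theorem psm (φ : StrongDual ℝ V) (h : V) {c : ℝ} (hc : 0 ≤ c) : p φ (c • h) = c * p φ h := by
  unfold p; rw [map_smul, ContinuousLinearMap.comp_smul, norm_smul, Real.norm_of_nonneg hc]

theorem padd (φ : StrongDual ℝ V) {h k : V} (a : ∀ n, 0 ≤ h n) (b : ∀ n, 0 ≤ k n) :
    p φ (h + k) = p φ h + p φ k := by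
  refine le_antisymm (psub _ _ _) (le_of_forall_pos_lt_add fun e he => ?_)
  obtain ⟨g, g1, g2⟩ := p2 φ h (c := p φ h - e / 2) (by linarith)
  obtain ⟨f, f1, f2⟩ := p2 φ k (c := p φ k - e / 2) (by linarith)
  have w : ∀ n, |h n * g n + k n * f n| ≤ h n + k n := fun n => by
    have := abs_le.1 ((aV g n).trans g1); have := abs_le.1 ((aV f n).trans f1)
    have := a n; have := b n
    rw [abs_le]; constructor <;> nlinarith
  let u : V := mkV (fun n => (h n * g n + k n * f n) / (h n + k n)) 1 fun n => by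
    rw [abs_div, abs_of_nonneg (add_nonneg (a n) (b n))]
    exact div_le_one_of_le₀ (w n) (add_nonneg (a n) (b n))
  have e1 : (h + k) * u = h * g + k * f := by
    ext n
    show (h n + k n) * ((h n * g n + k n * f n) / (h n + k n)) = h n * g n + k n * f n
    by_cases c : h n + k n = 0
    · have := w n; rw [c] at this; rw [c, abs_nonpos_iff.1 this]; simp
    · field_simp
  have u1 : ‖u‖ ≤ 1 := nV one_pos.le fun n => by
    show |(h n * g n + k n * f n) / (h n + k n)| ≤ 1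
    rw [abs_div, abs_of_nonneg (add_nonneg (a n) (b n))]
    exact div_le_one_of_le₀ (w n) (add_nonneg (a n) (b n))
  have := p1 φ (h + k) u
  rw [e1, map_add] at this
  have := le_abs_self (φ (h * g) + φ (k * f))
  nlinarith [p0 φ (h + k), norm_nonneg u]

theorem pmono (φ : StrongDual ℝ V) {h k : V} (a : ∀ n, 0 ≤ h n) (b : ∀ n, h n ≤ k n) : p φ h ≤ p φ k := by
  have := padd φ a (k := k - h) fun n => sub_nonneg.2 (b n)
  rw [add_sub_cancel] at this
  linarith [p0 φ (k - h)]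

noncomputable def v (φ : StrongDual ℝ V) (A : Set ℕ) : ℝ := p φ (ind A)

theorem i0 (A : Set ℕ) (n : ℕ) : 0 ≤ ind A n := by rw [ind_ap]; split_ifs <;> simp

theorem vM (φ : StrongDual ℝ V) (A : Set ℕ) : v φ A ≤ ‖φ‖ := (p3 _ _).trans
  (mul_le_of_le_one_right φ.opNorm_nonneg (nV one_pos.le fun n => by rw [ind_ap]; split_ifs <;> simp))

theorem vsub (φ : StrongDual ℝ V) {A B C : Set ℕ} (h : ∀ n ∈ A, n ∈ B ∨ n ∈ C) : v φ A ≤ v φ B + v φ C :=
  (pmono φ (i0 A) fun n => by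
    have := h n
    simp only [coe_add, Pi.add_apply, ind_ap]; split_ifs <;> simp_all).trans (psub _ _ _)

theorem vsup (φ : StrongDual ℝ V) {A B C : Set ℕ} (a : B ⊆ A) (b : C ⊆ A) (h : ∀ n ∈ B, n ∉ C) :
    v φ B + v φ C ≤ v φ A :=
  (padd φ (i0 B) (i0 C)).ge.trans (pmono φ (fun n => add_nonneg (i0 B n) (i0 C n)) fun n => by
    have := h n; have := @a n; have := @b n
    simp only [coe_add, Pi.add_apply, ind_ap]; split_ifs <;> simp_all)

theorem vmono (φ : StrongDual ℝ V) {A B : Set ℕ} (a : B ⊆ A) : v φ B ≤ v φ A := by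
  have := vsup φ a (empty_subset A) fun _ _ h => h
  linarith [show 0 ≤ v φ ∅ from p0 _ _]

theorem ros (μ : ℕ → Set ℕ → ℝ) (m : ∀ j A B C, B ⊆ A → C ⊆ A → (∀ n ∈ B, n ∉ C) → μ j B + μ j C ≤ μ j A)
    (m0 : ∀ j A, 0 ≤ μ j A) {η : ℝ} (k : ℕ) : ∀ N : Set ℕ, N.Infinite → (∀ j ∈ N, μ j (N \ {j}) ≤ k * η + η) →
      ∃ N' ⊆ N, N'.Infinite ∧ ∀ j ∈ N', μ j (N' \ {j}) ≤ η := by
  induction k with
  | zero => exact fun N a b => ⟨N, Subset.rfl, a, by simpa using b⟩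
  | succ k ih =>
    intro N a b
    by_contra c
    push Not at c
    have := a.to_subtype
    let e : ℕ ↪ N := a.natEmbedding N
    have i : ∀ q : ℕ, Function.Injective fun n => (e (Nat.pair q n)).1 := fun q x y h =>
      (Nat.pair_eq_pair.1 (e.injective (Subtype.ext h))).2
    choose j j1 j2 using fun q : ℕ => c (range fun n => (e (Nat.pair q n)).1)
      (by rintro _ ⟨n, rfl⟩; exact (e _).2) (infinite_range_of_injective (i q))
    have d : ∀ q r, j r ∈ range (fun n => (e (Nat.pair q n)).1) → r = q := fun q r ⟨n, hn⟩ => by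
      obtain ⟨n', hn'⟩ := j1 r
      exact (Nat.pair_eq_pair.1 (e.injective (Subtype.ext (hn'.trans hn.symm)))).1
    have s : range j ⊆ N := by rintro _ ⟨q, rfl⟩; obtain ⟨n, hn⟩ := j1 q; exact hn ▸ (e _).2
    obtain ⟨N', n1, n2, n3⟩ := ih (range j) (infinite_range_of_injective fun q r h => d r q (h ▸ j1 r))
      (by
        rintro _ ⟨q, rfl⟩
        have := m (j q) (N \ {j q}) (range j \ {j q}) (range (fun n => (e (Nat.pair q n)).1) \ {j q})
          (sdiff_subset_sdiff_left s) (sdiff_subset_sdiff_left (by rintro _ ⟨n, rfl⟩; exact (e _).2))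
          (by rintro _ ⟨⟨r, rfl⟩, h⟩ k; exact h (congrArg j (d q r k.1)))
        have := b (j q) (s ⟨q, rfl⟩); have := j2 q
        push_cast at *; linarith)
    obtain ⟨x, x1, x2⟩ := c N' (n1.trans s) n2
    exact absurd (n3 x x1) (not_le.2 x2)

variable {φ : ℕ → StrongDual ℝ V} {M : ℝ} (hM : ∀ n, ‖φ n‖ ≤ M)
  (hφ : ∀ x, Tendsto (fun n => φ n x) atTop (𝓝 0))
include hM hφ

theorem ue0 (D : ℕ → Set ℕ) (d : ∀ i j n, n ∈ D i → n ∈ D j → i = j) (k : ℕ → ℕ) (hk : ∀ j, j ≤ k j)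
    {δ : ℝ} (h0 : 0 < δ) (h : ∀ j, δ < v (φ (k j)) (D j)) : False := by
  choose g g1 g2 using fun j => p2 _ _ (h j)
  obtain ⟨c, hc⟩ := exists_nat_ge (M / (δ / 2))
  obtain ⟨N, -, n2, n3⟩ := ros (fun j B => v (φ (k j)) {n | ∃ i ∈ B, n ∈ D i})
    (fun j A B C a b e => vsup _ (fun n ⟨i, x, y⟩ => ⟨i, a x, y⟩) (fun n ⟨i, x, y⟩ => ⟨i, b x, y⟩)
      fun n ⟨i, x, y⟩ ⟨i', x', y'⟩ => e i x (d _ _ _ y y' ▸ x')) (fun _ _ => p0 _ _) (η := δ / 2) c univ
    infinite_univ fun j _ => by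
      have := (div_le_iff₀ (half_pos h0)).1 hc
      linarith [vM (φ (k j)) {n | ∃ i ∈ univ \ {j}, n ∈ D i}, hM (k j)]
  have b : ∀ n, |if h : ∃ i ∈ N, n ∈ D i then g h.choose n else 0| ≤ 1 := fun n => by
    split_ifs; exacts [(aV _ _).trans (g1 _), by simp]
  let G : V := mkV _ 1 b
  have G1 : ‖G‖ ≤ 1 := nV one_pos.le b
  obtain ⟨m, hm⟩ := eventually_atTop.1 ((hφ G).eventually (gt_mem_nhds (half_pos h0)))
  obtain ⟨j, j1, j2⟩ := n2.exists_gt m
  have e : G = ind (D j) * g j + ind {n | ∃ i ∈ N \ {j}, n ∈ D i} * G := by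
    ext n
    have q : G n = if h : ∃ i ∈ N, n ∈ D i then g h.choose n else 0 := rfl
    simp only [coe_add, coe_mul, Pi.add_apply, Pi.mul_apply, ind_ap]
    by_cases c : n ∈ D j
    · have k : ∃ i ∈ N, n ∈ D i := ⟨j, j1, c⟩
      rw [if_pos c, if_neg (fun ⟨i, x, y⟩ => x.2 (d _ _ _ y c)), q, dif_pos k,
        d _ _ _ k.choose_spec.2 c]; simp
    · rw [if_neg c]
      by_cases k : ∃ i ∈ N, n ∈ D i
      · obtain ⟨i, x, y⟩ := k
        rw [if_pos ⟨i, ⟨x, fun z => c (z ▸ y)⟩, y⟩]; simp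
      · rw [q, dif_neg k]; simp
  have x1 := hm (k j) (j2.le.trans (hk j))
  have x2 := (abs_le.1 (p1 (φ (k j)) (ind {n | ∃ i ∈ N \ {j}, n ∈ D i}) G)).1
  have x3 : p _ _ ≤ _ := n3 j j1
  have x4 := congrArg (φ (k j)) e
  rw [map_add] at x4
  nlinarith [g2 j, p0 (φ (k j)) (ind {n | ∃ i ∈ N \ {j}, n ∈ D i}), norm_nonneg G]

end Pool.Agent.H40.Gr
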