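import Pool.Agent.H40.Gr1

set_option autoImplicit false

namespace Pool.Agent.H40.Gr

open Set Filter Topology BoundedContinuousFunction Classical

theorem v0 (φ : StrongDual ℝ V) (A : Set ℕ) : 0 ≤ v φ A := p0 _ _

theorem ve (φ : StrongDual ℝ V) {A : Set ℕ} (h : ∀ n, n ∉ A) : v φ A ≤ 0 := by
  linarith [vsup φ (Subset.refl A) (Subset.refl A) fun n _ => h n]

theorem mm (φ : ℕ → StrongDual ℝ V) (Φ : StrongDual ℝ V →ₗ[ℝ] ℝ) (h1 : ∀ ψ, |Φ ψ| ≤ ‖ψ‖) {ε : ℝ} (he : 0 < ε)
    (h : ∀ n, ε ≤ Φ (φ n)) (N : ℕ) : ∃ f : V, ‖f‖ ≤ 1 ∧ ∀ n < N, ε / 2 ≤ φ n f := by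
  by_contra c
  push Not at c
  let L : V →L[ℝ] (Fin N → ℝ) := ContinuousLinearMap.pi fun i => φ i
  obtain ⟨g, u, g1, g2⟩ := geometric_hahn_banach_open (s := Set.pi univ fun _ : Fin N => Ioi (ε / 2))
    (t := L '' Metric.closedBall 0 1) (convex_pi fun _ _ => convex_Ioi _)
    (isOpen_set_pi finite_univ fun _ _ => isOpen_Ioi) ((convex_closedBall _ _).linear_image L.toLinearMap)
    (disjoint_left.2 (by
      rintro _ a ⟨f, b, rfl⟩
      obtain ⟨n, n1, n2⟩ := c f (by simpa using b)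
      exact absurd (a ⟨n, n1⟩ trivial) (not_lt.2 n2.le)))
  let w : Fin N → ℝ := fun i => g (Pi.single i 1)
  have gx : ∀ x, g x = ∑ i, x i * w i := fun x => by
    conv_lhs => rw [← Finset.univ_sum_single x, map_sum]
    exact Finset.sum_congr rfl fun i _ => by
      rw [show Pi.single i (x i) = x i • (Pi.single i 1 : Fin N → ℝ) by ext j; simp [Pi.single_apply], map_smul]; rfl
  have w0 : ∀ i, w i ≤ 0 := fun i => not_lt.1 fun k => by
    have := g1 ((fun _ => ε) + (|u - g fun _ => ε| / w i) • Pi.single i 1) fun j _ => by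
      have : 0 ≤ |u - g fun _ => ε| / w i := by positivity
      simp only [mem_Ioi, Pi.add_apply, Pi.smul_apply, Pi.single_apply, smul_eq_mul]
      split_ifs <;> linarith
    rw [map_add, map_smul, smul_eq_mul, div_mul_cancel₀ _ k.ne'] at this
    linarith [le_abs_self (u - g fun _ => ε)]
  have u0 : u ≤ 0 := by simpa using g2 _ ⟨0, by simp, rfl⟩
  have n1 : ‖g.comp L‖ ≤ -u := ContinuousLinearMap.opNorm_le_of_unit_norm (by linarith) fun f hf => by
    have a := g2 _ ⟨f, by simpa using hf.le, rfl⟩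
    have b := g2 _ ⟨-f, by simpa using hf.le, rfl⟩
    rw [map_neg, map_neg] at b
    exact abs_le.2 ⟨by simpa using a, by simp only [ContinuousLinearMap.comp_apply]; linarith⟩
  have e : g.comp L = ∑ i, w i • φ i := by
    ext f; simp [gx, L, mul_comm]
  have n2 : Φ (g.comp L) ≤ ∑ i, ε * w i := by
    rw [e, map_sum]
    exact Finset.sum_le_sum fun i _ => by rw [map_smul, smul_eq_mul]; nlinarith [w0 i, h i]
  have n3 := (abs_le.1 (h1 (g.comp L))).1
  have n4 := g1 (fun _ => 3 / 4 * ε) fun _ _ => by simp only [mem_Ioi]; linarith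
  rw [gx] at n4
  rw [← Finset.mul_sum] at n2 n4
  have := Finset.sum_nonpos fun i (_ : i ∈ Finset.univ) => w0 i
  nlinarith [(g.comp L).opNorm_nonneg]

variable {φ : ℕ → StrongDual ℝ V} {M : ℝ} (hM : ∀ n, ‖φ n‖ ≤ M)
  (hφ : ∀ x, Tendsto (fun n => φ n x) atTop (𝓝 0))
include hM hφ

theorem ue1 (D : ℕ → Set ℕ) (d : ∀ i j n, n ∈ D i → n ∈ D j → i = j) (k : ℕ → ℕ)
    {δ : ℝ} (h0 : 0 < δ) (h : ∀ j, δ < v (φ (k j)) (D j)) : False := by
  have f : ∀ n, {j | δ < v (φ n) (D j)}.Finite := fun n => by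
    have a : ∀ s : Finset ℕ, (∀ j ∈ s, δ < v (φ n) (D j)) → s.card * δ ≤ v (φ n) {m | ∃ j ∈ s, m ∈ D j} :=
      fun s => by
        induction s using Finset.induction_on with
        | empty => exact fun _ => by simpa using v0 _ _
        | insert i s hi ih =>
          intro b
          have := vsup (φ n) (A := {m | ∃ j ∈ insert i s, m ∈ D j}) (B := D i) (C := {m | ∃ j ∈ s, m ∈ D j})
            (fun m x => ⟨i, by simp, x⟩) (fun m ⟨j, x, y⟩ => ⟨j, by simp [x], y⟩)
            fun m x ⟨j, y, z⟩ => hi (d _ _ _ x z ▸ y)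
          rw [Finset.card_insert_of_notMem hi]
          push_cast
          linarith [ih fun j x => b j (by simp [x]), b i (by simp)]
    by_contra c
    obtain ⟨m, hm⟩ := exists_nat_gt (M / δ)
    obtain ⟨s, s1, s2⟩ := Set.Infinite.exists_subset_card_eq c m
    have := a s fun j x => s1 x
    rw [s2] at this
    linarith [(div_lt_iff₀ h0).1 hm, vM (φ n) {m | ∃ j ∈ s, m ∈ D j}, hM n]
  obtain ⟨s, s1, s2⟩ := extraction_forall_of_eventually (P := fun j i => j ≤ k i) fun j => by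
    rw [← Nat.cofinite_eq_atTop, eventually_cofinite]
    exact ((finite_Iio j).biUnion fun n _ => f n).subset fun i x =>
      mem_biUnion (not_le.1 x : k i ∈ Iio j) (h i)
  exact ue0 hM hφ (D ∘ s) (fun i j n x y => s1.injective (d _ _ _ x y)) (k ∘ s) s2 h0 fun j => h _

theorem ue2 (E : ℕ → Set ℕ) (e : Monotone E) {η : ℝ} (h0 : 0 < η) :
    ∃ N₀, ∀ N k, v (φ k) (E N \ E N₀) ≤ η := by
  by_contra c
  push Not at c
  choose f κ hf using c
  let s : ℕ → ℕ := fun i => (fun N => max N (f N))^[i] 0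
  have s1 : ∀ i, s (i + 1) = max (s i) (f (s i)) := fun i => Function.iterate_succ_apply' _ _ _
  have s2 : Monotone s := monotone_nat_of_le_succ fun i => s1 i ▸ le_max_left _ _
  refine ue1 hM hφ (fun i => E (s (i + 1)) \ E (s i)) (fun i j n x y => ?_) (fun i => κ (s i)) h0
    fun i => (hf _).trans_le (vmono _ (sdiff_subset_sdiff_left (e (s1 i ▸ le_max_right _ _))))
  rcases lt_trichotomy i j with l | l | l
  exacts [absurd (e (s2 l) x.1) y.2, l, absurd (e (s2 l) y.1) x.2]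

theorem uac (C : ℕ → Set ℕ) (κ : ℕ → ℕ) {c : ℝ} (h0 : 0 < c) (h1 : ∀ j, c < v (φ (κ j)) (C j))
    (h2 : ∀ k j, k ≤ j → v (φ k) (C j) ≤ (1 / 2) ^ j) : False := by
  let E : ℕ → ℕ → Set ℕ := fun j N => {n | ∃ i, j ≤ i ∧ i < N ∧ n ∈ C i}
  have em : ∀ j, Monotone (E j) := fun j a b l n ⟨i, x, y, z⟩ => ⟨i, x, y.trans_le l, z⟩
  choose N hN using fun j : ℕ => ue2 hM hφ (E j) (em j) (η := c / 2 * (1 / 2) ^ (j + 1)) (by positivity)
  let F : ℕ → Set ℕ := fun j => {n | ∀ i < j, n ∈ E i (N i)}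
  have a : ∀ l k j, j ≤ l → v (φ k) (C l \ F j) ≤ c / 2 * (1 - (1 / 2) ^ j) := fun l k j => by
    induction j with
    | zero => exact fun _ => by simpa using ve _ fun n x => x.2 fun i y => absurd y (Nat.not_lt_zero _)
    | succ j ih =>
      intro x
      have := vsub (φ k) (A := C l \ F (j + 1)) (B := C l \ F j) (C := E j (l + 1) \ E j (N j))
        fun n y => or_iff_not_imp_left.2 fun z => ⟨⟨l, by omega, by omega, y.1⟩, fun u => y.2 fun i t =>
          (Nat.lt_succ_iff_lt_or_eq.1 t).elim (by_contra fun r => z ⟨y.1, fun q => r (q i)⟩) fun r => r ▸ u⟩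
      have := ih (by omega); have := hN j (l + 1) k
      rw [pow_succ] at *; linarith
  have b : ∀ k j, k ≤ j → ∀ m, v (φ k) (E j (j + m)) ≤ 2 * (1 / 2) ^ j - 2 * (1 / 2) ^ (j + m) :=
    fun k j x m => by
      induction m with
      | zero => simpa using ve (φ k) (A := E j (j + 0)) fun n ⟨i, y, z, _⟩ => by omega
      | succ m ih =>
        have := vsub (φ k) (A := E j (j + (m + 1))) (B := E j (j + m)) (C := C (j + m))
          fun n ⟨i, y, z, u⟩ => (Nat.lt_succ_iff_lt_or_eq.1 z).imp (fun r => ⟨i, y, r, u⟩)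
            fun r : i = j + m => r ▸ u
        have := h2 k (j + m) (by omega)
        rw [← add_assoc, pow_succ] at *; linarith
  obtain ⟨l, hl⟩ := ue2 hM hφ (fun j => (F j)ᶜ) (fun i j x => compl_subset_compl.2 fun n y t z =>
    y t (z.trans_le x)) (η := c / 4) (by positivity)
  obtain ⟨m, hm⟩ := exists_pow_lt_of_lt_one (show 0 < c / 8 by positivity) (show (1 / 2 : ℝ) < 1 by norm_num)
  have x1 := vsub (φ (κ l)) (A := C l) (B := F l) (C := C l \ F l) fun n y =>
    (Classical.em _).imp_right fun z => ⟨y, z⟩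
  have x2 := vsub (φ (κ l)) (A := F l) (B := E (κ l + m) (κ l + m + N (κ l + m)))
    (C := (F (κ l + m + 1))ᶜ \ (F l)ᶜ) fun n y => or_iff_not_imp_left.2 fun z =>
      ⟨fun u => z (em _ (Nat.le_add_left _ _) (u _ (Nat.lt_succ_self _))), fun u => u y⟩
  have x3 := b (κ l) (κ l + m) (by omega) (N (κ l + m))
  have x4 : (1 / 2 : ℝ) ^ (κ l + m) ≤ (1 / 2) ^ m := pow_le_pow_of_le_one (by norm_num) (by norm_num) (by omega)
  have x5 : (0 : ℝ) < (1 / 2) ^ (κ l + m + N (κ l + m)) := by positivity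
  have x6 : (0 : ℝ) < c * (1 / 2) ^ l := by positivity
  linarith [h1 l, a l (κ l) l le_rfl, hl (κ l + m + 1) (κ l)]

end Pool.Agent.H40.Gr
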