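import Pool.Agent.H42.GroDefs

set_option autoImplicit false

/-! The Stone space of a Boolean algebra and the Grothendieck number. -/

namespace Pool.Agent.H40.Gr

open Cardinal Pool.Agent.H42.GroDefs

/-- the Stone space: Boolean homomorphisms to `{0,1}`, a subspace of the product -/
abbrev Stone (α : Type) [BooleanAlgebra α] : Type :=
  {u : α → Bool // (∀ a, u aᶜ = !u a) ∧ ∀ a b, u (a ⊔ b) = (u a || u b)}

instance (α : Type) [BooleanAlgebra α] : CompactSpace (Stone α) := by
  refine isCompact_iff_compactSpace.1 (IsClosed.isCompact (IsClosed.inter ?_ ?_))
  · change IsClosed {u : α → Bool | ∀ a, u aᶜ = !u a}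
    simp only [Set.ofPred_forall]
    exact isClosed_iInter fun a => isClosed_eq (continuous_apply _)
      ((continuous_of_discreteTopology (f := fun b => !b)).comp (continuous_apply _))
  · change IsClosed {u : α → Bool | ∀ a b, u (a ⊔ b) = (u a || u b)}
    simp only [Set.ofPred_forall]
    refine isClosed_iInter fun a => isClosed_iInter fun b => ?_
    have := (continuous_of_discreteTopology (f := fun b : Bool × Bool => (b.1 || b.2))).comp
      ((continuous_apply (A := fun _ : α => Bool) a).prodMk (continuous_apply b))
    exact isClosed_eq (continuous_apply _) this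

/-- the least size of an infinite Boolean algebra with the Grothendieck property -/
noncomputable def gr : Cardinal.{0} :=
  sInf {c | ∃ (α : Type) (_ : BooleanAlgebra α), Infinite α ∧ Groth C(Stone α, ℝ) ∧ #α = c}

end Pool.Agent.H40.Gr
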