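import Pool.Agent.H40.Gr2
import Pool.Agent.H40.GrDefs

set_option autoImplicit false

namespace Pool.Agent.H40.Gr

open Set Filter Topology BoundedContinuousFunction Classical Pool.Agent.H42.GroDefs

theorem core {φ : ℕ → StrongDual ℝ V} {M : ℝ} (hM : ∀ n, ‖φ n‖ ≤ M)
    (hφ : ∀ x, Tendsto (fun n => φ n x) atTop (𝓝 0)) (Φ : StrongDual ℝ V →ₗ[ℝ] ℝ) (h1 : ∀ ψ, |Φ ψ| ≤ ‖ψ‖)
    {ε : ℝ} (he : 0 < ε) (h : ∀ n, ε ≤ Φ (φ n)) : False := by
  have M0 : 0 ≤ M := (φ 0).opNorm_nonneg.trans (hM 0)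
  let q : ℕ → V → ℝ := fun N f => ∑ n ∈ Finset.range N, (1 / 2) ^ n * p (φ n) (f * f)
  let S : ℕ → Set V := fun N => {f | ‖f‖ ≤ 1 ∧ ∀ n < N, ε / 2 ≤ φ n f}
  have q0 : ∀ N f, 0 ≤ q N f := fun N f => Finset.sum_nonneg fun n _ => mul_nonneg (by positivity) (p0 _ _)
  have q1 : ∀ N N' f, N ≤ N' → q N f ≤ q N' f := fun N N' f a =>
    Finset.sum_le_sum_of_subset_of_nonneg (Finset.range_mono a) fun n _ _ =>
      mul_nonneg (by positivity) (p0 _ _)
  have q2 : ∀ N f, ‖f‖ ≤ 1 → q N f ≤ 2 * M := fun N f a =>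
    (Finset.sum_le_sum (g := fun n => (1 / 2) ^ n * M) fun n _ => mul_le_mul_of_nonneg_left
      ((p3 _ _).trans (by
        have : ‖f * f‖ ≤ 1 := (norm_mul_le _ _).trans (by nlinarith [norm_nonneg f])
        nlinarith [hM n, norm_nonneg (f * f), (φ n).opNorm_nonneg])) (by positivity)).trans (by
      rw [← Finset.sum_mul]; exact mul_le_mul_of_nonneg_right (sum_geometric_two_le N) M0)
  have sq : ∀ (f : V) n, 0 ≤ (f * f) n := fun f n => mul_self_nonneg (f n)
  have q3 : ∀ N f g, q N (g - f) + 4 * q N ((1 / 2 : ℝ) • (f + g)) = 2 * q N f + 2 * q N g := fun N f g => by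
    simp only [q, Finset.mul_sum, ← Finset.sum_add_distrib]
    refine Finset.sum_congr rfl fun n _ => ?_
    have a := padd (φ n) (sq (g - f)) (k := (4 : ℝ) • (((1 / 2 : ℝ) • (f + g)) * ((1 / 2 : ℝ) • (f + g))))
      fun m => mul_nonneg (by norm_num) (sq _ m)
    have b := padd (φ n) (h := (2 : ℝ) • (f * f)) (k := (2 : ℝ) • (g * g))
      (fun m => mul_nonneg (by norm_num) (sq _ m)) fun m => mul_nonneg (by norm_num) (sq _ m)
    rw [psm _ _ (by norm_num)] at a
    rw [psm _ _ (by norm_num), psm _ _ (by norm_num)] at b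
    rw [show (g - f) * (g - f) + (4 : ℝ) • (((1 / 2 : ℝ) • (f + g)) * ((1 / 2 : ℝ) • (f + g))) =
      (2 : ℝ) • (f * f) + (2 : ℝ) • (g * g) by ext m; simp; ring, b] at a
    linear_combination (-(1 / 2 : ℝ) ^ n) * a
  let d : ℕ → ℝ := fun N => sInf (q N '' S N)
  have ne : ∀ N, (q N '' S N).Nonempty := fun N => (mm φ Φ h1 he h N).elim fun f a => ⟨_, f, a, rfl⟩
  have d1 : ∀ N f, f ∈ S N → d N ≤ q N f := fun N f a =>
    csInf_le ⟨0, by rintro _ ⟨g, -, rfl⟩; exact q0 _ _⟩ ⟨f, a, rfl⟩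
  have d2 : ∀ N θ, 0 < θ → ∃ f ∈ S N, q N f < d N + θ := fun N θ a => by
    obtain ⟨_, ⟨f, b, rfl⟩, c⟩ := exists_lt_of_csInf_lt (ne N) (lt_add_of_pos_right _ a)
    exact ⟨f, b, c⟩
  have sm : ∀ N N' f, N ≤ N' → f ∈ S N' → f ∈ S N := fun N N' f a b => ⟨b.1, fun n c => b.2 n (c.trans_le a)⟩
  have d3 : ∀ N N', N ≤ N' → d N ≤ d N' := fun N N' a => le_csInf (ne N') (by
    rintro _ ⟨f, b, rfl⟩; exact (d1 N f (sm _ _ _ a b)).trans (q1 _ _ _ a))
  have d4 : BddAbove (range d) := ⟨2 * M, by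
    rintro _ ⟨N, rfl⟩
    obtain ⟨f, a⟩ := mm φ Φ h1 he h N
    exact (d1 N f a).trans (q2 _ _ a.1)⟩
  obtain ⟨η, η0, η1⟩ : ∃ η > 0, M * η ≤ ε / 8 := ⟨ε / 8 / (M + 1), by positivity, by
    rw [mul_div_assoc', div_le_iff₀ (by positivity)]; nlinarith⟩
  have key : ∀ j, ∃ (C : Set ℕ) (κ : ℕ), ε / 16 < v (φ κ) C ∧ ∀ k, k ≤ j → v (φ k) C ≤ (1 / 2) ^ j := fun j => by
    obtain ⟨θ, θ0, θ1⟩ : ∃ θ > 0, 6 * θ = (1 / 2 : ℝ) ^ j * (η ^ 2 * (1 / 2) ^ j) :=
      ⟨(1 / 2 : ℝ) ^ j * (η ^ 2 * (1 / 2) ^ j) / 6, by positivity, by ring⟩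
    obtain ⟨N₀, n0⟩ := exists_lt_of_lt_ciSup (sub_lt_self (⨆ N, d N) θ0)
    obtain ⟨f, f1, f2⟩ := d2 (max N₀ (j + 1)) θ θ0
    obtain ⟨κ, hκ⟩ := ((hφ f).eventually (gt_mem_nhds (show 0 < ε / 8 by positivity))).exists
    obtain ⟨g, g1, g2⟩ := d2 (max (max N₀ (j + 1)) (κ + 1)) θ θ0
    have g3 := sm _ _ _ (le_max_left _ _) g1
    have x1 := q3 (max N₀ (j + 1)) f g
    have x2 := d1 (max N₀ (j + 1)) ((1 / 2 : ℝ) • (f + g)) ⟨by
      rw [norm_smul]; have := norm_add_le f g; norm_num; linarith [f1.1, g1.1], fun n a => by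
      rw [map_smul, map_add, smul_eq_mul]; linarith [f1.2 n a, g3.2 n a]⟩
    have x3 := q1 _ _ g (le_max_left (max N₀ (j + 1)) (κ + 1))
    have x4 := le_ciSup d4 (max (max N₀ (j + 1)) (κ + 1))
    have x5 := d3 _ _ (le_max_left N₀ (j + 1))
    have x6 : q (max N₀ (j + 1)) (g - f) ≤ 6 * θ := by linarith
    have b : ∀ n, |(g - f) n| ≤ 2 := fun n => (aV _ _).trans ((norm_sub_le _ _).trans (by linarith [f1.1, g1.1]))
    refine ⟨{n | η < |(g - f) n|}, κ, ?_, fun k a => ?_⟩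
    · have y1 := (abs_le.1 (p1 (φ κ) (ind {n | η < |(g - f) n|}) (g - f))).2
      have y2 : ‖(g - f) - ind {n | η < |(g - f) n|} * (g - f)‖ ≤ η := nV η0.le fun n => by
        show |(g - f) n - ind _ n * (g - f) n| ≤ η
        rw [ind_ap]; split_ifs with c
        · simpa using η0.le
        · simpa using c
      have y3 := (abs_le.1 ((φ κ).le_opNorm ((g - f) - ind {n | η < |(g - f) n|} * (g - f)))).2
      rw [map_sub, map_sub] at y3
      have y4 := g1.2 κ (by omega)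
      have y5 := nV (by norm_num) b
      have y6 := mul_le_mul (hM κ) y2 (norm_nonneg _) M0
      have y7 := mul_le_mul_of_nonneg_left y5 (p0 (φ κ) (ind {n | η < |(g - f) n|}))
      unfold v; linarith
    · have y1 := pmono (φ k) (h := η ^ 2 • ind {n | η < |(g - f) n|}) (k := (g - f) * (g - f))
        (fun n => mul_nonneg (by positivity) (i0 _ n)) fun n => by
          show η ^ 2 * ind _ n ≤ (g - f) n * (g - f) n
          rw [ind_ap]; split_ifs with c
          · have : η < |(g - f) n| := c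
            nlinarith [abs_mul_abs_self ((g - f) n)]
          · simpa using mul_self_nonneg _
      rw [psm _ _ (by positivity)] at y1
      have y2 := Finset.single_le_sum (f := fun n => (1 / 2 : ℝ) ^ n * p (φ n) ((g - f) * (g - f)))
        (fun n _ => mul_nonneg (by positivity) (p0 _ _))
        (Finset.mem_range.2 (show k < max N₀ (j + 1) by omega))
      have y3 : (1 / 2 : ℝ) ^ j ≤ (1 / 2) ^ k := pow_le_pow_of_le_one (by norm_num) (by norm_num) a
      have y4 := mul_le_mul y3 y1 (mul_nonneg (by positivity) (p0 _ _)) (by positivity)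
      have y5 := (y4.trans (y2.trans x6)).trans_eq θ1
      exact le_of_mul_le_mul_left (le_of_mul_le_mul_left y5 (by positivity)) (by positivity)
  choose C κ c1 c2 using key
  exact uac hM hφ C κ (by positivity) c1 fun k j a => c2 j k a

theorem bnd {E : Type} [NormedAddCommGroup E] [NormedSpace ℝ E] (Φ : StrongDual ℝ (StrongDual ℝ E)) :
    ∃ C > 0, ∀ ψ, |Φ ψ| ≤ C * ‖ψ‖ := Φ.bound

theorem grothV : Groth V := fun φ ψ a Φ => by
  have b : ∀ x, Tendsto (fun n => (φ n - ψ) x) atTop (𝓝 0) := fun x => by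
    simpa using (a x).sub_const (ψ x)
  obtain ⟨M, hM⟩ := banach_steinhaus (g := fun n => φ n - ψ) fun x => by
    obtain ⟨C, hC⟩ := (b x).norm.bddAbove_range
    exact ⟨C, fun n => hC ⟨n, rfl⟩⟩
  have k : ∀ (Ψ : StrongDual ℝ (StrongDual ℝ V)) ε, 0 < ε → ∀ᶠ n in atTop, Ψ (φ n - ψ) < ε := fun Ψ ε e => by
    by_contra c
    obtain ⟨s, s1, s2⟩ := extraction_of_frequently_atTop (not_eventually.1 c)
    obtain ⟨C, t, u⟩ := bnd Ψ
    refine core (φ := fun n => φ (s n) - ψ) (fun n => hM _) (fun x => (b x).comp s1.tendsto_atTop)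
      (C⁻¹ • Ψ.toLinearMap) (fun ν => ?_) (ε := C⁻¹ * ε) (by positivity) fun n =>
        mul_le_mul_of_nonneg_left (not_lt.1 (s2 n)) (by positivity)
    show |C⁻¹ * Ψ ν| ≤ _
    rw [abs_mul, abs_of_pos (inv_pos.2 t), inv_mul_le_iff₀ t]; exact u ν
  refine Metric.tendsto_nhds.2 fun ε e => ((k Φ ε e).and (k (-Φ) ε e)).mono fun n c => ?_
  have c1 : Φ (φ n - ψ) < ε := c.1
  have c2 : -Φ (φ n - ψ) < ε := c.2
  rw [map_sub] at c1 c2
  rw [Real.dist_eq, abs_lt]; constructor <;> linarith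

def toU (u : Stone (Set ℕ)) : Ultrafilter ℕ := Ultrafilter.ofComplNotMemIff
  { sets := {A | u.1 A = true}
    univ_sets := by
      have a := u.2.2 ∅ ∅ᶜ
      have b := u.2.1 ∅
      simp only [Set.sup_eq_union, empty_union, compl_empty] at a b
      show u.1 univ = true
      cases c : u.1 ∅ <;> simp_all
    sets_of_superset := fun {A B} a b => by
      have c : u.1 (A ∪ B) = _ := u.2.2 A B
      rw [union_eq_right.2 b, show u.1 A = true from a] at c
      exact c
    inter_sets := fun {A B} a b => by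
      have c := u.2.1 (Aᶜ ∪ Bᶜ)
      have d : u.1 (Aᶜ ∪ Bᶜ) = _ := u.2.2 Aᶜ Bᶜ
      rw [u.2.1 A, u.2.1 B, show u.1 A = true from a, show u.1 B = true from b] at d
      rw [d, ← compl_inter, compl_compl] at c
      exact c }
  fun A => by
    show ¬ u.1 Aᶜ = true ↔ u.1 A = true
    rw [u.2.1]; simp

noncomputable def pr (n : ℕ) : Stone (Set ℕ) :=
  ⟨fun A => decide (n ∈ A), fun A => by simp, fun A B => by simp⟩

theorem groth : Groth C(Stone (Set ℕ), ℝ) := by
  let R : C(Stone (Set ℕ), ℝ) →L[ℝ] V := LinearMap.mkContinuous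
    { toFun := fun F => mkV (fun n => F (pr n)) ‖F‖ fun n => F.norm_coe_le_norm _
      map_add' := fun _ _ => by ext; rfl
      map_smul' := fun _ _ => by ext; rfl } 1 fun F => by
        rw [one_mul]; exact nV (norm_nonneg _) fun n => F.norm_coe_le_norm _
  have r : ∀ F n, R F n = F (pr n) := fun _ _ => rfl
  have t : ∀ u, Tendsto pr (toU u) (𝓝 u) := fun u => tendsto_subtype_rng.2 (tendsto_pi_nhds.2 fun A =>
    tendsto_const_nhds.congr' (by
      cases c : u.1 A
      · exact mem_of_superset (show Aᶜ ∈ toU u from by show u.1 Aᶜ = true; rw [u.2.1, c]; rfl)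
          fun n (h : n ∉ A) => by simp [pr, h]
      · exact mem_of_superset (show A ∈ toU u from c) fun n (h : n ∈ A) => by simp [pr, h]))
  have c : Continuous toU := ultrafilterBasis_is_basis.continuous_iff.2 (by
    rintro _ ⟨A, rfl⟩
    exact (isOpen_discrete {true}).preimage (f := fun u : Stone (Set ℕ) => u.1 A)
      ((continuous_apply A).comp continuous_subtype_val))
  have k : R.toLinearMap.ker = ⊥ := LinearMap.ker_eq_bot'.2 fun F h => ContinuousMap.ext fun u =>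
    tendsto_nhds_unique ((F.continuous.tendsto u).comp (t u))
      (tendsto_const_nhds.congr fun n => (congrArg (fun g : V => g n) h).symm)
  have s : R.toLinearMap.range = ⊤ := LinearMap.range_eq_top.2 fun g => by
    let g' : ℕ → Icc (-‖g‖) ‖g‖ := fun n => ⟨g n, abs_le.1 (aV g n)⟩
    refine ⟨⟨fun u => (Ultrafilter.extend g' (toU u)).1, continuous_subtype_val.comp
      ((continuous_ultrafilter_extend g').comp c)⟩, ?_⟩
    ext n
    show (Ultrafilter.extend g' (toU (pr n))).1 = g n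
    rw [show toU (pr n) = pure n from Ultrafilter.ext fun A => by
      show decide (n ∈ A) = true ↔ _; simp]
    exact congrArg Subtype.val (congrFun (ultrafilter_extend_extends g') n)
  let e := ContinuousLinearEquiv.ofBijective R k s
  intro φ ψ a Φ
  let T : V →L[ℝ] C(Stone (Set ℕ), ℝ) := e.symm
  have x : ∀ ν : StrongDual ℝ C(Stone (Set ℕ), ℝ), (ν.comp T).comp R = ν := fun ν => by
    ext F; exact congrArg ν (e.symm_apply_apply F)
  have := grothV (fun n => (φ n).comp T) (ψ.comp T) (fun y => a _)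
    (Φ.comp (ContinuousLinearMap.precomp ℝ R))
  simpa only [ContinuousLinearMap.comp_apply, ContinuousLinearMap.precomp_apply, x] using this

end Pool.Agent.H40.Gr
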