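import Pool.Agent.H40.Path3

set_option autoImplicit false

namespace Pool.Agent.H40.Bsig

open Filter Cut

theorem ev_S {M : Mod} (S : Set (Set M.N)) (t : Tm) (v : ℕ → M.N) :
    t.ev { M with S := S } v = t.ev M v := by
  induction t with
  | var i => rfl
  | zero => rfl
  | one => rfl
  | add _ _ a b => exact congrArg₂ M.add a b
  | mul _ _ a b => exact congrArg₂ M.mul a b

theorem sat_bdd {M : Mod} (S : Set (Set M.N)) {θ : Fm} (h : Bdd θ) (V : ℕ → Set M.N) :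
    ∀ v, Sat { M with S := S } θ v V ↔ Sat M θ v V := by
  induction h with
  | eq s t => exact fun v => by simp only [Sat, ev_S]
  | lt s t => exact fun v => by simp only [Sat, ev_S]
  | mem s t => exact fun v => by simp only [Sat, ev_S]
  | neg _ a => exact fun v => not_congr (a v)
  | and _ _ a b => exact fun v => and_congr (a v) (b v)
  | ball t _ a => exact fun v => by simp only [Sat, ev_S, a]

theorem sat_fo {M : Mod} (S : Set (Set M.N)) {θ : Fm} (h : FO θ) (V V' : ℕ → Set M.N) :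
    ∀ v, Sat { M with S := S } θ v V ↔ Sat M θ v V' := by
  induction h with
  | eq s t => exact fun v => by simp only [Sat, ev_S]
  | lt s t => exact fun v => by simp only [Sat, ev_S]
  | neg _ a => exact fun v => not_congr (a v)
  | and _ _ a b => exact fun v => and_congr (a v) (b v)
  | ball t _ a => exact fun v => by simp only [Sat, ev_S, a]
  | all _ a => exact fun v => forall_congr' fun _ => a _
  | ex _ a => exact fun v => exists_congr fun _ => a _

theorem pr_sat {θ : Fm} (h : Bdd θ) : PrimrecPred fun d => Sat std θ (dec d) fun _ => Set.univ := by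
  induction h with
  | eq s t => exact Primrec.eq.comp (pr_tm s) (pr_tm t)
  | lt s t => exact Primrec.nat_lt.comp (pr_tm s) (pr_tm t)
  | mem s t => exact pr_const True
  | neg _ a => exact a.not
  | and _ _ a b => exact a.and b
  | ball t _ a => exact pr_ball (pr_tm t) ((a.comp (pr_pair .snd .fst)).of_eq fun p => by rw [dec_pair])

theorem s1_five {P : ℕ → ℕ → ℕ → ℕ → ℕ → Prop}
    (h : PrimrecPred fun d => P (dec d 0) (dec d 1) (dec d 2) (dec d 3) (dec d 4)) (i j k l n : ℕ) :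
    S1 fun v => P (v i) (v j) (v k) (v l) (v n) := by
  have r := fun i => rep_prim (Primrec.nat_iff.1 (pr_dec .id i))
  exact (S1.ex ((r 0 (i + 1) 0).and ((r 1 (j + 1) 0).and ((r 2 (k + 1) 0).and ((r 3 (l + 1) 0).and
    ((r 4 (n + 1) 0).and (s1_prim h 0)))))) (R := fun d v => v i = dec d 0 ∧ v j = dec d 1 ∧
      v k = dec d 2 ∧ v l = dec d 3 ∧ v n = dec d 4 ∧
        P (dec d 0) (dec d 1) (dec d 2) (dec d 3) (dec d 4))).congr fun v =>
    ⟨fun ⟨d, a, b, c, e, f, g⟩ => by rwa [a, b, c, e, f], fun h => ⟨Nat.pair (v i) (Nat.pair (v j)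
      (Nat.pair (v k) (Nat.pair (v l) (Nat.pair (v n) 0)))), by simpa [dec] using h⟩⟩

theorem E_congr {β β' : ℕ → ℕ} {R : ℕ → ℕ → Prop} : ∀ {k u u'}, (∀ j < k, β j = β' j) →
    E β R k u u' → E β' R k u u'
  | 0, _, _, _, _ => trivial
  | k + 1, _, _, e, h => ⟨h.1, fun j hj => e j (Nat.lt_succ_of_le hj) ▸
    ⟨fun x hx => ((h.2 j hj).1 x hx).imp fun _ a =>
      ⟨a.1, E_congr (fun j b => e j (b.trans k.lt_succ_self)) a.2⟩,
      fun x hx => ((h.2 j hj).2 x hx).imp fun _ a =>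
        ⟨a.1, E_congr (fun j b => e j (b.trans k.lt_succ_self)) a.2⟩⟩⟩

theorem E_prim (k : ℕ) : ∃ (T : Type) (_ : Finite T) (τ : (ℕ → ℕ) → (ℕ → ℕ) → T),
    (∀ β u u', τ β u = τ β u' → E β (fun _ _ => False) k u u') ∧ ∀ β : ℕ → ℕ → ℕ,
      (∀ j, Primrec fun q => β q j) → ∀ t, PrimrecRel fun q d => τ (β q) (dec d) = t := by
  induction k with
  | zero => exact ⟨Unit, inferInstance, fun _ _ => (), fun _ _ _ _ => trivial,
      fun _ _ _ => (pr_const True).of_eq fun _ => by simp⟩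
  | succ k ih =>
    obtain ⟨T, _, τ, h1, h2⟩ := ih
    refine ⟨(Fin (k + 1) → Fin (k + 1) → Fin (k + 1) → Fin 7 → Prop) × (Fin (k + 1) → Set T),
      inferInstance, fun β u => (fun i j l => rel (fun _ _ => False) (u i) (u j) (u l),
        fun j => {t | ∃ x ≤ β j, τ β (cons x u) = t}), fun β u u' e => ⟨fun i a j b l c =>
          congrFun (congrFun (congrFun (congrArg Prod.fst e) ⟨i, a⟩) ⟨j, b⟩) ⟨l, c⟩, fun j hj => ?_⟩,
      fun β hβ t => ?_⟩
    · have := Set.ext_iff.1 (congrFun (congrArg Prod.snd e) ⟨j, Nat.lt_succ_of_le hj⟩)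
      exact ⟨fun x hx => ((this _).1 ⟨x, hx, rfl⟩).imp fun _ e => ⟨e.1, h1 _ _ _ e.2.symm⟩,
        fun x hx => ((this _).2 ⟨x, hx, rfl⟩).imp fun _ e => ⟨e.1, h1 _ _ _ e.2⟩⟩
    have a : ∀ (i j l : ℕ) (n : Fin 7), PrimrecPred fun p : ℕ × ℕ =>
        rel (fun _ _ => False) (dec p.2 i) (dec p.2 j) (dec p.2 l) n := fun i j l n => by
      have := pr_dec (Primrec.snd (α := ℕ))
      fin_cases n
      exacts [Primrec.nat_lt.comp (this i) (this j), Primrec.eq.comp (this i) (this j),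
        Primrec.eq.comp (this i) (.const 0), Primrec.eq.comp (this i) (.const 1),
        Primrec.eq.comp (this i) (Primrec.nat_add.comp (this l) (this j)),
        Primrec.eq.comp (this i) (Primrec.nat_mul.comp (this l) (this j)), pr_const False]
    refine ((pr_all fun i : Fin (k + 1) => pr_all fun j : Fin (k + 1) => pr_all fun l : Fin (k + 1) =>
      pr_all fun n => pr_iff (a i j l n) (pr_const (t.1 i j l n))).and
      (pr_all fun j : Fin (k + 1) => pr_all fun t' => pr_iff (pr_bex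
        (Primrec.succ.comp ((hβ j).comp .fst)) ((h2 β hβ t').comp (Primrec.fst.comp .fst)
          (pr_pair .snd (Primrec.snd.comp .fst))).primrecRel) (pr_const (t' ∈ t.2 j)))).of_eq fun p => ?_
    simp only [Prod.ext_iff, funext_iff, Set.ext_iff, dec_pair, Nat.lt_succ_iff, eq_iff_iff,
      Set.mem_ofPred_eq]

noncomputable def GG (m : ℕ) : ℕ → ℕ := (ex_G.choose_spec m).choose

theorem GG_mod (m : ℕ) {y z : ℕ} (e : y ≤ z) : GG m z % 2 ^ y = GG m y :=
  (ex_G.choose_spec m).choose_spec.1 y z e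

def RR (m c x : ℕ) : Prop := ∃ y, Hlt (inp c x y (GG m y))

noncomputable def C1 : Cut := ⟨FF, FF_mono, fun _ => (_root_.sq _).trans_le (Nat.le_add_right _ _), RR⟩

theorem Rz_RR {m z c x : ℕ} : Rz z (GG m z) c x → RR m c x :=
  fun ⟨y, a, b⟩ => ⟨y, z, GG_mod m (Nat.le_of_lt_succ a) ▸ b⟩

theorem RR_ev {m c x : ℕ} : RR m c x → ∀ᶠ z in atTop, Rz z (GG m z) c x := fun ⟨y, z, h⟩ =>
  ((eventually_ge_atTop y).and (eventually_ge_atTop z)).mono fun _ e =>
    ⟨y, Nat.lt_succ_of_le e.1, (GG_mod m e.1).symm ▸ (h.mono e.2).1⟩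

theorem bd_dom {Q : ℕ → ℕ → Prop} (h : PrimrecRel Q) {f : ℕ → ℕ} (hf : C1.Bd f)
    (e : ∀ᶠ m in U, ∃ w, Q (f m) w) : ∃ g, C1.Bd g ∧ ∀ᶠ m in U, Q (f m) (g m) := by
  obtain ⟨c, hc⟩ := dom h
  obtain ⟨g, hg⟩ := ae_choose (e.mono fun m e => (hc _).2 _ le_rfl e)
  exact ⟨g, ((bd_const c).pair hf).F.mono (hg.mono fun _ e => e.1), hg.mono fun _ e => e.2⟩

theorem bd_pow {f : ℕ → ℕ} (hf : C1.Bd f) : C1.Bd fun m => 2 ^ f m :=
  (bd_dom (Q := fun x w => w = 2 ^ x) (Primrec.eq.comp .snd (pr_pow .fst)) hf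
    (Eventually.of_forall fun _ => ⟨_, rfl⟩)).elim fun _ h => h.1.mono (h.2.mono fun _ => Eq.ge)

theorem RR_bd {c x : ℕ → ℕ} (hc : C1.Bd c) (hx : C1.Bd x) :
    ∃ t, C1.Bd t ∧ ∀ m, RR m (c m) (x m) → ∃ z ≤ t m, Rz z (GG m z) (c m) (x m) :=
  ⟨_, (((hc.pair hx).add (bd_pow ((hc.pair hx).add (bd_const 2)))).F.add
    (bd_const ex_G.choose)).F.F, fun m e => by
      obtain ⟨z, hz⟩ := (RR_ev e).exists
      simpa [GG, C1] using (ex_G.choose_spec m).choose_spec.2.1 z (Nat.pair (c m) (x m))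
        (by simpa [GG] using hz)⟩

theorem RR_code {Q : ℕ → ℕ → ℕ → ℕ → Prop} (h : PrimrecPred fun q : ℕ =>
    Q q.unpair.1 q.unpair.2.unpair.1 q.unpair.2.unpair.2.unpair.1 q.unpair.2.unpair.2.unpair.2) :
    ∃ c, ∀ d x y n, Hlt (inp (Nat.pair c d) x y n) ↔ Q d x y n :=
  (dom (h.comp (Primrec.fst (β := ℕ))).primrecRel).imp fun c hc d x y n => by
    simpa [inp, Hlt] using (hc (Nat.pair d (Nat.pair x (Nat.pair y n)))).1

theorem sigC : C1.Sig := by
  intro θ hθ V hV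
  classical
  choose c c' h1 h2 using hV
  obtain ⟨d₂, h3, h4⟩ := code (2 * θ.sup) fun i => if i % 2 = 0 then c (i / 2) else c' (i / 2)
  obtain ⟨c₀, h0⟩ := RR_code (Q := fun d x y n => ∃ w < y,
      PN (fun i => Rz y n (dec d.unpair.2 (2 * i))) (fun i => Rz y n (dec d.unpair.2 (2 * i + 1)))
        θ true (dec (Nat.pair w (Nat.pair x d.unpair.1)))) (by
    have := fun j => pr_Rz (pr_l (pr_r (pr_r (Primrec.fst (β := ℕ))))) (pr_r (pr_r (pr_r .fst)))
      (pr_dec (pr_r (pr_l .fst)) j) .snd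
    exact pr_bex (pr_l (pr_r (pr_r .id))) ((pr_PN (fun i => (this (2 * i)).primrecRel)
      (fun i => (this (2 * i + 1)).primrecRel) θ true).comp .fst (pr_pair .snd (pr_pair (pr_l (pr_r .fst)) (pr_l (pr_l .fst))))))
  simp only [dec_pair] at h0
  refine ⟨c₀, d₂, h3, fun v d₁ h5 h6 x => ?_⟩
  have h7 : ∀ᶠ m in U, ∀ i ∈ Set.Iio θ.sup,
      dec (d₂ m) (2 * i) = rep (c i) m ∧ dec (d₂ m) (2 * i + 1) = rep (c' i) m :=
    (eventually_all_finite (Set.finite_Iio _)).2 fun i (hi : i < _) =>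
      ((by simpa using h4 (2 * i) (by omega) : ∀ᶠ m in U, dec (d₂ m) (2 * i) = rep (c i) m).and (by
        simpa [Nat.add_mod, show (2 * i + 1) / 2 = i by omega] using h4 (2 * i + 1) (by omega)))
  choose v' hv using fun i => ex_rep (f := fun m => dec (d₁ m) i)
    (h5.mono (Eventually.of_forall fun _ => dec_le _ _))
  have h9 : ∀ w : C1.I, Sat C1.M θ (cons w (cons x v)) V ↔ ∀ᶠ m in U,
      PN (fun i => RR m (rep (c i) m)) (fun i => RR m (rep (c' i) m)) θ true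
        (cons (rep w m) (cons (rep x m) (dec (d₁ m)))) := fun w =>
    (sat_congr θ (cons_congr (cons_congr (fun i hi => (ext_iff _ _).2 (((h6 i hi).and (hv i)).mono
      fun _ e => (e.2.trans e.1).symm)) _) _) fun _ _ => rfl).trans (((PN_los hθ
        (fun i x => by rw [h1]; rfl) (fun i x => by rw [← Set.mem_compl_iff, h2]; rfl) true _ _
        (cons_ae (cons_ae hv rfl_ae) rfl_ae)).trans (iff_true_right rfl)).symm)
  refine ⟨fun ⟨w, hw⟩ => ?_, fun h => ?_⟩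
  · filter_upwards [(h9 w).1 hw, h7] with m a1 a2
    obtain ⟨z, a3, a4⟩ := ((eventually_gt_atTop (rep w m)).and (PN_lim θ _ _ (PN_mono θ
      (A' := fun i x => ∀ᶠ z in atTop, Rz z (GG m z) (dec (d₂ m) (2 * i)) x)
      (B' := fun i x => ∀ᶠ z in atTop, Rz z (GG m z) (dec (d₂ m) (2 * i + 1)) x)
      (fun i hi x e => RR_ev ((a2 i hi).1 ▸ e)) (fun i hi x e => RR_ev ((a2 i hi).2 ▸ e))
      _ _ a1))).exists
    exact ⟨z, (h0 _ _ _ _).2 ⟨_, a3, by simpa using a4⟩⟩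
  · obtain ⟨t, h10, h11⟩ := RR_bd ((bd_const c₀).pair (h5.pair h3)) (bd_rep x)
    obtain ⟨f, hf⟩ := ae_choose (P := fun m w => w ≤ t m ∧ PN (fun i => RR m (rep (c i) m))
        (fun i => RR m (rep (c' i) m)) θ true (cons w (cons (rep x m) (dec (d₁ m))))) (by
      filter_upwards [h, h7] with m a1 a2
      obtain ⟨z, a3, y, a4, a5⟩ := h11 m a1
      obtain ⟨w, a6, a7⟩ := (h0 _ _ _ _).1 ⟨_, a5⟩
      simp only [Nat.unpair_pair, GG_mod m (Nat.le_of_lt_succ a4)] at a7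
      exact ⟨w, by omega, PN_mono θ (fun i hi x e => (a2 i hi).1 ▸ Rz_RR e)
        (fun i hi x e => (a2 i hi).2 ▸ Rz_RR e) _ _ a7⟩)
    obtain ⟨w, hw⟩ := ex_rep (h10.mono (hf.mono fun _ e => e.1))
    exact ⟨w, (h9 w).2 ((hf.and hw).mono fun m e => e.2 ▸ e.1.2)⟩

theorem decC {Q : ℕ → ℕ → ℕ → Prop} (h : PrimrecPred fun q : ℕ =>
    Q q.unpair.1 q.unpair.2.unpair.1 q.unpair.2.unpair.2.unpair.2) :
    {x : C1.I | ∀ᶠ m in U, Q m (rep x m) (GG m (rep x m + m))} ∈ C1.M.S := by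
  have e := Primrec.eq.comp (pr_l (pr_r (pr_r .id))) (Primrec.nat_add.comp (pr_l (pr_r .id)) (pr_l .id))
  obtain ⟨c, hc⟩ := RR_code (Q := fun d x y n => y = x + d ∧ Q d x n) (e.and h)
  obtain ⟨c', hc'⟩ := RR_code (Q := fun d x y n => y = x + d ∧ ¬ Q d x n) (e.and h.not)
  obtain ⟨d, hd⟩ := ex_rep ((bd_const c).pair (bd_it (p := C1) 0))
  obtain ⟨d', hd'⟩ := ex_rep ((bd_const c').pair (bd_it (p := C1) 0))
  refine ⟨d, d', Set.ext fun x => eventually_congr (hd.mono fun m e => ?_),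
    Set.ext fun x => ae_not.symm.trans (eventually_congr (hd'.mono fun m e => ?_))⟩ <;>
    (rw [e]; simp [C1, RR, hc, hc'])

theorem absl {P : (ℕ → ℕ) → Prop} (h : S1 P) : ∃ θ, Bdd θ ∧ FO θ ∧
    ∀ v V, Sat C1.M θ.ex v V ↔ ∀ᶠ m in U, P fun i => rep (v i) m := by
  obtain ⟨Q, h, h'⟩ := h
  obtain ⟨θ, h1, h2, h3⟩ := h id
  refine ⟨θ, h1, h2, fun v V => ?_⟩
  have key : ∀ w : C1.I, Sat C1.M θ (cons w v) V ↔ ∀ᶠ m in U,
      Sat std θ (cons (rep w m) fun i => rep (v i) m) fun _ => Set.univ := fun w =>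
    (sat_fo C1.M.S h2 _ _ _).trans (los h1 (W := fun _ _ => Set.univ) (V := fun _ => Set.univ)
      (fun _ _ => by simp) _ _ (cons_ae (fun _ => rfl_ae) rfl_ae))
  refine ⟨fun ⟨w, hw⟩ => ((key w).1 hw).mono fun m e => (h' _).2 ⟨_, (h3 _ _).1 e⟩, fun h => ?_⟩
  obtain ⟨d, h4, h5⟩ := code θ.sup v
  have h6 : ∀ᶠ m in U, ∀ w, Sat std θ (dec (Nat.pair w (d m))) (fun _ => Set.univ) ↔
      Sat std θ (cons w fun i => rep (v i) m) fun _ => Set.univ :=
    ((eventually_all_finite (Set.finite_Iio _)).2 h5).mono fun m e w => by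
      rw [dec_pair]
      exact sat_congr θ (cons_congr e w) fun _ _ => rfl
  obtain ⟨g, h7, h8⟩ := bd_dom ((pr_sat h1).comp (pr_pair .snd .fst)).primrecRel h4 ((h.and h6).mono
    fun m e => ((h' _).1 e.1).imp fun w a => (e.2 w).2 ((h3 _ _).2 a))
  obtain ⟨w, hw⟩ := ex_rep h7
  exact ⟨w, (key w).2 ((h6.and (h8.and hw)).mono fun m e => e.2.2 ▸ (e.1 _).1 e.2.1)⟩

end Pool.Agent.H40.Bsig
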