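import Pool.Agent.H40.HaDefs
import Pool.Agent.H40.Path4

set_option autoImplicit false

namespace Pool.Agent.H40.Ha

open Filter

def PX (F : Filter ℕ) (R : ℕ → ℕ → Prop) : Prop :=
  ∃ g : ℕ →. ℕ, Partrec g ∧ ∀ᶠ x in F, ∃ n ∈ g x, R x n

def PR (F : Filter ℕ) (f : ℕ → ℕ) : Prop := PX F fun x n => n = f x

def Dec (F : Filter ℕ) : Prop := F.NeBot ∧ ∀ f, PR F f → (∀ᶠ x in F, f x = 0) ∨ ∀ᶠ x in F, f x ≠ 0

section

variable {F F' : Filter ℕ} {R R' : ℕ → ℕ → Prop} {f g : ℕ → ℕ}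

theorem PX.mono (h : PX F R) (e : ∀ᶠ x in F, ∀ n, R x n → R' x n) : PX F R' :=
  h.imp fun _ h => ⟨h.1, (h.2.and e).mono fun _ a => a.1.imp fun _ b => ⟨b.1, a.2 _ b.2⟩⟩

theorem PX.ex (h : PX F R) : ∃ f, PR F f ∧ ∀ᶠ x in F, R x (f x) := by
  classical
  obtain ⟨g, h1, h2⟩ := h
  have : ∀ᶠ x in F, (g x).getOrElse 0 ∈ g x ∧ R x ((g x).getOrElse 0) := h2.mono fun x ⟨n, a, b⟩ => by
    rw [Part.eq_some_iff.2 a, Part.getOrElse_some]
    exact ⟨Part.mem_some _, b⟩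
  exact ⟨fun x => (g x).getOrElse 0, ⟨g, h1, this.mono fun _ a => ⟨_, a.1, rfl⟩⟩,
    this.mono fun _ => And.right⟩

theorem PR.px (h : PR F f) (e : ∀ᶠ x in F, R x (f x)) : PX F R := h.mono (e.mono fun _ a _ b => b ▸ a)

theorem PR.bind {G : ℕ → ℕ →. ℕ} (hG : Partrec₂ G) (a : PR F f) (b : PR F g)
    (e : ∀ᶠ x in F, ∃ n ∈ G (f x) (g x), R x n) : PX F R := by
  obtain ⟨g1, a1, a2⟩ := a
  obtain ⟨g2, b1, b2⟩ := b
  refine ⟨fun x => (g1 x).bind fun y => (g2 x).bind fun z => G y z, a1.bind ((b1.comp .fst).bind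
    (hG.comp (Computable.snd.comp .fst) .snd).to₂).to₂, ?_⟩
  filter_upwards [a2, b2, e] with x ⟨_, c1, c2⟩ ⟨_, c3, c4⟩ ⟨n, c5, c6⟩
  exact ⟨n, Part.mem_bind (c2 ▸ c1) (Part.mem_bind (c4 ▸ c3) c5), c6⟩

theorem PR.two {G : ℕ → ℕ → ℕ} (hG : Primrec₂ G) (a : PR F f) (b : PR F g) :
    PR F fun x => G (f x) (g x) :=
  PR.bind hG.to_comp.partrec₂ a b (Eventually.of_forall fun _ => ⟨_, Part.mem_some _, rfl⟩)

theorem pr_of (h : Primrec f) : PR F f :=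
  ⟨f, h.to_comp, Eventually.of_forall fun _ => ⟨_, Part.mem_some _, rfl⟩⟩

theorem PR.one {G : ℕ → ℕ} (hG : Primrec G) (a : PR F f) : PR F fun x => G (f x) :=
  PR.two (G := fun y _ => G y) (hG.comp .fst) a a

theorem PX.pull {σ : ℕ → ℕ} (h : PX F R) (hσ : Primrec σ) (t : Tendsto σ F' F) :
    PX F' fun x => R (σ x) := h.elim fun g h => ⟨fun x => g (σ x), h.1.comp hσ.to_comp, t h.2⟩

theorem Dec.rel (h : Dec F) {Q : ℕ → ℕ → Prop} (hQ : PrimrecRel Q) (a : PR F f) (b : PR F g) :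
    (∀ᶠ x in F, Q (f x) (g x)) ∨ ∀ᶠ x in F, ¬ Q (f x) (g x) := by
  classical
  simpa using h.2 _ (PR.two (G := fun y z => if Q y z then 0 else 1)
    (Primrec.ite hQ (.const 0) (.const 1)) a b)

theorem PR.min {Q : ℕ → ℕ → Prop} (hQ : PrimrecRel Q) (a : PR F f) (e : ∀ᶠ x in F, ∃ w, Q (f x) w) :
    ∃ g, PR F g ∧ ∀ᶠ x in F, Q (f x) (g x) := by
  classical
  refine (PR.bind (G := fun y _ => Nat.rfind fun w => Part.some (decide (Q y w)))
    ((Partrec.rfind hQ.decide.to_comp.partrec₂).comp .fst).to₂ a a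
    (e.mono fun x e => ⟨Nat.find e, ?_, Nat.find_spec e⟩)).ex
  rw [Nat.mem_rfind]
  exact ⟨by simpa using Nat.find_spec e, fun h => by simpa using Nat.find_min e h⟩

theorem extend {G : Filter ℕ} (h : ¬ PX G R) : ∃ F ≤ G, Dec F ∧ ¬ PX F R := by
  have z : ∀ S : Set (Filter ℕ), (∀ c ⊆ S, IsChain (· ≤ ·) c → ∀ y ∈ c, ∃ lb ∈ S, ∀ z ∈ c, lb ≤ z) →
      ∀ x ∈ S, ∃ m, m ≤ x ∧ Minimal (· ∈ S) m := fun S H =>
    @zorn_le_nonempty₀ (Filter ℕ)ᵒᵈ _ S fun c a b => H c a b.symm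
  obtain ⟨F, h1, h2⟩ := z {F | ¬ PX F R} (fun c a b y d => ⟨sInf c, fun ⟨g, e1, e2⟩ => by
    rw [sInf_eq_iInf, Filter.Eventually, mem_biInf_of_directed (f := fun a => a)
      (fun x a y c => (b.total a c).elim (fun e => ⟨x, a, le_rfl, e⟩) fun e => ⟨y, c, e, le_rfl⟩) ⟨y, d⟩] at e2
    obtain ⟨F, e3, e4⟩ := e2
    exact a e3 ⟨g, e1, e4⟩, fun z e => sInf_le e⟩) G h
  · refine ⟨F, h1, ⟨⟨fun e => h2.1 ⟨_, Partrec.none, e ▸ eventually_bot⟩⟩, fun f ⟨g, a1, a2⟩ =>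
      by_contra fun e => ?_⟩, h2.1⟩
    have k : ∀ S : Set ℕ, S ∉ F → PX (F ⊓ 𝓟 S) R := fun S a =>
      by_contra fun b => a (le_principal_iff.1 ((h2.2 b inf_le_left).trans inf_le_right))
    obtain ⟨g0, b1, b2⟩ := k {x | f x = 0} fun a => e (Or.inl a)
    obtain ⟨g1, c1, c2⟩ := k {x | f x ≠ 0} fun a => e (Or.inr a)
    refine h2.1 ⟨fun x => (g x).bind fun y => cond (decide (y = 0)) (g0 x) (g1 x), a1.bind
      (Partrec.cond (Primrec.eq.comp .snd (.const 0)).decide.to_comp (b1.comp .fst) (c1.comp .fst)).to₂, ?_⟩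
    rw [eventually_inf_principal] at b2 c2
    filter_upwards [a2, b2, c2] with x ⟨_, d1, d2⟩ d3 d4
    by_cases e : f x = 0
    · exact (d3 e).imp fun n d => ⟨Part.mem_bind (d2 ▸ d1) (by simpa [e] using d.1), d.2⟩
    · exact (d4 e).imp fun n d => ⟨Part.mem_bind (d2 ▸ d1) (by simpa [e] using d.1), d.2⟩

end

def π (x : ℕ) : ℕ := x.unpair.1

theorem pr_π (n : ℕ) : Primrec π^[n] := by
  induction n with
  | zero => exact .id
  | succ n ih => exact ih.comp (Bsig.pr_l .id)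

@[ext] structure Nd where
  n : ℕ
  F : ℕ → Filter ℕ
  dec : ∀ j ≤ n, Dec (F j)
  tn : ∀ j < n, Tendsto π (F (j + 1)) (F j)
  big : F 0 ≤ atTop
  bot : ∀ j, n < j → F j = ⊥

instance : PartialOrder Nd where
  le k l := k.n ≤ l.n ∧ ∀ j ≤ k.n, l.F j = k.F j
  le_refl _ := ⟨le_rfl, fun _ _ => rfl⟩
  le_trans _ _ _ a b := ⟨a.1.trans b.1, fun j e => (b.2 j (e.trans a.1)).trans (a.2 j e)⟩
  le_antisymm k l a b := Nd.ext (a.1.antisymm b.1) (funext fun j => (le_or_gt j k.n).elim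
    (fun e => (a.2 j e).symm) fun e => (k.bot j e).trans (l.bot j (b.1.trans_lt e)).symm)

def Nd.top (k : Nd) : Filter ℕ := k.F k.n

theorem Nd.d (k : Nd) : Dec k.top := k.dec _ le_rfl

instance (k : Nd) : k.top.NeBot := k.d.1

def upx (k l : Nd) : ℕ → ℕ := π^[l.n - k.n]

theorem Nd.tend (k : Nd) {i j : ℕ} (a : i ≤ j) : j ≤ k.n → Tendsto π^[j - i] (k.F j) (k.F i) := by
  induction a with
  | refl => exact fun _ => by simpa using tendsto_id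
  | @step j a ih =>
    intro b
    rw [Nat.succ_sub a, Function.iterate_succ]
    exact (ih (by omega)).comp (k.tn j b)

theorem tend {k l : Nd} (h : k ≤ l) : Tendsto (upx k l) l.top k.top := by
  have := l.tend h.1 le_rfl
  rwa [h.2 _ le_rfl] at this

theorem upx_upx {j k l : Nd} (a : j ≤ k) (b : k ≤ l) (x : ℕ) : upx j k (upx k l x) = upx j l x := by
  rw [upx, upx, upx, ← Function.iterate_add_apply]
  have := a.1
  have := b.1
  rw [show k.n - j.n + (l.n - k.n) = l.n - j.n by omega]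

theorem upx_self (k : Nd) (x : ℕ) : upx k k x = x := by simp [upx]

theorem tree {i j k : Nd} (a : i ≤ k) (b : j ≤ k) : i ≤ j ∨ j ≤ i := (le_total i.n j.n).imp
  (fun e => ⟨e, fun m c => (b.2 m (c.trans e)).symm.trans (a.2 m c)⟩)
  fun e => ⟨e, fun m c => (a.2 m (c.trans e)).symm.trans (b.2 m c)⟩

theorem ex_succ (k : Nd) {F : Filter ℕ} (h : Dec F) (t : Tendsto π F k.top) :
    ∃ l, k ≤ l ∧ l.top = F ∧ upx k l = π := by
  refine ⟨⟨k.n + 1, Function.update k.F (k.n + 1) F, fun j a => ?_, fun j a => ?_, ?_, fun j a => ?_⟩,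
    ⟨k.n.le_succ, fun j a => Function.update_of_ne (by omega) _ _⟩, Function.update_self _ _ _,
    by simp [upx]⟩
  · rcases a.eq_or_lt with rfl | a
    · rwa [Function.update_self]
    · rw [Function.update_of_ne a.ne]
      exact k.dec j (by omega)
  · rw [Function.update_of_ne a.ne]
    rcases (Nat.lt_succ_iff.1 a).eq_or_lt with rfl | a
    · rwa [Function.update_self]
    · rw [Function.update_of_ne (by omega)]
      exact k.tn j a
  · rw [Function.update_of_ne (by omega)]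
    exact k.big
  · rw [Function.update_of_ne a.ne']
    exact k.bot j (by omega)

theorem PX.up {k l : Nd} (h : k ≤ l) {R : ℕ → ℕ → Prop} (a : PX k.top R) :
    PX l.top fun x => R (upx k l x) := a.pull (pr_π _) (tend h)

theorem inj {k l : Nd} (h : k ≤ l) {f g : ℕ → ℕ} (a : PR k.top f) (b : PR k.top g)
    (e : ∀ᶠ x in l.top, f (upx k l x) = g (upx k l x)) : ∀ᶠ x in k.top, f x = g x :=
  (k.d.rel Primrec.eq a b).resolve_right fun c => (e.and (tend h c)).exists.elim fun _ d => d.2 d.1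

def Rl (p q : Nd × (ℕ → ℕ)) : Prop := ∃ j h, PR j.top h ∧ j ≤ p.1 ∧ j ≤ q.1 ∧
  (∀ᶠ x in p.1.top, h (upx j p.1 x) = p.2 x) ∧ ∀ᶠ x in q.1.top, h (upx j q.1 x) = q.2 x

theorem Rl.symm {p q : Nd × (ℕ → ℕ)} : Rl p q → Rl q p
  | ⟨j, h, a, b, c, d, e⟩ => ⟨j, h, a, c, b, e, d⟩

theorem Rl.trans {p q r : Nd × (ℕ → ℕ)} (a : Rl p q) (b : Rl q r) : Rl p r := by
  have k : ∀ {p q r : Nd × (ℕ → ℕ)} {j j' h h'}, j ≤ j' → PR j.top h → PR j'.top h' → j ≤ p.1 → j' ≤ q.1 →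
      j' ≤ r.1 → (∀ᶠ x in p.1.top, h (upx j p.1 x) = p.2 x) → (∀ᶠ x in q.1.top, h (upx j q.1 x) = q.2 x) →
      (∀ᶠ x in q.1.top, h' (upx j' q.1 x) = q.2 x) → (∀ᶠ x in r.1.top, h' (upx j' r.1 x) = r.2 x) →
      Rl p r := fun {p q r j j' h h'} a1 a2 a3 a4 a5 a6 a7 a8 a9 a10 =>
    ⟨j, h, a2, a4, a1.trans a6, a7, (a10.and (tend a6 (inj a5 (PX.up a1 a2) a3 ((a8.and a9).mono
      fun x e => by rw [upx_upx a1 a5, e.1, e.2])))).mono fun x e => by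
        rw [← e.1, ← upx_upx a1 a6]
        exact e.2⟩
  obtain ⟨j, h, a1, a2, a3, a4, a5⟩ := a
  obtain ⟨j', h', b1, b2, b3, b4, b5⟩ := b
  exact (tree a3 b2).elim (fun e => k e a1 b1 a2 b2 b3 a4 a5 b4 b5)
    fun e => (k e b1 a1 b3 a3 a2 b5 b4 a5 a4).symm

abbrev DD : Type := Set (Nd × (ℕ → ℕ))

def ι (k : Nd) (f : ℕ → ℕ) : DD := {q | Rl (k, f) q}

theorem ι_eq {p q : Nd × (ℕ → ℕ)} (h : Rl p q) : ι p.1 p.2 = ι q.1 q.2 :=
  Set.ext fun _ => ⟨h.symm.trans, h.trans⟩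

theorem ι_up {k l : Nd} (h : k ≤ l) {f : ℕ → ℕ} (a : PR k.top f) : ι k f = ι l fun x => f (upx k l x) :=
  ι_eq (p := (k, f)) (q := (l, _)) ⟨k, f, a, le_rfl, h, Eventually.of_forall fun x => by rw [upx_self],
    Eventually.of_forall fun _ => rfl⟩

theorem ι_inj {k : Nd} {f g : ℕ → ℕ} (a : PR k.top f) : ι k f = ι k g ↔ ∀ᶠ x in k.top, f x = g x := by
  have r : ∀ g, (∀ᶠ x in k.top, f x = g x) → Rl (k, f) (k, g) := fun g e => ⟨k, f, a, le_rfl, le_rfl,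
    Eventually.of_forall fun x => by rw [upx_self], e.mono fun x e => by rwa [upx_self]⟩
  refine ⟨fun e => ?_, fun e => ι_eq (r g e)⟩
  obtain ⟨j, h, -, -, -, b, c⟩ : (k, f) ∈ ι k g := e ▸ r f (Eventually.of_forall fun _ => rfl)
  exact (b.and c).mono fun _ e => e.2.symm.trans e.1

def dom (k : Nd) : Set DD := {d | ∃ f, PR k.top f ∧ ι k f = d}

open Classical in
noncomputable def rep (k : Nd) (d : DD) : ℕ → ℕ := if h : d ∈ dom k then h.choose else fun _ => 0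

theorem rep_pr (k : Nd) (d : DD) : PR k.top (rep k d) := by
  unfold rep
  split_ifs with h
  exacts [h.choose_spec.1, pr_of (.const 0)]

theorem ι_rep {k : Nd} {d : DD} (h : d ∈ dom k) : ι k (rep k d) = d := by
  rw [rep, dif_pos h]
  exact h.choose_spec.2

theorem rep_ι {k : Nd} {f : ℕ → ℕ} (a : PR k.top f) : ∀ᶠ x in k.top, rep k (ι k f) x = f x :=
  (ι_inj (rep_pr _ _)).1 (ι_rep ⟨f, a, rfl⟩)

theorem eq_iff {k : Nd} {d e : DD} (a : d ∈ dom k) (b : e ∈ dom k) :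
    d = e ↔ ∀ᶠ x in k.top, rep k d x = rep k e x := by
  rw [← ι_inj (rep_pr _ _), ι_rep a, ι_rep b]

theorem dom_up {k l : Nd} (h : k ≤ l) {d : DD} (a : d ∈ dom k) :
    d ∈ dom l ∧ ∀ᶠ x in l.top, rep l d x = rep k d (upx k l x) := by
  have e := (ι_up h (rep_pr k d)).symm.trans (ι_rep a)
  have b : d ∈ dom l := ⟨_, PX.up h (rep_pr k d), e⟩
  exact ⟨b, (ι_inj (rep_pr _ _)).1 ((ι_rep b).trans e.symm)⟩

theorem ex_dom {k : Nd} {f : ℕ → ℕ} (a : PR k.top f) : ∃ d ∈ dom k, ∀ᶠ x in k.top, rep k d x = f x :=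
  ⟨_, ⟨f, a, rfl⟩, rep_ι a⟩

noncomputable def AA : Fam Nd DD where
  dom := dom
  zero k := ι k fun _ => 0
  succ k d := ι k fun x => rep k d x + 1
  add k d e := ι k fun x => rep k d x + rep k e x
  mul k d e := ι k fun x => rep k d x * rep k e x
  zero_mem _ := ⟨_, pr_of (.const 0), rfl⟩
  succ_mem _ _ _ := ⟨_, (rep_pr _ _).one .succ, rfl⟩
  add_mem _ _ _ _ _ := ⟨_, (rep_pr _ _).two Primrec.nat_add (rep_pr _ _), rfl⟩
  mul_mem _ _ _ _ _ := ⟨_, (rep_pr _ _).two Primrec.nat_mul (rep_pr _ _), rfl⟩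

def ev0 (v : ℕ → ℕ) : Tm → ℕ
  | .var i => v i
  | .zero => 0
  | .succ t => ev0 v t + 1
  | .add s t => ev0 v s + ev0 v t
  | .mul s t => ev0 v s * ev0 v t

def Val (k : Nd) (v : ℕ → DD) (u : ℕ → ℕ → ℕ) : Prop :=
  ∀ i, v i ∈ dom k ∧ ∀ᶠ x in k.top, rep k (v i) x = u x i

variable {k l : Nd} {v : ℕ → DD} {u : ℕ → ℕ → ℕ}

theorem val_of (h : ∀ i, v i ∈ dom k) : Val k v fun x i => rep k (v i) x :=
  fun i => ⟨h i, Eventually.of_forall fun _ => rfl⟩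

theorem Val.up (h : Val k v u) (e : k ≤ l) : Val l v fun x => u (upx k l x) := fun i =>
  ⟨(dom_up e (h i).1).1, ((dom_up e (h i).1).2.and (tend e (h i).2)).mono fun _ a => a.1.trans a.2⟩

theorem Val.cons (h : Val k v u) {d : DD} {f : ℕ → ℕ} (a : d ∈ dom k)
    (b : ∀ᶠ x in k.top, rep k d x = f x) : Val k (cons d v) fun x => Bsig.cons (f x) (u x)
  | 0 => ⟨a, b⟩
  | i + 1 => h i

theorem Val.tm (h : Val k v u) (t : Tm) :
    AA.ev k v t ∈ dom k ∧ ∀ᶠ x in k.top, rep k (AA.ev k v t) x = ev0 (u x) t := by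
  induction t with
  | var i => exact h i
  | zero => exact ⟨AA.zero_mem k, rep_ι (pr_of (.const 0))⟩
  | succ t a => exact ⟨AA.succ_mem k _ a.1, ((rep_ι ((rep_pr _ _).one .succ)).and a.2).mono
      fun x e => e.1.trans (congrArg _ e.2)⟩
  | add s t a b => exact ⟨AA.add_mem k _ a.1 _ b.1, ((rep_ι ((rep_pr _ _).two Primrec.nat_add
      (rep_pr _ _))).and (a.2.and b.2)).mono fun x e => e.1.trans (congrArg₂ _ e.2.1 e.2.2)⟩
  | mul s t a b => exact ⟨AA.mul_mem k _ a.1 _ b.1, ((rep_ι ((rep_pr _ _).two Primrec.nat_mul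
      (rep_pr _ _))).and (a.2.and b.2)).mono fun x e => e.1.trans (congrArg₂ _ e.2.1 e.2.2)⟩

theorem Val.eq (h : Val k v u) (s t : Tm) :
    AA.ev k v s = AA.ev k v t ↔ ∀ᶠ x in k.top, ev0 (u x) s = ev0 (u x) t :=
  (eq_iff (h.tm s).1 (h.tm t).1).trans (eventually_congr (((h.tm s).2.and (h.tm t).2).mono
    fun x e => by rw [e.1, e.2]))

theorem kripke : AA.IsKripke := fun _ _ e => ⟨fun _ a => (dom_up e a).1, fun _ h s t a =>
  (((val_of h).up e).eq s t).2 (tend e (((val_of h).eq s t).1 a))⟩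

end Pool.Agent.H40.Ha
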