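import Pool.Agent.H40.Ha1

set_option autoImplicit false

namespace Pool.Agent.H40.Ha

open Filter Nat.Partrec
open Bsig (pr_l pr_r)

def ap (e x : ℕ) : Part ℕ := (Denumerable.ofNat Code e).eval x

theorem pr_ap : Partrec₂ ap := (Code.eval_part.comp ((Computable.ofNat _).comp .fst) .snd).to₂

theorem lam {g : ℕ →. ℕ} (h : Partrec g) : ∃ s, Primrec s ∧ ∀ x m, ap (s x) m = g (Nat.pair x m) := by
  obtain ⟨c, rfl⟩ := Code.exists_code.1 (Partrec.nat_iff.1 h)
  exact ⟨fun x => Encodable.encode (c.curry x), Primrec.encode.comp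
    (Code.primrec₂_curry.comp (.const c) .id), fun x m => by
      rw [ap, Denumerable.ofNat_encode, Code.eval_curry]⟩

theorem lam0 {g : ℕ →. ℕ} (h : Partrec g) : ∃ c, ∀ m, ap c m = g m := by
  obtain ⟨c, rfl⟩ := Code.exists_code.1 (Partrec.nat_iff.1 h)
  exact ⟨Encodable.encode c, fun m => by rw [ap, Denumerable.ofNat_encode]⟩

def Rz : Fm → (ℕ → ℕ) → ℕ → Prop
  | .bot, _, _ => False
  | .eq s t, v, _ => ev0 v s = ev0 v t
  | .and φ ψ, v, n => Rz φ v n.unpair.1 ∧ Rz ψ v n.unpair.2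
  | .or φ ψ, v, n => (n.unpair.1 = 0 ∧ Rz φ v n.unpair.2) ∨ (n.unpair.1 ≠ 0 ∧ Rz ψ v n.unpair.2)
  | .imp φ ψ, v, n => ∀ m, Rz φ v m → ∃ y ∈ ap n m, Rz ψ v y
  | .all φ, v, n => ∀ m, ∃ y ∈ ap n m, Rz φ (Bsig.cons m v) y
  | .ex φ, v, n => Rz φ (Bsig.cons n.unpair.1 v) n.unpair.2

theorem step (k : Nd) {S R : ℕ → ℕ → Prop}
    (h : ¬ PX k.top fun x n => ∀ m, S x m → ∃ y ∈ ap n m, R (Nat.pair x m) y) :
    ∃ l, k ≤ l ∧ upx k l = π ∧ (∀ᶠ x in l.top, S (π x) x.unpair.2) ∧ ¬ PX l.top R := by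
  obtain ⟨F, h1, h2, h3⟩ := extend (G := comap π k.top ⊓ 𝓟 {x | S (π x) x.unpair.2}) (R := R)
    fun ⟨g, a, b⟩ => h (by
      obtain ⟨s, c, d⟩ := lam a
      rw [eventually_inf_principal, eventually_comap] at b
      exact (pr_of c).px (b.mono fun x e m a => d x m ▸ e _ (by simp [π]) (by simpa [π] using a)))
  obtain ⟨l, a, b, c⟩ := ex_succ k h2 (tendsto_iff_comap.2 (h1.trans inf_le_left))
  exact ⟨l, a, c, b ▸ le_principal_iff.1 (h1.trans inf_le_right), b ▸ h3⟩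

theorem truth (φ : Fm) : ∀ {k : Nd} {v : ℕ → DD} {u : ℕ → ℕ → ℕ}, Val k v u →
    (AA.Forces φ k v ↔ PX k.top fun x n => Rz φ (u x) n) := by
  induction φ with
  | bot => exact fun _ => iff_of_false id fun ⟨_, _, a⟩ => a.exists.elim fun _ ⟨_, _, b⟩ => b
  | eq s t => exact fun h => (h.eq s t).trans ⟨fun e => (pr_of (.const 0)).px e, fun ⟨_, _, a⟩ =>
      a.mono fun _ ⟨_, _, b⟩ => b⟩
  | and φ ψ a b =>
    refine fun h => (and_congr (a h) (b h)).trans ⟨fun ⟨c, d⟩ => ?_, fun c => ?_⟩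
    · obtain ⟨f, c1, c2⟩ := c.ex
      obtain ⟨g, d1, d2⟩ := d.ex
      exact (c1.two Primrec₂.natPair d1).px ((c2.and d2).mono fun x e => by simpa [Rz] using e)
    · obtain ⟨f, c1, c2⟩ := c.ex
      exact ⟨(c1.one (pr_l .id)).px (c2.mono fun _ => And.left),
        (c1.one (pr_r .id)).px (c2.mono fun _ => And.right)⟩
  | or φ ψ a b =>
    refine fun h => (or_congr (a h) (b h)).trans ⟨fun c => c.elim (fun c => ?_) fun c => ?_, fun c => ?_⟩
    · obtain ⟨f, c1, c2⟩ := c.ex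
      exact ((pr_of (.const 0)).two Primrec₂.natPair c1).px (c2.mono fun x e => by simpa [Rz] using e)
    · obtain ⟨f, c1, c2⟩ := c.ex
      exact ((pr_of (.const 1)).two Primrec₂.natPair c1).px (c2.mono fun x e => by simpa [Rz] using e)
    · obtain ⟨f, c1, c2⟩ := c.ex
      exact ((Nd.d _).2 _ (c1.one (pr_l .id))).imp (fun e => (c1.one (pr_r .id)).px ((c2.and e).mono
        fun _ d => (d.1.resolve_right fun b => b.1 d.2).2)) fun e => (c1.one (pr_r .id)).px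
          ((c2.and e).mono fun _ ⟨d, e⟩ => (d.resolve_left fun b => e b.1).2)
  | imp φ ψ a b =>
    intro k v u h
    refine ⟨fun c => by_contra fun d => ?_, fun c l e d => ?_⟩
    · obtain ⟨l, c1, c2, c3, c4⟩ := step k (S := fun x => Rz φ (u x)) (R := fun x => Rz ψ (u (π x)))
        (by simpa only [π, Nat.unpair_pair, Rz] using d)
      exact c4 (c2 ▸ (b (h.up c1)).1 (c l c1 ((a (h.up c1)).2 ((pr_of (pr_r .id)).px (c2 ▸ c3)))))
    · obtain ⟨f, c1, c2⟩ := (c.up e).ex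
      obtain ⟨g, d1, d2⟩ := ((a (h.up e)).1 d).ex
      exact (b (h.up e)).2 (c1.bind pr_ap d1 ((c2.and d2).mono fun _ e => e.1 _ e.2))
  | all φ a =>
    intro k v u h
    refine ⟨fun c => by_contra fun d => ?_, fun c l e d hd => ?_⟩
    · obtain ⟨l, c1, c2, -, c4⟩ := step k (S := fun _ _ => True)
        (R := fun x => Rz φ (Bsig.cons x.unpair.2 (u (π x))))
        (by simpa only [π, Nat.unpair_pair, true_imp_iff, Rz] using d)
      obtain ⟨e, e1, e2⟩ := ex_dom (k := l) (pr_of (pr_r .id))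
      exact c4 (c2 ▸ (a ((h.up c1).cons e1 e2)).1 (c l c1 e e1))
    · obtain ⟨f, c1, c2⟩ := (c.up e).ex
      exact (a ((h.up e).cons hd (Eventually.of_forall fun _ => rfl))).2
        (c1.bind pr_ap (rep_pr l d) (c2.mono fun _ e => e _))
  | ex φ a =>
    intro k v u h
    refine ⟨fun ⟨d, c1, c2⟩ => ?_, fun c => ?_⟩
    · obtain ⟨f, c3, c4⟩ := ((a (h.cons c1 (Eventually.of_forall fun _ => rfl))).1 c2).ex
      exact ((rep_pr k d).two Primrec₂.natPair c3).px (c4.mono fun x e => by simpa [Rz] using e)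
    · obtain ⟨f, c1, c2⟩ := c.ex
      obtain ⟨d, c3, c4⟩ := ex_dom (c1.one (pr_l .id))
      exact ⟨d, c3, (a (h.cons c3 c4)).2 ((c1.one (pr_r .id)).px c2)⟩

theorem ev0_sub (v : ℕ → ℕ) (σ : ℕ → Tm) (t : Tm) : ev0 v (t.sub σ) = ev0 (fun i => ev0 v (σ i)) t := by
  induction t <;> simp only [Tm.sub, ev0, *]

theorem ev0_up (a : ℕ) (v : ℕ → ℕ) (σ : ℕ → Tm) :
    (fun i => ev0 (Bsig.cons a v) (up σ i)) = Bsig.cons a fun i => ev0 v (σ i) :=
  funext (by
    rintro (_ | i)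
    exacts [rfl, ev0_sub _ _ _])

theorem rz_sub (φ : Fm) : ∀ σ v n, Rz (φ.sub σ) v n ↔ Rz φ (fun i => ev0 v (σ i)) n := by
  induction φ <;> intros <;> simp only [Fm.sub, Rz, ev0_sub, ev0_up, *]

theorem rz_ax {φ : Fm} (h : Ax φ) : ∃ n, ∀ v, Rz φ v n := by
  obtain ⟨z, hz⟩ := lam0 (g := fun _ => Part.some 0) (Partrec.const' _)
  cases h with
  | succ_ne => exact ⟨0, fun _ _ e => (Nat.succ_ne_zero _ e).elim⟩
  | succ_inj => exact ⟨z, fun _ m e => ⟨0, hz m ▸ Part.mem_some 0, Nat.succ_injective e⟩⟩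
  | add_zero => exact ⟨0, fun _ => rfl⟩
  | add_succ => exact ⟨0, fun _ => rfl⟩
  | mul_zero => exact ⟨0, fun _ => rfl⟩
  | mul_succ => exact ⟨0, fun _ => rfl⟩
  | ind φ =>
    obtain ⟨s, h1, h2⟩ := lam (Partrec.nat_rec (f := fun x : ℕ => x.unpair.2)
      (g := fun x => Part.some x.unpair.1.unpair.1)
      (h := fun x p => (ap x.unpair.1.unpair.2 p.1).bind fun e => ap e p.2) (pr_r .id).to_comp
      (pr_l (pr_l .id)).to_comp ((pr_ap.comp (pr_r (pr_l .fst)).to_comp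
        (Computable.fst.comp .snd)).bind (pr_ap.comp .snd
          (Computable.snd.comp (Computable.snd.comp .fst))).to₂).to₂)
    obtain ⟨c, hc⟩ := lam0 h1.to_comp
    refine ⟨c, fun v e ⟨a, b⟩ => ⟨s e, hc e ▸ Part.mem_some _, fun m => ?_⟩⟩
    rw [h2]
    simp only [Nat.unpair_pair]
    rw [rz_sub] at a
    induction m with
    | zero => exact ⟨_, Part.mem_some _, (show (fun i => ev0 v (cons Tm.zero Tm.var i)) = Bsig.cons 0 v from
        funext (by rintro (_ | i) <;> rfl)) ▸ a⟩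
    | succ m ih =>
      obtain ⟨y, c1, c2⟩ := ih
      obtain ⟨e', c3, c4⟩ := b m
      obtain ⟨y', c5, c6⟩ := c4 y c2
      rw [rz_sub] at c6
      exact ⟨y', Part.mem_bind c1 (Part.mem_bind c3 c5), (show (fun i => ev0 (Bsig.cons m v)
        (cons (Tm.var 0).succ (fun i => Tm.var (i + 1)) i)) = Bsig.cons (m + 1) v from
        funext (by rintro (_ | i) <;> rfl)) ▸ c6⟩

theorem forces_ax {φ : Fm} (h : Ax φ) (k : Nd) (v : ℕ → DD) (hv : ∀ i, v i ∈ AA.dom k) :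
    AA.Forces φ k v := (rz_ax h).elim fun n e =>
  (truth φ (val_of hv)).2 ((pr_of (.const n)).px (Eventually.of_forall fun _ => e _))

end Pool.Agent.H40.Ha
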