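import Pool.Agent.H40.Ha2

set_option autoImplicit false

namespace Pool.Agent.H40.Ha

open Filter Nat.Partrec
open Bsig (pr_l pr_r pr_pair pr_dec dec dec_pair std Bdd)

section

variable {K D : Type} (A : Fam K D) (k : K)

theorem ev_sub (v : ℕ → D) (σ : ℕ → Tm) (t : Tm) :
    A.ev k v (t.sub σ) = A.ev k (fun i => A.ev k v (σ i)) t := by
  induction t <;> simp only [Tm.sub, Fam.ev, *]

theorem ev_up (a : D) (v : ℕ → D) (σ : ℕ → Tm) :
    (fun i => A.ev k (cons a v) (up σ i)) = cons a fun i => A.ev k v (σ i) :=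
  funext (by
    rintro (_ | i)
    exacts [rfl, ev_sub _ _ _ _ _])

theorem sat_sub (φ : Fm) : ∀ σ v, A.Sat k (φ.sub σ) v ↔ A.Sat k φ fun i => A.ev k v (σ i) := by
  induction φ <;> intros <;> simp only [Fm.sub, Fam.Sat, ev_sub, ev_up, *]

theorem sat_ind {φ : Fm} {v : ℕ → D} (h : A.Sat k (.imp (.and (φ.sub (cons .zero .var))
    (.all (.imp φ (φ.sub (cons (.succ (.var 0)) fun i => .var (i + 1)))))) (.all φ)) v)
    (h0 : A.Sat k φ (cons (A.zero k) v))
    (h1 : ∀ a ∈ A.dom k, A.Sat k φ (cons a v) → A.Sat k φ (cons (A.succ k a) v)) :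
    ∀ a ∈ A.dom k, A.Sat k φ (cons a v) :=
  h ⟨(sat_sub A k φ _ _).2 ((show cons (A.zero k) v = fun i => A.ev k v (cons Tm.zero Tm.var i) from
    funext (by rintro (_ | i) <;> rfl)) ▸ h0), fun a b c => (sat_sub A k φ _ _).2
      ((show cons (A.succ k a) v = fun i => A.ev k (cons a v) (cons (Tm.var 0).succ
        (fun i => Tm.var (i + 1)) i) from funext (by rintro (_ | i) <;> rfl)) ▸ h1 a b c)⟩

end

def trT : Bsig.Tm → Tm
  | .var i => .var i
  | .zero => .zero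
  | .one => .succ .zero
  | .add s t => .add (trT s) (trT t)
  | .mul s t => .mul (trT s) (trT t)

theorem ev_trT (v : ℕ → ℕ) (t : Bsig.Tm) : ev0 v (trT t) = t.ev std v := by
  induction t <;> simp only [trT, ev0, Bsig.Tm.ev, *]

def sh (t : Tm) : Tm := t.sub fun i => .var (i + 1)

theorem ev_sh (a : ℕ) (v : ℕ → ℕ) (t : Tm) : ev0 (Bsig.cons a v) (sh t) = ev0 v t := ev0_sub _ _ _

def ltF (s t : Tm) : Fm := .ex (.eq (.add (sh s) (.succ (.var 0))) (sh t))

def tr : Bsig.Fm → Fm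
  | .eq s t => .eq (trT s) (trT t)
  | .lt s t => ltF (trT s) (trT t)
  | .neg φ => .imp (tr φ) .bot
  | .and φ ψ => .and (tr φ) (tr ψ)
  | .ball t φ => .all (.imp (ltF (.var 0) (sh (trT t))) (tr φ))
  | _ => .imp .bot .bot

variable {k : Nd} {v : ℕ → DD} {u : ℕ → ℕ → ℕ}

theorem rfl_ae {f : ℕ → ℕ} : ∀ᶠ x in k.top, f x = f x := Eventually.of_forall fun _ => rfl

theorem Val.lt (h : Val k v u) (s t : Tm) :
    AA.Sat k (ltF s t) v ↔ ∀ᶠ x in k.top, ev0 (u x) s < ev0 (u x) t := by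
  refine ⟨fun ⟨d, a, b⟩ => (((h.cons a rfl_ae).eq _ _).1 b).mono fun x e => ?_, fun e => ?_⟩
  · simp only [ev0, ev_sh] at e
    omega
  obtain ⟨d, a, b⟩ := ex_dom (((rep_pr k (AA.ev k v t)).two Primrec.nat_sub
    (rep_pr k (AA.ev k v s))).one .pred)
  refine ⟨d, a, ((h.cons a b).eq _ _).2 ?_⟩
  filter_upwards [e, (h.tm s).2, (h.tm t).2] with x c1 c2 c3
  simp only [ev0, ev_sh, Bsig.cons, c2, c3, Nat.pred_eq_sub_one]
  omega

theorem Val.code (n : ℕ) : ∀ {v u}, Val k v u →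
    ∃ d, PR k.top d ∧ ∀ᶠ x in k.top, ∀ i < n, dec (d x) i = u x i := by
  induction n with
  | zero => exact fun _ => ⟨_, pr_of (.const 0), by simp⟩
  | succ n ih =>
    intro v u h
    obtain ⟨d, h1, h2⟩ := ih (v := fun i => v (i + 1)) (u := fun x i => u x (i + 1)) fun i => h _
    refine ⟨_, (rep_pr k (v 0)).two Primrec₂.natPair h1, (h2.and (h 0).2).mono fun m e => ?_⟩
    rw [dec_pair]
    rintro (_ | i) hi
    exacts [e.2, e.1 i (by omega)]

abbrev S0 (θ : Bsig.Fm) (w : ℕ → ℕ) : Prop := Bsig.Sat std θ w fun _ => Set.univ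

theorem Val.dcd (h : Val k v u) {θ : Bsig.Fm} (hθ : Bdd θ) :
    (∀ᶠ x in k.top, S0 θ (u x)) ∨ ∀ᶠ x in k.top, ¬ S0 θ (u x) := by
  obtain ⟨d, h1, h2⟩ := h.code θ.sup
  have e : ∀ᶠ x in k.top, (S0 θ (dec (d x)) ↔ S0 θ (u x)) := h2.mono fun _ a =>
    Bsig.sat_congr θ a fun _ _ => rfl
  exact (k.d.rel (Q := fun a _ => S0 θ (dec a)) ((Bsig.pr_sat hθ).comp .fst).primrecRel h1 h1).imp
    (fun a => (a.and e).mono fun _ b => b.2.1 b.1) fun a => (a.and e).mono fun _ b c => b.1 (b.2.2 c)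

theorem Val.wit (h : Val k v u) {θ : Bsig.Fm} (hθ : Bdd θ)
    (a : ∀ᶠ x in k.top, ∃ w, S0 θ (Bsig.cons w (u x))) :
    ∃ d ∈ dom k, ∀ᶠ x in k.top, S0 θ (Bsig.cons (rep k d x) (u x)) := by
  obtain ⟨d, h1, h2⟩ := h.code θ.sup
  have e : ∀ᶠ x in k.top, ∀ w, (S0 θ (dec (Nat.pair w (d x))) ↔ S0 θ (Bsig.cons w (u x))) :=
    h2.mono fun _ a w => dec_pair _ _ ▸ Bsig.sat_congr θ (Bsig.cons_congr a w) fun _ _ => rfl
  obtain ⟨g, b1, b2⟩ := h1.min ((Bsig.pr_sat hθ).comp (pr_pair .snd .fst)).primrecRel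
    ((a.and e).mono fun _ b => b.1.imp fun w => (b.2 w).2)
  obtain ⟨c, b3, b4⟩ := ex_dom b1
  exact ⟨c, b3, (b2.and (e.and b4)).mono fun _ b => b.2.2 ▸ (b.2.1 _).1 b.1⟩

def shB : Bsig.Tm → Bsig.Tm
  | .var i => .var (i + 1)
  | .zero => .zero
  | .one => .one
  | .add s t => .add (shB s) (shB t)
  | .mul s t => .mul (shB s) (shB t)

theorem ev_shB (a : ℕ) (v : ℕ → ℕ) (t : Bsig.Tm) : (shB t).ev std (Bsig.cons a v) = t.ev std v := by
  induction t <;> simp only [shB, Bsig.Tm.ev, Bsig.cons, *]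

theorem los {θ : Bsig.Fm} (hθ : Bdd θ) : ∀ {v u}, Val k v u →
    (AA.Sat k (tr θ) v ↔ ∀ᶠ x in k.top, S0 θ (u x)) := by
  induction hθ with
  | eq s t => exact fun h => (h.eq _ _).trans (by simp only [ev_trT, Bsig.Sat])
  | lt s t => exact fun h => (h.lt _ _).trans (by simp only [ev_trT, Bsig.Sat])
  | mem s t => exact fun h => iff_of_true id (Eventually.of_forall fun _ => trivial)
  | neg a b => exact fun h => ⟨fun c => (h.dcd a).resolve_left fun d => c ((b h).2 d),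
      fun c d => (c.and ((b h).1 d)).exists.elim fun _ e => e.1 e.2⟩
  | and _ _ a b => exact fun h => (and_congr (a h) (b h)).trans eventually_and.symm
  | @ball t φ a b =>
    intro v u h
    refine ⟨fun c => (h.dcd (a.ball t)).resolve_right fun d => ?_, fun c d e l => (b (h.cons e rfl_ae)).2
      ((c.and (((h.cons e rfl_ae).lt _ _).1 l)).mono fun x m => m.1 _
        (by simpa only [ev_sh, ev_trT, ev0, Bsig.cons] using m.2))⟩
    obtain ⟨y, e1, e2⟩ := h.wit (.and (.lt (.var 0) (shB t)) a.neg) (d.mono fun x m => by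
      simp only [Bsig.Sat, not_forall] at m
      exact m.imp fun w ⟨m, l⟩ => ⟨m.trans_eq (ev_shB w _ t).symm, l⟩)
    exact (((b (h.cons e1 rfl_ae)).1 (c y e1 (((h.cons e1 rfl_ae).lt _ _).2 (e2.mono fun x m => by
      rw [ev_sh, ev_trT]
      exact m.1.trans_eq (ev_shB _ _ t))))).and
        e2).exists.elim fun _ m => m.2.2 m.1

theorem big (k : Nd) (c : ℕ) : ∀ᶠ x in k.top, c < x := by
  have : ∀ n x, π^[n] x ≤ x := fun n => by
    induction n with
    | zero => exact fun _ => le_rfl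
    | succ n ih => exact fun x => (ih _).trans (Nat.unpair_left_le x)
  exact Eventually.mono (k.tend k.n.zero_le le_rfl (k.big (eventually_gt_atTop c)))
    fun x e => lt_of_lt_of_le e (this _ x)

def EV (c a z : ℕ) : Prop := ∃ s, Bsig.ev s (Nat.pair c a) = some z

theorem ev_iff {c a z : ℕ} : EV c a z ↔ z ∈ ap c a := by
  simp only [EV, Bsig.ev, Nat.unpair_pair]
  exact Code.evaln_complete.symm

theorem not_pa (k : Nd) : ¬ ∀ φ, Ax φ → ∀ v, (∀ i, v i ∈ AA.dom k) → AA.Sat k φ v := fun h => by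
  obtain ⟨Q, h1, h2⟩ : Bsig.S1 fun v => EV (v 1) (v 4) (v 0) := .ex (Bsig.s1_five
    (P := fun s c a z _ => Bsig.ev s (Nat.pair c a) = some z) (Primrec.eq.comp (Bsig.pr_ev (pr_dec .id 0)
      (pr_pair (pr_dec .id 1) (pr_dec .id 2))) (Primrec.option_some.comp (pr_dec .id 3))) 0 2 5 1 0)
  obtain ⟨θ, h3, -, h4⟩ := h1 id
  obtain ⟨a, a1, a2⟩ := ex_dom (k := k) (pr_of .id)
  have hv : Val k (fun _ => a) fun x _ => x := fun _ => ⟨a1, a2⟩
  have key : ∀ b ∈ dom k, AA.Sat k (.ex (.all (.imp (ltF (.var 0) (.var 2))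
      (.all (.imp (.ex (tr θ)) (ltF (.var 0) (.var 2))))))) (cons b fun _ => a) ↔ ∃ y ∈ dom k, ∀ c ∈ dom k,
      (∀ᶠ x in k.top, rep k c x < rep k b x) → ∀ z ∈ dom k, (∀ᶠ x in k.top, rep k z x ∈ ap (rep k c x) x) →
        ∀ᶠ x in k.top, rep k z x < rep k y x := fun b hb => exists_congr fun y => and_congr_right fun hy =>
    forall₂_congr fun c hc => by
      have e := ((hv.cons hb rfl_ae).cons hy rfl_ae).cons hc rfl_ae
      refine imp_congr (e.lt _ _) (forall₂_congr fun z hz => ?_)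
      have e := e.cons hz rfl_ae
      refine imp_congr ⟨fun ⟨w, c1, c2⟩ => ((los h3 (e.cons c1 rfl_ae)).1 c2).mono fun x m =>
        ev_iff.1 ((h2 _).2 ⟨_, (h4 _ _).1 m⟩), fun m => ?_⟩ (e.lt _ _)
      exact (e.wit h3 (m.mono fun x m => ((h2 _).1 (by exact ev_iff.2 m)).imp fun w =>
        (h4 _ _).2)).imp fun w m => ⟨m.1, (los h3 (e.cons m.1 rfl_ae)).2 m.2⟩
  obtain ⟨y, b1, b2⟩ := (key a a1).1 (sat_ind AA k (h _ (.ind _) _ fun _ => a1)
    ((key _ (AA.zero_mem k)).2 ⟨a, a1, fun c _ e => ((e.and (rep_ι (pr_of (.const 0)))).exists.elim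
      fun x m => (Nat.not_lt_zero _ (m.1.trans_eq m.2)).elim)⟩) (fun b hb e => by
    obtain ⟨y, c1, c2⟩ := (key b hb).1 e
    have c3 : ∀ c, (∀ᶠ x in k.top, rep k c x < rep k (AA.succ k b) x) →
        (∀ᶠ x in k.top, rep k c x < rep k b x) ∨ ∀ᶠ x in k.top, rep k c x = rep k b x := fun c m =>
      (k.d.rel Primrec.nat_lt (rep_pr k c) (rep_pr k b)).imp_right fun l =>
        (m.and (l.and (rep_ι ((rep_pr k b).one .succ)))).mono fun x m => by
          have := m.1.trans_eq m.2.2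
          omega
    refine (key _ (AA.succ_mem k b hb)).2 ?_
    by_cases e : ∃ z ∈ dom k, ∀ᶠ x in k.top, rep k z x ∈ ap (rep k b x) x
    · obtain ⟨z₀, -, d2⟩ := e
      obtain ⟨y', d3, d4⟩ := ex_dom (((rep_pr k y).two Primrec.nat_add (rep_pr k z₀)).one .succ)
      refine ⟨y', d3, fun c d5 d6 z d7 d8 => (c3 c d6).elim (fun m => ((c2 c d5 m z d7 d8).and d4).mono
        fun x m => by omega) fun m => ?_⟩
      filter_upwards [m, d2, d4, d8] with x m1 m2 m3 m4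
      have := Part.mem_unique (m1 ▸ m4) m2
      omega
    · exact ⟨y, c1, fun c d5 d6 z d7 d8 => (c3 c d6).elim (fun m => c2 c d5 m z d7 d8) fun m =>
        (e ⟨z, d7, (m.and d8).mono fun x m => m.1 ▸ m.2⟩).elim⟩) a a1)
  obtain ⟨g, c1, c2⟩ := rep_pr k y
  obtain ⟨e, c3⟩ := lam0 c1
  obtain ⟨c, c4, c5⟩ := ex_dom (k := k) (pr_of (.const e))
  exact (b2 c c4 ((c5.and (a2.and (big k e))).mono fun x m => by rw [m.1, m.2.1]; exact m.2.2) y b1
    ((c2.and c5).mono fun x ⟨⟨_, m1, m2⟩, m3⟩ => by rw [m3, c3, ← m2]; exact m1)).exists.elim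
      fun _ => lt_irrefl _

theorem ne_nd : Nonempty Nd :=
  ⟨⟨0, fun j => if j = 0 then (hyperfilter ℕ : Filter ℕ) else ⊥, fun j a => by
    rw [if_pos (by omega)]
    exact ⟨inferInstance, fun f _ => Ultrafilter.em _ _⟩, fun _ a => by omega,
    (hyperfilter_le_cofinite (α := ℕ)).trans_eq Nat.cofinite_eq_atTop, fun j a => if_neg a.ne'⟩⟩

end Pool.Agent.H40.Ha
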