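import Mathlib

set_option autoImplicit false

namespace Pool.Agent.H40.Ha

/-- Prepend a value to a valuation (de Bruijn variables). -/
def cons {α : Type} (a : α) (v : ℕ → α) : ℕ → α
  | 0 => a
  | n + 1 => v n

/-- Terms of arithmetic: variables, `0`, successor, `+`, `·`. -/
inductive Tm : Type
  | var (i : ℕ) : Tm
  | zero : Tm
  | succ (t : Tm) : Tm
  | add (s t : Tm) : Tm
  | mul (s t : Tm) : Tm

/-- Formulas of arithmetic. -/
inductive Fm : Type
  | bot : Fm
  | eq (s t : Tm) : Fm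
  | and (φ ψ : Fm) : Fm
  | or (φ ψ : Fm) : Fm
  | imp (φ ψ : Fm) : Fm
  | all (φ : Fm) : Fm
  | ex (φ : Fm) : Fm

/-- Simultaneous substitution in terms. -/
def Tm.sub (σ : ℕ → Tm) : Tm → Tm
  | .var i => σ i
  | .zero => .zero
  | .succ t => .succ (t.sub σ)
  | .add s t => .add (s.sub σ) (t.sub σ)
  | .mul s t => .mul (s.sub σ) (t.sub σ)

/-- A substitution carried under a quantifier. -/
def up (σ : ℕ → Tm) : ℕ → Tm := cons (.var 0) fun i => (σ i).sub fun j => .var (j + 1)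

/-- Simultaneous substitution in formulas. -/
def Fm.sub : Fm → (ℕ → Tm) → Fm
  | .bot, _ => .bot
  | .eq s t, σ => .eq (s.sub σ) (t.sub σ)
  | .and φ ψ, σ => .and (φ.sub σ) (ψ.sub σ)
  | .or φ ψ, σ => .or (φ.sub σ) (ψ.sub σ)
  | .imp φ ψ, σ => .imp (φ.sub σ) (ψ.sub σ)
  | .all φ, σ => .all (φ.sub (up σ))
  | .ex φ, σ => .ex (φ.sub (up σ))

/-- The axioms of Peano (and Heyting) arithmetic, with free variables. The last one is the induction
axiom `φ(0) ∧ ∀ x (φ(x) → φ(S x)) → ∀ x φ(x)` for an arbitrary formula `φ` with parameters. -/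
inductive Ax : Fm → Prop
  | succ_ne : Ax (.imp (.eq (.succ (.var 0)) .zero) .bot)
  | succ_inj : Ax (.imp (.eq (.succ (.var 0)) (.succ (.var 1))) (.eq (.var 0) (.var 1)))
  | add_zero : Ax (.eq (.add (.var 0) .zero) (.var 0))
  | add_succ : Ax (.eq (.add (.var 0) (.succ (.var 1))) (.succ (.add (.var 0) (.var 1))))
  | mul_zero : Ax (.eq (.mul (.var 0) .zero) .zero)
  | mul_succ : Ax (.eq (.mul (.var 0) (.succ (.var 1))) (.add (.mul (.var 0) (.var 1)) (.var 0)))
  | ind (φ : Fm) : Ax (.imp (.and (φ.sub (cons .zero .var))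
      (.all (.imp φ (φ.sub (cons (.succ (.var 0)) fun i => .var (i + 1)))))) (.all φ))

/-- A family of classical structures indexed by nodes `k : K`; the domain of the structure at `k` is
the subset `dom k` of a common set `D`. -/
structure Fam (K D : Type) where
  dom : K → Set D
  zero : K → D
  succ : K → D → D
  add : K → D → D → D
  mul : K → D → D → D
  zero_mem : ∀ k, zero k ∈ dom k
  succ_mem : ∀ k, ∀ x ∈ dom k, succ k x ∈ dom k
  add_mem : ∀ k, ∀ x ∈ dom k, ∀ y ∈ dom k, add k x y ∈ dom k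
  mul_mem : ∀ k, ∀ x ∈ dom k, ∀ y ∈ dom k, mul k x y ∈ dom k

variable {K D : Type} (A : Fam K D)

/-- Value of a term in the structure at node `k`. -/
def Fam.ev (k : K) (v : ℕ → D) : Tm → D
  | .var i => v i
  | .zero => A.zero k
  | .succ t => A.succ k (Fam.ev k v t)
  | .add s t => A.add k (Fam.ev k v s) (Fam.ev k v t)
  | .mul s t => A.mul k (Fam.ev k v s) (Fam.ev k v t)

/-- Classical satisfaction in the structure at node `k`. -/
def Fam.Sat (k : K) : Fm → (ℕ → D) → Prop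
  | .bot, _ => False
  | .eq s t, v => A.ev k v s = A.ev k v t
  | .and φ ψ, v => Fam.Sat k φ v ∧ Fam.Sat k ψ v
  | .or φ ψ, v => Fam.Sat k φ v ∨ Fam.Sat k ψ v
  | .imp φ ψ, v => Fam.Sat k φ v → Fam.Sat k ψ v
  | .all φ, v => ∀ a ∈ A.dom k, Fam.Sat k φ (cons a v)
  | .ex φ, v => ∃ a ∈ A.dom k, Fam.Sat k φ (cons a v)

variable [PartialOrder K]

/-- Kripke models: domains increase and true atomic sentences with parameters stay true. -/
def Fam.IsKripke : Prop := ∀ k k', k ≤ k' → A.dom k ⊆ A.dom k' ∧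
  ∀ v, (∀ i, v i ∈ A.dom k) → ∀ s t, A.ev k v s = A.ev k v t → A.ev k' v s = A.ev k' v t

/-- Kripke forcing. -/
def Fam.Forces : Fm → K → (ℕ → D) → Prop
  | .bot, _, _ => False
  | .eq s t, k, v => A.ev k v s = A.ev k v t
  | .and φ ψ, k, v => Fam.Forces φ k v ∧ Fam.Forces ψ k v
  | .or φ ψ, k, v => Fam.Forces φ k v ∨ Fam.Forces ψ k v
  | .imp φ ψ, k, v => ∀ k', k ≤ k' → Fam.Forces φ k' v → Fam.Forces ψ k' v
  | .all φ, k, v => ∀ k', k ≤ k' → ∀ a ∈ A.dom k', Fam.Forces φ k' (cons a v)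
  | .ex φ, k, v => ∃ a ∈ A.dom k, Fam.Forces φ k (cons a v)

end Pool.Agent.H40.Ha
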