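import Mathlib

set_option autoImplicit false

/-! The homeomorphism group of the Cantor cube acts trivially on totally bounded metric spaces. -/

namespace Pool.Agent.H40.Hc

open Set Function Topology

abbrev Cb : Type := ℕ → Bool

theorem stepA {G Y : Type*} [Group G] [MetricSpace Y] (tb : TotallyBounded (univ : Set Y))
    (ρ : G →* Equiv.Perm Y) (iso : ∀ g x y, dist (ρ g x) (ρ g y) = dist x y) {s : G}
    (h : ∀ n : ℕ, IsConj (s ^ (n + 1)) s) : s ∈ ρ.ker := by
  refine Equiv.ext fun y => eq_of_forall_dist_le fun ε e => ?_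
  obtain ⟨F, f1, f2⟩ := Metric.totallyBounded_iff.1 tb (ε / 4) (by linarith)
  have : ∀ y : Y, ∃ z : F, dist y z.1 < ε / 4 := fun y => by simpa using f2 (mem_univ y)
  choose c hc using this
  haveI := f1.to_subtype
  have k : ∀ i n : ℕ, (fun z : F => c (ρ (s ^ (i + (n + 1))) z)) = (fun z : F => c (ρ (s ^ i) z)) →
      dist (ρ s y) y ≤ ε := fun i n a => by
    obtain ⟨u, hu⟩ := isConj_iff.1 (h n)
    have b : ∀ y, dist (ρ (s ^ (n + 1)) y) y ≤ ε := fun y => by
      have b1 := hc (ρ (s ^ (i + (n + 1))) (c y))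
      rw [congrFun a (c y)] at b1
      have b2 := dist_triangle_right (ρ (s ^ (i + (n + 1))) (c y)) (ρ (s ^ i) (c y)) (c (ρ (s ^ i) (c y)))
      rw [pow_add, map_mul, Equiv.Perm.mul_apply] at b1 b2
      rw [iso] at b2
      linarith [hc (ρ (s ^ i) (c y)), hc y, dist_triangle4 (ρ (s ^ (n + 1)) y) (ρ (s ^ (n + 1)) (c y))
        (c y) y, iso (s ^ (n + 1)) y (c y), dist_comm y (c y)]
    have := b (ρ u⁻¹ y)
    rw [← iso u] at this
    rw [← hu]
    simpa using this
  obtain ⟨i, j, a, b⟩ := Finite.exists_ne_map_eq_of_infinite fun n : ℕ => fun z : F => c (ρ (s ^ n) z)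
  rcases lt_or_gt_of_ne a with a | a <;> obtain ⟨n, rfl⟩ := Nat.exists_eq_add_of_lt a
  exacts [k i n b.symm, k j n b]

abbrev W : Type := {x : Cb // x 0 = true}

def emb (z : ℕ × W) : Cb := fun i => if i < z.1 then false else z.2.1 (i - z.1)

theorem emb_c : Continuous emb := continuous_prod_of_discrete_left.2 fun j => continuous_pi fun i => by
  unfold emb
  dsimp only
  split_ifs
  exacts [continuous_const, (continuous_apply _).comp continuous_subtype_val]

theorem emb_self (z : ℕ × W) : emb z z.1 = true := by simp [emb, z.2.2]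

theorem emb_lt (z : ℕ × W) {i : ℕ} (h : i < z.1) : emb z i = false := if_pos h

theorem emb_mk {y : Cb} {j : ℕ} (a : ∀ i < j, y i = false) (b : y j = true) :
    emb (j, ⟨fun i => y (i + j), by simpa using b⟩) = y := funext fun i => by
  unfold emb
  dsimp only
  split_ifs with c
  exacts [(a i c).symm, by rw [Nat.sub_add_cancel (not_lt.1 c)]]

theorem emb_e : IsEmbedding emb := by
  refine (IsOpenEmbedding.of_continuous_injective_isOpenMap emb_c ?_ fun U a => ?_).isEmbedding
  · rintro ⟨j, x⟩ ⟨k, y⟩ e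
    obtain rfl : j = k := by
      rcases lt_trichotomy j k with c | c | c
      · simpa [e, emb_lt (k, y) c] using emb_self (j, x)
      · exact c
      · simpa [← e, emb_lt (j, x) c] using emb_self (k, y)
    exact Prod.ext rfl (Subtype.ext (funext fun i => by simpa [emb] using congrFun e (i + j)))
  · refine isOpen_iff_forall_mem_open.2 ?_
    rintro _ ⟨⟨j, x⟩, b, rfl⟩
    obtain ⟨V, v, hV⟩ := isOpen_induced_iff.1 (a.preimage (Continuous.prodMk_right (Y := W) j))
    refine ⟨(⋂ i ∈ Iio j, (fun y : Cb => y i) ⁻¹' {false}) ∩ (fun y : Cb => y j) ⁻¹' {true} ∩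
      (fun (y : Cb) i => y (i + j)) ⁻¹' V,
      fun y c => ⟨_, (Set.ext_iff.1 hV ⟨_, _⟩).1 c.2, emb_mk (by simpa using c.1.1) c.1.2⟩,
      (((finite_Iio j).isOpen_biInter fun i _ => (isOpen_discrete {false}).preimage
        (continuous_apply i)).inter ((isOpen_discrete {true}).preimage (continuous_apply j))).inter
          (v.preimage (continuous_pi fun _ => continuous_apply _)),
      ⟨by simpa using fun i => emb_lt (j, x), emb_self (j, x)⟩, ?_⟩
    have : (fun i => emb (j, x) (i + j)) = x := funext fun i => by simp [emb]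
    rw [mem_preimage, this]
    exact (Set.ext_iff.1 hV x).2 b

theorem emb_r : range emb = {fun _ => false}ᶜ := Set.ext fun y => by
  classical
  refine ⟨fun ⟨z, a⟩ b => by
    have := emb_self z
    rw [a, show y = fun _ => false from b] at this
    exact Bool.noConfusion this, fun a => ?_⟩
  have : ∃ i, y i = true := by_contra fun b => a (funext fun i => by simpa using not_exists.1 b i)
  exact ⟨_, emb_mk (fun i b => by simpa using Nat.find_min this b) (Nat.find_spec this)⟩

noncomputable def Ψ : OnePoint (ℕ × W) ≃ₜ Cb := OnePoint.equivOfIsEmbeddingOfRangeEq _ emb emb_e emb_r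

noncomputable def τ : (ℕ × W ≃ₜ ℕ × W) →* (Cb ≃ₜ Cb) :=
  MonoidHom.mk' (fun h => Ψ.symm.trans (h.onePointCongr.trans Ψ)) fun a b => Homeomorph.ext fun x => by
    obtain ⟨x, rfl⟩ := Ψ.surjective x
    show Ψ (OnePoint.map _ (Ψ.symm _)) = Ψ (OnePoint.map _ (Ψ.symm (Ψ (OnePoint.map _ (Ψ.symm _)))))
    simp only [Homeomorph.symm_apply_apply]
    induction x using OnePoint.rec <;> rfl

theorem τ_e (h : ℕ × W ≃ₜ ℕ × W) (z : ℕ × W) : τ h (emb z) = emb (h z) := by
  show Ψ (OnePoint.map _ (Ψ.symm (Ψ z))) = _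
  rw [Homeomorph.symm_apply_apply]; rfl

theorem τ_0 (h : ℕ × W ≃ₜ ℕ × W) : τ h (fun _ => false) = fun _ => false := by
  show Ψ (OnePoint.map _ (Ψ.symm (Ψ OnePoint.infty))) = _
  rw [Homeomorph.symm_apply_apply]; rfl

def pm : Equiv.Perm ℕ →* (ℕ × W ≃ₜ ℕ × W) :=
  MonoidHom.mk' (fun σ => (Homeomorph.ofDiscrete σ).prodCongr (Homeomorph.refl _)) fun _ _ => rfl

def fb (φ : ℕ → W ≃ₜ W) : ℕ × W ≃ₜ ℕ × W where
  toFun z := (z.1, φ z.1 z.2)
  invFun z := (z.1, (φ z.1).symm z.2)
  left_inv z := by simp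
  right_inv z := by simp
  continuous_toFun := continuous_prod_of_discrete_left.2 fun j => continuous_const.prodMk (φ j).continuous
  continuous_invFun := continuous_prod_of_discrete_left.2 fun j =>
    continuous_const.prodMk (φ j).symm.continuous

def xr (c : Cb) : Cb ≃ₜ Cb where
  toFun x i := xor (x i) (c i)
  invFun x i := xor (x i) (c i)
  left_inv x := by simp
  right_inv x := by simp
  continuous_toFun := continuous_pi fun i =>
    (continuous_of_discreteTopology (f := fun b => xor b (c i))).comp (continuous_apply i)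
  continuous_invFun := continuous_pi fun i =>
    (continuous_of_discreteTopology (f := fun b => xor b (c i))).comp (continuous_apply i)

variable {Y : Type*} [MetricSpace Y] (tb : TotallyBounded (univ : Set Y))
  (ρ : (Cb ≃ₜ Cb) →* Equiv.Perm Y) (iso : ∀ g x y, dist (ρ g x) (ρ g y) = dist x y)
include tb iso

theorem stepB {a : Cb ≃ₜ Cb} (h : ∀ x, x 0 = false → a x = x) : a ∈ ρ.ker := by
  classical
  let e : ℚ ≃ ℕ := Denumerable.eqv ℚ
  let σ : Equiv.Perm ℕ := e.permCongr (Equiv.addRight 1)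
  have hs : τ (pm σ) ∈ ρ.ker := stepA tb ρ iso fun n => by
    rw [← map_pow, ← map_pow]
    refine τ.map_isConj (pm.map_isConj (IsConj.symm (isConj_iff.2
      ⟨e.permCongr (Equiv.mulLeft₀ ((n : ℚ) + 1) (by positivity)), mul_inv_eq_of_eq_mul ?_⟩)))
    have : ∀ k : ℕ, σ ^ k = e.permCongr (Equiv.addRight (k : ℚ)) := fun k => by
      induction k with
      | zero => ext; simp
      | succ k ih => rw [pow_succ', ih]; ext; simp [σ, add_assoc]
    rw [this]
    ext
    simp [σ, mul_add, add_assoc]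
  have h' : ∀ x : Cb, x 0 = true ↔ a x 0 = true := fun x => by
    refine not_iff_not.1 ⟨fun b => by rwa [h x (by simpa using b)], fun b => ?_⟩
    rwa [a.injective (h _ (by simpa using b))] at b
  let P : ℕ → Prop := fun j => ∃ m : ℕ, e.symm j = e.symm 0 + m
  let u := fb fun j => if P j then a.subtype h' else Homeomorph.refl _
  have q : ∀ j, e.symm (σ⁻¹ j) = e.symm j + -1 := fun j => e.symm_apply_apply _
  have p0 : ¬ P (σ⁻¹ 0) := fun ⟨m, b⟩ => by
    have := q 0
    have : (0 : ℚ) ≤ m := m.cast_nonneg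
    linarith
  have p1 : ∀ j ≠ 0, P (σ⁻¹ j) ↔ P j := fun j b => by
    have := q j
    refine ⟨fun ⟨m, c⟩ => ⟨m + 1, by push_cast; linarith⟩, fun ⟨m, c⟩ => ?_⟩
    obtain _ | m := m
    · exact absurd (e.symm.injective (by simpa using c)) b
    · exact ⟨m, by push_cast at c; linarith⟩
  have k : a = τ u * τ (pm σ) * (τ u)⁻¹ * (τ (pm σ))⁻¹ := Homeomorph.ext fun x => by
    rw [← map_inv, ← map_inv, ← map_mul, ← map_mul, ← map_mul]
    by_cases b : x ∈ range emb
    · obtain ⟨⟨j, w⟩, rfl⟩ := b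
      rw [τ_e]
      show _ = emb (σ (σ⁻¹ j), (if P (σ (σ⁻¹ j)) then a.subtype h' else Homeomorph.refl _)
        ((if P (σ⁻¹ j) then a.subtype h' else Homeomorph.refl _).symm w))
      rw [show σ (σ⁻¹ j) = j from σ.apply_symm_apply j]
      obtain rfl | c := eq_or_ne j 0
      · rw [if_neg p0, if_pos ⟨0, by simp⟩]
        rfl
      · simp only [p1 j c, Homeomorph.apply_symm_apply]
        exact h _ (emb_lt _ (Nat.pos_of_ne_zero c))
    · obtain rfl : x = fun _ => false := by simpa [emb_r] using b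
      rw [τ_0, h _ rfl]
  rw [k]
  exact mul_mem (ρ.normal_ker.conj_mem _ hs _) (inv_mem hs)

theorem stepC {a : Cb ≃ₜ Cb} {O : Set Cb} (o : IsOpen O) {c : Cb} (hc : c ∈ O)
    (h : ∀ x ∈ O, a x = x) : a ∈ ρ.ker := by
  obtain ⟨I, v, v1, v2⟩ := isOpen_pi_iff.1 o c hc
  obtain ⟨k, hk⟩ := I.bddAbove
  let g := xr (fun i => xor (i == k) (c i)) * τ (pm (Equiv.swap 0 k)) * xr fun i => i == 0
  have := ρ.normal_ker.conj_mem _ (stepB tb ρ iso (a := g⁻¹ * a * g) fun x b => by
    have : g x ∈ O := v2 fun i d => by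
      have e : g x = xr (fun i => xor (i == k) (c i)) (τ (pm (Equiv.swap 0 k))
        (emb (0, ⟨xr (fun i => i == 0) x, by simp [xr, b]⟩))) := rfl
      rw [τ_e] at e
      have f : g x i = xor (emb (Equiv.swap 0 k 0, ⟨xr (fun i => i == 0) x, by simp [xr, b]⟩) i)
        (xor (i == k) (c i)) := congrFun e i
      rw [Equiv.swap_apply_left] at f
      obtain j | rfl := (hk d).lt_or_eq
      · rw [f, emb_lt _ j]
        simpa [beq_false_of_ne j.ne] using (v1 i d).2
      · rw [f, emb_self (i, _)]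
        simpa using (v1 i d).2
    show g.symm (a (g x)) = x
    rw [h _ this, g.symm_apply_apply]) g
  simpa [mul_assoc] using this

theorem triv (g : Cb ≃ₜ Cb) : ρ g = 1 := by
  classical
  by_cases a : ∀ x, g x = x
  · exact stepC tb ρ iso isOpen_univ (mem_univ fun _ => true) fun x _ => a x
  obtain ⟨x, a⟩ := not_forall.1 a
  obtain ⟨z, hz⟩ := Infinite.exists_notMem_finset {x, g x}
  simp only [Finset.mem_insert, Finset.mem_singleton, not_or] at hz
  obtain ⟨A, B, a1, b1, a2, b2, d⟩ := t2_separation a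
  obtain ⟨U, u1, u2, u3⟩ := compact_exists_isClopen_in_isOpen (U := B ∩ g ⁻¹' A ∩ {z}ᶜ ∩ g ⁻¹' {z}ᶜ)
    (((b1.inter (a1.preimage g.continuous)).inter isOpen_compl_singleton).inter
      (isOpen_compl_singleton.preimage g.continuous)) ⟨⟨⟨b2, a2⟩, Ne.symm hz.1⟩, Ne.symm hz.2⟩
  have u4 := u1.preimage g.symm.continuous
  have u5 : ∀ y ∈ U, g y ∉ U := fun y b c => disjoint_left.1 d (u3 b).1.1.2 (u3 c).1.1.1
  let f : Cb → Cb := fun y => if y ∈ U then g y else if g.symm y ∈ U then g.symm y else y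
  have f1 : Involutive f := fun y => by
    by_cases b : y ∈ U
    · simp [f, b, u5 y b]
    · by_cases c : g.symm y ∈ U <;> simp [f, b, c]
  have f2 : Continuous f := Continuous.if (by simp [u1.frontier_eq]) g.continuous
    (Continuous.if (fun y b => by simp [show frontier {x | g.symm x ∈ U} = ∅ from u4.frontier_eq] at b)
      g.symm.continuous continuous_id)
  let u : Cb ≃ₜ Cb := ⟨f1.toPerm, f2, f2⟩
  have k1 : u ∈ ρ.ker := stepC tb ρ iso (O := Uᶜ ∩ (g.symm ⁻¹' U)ᶜ) (c := z)
    (u1.compl.isOpen.inter u4.compl.isOpen) ⟨fun b => (u3 b).1.2 rfl, fun b => (u3 b).2 (by simp)⟩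
    fun y b => (if_neg b.1).trans (if_neg b.2)
  have k2 : u * g ∈ ρ.ker := stepC tb ρ iso u1.isOpen u2 fun y b => by
    show f (g y) = y
    simp [f, b, u5 y b]
  exact (mul_mem_cancel_left k1).1 k2

end Pool.Agent.H40.Hc
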