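import Mathlib

set_option autoImplicit false

/-! The cumulative hierarchy over the atoms `a_{n,f}` and the permutation model `N_{2^ω}`. -/

namespace Pool.Agent.H40.Hc

/-- the atom `a_{n,f}` is the pair `(n, f)` -/
abbrev At : Type := ℕ × (ℕ → Bool)

/-- presentations of atoms and of sets -/
inductive PA : Type 1
  | atom (a : At) : PA
  | set (ι : Type) (f : ι → PA) : PA

/-- extensional equality -/
def PA.Eqv : PA → PA → Prop
  | .atom a, .atom b => a = b
  | .set _ f, .set _ g => (∀ i, ∃ j, PA.Eqv (f i) (g j)) ∧ ∀ j, ∃ i, PA.Eqv (f i) (g j)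
  | _, _ => False

/-- the universe `M`: the cumulative hierarchy of sets over the atoms -/
def M : Type 1 := Quot PA.Eqv

def cl (x : PA) : M := Quot.mk _ x

/-- membership -/
def E (x y : M) : Prop := ∃ ι f i, y = cl (.set ι f) ∧ x = cl (f i)

/-- `x` is a set, not an atom -/
def St (x : M) : Prop := ∃ ι f, x = cl (.set ι f)

/-- the set `{f i | i : ι}` -/
noncomputable def mk {ι : Type} (f : ι → M) : M := cl (.set ι fun i => (f i).out)

/-- the group `G`: on each `A_n` an autohomeomorphism of the Cantor cube -/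
abbrev G : Type := ℕ → (ℕ → Bool) ≃ₜ (ℕ → Bool)

def ap (φ : G) (a : At) : At := (a.1, φ a.1 a.2)

def PA.act (φ : G) : PA → PA
  | .atom a => .atom (ap φ a)
  | .set ι f => .set ι fun i => PA.act φ (f i)

theorem PA.Eqv.act (φ : G) : ∀ x y, PA.Eqv x y → PA.Eqv (x.act φ) (y.act φ)
  | .atom _, .atom _, h => congrArg (ap φ) h
  | .set _ _, .set _ _, h => ⟨fun i => (h.1 i).imp fun _ => PA.Eqv.act φ _ _,
      fun j => (h.2 j).imp fun _ => PA.Eqv.act φ _ _⟩
  | .atom _, .set _ _, h => h.elim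
  | .set _ _, .atom _, h => h.elim

/-- the extension of `φ` to an automorphism of `M` -/
def act (φ : G) : M → M := Quot.map (PA.act φ) (PA.Eqv.act φ)

/-- `fix(F) ⊆ sym(t)` for some `F` in the ideal `I` -/
def Sym (t : M) : Prop := ∃ (F : Set At) (S : Finset ℕ), (∀ a ∈ F, a.1 ∈ S) ∧
  ∀ φ : G, (∀ a ∈ F, ap φ a = a) → act φ t = t

/-- `x ∈ N`: all members of the transitive closure of `{x}` are symmetric -/
def HS (x : M) : Prop := ∀ t, Relation.ReflTransGen E t x → Sym t

/-- Kuratowski pair -/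
noncomputable def pr (x y : M) : M := mk fun b : Bool => mk fun c : Bool => cond (b && c) y x

/-- von Neumann numeral -/
noncomputable def num : ℕ → M
  | n => mk fun i : Fin n => num i
  termination_by n => n
  decreasing_by exact i.2

/-- the real `r` as a Dedekind cut of (codes of) rationals -/
noncomputable def rl (r : ℝ) : M := mk fun q : {q : ℚ // q < r} => num (Encodable.encode q.1)

abbrev Ex (a : M) : Type 1 := {x // E x a}

def Sub (a b : M) : Prop := ∀ z, E z a → E z b

/-- the set of pairs `(a i, b i)` lies in `N` -/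
def Gr {α : Type 1} (a b : α → M) : Prop :=
  ∃ f, HS f ∧ St f ∧ ∀ p, E p f ↔ ∃ i, p = pr (a i) (b i)

/-- `D` is finite in `N` -/
def FinN (D : M) : Prop :=
  ∃ (n : ℕ) (φ : Ex D → Fin n), Function.Injective φ ∧ Gr (fun x : Ex D => x.1) fun x => num (φ x)

/-- `D` is countable in `N` -/
def CtblN (D : M) : Prop :=
  ∃ φ : Ex D → ℕ, Function.Injective φ ∧ Gr (fun x : Ex D => x.1) fun x => num (φ x)

/-- every open cover lying in `N` has a finite subcover in `N` -/
def Compact (X T : M) : Prop :=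
  ∀ C, HS C → St C → Sub C T → (∀ x, E x X → ∃ U, E U C ∧ E x U) →
    ∃ D, HS D ∧ St D ∧ Sub D C ∧ FinN D ∧ ∀ x, E x X → ∃ U, E U D ∧ E x U

/-- `T` is the topology on `X` induced in `N` by a metric lying in `N` -/
def Metrizable (X T : M) : Prop :=
  ∃ d : Ex X → Ex X → ℝ, Gr (fun p : Ex X × Ex X => pr p.1.1 p.2.1) (fun p => rl (d p.1 p.2)) ∧
    (∀ x y, d x y = 0 ↔ x = y) ∧ (∀ x y, d x y = d y x) ∧ (∀ x y z, d x z ≤ d x y + d y z) ∧
    ∀ U, HS U → (E U T ↔ St U ∧ Sub U X ∧
      ∀ x : Ex X, E x.1 U → ∃ ε > 0, ∀ y, d x y < ε → E y.1 U)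

/-- `(X, T)` has a dense subset which lies in `N` and is countable in `N` -/
def Separable (X T : M) : Prop :=
  ∃ D, HS D ∧ St D ∧ Sub D X ∧ CtblN D ∧ ∀ U, E U T → (∃ x, E x U) → ∃ x, E x D ∧ E x U

end Pool.Agent.H40.Hc
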