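import Pool.Agent.H40.Hc1
import Pool.Agent.H40.HcDefs

set_option autoImplicit false

/-! Compact metrizable spaces of `N_{2^ω}` are separable. -/

namespace Pool.Agent.H40.Hc

open Set Function

theorem PA.rf : ∀ x : PA, x.Eqv x
  | .atom _ => rfl
  | .set _ _ => ⟨fun i => ⟨i, PA.rf _⟩, fun i => ⟨i, PA.rf _⟩⟩

theorem PA.eu : ∀ x y z : PA, x.Eqv y → z.Eqv y → x.Eqv z
  | .atom _, .atom _, .atom _, a, b => a.trans b.symm
  | .set _ _, .set _ _, .set _ _, a, b => ⟨fun i => (a.1 i).elim fun j c => (b.2 j).imp fun _ =>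
      PA.eu _ _ _ c, fun i => (b.1 i).elim fun j c => (a.2 j).imp fun _ d => PA.eu _ _ _ d c⟩
  | .atom _, .set _ _, _, a, _ => a.elim
  | .set _ _, .atom _, _, a, _ => a.elim
  | .atom _, .atom _, .set _ _, _, b => b.elim
  | .set _ _, .set _ _, .atom _, _, b => b.elim

theorem cl_eq {x y : PA} : cl x = cl y ↔ x.Eqv y :=
  Quot.eq.trans (Equivalence.eqvGen_iff ⟨PA.rf, fun h => PA.eu _ _ _ (PA.rf _) h,
    fun a b => PA.eu _ _ _ a (PA.eu _ _ _ (PA.rf _) b)⟩)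

theorem mem_cl {x : M} {ι : Type} {f : ι → PA} : E x (cl (.set ι f)) ↔ ∃ i, x = cl (f i) :=
  ⟨fun ⟨_, _, j, a, b⟩ => ((cl_eq.1 a).2 j).imp fun _ c => b.trans (cl_eq.2 c).symm,
    fun ⟨i, a⟩ => ⟨_, f, i, rfl, a⟩⟩

theorem mem_mk {x : M} {ι : Type} {f : ι → M} : E x (mk f) ↔ ∃ i, x = f i :=
  mem_cl.trans (exists_congr fun i => by rw [cl, Quot.out_eq])

theorem st_mk {ι : Type} (f : ι → M) : St (mk f) := ⟨_, _, rfl⟩

theorem ext' {x y : M} (a : St x) (b : St y) (c : ∀ z, E z x ↔ E z y) : x = y := by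
  obtain ⟨ι, f, rfl⟩ := a
  obtain ⟨κ, g, rfl⟩ := b
  simp only [mem_cl] at c
  exact cl_eq.2 ⟨fun i => ((c _).1 ⟨i, rfl⟩).imp fun _ => cl_eq.1,
    fun j => ((c _).2 ⟨j, rfl⟩).imp fun _ d => cl_eq.1 d.symm⟩

theorem act_mul (φ ψ : G) (x : M) : act φ (act ψ x) = act (φ * ψ) x := by
  obtain ⟨x⟩ := x
  refine congrArg cl ?_
  induction x with
  | atom a => rfl
  | set ι f ih => exact congrArg _ (funext ih)

theorem act_one (x : M) : act 1 x = x := by
  obtain ⟨x⟩ := x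
  refine congrArg cl ?_
  induction x with
  | atom a => rfl
  | set ι f ih => exact congrArg _ (funext ih)

theorem mem_act (φ : G) {x y : M} (h : E x y) : E (act φ x) (act φ y) :=
  let ⟨ι, f, i, a, b⟩ := h
  ⟨ι, fun i => (f i).act φ, i, a ▸ rfl, b ▸ rfl⟩

theorem st_act (φ : G) {x : M} (h : St x) : St (act φ x) :=
  let ⟨ι, f, a⟩ := h
  ⟨ι, fun i => (f i).act φ, a ▸ rfl⟩

theorem act_inv (φ : G) (x : M) : act φ (act φ⁻¹ x) = x := by rw [act_mul, mul_inv_cancel, act_one]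

theorem mem_act' {φ : G} {x y : M} : E x (act φ y) ↔ ∃ z, E z y ∧ x = act φ z :=
  ⟨fun h => ⟨act φ⁻¹ x, by simpa only [act_mul, inv_mul_cancel, act_one] using mem_act φ⁻¹ h,
    (act_inv φ x).symm⟩, fun ⟨_, a, b⟩ => b ▸ mem_act φ a⟩

theorem act_mk (φ : G) {ι : Type} (f : ι → M) : act φ (mk f) = mk fun i => act φ (f i) :=
  ext' (st_act φ (st_mk f)) (st_mk _) fun z => by simp [mem_act', mem_mk]

theorem act_pr (φ : G) (x y : M) : act φ (pr x y) = pr (act φ x) (act φ y) := by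
  simp only [pr, act_mk, Bool.apply_cond (act φ)]

theorem act_num (φ : G) (n : ℕ) : act φ (num n) = num n := by
  induction n using Nat.strong_induction_on with
  | _ n ih => rw [num, act_mk]; exact congrArg mk (funext fun i => ih i i.2)

theorem act_rl (φ : G) (r : ℝ) : act φ (rl r) = rl r := by simp only [rl, act_mk, act_num]

theorem mk_eq {ι κ : Type} {f : ι → M} {g : κ → M} (h : mk f = mk g) (i : ι) : ∃ j, f i = g j :=
  mem_mk.1 (h ▸ mem_mk.2 ⟨i, rfl⟩)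

theorem pr_inj {a b c d : M} (h : pr a b = pr c d) : a = c ∧ b = d := by
  have k : ∀ {a b c d : M}, pr a b = pr c d → a = c ∧ (b = c ∨ b = d) := fun {a b c d} h => by
    obtain ⟨i, e⟩ := mk_eq h false
    obtain ⟨j, f⟩ := mk_eq h true
    obtain ⟨m, g⟩ := mk_eq e.symm false
    obtain ⟨n, l⟩ := mk_eq f true
    refine ⟨by simpa using g.symm, ?_⟩
    cases j <;> cases n <;> simp_all
  have := k h
  have := k h.symm
  grind

theorem num_inj : Injective num := by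
  intro m
  induction m using Nat.strong_induction_on with
  | _ m ih =>
    intro n e
    rw [num, num] at e
    rcases lt_trichotomy m n with a | a | a
    · obtain ⟨j, b⟩ := mk_eq e.symm ⟨m, a⟩
      exact absurd (ih j j.2 b.symm) j.2.ne
    · exact a
    · obtain ⟨j, b⟩ := mk_eq e ⟨n, a⟩
      exact absurd (ih n a b) j.2.ne'

theorem rl_inj : Injective rl := fun r s h => by
  have k : ∀ {r s}, rl r = rl s → r ≤ s := fun {r s} h => le_of_forall_rat_lt_imp_le fun q a => by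
    obtain ⟨j, b⟩ := mk_eq h ⟨q, a⟩
    exact ((show q = j.1 from Encodable.encode_injective (num_inj b)) ▸ j.2 : (q : ℝ) < s).le
  exact (k h).antisymm (k h.symm)

instance (x : M) : Small.{0} (Ex x) := by
  obtain ⟨t | ⟨ι, f⟩⟩ := x
  · haveI : IsEmpty (Ex (Quot.mk _ (.atom t))) := ⟨fun ⟨_, _, _, _, a, _⟩ => cl_eq.1 a⟩
    infer_instance
  · exact small_of_surjective (f := fun i : ι => (⟨cl (f i), mem_cl.2 ⟨i, rfl⟩⟩ : Ex (cl (.set ι f))))
      fun z => (mem_cl.1 z.2).imp fun _ a => Subtype.ext a.symm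

theorem ex_set {α : Type 1} [Small.{0} α] (g : α → M) : ∃ y, St y ∧ ∀ z, E z y ↔ ∃ a, z = g a :=
  ⟨mk (g ∘ (equivShrink α).symm), st_mk _, fun _ => mem_mk.trans
    ((equivShrink α).symm.exists_congr_left.trans (by simp))⟩

def Fx (S : Finset ℕ) (φ : G) : Prop := ∀ n ∈ S, φ n = 1

theorem sym_iff {t : M} : Sym t ↔ ∃ S, ∀ φ, Fx S φ → act φ t = t :=
  ⟨fun ⟨_, S, a, b⟩ => ⟨S, fun φ c => b φ fun x d => Prod.ext rfl (by rw [ap, c _ (a x d)]; rfl)⟩,
    fun ⟨S, a⟩ => ⟨{a | a.1 ∈ S}, S, fun _ => id, fun φ b => a φ fun n c =>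
      Homeomorph.ext fun x => congrArg Prod.snd (b (n, x) c)⟩⟩

theorem HS.mem {x y : M} (h : HS x) (a : E y x) : HS y := fun t b => h t (b.tail a)

theorem HS.sy {x : M} (h : HS x) : ∃ S, ∀ φ, Fx S φ → act φ x = x := sym_iff.1 (h x .refl)

theorem hs_of {x : M} (S : Finset ℕ) (s : St x) (a : ∀ y, E y x → HS y)
    (b : ∀ φ, Fx S φ → ∀ y, E y x → E (act φ y) x) : HS x := fun t c => by
  rcases c.cases_tail with rfl | ⟨y, d, e⟩
  · exact sym_iff.2 ⟨S, fun φ d => ext' (st_act φ s) s fun z => mem_act'.trans ⟨fun ⟨y, e, f⟩ =>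
      f ▸ b φ d y e, fun e => ⟨_, b φ⁻¹ (fun n f => by simp [d n f]) z e, (act_inv φ z).symm⟩⟩⟩
  · exact a y e t d

theorem hs_mk {ι : Type} {f : ι → M} (S : Finset ℕ) (a : ∀ i, HS (f i))
    (b : ∀ φ, Fx S φ → ∀ i, act φ (f i) = f i) : HS (mk f) :=
  hs_of S (st_mk f) (fun _ c => (mem_mk.1 c).elim fun i d => d ▸ a i) fun φ c _ d =>
    (mem_mk.1 d).elim fun i e => by rw [e, b φ c i]; exact mem_mk.2 ⟨i, rfl⟩

theorem hs_num (n : ℕ) : HS (num n) := by
  induction n using Nat.strong_induction_on with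
  | _ n ih => rw [num]; exact hs_mk ∅ (fun i => ih i i.2) fun φ _ _ => act_num φ _

theorem hs_pr {x y : M} (a : HS x) (b : HS y) : HS (pr x y) := by
  obtain ⟨S, c⟩ := a.sy
  obtain ⟨T, d⟩ := b.sy
  have k : ∀ φ, Fx (S ∪ T) φ → ∀ i, act φ (cond i y x) = cond i y x := fun φ e i => by
    cases i
    exacts [c φ fun n f => e n (by simp [f]), d φ fun n f => e n (by simp [f])]
  exact hs_mk (S ∪ T) (fun i => hs_mk (S ∪ T) (fun j => by cases (i && j); exacts [a, b])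
    fun φ e _ => k φ e _) fun φ e i => by simp only [act_mk, k φ e]

theorem sep {X T : M} (hX : HS X) (c : Compact X T) (m : Metrizable X T) (hT : HS T) :
    Separable X T := by
  classical
  obtain ⟨d, ⟨f, f1, -, f2⟩, d0, ds, dt, o⟩ := m
  obtain ⟨S1, s1⟩ := hX.sy
  obtain ⟨S2, s2⟩ := f1.sy
  let S := S1 ∪ S2
  letI : MetricSpace (Ex X) :=
    { dist := d, dist_self := fun x => (d0 x x).2 rfl, dist_comm := ds, dist_triangle := dt
      eq_of_dist_eq_zero := fun {x y} => (d0 x y).1 }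
  have ax : ∀ φ, Fx S φ → ∀ x, E x X → E (act φ x) X := fun φ a x b =>
    s1 φ (fun n e => a n (by simp [S, e])) ▸ mem_act φ b
  have iso : ∀ φ (a : Fx S φ) (x y : Ex X), d ⟨_, ax φ a _ x.2⟩ ⟨_, ax φ a _ y.2⟩ = d x y :=
    fun φ a x y => by
      have := mem_act φ ((f2 _).2 ⟨(x, y), rfl⟩)
      rw [s2 φ fun n e => a n (by simp [S, e]), act_pr, act_pr, act_rl] at this
      obtain ⟨⟨u, v⟩, b⟩ := (f2 _).1 this
      obtain ⟨b, e⟩ := pr_inj b
      obtain ⟨b, g⟩ := pr_inj b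
      rw [rl_inj e]
      congr <;> exact Subtype.ext ‹_›
  have tb : TotallyBounded (univ : Set (Ex X)) := Metric.totallyBounded_iff.2 fun ε e => by
    choose B b1 b2 using fun x : Ex X => ex_set fun y : {y : Ex X // d x y < ε} => y.1.1
    have b3 : ∀ x (y : Ex X), E y.1 (B x) ↔ d x y < ε := fun x y =>
      (b2 x _).trans ⟨fun ⟨z, a⟩ => Subtype.ext a ▸ z.2, fun a => ⟨⟨y, a⟩, rfl⟩⟩
    have b4 : ∀ x, Sub (B x) X := fun x z a => ((b2 x z).1 a).elim fun y b => b ▸ y.1.2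
    have b5 : ∀ φ (a : Fx S φ) (x : Ex X), act φ (B x) = B ⟨_, ax φ a _ x.2⟩ := fun φ a x =>
      ext' (st_act φ (b1 x)) (b1 _) fun z => mem_act'.trans ⟨fun ⟨y, b, g⟩ => g ▸ (b3 _
        ⟨_, ax φ a _ (b4 x y b)⟩).2 ((iso φ a x ⟨y, b4 x y b⟩).trans_lt ((b3 x ⟨y, _⟩).1 b)), fun b => by
          have i := ax φ⁻¹ (fun n g => by simp [a n g]) z (b4 _ z b)
          refine ⟨_, (b3 x ⟨_, i⟩).2 ?_, (act_inv φ z).symm⟩
          rw [← iso φ a]
          simp only [act_inv]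
          exact (b3 _ ⟨z, _⟩).1 b⟩
    have b6 : ∀ x, HS (B x) := fun x => by
      obtain ⟨R, r⟩ := (hX.mem x.2).sy
      refine hs_of (S ∪ R) (b1 x) (fun y a => hX.mem (b4 x y a)) fun φ a y b => ?_
      have := mem_act φ b
      rw [b5 φ fun n g => a n (by simp [g])] at this
      simpa only [r φ fun n g => a n (by simp [g])] using this
    obtain ⟨C, c1, c2⟩ := ex_set B
    obtain ⟨D, -, -, d1, ⟨n, ψ, d2, -⟩, d3⟩ := c C (hs_of S c1 (fun y a => ((c2 y).1 a).elim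
      fun x b => b ▸ b6 x) fun φ a y b => ((c2 y).1 b).elim fun x g => (c2 _).2 ⟨_, g ▸ b5 φ a x⟩) c1
      (fun U a => ((c2 U).1 a).elim fun x b => b ▸ (o _ (b6 x)).2 ⟨b1 x, b4 x, fun y g =>
        ⟨ε - d x y, sub_pos.2 ((b3 x y).1 g), fun z i => (b3 x z).2 (by linarith [dt x y z])⟩⟩)
      fun x a => ⟨_, (c2 _).2 ⟨⟨x, a⟩, rfl⟩, (b3 _ ⟨x, a⟩).2 (((d0 _ _).2 rfl).trans_lt e)⟩
    haveI := Finite.of_injective ψ d2
    choose g hg using fun U : Ex D => (c2 U).1 (d1 U U.2)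
    refine ⟨range g, finite_range g, fun x _ => ?_⟩
    obtain ⟨U, a, b⟩ := d3 x x.2
    exact mem_iUnion₂.2 ⟨_, ⟨⟨U, a⟩, rfl⟩, (ds _ _).trans_lt ((b3 _ x).1 (hg ⟨U, a⟩ ▸ b))⟩
  have t1 : ∀ n ∉ S, ∀ g x, E x X → act (Pi.mulSingle n g) x = x := fun n a g x b => by
    have k : ∀ g, Fx S (Pi.mulSingle n g) := fun g m e => by
      rw [Pi.mulSingle_eq_of_ne (ne_of_mem_of_not_mem e a)]
    let ρ : (Cb ≃ₜ Cb) →* Equiv.Perm (Ex X) := MonoidHom.toHomPerm
      { toFun := fun g x => ⟨_, ax _ (k g) _ x.2⟩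
        map_one' := funext fun x => Subtype.ext (by
          show act (Pi.mulSingle n 1) x.1 = x.1
          rw [Pi.mulSingle_one, act_one])
        map_mul' := fun g h => funext fun x => Subtype.ext (by
          simp only [Pi.mulSingle_mul, ← act_mul]; rfl) }
    exact congrArg Subtype.val (Equiv.congr_fun (triv tb ρ (fun g => iso _ (k g)) g) ⟨x, b⟩)
  have t2 : ∀ φ, Fx S φ → ∀ x, E x X → act φ x = x := fun φ a x b => by
    obtain ⟨R, r⟩ := (hX.mem b).sy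
    have : ∀ (Q : Finset ℕ) φ, Fx S φ → (∀ n ∈ R, n ∉ Q → φ n = 1) → act φ x = x := fun Q => by
      induction Q using Finset.induction_on with
      | empty => exact fun φ _ e => r φ fun n g => e n g (by simp)
      | insert n Q _ ih =>
        intro φ a e
        have g : φ = update φ n 1 * Pi.mulSingle n (φ n) := funext fun m => by
          rcases eq_or_ne m n with rfl | g <;> simp [*]
        have i : act (Pi.mulSingle n (φ n)) x = x := by
          by_cases i : n ∈ S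
          exacts [by rw [a n i, Pi.mulSingle_one, act_one], t1 n i _ x b]
        rw [g, ← act_mul, i]
        refine ih _ (fun m j => ?_) fun m j l => ?_ <;> rcases eq_or_ne m n with rfl | g
        exacts [update_self .., (update_of_ne g ..).trans (a m j), update_self ..,
          (update_of_ne g ..).trans (e m j (by simp [g, l]))]
    exact this R φ a fun n e g => absurd e g
  obtain ⟨Z, -, z1, z2⟩ := tb.isSeparable.exists_countable_dense_subset
  obtain ⟨D, d1, d2⟩ := ex_set fun z : Z => z.1.1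
  have d3 : Sub D X := fun z a => ((d2 z).1 a).elim fun y b => b ▸ y.1.2
  haveI := z1.to_subtype
  haveI : Countable (Ex D) := Surjective.countable (f := fun z : Z => ⟨z.1.1, (d2 _).2 ⟨z, rfl⟩⟩)
    fun z => ((d2 _).1 z.2).imp fun _ a => Subtype.ext a.symm
  obtain ⟨ψ, p⟩ := exists_injective_nat (Ex D)
  obtain ⟨F, g1, g2⟩ := ex_set fun x : Ex D => pr x.1 (num (ψ x))
  refine ⟨D, hs_of S d1 (fun y a => hX.mem (d3 y a)) fun φ a y b => (t2 φ a y (d3 y b)).symm ▸ b,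
    d1, d3, ⟨ψ, p, F, hs_of S g1 (fun y a => ((g2 y).1 a).elim fun x b => b ▸ hs_pr
      (hX.mem (d3 _ x.2)) (hs_num _)) fun φ a y b => ((g2 y).1 b).elim fun x e => (g2 _).2
        ⟨x, by rw [e, act_pr, act_num, t2 φ a _ (d3 _ x.2)]⟩, g1, g2⟩, fun U a ⟨x, b⟩ => ?_⟩
  obtain ⟨-, e, g⟩ := (o U (hT.mem a)).1 a
  obtain ⟨ε, i, j⟩ := g ⟨x, e x b⟩ b
  obtain ⟨y, k, l⟩ := Metric.mem_closure_iff.1 (z2 (mem_univ ⟨x, e x b⟩)) ε i
  exact ⟨y, (d2 _).2 ⟨⟨y, k⟩, rfl⟩, j y l⟩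

end Pool.Agent.H40.Hc
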