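import Pool.Agent.H40.InfLogicDefs

set_option autoImplicit false

namespace Pool.Agent.H40.InfLogic

open FirstOrder.Language

universe u

variable {L : FirstOrder.Language.{0, 0}}

def Form.and2 {α : Type} (φ ψ : Form L α) : Form L α := .conj Bool (fun b => cond b φ ψ)
def Form.or2 {α : Type} (φ ψ : Form L α) : Form L α := .disj Bool (fun b => cond b φ ψ)

theorem realize_and2 (M : Type u) [L.Structure M] {α : Type} (φ ψ : Form L α) (v : α → M) :
    (φ.and2 ψ).Realize M v ↔ φ.Realize M v ∧ ψ.Realize M v := by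
  simp [Form.and2, Form.Realize, and_comm]

theorem realize_or2 (M : Type u) [L.Structure M] {α : Type} (φ ψ : Form L α) (v : α → M) :
    (φ.or2 ψ).Realize M v ↔ φ.Realize M v ∨ ψ.Realize M v := by
  simp [Form.or2, Form.Realize, or_comm]

theorem in_and2 {α : Type} {φ ψ : Form L α} (h1 : φ.InOmegaOneOmega) (h2 : ψ.InOmegaOneOmega) :
    (φ.and2 ψ).InOmegaOneOmega := by
  refine ⟨inferInstance, fun b => ?_⟩
  cases b <;> assumption

theorem in_or2 {α : Type} {φ ψ : Form L α} (h1 : φ.InOmegaOneOmega) (h2 : ψ.InOmegaOneOmega) :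
    (φ.or2 ψ).InOmegaOneOmega := by
  refine ⟨inferInstance, fun b => ?_⟩
  cases b <;> assumption

def c0 {α : Type} (e : L.Functions 0) : L.Term α := .func e ![]
def a1 {α : Type} (f : L.Functions 1) (s : L.Term α) : L.Term α := .func f ![s]
def a2 {α : Type} (f : L.Functions 2) (s t : L.Term α) : L.Term α := .func f ![s, t]

theorem realize_c0 {M : Type u} [L.Structure M] {α : Type} (e : L.Functions 0) (v : α → M) :
    (c0 e : L.Term α).realize v = Structure.funMap e ![] := by
  simp only [c0, Term.realize]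
  congr 1
  funext i
  exact i.elim0

theorem realize_a1 {M : Type u} [L.Structure M] {α : Type} (f : L.Functions 1) (s : L.Term α)
    (v : α → M) : (a1 f s).realize v = Structure.funMap f ![s.realize v] := by
  simp only [a1, Term.realize]
  congr 1
  funext i
  fin_cases i
  rfl

theorem realize_a2 {M : Type u} [L.Structure M] {α : Type} (f : L.Functions 2) (s t : L.Term α)
    (v : α → M) : (a2 f s t).realize v = Structure.funMap f ![s.realize v, t.realize v] := by
  simp only [a2, Term.realize]
  congr 1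
  funext i
  fin_cases i <;> rfl

section sep

variable {ι : Type} (op : ι → L.Functions 2) (e : L.Functions 0)

/-- the local condition on a finite tuple with a colouring `c`. -/
def good (k n : ℕ) (c : Fin k → Fin n) : Form L ((Empty ⊕ Unit) ⊕ Fin k) :=
  Form.and2
    (.conj {p : Fin k × Fin k // c p.1 = c p.2} (fun p => .not (Form.and2
      (.equal (.var (.inr p.1.1)) (.var (.inl (.inr ()))))
      (.equal (.var (.inr p.1.2)) (c0 e)))))
    (.conj {p : ι × (Fin 6 → Fin k) // c (p.2 0) = c (p.2 1) ∧ c (p.2 2) = c (p.2 3) ∧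
        c (p.2 4) ≠ c (p.2 5)} (fun p => .not (Form.and2
      (.equal (a2 (op p.1.1) (.var (.inr (p.1.2 0))) (.var (.inr (p.1.2 2))))
        (.var (.inr (p.1.2 4))))
      (.equal (a2 (op p.1.1) (.var (.inr (p.1.2 1))) (.var (.inr (p.1.2 3))))
        (.var (.inr (p.1.2 5)))))))

def sep : Form L Empty :=
  .all Unit (Form.or2 (.equal (.var (.inr ())) (c0 e))
    (.disj ℕ (fun n => .conj ℕ (fun k => .all (Fin k)
      (.disj (Fin k → Fin n) (fun c => good op e k n c))))))

theorem in_sep [Countable ι] : (sep op e).InOmegaOneOmega := by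
  refine ⟨inferInstance, in_or2 trivial ⟨inferInstance, fun n => ⟨inferInstance, fun k =>
    ⟨inferInstance, ⟨inferInstance, fun c => in_and2 ⟨inferInstance, fun p => ?_⟩
      ⟨inferInstance, fun p => ?_⟩⟩⟩⟩⟩⟩
  · exact in_and2 (φ := .equal _ _) (ψ := .equal _ _) trivial trivial
  · exact in_and2 (φ := .equal _ _) (ψ := .equal _ _) trivial trivial

theorem realize_good (M : Type u) [L.Structure M] (k n : ℕ) (c : Fin k → Fin n)
    (v : Empty → M) (w : Unit → M) (x : Fin k → M) :
    (good op e k n c).Realize M (Sum.elim (Sum.elim v w) x) ↔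
      (∀ i j, c i = c j → ¬ (x i = w () ∧ x j = Structure.funMap e ![])) ∧
      (∀ (o : ι) (q : Fin 6 → Fin k), c (q 0) = c (q 1) → c (q 2) = c (q 3) →
        Structure.funMap (op o) ![x (q 0), x (q 2)] = x (q 4) →
        Structure.funMap (op o) ![x (q 1), x (q 3)] = x (q 5) → c (q 4) = c (q 5)) := by
  simp only [good, realize_and2, Form.Realize, realize_c0, realize_a2, Term.realize,
    Sum.elim_inr, Sum.elim_inl, Subtype.forall, Prod.forall]
  refine and_congr Iff.rfl ?_
  constructor
  · intro h o q h1 h2 h3 h4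
    by_contra h5
    exact h o q ⟨h1, h2, h5⟩ ⟨h3, h4⟩
  · rintro h o q ⟨h1, h2, h5⟩ ⟨h3, h4⟩
    exact h5 (h o q h1 h2 h3 h4)

/-- Compactness: `sep` says that every element other than the constant is separated from the
constant by a congruence with finitely many classes. -/
theorem realize_sep (M : Type u) [L.Structure M] (v : Empty → M) :
    (sep op e).Realize M v ↔ ∀ a : M, a ≠ Structure.funMap e ![] →
      ∃ (n : ℕ) (c : M → Fin n), c a ≠ c (Structure.funMap e ![]) ∧
        ∀ (o : ι) (x x' y y' : M), c x = c x' → c y = c y' →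
          c (Structure.funMap (op o) ![x, y]) = c (Structure.funMap (op o) ![x', y']) := by
  classical
  simp only [sep, realize_or2, Form.Realize, realize_c0, Term.realize, Sum.elim_inr,
    realize_good]
  constructor
  · intro h a ha
    rcases h (fun _ => a) with h | ⟨n, h⟩
    · exact absurd h ha
    refine ⟨n, ?_⟩
    have key : ∀ s : Finset M, ∃ g : s → Fin n,
        (∀ i j : s, g i = g j → ¬ ((i : M) = a ∧ (j : M) = Structure.funMap e ![])) ∧
        (∀ (o : ι) (q : Fin 6 → s), g (q 0) = g (q 1) → g (q 2) = g (q 3) →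
          Structure.funMap (op o) ![(q 0 : M), (q 2 : M)] = (q 4 : M) →
          Structure.funMap (op o) ![(q 1 : M), (q 3 : M)] = (q 5 : M) → g (q 4) = g (q 5)) := by
      intro s
      obtain ⟨c, h1, h2⟩ := h s.card (fun i => (s.equivFin.symm i : M))
      refine ⟨fun m => c (s.equivFin m), fun i j hij => ?_, fun o q a1 a2 a3 a4 => ?_⟩
      · simpa using h1 _ _ hij
      · exact h2 o (fun i => s.equivFin (q i)) a1 a2 (by simpa using a3) (by simpa using a4)
    choose g hg1 hg2 using key
    obtain ⟨χ, hχ⟩ := Finset.rado_selection_subtype (β := fun _ => Fin n) g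
    refine ⟨χ, ?_, ?_⟩
    · obtain ⟨t, hst, ht⟩ := hχ {a, Structure.funMap e ![]}
      intro hc
      have e1 := ht ⟨a, by simp⟩
      have e2 := ht ⟨Structure.funMap e ![], by simp⟩
      simp only at e1 e2
      rw [e1, e2] at hc
      exact hg1 t _ _ hc ⟨rfl, rfl⟩
    · intro o x x' y y' hx hy
      obtain ⟨t, hst, ht⟩ := hχ {x, x', y, y', Structure.funMap (op o) ![x, y],
        Structure.funMap (op o) ![x', y']}
      have e0 := ht ⟨x, by simp⟩
      have e1 := ht ⟨x', by simp⟩
      have e2 := ht ⟨y, by simp⟩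
      have e3 := ht ⟨y', by simp⟩
      have e4 := ht ⟨Structure.funMap (op o) ![x, y], by simp⟩
      have e5 := ht ⟨Structure.funMap (op o) ![x', y'], by simp⟩
      simp only at e0 e1 e2 e3 e4 e5
      rw [e4, e5]
      rw [e0, e1] at hx
      rw [e2, e3] at hy
      exact hg2 t o ![⟨x, hst (by simp)⟩, ⟨x', hst (by simp)⟩, ⟨y, hst (by simp)⟩,
        ⟨y', hst (by simp)⟩, ⟨Structure.funMap (op o) ![x, y], hst (by simp)⟩,
        ⟨Structure.funMap (op o) ![x', y'], hst (by simp)⟩] hx hy rfl rfl
  · intro h w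
    by_cases hw : w () = Structure.funMap e ![]
    · exact Or.inl hw
    right
    obtain ⟨n, c, h1, h2⟩ := h _ hw
    refine ⟨n, fun k x => ⟨fun i => c (x i), ?_, ?_⟩⟩
    · rintro i j hij ⟨a1, a2⟩
      simp only [a1, a2] at hij
      exact h1 hij
    · intro o q a1 a2 a3 a4
      show c (x (q 4)) = c (x (q 5))
      rw [← a3, ← a4]
      exact h2 o _ _ _ _ a1 a2

end sep

/-- universal closure of an identity in three variables -/
def ident (s t : L.Term (Empty ⊕ Fin 3)) : Form L Empty := .all (Fin 3) (.equal s t)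

theorem in_ident (s t : L.Term (Empty ⊕ Fin 3)) : (ident s t).InOmegaOneOmega :=
  ⟨inferInstance, trivial⟩

def X (i : Fin 3) : L.Term (Empty ⊕ Fin 3) := .var (.inr i)

theorem realize_X {M : Type u} [L.Structure M] (i : Fin 3) (v : Empty → M) (w : Fin 3 → M) :
    (X i : L.Term _).realize (Sum.elim v w) = w i := rfl

/-! Groups -/

def gmul : groupLang.Functions 2 := GroupFn.mul
def ginv : groupLang.Functions 1 := GroupFn.inv
def gone : groupLang.Functions 0 := GroupFn.one

def groupSent : Form groupLang Empty :=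
  Form.and2 (ident (a2 gmul (a2 gmul (X 0) (X 1)) (X 2)) (a2 gmul (X 0) (a2 gmul (X 1) (X 2))))
  (Form.and2 (ident (a2 gmul (c0 gone) (X 0)) (X 0))
  (Form.and2 (ident (a2 gmul (a1 ginv (X 0)) (X 0)) (c0 gone))
    (sep (fun _ : Unit => gmul) gone)))

theorem in_groupSent : groupSent.InOmegaOneOmega :=
  in_and2 (in_ident _ _) (in_and2 (in_ident _ _) (in_and2 (in_ident _ _) (in_sep _ _)))

theorem realize_groupSent (M : Type u) [groupLang.Structure M] :
    groupSent.Realize M Empty.elim ↔ IsResFinGroup M := by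
  simp only [groupSent, realize_and2, realize_sep, ident, Form.Realize, realize_a2, realize_a1,
    realize_c0, realize_X]
  constructor
  · rintro ⟨h1, h2, h3, h4⟩
    letI : Mul M := ⟨fun a b => Structure.funMap gmul ![a, b]⟩
    letI : Inv M := ⟨fun a => Structure.funMap ginv ![a]⟩
    letI : One M := ⟨Structure.funMap gone ![]⟩
    letI G : Group M := Group.ofLeftAxioms (fun a b c => h1 ![a, b, c]) (fun a => h2 ![a, a, a])
      (fun a => h3 ![a, a, a])
    refine ⟨G, rfl, fun _ => rfl, fun _ _ => rfl, fun g hg => ?_⟩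
    obtain ⟨n, c, hc1, hc2⟩ := h4 g hg
    let C : Con M := { toSetoid := Setoid.ker c
                       mul' := fun {w x y z} a b => hc2 () w x y z a b }
    have : Finite C.Quotient := Finite.of_injective _ (Setoid.kerLift_injective c)
    refine ⟨C.mk'.ker, inferInstance, Subgroup.finiteIndex_ker _, fun hm => hc1 ?_⟩
    rw [MonoidHom.mem_ker] at hm
    have : C.mk' g = C.mk' 1 := by rw [hm, map_one]
    exact C.eq.mp this
  · rintro ⟨G, e0, e1, e2, h⟩
    have e0' : Structure.funMap gone ![] = (1 : M) := e0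
    have e1' : ∀ a : M, Structure.funMap ginv ![a] = a⁻¹ := e1
    have e2' : ∀ a b : M, Structure.funMap gmul ![a, b] = a * b := e2
    simp only [e0', e1', e2']
    refine ⟨fun w => mul_assoc _ _ _, fun w => one_mul _, fun w => inv_mul_cancel _,
      fun a ha => ?_⟩
    obtain ⟨N, hN, hfi, haN⟩ := h a ha
    have : Finite (M ⧸ N) := Subgroup.finite_quotient_of_finiteIndex
    obtain ⟨n, ⟨φ⟩⟩ := Finite.exists_equiv_fin (M ⧸ N)
    refine ⟨n, fun m => φ (QuotientGroup.mk' N m), fun hc => haN ?_, fun _ x x' y y' hx hy => ?_⟩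
    · have := φ.injective hc
      rw [map_one] at this
      exact (QuotientGroup.eq_one_iff a).mp this
    · simp only [map_mul]
      rw [φ.injective hx, φ.injective hy]

/-! Rings -/

def radd : ringLang.Functions 2 := RingFn.add
def rmul : ringLang.Functions 2 := RingFn.mul
def rneg : ringLang.Functions 1 := RingFn.neg
def rzero : ringLang.Functions 0 := RingFn.zero

def ringSent : Form ringLang Empty :=
  Form.and2 (ident (a2 radd (a2 radd (X 0) (X 1)) (X 2)) (a2 radd (X 0) (a2 radd (X 1) (X 2))))
  (Form.and2 (ident (a2 radd (c0 rzero) (X 0)) (X 0))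
  (Form.and2 (ident (a2 radd (a1 rneg (X 0)) (X 0)) (c0 rzero))
  (Form.and2 (ident (a2 radd (X 0) (X 1)) (a2 radd (X 1) (X 0)))
  (Form.and2 (ident (a2 rmul (a2 rmul (X 0) (X 1)) (X 2)) (a2 rmul (X 0) (a2 rmul (X 1) (X 2))))
  (Form.and2 (ident (a2 rmul (X 0) (a2 radd (X 1) (X 2)))
    (a2 radd (a2 rmul (X 0) (X 1)) (a2 rmul (X 0) (X 2))))
  (Form.and2 (ident (a2 rmul (a2 radd (X 0) (X 1)) (X 2))
    (a2 radd (a2 rmul (X 0) (X 2)) (a2 rmul (X 1) (X 2))))
  (Form.and2 (ident (a2 rmul (c0 rzero) (X 0)) (c0 rzero))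
  (Form.and2 (ident (a2 rmul (X 0) (c0 rzero)) (c0 rzero))
    (sep (fun b : Bool => cond b radd rmul) rzero)))))))))

theorem in_ringSent : ringSent.InOmegaOneOmega :=
  in_and2 (in_ident _ _) (in_and2 (in_ident _ _) (in_and2 (in_ident _ _)
    (in_and2 (in_ident _ _) (in_and2 (in_ident _ _) (in_and2 (in_ident _ _)
    (in_and2 (in_ident _ _) (in_and2 (in_ident _ _) (in_and2 (in_ident _ _) (in_sep _ _)))))))))

theorem realize_ringSent (M : Type u) [ringLang.Structure M] :
    ringSent.Realize M Empty.elim ↔ IsResFinRing M := by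
  simp only [ringSent, realize_and2, realize_sep, ident, Form.Realize, realize_a2, realize_a1,
    realize_c0, realize_X]
  constructor
  · rintro ⟨h1, h2, h3, h4, h5, h6, h7, h8, h9, h⟩
    letI : Add M := ⟨fun a b => Structure.funMap radd ![a, b]⟩
    letI : Neg M := ⟨fun a => Structure.funMap rneg ![a]⟩
    letI : Zero M := ⟨Structure.funMap rzero ![]⟩
    letI G : AddGroup M := AddGroup.ofLeftAxioms (fun a b c => h1 ![a, b, c])
      (fun a => h2 ![a, a, a]) (fun a => h3 ![a, a, a])
    letI R : NonUnitalRing M :=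
      { G with
        add_comm := fun a b => h4 ![a, b, a]
        mul := fun a b => Structure.funMap rmul ![a, b]
        mul_assoc := fun a b c => h5 ![a, b, c]
        left_distrib := fun a b c => h6 ![a, b, c]
        right_distrib := fun a b c => h7 ![a, b, c]
        zero_mul := fun a => h8 ![a, a, a]
        mul_zero := fun a => h9 ![a, a, a] }
    refine ⟨R, rfl, fun _ => rfl, fun _ _ => rfl, fun _ _ => rfl, fun g hg => ?_⟩
    obtain ⟨n, c, hc1, hc2⟩ := h g hg
    let C : RingCon M := { toSetoid := Setoid.ker c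
                           mul' := fun {w x y z} a b => hc2 false w x y z a b
                           add' := fun {w x y z} a b => hc2 true w x y z a b }
    exact ⟨⟨C⟩, Finite.of_injective _ (Setoid.kerLift_injective c), fun hm => hc1 hm⟩
  · rintro ⟨G, e0, e1, e2, e3, h⟩
    have e0' : Structure.funMap rzero ![] = (0 : M) := e0
    have e1' : ∀ a : M, Structure.funMap rneg ![a] = -a := e1
    have e2' : ∀ a b : M, Structure.funMap radd ![a, b] = a + b := e2
    have e3' : ∀ a b : M, Structure.funMap rmul ![a, b] = a * b := e3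
    simp only [e0', e1', e2', e3']
    refine ⟨fun w => add_assoc _ _ _, fun w => zero_add _, fun w => neg_add_cancel _,
      fun w => add_comm _ _, fun w => mul_assoc _ _ _, fun w => mul_add _ _ _,
      fun w => add_mul _ _ _, fun w => zero_mul _, fun w => mul_zero _, fun a ha => ?_⟩
    obtain ⟨I, hfi, haI⟩ := h a ha
    obtain ⟨n, ⟨φ⟩⟩ := Finite.exists_equiv_fin I.ringCon.Quotient
    refine ⟨n, fun m => φ (m : I.ringCon.Quotient), fun hc => haI ?_,
      fun o x x' y y' hx hy => ?_⟩
    · exact I.ringCon.eq.mp (φ.injective hc)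
    · have hx' := I.ringCon.eq.mp (φ.injective hx)
      have hy' := I.ringCon.eq.mp (φ.injective hy)
      cases o
      · simp only [cond_false, e3']
        exact congrArg φ (I.ringCon.eq.mpr (I.ringCon.mul hx' hy'))
      · simp only [cond_true, e2']
        exact congrArg φ (I.ringCon.eq.mpr (I.ringCon.add hx' hy'))

end Pool.Agent.H40.InfLogic
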