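import Mathlib

set_option autoImplicit false

namespace Pool.Agent.H40.InfLogic


universe u

/-- Formulas of the infinitary logic `L_{∞,∞}` over the signature `L`, with free variables in `α`:
conjunctions and disjunctions over arbitrary index sets, quantifiers over arbitrary sets of
variables. -/
inductive Form (L : FirstOrder.Language.{0, 0}) : Type → Type 1
  | equal {α : Type} (s t : L.Term α) : Form L α
  | rel {α : Type} {n : ℕ} (R : L.Relations n) (ts : Fin n → L.Term α) : Form L α
  | not {α : Type} (φ : Form L α) : Form L α
  | conj {α : Type} (ι : Type) (φ : ι → Form L α) : Form L α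
  | disj {α : Type} (ι : Type) (φ : ι → Form L α) : Form L α
  | all {α : Type} (β : Type) (φ : Form L (α ⊕ β)) : Form L α
  | ex {α : Type} (β : Type) (φ : Form L (α ⊕ β)) : Form L α

/-- Tarski satisfaction of an infinitary formula in the structure `M` under an assignment. -/
def Form.Realize {L : FirstOrder.Language.{0, 0}} (M : Type u) [L.Structure M] :
    {α : Type} → Form L α → (α → M) → Prop
  | _, .equal s t, v => s.realize v = t.realize v
  | _, .rel R ts, v => FirstOrder.Language.Structure.RelMap R (fun i => (ts i).realize v)
  | _, .not φ, v => ¬ Form.Realize M φ v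
  | _, .conj _ φ, v => ∀ i, Form.Realize M (φ i) v
  | _, .disj _ φ, v => ∃ i, Form.Realize M (φ i) v
  | _, .all β φ, v => ∀ w : β → M, Form.Realize M φ (Sum.elim v w)
  | _, .ex β φ, v => ∃ w : β → M, Form.Realize M φ (Sum.elim v w)

/-- The formula lies in `L_{ω₁,ω}`: all conjunctions and disjunctions are countable and all
quantifier blocks are finite. -/
def Form.InOmegaOneOmega {L : FirstOrder.Language.{0, 0}} : {α : Type} → Form L α → Prop
  | _, .equal _ _ => True
  | _, .rel _ _ => True
  | _, .not φ => Form.InOmegaOneOmega φ
  | _, .conj ι φ => Countable ι ∧ ∀ i, Form.InOmegaOneOmega (φ i)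
  | _, .disj ι φ => Countable ι ∧ ∀ i, Form.InOmegaOneOmega (φ i)
  | _, .all β φ => Finite β ∧ Form.InOmegaOneOmega φ
  | _, .ex β φ => Finite β ∧ Form.InOmegaOneOmega φ

/-- Function symbols `0, -, +, ·` of the signature of rings without identity. -/
inductive RingFn : ℕ → Type
  | zero : RingFn 0
  | neg : RingFn 1
  | add : RingFn 2
  | mul : RingFn 2

/-- The signature of rings without identity. -/
def ringLang : FirstOrder.Language.{0, 0} := ⟨RingFn, fun _ => Empty⟩

/-- A structure of the ring signature is a residually finite ring: its operations make it an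
associative ring (no identity required), and every nonzero element lies outside some two-sided
ideal with finite quotient. -/
def IsResFinRing (M : Type u) [ringLang.Structure M] : Prop :=
  ∃ _ : NonUnitalRing M,
    (FirstOrder.Language.Structure.funMap (L := ringLang) RingFn.zero ![] = (0 : M)) ∧
    (∀ a : M, FirstOrder.Language.Structure.funMap (L := ringLang) RingFn.neg ![a] = -a) ∧
    (∀ a b : M, FirstOrder.Language.Structure.funMap (L := ringLang) RingFn.add ![a, b] = a + b) ∧
    (∀ a b : M, FirstOrder.Language.Structure.funMap (L := ringLang) RingFn.mul ![a, b] = a * b) ∧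
    ∀ a : M, a ≠ 0 → ∃ I : TwoSidedIdeal M, Finite I.ringCon.Quotient ∧ a ∉ I

/-- Function symbols `1, ⁻¹, ·` of the signature of groups. -/
inductive GroupFn : ℕ → Type
  | one : GroupFn 0
  | inv : GroupFn 1
  | mul : GroupFn 2

/-- The signature of groups. -/
def groupLang : FirstOrder.Language.{0, 0} := ⟨GroupFn, fun _ => Empty⟩

/-- A structure of the group signature is a residually finite group: its operations make it a
group, and every element other than `1` lies outside some normal subgroup of finite index. -/
def IsResFinGroup (M : Type u) [groupLang.Structure M] : Prop :=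
  ∃ _ : Group M,
    (FirstOrder.Language.Structure.funMap (L := groupLang) GroupFn.one ![] = (1 : M)) ∧
    (∀ a : M, FirstOrder.Language.Structure.funMap (L := groupLang) GroupFn.inv ![a] = a⁻¹) ∧
    (∀ a b : M, FirstOrder.Language.Structure.funMap (L := groupLang) GroupFn.mul ![a, b] = a * b) ∧
    ∀ g : M, g ≠ 1 → ∃ N : Subgroup M, N.Normal ∧ N.FiniteIndex ∧ g ∉ N

end Pool.Agent.H40.InfLogic
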