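import Pool.Agent.H40.IsoDefs

set_option autoImplicit false

namespace Pool.Agent.H40.Isotyp

open FirstOrder FirstOrder.Language

inductive Fn : ℕ → Type
  | s : ℕ → Fn 1
  | al : Fn 1

abbrev LL : FirstOrder.Language.{0, 0} := ⟨Fn, fun _ => Empty⟩

def ts (i : ℕ) (t : LL.Term ℕ) : LL.Term ℕ := .func (Fn.s i) fun _ => t
def ta (t : LL.Term ℕ) : LL.Term ℕ := .func Fn.al fun _ => t

def EE : Set (LL.Term ℕ × LL.Term ℕ) :=
  {e | (∃ i j, e = (ts i (ts j (.var 0)), ts j (ts i (.var 0)))) ∨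
    (∃ i j, e = (ta (ts i (ts j (.var 0))), ta (.var 0))) ∨
    (∃ i, e = (ta (ts i (.var 0)), ta (ts 0 (.var 0)))) ∨
    (∃ i, e = (ts i (ta (.var 0)), ta (.var 0))) ∨ e = (ta (ta (.var 0)), ta (.var 0))}

abbrev HH : Type := Multiset ℕ ⊕ Bool

def hs (i : ℕ) : HH → HH
  | .inl m => .inl (i ::ₘ m)
  | .inr c => .inr c

def ha : HH → HH
  | .inl m => .inr (Multiset.card m).bodd
  | .inr c => .inr c

instance : LL.Structure HH where
  funMap := fun {n} f v => match n, f, v with
    | _, .s i, v => hs i (v 0)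
    | _, .al, v => ha (v 0)
  RelMap := fun r => r.elim

def fs {A : Type} [LL.Structure A] (i : ℕ) (a : A) : A :=
  Structure.funMap (L := LL) (Fn.s i) fun _ => a

def fa {A : Type} [LL.Structure A] (a : A) : A := Structure.funMap (L := LL) Fn.al fun _ => a

theorem inVar_iff (A : Type) [LL.Structure A] : InVariety EE A ↔
    (∀ i j (a : A), fs i (fs j a) = fs j (fs i a)) ∧ (∀ i j (a : A), fa (fs i (fs j a)) = fa a) ∧
    (∀ i (a : A), fa (fs i a) = fa (fs 0 a)) ∧ (∀ i (a : A), fs i (fa a) = fa a) ∧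
    ∀ a : A, fa (fa a) = fa a := by
  constructor
  · exact fun h => ⟨fun i j a => h _ (Or.inl ⟨i, j, rfl⟩) fun _ => a,
      fun i j a => h _ (Or.inr (Or.inl ⟨i, j, rfl⟩)) fun _ => a,
      fun i a => h _ (Or.inr (Or.inr (Or.inl ⟨i, rfl⟩))) fun _ => a,
      fun i a => h _ (Or.inr (Or.inr (Or.inr (Or.inl ⟨i, rfl⟩)))) fun _ => a,
      fun a => h _ (Or.inr (Or.inr (Or.inr (Or.inr rfl)))) fun _ => a⟩
  · rintro ⟨h1, h2, h3, h4, h5⟩ _ (⟨i, j, rfl⟩ | ⟨i, j, rfl⟩ | ⟨i, rfl⟩ | ⟨i, rfl⟩ | rfl) v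
    · exact h1 i j _
    · exact h2 i j _
    · exact h3 i _
    · exact h4 i _
    · exact h5 _

theorem hh_var : InVariety EE HH := by
  refine (inVar_iff HH).2 ⟨?_, ?_, ?_, ?_, ?_⟩
  · rintro i j (m | c)
    · exact congrArg Sum.inl (Multiset.cons_swap i j m)
    · rfl
  · rintro i j (m | c)
    · show Sum.inr (Multiset.card (i ::ₘ j ::ₘ m)).bodd = Sum.inr (Multiset.card m).bodd
      simp
    · rfl
  · rintro i (m | c)
    · show Sum.inr (Multiset.card (i ::ₘ m)).bodd = Sum.inr (Multiset.card (0 ::ₘ m)).bodd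
      simp
    · rfl
  · rintro i (m | c) <;> rfl
  · rintro (m | c) <;> rfl

theorem hom_s {A B : Type} [LL.Structure A] [LL.Structure B] (f : LL.Hom A B) (i : ℕ) (a : A) :
    f (fs i a) = fs i (f a) := f.map_fun (Fn.s i) fun _ => a

theorem hom_a {A B : Type} [LL.Structure A] [LL.Structure B] (f : LL.Hom A B) (a : A) :
    f (fa a) = fa (f a) := f.map_fun Fn.al fun _ => a

theorem hom_ext {A : Type} [LL.Structure A] (f g : LL.Hom HH A)
    (h : f (.inl 0) = g (.inl 0)) : f = g := by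
  have h1 : ∀ m, f (.inl m) = g (.inl m) := by
    intro m
    induction m using Multiset.induction_on with
    | empty => exact h
    | cons i m ih => exact (hom_s f i (.inl m)).trans (ih ▸ (hom_s g i (.inl m)).symm)
  ext (m | _ | _)
  · exact h1 m
  · exact (hom_a f (.inl 0)).trans (h ▸ (hom_a g (.inl 0)).symm)
  · exact (hom_a f (.inl {0})).trans (h1 {0} ▸ (hom_a g (.inl {0})).symm)

theorem hh_free : IsFree EE HH 1 := by
  refine ⟨hh_var, fun _ => .inl 0, fun A _ hA a => ?_⟩
  obtain ⟨h1, h2, h3, h4, h5⟩ := (inVar_iff A).1 hA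
  haveI : LeftCommutative (fs : ℕ → A → A) := ⟨h1⟩
  let F : HH → A := Sum.elim (fun m => m.foldr fs (a 0))
    fun c => cond c (fa (fs 0 (a 0))) (fa (a 0))
  have k1 : ∀ m : Multiset ℕ, fa (m.foldr fs (a 0)) = F (.inr (Multiset.card m).bodd) ∧
      fa (fs 0 (m.foldr fs (a 0))) = F (.inr !(Multiset.card m).bodd) := by
    intro m
    induction m using Multiset.induction_on with
    | empty => exact ⟨rfl, rfl⟩
    | cons i m ih =>
      rw [Multiset.foldr_cons, Multiset.card_cons, Nat.bodd_succ, Bool.not_not, h2, h3]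
      exact ⟨ih.2, ih.1⟩
  refine ⟨⟨F, ?_, fun r => r.elim⟩, funext fun i => ?_, fun g hg => hom_ext _ _ ?_⟩
  · intro n f v
    cases f with
    | s i =>
      rw [show F ∘ v = fun _ => F (v 0) from funext fun j => by rw [Subsingleton.elim j 0]; rfl]
      show F (hs i (v 0)) = fs i (F (v 0))
      rcases v 0 with m | _ | _
      · exact Multiset.foldr_cons _ _ _ _
      · exact (h4 _ _).symm
      · exact (h4 _ _).symm
    | al =>
      rw [show F ∘ v = fun _ => F (v 0) from funext fun j => by rw [Subsingleton.elim j 0]; rfl]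
      show F (ha (v 0)) = fa (F (v 0))
      rcases v 0 with m | _ | _
      · exact (k1 m).1.symm
      · exact (h5 _).symm
      · exact (h5 _).symm
  · rw [Subsingleton.elim i 0]; rfl
  · exact congrFun hg 0

def fl (N : ℕ) (m : Multiset ℕ) : Multiset ℕ :=
  if m.count N % 2 = 0 then N ::ₘ m else m.erase N

theorem fl_fl (N : ℕ) (m : Multiset ℕ) : fl N (fl N m) = m := by
  by_cases h : m.count N % 2 = 0
  · rw [fl, fl, if_pos h, if_neg (by rw [Multiset.count_cons_self]; omega),
      Multiset.erase_cons_head]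
  · rw [fl, fl, if_neg h, if_pos (by rw [Multiset.count_erase_self]; omega),
      Multiset.cons_erase (Multiset.count_pos.1 (by omega))]

theorem fl_cons (N i : ℕ) (h : i ≠ N) (m : Multiset ℕ) : fl N (i ::ₘ m) = i ::ₘ fl N m := by
  rw [fl, fl, Multiset.count_cons_of_ne h.symm]
  split_ifs
  · exact Multiset.cons_swap _ _ _
  · exact Multiset.erase_cons_tail _ h

theorem fl_card (N : ℕ) (m : Multiset ℕ) :
    (Multiset.card (fl N m)).bodd = !(Multiset.card m).bodd := by
  rw [fl]
  split_ifs with h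
  · simp
  · conv_rhs => rw [← Multiset.cons_erase (Multiset.count_pos.1 (show 0 < m.count N by omega))]
    simp

def sg (N : ℕ) : HH → HH := Sum.map (fl N) not

theorem sg_sg (N : ℕ) (x : HH) : sg N (sg N x) = x := by
  rcases x with m | c
  · exact congrArg Sum.inl (fl_fl N m)
  · exact congrArg Sum.inr (Bool.not_not c)

theorem term_sg {α : Type} (t : LL.Term α) : ∃ B, ∀ N ≥ B, ∀ v : α → HH,
    t.realize (sg N ∘ v) = sg N (t.realize v) := by
  induction t with
  | var a => exact ⟨0, fun _ _ _ => rfl⟩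
  | func f ts ih =>
    cases f with
    | s i =>
      obtain ⟨B, h⟩ := ih 0
      refine ⟨max B (i + 1), fun N hN v => ?_⟩
      show hs i ((ts 0).realize (sg N ∘ v)) = sg N (hs i ((ts 0).realize v))
      rw [h N (le_of_max_le_left hN)]
      rcases (ts 0).realize v with m | c
      · exact congrArg Sum.inl (fl_cons N i (Nat.ne_of_lt (le_of_max_le_right hN)) m).symm
      · rfl
    | al =>
      obtain ⟨B, h⟩ := ih 0
      refine ⟨B, fun N hN v => ?_⟩
      show ha ((ts 0).realize (sg N ∘ v)) = sg N (ha ((ts 0).realize v))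
      rw [h N hN]
      rcases (ts 0).realize v with m | c
      · exact congrArg Sum.inr (fl_card N m)
      · rfl

theorem form_sg {α : Type} {l : ℕ} (φ : LL.BoundedFormula α l) : ∃ B, ∀ N ≥ B,
    ∀ (v : α → HH) (xs : Fin l → HH), φ.Realize (sg N ∘ v) (sg N ∘ xs) ↔ φ.Realize v xs := by
  induction φ with
  | falsum => exact ⟨0, fun _ _ _ _ => Iff.rfl⟩
  | equal t₁ t₂ =>
    obtain ⟨B, h⟩ := term_sg t₁
    obtain ⟨B', h'⟩ := term_sg t₂
    refine ⟨max B B', fun N hN v xs => ?_⟩
    show t₁.realize (Sum.elim (sg N ∘ v) (sg N ∘ xs)) =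
      t₂.realize (Sum.elim (sg N ∘ v) (sg N ∘ xs)) ↔ _
    rw [← Sum.comp_elim, h N (le_of_max_le_left hN), h' N (le_of_max_le_right hN)]
    exact (Function.LeftInverse.injective (sg_sg N)).eq_iff
  | rel R _ => exact R.elim
  | imp φ ψ ih1 ih2 =>
    obtain ⟨B, h⟩ := ih1
    obtain ⟨B', h'⟩ := ih2
    exact ⟨max B B', fun N hN v xs =>
      imp_congr (h N (le_of_max_le_left hN) v xs) (h' N (le_of_max_le_right hN) v xs)⟩
  | all φ ih =>
    obtain ⟨B, h⟩ := ih
    refine ⟨B, fun N hN v xs => ⟨fun h1 a => (h N hN v _).1 ?_, fun h1 a => ?_⟩⟩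
    · rw [Fin.comp_snoc]
      exact h1 _
    · have := (h N hN v _).2 (h1 (sg N a))
      rwa [Fin.comp_snoc, sg_sg] at this

theorem same : SameType LL (fun _ : Fin 1 => (Sum.inr false : HH))
    fun _ => (Sum.inr true : HH) := by
  intro φ
  obtain ⟨B, h⟩ := form_sg φ
  refine (h B le_rfl (fun _ => Sum.inr false) _).symm.trans (iff_of_eq ?_)
  exact congrArg (BoundedFormula.Realize φ _) (Subsingleton.elim _ _)

theorem no_aut (σ : LL.Equiv HH HH) : σ (.inr false) ≠ .inr true := by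
  obtain ⟨x, hx⟩ := σ.surjective (.inl 0)
  have h0 : x = .inl 0 := by
    rcases x with m | c
    · induction m using Multiset.induction_on with
      | empty => rfl
      | cons i m _ =>
        have h1 : hs i (σ (.inl m)) = .inl 0 := (hom_s σ.toHom i (.inl m)).symm.trans hx
        rcases h2 : σ (.inl m) with m' | c <;> rw [h2] at h1
        · exact absurd (Sum.inl_injective h1) Multiset.cons_ne_zero
        · exact absurd h1 (by simp [hs])
    · have h1 : ha (σ (.inr c)) = .inl 0 := (hom_a σ.toHom (.inr c)).symm.trans hx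
      rcases h2 : σ (.inr c) with m' | c <;> rw [h2] at h1 <;> exact absurd h1 (by simp [ha])
  subst h0
  have h1 : σ (.inr false) = ha (σ (.inl 0)) := hom_a σ.toHom (.inl 0)
  rw [h1, hx]
  simp [ha]

end Pool.Agent.H40.Isotyp
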