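import Pool.Agent.H40.IsoDefs

namespace Pool.Agent.H40.Isotyp2

open Pool.Agent.H40.Isotyp

inductive Fn : ℕ → Type
  | u : ℕ → Fn 1
  | t : Fn 1
  | p : Fn 1

abbrev LL : FirstOrder.Language.{0, 0} := ⟨Fn, fun _ => Empty⟩

def idx : {n : ℕ} → Fn n → ℕ
  | _, .u i => i
  | _, .t => 0
  | _, .p => 0

theorem term_eq {α : Type} (s : LL.Term α) : ∃ N, ∀ (A B : Type) [LL.Structure A] [LL.Structure B]
    (σ : A → B), (∀ n (f : Fn n) v, idx f < N → σ (FirstOrder.Language.Structure.funMap (L := LL) f v)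
      = FirstOrder.Language.Structure.funMap (L := LL) f (σ ∘ v)) →
    ∀ v : α → A, s.realize (σ ∘ v) = σ (s.realize v) := by
  induction s with
  | var a => exact ⟨0, fun _ _ _ _ _ _ _ => rfl⟩
  | @func n f ts ih =>
    choose N h using ih
    refine ⟨max (idx f + 1) (Finset.univ.sup N), fun A B _ _ σ hσ v => ?_⟩
    simp only [FirstOrder.Language.Term.realize]
    rw [hσ n f _ (lt_max_of_lt_left (Nat.lt_succ_self _))]
    congr 1
    funext i
    exact h i A B σ (fun n f v hf => hσ n f v (lt_max_of_lt_right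
      (hf.trans_le (Finset.le_sup (Finset.mem_univ i))))) v

theorem form_eq {α : Type} {l : ℕ} (φ : LL.BoundedFormula α l) : ∃ N,
    ∀ (A B : Type) [LL.Structure A] [LL.Structure B] (σ : A ≃ B),
    (∀ n (f : Fn n) v, idx f < N → σ (FirstOrder.Language.Structure.funMap (L := LL) f v)
      = FirstOrder.Language.Structure.funMap (L := LL) f (σ ∘ v)) →
    ∀ (v : α → A) (xs : Fin l → A), φ.Realize (σ ∘ v) (σ ∘ xs) ↔ φ.Realize v xs := by
  induction φ with
  | falsum => exact ⟨0, fun _ _ _ _ _ _ _ _ => Iff.rfl⟩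
  | equal t₁ t₂ =>
    obtain ⟨N, h⟩ := term_eq t₁
    obtain ⟨N', h'⟩ := term_eq t₂
    refine ⟨max N N', fun A B _ _ σ hσ v xs => ?_⟩
    show t₁.realize (Sum.elim (σ ∘ v) (σ ∘ xs)) = t₂.realize (Sum.elim (σ ∘ v) (σ ∘ xs)) ↔ _
    rw [← Sum.comp_elim, h A B σ fun n f v hf => hσ n f v (lt_max_of_lt_left hf),
      h' A B σ fun n f v hf => hσ n f v (lt_max_of_lt_right hf)]
    exact σ.injective.eq_iff
  | rel R _ => exact R.elim
  | imp φ ψ ih1 ih2 =>
    obtain ⟨N, h⟩ := ih1
    obtain ⟨N', h'⟩ := ih2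
    exact ⟨max N N', fun A B _ _ σ hσ v xs =>
      imp_congr (h A B σ (fun n f v hf => hσ n f v (lt_max_of_lt_left hf)) v xs)
        (h' A B σ (fun n f v hf => hσ n f v (lt_max_of_lt_right hf)) v xs)⟩
  | all φ ih =>
    obtain ⟨N, h⟩ := ih
    refine ⟨N, fun A B _ _ σ hσ v xs => ⟨fun h1 a => (h A B σ hσ v _).1 ?_, fun h1 b => ?_⟩⟩
    · rw [Fin.comp_snoc]
      exact h1 _
    · have := (h A B σ hσ v _).2 (h1 (σ.symm b))
      rwa [Fin.comp_snoc, Equiv.apply_symm_apply] at this

abbrev X : Type := ℤ × List ℕ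

def xu (i : ℕ) (x : X) : X := (x.1, i :: x.2)

def xt : X → X
  | (b, []) => (b + 1, [])
  | (b, _ :: w) => (b, w)

def xp (x : X) : X := if (x.1 - x.2.length) % 2 = 0 then x else xt x

instance : LL.Structure X where
  funMap := fun {n} f v => match n, f, v with
    | _, .u i, v => xu i (v 0)
    | _, .t, v => xt (v 0)
    | _, .p, v => xp (v 0)
  RelMap := fun r => r.elim

theorem le_xt (x : X) : x.1 ≤ (xt x).1 := by
  obtain ⟨b, _ | ⟨i, w⟩⟩ := x <;> simp [xt]

def H (c : ℤ) : LL.Substructure X where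
  carrier := {x | c ≤ x.1}
  fun_mem := by
    intro n f v h
    cases f
    · exact h 0
    · exact (h 0).trans (le_xt _)
    · show c ≤ (xp (v 0)).1
      unfold xp; split_ifs
      exacts [h 0, (h 0).trans (le_xt _)]

def bump (M i : ℕ) : ℕ := if i < M then i else i + 1

def S (M k : ℕ) : List ℕ → List ℕ
  | [] => List.replicate k M
  | i :: w => (if w = [] then bump M i else i) :: S M k w

theorem S_ne (M k : ℕ) (w : List ℕ) (hw : w ≠ []) : ∃ a ∈ S M k w, a ≠ M := by
  induction w with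
  | nil => exact absurd rfl hw
  | cons i w ih =>
    by_cases h : w = []
    · refine ⟨bump M i, by simp [S, h], ?_⟩
      unfold bump; split_ifs <;> omega
    · obtain ⟨a, ha, h'⟩ := ih h
      exact ⟨a, List.mem_cons_of_mem _ ha, h'⟩

theorem S_inj (M : ℕ) (w : List ℕ) : ∀ (k k' : ℕ) (w' : List ℕ), S M k w = S M k' w' →
    k = k' ∧ w = w' := by
  induction w with
  | nil =>
    intro k k' w' h
    by_cases hw : w' = []
    · subst hw
      exact ⟨by simpa [S] using congrArg List.length h, rfl⟩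
    · obtain ⟨a, ha, h'⟩ := S_ne M k' w' hw
      rw [← h] at ha
      exact absurd (List.eq_of_mem_replicate ha) h'
  | cons i w ih =>
    intro k k' w' h
    cases w' with
    | nil =>
      obtain ⟨a, ha, h'⟩ := S_ne M k (i :: w) (by simp)
      rw [h] at ha
      exact absurd (List.eq_of_mem_replicate ha) h'
    | cons j w' =>
      simp only [S, List.cons.injEq] at h
      obtain ⟨rfl, rfl⟩ := ih k k' w' h.2
      refine ⟨rfl, ?_⟩
      have h1 := h.1
      congr 1
      split_ifs at h1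
      · unfold bump at h1; split_ifs at h1 <;> omega
      · exact h1

theorem S_surj (M : ℕ) (l : List ℕ) : ∃ k w, S M k w = l := by
  induction l with
  | nil => exact ⟨0, [], rfl⟩
  | cons a l ih =>
    obtain ⟨k, w, rfl⟩ := ih
    by_cases hw : w = []
    · subst hw
      by_cases ha : a = M
      · exact ⟨k + 1, [], by simp [S, ha, List.replicate_succ]⟩
      · refine ⟨k, [if a < M then a else a - 1], ?_⟩
        simp only [S, if_true, List.cons.injEq, and_true]
        unfold bump; split_ifs <;> omega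
    · exact ⟨k, a :: w, by simp [S, hw]⟩

theorem S_len (M k : ℕ) (w : List ℕ) : (S M k w).length = w.length + k := by
  induction w with
  | nil => simp [S]
  | cons i w ih => simp [S, ih]; omega

theorem S_fix (M : ℕ) (w : List ℕ) (h : ∀ a ∈ w, a < M) : S M 0 w = w := by
  induction w with
  | nil => rfl
  | cons i w ih =>
    simp only [S, ih fun a ha => h a (List.mem_cons_of_mem _ ha), bump, h i (by simp), if_true,
      ite_self]

def sg (M : ℕ) (c : ℤ) (x : X) : X := if c < x.1 then x else (c, S M (c - x.1).toNat x.2)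

theorem sg_t (M : ℕ) (c : ℤ) (x : X) : sg M c (xt x) = xt (sg M c x) := by
  obtain ⟨b, _ | ⟨i, w⟩⟩ := x
  · rcases lt_trichotomy c b with h | rfl | h
    · simp [sg, xt, h, show c < b + 1 by omega]
    · simp [sg, xt, S]
    · have e : (c - b).toNat = (c - (b + 1)).toNat + 1 := by omega
      simp [sg, xt, S, show ¬ c < b by omega, show ¬ c < b + 1 by omega, e, List.replicate_succ]
  · by_cases h : c < b <;> simp [sg, xt, h, S]

theorem sg_u (M : ℕ) (c : ℤ) (i : ℕ) (hi : i < M) (x : X) : sg M c (xu i x) = xu i (sg M c x) := by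
  by_cases h : c < x.1 <;> simp [sg, xu, h, S, bump, hi]

theorem sg_p (M : ℕ) (c : ℤ) (x : X) : sg M c (xp x) = xp (sg M c x) := by
  have : (sg M c x).1 - (sg M c x).2.length = x.1 - x.2.length := by
    unfold sg; split_ifs with h
    · rfl
    · simp only [S_len]; push_cast; omega
  unfold xp
  rw [this]
  split_ifs
  exacts [rfl, sg_t M c x]

theorem sg_mem (M : ℕ) (c : ℤ) (x : X) : sg M c x ∈ H c := by
  show c ≤ (sg M c x).1
  unfold sg; split_ifs with h
  exacts [h.le, le_rfl]

noncomputable def sgE (M : ℕ) (c : ℤ) : X ≃ H c :=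
  Equiv.ofBijective (fun x => ⟨sg M c x, sg_mem M c x⟩) ⟨fun x y h => by
    have h1 : sg M c x = sg M c y := congrArg Subtype.val h
    unfold sg at h1
    split_ifs at h1 with a b b
    · exact h1
    · exact absurd (congrArg Prod.fst h1) a.ne'
    · exact absurd (congrArg Prod.fst h1) b.ne
    · obtain ⟨h2, h3⟩ := S_inj M _ _ _ _ (congrArg Prod.snd h1)
      exact Prod.ext (by omega) h3, fun ⟨⟨b, l⟩, hy⟩ => by
    have hy' : c ≤ b := hy
    rcases hy'.lt_or_eq with h | rfl
    · exact ⟨(b, l), Subtype.ext (by simp [sg, h])⟩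
    · obtain ⟨k, w, rfl⟩ := S_surj M l
      exact ⟨(c - k, w), Subtype.ext (by simp [sg])⟩⟩

theorem realize_zero {A : Type} [LL.Structure A] {α : Type} (φ : LL.Formula α) (v : α → A)
    (f : Fin 0 → A) : FirstOrder.Language.BoundedFormula.Realize φ v f ↔ φ.Realize v :=
  iff_of_eq (congrArg _ (funext fun a => a.elim0))

theorem elem (c : ℤ) {n : ℕ} (μ : Fin n → H c) : SameType LL μ (Subtype.val ∘ μ) := by
  intro φ
  obtain ⟨N, h⟩ := form_eq φ
  let M := max N (Finset.univ.sup (fun i => (μ i).1.2.toFinset.sup id) + 1)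
  have h1 := h X (H c) (sgE M c) (fun n f v hf => Subtype.ext (by
    cases f
    · exact sg_u M c _ (lt_max_of_lt_left hf) _
    · exact sg_t M c _
    · exact sg_p M c _)) (Subtype.val ∘ μ) default
  rw [realize_zero, realize_zero] at h1
  refine Iff.trans (iff_of_eq (congrArg _ (funext fun i => Subtype.ext ?_))) h1
  show (μ i).1 = sg M c (μ i).1
  have hc : c ≤ (μ i).1.1 := (μ i).2
  unfold sg; split_ifs with h2
  · rfl
  · have e : c = (μ i).1.1 := by omega
    rw [show (c - (μ i).1.1).toNat = 0 by omega, S_fix]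
    · exact Prod.ext e.symm rfl
    intro a ha
    refine lt_max_of_lt_right (Nat.lt_succ_of_le ?_)
    exact (Finset.le_sup (f := id) (List.mem_toFinset.2 ha)).trans
      (Finset.le_sup (f := fun i => (μ i).1.2.toFinset.sup id) (Finset.mem_univ i))

theorem shift (j : ℤ) {n : ℕ} (ν : Fin n → X) :
    SameType LL (fun i => (((ν i).1 + 2 * j, (ν i).2) : X)) ν := by
  intro φ
  obtain ⟨N, h⟩ := form_eq φ
  have ht : ∀ x : X, ((xt x).1 + 2 * j, (xt x).2) = xt (x.1 + 2 * j, x.2) := by
    rintro ⟨b, _ | ⟨i, w⟩⟩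
    · simp [xt]; ring
    · rfl
  have h1 := h X X (Equiv.prodCongr (Equiv.addRight (2 * j)) (Equiv.refl _)) (fun n f v _ => by
    cases f
    · rfl
    · exact ht _
    · show ((xp (v 0)).1 + 2 * j, (xp (v 0)).2) = xp ((v 0).1 + 2 * j, (v 0).2)
      unfold xp
      by_cases e : ((v 0).1 - (v 0).2.length) % 2 = 0
      · rw [if_pos e, if_pos (by simp only; omega)]
      · rw [if_neg e, if_neg (by simp only; omega)]
        exact ht _) ν default
  rw [realize_zero, realize_zero] at h1
  exact h1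

theorem iso_X (c : ℤ) : Isotypic LL (H c) X := by
  refine fun n => ⟨fun μ => ⟨_, elem c μ⟩, fun ν => ?_⟩
  obtain ⟨B, hB⟩ := (Set.finite_range fun i => c - (ν i).1).bddAbove
  refine ⟨fun i => ⟨((ν i).1 + 2 * |B|, (ν i).2), ?_⟩, fun φ => (elem c _ φ).trans (shift _ ν φ)⟩
  have h1 : c - (ν i).1 ≤ B := hB ⟨i, rfl⟩
  have h2 := le_abs_self B
  have h3 := abs_nonneg B
  show c ≤ (ν i).1 + 2 * |B|
  omega

theorem iso_H (c d : ℤ) : Isotypic LL (H c) (H d) := by
  refine fun n => ⟨fun μ => ?_, fun ν => ?_⟩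
  · obtain ⟨a, ha⟩ := ((iso_X c) n).1 μ
    obtain ⟨b, hb⟩ := ((iso_X d) n).2 a
    exact ⟨b, fun φ => (ha φ).trans (hb φ).symm⟩
  · obtain ⟨a, ha⟩ := ((iso_X d) n).1 ν
    obtain ⟨b, hb⟩ := ((iso_X c) n).2 a
    exact ⟨b, fun φ => (hb φ).trans (ha φ).symm⟩

theorem fg_H (c : ℤ) : FirstOrder.Language.Structure.FG LL (H c) := by
  rw [← FirstOrder.Language.Substructure.fg_iff_structure_fg]
  refine ⟨{(c, [])}, le_antisymm ?_ ?_⟩
  · rw [FirstOrder.Language.Substructure.closure_le]
    rintro x hx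
    simp only [Finset.coe_singleton, Set.mem_singleton_iff] at hx
    subst hx
    exact le_refl c
  · rintro ⟨b, w⟩ hb
    have hb' : c ≤ b := hb
    induction w with
    | nil =>
      induction b, hb' using Int.leInduction with
      | base => exact FirstOrder.Language.Substructure.subset_closure (by simp)
      | succ b hb1 ih =>
        exact FirstOrder.Language.Substructure.fun_mem _ Fn.t (fun _ => (b, [])) fun _ => ih hb1
    | cons i w ih =>
      exact FirstOrder.Language.Substructure.fun_mem _ (Fn.u i) (fun _ => (b, w)) fun _ => ih hb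

theorem not_fg : ¬ FirstOrder.Language.Structure.FG LL X := by
  rintro ⟨s, hs⟩
  obtain ⟨B, hB⟩ := ((Finset.finite_toSet s).image Prod.fst).bddBelow
  have : FirstOrder.Language.Substructure.closure LL (s : Set X) ≤ H B := by
    rw [FirstOrder.Language.Substructure.closure_le]
    exact fun x hx => hB ⟨x, hx, rfl⟩
  rw [hs] at this
  have h1 : B ≤ B - 1 := this (FirstOrder.Language.Substructure.mem_top ((B - 1, []) : X))
  omega

theorem not_iso : IsEmpty (LL.Equiv (H 0) (H 1)) := by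
  refine ⟨fun e => ?_⟩
  let f1 : ∀ {c : ℤ}, Fn 1 → H c → H c := fun f a =>
    FirstOrder.Language.Structure.funMap (L := LL) f fun _ => a
  have he : ∀ f a, e (f1 f a) = f1 f (e a) := fun f a => e.map_fun f fun _ => a
  let g : H 0 := ⟨(0, []), le_refl (0 : ℤ)⟩
  have hp : f1 Fn.p (e g) = e g := by rw [← he]; rfl
  obtain ⟨⟨⟨b, w⟩, hb⟩, hy⟩ : ∃ y, e g = y := ⟨_, rfl⟩
  have hb' : 1 ≤ b := hb
  cases w with
  | cons i w =>
    have h1 : f1 (Fn.u i) (e.symm ⟨(b, w), hb⟩) = g := e.injective (by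
      rw [he, hy, e.apply_symm_apply]; rfl)
    have := congrArg (fun z : H 0 => z.1.2) h1
    exact List.cons_ne_nil _ _ this
  | nil =>
    rcases hb'.lt_or_eq with h | rfl
    · have hb2 : ((b - 1, []) : X) ∈ H 1 := show 1 ≤ b - 1 by omega
      obtain ⟨⟨⟨d, l⟩, hd⟩, hz⟩ : ∃ z, e.symm ⟨(b - 1, []), hb2⟩ = z := ⟨_, rfl⟩
      have h1 : f1 Fn.t ⟨(d, l), hd⟩ = g := e.injective (by
        rw [← hz, he, hy, e.apply_symm_apply]
        exact Subtype.ext (Prod.ext (sub_add_cancel b 1) rfl))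
      have hd' : 0 ≤ d := hd
      cases l with
      | nil =>
        have : d + 1 = 0 := congrArg (fun z : H 0 => z.1.1) h1
        omega
      | cons i l =>
        have h2 : (⟨(d, i :: l), hd⟩ : H 0) = f1 (Fn.u i) ⟨(d, l), hd⟩ := rfl
        have h3 := congrArg e hz
        rw [e.apply_symm_apply, h2, he] at h3
        exact List.cons_ne_nil _ _ (congrArg (fun z : H 1 => z.1.2) h3).symm
    · rw [hy] at hp
      have : (2 : ℤ) = 1 := congrArg (fun z : H 1 => z.1.1) hp
      omega

end Pool.Agent.H40.Isotyp2
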