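import Mathlib

set_option autoImplicit false

namespace Pool.Agent.H40.Isotyp

open FirstOrder

variable {L : FirstOrder.Language.{0, 0}}

/-- `A` belongs to the variety defined by the set of identities `E`. -/
def InVariety (E : Set (L.Term ℕ × L.Term ℕ)) (A : Type) [L.Structure A] : Prop :=
  ∀ e ∈ E, ∀ v : ℕ → A, e.1.realize v = e.2.realize v

/-- `H` is a free algebra of the variety defined by `E` on `k` free generators. -/
def IsFree (E : Set (L.Term ℕ × L.Term ℕ)) (H : Type) [L.Structure H] (k : ℕ) : Prop :=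
  InVariety E H ∧ ∃ ι : Fin k → H, ∀ (A : Type) [L.Structure A], InVariety E A →
    ∀ a : Fin k → A, ∃! f : L.Hom H A, f ∘ ι = a

/-- Two points have the same logical kernel (the same complete type). -/
def SameType (L : FirstOrder.Language.{0, 0}) {H₁ H₂ : Type} [L.Structure H₁] [L.Structure H₂]
    {n : ℕ} (μ : Fin n → H₁) (ν : Fin n → H₂) : Prop :=
  ∀ φ : L.Formula (Fin n), φ.Realize μ ↔ φ.Realize ν

/-- Every type of a finite tuple realised in one algebra is realised in the other. -/
def Isotypic (L : FirstOrder.Language.{0, 0}) (H₁ H₂ : Type) [L.Structure H₁] [L.Structure H₂] :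
    Prop :=
  ∀ n : ℕ, (∀ μ : Fin n → H₁, ∃ ν : Fin n → H₂, SameType L μ ν) ∧
    ∀ ν : Fin n → H₂, ∃ μ : Fin n → H₁, SameType L μ ν

end Pool.Agent.H40.Isotyp
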