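import Pool.Agent.H42.Frc4
import Pool.Agent.H40.Bspt2

set_option autoImplicit false

/-! Symmetric names and the symmetric submodel. -/

namespace Pool.Agent.H40.Js

open Pool.Agent.H42.ZF Set Filter
open Pool.Agent.H40.Bspt (Fm)

class NF (Γ : Type) [Group Γ] where
  F : Filter Γ
  conj : ∀ h : Γ, Tendsto (fun g => h⁻¹ * g * h) F F
  inv : Tendsto (fun g : Γ => g⁻¹) F F

class Mo (Γ P : Type) [Group Γ] [Preorder P] [MulAction Γ P] : Prop where
  mono : ∀ (g : Γ) {p q : P}, p ≤ q → g • p ≤ g • q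

variable {P : Type} [Preorder P] {Γ : Type} [Group Γ] [MulAction Γ P]

def act (g : Γ) : Nm P → Nm P
  | .mk ι A b => .mk ι (fun i => act g (A i)) (fun i => g • b i)

omit [Preorder P] in
theorem act_mul (g h : Γ) (x : Nm P) : act g (act h x) = act (g * h) x := by
  induction x with
  | mk ι A b ih => simp only [act, ih, mul_smul]

omit [Preorder P] in
theorem act_one (x : Nm P) : act (1 : Γ) x = x := by
  induction x with
  | mk ι A b ih => simp only [act, ih, one_smul]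

omit [Preorder P] in
theorem act_inv (g : Γ) (x : Nm P) : act g (act g⁻¹ x) = x := by
  rw [act_mul, mul_inv_cancel, act_one]

omit [Preorder P] in
theorem inv_act (g : Γ) (x : Nm P) : act g⁻¹ (act g x) = x := by
  rw [act_mul, inv_mul_cancel, act_one]

variable [Mo Γ P]

theorem le_smul {g : Γ} {p q : P} : q ≤ g • p ↔ g⁻¹ • q ≤ p :=
  ⟨fun h => by simpa using Mo.mono g⁻¹ h, fun h => by simpa using Mo.mono g h⟩

theorem smul_le {g : Γ} {p q : P} : g • q ≤ p ↔ q ≤ g⁻¹ • p :=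
  ⟨fun h => by simpa using Mo.mono g⁻¹ h, fun h => by simpa using Mo.mono g h⟩

theorem eqF_act (g : Γ) {x y : Nm P} {p : P} (h : eqF x y p) : eqF (act g x) (act g y) (g • p) := by
  induction x generalizing y p with
  | mk ι A b ih =>
    cases y with
    | mk κ B d =>
      refine ⟨fun i q h1 h2 => ?_, fun j q h1 h2 => ?_⟩
      · obtain ⟨r, hr, j, h3, h4⟩ := h.1 i _ (le_smul.1 h1) (le_smul.1 h2)
        exact ⟨g • r, smul_le.2 hr, j, Mo.mono g h3, ih i h4⟩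
      · obtain ⟨r, hr, i, h3, h4⟩ := h.2 j _ (le_smul.1 h1) (le_smul.1 h2)
        exact ⟨g • r, smul_le.2 hr, i, Mo.mono g h3, ih i h4⟩

theorem memF_act (g : Γ) {x y : Nm P} {p : P} (h : memF x y p) :
    memF (act g x) (act g y) (g • p) := by
  cases y with
  | mk κ B d =>
    intro q h1
    obtain ⟨r, hr, j, h3, h4⟩ := h _ (le_smul.1 h1)
    exact ⟨g • r, smul_le.2 hr, j, Mo.mono g h3, eqF_act g h4⟩

def mv (g : Γ) (U : Ult P) : Ult P :=
  ⟨U.U.map (g • ·), fun D h1 h2 => U.dense {p | g • p ∈ D} (fun _ _ hab h => h1 (Mo.mono g hab) h)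
    fun p => by
      obtain ⟨q, hq, h⟩ := h2 (g • p)
      exact ⟨g⁻¹ • q, le_smul.1 hq, by simpa using h⟩⟩

theorem mem_mv {g : Γ} {U : Ult P} {S : Set P} : S ∈ (mv g U).U ↔ {p | g • p ∈ S} ∈ U.U := Iff.rfl

theorem mv_inv (g : Γ) (U : Ult P) : mv g (mv g⁻¹ U) = U := by
  obtain ⟨U, h⟩ := U
  have : (U.map (g⁻¹ • ·)).map (g • ·) = U := by
    rw [Ultrafilter.map_map]
    have : ((g • ·) ∘ (g⁻¹ • ·) : P → P) = id := funext fun p => by simp
    rw [this, Ultrafilter.map_id]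
  simp only [mv, this]

theorem mv_surj (g : Γ) (U : Ult P) : ∃ V, mv g V = U := ⟨_, mv_inv g U⟩

theorem G_mv {g : Γ} {U : Ult P} {p : P} : Iic (g • p) ∈ (mv g U).U ↔ Iic p ∈ U.U := by
  rw [mem_mv]
  have : {q | g • q ∈ Iic (g • p)} = Iic p := by
    ext q; simp only [mem_ofPred_eq, mem_Iic, smul_le, inv_smul_smul]
  rw [this]

theorem mk_mv {g : Γ} {U : Ult P} {x y : Nm P} :
    mk (mv g U) (act g x) = mk (mv g U) (act g y) ↔ mk U x = mk U y := by
  rw [mk_eq, mk_eq, mem_mv]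
  refine iff_of_eq (congrArg (· ∈ U.U) (Set.ext fun p => ⟨fun h => ?_, fun h => eqF_act g h⟩))
  simpa [inv_act] using eqF_act g⁻¹ h

theorem E_mv {g : Γ} {U : Ult P} {x y : Nm P} :
    E (mv g U) (mk _ (act g x)) (mk _ (act g y)) ↔ E U (mk U x) (mk U y) := by
  show {p | memF _ _ p} ∈ (mv g U).U ↔ {p | memF _ _ p} ∈ U.U
  rw [mem_mv]
  refine iff_of_eq (congrArg (· ∈ U.U) (Set.ext fun p => ⟨fun h => ?_, fun h => memF_act g h⟩))
  simpa [inv_act] using memF_act g⁻¹ h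

theorem act_surj (g : Γ) {U : Ult P} (a : M U) : ∃ x, mk U (act g x) = a := by
  obtain ⟨x, rfl⟩ := mk_surj a
  exact ⟨act g⁻¹ x, by rw [act_inv]⟩

/-- two names agree after moving if membership corresponds -/
theorem act_eq {g : Γ} {x y : Nm P}
    (h : ∀ U z, E U (mk U z) (mk U x) ↔ E (mv g U) (mk _ (act g z)) (mk _ y)) (U : Ult P) :
    mk U (act g x) = mk U y := by
  obtain ⟨U, rfl⟩ := mv_surj g U
  refine M_ext fun z => ?_
  obtain ⟨z, rfl⟩ := act_surj g z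
  rw [E_mv, h]

variable (Γ) [NF Γ]

def Sm (x : Nm P) : Prop := ∀ᶠ g in NF.F (Γ := Γ), ∀ U, mk U (act g x) = mk U x

def HS : Nm P → Prop
  | .mk ι A b => Sm Γ (.mk ι A b) ∧ ∀ i, HS (A i)

def L (U : Ult P) (a : M U) : Prop := ∃ x, mk U x = a ∧ {p | ∃ y, HS Γ y ∧ eqF x y p} ∈ U.U

variable {Γ}

omit [Mo Γ P] in
theorem hs_iff {x : Nm P} : HS Γ x ↔ Sm Γ x ∧ ∀ i, HS Γ (x.A i) := by cases x; rfl

omit [Mo Γ P] in
theorem hs_fam {ι : Type} {A : ι → Nm P} {Q : ι → Ult P → Prop} (h : Sm Γ (fam A Q))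
    (h' : ∀ i, HS Γ (A i)) : HS Γ (fam A Q) := ⟨h, fun _ => h' _⟩

theorem sm_act (h : Γ) {x : Nm P} (hx : Sm Γ x) : Sm Γ (act h x) := by
  filter_upwards [(NF.conj h).eventually hx] with g hg U
  obtain ⟨U, rfl⟩ := mv_surj h U
  have : act g (act h x) = act h (act (h⁻¹ * g * h) x) := by
    rw [act_mul, act_mul]; congr 1; group
  rw [this, mk_mv, hg]

theorem hs_act (h : Γ) {x : Nm P} (hx : HS Γ x) : HS Γ (act h x) := by
  induction x with
  | mk ι A b ih => exact ⟨sm_act h hx.1, fun i => ih i (hx.2 i)⟩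

theorem sm_of_sub {x : Nm P} (h : ∀ᶠ g in NF.F (Γ := Γ), ∀ U z,
    E U (mk U z) (mk U x) → E (mv g U) (mk _ (act g z)) (mk _ x)) : Sm Γ x := by
  filter_upwards [h, NF.inv.eventually h] with g h1 h2
  refine act_eq fun U z => ⟨h1 U z, fun h3 => ?_⟩
  have := E_mv (g := g) |>.2 (h2 _ _ h3)
  rw [mv_inv, act_inv] at this
  exact E_mv.1 this

omit [Mo Γ P] in
theorem L_mk {U : Ult P} {x : Nm P} : L Γ U (mk U x) ↔ {p | ∃ y, HS Γ y ∧ eqF x y p} ∈ U.U := by
  refine ⟨fun ⟨x', h1, h2⟩ => ?_, fun h => ⟨x, rfl, h⟩⟩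
  filter_upwards [mk_eq.1 h1, h2] with p a ⟨y, b, c⟩
  exact ⟨y, b, eqF_trans (eqF_symm a) c⟩

instance cL (x : Nm P) : C (fun U => L Γ U (mk U x)) :=
  ⟨cl_of_set (S := {p | ∃ y, HS Γ y ∧ eqF x y p})
    (fun _ _ hab ⟨y, a, b⟩ => ⟨y, a, eqF_mono b hab⟩) fun _ => L_mk⟩

omit [Mo Γ P] in
theorem L_hs {x : Nm P} (h : HS Γ x) (U : Ult P) : L Γ U (mk U x) :=
  L_mk.2 (univ_mem' fun p => ⟨x, h, eqF_refl x p⟩)

omit [Mo Γ P] in
theorem L_elim {x : Nm P} {p : P} (h : Frc p fun U => L Γ U (mk U x)) :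
    ∃ q ≤ p, ∃ y, HS Γ y ∧ Frc q fun U => mk U x = mk U y := by
  obtain ⟨U, h1, h2⟩ := h.ex
  obtain ⟨q, h3, y, h4, h5⟩ := Filter.nonempty_of_mem (inter_mem h1 (L_mk.1 h2))
  exact ⟨q, h3, y, h4, frc_eq.2 h5⟩

omit [Mo Γ P] in
@[elab_as_elim] theorem L_cases {x : Nm P} {R : Ult P → Prop} [C R]
    (h : ∀ y U, HS Γ y → mk U x = mk U y → R U) (U : Ult P) (hU : L Γ U (mk U x)) : R U := by
  refine by_dense (H := fun U => L Γ U (mk U x)) (fun p hp => ?_) U hU
  obtain ⟨q, hq, y, h1, h2⟩ := L_elim hp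
  exact ⟨q, hq, fun V hV => h y V h1 (h2 V hV)⟩

omit [Mo Γ P] in
theorem L_tr {U : Ult P} {a b : M U} (h : E U a b) (hb : L Γ U b) : L Γ U a := by
  obtain ⟨a, rfl⟩ := mk_surj a
  obtain ⟨b, rfl⟩ := mk_surj b
  revert h
  refine L_cases (fun y U hy e h => ?_) U hb
  rw [e] at h
  refine mem_cases (fun j U _ e2 => ?_) U h
  rw [e2]
  exact L_hs ((hs_iff.1 hy).2 j) U

theorem L_mv {g : Γ} {U : Ult P} {x : Nm P} :
    L Γ (mv g U) (mk _ (act g x)) ↔ L Γ U (mk U x) := by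
  rw [L_mk, L_mk, mem_mv]
  refine iff_of_eq (congrArg (· ∈ U.U) (Set.ext fun p => ⟨fun ⟨y, a, h⟩ => ⟨_, hs_act g⁻¹ a, ?_⟩,
    fun ⟨y, a, h⟩ => ⟨_, hs_act g a, eqF_act g h⟩⟩))
  simpa [inv_act] using eqF_act g⁻¹ h

def cs {α : Type 1} (a : α) (v : ℕ → α) : ℕ → α
  | 0 => a
  | n + 1 => v n

variable (Γ) in
def SL (U : Ult P) : Fm → (ℕ → M U) → Prop
  | .mem i j, v => E U (v i) (v j)
  | .eq i j, v => v i = v j
  | .neg φ, v => ¬ SL U φ v
  | .and φ ψ, v => SL U φ v ∧ SL U ψ v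
  | .ex φ, v => ∃ a, L Γ U a ∧ SL U φ (cs a v)

def bd : Fm → ℕ
  | .mem i j => max i j + 1
  | .eq i j => max i j + 1
  | .neg φ => bd φ
  | .and φ ψ => max (bd φ) (bd ψ)
  | .ex φ => bd φ

omit [Mo Γ P] in
theorem SL_congr {U : Ult P} (φ : Fm) : ∀ {v w : ℕ → M U}, (∀ i < bd φ, v i = w i) →
    (SL Γ U φ v ↔ SL Γ U φ w) := by
  induction φ with
  | mem i j => intro v w h; simp only [SL]; rw [h i (by simp [bd]), h j (by simp [bd])]
  | eq i j => intro v w h; simp only [SL]; rw [h i (by simp [bd]), h j (by simp [bd])]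
  | neg φ ih => exact fun h => not_congr (ih h)
  | and φ ψ ih1 ih2 =>
    exact fun h => and_congr (ih1 fun i hi => h i (lt_max_of_lt_left hi))
      (ih2 fun i hi => h i (lt_max_of_lt_right hi))
  | ex φ ih =>
    refine fun h => exists_congr fun a => and_congr_right' (ih ?_)
    rintro (_ | i) hi
    · rfl
    · exact h i (by simp only [bd]; omega)

theorem cs_mk (U : Ult P) (x : Nm P) (v : ℕ → Nm P) :
    cs (mk U x) (fun i => mk U (v i)) = fun i => mk U (cs x v i) := by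
  funext i; cases i <;> rfl

omit [Mo Γ P] in
theorem cl_SL (φ : Fm) : ∀ v : ℕ → Nm P, Cl (fun U => SL Γ U φ (fun i => mk U (v i))) := by
  induction φ with
  | mem i j => exact fun v => cl_mem _ _
  | eq i j => exact fun v => cl_eq _ _
  | neg a ih => exact fun v => cl_not (ih v)
  | and a b iha ihb => exact fun v => cl_and (iha v) (ihb v)
  | ex a ih =>
    exact fun v => cl_ex (Q := fun U x => L Γ U x ∧ SL Γ U a (cs x fun i => mk U (v i)))
      fun x => cl_and cl ((ih (cs x v)).congr fun U => by rw [cs_mk])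

instance cSL (φ : Fm) (v : ℕ → Nm P) : C (fun U => SL Γ U φ (fun i => mk U (v i))) := ⟨cl_SL φ v⟩
instance cSL1 (φ : Fm) (v : ℕ → Nm P) (x : Nm P) :
    C (fun U => SL Γ U φ (cs (mk U x) fun i => mk U (v i))) :=
  ⟨(cl_SL φ (cs x v)).congr fun U => by rw [cs_mk]⟩
instance cSL2 (φ : Fm) (v : ℕ → Nm P) (x y : Nm P) :
    C (fun U => SL Γ U φ (cs (mk U x) (cs (mk U y) fun i => mk U (v i)))) :=
  ⟨(cl_SL φ (cs x (cs y v))).congr fun U => by rw [cs_mk, cs_mk]⟩

theorem SL_mv (g : Γ) (U : Ult P) (φ : Fm) : ∀ v : ℕ → Nm P,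
    SL Γ (mv g U) φ (fun i => mk _ (act g (v i))) ↔ SL Γ U φ (fun i => mk U (v i)) := by
  induction φ with
  | mem i j => exact fun v => E_mv
  | eq i j => exact fun v => mk_mv
  | neg a ih => exact fun v => not_congr (ih v)
  | and a b iha ihb => exact fun v => and_congr (iha v) (ihb v)
  | ex a ih =>
    have key : ∀ (v : ℕ → Nm P) x, (L Γ (mv g U) (mk _ (act g x)) ∧
        SL Γ (mv g U) a (cs (mk _ (act g x)) fun i => mk _ (act g (v i)))) ↔
        (L Γ U (mk U x) ∧ SL Γ U a (cs (mk U x) fun i => mk U (v i))) := by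
      intro v x
      rw [L_mv, cs_mk U, ← ih, cs_mk _ _ fun i => act g (v i)]
      refine and_congr_right' (iff_of_eq (congrArg _ (funext ?_)))
      rintro (_ | i) <;> rfl
    intro v
    constructor
    · rintro ⟨x, h⟩
      obtain ⟨x, rfl⟩ := act_surj g x
      exact ⟨_, (key v x).1 h⟩
    · rintro ⟨x, h⟩
      obtain ⟨x, rfl⟩ := mk_surj x
      exact ⟨_, (key v x).2 h⟩

omit [Mo Γ P] in
theorem SL_ren {U : Ult P} (φ : Fm) : ∀ (ρ : ℕ → ℕ) (v : ℕ → M U),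
    SL Γ U (φ.ren ρ) v ↔ SL Γ U φ (v ∘ ρ) := by
  induction φ with
  | mem i j => exact fun _ _ => Iff.rfl
  | eq i j => exact fun _ _ => Iff.rfl
  | neg _ ih => exact fun ρ v => not_congr (ih ρ v)
  | and _ _ ih1 ih2 => exact fun ρ v => and_congr (ih1 ρ v) (ih2 ρ v)
  | ex _ ih =>
    refine fun ρ v => exists_congr fun a => and_congr_right'
      ((ih _ _).trans (iff_of_eq (congrArg _ (funext ?_))))
    rintro (_ | i) <;> rfl

theorem nat_act (g : Γ) (n : ℕ) (U : Ult P) : mk U (act g (natN n)) = mk U (natN n) := by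
  induction n using Nat.strong_induction_on generalizing U with
  | _ n ih =>
    refine act_eq (fun U z => ?_) U
    rw [mem_natN, mem_natN]
    exact exists_congr fun m => and_congr_right fun hm => by rw [← ih m hm (mv g U), mk_mv]

theorem hs_nat (n : ℕ) : HS Γ (natN n : Nm P) := by
  induction n with
  | zero => exact hs_fam (Eventually.of_forall fun g => nat_act g 0) fun e => e.elim
  | succ n ih =>
    refine hs_iff.2 ⟨Eventually.of_forall fun g => nat_act g (n + 1), ?_⟩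
    rintro ⟨⟨_ | i, _⟩, _⟩
    · exact ih
    · exact (hs_iff.1 ih).2 i

omit [Mo Γ P] in
theorem L_casesN (n : ℕ) {v : ℕ → Nm P} {R : Ult P → Prop} [C R] (z : Nm P) (hz : HS Γ z)
    (h : ∀ (w : ℕ → Nm P) U, (∀ i, HS Γ (w i)) → (∀ i < n, mk U (v i) = mk U (w i)) → R U) (U : Ult P)
    (hU : ∀ i, L Γ U (mk U (v i))) : R U := by
  have key : ∀ m, ∀ (R : Ult P → Prop) [C R], (∀ (w : ℕ → Nm P) U, (∀ i, HS Γ (w i)) →
      (∀ i < m, mk U (v i) = mk U (w i)) → R U) → R U := by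
    intro m
    induction m with
    | zero => exact fun R _ h => h (fun _ => z) U (fun _ => hz) fun _ hi => absurd hi (by omega)
    | succ m ih =>
      intro R _ h
      refine ih (fun U => L Γ U (mk U (v m)) → R U) (fun w V h1 h2 h3 => ?_) (hU m)
      have : C fun V => ∀ i : Fin m, mk V (v i) = mk V (w i) := ⟨cl_fin fun _ => cl⟩
      refine L_cases (R := fun V => (∀ i : Fin m, mk V (v i) = mk V (w i)) → R V)
        (fun y V hy e h4 => h (Function.update w m y) V (fun i => ?_) fun i hi => ?_) V h3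
        fun i => h2 i i.2
      · by_cases e' : i = m
        · rw [e', Function.update_self]; exact hy
        · rw [Function.update_of_ne e']; exact h1 i
      · by_cases e' : i = m
        · rw [e', Function.update_self]; exact e
        · rw [Function.update_of_ne e']; exact h4 ⟨i, by omega⟩
  exact key n R h

theorem sepL {U : Ult P} (φ : Fm) (v : ℕ → M U) (x : M U) (hv : ∀ i, L Γ U (v i)) (hx : L Γ U x) :
    ∃ y, L Γ U y ∧ ∀ z, E U z y ↔ E U z x ∧ SL Γ U φ (cs z v) := by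
  obtain ⟨x, rfl⟩ := mk_surj x
  choose v' hv' using fun i => mk_surj (v i)
  obtain rfl : v = fun i => mk U (v' i) := funext fun i => (hv' i).symm
  refine ⟨_, ?_, fun z => mem_sepN (S := fun U z => SL Γ U φ (cs z fun i => mk U (v' i)))⟩
  refine L_casesN (bd φ + 1) (v := cs x v') (R := fun U => L Γ U (mk U (sepN x
    fun U z => SL Γ U φ (cs z fun i => mk U (v' i))))) _ (hs_nat 0) (fun w V h1 h2 => ?_) U
    (by rintro (_ | i); exacts [hx, hv i])
  haveI : ∀ x, C fun U => SL Γ U φ (cs (mk U x) fun i => mk U (w (i + 1))) :=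
    fun x => cSL1 φ (fun i => w (i + 1)) x
  have e : mk V (sepN x fun U z => SL Γ U φ (cs z fun i => mk U (v' i))) =
      mk V (sepN (w 0) fun U z => SL Γ U φ (cs z fun i => mk U (w (i + 1)))) := by
    refine M_ext fun z => ?_
    rw [mem_sepN, mem_sepN, ← h2 0 (by omega)]
    refine and_congr_right' (SL_congr φ ?_)
    rintro (_ | i) hi
    · rfl
    · exact h2 (i + 1) (by omega)
  rw [e]
  refine L_hs (hs_fam (sm_of_sub ?_) (hs_iff.1 (h1 0)).2) V
  have : ∀ᶠ g in NF.F (Γ := Γ), ∀ i ∈ Iic (bd φ), ∀ U, mk U (act g (w i)) = mk U (w i) :=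
    (eventually_all_finite (finite_Iic _)).2 fun i _ => (hs_iff.1 (h1 i)).1
  filter_upwards [this] with g hg U z hz
  have h3 := (mem_sepN (S := fun U z => SL Γ U φ (cs z fun i => mk U (w (i + 1))))).1 hz
  refine (mem_sepN (S := fun U z => SL Γ U φ (cs z fun i => mk U (w (i + 1))))).2 ⟨?_, ?_⟩
  · rw [← hg 0 (Nat.zero_le _), E_mv]; exact h3.1
  · have h4 := h3.2
    rw [cs_mk, ← SL_mv g] at h4
    refine (SL_congr φ ?_).1 h4
    rintro (_ | i) hi
    · rfl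
    · exact hg (i + 1) hi.le _

variable (Γ) in
def orbN {ι : Type} (A : ι → Nm P) : Nm P := fam (fun t : Γ × ι => act t.1 (A t.2)) fun _ _ => True

theorem hs_orbN {ι : Type} {A : ι → Nm P} (h : ∀ i, HS Γ (A i)) : HS Γ (orbN Γ A) := by
  refine hs_fam (sm_of_sub (Eventually.of_forall fun g U z hz => ?_)) fun t => hs_act _ (h _)
  obtain ⟨U, rfl⟩ := mv_surj g⁻¹ U
  have h1 := (E_mv (g := g)).2 hz
  rw [mv_inv] at h1 ⊢
  refine mem_cases (R := fun U => E U (mk U (act g z)) (mk U (orbN Γ A))) (fun j V _ e => ?_) U h1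
  rw [e]
  show E V (mk V (act g (act j.1.1.1 (A j.1.1.2)))) _
  rw [act_mul]
  exact fam_intro (A := fun t : Γ × ι => act t.1 (A t.2)) (_, _) trivial

omit [Mo Γ P] [NF Γ] in
theorem mem_orbN {ι : Type} (A : ι → Nm P) (i : ι) (U : Ult P) :
    E U (mk U (A i)) (mk U (orbN Γ A)) := by
  have := fam_intro (A := fun t : Γ × ι => act t.1 (A t.2)) (Q := fun _ _ => True) (U := U) (1, i) trivial
  rwa [act_one] at this

theorem collL (x : Nm P) (S : ∀ U : Ult P, M U → M U → Prop)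
    [∀ a b, C (fun U => S U (mk U a) (mk U b))] : ∃ Y : Nm P, HS Γ Y ∧ ∀ U a, E U a (mk U x) →
      (∃ b, L Γ U b ∧ S U a b) → ∃ b, E U b (mk U Y) ∧ S U a b := by
  have : ∀ t : x.ι × P, ∃ y, HS Γ y ∧ ((∃ y, HS Γ y ∧ Frc t.2 fun U => S U (mk U (x.A t.1)) (mk U y)) →
      Frc t.2 fun U => S U (mk U (x.A t.1)) (mk U y)) := by
    intro t
    by_cases h : ∃ y, HS Γ y ∧ Frc t.2 fun U => S U (mk U (x.A t.1)) (mk U y)
    · exact h.imp fun y hy => ⟨hy.1, fun _ => hy.2⟩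
    · exact ⟨_, hs_nat 0, fun h' => absurd h' h⟩
  choose y hy hy' using this
  refine ⟨orbN Γ y, hs_orbN hy, fun U a ha => ?_⟩
  obtain ⟨a, rfl⟩ := mk_surj a
  refine mem_cases (R := fun U => (∃ b, L Γ U b ∧ S U (mk U a) b) →
    ∃ b, E U b (mk U (orbN Γ y)) ∧ S U (mk U a) b) (fun i V _ e => ?_) U ha
  rw [e]
  refine by_dense (H := fun V => ∃ b, L Γ V b ∧ S V (mk V (x.A i)) b)
    (R := fun V => ∃ b, E V b (mk V (orbN Γ y)) ∧ S V (mk V (x.A i)) b) (fun p hp => ?_) V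
  obtain ⟨b, hb⟩ := frc_ex hp
  obtain ⟨q, hq, z, h1, h2⟩ := L_elim (hb.imp fun _ h => h.1)
  exact ⟨q, hq, fun W hW => ⟨_, mem_orbN y (i, q) W,
    hy' (i, q) ⟨z, h1, fun W hW => by
      have e : mk W b = mk W z := h2 W hW
      show S W _ (mk W z)
      exact e ▸ (hb.mono hq W hW).2⟩ W hW⟩⟩

theorem bndL {U : Ult P} (x : M U) : ∃ Y, L Γ U Y ∧ ∀ a, E U a x → L Γ U a → E U a Y := by
  obtain ⟨x, rfl⟩ := mk_surj x
  obtain ⟨Y, h1, h2⟩ := collL (Γ := Γ) x fun U a b => b = a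
  exact ⟨_, L_hs h1 U, fun a ha hl => by
    obtain ⟨b, h3, rfl⟩ := h2 U a ha ⟨a, hl, rfl⟩
    exact h3⟩

end Pool.Agent.H40.Js
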