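import Pool.Agent.H40.Js9

set_option autoImplicit false

/-! A transfer structure with control over arbitrary infinite sets. -/

namespace Pool.Agent.H40.Js

open Pool.Agent.H42.ZF Set Filter Cardinal
open Pool.Agent.H40.Bspt (Fm IsZF)

section
variable {P : Type} [Preorder P] {Γ : Type} [Group Γ] [MulAction Γ P] [Mo Γ P] [NF Γ]
variable {Λ : Type} [Group Λ] [NF Λ] {A : Type} [MulAction Λ A] (c : Ctx P Γ Λ A)

theorem Ctx.ex_js2 {B : Type} (n0 : B → Nm P) (h0 : ∀ b, HS Γ (n0 b))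
    (hd : Dist P (T ((Σ t, El Λ A t) ⊕ B) × T ((Σ t, El Λ A t) ⊕ B))) (p : P) (hp : p ≤ c.p0)
    (DS : Nm P → Set P) (hl : ∀ τ, IsLowerSet (DS τ)) (hde : ∀ τ p, ∃ q ≤ p, q ∈ DS τ) :
    ∃ U : Ult P, Iic p ∈ U.U ∧ ∃ J : JS Λ A, ∃ e : J.M → M U,
      (∀ φ w, Bspt.Sat J.E φ w ↔ SL Γ U φ fun i => e (w i)) ∧
      (∀ t x, e (J.ν t x) = mk U (c.nm t x)) ∧ (∀ a, L Γ U (e a)) ∧
      ∀ a, ∃ τ q, e a = mk U τ ∧ q ∈ DS τ ∧ Iic q ∈ U.U := by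
  let ν : (Σ t, El Λ A t) ⊕ B → Nm P := Sum.elim (fun b => c.nm b.1 b.2) n0
  have hν : ∀ b, HS Γ (ν b) := by rintro (b | b); exacts [c.nm_hs _ _, h0 b]
  haveI : Nonempty ((Σ t, El Λ A t) ⊕ B) := ⟨.inl ⟨.n, (0 : ℕ)⟩⟩
  obtain ⟨p', hp', hD'⟩ := hd (fun s => DS (ev Γ ν s.1 0)) (fun _ => hl _) (fun _ => hde _) p
  obtain ⟨q, hq', hD⟩ := hd (fun s => DD (ev Γ ν s.1 0) (ev Γ ν s.2 0)) (fun _ => DD_lower _ _)
    (fun _ => DD_dense _ _) p'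
  have hq := hq'.trans hp'
  obtain ⟨U, hU⟩ := ex_ult q
  have hU0 : Iic c.p0 ∈ U.U := frc_G (hq.trans hp) U hU
  let N : ∀ t, El Λ A t → H Γ ν U := fun t x => hb (.inl ⟨t, x⟩)
  have hN : ∀ t x, j (N t x) = mk U (c.nm t x) := fun _ _ => rfl
  have gen : ∀ (z : H Γ ν U) (b), EH z (hb b) → ∃ i, j z = mk U ((ν b).A i) := by
    intro z b h
    obtain ⟨s, hs⟩ := j_surj z
    unfold EH at h
    rw [hs] at h ⊢
    exact (DD_use (hD (s, .base b)) hU h).imp fun i h => h.2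
  have zf : IsZF (EH : H Γ ν U → H Γ ν U → Prop) := hull_zf hν
  have hm : ∀ t (s : PS Λ (El Λ A t)) z, EH z (N (.w t) s) ↔ ∃ x ∈ s.1, z = N t x := by
    refine fun t s z => ⟨fun h => ?_, fun ⟨x, h1, h2⟩ => h2 ▸ setN_intro _ h1 U⟩
    obtain ⟨i, hi⟩ := gen z _ h
    exact ⟨i.1.1.1, i.1.1.2, j_inj hi⟩
  have un : ∀ t, Sym Λ (univ : Set (El Λ A t)) := fun t => Eventually.of_forall fun _ _ => Iff.rfl
  refine ⟨U, frc_G hq U hU, ⟨H Γ ν U, EH, zf, N, fun t x y h => c.nm_inj t x y U hU0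
    (congrArg j h), hm, fun t a ha => ?_, fun s t x y => ?_, fun n z => ?_⟩, j, truth hν, hN,
    j_L hν, fun a => (j_surj a).elim fun s h => ⟨_, p', h, hD' (s, s), frc_G hq' U hU⟩⟩
  · obtain ⟨τ, hτ⟩ := mk_surj (j a)
    have h1 : Sub (E U) (mk U τ) (mk U (setN (c.nm t) univ)) := by
      intro z hz
      by_contra hc
      obtain ⟨b, h2, h3⟩ := tv (.and (.mem 0 1) (.neg (.mem 0 2)))
        (Bspt.cons a fun _ => N (.w t) ⟨univ, un t⟩) ⟨z, L_tr hz (hτ ▸ j_L hν a), (hτ ▸ hz : E U z (j a)), hc⟩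
      obtain ⟨x, rfl⟩ := ha b h2
      exact h3 (setN_intro _ (mem_univ x) U)
    have h2 := c.nm_pow t τ U hU0 (hτ ▸ j_L hν a) h1
    obtain ⟨s, -, hs⟩ := (hm (.w t) ⟨univ, un _⟩ a).1 (by unfold EH; rw [← hτ]; exact h2)
    exact ⟨s, hs⟩
  · have up : ∀ (a b : H Γ ν U) (a' b' : Nm P), j a = mk U a' → j b = mk U b' → ∃ u,
        (∀ z, EH z u ↔ z = a ∨ z = b) ∧ j u = mk U (upair a' b') := by
      intro a b a' b' ha hb
      obtain ⟨u, hu⟩ := zf.pair a b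
      refine ⟨u, hu, M_ext fun z => ?_⟩
      rw [mem_upair, ← ha, ← hb]
      refine ⟨fun hz => ?_, fun h => h.elim (· ▸ (hu a).2 (Or.inl rfl)) (· ▸ (hu b).2 (Or.inr rfl))⟩
      by_contra hc
      rw [not_or] at hc
      obtain ⟨d, h1, h2, h3⟩ := tv (.and (.mem 0 1) (.and (.neg (.eq 0 2)) (.neg (.eq 0 3))))
        (Bspt.cons u (Bspt.cons a fun _ => b)) ⟨z, L_tr hz (j_L hν u), hz, hc⟩
      exact ((hu d).1 h1).elim (fun e => h2 (congrArg j e)) fun e => h3 (congrArg j e)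
    obtain ⟨a, ha, ha'⟩ := up _ _ _ _ (hN s x) (hN s x)
    obtain ⟨b, hb, hb'⟩ := up _ _ _ _ (hN s x) (hN t y)
    obtain ⟨u, hu, hu'⟩ := up _ _ _ _ ha' hb'
    obtain rfl : u = N (.p s t) (x, y) := j_inj hu'
    exact fun z => (hu z).trans (or_congr ⟨fun e w => by simp [e, ha], fun e => zf.ext _ _
      fun w => by simp [e, ha]⟩ ⟨fun e w => by simp [e, hb], fun e => zf.ext _ _ fun w => by
        simp [e, hb]⟩)
  · exact mem_natN.trans (exists_congr fun m => and_congr_right' (j_inj.eq_iff (b := N .n m)))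


def allF (φ : Fm) : Fm := .neg (.ex (.neg φ))
def orF (φ ψ : Fm) : Fm := .neg (.and (.neg φ) (.neg ψ))
def impF (φ ψ : Fm) : Fm := .neg (.and φ (.neg ψ))
def pairF (p x y : ℕ) : Fm := allF (fi (.mem 0 (p + 1)) (orF (allF (fi (.mem 0 1) (.eq 0 (x + 2))))
  (allF (fi (.mem 0 1) (orF (.eq 0 (x + 2)) (.eq 0 (y + 2)))))))
def appF (f x y : ℕ) : Fm := .ex (.and (.mem 0 (f + 1)) (pairF 0 (x + 1) (y + 1)))
def injF : Fm := .ex (.and (allF (impF (.mem 0 2) (.ex (.and (.mem 0 4) (appF 2 1 0)))))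
  (allF (allF (allF (allF (impF (appF 4 3 2) (impF (appF 4 1 0) (fi (.eq 3 1) (.eq 2 0)))))))))

theorem sat_all {M : Type} {E : M → M → Prop} {φ : Fm} {v : ℕ → M} :
    Bspt.Sat E (allF φ) v ↔ ∀ a, Bspt.Sat E φ (Bspt.cons a v) := by simp [allF, Bspt.Sat]
theorem sat_or {M : Type} {E : M → M → Prop} {φ ψ : Fm} {v : ℕ → M} :
    Bspt.Sat E (orF φ ψ) v ↔ Bspt.Sat E φ v ∨ Bspt.Sat E ψ v := or_iff_not_and_not.symm
theorem sat_imp {M : Type} {E : M → M → Prop} {φ ψ : Fm} {v : ℕ → M} :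
    Bspt.Sat E (impF φ ψ) v ↔ (Bspt.Sat E φ v → Bspt.Sat E ψ v) := by simp [impF, Bspt.Sat]
theorem sat_fi {M : Type} {E : M → M → Prop} {φ ψ : Fm} {v : ℕ → M} :
    Bspt.Sat E (fi φ ψ) v ↔ (Bspt.Sat E φ v ↔ Bspt.Sat E ψ v) := by
  simp only [fi, Bspt.Sat]; tauto
theorem sat_app {M : Type} {E : M → M → Prop} {f x y : ℕ} {v : ℕ → M} :
    Bspt.Sat E (appF f x y) v ↔ Bspt.App E (v f) (v x) (v y) := by
  simp only [appF, pairF, Bspt.Sat, sat_all, sat_fi, sat_or, Bspt.cons, Bspt.App, Bspt.IsPair]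

theorem sat_inj {M : Type} {E : M → M → Prop} {v : ℕ → M} : Bspt.Sat E injF v ↔ ∃ f,
    (∀ x, E x (v 0) → ∃ y, E y (v 1) ∧ Bspt.App E f x y) ∧
      ∀ x y x' y', Bspt.App E f x y → Bspt.App E f x' y' → (x = x' ↔ y = y') := by
  simp only [injF, Bspt.Sat, sat_all, sat_imp, sat_fi, sat_app, Bspt.cons]

variable {U : Ult P}

omit [Mo Γ P] in
theorem sl_all {φ : Fm} {v : ℕ → M U} :
    SL Γ U (allF φ) v ↔ ∀ a, L Γ U a → SL Γ U φ (cs a v) := by simp [allF, SL]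
omit [Mo Γ P] in
theorem sl_or {φ ψ : Fm} {v : ℕ → M U} :
    SL Γ U (orF φ ψ) v ↔ SL Γ U φ v ∨ SL Γ U ψ v := or_iff_not_and_not.symm
omit [Mo Γ P] in
theorem sl_imp {φ ψ : Fm} {v : ℕ → M U} :
    SL Γ U (impF φ ψ) v ↔ (SL Γ U φ v → SL Γ U ψ v) := by simp [impF, SL]
omit [Mo Γ P] in
theorem sl_fi {φ ψ : Fm} {v : ℕ → M U} :
    SL Γ U (fi φ ψ) v ↔ (SL Γ U φ v ↔ SL Γ U ψ v) := by
  simp only [fi, SL]; tauto

theorem L_pair {z a b : M U} (ha : L Γ U a) (hb : L Γ U b) (h : ∀ w, E U w z ↔ w = a ∨ w = b) :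
    L Γ U z := by
  obtain ⟨a, rfl⟩ := mk_surj a
  obtain ⟨b, rfl⟩ := mk_surj b
  rw [show z = mk U (upair a b) from M_ext fun w => (h w).trans mem_upair.symm]
  refine L_casesN 2 (v := cs a fun _ => b) (R := fun U => L Γ U (mk U (upair a b))) _ (hs_nat 0)
    (fun w V h1 h2 => ?_) U (by rintro (_ | i); exacts [ha, hb])
  rw [show mk V (upair a b) = mk V (upair (w 0) (w 1)) from M_ext fun z => by
    rw [mem_upair, mem_upair, ← h2 0 (by omega), ← h2 1 (by omega)]; rfl]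
  exact L_hs (hs_upair (h1 0) (h1 1)) V

theorem sl_app {f x y : ℕ} {v : ℕ → M U} (hf : L Γ U (v f)) (hx : L Γ U (v x)) (hy : L Γ U (v y)) :
    SL Γ U (appF f x y) v ↔ App (E U) (v f) (v x) (v y) := by
  simp only [appF, pairF, SL, sl_all, sl_fi, sl_or, cs, App, IsPair]
  refine exists_congr fun p => ⟨fun ⟨h1, h2, h3⟩ => ⟨h2, fun z => ?_⟩,
    fun ⟨h1, h2⟩ => ⟨L_tr h1 hf, h1, fun z hz => ?_⟩⟩
  all_goals
    have k : ∀ {z : M U} {Q : M U → Prop}, L Γ U z → (∀ w, Q w → L Γ U w) →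
        ((∀ w, L Γ U w → (E U w z ↔ Q w)) ↔ ∀ w, E U w z ↔ Q w) := fun hz hQ =>
      ⟨fun h w => ⟨fun e => (h w (L_tr e hz)).1 e, fun e => (h w (hQ w e)).2 e⟩, fun h w _ => h w⟩
    have k1 : ∀ w, w = v x → L Γ U w := fun w e => e ▸ hx
    have k2 : ∀ w, w = v x ∨ w = v y → L Γ U w := fun w e => e.elim (· ▸ hx) (· ▸ hy)
  · by_cases hz : L Γ U z
    · rw [h3 z hz, k hz k1, k hz k2]
    · exact iff_of_false (fun e => hz (L_tr e h1)) fun e => hz (e.elim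
        (fun e => L_pair hx hx fun w => by rw [e, or_self]) (L_pair hx hy))
  · rw [h2 z, k hz k1, k hz k2]

/-- below `r`, an infinite symmetric family of objects of type `t` injects into `τ` -/
def Ctx.Wit (t : Ty) (τ : Nm P) (r : P) : Prop :=
  ∃ (I : Type) (d : I → El Λ A t) (u : I → Nm P), (range d).Infinite ∧ Sym Λ (range d) ∧
    (∀ i, HS Γ (u i)) ∧ Sm Γ (setN (fun i => kpair (c.nm t (d i)) (u i)) univ) ∧
    (∀ i, Frc r fun U => E U (mk U (u i)) (mk U τ)) ∧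
    ∀ i k, Frc r fun U => mk U (u i) = mk U (u k) ↔ d i = d k

theorem Ctx.wit_sl {t : Ty} {τ : Nm P} {r : P} (h : c.Wit t τ r) (hr : Iic r ∈ U.U)
    (h0 : Iic c.p0 ∈ U.U) : ∃ s : PS Λ (El Λ A t), s.1.Infinite ∧
      SL Γ U injF (cs (mk U (c.nm (.w t) s)) fun _ => mk U τ) := by
  obtain ⟨I, d, u, h1, h2, h3, h4, h5, h6⟩ := h
  let f := setN (fun i => kpair (c.nm t (d i)) (u i)) univ
  have hp : ∀ i, HS Γ (kpair (c.nm t (d i)) (u i)) := fun i =>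
    hs_upair (hs_upair (c.nm_hs _ _) (c.nm_hs _ _)) (hs_upair (c.nm_hs _ _) (h3 i))
  have hf : L Γ U (mk U f) := L_hs (hs_iff.2 ⟨h4, fun _ => hp _⟩) U
  refine ⟨⟨_, h2⟩, h1, mk U f, hf, ?_⟩
  simp only [SL, sl_all, sl_imp, sl_fi]
  refine ⟨fun x hx e => ?_, fun x hx y hy x' hx' y' hy' e e' => ?_⟩
  · obtain ⟨x, rfl⟩ := mk_surj x
    obtain ⟨y, a, b, e⟩ := setN_cases (R := fun U => Iic r ∈ U.U → ∃ y, L Γ U y ∧
      E U y (mk U τ) ∧ App (E U) (mk U f) (mk U x) y) (fun _ V hi e hV => by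
        obtain ⟨i, rfl⟩ := hi
        exact ⟨_, L_hs (h3 i) V, h5 i V hV, _, setN_intro _ (mem_univ i) V,
          by rw [e]; exact isPair_kpair _ _⟩) U e hr
    exact ⟨y, a, b, (sl_app hf hx a).2 e⟩
  · obtain ⟨p, a, b⟩ := (sl_app hf hx hy).1 e
    obtain ⟨p', a', b'⟩ := (sl_app hf hx' hy').1 e'
    obtain ⟨x, rfl⟩ := mk_surj x
    obtain ⟨y, rfl⟩ := mk_surj y
    obtain ⟨x', rfl⟩ := mk_surj x'
    obtain ⟨y', rfl⟩ := mk_surj y'
    obtain ⟨p, rfl⟩ := mk_surj p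
    obtain ⟨p', rfl⟩ := mk_surj p'
    refine setN_cases (R := fun U => Iic r ∈ U.U → Iic c.p0 ∈ U.U → E U (mk U p') (mk U f) →
      IsPair (E U) (mk U p) (mk U x) (mk U y) → IsPair (E U) (mk U p') (mk U x') (mk U y') →
      (mk U x = mk U x' ↔ mk U y = mk U y')) (fun i V _ e1 k1 k2 k3 k4 => ?_) U a hr h0 a' b b'
    obtain ⟨e2, e3⟩ := (e1 ▸ k4).inj (isPair_kpair _ _)
    refine setN_cases (R := fun U => Iic r ∈ U.U → Iic c.p0 ∈ U.U →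
      mk U x = mk U (c.nm t (d i)) → mk U y = mk U (u i) →
      IsPair (E U) (mk U p') (mk U x') (mk U y') → (mk U x = mk U x' ↔ mk U y = mk U y'))
      (fun k W _ e4 k1 k2 e2 e3 k5 => ?_) V k3 k1 k2 e2 e3
    obtain ⟨e5, e6⟩ := (e4 ▸ k5).inj (isPair_kpair _ _)
    rw [e2, e3, e5, e6]
    exact Iff.trans ⟨c.nm_inj t _ _ W k2, fun e => by rw [e]⟩ (h6 i k W k1).symm

end

end Pool.Agent.H40.Js
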