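import Pool.Agent.H40.Js10

set_option autoImplicit false

/-! Homogeneity arguments for the Jech-Sochor forcing with small supports. -/

namespace Pool.Agent.H40.Js

open Pool.Agent.H42.ZF Set Filter Cardinal

section
variable {P : Type} [Preorder P] {Γ : Type} [Group Γ] [MulAction Γ P] [Mo Γ P]

def Eqv (x y : Nm P) : Prop := ∀ U : Ult P, mk U x = mk U y

theorem Eqv.act {x y : Nm P} (h : Eqv x y) (g : Γ) : Eqv (act g x) (act g y) := fun U => by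
  obtain ⟨U, rfl⟩ := mv_surj g U
  exact mk_mv.2 (h U)

theorem frc_mv {g : Γ} {p : P} {Q : Ult P → Prop} (h : Frc p fun U => Q (mv g U)) :
    Frc (g • p) Q := fun U hU => by
  obtain ⟨U, rfl⟩ := mv_surj g U
  exact h U (G_mv.1 hU)

theorem eqv_of_sub {g : Γ} {x : Nm P}
    (h1 : ∀ U z, E U (mk U z) (mk U x) → E (mv g U) (mk _ (act g z)) (mk _ x))
    (h2 : ∀ U z, E U (mk U z) (mk U x) → E (mv g⁻¹ U) (mk _ (act g⁻¹ z)) (mk _ x)) :
    Eqv (act g x) x := by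
  refine act_eq fun U z => ⟨h1 U z, fun h3 => ?_⟩
  have := E_mv (g := g) |>.2 (h2 _ _ h3)
  rw [mv_inv, act_inv] at this
  exact E_mv.1 this

theorem ex_low {p q r : P} (h : Frc p fun U => Iic q ∈ U.U ∧ Iic r ∈ U.U) :
    ∃ s ≤ p, s ≤ q ∧ s ≤ r := by
  obtain ⟨U, a, b, c⟩ := h.ex
  obtain ⟨s, h1, h2, h3⟩ := Filter.nonempty_of_mem (inter_mem a (inter_mem b c))
  exact ⟨s, h1, h2, h3⟩

end

variable {θ : Cardinal.{0}} {Λ : Type} [Group Λ] {A : Type} [MulAction Λ A] {K : Type}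

abbrev PP (θ : Cardinal.{0}) (A K : Type) : Type := Fn θ ((A × K) × K) Bool

def Ker (F : Set (A × K)) (g : GG Λ A K) : Prop := g.1.1 = 1 ∧ ∀ x ∈ F, g.1.2 x = x

def co (F : Set (A × K)) : Set ((A × K) × K) := {z | z.1 ∈ F}

variable (Λ) in
def Inv (F : Set (A × K)) (y : Nm (PP θ A K)) : Prop := ∀ k : GG Λ A K, Ker F k → Eqv (act k y) y

theorem Ker.mul {F : Set (A × K)} {a b : GG Λ A K} (ha : Ker F a) (hb : Ker F b) : Ker F (a * b) :=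
  ⟨by show a.1.1 * b.1.1 = 1; rw [ha.1, hb.1, one_mul], fun x hx => by
    show a.1.2 (b.1.2 x) = x; rw [hb.2 x hx, ha.2 x hx]⟩

theorem Ker.inv {F : Set (A × K)} {a : GG Λ A K} (ha : Ker F a) : Ker F a⁻¹ :=
  ⟨by show a.1.1⁻¹ = 1; rw [ha.1, inv_one], fun x hx => by
    show a.1.2⁻¹ x = x; rw [Equiv.Perm.inv_eq_iff_eq, ha.2 x hx]⟩

theorem Inv.mono {F F' : Set (A × K)} {y : Nm (PP θ A K)} (h : Inv Λ F y) (h' : F ⊆ F') :
    Inv Λ F' y := fun k hk => h k ⟨hk.1, fun x hx => hk.2 x (h' hx)⟩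

theorem Inv.eq {F : Set (A × K)} {y : Nm (PP θ A K)} (h : Inv Λ F y) {a b : GG Λ A K}
    (h1 : a.1.1 = b.1.1) (h2 : ∀ x ∈ F, a.1.2 x = b.1.2 x) : Eqv (act a y) (act b y) := by
  have := (h (b⁻¹ * a) ⟨by show b.1.1⁻¹ * a.1.1 = 1; rw [h1, inv_mul_cancel], fun x hx => by
    show b.1.2⁻¹ (a.1.2 x) = x; rw [h2 x hx]; simp⟩).act b
  rwa [act_mul, mul_inv_cancel_left] at this

theorem ex_swap {a b : GG Λ A K} (ha : a.1.1 = 1) (hb : b.1.1 = 1) (X : Set (A × K))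
    (h : ∀ x ∈ X, ∀ y ∈ X, a.1.2 x ≠ b.1.2 y) : ∃ g : GG Λ A K, g.1.1 = 1 ∧
      (∀ x ∈ X, g.1.2 (a.1.2 x) = b.1.2 x) ∧
      ∀ y, (∀ x ∈ X, a.1.2 x ≠ y) → (∀ x ∈ X, b.1.2 x ≠ y) → g.1.2 y = y := by
  classical
  let f : A × K → A × K := fun y => if a.1.2⁻¹ y ∈ X then b.1.2 (a.1.2⁻¹ y) else
    if b.1.2⁻¹ y ∈ X then a.1.2 (b.1.2⁻¹ y) else y
  have h1 : ∀ x ∈ X, f (a.1.2 x) = b.1.2 x := fun x hx => by simp [f, hx]
  have h2 : ∀ x ∈ X, f (b.1.2 x) = a.1.2 x := fun x hx => by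
    have : a.1.2⁻¹ (b.1.2 x) ∉ X := fun e => h _ e x hx (by simp)
    simp only [f, if_neg this]
    simp [hx]
  have h3 : ∀ y, (∀ x ∈ X, a.1.2 x ≠ y) → (∀ x ∈ X, b.1.2 x ≠ y) → f y = y := fun y c d =>
    (if_neg fun e => c _ e (by simp)).trans (if_neg fun e => d _ e (by simp))
  have h4 : ∀ y, (∃ x ∈ X, a.1.2 x = y) ∨ (∃ x ∈ X, b.1.2 x = y) ∨ f y = y := fun y => by
    by_contra e
    push Not at e
    exact e.2.2 (h3 y e.1 e.2.1)
  have inv : Function.Involutive f := fun y => by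
    rcases h4 y with ⟨x, hx, rfl⟩ | ⟨x, hx, rfl⟩ | e
    · rw [h1 x hx, h2 x hx]
    · rw [h2 x hx, h1 x hx]
    · rw [e, e]
  refine ⟨⟨(1, inv.toPerm), fun y => ?_⟩, rfl, h1, h3⟩
  show (f y).1 = (1 : Λ) • y.1
  rcases h4 y with ⟨x, hx, rfl⟩ | ⟨x, hx, rfl⟩ | e
  · rw [h1 x hx, a.2, b.2, ha, hb, one_smul, one_smul]
  · rw [h2 x hx, a.2, b.2, ha, hb, one_smul, one_smul]
  · rw [e, one_smul]

variable [AddCommGroup K]

theorem ex_tr {F F' : Set (A × K)} (hF : F ⊆ F') {c : K} (hc : ∀ x ∈ F', ∀ y ∈ F', x.2 + c ≠ y.2) :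
    ∃ j : GG Λ A K, Ker F j ∧ ∀ x ∈ F' \ F, j.1.2 x = (x.1, x.2 + c) := by
  obtain ⟨j, h1, h2, h3⟩ := ex_swap (a := (1 : GG Λ A K))
    (b := ⟨(1, (Equiv.refl A).prodCongr (Equiv.addRight c)), fun x => (one_smul _ _).symm⟩) rfl rfl
    (F' \ F) fun x hx y hy e => hc y hy.1 x hx.1 (congrArg Prod.snd e).symm
  exact ⟨j, ⟨h1, fun y hy => h3 y (fun x hx e => hx.2 ((show x = y from e) ▸ hy))
    fun x hx e => hc x hx.1 y (hF hy) (congrArg Prod.snd e)⟩, h2⟩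

theorem ex_off (hθ : ℵ₀ ≤ θ) (hK : θ ≤ #K) {D : Set K} (hD : #D < θ) :
    ∃ c, ∀ a ∈ D, a + c ∉ D := by
  obtain ⟨c, hc⟩ : ∃ c, c ∉ range fun t : D × D => t.1.1 - t.2.1 := by
    by_contra h
    push Not at h
    refine (((mul_lt_of_lt hθ hD hD).trans_le hK)).not_ge
      (((mk_univ ..).symm.le.trans (mk_le_mk_of_subset fun η _ => h η)).trans
        (mk_range_le.trans (by simp)))
  exact ⟨c, fun ξ a b => hc ⟨(⟨_, b⟩, ⟨_, a⟩), by simp⟩⟩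

omit [AddCommGroup K] in
theorem small_un (hθ : ℵ₀ ≤ θ) {X : Type} {s t : Set X} (hs : #s < θ) (ht : #t < θ) :
    #(s ∪ t : Set X) < θ := (mk_union_le _ _).trans_lt (add_lt_of_lt hθ hs ht)

omit [AddCommGroup K] in
theorem small_im {X Y : Type} {s : Set X} (f : X → Y) (hs : #s < θ) : #(f '' s) < θ :=
  mk_image_le.trans_lt hs

def dm (p : PP θ A K) : Set K := (fun z => z.1.2) '' {z | p.f z ≠ none}

structure Hy (θ : Cardinal.{0}) (K : Type) [AddCommGroup K] : Prop where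
  two : ∀ c : K, c + c = 0
  reg : θ.IsRegular
  unc : ℵ₀ < θ
  le : θ ≤ #K

variable [NF Λ]

theorem compat (H : Hy θ K) {F : Set (A × K)} (hF : #F < θ) (γ : Λ) (hγ : ∀ x ∈ F, γ • x.1 = x.1)
    {p q : PP θ A K} (h : ∀ z k l, z.1 ∈ F → q.f z = some k → p.f z = some l → k = l) :
    ∃ g : GG Λ A K, g.1.1 = γ ∧ (∀ x ∈ F, g.1.2 x = x) ∧ ∃ r, r ≤ q ∧ r ≤ g • p := by
  obtain ⟨g, h5, h6, h7⟩ := ex_lift H.two H.unc.le H.le (dm p ∪ dm q ∪ Prod.snd '' F)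
    (small_un H.unc.le (small_un H.unc.le (small_im _ p.small) (small_im _ q.small))
      (small_im _ hF)) F (fun x hx => Or.inr ⟨x, hx, rfl⟩) γ hγ
  refine ⟨g, h5, h6, _, Fn.un_le H.unc.le q _, Fn.un_le' _ fun z k l hk hl => ?_⟩
  rw [gg_f] at hl
  by_cases hx : g.1.2⁻¹ z.1 ∈ F
  · have := h6 _ hx
    simp only [Equiv.Perm.coe_inv, Equiv.apply_symm_apply] at this
    rw [show g.1.2⁻¹ z.1 = z.1 from this.symm] at hl hx
    exact h z k l hx hk hl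
  · refine absurd (Or.inl (Or.inr ⟨z, by simp [hk], by simp⟩))
      (h7 _ hx (Or.inl (Or.inl ⟨(_, z.2), ?_, rfl⟩)))
    exact fun h => Option.some_ne_none _ (hl.symm.trans h)

theorem restr (H : Hy θ K) {F : Set (A × K)} (hF : #F < θ) {Q : Ult (PP θ A K) → Prop} [C Q]
    (hQ : ∀ g : GG Λ A K, Ker F g → ∀ U, Q U → Q (mv g U)) {p : PP θ A K} (h : Frc p Q) :
    Frc (p.res (co F)) Q := by
  refine cl.dense fun q hq => ?_
  obtain ⟨g, h1, h2, r, h3, h4⟩ := compat (Λ := Λ) H hF 1 (fun _ _ => one_smul _ _) (p := p) (q := q)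
    fun z k l a b c => Option.some.inj (b.symm.trans (hq z l (Fn.res_some.2 ⟨a, c⟩)))
  exact ⟨r, h3, (frc_mv (h.imp (hQ g ⟨h1, h2⟩))).mono h4⟩

theorem restr_eq (H : Hy θ K) {F : Set (A × K)} (hF : #F < θ) {x y : Nm (PP θ A K)}
    (hx : Inv Λ F x) (hy : Inv Λ F y) {p : PP θ A K} (h : Frc p fun U => mk U x = mk U y) :
    Frc (p.res (co F)) fun U => mk U x = mk U y :=
  restr H hF (fun g hg U e => by rw [← hx g hg, ← hy g hg, mk_mv]; exact e) h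

theorem restr_mem (H : Hy θ K) {F : Set (A × K)} (hF : #F < θ) {x y : Nm (PP θ A K)}
    (hx : Inv Λ F x) (hy : Inv Λ F y) {p : PP θ A K} (h : Frc p fun U => E U (mk U x) (mk U y)) :
    Frc (p.res (co F)) fun U => E U (mk U x) (mk U y) :=
  restr H hF (fun g hg U e => by rw [← hx g hg, ← hy g hg, E_mv]; exact e) h

variable (Λ) in
def Coh (F : Set (A × K)) (y : Nm (PP θ A K)) (t : PP θ A K) : Prop := ∀ k : GG Λ A K, Ker F k →
  ∀ U : Ult (PP θ A K), Iic t ∈ U.U ∧ Iic (k • t) ∈ U.U → mk U (act k y) = mk U y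

theorem coh (H : Hy θ K) {F F' : Set (A × K)} (hF : F ⊆ F') (hs : #F' < θ) {y : Nm (PP θ A K)}
    (hy : Inv Λ F' y) {k : GG Λ A K} (hk : Ker F k) (hk' : ∀ x ∈ F' \ F, k.1.2 x ∉ F')
    {r : PP θ A K} (hr : Frc r fun U => mk U y = mk U (act k y)) : Coh Λ F y (r.res (co F')) := by
  have h1 := restr_eq H (small_un H.unc.le hs (small_im k.1.2 hs)) (hy.mono subset_union_left)
    (fun g hg => by
      rw [act_mul]
      exact hy.eq (by show g.1.1 * _ = _; rw [hg.1, one_mul])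
        fun x hx => hg.2 _ (Or.inr ⟨x, hx, rfl⟩)) hr
  have key : ∀ c : GG Λ A K, Ker F c → (∀ x ∈ F' \ F, c.1.2 x ∉ F' ∧ c.1.2 x ∉ k.1.2 '' F') →
      ∀ U : Ult (PP θ A K), Iic (r.res (co F')) ∈ U.U → Iic (c • (k⁻¹ • r).res (co F')) ∈ U.U →
        mk U y = mk U (act c y) := by
    intro c hc hc' U a b
    obtain ⟨g, g1, g2, g3⟩ := ex_swap hk.1 hc.1 (F' \ F)
      fun x hx z hz e => (hc' z hz).2 ⟨x, hx.1, e⟩
    have g4 : Ker F' g := ⟨g1, fun z hz => g3 z (fun x hx e => hk' x hx (e ▸ hz))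
      fun x hx e => (hc' x hx).1 (e ▸ hz)⟩
    have g5 : ∀ x ∈ F', g.1.2 (k.1.2 x) = c.1.2 x := fun x hx => by
      by_cases e : x ∈ F
      · rw [hk.2 x e, hc.2 x e, g4.2 x hx]
      · exact g2 x ⟨hx, e⟩
    have g6 := frc_mv (g := g) (Q := fun U => mk U (act g y) = mk U (act g (act k y)))
      (h1.imp fun U e => mk_mv.2 e) U (by
      filter_upwards [a, b] with q qa qb z v hz
      rw [gg_f, Fn.res_some] at hz
      obtain ⟨z, η⟩ := z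
      obtain ⟨z, rfl⟩ := g.1.2.surjective z
      simp only [Equiv.Perm.coe_inv, Equiv.symm_apply_apply] at hz
      rcases hz.1 with e | ⟨x, e, rfl⟩
      · rw [g4.2 z e]
        exact qa _ _ (Fn.res_some.2 ⟨e, hz.2⟩)
      · refine qb _ _ ?_
        rw [gg_f, g5 x e, Fn.res_some]
        simp only [Equiv.Perm.coe_inv, Equiv.symm_apply_apply]
        exact ⟨e, hz.2⟩)
    dsimp only at g6
    rw [hy g g4, act_mul] at g6
    exact g6.trans (hy.eq (by show g.1.1 * k.1.1 = _; rw [g1, hk.1, hc.1, one_mul]) g5 U)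
  intro k' h2
  refine by_dense fun s hs' => ?_
  obtain ⟨s', s1, s2, s3⟩ := ex_low hs'
  let G := F' ∪ k.1.2 '' F'
  have hG : #G < θ := small_un H.unc.le hs (small_im _ hs)
  obtain ⟨c, hc⟩ := ex_off H.unc.le H.le (small_un H.unc.le (small_im (fun z => z.1.2) s'.small)
    (small_im Prod.snd (small_un H.unc.le hG (small_im k'.1.2 hG))))
  have hc1 : ∀ x ∈ F', ∀ z ∈ G ∪ k'.1.2 '' G, x.2 + c ≠ z.2 := fun x hx z hz e =>
    hc _ (Or.inr ⟨x, Or.inl (Or.inl hx), rfl⟩) (Or.inr ⟨z, hz, e.symm⟩)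
  obtain ⟨j, j1, j2⟩ := ex_tr (Λ := Λ) hF fun x hx z hz => hc1 x hx z (Or.inl (Or.inl hz))
  have j3 : ∀ x ∈ F' \ F, j.1.2 x ∉ G ∪ k'.1.2 '' G := fun x hx e =>
    hc1 x hx.1 _ e (by rw [j2 x hx])
  have s4 := Fn.un_le' H.unc.le (p := s') (q := j • (k⁻¹ • r).res (co F')) fun z v w a b => by
    rw [gg_f, Fn.res_some] at b
    obtain ⟨z, η⟩ := z
    obtain ⟨z, rfl⟩ := j.1.2.surjective z
    simp only [Equiv.Perm.coe_inv, Equiv.symm_apply_apply] at b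
    by_cases e : z ∈ F
    · have b2 : r.f (k.1.2 z, η) = some w := b.2
      rw [hk.2 z e] at b2
      rw [j1.2 z e] at a
      exact Option.some.inj (a.symm.trans (s2 _ _ (Fn.res_some.2 ⟨b.1, b2⟩)))
    · exact absurd (Or.inl ⟨(j.1.2 z, η), by simp [a], by rw [j2 z ⟨b.1, e⟩]⟩)
        (hc _ (Or.inr ⟨z, Or.inl (Or.inl b.1), rfl⟩))
  refine ⟨_, (Fn.un_le H.unc.le s' (j • (k⁻¹ • r).res (co F'))).trans s1, fun U hU => ?_⟩
  have u1 := frc_G s4 U hU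
  dsimp only at u1 ⊢
  rw [key j j1 (fun x hx => ⟨fun e => j3 x hx (Or.inl (Or.inl e)),
    fun e => j3 x hx (Or.inl (Or.inr e))⟩) U (frc_G ((Fn.un_le _ _ _).trans s2) U hU) u1]
  have u2 := frc_G ((Fn.un_le _ _ _).trans s3) U hU
  obtain ⟨U, rfl⟩ := mv_surj k' U
  have := key (k'⁻¹ * j) (h2.inv.mul j1) (fun x hx => by
    have : ∀ z, (k'⁻¹ * j).1.2 x = z → z ∉ G := fun z e f => j3 x hx (Or.inr ⟨z, f, by
      rw [← e]; exact k'.1.2.apply_symm_apply _⟩)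
    exact ⟨fun e => this _ rfl (Or.inl e), fun e => this _ rfl (Or.inr e)⟩) U (G_mv.1 u2)
    ((G_mv (g := k')).1 (by rwa [← mul_smul, mul_inv_cancel_left]))
  rw [mk_mv.2 this, act_mul, mul_inv_cancel_left]

end Pool.Agent.H40.Js
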