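import Pool.Agent.H40.Js11

set_option autoImplicit false

/-! Every infinite set of the symmetric model contains a copy of an infinite symmetric set. -/

namespace Pool.Agent.H40.Js

open Pool.Agent.H42.ZF Set Filter Cardinal

variable {θ : Cardinal.{0}} {Λ : Type} [Group Λ] {A : Type} [MulAction Λ A] {K : Type}

def Good (θ : Cardinal.{0}) (F : Set (A × K)) : Prop := #F < θ ∧ (Prod.fst '' F).Finite

def hat (γ : Λ) : GG Λ A K :=
  ⟨(γ, (MulAction.toPerm γ).prodCongr (Equiv.refl K)), fun _ => rfl⟩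

theorem hat_mul (γ δ : Λ) : (hat (γ * δ) : GG Λ A K) = hat γ * hat δ :=
  Subtype.ext (Prod.ext rfl (Equiv.ext fun x => Prod.ext (mul_smul _ _ _) rfl))

theorem hat_fix {γ : Λ} {F : Set (A × K)} (h : ∀ a ∈ Prod.fst '' F, γ • a = a) :
    ∀ x ∈ F, (hat γ : GG Λ A K).1.2 x = x := fun x hx => Prod.ext (h _ ⟨x, hx, rfl⟩) rfl

theorem fix_res {g : GG Λ A K} {F : Set (A × K)} (h : ∀ x ∈ F, g.1.2 x = x) (p : PP θ A K) :
    g • p.res (co F) = p.res (co F) := by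
  refine Fn.ext' (funext fun z => Option.ext fun v => ?_)
  obtain ⟨z, η⟩ := z
  obtain ⟨z, rfl⟩ := g.1.2.surjective z
  rw [gg_f, Fn.res_some, Fn.res_some]
  simp only [Equiv.Perm.coe_inv, Equiv.symm_apply_apply]
  refine ⟨fun e => by rw [h z e.1]; exact e, fun e => ?_⟩
  rwa [g.1.2.injective (h _ e.1)] at e

theorem Good.un (hθ : ℵ₀ ≤ θ) {F G : Set (A × K)} (hF : Good θ F) (hG : Good θ G) :
    Good θ (F ∪ G) := ⟨small_un hθ hF.1 hG.1, image_union .. ▸ hF.2.union hG.2⟩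

variable [NF Λ]

def Char (θ : Cardinal.{0}) (N : NF (GG Λ A K)) : Prop := ∀ p : GG Λ A K → Prop,
  (∀ᶠ g in N.F, p g) ↔ ∃ S ∈ NF.F (Γ := Λ), ∃ F, Good θ F ∧
    ∀ g : GG Λ A K, g.1.1 ∈ S → (∀ x ∈ F, g.1.2 x = x) → p g

theorem ex_char (hθ : ℵ₀ ≤ θ) : ∃ N : NF (GG Λ A K), Char θ N := by
  let F : Filter (GG Λ A K) :=
    { sets := {J | ∃ S ∈ NF.F (Γ := Λ), ∃ F, Good θ F ∧
        ∀ g : GG Λ A K, g.1.1 ∈ S → (∀ x ∈ F, g.1.2 x = x) → g ∈ J}
      univ_sets := ⟨univ, univ_mem, ∅, ⟨by simpa using aleph0_pos.trans_le hθ, by simp⟩,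
        fun _ _ _ => trivial⟩
      sets_of_superset := fun ⟨S, a, F, b, c⟩ h => ⟨S, a, F, b, fun g d e => h (c g d e)⟩
      inter_sets := fun ⟨S, a, F, b, c⟩ ⟨S', a', F', b', c'⟩ => ⟨_, inter_mem a a', _, b.un hθ b',
        fun g d e => ⟨c g d.1 fun x hx => e x (Or.inl hx), c' g d.2 fun x hx => e x (Or.inr hx)⟩⟩ }
  refine ⟨⟨F, fun h J ⟨S, a, F, b, c⟩ => ⟨_, NF.conj h.1.1 a, h.1.2 '' F, ⟨small_im _ b.1, ?_⟩,
    fun g d e => c _ d fun x hx => ?_⟩, fun J ⟨S, a, F, b, c⟩ => ⟨_, NF.inv a, F, b,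
    fun g d e => c _ d fun x hx => ?_⟩⟩, fun _ => Iff.rfl⟩
  · refine (b.2.image (h.1.1 • ·)).subset ?_
    rintro _ ⟨_, ⟨x, hx, rfl⟩, rfl⟩
    exact ⟨_, ⟨x, hx, rfl⟩, (h.2 x).symm⟩
  · show h.1.2⁻¹ (g.1.2 (h.1.2 x)) = x
    rw [e _ ⟨x, hx, rfl⟩]; simp
  · show g.1.2⁻¹ x = x
    rw [Equiv.Perm.inv_eq_iff_eq, e x hx]

variable [AddCommGroup K] [N : NF (GG Λ A K)] (H : Hy θ K) (hN : Char θ N)
  (hA : ∀ a : A, ∀ᶠ g in NF.F (Γ := Λ), g • a = a)

omit [AddCommGroup K] in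
include hA in
theorem ev_fix {F : Set (A × K)} (h : Good θ F) :
    ∀ᶠ γ in NF.F (Γ := Λ), ∀ a ∈ Prod.fst '' F, γ • a = a :=
  (eventually_all_finite h.2).2 fun a _ => hA a

omit [AddCommGroup K] in
include hN hA in
theorem mix {F F' : Set (A × K)} (hF : F ⊆ F') (hg : Good θ F') {S : Set Λ} (hS : S ∈ NF.F)
    {y : Nm (PP θ A K)} (hy : HS (GG Λ A K) y)
    (hs : ∀ g : GG Λ A K, g.1.1 ∈ S → (∀ x ∈ F', g.1.2 x = x) → Eqv (act g y) y) {r : PP θ A K}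
    (hc : Coh Λ F y (r.res (co F'))) : ∃ w, HS (GG Λ A K) w ∧ Inv Λ F w ∧
      Frc (r.res (co F')) fun U => mk U y = mk U w := by
  obtain ⟨ι, B, b⟩ := y
  set t := r.res (co F')
  let w := fam (fun i : {k : GG Λ A K // Ker F k} × ι => act i.1.1 (B i.2))
    fun i U => Iic (i.1.1 • t) ∈ U.U ∧ Iic (i.1.1 • b i.2) ∈ U.U
  have intro : ∀ k : GG Λ A K, Ker F k → ∀ U z, E U (mk U z) (mk U (act k (.mk ι B b))) →
      Iic (k • t) ∈ U.U → E U (mk U z) (mk U w) := fun k hk U z =>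
    mem_cases (fun j V a e c => by
      rw [e]
      exact fam_intro (A := fun i : {k : GG Λ A K // Ker F k} × ι => act i.1.1 (B i.2))
        (⟨k, hk⟩, j) ⟨c, a⟩) U
  have elim : ∀ z (R : Ult (PP θ A K) → Prop) [C R], (∀ k : GG Λ A K, Ker F k → ∀ U,
      E U (mk U z) (mk U (act k (.mk ι B b))) → Iic (k • t) ∈ U.U → R U) →
      ∀ U, E U (mk U z) (mk U w) → R U := fun z R _ h => fam_cases fun i V a e => h _ i.1.2 V
        (by rw [e]; exact mem_intro (act i.1.1 (.mk ι B b)) i.2 V a.2) a.1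
  have key : ∀ g : GG Λ A K, (∀ k, Ker F k → ∃ k' g₁ : GG Λ A K, Ker F k' ∧ g * k = k' * g₁ ∧
      g₁ • t = t ∧ Eqv (act g₁ (.mk ι B b)) (.mk ι B b)) →
      ∀ U z, E U (mk U z) (mk U w) → E (mv g U) (mk _ (act g z)) (mk _ w) := by
    intro g h U z hz
    rw [← act_inv g w, E_mv]
    refine elim z (fun U => E U (mk U z) (mk U (act g⁻¹ w))) (fun k hk V a c => ?_) U hz
    obtain ⟨k', g₁, h1, h2, h3, h4⟩ := h k hk
    rw [← E_mv (g := g), act_inv]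
    refine intro k' h1 _ _ ?_ (by rwa [← h3, ← mul_smul, ← h2, mul_smul, G_mv])
    rwa [← h4.act k', act_mul, ← h2, ← act_mul, E_mv]
  have k1 : ∀ g : GG Λ A K, Ker F g → _ := fun g hg => key g fun k hk =>
    ⟨g * k, 1, hg.mul hk, (mul_one _).symm, one_smul _ _, fun U => by rw [act_one]⟩
  refine ⟨w, hs_fam (sm_of_sub ((hN _).2 ⟨_, inter_mem hS (ev_fix hA hg), F, ⟨(mk_le_mk_of_subset
    hF).trans_lt hg.1, hg.2.subset (image_mono hF)⟩, fun g a c => key g fun k hk =>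
      ⟨g * k * (hat g.1.1)⁻¹, hat g.1.1, ⟨?_, fun x hx => ?_⟩, (inv_mul_cancel_right _ _).symm,
        fix_res (hat_fix a.2) r, hs _ a.1 (hat_fix a.2)⟩⟩)) fun i => hs_act _ (hy.2 _),
    fun g hg => eqv_of_sub (k1 g hg) (k1 _ hg.inv), fun U hU => M_ext fun z => ?_⟩
  · show g.1.1 * k.1.1 * g.1.1⁻¹ = 1
    rw [hk.1, mul_one, mul_inv_cancel]
  · show g.1.2 (k.1.2 ((hat g.1.1 : GG Λ A K).1.2⁻¹ x)) = x
    rw [Equiv.Perm.inv_eq_iff_eq.2 (hat_fix a.2 x (hF hx)).symm, hk.2 x hx, c x hx]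
  · obtain ⟨z, rfl⟩ := mk_surj z
    exact ⟨fun e => intro 1 ⟨rfl, fun _ _ => rfl⟩ U z (by rwa [act_one]) (by rwa [one_smul]),
      fun e => elim z (fun U => Iic t ∈ U.U → E U (mk U z) (mk U (.mk ι B b)))
        (fun k hk V a c d => hc k hk V ⟨d, c⟩ ▸ a) U e hU⟩

include H hN hA in
theorem lemR (h1 : ∀ S ∈ NF.F (Γ := Λ), (1 : Λ) ∈ S) {F : Set (A × K)} (hF : Good θ F)
    {x y : Nm (PP θ A K)} (hx : Inv Λ F x) (hy : HS (GG Λ A K) y) {p : PP θ A K}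
    (hp : Frc p fun U => E U (mk U y) (mk U x)) :
    (∃ r ≤ p, ∃ u : ℕ → Nm (PP θ A K), (∀ n, HS (GG Λ A K) (u n)) ∧
      (∀ᶠ g in N.F, ∀ n, Eqv (act g (u n)) (u n)) ∧ (∀ n, Frc r fun U => E U (mk U (u n)) (mk U x)) ∧
      ∀ n m, n ≠ m → Frc r fun U => mk U (u n) ≠ mk U (u m)) ∨
    ∃ r ≤ p, ∃ w, HS (GG Λ A K) w ∧ Inv Λ F w ∧ Frc r fun U => mk U y = mk U w := by
  obtain ⟨S, hS, F0, g0, hs⟩ := (hN _).1 (hs_iff.1 hy).1
  have hg := hF.un H.unc.le g0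
  replace hs : ∀ g : GG Λ A K, g.1.1 ∈ S → (∀ x ∈ F ∪ F0, g.1.2 x = x) → Eqv (act g y) y :=
    fun g a b => hs g a fun x hx => b x (Or.inr hx)
  have hF' : F ⊆ F ∪ F0 := subset_union_left
  generalize F ∪ F0 = F' at *
  have iy : Inv Λ F' y := fun k hk => hs k (hk.1 ▸ h1 S hS) hk.2
  have p0 := restr_mem H hg.1 iy (hx.mono hF') hp
  by_cases hc : ∃ r ≤ p.res (co F'), Coh Λ F y (r.res (co F'))
  · obtain ⟨r, r1, r2⟩ := hc
    obtain ⟨w, w1, w2, w3⟩ := mix hN hA hF' hg hS hy hs r2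
    exact Or.inr ⟨_, Fn.un_le H.unc.le p _, w, w1, w2, w3.mono (Fn.un_le' _ fun z k l a b =>
      Option.some.inj ((r1 z k (Fn.res_some.2 ⟨(Fn.res_some.1 b).1, a⟩)).symm.trans
        (Fn.res_some.1 b).2))⟩
  let D := dm p ∪ Prod.snd '' F'
  have hD : #D < θ := small_un H.unc.le (small_im _ p.small) (small_im _ hg.1)
  obtain ⟨c, c1, c2⟩ := exists_seq_of_forall_finset_exists (fun c : K => ∀ a ∈ D, a + c ∉ D)
    (fun c d => ∀ a ∈ D, ∀ b ∈ D, a + c ≠ b + d) fun s _ => by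
      obtain ⟨c, hc⟩ := ex_off H.unc.le H.le (small_un H.unc.le hD (small_im
        (fun z : K × K => z.1 + z.2) (s := D ×ˢ (s : Set K)) (by
          rw [mk_setProd]
          exact mul_lt_of_lt H.unc.le hD (s.finite_toSet.lt_aleph0.trans H.unc))))
      exact ⟨c, fun a ha e => hc a (Or.inl ha) (Or.inl e), fun d hd a ha b hb e =>
        hc b (Or.inl hb) (Or.inr ⟨(a, d), ⟨ha, hd⟩, e⟩)⟩
  have c3 : ∀ n m, n ≠ m → ∀ a ∈ D, ∀ b ∈ D, a + c n ≠ b + c m := fun n m h a ha b hb =>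
    h.lt_or_gt.elim (fun h => c2 n m h a ha b hb) fun h => (c2 m n h b hb a ha).symm
  have hD' : ∀ x ∈ F', x.2 ∈ D := fun x hx => Or.inr ⟨x, hx, rfl⟩
  choose k k1 k2 using fun n => ex_tr (Λ := Λ) hF' (c := c n)
    fun x hx z hz e => c1 n _ (hD' x hx) (e ▸ hD' z hz)
  have k3 : ∀ n z v, (k n • p.res (co F')).f z = some v →
      p.f z = some v ∧ z.1.2 ∈ D ∨ ∃ a ∈ D, z.1.2 = a + c n := by
    rintro n ⟨z, η⟩ v h
    obtain ⟨z, rfl⟩ := (k n).1.2.surjective z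
    rw [gg_f, Fn.res_some] at h
    simp only [Equiv.Perm.coe_inv, Equiv.symm_apply_apply] at h
    by_cases e : z ∈ F
    · rw [(k1 n).2 z e]
      exact Or.inl ⟨h.2, hD' z h.1⟩
    · exact Or.inr ⟨_, hD' z h.1, by rw [k2 n z ⟨h.1, e⟩]⟩
  obtain ⟨q, hq, -⟩ := Fn.sup H.reg (ι := Option ℕ) (by simpa using H.unc)
    (fun o => o.elim p fun n => k n • p.res (co F')) (by
      have : ∀ n z v w, p.f z = some v → (k n • p.res (co F')).f z = some w → v = w :=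
        fun n z v w a b => (k3 n z w b).elim (fun e => Option.some.inj (a.symm.trans e.1))
          fun ⟨d, e, f⟩ => absurd (Or.inl ⟨z, by simp [a], f⟩) (c1 n d e)
      rintro (_ | n) (_ | m) z v w a b
      · exact Option.some.inj (a.symm.trans b)
      · exact this m z v w a b
      · exact (this n z w v b a).symm
      · by_cases e : n = m
        · subst e; exact Option.some.inj (a.symm.trans b)
        rcases k3 n z v a with a' | ⟨d, d1, d2⟩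
        · exact this m z v w a'.1 b
        rcases k3 m z w b with b' | ⟨d', d3, d4⟩
        · exact (this n z w v b'.1 a).symm
        · exact absurd (d2.symm.trans d4) (c3 n m e d d1 d' d3))
  refine Or.inl ⟨q, hq none, fun n => act (k n) y, fun n => hs_act _ hy, (hN _).2
    ⟨S, hS, ⋃ n, (k n).1.2 '' F', ⟨?_, hg.2.subset ?_⟩, fun g a b n U => ?_⟩,
    fun n => (frc_mv (p0.imp fun U e => ?_)).mono (hq (some n)), fun n m h => ?_⟩
  · exact (card_iUnion_lt_iff_forall_of_isRegular H.reg (by simpa using H.unc)).2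
      fun n => small_im _ hg.1
  · rintro _ ⟨_, ⟨_, ⟨n, rfl⟩, z, hz, rfl⟩, rfl⟩
    exact ⟨z, hz, by rw [(k n).2, (k1 n).1, one_smul]⟩
  · have := (hs ((k n)⁻¹ * g * k n) (by
      show (k n).1.1⁻¹ * g.1.1 * (k n).1.1 ∈ S
      simpa [(k1 n).1] using a) fun z hz => by
      show (k n).1.2⁻¹ (g.1.2 ((k n).1.2 z)) = z
      rw [b _ (mem_iUnion.2 ⟨n, z, hz, rfl⟩)]; simp).act (k n) U
    rwa [act_mul, ← mul_assoc, mul_inv_cancel_left, ← act_mul] at this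
  · rw [← hx _ (k1 n), E_mv]; exact e
  · by_contra e
    obtain ⟨s, s1, s2⟩ := (cl (Q := fun U => mk U (act (k n) y) ≠ mk U (act (k m) y))).decide e
    refine hc ⟨(k n)⁻¹ • s, smul_le.2 (by simpa using s1.trans (hq (some n))), coh H hF' hg.1 iy
      ((k1 n).inv.mul (k1 m)) (fun z hz f => ?_) (frc_mv (s2.imp fun U f => ?_))⟩
    · have e1 : (k n).1.2 (((k n)⁻¹ * k m).1.2 z) = (k m).1.2 z := (k n).1.2.apply_symm_apply _
      by_cases f' : ((k n)⁻¹ * k m).1.2 z ∈ F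
      · rw [(k1 n).2 _ f'] at e1
        exact c1 m _ (hD' z hz.1) (by have := hD' _ f; rwa [e1, k2 m z hz] at this)
      · rw [k2 n _ ⟨f, f'⟩, k2 m z hz] at e1
        exact c3 n m h _ (hD' _ f) _ (hD' z hz.1) (congrArg Prod.snd e1)
    · have := (mk_mv (g := (k n)⁻¹)).2 (not_not.1 f)
      rwa [inv_act, act_mul] at this

end Pool.Agent.H40.Js
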