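import Pool.Agent.H40.Js12

set_option autoImplicit false

/-! The transfer theorem with the global property. -/

namespace Pool.Agent.H40.Js

open Pool.Agent.H42.ZF Set Filter Cardinal

theorem ex_seq {α : Type 1} (P : α → Prop) (r : α → α → Prop) (h : ∀ n (f : Fin n → α),
    (∀ i, P (f i)) → (∀ i j, i < j → r (f i) (f j)) → ∃ y, P y ∧ ∀ i, r (f i) y) :
    ∃ f : ℕ → α, ∀ n, P (f n) ∧ ∀ m < n, r (f m) (f n) := by
  have : Nonempty α := ⟨(h 0 Fin.elim0 (·.elim0) (·.elim0)).choose⟩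
  choose! G h1 h2 using h
  let f : ℕ → α := Nat.strongRec fun n ih => G n fun i => ih i i.2
  have hf : ∀ n, f n = G n fun i => f i := fun n => Nat.strongRec_eq _ n
  refine ⟨f, fun n => ?_⟩
  induction n using Nat.strong_induction_on with
  | _ n ih =>
    rw [hf n]
    exact ⟨h1 n _ (fun i => (ih i i.2).1) fun i j e => (ih j j.2).2 i e, fun m hm =>
      h2 n (fun i => f i) (fun i => (ih i i.2).1) (fun i j e => (ih j j.2).2 i e) ⟨m, hm⟩⟩

instance cFin {P ι : Type} [Preorder P] [Finite ι] {Q : ι → Ult P → Prop} [∀ i, C (Q i)] :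
    C fun U => ∀ i, Q i U := ⟨cl_fin fun _ => cl⟩

variable {θ : Cardinal.{0}} {Λ : Type} [Group Λ] {A : Type} [MulAction Λ A] {K : Type} [NF Λ]
  [AddCommGroup K] [N : NF (GG Λ A K)] (H : Hy θ K) (hN : Char θ N)
  (hA : ∀ a : A, ∀ᶠ g in NF.F (Γ := Λ), g • a = a)

omit [AddCommGroup K] in
theorem good0 (H : ℵ₀ < θ) : Good θ (∅ : Set (A × K)) :=
  ⟨by simpa using aleph0_pos.trans H, by simp⟩

noncomputable def jsCtx2 (hE : ∀ t, #(El Λ A t) < θ) : Ctx (PP θ A K) (GG Λ A K) Λ A where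
  p0 := ⟨fun _ => none, by simpa using H.reg.pos⟩
  R g γ := g.1.1 = γ
  R1 S hS := (hN _).2 ⟨S, hS, ∅, good0 H.unc, fun g h _ => ⟨_, h, rfl⟩⟩
  R2 J hJ q _ := by
    obtain ⟨S, h1, F, h3, h4⟩ := (hN (· ∈ J)).1 hJ
    filter_upwards [h1, ev_fix hA h3] with γ a b
    obtain ⟨g, h5, h6, h7⟩ := compat H h3.1 γ (fun x hx => b _ ⟨x, hx, rfl⟩) (p := q) (q := q)
      fun z k l _ a b => Option.some.inj (a.symm.trans b)
    exact ⟨g, h4 g (h5 ▸ a) h6, h5, h7⟩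
  na := aN
  hs a := by
    have hx : ∀ x : A × K, HS (GG Λ A K) (xN (θ := θ) x) := fun x =>
      hs_iff.2 ⟨(hN _).2 ⟨_, univ_mem, {x}, ⟨by simpa using one_lt_aleph0.trans H.unc, by simp⟩,
        fun g _ h U => (xN_act g x U).trans (by rw [h x rfl])⟩, fun _ => chk_hs _⟩
    exact hs_iff.2 ⟨(hN _).2 ⟨_, hA a, ∅, good0 H.unc, fun g (h : _ = _) _ U =>
      (aN_act g a U).trans (by rw [h])⟩, fun _ => hx _⟩
  eqv g γ h := h ▸ aN_act g
  inj a b U hU h := setN_mem (s := {x : A × K | x.1 = b}) (x := (a, 0))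
    (fun x y U _ => xN_inj H.unc.le H.le x y U) hU
    (by
      have := setN_intro (xN (θ := θ)) (s := {x : A × K | x.1 = a}) (x := (a, 0)) rfl U
      exact h ▸ this)
  dist t := fn_dist H.reg (hE t)

omit [AddCommGroup K] in
include hN hA in
theorem ev_hat {x : Nm (PP θ A K)} (h : HS (GG Λ A K) x) :
    ∀ᶠ γ in NF.F (Γ := Λ), Eqv (act (hat γ : GG Λ A K) x) x := by
  obtain ⟨S, h1, F, h2, h3⟩ := (hN _).1 (hs_iff.1 h).1
  filter_upwards [h1, ev_fix hA h2] with γ a b using h3 _ a (hat_fix b)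

theorem kpair_act {P Γ : Type} [Preorder P] [Group Γ] [MulAction Γ P] [Mo Γ P] [NF Γ] {g : Γ}
    {x y x' y' : Nm P} (h1 : Eqv (act g x) x') (h2 : Eqv (act g y) y') :
    Eqv (act g (kpair x y)) (kpair x' y') := upair_act (upair_act h1 h1) (upair_act h1 h2)

theorem wit2 (hE : ∀ t, #(El Λ A t) < θ) (hΛ : #Λ < θ) {t : Ty}
    (ht : ∀ S ∈ NF.F (Γ := Λ), ∃ e : El Λ A t, ∀ γ : Λ, γ • e = e → γ ∈ S)
    {F : Set (A × K)} (hF : Good θ F) {x : Nm (PP θ A K)} (hx : HS (GG Λ A K) x) (ix : Inv Λ F x)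
    {w : ℕ → Nm (PP θ A K)} (hw : ∀ n, HS (GG Λ A K) (w n)) (iw : ∀ n, Inv Λ F (w n)) {r : PP θ A K}
    (h1 : ∀ n, Frc r fun U => E U (mk U (w n)) (mk U x))
    (h2 : ∀ n m, m < n → Frc r fun U => mk U (w m) ≠ mk U (w n)) :
    ∃ q ≤ r, (jsCtx2 H hN hA hE).Wit (.w (.p .n t)) x q := by
  let S : Subgroup Λ :=
    { carrier := {γ | (∀ a ∈ Prod.fst '' F, γ • a = a) ∧ Eqv (act (hat γ : GG Λ A K) x) x}
      one_mem' := ⟨fun _ _ => one_smul _ _, ix _ ⟨rfl, hat_fix fun _ _ => one_smul _ _⟩⟩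
      mul_mem' := fun {a b} ha hb => ⟨fun z hz => by rw [mul_smul, hb.1 z hz, ha.1 z hz],
        fun U => by rw [hat_mul, ← act_mul, hb.2.act, ha.2]⟩
      inv_mem' := fun {a} ha => ⟨fun z hz => by rw [inv_smul_eq_iff, ha.1 z hz], fun U => by
        rw [← ha.2.act (hat a⁻¹), act_mul, ← hat_mul, inv_mul_cancel]
        exact ix _ ⟨rfl, hat_fix fun _ _ => one_smul _ _⟩ U⟩ }
  have hS : ∀ᶠ γ in NF.F (Γ := Λ), γ ∈ S := (ev_fix hA hF).and (ev_hat hN hA hx)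
  let u : ℕ × S → Nm (PP θ A K) := fun i => act (hat i.2.1 : GG Λ A K) (w i.1)
  have ua : ∀ (g : GG Λ A K) (hg : g.1.1 ∈ S), (∀ z ∈ F, g.1.2 z = z) → ∀ i,
      Eqv (act g (u i)) (u (i.1, ⟨_, hg⟩ * i.2)) := fun g hg a i => by
    simp only [u]
    rw [act_mul]
    refine (iw _).eq rfl fun z hz => ?_
    show g.1.2 ((hat i.2.1 : GG Λ A K).1.2 z) = _
    rw [hat_fix i.2.2.1 z hz, a z hz, hat_fix (⟨_, hg⟩ * i.2 : S).2.1 z hz]
  have iu : ∀ i, Inv Λ F (u i) := fun i g hg U => by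
    rw [ua g (hg.1 ▸ S.one_mem) hg.2 i U, show (⟨g.1.1, _⟩ : S) = 1 from Subtype.ext hg.1, one_mul]
  have hc : #(ℕ × S) < θ := by
    simpa using mul_lt_of_lt H.unc.le H.unc ((mk_subtype_le _).trans_lt hΛ)
  obtain ⟨q, hq, hd⟩ := fn_dist (ι := (ℕ × S) × ℕ × S) H.reg
    (by simpa using mul_lt_of_lt H.unc.le hc hc)
    (fun i => {q | Frc q (fun U => mk U (u i.1) = mk U (u i.2)) ∨
      Frc q fun U => ¬ mk U (u i.1) = mk U (u i.2)})
    (fun x a b hab h => h.imp (·.mono hab) (·.mono hab)) (fun i p => by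
      by_cases h : Frc p fun U => mk U (u i.1) = mk U (u i.2)
      · exact ⟨p, le_rfl, Or.inl h⟩
      · obtain ⟨q, hq, h⟩ := (cl_eq _ _).decide h
        exact ⟨q, hq, Or.inr h⟩) r
  let R : ℕ × S → ℕ × S → Prop := fun i k => Frc q fun U => mk U (u i) = mk U (u k)
  have Rs : ∀ (γ : S) i k, R i k → R (i.1, γ * i.2) (k.1, γ * k.2) := fun γ i k h U hU => by
    have := frc_mv (g := (hat γ.1 : GG Λ A K)) (Q := fun U => mk U (act (hat γ.1 : GG Λ A K) (u i)) =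
      mk U (act (hat γ.1 : GG Λ A K) (u k))) ((restr_eq H hF.1 (iu i) (iu k) h).imp
        fun U e => mk_mv.2 e) U (by rw [fix_res (hat_fix γ.2.1)]; exact frc_G (q.le_res _) U hU)
    dsimp only at this
    rwa [ua _ γ.2 (hat_fix γ.2.1), ua _ γ.2 (hat_fix γ.2.1)] at this
  choose e he using fun n => ht _ (ev_hat hN hA (hw n))
  have Re : ∀ n (β δ : S), Eqv (act (hat (β.1⁻¹ * δ.1) : GG Λ A K) (w n)) (w n) →
      R (n, δ) (n, β) := fun n β δ h U _ => by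
    have := h.act (hat β.1 : GG Λ A K) U
    rwa [act_mul, ← hat_mul, mul_inv_cancel_left] at this
  have Rt : ∀ {i k l}, R i k → R k l → R i l := fun a b U hU => (a U hU).trans (b U hU)
  let d0 : ℕ × S → Set (El Λ A (.p .n t)) := fun i => {z | ∃ k, R k i ∧ z = (k.1, k.2.1 • e k.1)}
  have da : ∀ (γ : S) i z, z ∈ d0 i → γ.1 • z ∈ d0 (i.1, γ * i.2) := by
    rintro γ i _ ⟨k, a, rfl⟩
    exact ⟨_, Rs γ _ _ a, Prod.ext rfl (mul_smul γ.1 k.2.1 (e k.1)).symm⟩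
  let d : ℕ × S → El Λ A (.w (.p .n t)) := fun i => ps (d0 i) (sym_of (by
    filter_upwards [hS, (NF.conj i.2.1).eventually (ev_hat hN hA (hw i.1))] with γ a b z hz
    obtain ⟨k, c, f⟩ := da ⟨γ, a⟩ i z hz
    exact ⟨k, Rt c (Re _ _ _ (by simpa [mul_assoc] using b)), f⟩))
  have db : ∀ (γ : S) i, γ.1 • d i = d (i.1, γ * i.2) := fun γ i =>
    Subtype.ext (Set.ext fun z : El Λ A (.p .n t) => ⟨fun h =>
      smul_inv_smul γ.1 z ▸ da γ i _ h, fun h => by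
      have := da γ⁻¹ _ _ h
      rwa [inv_mul_cancel_left] at this⟩)
  have dR : ∀ i k, R i k ↔ d i = d k := fun i k => by
    refine ⟨fun h => Subtype.ext (Set.ext fun z => ⟨fun ⟨l, a, b⟩ => ⟨l, Rt a h, b⟩,
      fun ⟨l, a, b⟩ => ⟨l, Rt a fun U hU => (h U hU).symm, b⟩⟩), fun h => ?_⟩
    obtain ⟨⟨n, δ⟩, a, b⟩ : (i.1, i.2.1 • e i.1) ∈ (d k).1 := h ▸ ⟨i, fun _ _ => rfl, rfl⟩
    obtain ⟨rfl, b⟩ := Prod.ext_iff.1 b
    exact Rt (Re _ δ i.2 (he _ _ (by rw [mul_smul, inv_smul_eq_iff]; exact b))) a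
  have u1 : ∀ n, Eqv (u (n, 1)) (w n) := fun n => iw n _ ⟨rfl, hat_fix S.one_mem.1⟩
  refine ⟨q, hq, ℕ × S, d, u, infinite_of_injective_forall_mem (f := fun n => d (n, 1))
    (fun m n h => by_contra fun c => ?_) fun n => ⟨_, rfl⟩, sym_of (hS.mono ?_),
    fun i => hs_act _ (hw _), (hN _).2 ⟨_, hS, F, hF, fun g a b U => ?_⟩, fun i U hU => ?_,
    fun i k U hU => ⟨fun h => (dR i k).1 ((hd (i, k)).resolve_right fun c => c U hU h),
      fun h => (dR i k).2 h U hU⟩⟩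
  · obtain ⟨U, a, b⟩ := ((dR _ _).2 h).ex
    rw [u1, u1] at b
    exact (Ne.lt_or_gt c).elim (fun c => h2 _ _ c U (frc_G hq U a) b)
      fun c => h2 _ _ c U (frc_G hq U a) b.symm
  · rintro γ a _ ⟨i, rfl⟩
    exact ⟨_, (db ⟨γ, a⟩ i).symm⟩
  · exact setN_act ((Equiv.refl ℕ).prodCongr (Equiv.mulLeft (⟨_, a⟩ : S))) (fun i => kpair_act
      (fun U => ((jsCtx2 H hN hA hE).nm_eqv rfl _ _ U).trans (by rw [db ⟨_, a⟩]; rfl)) (ua g a b i)) _ U
  · have := frc_mv (g := (hat i.2.1 : GG Λ A K)) (Q := fun U => E U (mk U (u i))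
      (mk U (act (hat i.2.1 : GG Λ A K) x))) ((restr_mem H hF.1 (iw i.1) ix ((h1 _).mono hq)).imp
        fun U e => E_mv.2 e) U (by rw [fix_res (hat_fix i.2.2.1)]; exact frc_G (q.le_res _) U hU)
    dsimp only at this
    rwa [i.2.2.2] at this

def DS {P Γ : Type} [Preorder P] [Group Γ] [MulAction Γ P] [Mo Γ P] [NF Γ] (c : Ctx P Γ Λ A)
    (t : Ty) (τ : Nm P) : Set P := {r | Frc r (fun U => ¬ L Γ U (mk U τ)) ∨
  (∃ n, ∃ f : Fin n → Nm P, Frc r fun U => ∀ z, E U z (mk U τ) → ¬ ∀ i, z ≠ mk U (f i)) ∨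
    c.Wit t τ r}

theorem ds_dense (hE : ∀ t, #(El Λ A t) < θ) (hΛ : #Λ < θ) (h1 : ∀ S ∈ NF.F (Γ := Λ), (1 : Λ) ∈ S)
    {t : Ty} (ht : ∀ S ∈ NF.F (Γ := Λ), ∃ e : El Λ A t, ∀ γ : Λ, γ • e = e → γ ∈ S)
    (τ : Nm (PP θ A K)) (p : PP θ A K) : ∃ q ≤ p, q ∈ DS (jsCtx2 H hN hA hE) (.w (.p .n t)) τ := by
  by_cases h0 : Frc p fun U => L (GG Λ A K) U (mk U τ)
  swap
  · obtain ⟨q, a, b⟩ := (cl (Q := fun U => L (GG Λ A K) U (mk U τ))).decide h0
    exact ⟨q, a, Or.inl b⟩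
  obtain ⟨p1, hp1, x, hx, ex⟩ := L_elim h0
  by_contra hc
  have nw : ∀ q ≤ p1, ¬ (jsCtx2 H hN hA hE).Wit (.w (.p .n t)) x q := by
    rintro q hq ⟨I, d, u, a1, a2, a3, a4, a5, a6⟩
    exact hc ⟨q, hq.trans hp1, Or.inr (Or.inr ⟨I, d, u, a1, a2, a3, a4, fun i U hU => by
      dsimp only
      rw [show mk U τ = _ from ex.mono hq U hU]; exact a5 i U hU, a6⟩)⟩
  obtain ⟨S, hS, F, hF, hs⟩ := (hN _).1 (hs_iff.1 hx).1
  have ix : Inv Λ F x := fun k hk => hs k (hk.1 ▸ h1 S hS) hk.2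
  obtain ⟨s, hs⟩ := ex_seq (α := PP θ A K × Nm (PP θ A K)) (fun a => a.1 ≤ p1 ∧ HS (GG Λ A K) a.2 ∧
      Inv Λ F a.2 ∧ Frc a.1 fun U => E U (mk U a.2) (mk U x))
    (fun a b => b.1 ≤ a.1 ∧ Frc b.1 fun U => mk U a.2 ≠ mk U b.2) fun n f a b => by
      obtain ⟨r, r1, r2⟩ : ∃ r ≤ p1, ∀ i, r ≤ (f i).1 := by
        rcases n with _ | n
        · exact ⟨p1, le_rfl, (·.elim0)⟩
        · exact ⟨_, (a (Fin.last n)).1, fun i => (Fin.le_last i).eq_or_lt.elim (· ▸ le_rfl)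
            fun e => (b _ _ e).1⟩
      obtain ⟨r', r3, r4⟩ := (cl (Q := fun U => ∀ z, E U z (mk U τ) →
        ¬ ∀ i, z ≠ mk U (f i).2)).decide fun e => hc ⟨r, r1.trans hp1, Or.inr (Or.inl ⟨n, _, e⟩)⟩
      obtain ⟨z, hz⟩ := frc_ex (S := fun U z => E U z (mk U x) ∧ ∀ i, z ≠ mk U (f i).2) (p := r')
        fun U hU => by
          have := r4 U hU
          push Not at this
          rwa [show mk U τ = _ from ex.mono (r3.trans r1) U hU] at this
      obtain ⟨r2', r5, j, r6, r7⟩ := mem_elim (hz.imp fun _ h => h.1)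
      rcases lemR H hN hA h1 hF ix ((hs_iff.1 hx).2 j) ((mem_intro x j).mono r6) with
        ⟨q, q1, u, u1, u2, u3, u4⟩ | ⟨q, q1, w, w1, w2, w3⟩
      · obtain ⟨e, -⟩ := ht _ univ_mem
        let d : ℕ → El Λ A (.w (.p .n t)) := fun n => ps {(n, e)} (sym_of
          ((el_fix hA (.p .n t) (n, e)).mono fun g h z hz => by rw [hz]; exact h))
        have hd : Function.Injective d := fun a b h =>
          congrArg Prod.fst (singleton_injective (congrArg Subtype.val h))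
        have he : ∀ γ : Λ, γ • e = e → ∀ n, γ • d n = d n := fun γ h n =>
          Subtype.ext (Set.ext fun z : El Λ A (.p .n t) => inv_smul_eq_iff.trans
            (iff_of_eq (congrArg (z = ·) (Prod.ext rfl h))))
        refine absurd ⟨ℕ, d, u, infinite_range_of_injective hd, sym_of ((el_fix hA t e).mono ?_),
          u1, ?_, u3, fun i k U hU => ⟨fun h => congrArg d (by_contra fun c => u4 i k c U hU h),
            fun h => by rw [hd h]⟩⟩ (nw q (q1.trans (r5.trans (r3.trans r1))))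
        · rintro γ h _ ⟨n, rfl⟩
          exact ⟨n, (he γ h n).symm⟩
        · filter_upwards [u2, (jsCtx2 H hN hA hE).R1 _ (el_fix hA t e)] with g a ⟨γ, b, c⟩ U
          exact setN_act (Equiv.refl ℕ) (fun i => kpair_act (fun U =>
            ((jsCtx2 H hN hA hE).nm_eqv c _ _ U).trans (by rw [he γ b]; rfl)) (a i)) _ U
      · have e : Frc q fun U => mk U z = mk U w := fun U hU => (r7.mono q1 U hU).trans (w3 U hU)
        have q2 := q1.trans r5
        exact ⟨(q, w), ⟨q2.trans (r3.trans r1), w1, w2, fun U hU => by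
            dsimp only
            rw [← show mk U z = mk U w from e U hU]
            exact (hz.mono q2 U hU).1⟩,
          fun i => ⟨q2.trans (r3.trans (r2 i)), fun U hU c =>
            (hz.mono q2 U hU).2 i ((e U hU).trans c.symm)⟩⟩
  obtain ⟨r, hr, -⟩ := Fn.sup_nat H.reg H.unc (fun n => (s n).1)
    (antitone_nat_of_succ_le fun n => ((hs (n + 1)).2 n (Nat.lt_succ_self n)).1)
  obtain ⟨q, a, b⟩ := wit2 H hN hA hE hΛ ht hF hx ix (fun n => (hs n).1.2.1) (fun n => (hs n).1.2.2.1)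
    (fun n => (hs n).1.2.2.2.mono (hr n)) fun n m h => ((hs n).2 m h).2.mono (hr n)
  exact nw q (a.trans ((hr 0).trans (hs 0).1.1)) b

omit N in
include hA in
/-- A transfer structure in which every infinite set contains a copy of an infinite symmetric
family of objects of a fixed type. -/
theorem ex_js2 (h1 : ∀ S ∈ NF.F (Γ := Λ), (1 : Λ) ∈ S) {t : Ty}
    (ht : ∀ S ∈ NF.F (Γ := Λ), ∃ e : El Λ A t, ∀ γ : Λ, γ • e = e → γ ∈ S) :
    ∃ J : JS Λ A, ∀ a, Bspt.IsFin J.E a ∨ ∃ s : PS Λ (El Λ A (.w (.p .n t))), s.1.Infinite ∧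
      ∃ f, (∀ x, J.E x (J.ν (.w _) s) → ∃ y, J.E y a ∧ Bspt.App J.E f x y) ∧
        ∀ x y x' y', Bspt.App J.E f x y → Bspt.App J.E f x' y' → (x = x' ↔ y = y') := by
  let B := (Σ t, El Λ A t) ⊕ Empty
  let θ := Order.succ (max (max ℵ₀ #Λ) #(T B × T B))
  have hθ : θ.IsRegular := isRegular_succ (le_max_of_le_left (le_max_left _ _))
  have h2 : #(T B × T B) < θ := (le_max_right _ _).trans_lt (Order.lt_succ _)
  have H : Hy θ (θ.out → ZMod 2) := ⟨fun c => funext fun _ => CharTwo.add_self_eq_zero _, hθ,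
    (le_max_of_le_left (le_max_left _ _)).trans_lt (Order.lt_succ _), by simpa using (cantor θ).le⟩
  obtain ⟨N, hN⟩ := ex_char (Λ := Λ) (A := A) (K := θ.out → ZMod 2) H.unc.le
  have hE : ∀ t, #(El Λ A t) < θ := fun t => lt_of_le_of_lt (mk_le_of_injective
      (f := fun x => ((T.base (.inl ⟨t, x⟩), T.base (.inl ⟨t, x⟩)) : T B × T B))
      fun a b h => by simpa [B] using h) h2
  let c := jsCtx2 H hN hA hE
  obtain ⟨U, hU, J, e, e1, e2, e3, e4⟩ := c.ex_js2 (B := Empty) Empty.elim (fun b => b.elim)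
    (fn_dist hθ h2) _ le_rfl (DS c (.w (.p .n t))) (by
      rintro τ a b hab (h | ⟨n, f, h⟩ | ⟨I, d, u, a1, a2, a3, a4, a5, a6⟩)
      exacts [Or.inl (h.mono hab), Or.inr (Or.inl ⟨n, f, h.mono hab⟩), Or.inr (Or.inr ⟨I, d, u, a1,
        a2, a3, a4, fun i => (a5 i).mono hab, fun i k => (a6 i k).mono hab⟩)])
    (ds_dense H hN hA hE ((le_max_of_le_left (le_max_right _ _)).trans_lt (Order.lt_succ _)) h1 ht)
  refine ⟨J, fun a => ?_⟩
  obtain ⟨τ, q, k1, k2 | ⟨n, f, k2⟩ | k2, k3⟩ := e4 a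
  · exact absurd (k1 ▸ e3 a) (k2 U k3)
  · refine Or.inl (J.fin_of (((finite_range fun i => mk U (f i)).preimage (f := e)
      fun x _ y _ h => (e1 (.eq 0 1) (Bspt.cons x fun _ => y)).2 h).subset fun z hz => ?_))
    have := k2 U k3 (e z) (k1 ▸ (e1 (.mem 0 1) (Bspt.cons z fun _ => a)).1 hz)
    push Not at this
    exact this.imp fun i h => h.symm
  · obtain ⟨s, s1, s2⟩ := c.wit_sl k2 k3 hU
    refine Or.inr ⟨s, s1, (sat_inj (v := Bspt.cons (J.ν (.w _) s) fun _ => a)).1 ((e1 _ _).2 ?_)⟩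
    refine (iff_of_eq (congrArg _ (funext ?_))).1 s2
    rintro (_ | i)
    exacts [(e2 _ _).symm, k1.symm]

end Pool.Agent.H40.Js
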