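import Pool.Agent.H40.Js1

set_option autoImplicit false

/-! Skolem hulls of the symmetric submodel. -/

namespace Pool.Agent.H40.Js

open Pool.Agent.H42.ZF Set Filter
open Pool.Agent.H40.Bspt (Fm IsZF)

inductive T (B : Type) : Type
  | base (b : B) : T B
  | cons (s t : T B) : T B
  | sk (φ : Fm) (t : T B) : T B

variable {P : Type} [Preorder P] (Γ : Type) [Group Γ] [MulAction Γ P] [Mo Γ P] [NF Γ]

theorem ex_wit (φ : Fm) (v : ℕ → Nm P) : ∃ x, ∀ U, L Γ U (mk U x) ∧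
    ((∃ a, L Γ U a ∧ SL Γ U φ (cs a fun i => mk U (v i))) → SL Γ U φ (cs (mk U x) fun i => mk U (v i))) := by
  obtain ⟨x, hx⟩ := max_pr (fun (U : Ult P) y => L Γ U y ∧ ((∃ a, L Γ U a ∧ SL Γ U φ (cs a fun i => mk U (v i))) →
    SL Γ U φ (cs y fun i => mk U (v i)))) fun x => cl_and (cL x).cl (cl_imp (cl_SL φ.ex v) (cSL1 φ v x).cl)
  refine ⟨x, fun U => hx U ?_⟩
  by_cases h : ∃ a, L Γ U a ∧ SL Γ U φ (cs a fun i => mk U (v i))
  · obtain ⟨a, h1, h2⟩ := h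
    exact ⟨a, h1, fun _ => h2⟩
  · exact ⟨_, L_hs (hs_nat 0) U, fun h' => absurd h' h⟩

variable {B : Type} (ν : B → Nm P)

noncomputable def ev : T B → ℕ → Nm P
  | .base b => fun _ => ν b
  | .cons s t => cs (ev s 0) (ev t)
  | .sk φ t => fun _ => (ex_wit Γ φ (ev t)).choose

def H (U : Ult P) : Type := Quotient (Setoid.ker fun s : T B => mk U (ev Γ ν s 0))

variable {Γ ν} {U : Ult P}

noncomputable def j : H Γ ν U → M U := Quotient.lift (fun s => mk U (ev Γ ν s 0)) fun _ _ h => h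

def EH (a b : H Γ ν U) : Prop := E U (j a) (j b)

noncomputable def hb (b : B) : H Γ ν U := Quotient.mk _ (T.base b)

theorem j_hb (b : B) : j (hb b : H Γ ν U) = mk U (ν b) := rfl

theorem j_inj : Function.Injective (j : H Γ ν U → M U) := by
  rintro ⟨s⟩ ⟨t⟩ h
  exact Quotient.sound h

theorem j_surj (a : H Γ ν U) : ∃ s, j a = mk U (ev Γ ν s 0) := by
  obtain ⟨s⟩ := a
  exact ⟨s, rfl⟩

theorem ev_L (hν : ∀ b, HS Γ (ν b)) (s : T B) : ∀ i, L Γ U (mk U (ev Γ ν s i)) := by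
  induction s with
  | base b => exact fun _ => L_hs (hν b) U
  | cons s t ih1 ih2 => rintro (_ | i); exacts [ih1 0, ih2 i]
  | sk φ t _ => exact fun _ => ((ex_wit Γ φ (ev Γ ν t)).choose_spec U).1

theorem j_L (hν : ∀ b, HS Γ (ν b)) (a : H Γ ν U) : L Γ U (j a) := by
  obtain ⟨s, h⟩ := j_surj a
  rw [h]; exact ev_L hν s 0

theorem ex_tm (n : ℕ) : ∀ w : ℕ → H Γ ν U, ∃ t, ∀ i < n, mk U (ev Γ ν t i) = j (w i) := by
  induction n with
  | zero => exact fun w => ⟨(w 0).out, fun _ h => absurd h (by omega)⟩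
  | succ n ih =>
    intro w
    obtain ⟨t, ht⟩ := ih fun i => w (i + 1)
    obtain ⟨s, hs⟩ := j_surj (w 0)
    refine ⟨.cons s t, ?_⟩
    rintro (_ | i) hi
    · exact hs.symm
    · exact ht i (by omega)

theorem tv (φ : Fm) (w : ℕ → H Γ ν U) (h : ∃ a, L Γ U a ∧ SL Γ U φ (cs a fun i => j (w i))) :
    ∃ b : H Γ ν U, SL Γ U φ (cs (j b) fun i => j (w i)) := by
  obtain ⟨t, ht⟩ := ex_tm (bd φ) w
  have key : ∀ a, SL Γ U φ (cs a fun i => j (w i)) ↔ SL Γ U φ (cs a fun i => mk U (ev Γ ν t i)) := by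
    refine fun a => SL_congr φ ?_
    rintro (_ | i) hi
    · rfl
    · exact (ht i (by omega)).symm
  refine ⟨Quotient.mk _ (.sk φ t), (key _).2 (((ex_wit Γ φ (ev Γ ν t)).choose_spec U).2 ?_)⟩
  exact h.imp fun a ha => ⟨ha.1, (key a).1 ha.2⟩

theorem j_cons (b : H Γ ν U) (w : ℕ → H Γ ν U) :
    (fun i => j (Bspt.cons b w i)) = cs (j b) fun i => j (w i) := by
  funext i; cases i <;> rfl

theorem truth (hν : ∀ b, HS Γ (ν b)) (φ : Fm) : ∀ w : ℕ → H Γ ν U,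
    Bspt.Sat EH φ w ↔ SL Γ U φ fun i => j (w i) := by
  induction φ with
  | mem i k => exact fun _ => Iff.rfl
  | eq i k => exact fun _ => j_inj.eq_iff.symm
  | neg _ ih => exact fun w => not_congr (ih w)
  | and _ _ ih1 ih2 => exact fun w => and_congr (ih1 w) (ih2 w)
  | ex φ ih =>
    intro w
    constructor
    · rintro ⟨b, h⟩
      exact ⟨j b, j_L hν b, j_cons b w ▸ (ih _).1 h⟩
    · intro h
      obtain ⟨b, hb⟩ := tv φ w h
      exact ⟨b, (ih _).2 (j_cons b w ▸ hb)⟩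

def fi (a b : Fm) : Fm := .and (.neg (.and a (.neg b))) (.neg (.and b (.neg a)))

theorem cmp (hν : ∀ b, HS Γ (ν b)) (θ : Fm) (v : ℕ → H Γ ν U)
    (h : ∃ x, ∀ a, L Γ U a → SL Γ U θ (cs a fun i => j (v i)) → E U a x) :
    ∃ y, ∀ z, EH z y ↔ Bspt.Sat EH θ (Bspt.cons z v) := by
  obtain ⟨x, hx⟩ := h
  obtain ⟨Y, h1, h2⟩ := bndL (Γ := Γ) x
  obtain ⟨y, h3, h4⟩ := sepL θ (fun i => j (v i)) Y (fun i => j_L hν _) h1
  let ρ : ℕ → ℕ := Bspt.cons 0 fun i => i + 2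
  obtain ⟨b, hb⟩ := tv (.neg (.ex (.neg (fi (.mem 0 1) (θ.ren ρ))))) v ⟨y, h3, by
    rintro ⟨z, hz, h5⟩
    refine h5 ?_
    have e : (cs z (cs y fun i => j (v i))) ∘ ρ = cs z fun i => j (v i) := by
      funext i; cases i <;> rfl
    have := h4 z
    simp only [fi, SL, SL_ren, e]
    exact ⟨fun ⟨a, b⟩ => b (this.1 a).2, fun ⟨a, b⟩ => b (this.2 ⟨h2 z (hx z hz a) hz, a⟩)⟩⟩
  refine ⟨b, fun z => ?_⟩
  have e : (cs (j z) (cs (j b) fun i => j (v i))) ∘ ρ = cs (j z) fun i => j (v i) := by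
    funext i; cases i <;> rfl
  have := not_not.1 fun h => hb ⟨j z, j_L hν z, h⟩
  simp only [fi, SL, SL_ren, e] at this
  rw [truth hν, j_cons]
  exact ⟨fun a => not_not.1 fun b => this.1 ⟨a, b⟩, fun a => not_not.1 fun b => this.2 ⟨a, b⟩⟩

theorem hull_zf [Nonempty B] (hν : ∀ b, HS Γ (ν b)) : IsZF (EH : H Γ ν U → H Γ ν U → Prop) where
  ext x y h := by
    refine j_inj (M_ext fun z => ?_)
    by_contra hc
    obtain ⟨b, hb⟩ := tv (.neg (fi (.mem 0 1) (.mem 0 2))) (Bspt.cons x fun _ => y) ⟨z, by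
      by_cases h1 : E U z (j x)
      · exact L_tr h1 (j_L hν x)
      · exact L_tr (not_not.1 fun h2 => hc (iff_of_false h1 h2)) (j_L hν y),
      fun h1 => hc ⟨fun a => not_not.1 fun b => h1.1 ⟨a, b⟩, fun a => not_not.1 fun b => h1.2 ⟨a, b⟩⟩⟩
    exact hb ⟨fun a => a.2 ((h b).1 a.1), fun a => a.2 ((h b).2 a.1)⟩
  found x := by
    rintro ⟨y, hy⟩
    obtain ⟨z, h1, h2⟩ := M_found (j x) ⟨_, hy⟩
    obtain ⟨b, hb⟩ := tv (.and (.mem 0 1) (.neg (.ex (.and (.mem 0 1) (.mem 0 2))))) (fun _ => x)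
      ⟨z, L_tr h1 (j_L hν x), h1, fun ⟨a, _, h3, h4⟩ => h2 ⟨a, h4, h3⟩⟩
    exact ⟨b, hb.1, fun c h3 h4 => hb.2 ⟨j c, j_L hν c, h3, h4⟩⟩
  pair x y := by
    obtain ⟨p, hp⟩ := ex_upair (j x) (j y)
    obtain ⟨b, hb⟩ := cmp hν (.neg (.and (.neg (.eq 0 1)) (.neg (.eq 0 2)))) (Bspt.cons x fun _ => y)
      ⟨p, fun a _ h => (hp a).2 (or_iff_not_and_not.2 h)⟩
    exact ⟨b, fun z => (hb z).trans or_iff_not_and_not.symm⟩
  union x := by
    obtain ⟨p, hp⟩ := (M_zfc U).union (j x)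
    exact cmp hν (.ex (.and (.mem 0 2) (.mem 1 0))) (fun _ => x)
      ⟨p, fun a _ ⟨y, _, h1, h2⟩ => hp y a h2 h1⟩
  power x := by
    obtain ⟨p, hp⟩ := (M_zfc U).pow (j x)
    obtain ⟨b, hb⟩ := cmp hν (.neg (.ex (.and (.mem 0 1) (.neg (.mem 0 2))))) (fun _ => x)
      ⟨p, fun a ha h => hp a fun w hw => not_not.1 fun h' => h ⟨w, L_tr hw ha, hw, h'⟩⟩
    exact ⟨b, fun z => (hb z).trans ⟨fun h y hy => not_not.1 fun h' => h ⟨y, hy, h'⟩,
      fun h ⟨y, hy, h'⟩ => h' (h y hy)⟩⟩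
  inf := by
    have hm : ∀ z n, z = mk U (natN n) → E U z (mk U (orbN Γ natN)) := fun z n e => e ▸ mem_orbN _ n U
    obtain ⟨b, h1, h2⟩ := (truth hν (.ex (.and (.ex (.and (.mem 0 1) (.neg (.ex (.mem 0 1)))))
      (.neg (.ex (.and (.mem 0 1) (.neg (.ex (.and (.mem 0 2) (.neg (.ex (.neg (fi (.mem 0 1)
        (.neg (.and (.neg (.mem 0 2)) (.neg (.eq 0 2))))))))))))))))
        fun _ => (hb (Classical.arbitrary B) : H Γ ν U)).2
      ⟨mk U (orbN Γ natN), L_hs (hs_orbN hs_nat) U, ⟨_, L_hs (hs_nat 0) U, hm _ 0 rfl,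
        fun ⟨z, _, h⟩ => not_mem_zero z h⟩, by
          rintro ⟨y, -, h1, h2⟩
          obtain ⟨y, rfl⟩ := mk_surj y
          obtain ⟨s, h3, h4⟩ := fam_cases (R := fun U => ∃ s, E U s (mk U (orbN Γ natN)) ∧
            Succ (E U) s (mk U y)) (fun t V _ e => ⟨_, mem_orbN natN (t.2 + 1) V, by
              rw [e, nat_act]; exact succ_natN _⟩) U h1
          refine h2 ⟨s, L_tr h3 (L_hs (hs_orbN hs_nat) U), h3, fun ⟨z, _, h5⟩ => h5 ?_⟩
          exact ⟨fun a => a.2 (or_iff_not_and_not.1 ((h4 z).1 a.1)),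
            fun a => a.2 ((h4 z).2 (or_iff_not_and_not.2 a.1))⟩⟩
    obtain ⟨e, h3, h4⟩ := h1
    refine ⟨b, ⟨e, h3, fun y hy => h4 ⟨y, hy⟩⟩, fun x hx => ?_⟩
    obtain ⟨s, h5, h6⟩ := not_not.1 fun h => h2 ⟨x, hx, h⟩
    refine ⟨s, h5, fun y => ?_⟩
    have := not_not.1 fun h => h6 ⟨y, h⟩
    exact ⟨fun a => or_iff_not_and_not.2 (not_not.1 fun b => this.1 ⟨a, b⟩),
      fun a => not_not.1 fun b => this.2 ⟨or_iff_not_and_not.1 a, b⟩⟩
  sep φ v x := by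
    obtain ⟨b, hb⟩ := cmp hν (.and (.mem 0 1) (φ.ren (Bspt.cons 0 fun i => i + 2))) (Bspt.cons x v)
      ⟨j x, fun a _ h => h.1⟩
    refine ⟨b, fun z => (hb z).trans (and_congr_right' ((Bspt.sat_ren _ _ _).trans
      (iff_of_eq (congrArg _ (funext ?_)))))⟩
    rintro (_ | i) <;> rfl
  coll φ v x h := by
    let ρ : ℕ → ℕ := Bspt.cons 0 (Bspt.cons 1 fun i => i + 4)
    have e1 : ∀ (a b c d : M U) (w : ℕ → M U), cs a (cs b (cs c (cs d w))) ∘ ρ = cs a (cs b w) := by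
      intro a b c d w; funext i; rcases i with _ | _ | i <;> rfl
    have e2 : ∀ (a b c d : H Γ ν U) (w : ℕ → H Γ ν U), Bspt.cons a (Bspt.cons b (Bspt.cons c
        (Bspt.cons d w))) ∘ ρ = Bspt.cons a (Bspt.cons b w) := by
      intro a b c d w; funext i; rcases i with _ | _ | i <;> rfl
    obtain ⟨x', hx'⟩ := mk_surj (j x)
    choose v' hv' using fun i => mk_surj (j (v i))
    obtain ⟨Y, h1, h2⟩ := collL (Γ := Γ) x' fun U a b => SL Γ U φ (cs b (cs a fun i => mk U (v' i)))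
    obtain ⟨y, hy⟩ := (truth hν (.ex (.neg (.ex (.and (.mem 0 2) (.and (.ex (φ.ren ρ))
      (.neg (.ex (.and (.mem 0 2) (φ.ren ρ))))))))) (Bspt.cons x v)).2 ⟨_, L_hs h1 U, by
        rintro ⟨a, -, h3, ⟨b, h4, h5⟩, h6⟩
        rw [j_cons] at h3 h5 h6
        rw [SL_ren, e1, ← funext hv'] at h5
        obtain ⟨c, h7, h8⟩ := h2 U a (hx' ▸ h3) ⟨b, h4, h5⟩
        refine h6 ⟨c, L_tr h7 (L_hs h1 U), h7, ?_⟩
        rw [SL_ren, e1, ← funext hv']; exact h8⟩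
    refine ⟨y, fun a ha => ?_⟩
    obtain ⟨b, hb⟩ := h a ha
    obtain ⟨c, h3, h4⟩ := not_not.1 fun h' => hy ⟨a, ha, ⟨b, by rw [Bspt.sat_ren, e2]; exact hb⟩, h'⟩
    rw [Bspt.sat_ren, e2] at h4
    exact ⟨c, h3, h4⟩

/-- conditions deciding `s ∈ t` with a witness -/
def DD (s t : Nm P) : Set P := {p | Frc p (fun U => ¬ E U (mk U s) (mk U t)) ∨
  ∃ i, p ≤ t.b i ∧ Frc p fun U => mk U s = mk U (t.A i)}

omit [MulAction Γ P] [Mo Γ P] [NF Γ] in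
theorem DD_lower (s t : Nm P) : IsLowerSet (DD s t) := by
  rintro p q hq (h | ⟨i, h1, h2⟩)
  · exact Or.inl (h.mono hq)
  · exact Or.inr ⟨i, le_trans hq h1, h2.mono hq⟩

omit [MulAction Γ P] [Mo Γ P] [NF Γ] in
theorem DD_dense (s t : Nm P) (p : P) : ∃ q ≤ p, q ∈ DD s t := by
  by_cases h : Frc p fun U => E U (mk U s) (mk U t)
  · obtain ⟨q, hq, i, h1, h2⟩ := mem_elim h
    exact ⟨q, hq, Or.inr ⟨i, h1, h2⟩⟩
  · obtain ⟨q, hq, h1⟩ := (cl_mem s t).decide h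
    exact ⟨q, hq, Or.inl h1⟩

omit [MulAction Γ P] [Mo Γ P] [NF Γ] in
theorem DD_use {s t : Nm P} {p : P} (h : p ∈ DD s t) (hp : Iic p ∈ U.U) (hm : E U (mk U s) (mk U t)) :
    ∃ i, Iic (t.b i) ∈ U.U ∧ mk U s = mk U (t.A i) := by
  rcases h with h | ⟨i, h1, h2⟩
  · exact absurd hm (h U hp)
  · exact ⟨i, frc_G h1 U hp, h2 U hp⟩

end Pool.Agent.H40.Js
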