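import Pool.Agent.H40.Js2

set_option autoImplicit false

/-! Typed naming of symmetric objects and the transfer structure. -/

namespace Pool.Agent.H40.Js

open Pool.Agent.H42.ZF Set Filter
open Pool.Agent.H40.Bspt (Fm IsZF)

section
variable (Λ : Type) [Group Λ] [NF Λ]

def Sym {X : Type} [MulAction Λ X] (s : Set X) : Prop :=
  ∀ᶠ g in NF.F (Γ := Λ), ∀ x, g • x ∈ s ↔ x ∈ s

abbrev PS (X : Type) [MulAction Λ X] : Type := {s : Set X // Sym Λ s}

instance psAct (X : Type) [MulAction Λ X] : MulAction Λ (PS Λ X) where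
  smul g s := ⟨{x | g⁻¹ • x ∈ s.1}, by
    filter_upwards [(NF.conj g).eventually s.2] with h hh x
    have := hh (g⁻¹ • x)
    simpa [mul_smul] using this⟩
  one_smul s := Subtype.ext (Set.ext fun x => by
    show (1 : Λ)⁻¹ • x ∈ s.1 ↔ _
    simp)
  mul_smul g h s := Subtype.ext (Set.ext fun x => by
    show (g * h)⁻¹ • x ∈ s.1 ↔ h⁻¹ • g⁻¹ • x ∈ s.1
    simp [mul_smul])

@[reducible] def triv (X : Type) : MulAction Λ X where
  smul _ x := x
  one_smul _ := rfl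
  mul_smul _ _ _ := rfl

inductive Ty : Type
  | a : Ty
  | n : Ty
  | p (s t : Ty) : Ty
  | w (t : Ty) : Ty

variable (A : Type) [MulAction Λ A]

def gs : Ty → (X : Type) × MulAction Λ X
  | .a => ⟨A, inferInstance⟩
  | .n => ⟨ℕ, triv Λ ℕ⟩
  | .p s t => ⟨(gs s).1 × (gs t).1, @Prod.mulAction _ _ _ _ (gs s).2 (gs t).2⟩
  | .w t => ⟨@PS Λ _ _ (gs t).1 (gs t).2, @psAct Λ _ _ (gs t).1 (gs t).2⟩

def El (t : Ty) : Type := (gs Λ A t).1

instance (t : Ty) : MulAction Λ (El Λ A t) := (gs Λ A t).2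

structure JS where
  M : Type
  E : M → M → Prop
  zf : IsZF E
  ν : ∀ t, El Λ A t → M
  inj : ∀ t, Function.Injective (ν t)
  mem : ∀ t (s : PS Λ (El Λ A t)) z, E z (ν (.w t) s) ↔ ∃ x ∈ s.1, z = ν t x
  sub : ∀ t a, (∀ z, E z a → ∃ x, z = ν t x) → ∃ s : PS Λ (El Λ A t), a = ν (.w t) s
  pair : ∀ s t x y, Bspt.IsPair E (ν (.p s t) (x, y)) (ν s x) (ν t y)
  nat : ∀ (n : ℕ) z, E z (ν .n n) ↔ ∃ m < n, z = ν .n m

variable {Λ A}

theorem mem_smul {X : Type} [MulAction Λ X] {g : Λ} {s : PS Λ X} {x : X} :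
    x ∈ (g • s).1 ↔ g⁻¹ • x ∈ s.1 := Iff.rfl

theorem ps_fix {X : Type} [MulAction Λ X] (s : PS Λ X) : ∀ᶠ g in NF.F (Γ := Λ), g • s = s := by
  filter_upwards [NF.inv.eventually s.2] with g hg
  exact Subtype.ext (Set.ext hg)

theorem el_fix (h : ∀ a : A, ∀ᶠ g in NF.F (Γ := Λ), g • a = a) (t : Ty) :
    ∀ x : El Λ A t, ∀ᶠ g in NF.F (Γ := Λ), g • x = x := by
  induction t with
  | a => exact h
  | n => exact fun _ => Eventually.of_forall fun _ => rfl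
  | p s t ih1 ih2 =>
    intro x
    filter_upwards [ih1 x.1, ih2 x.2] with g a b
    exact Prod.ext a b
  | w t _ => exact ps_fix (X := El Λ A t)

end

variable {P : Type} [Preorder P] {Γ : Type} [Group Γ] [MulAction Γ P] [Mo Γ P] [NF Γ]

theorem upair_act {g : Γ} {x y x' y' : Nm P} (h1 : ∀ U, mk U (act g x) = mk U x')
    (h2 : ∀ U, mk U (act g y) = mk U y') (U : Ult P) :
    mk U (act g (upair x y)) = mk U (upair x' y') :=
  act_eq (fun U z => by rw [mem_upair, mem_upair, ← h1, ← h2, mk_mv, mk_mv]) U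

theorem hs_upair {x y : Nm P} (hx : HS Γ x) (hy : HS Γ y) : HS Γ (upair x y) := by
  refine hs_fam ?_ (by rintro (_ | _); exacts [hy, hx])
  filter_upwards [(hs_iff.1 hx).1, (hs_iff.1 hy).1] with g a b using upair_act a b

def setN {X : Type} (f : X → Nm P) (s : Set X) : Nm P := fam (fun x : s => f x) fun _ _ => True

omit [MulAction Γ P] [Mo Γ P] [NF Γ] in
theorem setN_intro {X : Type} (f : X → Nm P) {s : Set X} {x : X} (h : x ∈ s) (U : Ult P) :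
    E U (mk U (f x)) (mk U (setN f s)) := fam_intro (A := fun x : s => f x) ⟨x, h⟩ trivial

omit [MulAction Γ P] [Mo Γ P] [NF Γ] in
@[elab_as_elim] theorem setN_cases {X : Type} {f : X → Nm P} {s : Set X} {z : Nm P}
    {R : Ult P → Prop} [C R] (h : ∀ x U, x ∈ s → mk U z = mk U (f x) → R U) (U : Ult P)
    (hU : E U (mk U z) (mk U (setN f s))) : R U :=
  fam_cases (fun i V _ e => h i.1 V i.2 e) U hU

theorem setN_act {X : Type} {f : X → Nm P} {g : Γ} (e : X ≃ X)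
    (h : ∀ x U, mk U (act g (f x)) = mk U (f (e x))) (s : Set X) (U : Ult P) :
    mk U (act g (setN f s)) = mk U (setN f {x | e.symm x ∈ s}) := by
  refine M_ext fun z => ?_
  obtain ⟨z, rfl⟩ := mk_surj z
  constructor
  · refine mem_cases (y := act g (setN f s)) (fun i V _ e1 => ?_) U
    rw [e1]
    show E V (mk V (act g (f i.1.1))) _
    rw [h]
    exact setN_intro f (by simp) V
  · refine setN_cases (fun x V hx e1 => ?_) U
    obtain ⟨V, rfl⟩ := mv_surj g V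
    rw [e1, ← e.apply_symm_apply x, ← h, E_mv]
    exact setN_intro f (s := s) hx V

omit [MulAction Γ P] [Mo Γ P] [NF Γ] in
theorem setN_mem {X : Type} {f : X → Nm P} {p : P}
    (h : ∀ x y (U : Ult P), Iic p ∈ U.U → mk U (f x) = mk U (f y) → x = y) {s : Set X} {x : X}
    {U : Ult P} (hU : Iic p ∈ U.U) (hx : E U (mk U (f x)) (mk U (setN f s))) : x ∈ s :=
  setN_cases (R := fun U => Iic p ∈ U.U → x ∈ s) (fun y V hy e hV => h x y V hV e ▸ hy) U hx hU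

def Dist (P : Type) [Preorder P] (ι : Type) : Prop := ∀ D : ι → Set P, (∀ i, IsLowerSet (D i)) →
  (∀ i p, ∃ q ≤ p, q ∈ D i) → ∀ p, ∃ q ≤ p, ∀ i, q ∈ D i

structure Ctx (P : Type) [Preorder P] (Γ : Type) [Group Γ] [MulAction Γ P] [NF Γ]
    (Λ : Type) [Group Λ] [NF Λ] (A : Type) [MulAction Λ A] where
  make ::
  p0 : P
  R : Γ → Λ → Prop
  R1 : ∀ S ∈ NF.F (Γ := Λ), ∀ᶠ g in NF.F (Γ := Γ), ∃ γ ∈ S, R g γ
  R2 : ∀ J ∈ NF.F (Γ := Γ), ∀ q ≤ p0, ∀ᶠ γ in NF.F (Γ := Λ), ∃ g ∈ J, R g γ ∧ ∃ r, r ≤ q ∧ r ≤ g • q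
  na : A → Nm P
  hs : ∀ a, HS Γ (na a)
  eqv : ∀ g γ, R g γ → ∀ a U, mk U (act g (na a)) = mk U (na (γ • a))
  inj : ∀ a b (U : Ult P), Iic p0 ∈ U.U → mk U (na a) = mk U (na b) → a = b
  dist : ∀ t, Dist P (El Λ A t)

variable {Λ : Type} [Group Λ] [NF Λ] {A : Type} [MulAction Λ A] (c : Ctx P Γ Λ A)

def Ctx.nm : ∀ t, El Λ A t → Nm P
  | .a => c.na
  | .n => natN
  | .p s t => fun x => kpair (nm s x.1) (nm t x.2)
  | .w t => fun s => setN (nm t) s.1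

theorem Ctx.nm_eqv {g : Γ} {γ : Λ} (h : c.R g γ) (t : Ty) :
    ∀ x U, mk U (act g (c.nm t x)) = mk U (c.nm t (γ • x)) := by
  induction t with
  | a => exact c.eqv g γ h
  | n => exact fun x => nat_act g x
  | p s t ih1 ih2 =>
    exact fun x => upair_act (upair_act (ih1 x.1) (ih1 x.1)) (upair_act (ih1 x.1) (ih2 x.2))
  | w t ih => exact fun s => setN_act (MulAction.toPerm γ) ih s.1

theorem Ctx.nm_hs (t : Ty) : ∀ x, HS Γ (c.nm t x) := by
  induction t with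
  | a => exact c.hs
  | n => exact hs_nat
  | p s t ih1 ih2 => exact fun x => hs_upair (hs_upair (ih1 _) (ih1 _)) (hs_upair (ih1 _) (ih2 _))
  | w t ih =>
    refine fun s => hs_iff.2 ⟨?_, fun _ => ih _⟩
    filter_upwards [c.R1 _ (ps_fix (X := El Λ A t) s)] with g ⟨γ, h1, h2⟩ U
    have := c.nm_eqv h2 (.w t) s U
    rwa [show γ • (show El Λ A (.w t) from s) = s from h1] at this

omit [Mo Γ P] in
theorem Ctx.nm_inj (t : Ty) : ∀ x y (U : Ult P), Iic c.p0 ∈ U.U →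
    mk U (c.nm t x) = mk U (c.nm t y) → x = y := by
  induction t with
  | a => exact c.inj
  | n => exact fun _ _ _ _ => natN_inj
  | p s t ih1 ih2 =>
    intro x y U hU e
    have := (isPair_kpair (U := U) (c.nm s x.1) (c.nm t x.2)).inj
      (e ▸ isPair_kpair (c.nm s y.1) (c.nm t y.2) : IsPair (E U) (mk U (c.nm (.p s t) x)) _ _)
    exact Prod.ext (ih1 _ _ U hU this.1) (ih2 _ _ U hU this.2)
  | w t ih =>
    intro x y U hU e
    exact Subtype.ext (Set.ext fun z => ⟨fun h => setN_mem ih hU (e ▸ setN_intro _ h U :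
      E U _ (mk U (c.nm (.w t) y))), fun h => setN_mem ih hU (e ▸ setN_intro _ h U :
      E U _ (mk U (c.nm (.w t) x)))⟩)

theorem Ctx.nm_pow (t : Ty) (τ : Nm P) (U : Ult P) (hU : Iic c.p0 ∈ U.U) (h1 : L Γ U (mk U τ))
    (h2 : Sub (E U) (mk U τ) (mk U (setN (c.nm t) univ))) :
    E U (mk U τ) (mk U (setN (c.nm (.w t)) univ)) := by
  refine by_dense (H := fun U => Iic c.p0 ∈ U.U ∧ L Γ U (mk U τ) ∧
    Sub (E U) (mk U τ) (mk U (setN (c.nm t) univ)))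
    (R := fun U => E U (mk U τ) (mk U (setN (c.nm (.w t)) univ))) (fun p hp => ?_) U ⟨hU, h1, h2⟩
  obtain ⟨p1, hp1, y, hy, e⟩ := L_elim (hp.imp fun _ h => h.2.1)
  obtain ⟨V, hV1, hV2, -⟩ := (hp.mono hp1).ex
  obtain ⟨p2, hp2, hp3⟩ := Filter.nonempty_of_mem (inter_mem hV1 hV2)
  obtain ⟨q, hq, hd⟩ := c.dist t (fun x => {q | Frc q (fun U => E U (mk U (c.nm t x)) (mk U y)) ∨
      Frc q fun U => ¬ E U (mk U (c.nm t x)) (mk U y)})
    (fun x a b hab h => h.imp (·.mono hab) (·.mono hab)) (fun x p => by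
      by_cases h : Frc p fun U => E U (mk U (c.nm t x)) (mk U y)
      · exact ⟨p, le_rfl, Or.inl h⟩
      · obtain ⟨q, hq, h⟩ := (cl_mem _ _).decide h
        exact ⟨q, hq, Or.inr h⟩) p2
  have hq1 : q ≤ p1 := hq.trans hp2
  let s : Set (El Λ A t) := {x | Frc q fun U => E U (mk U (c.nm t x)) (mk U y)}
  have key : Frc q fun U => mk U y = mk U (setN (c.nm t) s) := by
    intro W hW
    have e1 : mk W τ = mk W y := e.mono hq1 W hW
    refine M_ext fun z => ?_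
    obtain ⟨z, rfl⟩ := mk_surj z
    constructor
    · intro hz
      refine setN_cases (R := fun W => Iic q ∈ W.U → E W (mk W z) (mk W y) →
        E W (mk W z) (mk W (setN (c.nm t) s))) (fun x W _ e2 hW hz => ?_) W
        ((hp.mono (hq1.trans hp1) W hW).2.2 _ (e1 ▸ hz)) hW hz
      rw [e2] at hz ⊢
      exact setN_intro _ ((hd x).resolve_right fun h => h W hW hz) W
    · intro hz
      exact setN_cases (R := fun W => Iic q ∈ W.U → E W (mk W z) (mk W y))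
        (fun x W (hx : x ∈ s) e2 hW => by rw [e2]; exact hx W hW) W hz hW
  have hs : Sym Λ s := by
    filter_upwards [NF.inv.eventually (c.R2 _ (hs_iff.1 hy).1 q (hq.trans hp3))]
      with γ ⟨g, h3, h4, r, h5, h6⟩
    obtain ⟨W, hW⟩ := ex_ult r
    obtain ⟨W, rfl⟩ := mv_surj g W
    have h7 : Iic c.p0 ∈ (mv g W).U := frc_G (h5.trans (hq.trans hp3)) _ hW
    have h8 : mk (mv g W) (setN (c.nm t) s) = mk _ (setN (c.nm t) {x | γ⁻¹⁻¹ • x ∈ s}) := by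
      rw [← show mk _ y = _ from key.mono h5 _ hW, ← h3 (mv g W),
        mk_mv.2 (key W (G_mv.1 (frc_G h6 _ hW)))]
      exact setN_act (MulAction.toPerm γ⁻¹) (c.nm_eqv h4 t) s _
    rw [inv_inv] at h8
    exact fun x => ⟨fun h => setN_mem (c.nm_inj t) h7
        (h8 ▸ setN_intro _ (s := {x | γ • x ∈ s}) (x := x) h _),
      fun h => setN_mem (s := {x | γ • x ∈ s}) (c.nm_inj t) h7 (h8 ▸ setN_intro _ h _)⟩
  refine ⟨q, hq1.trans hp1, fun W hW => ?_⟩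
  show E W (mk W τ) _
  rw [show mk W τ = _ from e.mono hq1 W hW, show mk W y = _ from key W hW]
  exact setN_intro (c.nm (.w t)) (x := ⟨s, hs⟩) (mem_univ _) W

theorem Ctx.ex_js {B : Type} (n0 : B → Nm P) (h0 : ∀ b, HS Γ (n0 b))
    (hd : Dist P (T ((Σ t, El Λ A t) ⊕ B) × T ((Σ t, El Λ A t) ⊕ B))) (p : P) (hp : p ≤ c.p0) :
    ∃ U : Ult P, Iic p ∈ U.U ∧ ∃ J : JS Λ A, ∃ e : J.M → M U,
      (∀ φ w, Bspt.Sat J.E φ w ↔ SL Γ U φ fun i => e (w i)) ∧
      (∀ t x, e (J.ν t x) = mk U (c.nm t x)) ∧ ∀ b, ∃ a, e a = mk U (n0 b) := by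
  let ν : (Σ t, El Λ A t) ⊕ B → Nm P := Sum.elim (fun b => c.nm b.1 b.2) n0
  have hν : ∀ b, HS Γ (ν b) := by rintro (b | b); exacts [c.nm_hs _ _, h0 b]
  haveI : Nonempty ((Σ t, El Λ A t) ⊕ B) := ⟨.inl ⟨.n, (0 : ℕ)⟩⟩
  obtain ⟨q, hq, hD⟩ := hd (fun s => DD (ev Γ ν s.1 0) (ev Γ ν s.2 0)) (fun _ => DD_lower _ _)
    (fun _ => DD_dense _ _) p
  obtain ⟨U, hU⟩ := ex_ult q
  have hU0 : Iic c.p0 ∈ U.U := frc_G (hq.trans hp) U hU
  let N : ∀ t, El Λ A t → H Γ ν U := fun t x => hb (.inl ⟨t, x⟩)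
  have hN : ∀ t x, j (N t x) = mk U (c.nm t x) := fun _ _ => rfl
  have gen : ∀ (z : H Γ ν U) (b), EH z (hb b) → ∃ i, j z = mk U ((ν b).A i) := by
    intro z b h
    obtain ⟨s, hs⟩ := j_surj z
    unfold EH at h
    rw [hs] at h ⊢
    exact (DD_use (hD (s, .base b)) hU h).imp fun i h => h.2
  have zf : IsZF (EH : H Γ ν U → H Γ ν U → Prop) := hull_zf hν
  have hm : ∀ t (s : PS Λ (El Λ A t)) z, EH z (N (.w t) s) ↔ ∃ x ∈ s.1, z = N t x := by
    refine fun t s z => ⟨fun h => ?_, fun ⟨x, h1, h2⟩ => h2 ▸ setN_intro _ h1 U⟩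
    obtain ⟨i, hi⟩ := gen z _ h
    exact ⟨i.1.1.1, i.1.1.2, j_inj hi⟩
  have un : ∀ t, Sym Λ (univ : Set (El Λ A t)) := fun t => Eventually.of_forall fun _ _ => Iff.rfl
  refine ⟨U, frc_G hq U hU, ⟨H Γ ν U, EH, zf, N, fun t x y h => c.nm_inj t x y U hU0
    (congrArg j h), hm, fun t a ha => ?_, fun s t x y => ?_, fun n z => ?_⟩, j, truth hν, hN,
    fun b => ⟨hb (.inr b), rfl⟩⟩
  · obtain ⟨τ, hτ⟩ := mk_surj (j a)
    have h1 : Sub (E U) (mk U τ) (mk U (setN (c.nm t) univ)) := by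
      intro z hz
      by_contra hc
      obtain ⟨b, h2, h3⟩ := tv (.and (.mem 0 1) (.neg (.mem 0 2)))
        (Bspt.cons a fun _ => N (.w t) ⟨univ, un t⟩) ⟨z, L_tr hz (hτ ▸ j_L hν a), (hτ ▸ hz : E U z (j a)), hc⟩
      obtain ⟨x, rfl⟩ := ha b h2
      exact h3 (setN_intro _ (mem_univ x) U)
    have h2 := c.nm_pow t τ U hU0 (hτ ▸ j_L hν a) h1
    obtain ⟨s, -, hs⟩ := (hm (.w t) ⟨univ, un _⟩ a).1 (by unfold EH; rw [← hτ]; exact h2)
    exact ⟨s, hs⟩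
  · have up : ∀ (a b : H Γ ν U) (a' b' : Nm P), j a = mk U a' → j b = mk U b' → ∃ u,
        (∀ z, EH z u ↔ z = a ∨ z = b) ∧ j u = mk U (upair a' b') := by
      intro a b a' b' ha hb
      obtain ⟨u, hu⟩ := zf.pair a b
      refine ⟨u, hu, M_ext fun z => ?_⟩
      rw [mem_upair, ← ha, ← hb]
      refine ⟨fun hz => ?_, fun h => h.elim (· ▸ (hu a).2 (Or.inl rfl)) (· ▸ (hu b).2 (Or.inr rfl))⟩
      by_contra hc
      rw [not_or] at hc
      obtain ⟨d, h1, h2, h3⟩ := tv (.and (.mem 0 1) (.and (.neg (.eq 0 2)) (.neg (.eq 0 3))))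
        (Bspt.cons u (Bspt.cons a fun _ => b)) ⟨z, L_tr hz (j_L hν u), hz, hc⟩
      exact ((hu d).1 h1).elim (fun e => h2 (congrArg j e)) fun e => h3 (congrArg j e)
    obtain ⟨a, ha, ha'⟩ := up _ _ _ _ (hN s x) (hN s x)
    obtain ⟨b, hb, hb'⟩ := up _ _ _ _ (hN s x) (hN t y)
    obtain ⟨u, hu, hu'⟩ := up _ _ _ _ ha' hb'
    obtain rfl : u = N (.p s t) (x, y) := j_inj hu'
    exact fun z => (hu z).trans (or_congr ⟨fun e w => by simp [e, ha], fun e => zf.ext _ _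
      fun w => by simp [e, ha]⟩ ⟨fun e w => by simp [e, hb], fun e => zf.ext _ _ fun w => by
        simp [e, hb]⟩)
  · exact mem_natN.trans (exists_congr fun m => and_congr_right' (j_inj.eq_iff (b := N .n m)))

end Pool.Agent.H40.Js
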