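import Pool.Agent.H40.Js3

set_option autoImplicit false

/-! The Jech-Sochor instance. -/

namespace Pool.Agent.H40.Js

open Pool.Agent.H42.ZF Set Filter Cardinal

section
variable {P : Type} [Preorder P] {Γ : Type} [Group Γ] [MulAction Γ P] [Mo Γ P] [NF Γ]

omit [NF Γ] in
theorem fam_act {ι : Type} {A B : ι → Nm P} {Q Q' : ι → Ult P → Prop} [∀ i, C (Q i)]
    [∀ i, C (Q' i)] {g : Γ} (hA : ∀ i U, mk U (act g (A i)) = mk U (B i))
    (hQ : ∀ i U, Q' i (mv g U) ↔ Q i U) (U : Ult P) :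
    mk U (act g (fam A Q)) = mk U (fam B Q') := by
  refine M_ext fun z => ?_
  obtain ⟨z, rfl⟩ := mk_surj z
  constructor
  · refine mem_cases (y := act g (fam A Q)) (fun i V hV e1 => ?_) U
    obtain ⟨V, rfl⟩ := mv_surj g V
    rw [e1]
    show E _ (mk _ (act g (A i.1.1))) _
    rw [hA]
    exact fam_intro i.1.1 ((hQ _ _).2 (i.2 V (G_mv.1 hV)))
  · refine fam_cases (fun i V h e => ?_) U
    obtain ⟨V, rfl⟩ := mv_surj g V
    rw [e, ← hA, E_mv]
    exact fam_intro i ((hQ _ _).1 h)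

noncomputable def chk {J : Type} : J → Nm P :=
  (IsWellFounded.wf (r := WellOrderingRel)).fix fun η ih =>
    fam (fun ζ : {ζ // WellOrderingRel ζ η} => ih ζ.1 ζ.2) fun _ _ => True

omit [MulAction Γ P] [Mo Γ P] [NF Γ] in
theorem chk_eq {J : Type} (η : J) : (chk η : Nm P) = setN chk {ζ | WellOrderingRel ζ η} :=
  WellFounded.fix_eq _ _ _

omit [NF Γ] in
theorem chk_act {J : Type} (g : Γ) (η : J) : ∀ U : Ult P, mk U (act g (chk η)) = mk U (chk η) := by
  induction η using (IsWellFounded.wf (r := WellOrderingRel)).induction with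
  | _ η ih =>
    rw [chk_eq]
    exact fam_act (fun i => ih i.1 i.2) fun _ _ => Iff.rfl

theorem chk_hs {J : Type} (η : J) : HS Γ (chk η : Nm P) := by
  induction η using (IsWellFounded.wf (r := WellOrderingRel)).induction with
  | _ η ih =>
    have := fun g : Γ => chk_act (P := P) g η
    rw [chk_eq] at this ⊢
    exact hs_fam (Eventually.of_forall this) fun i => ih i.1 i.2

omit [MulAction Γ P] [Mo Γ P] [NF Γ] in
theorem chk_inj {J : Type} {η ζ : J} {U : Ult P} (h : mk U (chk η) = mk U (chk ζ)) : η = ζ := by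
  have key : ∀ {η ζ : J}, WellOrderingRel η ζ → mk U (chk η) ≠ mk U (chk ζ) := by
    intro η ζ h1 h2
    have := setN_intro (chk : J → Nm P) (s := {x | WellOrderingRel x ζ}) h1 U
    rw [← chk_eq, h2] at this
    exact not_mem_self _ this
  rcases trichotomous_of WellOrderingRel η ζ with h' | h' | h'
  exacts [absurd h (key h'), h', absurd h.symm (key h')]

end

variable {θ : Cardinal.{0}}

theorem fn_chain {L V ι : Type} (hθ : θ.IsRegular) (hι : #ι < θ) (p : Fn θ L V) (f : ι → Fn θ L V)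
    (h1 : ∀ j, f j ≤ p) (h2 : ∀ j k, f j ≤ f k ∨ f k ≤ f j) : ∃ q ≤ p, ∀ j, q ≤ f j := by
  rcases isEmpty_or_nonempty ι with h | ⟨⟨i⟩⟩
  · exact ⟨p, le_rfl, h.elim⟩
  · obtain ⟨q, hq, -⟩ := Fn.sup hθ hι f fun j k =>
      (h2 j k).elim (Fn.compat le_rfl) fun h => Fn.compat h le_rfl
    exact ⟨q, (hq i).trans (h1 i), hq⟩

theorem fn_dist {L V ι : Type} (hθ : θ.IsRegular) (hι : #ι < θ) : Dist (Fn θ L V) ι := by
  intro D h1 h2 p
  have wf := IsWellFounded.wf (r := (WellOrderingRel : ι → ι → Prop))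
  have step : ∀ (i : ι) (f : {j // WellOrderingRel j i} → Fn θ L V), ∃ q, q ∈ D i ∧
      ((∀ j, f j ≤ p) → (∀ j k, f j ≤ f k ∨ f k ≤ f j) → q ≤ p ∧ ∀ j, q ≤ f j) := by
    intro i f
    by_cases h : (∀ j, f j ≤ p) ∧ ∀ j k, f j ≤ f k ∨ f k ≤ f j
    · obtain ⟨q, h3, h4⟩ := fn_chain hθ ((mk_subtype_le _).trans_lt hι) p f h.1 h.2
      obtain ⟨r, h5, h6⟩ := h2 i q
      exact ⟨r, h6, fun _ _ => ⟨h5.trans h3, fun j => h5.trans (h4 j)⟩⟩
    · obtain ⟨r, -, h6⟩ := h2 i p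
      exact ⟨r, h6, fun a b => absurd ⟨a, b⟩ h⟩
  choose G hG1 hG2 using step
  let q : ι → Fn θ L V := wf.fix fun i ih => G i fun j => ih j.1 j.2
  have hq : ∀ i, q i = G i fun j => q j.1 := fun i => wf.fix_eq _ _
  have tot : ∀ j k, (∀ i, WellOrderingRel i j → q j ≤ q i) → (∀ i, WellOrderingRel i k → q k ≤ q i) →
      q j ≤ q k ∨ q k ≤ q j := by
    intro j k a b
    rcases trichotomous_of WellOrderingRel j k with h | rfl | h
    exacts [Or.inr (b j h), Or.inl le_rfl, Or.inl (a k h)]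
  have key : ∀ i, q i ≤ p ∧ ∀ j, WellOrderingRel j i → q i ≤ q j := by
    intro i
    induction i using wf.induction with
    | _ i ih =>
      have := hG2 i (fun j => q j.1) (fun j => (ih j.1 j.2).1)
        fun j k => tot _ _ (ih j.1 j.2).2 (ih k.1 k.2).2
      rw [← hq] at this
      exact ⟨this.1, fun j hj => this.2 ⟨j, hj⟩⟩
  obtain ⟨r, h3, h4⟩ := fn_chain hθ hι p q (fun j => (key j).1)
    fun j k => tot _ _ (key j).2 (key k).2
  exact ⟨r, h3, fun i => h1 i (h4 i) (by rw [hq]; exact hG1 _ _)⟩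

variable (Λ : Type) [Group Λ] (A : Type) [MulAction Λ A] (K : Type)

def GG : Subgroup (Λ × Equiv.Perm (A × K)) where
  carrier := {g | ∀ x, (g.2 x).1 = g.1 • x.1}
  mul_mem' := fun {a b} ha hb x => by
    show (a.2 (b.2 x)).1 = (a.1 * b.1) • x.1
    rw [ha, hb, mul_smul]
  one_mem' := fun x => (one_smul _ _).symm
  inv_mem' := fun {a} ha x => by
    show (a.2⁻¹ x).1 = a.1⁻¹ • x.1
    rw [eq_inv_smul_iff, ← ha]
    simp

variable {Λ A K}

theorem Fn.ext' {L V : Type} {p q : Fn θ L V} (h : p.f = q.f) : p = q := by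
  cases p; cases q; cases h; rfl

instance ggAct (V : Type) : MulAction (GG Λ A K) (Fn θ ((A × K) × K) V) where
  smul g p := ⟨fun x => p.f (g.1.2⁻¹ x.1, x.2), lt_of_le_of_lt (mk_le_of_injective
    (f := fun x => (⟨(g.1.2⁻¹ x.1.1, x.1.2), x.2⟩ : {x | p.f x ≠ none})) fun a b h => by
      have h1 := congrArg Subtype.val h
      simp only [Prod.mk.injEq, EmbeddingLike.apply_eq_iff_eq] at h1
      exact Subtype.ext (Prod.ext h1.1 h1.2)) p.small⟩
  one_smul p := Fn.ext' rfl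
  mul_smul g h p := Fn.ext' rfl

theorem gg_f {V : Type} (g : GG Λ A K) (p : Fn θ ((A × K) × K) V) (x : (A × K) × K) :
    (g • p).f x = p.f (g.1.2⁻¹ x.1, x.2) := rfl

instance (V : Type) : Mo (GG Λ A K) (Fn θ ((A × K) × K) V) :=
  ⟨fun _ _ _ h _ k hk => h _ k hk⟩

variable [NF Λ]

instance : NF (GG Λ A K) where
  F := comap (fun g => g.1.1) NF.F ⊓ ⨅ x : A × K, ⨅ (_ : True), 𝓟 {g | g.1.2 x = x}
  conj h := by
    refine tendsto_inf.2 ⟨tendsto_comap_iff.2 (((NF.conj h.1.1).comp tendsto_comap).mono_left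
      inf_le_left), tendsto_iInf.2 fun x => tendsto_iInf.2 fun _ => tendsto_principal.2 ?_⟩
    refine Eventually.filter_mono inf_le_right (mem_iInf_of_mem (h.1.2 x) (mem_iInf_of_mem trivial
      fun g (hg : g.1.2 (h.1.2 x) = h.1.2 x) => ?_))
    show h.1.2⁻¹ (g.1.2 (h.1.2 x)) = x
    rw [hg]; simp
  inv := by
    refine tendsto_inf.2 ⟨tendsto_comap_iff.2 ((NF.inv.comp tendsto_comap).mono_left
      inf_le_left), tendsto_iInf.2 fun x => tendsto_iInf.2 fun _ => tendsto_principal.2 ?_⟩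
    refine Eventually.filter_mono inf_le_right (mem_iInf_of_mem x (mem_iInf_of_mem trivial
      fun g (hg : g.1.2 x = x) => ?_))
    show g.1.2⁻¹ x = x
    rw [Equiv.Perm.inv_eq_iff_eq, hg]

theorem gg_fix (x : A × K) : ∀ᶠ g in NF.F (Γ := GG Λ A K), g.1.2 x = x :=
  Eventually.filter_mono inf_le_right (mem_iInf_of_mem x (mem_iInf_of_mem trivial fun _ h => h))

theorem gg_base {S : Set Λ} (h : S ∈ NF.F (Γ := Λ)) : ∀ᶠ g in NF.F (Γ := GG Λ A K), g.1.1 ∈ S :=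
  Eventually.filter_mono inf_le_left (preimage_mem_comap h)

theorem gg_mem {J : Set (GG Λ A K)} (h : J ∈ NF.F (Γ := GG Λ A K)) : ∃ S ∈ NF.F (Γ := Λ),
    ∃ F : Set (A × K), F.Finite ∧ ∀ g : GG Λ A K, g.1.1 ∈ S → (∀ x ∈ F, g.1.2 x = x) → g ∈ J := by
  obtain ⟨t, ⟨S, h1, h2⟩, u, h3, h4⟩ := mem_inf_iff_superset.1 h
  obtain ⟨F, h5, -, h6⟩ := mem_biInf_principal.1 h3
  exact ⟨S, h1, F, h5, fun g a b => h4 ⟨h2 a, h6 (mem_iInter₂.2 b)⟩⟩

noncomputable def xN (x : A × K) : Nm (Fn θ ((A × K) × K) Bool) :=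
  fam chk fun (η : K) U => ((gen (x, η) true : LowerSet (Fn θ ((A × K) × K) Bool)) :
    Set (Fn θ ((A × K) × K) Bool)) ∈ U.U

omit [NF Λ] in
theorem xN_act (g : GG Λ A K) (x : A × K) (U : Ult (Fn θ ((A × K) × K) Bool)) :
    mk U (act g (xN x)) = mk U (xN (g.1.2 x)) := by
  refine fam_act (chk_act g) (fun η U => ?_) U
  rw [mem_mv]
  refine iff_of_eq (congrArg (· ∈ U.U) (Set.ext fun p => ?_))
  show p.f (g.1.2⁻¹ (g.1.2 x), η) = _ ↔ p.f (x, η) = _
  simp

theorem xN_inj (hθ : ℵ₀ ≤ θ) (hK : θ ≤ #K) (x y : A × K) (U : Ult (Fn θ ((A × K) × K) Bool))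
    (h : mk U (xN x) = mk U (xN y)) : x = y := by
  by_contra hc
  refine (cl (Q := fun U => mk U (xN x) ≠ mk U (xN y))).all (fun p => ?_) U h
  obtain ⟨η, hη⟩ : ∃ η, η ∉ Prod.snd '' {z | p.f z ≠ none} := by
    by_contra h
    push Not at h
    exact (p.small.trans_le hK).not_ge
      (((mk_univ ..).symm.le.trans (mk_le_mk_of_subset fun η _ => h η)).trans mk_image_le)
  have hn : ∀ z, p.f (z, η) = none := fun z => by_contra fun h => hη ⟨_, h, rfl⟩
  obtain ⟨q, h1, h2, h3⟩ := p.add hθ (hn x) true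
  obtain ⟨r, h4, h5, -⟩ := q.add hθ (x := (y, η))
    (by rw [h3 _ (by simpa using Ne.symm hc), hn]) false
  refine ⟨r, h4.trans h1, fun V hV e => ?_⟩
  have a : E V (mk V (chk η)) (mk V (xN x)) := fam_intro η (frc_lower (h4 _ _ h2) V hV)
  have b : E V (mk V (chk η)) (mk V (xN y)) := e ▸ a
  exact fam_cases (R := fun V => ¬ Iic r ∈ V.U) (fun ζ W c d hW => by
    obtain rfl := chk_inj d
    exact Bool.noConfusion (gen_uniq c (frc_lower h5 W hW))) V b hV

noncomputable def aN (a : A) : Nm (Fn θ ((A × K) × K) Bool) := setN xN {x | x.1 = a}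

theorem aN_act (g : GG Λ A K) (a : A) (U : Ult (Fn θ ((A × K) × K) Bool)) :
    mk U (act g (aN a)) = mk U (aN (g.1.1 • a)) := by
  rw [aN, setN_act g.1.2 (xN_act g)]
  refine congrArg (fun s => mk U (setN xN s)) (Set.ext fun x => ?_)
  show (g⁻¹.1.2 x).1 = a ↔ x.1 = _
  rw [g⁻¹.2 x]
  exact inv_smul_eq_iff

theorem ex_lift [AddCommGroup K] (h2 : ∀ c : K, c + c = 0) (hθ : ℵ₀ ≤ θ) (hK : θ ≤ #K) (D : Set K)
    (hD : #D < θ) (F : Set (A × K)) (hF : ∀ x ∈ F, x.2 ∈ D) (γ : Λ) (hγ : ∀ x ∈ F, γ • x.1 = x.1) :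
    ∃ g : GG Λ A K, g.1.1 = γ ∧ (∀ x ∈ F, g.1.2 x = x) ∧ ∀ x ∉ F, x.2 ∈ D → (g.1.2 x).2 ∉ D := by
  classical
  obtain ⟨c, hc⟩ : ∃ c, c ∉ range fun t : D × D => t.1.1 - t.2.1 := by
    by_contra h
    push Not at h
    refine (((mul_lt_of_lt hθ hD hD).trans_le hK)).not_ge
      (((mk_univ ..).symm.le.trans (mk_le_mk_of_subset fun η _ => h η)).trans
        (mk_range_le.trans (by simp)))
  have hc' : ∀ ξ ∈ D, ξ + c ∉ D := fun ξ a b => hc ⟨(⟨_, b⟩, ⟨_, a⟩), by simp⟩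
  let S : A → K → Prop := fun a ξ => ξ ∈ D ∧ (a, ξ) ∉ F
  have inv : ∀ a, Function.Involutive fun ξ => if S a ξ ∨ S a (ξ + c) then ξ + c else ξ := by
    intro a ξ
    by_cases h : S a ξ ∨ S a (ξ + c)
    · simp only [if_pos h, add_assoc, h2, add_zero, if_pos h.symm]
    · simp only [if_neg h]
  refine ⟨⟨(γ, (MulAction.toPerm γ).prodShear fun a => (inv a).toPerm), fun x => rfl⟩, rfl,
    fun x hx => Prod.ext (hγ x hx) (if_neg ?_), fun x hx hx' => ?_⟩
  · rintro (h | h)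
    exacts [h.2 hx, hc' _ (hF x hx) h.1]
  · show (if S x.1 x.2 ∨ S x.1 (x.2 + c) then x.2 + c else x.2) ∉ D
    rw [if_pos (Or.inl ⟨hx', hx⟩)]
    exact hc' _ hx'

noncomputable def jsCtx [AddCommGroup K] (h2 : ∀ c : K, c + c = 0) (hθ : θ.IsRegular) (hK : θ ≤ #K)
    (hA : ∀ a : A, ∀ᶠ g in NF.F (Γ := Λ), g • a = a) (hE : ∀ t, #(El Λ A t) < θ) :
    Ctx (Fn θ ((A × K) × K) Bool) (GG Λ A K) Λ A where
  p0 := ⟨fun _ => none, by simpa using hθ.pos⟩
  R g γ := g.1.1 = γ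
  R1 S hS := (gg_base hS).mono fun g h => ⟨_, h, rfl⟩
  R2 J hJ q _ := by
    obtain ⟨S, h1, F, h3, h4⟩ := gg_mem hJ
    filter_upwards [h1, (eventually_all_finite h3).2 fun x _ => hA x.1] with γ a b
    obtain ⟨g, h5, h6, h7⟩ := ex_lift h2 hθ.aleph0_le hK
      ((fun z => z.1.2) '' {z | q.f z ≠ none} ∪ Prod.snd '' F)
      ((mk_union_le _ _).trans_lt (add_lt_of_lt hθ.aleph0_le (mk_image_le.trans_lt q.small)
        ((h3.image _).lt_aleph0.trans_le hθ.aleph0_le))) F (fun x hx => Or.inr ⟨x, hx, rfl⟩) γ b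
    refine ⟨g, h4 g (h5 ▸ a) h6, h5, _, Fn.un_le hθ.aleph0_le q _,
      Fn.un_le' _ fun z k l hk hl => ?_⟩
    rw [gg_f] at hl
    by_cases hx : g.1.2⁻¹ z.1 ∈ F
    · have := h6 _ hx
      simp only [Equiv.Perm.coe_inv, Equiv.apply_symm_apply] at this
      rw [show g.1.2⁻¹ z.1 = z.1 from this.symm] at hl
      exact Option.some.inj (hk.symm.trans hl)
    · refine absurd (Or.inl ⟨z, by simp [hk], by simp⟩) (h7 _ hx (Or.inl ⟨(_, z.2), ?_, rfl⟩))
      exact fun h => Option.some_ne_none _ (hl.symm.trans h)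
  na := aN
  hs a := by
    have hx : ∀ x : A × K, HS (GG Λ A K) (xN (θ := θ) x) := fun x => by
      refine hs_iff.2 ⟨?_, fun _ => chk_hs _⟩
      filter_upwards [gg_fix (Λ := Λ) x] with g h U
      exact (xN_act g x U).trans (by rw [h])
    refine hs_iff.2 ⟨?_, fun _ => hx _⟩
    filter_upwards [gg_base (hA a)] with g (h : _ = _) U
    exact (aN_act g a U).trans (by rw [h])
  eqv g γ h := h ▸ aN_act g
  inj a b U hU h := setN_mem (s := {x : A × K | x.1 = b}) (x := (a, 0))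
    (fun x y U _ => xN_inj hθ.aleph0_le hK x y U) hU
    (by
      have := setN_intro (xN (θ := θ)) (s := {x : A × K | x.1 = a}) (x := (a, 0)) rfl U
      exact h ▸ this)
  dist t := fn_dist hθ (hE t)

theorem ex_js (hA : ∀ a : A, ∀ᶠ g in NF.F (Γ := Λ), g • a = a) : Nonempty (JS Λ A) := by
  let B := (Σ t, El Λ A t) ⊕ Empty
  let θ := Order.succ (max ℵ₀ #(T B × T B))
  have hθ : θ.IsRegular := isRegular_succ (le_max_left _ _)
  have h1 : #(T B × T B) < θ := (le_max_right _ _).trans_lt (Order.lt_succ _)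
  let c := jsCtx (K := θ.out → ZMod 2) (fun c => funext fun _ => CharTwo.add_self_eq_zero _) hθ
    (by simpa using (cantor θ).le) hA fun t => lt_of_le_of_lt (mk_le_of_injective
      (f := fun x => ((T.base (.inl ⟨t, x⟩), T.base (.inl ⟨t, x⟩)) : T B × T B))
      fun a b h => by simpa [B] using h) h1
  obtain ⟨U, -, J, -⟩ := c.ex_js (B := Empty) Empty.elim (fun b => b.elim) (fn_dist hθ h1) _ le_rfl
  exact ⟨J⟩

end Pool.Agent.H40.Js
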