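import Pool.Agent.H40.BsptDefs

set_option autoImplicit false

/-! Mathematical notions interpreted inside a structure `(M, E)`.  A space is a pair `S, T` with
`T` a topology on a set containing `S`; `S` carries the subspace topology. -/

namespace Pool.Agent.H40.Jz

open Pool.Agent.H40.Bspt

variable {M : Type} (E : M → M → Prop)

/-- the elements of `a` -/
abbrev Ex (a : M) : Type := {x // E x a}

/-- the natural numbers of the model -/
abbrev Om : Type := {n // IsNat E n}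

/-- `a ⊆ b` -/
def Sub (a b : M) : Prop := ∀ z, E z a → E z b

/-- `((x, y), z) ∈ f` -/
def Op (f x y z : M) : Prop := ∃ p, IsPair E p x y ∧ App E f p z

/-- the function `φ` is given by a set of pairs of the model -/
def Intl {p : M → Prop} (φ : Subtype p → M) : Prop := ∃ f, ∀ x y, App E f x.1 y ↔ y = φ x

/-- the binary function `φ` is given by a set of the model -/
def Intl2 {p q : M → Prop} (φ : Subtype p → Subtype q → M) : Prop :=
  ∃ f, ∀ x y z, Op E f x.1 y.1 z ↔ z = φ x y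

/-- `a` is countable: it injects into `ω` -/
def Ctbl (a : M) : Prop := ∃ φ : Ex E a → Om E, Intl E (fun x => (φ x).1) ∧ Function.Injective φ

/-- The real line of the model: an ordered field whose carrier, operations and order are sets of
the model and in which every nonempty bounded set of the model has a least upper bound. -/
structure Reals where
  R : M
  [fld : Field (Ex E R)]
  [ord : LinearOrder (Ex E R)]
  [str : IsStrictOrderedRing (Ex E R)]
  add : Intl2 E fun x y : Ex E R => (x + y).1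
  mul : Intl2 E fun x y : Ex E R => (x * y).1
  le : ∃ l, ∀ x y : Ex E R, App E l x.1 y.1 ↔ x ≤ y
  compl : ∀ S, {x : Ex E R | E x.1 S}.Nonempty → BddAbove {x : Ex E R | E x.1 S} →
    ∃ s, IsLUB {x : Ex E R | E x.1 S} s

attribute [instance] Reals.fld Reals.ord Reals.str

/-- `T` is a topology on `X` -/
def IsTop (X T : M) : Prop :=
  (∀ U, E U T → Sub E U X) ∧ E X T ∧
    (∀ U V W, E U T → E V T → (∀ z, E z W ↔ E z U ∧ E z V) → E W T) ∧
    ∀ C W, Sub E C T → (∀ z, E z W ↔ ∃ U, E U C ∧ E z U) → E W T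

def Compact (S T : M) : Prop :=
  ∀ C, Sub E C T → (∀ x, E x S → ∃ U, E U C ∧ E x U) →
    ∃ D, Sub E D C ∧ IsFin E D ∧ ∀ x, E x S → ∃ U, E U D ∧ E x U

def T1 (S T : M) : Prop := ∀ x y, E x S → E y S → x ≠ y → ∃ U, E U T ∧ E x U ∧ ¬ E y U

def T2 (S T : M) : Prop := ∀ x y, E x S → E y S → x ≠ y →
  ∃ U V, E U T ∧ E V T ∧ E x U ∧ E y V ∧ ∀ z, E z S → E z U → ¬ E z V

/-- `x` is an isolated point of `S` -/
def Isol (S T x : M) : Prop := E x S ∧ ∃ U, E U T ∧ E x U ∧ ∀ y, E y S → E y U → y = x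

def Scattered (S T : M) : Prop := ∀ Z, Sub E Z S → (∃ z, E z Z) → ∃ x, Isol E Z T x

/-- `C` is a closed subset of `S` -/
def Closed (S T C : M) : Prop :=
  Sub E C S ∧ ∀ x, E x S → ¬ E x C → ∃ U, E U T ∧ E x U ∧ ∀ y, E y U → ¬ E y C

/-- `C` is a clopen subset of `S` -/
def Clopen (S T C : M) : Prop :=
  Sub E C S ∧ ∀ x, E x S → ∃ U, E U T ∧ E x U ∧ ∀ y, E y S → E y U → (E y C ↔ E x C)

def ZeroDim (S T : M) : Prop :=
  ∀ U x, E U T → E x S → E x U → ∃ C, Clopen E S T C ∧ E x C ∧ Sub E C U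

variable {E} (ℛ : Reals E)

/-- the topology `T` of `X` is induced by a metric -/
def Metrizable (X T : M) : Prop :=
  ∃ δ : Ex E X → Ex E X → Ex E ℛ.R, Intl2 E (fun x y => (δ x y).1) ∧ (∀ x y, δ x y = 0 ↔ x = y) ∧
    (∀ x y, δ x y = δ y x) ∧ (∀ x y z, δ x z ≤ δ x y + δ y z) ∧
    ∀ U, E U T ↔ Sub E U X ∧ ∀ x : Ex E X, E x.1 U → ∃ ε > 0, ∀ y, δ x y < ε → E y.1 U

/-- `φ` is a continuous real function on `S` lying in the model -/
def Cont (S T : M) (φ : Ex E S → Ex E ℛ.R) : Prop :=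
  Intl E (fun x => (φ x).1) ∧
    ∀ x, ∀ ε > 0, ∃ U, E U T ∧ E x.1 U ∧ ∀ y : Ex E S, E y.1 U → |φ y - φ x| < ε

/-- `Z` is a zero set of `S` -/
def ZeroSet (S T Z : M) : Prop :=
  Sub E Z S ∧ ∃ φ, Cont ℛ S T φ ∧ ∀ x : Ex E S, E x.1 Z ↔ φ x = 0

def Tychonoff (S T : M) : Prop :=
  T1 E S T ∧ ∀ F (x : Ex E S), Closed E S T F → ¬ E x.1 F → ∃ φ, Cont ℛ S T φ ∧
    (∀ y, 0 ≤ φ y ∧ φ y ≤ 1) ∧ φ x = 0 ∧ ∀ y : Ex E S, E y.1 F → φ y = 1

/-- `S` is homeomorphic to a closed subspace of a power `ℝ ^ J`: the map `x ↦ h x` is injective,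
continuous, open onto its image, and has closed image. -/
def Realcompact (S T : M) : Prop :=
  ∃ (J : M) (h : Ex E S → Ex E J → Ex E ℛ.R), Intl2 E (fun x j => (h x j).1) ∧
    Function.Injective h ∧
    (∀ x j, ∀ ε > 0, ∃ U, E U T ∧ E x.1 U ∧ ∀ y : Ex E S, E y.1 U → |h y j - h x j| < ε) ∧
    (∀ U (x : Ex E S), E U T → E x.1 U → ∃ F, IsFin E F ∧ ∃ ε > 0,
      ∀ y, (∀ j : Ex E J, E j.1 F → |h y j - h x j| < ε) → E y.1 U) ∧
    ∀ g : Ex E J → Ex E ℛ.R, Intl E (fun j => (g j).1) →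
      (∀ F, IsFin E F → ∀ ε > 0, ∃ x, ∀ j : Ex E J, E j.1 F → |h x j - g j| < ε) → ∃ x, h x = g

variable (E)

/-- `S` is homeomorphic to a closed subspace of a power `ℕ ^ J` (`J` nonempty, `ℕ` discrete). -/
def NCompact (S T : M) : Prop :=
  ∃ (J : M) (h : Ex E S → Ex E J → Om E), (∃ j, E j J) ∧ Intl2 E (fun x j => (h x j).1) ∧
    Function.Injective h ∧
    (∀ x j, ∃ U, E U T ∧ E x.1 U ∧ ∀ y : Ex E S, E y.1 U → h y j = h x j) ∧
    (∀ U (x : Ex E S), E U T → E x.1 U → ∃ F, IsFin E F ∧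
      ∀ y, (∀ j : Ex E J, E j.1 F → h y j = h x j) → E y.1 U) ∧
    ∀ g : Ex E J → Om E, Intl E (fun j => (g j).1) →
      (∀ F, IsFin E F → ∃ x, ∀ j : Ex E J, E j.1 F → h x j = g j) → ∃ x, h x = g

end Pool.Agent.H40.Jz
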