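import Pool.Agent.H40.Bspt2
import Pool.Agent.H40.JzDefs

set_option autoImplicit false

/-! Definable separation and collection in arbitrary models. -/

namespace Pool.Agent.H40.Bspt

open Pool.Agent.H40.Jz

variable {M : Type} {E : M → M → Prop}

theorem Df.toFm' {α : Type} {P : (α → M) → Prop} (h : Df E α P) : ∃ C : Set M, C.Finite ∧
    ∀ g : α ⊕ M → ℕ, ∃ φ, ∀ v, (∀ m ∈ C, v (g (Sum.inr m)) = m) →
      (Sat E φ v ↔ P fun a => v (g (Sum.inl a))) := by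
  have key : ∀ {α : Type} (s t : α ⊕ M) (g : α ⊕ M → ℕ) (v : ℕ → M),
      (∀ m ∈ Sum.inr ⁻¹' ({s, t} : Set (α ⊕ M)), v (g (Sum.inr m)) = m) →
      Sum.elim (fun a => v (g (Sum.inl a))) id s = v (g s) ∧
        Sum.elim (fun a => v (g (Sum.inl a))) id t = v (g t) := by
    intro α s t g v h
    constructor
    · rcases s with a | a
      exacts [rfl, (h a (Or.inl rfl)).symm]
    · rcases t with a | a
      exacts [rfl, (h a (Or.inr rfl)).symm]
  have fn : ∀ {α : Type} (s t : α ⊕ M), (Sum.inr ⁻¹' ({s, t} : Set (α ⊕ M))).Finite :=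
    fun s t => (Set.toFinite _).preimage Sum.inr_injective.injOn
  induction h with
  | mem s t =>
    exact ⟨_, fn s t, fun g => ⟨.mem (g s) (g t), fun v h => by
      simp only [(key s t g v h).1, (key s t g v h).2]; rfl⟩⟩
  | eq s t =>
    exact ⟨_, fn s t, fun g => ⟨.eq (g s) (g t), fun v h => by
      simp only [(key s t g v h).1, (key s t g v h).2]; rfl⟩⟩
  | neg _ ih =>
    exact ih.imp fun C h => ⟨h.1, fun g => (h.2 g).elim fun φ h =>
      ⟨φ.neg, fun v e => not_congr (h v e)⟩⟩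
  | and _ _ ih1 ih2 =>
    obtain ⟨C, a, ih1⟩ := ih1
    obtain ⟨D, b, ih2⟩ := ih2
    refine ⟨C ∪ D, a.union b, fun g => ?_⟩
    obtain ⟨φ, h1⟩ := ih1 g
    obtain ⟨ψ, h2⟩ := ih2 g
    exact ⟨φ.and ψ, fun v e => and_congr (h1 v fun m hm => e m (Or.inl hm))
      (h2 v fun m hm => e m (Or.inr hm))⟩
  | ex _ ih =>
    obtain ⟨C, a, ih⟩ := ih
    refine ⟨C, a, fun g => ?_⟩
    obtain ⟨φ, h1⟩ := ih (Sum.elim (fun o => o.elim 0 fun a => g (Sum.inl a) + 1)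
      fun m => g (Sum.inr m) + 1)
    refine ⟨φ.ex, fun v e => exists_congr fun b => (h1 (cons b v) e).trans
      (iff_of_eq (congrArg _ (funext ?_)))⟩
    rintro (_ | a) <;> rfl

theorem ex_enum [Nonempty M] {C : Set M} (h : C.Finite) :
    ∃ (e : ℕ → M) (κ : M → ℕ), ∀ m ∈ C, e (κ m) = m := by
  obtain ⟨e, he⟩ := Set.countable_iff_exists_subset_range.1 h.countable
  choose! κ hκ using fun m (hm : m ∈ C) => he hm
  exact ⟨e, κ, hκ⟩

namespace Df

variable {α : Type} {s t u r : (α → M) → M}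

theorem app (hs : Tm s) (ht : Tm t) (hu : Tm u) : Df E α fun v => App E (s v) (t v) (u v) :=
  (UD.app 0 1 2).df.sub (fun v => cons (s v) (cons (t v) fun _ => u v))
    (hs.cons (ht.cons fun _ => hu))

theorem op (hs : Tm s) (ht : Tm t) (hu : Tm u) (hr : Tm r) :
    Df E α fun v => Op E (s v) (t v) (u v) (r v) :=
  ((UD.ex ((UD.pair 0 2 3).and (UD.app 1 0 4))).df (P := fun _ E v =>
    Op E (v 0) (v 1) (v 2) (v 3))).sub
    (fun v => cons (s v) (cons (t v) (cons (u v) fun _ => r v)))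
    (hs.cons (ht.cons (hu.cons fun _ => hr)))

theorem sub' (hs : Tm s) (ht : Tm t) : Df E α fun v => Sub E (s v) (t v) :=
  ((UD.all ((UD.mem 0 1).imp (UD.mem 0 2))).df (P := fun _ E v => Sub E (v 0) (v 1))).sub
    (fun v => cons (s v) fun _ => t v) (hs.cons fun _ => ht)

end Df

namespace IsZF

variable (h : IsZF E)
include h

theorem sepD' {P : M → Prop} (hP : Df E Unit fun w => P (w ())) (x : M) :
    ∃ y, ∀ z, E z y ↔ E z x ∧ P z := by
  haveI := h.ne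
  obtain ⟨C, hC, hφ⟩ := hP.toFm'
  obtain ⟨e, κ, hκ⟩ := ex_enum hC
  obtain ⟨φ, hφ⟩ := hφ (Sum.elim (fun _ => 0) fun m => κ m + 1)
  exact (h.sep φ e x).imp fun y hy z => (hy z).trans (and_congr_right' (hφ (cons z e) hκ))

theorem collD' {R : M → M → Prop} (hR : Df E Bool fun w => R (w false) (w true)) (x : M)
    (hx : ∀ a, E a x → ∃ b, R a b) : ∃ y, ∀ a, E a x → ∃ b, E b y ∧ R a b := by
  haveI := h.ne
  obtain ⟨C, hC, hφ⟩ := hR.toFm'
  obtain ⟨e, κ, hκ⟩ := ex_enum hC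
  obtain ⟨φ, hφ⟩ := hφ (Sum.elim (fun b => if b then 0 else 1) fun m => κ m + 2)
  exact (h.coll φ e x fun a ha => (hx a ha).imp fun b => (hφ (cons b (cons a e)) hκ).2).imp
    fun y hy a ha => (hy a ha).imp fun b hb => ⟨hb.1, (hφ (cons b (cons a e)) hκ).1 hb.2⟩

theorem omega' : ∃ w, ∀ n, E n w ↔ IsNat E n := by
  obtain ⟨I, hI⟩ := h.inf
  exact (h.sepD' (Df.nat (Tm.var ())) I).imp fun w hw n => (hw n).trans
    (and_iff_right_of_imp fun hn => hn I hI)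

theorem natInd' {P : M → Prop} (hP : Df E Unit fun w => P (w ())) (h0 : ∀ z, (∀ y, ¬ E y z) → P z)
    (h1 : ∀ x s, IsNat E x → P x → IsS E s x x → P s) (n : M) (hn : IsNat E n) : P n := by
  obtain ⟨w, hw⟩ := h.omega'
  obtain ⟨J, hJ⟩ := h.sepD' hP w
  obtain ⟨z, hz⟩ := h.emp
  refine ((hJ n).1 (hn J ⟨⟨z, (hJ z).2 ⟨(hw z).2 (h.nat0 hz), h0 z hz⟩, hz⟩, fun x hx => ?_⟩)).2
  obtain ⟨s, hs⟩ := h.ins x x
  have := (hJ x).1 hx
  have h2 := (hw x).1 this.1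
  exact ⟨s, (hJ s).2 ⟨(hw s).2 (h.natS h2 hs), h1 x s h2 this.2 hs⟩, hs⟩

theorem nat_tr' {n : M} (hn : IsNat E n) : ∀ m, E m n → IsNat E m ∧ ∀ k, E k m → E k n := by
  refine h.natInd' (P := fun n => ∀ m, E m n → IsNat E m ∧ ∀ k, E k m → E k n) ?_
    (fun z hz m hm => (hz m hm).elim) (fun x s hx ih hs m hm => ?_) n hn
  · repeat' first | exact Tm.var _ | apply Df.nat | apply Df.mem' | apply Df.and | apply Df.all' | apply Df.imp
  · rcases (hs m).1 hm with e | rfl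
    · exact ⟨(ih m e).1, fun k hk => (hs k).2 (Or.inl ((ih m e).2 k hk))⟩
    · exact ⟨hx, fun k hk => (hs k).2 (Or.inl hk)⟩

theorem nat_le' {m : M} (hm : IsNat E m) :
    ∀ n, IsNat E n → (∀ k, E k n → E k m) → E n m ∨ n = m := by
  refine h.natInd' (P := fun m => ∀ n, IsNat E n → (∀ k, E k n → E k m) → E n m ∨ n = m) ?_
    (fun z hz n _ h1 => Or.inr (h.ext _ _ fun k => iff_of_false (fun e => hz k (h1 k e)) (hz k)))
    (fun x s hx ih hs n hn h1 => ?_) m hm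
  · repeat' first | exact Tm.var _ | apply Df.nat | apply Df.mem' | apply Df.eq' | apply Df.or | apply Df.all' | apply Df.imp
  · by_cases hxn : E x n
    · refine Or.inr (h.ext _ _ fun k => ⟨h1 k, fun e => ?_⟩)
      rcases (hs k).1 e with e | rfl
      · exact (h.nat_tr' hn x hxn).2 k e
      · exact hxn
    · exact Or.inl ((hs n).2 (ih n hn fun k hk => ((hs k).1 (h1 k hk)).resolve_right
        fun e => hxn (e ▸ hk)))

theorem nat_lin' {m n : M} (hm : IsNat E m) (hn : IsNat E n) :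
    (∀ k, E k n → E k m) ∨ ∀ k, E k m → E k n := by
  refine h.natInd' (P := fun n => (∀ k, E k n → E k m) ∨ ∀ k, E k m → E k n) ?_
    (fun z hz => Or.inl fun k hk => (hz k hk).elim) (fun x s hx ih hs => ?_) n hn
  · repeat' first | exact Tm.var _ | exact Tm.const _ | apply Df.mem' | apply Df.or | apply Df.all' | apply Df.imp
  · rcases ih with ih | ih
    · rcases h.nat_le' hm x hx ih with e | rfl
      · exact Or.inl fun k hk => ((hs k).1 hk).elim (ih k) fun e' => e' ▸ e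
      · exact Or.inr fun k hk => (hs k).2 (Or.inl hk)
    · exact Or.inr fun k hk => (hs k).2 (Or.inl (ih k hk))

theorem finInd' {P : M → Prop} (hP : Df E Unit fun w => P (w ())) (h0 : ∀ z, (∀ y, ¬ E y z) → P z)
    (h1 : ∀ b y s, IsFin E b → P b → IsS E s b y → P s) (a : M) (ha : IsFin E a) : P a := by
  obtain ⟨n, f, hn, hf⟩ := ha
  refine h.natInd' (P := fun n => ∀ a, Bij E f n a → P a) ?_ (fun z hz a ha => h0 a fun y hy => ?_)
    (fun x s hx ih hs a ha => ?_) n hn a hf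
  · exact Df.all' ((Df.bij (Tm.const _) (Tm.var _) (Tm.var _)).imp
      (hP.sub (fun w _ => w none) fun _ => Tm.var _))
  · exact (ha.2 y hy).elim fun x hx => hz x hx.1.1
  · obtain ⟨y, h2, h3⟩ := ha.1 x ((hs x).2 (Or.inr rfl))
    obtain ⟨b, hb⟩ := h.sepD' (P := fun w => ¬ w = y) (Df.eq' (Tm.var _) (Tm.const _)).neg a
    have h4 : Bij E f x b := by
      refine ⟨fun k hk => ?_, fun w hw => ?_⟩
      · obtain ⟨w, h5, h6⟩ := ha.1 k ((hs k).2 (Or.inl hk))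
        refine ⟨w, ⟨(hb w).2 ⟨h5.1, ?_⟩, h5.2⟩, fun w' h7 => h6 w' ⟨((hb w').1 h7.1).1, h7.2⟩⟩
        rintro rfl
        obtain ⟨k', -, h8⟩ := ha.2 w h5.1
        exact h.irr x (((h8 k ⟨(hs k).2 (Or.inl hk), h5.2⟩).trans
          (h8 x ⟨(hs x).2 (Or.inr rfl), h2.2⟩).symm) ▸ hk)
      · obtain ⟨k, h5, h6⟩ := ha.2 w ((hb w).1 hw).1
        refine ⟨k, ⟨((hs k).1 h5.1).resolve_right ?_, h5.2⟩,
          fun k' h7 => h6 k' ⟨(hs k').2 (Or.inl h7.1), h7.2⟩⟩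
        rintro rfl
        exact ((hb w).1 hw).2 (h3 w ⟨((hb w).1 hw).1, h5.2⟩)
    refine h1 b y a ⟨x, f, hx, h4⟩ (ih b h4) fun w => ?_
    rw [hb]
    by_cases e : w = y
    · simp [e, h2.1]
    · simp [e]

theorem finS' {a y s : M} (ha : IsFin E a) (hs : IsS E s a y) : IsFin E s := by
  by_cases hy : E y a
  · exact h.ext a s (fun w => ⟨fun e => (hs w).2 (Or.inl e), fun e => ((hs w).1 e).elim id
      fun e' => e' ▸ hy⟩) ▸ ha
  obtain ⟨n, f, hn, hf⟩ := ha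
  obtain ⟨n', hn'⟩ := h.ins n n
  obtain ⟨g, hg⟩ := h.sepD' (P := fun p => ∃ x w, E x n ∧ E w a ∧ IsPair E p x w) (by
    repeat' first | exact Tm.var _ | exact Tm.const _ | apply Df.pair | apply Df.mem' | apply Df.and | apply Df.ex') f
  obtain ⟨q, hq⟩ := h.exPair n y
  obtain ⟨f', hf'⟩ := h.ins g q
  have key : ∀ x w, App E f' x w ↔ (E x n ∧ E w a ∧ App E f x w) ∨ (x = n ∧ w = y) := by
    refine fun x w => ⟨fun ⟨p, h1, h2⟩ => ?_, ?_⟩
    · rcases (hf' p).1 h1 with e | rfl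
      · obtain ⟨h3, x', w', h4, h5, h6⟩ := (hg p).1 e
        obtain ⟨rfl, rfl⟩ := h.pair_inj h2 h6
        exact Or.inl ⟨h4, h5, p, h3, h2⟩
      · exact Or.inr (h.pair_inj h2 hq)
    · rintro (⟨h1, h2, p, h3, h4⟩ | ⟨rfl, rfl⟩)
      · exact ⟨p, (hf' p).2 (Or.inl ((hg p).2 ⟨h3, x, w, h1, h2, h4⟩)), h4⟩
      · exact ⟨q, (hf' q).2 (Or.inr rfl), hq⟩
  have hi := h.irr n
  refine ⟨n', f', h.natS hn hn', fun x hx => ?_, fun w hw => ?_⟩
  · rcases (hn' x).1 hx with e | rfl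
    · obtain ⟨w, h1, h2⟩ := hf.1 x e
      exact ⟨w, ⟨(hs w).2 (Or.inl h1.1), (key _ _).2 (Or.inl ⟨e, h1⟩)⟩, fun w' h3 =>
        ((key _ _).1 h3.2).elim (fun h4 => h2 w' h4.2) fun h4 => (hi (h4.1 ▸ e)).elim⟩
    · exact ⟨y, ⟨(hs y).2 (Or.inr rfl), (key _ _).2 (Or.inr ⟨rfl, rfl⟩)⟩, fun w' h3 =>
        ((key _ _).1 h3.2).elim (fun h4 => (hi h4.1).elim) And.right⟩
  · rcases (hs w).1 hw with e | rfl
    · obtain ⟨x, h1, h2⟩ := hf.2 w e
      exact ⟨x, ⟨(hn' x).2 (Or.inl h1.1), (key _ _).2 (Or.inl ⟨h1.1, e, h1.2⟩)⟩, fun x' h3 =>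
        ((key _ _).1 h3.2).elim (fun h4 => h2 x' ⟨h4.1, h4.2.2⟩) fun h4 => (hy (h4.2 ▸ e)).elim⟩
    · exact ⟨n, ⟨(hn' n).2 (Or.inr rfl), (key _ _).2 (Or.inr ⟨rfl, rfl⟩)⟩, fun x' h3 =>
        ((key _ _).1 h3.2).elim (fun h4 => (hy h4.2.1).elim) And.left⟩

theorem finU' {a b : M} (ha : IsFin E a) (hb : IsFin E b) :
    ∃ c, IsFin E c ∧ ∀ w, E w c ↔ E w a ∨ E w b := by
  refine h.finInd' (P := fun b => ∃ c, IsFin E c ∧ ∀ w, E w c ↔ E w a ∨ E w b) ?_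
    (fun z hz => ⟨a, ha, fun w => by simp [hz w]⟩) (fun b y s _ ⟨c, h1, h2⟩ hs => ?_) b hb
  · repeat' first | exact Tm.var _ | exact Tm.const _ | apply Df.fin | apply Df.mem' | apply Df.and | apply Df.or | apply Df.iff | apply Df.ex' | apply Df.all'
  · obtain ⟨c', hc⟩ := h.ins c y
    exact ⟨c', h.finS' h1 hc, fun w => by rw [hc, h2, hs, or_assoc]⟩

theorem pair_uniq {p q x y : M} (h1 : IsPair E p x y) (h2 : IsPair E q x y) : p = q :=
  h.ext _ _ fun z => (h1 z).trans (h2 z).symm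

theorem prod (a b : M) : ∃ c, ∀ p, E p c ↔ ∃ x y, E x a ∧ E y b ∧ IsPair E p x y := by
  obtain ⟨u, hu⟩ := h.union2 a b
  obtain ⟨v, hv⟩ := h.power u
  obtain ⟨w, hw⟩ := h.power v
  obtain ⟨c, hc⟩ := h.sepD' (P := fun p => ∃ x y, E x a ∧ E y b ∧ IsPair E p x y) (by
    repeat' first | exact Tm.var _ | exact Tm.const _ | apply Df.pair | apply Df.mem' | apply Df.and | apply Df.ex') w
  refine ⟨c, fun p => (hc p).trans (and_iff_right_of_imp ?_)⟩
  rintro ⟨x, y, h1, h2, h3⟩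
  refine (hw p).2 fun z hz => (hv z).2 fun k hk => (hu k).2 ?_
  rcases (h3 z).1 hz with e | e
  · exact Or.inl ((e k).1 hk ▸ h1)
  · exact ((e k).1 hk).imp (fun e : k = x => e ▸ h1) fun e : k = y => e ▸ h2

/-- a definable relation between two sets is a set -/
theorem rel {R : M → M → Prop} (hR : Df E Bool fun w => R (w false) (w true)) (a b : M) :
    ∃ f, ∀ x y, App E f x y ↔ E x a ∧ E y b ∧ R x y := by
  obtain ⟨c, hc⟩ := h.prod a b
  obtain ⟨f, hf⟩ := h.sepD' (P := fun p => ∃ x y, IsPair E p x y ∧ R x y)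
    (Df.ex' (Df.ex' ((Df.pair (Tm.var _) (Tm.var _) (Tm.var _)).and
      (hR.sub (fun w b => cond b (w none) (w (some none))) (by rintro (_ | _) <;> exact Tm.var _))))) c
  refine ⟨f, fun x y => ⟨fun ⟨p, h1, h2⟩ => ?_, fun ⟨h1, h2, h3⟩ => ?_⟩⟩
  · obtain ⟨h3, x', y', h4, h5⟩ := (hf p).1 h1
    obtain ⟨x'', y'', h6, h7, h8⟩ := (hc p).1 h3
    obtain ⟨rfl, rfl⟩ := h.pair_inj h2 h4
    obtain ⟨rfl, rfl⟩ := h.pair_inj h2 h8
    exact ⟨h6, h7, h5⟩
  · obtain ⟨p, hp⟩ := h.exPair x y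
    exact ⟨p, (hf p).2 ⟨(hc p).2 ⟨x, y, h1, h2, hp⟩, x, y, hp, h3⟩, hp⟩

/-- a definable function from a set into a set is internal -/
theorem intl {p : M → Prop} {φ : Subtype p → M} {R : M → M → Prop}
    (hR : Df E Bool fun w => R (w false) (w true)) (a b : M) (h1 : ∀ x : Subtype p, E x.1 a)
    (h2 : ∀ x, E (φ x) b) (h3 : ∀ x y, E y b → (R x.1 y ↔ y = φ x)) : Intl E φ := by
  obtain ⟨f, hf⟩ := h.rel hR a b
  exact ⟨f, fun x y => (hf _ _).trans ⟨fun e => (h3 x y e.2.1).1 e.2.2,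
    fun e => e ▸ ⟨h1 x, h2 x, (h3 x _ (h2 x)).2 rfl⟩⟩⟩

end IsZF

end Pool.Agent.H40.Bspt
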