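import Pool.Agent.H40.Js4
import Pool.Agent.H40.Zf1

set_option autoImplicit false

/-! Working inside the transferred model. -/

namespace Pool.Agent.H40.Js

open Set Filter
open Pool.Agent.H40.Bspt Pool.Agent.H40.Jz

/-- the normal filter generated by the stabilisers of the points of an invariant set -/
@[reducible] def suppNF (Λ : Type) [Group Λ] {Y : Type} [MulAction Λ Y] (S : Set Y)
    (hS : ∀ (g : Λ), ∀ y ∈ S, g • y ∈ S) : NF Λ where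
  F := ⨅ y, ⨅ (_ : y ∈ S), 𝓟 {g | g • y = y}
  conj h := tendsto_iInf.2 fun y => tendsto_iInf.2 fun hy => tendsto_principal.2
    (mem_iInf_of_mem (h • y) (mem_iInf_of_mem (hS h y hy) fun g (hg : g • h • y = h • y) => by
      show (h⁻¹ * g * h) • y = y
      rw [mul_smul, mul_smul, hg, inv_smul_smul]))
  inv := tendsto_iInf.2 fun y => tendsto_iInf.2 fun hy => tendsto_principal.2
    (mem_iInf_of_mem y (mem_iInf_of_mem hy fun g (hg : g • y = y) => by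
      show g⁻¹ • y = y
      rw [inv_smul_eq_iff, hg]))

theorem supp_iff {Λ : Type} [Group Λ] {Y : Type} [MulAction Λ Y] {S : Set Y}
    {p : Λ → Prop} :
    (∀ᶠ g in ⨅ y, ⨅ (_ : y ∈ S), 𝓟 {g : Λ | g • y = y}, p g) ↔
      ∃ F : Set Y, F.Finite ∧ F ⊆ S ∧ ∀ g : Λ, (∀ y ∈ F, g • y = y) → p g :=
  mem_biInf_principal.trans (exists_congr fun _ => and_congr_right' (and_congr_right'
    ⟨fun h _ hg => h (mem_iInter₂.2 hg), fun h g hg => h g (mem_iInter₂.1 hg)⟩))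

variable {Λ : Type} [Group Λ] [NF Λ]

theorem sym_of {X : Type} [MulAction Λ X] {s : Set X}
    (h : ∀ᶠ g in NF.F (Γ := Λ), ∀ x ∈ s, g • x ∈ s) : Sym Λ s := by
  filter_upwards [h, NF.inv.eventually h] with g a b x
  exact ⟨fun e => by simpa using b _ e, a x⟩

theorem sym_all {X : Type} [MulAction Λ X] {s : Set X} (h : ∀ g : Λ, ∀ x ∈ s, g • x ∈ s) :
    Sym Λ s := sym_of (Eventually.of_forall h)

theorem smul_mem {X : Type} [MulAction Λ X] {g : Λ} {s : PS Λ X} {x : X} :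
    g • x ∈ (g • s).1 ↔ x ∈ s.1 := by rw [mem_smul, inv_smul_smul]

theorem smul_val {X : Type} [MulAction Λ X] (g : Λ) (s : PS Λ X) :
    (g • s).1 = (g⁻¹ • ·) ⁻¹' s.1 := rfl

variable {A : Type} [MulAction Λ A]

abbrev ps {t : Ty} (s : Set (El Λ A t)) (h : Sym Λ s) : PS Λ (El Λ A t) := ⟨s, h⟩

def un (t : Ty) : PS Λ (El Λ A t) := ⟨univ, sym_all fun _ _ _ => trivial⟩

class Fx (Λ : Type) [Group Λ] [NF Λ] (A : Type) [MulAction Λ A] : Prop where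
  fx : ∀ a : A, ∀ᶠ g in NF.F (Γ := Λ), g • a = a

theorem fix [Fx Λ A] {t : Ty} (x : El Λ A t) : ∀ᶠ g in NF.F (Γ := Λ), g • x = x :=
  el_fix Fx.fx t x

theorem sym_fin [Fx Λ A] {t : Ty} {s : Set (El Λ A t)} (h : s.Finite) : Sym Λ s := by
  refine sym_of ?_
  filter_upwards [(eventually_all_finite h).2 fun x _ => fix x] with g a x hx
  rwa [a x hx]

theorem nat_smul (g : Λ) (n : El Λ A .n) : g • n = n := rfl

theorem pn_smul (g : Λ) (s : El Λ A (.w .n)) : g • s = s := rfl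

namespace JS

variable (J : JS Λ A)

theorem mem' {t : Ty} {s : PS Λ (El Λ A t)} {x : El Λ A t} :
    J.E (J.ν t x) (J.ν (.w t) s) ↔ x ∈ s.1 :=
  (J.mem t s _).trans ⟨fun ⟨_, h, e⟩ => J.inj t e ▸ h, fun h => ⟨x, h, rfl⟩⟩

theorem sym_df {t : Ty} {P : J.M → Prop} (hP : Df J.E Unit fun w => P (w ())) :
    Sym Λ {x : El Λ A t | P (J.ν t x)} := by
  obtain ⟨y, hy⟩ := J.zf.sepD' hP (J.ν (.w t) (un _))
  obtain ⟨s, rfl⟩ := J.sub t y fun z hz => ((J.mem t _ z).1 ((hy z).1 hz).1).imp fun _ h => h.2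
  have : {x : El Λ A t | P (J.ν t x)} = s.1 :=
    Set.ext fun x => by rw [← J.mem', hy, J.mem']; simp [un]
  exact this ▸ s.2

theorem sym_mem {t : Ty} (a : J.M) : Sym Λ {x : El Λ A t | J.E (J.ν t x) a} :=
  J.sym_df (P := fun z => J.E z a) (Df.mem' (Tm.var _) (Tm.const _))

theorem sub' {t : Ty} {s : PS Λ (El Λ A t)} {a : J.M} (h : Sub J.E a (J.ν (.w t) s)) :
    ∃ u : PS Λ (El Λ A t), u.1 ⊆ s.1 ∧ a = J.ν (.w t) u := by
  obtain ⟨u, rfl⟩ := J.sub t a fun z hz => ((J.mem t _ z).1 (h z hz)).imp fun _ h => h.2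
  exact ⟨u, fun x hx => J.mem'.1 (h _ (J.mem'.2 hx)), rfl⟩

theorem sub_iff {t : Ty} {s u : PS Λ (El Λ A t)} :
    Sub J.E (J.ν (.w t) u) (J.ν (.w t) s) ↔ u.1 ⊆ s.1 :=
  ⟨fun h x hx => J.mem'.1 (h _ (J.mem'.2 hx)), fun h z hz => by
    obtain ⟨x, hx, rfl⟩ := (J.mem t _ z).1 hz
    exact J.mem'.2 (h hx)⟩

theorem all_mem {t : Ty} {s : PS Λ (El Λ A t)} {Q : J.M → Prop} :
    (∀ z, J.E z (J.ν (.w t) s) → Q z) ↔ ∀ x ∈ s.1, Q (J.ν t x) :=
  ⟨fun h x hx => h _ (J.mem'.2 hx), fun h z hz => by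
    obtain ⟨x, hx, rfl⟩ := (J.mem t _ z).1 hz
    exact h x hx⟩

theorem ex_mem {t : Ty} {s : PS Λ (El Λ A t)} {Q : J.M → Prop} :
    (∃ z, J.E z (J.ν (.w t) s) ∧ Q z) ↔ ∃ x ∈ s.1, Q (J.ν t x) :=
  ⟨fun ⟨z, hz, h⟩ => by
    obtain ⟨x, hx, rfl⟩ := (J.mem t _ z).1 hz
    exact ⟨x, hx, h⟩, fun ⟨x, hx, h⟩ => ⟨_, J.mem'.2 hx, h⟩⟩

theorem isPair_iff {s t : Ty} {x : El Λ A s} {y : El Λ A t} {p : J.M} :
    IsPair J.E p (J.ν s x) (J.ν t y) ↔ p = J.ν (.p s t) (x, y) :=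
  ⟨fun h => J.zf.pair_uniq h (J.pair s t x y), fun h => h ▸ J.pair s t x y⟩

theorem app_nu {s t : Ty} {x : El Λ A s} {y : El Λ A t} {f : J.M} :
    App J.E f (J.ν s x) (J.ν t y) ↔ J.E (J.ν (.p s t) (x, y)) f :=
  ⟨fun ⟨_, h1, h2⟩ => J.isPair_iff.1 h2 ▸ h1, fun h => ⟨_, h, J.pair s t x y⟩⟩

theorem app_iff {s t : Ty} {F : PS Λ (El Λ A (.p s t))} {a b : J.M} :
    App J.E (J.ν (.w (.p s t)) F) a b ↔ ∃ x y, (x, y) ∈ F.1 ∧ a = J.ν s x ∧ b = J.ν t y := by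
  refine ⟨fun ⟨p, h1, h2⟩ => ?_, ?_⟩
  · obtain ⟨x, hx, rfl⟩ := (J.mem _ _ _).1 h1
    exact ⟨x.1, x.2, hx, J.zf.pair_inj h2 (J.pair s t x.1 x.2)⟩
  · rintro ⟨x, y, h, rfl, rfl⟩
    exact J.app_nu.2 (J.mem'.2 h)

theorem op_nu {s t u : Ty} {x : El Λ A s} {y : El Λ A t} {z f : J.M} :
    Op J.E f (J.ν s x) (J.ν t y) z ↔ App J.E f (J.ν (.p s t) (x, y)) z :=
  ⟨fun ⟨_, h1, h2⟩ => J.isPair_iff.1 h1 ▸ h2, fun h => ⟨_, J.pair s t x y, h⟩⟩

theorem nat_iff {a : J.M} : IsNat J.E a ↔ ∃ n : ℕ, a = J.ν .n n := by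
  have hs : ∀ n : ℕ, IsS J.E (J.ν .n (n + 1 : ℕ)) (J.ν .n n) (J.ν .n n) := fun n w => by
    rw [J.nat, J.nat]
    constructor
    · rintro ⟨m, h, rfl⟩
      rcases Nat.lt_succ_iff_lt_or_eq.1 h with h | rfl
      exacts [Or.inl ⟨m, h, rfl⟩, Or.inr rfl]
    · rintro (⟨m, h, rfl⟩ | rfl)
      exacts [⟨m, by omega, rfl⟩, ⟨n, by omega, rfl⟩]
  have h0 : ∀ y, ¬ J.E y (J.ν .n (0 : ℕ)) := fun y h => by simpa using (J.nat 0 y).1 h
  constructor
  · intro h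
    obtain ⟨n, -, e⟩ := (J.mem _ _ _).1 (h (J.ν (.w .n) (un _)) ⟨⟨_, J.mem'.2 trivial, h0⟩,
      J.all_mem.2 fun x _ => ⟨_, J.mem'.2 trivial, hs x⟩⟩)
    exact ⟨n, e⟩
  · rintro ⟨n, rfl⟩
    induction n with
    | zero => exact J.zf.nat0 h0
    | succ n ih => exact J.zf.natS ih (hs n)

theorem fin_ext {a : J.M} (h : IsFin J.E a) : {z | J.E z a}.Finite := by
  obtain ⟨n, f, h1, h2⟩ := h
  obtain ⟨n, rfl⟩ := J.nat_iff.1 h1
  have : {z | J.E z (J.ν .n n)}.Finite :=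
    ((finite_lt_nat n).image fun m : ℕ => J.ν .n m).subset fun z hz => by
      obtain ⟨m, h, e⟩ := (J.nat n z).1 hz
      exact ⟨m, h, e.symm⟩
  choose! G hG hG' using h2.1
  refine (this.image G).subset fun y hy => ?_
  obtain ⟨x, h3, -⟩ := h2.2 y hy
  exact ⟨x, h3.1, (hG' x h3.1 y ⟨hy, h3.2⟩).symm⟩

theorem fin_of {a : J.M} (h : {z | J.E z a}.Finite) : IsFin J.E a := by
  generalize hs : {z | J.E z a} = s at h
  induction s, h using Set.Finite.induction_on generalizing a with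
  | empty => exact J.zf.fin0 fun y hy => (hs ▸ hy : y ∈ (∅ : Set J.M))
  | @insert y s h1 _ ih =>
    obtain ⟨b, hb⟩ := J.zf.sepD' (P := fun w => ¬ w = y) (Df.eq' (Tm.var _) (Tm.const _)).neg a
    have e : ∀ w, J.E w a ↔ w = y ∨ w ∈ s := fun w => Set.ext_iff.1 hs w
    refine J.zf.finS' (y := y) (ih (a := b) (Set.ext fun w => ?_)) fun w => ?_
    · show J.E w b ↔ _
      rw [hb, e]
      exact ⟨fun h => h.1.resolve_left h.2, fun h => ⟨Or.inr h, fun e => h1 (e ▸ h)⟩⟩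
    · rw [hb, e]; tauto

theorem fin_iff {t : Ty} {s : PS Λ (El Λ A t)} : IsFin J.E (J.ν (.w t) s) ↔ s.1.Finite := by
  have : {z | J.E z (J.ν (.w t) s)} = J.ν t '' s.1 :=
    Set.ext fun z => (J.mem _ _ _).trans (exists_congr fun _ => and_congr_right' eq_comm)
  exact ⟨fun h => Finite.of_finite_image (this ▸ J.fin_ext h) (J.inj t).injOn,
    fun h => J.fin_of (this ▸ h.image _)⟩

/-- every externally finite subset of the model is a set of the model -/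
theorem ex_fin {s : Set J.M} (h : s.Finite) : ∃ a, IsFin J.E a ∧ ∀ z, J.E z a ↔ z ∈ s := by
  have : ∃ a, ∀ z, J.E z a ↔ z ∈ s := by
    induction s, h using Set.Finite.induction_on with
    | empty => exact J.zf.emp.imp fun a h z => iff_of_false (h z) id
    | @insert y s _ _ ih =>
      obtain ⟨a, ha⟩ := ih
      exact (J.zf.ins a y).imp fun b hb z => by rw [hb, ha]; exact or_comm
  obtain ⟨a, ha⟩ := this
  exact ⟨a, J.fin_of (h.subset fun z hz => (ha z).1 hz), ha⟩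

noncomputable def exE {t : Ty} (s : PS Λ (El Λ A t)) : s.1 ≃ Ex J.E (J.ν (.w t) s) :=
  Equiv.ofBijective (fun x => ⟨J.ν t x.1, J.mem'.2 x.2⟩)
    ⟨fun _ _ h => Subtype.ext (J.inj t (congrArg Subtype.val h)), fun z => by
      obtain ⟨x, hx, e⟩ := (J.mem _ _ _).1 z.2
      exact ⟨⟨x, hx⟩, Subtype.ext e.symm⟩⟩

theorem exE_val {t : Ty} (s : PS Λ (El Λ A t)) (x : s.1) : (J.exE s x).1 = J.ν t x.1 := rfl

theorem exE_symm {t : Ty} (s : PS Λ (El Λ A t)) (z : Ex J.E (J.ν (.w t) s)) :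
    z.1 = J.ν t ((J.exE s).symm z).1 := by rw [← exE_val, Equiv.apply_symm_apply]

noncomputable def omE : ℕ ≃ Om J.E :=
  Equiv.ofBijective (fun x => ⟨J.ν .n x, J.nat_iff.2 ⟨x, rfl⟩⟩)
    ⟨fun _ _ h => J.inj .n (congrArg Subtype.val h), fun z => by
      obtain ⟨x, e⟩ := J.nat_iff.1 z.2
      exact ⟨x, Subtype.ext e.symm⟩⟩

theorem omE_val (n : ℕ) : (J.omE n).1 = J.ν .n n := rfl

theorem omE_symm (z : Om J.E) : z.1 = J.ν .n (J.omE.symm z) := by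
  rw [← omE_val, Equiv.apply_symm_apply]

theorem intl_of {s t : Ty} {p : J.M → Prop} {φ : Subtype p → J.M} (D : Set (El Λ A s))
    (f : El Λ A s → El Λ A t)
    (h : ∀ᶠ g in NF.F (Γ := Λ), ∀ x ∈ D, g • x ∈ D ∧ f (g • x) = g • f x)
    (h' : ∀ z : Subtype p, ∃ x ∈ D, z.1 = J.ν s x ∧ φ z = J.ν t (f x)) : Intl J.E φ := by
  refine ⟨J.ν (.w (.p s t)) (ps {z | z.1 ∈ D ∧ z.2 = f z.1} (sym_of ?_)), fun z y => ?_⟩
  · filter_upwards [h] with g hg x hx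
    exact ⟨(hg _ hx.1).1, ((hg _ hx.1).2.trans (by rw [← hx.2]; rfl)).symm⟩
  · obtain ⟨x, h1, h2, h3⟩ := h' z
    rw [app_iff, h2, h3]
    refine ⟨?_, fun e => ⟨x, f x, ⟨h1, rfl⟩, rfl, e⟩⟩
    rintro ⟨x', y', h4, h5, rfl⟩
    rw [J.inj s h5]
    exact congrArg _ h4.2

theorem intl2_of {s t u : Ty} {p q : J.M → Prop} {φ : Subtype p → Subtype q → J.M}
    (D : Set (El Λ A (.p s t))) (f : El Λ A (.p s t) → El Λ A u)
    (h : ∀ᶠ g in NF.F (Γ := Λ), ∀ x ∈ D, g • x ∈ D ∧ f (g • x) = g • f x)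
    (h' : ∀ (z : Subtype p) (w : Subtype q), ∃ x ∈ D, z.1 = J.ν s x.1 ∧ w.1 = J.ν t x.2 ∧
      φ z w = J.ν u (f x)) : Intl2 J.E φ := by
  obtain ⟨F, hF⟩ := J.intl_of (p := fun z => ∃ x ∈ D, z = J.ν (.p s t) x)
    (φ := fun z => J.ν u (f z.2.choose)) D f h fun z => ⟨_, z.2.choose_spec.1, z.2.choose_spec.2, rfl⟩
  refine ⟨F, fun z w y => ?_⟩
  obtain ⟨x, h1, h2, h3, h4⟩ := h' z w
  have hx : ∃ x' ∈ D, J.ν (.p s t) x = J.ν (.p s t) x' := ⟨x, h1, rfl⟩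
  rw [h2, h3, h4, J.op_nu (u := u)]
  refine (hF ⟨_, hx⟩ y).trans ?_
  exact iff_of_eq (congrArg (fun a => y = J.ν u (f a)) (J.inj _ hx.choose_spec.2).symm)

theorem intl_sym {s t : Ty} {p : J.M → Prop} {φ : Subtype p → J.M} (h : Intl J.E φ) :
    ∀ᶠ g in NF.F (Γ := Λ), ∀ (z w : Subtype p) (x : El Λ A s) (y : El Λ A t), z.1 = J.ν s x →
      w.1 = J.ν s (g • x) → φ z = J.ν t y → φ w = J.ν t (g • y) := by
  obtain ⟨f, hf⟩ := h
  filter_upwards [J.sym_mem (t := .p s t) f] with g hg z w x y h1 h2 h3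
  have := (hf z _).2 h3.symm
  rw [h1, app_nu] at this
  refine ((hf w _).1 ?_).symm
  rw [h2, app_nu]
  exact (hg (x, y)).2 this

end JS

noncomputable def rho (r : ℝ) : El Λ A (.w .n) :=
  (⟨{n : ℕ | ((Denumerable.eqv ℚ).symm n : ℝ) < r}, sym_all fun _ _ h => h⟩ : PS Λ (El Λ A .n))

theorem rho_inj : Function.Injective (rho : ℝ → El Λ A (.w .n)) := by
  have key : ∀ r s : ℝ, r < s → (rho r : El Λ A (.w .n)) ≠ rho s := by
    intro r s h e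
    obtain ⟨q, h1, h2⟩ := exists_rat_btwn h
    obtain ⟨n, rfl⟩ := (Denumerable.eqv ℚ).symm.surjective q
    exact h1.not_gt ((Set.ext_iff.1 (congrArg Subtype.val e) n).2 h2)
  intro r s e
  rcases lt_trichotomy r s with h | h | h
  exacts [absurd e (key _ _ h), h, absurd e.symm (key _ _ h)]

def Rs : PS Λ (El Λ A (.w .n)) := ⟨range rho, sym_all fun _ _ h => h⟩

namespace JS

variable (J : JS Λ A)

noncomputable def rE : Ex J.E (J.ν (.w (.w .n)) Rs) ≃ ℝ :=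
  ((Equiv.ofInjective _ rho_inj).trans (J.exE Rs)).symm

theorem rE_val (z : Ex J.E (J.ν (.w (.w .n)) Rs)) : z.1 = J.ν (.w .n) (rho (J.rE z)) := by
  obtain ⟨r, rfl⟩ := J.rE.symm.surjective z
  rw [Equiv.apply_symm_apply]; rfl

theorem intl2_real (φ : Ex J.E (J.ν (.w (.w .n)) Rs) → Ex J.E (J.ν (.w (.w .n)) Rs) →
    Ex J.E (J.ν (.w (.w .n)) Rs)) : Intl2 J.E fun x y => (φ x y).1 := by
  let i : El Λ A (.w .n) → ℝ := Function.invFun rho
  have hi : ∀ r, i (rho r) = r := Function.leftInverse_invFun rho_inj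
  refine J.intl2_of (s := .w .n) (t := .w .n) (u := .w .n) univ
    (fun x => rho (J.rE (φ (J.rE.symm (i x.1)) (J.rE.symm (i x.2)))))
    (Eventually.of_forall fun g x _ => ⟨trivial, rfl⟩) fun z w =>
      ⟨(rho (J.rE z), rho (J.rE w)), trivial, J.rE_val z, J.rE_val w, ?_⟩
  simp only [hi, Equiv.symm_apply_apply]
  exact J.rE_val _

noncomputable def reals : Reals J.E :=
  letI := J.rE.field
  letI := LinearOrder.lift' J.rE J.rE.injective
  haveI : IsStrictOrderedRing (Ex J.E (J.ν (.w (.w .n)) Rs)) :=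
    Function.Injective.isStrictOrderedRing J.rE (map_zero J.rE.ringEquiv) (map_one J.rE.ringEquiv)
      (map_add J.rE.ringEquiv) (map_mul J.rE.ringEquiv) Iff.rfl Iff.rfl
  { R := J.ν (.w (.w .n)) Rs
    add := J.intl2_real _
    mul := J.intl2_real _
    le := ⟨J.ν (.w (.p (.w .n) (.w .n))) (ps {z | ∃ r s, r ≤ s ∧ z = (rho r, rho s)}
      (sym_all fun _ _ h => h)), fun x y => by
        rw [J.rE_val x, J.rE_val y, app_nu, mem']
        refine ⟨fun ⟨r, s, h, e⟩ => ?_, fun h => ⟨_, _, h, rfl⟩⟩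
        show J.rE x ≤ J.rE y
        rwa [rho_inj (congrArg Prod.fst e), rho_inj (congrArg Prod.snd e)]⟩
    compl := fun S h1 h2 => by
      let e : Ex J.E (J.ν (.w (.w .n)) Rs) ≃o ℝ := { J.rE with map_rel_iff' := Iff.rfl }
      obtain ⟨s, hs⟩ := Real.exists_isLUB (h1.image e) (e.monotone.map_bddAbove h2)
      exact ⟨e.symm s, e.isLUB_image.1 hs⟩ }

noncomputable def rI : Ex J.E J.reals.R ≃+*o ℝ :=
  { J.rE.ringEquiv with map_le_map_iff' := Iff.rfl }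

theorem rI_val (z : Ex J.E J.reals.R) : z.1 = J.ν (.w .n) (rho (J.rI z)) := J.rE_val z

/-- symmetric real functions are internal -/
theorem intl_real {s : Ty} {p : J.M → Prop} {φ : Subtype p → Ex J.E J.reals.R}
    (D : Set (El Λ A s)) (f : El Λ A s → ℝ)
    (h : ∀ᶠ g in NF.F (Γ := Λ), ∀ x ∈ D, g • x ∈ D ∧ f (g • x) = f x)
    (h' : ∀ z : Subtype p, ∃ x ∈ D, z.1 = J.ν s x ∧ J.rI (φ z) = f x) :
    Intl J.E fun z => (φ z).1 :=
  J.intl_of (t := .w .n) D (fun x => rho (f x))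
    (h.mono fun g hg x hx => ⟨(hg x hx).1, congrArg rho (hg x hx).2⟩) fun z =>
      (h' z).imp fun x hx => ⟨hx.1, hx.2.1, by rw [← hx.2.2]; exact J.rI_val _⟩

theorem real_sym {s : Ty} {p : J.M → Prop} {φ : Subtype p → Ex J.E J.reals.R}
    (h : Intl J.E fun z => (φ z).1) : ∀ᶠ g in NF.F (Γ := Λ), ∀ (z w : Subtype p) (x : El Λ A s),
      z.1 = J.ν s x → w.1 = J.ν s (g • x) → φ w = φ z := by
  filter_upwards [J.intl_sym (s := s) (t := .w .n) h] with g hg z w x h1 h2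
  exact Subtype.ext ((hg z w x _ h1 h2 (J.rI_val _)).trans (J.rI_val _).symm)

end JS

end Pool.Agent.H40.Js
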