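import Pool.Agent.H40.Js5

set_option autoImplicit false

/-! Topological spaces of atoms in the transferred model. -/

namespace Pool.Agent.H40.Js

open Set Filter
open Pool.Agent.H40.Bspt Pool.Agent.H40.Jz

variable {Λ : Type} [Group Λ] [NF Λ] {A : Type} [MulAction Λ A]

def unA : PS Λ A := un (A := A) .a

theorem mem_unA (x : A) : x ∈ (unA : PS Λ A).1 := trivial

theorem sym_inter {X : Type} [MulAction Λ X] {s t : Set X} (hs : Sym Λ s) (ht : Sym Λ t) :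
    Sym Λ (s ∩ t) := by
  filter_upwards [hs, ht] with g a b x using and_congr (a x) (b x)

theorem sym_compl {X : Type} [MulAction Λ X] {s : Set X} (hs : Sym Λ s) : Sym Λ sᶜ := by
  filter_upwards [hs] with g a x using not_congr (a x)

theorem sym_finP {X : Type} [MulAction Λ X] {s : Set (PS Λ X)} (h : s.Finite) : Sym Λ s := by
  refine sym_of ?_
  filter_upwards [(eventually_all_finite h).2 fun x _ => ps_fix x] with g a x hx
  rwa [a x hx]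

namespace JS

variable (J : JS Λ A)

def nA (x : A) : J.M := J.ν .a x
def sA (s : PS Λ A) : J.M := J.ν (.w .a) s
def fA (s : PS Λ (PS Λ A)) : J.M := J.ν (.w (.w .a)) s

theorem nA_inj : Function.Injective J.nA := J.inj .a
theorem sA_inj : Function.Injective J.sA := J.inj (.w .a)
theorem memA {x : A} {s : PS Λ A} : J.E (J.nA x) (J.sA s) ↔ x ∈ s.1 := J.mem' (t := .a)
theorem memS {x : PS Λ A} {s : PS Λ (PS Λ A)} : J.E (J.sA x) (J.fA s) ↔ x ∈ s.1 :=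
  J.mem' (t := .w .a)
theorem allA {s : PS Λ A} {Q : J.M → Prop} :
    (∀ z, J.E z (J.sA s) → Q z) ↔ ∀ x ∈ s.1, Q (J.nA x) := J.all_mem (t := .a)
theorem exA {s : PS Λ A} {Q : J.M → Prop} :
    (∃ z, J.E z (J.sA s) ∧ Q z) ↔ ∃ x ∈ s.1, Q (J.nA x) := J.ex_mem (t := .a)
theorem allS {s : PS Λ (PS Λ A)} {Q : J.M → Prop} :
    (∀ z, J.E z (J.fA s) → Q z) ↔ ∀ x ∈ s.1, Q (J.sA x) := J.all_mem (t := .w .a)
theorem exS {s : PS Λ (PS Λ A)} {Q : J.M → Prop} :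
    (∃ z, J.E z (J.fA s) ∧ Q z) ↔ ∃ x ∈ s.1, Q (J.sA x) := J.ex_mem (t := .w .a)
theorem subA {s : PS Λ A} {a : J.M} (h : Sub J.E a (J.sA s)) :
    ∃ u : PS Λ A, u.1 ⊆ s.1 ∧ a = J.sA u := J.sub' (t := .a) h
theorem subS {s : PS Λ (PS Λ A)} {a : J.M} (h : Sub J.E a (J.fA s)) :
    ∃ u : PS Λ (PS Λ A), u.1 ⊆ s.1 ∧ a = J.fA u := J.sub' (t := .w .a) h
theorem subA_iff {s u : PS Λ A} : Sub J.E (J.sA u) (J.sA s) ↔ u.1 ⊆ s.1 := J.sub_iff (t := .a)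
theorem subS_iff {s u : PS Λ (PS Λ A)} : Sub J.E (J.fA u) (J.fA s) ↔ u.1 ⊆ s.1 :=
  J.sub_iff (t := .w .a)
theorem finA {s : PS Λ A} : IsFin J.E (J.sA s) ↔ s.1.Finite := J.fin_iff (t := .a)
theorem finS {s : PS Λ (PS Λ A)} : IsFin J.E (J.fA s) ↔ s.1.Finite := J.fin_iff (t := .w .a)
theorem elA {s : PS Λ A} {z : J.M} (h : J.E z (J.sA s)) : ∃ x ∈ s.1, z = J.nA x :=
  (J.mem .a s z).1 h
theorem elS {s : PS Λ (PS Λ A)} {z : J.M} (h : J.E z (J.fA s)) : ∃ x ∈ s.1, z = J.sA x :=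
  (J.mem (.w .a) s z).1 h

noncomputable def eA (s : PS Λ A) : s.1 ≃ Ex J.E (J.sA s) := J.exE (t := .a) s
noncomputable def eS (s : PS Λ (PS Λ A)) : s.1 ≃ Ex J.E (J.fA s) := J.exE (t := .w .a) s

theorem eA_val (s : PS Λ A) (x : s.1) : (J.eA s x).1 = J.nA x.1 := rfl
theorem eS_val (s : PS Λ (PS Λ A)) (x : s.1) : (J.eS s x).1 = J.sA x.1 := rfl

end JS

variable [TopologicalSpace A] [ContinuousConstSMul Λ A]

def topN : PS Λ (PS Λ A) :=
  ⟨{U | IsOpen U.1}, sym_all fun g _ h => h.preimage (continuous_const_smul g⁻¹)⟩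

/-- the symmetric clopen sets form a base -/
def SB (Λ : Type) [Group Λ] [NF Λ] (A : Type) [MulAction Λ A] [TopologicalSpace A] : Prop :=
  ∀ (U : Set A) (x : A), IsOpen U → x ∈ U → ∃ C : PS Λ A, IsClopen C.1 ∧ x ∈ C.1 ∧ C.1 ⊆ U

namespace JS

variable (J : JS Λ A)

def T : J.M := J.fA topN

theorem memT {u : PS Λ A} : J.E (J.sA u) J.T ↔ IsOpen u.1 := J.memS
theorem elT {z : J.M} (h : J.E z J.T) : ∃ u : PS Λ A, IsOpen u.1 ∧ z = J.sA u := J.elS h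

theorem isTop : IsTop J.E (J.sA unA) J.T := by
  refine ⟨fun U hU => ?_, J.memT.2 isOpen_univ, fun U V W hU hV h => ?_, fun C W hC h => ?_⟩
  · obtain ⟨u, -, rfl⟩ := J.elT hU
    exact J.subA_iff.2 (subset_univ _)
  · obtain ⟨u, hu, rfl⟩ := J.elT hU
    obtain ⟨v, hv, rfl⟩ := J.elT hV
    obtain ⟨w, -, rfl⟩ := J.subA (s := u) (a := W) fun z hz => ((h z).1 hz).1
    have : w.1 = u.1 ∩ v.1 := Set.ext fun x => by rw [← J.memA, h, J.memA, J.memA]; rfl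
    exact J.memT.2 (this ▸ hu.inter hv)
  · obtain ⟨c, hc, rfl⟩ := J.subS hC
    obtain ⟨w, -, rfl⟩ := J.subA (s := unA) (a := W) fun z hz => by
      obtain ⟨u, -, hu⟩ := J.exS.1 ((h z).1 hz)
      exact J.subA_iff.2 (subset_univ _) _ hu
    have : w.1 = ⋃ u ∈ c.1, u.1 := Set.ext fun x => by
      rw [← J.memA, h, J.exS]; simp only [J.memA, mem_iUnion, exists_prop]
    exact J.memT.2 (this ▸ isOpen_biUnion fun u hu => hc hu)

theorem compact {s : PS Λ A} (h : IsCompact s.1) : Compact J.E (J.sA s) J.T := by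
  intro C hC h1
  obtain ⟨c, hc, rfl⟩ := J.subS hC
  obtain ⟨d, h2, h3, h4⟩ := h.elim_finite_subcover_image (b := c.1) (c := fun u => u.1)
    (fun u hu => hc hu) fun x hx => by
      obtain ⟨u, h2, h3⟩ := J.exS.1 (J.allA.1 h1 x hx)
      exact mem_biUnion h2 (J.memA.1 h3)
  refine ⟨J.fA ⟨d, sym_finP h3⟩, J.subS_iff.2 h2, J.finS.2 h3, J.allA.2 fun x hx => J.exS.2 ?_⟩
  obtain ⟨u, h5, h6⟩ := mem_iUnion₂.1 (h4 hx)
  exact ⟨u, h5, J.memA.2 h6⟩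

/-- local statements about open neighbourhoods transfer -/
theorem nhd (hb : SB Λ A) {s : PS Λ A} {x : A} {Q : J.M → Prop} :
    (∃ U, J.E U J.T ∧ J.E (J.nA x) U ∧ ∀ y, J.E y (J.sA s) → J.E y U → Q y) ↔
      ∀ᶠ y in nhds x, y ∈ s.1 → Q (J.nA y) := by
  constructor
  · rintro ⟨U, h1, h2, h3⟩
    obtain ⟨u, hu, rfl⟩ := J.elT h1
    filter_upwards [hu.mem_nhds (J.memA.1 h2)] with y h4 h5 using h3 _ (J.memA.2 h5) (J.memA.2 h4)
  · intro h
    obtain ⟨U, h1, h2, h3⟩ := mem_nhds_iff.1 h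
    obtain ⟨C, h4, h5, h6⟩ := hb U x h2 h3
    exact ⟨J.sA C, J.memT.2 h4.2, J.memA.2 h5, J.allA.2 fun y hy e => h1 (h6 (J.memA.1 e)) hy⟩

theorem nhd' (hb : SB Λ A) {s : PS Λ A} {x : s.1} {Q : Ex J.E (J.sA s) → Prop} :
    (∃ U, J.E U J.T ∧ J.E (J.eA s x).1 U ∧ ∀ y : Ex J.E (J.sA s), J.E y.1 U → Q y) ↔
      ∀ᶠ y in nhds x, Q (J.eA s y) := by
  rw [nhds_subtype_eq_comap, eventually_comap]
  refine Iff.trans ?_ ((J.nhd hb (s := s) (x := x) (Q := fun y => ∀ h, Q ⟨y, h⟩)).trans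
    (eventually_congr (Eventually.of_forall fun y => ?_)))
  · exact exists_congr fun U => and_congr_right' (and_congr_right'
      ⟨fun h y _ a b => h ⟨y, b⟩ a, fun h y a => h y.1 y.2 a y.2⟩)
  · exact ⟨fun h a e => by subst e; exact h a.2 _, fun h a _ => h ⟨y, a⟩ rfl⟩

theorem t2 [T2Space A] (hb : SB Λ A) (s : PS Λ A) : T2 J.E (J.sA s) J.T := by
  intro x y hx hy h
  obtain ⟨x, -, rfl⟩ := J.elA hx
  obtain ⟨y, -, rfl⟩ := J.elA hy
  obtain ⟨C, h1, h2, h3⟩ := hb {y}ᶜ x isOpen_compl_singleton fun e => h (congrArg _ e)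
  exact ⟨J.sA C, J.sA ⟨_, sym_compl C.2⟩, J.memT.2 h1.2, J.memT.2 h1.1.isOpen_compl, J.memA.2 h2,
    J.memA.2 fun e => h3 e rfl, J.allA.2 fun z _ a b => J.memA.1 b (J.memA.1 a)⟩

theorem t1 [T2Space A] (hb : SB Λ A) (s : PS Λ A) : T1 J.E (J.sA s) J.T := fun x y hx hy h => by
  obtain ⟨U, V, h1, -, h2, h3, h4⟩ := J.t2 hb s x y hx hy h
  exact ⟨U, h1, h2, fun e => h4 y hy e h3⟩

theorem clopen_iff (hb : SB Λ A) {s c : PS Λ A} : Clopen J.E (J.sA s) J.T (J.sA c) ↔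
    c.1 ⊆ s.1 ∧ IsClopen (Subtype.val ⁻¹' c.1 : Set s.1) := by
  rw [Clopen, subA_iff, allA]
  refine and_congr_right' ?_
  simp only [J.nhd hb, J.memA]
  have key : ∀ (x : s.1) (q : A → Prop), (∀ᶠ y : s.1 in nhds x, q y) ↔
      ∀ᶠ y in nhds x.1, y ∈ s.1 → q y := fun x q => by
    rw [nhds_subtype_eq_comap, eventually_comap]
    exact eventually_congr (Eventually.of_forall fun y =>
      ⟨fun h a => h ⟨y, a⟩ rfl, fun h a e => by subst e; exact h a.2⟩)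
  constructor
  · intro h
    have := (IsLocallyConstant.iff_eventually_eq fun x : s.1 => x.1 ∈ c.1).2 fun x =>
      (key x fun y => (y ∈ c.1) = (x.1 ∈ c.1)).2 ((h x.1 x.2).mono fun y a b => propext (a b))
    have h2 := this.isClopen_fiber True
    simp only [eq_iff_iff, iff_true] at h2
    exact h2
  · intro h x hx
    refine (key ⟨x, hx⟩ fun y => y ∈ c.1 ↔ x ∈ c.1).1 ?_
    by_cases e : x ∈ c.1
    · filter_upwards [h.2.mem_nhds (x := ⟨x, hx⟩) e] with y hy using iff_of_true hy e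
    · filter_upwards [h.1.isOpen_compl.mem_nhds (x := ⟨x, hx⟩) e] with y hy using iff_of_false hy e

theorem closed_of (hb : SB Λ A) {s c : PS Λ A} (h : c.1 ⊆ s.1) (h' : IsClosed c.1) :
    Closed J.E (J.sA s) J.T (J.sA c) := by
  refine ⟨J.subA_iff.2 h, J.allA.2 fun x _ hx => ?_⟩
  obtain ⟨C, h4, h5, h6⟩ := hb _ x h'.isOpen_compl fun e => hx (J.memA.2 e)
  exact ⟨J.sA C, J.memT.2 h4.2, J.memA.2 h5, J.allA.2 fun y hy e => h6 hy (J.memA.1 e)⟩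

theorem closed_el {s : PS Λ A} {F : J.M} (h : Closed J.E (J.sA s) J.T F) :
    ∃ c : PS Λ A, F = J.sA c ∧ c.1 ⊆ s.1 ∧ ∀ x ∈ s.1, x ∉ c.1 → c.1ᶜ ∈ nhds x := by
  obtain ⟨c, h1, rfl⟩ := J.subA h.1
  refine ⟨c, rfl, h1, fun x hx hc => ?_⟩
  obtain ⟨U, h2, h3, h4⟩ := h.2 _ (J.memA.2 hx) fun e => hc (J.memA.1 e)
  obtain ⟨u, hu, rfl⟩ := J.elT h2
  exact mem_of_superset (hu.mem_nhds (J.memA.1 h3)) fun y hy e =>
    h4 _ (J.memA.2 hy) (J.memA.2 e)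

theorem zeroDim (hb : SB Λ A) (s : PS Λ A) : ZeroDim J.E (J.sA s) J.T := by
  intro U x hU hx h
  obtain ⟨u, hu, rfl⟩ := J.elT hU
  obtain ⟨x, hx', rfl⟩ := J.elA hx
  obtain ⟨C, h1, h2, h3⟩ := hb u.1 x hu (J.memA.1 h)
  refine ⟨J.sA ⟨C.1 ∩ s.1, sym_inter C.2 s.2⟩, (J.clopen_iff hb).2 ⟨inter_subset_right, ?_⟩,
    J.memA.2 ⟨h2, hx'⟩, J.subA_iff.2 fun y hy => h3 hy.1⟩
  have : (Subtype.val ⁻¹' (C.1 ∩ s.1) : Set s.1) = Subtype.val ⁻¹' C.1 := by ext; simp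
  exact this ▸ h1.preimage continuous_subtype_val

theorem cont_iff (hb : SB Λ A) {s : PS Λ A} {φ : Ex J.E (J.sA s) → Ex J.E J.reals.R} :
    Cont J.reals (J.sA s) J.T φ ↔
      Intl J.E (fun x => (φ x).1) ∧ Continuous fun x => J.rI (φ (J.eA s x)) := by
  refine and_congr_right' ?_
  rw [(J.eA s).surjective.forall, Metric.continuous_iff']
  refine forall_congr' fun x => ?_
  rw [J.rI.surjective.forall]
  refine forall_congr' fun ε => imp_congr ?_ ?_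
  · rw [← map_zero J.rI]; exact (map_lt_map_iff J.rI).symm
  · rw [J.nhd' hb]
    refine eventually_congr (Eventually.of_forall fun y => ?_)
    rw [Real.dist_eq, ← map_sub, ← map_abs]
    exact (map_lt_map_iff J.rI).symm

end JS

end Pool.Agent.H40.Js
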