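import Pool.Agent.H40.JzDefs

set_option autoImplicit false

namespace Pool.Agent.H40.Jz

open Pool.Agent.H40.Bspt

variable {M : Type} (E : M → M → Prop)

/-- the countable axiom of multiple choice -/
def CMC : Prop :=
  ∀ σ : Om E → M, Intl E σ → (∀ n, ∃ x, E x (σ n)) → ∃ τ : Om E → M, Intl E τ ∧
    ∀ n, Sub E (τ n) (σ n) ∧ IsFin E (τ n) ∧ ∃ x, E x (τ n)

/-- `F` is a filter in the family of sets with property `𝒵` -/
def Filt (𝒵 : M → Prop) (F : M) : Prop :=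
  (∀ Z, E Z F → 𝒵 Z) ∧ (∃ Z, E Z F) ∧ (∀ Z, E Z F → ∃ x, E x Z) ∧
    (∀ U V W, E U F → E V F → (∀ z, E z W ↔ E z U ∧ E z V) → E W F) ∧
    ∀ U W, E U F → 𝒵 W → Sub E U W → E W F

/-- the countable intersection property -/
def Cip (F : M) : Prop := ∀ C, Sub E C F → Ctbl E C → (∃ U, E U C) → ∃ x, ∀ U, E U C → E x U

def Fixed (F : M) : Prop := ∃ x, ∀ U, E U F → E x U

/-- `σ` is a sequence in the model with union `X` -/
def Covers (σ : Om E → M) (X : M) : Prop := Intl E σ ∧ ∀ x, E x X ↔ ∃ n, E x (σ n)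

end Pool.Agent.H40.Jz
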