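import Pool.Agent.H40.Js6
import Pool.Agent.H40.JzDefs2

set_option autoImplicit false

/-! Sequences, compactness properties and their failure in the transferred model. -/

namespace Pool.Agent.H40.Js

open Set Filter
open Pool.Agent.H40.Bspt Pool.Agent.H40.Jz

/-- the normal filter generated by the pointwise stabilisers of invariant blocks -/
@[reducible] def blockNF (Λ : Type) [Group Λ] {A ι : Type} [MulAction Λ A] (K : ι → Set A)
    (hK : ∀ (g : Λ) i, ∀ x ∈ K i, g • x ∈ K i) : NF Λ where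
  F := ⨅ i, ⨅ (_ : True), 𝓟 {g | ∀ x ∈ K i, g • x = x}
  conj h := tendsto_iInf.2 fun i => tendsto_iInf.2 fun _ => tendsto_principal.2
    (mem_iInf_of_mem i (mem_iInf_of_mem trivial fun g (hg : ∀ x ∈ K i, g • x = x) x hx => by
      rw [mul_smul, mul_smul, hg _ (hK h i x hx), inv_smul_smul]))
  inv := tendsto_iInf.2 fun i => tendsto_iInf.2 fun _ => tendsto_principal.2
    (mem_iInf_of_mem i (mem_iInf_of_mem trivial fun g (hg : ∀ x ∈ K i, g • x = x) x hx => by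
      rw [inv_smul_eq_iff, hg x hx]))

theorem block_iff {Λ : Type} [Group Λ] {A ι : Type} [MulAction Λ A] {K : ι → Set A}
    {p : Λ → Prop} :
    (∀ᶠ g in ⨅ i, ⨅ (_ : True), 𝓟 {g : Λ | ∀ x ∈ K i, g • x = x}, p g) ↔
      ∃ F : Set ι, F.Finite ∧ ∀ g : Λ, (∀ i ∈ F, ∀ x ∈ K i, g • x = x) → p g :=
  mem_biInf_principal.trans (exists_congr fun _ => and_congr_right'
    ⟨fun h _ hg => h.2 (mem_iInter₂.2 hg), fun h => ⟨fun _ _ => trivial,
      fun g hg => h g (mem_iInter₂.1 hg)⟩⟩)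

variable {Λ : Type} [Group Λ] [NF Λ] {A : Type} [MulAction Λ A]

namespace JS

variable (J : JS Λ A)

theorem intl_seq {t : Ty} {σ : ℕ → El Λ A t} (h : ∀ᶠ g in NF.F (Γ := Λ), ∀ n, g • σ n = σ n) :
    Intl J.E fun n : Om J.E => J.ν t (σ (J.omE.symm n)) :=
  J.intl_of (s := .n) univ σ (h.mono fun _ hg n _ => ⟨trivial, (hg n).symm⟩)
    fun z => ⟨_, trivial, J.omE_symm z, rfl⟩

theorem seq_sym {t : Ty} {τ : Om J.E → J.M} (h : Intl J.E τ) {σ : ℕ → El Λ A t}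
    (e : ∀ n, τ (J.omE n) = J.ν t (σ n)) : ∀ᶠ g in NF.F (Γ := Λ), ∀ n, g • σ n = σ n := by
  filter_upwards [J.intl_sym (s := .n) (t := t) h] with g hg n
  exact J.inj t ((hg (J.omE n) (J.omE n) n _ rfl rfl (e n)).symm.trans (e n))

theorem ctbl_seq {t : Ty} {σ : ℕ → El Λ A t} (h : ∀ᶠ g in NF.F (Γ := Λ), ∀ n, g • σ n = σ n) :
    ∃ c : PS Λ (El Λ A t), c.1 = range σ ∧ Ctbl J.E (J.ν (.w t) c) := by
  have : Nonempty (El Λ A .n) := ⟨(0 : ℕ)⟩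
  have h1 : ∀ᶠ g in NF.F (Γ := Λ), ∀ x ∈ range σ, g • x = x :=
    h.mono fun g hg => forall_mem_range.2 hg
  let c : PS Λ (El Λ A t) := ⟨range σ, sym_of (h1.mono fun g hg x hx => by rwa [hg x hx])⟩
  refine ⟨c, rfl, fun z => J.omE (Function.invFun σ ((J.exE c).symm z).1), ?_, fun z w e => ?_⟩
  · exact J.intl_of (t := .n) (range σ) (Function.invFun σ) (h1.mono fun g hg x hx => by
      rw [hg x hx]; exact ⟨hx, rfl⟩) fun z => ⟨_, ((J.exE c).symm z).2, J.exE_symm _ z, rfl⟩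
  · refine (J.exE c).symm.injective (Subtype.ext ?_)
    rw [← Function.invFun_eq ((J.exE c).symm z).2, J.omE.injective e,
      Function.invFun_eq ((J.exE c).symm w).2]

theorem ctblS {σ : ℕ → PS Λ A} (h : ∀ᶠ g in NF.F (Γ := Λ), ∀ n, g • σ n = σ n) :
    ∃ C, Ctbl J.E C ∧ (∀ n, J.E (J.sA (σ n)) C) ∧
      ∀ Q : J.M → Prop, (∀ n, Q (J.sA (σ n))) → ∀ U, J.E U C → Q U := by
  obtain ⟨c, h1, h2⟩ := J.ctbl_seq (t := .w .a) h
  refine ⟨J.fA c, h2, fun n => J.memS.2 (h1.ge ⟨n, rfl⟩), fun Q hQ => J.allS.2 fun s hs => ?_⟩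
  obtain ⟨n, rfl⟩ := h1.le hs
  exact hQ n

theorem ctbl_el {t : Ty} {c : PS Λ (El Λ A t)} (h : Ctbl J.E (J.ν (.w t) c)) :
    c.1.Countable ∧ ∀ᶠ g in NF.F (Γ := Λ), ∀ x ∈ c.1, g • x = x := by
  obtain ⟨φ, h1, h2⟩ := h
  refine ⟨countable_coe_iff.1 (J.omE.symm.injective.comp (h2.comp (J.exE c).injective)).countable, ?_⟩
  filter_upwards [J.intl_sym (s := t) (t := .n) h1, c.2] with g hg hc x hx
  have := hg (J.exE c ⟨x, hx⟩) (J.exE c ⟨g • x, (hc x).2 hx⟩) x _ rfl rfl (J.omE_symm _)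
  exact congrArg Subtype.val ((J.exE c).injective (h2 (Subtype.ext
    (this.trans (J.omE_symm _).symm))))

theorem sect {p q : J.M → Prop} {a b : J.M} {h : Subtype p → Subtype q → J.M} (hh : Intl2 J.E h)
    (h1 : ∀ x : Subtype p, J.E x.1 a) (h2 : ∀ x j, J.E (h x j) b) (j : Subtype q) :
    Intl J.E fun x => h x j := by
  obtain ⟨H, hH⟩ := hh
  exact J.zf.intl (R := fun x y => Op J.E H x j.1 y)
    (Df.op (Tm.const _) (Tm.var _) (Tm.const _) (Tm.var _)) a b h1 (h2 · j) fun x y _ => hH x j y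

theorem lim {s : PS Λ A} (B : PS Λ (PS Λ A)) (hB : ∀ W ∈ B.1, W.1.Nonempty ∧ W.1 ⊆ s.1)
    (hd : ∀ V ∈ B.1, ∀ W ∈ B.1, ∃ U ∈ B.1, U.1 ⊆ V.1 ∧ U.1 ⊆ W.1) {I b : J.M} {q : J.M → Prop}
    (hq : ∀ y, q y → J.E y b) (h : Ex J.E (J.sA s) → Ex J.E I → Subtype q)
    (hh : Intl2 J.E fun x j => (h x j).1)
    (hc : ∀ j, ∃ W ∈ B.1, ∃ r, ∀ y : s.1, y.1 ∈ W.1 → h (J.eA s y) j = r) :
    ∃ g : Ex J.E I → Subtype q, Intl J.E (fun j => (g j).1) ∧ ∀ F, IsFin J.E F → ∀ W ∈ B.1,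
      ∃ y : s.1, y.1 ∈ W.1 ∧ ∀ j : Ex J.E I, J.E j.1 F → h (J.eA s y) j = g j := by
  choose W hW g hg using hc
  obtain ⟨H, hH⟩ := hh
  refine ⟨g, J.zf.intl (R := fun j y => ∃ V, J.E V (J.fA B) ∧ ∀ x, J.E x V → Op J.E H x j y)
    (Df.ex' ((Df.mem' (Tm.var _) (Tm.const _)).and (Df.all' ((Df.mem' (Tm.var _) (Tm.var _)).imp
      (Df.op (Tm.const _) (Tm.var _) (Tm.var _) (Tm.var _)))))) I b (·.2) (fun j => hq _ (g j).2)
      fun j y _ => ?_, fun F hF V hV => ?_⟩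
  · rw [J.exS]
    refine ⟨fun ⟨V, h1, h2⟩ => ?_, fun e => ⟨W j, hW j, J.allA.2 fun x hx => ?_⟩⟩
    · obtain ⟨U, h3, h4, h5⟩ := hd V h1 _ (hW j)
      obtain ⟨⟨x, hx⟩, h6⟩ := hB U h3
      rw [← hg j ⟨x, h6 hx⟩ (h5 hx)]
      exact (hH (J.eA s ⟨x, h6 hx⟩) j y).1 (J.allA.1 h2 x (h4 hx))
    · rw [e, ← hg j ⟨x, (hB _ (hW j)).2 hx⟩ hx]
      exact (hH (J.eA s ⟨x, _⟩) j _).2 rfl
  · have key : ∀ G : Set (Ex J.E I), G.Finite → ∃ U ∈ B.1, U.1 ⊆ V.1 ∧ ∀ j ∈ G, U.1 ⊆ (W j).1 := by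
      intro G hG
      induction G, hG using Set.Finite.induction_on with
      | empty => exact ⟨V, hV, subset_rfl, fun _ h => h.elim⟩
      | @insert j G _ _ ih =>
        obtain ⟨U, h1, h2, h3⟩ := ih
        obtain ⟨U', h4, h5, h6⟩ := hd U h1 _ (hW j)
        exact ⟨U', h4, h5.trans h2, forall_mem_insert.2 ⟨h6, fun k hk => h5.trans (h3 k hk)⟩⟩
    obtain ⟨U, h1, h2, h3⟩ := key _ ((J.fin_ext hF).preimage Subtype.val_injective.injOn)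
    obtain ⟨⟨x, hx⟩, h6⟩ := hB U h1
    exact ⟨⟨x, h6 hx⟩, h2 hx, fun j hj => hg j _ (h3 j hj hx)⟩

variable [TopologicalSpace A] [ContinuousConstSMul Λ A]

noncomputable def lift (s : PS Λ A) (f : A → ℝ) (z : Ex J.E (J.sA s)) : Ex J.E J.reals.R :=
  J.rI.symm (f ((J.eA s).symm z).1)

theorem rI_lift {s : PS Λ A} {f : A → ℝ} (x : s.1) : J.rI (J.lift s f (J.eA s x)) = f x.1 := by
  simp [lift]

theorem lift_zero {s : PS Λ A} {f : A → ℝ} {x : s.1} : J.lift s f (J.eA s x) = 0 ↔ f x.1 = 0 := by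
  rw [← J.rI_lift (f := f), map_eq_zero_iff J.rI J.rI.injective]

theorem cont_of (hb : SB Λ A) {s : PS Λ A} {f : A → ℝ} (h1 : ContinuousOn f s.1)
    (h2 : ∀ᶠ g in NF.F (Γ := Λ), ∀ x ∈ s.1, f (g • x) = f x) :
    Cont J.reals (J.sA s) J.T (J.lift s f) := by
  refine (J.cont_iff hb).2 ⟨J.intl_real (s := .a) s.1 f ?_ fun z => ?_, ?_⟩
  · filter_upwards [h2, s.2] with g a b x hx using ⟨(b x).2 hx, a x hx⟩
  · obtain ⟨x, rfl⟩ := (J.eA s).surjective z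
    exact ⟨x.1, x.2, rfl, J.rI_lift x⟩
  · simp only [rI_lift]
    exact h1.domRestrict

theorem cont_el (hb : SB Λ A) {s : PS Λ A} {φ : Ex J.E (J.sA s) → Ex J.E J.reals.R}
    (h : Cont J.reals (J.sA s) J.T φ) : ∃ f : A → ℝ, ContinuousOn f s.1 ∧
      (∀ᶠ g in NF.F (Γ := Λ), ∀ x ∈ s.1, f (g • x) = f x) ∧ φ = J.lift s f := by
  classical
  let f : A → ℝ := fun x => if hx : x ∈ s.1 then J.rI (φ (J.eA s ⟨x, hx⟩)) else 0
  have hf : ∀ x : s.1, f x = J.rI (φ (J.eA s x)) := fun x => dif_pos x.2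
  refine ⟨f, continuousOn_iff_continuous_domRestrict.2 (((J.cont_iff hb).1 h).2.congr
    fun x => (hf x).symm), ?_, funext fun z => J.rI.injective ?_⟩
  · filter_upwards [J.real_sym (s := .a) h.1, s.2] with g a b x hx
    exact (hf ⟨_, (b x).2 hx⟩).trans ((congrArg J.rI (a (J.eA s ⟨x, hx⟩) _ x rfl rfl)).trans
      (hf ⟨x, hx⟩).symm)
  · obtain ⟨x, rfl⟩ := (J.eA s).surjective z
    exact (hf x).symm.trans (J.rI_lift x).symm

theorem zero_of (hb : SB Λ A) {s z : PS Λ A} {f : A → ℝ} (h1 : ContinuousOn f s.1)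
    (h2 : ∀ᶠ g in NF.F (Γ := Λ), ∀ x ∈ s.1, f (g • x) = f x) (h3 : z.1 ⊆ s.1)
    (h4 : ∀ x ∈ s.1, x ∈ z.1 ↔ f x = 0) : ZeroSet J.reals (J.sA s) J.T (J.sA z) :=
  ⟨J.subA_iff.2 h3, _, J.cont_of hb h1 h2, (J.eA s).surjective.forall.2 fun x =>
    J.memA.trans ((h4 x.1 x.2).trans J.lift_zero.symm)⟩

theorem zero_el (hb : SB Λ A) {s : PS Λ A} {Z : J.M} (h : ZeroSet J.reals (J.sA s) J.T Z) :
    ∃ (z : PS Λ A) (f : A → ℝ), Z = J.sA z ∧ ContinuousOn f s.1 ∧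
      (∀ᶠ g in NF.F (Γ := Λ), ∀ x ∈ s.1, f (g • x) = f x) ∧ z.1 ⊆ s.1 ∧
      ∀ x ∈ s.1, x ∈ z.1 ↔ f x = 0 := by
  obtain ⟨h1, φ, h2, h3⟩ := h
  obtain ⟨z, h4, rfl⟩ := J.subA h1
  obtain ⟨f, h5, h6, rfl⟩ := J.cont_el hb h2
  exact ⟨z, f, rfl, h5, h6, h4, fun x hx =>
    J.memA.symm.trans ((h3 (J.eA s ⟨x, hx⟩)).trans J.lift_zero)⟩

theorem tych [T2Space A] (hb : SB Λ A) (s : PS Λ A) : Tychonoff J.reals (J.sA s) J.T := by
  classical
  refine ⟨J.t1 hb s, fun F x hF hx => ?_⟩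
  obtain ⟨c, rfl, h1, h2⟩ := J.closed_el hF
  obtain ⟨x, rfl⟩ := (J.eA s).surjective x
  obtain ⟨U, h3, h4, h5⟩ := mem_nhds_iff.1 (h2 x.1 x.2 fun e => hx (J.memA.2 e))
  obtain ⟨C, h6, h7, h8⟩ := hb U x h4 h5
  refine ⟨J.lift s fun y => if y ∈ C.1 then 0 else 1, J.cont_of hb (Continuous.continuousOn
    (continuous_const.if (by simp [h6.frontier_eq]) continuous_const))
    (C.2.mono fun g hg y _ => if_congr (hg y) rfl rfl), fun y => ?_, J.lift_zero.2 (if_pos h7),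
    (J.eA s).surjective.forall.2 fun y hy => J.rI.injective ?_⟩
  · simp only [lift]
    split_ifs <;> simp
  · exact (J.rI_lift y).trans ((if_neg fun e => h3 (h8 e) (J.memA.1 hy)).trans (map_one J.rI).symm)

def coN : PS Λ (PS Λ A) :=
  ⟨{U | IsClopen U.1}, sym_all fun g _ h => h.preimage (continuous_const_smul g⁻¹)⟩

theorem emb [T2Space A] (hb : SB Λ A) (s : PS Λ A) {Y : Type} (a b : Y) (hab : a ≠ b) :
    ∃ h : Ex J.E (J.sA s) → Ex J.E (J.fA coN) → Y,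
      (∀ {t : Ty} (c : Y → El Λ A t), (∀ (g : Λ) y, g • c y = c y) →
        Intl2 J.E fun x j => J.ν t (c (h x j))) ∧
      Function.Injective h ∧ (∀ j, IsLocallyConstant fun x => h (J.eA s x) j) ∧
      ∀ U (x : Ex J.E (J.sA s)), J.E U J.T → J.E x.1 U → ∃ j, h x j = a ∧
        ∀ y, h y j ≠ b → J.E y.1 U := by
  classical
  refine ⟨fun x j => if J.E x.1 j.1 then a else b, fun c hc => ?_, fun x y e => ?_,
    fun j => ?_, fun U x hU hx => ?_⟩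
  · refine J.intl2_of (s := .a) (t := .w .a) univ
      (fun z : A × PS Λ A => c (if z.1 ∈ z.2.1 then a else b))
      (Eventually.of_forall fun g z _ => ⟨trivial, ?_⟩) fun x j => ?_
    · rw [hc]
      exact congrArg c (if_congr smul_mem rfl rfl)
    · obtain ⟨x, rfl⟩ := (J.eA s).surjective x
      obtain ⟨j, rfl⟩ := (J.eS _).surjective j
      exact ⟨(x.1, j.1), trivial, rfl, rfl, congrArg (fun y => J.ν _ (c y))
        (if_congr J.memA rfl rfl)⟩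
  · obtain ⟨x, rfl⟩ := (J.eA s).surjective x
    obtain ⟨y, rfl⟩ := (J.eA s).surjective y
    by_contra hc
    obtain ⟨C, h1, h2, h3⟩ := hb {y.1}ᶜ x isOpen_compl_singleton
      fun e => hc (congrArg _ (Subtype.ext e))
    exact hab ((if_pos (J.memA.2 h2)).symm.trans ((congrFun e (J.eS _ ⟨C, h1⟩)).trans
      (if_neg fun e => h3 (J.memA.1 e) rfl)))
  · obtain ⟨j, rfl⟩ := (J.eS _).surjective j
    refine (IsLocallyConstant.iff_eventually_eq _).2 fun x => ?_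
    have h := j.2.preimage (continuous_subtype_val (p := (· ∈ s.1)))
    by_cases e : x.1 ∈ j.1.1
    · filter_upwards [h.2.mem_nhds (x := x) e] with y hy
      exact (if_pos (J.memA.2 hy)).trans (if_pos (J.memA.2 e)).symm
    · filter_upwards [h.1.isOpen_compl.mem_nhds (x := x) e] with y hy
      exact (if_neg fun a => hy (J.memA.1 a)).trans (if_neg fun a => e (J.memA.1 a)).symm
  · obtain ⟨u, hu, rfl⟩ := J.elT hU
    obtain ⟨x, rfl⟩ := (J.eA s).surjective x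
    obtain ⟨C, h1, h2, h3⟩ := hb u.1 x hu (J.memA.1 hx)
    exact ⟨J.eS _ ⟨C, h1⟩, if_pos (J.memA.2 h2), fun y hy => J.subA_iff.2 h3 _
      (not_not.1 fun e => hy (if_neg e))⟩

theorem fip {s : PS Λ A} (hs : IsCompact s.1) {ι : Type} (Q : ι → Ex J.E (J.sA s) → Prop)
    (h1 : ∀ i, IsClosed {x : s.1 | Q i (J.eA s x)}) (h2 : ∀ u : Finset ι, ∃ x, ∀ i ∈ u, Q i x) :
    ∃ x, ∀ i, Q i x := by
  have := isCompact_iff_compactSpace.1 hs
  obtain ⟨x, -, hx⟩ := isCompact_univ.inter_iInter_nonempty _ h1 fun u => by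
    obtain ⟨x, hx⟩ := h2 u
    obtain ⟨x, rfl⟩ := (J.eA s).surjective x
    exact ⟨x, trivial, mem_iInter₂.2 hx⟩
  exact ⟨_, fun i => mem_iInter.1 hx i⟩

theorem rc_of_compact [T2Space A] (hb : SB Λ A) {s : PS Λ A} (hs : IsCompact s.1) :
    Realcompact J.reals (J.sA s) J.T := by
  obtain ⟨h, h1, h2, h3, h4⟩ := J.emb hb s (1 : Ex J.E J.reals.R) 0 one_ne_zero
  refine ⟨_, h, ?_, h2, fun x j ε hε => ?_, fun U x hU hx => ?_, fun g _ hg => ?_⟩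
  · simpa only [← J.rI_val] using h1 (t := .w .n) (fun y => rho (J.rI y)) fun _ _ => rfl
  · obtain ⟨x, rfl⟩ := (J.eA s).surjective x
    exact (J.nhd' hb).2 (((h3 j).eventually_eq x).mono fun y hy => by simpa [hy] using hε)
  · obtain ⟨j, a, b⟩ := h4 U x hU hx
    obtain ⟨F, c, d⟩ := J.ex_fin (finite_singleton j.1)
    exact ⟨F, c, 1, one_pos, fun y hy => b y fun e => by simpa [a, e] using hy j ((d _).2 rfl)⟩
  · obtain ⟨x, hx⟩ := J.fip hs (fun (i : _ × Ioi (0 : Ex J.E J.reals.R)) x =>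
      |h x i.1 - g i.1| < i.2) (fun i => ⟨h3 i.1 {r | |r - g i.1| < i.2}ᶜ⟩)
      fun u => by
        obtain ⟨F, c, d⟩ := J.ex_fin (u.finite_toSet.image fun i => i.1.1)
        obtain ⟨ε, a, b⟩ : ∃ ε > 0, ∀ i ∈ u, ε ≤ i.2.1 := by
          rcases u.eq_empty_or_nonempty with rfl | hu
          · exact ⟨1, one_pos, by simp⟩
          · obtain ⟨i, -, hi⟩ := u.exists_min_image (fun i => i.2.1) hu
            exact ⟨_, i.2.2, hi⟩
        exact (hg F c ε a).imp fun x hx i hi => (hx i.1 ((d _).2 ⟨i, hi, rfl⟩)).trans_le (b i hi)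
    refine ⟨x, funext fun j => sub_eq_zero.1 ?_⟩
    exact abs_nonpos_iff.1 (le_of_forall_gt fun ε hε => hx (j, ⟨ε, hε⟩))

theorem nc_of_compact [T2Space A] (hb : SB Λ A) {s : PS Λ A} (hs : IsCompact s.1) :
    NCompact J.E (J.sA s) J.T := by
  obtain ⟨h, h1, h2, h3, h4⟩ := J.emb hb s (J.omE 1) (J.omE 0) (by simp)
  refine ⟨_, h, ⟨J.sA unA, J.memS.2 (isClopen_univ (X := A))⟩, ?_, h2, fun x j => ?_,
    fun U x hU hx => ?_, fun g _ hg => ?_⟩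
  · simpa only [← J.omE_symm] using h1 (t := .n) J.omE.symm fun _ _ => rfl
  · obtain ⟨x, rfl⟩ := (J.eA s).surjective x
    exact (J.nhd' hb).2 ((h3 j).eventually_eq x)
  · obtain ⟨j, a, b⟩ := h4 U x hU hx
    obtain ⟨F, c, d⟩ := J.ex_fin (finite_singleton j.1)
    exact ⟨F, c, fun y hy => b y fun e => by simpa [a, e] using hy j ((d _).2 rfl)⟩
  · obtain ⟨x, hx⟩ := J.fip hs (fun j x => h x j = g j) (fun j => (h3 j).isClosed_fiber _)
      fun u => by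
        obtain ⟨F, c, d⟩ := J.ex_fin (u.finite_toSet.image fun i => i.1)
        exact (hg F c).imp fun x hx i hi => hx i ((d _).2 ⟨i, hi, rfl⟩)
    exact ⟨x, funext hx⟩

/-- a filter base without limit along which symmetric continuous functions are finally constant -/
structure Bad (s : PS Λ A) (B : PS Λ (PS Λ A)) : Prop where
  ne : ∀ W ∈ B.1, W.1.Nonempty ∧ W.1 ⊆ s.1
  dir : ∀ V ∈ B.1, ∀ W ∈ B.1, ∃ U ∈ B.1, U.1 ⊆ V.1 ∧ U.1 ⊆ W.1
  ex : B.1.Nonempty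
  con : ∀ f : A → ℝ, ContinuousOn f s.1 → (∀ᶠ g in NF.F (Γ := Λ), ∀ x ∈ s.1, f (g • x) = f x) →
    ∃ W ∈ B.1, ∃ r, ∀ y ∈ W.1, f y = r
  nl : ∀ x ∈ s.1, ∃ W ∈ B.1, W.1ᶜ ∈ nhds x

theorem bad_con (hb : SB Λ A) {s : PS Λ A} {B : PS Λ (PS Λ A)} (h : Bad s B)
    {φ : Ex J.E (J.sA s) → Ex J.E J.reals.R} (hφ : Cont J.reals (J.sA s) J.T φ) :
    ∃ W ∈ B.1, ∃ r, ∀ y : s.1, y.1 ∈ W.1 → φ (J.eA s y) = r := by
  obtain ⟨f, h1, h2, rfl⟩ := J.cont_el hb hφ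
  obtain ⟨W, h3, r, h4⟩ := h.con f h1 h2
  exact ⟨W, h3, J.rI.symm r, fun y hy => J.rI.injective (by simp [rI_lift, h4 _ hy])⟩

theorem bad_nhd (hb : SB Λ A) {s : PS Λ A} {B : PS Λ (PS Λ A)} (h : Bad s B)
    (x : Ex J.E (J.sA s)) : ∃ U, J.E U J.T ∧ J.E x.1 U ∧ ∃ W ∈ B.1, ∀ y ∈ W.1, ¬ J.E (J.nA y) U := by
  obtain ⟨x, rfl⟩ := (J.eA s).surjective x
  obtain ⟨W, h1, h2⟩ := h.nl x.1 x.2
  obtain ⟨U, h3, h4, h5⟩ := (J.nhd hb (s := W) (Q := fun _ => False)).2 h2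
  exact ⟨U, h3, h4, W, h1, fun y hy => h5 _ (J.memA.2 hy)⟩

theorem not_rc (hb : SB Λ A) {s : PS Λ A} {B : PS Λ (PS Λ A)} (h : Bad s B) :
    ¬ Realcompact J.reals (J.sA s) J.T := by
  rintro ⟨I, k, h1, -, h2, h3, h4⟩
  obtain ⟨g, h5, h6⟩ := J.lim B h.ne h.dir (fun _ => id) k h1 fun j =>
    J.bad_con hb h ⟨J.sect h1 (·.2) (fun x j => (k x j).2) j, fun x => h2 x j⟩
  obtain ⟨W, hW⟩ := h.ex
  obtain ⟨x, rfl⟩ := h4 g h5 fun F hF ε hε => (h6 F hF W hW).elim fun y hy =>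
    ⟨J.eA s y, fun j hj => by simpa [hy.2 j hj] using hε⟩
  obtain ⟨U, h7, h8, V, h9, h10⟩ := J.bad_nhd hb h x
  obtain ⟨F, hF, ε, hε, h11⟩ := h3 U x h7 h8
  obtain ⟨y, a, b⟩ := h6 F hF V h9
  exact h10 y a (h11 (J.eA s y) fun j hj => by simpa [b j hj] using hε)

theorem not_nc (hb : SB Λ A) {s : PS Λ A} {B : PS Λ (PS Λ A)} (h : Bad s B) :
    ¬ NCompact J.E (J.sA s) J.T := by
  rintro ⟨I, k, -, h1, -, h2, h3, h4⟩
  obtain ⟨w, hw⟩ := J.zf.omega'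
  obtain ⟨g, h5, h6⟩ := J.lim B h.ne h.dir (fun y => (hw y).2) k h1 fun j => by
    have hi : Intl J.E fun x => (((J.omE.symm (k x j) : ℕ) : Ex J.E J.reals.R)).1 := by
      classical
      refine J.intl_real (s := .a) s.1
        (fun x : A => if hx : x ∈ s.1 then (J.omE.symm (k (J.eA s ⟨x, hx⟩) j) : ℕ) else 0) ?_
        fun z => ?_
      · filter_upwards [J.intl_sym (s := .a) (t := .n) (J.sect h1 (·.2)
          (fun x j => (hw _).2 (k x j).2) j), s.2] with g a b x hx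
        refine ⟨(b x).2 hx, (dif_pos ((b x).2 hx)).trans (Eq.trans ?_ (dif_pos hx).symm)⟩
        exact congrArg (fun y => ((J.omE.symm y : ℕ) : ℝ)) (Subtype.ext
          ((a (J.eA s ⟨x, hx⟩) _ x _ rfl rfl (J.omE_symm _)).trans (J.omE_symm _).symm))
      · obtain ⟨x, rfl⟩ := (J.eA s).surjective z
        exact ⟨x.1, x.2, rfl, (map_natCast J.rI _).trans (by rw [dif_pos x.2])⟩
    obtain ⟨W, a, r, b⟩ := J.bad_con hb h (φ := fun x => (J.omE.symm (k x j) : ℕ)) ⟨hi, fun x ε hε =>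
      (h2 x j).imp fun U hU => ⟨hU.1, hU.2.1, fun y hy => by simpa [hU.2.2 y hy] using hε⟩⟩
    obtain ⟨⟨y, c⟩, d⟩ := h.ne W a
    exact ⟨W, a, _, fun z e => J.omE.symm.injective (Nat.cast_injective (R := Ex J.E J.reals.R)
      ((b z e).trans (b ⟨y, d c⟩ c).symm))⟩
  obtain ⟨W, hW⟩ := h.ex
  obtain ⟨x, rfl⟩ := h4 g h5 fun F hF => (h6 F hF W hW).elim fun y hy => ⟨_, hy.2⟩
  obtain ⟨U, h7, h8, V, h9, h10⟩ := J.bad_nhd hb h x
  obtain ⟨F, hF, h11⟩ := h3 U x h7 h8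
  obtain ⟨y, a, b⟩ := h6 F hF V h9
  exact h10 y a (h11 _ b)

end JS

end Pool.Agent.H40.Js
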