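import Pool.Agent.H40.JzDefs

set_option autoImplicit false

namespace Pool.Agent.H40.Jz

open Pool.Agent.H40.Bspt

variable {M : Type} (E : M → M → Prop)

/-- `u = {a, b}` -/
def Upair (u a b : M) : Prop := ∀ z, E z u ↔ z = a ∨ z = b

/-- `u ∈ [X]²` -/
def Two (X u : M) : Prop := ∃ a b, E a X ∧ E b X ∧ a ≠ b ∧ Upair E u a b

/-- Ramsey's theorem for pairs from `X` and the set of colours `n` -/
def RT (X n : M) : Prop :=
  ∀ c : {u // Two E X u} → Ex E n, Intl E (fun u => (c u).1) →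
    ∃ Y, Sub E Y X ∧ ¬ IsFin E Y ∧ ∃ k, ∀ u, Sub E u.1 Y → c u = k

/-- `l` is a strict linear order on `Y` -/
def Lin (l Y : M) : Prop :=
  (∀ a, E a Y → ¬ App E l a a) ∧
    (∀ a b c, E a Y → E b Y → E c Y → App E l a b → App E l b c → App E l a c) ∧
    ∀ a b, E a Y → E b Y → a ≠ b → App E l a b ∨ App E l b a

/-- for `a₁ < b₁`, `a₂ < b₂` in `Y`, the colours agree exactly when `P a₁ b₁ a₂ b₂` -/
def Canon {X : M} (f : {u // Two E X u} → M) (Y l : M) (P : M → M → M → M → Prop) : Prop :=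
  ∀ (a₁ b₁ a₂ b₂ : M) (u₁ u₂ : {u // Two E X u}), E a₁ Y → E b₁ Y → E a₂ Y → E b₂ Y →
    App E l a₁ b₁ → App E l a₂ b₂ → Upair E u₁.1 a₁ b₁ → Upair E u₂.1 a₂ b₂ →
      (f u₁ = f u₂ ↔ P a₁ b₁ a₂ b₂)

/-- the canonical Ramsey theorem for pairs from `X` -/
def CRT (X : M) : Prop :=
  ∀ f : {u // Two E X u} → M, Intl E f → ∃ Y l, Sub E Y X ∧ ¬ IsFin E Y ∧ Lin E l Y ∧
    (Canon E f Y l (fun _ _ _ _ => True) ∨ Canon E f Y l (fun a _ a' _ => a = a') ∨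
      Canon E f Y l (fun _ b _ b' => b = b') ∨ Canon E f Y l fun a b a' b' => a = a' ∧ b = b')

/-- `ν n` is the `n`-th natural number of the model, and these are all its natural numbers -/
def Numer (ν : ℕ → M) : Prop :=
  (∀ n z, E z (ν n) ↔ ∃ m < n, z = ν m) ∧ ∀ a, IsNat E a ↔ ∃ n, a = ν n

/-- the elements with property `P` are contained in a finite set -/
def Few (P : M → Prop) : Prop := ∃ D, IsFin E D ∧ ∀ z, P z → E z D

/-- `V` is a filterbase in `A` -/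
def Fb (A V : M) : Prop :=
  (∃ U, E U V) ∧ (∀ U, E U V → Sub E U A ∧ ∃ x, E x U) ∧
    ∀ U W, E U V → E W V → ∃ Z, E Z V ∧ Sub E Z U ∧ Sub E Z W

/-- a filterbase closed under finite unions and intersections, whose members are infinite and
differ by finite sets -/
def Gfb (A V : M) : Prop :=
  Fb E A V ∧ (∀ U W Z, E U V → E W V → (∀ x, E x Z ↔ E x U ∨ E x W) → E Z V) ∧
    (∀ U W Z, E U V → E W V → (∀ x, E x Z ↔ E x U ∧ E x W) → E Z V) ∧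
    (∀ U, E U V → ¬ IsFin E U) ∧ ∀ U W, E U V → E W V → Few E fun x => E x U ∧ ¬ E x W

variable (ν : ℕ → M)

/-- the sequence `σ` is a set of the model -/
def Seq (σ : ℕ → M) : Prop := ∃ f, ∀ n y, App E f (ν n) y ↔ y = σ n

/-- filterbase infinite -/
def FBI (A : M) : Prop :=
  ∃ V : ℕ → M, Seq E ν V ∧ (∀ i, Fb E A (V i) ∧ ¬ ∃ x, ∀ U, E U (V i) → E x U) ∧
    ∀ i j, i ≠ j → ∃ U W, E U (V i) ∧ E W (V j) ∧ ∀ x, E x U → ¬ E x W

/-- strongly filterbase infinite -/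
def SFBI (A : M) : Prop :=
  ∃ V : ℕ → M, Seq E ν V ∧ (∀ i, Gfb E A (V i)) ∧
    (∀ i j, i ≠ j → ∃ U W, E U (V i) ∧ E W (V j) ∧ Few E fun x => E x U ∧ E x W) ∧
    ∀ (n : ℕ) (U : ℕ → M), (∀ i < n, E (U i) (V i)) →
      ¬ Few E fun x => E x A ∧ ∀ i < n, ¬ E x (U i)

/-- dyadically filterbase infinite -/
def DFBI (A : M) : Prop :=
  ∃ V : ℕ → ℕ → M,
    (∃ f, ∀ n i, 1 ≤ n → 1 ≤ i → i ≤ 2 ^ n → ∀ y, Op E f (ν n) (ν i) y ↔ y = V n i) ∧
    ∀ n, 1 ≤ n → (∀ i, 1 ≤ i → i ≤ 2 ^ n → Gfb E A (V n i)) ∧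
      (∀ i j, 1 ≤ i → i ≤ 2 ^ n → 1 ≤ j → j ≤ 2 ^ n → i ≠ j → ∀ W G, E W (V n i) → E G (V n j) →
        ∃ U U', E U (V (n + 1) (2 * i - 1)) ∧ E U' (V (n + 1) (2 * i)) ∧
          (Few E fun x => (E x U ∨ E x U') ∧ ¬ E x W) ∧ Few E fun x => (E x U ∨ E x U') ∧ E x G) ∧
      ∀ U : ℕ → M, (∀ i, 1 ≤ i → i ≤ 2 ^ n → E (U i) (V n i)) →
        Few E fun x => E x A ∧ ∀ i, 1 ≤ i → i ≤ 2 ^ n → ¬ E x (U i)

/-- weakly Dedekind-finite: no injective sequence of subsets of `A` -/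
def WDF (A : M) : Prop :=
  ¬ ∃ σ : ℕ → M, Seq E ν σ ∧ (∀ n, Sub E (σ n) A) ∧ Function.Injective σ

/-- every nonempty countable intersection of open sets is a neighbourhood of each of its points -/
def PSpace (X T : M) : Prop :=
  ∀ C, Sub E C T → Ctbl E C → (∃ U, E U C) → ∀ x, E x X → (∀ U, E U C → E x U) →
    ∃ V, E V T ∧ E x V ∧ ∀ y, E y V → ∀ U, E U C → E y U

/-- `(P, T)` is the topological product of `(X, S)` and `(Y, R)` -/
def IsProd (X S Y R P T : M) : Prop :=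
  (∀ p, E p P ↔ ∃ x y, E x X ∧ E y Y ∧ IsPair E p x y) ∧
    ∀ W, E W T ↔ Sub E W P ∧ ∀ x y, App E W x y → ∃ U V, E U S ∧ E V R ∧ E x U ∧ E y V ∧
      ∀ x' y', E x' U → E y' V → App E W x' y'

end Pool.Agent.H40.Jz
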