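import Pool.Agent.H40.Js7
import Pool.Agent.H40.JzDefs3

set_option autoImplicit false

/-! Permutation groups preserving families of sets; filterbases in the transferred model. -/

namespace Pool.Agent.H40.Js

open Set Filter
open Pool.Agent.H40.Bspt Pool.Agent.H40.Jz

section
variable {A ι : Type}

def Pres (Q : ι → Set A → Prop) : Subgroup (Equiv.Perm A) where
  carrier := {π | ∀ i y, Q i (π ⁻¹' y) ↔ Q i y}
  one_mem' _ _ := Iff.rfl
  mul_mem' {a b} ha hb i y := (hb i (a ⁻¹' y)).trans (ha i y)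
  inv_mem' {a} ha i y := by
    rw [← ha i]
    exact iff_of_eq (congrArg _ (Set.ext fun x => by simp))

theorem pres_of {Q : ι → Set A → Prop} {π : Equiv.Perm A} (h : ∀ x, π (π x) = x)
    (h' : ∀ i y, Q i y → Q i (π ⁻¹' y)) : π ∈ Pres Q := fun i y =>
  ⟨fun a => by
    have := h' i _ a
    rwa [show π ⁻¹' (π ⁻¹' y) = y from Set.ext fun x => by simp [h]] at this, h' i y⟩

@[reducible] def presNF (Q : ι → Set A → Prop) (i : ι) : NF (Pres Q) where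
  F := ⨅ y, ⨅ (_ : y ∈ {y | Q i y}), 𝓟 {g | ∀ x, g • x ∈ y ↔ x ∈ y}
  conj h := tendsto_iInf.2 fun y => tendsto_iInf.2 fun hy => tendsto_principal.2
    (mem_iInf_of_mem ((h⁻¹).1 ⁻¹' y) (mem_iInf_of_mem (((h⁻¹).2 i y).2 hy) fun g hg x => by
      rw [mul_smul, mul_smul]
      refine (hg (h • x)).trans ?_
      show h⁻¹ • h • x ∈ y ↔ _
      rw [inv_smul_smul]))
  inv := tendsto_iInf.2 fun y => tendsto_iInf.2 fun hy => tendsto_principal.2
    (mem_iInf_of_mem y (mem_iInf_of_mem hy fun g hg x => by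
      rw [← hg (g⁻¹ • x), smul_inv_smul]))

theorem pres_iff {Q : ι → Set A → Prop} {i : ι} {p : Pres Q → Prop} :
    (∀ᶠ g in (presNF Q i).F, p g) ↔ ∃ F : Set (Set A), F.Finite ∧ (∀ y ∈ F, Q i y) ∧
      ∀ g : Pres Q, (∀ y ∈ F, ∀ x, g.1 x ∈ y ↔ x ∈ y) → p g :=
  mem_biInf_principal.trans (exists_congr fun _ => and_congr_right' (and_congr_right'
    ⟨fun h _ hg => h (mem_iInter₂.2 hg), fun h g hg => h g (mem_iInter₂.1 hg)⟩))

theorem pres_sym {Q : ι → Set A → Prop} {i : ι} {y : Set A} (h : Q i y) :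
    @Sym (Pres Q) _ (presNF Q i) A _ y :=
  pres_iff.2 ⟨{y}, finite_singleton _, fun _ e => e ▸ h, fun _ hg => hg y rfl⟩

theorem pres_fx {Q : ι → Set A → Prop} {i : ι} (h : ∀ a, Q i {a}) (a : A) :
    ∀ᶠ g in (presNF Q i).F, g • a = a :=
  (pres_sym (h a)).mono fun _ hg => (hg a).2 rfl

/-- the family of symmetric sets with an invariant property -/
def qFam (Q : ι → Set A → Prop) [NF (Pres Q)] (j : ι) : PS (Pres Q) (PS (Pres Q) A) :=
  ⟨{U | Q j U.1}, sym_all fun g U h => ((g⁻¹).2 j U.1).2 h⟩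

theorem swap_pres [DecidableEq A] {F : Set (Set A)} {a b : A} (h : ∀ y ∈ F, a ∈ y ↔ b ∈ y) :
    ∀ y ∈ F, ∀ x, Equiv.swap a b x ∈ y ↔ x ∈ y := fun y hy x => by
  rw [Equiv.swap_apply_def]
  split_ifs with h1 h2
  · rw [h1, h y hy]
  · rw [h2, h y hy]
  · rfl

theorem swap_ae [DecidableEq A] (a b : A) (y : Set A) :
    (Equiv.swap a b ⁻¹' y : Set A) =ᶠ[cofinite] y := by
  filter_upwards [eventually_cofinite_ne a, eventually_cofinite_ne b] with x h1 h2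
  show (Equiv.swap a b x ∈ y) = (x ∈ y)
  rw [Equiv.swap_apply_of_ne_of_ne h1 h2]

/-- only finitely many sets are saturated for the types over a finite family -/
theorem fin_sat {F : Set (Set A)} (hF : F.Finite) :
    {s : Set A | ∀ a b, (∀ y ∈ F, a ∈ y ↔ b ∈ y) → a ∈ s → b ∈ s}.Finite := by
  have := hF.to_subtype
  let τ : A → F → Prop := fun a y => a ∈ y.1
  refine (finite_range fun t : Set (F → Prop) => τ ⁻¹' t).subset fun s hs => ⟨τ '' s, ?_⟩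
  refine Set.ext fun b => ⟨fun ⟨a, h, e⟩ => hs a b (fun y hy => ?_) h, fun h => ⟨b, h, rfl⟩⟩
  exact iff_of_eq (congrFun e ⟨y, hy⟩)

end

variable {Λ : Type} [Group Λ] [NF Λ] {A : Type} [MulAction Λ A]

theorem sym_union {X : Type} [MulAction Λ X] {s t : Set X} (hs : Sym Λ s) (ht : Sym Λ t) :
    Sym Λ (s ∪ t) := by
  filter_upwards [hs, ht] with g a b x using or_congr (a x) (b x)

namespace JS

variable (J : JS Λ A)

def nu (n : ℕ) : J.M := J.ν .n n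

theorem numer : Numer J.E J.nu := ⟨J.nat, fun _ => J.nat_iff⟩

theorem seq_of {t : Ty} {σ : ℕ → El Λ A t} (h : ∀ᶠ g in NF.F (Γ := Λ), ∀ n, g • σ n = σ n) :
    Seq J.E J.nu fun n => J.ν t (σ n) := by
  obtain ⟨f, hf⟩ := J.intl_seq h
  exact ⟨f, fun n y => by simpa [omE_val, nu] using hf (J.omE n) y⟩

theorem seq_el {t : Ty} {τ : ℕ → J.M} (h : Seq J.E J.nu τ) {σ : ℕ → El Λ A t}
    (e : ∀ n, τ n = J.ν t (σ n)) : ∀ᶠ g in NF.F (Γ := Λ), ∀ n, g • σ n = σ n := by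
  obtain ⟨f, hf⟩ := h
  refine J.seq_sym (τ := fun n => τ (J.omE.symm n)) ⟨f, fun x y => ?_⟩ fun n => by simp [e]
  rw [J.omE_symm x]
  exact hf _ y

theorem few_iff {P : J.M → Prop} (h : ∀ z, P z → ∃ a, z = J.nA a) :
    Few J.E P ↔ {a | P (J.nA a)}.Finite := by
  constructor
  · rintro ⟨D, h1, h2⟩
    exact ((J.fin_ext h1).preimage J.nA_inj.injOn).subset fun a ha => h2 _ ha
  · intro h1
    obtain ⟨D, h2, h3⟩ := J.ex_fin (h1.image J.nA)
    refine ⟨D, h2, fun z hz => (h3 z).2 ?_⟩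
    obtain ⟨a, rfl⟩ := h z hz
    exact ⟨a, hz, rfl⟩

theorem isA {s : PS Λ A} {z : J.M} (h : J.E z (J.sA s)) : ∃ a, z = J.nA a :=
  (J.elA h).imp fun _ h => h.2

theorem fb_el {V : J.M} (h : Fb J.E (J.sA unA) V) : ∃ v, V = J.fA v :=
  J.sub (.w .a) V fun z hz => (J.subA (h.2.1 z hz).1).imp fun _ h => h.2

theorem fb_of {v : PS Λ (PS Λ A)} (h0 : v.1.Nonempty) (h1 : ∀ U ∈ v.1, U.1.Nonempty)
    (h2 : ∀ U ∈ v.1, ∀ W ∈ v.1, ∀ Z : PS Λ A, Z.1 = U.1 ∩ W.1 → Z ∈ v.1) :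
    Fb J.E (J.sA unA) (J.fA v) := by
  obtain ⟨u, hu⟩ := h0
  refine ⟨⟨_, J.memS.2 hu⟩, J.allS.2 fun U hU => ⟨J.subA_iff.2 (subset_univ _), ?_⟩,
    fun U W hU hW => ?_⟩
  · obtain ⟨x, hx⟩ := h1 U hU
    exact ⟨_, J.memA.2 hx⟩
  · obtain ⟨U, a, rfl⟩ := J.elS hU
    obtain ⟨W, b, rfl⟩ := J.elS hW
    exact ⟨J.sA ⟨_, sym_inter U.2 W.2⟩, J.memS.2 (h2 U a W b _ rfl),
      J.subA_iff.2 inter_subset_left, J.subA_iff.2 inter_subset_right⟩

/-- a class of an infinite set modulo finite sets -/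
theorem gfb_of {v : PS Λ (PS Λ A)} {c : Set A} (hc : c.Infinite) (h0 : Sym Λ c)
    (h : ∀ U, U ∈ v.1 ↔ U.1 =ᶠ[cofinite] c) : Gfb J.E (J.sA unA) (J.fA v) := by
  have inf : ∀ U ∈ v.1, U.1.Infinite := fun U hU e =>
    hc ((e.union ((h U).1 hU)).subset fun x hx => by
      by_cases a : x ∈ U.1
      exacts [Or.inl a, Or.inr fun b => a (Eq.mpr b hx)])
  have int : ∀ U ∈ v.1, ∀ W ∈ v.1, ∀ Z : PS Λ A, Z.1 = U.1 ∩ W.1 → Z ∈ v.1 := fun U a W b Z e => by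
    rw [h, e, ← inter_self c]
    exact ((h U).1 a).inter ((h W).1 b)
  refine ⟨J.fb_of ⟨⟨c, h0⟩, (h _).2 .rfl⟩ (fun U a => (inf U a).nonempty) int,
    fun U W Z hU hW e => ?_, fun U W Z hU hW e => ?_, J.allS.2 fun U a b => inf U a (J.finA.1 b),
    fun U W hU hW => ?_⟩
  all_goals
    obtain ⟨U, -, rfl⟩ := J.elS hU
    obtain ⟨W, -, rfl⟩ := J.elS hW
    rw [J.memS] at hU hW
  · obtain ⟨Z, -, rfl⟩ := J.subA (s := unA) (a := Z) fun z hz =>
      ((e z).1 hz).elim (J.subA_iff.2 (subset_univ _) z) (J.subA_iff.2 (subset_univ _) z)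
    have : Z.1 = U.1 ∪ W.1 := Set.ext fun x => by rw [← J.memA, e, J.memA, J.memA]; rfl
    rw [J.memS, h, this, ← union_self c]
    exact ((h U).1 hU).union ((h W).1 hW)
  · obtain ⟨Z, -, rfl⟩ := J.subA (s := U) (a := Z) fun z hz => ((e z).1 hz).1
    exact J.memS.2 (int U hU W hW Z (Set.ext fun x => by rw [← J.memA, e, J.memA, J.memA]; rfl))
  · rw [J.few_iff fun z h => J.isA h.1]
    simp only [J.memA]
    exact Finite.subset (((h U).1 hU).trans ((h W).1 hW).symm) fun x hx e => hx.2 (Eq.mp e hx.1)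

end JS

end Pool.Agent.H40.Js
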