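import Pool.Agent.H40.Js8

set_option autoImplicit false

/-! Supports that are almost equal to members of a given family. -/

namespace Pool.Agent.H40.Js

open Set Filter
open Pool.Agent.H40.Bspt Pool.Agent.H40.Jz

theorem qFam_fix {A ι : Type} (Q : ι → Set A → Prop) [NF (Pres Q)] (j : ι) (g : Pres Q) :
    g • qFam Q j = qFam Q j :=
  Subtype.ext (Set.ext fun U => by
    rw [Pool.Agent.H40.Js.mem_smul]
    exact ((g⁻¹⁻¹).2 j U.1))

theorem seq2_of {Λ : Type} [Group Λ] [NF Λ] {A : Type} [MulAction Λ A] (J : JS Λ A) {t : Ty}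
    {σ : ℕ → ℕ → El Λ A t} (h : ∀ (g : Λ) n i, g • σ n i = σ n i) :
    ∃ f, ∀ n i y, Op J.E f (J.nu n) (J.nu i) y ↔ y = J.ν t (σ n i) := by
  obtain ⟨f, hf⟩ := J.intl2_of (s := .n) (t := .n) (u := t)
    (φ := fun z w : Om J.E => J.ν t (σ (J.omE.symm z) (J.omE.symm w))) univ (fun p => σ p.1 p.2)
    (Eventually.of_forall fun g x _ => ⟨trivial, (h g _ _).symm⟩) fun z w =>
      ⟨(_, _), trivial, J.omE_symm z, J.omE_symm w, rfl⟩
  exact ⟨f, fun n i y => by simpa [JS.omE_val, JS.nu] using hf (J.omE n) (J.omE i) y⟩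

variable {A κ : Type} (c : κ → Set A)

def Cls : Option κ → Set A → Prop
  | none, y => y.Finite ∨ ∃ k, y =ᶠ[cofinite] c k
  | some k, y => y =ᶠ[cofinite] c k

instance : NF (Pres (Cls c)) := presNF _ none

theorem fin_ae {y z : Set A} (h : y =ᶠ[cofinite] z) (hz : z.Finite) : y.Finite :=
  (hz.union h).subset fun x hx => by
    by_cases a : x ∈ z
    exacts [Or.inl a, Or.inr fun b => a (Eq.mp b hx)]

theorem swap_cls [DecidableEq A] (a b : A) : Equiv.swap a b ∈ Pres (Cls c) :=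
  pres_of (Equiv.swap_apply_self a b) fun i y h => by
    rcases i with _ | k
    · exact h.imp (fin_ae (swap_ae a b y)) fun ⟨k, e⟩ => ⟨k, (swap_ae a b y).trans e⟩
    · exact (swap_ae a b y).trans h

variable {c}

theorem cls_sat {I : Type} {s : I → PS (Pres (Cls c)) A}
    (h : ∀ᶠ g in NF.F (Γ := Pres (Cls c)), ∀ n, g • s n = s n) :
    ∃ F : Set (Set A), F.Finite ∧ (∀ y ∈ F, y.Finite ∨ ∃ k, y =ᶠ[cofinite] c k) ∧
      ∀ n a b, (∀ y ∈ F, a ∈ y ↔ b ∈ y) → a ∈ (s n).1 → b ∈ (s n).1 := by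
  classical
  obtain ⟨F, h1, h2, h3⟩ := pres_iff.1 h
  refine ⟨F, h1, h2, fun n a b e ha => ?_⟩
  have := (smul_mem (g := (⟨_, swap_cls c a b⟩ : Pres (Cls c)))).2 ha
  rw [h3 _ (swap_pres e) n] at this
  exact Equiv.swap_apply_left a b ▸ this

theorem cls_js (c : κ → Set A) : Nonempty (JS (Pres (Cls c)) A) :=
  ex_js (pres_fx fun a => Or.inl (finite_singleton a))

def clsS (c : κ → Set A) (k : κ) : PS (Pres (Cls c)) A := ⟨c k, pres_sym (Or.inr ⟨k, .rfl⟩)⟩

theorem clsS_mem (k : κ) : clsS c k ∈ (qFam (Cls c) (some k)).1 :=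
  EventuallyEq.refl cofinite (c k)

theorem cls_gfb (J : JS (Pres (Cls c)) A) {k : κ} (h : (c k).Infinite) :
    Gfb J.E (J.sA unA) (J.fA (qFam (Cls c) (some k))) :=
  J.gfb_of h (clsS c k).2 fun _ => Iff.rfl

theorem cls_wdf (J : JS (Pres (Cls c)) A) : WDF J.E J.nu (J.sA unA) := by
  rintro ⟨σ, h1, h2, h3⟩
  choose s _ hs using fun n => J.subA (h2 n)
  obtain ⟨F, h4, -, h5⟩ := cls_sat (J.seq_el (t := .w .a) h1 hs)
  refine infinite_of_injective_forall_mem (f := fun n => (s n).1) (fun m n e => h3 ?_)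
    (fun n => by exact h5 n) (fin_sat h4)
  rw [hs, hs, Subtype.ext e]

end Pool.Agent.H40.Js
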