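import Pool.Agent.H40.Js6

set_option autoImplicit false

/-! The permutation model on the 2-adic integers with all isometries and finite supports. -/

namespace Pool.Agent.H40.Js.Pad

open Set Filter Metric
open Pool.Agent.H40.Bspt Pool.Agent.H40.Jz

abbrev Z := ℤ_[2]
abbrev G := Z ≃ᵢ Z

noncomputable instance : MulAction G Z where
  smul g x := g x
  one_smul _ := rfl
  mul_smul _ _ _ := rfl

noncomputable instance : NF G := suppNF G (univ : Set Z) fun _ _ _ => trivial

theorem fx (a : Z) : ∀ᶠ g in NF.F (Γ := G), g • a = a :=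
  supp_iff.2 ⟨{a}, finite_singleton a, subset_univ _, fun _ h => h a rfl⟩

instance : Fx G Z := ⟨fx⟩

instance : ContinuousConstSMul G Z := ⟨fun g => g.continuous⟩

theorem dist_smul (g : G) (x y : Z) : dist (g • x) (g • y) = dist x y := g.dist_eq x y

def bl (x : Z) (r : ℝ) : PS G Z := ⟨ball x r, sym_of ((fx x).mono fun g hg y hy => by
  rw [mem_ball, ← hg, dist_smul]; exact hy)⟩

theorem sb : SB G Z := fun U x hU hx => by
  obtain ⟨r, h1, h2⟩ := Metric.isOpen_iff.1 hU x hx
  exact ⟨bl x r, IsUltrametricDist.isClopen_ball x r, mem_ball_self h1, h2⟩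

theorem homog {y w z : Z} {r : ℝ} (hw : w ∈ ball y r) (hz : z ∈ ball y r) :
    ∃ g : G, g • w = z ∧ (∀ x ∉ ball y r, g • x = x) ∧ ∀ x, g • x ∈ ball y r ↔ x ∈ ball y r := by
  classical
  let f : Z → Z → Z := fun c x => if x ∈ ball y r then x + c else x
  have h1 : ∀ c x, ‖c‖ < r → x ∈ ball y r → x + c ∈ ball y r := fun c x hc hx =>
    (dist_triangle_max _ x _).trans_lt (max_lt (by simpa using hc) hx)
  have h2 : ∀ c x, ‖c‖ < r → f (-c) (f c x) = x := by
    intro c x hc
    by_cases hx : x ∈ ball y r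
    · simp only [f, if_pos hx, if_pos (h1 c x hc hx), add_neg_cancel_right]
    · simp only [f, if_neg hx]
  have hc : ‖z - w‖ < r := by
    rw [← dist_eq_norm]
    exact (dist_triangle_max _ y _).trans_lt (max_lt hz (mem_ball'.1 hw))
  have h3 : ∀ a b, a ∈ ball y r → b ∉ ball y r → dist (a + (z - w)) b = dist a b := by
    intro a b ha hb
    have : dist (a + (z - w)) a < dist a b := by
      refine lt_of_lt_of_le (by simpa using hc) (not_lt.1 fun h => hb ?_)
      exact (dist_triangle_max _ a _).trans_lt (max_lt (by rwa [dist_comm]) ha)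
    rw [IsUltrametricDist.dist_eq_max_of_dist_ne_dist _ _ _ this.ne, max_eq_right this.le]
  refine ⟨⟨⟨f (z - w), f (-(z - w)), fun x => h2 _ x hc, fun x => by
    simpa using h2 (-(z - w)) x (by rwa [norm_neg])⟩, Isometry.of_dist_eq fun a b => ?_⟩,
    ?_, fun x hx => if_neg hx, fun x => ?_⟩
  · by_cases ha : a ∈ ball y r <;> by_cases hb : b ∈ ball y r <;>
      simp only [f, ha, hb, if_true, if_false]
    · exact dist_add_right _ _ _
    · exact h3 a b ha hb
    · rw [dist_comm, h3 b a hb ha, dist_comm]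
  · show f (z - w) w = z
    simp only [f, if_pos hw, add_sub_cancel]
  · show f (z - w) x ∈ _ ↔ _
    by_cases hx : x ∈ ball y r
    · simp only [f, if_pos hx]; exact iff_of_true (h1 _ _ hc hx) hx
    · simp only [f, if_neg hx]

theorem ball_inf (x : Z) {r : ℝ} (hr : 0 < r) : (ball x r).Infinite := by
  have h1 : Tendsto (fun n : ℕ => x + 2 ^ n) atTop (nhds (x + 0)) :=
    tendsto_const_nhds.add (tendsto_pow_atTop_nhds_zero_of_norm_lt_one (by
      have := PadicInt.norm_p (p := 2)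
      norm_num at this ⊢
      rw [this]; norm_num))
  rw [add_zero] at h1
  have h2 : Function.Injective fun n : ℕ => x + 2 ^ n := fun a b h => by
    have h3 : ((2 ^ a : ℕ) : Z) = (2 ^ b : ℕ) := by simpa using h
    exact Nat.pow_right_injective le_rfl (Nat.cast_injective h3)
  have h4 := h1.eventually (ball_mem_nhds x hr)
  rw [← Nat.cofinite_eq_atTop] at h4
  exact infinite_of_injOn_mapsTo h2.injOn (mapsTo_preimage _ _)
    (h4.infinite_compl.mono fun n hn => not_not.1 hn)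

theorem avoid {F : Set Z} (hF : F.Finite) {y : Z} (hy : y ∉ F) : ∃ r > 0, ∀ x ∈ F, x ∉ ball y r := by
  obtain ⟨r, h1, h2⟩ := Metric.isOpen_iff.1 hF.isClosed.isOpen_compl y hy
  exact ⟨r, h1, fun x a b => h2 b a⟩

variable (J : JS G Z)

theorem metr : Metrizable J.reals (J.sA unA) J.T := by
  let e := (J.eA unA).symm
  have hl : ∀ (x y : Ex J.E (J.sA unA)) ε, J.rI.symm (dist (e x).1 (e y).1) < ε ↔
      dist (e x).1 (e y).1 < J.rI ε := fun x y ε => by
    rw [← map_lt_map_iff J.rI, OrderRingIso.apply_symm_apply]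
  refine ⟨fun x y => J.rI.symm (dist (e x).1 (e y).1), ?_, fun x y => ?_, fun x y => ?_,
    fun x y z => ?_, fun U => ⟨fun h => ?_, fun h => ?_⟩⟩
  · refine J.intl2_of (s := .a) (t := .a) (u := .w .n) univ (fun x : Z × Z => rho (dist x.1 x.2))
      (Eventually.of_forall fun g x _ => ⟨trivial, congrArg rho (dist_smul g _ _)⟩) fun z w =>
        ⟨((e z).1, (e w).1), trivial, J.exE_symm (t := .a) _ z, J.exE_symm (t := .a) _ w, ?_⟩
    rw [J.rI_val, OrderRingIso.apply_symm_apply]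
  · exact (map_eq_zero_iff J.rI.symm J.rI.symm.injective).trans
      (dist_eq_zero.trans (Subtype.val_inj.trans e.injective.eq_iff))
  · simp only [dist_comm]
  · rw [← map_add]
    exact (map_le_map_iff J.rI.symm).2 (dist_triangle _ _ _)
  · obtain ⟨u, hu, rfl⟩ := J.elT h
    refine ⟨J.subA_iff.2 (subset_univ _), fun x hx => ?_⟩
    obtain ⟨x, rfl⟩ := (J.eA unA).surjective x
    obtain ⟨r, h1, h2⟩ := Metric.isOpen_iff.1 hu x.1 (J.memA.1 hx)
    refine ⟨J.rI.symm r, by simpa using (map_lt_map_iff J.rI.symm).2 h1, fun y hy => ?_⟩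
    obtain ⟨y, rfl⟩ := (J.eA unA).surjective y
    rw [hl] at hy
    exact J.memA.2 (h2 (mem_ball'.2 (by simpa [e] using hy)))
  · obtain ⟨u, -, rfl⟩ := J.subA h.1
    refine J.memT.2 (Metric.isOpen_iff.2 fun x hx => ?_)
    obtain ⟨ε, h1, h2⟩ := h.2 (J.eA unA ⟨x, trivial⟩) (J.memA.2 hx)
    refine ⟨J.rI ε, by simpa using (map_lt_map_iff J.rI).2 h1, fun y hy => ?_⟩
    refine J.memA.1 (h2 (J.eA unA ⟨y, trivial⟩) ?_)
    rw [hl]
    simpa [e] using mem_ball'.1 hy

theorem not_isol {s : PS G Z} (hs : IsOpen s.1) (x : J.M) : ¬ Isol J.E (J.sA s) J.T x := by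
  rintro ⟨h1, h2⟩
  obtain ⟨x, hx, rfl⟩ := J.elA h1
  obtain ⟨r, h3, h4⟩ := Metric.mem_nhds_iff.1 (inter_mem (hs.mem_nhds hx) ((J.nhd sb).1 h2))
  exact ball_inf x h3 ((finite_singleton x).subset fun y hy => J.nA_inj ((h4 hy).2 (h4 hy).1))

theorem not_scat (Y : J.M) (h1 : Sub J.E Y (J.sA unA)) (h2 : ¬ IsFin J.E Y) :
    ¬ Scattered J.E Y J.T := by
  obtain ⟨u, -, rfl⟩ := J.subA h1
  obtain ⟨F, h3, -, h4⟩ := supp_iff.1 u.2
  obtain ⟨y, h5, h6⟩ := (show u.1.Infinite from fun h => h2 (J.finA.2 h)).exists_notMem_finite h3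
  obtain ⟨r, h7, h8⟩ := avoid h3 h6
  intro h
  obtain ⟨x, hx⟩ := h (J.sA (bl y r)) (J.subA_iff.2 fun z hz => by
    obtain ⟨g, rfl, a, -⟩ := homog (mem_ball_self h7) hz
    exact (h4 g (fun x hx => a x (h8 x hx)) y).2 h5) ⟨_, J.memA.2 (mem_ball_self h7)⟩
  exact not_isol J isOpen_ball x hx

end Pool.Agent.H40.Js.Pad
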