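import Pool.Agent.H40.Js7

set_option autoImplicit false

/-! The ray model: points `p n`, sequences converging to them, and swaps of isolated points. -/

namespace Pool.Agent.H40.Js.Ray

open Set Filter OnePoint Topology
open Pool.Agent.H40.Bspt Pool.Agent.H40.Jz

abbrev Y := ℕ × OnePoint (ℕ × Bool)
abbrev A := OnePoint Y

instance : Countable (OnePoint (ℕ × Bool)) := inferInstanceAs (Countable (Option _))
noncomputable instance : DecidableEq A := Classical.decEq _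
instance : Countable A := inferInstanceAs (Countable (Option _))

def p (n : ℕ) : A := ((n, ∞) : Y)
def q (n j : ℕ) (b : Bool) : A := ((n, ((j, b) : ℕ × Bool)) : Y)
def L (n : ℕ) : Set A := (↑) '' (Iic n ×ˢ univ : Set Y)
def K (n : ℕ) : Set A := L n \ range fun j => q n j false

theorem cases (x : A) : x = ∞ ∨ (∃ n, x = p n) ∨ ∃ n j b, x = q n j b := by
  rcases x with _ | ⟨n, _ | ⟨j, b⟩⟩
  exacts [Or.inl rfl, Or.inr (Or.inl ⟨n, rfl⟩), Or.inr (Or.inr ⟨n, j, b, rfl⟩)]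

@[simp] theorem pL {m n : ℕ} : p m ∈ L n ↔ m ≤ n := by simp [p, L]
@[simp] theorem qL {m n j : ℕ} {b : Bool} : q m j b ∈ L n ↔ m ≤ n := by simp [q, L]
@[simp] theorem iL {n : ℕ} : ∞ ∉ L n := by simp [L]
@[simp] theorem pK {m n : ℕ} : p m ∈ K n ↔ m ≤ n := by simp [K, pL]; simp [p, q]
@[simp] theorem qK {m n j : ℕ} {b : Bool} : q m j b ∈ K n ↔ m < n ∨ m = n ∧ b = true := by
  simp only [K, Set.mem_sdiff, qL]; cases b <;> simp [q] <;> omega
@[simp] theorem iK {n : ℕ} : ∞ ∉ K n := by simp [K]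
theorem p_ne (n : ℕ) : p n ≠ ∞ := coe_ne_infty _
theorem q_ne (n j : ℕ) (b : Bool) : q n j b ≠ ∞ := coe_ne_infty _

theorem q_open (n j : ℕ) (b : Bool) : IsOpen {q n j b} := by
  rw [q, ← image_singleton, isOpen_image_coe, ← singleton_prod_singleton, ← image_singleton (f := OnePoint.some)]
  exact (isOpen_discrete _).prod (isOpen_image_coe.2 (isOpen_discrete _))

theorem L_clopen (n : ℕ) : IsClopen (L n) :=
  ⟨isClosed_image_coe.2 ⟨(isClosed_discrete _).prod isClosed_univ,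
    (finite_Iic n).isCompact.prod isCompact_univ⟩,
    isOpen_image_coe.2 ((isOpen_discrete _).prod isOpen_univ)⟩

theorem K_closed (n : ℕ) : IsClosed (K n) :=
  (L_clopen n).1.sdiff (by rw [← iUnion_singleton_eq_range]; exact isOpen_iUnion fun j => q_open _ _ _)

theorem LK {m n : ℕ} (h : m < n) : L m ⊆ K n := fun x hx => by
  rcases cases x with rfl | ⟨k, rfl⟩ | ⟨k, j, b, rfl⟩ <;> simp at hx ⊢ <;> omega

theorem K_mono {m n : ℕ} (h : m ≤ n) : K m ⊆ K n :=
  h.eq_or_lt.elim (fun e => e ▸ subset_rfl) fun h => sdiff_subset.trans (LK h)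

theorem exL {x : A} (h : x ≠ ∞) : ∃ n, x ∈ L n := by
  rcases cases x with rfl | ⟨k, rfl⟩ | ⟨k, j, b, rfl⟩
  exacts [absurd rfl h, ⟨k, by simp⟩, ⟨k, by simp⟩]

theorem cpt {C : Set A} (h : IsClosed C) (h' : ∞ ∉ C) : ∃ n, C ⊆ L n :=
  h.isCompact.elim_directed_cover L (fun n => (L_clopen n).2)
    (fun x hx => mem_iUnion.2 (exL fun e => h' (e ▸ hx)))
    (directed_of_isDirected_le fun _ _ h => image_mono (prod_mono (Iic_subset_Iic.2 h) subset_rfl))

theorem q_lim (n : ℕ) (b : Bool) : Tendsto (fun j => q n j b) atTop (𝓝 (p n)) := by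
  refine (continuous_coe.tendsto _).comp (tendsto_const_nhds.prodMk_nhds (tendsto_coe_infty.comp ?_))
  rw [coclosedCompact_eq_cocompact, cocompact_eq_cofinite, ← Nat.cofinite_eq_atTop]
  exact Function.Injective.tendsto_cofinite fun _ _ h => congrArg Prod.fst h

theorem p_lim : Tendsto p atTop (𝓝 ∞) := tendsto_nhds.2 fun U h1 h2 => by
  obtain ⟨n, hn⟩ := cpt h1.isClosed_compl fun h => h h2
  filter_upwards [eventually_gt_atTop n] with m hm
  exact not_not.1 fun h => hm.not_ge (pL.1 (hn h))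

def G : Subgroup (Equiv.Perm A) where
  carrier := {g | Continuous g ∧ Continuous g.symm ∧ (∀ n x, g x ∈ K n ↔ x ∈ K n) ∧
    ∀ n, g (p n) = p n}
  mul_mem' := fun {a b} ha hb => ⟨ha.1.comp hb.1, hb.2.1.comp ha.2.1,
    fun n x => (ha.2.2.1 n _).trans (hb.2.2.1 n x), fun n => by
      rw [Equiv.Perm.mul_apply, hb.2.2.2, ha.2.2.2]⟩
  one_mem' := ⟨continuous_id, continuous_id, fun _ _ => Iff.rfl, fun _ => rfl⟩
  inv_mem' := fun {a} ha => ⟨ha.2.1, ha.1, fun n x => by rw [← ha.2.2.1]; simp,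
    fun n => a.symm_apply_eq.2 (ha.2.2.2 n).symm⟩

theorem gK (g : G) {n : ℕ} {x : A} : g • x ∈ K n ↔ x ∈ K n := g.2.2.2.1 n x
theorem gp (g : G) (n : ℕ) : g • p n = p n := g.2.2.2.2 n
theorem gi (g : G) : g • (∞ : A) = ∞ := by_contra fun h =>
  (exL h).elim fun n hn => iK ((gK g).1 (LK n.lt_succ_self hn))

instance : NF G := blockNF G K fun g _ _ h => (gK g).2 h

instance : ContinuousConstSMul G A := ⟨fun g => g.2.1⟩

theorem fixK (n : ℕ) : ∀ᶠ g in NF.F (Γ := G), ∀ x ∈ K n, g • x = x :=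
  block_iff.2 ⟨{n}, finite_singleton n, fun _ h => h n rfl⟩

theorem ev_el {P : G → Prop} (h : ∀ᶠ g in NF.F (Γ := G), P g) :
    ∃ n, ∀ g : G, (∀ x ∈ K n, g • x = x) → P g := by
  obtain ⟨F, h1, h2⟩ := block_iff.1 h
  obtain ⟨n, hn⟩ := h1.bddAbove
  exact ⟨n, fun g hg => h2 g fun i hi x hx => hg x (K_mono (hn hi) hx)⟩

theorem fx (a : A) : ∀ᶠ g in NF.F (Γ := G), g • a = a := by
  by_cases h : a = ∞
  · exact Eventually.of_forall fun g => h ▸ gi g
  · obtain ⟨n, hn⟩ := exL h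
    exact (fixK _).mono fun g hg => hg a (LK n.lt_succ_self hn)

theorem invK {n : ℕ} {g : G} (hg : ∀ x ∈ K n, g • x = x) {s : Set A} (h : s ⊆ K n) (x : A) :
    g • x ∈ s ↔ x ∈ s := by
  by_cases hx : x ∈ K n
  · rw [hg x hx]
  · exact iff_of_false (fun e => hx ((gK g).1 (h e))) fun e => hx (h e)

theorem symK {n : ℕ} {s : Set A} (h : s ⊆ K n) : Sym G s := (fixK n).mono fun _ hg => invK hg h

theorem sym_clopen {C : Set A} (h : IsClopen C) : Sym G C := by
  by_cases hC : ∞ ∈ C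
  · obtain ⟨n, hn⟩ := cpt h.2.isClosed_compl fun h => h hC
    simpa using sym_compl (symK (hn.trans (LK n.lt_succ_self)))
  · obtain ⟨n, hn⟩ := cpt h.1 hC
    exact symK (hn.trans (LK n.lt_succ_self))

theorem sb : SB G A := fun U x hU hx => by
  obtain ⟨C, h1, h2, h3⟩ := compact_exists_isClopen_in_isOpen hU hx
  exact ⟨⟨C, sym_clopen h1⟩, h1, h2, h3⟩

theorem swap_cont {a b : A} (ha : IsOpen {a}) (hb : IsOpen {b}) : Continuous (Equiv.swap a b) := by
  refine continuous_iff_continuousAt.2 fun x => ?_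
  by_cases h : x = a ∨ x = b
  · have : 𝓝 x = pure x := (isOpen_singleton_iff_nhds_eq_pure x).1 (h.elim (· ▸ ha) (· ▸ hb))
    rw [ContinuousAt, this]
    exact tendsto_pure_nhds _ _
  · rw [not_or] at h
    refine continuousAt_id.congr ?_
    filter_upwards [eventually_ne_nhds h.1, eventually_ne_nhds h.2] with y h1 h2
    exact (Equiv.swap_apply_of_ne_of_ne h1 h2).symm

noncomputable def sw (n j : ℕ) : G := ⟨Equiv.swap (q n j false) (q (n + 1) j true),
  swap_cont (q_open _ _ _) (q_open _ _ _), swap_cont (q_open _ _ _) (q_open _ _ _),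
  fun m x => by
    rw [Equiv.swap_apply_def]
    split_ifs with h1 h2
    · simp [h1]; omega
    · simp [h2]; omega
    · rfl,
  fun m => Equiv.swap_apply_of_ne_of_ne (by simp [p, q]) (by simp [p, q])⟩

def X : PS G A := ⟨{∞}ᶜ, sym_all fun g _ h e => h (smul_eq_iff_eq_inv_smul g |>.1 e |>.trans (gi _))⟩

theorem step {Z : Type} [TopologicalSpace Z] [T2Space Z] {f : A → Z} (h : ContinuousOn f X.1)
    {N : ℕ} (h' : ∀ g : G, (∀ x ∈ K N, g • x = x) → ∀ x ∈ X.1, f (g • x) = f x) :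
    ∀ n ≥ N, f (p n) = f (p N) := by
  have c : ∀ n b, Tendsto (fun j => f (q n j b)) atTop (𝓝 (f (p n))) := fun n b =>
    (h.continuousAt (isOpen_compl_singleton.mem_nhds (p_ne n))).tendsto.comp (q_lim n b)
  refine Nat.le_induction rfl fun n hn ih => Eq.trans ?_ ih
  refine tendsto_nhds_unique (c (n + 1) true) ((c n false).congr fun j => ?_)
  rw [← h' (sw n j) (fun x hx => Equiv.swap_apply_of_ne_of_ne ?_ ?_) _ (q_ne n j false)]
  · exact congrArg f (Equiv.swap_apply_left _ _)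
  · rintro rfl; simp at hx; omega
  · rintro rfl; simp at hx; omega

def tail (n : ℕ) : PS G A := ⟨p '' Ici n, sym_all fun g _ ⟨m, h, e⟩ => ⟨m, h, by rw [← e, gp]⟩⟩

theorem smul_eq {g : G} {s : PS G A} (h : ∀ x, g • x ∈ s.1 ↔ x ∈ s.1) : g • s = s :=
  Subtype.ext (Set.ext fun x => (h (g⁻¹ • x)).symm.trans (by rw [smul_inv_smul]))

def B : PS G (PS G A) := ⟨range tail, sym_all fun g _ ⟨n, e⟩ => ⟨n, e ▸ (smul_eq (s := tail n)
  fun x => ⟨fun ⟨m, h, e⟩ => ⟨m, h, by rw [← gp g⁻¹, e, inv_smul_smul]⟩,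
    fun ⟨m, h, e⟩ => ⟨m, h, by rw [← e, gp]⟩⟩).symm⟩⟩

theorem bad : JS.Bad X B where
  ne := forall_mem_range.2 fun n => ⟨⟨_, n, self_mem_Ici, rfl⟩, fun _ ⟨m, _, e⟩ => e ▸ p_ne m⟩
  dir := forall_mem_range.2 fun m => forall_mem_range.2 fun n => ⟨_, ⟨max m n, rfl⟩,
    image_mono (Ici_subset_Ici.2 (le_max_left _ _)), image_mono (Ici_subset_Ici.2 (le_max_right _ _))⟩
  ex := ⟨_, 0, rfl⟩
  con f h1 h2 := by
    obtain ⟨N, hN⟩ := ev_el h2
    exact ⟨_, ⟨N, rfl⟩, _, fun _ ⟨m, h, e⟩ => e ▸ step h1 hN m h⟩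
  nl x hx := by
    obtain ⟨n, hn⟩ := exL hx
    exact ⟨_, ⟨n + 1, rfl⟩, mem_of_superset ((L_clopen n).2.mem_nhds hn) fun y hy ⟨m, h, e⟩ =>
      Nat.not_succ_le_self n (le_trans h (pL.1 (e ▸ hy)))⟩

def Ks (n : ℕ) : PS G A := ⟨K n, symK subset_rfl⟩

theorem KX (n : ℕ) : K n ⊆ X.1 := fun _ h e => iK (n := n) (e ▸ h)

theorem covers (J : JS G A) : Covers J.E (fun n => J.sA (Ks (J.omE.symm n))) (J.sA X) := by
  refine ⟨J.intl_seq (t := .w .a) (Eventually.of_forall fun g n => smul_eq fun _ => gK g),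
    fun x => ⟨fun h => ?_, fun ⟨n, h⟩ => J.subA_iff.2 (KX _) x h⟩⟩
  obtain ⟨x, hx, rfl⟩ := J.elA h
  obtain ⟨n, hn⟩ := exL hx
  exact ⟨J.omE (n + 1), J.memA.2 (by rw [Equiv.symm_apply_apply]; exact LK n.lt_succ_self hn)⟩

open Classical in
noncomputable def r (n : ℕ) (x : A) : A := if x ∈ K n then x else p n

theorem r_mem (n : ℕ) (x : A) : r n x ∈ K n := by
  unfold r; split_ifs with h
  exacts [h, pK.2 le_rfl]

theorem r_eq {n : ℕ} {x : A} (h : x ∈ K n) : r n x = x := if_pos h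

theorem r_inv {n : ℕ} {g : G} (hg : ∀ x ∈ K n, g • x = x) (x : A) : r n (g • x) = r n x := by
  by_cases h : x ∈ K n
  · rw [hg x h]
  · exact (if_neg (mt (gK g).1 h)).trans (if_neg h).symm

theorem K_nhds {n : ℕ} {x : A} (h : x ∈ K n) (h' : x ≠ p n) : K n ∈ 𝓝 x := by
  rcases cases x with rfl | ⟨k, rfl⟩ | ⟨k, j, b, rfl⟩
  · exact absurd h iK
  · exact mem_of_superset ((L_clopen k).2.mem_nhds (pL.2 le_rfl))
      (LK ((pK.1 h).lt_of_ne fun e => h' (e ▸ rfl)))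
  · exact mem_of_superset ((q_open k j b).mem_nhds rfl) (singleton_subset_iff.2 h)

theorem r_cont (n : ℕ) : Continuous (r n) := by
  classical
  refine Continuous.if (fun x hx => by_contra fun h => hx.2 ?_) continuous_id continuous_const
  exact mem_interior_iff_mem_nhds.2 (K_nhds ((K_closed n).closure_subset hx.1) h)

/-- every closed set is a zero set, with constant value on a disjoint closed set -/
theorem zs {s t : Set A} (hs : IsClosed s) (ht : IsClosed t) (h : Disjoint s t) :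
    ∃ f : A → ℝ, Continuous f ∧ (∀ x, x ∈ s ↔ f x = 0) ∧ ∀ x ∈ t, f x = 1 := by
  obtain ⟨f, h1, h2, -⟩ := exists_continuous_one_zero_of_isCompact_of_isGδ hs.isCompact
    (by simpa using (to_countable sᶜ).isGδ_compl) ht h
  exact ⟨fun x => 1 - f x, by fun_prop, fun x => by rw [h1, sub_eq_zero]; exact eq_comm,
    fun x hx => by simp [h2 hx]⟩

def R (n : ℕ) : PS G A := ⟨r n ⁻¹' {p n} ∩ X.1, sym_inter ((fixK n).mono fun g hg x => by
  simp [r_inv hg]) X.2⟩

/-- filters of closed sets with the countable intersection property are fixed -/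
theorem fixed (J : JS G A) {𝒵 : J.M → Prop}
    (h1 : ∀ Z, 𝒵 Z → ∃ z : PS G A, Z = J.sA z ∧ ∃ C, IsClosed C ∧ z.1 = C ∩ X.1)
    (h2 : ∀ n, 𝒵 (J.sA (R n))) (F : J.M) (hF : Filt J.E 𝒵 F) (hc : Cip J.E F) : Fixed J.E F := by
  classical
  obtain ⟨a, ⟨Z0, b⟩, c, d, e⟩ := hF
  by_contra hn
  have key : ∀ n, J.E (J.sA (R n)) F := by
    intro n
    choose z hz C hC hC' using fun Z : Ex J.E F => h1 Z.1 (a _ Z.2)
    obtain ⟨u, hu⟩ := (L_clopen n).1.isCompact.elim_finite_subfamily_closed C hC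
      (eq_empty_of_forall_notMem fun x hx => hn ⟨J.nA x, fun U hU => by
        rw [show U = _ from hz ⟨U, hU⟩, J.memA, hC']
        exact ⟨mem_iInter.1 hx.2 _, fun e => iL (n := n) (e ▸ hx.1)⟩⟩)
    have : ∃ W : Ex J.E F, ∀ i ∈ u, (z W).1 ⊆ (z i).1 := by
      clear hu
      induction u using Finset.induction_on with
      | empty => exact ⟨⟨Z0, b⟩, by simp⟩
      | insert i u _ ih =>
        obtain ⟨W, hW⟩ := ih
        have := d _ _ (J.sA ⟨_, sym_inter (z W).2 (z i).2⟩) W.2 i.2 fun x => by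
          rw [hz W, hz i]
          exact ⟨fun h => ⟨J.subA_iff.2 inter_subset_left x h, J.subA_iff.2 inter_subset_right x h⟩,
            fun h => by
              obtain ⟨x, hx, rfl⟩ := J.elA h.1
              exact J.memA.2 ⟨hx, J.memA.1 h.2⟩⟩
        refine ⟨⟨_, this⟩, ?_⟩
        rw [← J.sA_inj (hz ⟨_, this⟩)]
        exact Finset.forall_mem_insert _ _ _ |>.2 ⟨inter_subset_right,
          fun j hj => inter_subset_left.trans (hW j hj)⟩
    obtain ⟨W, hW⟩ := this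
    refine e _ _ W.2 (h2 n) ?_
    rw [hz W]
    refine J.subA_iff.2 fun x hx => ⟨if_neg fun h => ?_, (hC' W ▸ hx).2⟩
    exact (hu.subset ⟨h.1, mem_iInter₂.2 fun i hi => (hC' i ▸ hW i hi hx).1⟩ :)
  obtain ⟨S, h3, h4⟩ := J.ctbl_seq (t := .w .a) (σ := R) (Eventually.of_forall fun g n =>
    smul_eq fun x => and_congr (by
      show r n (g • x) = p n ↔ r n x = p n
      unfold r
      by_cases h : x ∈ K n
      · rw [if_pos h, if_pos ((gK g).2 h), smul_eq_iff_eq_inv_smul, gp]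
      · rw [if_neg h, if_neg (mt (gK g).1 h)])
      (not_congr (by rw [mem_singleton_iff, mem_singleton_iff, smul_eq_iff_eq_inv_smul, gi])))
  obtain ⟨x, hx⟩ := hc (J.fA S) (J.allS.2 fun s hs => by
    obtain ⟨n, rfl⟩ := h3.le hs
    exact key n) h4 ⟨J.sA (R 0), J.memS.2 (h3.ge ⟨0, rfl⟩)⟩
  have h5 : ∀ n, J.E x (J.sA (R n)) := fun n => hx _ (J.memS.2 (h3.ge ⟨n, rfl⟩))
  obtain ⟨x, h6, rfl⟩ := J.elA (h5 0)
  obtain ⟨n, h7⟩ := exL h6.2
  have h8 : r (n + 1) x = p (n + 1) := (J.memA.1 (h5 (n + 1))).1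
  rw [r_eq (LK n.lt_succ_self h7)] at h8
  simp [h8] at h7

end Pool.Agent.H40.Js.Ray
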