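import Pool.Agent.H40.Js8

set_option autoImplicit false

/-! Triangular permutations of integer sequences that respect congruences modulo powers of two. -/

namespace Pool.Agent.H40.Js.Tri

open Set Filter Metric

def Y : Type := ℕ → ℤ

def Cg (m : ℕ) (x y : Y) : Prop := ∀ j < m, (2 : ℤ) ^ m ∣ x j - y j

theorem Cg.rfl {m : ℕ} {x : Y} : Cg m x x := fun _ _ => by simp

theorem Cg.symm {m : ℕ} {x y : Y} (h : Cg m x y) : Cg m y x := fun j a => dvd_sub_comm.1 (h j a)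

theorem Cg.trans {m : ℕ} {x y z : Y} (h : Cg m x y) (k : Cg m y z) : Cg m x z := fun j a => by
  simpa using (h j a).add (k j a)

theorem Cg.mono {l m : ℕ} {x y : Y} (h : Cg m x y) (a : l ≤ m) : Cg l x y := fun j b =>
  (pow_dvd_pow 2 a).trans (h j (b.trans_le a))

theorem ex_pow {a : ℤ} (h : a ≠ 0) : ∃ n : ℕ, ¬ (2 : ℤ) ^ n ∣ a :=
  ⟨a.natAbs, fun e => (Int.natAbs_le_of_dvd_ne_zero e h).not_gt (by
    simpa [Int.natAbs_pow] using Nat.lt_two_pow_self)⟩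

theorem ex_not {x y : Y} (h : x ≠ y) : ∃ m, ¬ Cg m x y := by
  obtain ⟨j, a⟩ := Function.ne_iff.1 h
  obtain ⟨n, b⟩ := ex_pow (sub_ne_zero.2 a)
  exact ⟨max n (j + 1), fun c => b ((pow_dvd_pow 2 (le_max_left _ _)).trans (c j (by omega)))⟩

theorem avoid {F : Set Y} (hF : F.Finite) {z : Y} (h : z ∉ F) : ∃ m, ∀ e ∈ F, ¬ Cg m z e :=
  ((eventually_all_finite hF).2 fun e a => (ex_not fun b : z = e => h (b ▸ a)).elim fun m b =>
    (eventually_ge_atTop m).mono fun _ c d => b (d.mono c)).exists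

def cls (x : Y) (m : ℕ) : Set Y := {y | Cg m x y}

theorem cls_eq {m : ℕ} {x y : Y} : cls x m = cls y m ↔ Cg m x y :=
  ⟨fun h => (h.ge Cg.rfl : y ∈ cls x m), fun h => Set.ext fun _ => ⟨h.symm.trans, h.trans⟩⟩

noncomputable instance : MetricSpace Y where
  dist x y := (PiNat.dist (E := fun _ => Set Y)).dist (cls x) (cls y)
  dist_self _ := PiNat.dist_self _
  dist_comm _ _ := PiNat.dist_comm _ _
  dist_triangle _ _ _ := PiNat.dist_triangle _ _ _
  eq_of_dist_eq_zero h := by_contra fun a => (ex_not a).elim fun m b =>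
    b (cls_eq.1 (congrFun (PiNat.eq_of_dist_eq_zero _ _ h) m))

theorem dist_le {n : ℕ} {x y : Y} : dist x y ≤ (1 / 2) ^ n ↔ ∀ i < n, Cg i x y :=
  (PiNat.mem_cylinder_iff_dist_le (E := fun _ => Set Y)).symm.trans
    (forall₂_congr fun _ _ => cls_eq)

theorem dist_le' {n : ℕ} {x y : Y} : dist x y ≤ (1 / 2) ^ (n + 1) ↔ Cg n x y :=
  dist_le.trans ⟨fun h => h n n.lt_succ_self, fun h _ a => h.mono (Nat.lt_succ_iff.1 a)⟩

theorem op_iff {s : Set Y} : IsOpen s ↔ ∀ x ∈ s, ∃ m, cls x m ⊆ s := by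
  refine Metric.isOpen_iff.trans (forall₂_congr fun x _ => ⟨fun ⟨ε, a, b⟩ => ?_, fun ⟨m, a⟩ =>
    ⟨(1 / 2) ^ (m + 1), by positivity, fun y b => a (dist_le'.1 (mem_ball'.1 b).le)⟩⟩)
  obtain ⟨n, c⟩ := exists_pow_lt_of_lt_one a (by norm_num : (1 / 2 : ℝ) < 1)
  exact ⟨n, fun y d => b (mem_ball'.2 ((dist_le.2 fun i e => Cg.mono d e.le).trans_lt c))⟩

theorem cls_clopen (x : Y) (m : ℕ) : IsClopen (cls x m) :=
  ⟨⟨op_iff.2 fun _ a => ⟨m, fun _ b c => a (Cg.trans c (Cg.symm b))⟩⟩,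
    op_iff.2 fun _ a => ⟨m, fun _ b => Cg.trans a b⟩⟩

def Ok (π : Y → Y) : Prop := (∀ i x y, (∀ j < i, x j = y j) → π x i - π y i = x i - y i) ∧
  ∀ m x y, Cg m x y → Cg m (π x) (π y)

theorem Ok.ag {π : Y → Y} (h : Ok π) {i : ℕ} {x y : Y} (a : ∀ j < i, x j = y j) :
    ∀ j < i, π x j = π y j := fun j b =>
  sub_eq_zero.1 ((h.1 j x y fun k c => a k (c.trans b)).trans (sub_eq_zero.2 (a j b)))

theorem Ok.comp {π ρ : Y → Y} (h : Ok π) (k : Ok ρ) : Ok (π ∘ ρ) :=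
  ⟨fun i x y a => (h.1 i _ _ (k.ag a)).trans (k.1 i x y a), fun m x y a => h.2 m _ _ (k.2 m x y a)⟩

def G : Subgroup (Equiv.Perm Y) where
  carrier := {π | Ok π ∧ Ok π.symm}
  one_mem' := ⟨⟨fun _ _ _ _ => rfl, fun _ _ _ => id⟩, ⟨fun _ _ _ _ => rfl, fun _ _ _ => id⟩⟩
  mul_mem' a b := ⟨a.1.comp b.1, b.2.comp a.2⟩
  inv_mem' a := a.symm

instance : NF G := suppNF G (univ : Set Y) fun _ _ _ => trivial

theorem fx (a : Y) : ∀ᶠ g in NF.F (Γ := G), g • a = a :=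
  supp_iff.2 ⟨{a}, finite_singleton a, subset_univ _, fun _ h => h a rfl⟩

theorem cg_smul (g : G) {m : ℕ} {x y : Y} : Cg m (g • x) (g • y) ↔ Cg m x y :=
  ⟨fun h => by
    have : Cg m (g⁻¹ • g • x) (g⁻¹ • g • y) := (g⁻¹).2.1.2 m _ _ h
    rwa [inv_smul_smul, inv_smul_smul] at this, g.2.1.2 m x y⟩

theorem dist_smul (g : G) (x y : Y) : dist (g • x) (g • y) = dist x y := by
  have k : ∀ (g : G) (x y : Y), dist (g • x) (g • y) ≤ dist x y := fun g x y => by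
    by_cases a : cls x = cls y
    · have : x = y := eq_of_dist_eq_zero (a ▸ PiNat.dist_self (cls x) :
        (PiNat.dist (E := fun _ => Set Y)).dist (cls x) (cls y) = 0)
      simp [this]
    · have b : dist x y = _ := PiNat.dist_eq_of_ne a
      exact b ▸ dist_le.2 fun i c => (cg_smul g).2 (dist_le.1 b.le i c)
  exact le_antisymm (k g x y) (by simpa using k g⁻¹ (g • x) (g • y))

instance : ContinuousConstSMul G Y := ⟨fun g => (Isometry.of_dist_eq (dist_smul g)).continuous⟩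

def cS (x : Y) (m : ℕ) : PS G Y := ⟨cls x m, sym_of ((fx x).mono fun g hg y hy => by
  rw [← hg]; exact (cg_smul g).2 hy)⟩

theorem sb : SB G Y := fun _ x hU hx =>
  (op_iff.1 hU x hx).elim fun m a => ⟨cS x m, cls_clopen x m, Cg.rfl, a⟩

open Classical in
noncomputable def sf (m : ℕ) (z : Y) (k : ℤ) (y : Y) : Y :=
  fun i => y i + if i = m ∧ Cg m z y then k else 0

theorem sf_cg {m : ℕ} {z y : Y} {k : ℤ} : Cg m z (sf m z k y) ↔ Cg m z y :=
  forall₂_congr fun j a => by simp [sf, a.ne]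

open Classical in
theorem sf_sf {m : ℕ} {z : Y} {k l : ℤ} (h : k + l = 0) (y : Y) : sf m z l (sf m z k y) = y :=
  funext fun i => by
    have e := @sf_cg m z y k
    show y i + ite _ _ _ + ite _ _ _ = _
    by_cases a : i = m ∧ Cg m z y
    · rw [if_pos a, if_pos ⟨a.1, e.2 a.2⟩]; linarith
    · rw [if_neg a, if_neg fun b => a ⟨b.1, e.1 b.2⟩]; linarith

open Classical in
theorem sf_ok (m : ℕ) (z : Y) (k : ℤ) : Ok (sf m z k) := by
  have e : ∀ i (x y : Y), (i = m → (Cg m z x ↔ Cg m z y)) →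
      sf m z k x i - sf m z k y i = x i - y i := fun i x y a => by
    show x i + ite _ _ _ - (y i + ite _ _ _) = _
    by_cases b : i = m ∧ Cg m z x
    · rw [if_pos b, if_pos ⟨b.1, (a b.1).1 b.2⟩]; ring
    · rw [if_neg b, if_neg fun c => b ⟨c.1, (a c.1).2 c.2⟩]; ring
  refine ⟨fun i x y a => e i x y fun b => forall₂_congr fun j c => by rw [a j (b ▸ c)],
    fun l x y a j b => ?_⟩
  rw [e j x y fun c => ⟨(·.trans (a.mono (c ▸ b.le))), (·.trans (a.mono (c ▸ b.le)).symm)⟩]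
  exact a j b

noncomputable def sh (m : ℕ) (z : Y) (k : ℤ) : G :=
  ⟨⟨sf m z k, sf m z (-k), sf_sf (add_neg_cancel k), sf_sf (neg_add_cancel k)⟩,
    sf_ok m z k, sf_ok m z (-k)⟩

theorem sh_fix {m : ℕ} {z y : Y} (k : ℤ) (h : ¬ Cg m z y) : sh m z k • y = y :=
  funext fun i => by show y i + _ = _; simp [h]

theorem sh_at {m : ℕ} {z y : Y} (k : ℤ) (h : Cg m z y) : (sh m z k • y) m = y m + k := by
  show y m + _ = _; simp [h]

theorem sh_lt {m j : ℕ} {z y : Y} (k : ℤ) (h : j < m) : (sh m z k • y) j = y j := by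
  show y j + _ = _; simp [h.ne]

def V (z : Y) (m n : ℕ) : Set Y := {y | (∀ j < m, y j = z j) ∧ (2 : ℤ) ^ n ∣ 3 * (y m - z m) - 1}

theorem V_inv {g : G} {z : Y} (h : g • z = z) (m n : ℕ) (y : Y) : g • y ∈ V z m n ↔ y ∈ V z m n := by
  have k : ∀ g : G, g • z = z → ∀ y ∈ V z m n, g • y ∈ V z m n := fun g h y a =>
    ⟨fun j b => (g.2.1.ag a.1 j b).trans (congrFun h j), by
      have := g.2.1.1 m y z a.1
      rw [show g.1 z = z from h] at this
      exact (congrArg (fun t => (2 : ℤ) ^ n ∣ 3 * t - 1) this).mpr a.2⟩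
  exact ⟨fun a => by simpa using k g⁻¹ (inv_smul_eq_iff.2 h.symm) _ a, k g h y⟩

theorem V_closed (z : Y) (m n : ℕ) : IsOpen (V z m n)ᶜ := op_iff.2 fun y a => by
  by_cases b : ∀ j < m, y j = z j
  · refine ⟨max n (m + 1), fun x c d => a ⟨b, ?_⟩⟩
    have := ((pow_dvd_pow 2 (le_max_left _ _)).trans (c m (by omega))).mul_left 3
    exact (congrArg (_ ∣ ·) (by ring)).mp (this.add d.2)
  · push Not at b
    obtain ⟨j, b, c⟩ := b
    obtain ⟨l, d⟩ := ex_pow (sub_ne_zero.2 c)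
    exact ⟨max l (j + 1), fun x e f => d (f.1 j b ▸
      (pow_dvd_pow 2 (le_max_left _ _)).trans (e j (by omega)))⟩

theorem lex_mono (g : G) : StrictMono fun x : Lex (ℕ → ℤ) => (toLex (g • (ofLex x : Y) : Y) :
    Lex (ℕ → ℤ)) := fun x y ⟨i, a, b⟩ =>
  ⟨i, g.2.1.ag a, sub_neg.1 ((g.2.1.1 i x y a).trans_lt (sub_neg.2 b))⟩

theorem cls_fin (n : ℕ) : (range fun x => cls x n).Finite :=
  (finite_range fun t : Fin n → ZMod (2 ^ n) => {y : Y | ∀ j : Fin n, (y j : ZMod (2 ^ n)) = t j}).subset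
    (forall_mem_range.2 fun x => ⟨fun j => x j, Set.ext fun y => by
      simp only [mem_ofPred_eq, ZMod.intCast_eq_intCast_iff_dvd_sub, Fin.forall_iff]
      simp [cls, Cg]⟩)

end Pool.Agent.H40.Js.Tri
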