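import Pool.Agent.H40.JzDefs

set_option autoImplicit false

namespace Pool.Agent.H40.Jz

open Pool.Agent.H40.Bspt

variable {M : Type} {E : M → M → Prop} (ℛ : Reals E)

/-- any two completely separated subsets of `S` are separated by a clopen set -/
def StrZD (S T : M) : Prop :=
  ∀ A B, Sub E A S → Sub E B S →
    (∃ φ, Cont ℛ S T φ ∧ (∀ y, 0 ≤ φ y ∧ φ y ≤ 1) ∧ (∀ y : Ex E S, E y.1 A → φ y = 0) ∧
      ∀ y : Ex E S, E y.1 B → φ y = 1) →
    ∃ C, Clopen E S T C ∧ Sub E A C ∧ ∀ y, E y C → ¬ E y B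

end Pool.Agent.H40.Jz
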