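import Pool.Agent.H40.JzDefs

set_option autoImplicit false

namespace Pool.Agent.H40.Jz

open Pool.Agent.H40.Bspt

variable {M : Type} {E : M → M → Prop} (ℛ : Reals E)

/-- the topology `T` of `X` is induced by a quasi-metric `δ` with
`δ x y = 0 ∧ δ y x = 0 → x = y` -/
def QMetrizable (X T : M) : Prop :=
  ∃ δ : Ex E X → Ex E X → Ex E ℛ.R, Intl2 E (fun x y => (δ x y).1) ∧ (∀ x y, 0 ≤ δ x y) ∧
    (∀ x, δ x x = 0) ∧ (∀ x y z, δ x z ≤ δ x y + δ y z) ∧ (∀ x y, δ x y = 0 → δ y x = 0 → x = y) ∧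
    ∀ U, E U T ↔ Sub E U X ∧ ∀ x : Ex E X, E x.1 U → ∃ ε > 0, ∀ y, δ x y < ε → E y.1 U

end Pool.Agent.H40.Jz
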