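import Pool.Agent.H40.JzDefs

set_option autoImplicit false

namespace Pool.Agent.H40.Jz

open Pool.Agent.H40.Bspt

variable {M : Type} (E : M → M → Prop)

/-- the topology `T` has a base that is the union of a sequence of finite sets -/
def CufBase (T : M) : Prop :=
  ∃ σ : Om E → M, Intl E σ ∧ (∀ n, IsFin E (σ n) ∧ Sub E (σ n) T) ∧
    ∀ U x, E U T → E x U → ∃ n V, E V (σ n) ∧ E x V ∧ Sub E V U

/-- the nonempty sets with property `A` have a multiple choice function -/
def MChoice (A : M → Prop) : Prop :=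
  ∃ μ : {F // A F ∧ ∃ x, E x F} → M, Intl E μ ∧
    ∀ F, IsFin E (μ F) ∧ (∃ x, E x (μ F)) ∧ Sub E (μ F) F.1

/-- the nonempty sets with property `A` have a choice function -/
def Choice (A : M → Prop) : Prop :=
  ∃ μ : {F // A F ∧ ∃ x, E x F} → M, Intl E μ ∧ ∀ F, E (μ F) F.1

end Pool.Agent.H40.Jz
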