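import Pool.Agent.H40.JzDefs

set_option autoImplicit false

namespace Pool.Agent.H40.Jz

open Pool.Agent.H40.Bspt

variable {M : Type} (E : M → M → Prop)

/-- `σ` is a permutation of `A`: a set of pairs of elements of `A` giving a bijection `A → A` -/
def IsPerm (A σ : M) : Prop :=
  (∀ p, E p σ → ∃ x y, E x A ∧ E y A ∧ IsPair E p x y) ∧ Bij E σ A A

/-- `X` is a subset of `A` with exactly three elements -/
def IsThree (A X : M) : Prop := ∃ a b c, E a A ∧ E b A ∧ E c A ∧ a ≠ b ∧ a ≠ c ∧ b ≠ c ∧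
  ∀ z, E z X ↔ z = a ∨ z = b ∨ z = c

/-- `P` is a partition of `A` all of whose blocks are finite -/
def FinPart (A P : M) : Prop :=
  (∀ B, E B P → Sub E B A ∧ IsFin E B ∧ ∃ x, E x B) ∧ (∀ x, E x A → ∃ B, E B P ∧ E x B) ∧
    ∀ B C x, E B P → E C P → E x B → E x C → B = C

/-- the function `φ` is finite-to-one: each fibre lies in a finite set of the model -/
def Fto {p : M → Prop} {Y : Type} (φ : Subtype p → Y) : Prop :=
  ∀ y, ∃ D, IsFin E D ∧ ∀ x, φ x = y → E x.1 D

end Pool.Agent.H40.Jz
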