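import Pool.Agent.H40.JzDefs5

set_option autoImplicit false

namespace Pool.Agent.H40.Jz

open Pool.Agent.H40.Bspt

variable {M : Type} (E : M → M → Prop)

/-- `P` is a partition of `A` with finitely many blocks -/
def PartFin (A P : M) : Prop :=
  IsFin E P ∧ (∀ B, E B P → Sub E B A ∧ ∃ x, E x B) ∧ (∀ x, E x A → ∃ B, E B P ∧ E x B) ∧
    ∀ B C x, E B P → E C P → E x B → E x C → B = C

/-- `σ` is a permutation of `A` with exactly three non-fixed points -/
def Cyc3 (A σ : M) : Prop :=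
  IsPerm E A σ ∧ ∃ X, IsThree E A X ∧ ∀ x, E x A → (E x X ↔ ¬ App E σ x x)

end Pool.Agent.H40.Jz
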