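import Pool.Agent.H40.JzDefs

set_option autoImplicit false

/-! Compactness principles for two finite templates, read inside a structure `(M, E)`.  A map
`D → {0, 1}` is given by a set `c`: the value of `x` is `1` exactly when `x ∈ c`. -/

namespace Pool.Agent.H40.Jz

open Pool.Agent.H40.Bspt

variable {M : Type} (E : M → M → Prop)

/-- `c` gives a homomorphism from the restriction of the binary relation `R` to `D` into `K₂` -/
def Col2 (R D c : M) : Prop := ∀ x y, E x D → E y D → App E R x y → (E x c ↔ ¬ E y c)

/-- the compactness principle for `K₂` -/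
def CompK2 : Prop :=
  ∀ X R, (∀ D, Sub E D X → IsFin E D → ∃ c, Col2 E R D c) → ∃ c, Col2 E R X c

/-- `c` gives a homomorphism from the restriction of the ternary relations `R`, `S` to `D` into
`3LIN₂`: triples in `R` satisfy `x + y + z = 0`, triples in `S` satisfy `x + y + z = 1` -/
def Sol3 (R S D c : M) : Prop := ∀ x y z, E x D → E y D → E z D →
  (Op E R x y z → (E z c ↔ ¬ (E x c ↔ E y c))) ∧ (Op E S x y z → (E z c ↔ (E x c ↔ E y c)))

/-- the compactness principle for `3LIN₂` -/
def CompLin : Prop :=
  ∀ X R S, (∀ D, Sub E D X → IsFin E D → ∃ c, Sol3 E R S D c) → ∃ c, Sol3 E R S X c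

end Pool.Agent.H40.Jz
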