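import Pool.Agent.H40.JzDefs

set_option autoImplicit false

/-! Narrow forcings (the case `θ = ω`), read inside a structure `(M, E)`. -/

namespace Pool.Agent.H40.Jz

open Pool.Agent.H40.Bspt

variable {M : Type} (E : M → M → Prop)

/-- `a` is a von Neumann ordinal -/
def IsOrd (a : M) : Prop :=
  (∀ x, E x a → Sub E x a) ∧ ∀ x y, E x a → E y a → E x y ∨ x = y ∨ E y x

/-- `(P, R)` is a partial order with a largest element -/
def Forcing (P R : M) : Prop :=
  (∀ x, E x P → App E R x x) ∧ (∀ x y, E x P → E y P → App E R x y → App E R y x → x = y) ∧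
    (∀ x y z, E x P → E y P → E z P → App E R x y → App E R y z → App E R x z) ∧
    ∃ t, E t P ∧ ∀ x, E x P → App E R x t

/-- `p` and `q` are compatible -/
def Compat (P R p q : M) : Prop := ∃ r, E r P ∧ App E R r p ∧ App E R r q

/-- the set `e` gives an injective function from `A` into `B` -/
def InjOn (e : M) (A B : M → Prop) : Prop :=
  (∀ x, A x → ∃ y, B y ∧ App E e x y) ∧ (∀ x y z, App E e x y → App E e x z → y = z) ∧
    ∀ x y z, A x → A y → App E e x z → App E e y z → x = y

/-- every antichain is countable -/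
def Ccc (P R : M) : Prop := ∀ A, Sub E A P →
  (∀ p q, E p A → E q A → Compat E P R p q → p = q) → ∃ e, InjOn E e (E · A) (IsNat E)

/-- `f` is a function from a subset of `P` to the ordinals that agrees on compatible conditions -/
def PHom (P R f : M) : Prop :=
  (∀ z, E z f → ∃ p ξ, IsPair E z p ξ ∧ E p P ∧ IsOrd E ξ) ∧
    ∀ p q ξ η, App E f p ξ → App E f q η → Compat E P R p q → ξ = η

/-- uniformly `ω`-narrow: a function `G` assigns to every `f` as above whose range is an ordinal
an injection of the range into `ω` -/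
def UnifNarrow (P R : M) : Prop := ∃ G, (∀ f e e', App E G f e → App E G f e' → e = e') ∧
  ∀ f a, PHom E P R f → IsOrd E a → (∀ ξ, E ξ a ↔ ∃ p, App E f p ξ) →
    ∃ e, App E G f e ∧ InjOn E e (E · a) (IsNat E)

/-- `ω`-narrow: for every ordinal `μ` and every sequence `(f i)` of length `μ` of maps as above,
the union of the ranges injects into `max ω μ = ω ∪ μ` -/
def Narrow (P R : M) : Prop := ∀ μ s, IsOrd E μ →
  (∀ i, E i μ → ∃ f, App E s i f ∧ PHom E P R f) → (∀ i f g, App E s i f → App E s i g → f = g) →
    ∃ e, InjOn E e (fun ξ => ∃ i f p, E i μ ∧ App E s i f ∧ App E f p ξ) fun z => IsNat E z ∨ E z μ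

end Pool.Agent.H40.Jz
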