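import Pool.Agent.H40.KolmDefs

set_option autoImplicit false

namespace Pool.Agent.H40.Kolm

open scoped ENNReal
open Nat.Partrec.Code Encodable

abbrev Str := List Bool

def cd (y : Str) : Nat.Partrec.Code := Denumerable.ofNat _ y.length

def zz (n : ℕ) : ℕ × Bool × Str × Str := (decode n).getD default

def Ev (x y : Str) (n : ℕ) : Prop :=
  evaln (zz n).1 (cd y) (encode ((zz n).2.1 :: (zz n).2.2.1, y)) = some (encode x) ∧
    evaln (zz n).1 (cd y) (encode ((!(zz n).2.1) :: (zz n).2.2.2, y)) = some (encode ([] : Str))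

instance (x y : Str) (n : ℕ) : Decidable (Ev x y n) := by unfold Ev; infer_instance

theorem ev_prim (x : Str) : PrimrecPred fun z : Str × ℕ => Ev x z.1 z.2 := by
  have hz : Primrec fun z : Str × ℕ => zz z.2 :=
    (Primrec.option_getD_default.comp Primrec.decode).comp Primrec.snd
  have hc : Primrec fun z : Str × ℕ => cd z.1 :=
    (Primrec.ofNat _).comp (Primrec.list_length.comp Primrec.fst)
  have h1 : ∀ f : Str × ℕ → Str, Primrec f →
      Primrec fun z : Str × ℕ => evaln (zz z.2).1 (cd z.1) (encode (f z, z.1)) := fun f hf =>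
    primrec_evaln.comp (((Primrec.fst.comp hz).pair hc).pair
      (Primrec.encode.comp (hf.pair Primrec.fst)))
  have hb : Primrec fun z : Str × ℕ => (zz z.2).2.1 := Primrec.fst.comp (Primrec.snd.comp hz)
  have hp : Primrec fun z : Str × ℕ => (zz z.2).2.2 := Primrec.snd.comp (Primrec.snd.comp hz)
  exact PrimrecPred.and
    (Primrec.eq.comp (h1 _ (Primrec.list_cons.comp hb (Primrec.fst.comp hp))) (Primrec.const _))
    (Primrec.eq.comp (h1 _ (Primrec.list_cons.comp (Primrec.not.comp hb) (Primrec.snd.comp hp)))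
      (Primrec.const _))

def st (y : Str) (n : ℕ) : ℕ :=
  n.rec (motive := fun _ => ℕ) 0 fun n s =>
    if s = 0 then (if Ev [true] y n then 1 else if Ev [false] y n then 2 else 0) else s

theorem st_succ (y : Str) (n : ℕ) : st y (n + 1) = if st y n = 0 then
    (if Ev [true] y n then 1 else if Ev [false] y n then 2 else 0) else st y n := rfl

theorem gen_prim (A B : Str → ℕ → Prop) [∀ y n, Decidable (A y n)] [∀ y n, Decidable (B y n)]
    (hA : PrimrecPred fun z : Str × ℕ => A z.1 z.2) (hB : PrimrecPred fun z : Str × ℕ => B z.1 z.2) :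
    Primrec₂ fun (y : Str) (n : ℕ) => (n.rec (motive := fun _ => ℕ) 0 fun n s =>
      if s = 0 then (if A y n then 1 else if B y n then 2 else 0) else s : ℕ) := by
  have h0 : Primrec fun z : Str × ℕ × ℕ => (z.1, z.2.1) :=
    Primrec.fst.pair (Primrec.fst.comp Primrec.snd)
  have hg : Primrec fun z : Str × ℕ × ℕ => if z.2.2 = 0 then
      (if A z.1 z.2.1 then 1 else if B z.1 z.2.1 then 2 else 0) else z.2.2 :=
    Primrec.ite (Primrec.eq.comp (Primrec.snd.comp Primrec.snd) (Primrec.const 0))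
      (Primrec.ite (hA.comp h0) (Primrec.const 1)
        (Primrec.ite (hB.comp h0) (Primrec.const 2) (Primrec.const 0)))
      (Primrec.snd.comp Primrec.snd)
  exact Primrec.nat_rec (Primrec.const 0) hg.to₂

theorem st_prim : Primrec₂ st := gen_prim (Ev [true]) (Ev [false]) (ev_prim _) (ev_prim _)

theorem st_stable (y : Str) {n m : ℕ} (h : n ≤ m) (h0 : st y n ≠ 0) : st y m = st y n := by
  induction h with
  | refl => rfl
  | step _ ih => rw [st_succ, ih, if_neg h0]

theorem st_one (y : Str) (n : ℕ) (h : st y n = 1) : ∃ m, Ev [true] y m := by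
  induction n with
  | zero => exact absurd h (by simp [st])
  | succ n ih =>
    rw [st_succ] at h
    split_ifs at h with h1 h2 h3
    · exact ⟨n, h2⟩
    · omega
    · exact ih h

theorem st_two (y : Str) (n : ℕ) (h : st y n = 2) : ∃ m, Ev [false] y m := by
  induction n with
  | zero => exact absurd h (by simp [st])
  | succ n ih =>
    rw [st_succ] at h
    by_cases h1 : st y n = 0
    · by_contra hc
      rw [if_pos h1, if_neg (fun h3 => hc ⟨n, h3⟩)] at h
      split_ifs at h
      omega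
    · rw [if_neg h1] at h
      exact ih h

theorem st_le (y : Str) (n : ℕ) : st y n ≤ 2 := by
  induction n with
  | zero => simp [st]
  | succ n ih => rw [st_succ]; split_ifs <;> omega

theorem st_lim (y : Str) : ∃ n₀, ∀ n ≥ n₀, st y n = st y n₀ := by
  by_cases h : ∃ n, st y n ≠ 0
  · obtain ⟨n, hn⟩ := h
    exact ⟨n, fun m hm => st_stable y hm hn⟩
  · push Not at h
    exact ⟨0, fun n _ => (h n).trans (h 0).symm⟩

def kk (s : ℕ) (x : Str) : ℕ :=
  if x = [false] then (if s = 1 then 1 else 2) else if x = [true] then (if s = 2 then 1 else 2)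
    else encode x + 3

noncomputable def lim (y : Str) : ℕ := st y (st_lim y).choose

noncomputable def KK (x y : Str) : ℤ := kk (lim y) x

theorem cast_prim : Primrec (Nat.cast : ℕ → ℤ) :=
  Primrec.encode_iff.1 (Primrec.nat_double.of_eq fun n => by
    show 2 * n = Equiv.intEquivNat (n : ℤ)
    rfl)

theorem kk_prim : Primrec₂ kk :=
  Primrec.ite (Primrec.eq.comp Primrec.snd (Primrec.const _))
    (Primrec.ite (Primrec.eq.comp Primrec.fst (Primrec.const _)) (Primrec.const _)
      (Primrec.const _))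
    (Primrec.ite (Primrec.eq.comp Primrec.snd (Primrec.const _))
      (Primrec.ite (Primrec.eq.comp Primrec.fst (Primrec.const _)) (Primrec.const _)
        (Primrec.const _))
      (Primrec.nat_add.comp (Primrec.encode.comp Primrec.snd) (Primrec.const _)))

theorem kk_sum (s : ℕ) : ∑' x, (2⁻¹ : ℝ≥0∞) ^ kk s x ≤ 1 := by
  have h1 : ∀ x : Str, (2⁻¹ : ℝ≥0∞) ^ kk s x ≤
      ((if x = [false] then (2⁻¹ : ℝ≥0∞) ^ kk s [false] else 0) +
        (if x = [true] then (2⁻¹ : ℝ≥0∞) ^ kk s [true] else 0)) +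
          2⁻¹ ^ (encode x + 3) := by
    intro x
    by_cases a : x = [false]
    · subst a
      exact le_add_right (le_add_right (by simp))
    · by_cases b : x = [true]
      · subst b
        exact le_add_right (le_add_left (by simp))
      · exact le_add_left (by simp [kk, a, b])
  refine (ENNReal.tsum_le_tsum h1).trans ?_
  rw [ENNReal.tsum_add, ENNReal.tsum_add, tsum_ite_eq, tsum_ite_eq]
  have h2 : ∑' x : Str, (2⁻¹ : ℝ≥0∞) ^ (encode x + 3) ≤ 2⁻¹ ^ 2 := by
    refine (ENNReal.tsum_comp_le_tsum_of_injective encode_injective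
      fun n => (2⁻¹ : ℝ≥0∞) ^ (n + 3)).trans (le_of_eq ?_)
    simp only [pow_add, ENNReal.tsum_mul_right, ENNReal.tsum_geometric]
    rw [ENNReal.one_sub_inv_two, inv_inv, pow_succ' _ 2, ← mul_assoc,
      ENNReal.mul_inv_cancel (by simp) (by simp), one_mul]
  have h3 : (2⁻¹ : ℝ≥0∞) ^ 2 + 2⁻¹ ^ 2 = 2⁻¹ := by
    rw [pow_two, ← mul_add, ENNReal.inv_two_add_inv_two, mul_one]
  have h4 : (2⁻¹ : ℝ≥0∞) ^ 2 ≤ 2⁻¹ ^ 1 :=
    pow_le_pow_right_of_le_one' (by simp) (by omega)
  have h5 : (2⁻¹ : ℝ≥0∞) ^ kk s [false] + 2⁻¹ ^ kk s [true] ≤ 2⁻¹ ^ 1 + 2⁻¹ ^ 2 := by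
    by_cases a : s = 1
    · subst a
      exact le_rfl
    · by_cases b : s = 2
      · subst b
        exact (add_comm _ _).le
      · simp only [kk, a, b, if_true, if_false, List.cons.injEq, and_true, Bool.true_eq_false]
        exact add_le_add h4 le_rfl
  refine (add_le_add h5 h2).trans (le_of_eq ?_)
  rw [add_assoc, h3, pow_one, ENNReal.inv_two_add_inv_two]

theorem admissible : Admissible KK := by
  refine ⟨⟨fun n x y => kk (st y n) x, ?_, fun n x y => ?_, fun x y => ?_⟩, fun y => ?_⟩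
  · exact (cast_prim.comp (kk_prim.comp (st_prim.comp (Primrec.snd.comp Primrec.snd) Primrec.fst)
      (Primrec.fst.comp Primrec.snd))).to_comp
  · refine Int.ofNat_le.2 ?_
    by_cases h : st y n = 0
    · simp only [h, kk]
      split_ifs <;> first | omega | contradiction
    · rw [st_stable y (Nat.le_add_right n 1) h]
  · exact ⟨_, fun n hn => congrArg (fun s => (kk s x : ℤ)) ((st_lim y).choose_spec n hn)⟩
  · refine le_of_eq_of_le (tsum_congr fun x => ?_) (kk_sum (lim y))
    rw [KK, ENNReal.zpow_neg, zpow_natCast, ENNReal.inv_pow]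

theorem main (U : Str → Str →. Str) (hU : Partrec₂ U)
    (hc : ∀ y p p' x x', p <+: p' → x ∈ U p y → x' ∈ U p' y → x = x') : ¬ Realises U KK := by
  intro hR
  obtain ⟨c, hc'⟩ := exists_code.1 hU
  let y : Str := List.replicate (encode c) false
  have hy : cd y = c := by simp [cd, y]
  have hev : ∀ p x : Str, x ∈ U p y ↔ encode x ∈ eval c (encode (p, y)) := by
    intro p x
    rw [hc']
    simp only [encodek, Part.coe_some, Part.bind_some, Part.mem_map_iff, encode_inj,
      exists_eq_right]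
  have E1 : ∀ x n, Ev x y n → ∃ h p q, x ∈ U (h :: p) y ∧ [] ∈ U ((!h) :: q) y := by
    rintro x n ⟨h1, h2⟩
    rw [hy] at h1 h2
    exact ⟨_, _, _, (hev _ _).2 (evaln_sound h1), (hev _ _).2 (evaln_sound h2)⟩
  have E2 : ∀ x h p q, x ∈ U (h :: p) y → [] ∈ U ((!h) :: q) y → ∃ n, Ev x y n := by
    intro x h p q h1 h2
    obtain ⟨s, h3⟩ := evaln_complete.1 ((hev _ _).1 h1)
    obtain ⟨s', h4⟩ := evaln_complete.1 ((hev _ _).1 h2)
    refine ⟨encode (max s s', h, p, q), ?_⟩
    have : zz (encode (max s s', h, p, q)) = (max s s', h, p, q) := by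
      rw [zz, encodek]; rfl
    rw [Ev, this, hy]
    exact ⟨evaln_mono (le_max_left _ _) h3, evaln_mono (le_max_right _ _) h4⟩
  have P : ∀ x, ∃ p : Str, p.length = kk (lim y) x ∧ x ∈ U p y := fun x => by
    obtain ⟨p, h1, h2⟩ := (hR x y).1
    exact ⟨p, by rw [KK] at h1; exact_mod_cast h1, h2⟩
  have one : ∀ x x', x ≠ x' → x ≠ [] → kk (lim y) x = 1 → ∀ n, ¬ Ev x' y n := by
    intro x x' h1 h2 h3 n hn
    obtain ⟨h, p, q, h4, h5⟩ := E1 _ _ hn
    obtain ⟨r, h6, h7⟩ := P x
    obtain ⟨g, rfl⟩ := List.length_eq_one_iff.1 (h6.trans h3)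
    by_cases e : g = h
    · exact h1 (hc _ _ _ _ _ (by simp [e]) h7 h4)
    · exact h2 (hc _ _ _ _ _ (by simp [Bool.eq_not.2 e]) h7 h5)
  have l2 := st_le y (st_lim y).choose
  by_cases c1 : lim y = 1
  · obtain ⟨m, hm⟩ := st_one y _ c1
    exact one [false] [true] (by simp) (by simp) (by simp [kk, c1]) m hm
  by_cases c2 : lim y = 2
  · obtain ⟨m, hm⟩ := st_two y _ c2
    exact one [true] [false] (by simp) (by simp) (by simp [kk, c2]) m hm
  have c0 : lim y = 0 := by unfold lim at *; omega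
  have no : ∀ n, ¬ Ev [true] y n ∧ ¬ Ev [false] y n := by
    intro n
    have h1 : st y (n + 1) = 0 := by
      by_contra h
      have h2 := st_stable y (le_max_left (n + 1) (st_lim y).choose) h
      rw [(st_lim y).choose_spec _ (le_max_right _ _)] at h2
      exact h (h2.symm.trans c0)
    rw [st_succ] at h1
    split_ifs at h1 with a b c
    · exact ⟨b, c⟩
    · exact absurd h1 a
  obtain ⟨pa, a1, a2⟩ := P [false]
  obtain ⟨pb, b1, b2⟩ := P [true]
  obtain ⟨pt, t1, t2⟩ := P []
  obtain ⟨g1, g2, rfl⟩ := List.length_eq_two.1 (a1.trans (by simp [kk, c0]))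
  obtain ⟨g3, g4, rfl⟩ := List.length_eq_two.1 (b1.trans (by simp [kk, c0]))
  obtain ⟨g5, g6, g7, rfl⟩ := List.length_eq_three.1 (t1.trans (by simp [kk]))
  obtain rfl : g5 = g1 := by
    by_contra e
    obtain ⟨n, hn⟩ := E2 _ _ _ _ a2 (Bool.eq_not.2 e ▸ t2)
    exact (no n).2 hn
  obtain rfl : g5 = g3 := by
    by_contra e
    obtain ⟨n, hn⟩ := E2 _ _ _ _ b2 (Bool.eq_not.2 e ▸ t2)
    exact (no n).1 hn
  by_cases e1 : g2 = g6
  · exact absurd (hc _ _ _ _ _ (by simp [e1]) a2 t2) (by simp)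
  by_cases e2 : g4 = g6
  · exact absurd (hc _ _ _ _ _ (by simp [e2]) b2 t2) (by simp)
  have e3 : g2 = g4 := by cases g2 <;> cases g4 <;> cases g6 <;> simp_all
  exact absurd (hc _ _ _ _ _ (by simp [e3]) a2 b2) (by simp)

end Pool.Agent.H40.Kolm
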