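import Mathlib

set_option autoImplicit false

namespace Pool.Agent.H40.Kolm

open scoped ENNReal

/-- `K(x | y)` (first argument `x`, second `y`) is admissible: integer-valued, the limit of a
non-increasing uniformly computable sequence of total functions, and `∑ₓ 2^(-K(x|y)) ≤ 1`. -/
def Admissible (K : List Bool → List Bool → ℤ) : Prop :=
  (∃ A : ℕ → List Bool → List Bool → ℤ,
    Computable (fun z : ℕ × List Bool × List Bool => A z.1 z.2.1 z.2.2) ∧
    (∀ n x y, A (n + 1) x y ≤ A n x y) ∧ ∀ x y, ∃ n₀, ∀ n ≥ n₀, A n x y = K x y) ∧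
  ∀ y, ∑' x, (2 : ℝ≥0∞) ^ (-K x y) ≤ 1

/-- For each condition `y`, no halting program is a proper initial segment of another one. -/
def PrefixFree (U : List Bool → List Bool →. List Bool) : Prop :=
  ∀ y p p', p ≠ p' → p <+: p' → ¬ ((U p y).Dom ∧ (U p' y).Dom)

/-- `U(p, y) = x` implies `U(p', y) = x` for every extension `p'` of `p`. -/
def PrefixStable (U : List Bool → List Bool →. List Bool) : Prop :=
  ∀ y p p' x, p <+: p' → x ∈ U p y → x ∈ U p' y

/-- `C_U(x | y) = K(x | y)` for all `x, y`. -/
def Realises (U : List Bool → List Bool →. List Bool) (K : List Bool → List Bool → ℤ) : Prop :=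
  ∀ x y, IsLeast {n : ℤ | ∃ p : List Bool, (p.length : ℤ) = n ∧ x ∈ U p y} (K x y)

end Pool.Agent.H40.Kolm
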