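import Pool.Agent.H40.LppDefs

set_option autoImplicit false

namespace Pool.Agent.H40.Lpp

theorem sat_not {W : Type} (R : W → W → Prop) (θ : ℕ → W → Prop) (a : Fm) :
    ∀ w, sat R θ a.not w ↔ ¬ sat R θ a w := by
  induction a <;> intro w <;> simp_all [Fm.not, sat]
  tauto

theorem sat_imp {W : Type} (R : W → W → Prop) (θ : ℕ → W → Prop) (a b : Fm) (w : W) :
    sat R θ (a.imp b) w ↔ (sat R θ a w → sat R θ b w) := by
  simp only [Fm.imp, sat, sat_not]; tauto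

theorem sat_iff {W : Type} (R : W → W → Prop) (θ : ℕ → W → Prop) (a b : Fm) (w : W) :
    sat R θ (a.iff b) w ↔ (sat R θ a w ↔ sat R θ b w) := by
  simp only [Fm.iff, sat, sat_imp]; tauto

theorem val_not {A : Type} [BooleanAlgebra A] (d : A → A) (θ : ℕ → A) (a : Fm) :
    val d θ a.not = (val d θ a)ᶜ := by
  induction a <;> simp_all [Fm.not, val, compl_inf]

/-- The formula, for given diamond and box. -/
def phi (D B : Fm → Fm) (x y z : Fm) : Fm :=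
  .or (D (.and x (D (.and y (D x)))))
    (.and (B (.or x (.or y z))) (.and (D x) (B (.or (B x.not) (.or x z)))))

def Phi {W : Type} [LinearOrder W] (x y z : W → Prop) (w : W) : Prop :=
  (∃ u, w ≤ u ∧ x u ∧ ∃ u', u ≤ u' ∧ y u' ∧ ∃ u'', u' ≤ u'' ∧ x u'') ∨
    ((∀ u, w ≤ u → x u ∨ y u ∨ z u) ∧ (∃ u, w ≤ u ∧ x u) ∧
      ∀ u, w ≤ u → (∀ u', u ≤ u' → ¬ x u') ∨ x u ∨ z u)

theorem Phi_mono {W : Type} [LinearOrder W] {x y z x' y' z' : W → Prop} (hx : ∀ u, x u → x' u)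
    (hy : ∀ u, y u → y' u) (hz : ∀ u, z u → z' u) (w : W) (h : Phi x y z w) : Phi x' y' z' w := by
  rcases h with ⟨u, h1, h2, u', h3, h4, u'', h5, h6⟩ | ⟨h1, ⟨u, h2, h3⟩, h4⟩
  · exact Or.inl ⟨u, h1, hx _ h2, u', h3, hy _ h4, u'', h5, hx _ h6⟩
  · by_contra hc
    refine hc (Or.inr ⟨fun v hv => (h1 v hv).imp (hx v) (Or.imp (hy v) (hz v)),
      ⟨u, h2, hx _ h3⟩, fun v hv => ?_⟩)
    rcases h4 v hv with h5 | h5
    · rcases h1 v hv with h6 | h6 | h6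
      · exact Or.inr (Or.inl (hx _ h6))
      · refine Or.inl fun v' h7 h8 => hc (Or.inl ⟨u, h2, hx _ h3, v, ?_, hy _ h6, v', h7, h8⟩)
        exact (le_total u v).elim id fun h => absurd h3 (h5 u h)
      · exact Or.inr (Or.inr (hz _ h6))
    · exact Or.inr (h5.imp (hx v) (hz v))

def Dp (a : Fm) : Fm := .or a (.dia a)
def Bp (a : Fm) : Fm := .and a (.box a)

theorem sat_le {W : Type} [LinearOrder W] (θ : ℕ → W → Prop) (x y z : Fm) (w : W) :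
    sat (· ≤ ·) θ (phi .dia .box x y z) w ↔
      Phi (sat (· ≤ ·) θ x) (sat (· ≤ ·) θ y) (sat (· ≤ ·) θ z) w := by
  simp only [phi, sat, sat_not, Phi]

theorem sat_lt {W : Type} [LinearOrder W] (θ : ℕ → W → Prop) (x y z : Fm) (w : W) :
    sat (· < ·) θ (phi Dp Bp x y z) w ↔
      Phi (sat (· < ·) θ x) (sat (· < ·) θ y) (sat (· < ·) θ z) w := by
  have hD : ∀ a (w : W), sat (· < ·) θ (Dp a) w ↔ ∃ u, w ≤ u ∧ sat (· < ·) θ a u := by
    intro a w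
    simp only [Dp, sat, le_iff_eq_or_lt, or_and_right, exists_or, exists_eq_left']
  have hB : ∀ a (w : W), sat (· < ·) θ (Bp a) w ↔ ∀ u, w ≤ u → sat (· < ·) θ a u := by
    intro a w
    simp only [Bp, sat, le_iff_eq_or_lt, or_imp, forall_and, forall_eq']
  simp only [phi, sat, sat_not, Phi, hD, hB]

theorem mono_alg (L : Set Fm) (D B : Fm → Fm)
    (hD : ∀ (A : Type) [BooleanAlgebra A] (d : A → A), ∃ D' B' : A → A, ∀ θ a,
      val d θ (D a) = D' (val d θ a) ∧ val d θ (B a) = B' (val d θ a))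
    (h : (phi D B (.pos 1) (.pos 2) (.pos 3)).imp
      (phi D B (.or (.pos 1) (.pos 5)) (.or (.pos 2) (.pos 6)) (.or (.pos 3) (.pos 7))) ∈ L) :
    MonotoneIn L [1, 2, 3] (phi D B (.pos 1) (.pos 2) (.pos 3)) := by
  intro A _ d _ _ hL θ₁ θ₂ _ hle
  obtain ⟨D', B', hD⟩ := hD A d
  have h1 := hL _ h fun n => if n < 4 then θ₁ n else θ₂ (n - 4)
  have e1 : θ₁ 1 ⊔ θ₂ 1 = θ₂ 1 := sup_eq_right.2 (hle 1 (by simp))
  have e2 : θ₁ 2 ⊔ θ₂ 2 = θ₂ 2 := sup_eq_right.2 (hle 2 (by simp))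
  have e3 : θ₁ 3 ⊔ θ₂ 3 = θ₂ 3 := sup_eq_right.2 (hle 3 (by simp))
  rw [Fm.imp, val, val_not, sup_comm, ← himp_eq, himp_eq_top_iff] at h1
  simp only [phi, val, val_not, fun θ a => (hD θ a).1, fun θ a => (hD θ a).2] at h1 ⊢
  norm_num only [if_true, if_false] at h1
  rwa [e1, e2, e3] at h1

def depth : Fm → ℕ
  | .and a b => max (depth a) (depth b)
  | .or a b => max (depth a) (depth b)
  | .dia a => depth a + 1
  | .box a => depth a + 1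
  | _ => 0

theorem pres {W : Type} (R : W → W → Prop) (θ θ' : ℕ → W → Prop) (P : List ℕ) (N : ℕ)
    (Z : ℕ → W → W → Prop) (h1 : ∀ k x y n, Z k x y → θ n x → θ' n y)
    (h2 : ∀ k x y n, n ∉ P → Z k x y → θ' n y → θ n x)
    (h3 : ∀ k x y, k < N → Z (k + 1) x y → ∀ x', R x x' → ∃ y', R y y' ∧ Z k x' y')
    (h4 : ∀ k x y, k < N → Z (k + 1) x y → ∀ y', R y y' → ∃ x', R x x' ∧ Z k x' y')
    (b : Fm) (hb : PosIn P b) : ∀ k x y, depth b ≤ k → k ≤ N → Z k x y →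
      sat R θ b x → sat R θ' b y := by
  induction b with
  | pos n => exact fun k x y _ _ hz => h1 k x y n hz
  | neg n => exact fun k x y _ _ hz h h' => h (h2 k x y n hb hz h')
  | bot => exact fun _ _ _ _ _ _ h => h
  | top => exact fun _ _ _ _ _ _ h => h
  | and a b iha ihb =>
    exact fun k x y hd hk hz => And.imp (iha hb.1 k x y (le_of_max_le_left hd) hk hz)
      (ihb hb.2 k x y (le_of_max_le_right hd) hk hz)
  | or a b iha ihb =>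
    exact fun k x y hd hk hz => Or.imp (iha hb.1 k x y (le_of_max_le_left hd) hk hz)
      (ihb hb.2 k x y (le_of_max_le_right hd) hk hz)
  | dia a ih =>
    rintro (_ | k) x y hd hk hz ⟨x', h5, h6⟩
    · simp [depth] at hd
    · obtain ⟨y', h7, h8⟩ := h3 k x y hk hz x' h5
      exact ⟨y', h7, ih hb k x' y' (Nat.le_of_succ_le_succ hd) (Nat.le_of_succ_le hk) h8 h6⟩
  | box a ih =>
    rintro (_ | k) x y hd hk hz h6 y' h5
    · simp [depth] at hd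
    · obtain ⟨x', h7, h8⟩ := h4 k x y hk hz y' h5
      exact ih hb k x' y' (Nat.le_of_succ_le_succ hd) (Nat.le_of_succ_le hk) h8 (h6 x' h7)

/-- The word `3 1^N 2^N 3^N` on positions `0, …, 3N`. -/
def tu (N n i : ℕ) : Prop :=
  (n = 1 ∧ 0 < i ∧ i ≤ N) ∨ (n = 2 ∧ N < i ∧ i ≤ 2 * N) ∨ (n = 3 ∧ (i = 0 ∨ 2 * N < i))

/-- The word `3 2^N (13)^N (23)^N` on positions `0, …, 3N`. -/
def tv (N n i : ℕ) : Prop :=
  (n = 1 ∧ N < i ∧ i ≤ 2 * N) ∨ (n = 2 ∧ ((0 < i ∧ i ≤ N) ∨ 2 * N < i)) ∨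
    (n = 3 ∧ (i = 0 ∨ N < i))

def ZZ (N k i j : ℕ) : Prop :=
  (i = 0 ∧ j = 0) ∨ (0 < i ∧ i ≤ N ∧ N < j ∧ j ≤ i + N) ∨ (0 < j ∧ j ≤ N ∧ N < i ∧ i ≤ j + N) ∨
    (N < i ∧ i ≤ 2 * N ∧ 2 * N < j ∧ j + k ≤ 3 * N) ∨
    (N < j ∧ j ≤ 2 * N ∧ 2 * N < i ∧ i + k ≤ 3 * N) ∨
    (2 * N < i ∧ 2 * N < j ∧ (i = j ∨ (i + k ≤ 3 * N ∧ j + k ≤ 3 * N)))

theorem ZZ_symm {N k i j : ℕ} (h : ZZ N k i j) : ZZ N k j i := by
  unfold ZZ at *; omega

theorem ZZ_step {N k i j i' : ℕ} (hk : k < N) (h : ZZ N (k + 1) i j) (h1 : i < i')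
    (h2 : i' < 3 * N + 1) : ∃ j', j' < 3 * N + 1 ∧ j < j' ∧ ZZ N k i' j' := by
  unfold ZZ at *
  by_cases c1 : i' ≤ N
  · exact ⟨max (j + 1) (N + 1), by omega, by omega, by omega⟩
  · by_cases c2 : i' ≤ 2 * N
    · exact ⟨max (j + 1) (2 * N + 1), by omega, by omega, by omega⟩
    · exact ⟨max (j + 1) i', by omega, by omega, by omega⟩

theorem Phi_u (N : ℕ) (hN : 0 < N) : Phi (W := Fin (3 * N + 1)) (fun i => tu N 1 i)
    (fun i => tu N 2 i) (fun i => tu N 3 i) ⟨0, by omega⟩ := by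
  refine Or.inr ⟨fun u _ => ?_, ⟨⟨1, by omega⟩, Fin.mk_le_mk.2 (by omega), ?_⟩, fun u _ => ?_⟩
  · unfold tu; omega
  · exact Or.inl ⟨rfl, Nat.one_pos, hN⟩
  · by_cases h : u.1 ≤ N
    · right; unfold tu; omega
    · left
      intro u' hu
      have : u.1 ≤ u'.1 := hu
      unfold tu; omega

theorem Phi_v (N : ℕ) (hN : 0 < N) : ¬ Phi (W := Fin (3 * N + 1)) (fun i => tv N 1 i)
    (fun i => tv N 2 i) (fun i => tv N 3 i) ⟨0, by omega⟩ := by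
  rintro (⟨u, -, h2, u', h3, h4, u'', h5, h6⟩ | ⟨-, -, h⟩)
  · have : u.1 ≤ u'.1 := h3
    have : u'.1 ≤ u''.1 := h5
    unfold tv at *; omega
  · rcases h ⟨1, by omega⟩ (Fin.mk_le_mk.2 (by omega)) with h | h
    · refine h ⟨N + 1, by omega⟩ (Fin.mk_le_mk.2 (by omega)) ?_
      show tv N 1 (N + 1)
      unfold tv; omega
    · have h' : tv N 1 1 ∨ tv N 3 1 := h
      unfold tv at h'; omega

theorem gl3 : FailsLPP GL3 := by
  refine ⟨[1, 2, 3], phi Dp Bp (.pos 1) (.pos 2) (.pos 3), mono_alg _ _ _ (fun A _ d =>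
    ⟨fun x => x ⊔ d x, fun x => x ⊓ (d xᶜ)ᶜ, fun _ _ => ⟨rfl, rfl⟩⟩) ?_, ?_⟩
  · intro W _ _ θ w
    rw [sat_imp, sat_lt, sat_lt]
    exact Phi_mono (fun _ => Or.inl) (fun _ => Or.inl) (fun _ => Or.inl) w
  · rintro ⟨b, hb, h⟩
    let N := depth b + 1
    have hN : 0 < N := Nat.succ_pos _
    have k1 := (sat_iff _ _ _ _ _).1 (h (Fin (3 * N + 1)) (fun n i => tu N n i) ⟨0, by omega⟩)
    have k2 := (sat_iff _ _ _ _ _).1 (h (Fin (3 * N + 1)) (fun n i => tv N n i) ⟨0, by omega⟩)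
    rw [sat_lt] at k1 k2
    refine Phi_v N hN (k2.2 (pres (W := Fin (3 * N + 1)) _ _ _ [1, 2, 3] N
      (fun k i j => ZZ N k i j) ?_ ?_ ?_ ?_ b hb N
      _ _ (Nat.le_succ _) le_rfl (Or.inl ⟨rfl, rfl⟩) (k1.1 (Phi_u N hN))))
    · intro k x y n; unfold ZZ tu tv; omega
    · intro k x y n hn _ h
      simp only [List.mem_cons, List.not_mem_nil] at hn
      unfold tv at h; omega
    · intro k x y hk hz x' hx
      obtain ⟨j, h1, h2, h3⟩ := ZZ_step hk hz hx x'.2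
      exact ⟨⟨j, h1⟩, h2, h3⟩
    · intro k x y hk hz x' hx
      obtain ⟨j, h1, h2, h3⟩ := ZZ_step hk (ZZ_symm hz) hx x'.2
      exact ⟨⟨j, h1⟩, h2, ZZ_symm h3⟩

theorem ZZ_step' {i j i' : ℕ} (h : ZZ 1 0 i j) (h0 : j < 4) (h1 : i ≤ i')
    (h2 : i' < 4) : ∃ j', j' < 4 ∧ j ≤ j' ∧ ZZ 1 0 i' j' := by
  unfold ZZ at *
  by_cases c0 : i' = 0
  · exact ⟨0, by omega, by omega, by omega⟩
  · by_cases c1 : i' = 1
    · exact ⟨2, by omega, by omega, by omega⟩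
    · exact ⟨3, by omega, by omega, by omega⟩

theorem grz3 : FailsLPP Grz3 := by
  refine ⟨[1, 2, 3], phi .dia .box (.pos 1) (.pos 2) (.pos 3), mono_alg _ _ _ (fun A _ d =>
    ⟨fun x => d x, fun x => (d xᶜ)ᶜ, fun _ _ => ⟨rfl, rfl⟩⟩) ?_, ?_⟩
  · intro W _ _ θ w
    rw [sat_imp, sat_le, sat_le]
    exact Phi_mono (fun _ => Or.inl) (fun _ => Or.inl) (fun _ => Or.inl) w
  · rintro ⟨b, hb, h⟩
    have k1 := (sat_iff _ _ _ _ _).1 (h (Fin (3 * 1 + 1)) (fun n i => tu 1 n i) ⟨0, by omega⟩)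
    have k2 := (sat_iff _ _ _ _ _).1 (h (Fin (3 * 1 + 1)) (fun n i => tv 1 n i) ⟨0, by omega⟩)
    rw [sat_le] at k1 k2
    refine Phi_v 1 one_pos (k2.2 (pres (W := Fin (3 * 1 + 1)) _ _ _ [1, 2, 3] (depth b)
      (fun _ i j => ZZ 1 0 i j)
      ?_ ?_ ?_ ?_ b hb _ _ _ le_rfl le_rfl (Or.inl ⟨rfl, rfl⟩) (k1.1 (Phi_u 1 one_pos))))
    · intro k x y n; unfold ZZ tu tv; omega
    · intro k x y n hn _ h
      simp only [List.mem_cons, List.not_mem_nil] at hn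
      unfold tv at h; omega
    · intro k x y _ hz x' hx
      obtain ⟨j, h1, h2, h3⟩ := ZZ_step' hz y.2 hx x'.2
      exact ⟨⟨j, h1⟩, h2, h3⟩
    · intro k x y _ hz x' hx
      obtain ⟨j, h1, h2, h3⟩ := ZZ_step' (ZZ_symm hz) x.2 hx x'.2
      exact ⟨⟨j, h1⟩, h2, ZZ_symm h3⟩

end Pool.Agent.H40.Lpp
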