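import Mathlib

set_option autoImplicit false

namespace Pool.Agent.H40.Lpp

/-- Formulas built from literals and constants by and, or, diamond, box. -/
inductive Fm : Type
  | pos : ℕ → Fm
  | neg : ℕ → Fm
  | bot : Fm
  | top : Fm
  | and : Fm → Fm → Fm
  | or : Fm → Fm → Fm
  | dia : Fm → Fm
  | box : Fm → Fm

/-- Negation, by the De Morgan and modal duality laws. -/
def Fm.not : Fm → Fm
  | .pos n => .neg n
  | .neg n => .pos n
  | .bot => .top
  | .top => .bot
  | .and a b => .or a.not b.not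
  | .or a b => .and a.not b.not
  | .dia a => .box a.not
  | .box a => .dia a.not

def Fm.imp (a b : Fm) : Fm := .or a.not b

def Fm.iff (a b : Fm) : Fm := .and (a.imp b) (b.imp a)

/-- `PosIn P a`: no literal `¬p` with `p` in the tuple `P` occurs in `a`. -/
def PosIn (P : List ℕ) : Fm → Prop
  | .pos _ => True
  | .neg n => n ∉ P
  | .bot => True
  | .top => True
  | .and a b => PosIn P a ∧ PosIn P b
  | .or a b => PosIn P a ∧ PosIn P b
  | .dia a => PosIn P a
  | .box a => PosIn P a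

/-- Kripke semantics. -/
def sat {W : Type} (R : W → W → Prop) (θ : ℕ → W → Prop) : Fm → W → Prop
  | .pos n, w => θ n w
  | .neg n, w => ¬ θ n w
  | .bot, _ => False
  | .top, _ => True
  | .and a b, w => sat R θ a w ∧ sat R θ b w
  | .or a b, w => sat R θ a w ∨ sat R θ b w
  | .dia a, w => ∃ u, R w u ∧ sat R θ a u
  | .box a, w => ∀ u, R w u → sat R θ a u

/-- `GL.3`: the logic of all finite strict linear orders. -/
def GL3 : Set Fm :=
  {a | ∀ (W : Type) [LinearOrder W] [Finite W] (θ : ℕ → W → Prop) (w : W), sat (· < ·) θ a w}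

/-- `Grz.3`: the logic of all finite reflexive linear orders. -/
def Grz3 : Set Fm :=
  {a | ∀ (W : Type) [LinearOrder W] [Finite W] (θ : ℕ → W → Prop) (w : W), sat (· ≤ ·) θ a w}

/-- The value of a formula in a Boolean algebra with an operator `d` under a valuation. -/
def val {A : Type} [BooleanAlgebra A] (d : A → A) (θ : ℕ → A) : Fm → A
  | .pos n => θ n
  | .neg n => (θ n)ᶜ
  | .bot => ⊥
  | .top => ⊤
  | .and a b => val d θ a ⊓ val d θ b
  | .or a b => val d θ a ⊔ val d θ b
  | .dia a => d (val d θ a)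
  | .box a => (d (val d θ a)ᶜ)ᶜ

/-- `a` is `P`-monotone in `L`: monotone in the variables of `P` in every modal algebra
validating `L`. -/
def MonotoneIn (L : Set Fm) (P : List ℕ) (a : Fm) : Prop :=
  ∀ (A : Type) [BooleanAlgebra A] (d : A → A), d ⊥ = ⊥ → (∀ x y, d (x ⊔ y) = d x ⊔ d y) →
    (∀ b ∈ L, ∀ θ, val d θ b = ⊤) →
    ∀ θ₁ θ₂ : ℕ → A, (∀ n, n ∉ P → θ₁ n = θ₂ n) → (∀ n ∈ P, θ₁ n ≤ θ₂ n) →
      val d θ₁ a ≤ val d θ₂ a

/-- `L` fails the Lyndon positivity property. -/
def FailsLPP (L : Set Fm) : Prop :=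
  ∃ (P : List ℕ) (a : Fm), MonotoneIn L P a ∧ ¬ ∃ b, PosIn P b ∧ a.iff b ∈ L

end Pool.Agent.H40.Lpp
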