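import Pool.Agent.H40.Js11

set_option autoImplicit false

/-! A symmetric extension by generic sets indexed by a vector space over the two-element field. -/

namespace Pool.Agent.H40.Lv

open Pool.Agent.H42.ZF Pool.Agent.H40.Js Set Filter Cardinal

variable {V : Type} [AddCommGroup V] [Module (ZMod 2) V]

abbrev SV (V : Type) [AddCommGroup V] [Module (ZMod 2) V] := Submodule (ZMod 2) V
abbrev GV (V : Type) [AddCommGroup V] [Module (ZMod 2) V] := V ≃ₗ[ZMod 2] V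

theorem la {S F : SV V} (δ : V →ₗ[ZMod 2] V) (h1 : ∀ x ∈ F, δ x ∈ S)
    (h2 : ∀ x ∈ F, x ∈ S → δ x = 0) : ∃ m : GV V, (∀ x ∈ F, m x = x + δ x) ∧ ∀ x ∈ S, m x = x := by
  let f : V →ₗ.[ZMod 2] S := ⟨F, (δ.domRestrict F).codRestrict S fun x => h1 x x.2⟩
  let g : V →ₗ.[ZMod 2] S := ⟨S, 0⟩
  have h : ∀ (x : f.domain) (y : g.domain), (x : V) = y → f x = g y := fun x y e =>
    Subtype.ext (h2 x x.2 (e ▸ y.2))
  obtain ⟨N, hN⟩ := (f.sup g h).toFun.exists_extend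
  have a : ∀ x ∈ F, (N x : V) = δ x := fun x hx => congrArg Subtype.val
    ((LinearMap.congr_fun hN ⟨x, (f.left_le_sup g h).1 hx⟩).trans
      ((f.left_le_sup g h).2 (x := ⟨x, hx⟩) rfl).symm)
  have b : ∀ x ∈ S, N x = 0 := fun x hx => (LinearMap.congr_fun hN ⟨x, (f.right_le_sup g h).1 hx⟩).trans
    ((f.right_le_sup g h).2 (x := ⟨x, hx⟩) rfl).symm
  have c : ∀ x, N (N x) = 0 := fun x => b _ (N x).2
  refine ⟨LinearEquiv.ofLinearMap (LinearMap.id + S.subtype ∘ₗ N) (LinearMap.id - S.subtype ∘ₗ N)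
    (LinearMap.ext fun x => by simp [c]) (LinearMap.ext fun x => by simp [c]),
    fun x hx => by simp [a x hx], fun x hx => by simp [b x hx]⟩

def Fx (F : SV V) (g : GV V) : Prop := ∀ x ∈ F, g x = x

theorem Fx.mul {F : SV V} {a b : GV V} (ha : Fx F a) (hb : Fx F b) : Fx F (a * b) :=
  fun x hx => by show a (b x) = x; rw [hb x hx, ha x hx]

theorem Fx.inv {F : SV V} {a : GV V} (ha : Fx F a) : Fx F a⁻¹ :=
  fun x hx => a.symm_apply_eq.2 (ha x hx).symm

theorem Fx.mono {F G : SV V} {a : GV V} (ha : Fx G a) (h : F ≤ G) : Fx F a := fun x hx => ha x (h hx)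

theorem fx_one (F : SV V) : Fx F 1 := fun _ _ => rfl

structure Hv (θ : Cardinal.{0}) (V K : Type) [AddCommGroup V] [Module (ZMod 2) V] : Prop where
  reg : θ.IsRegular
  unc : ℵ₀ < θ
  le : θ ≤ #K
  far : ∀ W : SV V, #W < θ → ∃ σ : V →ₗ[ZMod 2] V, ∀ x ∈ W, σ x ∈ W → x = 0

variable {θ : Cardinal.{0}} {K : Type}

theorem away (H : Hv θ V K) {F W : SV V} (h : F ≤ W) (hW : #W < θ) :
    ∃ g : GV V, Fx F g ∧ ∀ x ∈ W, g x ∈ W → x ∈ F := by
  obtain ⟨σ, hσ⟩ := H.far W hW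
  obtain ⟨π, hπ⟩ := (LinearMap.id : F →ₗ[ZMod 2] F).exists_extend
  have p : ∀ x ∈ F, (π x : V) = x := fun x hx => congrArg Subtype.val (LinearMap.congr_fun hπ ⟨x, hx⟩)
  obtain ⟨m, h1, -⟩ := la (S := W.map σ) (F := W) (σ ∘ₗ (LinearMap.id - F.subtype ∘ₗ π))
    (fun x hx => ⟨_, W.sub_mem hx (h (π x).2), rfl⟩) (by
      rintro _ hx ⟨y, hy, rfl⟩
      rw [hσ y hy hx]; simp)
  refine ⟨m, fun x hx => by simp [h1 x (h hx), p x hx], fun x hx e => ?_⟩
  rw [h1 x hx, W.add_mem_iff_right hx] at e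
  rw [sub_eq_zero.1 (hσ _ (W.sub_mem hx (h (π x).2)) e)]
  exact (π x).2

theorem stat {F G : SV V} {b : GV V} (h1 : Fx (F ⊓ G) b) (h2 : ∀ x ∈ G, b x ∈ F ⊔ G → x ∈ F) :
    ∃ m : GV V, Fx F m ∧ ∀ x ∈ G, m x = b x := by
  let δ : V →ₗ[ZMod 2] V := b.toLinearMap - LinearMap.id
  obtain ⟨m, h3, h4⟩ := la (S := F ⊔ G.map δ) (F := G) δ
    (fun x hx => Submodule.mem_sup_right ⟨x, hx, rfl⟩) fun x hx e => by
      obtain ⟨f, hf, _, ⟨y, hy, rfl⟩, rfl⟩ := Submodule.mem_sup.1 e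
      have e1 : b y = (f + δ y) - f + y := by simp [δ]
      have e2 : δ y = 0 := sub_eq_zero.2 (h1 y ⟨h2 y hy (e1 ▸ add_mem (sub_mem
        (Submodule.mem_sup_right hx) (Submodule.mem_sup_left hf)) (Submodule.mem_sup_right hy)), hy⟩)
      rw [e2, add_zero] at hx ⊢
      exact sub_eq_zero.2 (h1 f ⟨hf, hx⟩)
  exact ⟨m, fun x hx => h4 x (Submodule.mem_sup_left hx), fun x hx => by simp [h3 x hx, δ]⟩

abbrev PV (θ : Cardinal.{0}) (V K : Type) : Type := Fn θ (V × K) Bool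

instance gvAct : MulAction (GV V) (PV θ V K) where
  smul g p := ⟨fun x => p.f (g.symm x.1, x.2), lt_of_le_of_lt (mk_le_of_injective
    (f := fun x => (⟨(g.symm x.1.1, x.1.2), x.2⟩ : {x | p.f x ≠ none})) fun a b h => by
      have h1 := congrArg Subtype.val h
      simp only [Prod.mk.injEq, EmbeddingLike.apply_eq_iff_eq] at h1
      exact Subtype.ext (Prod.ext h1.1 h1.2)) p.small⟩
  one_smul p := Fn.ext' rfl
  mul_smul g h p := Fn.ext' rfl

theorem gv_f (g : GV V) (p : PV θ V K) (x : V) (k : K) : (g • p).f (g x, k) = p.f (x, k) := by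
  show p.f (g.symm (g x), k) = _
  rw [g.symm_apply_apply]

instance : Mo (GV V) (PV θ V K) := ⟨fun _ _ _ h _ k hk => h _ k hk⟩

def Fi (F : SV V) : Prop := (F : Set V).Finite

theorem Fi.sup {F G : SV V} (hF : Fi F) (hG : Fi G) : Fi (F ⊔ G) :=
  (hF.image2 (· + ·) hG).subset fun _ hx => Submodule.mem_sup.1 hx

theorem Fi.map {F : SV V} (hF : Fi F) (g : GV V) : Fi (F.map g.toLinearMap) := hF.image _

theorem fi_bot : Fi (⊥ : SV V) := by simp [Fi]

instance : NF (GV V) where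
  F := { sets := {J | ∃ F, Fi F ∧ ∀ g, Fx F g → g ∈ J}
         univ_sets := ⟨⊥, fi_bot, fun _ _ => trivial⟩
         sets_of_superset := fun ⟨F, a, b⟩ h => ⟨F, a, fun g c => h (b g c)⟩
         inter_sets := fun ⟨F, a, b⟩ ⟨G, c, d⟩ => ⟨_, a.sup c, fun g e =>
          ⟨b g (e.mono le_sup_left), d g (e.mono le_sup_right)⟩⟩ }
  conj h := fun _ ⟨F, a, b⟩ => ⟨_, a.map h, fun g c => b _ fun x hx =>
    h.symm_apply_eq.2 (c _ ⟨x, hx, rfl⟩)⟩
  inv := fun _ ⟨F, a, b⟩ => ⟨F, a, fun _ c => b _ c.inv⟩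

theorem ev_iff {p : GV V → Prop} : (∀ᶠ g in NF.F, p g) ↔ ∃ F, Fi F ∧ ∀ g, Fx F g → p g := Iff.rfl

def Iv (F : SV V) (y : Nm (PV θ V K)) : Prop := ∀ g, Fx F g → Eqv (act g y) y

theorem Iv.mono {F G : SV V} {y : Nm (PV θ V K)} (h : Iv F y) (h' : F ≤ G) : Iv G y :=
  fun g hg => h g (hg.mono h')

theorem Iv.eq {F : SV V} {y : Nm (PV θ V K)} (h : Iv F y) {a b : GV V} (h2 : ∀ x ∈ F, a x = b x) :
    Eqv (act a y) (act b y) := by
  have := (h (b⁻¹ * a) fun x hx => b.symm_apply_eq.2 (h2 x hx)).act b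
  rwa [act_mul, mul_inv_cancel_left] at this

theorem Iv.act {F : SV V} {y : Nm (PV θ V K)} (h : Iv F y) (a : GV V) :
    Iv (F.map a.toLinearMap) (act a y) := fun g hg => by
  rw [act_mul]
  exact h.eq fun x hx => hg _ ⟨x, hx, rfl⟩

def cv (F : SV V) : Set (V × K) := {z | z.1 ∈ F}

def dv (p : PV θ V K) : SV V := Submodule.span _ (Prod.fst '' {z | p.f z ≠ none})

theorem mem_dv {p : PV θ V K} {x : V} {k : K} {b : Bool} (h : p.f (x, k) = some b) : x ∈ dv p :=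
  Submodule.subset_span ⟨(x, k), by simp [h], rfl⟩

theorem span_small (hθ : ℵ₀ < θ) {s : Set V} (h : #s < θ) : #(Submodule.span (ZMod 2) s) < θ := by
  have : #(Submodule.span (ZMod 2) s) ≤ #(s →₀ ZMod 2) :=
    (mk_le_mk_of_subset (t := range (Finsupp.linearCombination (ZMod 2) (Subtype.val : s → V)))
      fun x hx => by
        rw [← Subtype.range_coe (s := s), ← Finsupp.range_linearCombination] at hx
        exact hx).trans mk_range_le
  refine this.trans_lt ?_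
  rcases finite_or_infinite s with e | e
  · haveI := Finite.of_injective _ (DFunLike.coe_injective (F := s →₀ ZMod 2))
    exact lt_aleph0_of_finite _ |>.trans hθ
  · rw [mk_finsupp_of_infinite]
    exact max_lt h ((lt_aleph0_of_finite _).trans hθ)

theorem dv_small (hθ : ℵ₀ < θ) (p : PV θ V K) : #(dv p) < θ := span_small hθ (small_im _ p.small)

theorem sup_small (hθ : ℵ₀ < θ) {F G : SV V} (a : #F < θ) (b : #G < θ) : #(F ⊔ G : SV V) < θ := by
  rw [← F.span_eq, ← G.span_eq, ← Submodule.span_union]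
  exact span_small hθ (small_un hθ.le a b)

theorem Fi.small (hθ : ℵ₀ < θ) {F : SV V} (h : Fi F) : #F < θ := h.lt_aleph0.trans hθ

theorem join (hθ : ℵ₀ ≤ θ) {p q : PV θ V K} (g : GV V)
    (h : ∀ x k a b, q.f (g x, k) = some a → p.f (x, k) = some b → a = b) :
    ∃ r, r ≤ q ∧ r ≤ g • p ∧ ∀ z v, r.f z = some v → q.f z = some v ∨ (g • p).f z = some v := by
  refine ⟨_, Fn.un_le hθ q _, Fn.un_le' _ fun z a b c d => ?_,
    fun z v e => (Fn.un_some.1 e).imp_right And.right⟩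
  obtain ⟨z, k⟩ := z
  obtain ⟨z, rfl⟩ := g.surjective z
  exact h z k a b c (gv_f g p z k ▸ d)

theorem restr (H : Hv θ V K) {F : SV V} (hF : Fi F) {Q : Ult (PV θ V K) → Prop} [C Q]
    (hQ : ∀ g, Fx F g → ∀ U, Q U → Q (mv g U)) {p : PV θ V K} (h : Frc p Q) :
    Frc (p.res (cv F)) Q := by
  refine cl.dense fun q hq => ?_
  obtain ⟨g, h1, h2⟩ := away H (W := F ⊔ (dv p ⊔ dv q)) le_sup_left (sup_small H.unc (hF.small H.unc)
    (sup_small H.unc (dv_small H.unc p) (dv_small H.unc q)))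
  obtain ⟨r, h3, h4, -⟩ := join H.unc.le (p := p) (q := q) g fun x k a b c d => by
    have := h2 x (Submodule.mem_sup_right (Submodule.mem_sup_left (mem_dv d)))
      (Submodule.mem_sup_right (Submodule.mem_sup_right (mem_dv c)))
    rw [h1 x this] at c
    exact Option.some.inj (c.symm.trans (hq _ _ (Fn.res_some.2 ⟨this, d⟩)))
  exact ⟨r, h3, (frc_mv (h.imp (hQ g h1))).mono h4⟩

theorem restr_eq (H : Hv θ V K) {F : SV V} (hF : Fi F) {x y : Nm (PV θ V K)}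
    (hx : Iv F x) (hy : Iv F y) {p : PV θ V K} (h : Frc p fun U => mk U x = mk U y) :
    Frc (p.res (cv F)) fun U => mk U x = mk U y :=
  restr H hF (fun g hg U e => by rw [← hx g hg, ← hy g hg, mk_mv]; exact e) h

theorem fix_res {g : GV V} {F : SV V} (h : Fx F g) (p : PV θ V K) :
    g • p.res (cv F) = p.res (cv F) := by
  refine Fn.ext' (funext fun z => Option.ext fun v => ?_)
  obtain ⟨z, η⟩ := z
  obtain ⟨z, rfl⟩ := g.surjective z
  rw [gv_f, Fn.res_some, Fn.res_some]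
  refine ⟨fun e => by rw [h z e.1]; exact e, fun e => ?_⟩
  rwa [g.injective (h _ e.1)] at e

end Pool.Agent.H40.Lv
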