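import Pool.Agent.H40.Lv1

set_option autoImplicit false

/-! Supports can be shrunk; every matching of the symmetric model has a selector. -/

namespace Pool.Agent.H40.Lv

open Pool.Agent.H42.ZF Pool.Agent.H40.Js Set Filter Cardinal

variable {V : Type} [AddCommGroup V] [Module (ZMod 2) V] {θ : Cardinal.{0}} {K : Type}

theorem res_eq {a b : GV V} {F : SV V} (h : ∀ x ∈ F, a x = b x) (p : PV θ V K) :
    a • p.res (cv F) = b • p.res (cv F) := by
  rw [← fix_res (g := a⁻¹ * b) (fun x hx => a.symm_apply_eq.2 (h x hx).symm) p, ← mul_smul,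
    mul_inv_cancel_left, fix_res (g := a⁻¹ * b) (fun x hx => a.symm_apply_eq.2 (h x hx).symm) p]

def Co (k : GV V) (y : Nm (PV θ V K)) (t : PV θ V K) : Prop :=
  ∀ U : Ult (PV θ V K), Iic t ∈ U.U ∧ Iic (k • t) ∈ U.U → mk U (act k y) = mk U y

theorem Co.mv {k : GV V} {y : Nm (PV θ V K)} {t : PV θ V K} (h : Co k y t) (j : GV V)
    (U : Ult (PV θ V K)) (a : Iic (j • t) ∈ U.U) (b : Iic ((j * k) • t) ∈ U.U) :
    mk U (act (j * k) y) = mk U (act j y) := by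
  obtain ⟨U, rfl⟩ := mv_surj j U
  rw [← act_mul, mk_mv]
  exact h U ⟨G_mv.1 a, G_mv.1 (mul_smul j k t ▸ b)⟩

theorem coh (H : Hv θ V K) {F0 F : SV V} (hF : Fi F) {y : Nm (PV θ V K)} (hy : Iv F y) {k : GV V}
    (hk : Fx F0 k) (hk' : ∀ x ∈ F, k x ∈ F → x ∈ F0) {r : PV θ V K} (hr : Co k y (r.res (cv F)))
    (k' : GV V) (h2 : Fx F0 k') : Co k' y (r.res (cv F)) := by
  refine by_dense fun s hs => ?_
  obtain ⟨s', s1, s2, s3⟩ := ex_low hs
  let G := F.map k.toLinearMap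
  let W := F ⊔ G ⊔ dv s'
  have hW : #W < θ := sup_small H.unc ((hF.sup (hF.map k)).small H.unc) (dv_small H.unc _)
  obtain ⟨j, j1, j2⟩ := away H (F := F) (W := W ⊔ W.map k'.symm.toLinearMap)
    (le_sup_of_le_left (le_sup_of_le_left le_sup_left)) (sup_small H.unc hW (small_im _ hW))
  have j3 : ∀ x ∈ G, (k' * j) x ∈ W → x ∈ F := fun x hx e => j2 x (Submodule.mem_sup_left
    (Submodule.mem_sup_left (Submodule.mem_sup_right hx)))
    (Submodule.mem_sup_right ⟨_, e, k'.symm_apply_apply _⟩)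
  have j4 : ∀ x ∈ F, k x ∈ F → (k' * j) (k x) = x := fun x hx e => by
    show k' (j (k x)) = x
    rw [j1 _ e, hk x (hk' x hx e), h2 x (hk' x hx e)]
  obtain ⟨m, m1, m2⟩ := stat (F := F) (G := G) (b := k' * j) (by
    rintro _ ⟨e, x, hx, rfl⟩
    exact (j4 x hx e).trans (hk x (hk' x hx e)).symm) fun x hx e => j3 x hx (Submodule.mem_sup_left e)
  have m3 : ∀ x ∈ F, (m * k) x = (k' * j * k) x := fun x hx => m2 _ ⟨x, hx, rfl⟩
  obtain ⟨q, q1, q2, -⟩ := join H.unc.le (p := r.res (cv F)) (q := s') (k' * j * k)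
    fun x η a b c d => by
      have e := (Fn.res_some.1 d).1
      rw [show (k' * j * k) x = x from j4 x e
        (j3 _ ⟨x, e, rfl⟩ (Submodule.mem_sup_right (mem_dv c)))] at c
      exact Option.some.inj (c.symm.trans (s2 _ _ d))
  refine ⟨q, q1.trans s1, fun U hU => ?_⟩
  have a := hr.mv m U (by rw [fix_res m1]; exact frc_G (q1.trans s2) U hU)
    (by rw [res_eq m3]; exact frc_G q2 U hU)
  have b := hr.mv (k' * j) U (by rw [mul_smul, fix_res j1]; exact frc_G (q1.trans s3) U hU)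
    (frc_G q2 U hU)
  dsimp only
  rw [← hy m m1, ← a, hy.eq m3, b, ← act_mul, (hy j j1).act]

theorem fam_iv {F : SV V} {ι : Type} {A : ι → Nm (PV θ V K)} {Q : ι → Ult (PV θ V K) → Prop}
    [∀ i, C (Q i)] (h : ∀ g, Fx F g → ∀ i, ∃ i', act g (A i) = A i' ∧ ∀ U, Q i U → Q i' (mv g U)) :
    Iv F (fam A Q) := by
  have key : ∀ g, Fx F g → ∀ U z, E U (mk U z) (mk U (fam A Q)) →
      E (mv g U) (mk _ (act g z)) (mk _ (fam A Q)) := by
    intro g hg U z hz
    rw [← act_inv g (fam A Q), E_mv]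
    refine fam_cases (R := fun U => E U (mk U z) (mk U (act g⁻¹ (fam A Q)))) (fun i W a e => ?_) U hz
    obtain ⟨i', b, c⟩ := h g hg i
    rw [← E_mv (g := g), act_inv, mk_mv.2 e, b]
    exact fam_intro i' (c W a)
  exact fun g hg => eqv_of_sub (key g hg) (key _ hg.inv)

theorem hs_iv {F : SV V} (hF : Fi F) {ι : Type} {A : ι → Nm (PV θ V K)}
    {Q : ι → Ult (PV θ V K) → Prop} (h : Iv F (fam A Q)) (h' : ∀ i, HS (GV V) (A i)) :
    HS (GV V) (fam A Q) := hs_fam (ev_iff.2 ⟨F, hF, h⟩) h'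

theorem mix {F : SV V} (hF : Fi F) {y : Nm (PV θ V K)} (hy : HS (GV V) y) {t : PV θ V K}
    (hc : ∀ k, Fx F k → Co k y t) :
    ∃ w, HS (GV V) w ∧ Iv F w ∧ Frc t fun U => mk U y = mk U w := by
  obtain ⟨ι, B, b⟩ := y
  let w := fam (fun i : {k // Fx F k} × ι => act i.1.1 (B i.2))
    fun i U => Iic (i.1.1 • t) ∈ U.U ∧ Iic (i.1.1 • b i.2) ∈ U.U
  have iw : Iv F w := fam_iv fun g hg i => ⟨(⟨_, hg.mul i.1.2⟩, i.2), act_mul _ _ _,
    fun U a => by simpa only [mul_smul, G_mv] using a⟩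
  refine ⟨w, hs_iv hF iw fun i => hs_act _ (hy.2 _), iw, fun U hU => M_ext fun z => ?_⟩
  obtain ⟨z, rfl⟩ := mk_surj z
  refine ⟨fun e => mem_cases (R := fun U => Iic t ∈ U.U → E U (mk U z) (mk U w))
    (fun j W a e c => ?_) U e hU, fun e => fam_cases (R := fun U => Iic t ∈ U.U →
      E U (mk U z) (mk U (.mk ι B b))) (fun i W a e c => ?_) U e hU⟩
  · rw [e, ← act_one (Γ := GV V) (Nm.A _ j)]
    exact fam_intro (A := fun i : {k // Fx F k} × ι => act i.1.1 (B i.2)) (⟨1, fx_one F⟩, j)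
      (by simp only [one_smul]; exact ⟨c, a⟩)
  · rw [e, ← hc _ i.1.2 W ⟨c, a.1⟩]
    exact mem_intro (act i.1.1 (.mk ι B b)) i.2 W a.2

/-- a name equal to a name with an independent support has a smaller support -/
theorem shrink (H : Hv θ V K) {F G : SV V} (hF : Fi F) (hG : Fi G) (r : PV θ V K)
    {y z : Nm (PV θ V K)} (hy : HS (GV V) y) (iy : Iv F y) (iz : Iv G z)
    (h : Frc r fun U => mk U y = mk U z) :
    ∃ w, HS (GV V) w ∧ Iv (F ⊓ G) w ∧ Frc (r.res (cv F)) fun U => mk U y = mk U w := by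
  obtain ⟨k, k1, k2⟩ := away H (F := G) (W := F ⊔ G ⊔ dv r) (le_sup_of_le_left le_sup_right)
    (sup_small H.unc ((hF.sup hG).small H.unc) (dv_small H.unc _))
  have m1 : ∀ x ∈ F, x ∈ F ⊔ G ⊔ dv r := fun x hx => Submodule.mem_sup_left (Submodule.mem_sup_left hx)
  have m2 : ∀ {x η v}, r.f (x, η) = some v → x ∈ F ⊔ G ⊔ dv r := fun hx =>
    Submodule.mem_sup_right (mem_dv hx)
  obtain ⟨q, q1, q2, q3⟩ := join H.unc.le (p := r) (q := r) k fun x η a b c d => by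
    rw [k1 x (k2 x (m2 d) (m2 c))] at c
    exact Option.some.inj (c.symm.trans d)
  have e := restr_eq H (hF.sup (hF.map k)) ((iy.act k).mono le_sup_right) (iy.mono le_sup_left)
    (p := q) fun U hU => by
      have := frc_mv (g := k) (Q := fun U => mk U (act k y) = mk U (act k z))
        (h.imp fun U e => mk_mv.2 e) U (frc_G q2 U hU)
      dsimp only at this ⊢
      rw [this, iz k k1, ← show mk U y = mk U z from h.mono q1 U hU]
  refine mix (F := F ⊓ G) (hF.subset fun _ h => h.1) hy (coh H hF iy (k := k) (k1.mono inf_le_right)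
    (fun x hx a => ⟨hx, k2 x (m1 x hx) (m1 _ a)⟩) fun U ⟨a, b⟩ => e U ?_)
  filter_upwards [a, b] with s sa sb ⟨x, η⟩ v hz
  obtain ⟨c, d⟩ := Fn.res_some.1 hz
  obtain ⟨f, hf, _, ⟨f', hf', rfl⟩, rfl⟩ := Submodule.mem_sup.1 c
  rcases q3 _ _ d with d | d
  · refine sa _ _ (Fn.res_some.2 ⟨add_mem hf ?_, d⟩)
    have := k1 _ (k2 _ (m1 _ hf') ((Submodule.add_mem_iff_right _ (m1 _ hf)).1 (m2 d)))
    exact this.symm ▸ hf'
  · obtain ⟨f, rfl⟩ := k.surjective f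
    rw [show k f + k.toLinearMap f' = k (f + f') from (k.map_add _ _).symm] at d ⊢
    refine sb _ _ ?_
    rw [gv_f] at d ⊢
    refine Fn.res_some.2 ⟨add_mem ?_ hf', d⟩
    exact k1 _ (k2 _ ((Submodule.add_mem_iff_left _ (m1 _ hf')).1 (m2 d)) (m1 _ hf)) ▸ hf

theorem sep2 (H : Hv θ V K) {x y : V} (hc : x ≠ y) (p : PV θ V K) :
    ∃ q ≤ p, ∃ η, q.f (x, η) = some true ∧ q.f (y, η) = some false := by
  obtain ⟨η, hη⟩ : ∃ η, η ∉ Prod.snd '' {z | p.f z ≠ none} := by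
    by_contra h
    push Not at h
    exact (p.small.trans_le H.le).not_ge
      (((mk_univ ..).symm.le.trans (mk_le_mk_of_subset fun η _ => h η)).trans mk_image_le)
  have hn : ∀ z, p.f (z, η) = none := fun z => by_contra fun h => hη ⟨_, h, rfl⟩
  obtain ⟨q, h1, h2, h3⟩ := p.add H.unc.le (hn x) true
  obtain ⟨r, h4, h5, -⟩ := q.add H.unc.le (x := (y, η))
    (by rw [h3 _ (by simpa using Ne.symm hc), hn]) false
  exact ⟨r, h4.trans h1, η, h4 _ _ h2, h5⟩

def Mt (ρ : Nm (PV θ V K)) (U : Ult (PV θ V K)) : Prop :=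
  ∀ a b, App (E U) (mk U ρ) a b → (App (E U) (mk U ρ) b a ∧ a ≠ b) ∧
    ∀ c, App (E U) (mk U ρ) a c → b = c

theorem app_mv {P Γ : Type} [Preorder P] [Group Γ] [MulAction Γ P] [Mo Γ P] {g : Γ} {U : Ult P}
    {f a b : Nm P} (h : App (E U) (mk U f) (mk U a) (mk U b)) :
    App (E _) (mk (mv g U) (act g f)) (mk _ (act g a)) (mk _ (act g b)) := by
  obtain ⟨p, h1, h2⟩ := h
  rw [h2.uniq (isPair_kpair a b)] at h1
  refine ⟨_, E_mv.2 h1, ?_⟩
  have up : ∀ x y : Nm P, Eqv (act g (upair x y)) (upair (act g x) (act g y)) := fun x y =>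
    act_eq fun U z => by rw [mem_upair, mem_upair, mk_mv, mk_mv]
  have : mk (mv g U) (act g (kpair a b)) = mk _ (kpair (act g a) (act g b)) := by
    rw [kpair, up]
    exact M_ext fun z => by rw [mem_upair, kpair, mem_upair, up, up]
  rw [this]
  exact isPair_kpair _ _

theorem app_L {P Γ : Type} [Preorder P] [Group Γ] [MulAction Γ P] [NF Γ] {U : Ult P}
    {f a b : M U} (hf : L Γ U f) (h : App (E U) f a b) : L Γ U a ∧ L Γ U b := by
  obtain ⟨p, h1, h2⟩ := h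
  obtain ⟨z, hz⟩ := ex_upair a b
  have := L_tr ((h2 z).2 (Or.inr hz)) (L_tr h1 hf)
  exact ⟨L_tr ((hz a).2 (Or.inl rfl)) this, L_tr ((hz b).2 (Or.inr rfl)) this⟩

theorem triple (H : Hv θ V K) {D : SV V} (hD : Fi D) {ρ : Nm (PV θ V K)} (hρ : HS (GV V) ρ)
    (iρ : Iv D ρ) {p0 : PV θ V K} (h0 : Frc (p0.res (cv D)) (Mt ρ)) {a b : Nm (PV θ V K)}
    {p : PV θ V K} (hp : p ≤ p0.res (cv D))
    (h : Frc p fun U => App (E U) (mk U ρ) (mk U a) (mk U b)) :
    ∃ (y : Bool → Nm (PV θ V K)) (t : PV θ V K), (∀ i, HS (GV V) (y i)) ∧ t ≤ p0.res (cv D) ∧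
      Frc t (fun U => App (E U) (mk U ρ) (mk U (y false)) (mk U (y true))) ∧
      (∀ g, Fx D g → ∀ r ≤ t, r ≤ g • t → ¬ Frc r fun U => mk U (act g (y false)) = mk U (y true)) ∧
      ∃ q ≤ p, q ≤ t ∧ Frc q fun U => mk U a = mk U (y false) := by
  classical
  let R : ℕ → Prop := fun n => ∃ q ≤ p, ∃ F, Fi F ∧ D ≤ F ∧ ∃ y : Bool → Nm (PV θ V K),
    (∀ i, HS (GV V) (y i) ∧ Iv F (y i)) ∧ (Frc q fun U => mk U a = mk U (y false) ∧
      mk U b = mk U (y true)) ∧ (F : Set V).ncard = n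
  have hR : ∃ n, R n := by
    obtain ⟨q, h1, y, h2, h3⟩ := L_elim (h.imp fun U e => (app_L (L_hs hρ U) e).1)
    obtain ⟨r, h4, z, h5, h6⟩ := L_elim ((h.mono h1).imp fun U e => (app_L (L_hs hρ U) e).2)
    obtain ⟨F, a1, a2⟩ := ev_iff.1 (hs_iff.1 h2).1
    obtain ⟨G, b1, b2⟩ := ev_iff.1 (hs_iff.1 h5).1
    exact ⟨_, r, h4.trans h1, D ⊔ (F ⊔ G), hD.sup (a1.sup b1), le_sup_left, fun i => cond i z y,
      by rintro (_ | _); exacts [⟨h2, Iv.mono a2 (le_sup_of_le_right le_sup_left)⟩,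
        ⟨h5, Iv.mono b2 (le_sup_of_le_right le_sup_right)⟩], frc_and (h3.mono h4) h6, rfl⟩
  obtain ⟨q', h1, F, hF, h2, y, h3, h4, h5⟩ := Nat.find_spec hR
  haveI := hF.to_subtype
  obtain ⟨q, h6, h7⟩ := fn_dist (ι := ↥(F : Set V) × ↥(F : Set V)) H.reg
    ((lt_aleph0_of_finite _).trans H.unc) (fun i => {q : PV θ V K | i.1.1 ≠ i.2.1 →
      ∃ η, q.f (i.1, η) = some true ∧ q.f (i.2, η) = some false})
    (fun i a b c d e => (d e).imp fun η f => ⟨c _ _ f.1, c _ _ f.2⟩) (fun i p => by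
      by_cases e : i.1.1 = i.2.1
      · exact ⟨p, le_rfl, fun f => absurd e f⟩
      · exact (sep2 H e p).imp fun q f => ⟨f.1, fun _ => f.2⟩) q'
  have t0 : q.res (cv F) ≤ p0.res (cv D) := fun z v e =>
    Fn.res_some.2 ⟨h2 (Fn.res_some.1 e).1, (h6.trans (h1.trans hp)) z v e⟩
  have t1 : Frc (q.res (cv F)) fun U => App (E U) (mk U ρ) (mk U (y false)) (mk U (y true)) :=
    restr H hF (fun g hg U e => by
      rw [← iρ g (hg.mono h2), ← (h3 false).2 g hg, ← (h3 true).2 g hg]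
      exact app_mv e) fun U hU => by
      have := h4.mono h6 U hU
      rw [← this.1, ← this.2]
      exact h.mono (h6.trans h1) U hU
  refine ⟨y, _, fun i => (h3 i).1, t0, t1, fun g hg r r1 r2 r3 => ?_, q, h6.trans h1, q.le_res _,
    (h4.mono h6).imp fun _ e => e.1⟩
  have g1 : ∀ x ∈ F, g x ∈ F → g x = x := fun x hx e => by_contra fun c => by
    obtain ⟨η, c1, c2⟩ := h7 (⟨_, hx⟩, ⟨_, e⟩) (Ne.symm c)
    exact Bool.noConfusion (Fn.compat r1 r2 (g x, η) false true (Fn.res_some.2 ⟨e, c2⟩)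
      (by rw [gv_f]; exact Fn.res_some.2 ⟨hx, c1⟩))
  have r4 : Frc r fun U => mk U (y false) = mk U (act g (y true)) := fun U hU => by
    have m := h0.mono (r1.trans t0) U hU
    have c := frc_mv (g := g) (Q := fun U => App (E U) (mk U (act g ρ)) (mk U (act g (y false)))
      (mk U (act g (y true)))) (t1.imp fun U e => app_mv e) U (frc_G r2 U hU)
    dsimp only at c
    rw [iρ g hg, show mk U (act g (y false)) = _ from r3 U hU] at c
    exact (m _ _ (m _ _ (t1.mono r1 U hU)).1.1).2 _ c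
  by_cases e : F ≤ F.map g.toLinearMap
  · obtain ⟨U, hU, c⟩ := r3.ex
    rw [(h3 false).2 g fun x hx => by
      obtain ⟨z, hz, rfl⟩ := e hx
      exact congrArg g (g1 z hz hx)] at c
    exact (h0.mono (r1.trans t0) U hU _ _ (t1.mono r1 U hU)).1.2 c
  obtain ⟨w0, a1, a2, a3⟩ := shrink H hF (hF.map g) r (h3 false).1 (h3 false).2
    ((h3 true).2.act g) r4
  obtain ⟨w1, b1, b2, b3⟩ := shrink H hF (hF.map g) r (h3 true).1 (h3 true).2
    ((h3 false).2.act g) (r3.imp fun _ e => e.symm)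
  have c := Fn.un_le' H.unc.le (p := q) (q := r.res (cv F)) fun z k l c d =>
    Option.some.inj ((r1 _ _ (Fn.res_some.2 ⟨(Fn.res_some.1 d).1, c⟩)).symm.trans
      (Fn.res_some.1 d).2)
  have c' := (Fn.un_le H.unc.le q (r.res (cv F))).trans h6
  refine Nat.find_min hR (h5 ▸ ncard_lt_ncard ⟨fun _ h => h.1, fun f => e fun x hx => (f hx).2⟩ hF)
    ⟨_, c'.trans h1, F ⊓ F.map g.toLinearMap, hF.subset fun _ h => h.1,
      le_inf h2 fun x hx => ⟨x, h2 hx, hg x hx⟩, fun i => cond i w1 w0,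
      by rintro (_ | _); exacts [⟨a1, a2⟩, ⟨b1, b2⟩], fun U hU => ⟨(h4.mono c' U hU).1.trans
        (a3.mono c U hU), (h4.mono c' U hU).2.trans (b3.mono c U hU)⟩, rfl⟩

end Pool.Agent.H40.Lv
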