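import Pool.Agent.H40.Lv2

set_option autoImplicit false

/-! The selector of a matching, and the generic vector space. -/

namespace Pool.Agent.H40.Lv

open Pool.Agent.H42.ZF Pool.Agent.H40.Js Set Filter Cardinal

variable {V : Type} [AddCommGroup V] [Module (ZMod 2) V] {θ : Cardinal.{0}} {K : Type}

theorem app_iff {P Γ : Type} [Preorder P] [Group Γ] [MulAction Γ P] [Mo Γ P] {g : Γ} {U : Ult P}
    {f a b : Nm P} : App (E _) (mk (mv g U) (act g f)) (mk _ (act g a)) (mk _ (act g b)) ↔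
      App (E U) (mk U f) (mk U a) (mk U b) := by
  refine ⟨fun h => ?_, app_mv⟩
  obtain ⟨U, rfl⟩ := mv_surj g⁻¹ U
  rw [mv_inv] at h
  simpa only [inv_act] using app_mv (g := g⁻¹) h

instance (ρ : Nm (PV θ V K)) : C (Mt ρ) := by unfold Mt; infer_instance

theorem sel (H : Hv θ V K) {ρ : Nm (PV θ V K)} (hρ : HS (GV V) ρ) {p : PV θ V K}
    (h : Frc p (Mt ρ)) : ∃ c, HS (GV V) c ∧ Frc p fun U => ∀ a b, App (E U) (mk U ρ) a b →
      (E U a (mk U c) ↔ ¬ E U b (mk U c)) := by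
  obtain ⟨D, hD, iρ⟩ := ev_iff.1 (hs_iff.1 hρ).1
  have h0 := restr H hD (fun g hg U e a b => by
    obtain ⟨a, rfl⟩ := act_surj g a
    obtain ⟨b, rfl⟩ := act_surj g b
    rw [← iρ g hg, app_iff, app_iff, Ne, mk_mv]
    refine fun f => ⟨(e _ _ f).1, fun c => ?_⟩
    obtain ⟨c, rfl⟩ := act_surj g c
    rw [app_iff, mk_mv]
    exact (e _ _ f).2 _) h
  obtain ⟨X, hX⟩ := max_pr (fun U y => ∀ a b, App (E U) (mk U ρ) a b → E U a y) fun _ => cl
  replace hX := fun U => hX U (by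
    obtain ⟨u, hu⟩ := (M_zfc U).union (mk U ρ)
    obtain ⟨v, hv⟩ := (M_zfc U).union u
    refine ⟨v, fun a b ⟨q, h1, h2⟩ => ?_⟩
    obtain ⟨z, hz⟩ := ex_upair a b
    exact hv z a ((hz a).2 (Or.inl rfl)) (hu q z ((h2 z).2 (Or.inr hz)) h1))
  let I := {α : X.ι × PV θ V K // α.2 ≤ p.res (cv D) ∧ ∃ b, Frc α.2 fun U =>
    App (E U) (mk U ρ) (mk U (X.A α.1)) (mk U b)}
  choose y t h1 h2 h3 h4 h5 using fun α : I => triple H hD hρ iρ h0 α.2.1 α.2.2.choose_spec
  let G := {g : GV V // Fx D g}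
  let blk : Set I → Nm (PV θ V K) := fun S => fam (fun i : S × G × Bool => act i.2.1.1 (y i.1 i.2.2))
    fun i U => Iic (i.2.1.1 • t i.1) ∈ U.U
  have ib : ∀ S, Iv D (blk S) := fun S => fam_iv fun g hg i => ⟨(i.1, ⟨_, hg.mul i.2.1.2⟩, i.2.2),
    act_mul _ _ _, fun U a => by simpa only [mul_smul, G_mv] using a⟩
  have bi : ∀ S : Set I, ∀ α ∈ S, ∀ (g : G) i (U : Ult _), Iic (g.1 • t α) ∈ U.U →
      E U (mk U (act g.1 (y α i))) (mk U (blk S)) := fun S α a g i U e =>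
    fam_intro (A := fun i : S × G × Bool => act i.2.1.1 (y i.1 i.2.2)) (⟨α, a⟩, g, i) e
  let c := fam (fun i : I × G => act i.2.1 (y i.1 false)) fun i U => Iic (i.2.1 • t i.1) ∈ U.U ∧
    ¬ E U (mk U (act i.2.1 (y i.1 false))) (mk U (blk {β | WellOrderingRel β i.1}))
  have ic : Iv D c := fam_iv fun g hg i => ⟨(i.1, ⟨_, hg.mul i.2.2⟩), act_mul _ _ _, fun U a => by
    dsimp only
    rw [mul_smul, G_mv, ← ib _ g hg, ← act_mul, E_mv]
    exact a⟩
  have e1 : ∀ α (g : G) (U : Ult _), Iic (g.1 • t α) ∈ U.U → Mt ρ U ∧ ∀ i,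
      App (E U) (mk U ρ) (mk U (act g.1 (y α i))) (mk U (act g.1 (y α !i))) := fun α g U e => by
    have m := h0 U (frc_G (fix_res g.2 p ▸ Mo.mono g.1 (h2 α)) U e)
    have a := frc_mv (g := g.1) (Q := fun U => App (E U) (mk U (act g.1 ρ)) (mk U (act g.1 (y α false)))
      (mk U (act g.1 (y α true)))) ((h3 α).imp fun U e => app_mv e) U e
    dsimp only at a
    rw [iρ _ g.2] at a
    exact ⟨m, by rintro (_ | _); exacts [a, (m _ _ a).1.1]⟩
  have e2 : ∀ S a b U, App (E U) (mk U ρ) (mk U a) (mk U b) → E U (mk U a) (mk U (blk S)) →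
      E U (mk U b) (mk U (blk S)) := fun S a b U f e => fam_cases (R := fun U =>
        App (E U) (mk U ρ) (mk U a) (mk U b) → E U (mk U b) (mk U (blk S))) (fun i W k l f => by
      rw [((e1 _ _ W k).1 _ _ f).2 _ (l ▸ (e1 _ _ W k).2 i.2.2)]
      exact bi S _ i.1.2 _ _ W k) U e f
  have e3 : ∀ α (g : G) U, Iic (g.1 • t α) ∈ U.U →
      ¬ E U (mk U (act g.1 (y α true))) (mk U (blk {β | WellOrderingRel β α})) →
      E U (mk U (act g.1 (y α false))) (mk U c) ∧ ¬ E U (mk U (act g.1 (y α true))) (mk U c) := by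
    intro α g U a b
    refine ⟨fam_intro (A := fun i : I × G => act i.2.1 (y i.1 false)) (α, g)
      ⟨a, fun e => b (e2 _ _ _ U ((e1 α g U a).2 false) e)⟩, fun e => ?_⟩
    refine fam_cases (R := fun U => Iic (g.1 • t α) ∈ U.U →
      E U (mk U (act g.1 (y α true))) (mk U (blk {β | WellOrderingRel β α})))
      (fun i W k l a => ?_) U e a |> b
    rcases trichotomous_of WellOrderingRel i.1 α with f | f | f
    · exact l ▸ bi _ _ f _ _ W k.1
    · obtain ⟨α', g'⟩ := i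
      obtain rfl : α' = α := f
      obtain ⟨W, rfl⟩ := mv_surj g.1 W
      obtain ⟨r, -, hr⟩ := (cl (Q := fun U => (Iic (t α') ∈ U.U ∧ Iic ((g.1⁻¹ * g'.1) • t α') ∈ U.U) ∧
        mk U (act (g.1⁻¹ * g'.1) (y α' false)) = mk U (y α' true))).ex (G_mv.1 a) ⟨⟨G_mv.1 a,
          (G_mv (g := g.1)).1 (by rw [← mul_smul, mul_inv_cancel_left]; exact k.1)⟩,
          (mk_mv (g := g.1)).1 (by rw [act_mul, mul_inv_cancel_left]; exact l.symm)⟩
      obtain ⟨s, s1, s2, s3⟩ := ex_low (hr.imp fun _ e => e.1)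
      exact absurd ((hr.mono s1).imp fun _ e => e.2) (h4 α' _ (g.2.inv.mul g'.2) s s2 s3)
    · exact absurd (l ▸ bi _ _ f _ _ W a) k.2
  refine ⟨c, hs_iv hD ic fun i => hs_act _ (h1 _ _), fun U hU a b f => ?_⟩
  obtain ⟨a, rfl⟩ := mk_surj a
  obtain ⟨b, rfl⟩ := mk_surj b
  refine by_dense (H := fun U => Iic p ∈ U.U ∧ App (E U) (mk U ρ) (mk U a) (mk U b))
    (R := fun U => E U (mk U a) (mk U c) ↔ ¬ E U (mk U b) (mk U c)) (fun r hr => ?_) U ⟨hU, f⟩
  have hne : {α : I | ∃ q ≤ r, Frc q fun U => E U (mk U a) (mk U (blk {α}))}.Nonempty := by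
    obtain ⟨q, q1, q2, -⟩ := ex_low (hr.imp fun _ e => ⟨e.1, e.1⟩)
    obtain ⟨s, s1, i, -, s2⟩ := mem_elim ((hr.mono q1).imp fun U e => hX U _ _ e.2)
    let α : I := ⟨(i, s), s1.trans (q2.trans (p.le_res _)), b, fun U hU => by
      have := (hr.mono (s1.trans q1) U hU).2
      rwa [show mk U a = _ from s2 U hU] at this⟩
    obtain ⟨u, u1, u2, u3⟩ := h5 α
    refine ⟨α, u, u1.trans (s1.trans q1), fun U hU => ?_⟩
    dsimp only
    rw [show mk U a = _ from (s2.mono u1 U hU).trans (u3 U hU), ← act_one (Γ := GV V) (y _ _)]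
    exact bi {α} _ rfl ⟨1, fx_one D⟩ false U (by rw [one_smul]; exact frc_G u2 U hU)
  obtain ⟨α, ⟨q, q1, q2⟩, hm⟩ := (IsWellFounded.wf (r := WellOrderingRel)).has_min _ hne
  have na : Frc r fun U => ¬ E U (mk U a) (mk U (blk {β | WellOrderingRel β α})) := by
    by_contra e
    obtain ⟨s, s1, s2⟩ := (cl (Q := fun U => ¬ E U (mk U a)
      (mk U (blk {β | WellOrderingRel β α})))).decide e
    obtain ⟨u, u1, i, u2⟩ := fam_elim (s2.imp fun _ e => not_not.1 e)
    exact hm _ ⟨u, u1.trans s1, u2.imp fun U e => e.2 ▸ bi {i.1.1} _ rfl _ i.2.2 U e.1⟩ i.1.2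
  obtain ⟨s, s1, ⟨⟨_, rfl⟩, g, i⟩, s2⟩ := fam_elim q2
  refine ⟨s, s1.trans q1, fun U hU => ?_⟩
  obtain ⟨k, l⟩ := s2 U hU
  have f := (hr.mono (s1.trans q1) U hU).2
  have n := na.mono (s1.trans q1) U hU
  have m := ((e1 _ _ U k).1 _ _ f).2 _ (l ▸ (e1 _ _ U k).2 i)
  dsimp only at n l ⊢
  rw [l] at n
  rw [l, m]
  cases i
  · have := e3 _ g U k fun e => n (e2 _ _ _ U ((e1 _ _ U k).2 true) e)
    exact iff_of_true this.1 this.2
  · have := e3 _ g U k n
    exact iff_of_false this.2 (not_not.2 this.1)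

noncomputable def xV (x : V) : Nm (PV θ V K) :=
  fam chk fun (η : K) U => ((gen (x, η) true : LowerSet (PV θ V K)) : Set (PV θ V K)) ∈ U.U

theorem xV_act (g : GV V) (x : V) : Eqv (act g (xV x : Nm (PV θ V K))) (xV (g x)) := by
  refine fam_act (chk_act g) fun η U => ?_
  rw [mem_mv]
  exact iff_of_eq (congrArg (· ∈ U.U) (Set.ext fun p => iff_of_eq (congrArg (· = _) (gv_f g p x η))))

theorem xV_inj (H : Hv θ V K) (x y : V) (U : Ult (PV θ V K)) (h : mk U (xV x) = mk U (xV y)) :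
    x = y := by
  by_contra hc
  refine (cl (Q := fun U => mk U (xV x) ≠ mk U (xV y))).all (fun p => ?_) U h
  obtain ⟨r, h1, η, h2, h3⟩ := sep2 H hc p
  refine ⟨r, h1, fun W hW e => ?_⟩
  have a : E W (mk W (chk η)) (mk W (xV x)) := fam_intro η (frc_lower h2 W hW)
  exact fam_cases (R := fun V => ¬ Iic r ∈ V.U) (fun ζ W c d hW => by
    obtain rfl := chk_inj d
    exact Bool.noConfusion (gen_uniq c (frc_lower h3 W hW))) W (e ▸ a : E W _ (mk W (xV y))) hW

theorem fi_span (x : V) : Fi (Submodule.span (ZMod 2) {x}) :=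
  (finite_range fun a : ZMod 2 => a • x).subset fun _ h => Submodule.mem_span_singleton.1 h

theorem xV_iv {F : SV V} {x : V} (h : x ∈ F) : Iv F (xV x : Nm (PV θ V K)) := fun g hg U => by
  rw [xV_act, hg x h]

theorem xV_hs (x : V) : HS (GV V) (xV x : Nm (PV θ V K)) :=
  hs_iv (fi_span x) (xV_iv (Submodule.mem_span_singleton_self x)) fun _ => chk_hs _

noncomputable def tN (t : V × V) : Nm (PV θ V K) := kpair (kpair (xV t.1) (xV t.2)) (xV (t.1 + t.2))

theorem XN_hs : HS (GV V) (setN xV univ : Nm (PV θ V K)) :=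
  hs_fam (Eventually.of_forall fun g => setN_act g.toEquiv (xV_act g) _) fun _ => xV_hs _

theorem kp_act {g : GV V} {x y x' y' : Nm (PV θ V K)} (h1 : Eqv (act g x) x') (h2 : Eqv (act g y) y') :
    Eqv (act g (kpair x y)) (kpair x' y') := upair_act (upair_act h1 h1) (upair_act h1 h2)

theorem kp_hs {x y : Nm (PV θ V K)} (h1 : HS (GV V) x) (h2 : HS (GV V) y) : HS (GV V) (kpair x y) :=
  hs_upair (hs_upair h1 h1) (hs_upair h1 h2)

theorem RN_hs : HS (GV V) (setN tN univ : Nm (PV θ V K)) :=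
  hs_fam (Eventually.of_forall fun g => setN_act (f := tN) (g.toEquiv.prodCongr g.toEquiv) (fun t =>
    kp_act (kp_act (xV_act g t.1) (xV_act g t.2)) (g.map_add t.1 t.2 ▸ xV_act g (t.1 + t.2))) _)
    fun _ => kp_hs (kp_hs (xV_hs _) (xV_hs _)) (xV_hs _)

theorem no_hom (H : Hv θ V K) (hV : Infinite V) {c : Nm (PV θ V K)} (hc : HS (GV V) c)
    {p : PV θ V K} (h : ∀ u v, Frc p fun U => E U (mk U (xV (u + v))) (mk U c) ↔
      ¬ (E U (mk U (xV u)) (mk U c) ↔ E U (mk U (xV v)) (mk U c))) (e : V) :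
    Frc p fun U => ¬ E U (mk U (xV e)) (mk U c) := by
  obtain ⟨F, hF, ic⟩ := ev_iff.1 (hs_iff.1 hc).1
  have key : ∀ v ∉ F, Frc p fun U => ¬ E U (mk U (xV v)) (mk U c) := by
    intro v hv
    by_contra a
    obtain ⟨q, q1, q2⟩ := (cl (Q := fun U => ¬ E U (mk U (xV v)) (mk U c))).decide a
    replace q2 := q2.imp fun _ e => not_not.1 e
    let G := Submodule.span (ZMod 2) {v}
    have gv : v ∈ G := Submodule.mem_span_singleton_self v
    have z0 : ∀ x ∈ G, x ∈ F → x = 0 := fun x hx b => by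
      obtain ⟨a, rfl⟩ := Submodule.mem_span_singleton.1 hx
      by_contra d
      exact hv ((F.smul_mem_iff fun f => d (by rw [f, zero_smul])).1 b)
    let W := F ⊔ G ⊔ dv q
    have w1 : ∀ x ∈ F, x ∈ W := fun x hx => Submodule.mem_sup_left (Submodule.mem_sup_left hx)
    have w2 : ∀ x ∈ G, x ∈ W := fun x hx => Submodule.mem_sup_left (Submodule.mem_sup_right hx)
    have w3 : ∀ {x η v}, q.f (x, η) = some v → x ∈ W := fun hx => Submodule.mem_sup_right (mem_dv hx)
    obtain ⟨g, g1, g2⟩ := away H (F := F) (W := W) w1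
      (sup_small H.unc ((hF.sup (fi_span v)).small H.unc) (dv_small H.unc _))
    obtain ⟨r, r1, r2, r3⟩ := join H.unc.le (p := q) (q := q) g fun x η a b c d => by
      rw [g1 x (g2 x (w3 d) (w3 c))] at c
      exact Option.some.inj (c.symm.trans d)
    obtain ⟨m, m1, m2⟩ := la (S := F ⊔ G.map g.toLinearMap) (F := G) g.toLinearMap
      (fun x hx => Submodule.mem_sup_right ⟨x, hx, rfl⟩) fun x hx b => by
        obtain ⟨f, hf, _, ⟨y, hy, rfl⟩, rfl⟩ := Submodule.mem_sup.1 b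
        obtain rfl := z0 y hy (g2 y (w2 y hy) ((W.add_mem_iff_right (w1 f hf)).1 (w2 _ hx)))
        rw [map_zero, add_zero] at hx ⊢
        rw [z0 f hx hf, map_zero]
    have m3 : Fx F m := fun x hx => m2 x (Submodule.mem_sup_left hx)
    have mv' : ∀ (k : GV V), Fx F k → ∀ {s}, Frc s (fun U => E U (mk U (xV v)) (mk U c)) →
        Frc (k • s) fun U => E U (mk U (xV (k v))) (mk U c) := fun k hk s hs => frc_mv
      (hs.imp fun U e => by rw [← xV_act, ← ic k hk, E_mv]; exact e)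
    have t1 := restr H (hF.sup (fi_span v)) (fun k hk U e => by
      rw [← xV_iv (Submodule.mem_sup_right gv) k hk, ← ic k (hk.mono le_sup_left), E_mv]
      exact e) q2
    obtain ⟨s, s1, s2, -⟩ := join H.unc.le (p := q.res (cv (F ⊔ G))) (q := r) m fun x η a b c d => by
      obtain ⟨d1, d2⟩ := Fn.res_some.1 d
      obtain ⟨f, hf, y, hy, rfl⟩ := Submodule.mem_sup.1 d1
      have : y = 0 := z0 y hy <| by
        rw [map_add, m3 f hf, m1 y hy, ← add_assoc] at c
        rcases r3 _ _ c with c | c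
        · exact g2 y (w2 y hy) ((W.add_mem_iff_right (add_mem (w1 f hf) (w2 y hy))).1 (w3 c))
        · obtain ⟨w, hw⟩ := g.surjective (f + y)
          rw [← hw, show g w + g.toLinearMap y = g (w + y) from (g.map_add _ _).symm, gv_f] at c
          have := g2 w ((W.add_mem_iff_left (w2 y hy)).1 (w3 c)) (hw ▸ add_mem (w1 f hf) (w2 y hy))
          exact (F.add_mem_iff_right hf).1 (hw ▸ (g1 w this).symm ▸ this)
      subst this
      rw [add_zero] at c d2
      rw [m3 f hf] at c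
      exact Option.some.inj (c.symm.trans (r1 _ _ d2))
    obtain ⟨U, hU⟩ := ex_ult s
    have b := (mv' m m3 t1).mono s2 U hU
    dsimp only at b
    rw [m1 v gv] at b
    exact ((h _ _).mono (s1.trans (r1.trans q1)) U hU).1 b (iff_of_true (q2.mono (s1.trans r1) U hU)
      ((mv' g g1 q2).mono (s1.trans r2) U hU))
  obtain ⟨v, hv⟩ := (hF.sup (fi_span e)).infinite_compl.nonempty
  intro U hU a
  have := h (e - v) v U hU
  rw [sub_add_cancel] at this
  exact this.1 a (iff_of_false (key _ (fun b => hv ((Submodule.sub_mem_iff_right _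
    (Submodule.mem_sup_right (Submodule.mem_span_singleton_self e))).1 (Submodule.mem_sup_left b)))
    U hU) (key _ (fun b => hv (Submodule.mem_sup_left b)) U hU))

end Pool.Agent.H40.Lv
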