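import Pool.Agent.H40.Zf1
import Pool.Agent.H40.JzDefs3
import Pool.Agent.H40.JzDefs5

set_option autoImplicit false

/-! Definable predicates and terms by instance search; finite sets and sizes inside a model. -/

namespace Pool.Agent.H40.Zt

open Pool.Agent.H40.Bspt Pool.Agent.H40.Jz Classical

variable {M : Type} {E : M → M → Prop}

class T (E : M → M → Prop) {α : Type} (s : (α → M) → M) : Prop where
  df : Df E (Option α) fun w => w none = s fun a => w (some a)

class D (E : M → M → Prop) {α : Type} (P : (α → M) → Prop) : Prop where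
  df : Df E α P

abbrev D1 (E : M → M → Prop) (P : M → Prop) := D E fun w : Unit → M => P (w ())
abbrev D2 (E : M → M → Prop) (P : M → M → Prop) := D E fun w : Bool → M => P (w false) (w true)
abbrev D3 (E : M → M → Prop) (P : M → M → M → Prop) := D E fun w : Fin 3 → M => P (w 0) (w 1) (w 2)
abbrev T1 (E : M → M → Prop) (f : M → M) := T E fun w : Unit → M => f (w ())
abbrev T2 (E : M → M → Prop) (f : M → M → M) := T E fun w : Bool → M => f (w false) (w true)
abbrev T3 (E : M → M → Prop) (f : M → M → M → M) := T E fun w : Fin 3 → M => f (w 0) (w 1) (w 2)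

section
variable {α : Type} {P Q : (α → M) → Prop} {s t u r : (α → M) → M}

theorem T.at (s : (α → M) → M) [h : T E s] {β : Type} (i : β) (ρ : α → β) :
    Df E β fun w => w i = s fun a => w (ρ a) :=
  h.df.sub (fun w o => w (o.elim i ρ)) fun _ => Tm.var _

theorem l4 {R : M → M → M → M → Prop} (h : Df E (Fin 4) fun w => R (w 0) (w 1) (w 2) (w 3))
    [T E s] [T E t] [T E u] [T E r] : D E fun v => R (s v) (t v) (u v) (r v) := by
  have : Df E α fun v => ∃ a b c d, a = s v ∧ b = t v ∧ c = u v ∧ d = r v ∧ R a b c d := by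
    apply Df.ex'; apply Df.ex'; apply Df.ex'; apply Df.ex'
    exact (T.at s _ _).and ((T.at t _ _).and ((T.at u _ _).and ((T.at r _ _).and
      (h.sub (fun w i => w (![some (some (some none)), some (some none), some none, none] i))
        fun _ => Tm.var _))))
  exact ⟨this.congr fun v => by simp⟩

theorem l1 (R : M → Prop) [h : D1 E R] {α : Type} {s : (α → M) → M} [T E s] :
    D E fun v => R (s v) :=
  l4 (R := fun a _ _ _ => R a) (t := s) (u := s) (r := s) (h.df.sub (fun w _ => w 0) fun _ => Tm.var _)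

theorem l2 (R : M → M → Prop) [h : D2 E R] {α : Type} {s t : (α → M) → M} [T E s] [T E t] :
    D E fun v => R (s v) (t v) :=
  l4 (R := fun a b _ _ => R a b) (u := s) (r := s) (h.df.sub (fun w b => w (cond b 1 0))
    fun _ => Tm.var _)

theorem l3 (R : M → M → M → Prop) [h : D3 E R] {α : Type} {s t u : (α → M) → M} [T E s] [T E t]
    [T E u] : D E fun v => R (s v) (t v) (u v) :=
  l4 (R := fun a b c _ => R a b c) (r := s) (h.df.sub (fun w i => w i.castSucc) fun _ => Tm.var _)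

instance (a : α) : T E fun v : α → M => v a := ⟨Df.eq' (Tm.var _) (Tm.var _)⟩
instance (m : M) : T E fun _ : α → M => m := ⟨Df.eq' (Tm.var _) (Tm.const _)⟩

theorem wk (s : (α → M) → M) [T E s] : T E fun w : Option α → M => s fun a => w (some a) :=
  ⟨T.at s _ _⟩

theorem t3 (f : M → M → M → M) [h : T3 E f] {α : Type} {s t u : (α → M) → M} [T E s] [T E t]
    [T E u] : T E fun v => f (s v) (t v) (u v) :=
  haveI := wk (E := E) s
  haveI := wk (E := E) t
  haveI := wk (E := E) u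
  ⟨(l4 (R := fun a b c d => a = f b c d) (h.df.sub (fun w o => w (o.elim 0 Fin.succ))
    fun _ => Tm.var _)).df⟩

theorem t2 (f : M → M → M) [h : T2 E f] {α : Type} {s t : (α → M) → M} [T E s] [T E t] :
    T E fun v => f (s v) (t v) :=
  @t3 _ E (fun a b _ => f a b) ⟨T.at (fun w : Bool → M => f (w false) (w true)) none
    fun b => some (cond b 1 0)⟩ _ s t s _ _ _

theorem t1 (f : M → M) [h : T1 E f] {α : Type} {s : (α → M) → M} [T E s] : T E fun v => f (s v) :=
  @t3 _ E (fun a _ _ => f a) ⟨T.at (fun w : Unit → M => f (w ())) none fun _ => some 0⟩ _ s s s _ _ _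

instance [T E s] [T E t] : D E fun v => E (s v) (t v) := @l2 _ E E ⟨Df.mem' (Tm.var _) (Tm.var _)⟩ _ _ _ _ _
instance [T E s] [T E t] : D E fun v => s v = t v := @l2 _ E Eq ⟨Df.eq' (Tm.var _) (Tm.var _)⟩ _ _ _ _ _
instance [D E P] : D E fun v => ¬ P v := ⟨D.df.neg⟩
instance [D E P] [D E Q] : D E fun v => P v ∧ Q v := ⟨D.df.and D.df⟩
instance [D E P] [D E Q] : D E fun v => P v ∨ Q v := ⟨D.df.or D.df⟩
instance [D E P] [D E Q] : D E fun v => P v ↔ Q v := ⟨D.df.iff D.df⟩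
instance {R : M → (α → M) → Prop} [D E fun w : Option α → M => R (w none) fun a => w (some a)] :
    D E fun v => ∃ a, R a v := ⟨Df.ex' D.df⟩
instance {R : M → (α → M) → Prop} [D E fun w : Option α → M => R (w none) fun a => w (some a)] :
    D E fun v => ∀ a, R a v := ⟨Df.all' D.df⟩
instance [D E P] [D E Q] : D E fun v => P v → Q v := ⟨D.df.imp D.df⟩
instance [T E s] [T E t] [T E u] : D E fun v => App E (s v) (t v) (u v) :=
  @l3 _ E (App E) ⟨Df.app (Tm.var _) (Tm.var _) (Tm.var _)⟩ _ _ _ _ _ _ _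
instance [T E s] [T E t] [T E u] : D E fun v => IsPair E (s v) (t v) (u v) :=
  @l3 _ E (IsPair E) ⟨Df.pair (Tm.var _) (Tm.var _) (Tm.var _)⟩ _ _ _ _ _ _ _
instance [T E s] [T E t] [T E u] : D E fun v => Bij E (s v) (t v) (u v) :=
  @l3 _ E (Bij E) ⟨Df.bij (Tm.var _) (Tm.var _) (Tm.var _)⟩ _ _ _ _ _ _ _
instance [T E s] [T E t] : D E fun v => Sub E (s v) (t v) :=
  @l2 _ E (Sub E) ⟨Df.sub' (Tm.var _) (Tm.var _)⟩ _ _ _ _ _
instance [T E s] : D E fun v => IsFin E (s v) := @l1 _ E (IsFin E) ⟨Df.fin (Tm.var _)⟩ _ _ _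
instance [T E s] : D E fun v => IsNat E (s v) := @l1 _ E (IsNat E) ⟨Df.nat (Tm.var _)⟩ _ _ _
instance {R : M → (α → M) → Prop} [h : D E fun w : Option α → M => R (w none) fun a => w (some a)] :
    D E fun v => Few E fun a => R a v :=
  ⟨Df.ex' ((Df.fin (Tm.var _)).and (Df.all' ((h.df.sub (fun w o => w (o.elim none fun a =>
    some (some a))) fun _ => Tm.var _).imp (Df.mem' (Tm.var _) (Tm.var _)))))⟩

instance {d : ∀ v, Decidable (P v)} [h : D E P] [T E s] [T E t] :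
    T E fun v => @ite M (P v) (d v) (s v) (t v) :=
  ⟨(((h.df.sub (fun w a => w (some a)) fun _ => Tm.var _).and (T.df (s := s))).or
    ((h.df.sub (fun w a => w (some a)) fun _ => Tm.var _).neg.and (T.df (s := t)))).congr fun w => by
      split_ifs with a <;> simp [a]⟩

/-- definite description with a default value -/
noncomputable def the (d : M) (Q : M → Prop) : M :=
  if h : ∃ y, Q y ∧ ∀ z, Q z → z = y then h.choose else d

theorem the_eq {d y : M} {Q : M → Prop} (h : Q y) (h' : ∀ z, Q z → z = y) : the d Q = y := by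
  have e : ∃ y, Q y ∧ ∀ z, Q z → z = y := ⟨y, h, h'⟩
  rw [the, dif_pos e, h' _ e.choose_spec.1]

theorem the_sp {d : M} {Q : M → Prop} (h : ∃ y, Q y) (h' : ∀ y z, Q y → Q z → y = z) :
    Q (the d Q) := by
  obtain ⟨y, h⟩ := h
  rwa [the_eq h fun z a => h' z y a h]

theorem the_no {d : M} {Q : M → Prop} (h : ¬ ∃ y, Q y ∧ ∀ z, Q z → z = y) : the d Q = d := dif_neg h

theorem the_or (d : M) (Q : M → Prop) : the d Q = d ∨ Q (the d Q) := by
  unfold the
  split_ifs with h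
  exacts [Or.inr h.choose_spec.1, Or.inl rfl]

instance {R : M → (α → M) → Prop} [h : D E fun w : Option α → M => R (w none) fun a => w (some a)]
    [T E s] : T E fun v => the (s v) fun a => R a v := by
  have k : ∀ {β : Type} (i : β) (ρ : α → β), Df E β fun w => R (w i) fun a => w (ρ a) :=
    fun i ρ => h.df.sub (fun w o => w (o.elim i ρ)) fun _ => Tm.var _
  have u : ∀ {β : Type} (i : β) (ρ : α → β), Df E β fun w => R (w i) (fun a => w (ρ a)) ∧
      ∀ z, R z (fun a => w (ρ a)) → z = w i := fun i ρ =>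
    (k i ρ).and (Df.all' ((k none fun a => some (ρ a)).imp (Df.eq' (Tm.var _) (Tm.var _))))
  refine ⟨((u none some).or ((Df.ex' (R := fun y w => R y (fun a => w (some a)) ∧
    ∀ z, R z (fun a => w (some a)) → z = y) (u none fun a => some (some a))).neg.and
    (T.df (s := s)))).congr fun w => ⟨?_, fun e => ?_⟩⟩
  · rintro (a | a)
    exacts [(the_eq (Q := fun y => R y fun a => w (some a)) a.1 a.2).symm, a.2.trans (the_no a.1).symm]
  · by_cases a : ∃ y, R y (fun a => w (some a)) ∧ ∀ z, R z (fun a => w (some a)) → z = y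
    · obtain ⟨y, a⟩ := a
      rw [e, the_eq (Q := fun y => R y fun a => w (some a)) a.1 a.2]
      exact Or.inl a
    · exact Or.inr ⟨a, e.trans (the_no a)⟩

end

variable (E) in
noncomputable abbrev st (a : M) (P : M → Prop) : M := the a fun y => ∀ z, E z y ↔ E z a ∧ P z

variable (E) in
noncomputable def pr (a b : M) : M := the a fun p => IsPair E p a b

variable (E) in
noncomputable def sc (a : M) : M := the a fun s => ∀ z, E z s ↔ E z a ∨ z = a

variable (E) in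
def Le (a n : M) : Prop := ∃ f, ∀ x, E x a → ∃ i, E i n ∧ App E f i x ∧ ∀ y, E y a → App E f i y → y = x

variable (E) in
noncomputable def sz (a : M) : M := the a fun n => (IsNat E n ∧ Le E a n) ∧
  ∀ m, E m n → ¬ (IsNat E m ∧ Le E a m)

section
variable {α : Type} {s t : (α → M) → M}
instance [T E s] [T E t] : T E fun v => pr E (s v) (t v) :=
  @t2 _ E (pr E) (by unfold pr; infer_instance) _ _ _ _ _
instance [T E s] : T E fun v => sc E (s v) := @t1 _ E (sc E) (by unfold sc; infer_instance) _ _ _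
instance [T E s] [T E t] : D E fun v => Le E (s v) (t v) :=
  @l2 _ E (Le E) (by unfold Le; infer_instance) _ _ _ _ _
instance [T E s] : T E fun v => sz E (s v) := @t1 _ E (sz E) (by unfold sz; infer_instance) _ _ _
end

variable (h : IsZF E)
include h

theorem sep (P : M → Prop) [D1 E P] (x : M) : ∃ y, ∀ z, E z y ↔ E z x ∧ P z := h.sepD' D.df x

theorem rel (R : M → M → Prop) [D2 E R] (a b : M) :
    ∃ f, ∀ x y, App E f x y ↔ E x a ∧ E y b ∧ R x y := h.rel D.df a b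

theorem mem_st {a z : M} {P : M → Prop} [D1 E P] : E z (st E a P) ↔ E z a ∧ P z :=
  the_sp (Q := fun y => ∀ z, E z y ↔ E z a ∧ P z) (sep h P a)
    (fun _ _ b c => h.ext _ _ fun w => (b w).trans (c w).symm) z

theorem pr_sp (a b : M) : IsPair E (pr E a b) a b :=
  the_sp (Q := fun p => IsPair E p a b) (h.exPair a b) fun _ _ => h.pair_uniq

theorem pr_inj {a b c d : M} (e : pr E a b = pr E c d) : a = c ∧ b = d :=
  h.pair_inj (pr_sp h a b) (e ▸ pr_sp h c d)

theorem app_pr {f a b : M} : App E f a b ↔ E (pr E a b) f :=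
  ⟨fun ⟨_, c, d⟩ => h.pair_uniq d (pr_sp h a b) ▸ c, fun c => ⟨_, c, pr_sp h a b⟩⟩

theorem mem_sc {a z : M} : E z (sc E a) ↔ E z a ∨ z = a :=
  the_sp (Q := fun s => ∀ z, E z s ↔ E z a ∨ z = a) (h.ins a a)
    (fun _ _ b c => h.ext _ _ fun w => (b w).trans (c w).symm) z

theorem nat_sc {a : M} (b : IsNat E a) : IsNat E (sc E a) := h.natS b fun _ => mem_sc h

theorem natI (P : M → Prop) [D1 E P] (h0 : ∀ z, (∀ y, ¬ E y z) → P z)
    (h1 : ∀ x, IsNat E x → P x → P (sc E x)) (n : M) (hn : IsNat E n) : P n :=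
  h.natInd' D.df h0 (fun x _ a b c => h.ext _ _ (fun w => (mem_sc h).trans (c w).symm) ▸ h1 x a b) n hn

theorem finI (P : M → Prop) [D1 E P] (h0 : ∀ z, (∀ y, ¬ E y z) → P z)
    (h1 : ∀ b y s, IsFin E b → P b → IsS E s b y → P s) (a : M) (ha : IsFin E a) : P a :=
  h.finInd' D.df h0 h1 a ha

theorem tri {m n : M} (a : IsNat E m) (b : IsNat E n) : E m n ∨ m = n ∨ E n m :=
  (h.nat_lin' a b).elim (fun c => Or.inr ((h.nat_le' a n b c).symm.imp_left Eq.symm))
    fun c => (h.nat_le' b m a c).imp_right Or.inl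

theorem ntr {k m n : M} (a : IsNat E n) (b : E k m) (c : E m n) : E k n := (h.nat_tr' a m c).2 k b

theorem nel {m n : M} (a : IsNat E n) (c : E m n) : IsNat E m := (h.nat_tr' a m c).1

theorem least (P : M → Prop) [D1 E P] {n : M} (a : IsNat E n) (b : P n) :
    ∃ n, (IsNat E n ∧ P n) ∧ ∀ m, E m n → ¬ (IsNat E m ∧ P m) := by
  obtain ⟨w, hw⟩ := h.omega'
  obtain ⟨S, hS⟩ := sep h P w
  obtain ⟨k, c, d⟩ := h.found S ⟨n, (hS n).2 ⟨(hw n).2 a, b⟩⟩
  exact ⟨k, ((hS k).1 c).imp_left (hw k).1, fun m e f => d m e ((hS m).2 (f.imp_left (hw m).2))⟩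

theorem least_u {P : M → Prop} {m n : M} (a : (IsNat E n ∧ P n) ∧ ∀ k, E k n → ¬ (IsNat E k ∧ P k))
    (b : (IsNat E m ∧ P m) ∧ ∀ k, E k m → ¬ (IsNat E k ∧ P k)) : n = m :=
  (tri h a.1.1 b.1.1).elim (absurd a.1 <| b.2 n ·) (·.resolve_right (a.2 m · b.1))

theorem fin_sub {a b : M} (c : IsFin E b) : Sub E a b → IsFin E a := by
  refine finI h (fun b => ∀ a, Sub E a b → IsFin E a) (fun z e a d => h.fin0 fun y f => e y (d y f))
    (fun b y s _ ih e a d => ?_) b c a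
  have := ih (st E a fun z => E z b) fun z f => ((mem_st h).1 f).2
  by_cases k : E y a
  · exact h.finS' this fun w => by
      rw [mem_st h]
      exact ⟨fun f => ((e w).1 (d w f)).imp_left (⟨f, ·⟩), fun f => f.elim (·.1) (· ▸ k)⟩
  · exact ih a fun w f => ((e w).1 (d w f)).resolve_right fun g => k (g ▸ f)

theorem few_fin {a : M} {P : M → Prop} (c : Few E P) (d : ∀ z, E z a → P z) : IsFin E a :=
  let ⟨_, e, f⟩ := c
  fin_sub h e fun z g => f z (d z g)

omit h in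
theorem fin_few {a : M} (c : IsFin E a) : Few E fun z => E z a := ⟨a, c, fun _ => id⟩

omit h in
theorem few_mono {P Q : M → Prop} (c : Few E P) (d : ∀ z, Q z → P z) : Few E Q :=
  c.imp fun _ e => ⟨e.1, fun z f => e.2 z (d z f)⟩

theorem few_or {P Q : M → Prop} (c : Few E P) (d : Few E Q) : Few E fun z => P z ∨ Q z := by
  obtain ⟨a, a1, a2⟩ := c
  obtain ⟨b, b1, b2⟩ := d
  exact (h.finU' a1 b1).imp fun _ e => ⟨e.1, fun z f => (e.2 z).2 (f.imp (a2 z) (b2 z))⟩

theorem few_one {P : M → Prop} (c : ∀ y z, P y → P z → y = z) : Few E P := by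
  obtain ⟨e, he⟩ := h.emp
  by_cases d : ∃ y, P y
  · obtain ⟨y, d⟩ := d
    obtain ⟨s, hs⟩ := h.ins e y
    exact ⟨s, h.finS' (h.fin0 he) hs, fun z f => (hs z).2 (Or.inr (c z y f d))⟩
  · exact ⟨e, h.fin0 he, fun z f => absurd ⟨z, f⟩ d⟩

theorem few_un {P : M → Prop} (R : M → M → Prop) [D2 E R] (c : Few E P) (d : ∀ x, Few E (R x))
    {Q : M → Prop} (e : ∀ y, Q y → ∃ x, P x ∧ R x y) : Few E Q := by
  have := @l2 _ E R _
  obtain ⟨a, a1, a2⟩ := c
  refine few_mono (finI h (fun a => Few E fun y => ∃ x, E x a ∧ R x y) (fun z f => few_one h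
    fun y _ ⟨x, g, _⟩ => absurd g (f x)) (fun b y s _ ih f => few_mono (few_or h ih (d y))
      fun z ⟨x, g, k⟩ => ((f x).1 g).imp (⟨x, ·, k⟩) fun e : x = y => e ▸ k) a a1) fun y f =>
        (e y f).imp fun x g => ⟨a2 x g.1, g.2⟩

theorem few_img {P : M → Prop} (R : M → M → Prop) [D2 E R] (c : Few E P)
    (d : ∀ x y z, R x y → R x z → y = z) {Q : M → Prop} (e : ∀ y, Q y → ∃ x, P x ∧ R x y) : Few E Q :=
  few_un h R c (fun x => few_one h (d x)) e

theorem few_bd {P : M → Prop} (c : Few E P) : ∃ n, IsNat E n ∧ ∀ m, IsNat E m → P m → E m n := by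
  obtain ⟨a, a1, a2⟩ := c
  refine (finI h (fun a => ∃ n, IsNat E n ∧ ∀ m, IsNat E m → E m a → E m n) (fun z e =>
    ⟨z, h.nat0 e, fun _ _ => id⟩) (fun b y s _ ⟨n, d, e⟩ f => ?_) a a1).imp fun n d =>
      ⟨d.1, fun m e f => d.2 m e (a2 m f)⟩
  by_cases g : IsNat E y ∧ ¬ E y n
  · refine ⟨_, nat_sc h g.1, fun m i j => (mem_sc h).2 (((f m).1 j).imp_left fun k => ?_)⟩
    exact ((tri h g.1 d).resolve_left g.2).elim (· ▸ e m i k) (ntr h g.1 (e m i k))
  · exact ⟨n, d, fun m i j => ((f m).1 j).elim (e m i) fun k => by_contra fun l => g (k ▸ ⟨i, l⟩)⟩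

theorem inf_nat : ¬ Few E (IsNat E) := fun a =>
  let ⟨n, b, c⟩ := few_bd h a
  h.irr n (c n b b)

theorem nat_fin {n : M} (a : IsNat E n) : IsFin E n :=
  natI h (IsFin E) (fun _ => h.fin0) (fun _ _ b => h.finS' b fun _ => mem_sc h) n a

theorem sz_sp {a : M} (b : IsFin E a) : (IsNat E (sz E a) ∧ Le E a (sz E a)) ∧
    ∀ m, E m (sz E a) → ¬ (IsNat E m ∧ Le E a m) := by
  obtain ⟨n, f, c, d⟩ := b
  refine the_sp (Q := fun n => (IsNat E n ∧ Le E a n) ∧ ∀ m, E m n → ¬ (IsNat E m ∧ Le E a m))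
    (least h _ c ⟨f, fun x e => ?_⟩) fun _ _ => least_u h
  obtain ⟨i, g, -⟩ := d.2 x e
  obtain ⟨y, -, k⟩ := d.1 i g.1
  exact ⟨i, g.1, g.2, fun z l m => (k z ⟨l, m⟩).trans (k x ⟨e, g.2⟩).symm⟩

theorem sz_nat {a : M} (b : IsFin E a) : IsNat E (sz E a) := (sz_sp h b).1.1

theorem sz_le {a n : M} (b : IsFin E a) (c : IsNat E n) (d : Le E a n) : E (sz E a) (sc E n) :=
  (mem_sc h).2 ((or_assoc.2 (tri h (sz_nat h b) c)).resolve_right fun e => (sz_sp h b).2 n e ⟨c, d⟩)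

theorem sz_lt {a b y : M} (c : IsFin E b) (d : Sub E a b) (e : E y b) (f : ¬ E y a) :
    E (sz E a) (sz E b) := by
  obtain ⟨⟨g1, g, g2⟩, -⟩ := sz_sp h c
  obtain ⟨i, i1, i2, i3⟩ := g2 y e
  obtain ⟨n, n1, n2⟩ := natI h (fun n => (∃ i, E i n) → ∃ m, IsNat E m ∧ n = sc E m)
    (fun z a ⟨i, b⟩ => absurd b (a i)) (fun x a _ _ => ⟨x, a, rfl⟩) _ g1 ⟨i, i1⟩
  obtain ⟨k, hk⟩ := rel h (fun j x => App E g j x ∨ j = i ∧ App E g n x) n a
  rw [n2] at g2 i1 ⊢
  refine sz_le h (fin_sub h c d) n1 ⟨k, fun x l => ?_⟩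
  obtain ⟨j, j1, j2, j3⟩ := g2 x (d x l)
  rcases (mem_sc h).1 j1 with j4 | rfl
  · exact ⟨j, j4, (hk _ _).2 ⟨j4, l, Or.inl j2⟩, fun z m o => ((hk _ _).1 o).2.2.elim (j3 z (d z m))
      fun p => absurd (i3 x (d x l) (p.1 ▸ j2) ▸ l) f⟩
  · have := ((mem_sc h).1 i1).resolve_right fun p => f (i3 x (d x l) (p ▸ j2) ▸ l)
    exact ⟨i, this, (hk _ _).2 ⟨this, l, Or.inr ⟨rfl, j2⟩⟩, fun z m o => ((hk _ _).1 o).2.2.elim
      (fun p => absurd (i3 z (d z m) p ▸ m) f) fun p => j3 z (d z m) p.2⟩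

theorem sz_ins {b y s : M} (c : IsFin E b) (d : IsS E s b y) (e : ¬ E y b) :
    sz E s = sc E (sz E b) := by
  have f := h.finS' c d
  obtain ⟨⟨g1, g, g2⟩, -⟩ := sz_sp h c
  obtain ⟨k, hk⟩ := rel h (fun j x => E x b ∧ App E g j x ∧ j ≠ sz E b ∨ j = sz E b ∧ x = y)
    (sc E (sz E b)) s
  have i := sz_lt h f (fun z i => (d z).2 (Or.inl i)) ((d y).2 (Or.inr rfl)) e
  refine ((mem_sc h).1 (sz_le h f (nat_sc h g1) ⟨k, fun x l => ?_⟩)).resolve_left fun j =>
    ((mem_sc h).1 j).elim (fun l => h.irr _ (ntr h g1 i l)) fun l => h.irr _ (l ▸ i)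
  rcases (d x).1 l with m | rfl
  · obtain ⟨j, j1, j2, j3⟩ := g2 x m
    have : j ≠ sz E b := fun o => h.irr _ (o ▸ j1)
    exact ⟨j, (mem_sc h).2 (Or.inl j1), (hk _ _).2 ⟨(mem_sc h).2 (Or.inl j1), l, Or.inl ⟨m, j2, this⟩⟩,
      fun z _ o => ((hk _ _).1 o).2.2.elim (fun p => j3 z p.1 p.2.1) fun p => absurd p.1 this⟩
  · exact ⟨_, (mem_sc h).2 (Or.inr rfl), (hk _ _).2 ⟨(mem_sc h).2 (Or.inr rfl), l, Or.inr ⟨rfl, rfl⟩⟩,
      fun z _ o => ((hk _ _).1 o).2.2.elim (fun p => absurd rfl p.2.2) (·.2)⟩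

theorem sz_emp {a : M} (b : ∀ y, ¬ E y a) : sz E a = a :=
  the_eq ⟨⟨h.nat0 b, a, fun x c => absurd c (b x)⟩, fun m c => absurd c (b m)⟩ fun _ c =>
    least_u h c ⟨⟨h.nat0 b, a, fun x c => absurd c (b x)⟩, fun m c => absurd c (b m)⟩

/-- sizes of a chain of finite sets determine the sets -/
theorem sz_inj {a b : M} (c : IsFin E b) (d : Sub E a b) (e : sz E a = sz E b) : Sub E b a :=
  fun y f => by_contra fun g => h.irr _ (e ▸ sz_lt h c d f g)

theorem sz_mono {a b : M} (c : IsFin E b) (d : Sub E a b) : Sub E (sz E a) (sz E b) := fun k e => by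
  by_cases f : Sub E b a
  · exact h.ext a b (fun z => ⟨d z, f z⟩) ▸ e
  · obtain ⟨y, f⟩ := not_forall.1 f
    exact ntr h (sz_nat h c) e (sz_lt h c d (Classical.not_imp.1 f).1 (Classical.not_imp.1 f).2)

end Pool.Agent.H40.Zt
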