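import Pool.Agent.H40.Lv3
import Pool.Agent.H40.Js5
import Pool.Agent.H40.Zt1
import Pool.Agent.H40.JzDefs7

set_option autoImplicit false

/-! Transfer to a small model. -/

namespace Pool.Agent.H40.Lv

section
open Pool.Agent.H40.Bspt Pool.Agent.H40.Jz Pool.Agent.H40.Zt

variable {M : Type} {E : M → M → Prop}

variable (E) in
def Sel : Prop := ∀ ρ, (∀ a b, App E ρ a b → (App E ρ b a ∧ a ≠ b) ∧ ∀ c, App E ρ a c → b = c) →
  ∃ c, ∀ a b, App E ρ a b → (E a c ↔ ¬ E b c)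

variable (E) in
def Cn (X R b x y : M) : Prop := ∃ D, Sub E D X ∧ IsFin E D ∧ E x D ∧ E y D ∧
  ∀ c, (∀ x y, E x D → E y D → App E R x y → (E x c ↔ ¬ E y c)) → (E x c ↔ (E y c ↔ E b X))

theorem comp_of_sel (h : IsZF E) (hs : Sel E) : CompK2 E := by
  intro X R hf
  by_cases h0 : ∃ x, E x X
  swap
  · exact ⟨X, fun x _ a => absurd ⟨x, a⟩ h0⟩
  obtain ⟨o, ho⟩ := h0
  have ir := h.irr X
  have d2 : ∀ b, D2 E (Cn E X R b) := fun b => by unfold Cn; infer_instance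
  have := @l2 _ E (Cn E X R o) (d2 o)
  have := @l2 _ E (Cn E X R X) (d2 X)
  have step : ∀ x y b b', E y X → (App E R x y ∨ App E R y x) → (E b X ↔ ¬ E b' X) → ∀ z,
      Cn E X R b x z → Cn E X R b' y z := by
    rintro x y b b' hy e f z ⟨D, d1, d2, d3, d4, d5⟩
    obtain ⟨s, hs⟩ := h.ins D y
    refine ⟨s, fun w a => ((hs w).1 a).elim (d1 w) (· ▸ hy), h.finS' d2 hs, (hs _).2 (Or.inr rfl),
      (hs _).2 (Or.inl d4), fun c hc => ?_⟩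
    have a := d5 c fun u v k l => hc u v ((hs _).2 (Or.inl k)) ((hs _).2 (Or.inl l))
    have k := hc x y ((hs _).2 (Or.inl d3)) ((hs _).2 (Or.inr rfl))
    have l := hc y x ((hs _).2 (Or.inr rfl)) ((hs _).2 (Or.inl d3))
    clear d5 hc hs
    rcases e with e | e
    · have := k e; tauto
    · have := l e; tauto
  obtain ⟨P, hP⟩ := h.power X
  obtain ⟨Q, hQ⟩ := h.prod P P
  obtain ⟨ρ, hρ⟩ := rel h (fun a b => ∃ u v, u ≠ v ∧ a = pr E u v ∧ b = pr E v u) Q Q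
  obtain ⟨c, hc⟩ := hs ρ fun a b e => by
    obtain ⟨e1, e2, u, v, e3, rfl, rfl⟩ := (hρ _ _).1 e
    refine ⟨⟨(hρ _ _).2 ⟨e2, e1, v, u, e3.symm, rfl, rfl⟩, fun f => e3 (pr_inj h f).1⟩, fun c f => ?_⟩
    obtain ⟨-, -, u', v', -, g, rfl⟩ := (hρ _ _).1 f
    rw [(pr_inj h g).1, (pr_inj h g).2]
  obtain ⟨d, hd⟩ := sep h (fun x => E (pr E (st E X (Cn E X R o x)) (st E X (Cn E X R X x))) c) X
  refine ⟨d, fun x y hx hy e => ?_⟩
  have k : ∀ b b', (E b X ↔ ¬ E b' X) → st E X (Cn E X R b x) = st E X (Cn E X R b' y) :=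
    fun b b' f => h.ext _ _ fun z => by
      have := @l2 _ E (Cn E X R b) (d2 b)
      have := @l2 _ E (Cn E X R b') (d2 b')
      rw [mem_st h, mem_st h]
      exact and_congr_right' ⟨step x y b b' hy (Or.inl e) f z,
        step y x b' b hx (Or.inr e) (by tauto) z⟩
  have m : ∀ b x, E (st E X (Cn E X R b x)) P := fun b x => (hP _).2 fun z a => by
    have := @l2 _ E (Cn E X R b) (d2 b)
    exact ((mem_st h).1 a).1
  rw [hd, hd, and_iff_right hx, and_iff_right hy, ← k o X (iff_of_true ho ir),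
    ← k X o (iff_of_false ir (not_not.2 ho))]
  refine hc _ _ ((hρ _ _).2 ⟨(hQ _).2 ⟨_, _, m _ _, m _ _, pr_sp h _ _⟩,
    (hQ _).2 ⟨_, _, m _ _, m _ _, pr_sp h _ _⟩, _, _, fun f => ?_, rfl, rfl⟩)
  obtain ⟨z, hz⟩ := h.emp
  obtain ⟨s, hs⟩ := h.ins z x
  have a : E x (st E X (Cn E X R o x)) := (mem_st h).2 ⟨hx, s, fun w a => ((hs w).1 a).elim
    (absurd · (hz w)) (· ▸ hx), h.finS' (h.fin0 hz) hs, (hs _).2 (Or.inr rfl), (hs _).2 (Or.inr rfl),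
    fun c _ => by tauto⟩
  rw [f] at a
  obtain ⟨-, D, d1, d2, -, -, d5⟩ := (mem_st h).1 a
  obtain ⟨c, hc⟩ := hf D d1 d2
  have := d5 c hc
  tauto

end

open Pool.Agent.H42.ZF Pool.Agent.H40.Js Set Filter Cardinal
open Pool.Agent.H40.Bspt (Fm IsZF)

section
variable {P : Type} [Preorder P] {Γ : Type} [Group Γ] [MulAction Γ P] [Mo Γ P] [NF Γ]
variable {Λ : Type} [Group Λ] [NF Λ] {A : Type} [MulAction Λ A] (c : Ctx P Γ Λ A)

theorem ex_js3 {B : Type} (n0 : B → Nm P) (h0 : ∀ b, HS Γ (n0 b))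
    (hd : Dist P (T ((Σ t, El Λ A t) ⊕ B) × T ((Σ t, El Λ A t) ⊕ B))) (p : P) (hp : p ≤ c.p0)
    (DS : Nm P → Set P) (hl : ∀ τ, IsLowerSet (DS τ)) (hde : ∀ τ p, ∃ q ≤ p, q ∈ DS τ) :
    ∃ U : Ult P, Iic p ∈ U.U ∧ ∃ J : JS Λ A, ∃ e : J.M → M U,
      (∀ φ w, Bspt.Sat J.E φ w ↔ SL Γ U φ fun i => e (w i)) ∧
      (∀ b, ∃ a, e a = mk U (n0 b)) ∧ (∀ a, L Γ U (e a)) ∧
      ∀ a, ∃ τ q, e a = mk U τ ∧ q ∈ DS τ ∧ Iic q ∈ U.U := by
  let ν : (Σ t, El Λ A t) ⊕ B → Nm P := Sum.elim (fun b => c.nm b.1 b.2) n0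
  have hν : ∀ b, HS Γ (ν b) := by rintro (b | b); exacts [c.nm_hs _ _, h0 b]
  haveI : Nonempty ((Σ t, El Λ A t) ⊕ B) := ⟨.inl ⟨.n, (0 : ℕ)⟩⟩
  obtain ⟨p', hp', hD'⟩ := hd (fun s => DS (ev Γ ν s.1 0)) (fun _ => hl _) (fun _ => hde _) p
  obtain ⟨q, hq', hD⟩ := hd (fun s => DD (ev Γ ν s.1 0) (ev Γ ν s.2 0)) (fun _ => DD_lower _ _)
    (fun _ => DD_dense _ _) p'
  have hq := hq'.trans hp'
  obtain ⟨U, hU⟩ := ex_ult q
  have hU0 : Iic c.p0 ∈ U.U := frc_G (hq.trans hp) U hU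
  let N : ∀ t, El Λ A t → H Γ ν U := fun t x => hb (.inl ⟨t, x⟩)
  have hN : ∀ t x, j (N t x) = mk U (c.nm t x) := fun _ _ => rfl
  have gen : ∀ (z : H Γ ν U) (b), EH z (hb b) → ∃ i, j z = mk U ((ν b).A i) := by
    intro z b h
    obtain ⟨s, hs⟩ := j_surj z
    unfold EH at h
    rw [hs] at h ⊢
    exact (DD_use (hD (s, .base b)) hU h).imp fun i h => h.2
  have zf : IsZF (EH : H Γ ν U → H Γ ν U → Prop) := hull_zf hν
  have hm : ∀ t (s : PS Λ (El Λ A t)) z, EH z (N (.w t) s) ↔ ∃ x ∈ s.1, z = N t x := by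
    refine fun t s z => ⟨fun h => ?_, fun ⟨x, h1, h2⟩ => h2 ▸ setN_intro _ h1 U⟩
    obtain ⟨i, hi⟩ := gen z _ h
    exact ⟨i.1.1.1, i.1.1.2, j_inj hi⟩
  have un : ∀ t, Sym Λ (univ : Set (El Λ A t)) := fun t => Eventually.of_forall fun _ _ => Iff.rfl
  refine ⟨U, frc_G hq U hU, ⟨H Γ ν U, EH, zf, N, fun t x y h => c.nm_inj t x y U hU0
    (congrArg j h), hm, fun t a ha => ?_, fun s t x y => ?_, fun n z => ?_⟩, j, truth hν, fun b => ⟨hb (.inr b), rfl⟩,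
    j_L hν, fun a => (j_surj a).elim fun s h => ⟨_, p', h, hD' (s, s), frc_G hq' U hU⟩⟩
  · obtain ⟨τ, hτ⟩ := mk_surj (j a)
    have h1 : Sub (E U) (mk U τ) (mk U (setN (c.nm t) univ)) := by
      intro z hz
      by_contra hc
      obtain ⟨b, h2, h3⟩ := tv (.and (.mem 0 1) (.neg (.mem 0 2)))
        (Bspt.cons a fun _ => N (.w t) ⟨univ, un t⟩) ⟨z, L_tr hz (hτ ▸ j_L hν a), (hτ ▸ hz : E U z (j a)), hc⟩
      obtain ⟨x, rfl⟩ := ha b h2
      exact h3 (setN_intro _ (mem_univ x) U)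
    have h2 := c.nm_pow t τ U hU0 (hτ ▸ j_L hν a) h1
    obtain ⟨s, -, hs⟩ := (hm (.w t) ⟨univ, un _⟩ a).1 (by unfold EH; rw [← hτ]; exact h2)
    exact ⟨s, hs⟩
  · have up : ∀ (a b : H Γ ν U) (a' b' : Nm P), j a = mk U a' → j b = mk U b' → ∃ u,
        (∀ z, EH z u ↔ z = a ∨ z = b) ∧ j u = mk U (upair a' b') := by
      intro a b a' b' ha hb
      obtain ⟨u, hu⟩ := zf.pair a b
      refine ⟨u, hu, M_ext fun z => ?_⟩
      rw [mem_upair, ← ha, ← hb]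
      refine ⟨fun hz => ?_, fun h => h.elim (· ▸ (hu a).2 (Or.inl rfl)) (· ▸ (hu b).2 (Or.inr rfl))⟩
      by_contra hc
      rw [not_or] at hc
      obtain ⟨d, h1, h2, h3⟩ := tv (.and (.mem 0 1) (.and (.neg (.eq 0 2)) (.neg (.eq 0 3))))
        (Bspt.cons u (Bspt.cons a fun _ => b)) ⟨z, L_tr hz (j_L hν u), hz, hc⟩
      exact ((hu d).1 h1).elim (fun e => h2 (congrArg j e)) fun e => h3 (congrArg j e)
    obtain ⟨a, ha, ha'⟩ := up _ _ _ _ (hN s x) (hN s x)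
    obtain ⟨b, hb, hb'⟩ := up _ _ _ _ (hN s x) (hN t y)
    obtain ⟨u, hu, hu'⟩ := up _ _ _ _ ha' hb'
    obtain rfl : u = N (.p s t) (x, y) := j_inj hu'
    exact fun z => (hu z).trans (or_congr ⟨fun e w => by simp [e, ha], fun e => zf.ext _ _
      fun w => by simp [e, ha]⟩ ⟨fun e w => by simp [e, hb], fun e => zf.ext _ _ fun w => by
        simp [e, hb]⟩)
  · exact mem_natN.trans (exists_congr fun m => and_congr_right' (j_inj.eq_iff (b := N .n m)))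



theorem sl_pair {U : Ult P} {p x y : ℕ} {v : ℕ → M U} (hp : L Γ U (v p)) (hx : L Γ U (v x))
    (hy : L Γ U (v y)) : SL Γ U (pairF p x y) v ↔ IsPair (E U) (v p) (v x) (v y) := by
  simp only [pairF, SL, sl_all, sl_fi, sl_or, cs, IsPair]
  have k : ∀ {z : M U} {Q : M U → Prop}, L Γ U z → (∀ w, Q w → L Γ U w) →
      ((∀ w, L Γ U w → (E U w z ↔ Q w)) ↔ ∀ w, E U w z ↔ Q w) := fun hz hQ =>
    ⟨fun h w => ⟨fun e => (h w (L_tr e hz)).1 e, fun e => (h w (hQ w e)).2 e⟩, fun h w _ => h w⟩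
  have k1 : ∀ w, w = v x → L Γ U w := fun w e => e ▸ hx
  have k2 : ∀ w, w = v x ∨ w = v y → L Γ U w := fun w e => e.elim (· ▸ hx) (· ▸ hy)
  refine ⟨fun h3 z => ?_, fun h2 z hz => by rw [h2 z, k hz k1, k hz k2]⟩
  by_cases hz : L Γ U z
  · rw [h3 z hz, k hz k1, k hz k2]
  · exact iff_of_false (fun e => hz (L_tr e hp)) fun e => hz (e.elim
      (fun e => L_pair hx hx fun w => by rw [e, or_self]) (L_pair hx hy))

end

end Pool.Agent.H40.Lv
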