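import Mathlib

set_option autoImplicit false

namespace Pool.Agent.H40.MTL

universe u

/-- Propositional formulas of MTL in the primitive connectives `0, &, →, ∧` of Esteva and Godo
(`¬`, `∨`, `1` are abbreviations). -/
inductive Fm : Type
  | var (n : ℕ) : Fm
  | bot : Fm
  | conj (a b : Fm) : Fm
  | imp (a b : Fm) : Fm
  | inf (a b : Fm) : Fm

/-- Negation `¬a = a → 0`. -/
def Fm.neg (a : Fm) : Fm := .imp a .bot

/-- The Hilbert calculus of MTL (axioms A1 to A9 of Esteva and Godo, modus ponens), extended by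
the set `Ax` of further axioms. -/
inductive Provable (Ax : Set Fm) : Fm → Prop
  | ax {a : Fm} : a ∈ Ax → Provable Ax a
  | a1 (a b c : Fm) : Provable Ax (.imp (.imp a b) (.imp (.imp b c) (.imp a c)))
  | a2 (a b : Fm) : Provable Ax (.imp (.conj a b) a)
  | a3 (a b : Fm) : Provable Ax (.imp (.conj a b) (.conj b a))
  | a4 (a b : Fm) : Provable Ax (.imp (.inf a b) a)
  | a5 (a b : Fm) : Provable Ax (.imp (.inf a b) (.inf b a))
  | a6 (a b : Fm) : Provable Ax (.imp (.conj a (.imp a b)) (.inf a b))
  | a7a (a b c : Fm) : Provable Ax (.imp (.imp a (.imp b c)) (.imp (.conj a b) c))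
  | a7b (a b c : Fm) : Provable Ax (.imp (.imp (.conj a b) c) (.imp a (.imp b c)))
  | a8 (a b c : Fm) : Provable Ax (.imp (.imp (.imp a b) c) (.imp (.imp (.imp b a) c) c))
  | a9 (a : Fm) : Provable Ax (.imp .bot a)
  | mp {a b : Fm} : Provable Ax a → Provable Ax (.imp a b) → Provable Ax b

/-- MTL has no further axioms. -/
def axMTL : Set Fm := ∅

/-- The further axioms of IMTL: all instances of `¬¬a → a`. -/
def axIMTL : Set Fm := {φ | ∃ a : Fm, φ = .imp a.neg.neg a}

/-- The further axioms of ΠMTL: all instances of `¬¬c → ((a & c → b & c) → (a → b))` and of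
`a ∧ ¬a → 0`. -/
def axPiMTL : Set Fm :=
  {φ | (∃ a b c : Fm, φ = .imp c.neg.neg (.imp (.imp (.conj a c) (.conj b c)) (.imp a b))) ∨
    ∃ a : Fm, φ = .imp (.inf a a.neg) .bot}

/-- An MTL-chain on a linear order `A`: a bounded integral commutative residuated chain
(lattice operations are `min`, `max`; prelinearity is automatic). -/
structure Chain (A : Type u) [LinearOrder A] where
  mul : A → A → A
  imp : A → A → A
  zero : A
  one : A
  mul_assoc : ∀ x y z, mul (mul x y) z = mul x (mul y z)
  mul_comm : ∀ x y, mul x y = mul y x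
  mul_one : ∀ x, mul x one = x
  zero_le : ∀ x, zero ≤ x
  le_one : ∀ x, x ≤ one
  res : ∀ x y z, mul x z ≤ y ↔ z ≤ imp x y

/-- Value of a formula under a valuation into a chain. -/
def Chain.eval {A : Type u} [LinearOrder A] (M : Chain A) (v : ℕ → A) : Fm → A
  | .var n => v n
  | .bot => M.zero
  | .conj a b => M.mul (M.eval v a) (M.eval v b)
  | .imp a b => M.imp (M.eval v a) (M.eval v b)
  | .inf a b => min (M.eval v a) (M.eval v b)

/-- `φ` is a tautology of the chain. -/
def Chain.Taut {A : Type u} [LinearOrder A] (M : Chain A) (φ : Fm) : Prop :=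
  ∀ v : ℕ → A, M.eval v φ = M.one

/-- Single chain completeness of the extension of MTL by `Ax`: some MTL-chain validating `Ax`
has exactly the theorems as its tautologies. -/
def SCC (Ax : Set Fm) : Prop :=
  ∃ (A : Type u) (_ : LinearOrder A) (M : Chain A),
    (∀ φ ∈ Ax, M.Taut φ) ∧ ∀ φ : Fm, Provable Ax φ ↔ M.Taut φ

end Pool.Agent.H40.MTL
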