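import Pool.Agent.H40.MTLDefs

set_option autoImplicit false

namespace Pool.Agent.H40.MTL

universe u

namespace Chain

variable {A : Type u} [LinearOrder A] (M : Chain A)

theorem one_mul (x : A) : M.mul M.one x = x := by rw [M.mul_comm, M.mul_one]

theorem mul_imp_le (x y : A) : M.mul x (M.imp x y) ≤ y := (M.res _ _ _).mpr le_rfl

theorem mono_r {x y : A} (z : A) (h : x ≤ y) : M.mul z x ≤ M.mul z y :=
  (M.res _ _ _).mpr (h.trans ((M.res _ _ _).mp le_rfl))

theorem mono_l {x y : A} (z : A) (h : x ≤ y) : M.mul x z ≤ M.mul y z := by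
  rw [M.mul_comm x, M.mul_comm y]; exact M.mono_r z h

theorem mono {x y x' y' : A} (h : x ≤ y) (h' : x' ≤ y') : M.mul x x' ≤ M.mul y y' :=
  (M.mono_l _ h).trans (M.mono_r _ h')

theorem mul_le_l (x y : A) : M.mul x y ≤ x := by
  simpa [M.mul_one] using M.mono_r x (M.le_one y)

theorem mul_le_r (x y : A) : M.mul x y ≤ y := by rw [M.mul_comm]; exact M.mul_le_l y x

theorem imp_eq_one {x y : A} : M.imp x y = M.one ↔ x ≤ y := by
  constructor
  · intro h
    have := (M.res x y M.one).mpr h.ge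
    rwa [M.mul_one] at this
  · intro h
    exact le_antisymm (M.le_one _) ((M.res _ _ _).mp (by rwa [M.mul_one]))

theorem one_imp (x : A) : M.imp M.one x = x := by
  apply le_antisymm
  · simpa [M.one_mul] using M.mul_imp_le M.one x
  · exact (M.res _ _ _).mp (by rw [M.one_mul])

theorem le_imp (x y : A) : y ≤ M.imp x y := (M.res _ _ _).mp (M.mul_le_r _ _)

theorem mul_zero (x : A) : M.mul x M.zero = M.zero :=
  le_antisymm (M.mul_le_r _ _) (M.zero_le _)

theorem zero_mul (x : A) : M.mul M.zero x = M.zero :=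
  le_antisymm (M.mul_le_l _ _) (M.zero_le _)

/-- the commutative monoid of the chain -/
@[reducible] def mon : CommMonoid A where
  mul := M.mul
  one := M.one
  mul_assoc := M.mul_assoc
  mul_comm := M.mul_comm
  one_mul := M.one_mul
  mul_one := M.mul_one

theorem sound {Ax : Set Fm} (hAx : ∀ φ ∈ Ax, M.Taut φ) {φ : Fm} (h : Provable Ax φ) :
    M.Taut φ := by
  intro v
  induction h with
  | ax h => exact hAx _ h v
  | a1 a b c =>
    simp only [eval, imp_eq_one, ← M.res]
    generalize M.eval v a = x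
    generalize M.eval v b = y
    generalize M.eval v c = z
    rw [M.mul_comm (M.imp y z), ← M.mul_assoc]
    exact (M.mono_l _ (M.mul_imp_le x y)).trans (M.mul_imp_le y z)
  | a2 a b => simp only [eval, imp_eq_one]; exact M.mul_le_l _ _
  | a3 a b => simp only [eval, imp_eq_one]; rw [M.mul_comm]
  | a4 a b => simp only [eval, imp_eq_one]; exact min_le_left _ _
  | a5 a b => simp only [eval, imp_eq_one]; rw [min_comm]
  | a6 a b =>
    simp only [eval, imp_eq_one]
    exact le_min (M.mul_le_l _ _) (M.mul_imp_le _ _)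
  | a7a a b c =>
    simp only [eval, imp_eq_one, ← M.res]
    generalize M.eval v a = x
    generalize M.eval v b = y
    generalize M.eval v c = z
    rw [M.mul_comm x y, M.mul_assoc]
    exact (M.mono_r _ (M.mul_imp_le _ _)).trans (M.mul_imp_le _ _)
  | a7b a b c =>
    simp only [eval, imp_eq_one, ← M.res]
    generalize M.eval v a = x
    generalize M.eval v b = y
    generalize M.eval v c = z
    rw [← M.mul_assoc, M.mul_comm y x]
    exact M.mul_imp_le _ _
  | a8 a b c =>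
    simp only [eval, imp_eq_one]
    generalize M.eval v a = x
    generalize M.eval v b = y
    generalize M.eval v c = z
    rcases le_total x y with h | h
    · rw [M.imp_eq_one.mpr h, M.one_imp]
      exact M.le_imp _ _
    · rw [M.imp_eq_one.mpr h, M.one_imp, M.imp_eq_one.mpr le_rfl]
      exact M.le_one _
  | a9 a => simp only [eval, imp_eq_one]; exact M.zero_le _
  | mp _ _ ih1 ih2 =>
    simp only [eval, imp_eq_one] at ih2
    rw [ih1] at ih2
    exact le_antisymm (M.le_one _) ih2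

end Chain

/-- `a^(n+1)` -/
def Fm.pw (a : Fm) : ℕ → Fm
  | 0 => a
  | n + 1 => .conj (Fm.pw a n) a

theorem eval_pw {A : Type u} [LinearOrder A] (M : Chain A) (v : ℕ → A) (a : Fm) (n : ℕ) :
    M.eval v (a.pw n) = (letI := M.mon; (M.eval v a) ^ (n + 1)) := by
  letI := M.mon
  induction n with
  | zero => simp [Fm.pw]
  | succ n ih =>
    simp only [Fm.pw, Chain.eval, ih]
    rw [pow_succ _ (n + 1)]
    rfl

def xx : Fm := .var 0

/-- common part: `x^4 = 0` and `¬ x^3 ≤ x` -/
def dl0 : Fm := .inf (xx.pw 3).neg (.imp (xx.pw 2).neg xx)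
def dl1 : Fm := .inf dl0 (.imp (xx.pw 1).neg (xx.pw 1))
def dl2 : Fm := .inf dl0 (.imp (.imp (xx.pw 1).neg (xx.pw 1)) xx)

theorem key {A : Type u} [LinearOrder A] (M : Chain A) (v w : ℕ → A) :
    M.Taut .bot ∨ M.eval v (dl1.pw 40).neg = M.one ∨ M.eval w (dl2.pw 40).neg = M.one := by
  right
  letI := M.mon
  have hmul : ∀ x y : A, M.mul x y = x * y := fun _ _ => rfl
  have res : ∀ x y z : A, x * z ≤ y ↔ z ≤ M.imp x y := M.res
  have mono : ∀ {x y x' y' : A}, x ≤ y → x' ≤ y' → x * x' ≤ y * y' := M.mono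
  have monop : ∀ {x y : A} (n : ℕ), x ≤ y → x ^ n ≤ y ^ n := by
    intro x y n h
    induction n with
    | zero => simp
    | succ n ih => rw [pow_succ, pow_succ]; exact mono ih h
  have mz : ∀ x : A, x * M.zero = M.zero := M.mul_zero
  simp only [Fm.neg, Chain.eval, eval_pw, Chain.imp_eq_one]
  obtain ⟨e, he⟩ : ∃ e, e = min (M.eval v dl1) (M.eval w dl2) := ⟨_, rfl⟩
  suffices h : e ^ 41 ≤ M.zero by
    rcases min_choice (M.eval v dl1) (M.eval w dl2) with h1 | h1
    · left; rw [← h1, ← he]; exact h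
    · right; rw [← h1, ← he]; exact h
  have h1 : e ≤ M.eval v dl1 := he ▸ min_le_left _ _
  have h2 : e ≤ M.eval w dl2 := he ▸ min_le_right _ _
  simp only [dl1, dl2, dl0, xx, Fm.neg, Chain.eval, eval_pw, le_min_iff, ← res] at h1 h2
  obtain ⟨⟨u4, u3⟩, u2⟩ := h1
  obtain ⟨⟨t4, t3⟩, t2⟩ := h2
  generalize v 0 = u at u4 u3 u2
  generalize w 0 = t at t4 t3 t2
  norm_num at u4 u3 u2 t4 t3 t2
  have ele : ∀ x y : A, x * y ≤ x := M.mul_le_l
  -- both directions of the approximate equality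
  have step : ∀ a b : A, a ≤ b → b ^ 4 * e ≤ M.zero → M.imp (a ^ 3) M.zero * e ≤ a →
      b * e ^ 2 ≤ a := by
    intro a b hab hb ha
    have : b * e ≤ M.imp (a ^ 3) M.zero := by
      rw [← res]
      calc a ^ 3 * (b * e) ≤ b ^ 3 * (b * e) := mono (monop 3 hab) le_rfl
        _ = b ^ 4 * e := by rw [← mul_assoc, ← pow_succ]
        _ ≤ M.zero := hb
    calc b * e ^ 2 = (b * e) * e := by rw [pow_two, mul_assoc]
      _ ≤ M.imp (a ^ 3) M.zero * e := mono this le_rfl
      _ ≤ a := ha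
  have hut : u * e ^ 2 ≤ t := by
    rcases le_total u t with h | h
    · exact (ele _ _).trans h
    · exact step t u h u4 t3
  have hsq : u ^ 2 * e ^ 4 ≤ t ^ 2 := by
    calc u ^ 2 * e ^ 4 = (u * e ^ 2) ^ 2 := by rw [mul_pow, ← pow_mul]
      _ ≤ t ^ 2 := monop 2 hut
  have h9 : e ^ 9 ≤ M.imp (M.imp (t ^ 2) M.zero) (t ^ 2) := by
    rw [← res]
    obtain ⟨z, hz⟩ : ∃ z, z = M.imp (t ^ 2) M.zero := ⟨_, rfl⟩
    have hz0 : t ^ 2 * z ≤ M.zero := by rw [res, hz]
    rw [← hz]
    have a1 : e ^ 4 * z ≤ M.imp (u ^ 2) M.zero := by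
      rw [← res, ← mul_assoc]
      exact (mono hsq le_rfl).trans hz0
    have a2 : e ^ 4 * z * e ≤ u ^ 2 := (mono a1 le_rfl).trans u2
    calc z * e ^ 9 = (e ^ 4 * z * e) * e ^ 4 := by
          rw [mul_comm (e ^ 4) z, mul_assoc, mul_assoc, ← pow_succ', ← pow_add]
      _ ≤ u ^ 2 * e ^ 4 := mono a2 le_rfl
      _ ≤ t ^ 2 := hsq
  have h10 : e ^ 10 ≤ t := by
    rw [pow_succ]
    exact (mono h9 le_rfl).trans t2
  calc e ^ 41 = (e ^ 10) ^ 4 * e := by rw [← pow_mul, ← pow_succ]
    _ ≤ t ^ 4 * e := mono (monop 4 h10) le_rfl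
    _ ≤ M.zero := t4

/-- The five-element Łukasiewicz chain. -/
def L5 : Chain (Fin 5) where
  mul x y := ![![0,0,0,0,0],![0,0,0,0,1],![0,0,0,1,2],![0,0,1,2,3],![0,1,2,3,4]] x y
  imp x y := ![![4,4,4,4,4],![3,4,4,4,4],![2,3,4,4,4],![1,2,3,4,4],![0,1,2,3,4]] x y
  zero := 0
  one := 4
  mul_assoc := by decide
  mul_comm := by decide
  mul_one := by decide
  zero_le := by decide
  le_one := by decide
  res := by decide

/-- The six-element involutive chain `0 < t^3 < t^2 < ¬ t^2 < t < 1`. -/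
def B6 : Chain (Fin 6) where
  mul x y := ![![0,0,0,0,0,0],![0,0,0,0,0,1],![0,0,0,0,1,2],![0,0,0,1,1,3],![0,0,1,1,2,4],
    ![0,1,2,3,4,5]] x y
  imp x y := ![![5,5,5,5,5,5],![4,5,5,5,5,5],![3,4,5,5,5,5],![2,4,4,5,5,5],![1,3,4,4,5,5],
    ![0,1,2,3,4,5]] x y
  zero := 0
  one := 5
  mul_assoc := by decide
  mul_comm := by decide
  mul_one := by decide
  zero_le := by decide
  le_one := by decide
  res := by decide

theorem eval_pw_one {A : Type u} [LinearOrder A] (M : Chain A) (v : ℕ → A) (a : Fm)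
    (h : M.eval v a = M.one) (n : ℕ) : M.eval v (a.pw n) = M.one := by
  induction n with
  | zero => exact h
  | succ n ih => simp only [Fm.pw, Chain.eval, ih, h, M.mul_one]

theorem L5_dl1 : ¬ L5.Taut (dl1.pw 40).neg := by
  intro h
  have := h (fun _ => 3)
  simp only [Fm.neg, Chain.eval] at this
  rw [eval_pw_one L5 _ dl1 (by decide)] at this
  revert this
  decide

theorem B6_dl2 : ¬ B6.Taut (dl2.pw 40).neg := by
  intro h
  have := h (fun _ => 4)
  simp only [Fm.neg, Chain.eval] at this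
  rw [eval_pw_one B6 _ dl2 (by decide)] at this
  revert this
  decide

theorem not_SCC {Ax : Set Fm} (h5 : ∀ φ ∈ Ax, L5.Taut φ) (h6 : ∀ φ ∈ Ax, B6.Taut φ) :
    ¬ SCC.{u} Ax := by
  rintro ⟨A, _, M, -, hM⟩
  have n1 : ¬ M.Taut (dl1.pw 40).neg := fun h => L5_dl1 (L5.sound h5 ((hM _).mpr h))
  have n2 : ¬ M.Taut (dl2.pw 40).neg := fun h => B6_dl2 (B6.sound h6 ((hM _).mpr h))
  simp only [Chain.Taut, not_forall] at n1 n2
  obtain ⟨v, hv⟩ := n1
  obtain ⟨w, hw⟩ := n2
  rcases key M v w with h | h | h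
  · have := L5.sound h5 ((hM _).mpr h) (fun _ => 0)
    revert this
    decide
  · exact hv h
  · exact hw h

theorem not_SCC_MTL : ¬ SCC.{u} axMTL :=
  not_SCC (fun _ h => absurd h (Set.notMem_empty _)) (fun _ h => absurd h (Set.notMem_empty _))

theorem not_SCC_IMTL : ¬ SCC.{u} axIMTL := by
  apply not_SCC
  · rintro _ ⟨a, rfl⟩ v
    simp only [Fm.neg, Chain.eval]
    generalize L5.eval v a = x
    revert x
    decide
  · rintro _ ⟨a, rfl⟩ v
    simp only [Fm.neg, Chain.eval]
    generalize B6.eval v a = x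
    revert x
    decide

end Pool.Agent.H40.MTL
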