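import Pool.Agent.H40.MTLNeg

set_option autoImplicit false

namespace Pool.Agent.H40.MTL

universe u

/-- a deductively closed set -/
structure Thy (Ax : Set Fm) (T : Set Fm) : Prop where
  thm : ∀ {a : Fm}, Provable Ax a → a ∈ T
  mp : ∀ {a b : Fm}, a ∈ T → Fm.imp a b ∈ T → b ∈ T

def top : Fm := .imp .bot .bot

namespace Thy

variable {Ax T : Set Fm} (h : Thy Ax T)
include h

theorem top_mem : top ∈ T := h.thm (.a9 _)

theorem trans {a b c : Fm} (h1 : Fm.imp a b ∈ T) (h2 : Fm.imp b c ∈ T) : Fm.imp a c ∈ T :=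
  h.mp h2 (h.mp h1 (h.thm (.a1 a b c)))

theorem curry {a b c : Fm} (h1 : Fm.imp (.conj a b) c ∈ T) : Fm.imp a (.imp b c) ∈ T :=
  h.mp h1 (h.thm (.a7b a b c))

theorem uncurry {a b c : Fm} (h1 : Fm.imp a (.imp b c) ∈ T) : Fm.imp (.conj a b) c ∈ T :=
  h.mp h1 (h.thm (.a7a a b c))

theorem comm (a b : Fm) : Fm.imp (.conj a b) (.conj b a) ∈ T := h.thm (.a3 a b)

theorem K (a b : Fm) : Fm.imp a (.imp b a) ∈ T := h.curry (h.thm (.a2 a b))

theorem exch {a b c : Fm} (h1 : Fm.imp a (.imp b c) ∈ T) : Fm.imp b (.imp a c) ∈ T :=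
  h.curry (h.trans (h.comm b a) (h.uncurry h1))

theorem refl (a : Fm) : Fm.imp a a ∈ T := h.mp h.top_mem (h.exch (h.K a top))

theorem weak {a : Fm} (b : Fm) (ha : a ∈ T) : Fm.imp b a ∈ T := h.mp ha (h.K a b)

theorem conj_l {a b : Fm} (c : Fm) (h1 : Fm.imp a b ∈ T) : Fm.imp (.conj a c) (.conj b c) ∈ T :=
  h.uncurry (h.trans h1 (h.curry (h.refl _)))

theorem conj_r {a b : Fm} (c : Fm) (h1 : Fm.imp a b ∈ T) : Fm.imp (.conj c a) (.conj c b) ∈ T :=
  h.trans (h.comm _ _) (h.trans (h.conj_l c h1) (h.comm _ _))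

theorem conj_mono {a b a' b' : Fm} (h1 : Fm.imp a b ∈ T) (h2 : Fm.imp a' b' ∈ T) :
    Fm.imp (.conj a a') (.conj b b') ∈ T := h.trans (h.conj_l _ h1) (h.conj_r _ h2)

theorem imp_mono {a b a' b' : Fm} (h1 : Fm.imp a' a ∈ T) (h2 : Fm.imp b b' ∈ T) :
    Fm.imp (.imp a b) (.imp a' b') ∈ T :=
  h.trans (h.mp h1 (h.thm (.a1 a' a b))) (h.mp h2 (h.exch (h.thm (.a1 a' b b'))))

theorem assoc1 (a b c : Fm) : Fm.imp (.conj (.conj a b) c) (.conj a (.conj b c)) ∈ T :=
  h.uncurry (h.uncurry (h.trans (h.curry (h.refl _)) (h.thm (.a7b b c _))))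

theorem assoc2 (a b c : Fm) : Fm.imp (.conj a (.conj b c)) (.conj (.conj a b) c) ∈ T :=
  h.uncurry (h.trans (h.curry (h.curry (h.refl _))) (h.thm (.a7a b c _)))

theorem le_conj_top (a : Fm) : Fm.imp a (.conj a top) ∈ T :=
  h.mp h.top_mem (h.exch (h.curry (h.refl _)))

theorem le_inf {a b : Fm} (h1 : Fm.imp a b ∈ T) : Fm.imp a (.inf a b) ∈ T :=
  h.mp h1 (h.exch (h.curry (h.thm (.a6 a b))))

theorem inf_l (a b : Fm) : Fm.imp (.inf a b) a ∈ T := h.thm (.a4 a b)

theorem inf_r (a b : Fm) : Fm.imp (.inf a b) b ∈ T := h.trans (h.thm (.a5 a b)) (h.inf_l b a)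

theorem ext (p : Fm) : Thy Ax {c | ∃ n, Fm.imp (p.pw n) c ∈ T} where
  thm := fun ha => ⟨0, h.weak _ (h.thm ha)⟩
  mp := by
    have pw_add : ∀ n m, Fm.imp (p.pw (n + m + 1)) (.conj (p.pw n) (p.pw m)) ∈ T := by
      intro n m
      induction m with
      | zero => exact h.refl _
      | succ m ih => exact h.trans (h.conj_l p ih) (h.assoc1 _ _ _)
    rintro a b ⟨n, hn⟩ ⟨m, hm⟩
    refine ⟨m + n + 1, h.trans (pw_add m n) ?_⟩
    exact h.trans (h.conj_r _ hn) (h.uncurry hm)

end Thy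

def Cov (T : Set Fm) (p q : Fm) : Prop := ∀ c, Fm.imp p c ∈ T → Fm.imp q c ∈ T → c ∈ T

theorem Cov.symm {T : Set Fm} {p q : Fm} (h : Cov T p q) : Cov T q p := fun c h1 h2 => h c h2 h1

theorem Cov.pw {Ax T : Set Fm} (h : Thy Ax T) {p q : Fm} (hc : Cov T p q) (n : ℕ) :
    Cov T (p.pw n) q := by
  induction n with
  | zero => exact hc
  | succ n ih =>
    intro c h1 h2
    exact hc c (ih _ (h.curry h1) (h.trans h2 (h.K _ _))) h2

theorem exists_prime {Ax : Set Fm} {φ : Fm} (hφ : ¬ Provable Ax φ) :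
    ∃ T, Thy Ax T ∧ φ ∉ T ∧ ∀ a b, Fm.imp a b ∈ T ∨ Fm.imp b a ∈ T := by
  obtain ⟨T, -, hT⟩ := zorn_subset_nonempty {T | Thy Ax T ∧ φ ∉ T} (by
    intro c hc hch hne
    refine ⟨⋃₀ c, ⟨⟨fun ha => ?_, ?_⟩, ?_⟩, fun s hs => Set.subset_sUnion_of_mem hs⟩
    · obtain ⟨s, hs⟩ := hne
      exact ⟨s, hs, (hc hs).1.thm ha⟩
    · rintro a b ⟨s, hs, has⟩ ⟨t, ht, hbt⟩
      rcases hch.total hs ht with h | h
      · exact ⟨t, ht, (hc ht).1.mp (h has) hbt⟩
      · exact ⟨s, hs, (hc hs).1.mp has (h hbt)⟩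
    · rintro ⟨s, hs, h⟩
      exact (hc hs).2 h) {a | Provable Ax a} ⟨⟨fun ha => ha, fun h1 h2 => .mp h1 h2⟩, hφ⟩
  obtain ⟨h, hφT⟩ := hT.prop
  refine ⟨T, h, hφT, fun a b => ?_⟩
  by_contra hne
  push Not at hne
  have key : ∀ p, p ∉ T → ∃ n, Fm.imp (p.pw n) φ ∈ T := by
    intro p hp
    by_contra hn
    have hsub : T ⊆ {c | ∃ n, Fm.imp (p.pw n) c ∈ T} := fun c hc => ⟨0, h.weak _ hc⟩
    exact hp (hT.le_of_ge ⟨h.ext p, hn⟩ hsub ⟨0, h.refl _⟩)
  obtain ⟨n, hn⟩ := key _ hne.1
  obtain ⟨m, hm⟩ := key _ hne.2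
  have c0 : Cov T (.imp a b) (.imp b a) := fun c h1 h2 => h.mp h2 (h.mp h1 (h.thm (.a8 a b c)))
  exact hφT (((c0.pw h n).symm.pw h m) φ hm hn)

/-- cancellativity of nonzero elements -/
def Chain.Canc {A : Type u} [LinearOrder A] (M : Chain A) : Prop :=
  ∀ x y z, z ≠ M.zero → M.mul x z ≤ M.mul y z → x ≤ y

theorem Chain.Canc.neg_eq {A : Type u} [LinearOrder A] {M : Chain A} (h : M.Canc) {z : A}
    (hz : z ≠ M.zero) : M.imp z M.zero = M.zero := by
  apply le_antisymm _ (M.zero_le _)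
  apply h _ _ z hz
  rw [M.zero_mul, M.mul_comm]
  exact M.mul_imp_le _ _

theorem Chain.Canc.mul_ne {A : Type u} [LinearOrder A] {M : Chain A} (h : M.Canc) {x z : A}
    (hx : x ≠ M.zero) (hz : z ≠ M.zero) : M.mul x z ≠ M.zero := by
  intro e
  apply hx
  apply le_antisymm _ (M.zero_le _)
  apply h _ _ z hz
  rw [e, M.zero_mul]

theorem Chain.Canc.valid {A : Type u} [LinearOrder A] {M : Chain A} (h : M.Canc) :
    ∀ φ ∈ axPiMTL, M.Taut φ := by
  rintro _ (⟨a, b, c, rfl⟩ | ⟨a, rfl⟩) v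
  · simp only [Fm.neg, Chain.eval, Chain.imp_eq_one]
    generalize M.eval v a = x
    generalize M.eval v b = y
    generalize M.eval v c = z
    by_cases hz : z = M.zero
    · rw [hz, M.imp_eq_one.mpr le_rfl, M.one_imp]
      exact M.zero_le _
    · refine (M.le_one _).trans (M.imp_eq_one.mpr ?_).ge
      rw [← M.res]
      apply h _ _ z hz
      rw [M.mul_assoc, M.mul_comm _ z, ← M.mul_assoc]
      exact M.mul_imp_le _ _
  · simp only [Fm.neg, Chain.eval, Chain.imp_eq_one]
    generalize M.eval v a = x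
    by_cases hz : x = M.zero
    · rw [hz]; exact min_le_left _ _
    · rw [h.neg_eq hz]; exact min_le_right _ _

theorem Chain.canc_of {A : Type u} [LinearOrder A] (M : Chain A)
    (h1 : ∀ x y z, M.imp (M.imp z M.zero) M.zero ≤
      M.imp (M.imp (M.mul x z) (M.mul y z)) (M.imp x y))
    (h2 : ∀ x, min x (M.imp x M.zero) ≤ M.zero) : M.Canc := by
  intro x y z hz hxy
  have e : M.imp z M.zero = M.zero := by
    rcases min_le_iff.mp (h2 z) with h | h
    · exact absurd (le_antisymm h (M.zero_le _)) hz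
    · exact le_antisymm h (M.zero_le _)
  have := h1 x y z
  rw [e, M.imp_eq_one.mpr le_rfl, M.imp_eq_one.mpr hxy, M.one_imp] at this
  exact M.imp_eq_one.mp (le_antisymm (M.le_one _) this)

section Lind

variable {Ax T : Set Fm} (h : Thy Ax T) (hp : ∀ a b, Fm.imp a b ∈ T ∨ Fm.imp b a ∈ T)

def sd : Setoid Fm where
  r a b := Fm.imp a b ∈ T ∧ Fm.imp b a ∈ T
  iseqv := ⟨fun a => ⟨h.refl a, h.refl a⟩, fun h1 => h1.symm,
    fun h1 h2 => ⟨h.trans h1.1 h2.1, h.trans h2.2 h1.2⟩⟩

def Q : Type := Quotient (sd h)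

def mkQ (a : Fm) : Q h := Quotient.mk (sd h) a

def leQ (x y : Q h) : Prop :=
  Quotient.liftOn₂ x y (fun a b => Fm.imp a b ∈ T) (fun a b a' b' h1 h2 => propext
    ⟨fun h3 => h.trans h1.2 (h.trans h3 h2.1), fun h3 => h.trans h1.1 (h.trans h3 h2.2)⟩)

@[reducible] noncomputable def linQ : LinearOrder (Q h) where
  le := leQ h
  le_refl := fun x => Quotient.inductionOn x (fun a => h.refl a)
  le_trans := fun x y z => Quotient.inductionOn₃ x y z (fun a b c h1 h2 => h.trans h1 h2)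
  le_antisymm := fun x y => Quotient.inductionOn₂ x y (fun a b h1 h2 => Quotient.sound ⟨h1, h2⟩)
  le_total := fun x y => Quotient.inductionOn₂ x y (fun a b => hp a b)
  toDecidableLE := Classical.decRel _

noncomputable def chQ : @Chain (Q h) (linQ h hp) :=
  letI := linQ h hp
  { mul := Quotient.map₂ Fm.conj (fun a a' h1 b b' h2 =>
      ⟨h.conj_mono h1.1 h2.1, h.conj_mono h1.2 h2.2⟩)
    imp := Quotient.map₂ Fm.imp (fun a a' h1 b b' h2 =>
      ⟨h.imp_mono h1.2 h2.1, h.imp_mono h1.1 h2.2⟩)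
    zero := mkQ h .bot
    one := mkQ h top
    mul_assoc := fun x y z => Quotient.inductionOn₃ x y z
      (fun a b c => Quotient.sound ⟨h.assoc1 a b c, h.assoc2 a b c⟩)
    mul_comm := fun x y => Quotient.inductionOn₂ x y
      (fun a b => Quotient.sound ⟨h.comm a b, h.comm b a⟩)
    mul_one := fun x => Quotient.inductionOn x
      (fun a => Quotient.sound ⟨h.thm (.a2 a top), h.le_conj_top a⟩)
    zero_le := fun x => Quotient.inductionOn x (fun a => h.thm (.a9 a))
    le_one := fun x => Quotient.inductionOn x (fun a => h.weak a h.top_mem)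
    res := fun x y z => Quotient.inductionOn₃ x y z
      (fun a b c => ⟨fun h1 => h.exch (h.curry h1), fun h1 => h.uncurry (h.exch h1)⟩) }

theorem min_mk (a b : Fm) :
    (letI := linQ h hp; min (mkQ h a) (mkQ h b)) = mkQ h (.inf a b) := by
  letI := linQ h hp
  apply le_antisymm
  · rcases hp a b with h1 | h1
    · exact (min_le_left _ _).trans (h.le_inf h1)
    · exact (min_le_right _ _).trans (h.trans (h.le_inf h1) (h.thm (.a5 b a)))
  · exact le_min (h.inf_l a b) (h.inf_r a b)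

theorem eval_mk (φ : Fm) :
    (letI := linQ h hp; (chQ h hp).eval (fun n => mkQ h (.var n)) φ) = mkQ h φ := by
  letI := linQ h hp
  induction φ with
  | var n => rfl
  | bot => rfl
  | conj a b iha ihb => simp only [Chain.eval] at *; rw [iha, ihb]; rfl
  | imp a b iha ihb => simp only [Chain.eval] at *; rw [iha, ihb]; rfl
  | inf a b iha ihb => simp only [Chain.eval] at *; rw [iha, ihb]; exact min_mk h hp a b

end Lind

theorem complete_pi {φ : Fm} (hφ : ¬ Provable axPiMTL φ) :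
    ∃ (A : Type) (_ : LinearOrder A) (M : Chain A), M.Canc ∧ ∃ v, M.eval v φ ≠ M.one := by
  obtain ⟨T, h, hφT, hp⟩ := exists_prime hφ
  letI := linQ h hp
  refine ⟨Q h, linQ h hp, chQ h hp, ?_, fun n => mkQ h (.var n), ?_⟩
  · apply Chain.canc_of
    · intro x y z
      refine Quotient.inductionOn₃ x y z (fun a b c => ?_)
      exact h.thm (.ax (Or.inl ⟨a, b, c, rfl⟩))
    · intro x
      refine Quotient.inductionOn x (fun a => ?_)
      have := min_mk h hp a a.neg
      exact this.le.trans (h.thm (.ax (Or.inr ⟨a, rfl⟩)))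
  · rw [eval_mk h hp φ]
    intro e
    exact hφT (h.mp h.top_mem (Quotient.exact e).2)

section Prod

variable {I : Type} [LinearOrder I] [WellFoundedLT I] {A : I → Type} [∀ i, LinearOrder (A i)]
  (M : ∀ i, Chain (A i)) (hc : ∀ i, (M i).Canc)

abbrev P : Type := {f : Lex (∀ i, A i) // (∀ i, f i ≠ (M i).zero) ∨ ∀ i, f i = (M i).zero}

open Classical in
noncomputable def impP (a b : ∀ i, A i) : ∀ i, A i := fun i =>
  if ∀ j < i, (M j).mul (a j) ((M j).imp (a j) (b j)) = b j then (M i).imp (a i) (b i)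
  else (M i).one

theorem lt_def {f g : Lex (∀ i, A i)} : f < g ↔ ∃ i, (∀ j < i, f j = g j) ∧ f i < g i := Iff.rfl

theorem le_of_pw {f g : Lex (∀ i, A i)} (h : ∀ i, f i ≤ g i) : f ≤ g :=
  Pi.toLex_monotone (a := f) (b := g) h

include hc in
theorem monoP (a z c : P M) (h : z ≤ c) :
    toLex (fun i => (M i).mul (a.1 i) (z.1 i)) ≤ toLex (fun i => (M i).mul (a.1 i) (c.1 i)) := by
  rcases a.2 with ha | ha
  · rcases h.lt_or_eq with h | h
    · obtain ⟨i, h1, h2⟩ := lt_def.mp (show z.1 < c.1 from h)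
      refine le_of_lt (lt_def.mpr ⟨i, fun j hj => ?_, ?_⟩)
      · simp only [Pi.toLex_apply, h1 j hj]
      · simp only [Pi.toLex_apply]
        by_contra hn
        rw [not_lt, (M i).mul_comm _ (c.1 i), (M i).mul_comm _ (z.1 i)] at hn
        exact absurd (hc i _ _ _ (ha i) hn) (not_le.mpr h2)
    · rw [h]
  · apply le_of_pw
    intro i
    simp only [Pi.toLex_apply, ha i, (M i).zero_mul, le_refl]

theorem mul_impP_le (a b : ∀ i, A i) :
    toLex (fun i => (M i).mul (a i) (impP M a b i)) ≤ toLex b := by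
  by_contra hn
  rw [not_le] at hn
  obtain ⟨i, h1, h2⟩ := lt_def.mp hn
  simp only [Pi.toLex_apply] at h1 h2
  have key : ∀ j ≤ i, ∀ k < j, (M k).mul (a k) ((M k).imp (a k) (b k)) = b k := by
    intro j
    induction j using WellFoundedLT.induction with
    | _ j ih =>
      intro hj k hk
      have := h1 k (hk.trans_le hj)
      rw [impP, if_pos (ih k hk (hk.le.trans hj))] at this
      exact this.symm
  rw [impP, if_pos (key i le_rfl)] at h2
  exact absurd ((M i).mul_imp_le _ _) (not_le.mpr h2)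

theorem le_impP (a b z : ∀ i, A i) (h : toLex (fun i => (M i).mul (a i) (z i)) ≤ toLex b) :
    toLex z ≤ toLex (impP M a b) := by
  by_contra hn
  rw [not_le] at hn
  obtain ⟨i, h1, h2⟩ := lt_def.mp hn
  simp only [Pi.toLex_apply] at h1 h2
  by_cases hi : ∀ j < i, (M j).mul (a j) ((M j).imp (a j) (b j)) = b j
  · rw [impP, if_pos hi] at h2
    have h3 : b i < (M i).mul (a i) (z i) := by
      by_contra h3
      exact absurd (((M i).res _ _ _).mp (not_lt.mp h3)) (not_le.mpr h2)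
    refine absurd h (not_le.mpr (lt_def.mpr ⟨i, fun j hj => ?_, h3⟩))
    simp only [Pi.toLex_apply]
    rw [← h1 j hj, impP, if_pos (fun k hk => hi k (hk.trans hj)), hi j hj]
  · rw [impP, if_neg hi] at h2
    exact absurd ((M i).le_one _) (not_le.mpr h2)

variable (hnt : ∀ i, (M i).one ≠ (M i).zero)

noncomputable def chP : Chain (P M) where
  mul a b := ⟨toLex (fun i => (M i).mul (a.1 i) (b.1 i)), by
    rcases a.2 with ha | ha
    · rcases b.2 with hb | hb
      · exact Or.inl (fun i => (hc i).mul_ne (ha i) (hb i))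
      · exact Or.inr (fun i => by simp only [Pi.toLex_apply, hb i, (M i).mul_zero])
    · exact Or.inr (fun i => by simp only [Pi.toLex_apply, ha i, (M i).zero_mul])⟩
  imp a b := ⟨toLex (impP M a.1 b.1), by
    rcases a.2 with ha | ha
    · rcases b.2 with hb | hb
      · refine Or.inl (fun i => ?_)
        simp only [Pi.toLex_apply, impP]
        split_ifs
        · intro e
          exact hb i (le_antisymm (e ▸ (M i).le_imp _ _) ((M i).zero_le _))
        · exact hnt i
      · refine Or.inr (fun i => ?_)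
        simp only [Pi.toLex_apply, impP]
        rw [if_pos, hb i, (hc i).neg_eq (ha i)]
        intro j _
        rw [hb j, (hc j).neg_eq (ha j), (M j).mul_zero]
    · refine Or.inl (fun i => ?_)
      simp only [Pi.toLex_apply, impP]
      split_ifs
      · rw [ha i, (M i).imp_eq_one.mpr ((M i).zero_le _)]
        exact hnt i
      · exact hnt i⟩
  zero := ⟨toLex (fun i => (M i).zero), Or.inr (fun _ => rfl)⟩
  one := ⟨toLex (fun i => (M i).one), Or.inl hnt⟩
  mul_assoc x y z := Subtype.ext (funext fun i => (M i).mul_assoc _ _ _)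
  mul_comm x y := Subtype.ext (funext fun i => (M i).mul_comm _ _)
  mul_one x := Subtype.ext (funext fun i => (M i).mul_one _)
  zero_le x := le_of_pw (fun i => (M i).zero_le _)
  le_one x := le_of_pw (fun i => (M i).le_one _)
  res x y z := ⟨fun h => le_impP M x.1 y.1 z.1 h,
    fun h => (monoP M hc x z _ h).trans (mul_impP_le M x.1 y.1)⟩

theorem chP_canc : (chP M hc hnt).Canc := by
  intro x y z hz h
  by_contra hn
  rw [not_le] at hn
  obtain ⟨i, h1, h2⟩ := lt_def.mp (show y.1 < x.1 from hn)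
  have hz' : ∀ i, z.1 i ≠ (M i).zero := by
    rcases z.2 with h | h
    · exact h
    · exact absurd (Subtype.ext (funext h)) hz
  refine absurd h (not_le.mpr (lt_def.mpr ⟨i, fun j hj => ?_, ?_⟩))
  · show (M j).mul (y.1 j) (z.1 j) = (M j).mul (x.1 j) (z.1 j)
    rw [h1 j hj]
  · show (M i).mul (y.1 i) (z.1 i) < (M i).mul (x.1 i) (z.1 i)
    by_contra hn
    exact absurd (hc i _ _ _ (hz' i) (not_lt.mp hn)) (not_le.mpr h2)

open Classical in
noncomputable def emb (i : I) (x : A i) : P M :=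
  if hx : x = (M i).zero then (chP M hc hnt).zero else
    ⟨toLex (Function.update (fun j => (M j).one) i x), Or.inl (fun j => by
      simp only [Pi.toLex_apply]
      by_cases hj : j = i
      · subst hj; simpa using hx
      · rw [Function.update_of_ne hj]; exact hnt j)⟩

theorem emb_self (i : I) (x : A i) : (emb M hc hnt i x).1 i = x := by
  unfold emb
  split_ifs with hx
  · exact hx.symm
  · simp

theorem emb_ne (i : I) (x : A i) (hx : x ≠ (M i).zero) (j : I) (hj : j ≠ i) :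
    (emb M hc hnt i x).1 j = (M j).one := by
  unfold emb
  rw [dif_neg hx]
  simp [Function.update_of_ne hj]

theorem emb_zero (i : I) : emb M hc hnt i (M i).zero = (chP M hc hnt).zero := by
  unfold emb
  rw [dif_pos rfl]

theorem emb_mono (i : I) : Monotone (emb M hc hnt i) := by
  intro x y hxy
  by_cases hx : x = (M i).zero
  · rw [hx, emb_zero]; exact (chP M hc hnt).zero_le _
  have hy : y ≠ (M i).zero := fun e => hx (le_antisymm (e ▸ hxy) ((M i).zero_le _))
  apply le_of_pw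
  intro j
  by_cases hj : j = i
  · subst hj; rw [emb_self, emb_self]; exact hxy
  · rw [emb_ne _ _ _ _ _ hx j hj, emb_ne _ _ _ _ _ hy j hj]

theorem emb_mul (i : I) (x y : A i) :
    emb M hc hnt i ((M i).mul x y) = (chP M hc hnt).mul (emb M hc hnt i x) (emb M hc hnt i y) := by
  by_cases hx : x = (M i).zero
  · rw [hx, (M i).zero_mul, emb_zero, Chain.zero_mul]
  by_cases hy : y = (M i).zero
  · rw [hy, (M i).mul_zero, emb_zero, Chain.mul_zero]
  apply Subtype.ext
  funext j
  show _ = (M j).mul ((emb M hc hnt i x).1 j) ((emb M hc hnt i y).1 j)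
  by_cases hj : j = i
  · subst hj; rw [emb_self, emb_self, emb_self]
  · rw [emb_ne _ _ _ _ _ hx j hj, emb_ne _ _ _ _ _ hy j hj,
      emb_ne _ _ _ _ _ ((hc i).mul_ne hx hy) j hj, Chain.mul_one]

theorem emb_one (i : I) : emb M hc hnt i (M i).one = (chP M hc hnt).one := by
  apply Subtype.ext
  funext j
  show _ = (M j).one
  by_cases hj : j = i
  · subst hj; rw [emb_self]
  · rw [emb_ne _ _ _ _ _ (hnt i) j hj]

theorem emb_imp (i : I) (x y : A i) :
    emb M hc hnt i ((M i).imp x y) = (chP M hc hnt).imp (emb M hc hnt i x) (emb M hc hnt i y) := by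
  by_cases hx : x = (M i).zero
  · rw [hx, (M i).imp_eq_one.mpr ((M i).zero_le _), emb_zero, emb_one,
      (chP M hc hnt).imp_eq_one.mpr ((chP M hc hnt).zero_le _)]
  by_cases hy : y = (M i).zero
  · rw [hy, (hc i).neg_eq hx, emb_zero, (chP_canc M hc hnt).neg_eq]
    intro e
    apply hx
    rw [← emb_self M hc hnt i x, e]
    rfl
  have hxy : (M i).imp x y ≠ (M i).zero := fun e =>
    hy (le_antisymm (e ▸ (M i).le_imp _ _) ((M i).zero_le _))
  apply Subtype.ext
  funext j
  show _ = impP M (fun k => (emb M hc hnt i x).1 k) (fun k => (emb M hc hnt i y).1 k) j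
  by_cases hj : j = i
  · subst hj
    rw [impP, if_pos, emb_self, emb_self, emb_self]
    intro k hk
    rw [emb_ne _ _ _ _ _ hx k hk.ne, emb_ne _ _ _ _ _ hy k hk.ne, Chain.one_imp, Chain.mul_one]
  · rw [emb_ne _ _ _ _ _ hxy j hj, impP, emb_ne _ _ _ _ _ hx j hj, emb_ne _ _ _ _ _ hy j hj,
      Chain.one_imp, ite_self]

theorem emb_eval (i : I) (v : ℕ → A i) (φ : Fm) :
    (chP M hc hnt).eval (fun n => emb M hc hnt i (v n)) φ = emb M hc hnt i ((M i).eval v φ) := by
  induction φ with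
  | var n => rfl
  | bot => exact (emb_zero M hc hnt i).symm
  | conj a b iha ihb => simp only [Chain.eval, iha, ihb, emb_mul]
  | imp a b iha ihb => simp only [Chain.eval, iha, ihb, emb_imp]
  | inf a b iha ihb => simp only [Chain.eval, iha, ihb, (emb_mono M hc hnt i).map_min]

end Prod

theorem SCC_PiMTL : SCC.{0} axPiMTL := by
  obtain ⟨_, _⟩ := exists_wellFoundedLT (α := {φ : Fm // ¬ Provable axPiMTL φ})
  have h := fun i : {φ : Fm // ¬ Provable axPiMTL φ} => complete_pi i.2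
  choose A inst M hc v hv using h
  have hnt : ∀ i, (M i).one ≠ (M i).zero := fun i e =>
    hv i (le_antisymm ((M i).le_one _) (e ▸ (M i).zero_le _))
  refine ⟨P M, inferInstance, chP M hc hnt, (chP_canc M hc hnt).valid, fun φ =>
    ⟨fun h => Chain.sound _ (chP_canc M hc hnt).valid h, fun h => ?_⟩⟩
  by_contra hφ
  have := h (fun n => emb M hc hnt ⟨φ, hφ⟩ (v ⟨φ, hφ⟩ n))
  rw [emb_eval] at this
  apply hv ⟨φ, hφ⟩
  rw [← emb_self M hc hnt ⟨φ, hφ⟩ ((M _).eval _ _), this]
  rfl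

end Pool.Agent.H40.MTL
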