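import Pool.Agent.H40.MargDefs

set_option autoImplicit false

namespace Pool.Agent.H40.Marg

abbrev V := Fin 5
abbrev O3 : V → Type := fun _ => Fin 3

def edges : Finset (Finset V) := {{0,1},{1,2},{0,2},{0,3},{1,3},{0,4},{1,4}}

def MM : Set (Finset V) := {S | ∃ e ∈ edges, S ⊆ e}

theorem MM_scen : IsScenario MM := by
  refine ⟨fun S ⟨e, he, hS⟩ T hT => ⟨e, he, hT.trans hS⟩, ⟨{0,1}, by decide, by decide⟩, ?_⟩
  show ∀ i : V, ∃ e ∈ edges, {i} ⊆ e
  decide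

def dflt : V → Fin 4 → Fin 3 := ![![0,0,1,2], ![0,0,1,2], ![0,0,1,1], ![0,0,1,2], ![0,0,1,1]]

def Z (S : Finset V) (ω : Fin 4) (i : V) : Fin 3 :=
  if S = {0,2} ∧ i = 2 then ![0,1,0,1] ω
  else if S = {1,3} ∧ i = 3 then ![0,0,2,1] ω
  else if S = {1,4} ∧ i = 4 then ![1,1,0,0] ω
  else dflt i ω

noncomputable def pp : (S : MM) → ((i : S.1) → O3 i) → ℝ := fun S x =>
  ((Finset.univ.filter (fun ω : Fin 4 => (fun i : S.1 => Z S.1 ω i) = x)).card : ℝ) / 4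

theorem Z_single (S : Finset V) (i : V) (a : Fin 3) :
    (Finset.univ.filter (fun ω : Fin 4 => Z S ω i = a)).card =
      (Finset.univ.filter (fun ω : Fin 4 => dflt i ω = a)).card := by
  unfold Z
  by_cases h1 : S = {0,2} ∧ i = 2
  · simp only [if_pos h1]; rw [h1.2]; revert a; decide
  by_cases h2 : S = {1,3} ∧ i = 3
  · simp only [if_neg h1, if_pos h2]; rw [h2.2]; revert a; decide
  by_cases h3 : S = {1,4} ∧ i = 4
  · simp only [if_neg h1, if_neg h2, if_pos h3]; rw [h3.2]; revert a; decide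
  simp only [if_neg h1, if_neg h2, if_neg h3]

theorem card_le_two (S : MM) : S.1.card ≤ 2 := by
  obtain ⟨S, e, he, hS⟩ := S
  refine (Finset.card_le_card hS).trans ?_
  have : ∀ e ∈ edges, e.card ≤ 2 := by decide
  exact this e he

theorem pp_mem : pp ∈ Models MM O3 := by
  refine ⟨fun S x => by unfold pp; positivity, fun S => ?_, fun S T h y => ?_⟩
  · unfold pp
    rw [← Finset.sum_div, ← Nat.cast_sum, ← Finset.card_eq_sum_card_fiberwise
      (fun _ _ => Finset.mem_coe.mpr (Finset.mem_univ _))]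
    simp
  · unfold pp
    rw [← Finset.sum_div, ← Nat.cast_sum]
    congr 2
    have e1 : ∑ x with Finset.restrict₂ h x = y,
        (Finset.univ.filter (fun ω : Fin 4 => (fun i : S.1 => Z S.1 ω i) = x)).card =
        (Finset.univ.filter (fun ω : Fin 4 => (fun i : T.1 => Z S.1 ω i) = y)).card := by
      rw [Finset.card_eq_sum_card_fiberwise (f := fun ω : Fin 4 => (fun i : S.1 => Z S.1 ω i))
        (s := Finset.univ.filter (fun ω : Fin 4 => (fun i : T.1 => Z S.1 ω i) = y))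
        (t := Finset.univ.filter (fun x => Finset.restrict₂ h x = y))]
      · refine Finset.sum_congr rfl (fun x hx => ?_)
        congr 1
        ext ω
        simp only [Finset.mem_filter, Finset.mem_univ, true_and] at hx ⊢
        constructor
        · intro e
          refine ⟨?_, e⟩
          rw [← hx, ← e]
          rfl
        · exact fun e => e.2
      · intro ω hω
        simp only [Finset.coe_filter, Finset.mem_univ, true_and, Set.mem_ofPred_eq] at hω ⊢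
        rw [← hω]
        rfl
    rw [e1]
    by_cases hST : T.1 = S.1
    · obtain ⟨S, hS⟩ := S
      obtain ⟨T, hT⟩ := T
      simp only at hST
      subst hST
      rfl
    have hlt : T.1.card < S.1.card := Finset.card_lt_card (h.ssubset_of_ne hST)
    have h2 := card_le_two S
    have h1 : T.1.card ≤ 1 := by omega
    obtain ⟨T, hT⟩ := T
    simp only at h1 h y ⊢
    rcases Finset.card_le_one_iff_subset_singleton.mp h1 with ⟨i, hi⟩
    rcases Finset.subset_singleton_iff.mp hi with rfl | rfl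
    · congr 1
    · have k : ∀ S' : Finset V,
          (Finset.univ.filter (fun ω : Fin 4 => (fun j : ({i} : Finset V) => Z S' ω j) = y)) =
          (Finset.univ.filter (fun ω : Fin 4 => Z S' ω i = y ⟨i, by simp⟩)) := by
        intro S'
        ext ω
        simp only [Finset.mem_filter, Finset.mem_univ, true_and]
        constructor
        · intro e; rw [← e]
        · intro e
          funext ⟨j, hj⟩
          obtain rfl := Finset.mem_singleton.mp hj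
          exact e
      rw [k, k, Z_single, Z_single]

def pr (i j : V) (a b : Fin 3) : (k : ({i, j} : Finset V)) → O3 k :=
  fun k => if k.1 = i then a else b

def prE (i j : V) (hij : i ≠ j) : Fin 3 × Fin 3 ≃ ((k : ({i, j} : Finset V)) → O3 k) where
  toFun p := pr i j p.1 p.2
  invFun x := (x ⟨i, by simp⟩, x ⟨j, by simp⟩)
  left_inv p := by simp [pr, hij.symm]
  right_inv x := by
    funext ⟨k, hk⟩
    simp only [pr]
    split_ifs with h
    · subst h; rfl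
    · obtain rfl : k = j := by simpa [h] using hk
      rfl

def sg (i : V) (a : Fin 3) : (k : ({i} : Finset V)) → O3 k := fun _ => a

def sgE (i : V) : Fin 3 ≃ ((k : ({i} : Finset V)) → O3 k) where
  toFun a := sg i a
  invFun x := x ⟨i, by simp⟩
  left_inv _ := rfl
  right_inv x := by
    funext ⟨k, hk⟩
    obtain rfl := Finset.mem_singleton.mp hk
    rfl

theorem sg_eq_iff (i : V) (a : Fin 3) (x : (k : ({i} : Finset V)) → O3 k) :
    x = sg i a ↔ x ⟨i, by simp⟩ = a :=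
  ⟨fun h => by rw [h]; rfl, fun h => by rw [← h]; exact ((sgE i).right_inv x).symm⟩

theorem marg {q : (S : MM) → ((i : S.1) → O3 i) → ℝ} (hq : q ∈ Models MM O3) (i j : V)
    (hij : i ≠ j) (h : {i, j} ∈ MM) :
    (∀ a, q ⟨{i}, MM_scen.2.2 i⟩ (sg i a) = ∑ b, q ⟨{i, j}, h⟩ (pr i j a b)) ∧
    (∀ b, q ⟨{j}, MM_scen.2.2 j⟩ (sg j b) = ∑ a, q ⟨{i, j}, h⟩ (pr i j a b)) := by
  constructor
  · intro a
    rw [hq.2.2 ⟨{i, j}, h⟩ ⟨{i}, MM_scen.2.2 i⟩ (by simp) (sg i a), Finset.sum_filter,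
      ← (prE i j hij).sum_comp, Fintype.sum_prod_type, Finset.sum_comm]
    refine Finset.sum_congr rfl (fun b _ => ?_)
    simp only [sg_eq_iff, prE, Equiv.coe_fn_mk, Finset.restrict₂, pr, if_true]
    simp
  · intro b
    rw [hq.2.2 ⟨{i, j}, h⟩ ⟨{j}, MM_scen.2.2 j⟩ (by simp) (sg j b), Finset.sum_filter,
      ← (prE i j hij).sum_comp, Fintype.sum_prod_type]
    refine Finset.sum_congr rfl (fun a _ => ?_)
    simp only [sg_eq_iff, prE, Equiv.coe_fn_mk, Finset.restrict₂, pr, if_neg hij.symm]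
    simp

def cnt (i j : V) (a b : Fin 3) : ℕ :=
  (Finset.univ.filter (fun ω : Fin 4 => Z {i, j} ω i = a ∧ Z {i, j} ω j = b)).card

theorem pp_pr (i j : V) (hij : i ≠ j) (h : {i, j} ∈ MM) (a b : Fin 3) :
    pp ⟨{i, j}, h⟩ (pr i j a b) = (cnt i j a b : ℝ) / 4 := by
  unfold pp cnt
  congr 3
  ext ω
  simp only [Finset.mem_filter, Finset.mem_univ, true_and]
  constructor
  · intro e
    have e1 := congrFun e ⟨i, by simp⟩
    have e2 := congrFun e ⟨j, by simp⟩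
    simp only [pr, if_true, if_neg hij.symm] at e1 e2
    exact ⟨e1, e2⟩
  · rintro ⟨e1, e2⟩
    funext ⟨k, hk⟩
    simp only [pr]
    split_ifs with h
    · subst h; exact e1
    · obtain rfl : k = j := by simpa [h] using hk
      exact e2

theorem c01 : ∀ a b, cnt 0 1 a b = ![![2,0,0],![0,1,0],![0,0,1]] a b := by decide
theorem c12 : ∀ a b, cnt 1 2 a b = ![![2,0,0],![0,1,0],![0,1,0]] a b := by decide
theorem c02 : ∀ a b, cnt 0 2 a b = ![![1,1,0],![1,0,0],![0,1,0]] a b := by decide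
theorem c03 : ∀ a b, cnt 0 3 a b = ![![2,0,0],![0,1,0],![0,0,1]] a b := by decide
theorem c13 : ∀ a b, cnt 1 3 a b = ![![2,0,0],![0,0,1],![0,1,0]] a b := by decide
theorem c04 : ∀ a b, cnt 0 4 a b = ![![2,0,0],![0,1,0],![0,1,0]] a b := by decide
theorem c14 : ∀ a b, cnt 1 4 a b = ![![0,2,0],![1,0,0],![1,0,0]] a b := by decide

theorem m01 : ({0, 1} : Finset V) ∈ MM := ⟨_, by decide, subset_rfl⟩
theorem m12 : ({1, 2} : Finset V) ∈ MM := ⟨_, by decide, subset_rfl⟩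
theorem m02 : ({0, 2} : Finset V) ∈ MM := ⟨_, by decide, subset_rfl⟩
theorem m03 : ({0, 3} : Finset V) ∈ MM := ⟨_, by decide, subset_rfl⟩
theorem m13 : ({1, 3} : Finset V) ∈ MM := ⟨_, by decide, subset_rfl⟩
theorem m04 : ({0, 4} : Finset V) ∈ MM := ⟨_, by decide, subset_rfl⟩
theorem m14 : ({1, 4} : Finset V) ∈ MM := ⟨_, by decide, subset_rfl⟩

theorem lin (A B C D E : Fin 3 → ℝ) (AB BC AC AD BD AE BE : Fin 3 → Fin 3 → ℝ)
    (hA : ∑ a, A a = 1)
    (h01 : (∀ a, A a = ∑ b, AB a b) ∧ ∀ b, B b = ∑ a, AB a b)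
    (h12 : (∀ a, B a = ∑ b, BC a b) ∧ ∀ b, C b = ∑ a, BC a b)
    (h02 : (∀ a, A a = ∑ b, AC a b) ∧ ∀ b, C b = ∑ a, AC a b)
    (h03 : (∀ a, A a = ∑ b, AD a b) ∧ ∀ b, D b = ∑ a, AD a b)
    (h13 : (∀ a, B a = ∑ b, BD a b) ∧ ∀ b, D b = ∑ a, BD a b)
    (h04 : (∀ a, A a = ∑ b, AE a b) ∧ ∀ b, E b = ∑ a, AE a b)
    (h14 : (∀ a, B a = ∑ b, BE a b) ∧ ∀ b, E b = ∑ a, BE a b)
    (z01 : ∀ a b, cnt 0 1 a b = 0 → AB a b = 0) (z12 : ∀ a b, cnt 1 2 a b = 0 → BC a b = 0)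
    (z02 : ∀ a b, cnt 0 2 a b = 0 → AC a b = 0) (z03 : ∀ a b, cnt 0 3 a b = 0 → AD a b = 0)
    (z13 : ∀ a b, cnt 1 3 a b = 0 → BD a b = 0) (z04 : ∀ a b, cnt 0 4 a b = 0 → AE a b = 0)
    (z14 : ∀ a b, cnt 1 4 a b = 0 → BE a b = 0) :
    (∀ a b, AB a b = (cnt 0 1 a b : ℝ) / 4) ∧ (∀ a b, BC a b = (cnt 1 2 a b : ℝ) / 4) ∧
    (∀ a b, AC a b = (cnt 0 2 a b : ℝ) / 4) ∧ (∀ a b, AD a b = (cnt 0 3 a b : ℝ) / 4) ∧
    (∀ a b, BD a b = (cnt 1 3 a b : ℝ) / 4) ∧ (∀ a b, AE a b = (cnt 0 4 a b : ℝ) / 4) ∧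
    (∀ a b, BE a b = (cnt 1 4 a b : ℝ) / 4) := by
  simp only [c01, c12, c02, c03, c13, c04, c14, Fin.forall_fin_succ, Fin.sum_univ_succ] at *
  simp at *
  obtain ⟨⟨a1, a2⟩, ⟨a3, a4⟩, a5, a6⟩ := z01
  obtain ⟨⟨b1, b2⟩, ⟨b3, b4⟩, b5, b6⟩ := z12
  obtain ⟨c1, ⟨c2, c3⟩, c4, c5⟩ := z02
  obtain ⟨⟨d1, d2⟩, ⟨d3, d4⟩, d5, d6⟩ := z03
  obtain ⟨⟨e1, e2⟩, ⟨e3, e4⟩, e5, e6⟩ := z13
  obtain ⟨⟨f1, f2⟩, ⟨f3, f4⟩, f5, f6⟩ := z04
  obtain ⟨⟨g1, g2⟩, ⟨g3, g4⟩, g5, g6⟩ := z14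
  simp only [a1, a2, a3, a4, a5, a6, b1, b2, b3, b4, b5, b6, c1, c2, c3, c4, c5, d1, d2, d3, d4,
    d5, d6, e1, e2, e3, e4, e5, e6, f1, f2, f3, f4, f5, f6, g1, g2, g3, g4, g5, g6] at *
  obtain ⟨⟨_, _, _⟩, _, _, _⟩ := h01
  obtain ⟨⟨_, _, _⟩, _, _, _⟩ := h12
  obtain ⟨⟨_, _, _⟩, _, _, _⟩ := h02
  obtain ⟨⟨_, _, _⟩, _, _, _⟩ := h03
  obtain ⟨⟨_, _, _⟩, _, _, _⟩ := h13
  obtain ⟨⟨_, _, _⟩, _, _, _⟩ := h04
  obtain ⟨⟨_, _, _⟩, _, _, _⟩ := h14
  have x0 : A 0 = 1 / 2 := by linarith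
  have x1 : A 1 = 1 / 4 := by linarith
  have x2 : A 2 = 1 / 4 := by linarith
  simp only [true_and, and_true]
  refine ⟨⟨?_, ?_, ?_⟩, ⟨?_, ?_, ?_⟩, ⟨⟨?_, ?_⟩, ?_, ?_⟩, ⟨?_, ?_, ?_⟩, ⟨?_, ?_, ?_⟩,
    ⟨?_, ?_, ?_⟩, ⟨?_, ?_, ?_⟩⟩ <;> linarith

theorem uniq {q : (S : MM) → ((i : S.1) → O3 i) → ℝ} (hq : q ∈ Models MM O3)
    (hz : ∀ S x, pp S x = 0 → q S x = 0) : q = pp := by
  have z : ∀ i j (hij : i ≠ j) (h : {i, j} ∈ MM) a b, cnt i j a b = 0 →
      q ⟨{i, j}, h⟩ (pr i j a b) = 0 := by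
    intro i j hij h a b hc
    apply hz
    rw [pp_pr i j hij h, hc]
    simp
  have hA : ∑ a, q ⟨{0}, MM_scen.2.2 0⟩ (sg 0 a) = 1 := by
    rw [← hq.2.1 ⟨{0}, MM_scen.2.2 0⟩, ← (sgE 0).sum_comp]
    rfl
  obtain ⟨r1, r2, r3, r4, r5, r6, r7⟩ := lin _ _ _ _ _ _ _ _ _ _ _ _ hA
    (marg hq 0 1 (by decide) m01) (marg hq 1 2 (by decide) m12) (marg hq 0 2 (by decide) m02)
    (marg hq 0 3 (by decide) m03) (marg hq 1 3 (by decide) m13) (marg hq 0 4 (by decide) m04)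
    (marg hq 1 4 (by decide) m14)
    (z 0 1 (by decide) m01) (z 1 2 (by decide) m12) (z 0 2 (by decide) m02)
    (z 0 3 (by decide) m03) (z 1 3 (by decide) m13) (z 0 4 (by decide) m04)
    (z 1 4 (by decide) m14)
  have k : ∀ i j (hij : i ≠ j) (h : {i, j} ∈ MM),
      (∀ a b, q ⟨{i, j}, h⟩ (pr i j a b) = (cnt i j a b : ℝ) / 4) →
      q ⟨{i, j}, h⟩ = pp ⟨{i, j}, h⟩ := by
    intro i j hij h hh
    funext x
    obtain ⟨⟨a, b⟩, rfl⟩ := (prE i j hij).surjective x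
    exact (hh a b).trans (pp_pr i j hij h a b).symm
  have hE : ∀ e (he : e ∈ edges), q ⟨e, e, he, subset_rfl⟩ = pp ⟨e, e, he, subset_rfl⟩ := by
    intro e he
    have he' := he
    simp only [edges, Finset.mem_insert, Finset.mem_singleton] at he'
    rcases he' with rfl | rfl | rfl | rfl | rfl | rfl | rfl
    · exact k 0 1 (by decide) _ r1
    · exact k 1 2 (by decide) _ r2
    · exact k 0 2 (by decide) _ r3
    · exact k 0 3 (by decide) _ r4
    · exact k 1 3 (by decide) _ r5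
    · exact k 0 4 (by decide) _ r6
    · exact k 1 4 (by decide) _ r7
  funext ⟨S, e, he, hS⟩ y
  rw [hq.2.2 ⟨e, e, he, subset_rfl⟩ ⟨S, e, he, hS⟩ hS y,
    pp_mem.2.2 ⟨e, e, he, subset_rfl⟩ ⟨S, e, he, hS⟩ hS y, hE e he]

theorem pp_extreme : pp ∈ Set.extremePoints ℝ (Models MM O3) := by
  rw [mem_extremePoints]
  refine ⟨pp_mem, fun q hq r hr ⟨a, b, ha, hb, hab, e⟩ => ?_⟩
  have key : ∀ S x, pp S x = 0 → q S x = 0 ∧ r S x = 0 := by
    intro S x h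
    have e' : a * q S x + b * r S x = 0 := by rw [← h, ← e]; simp
    have h1 := mul_nonneg ha.le (hq.1 S x)
    have h2 := mul_nonneg hb.le (hr.1 S x)
    constructor
    · exact (mul_eq_zero.mp (by linarith : a * q S x = 0)).resolve_left ha.ne'
    · exact (mul_eq_zero.mp (by linarith : b * r S x = 0)).resolve_left hb.ne'
  exact ⟨uniq hq (fun S x h => (key S x h).1), uniq hr (fun S x h => (key S x h).2)⟩

theorem ent_pr (i j : V) (hij : i ≠ j) (h : {i, j} ∈ MM) :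
    entropy (pp ⟨{i, j}, h⟩) = ∑ a, ∑ b, Real.negMulLog ((cnt i j a b : ℝ) / 4) := by
  unfold entropy
  rw [← (prE i j hij).sum_comp, Fintype.sum_prod_type]
  refine Finset.sum_congr rfl (fun a _ => Finset.sum_congr rfl (fun b _ => ?_))
  rw [← pp_pr i j hij h]
  rfl

theorem ent_B : entropy (pp ⟨{1}, MM_scen.2.2 1⟩) =
    ∑ a, Real.negMulLog (∑ b, (cnt 1 2 a b : ℝ) / 4) := by
  unfold entropy
  rw [← (sgE 1).sum_comp]
  refine Finset.sum_congr rfl (fun a _ => ?_)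
  congr 1
  have := (marg pp_mem 1 2 (by decide) m12).1 a
  simp only [pp_pr 1 2 (by decide) m12] at this
  exact this

theorem contextual : ¬ ∃ f : Finset V → ℝ, IsPolymatroid f ∧ ∀ S : MM, f S.1 = entropy (pp S) := by
  rintro ⟨f, ⟨-, hmono, hsub⟩, hf⟩
  have h1 := hsub {0, 1} {1, 2}
  have h2 := hmono {0, 2} ({0, 1} ∪ {1, 2}) (by decide)
  have e : ({0, 1} ∩ {1, 2} : Finset V) = {1} := by decide
  rw [e] at h1
  have a1 := hf ⟨_, m01⟩
  have a2 := hf ⟨_, m12⟩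
  have a3 := hf ⟨_, m02⟩
  have a4 := hf ⟨_, MM_scen.2.2 1⟩
  rw [ent_pr 0 1 (by decide)] at a1
  rw [ent_pr 1 2 (by decide)] at a2
  rw [ent_pr 0 2 (by decide)] at a3
  rw [ent_B] at a4
  simp only [c01, c12, c02, Fin.sum_univ_succ] at a1 a2 a3 a4
  simp at a1 a2 a3 a4
  have l4 : Real.negMulLog (4⁻¹ : ℝ) = Real.log 2 / 2 := by
    rw [Real.negMulLog, Real.log_inv, show (4 : ℝ) = 2 ^ 2 by norm_num, Real.log_pow]
    push_cast
    ring
  have l2 : Real.negMulLog (2 / 4 : ℝ) = Real.log 2 / 2 := by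
    rw [show (2 / 4 : ℝ) = 2⁻¹ by norm_num, Real.negMulLog, Real.log_inv]
    ring
  have hl : 0 < Real.log 2 := Real.log_pos (by norm_num)
  rw [l4] at a1 a2 a3 a4
  rw [l2] at a1 a2 a4
  linarith

end Pool.Agent.H40.Marg
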