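import Mathlib

set_option autoImplicit false

namespace Pool.Agent.H40.Marg

/-- A marginal scenario: closed under subsets, containing the empty set and every singleton. -/
def IsScenario {n : ℕ} (M : Set (Finset (Fin n))) : Prop :=
  (∀ S ∈ M, ∀ T, T ⊆ S → T ∈ M) ∧ ∅ ∈ M ∧ ∀ i, {i} ∈ M

/-- The polytope of marginal models on `M` with outcome sets `O i`. -/
def Models {n : ℕ} (M : Set (Finset (Fin n))) (O : Fin n → Type) [∀ i, Fintype (O i)]
    [∀ i, DecidableEq (O i)] : Set ((S : M) → ((i : S.1) → O i) → ℝ) :=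
  {p | (∀ S x, 0 ≤ p S x) ∧ (∀ S, ∑ x, p S x = 1) ∧
    ∀ (S T : M) (h : T.1 ⊆ S.1) (y : (i : T.1) → O i),
      p T y = ∑ x with Finset.restrict₂ h x = y, p S x}

/-- Shannon entropy (natural logarithm) of a distribution on a finite set. -/
noncomputable def entropy {X : Type} [Fintype X] (q : X → ℝ) : ℝ := ∑ x, Real.negMulLog (q x)

/-- A polymatroid on `Fin n`. -/
def IsPolymatroid {n : ℕ} (f : Finset (Fin n) → ℝ) : Prop :=
  f ∅ = 0 ∧ (∀ S T, S ⊆ T → f S ≤ f T) ∧ ∀ S T, f (S ∪ T) + f (S ∩ T) ≤ f S + f T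

end Pool.Agent.H40.Marg
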