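import Mathlib

set_option autoImplicit false

/-! Multiboard games with fewer than continuum many boards. -/

namespace Pool.Agent.H40.Mb

open Cardinal Classical

theorem fix2 {ι X : Type} (d : X) (Γ : ι → (ℕ → X) → ℕ → X)
    (h : ∀ a c c' n, (∀ i < n, c i = c' i) → Γ a c n = Γ a c' n) :
    ∃ P : ι → ℕ → X, (∀ a n, P a n = Γ a (P a) n) ∧
      ∀ a b n, (∀ f i, i ≤ n → Γ a f i = Γ b f i) → P a n = P b n := by
  have e : ∀ a, ∃ c : ℕ → X, ∀ n, c n = Γ a c n := fun a => by
    refine ⟨(wellFounded_lt (α := ℕ)).fix fun n r => Γ a (fun i => if h : i < n then r i h else d) n,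
      fun n => ?_⟩
    rw [WellFounded.fix_eq]
    exact h _ _ _ _ fun i hi => dif_pos hi
  choose P hP using e
  refine ⟨P, hP, fun a b n => ?_⟩
  induction n using Nat.strong_induction_on with
  | _ n ih =>
    intro k
    rw [hP a, hP b, k _ _ le_rfl]
    exact h _ _ _ _ fun i hi => ih i hi fun f j hj => k f j (hj.trans hi.le)

/-- the list of the first `n` values -/
abbrev ini {X : Type} (x : ℕ → X) (n : ℕ) : List X := List.ofFn fun i : Fin n => x i.val

theorem ini_congr {X : Type} {x y : ℕ → X} {n : ℕ} (h : ∀ i < n, x i = y i) : ini x n = ini y n :=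
  congrArg List.ofFn (funext fun i => h i i.2)

theorem ini_getD (x : ℕ → Bool) {n i : ℕ} (h : i < n) : (ini x n).getD i false = x i := by
  simp [ini, List.getD, h]

def enc (l : List Bool) : ℕ := Nat.pair (Encodable.encode l) l.length

def dec (j : ℕ) : List Bool := ((Encodable.decode (α := List Bool) j.unpair.1).getD []).take j

theorem dec_enc (l : List Bool) : dec (enc l) = l := by
  simp only [dec, enc, Nat.unpair_pair, Encodable.encodek, Option.getD_some]
  exact List.take_of_length_le (Nat.right_le_pair _ _)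

theorem dec_le (j : ℕ) : (dec j).length ≤ j := List.length_take_le _ _

def S (c y : ℕ → Bool) (n : ℕ) : Bool := c (2 * enc (ini y n) + 1)

theorem diag : ∃ A : Set ((ℕ → Bool) × (ℕ → Bool)),
    (∀ τ : List Bool → Bool, ∃ x, (x, fun n => τ (ini x (n + 1))) ∈ A) ∧
    ∀ a ∈ A, ∀ b ∈ A, b.1 = S a.2 b.2 → a.1 = S b.2 a.2 → a = b := by
  obtain ⟨r, wo, hr⟩ := Cardinal.exists_ord_eq (List Bool → Bool)
  let t : (List Bool → Bool) → (ℕ → Bool) → ℕ → Bool := fun τ x n => τ (ini x (n + 1))
  have u : ∀ τ c x x', x = S c (t τ x) → x' = S c (t τ x') → x = x' := fun τ c x x' a b => by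
    funext n
    induction n using Nat.strong_induction_on with
    | _ n ih =>
      rw [congrFun a n, congrFun b n]
      unfold S
      rw [ini_congr (x := t τ x) (y := t τ x') fun i hi =>
        congrArg τ (ini_congr fun j hj => ih j (by omega))]
  have e : ∀ τ (c : {τ' // r τ' τ} → ℕ → Bool), ∃ x, ∀ τ', x ≠ S (c τ') (t τ x) := fun τ c => by
    by_contra k
    push Not at k
    choose g hg using k
    have i : Function.Injective g := fun x x' o => u τ (c (g x)) x x' (hg x) (o ▸ hg x')
    have l := Cardinal.mk_le_of_injective i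
    have m := Cardinal.card_typein_lt (r := r) τ hr
    rw [← Ordinal.card_typein] at l
    have := l.trans_lt m
    simp at this
  choose F hF using e
  let x : (List Bool → Bool) → ℕ → Bool :=
    wo.wf.fix fun τ q => F τ fun τ' => t τ'.1 (q τ'.1 τ'.2)
  have hx : ∀ τ τ', r τ' τ → x τ ≠ S (t τ' (x τ')) (t τ (x τ)) := fun τ τ' a => by
    have : x τ = F τ fun τ' => t τ'.1 (x τ'.1) := WellFounded.fix_eq _ _ _
    rw [this]
    exact hF τ (fun τ' => t τ'.1 (x τ'.1)) ⟨τ', a⟩
  refine ⟨Set.range fun τ => (x τ, t τ (x τ)), fun τ => ⟨x τ, τ, rfl⟩, ?_⟩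
  rintro _ ⟨τ, rfl⟩ _ ⟨τ', rfl⟩ a b
  rcases trichotomous_of r τ τ' with c | c | c
  · exact absurd a (hx _ _ c)
  · rw [c]
  · exact absurd b (hx _ _ c)

theorem main (L K : Type) (hL : (2 : Cardinal) ≤ #L) (hK : (1 : Cardinal) ≤ #K)
    (D : ∀ A : Set (ℕ → L),
      (∃ σ : List (K → L) → (K → L), ∀ f : ℕ → K → L,
          (∀ n : ℕ, f (2 * n) = σ (ini f (2 * n))) → ∃ α : K, (fun n => f n α) ∈ A) ∨
      (∃ τ : List (K → L) → (K → L), ∀ f : ℕ → K → L,
          (∀ n : ℕ, f (2 * n + 1) = τ (ini f (2 * n + 1))) → ∀ α : K, (fun n => f n α) ∉ A)) :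
    𝔠 ≤ #K := by
  obtain ⟨p, q, pq⟩ := Cardinal.two_le_iff.1 hL
  obtain ⟨α₀⟩ := Cardinal.mk_ne_zero_iff.1 (Cardinal.one_le_iff_ne_zero.1 hK)
  let π : L → Bool := fun v => decide (v = p)
  let ι : Bool → L := fun b => if b then p else q
  have πι : ∀ b, π (ι b) = b := fun b => by cases b <;> simp [π, ι, pq.symm]
  obtain ⟨A, a1, a2⟩ := diag
  rcases D {f | (fun n => π (f (2 * n)), fun n => π (f (2 * n + 1))) ∈ A} with ⟨σ, hσ⟩ | ⟨τ, hτ⟩
  · obtain ⟨P, p1, p2⟩ := fix2 (ι := ℕ → K → Bool) (fun _ : K => p)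
      (fun Y f i => if i % 2 = 0 then σ (ini f i) else fun γ => ι (Y (i / 2) γ))
      fun a c c' n k => by simp only [ini_congr k]
    have p3 : ∀ Y Y' n, (∀ i < n, Y i = Y' i) → P Y (2 * n) = P Y' (2 * n) := fun Y Y' n k =>
      p2 _ _ _ fun f i hi => by
        by_cases c : i % 2 = 0
        · simp only [if_pos c]
        · simp only [if_neg c]; rw [k _ (by omega)]
    obtain ⟨W, w1, -⟩ := fix2 (ι := Unit) (fun _ : K => false)
      (fun _ w i β => π (P (fun j γ => if j % 2 = 0 then (dec (i / 2)).getD j false else w j γ)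
        (2 * (dec (i / 2)).length) β)) fun a c c' n k => by
          funext β
          rw [p3 _ (fun j γ => if j % 2 = 0 then (dec (n / 2)).getD j false else c' j γ) _ fun j hj => by
            rw [k j (by have := dec_le (n / 2); omega)]]
    let Y : (ℕ → Bool) → ℕ → K → Bool := fun z j γ => if j % 2 = 0 then z (j / 2) else W () j γ
    have y1 : ∀ z n α, π (P (Y z) (2 * n + 1) α) = Y z n α := fun z n α => by
      rw [p1, if_neg (by omega), πι, show (2 * n + 1) / 2 = n by omega]
    have y2 : ∀ z z' α, (fun n => π (P (Y z) (2 * n) α)) = S (fun n => Y z' n α) (fun n => Y z n α) :=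
      fun z z' α => by
        funext n
        simp only [S, Y]
        rw [if_neg (by omega), w1, show ∀ m, (2 * m + 1) / 2 = m from fun m => by omega, dec_enc,
          List.length_ofFn]
        refine congrArg (fun v => π (v α)) (p3 _ _ _ fun i hi => ?_)
        funext γ
        by_cases c : i % 2 = 0
        · rw [ini_getD _ hi]; simp only [if_pos c]
        · simp only [if_neg c]
    have e : ∀ z, ∃ α, (fun n => π (P (Y z) (2 * n) α), fun n => Y z n α) ∈ A := fun z => by
      obtain ⟨α, k⟩ := hσ (P (Y z)) fun n => by rw [p1, if_pos (by omega)]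
      exact ⟨α, by simpa only [Set.mem_ofPred_eq, y1] using k⟩
    choose g hg using e
    have i : Function.Injective g := fun z z' o => by
      have k := a2 _ (hg z) _ (o ▸ hg z') (y2 _ _ _) (y2 _ _ _)
      funext n
      have := congrFun (congrArg Prod.snd k) (2 * n)
      simpa [Y] using this
    simpa using Cardinal.mk_le_of_injective i
  · obtain ⟨P, p1, p2⟩ := fix2 (ι := ℕ → Bool) (fun _ : K => p)
      (fun X f i => if i % 2 = 0 then fun _ => ι (X (i / 2)) else τ (ini f i))
      fun a c c' n k => by simp only [ini_congr k]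
    obtain ⟨x, hx⟩ := a1 fun l => π (P (fun i => l.getD i false) (2 * (l.length - 1) + 1) α₀)
    refine absurd ?_ (hτ (P x) (fun n => by rw [p1, if_neg (by omega)]) α₀)
    simp only [Set.mem_ofPred_eq]
    convert hx using 3 with n n
    · rw [p1, if_pos (by omega), πι, show 2 * n / 2 = n by omega]
    · rw [List.length_ofFn, Nat.add_sub_cancel]
      refine congrArg (fun v => π (v α₀)) (p2 _ _ _ fun f i hi => ?_)
      by_cases c : i % 2 = 0
      · simp only [if_pos c]; rw [ini_getD _ (by omega)]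
      · simp only [if_neg c]

end Pool.Agent.H40.Mb
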