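import Pool.Agent.H40.Mb1

set_option autoImplicit false

/-! Multiboard games: alphabets with as many plays as strategies. -/

namespace Pool.Agent.H40.Mb

open Cardinal Classical

variable {B : Type}

theorem ini_getD' (d : B) (x : ℕ → B) {n i : ℕ} (h : i < n) : (ini x n).getD i d = x i := by
  simp [ini, List.getD, h]

def S' (u : (ℕ → B) → List B → B) (c y : ℕ → B) (n : ℕ) : B :=
  u (fun i => c (2 * Nat.pair n i + 1)) (ini y n)

theorem diag' (u : (ℕ → B) → List B → B) (hB : #(List B → B) ≤ #(ℕ → B)) :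
    ∃ A : Set ((ℕ → B) × (ℕ → B)),
    (∀ τ : List B → B, ∃ x, (x, fun n => τ (ini x (n + 1))) ∈ A) ∧
    ∀ a ∈ A, ∀ b ∈ A, b.1 = S' u a.2 b.2 → a.1 = S' u b.2 a.2 → a = b := by
  obtain ⟨r, wo, hr⟩ := Cardinal.exists_ord_eq (List B → B)
  let t : (List B → B) → (ℕ → B) → ℕ → B := fun τ x n => τ (ini x (n + 1))
  have v : ∀ τ c x x', x = S' u c (t τ x) → x' = S' u c (t τ x') → x = x' := fun τ c x x' a b => by
    funext n
    induction n using Nat.strong_induction_on with
    | _ n ih =>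
      rw [congrFun a n, congrFun b n]
      unfold S'
      rw [ini_congr (x := t τ x) (y := t τ x') fun i hi =>
        congrArg τ (ini_congr fun j hj => ih j (by omega))]
  have e : ∀ τ (c : {τ' // r τ' τ} → ℕ → B), ∃ x, ∀ τ', x ≠ S' u (c τ') (t τ x) := fun τ c => by
    by_contra k
    push Not at k
    choose g hg using k
    have i : Function.Injective g := fun x x' o => v τ (c (g x)) x x' (hg x) (o ▸ hg x')
    have l := Cardinal.mk_le_of_injective i
    have m := Cardinal.card_typein_lt (r := r) τ hr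
    rw [← Ordinal.card_typein] at l
    exact absurd (l.trans_lt m) (not_lt.2 hB)
  choose F hF using e
  let x : (List B → B) → ℕ → B :=
    wo.wf.fix fun τ q => F τ fun τ' => t τ'.1 (q τ'.1 τ'.2)
  have hx : ∀ τ τ', r τ' τ → x τ ≠ S' u (t τ' (x τ')) (t τ (x τ)) := fun τ τ' a => by
    have : x τ = F τ fun τ' => t τ'.1 (x τ'.1) := WellFounded.fix_eq _ _ _
    rw [this]
    exact hF τ (fun τ' => t τ'.1 (x τ'.1)) ⟨τ', a⟩
  refine ⟨Set.range fun τ => (x τ, t τ (x τ)), fun τ => ⟨x τ, τ, rfl⟩, ?_⟩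
  rintro _ ⟨τ, rfl⟩ _ ⟨τ', rfl⟩ a b
  rcases trichotomous_of r τ τ' with c | c | c
  · exact absurd a (hx _ _ c)
  · rw [c]
  · exact absurd b (hx _ _ c)

theorem main' (L K B : Type) (d : B) (hL : #B ≤ #L) (hB : #(List B → B) ≤ #(ℕ → B))
    (hK : (1 : Cardinal) ≤ #K)
    (D : ∀ A : Set (ℕ → L),
      (∃ σ : List (K → L) → (K → L), ∀ f : ℕ → K → L,
          (∀ n : ℕ, f (2 * n) = σ (ini f (2 * n))) → ∃ α : K, (fun n => f n α) ∈ A) ∨
      (∃ τ : List (K → L) → (K → L), ∀ f : ℕ → K → L,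
          (∀ n : ℕ, f (2 * n + 1) = τ (ini f (2 * n + 1))) → ∀ α : K, (fun n => f n α) ∉ A)) :
    #(ℕ → B) ≤ #K := by
  have : Nonempty B := ⟨d⟩
  obtain ⟨ι⟩ := (Cardinal.le_def _ _).1 hL
  obtain ⟨cd⟩ := (Cardinal.le_def _ _).1 hB
  obtain ⟨α₀⟩ := Cardinal.mk_ne_zero_iff.1 (Cardinal.one_le_iff_ne_zero.1 hK)
  obtain ⟨π, πι⟩ : ∃ π : L → B, ∀ b, π (ι b) = b := ⟨_, Function.leftInverse_invFun ι.2⟩
  obtain ⟨u, hu⟩ : ∃ u : (ℕ → B) → List B → B, ∀ b, u (cd b) = b :=
    ⟨_, Function.leftInverse_invFun cd.2⟩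
  obtain ⟨A, a1, a2⟩ := diag' u hB
  rcases D {f | (fun n => π (f (2 * n)), fun n => π (f (2 * n + 1))) ∈ A} with ⟨σ, hσ⟩ | ⟨τ, hτ⟩
  · obtain ⟨P, p1, p2⟩ := fix2 (ι := ℕ → K → B) (fun _ : K => ι d)
      (fun Y f i => if i % 2 = 0 then σ (ini f i) else fun γ => ι (Y (i / 2) γ))
      fun a c c' n k => by simp only [ini_congr k]
    have p3 : ∀ Y Y' n, (∀ i < n, Y i = Y' i) → P Y (2 * n) = P Y' (2 * n) := fun Y Y' n k =>
      p2 _ _ _ fun f i hi => by
        by_cases c : i % 2 = 0
        · simp only [if_pos c]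
        · simp only [if_neg c]; rw [k _ (by omega)]
    obtain ⟨W, w1, -⟩ := fix2 (ι := Unit) (fun _ : K => d)
      (fun _ w i β => cd (fun l => π (P (fun j γ => if j % 2 = 0 then l.getD j d else w j γ)
        (2 * (i / 2).unpair.1) β)) (i / 2).unpair.2) fun a c c' n k => by
          funext β
          refine congrArg (fun v => cd v _) (funext fun l => ?_)
          rw [p3 _ (fun j γ => if j % 2 = 0 then l.getD j d else c' j γ) _ fun j hj => by
            rw [k j (by have := Nat.unpair_left_le (n / 2); omega)]]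
    let Y : (ℕ → B) → ℕ → K → B := fun z j γ => if j % 2 = 0 then z (j / 2) else W () j γ
    have y1 : ∀ z n α, π (P (Y z) (2 * n + 1) α) = Y z n α := fun z n α => by
      rw [p1, if_neg (by omega), πι, show (2 * n + 1) / 2 = n by omega]
    have y2 : ∀ z z' α, (fun n => π (P (Y z) (2 * n) α)) =
        S' u (fun n => Y z' n α) (fun n => Y z n α) := fun z z' α => by
      funext n
      have e : (fun i => Y z' (2 * Nat.pair n i + 1) α) = cd fun l => π (P (fun j γ =>
          if j % 2 = 0 then l.getD j d else W () j γ) (2 * n) α) := funext fun i => by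
        simp only [Y]
        rw [if_neg (by omega), w1, show ∀ m, (2 * m + 1) / 2 = m from fun m => by omega,
          Nat.unpair_pair]
      simp only [S']
      rw [e, hu]
      refine congrArg (fun v => π (v α)) (p3 _ _ _ fun i hi => ?_)
      funext γ
      by_cases c : i % 2 = 0
      · rw [ini_getD' _ _ hi]; simp only [Y, if_pos c]
      · simp only [Y, if_neg c]
    have e : ∀ z, ∃ α, (fun n => π (P (Y z) (2 * n) α), fun n => Y z n α) ∈ A := fun z => by
      obtain ⟨α, k⟩ := hσ (P (Y z)) fun n => by rw [p1, if_pos (by omega)]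
      exact ⟨α, by simpa only [Set.mem_ofPred_eq, y1] using k⟩
    choose g hg using e
    have i : Function.Injective g := fun z z' o => by
      have k := a2 _ (hg z) _ (o ▸ hg z') (y2 _ _ _) (y2 _ _ _)
      funext n
      have := congrFun (congrArg Prod.snd k) (2 * n)
      simpa [Y] using this
    exact Cardinal.mk_le_of_injective i
  · obtain ⟨P, p1, p2⟩ := fix2 (ι := ℕ → B) (fun _ : K => ι d)
      (fun X f i => if i % 2 = 0 then fun _ => ι (X (i / 2)) else τ (ini f i))
      fun a c c' n k => by simp only [ini_congr k]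
    obtain ⟨x, hx⟩ := a1 fun l => π (P (fun i => l.getD i d) (2 * (l.length - 1) + 1) α₀)
    refine absurd ?_ (hτ (P x) (fun n => by rw [p1, if_neg (by omega)]) α₀)
    simp only [Set.mem_ofPred_eq]
    convert hx using 3 with n n
    · rw [p1, if_pos (by omega), πι, show 2 * n / 2 = n by omega]
    · rw [List.length_ofFn, Nat.add_sub_cancel]
      refine congrArg (fun v => π (v α₀)) (p2 _ _ _ fun f i hi => ?_)
      by_cases c : i % 2 = 0
      · simp only [if_pos c]; rw [ini_getD' _ _ (by omega)]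
      · simp only [if_neg c]

end Pool.Agent.H40.Mb
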