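import Pool.Agent.H40.Mb2

set_option autoImplicit false

/-! Multiboard games are determined on a successor cardinal carrying a complete ideal whose
quotient has a countably closed dense subset. -/

namespace Pool.Agent.H40.Mb

open Cardinal Classical Set

/-- `I` is a `#K`-complete proper ideal on `K` containing all singletons, and `P(K)/I` has a
countably closed dense subset `F`. -/
def Laver {K : Type} (I : Set (Set K)) : Prop :=
  (∀ X ∈ I, ∀ Y, Y ⊆ X → Y ∈ I) ∧ (∀ S, S ⊆ I → #S < #K → ⋃₀ S ∈ I) ∧ (∀ a, {a} ∈ I) ∧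
    Set.univ ∉ I ∧ ∃ F : Set (Set K), (∀ X ∈ F, X ∉ I) ∧ (∀ X, X ∉ I → ∃ Y ∈ F, Y \ X ∈ I) ∧
      ∀ X : ℕ → Set K, (∀ n, X n ∈ F) → (∀ n, X (n + 1) \ X n ∈ I) → ∃ Y ∈ F, ∀ n, Y \ X n ∈ I

def rv {L : Type} (x : ℕ → L) : ℕ → List L
  | 0 => []
  | n + 1 => x n :: rv x n

theorem rv_len {L : Type} (x : ℕ → L) (n : ℕ) : (rv x n).length = n := by
  induction n with
  | zero => rfl
  | succ n ih => simp [rv, ih]

theorem rv_congr {L : Type} {x y : ℕ → L} (n : ℕ) (h : ∀ i < n, x i = y i) : rv x n = rv y n := by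
  induction n with
  | zero => rfl
  | succ n ih => rw [rv, rv, h n (by omega), ih fun i hi => h i (by omega)]

def Z {L K : Type} (sp : Set K → L → Set K) (R : Set K → (K → L) → Set K) (G : ℕ → K → L) :
    List L → Set K
  | [] => Set.univ
  | i :: s => R (sp (Z sp R G s) i) (G s.length)

theorem laver (L K : Type) (hL : ℵ₀ ≤ #L) (hK : #K = Order.succ #L) (I : Set (Set K))
    (h : Laver I) (A : Set (ℕ → L)) :
      (∃ σ : List (K → L) → (K → L), ∀ f : ℕ → K → L,
          (∀ n : ℕ, f (2 * n) = σ (ini f (2 * n))) → ∃ α : K, (fun n => f n α) ∈ A) ∨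
      (∃ τ : List (K → L) → (K → L), ∀ f : ℕ → K → L,
          (∀ n : ℕ, f (2 * n + 1) = τ (ini f (2 * n + 1))) → ∀ α : K, (fun n => f n α) ∉ A) := by
  obtain ⟨i1, i2, i3, i4, F, f1, f2, f3⟩ := h
  have lk : #L < #K := hK ▸ Order.lt_succ _
  have cp : ∀ {ι : Type} (X : ι → Set K), #ι ≤ #L → (∀ i, X i ∈ I) → ∀ Y, (∀ a ∈ Y, ∃ i, a ∈ X i) →
      Y ∈ I := fun X a b Y c => i1 _ (i2 (range X) (by rintro _ ⟨i, rfl⟩; exact b i)
        ((mk_range_le.trans a).trans_lt lk)) _ fun z d => by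
          obtain ⟨i, e⟩ := c z d; exact ⟨_, ⟨i, rfl⟩, e⟩
  have un : ∀ X ∈ I, ∀ Y ∈ I, ∀ W, (∀ a ∈ W, a ∈ X ∨ a ∈ Y) → W ∈ I := fun X a Y b W c =>
    cp (fun t : Bool => if t then X else Y) ((Cardinal.lt_aleph0_of_finite _).le.trans hL)
      (fun t => by cases t <;> simpa) W fun z d => (c z d).elim (fun e => ⟨true, e⟩) fun e => ⟨false, e⟩
  obtain ⟨r, wo, hr⟩ := Cardinal.exists_ord_eq K
  have sm : ∀ α, #{β // r β α} ≤ #L := fun α => Order.lt_succ_iff.1 (by
    rw [← hK]; exact Cardinal.card_typein_lt (r := r) α hr)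
  have e := fun α => ((Cardinal.le_def _ _).1 (sm α)).some
  have split : ∀ X : Set K, ∃ Y : L → Set K, (∀ i, Y i ⊆ X) ∧ (∀ i j a, a ∈ Y i → a ∈ Y j → i = j) ∧
      (X ∉ I → ∀ i, Y i ∉ I) := fun X => by
    by_cases c : X ∈ I
    · exact ⟨fun _ => ∅, fun _ => empty_subset _, fun _ _ _ d => d.elim, fun d => absurd c d⟩
    have k : ∀ α, ∃ i, {β ∈ X | ∃ h : r α β, e β ⟨α, h⟩ = i} ∉ I := fun α => by
      by_contra k
      push Not at k
      refine c (un _ (cp _ le_rfl k {β ∈ X | r α β} fun β d => ⟨_, d.1, d.2, rfl⟩) _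
        (un _ (i3 α) _ (cp (fun β : {β // r β α} => {β.1}) (sm α) (fun β => i3 _) {β | r β α}
          fun β d => ⟨⟨β, d⟩, rfl⟩) {β | ¬ r α β} fun β d => ?_) _ fun β d => ?_)
      · rcases trichotomous_of r α β with l | l | l
        · exact absurd l d
        · exact Or.inl l.symm
        · exact Or.inr l
      · by_cases l : r α β
        · exact Or.inl ⟨d, l⟩
        · exact Or.inr l
    choose g hg using k
    obtain ⟨i, hi⟩ := Cardinal.infinite_pigeonhole_card_lt g lk (hL.trans lk.le)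
    obtain ⟨j⟩ := (Cardinal.le_def _ _).1 hi.le
    refine ⟨fun t => {β ∈ X | ∃ h : r (j t).1 β, e β ⟨(j t).1, h⟩ = i}, fun t β d => d.1, ?_,
      fun _ t => ?_⟩
    · rintro t u β ⟨-, a, b⟩ ⟨-, a', b'⟩
      have q := congrArg Subtype.val ((e β).injective (b.trans b'.symm))
      exact j.injective (Subtype.ext q)
    · have := hg (j t).1
      rwa [show g (j t).1 = i from (j t).2] at this
  choose sp s1 s2 s3 using split
  obtain ⟨d⟩ : Nonempty L := Cardinal.mk_ne_zero_iff.1 (Cardinal.aleph0_pos.trans_le hL).ne'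
  have ref : ∀ (X : Set K) (g : K → L), ∃ (W : Set K) (c : L), W ⊆ X ∧ (∀ β ∈ W, g β = c) ∧
      (X ∉ I → ∃ Y ∈ F, W ⊆ Y ∧ Y \ W ∈ I) := fun X g => by
    by_cases c : X ∈ I
    · exact ⟨∅, d, empty_subset _, fun _ k => k.elim, fun k => absurd c k⟩
    obtain ⟨i, k⟩ : ∃ i, {β ∈ X | g β = i} ∉ I := by
      by_contra k
      push Not at k
      exact c (cp _ le_rfl k X fun β l => ⟨_, l, rfl⟩)
    obtain ⟨Y, y1, y2⟩ := f2 _ k
    exact ⟨Y ∩ {β ∈ X | g β = i}, i, fun β l => l.2.1, fun β l => l.2.2, fun _ =>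
      ⟨Y, y1, inter_subset_left, i1 _ y2 _ fun β l => ⟨l.1, fun m => l.2 ⟨l.1, m⟩⟩⟩⟩
  choose R c r1 r2 r3 using ref
  have zc : ∀ (G G' : ℕ → K → L) (s : List L), (∀ j < List.length s, G j = G' j) → Z sp R G s = Z sp R G' s := fun G G' s => by
    induction s with
    | nil => exact fun _ => rfl
    | cons i s ih =>
      intro k
      rw [Z, Z, ih (fun j l => k j (by simp; omega)), k _ (by simp)]
  have zu : ∀ (G : ℕ → K → L) α (s s' : List L), List.length s = List.length s' → α ∈ Z sp R G s → α ∈ Z sp R G s' → s = s' :=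
    fun G α s => by
      induction s with
      | nil => exact fun s' k _ _ => (List.length_eq_zero_iff.1 k.symm).symm
      | cons i s ih =>
        rintro (_ | ⟨j, s'⟩) k a b
        · simp at k
        have a' := r1 _ _ a
        have b' := r1 _ _ b
        obtain rfl := ih s' (by simpa using k) (s1 _ _ a') (s1 _ _ b')
        rw [s2 _ _ _ _ a' b']
  let mv : (ℕ → K → L) → ℕ → K → L := fun G n α =>
    if h : ∃ i, ∃ s : List L, s.length = n ∧ α ∈ sp (Z sp R G s) i then h.choose else d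
  have m1 : ∀ G α s i, α ∈ sp (Z sp R G s) i → mv G s.length α = i := fun G α s i a => by
    have k : ∃ i, ∃ t : List L, t.length = s.length ∧ α ∈ sp (Z sp R G t) i := ⟨i, s, rfl, a⟩
    simp only [mv, dif_pos k]
    obtain ⟨t, t1, t2⟩ := k.choose_spec
    obtain rfl := zu G α t s t1 (s1 _ _ t2) (s1 _ _ a)
    exact s2 _ _ _ _ t2 a
  refine or_iff_not_imp_right.2 fun nt => ⟨fun l => mv (fun n => l.getD (2 * n + 1) fun _ => d)
    (l.length / 2), fun f hf => ?_⟩
  let G : ℕ → K → L := fun n => f (2 * n + 1)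
  push Not at nt
  obtain ⟨f', h1, α', h2⟩ := nt fun l γ => c (sp (Z sp R G (rv (fun j => l.getD (2 * j) (fun _ => d) γ)
    (l.length / 2))) (l.getD (2 * (l.length / 2)) (fun _ => d) γ)) (G (l.length / 2))
  let x : ℕ → L := fun n => f' (2 * n) α'
  have h3 : ∀ n, f' (2 * n + 1) α' = c (sp (Z sp R G (rv x n)) (x n)) (G n) := fun n => by
    have q : rv (fun j => (ini f' (2 * n + 1)).getD (2 * j) (fun _ => d) α') n = rv x n :=
      rv_congr n fun i hi => by rw [ini_getD' _ _ (by omega)]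
    rw [h1 n]
    beta_reduce
    rw [List.length_ofFn, show (2 * n + 1) / 2 = n by omega, ini_getD' _ _ (by omega), q]
  have h4 : ∀ n, Z sp R G (rv x (n + 1)) = R (sp (Z sp R G (rv x n)) (x n)) (G n) := fun n => by
    rw [rv, Z, rv_len]
  have h5 : ∀ n, Z sp R G (rv x n) ∉ I := fun n => by
    induction n with
    | zero => exact i4
    | succ n ih =>
      obtain ⟨Y, y1, -, y3⟩ := r3 _ (G n) (s3 _ ih (x n))
      rw [h4]
      exact fun k => f1 Y y1 (un _ k _ y3 Y fun β l => (Classical.em _).imp_right fun m => ⟨l, m⟩)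
  choose Y y1 y2 y3 using fun n => r3 _ (G n) (s3 _ (h5 n) (x n))
  obtain ⟨W, w1, w2⟩ := f3 Y y1 fun n => i1 _ (y3 (n + 1)) _ fun β l =>
    ⟨l.1, fun m => l.2 (y2 n (h4 n ▸ s1 _ _ (r1 _ _ m)))⟩
  obtain ⟨α, ha⟩ : ∃ α, ∀ n, α ∈ R (sp (Z sp R G (rv x n)) (x n)) (G n) := by
    by_contra k
    push Not at k
    exact f1 W w1 (cp (fun n : ℕ => W \ R (sp (Z sp R G (rv x n)) (x n)) (G n)) (by simpa using hL)
      (fun n => un _ (w2 n) _ (y3 n) _ fun β l => (Classical.em (β ∈ Y n)).symm.imp (fun m => ⟨l.1, m⟩)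
        fun m => ⟨m, l.2⟩) W fun β l => (k β).imp fun n m => ⟨l, m⟩)
  refine ⟨α, ?_⟩
  convert h2 using 2 with n
  obtain ⟨n, rfl | rfl⟩ := Nat.even_or_odd' n
  · rw [hf n]
    beta_reduce
    rw [List.length_ofFn, show 2 * n / 2 = n by omega]
    have k := r1 _ _ (ha n)
    rw [zc G (fun j => (ini f (2 * n)).getD (2 * j + 1) fun _ => d) _ fun j l => by
      rw [rv_len] at l; rw [ini_getD' _ _ (by omega)]] at k
    have := m1 _ _ _ _ k
    rwa [rv_len] at this
  · rw [h3]; exact r2 _ _ _ (ha n)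

end Pool.Agent.H40.Mb
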