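import Pool.Agent.H40.Path2

set_option autoImplicit false

namespace Pool.Agent.H40.Minc

open Filter

def ρ (y : ℕ) : ℚ := y.unpair.1 / (y.unpair.2 + 1 : ℕ)

theorem ρ_lt (y z : ℕ) : ρ y < ρ z ↔ y.unpair.1 * (z.unpair.2 + 1) < z.unpair.1 * (y.unpair.2 + 1) := by
  rw [ρ, ρ, div_lt_div_iff₀ (by positivity) (by positivity)]
  norm_cast

theorem between {p q : ℕ} (h : ρ p < ρ q) (N : ℕ) : ∃ y, N < y ∧ ρ p < ρ y ∧ ρ y < ρ q := by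
  obtain ⟨y, a, b⟩ := (Set.Infinite.of_image ρ ((Set.Ioo_infinite h).mono
    (t := ρ '' {y | ρ p < ρ y ∧ ρ y < ρ q}) fun r hr => by
    have h0 : 0 ≤ r := le_trans (by unfold ρ; positivity) hr.1.le
    have e : ρ (Nat.pair r.num.natAbs (r.den - 1)) = r := by
      rw [ρ, Nat.unpair_pair, Nat.sub_add_cancel r.den_pos]
      simp only [Nat.cast_natAbs, abs_of_nonneg (Rat.num_nonneg.2 h0)]
      exact r.num_div_den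
    exact ⟨_, by rw [Set.mem_ofPred_eq, e]; exact hr, e⟩)).exists_gt N
  exact ⟨y, b, a⟩

def hh (m k : ℕ) : ℕ := m.unpair.1 % (m.unpair.2 * (k + 1) + 1)

def Ag (m n c : ℕ) : Prop := ∀ k < n, hh m k = hh c k

def Ext (n c n' c' p q : ℕ) : Prop :=
  n ≤ n' ∧ Ag c' n c ∧ ∀ k, n ≤ k → k < n' → ρ p < ρ (hh c' k) ∧ ρ (hh c' k) < ρ q

theorem Ext.refl (n c p q : ℕ) : Ext n c n c p q := ⟨le_rfl, fun _ _ => rfl, fun _ a b => by omega⟩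

theorem Ext.mono {n c n' c' p q p' q' : ℕ} (h : Ext n c n' c' p' q') (a : ρ p ≤ ρ p') (b : ρ q' ≤ ρ q) :
    Ext n c n' c' p q := ⟨h.1, h.2.1, fun k c d => ⟨a.trans_lt (h.2.2 k c d).1, (h.2.2 k c d).2.trans_le b⟩⟩

theorem Ext.ag {n c n' c' p q m : ℕ} (h : Ext n c n' c' p q) (a : Ag m n' c') : Ag m n c :=
  fun k hk => (a k (hk.trans_le h.1)).trans (h.2.1 k hk)

theorem Ext.trans {n c n' c' n'' c'' p q : ℕ} (h : Ext n c n' c' p q) (h' : Ext n' c' n'' c'' p q) :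
    Ext n c n'' c'' p q := ⟨h.1.trans h'.1, h.ag h'.2.1, fun k a b => (lt_or_ge k n').elim
  (fun e => h'.2.1 k e ▸ h.2.2 k a e) fun e => h'.2.2 k e b⟩

theorem ex_ext {p q : ℕ} (h : ρ p < ρ q) (n c N : ℕ) : ∃ c', Ext n c (n + 1) c' p q ∧ N < hh c' n := by
  obtain ⟨y, h1, h2⟩ := between h N
  obtain ⟨a, b, e⟩ := Bsig.ex_beta (n + 1) (Function.update (hh c) n y)
  have e : ∀ k < n + 1, hh (Nat.pair a b) k = Function.update (hh c) n y k := fun k hk => by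
    rw [e k hk, hh, Nat.unpair_pair]
  have e' : hh (Nat.pair a b) n = y := by rw [e n n.lt_succ_self, Function.update_self]
  exact ⟨Nat.pair a b, ⟨n.le_succ, fun k hk => by rw [e k (by omega), Function.update_of_ne hk.ne],
    fun k a b => by rwa [show k = n by omega, e']⟩, e' ▸ h1⟩

def Dense (A : Set ℕ) (n c p q : ℕ) : Prop := ∀ n' c', Ext n c n' c' p q → ∃ m ∈ A, Ag m n' c'

structure Cd where
  A : Set ℕ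
  n : ℕ
  c : ℕ
  p : ℕ
  q : ℕ
  lt : ρ p < ρ q
  dn : Dense A n c p q

def Le (x y : Cd) : Prop := y.A ⊆ x.A ∧ Ext x.n x.c y.n y.c x.p x.q ∧ ρ x.p ≤ ρ y.p ∧ ρ y.q ≤ ρ x.q

theorem Le.trans {x y z : Cd} (a : Le x y) (b : Le y z) : Le x z :=
  ⟨b.1.trans a.1, a.2.1.trans (b.2.1.mono a.2.2.1 a.2.2.2), a.2.2.1.trans b.2.2.1, b.2.2.2.trans a.2.2.2⟩

theorem big (x : Cd) (N : ℕ) : ∃ m ∈ x.A, Ag m x.n x.c ∧ N ≤ m := by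
  obtain ⟨c, h1, h2⟩ := ex_ext x.lt x.n x.c N
  obtain ⟨m, h3, h4⟩ := x.dn _ _ h1
  exact ⟨m, h3, h1.ag h4, h2.le.trans ((h4 _ (Nat.lt_succ_self _)).symm.trans_le
    ((Nat.mod_le _ _).trans (Nat.unpair_left_le _)))⟩

theorem s1 (x : Cd) : ∃ y, Le x y ∧ x.n < y.n ∧ ρ x.p < ρ y.p := by
  obtain ⟨c, h1, -⟩ := ex_ext x.lt x.n x.c 0
  obtain ⟨r, -, h2, h3⟩ := between x.lt 0
  exact ⟨⟨x.A, _, c, r, x.q, h3, fun n' c' e => x.dn _ _ (h1.trans (e.mono h2.le le_rfl))⟩,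
    ⟨le_rfl, h1, h2.le, le_rfl⟩, Nat.lt_succ_self _, h2⟩

theorem s2 (x : Cd) (f : ℕ → ℕ) : ∃ y, Le x y ∧
    ((∀ m ∈ y.A, ρ (f m) ≤ ρ y.p) ∨ ∀ m ∈ y.A, ρ y.q ≤ ρ (f m)) := by
  obtain ⟨r, -, h2, h3⟩ := between x.lt 0
  by_cases h : Dense {m ∈ x.A | ρ (f m) ≤ ρ r} x.n x.c x.p x.q
  · exact ⟨⟨_, x.n, x.c, r, x.q, h3, fun n' c' e => h _ _ (e.mono h2.le le_rfl)⟩,
      ⟨fun _ => And.left, .refl _ _ _ _, h2.le, le_rfl⟩, Or.inl fun _ => And.right⟩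
  simp only [Dense, not_forall] at h
  obtain ⟨n, c, h4, h5⟩ := h
  exact ⟨⟨{m ∈ x.A | ρ r ≤ ρ (f m)}, n, c, x.p, r, h2, fun n' c' e =>
    (x.dn _ _ (h4.trans (e.mono le_rfl h3.le))).imp fun m a =>
      ⟨⟨a.1, not_lt.1 fun b => h5 ⟨m, ⟨a.1, b.le⟩, e.ag a.2⟩⟩, a.2⟩⟩,
    ⟨fun _ => And.left, h4, le_rfl, h3.le⟩, Or.inr fun _ => And.right⟩

def G (Ψ : ℕ → ℕ → ℕ → Prop) (p q z : ℕ) : Prop :=
  ∀ e ≤ z, ∀ p' ≤ z, ∀ q' ≤ z, ρ p ≤ ρ p' → ρ p' < ρ q' → ρ q' ≤ ρ q → ¬ Ψ e p' q'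

theorem G.anti {Ψ : ℕ → ℕ → ℕ → Prop} {p q z z' : ℕ} (e : z ≤ z') (h : G Ψ p q z') : G Ψ p q z :=
  fun a b c d k l => h a (b.trans e) c (d.trans e) k (l.trans e)

theorem s3 (x : Cd) (Ψ : ℕ → ℕ → ℕ → ℕ → Prop) : ∃ y, Le x y ∧
    ((∃ z, ∀ m ∈ y.A, Ψ m z y.p y.q) ∨ ∀ z, {m ∈ y.A | ¬ G (Ψ m) y.p y.q z}.Finite) := by
  by_cases h : ∃ y, Le x y ∧ ∃ z, ∀ m ∈ y.A, Ψ m z y.p y.q
  · exact h.imp fun _ h => ⟨h.1, Or.inl h.2⟩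
  have k1 : ∀ S : Finset (ℕ × ℕ × ℕ), ∀ n c, Ext x.n x.c n c x.p x.q → ∃ n' c', Ext n c n' c' x.p x.q ∧
      ∀ m ∈ x.A, Ag m n' c' → ∀ e ∈ S, ρ x.p ≤ ρ e.2.1 → ρ e.2.1 < ρ e.2.2 → ρ e.2.2 ≤ ρ x.q →
        ¬ Ψ m e.1 e.2.1 e.2.2 := fun S => by
    induction S using Finset.induction_on with
    | empty => exact fun n c _ => ⟨n, c, .refl _ _ _ _, by simp⟩
    | insert e S _ ih =>
      intro n c a
      obtain ⟨n', c', b1, b2⟩ := ih n c a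
      by_cases b : ρ x.p ≤ ρ e.2.1 ∧ ρ e.2.1 < ρ e.2.2 ∧ ρ e.2.2 ≤ ρ x.q
      · have : ¬ Dense {m ∈ x.A | Ψ m e.1 e.2.1 e.2.2} n' c' e.2.1 e.2.2 := fun d => h
          ⟨⟨_, n', c', _, _, b.2.1, d⟩, ⟨fun _ => And.left, a.trans b1, b.1, b.2.2⟩, e.1,
            fun _ => And.right⟩
        simp only [Dense, not_forall] at this
        obtain ⟨n'', c'', b3, b4⟩ := this
        exact ⟨n'', c'', b1.trans (b3.mono b.1 b.2.2), fun m d1 d2 => Finset.forall_mem_insert _ _ _ |>.2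
          ⟨fun _ _ _ d => b4 ⟨m, ⟨d1, d⟩, d2⟩, b2 m d1 (b3.ag d2)⟩⟩
      · exact ⟨n', c', b1, fun m d1 d2 => Finset.forall_mem_insert _ _ _ |>.2
          ⟨fun d3 d4 d5 => (b ⟨d3, d4, d5⟩).elim, b2 m d1 d2⟩⟩
  have k2 : ∀ w : ℕ × ℕ, ∃ m, Ext x.n x.c w.1 w.2 x.p x.q → m ∈ x.A ∧ Ag m w.1 w.2 ∧
      G (Ψ m) x.p x.q (w.1 + w.2) := fun w => by
    by_cases a : Ext x.n x.c w.1 w.2 x.p x.q
    · obtain ⟨n, c, b1, b2⟩ := k1 (Finset.Iic (w.1 + w.2, w.1 + w.2, w.1 + w.2)) _ _ a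
      obtain ⟨m, b3, b4⟩ := x.dn _ _ (a.trans b1)
      exact ⟨m, fun _ => ⟨b3, b1.ag b4, fun e d1 p d2 q d3 =>
        b2 m b3 b4 (e, p, q) (Finset.mem_Iic.2 ⟨d1, d2, d3⟩)⟩⟩
    · exact ⟨0, fun b => (a b).elim⟩
  choose μ hμ using k2
  refine ⟨⟨μ '' {w | Ext x.n x.c w.1 w.2 x.p x.q}, x.n, x.c, x.p, x.q, x.lt, fun n c e =>
    ⟨_, ⟨(n, c), e, rfl⟩, (hμ (n, c) e).2.1⟩⟩, ⟨?_, .refl _ _ _ _, le_rfl, le_rfl⟩, Or.inr fun z =>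
      ((Set.finite_Iic (z, z)).image μ).subset ?_⟩
  · rintro _ ⟨w, a, rfl⟩
    exact (hμ w a).1
  · rintro _ ⟨⟨w, a, rfl⟩, b⟩
    have : ¬ z ≤ w.1 + w.2 := fun e => b ((hμ w a).2.2.anti e)
    exact ⟨w, ⟨by omega, by omega⟩, rfl⟩

theorem generic (f : ℕ → ℕ → ℕ) (Ψ : ℕ → ℕ → ℕ → ℕ → ℕ → Prop) :
    ∃ (U : Ultrafilter ℕ) (P Q N : ℕ → ℕ), (∀ k : ℕ, ∀ᶠ m : ℕ in U, k ≤ m) ∧ (StrictMono fun n => ρ (P n)) ∧
      (Antitone fun n => ρ (Q n)) ∧ (∀ n, ρ (P n) < ρ (Q n)) ∧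
      (∀ n k, N n ≤ k → ∀ᶠ m in U, ρ (P n) < ρ (hh m k) ∧ ρ (hh m k) < ρ (Q n)) ∧
      (∀ n, (∀ᶠ m in U, ρ (f n m) ≤ ρ (P (n + 1))) ∨ ∀ᶠ m in U, ρ (Q (n + 1)) ≤ ρ (f n m)) ∧
      ∀ n, (∃ z, ∀ᶠ m in U, Ψ n m z (P (n + 1)) (Q (n + 1))) ∨
        ∀ z, ∀ᶠ m in U, G (Ψ n m) (P (n + 1)) (Q (n + 1)) z := by
  have : ∀ n (x : Cd), ∃ y, Le x y ∧ x.n < y.n ∧ ρ x.p < ρ y.p ∧
      ((∀ m ∈ y.A, ρ (f n m) ≤ ρ y.p) ∨ ∀ m ∈ y.A, ρ y.q ≤ ρ (f n m)) ∧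
      ((∃ z, ∀ m ∈ y.A, Ψ n m z y.p y.q) ∨ ∀ z, {m ∈ y.A | ¬ G (Ψ n m) y.p y.q z}.Finite) := fun n x => by
    obtain ⟨x1, a1, a2, a3⟩ := s1 x
    obtain ⟨x2, b1, b2⟩ := s2 x1 (f n)
    obtain ⟨x3, c1, c2⟩ := s3 x2 (Ψ n)
    exact ⟨x3, a1.trans (b1.trans c1), a2.trans_le (b1.trans c1).2.1.1, a3.trans_le (b1.trans c1).2.2.1,
      b2.imp (fun e m a => (e m (c1.1 a)).trans c1.2.2.1) fun e m a => c1.2.2.2.trans (e m (c1.1 a)), c2⟩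
  choose F h1 h2 h3 h4 h5 using this
  let x : ℕ → Cd := fun n => n.rec ⟨Set.univ, 0, 0, 0, Nat.pair 1 0, by simp [ρ], fun n c _ =>
    ⟨c, trivial, fun _ _ => rfl⟩⟩ F
  have le : ∀ n n', n ≤ n' → Le (x n) (x n') := fun n n' e => by
    induction e with
    | refl => exact ⟨le_rfl, .refl _ _ _ _, le_rfl, le_rfl⟩
    | step _ ih => exact ih.trans (h1 _ _)
  have hn : ∀ n, n ≤ (x n).n := (strictMono_nat_of_lt_succ (f := fun n => (x n).n) fun n => h2 n _).id_le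
  choose μ a1 a2 a3 using fun n => big (x n) n
  have ev : ∀ {W : ℕ → Prop} (n : ℕ), (∀ k, n ≤ k → W (μ k)) → ∀ᶠ m in ((hyperfilter ℕ).map μ : Filter ℕ),
      W m := fun n e => (Bsig.U_ge n).mono e
  have eA : ∀ n, ∀ᶠ m in ((hyperfilter ℕ).map μ : Filter ℕ), m ∈ (x n).A := fun n =>
    ev n fun k e => (le n k e).1 (a1 k)
  have eg : ∀ k, ∀ᶠ m in ((hyperfilter ℕ).map μ : Filter ℕ), k ≤ m := fun k =>
    ev k fun n e => e.trans (a3 n)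
  refine ⟨(hyperfilter ℕ).map μ, fun n => (x n).p, fun n => (x n).q, fun n => (x n).n, eg,
    strictMono_nat_of_lt_succ fun n => h3 n _, fun n n' e => (le n n' e).2.2.2, fun n => (x n).lt,
    fun n k e => ev (max n (k + 1)) fun i a => ?_, fun n => (h4 n (x n)).imp (eA (n + 1)).mono
      (eA (n + 1)).mono, fun n => (h5 n (x n)).imp (Exists.imp fun _ => (eA (n + 1)).mono) fun e z => ?_⟩
  · have b : k < (x i).n := ((le_max_right _ _).trans a).trans (hn i)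
    rw [a2 i k b]
    exact (le n i ((le_max_left _ _).trans a)).2.1.2.2 k e b
  · obtain ⟨b, hb⟩ := (e z).bddAbove
    exact ((eA (n + 1)).and (eg (b + 1))).mono fun m a => by_contra fun c =>
      (hb ⟨a.1, c⟩).not_gt a.2

theorem ex_reg {O : Set (ℕ → ℕ)} (hO : O.Countable) : ∃ C : Set (ℕ → ℕ), C.Countable ∧ (fun m => m) ∈ C ∧
    (∀ f ∈ C, ∀ g ∈ C, (fun m => Nat.pair (f m) (g m)) ∈ C) ∧ ∀ g ∈ O, ∀ f ∈ C, (fun m => g (f m)) ∈ C := by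
  let D : ℕ → Set (ℕ → ℕ) := fun n => n.rec {fun m => m} fun _ D => D ∪
    (Set.image2 (fun f g m => Nat.pair (f m) (g m)) D D ∪ Set.image2 (fun g f m => g (f m)) O D)
  have mono : Monotone D := monotone_nat_of_le_succ fun n => Set.subset_union_left
  refine ⟨⋃ n, D n, Set.countable_iUnion fun n => ?_, Set.mem_iUnion.2 ⟨0, rfl⟩, fun f a g b => ?_,
    fun g a f b => ?_⟩
  · induction n with
    | zero => exact Set.countable_singleton _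
    | succ n ih => exact ih.union ((ih.image2 ih _).union (hO.image2 ih _))
  · obtain ⟨i, a⟩ := Set.mem_iUnion.1 a
    obtain ⟨j, b⟩ := Set.mem_iUnion.1 b
    exact Set.mem_iUnion.2 ⟨max i j + 1, Or.inr (Or.inl
      ⟨f, mono (le_max_left i j) a, g, mono (le_max_right i j) b, rfl⟩)⟩
  · obtain ⟨j, b⟩ := Set.mem_iUnion.1 b
    exact Set.mem_iUnion.2 ⟨j + 1, Or.inr (Or.inr ⟨g, a, f, b, rfl⟩)⟩

end Pool.Agent.H40.Minc
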