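import Pool.Agent.H40.Cut2
import Pool.Agent.H40.Minc1

set_option autoImplicit false

namespace Pool.Agent.H40.Minc

open Filter Gen Gen.Cs
open Bsig (cons cons_congr dec dec_pair pr_dec FF FF_it pr_l pr_r pr_pair pr_ball pr_bex pr_pow)

theorem pr_ρ {α : Type} [Primcodable α] {f g : α → ℕ} (hf : Primrec f) (hg : Primrec g) :
    PrimrecPred fun a => ρ (f a) < ρ (g a) :=
  (Primrec.nat_lt.comp (Primrec.nat_mul.comp (pr_l hf) (Primrec.succ.comp (pr_r hg)))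
    (Primrec.nat_mul.comp (pr_l hg) (Primrec.succ.comp (pr_r hf)))).of_eq fun _ => (ρ_lt _ _).symm

theorem pr_hh {α : Type} [Primcodable α] {f g : α → ℕ} (hf : Primrec f) (hg : Primrec g) :
    Primrec fun a => hh (f a) (g a) :=
  Primrec.nat_mod.comp (pr_l hf) (Primrec.succ.comp (Primrec.nat_mul.comp (pr_r hf) (Primrec.succ.comp hg)))

def Ps (φ : Fm) (a e p q : ℕ) : Prop := ∃ u v : ℕ, (∀ y, u.testBit y = true → ρ y ≤ ρ p) ∧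
  (∀ y, v.testBit y = true → ρ q ≤ ρ y) ∧ Sat std φ (cons (2 ^ e) (cons 0 (cons u (cons v (dec a)))))

def RR (φ : Fm) (a x : ℕ) : Prop := ∃ v, Sat std φ (cons (2 ^ x) (cons 1 (cons 0 (cons v (dec a)))))

noncomputable def op : ℕ → Fm → ℕ → ℕ → ℕ → ℕ
  | 0, _, c, _, _ => c
  | 1, _, _, _, a => FF a
  | 2, φ, n, _, a => sInf {x | Rel n φ a x}
  | 3, φ, p, q, a => sInf {z | a.unpair.1 ≤ z ∨ ¬ G (Ps φ a.unpair.2) p q (z + 1)}
  | _, φ, _, _, a => sInf {x | x ≤ a.unpair.1 ∧ RR φ a.unpair.2 x ∧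
      ∀ y ≤ a.unpair.1, RR φ a.unpair.2 y → ρ y ≤ ρ x}

structure Gn (p : Sys) (P Q N : ℕ → ℕ) : Prop where
  fs : FS p
  ho : ∀ n φ a b, ∀ f ∈ p.C, (fun m => op n φ a b (f m)) ∈ p.C
  hP : StrictMono fun n => ρ (P n)
  hQ : Antitone fun n => ρ (Q n)
  lt : ∀ n, ρ (P n) < ρ (Q n)
  hN : ∀ n k, N n ≤ k → ∀ᶠ m in p.U, ρ (P n) < ρ (hh m k) ∧ ρ (hh m k) < ρ (Q n)
  sep : ∀ f ∈ p.C, ∃ n, (∀ᶠ m in p.U, ρ (f m) ≤ ρ (P n)) ∨ ∀ᶠ m in p.U, ρ (Q n) ≤ ρ (f m)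
  gen : ∀ φ, ∀ d ∈ p.C, ∃ n, (∃ z, ∀ᶠ m in p.U, Ps φ (d m) z (P n) (Q n)) ∨
    ∀ z, ∀ᶠ m in p.U, G (Ps φ (d m)) (P n) (Q n) z

theorem ex_gn : ∃ p P Q N, Gn p P Q N := by
  obtain ⟨C, h1, h2, h3, h4⟩ := ex_reg (Set.countable_range fun e : ℕ × Fm × ℕ × ℕ =>
    op e.1 e.2.1 e.2.2.1 e.2.2.2)
  have h4 : ∀ n φ a b, ∀ f ∈ C, (fun m => op n φ a b (f m)) ∈ C := fun n φ a b => h4 _ ⟨(n, φ, a, b), rfl⟩
  obtain ⟨f, hf⟩ := h1.exists_eq_range ⟨_, h2⟩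
  obtain ⟨g, hg⟩ := @exists_surjective_nat (Fm × ℕ) ⟨(.eq .zero .zero, 0)⟩ _
  obtain ⟨U, P, Q, N, a1, a2, a3, a4, a5, a6, a7⟩ := generic f fun n m => Ps (g n).1 (f (g n).2 m)
  obtain ⟨c, hc⟩ := EE_FF
  have hF : ∀ n, (fun m => FF^[n] m) ∈ C := fun n => by
    induction n with
    | zero => exact h2
    | succ n ih => simpa only [Function.iterate_succ_apply', op] using h4 1 (.eq .zero .zero) 0 0 _ ih
  refine ⟨⟨U, C, fun n m => FF^[2 * n] m, fun c => h4 0 (.eq .zero .zero) c 0 _ h2, h3,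
    fun n φ => h4 2 φ n 0, fun n => hF _, fun n => (a1 c).mono fun m e => ?_⟩, P, Q, N,
    ⟨fun _ _ => rfl, h2, a1⟩, h4, a2, a3, a4, a5, fun k e => ?_, fun φ d e => ?_⟩
  · simpa only [Nat.mul_succ, Function.iterate_succ_apply'] using
      hc _ (e.trans ((FF_it m).monotone (Nat.zero_le (2 * n))))
  · obtain ⟨n, rfl⟩ : k ∈ Set.range f := hf ▸ e
    exact ⟨_, a6 n⟩
  · obtain ⟨k, rfl⟩ : d ∈ Set.range f := hf ▸ e
    obtain ⟨n, e⟩ := hg (φ, k)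
    exact ⟨n + 1, by simpa only [e] using a7 n⟩

variable {p : Sys} {P Q N : ℕ → ℕ}

variable (p P) in
def X : Set (I p) := {y | ∃ n, ∀ᶠ m in p.U, ρ (rep y m) ≤ ρ (P n)}

theorem Gn.pq (h : Gn p P Q N) (n n' : ℕ) : ρ (P n) < ρ (Q n') :=
  ((h.hP.monotone (le_max_left n n')).trans_lt (h.lt _)).trans_le (h.hQ (le_max_right n n'))

theorem Gn.split (h : Gn p P Q N) (y : I p) : y ∉ X p P ↔ ∃ n, ∀ᶠ m in p.U, ρ (Q n) ≤ ρ (rep y m) :=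
  ⟨fun e => (h.sep _ (bd_rep y).1).imp fun n a => a.resolve_left fun b => e ⟨n, b⟩,
    fun ⟨n, a⟩ ⟨n', b⟩ => (a.and b).exists.elim fun _ e => (h.pq n' n).not_ge (e.1.trans e.2)⟩

theorem subX (K : I p) : Sub (M p) K (X p P) ↔
    ∃ n, ∀ᶠ m in p.U, ∀ y, (rep K m).testBit y = true → ρ y ≤ ρ (P n) :=
  ⟨fun a => (ex_max ρ (pr_ρ .fst .snd).primrecRel K).elim (fun e => ⟨0, e.mono fun m e => by simp [e]⟩)
    fun ⟨y, b, c⟩ => (a y b).imp fun _ d => (c.and d).mono fun _ e x k => (e.1 x k).trans e.2,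
    fun ⟨n, a⟩ _ b => ⟨n, (a.and ((mem_iff _ _).1 b)).mono fun _ e => e.1 _ e.2⟩⟩

theorem Gn.subC (h : Gn p P Q N) (K : I p) : Sub (M p) K (X p P)ᶜ ↔
    ∃ n, ∀ᶠ m in p.U, ∀ y, (rep K m).testBit y = true → ρ (Q n) ≤ ρ y :=
  ⟨fun a => (ex_max (fun y => -ρ y) ((pr_ρ .snd .fst).primrecRel.of_eq fun _ => by simp) K).elim
    (fun e => ⟨0, e.mono fun m e => by simp [e]⟩) fun ⟨y, b, c⟩ => ((h.split y).1 (a y b)).imp fun _ d =>
      (c.and d).mono fun _ e x k => e.2.trans (neg_le_neg_iff.1 (e.1 x k)),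
    fun ⟨n, a⟩ y b => (h.split y).2 ⟨n, (a.and ((mem_iff _ _).1 b)).mono fun _ e => e.1 _ e.2⟩⟩

theorem Gn.red (h : Gn p P Q N) : RedK (M p) (X p P) (Om p) := by
  obtain ⟨θ, h1, h2⟩ := h.fs.absl (s1_five (P := fun K b u v a => ∃ i < u, ∃ j < v, u.testBit i = true ∧
      v.testBit j = true ∧ ∀ k < j + 1, i ≤ k → ∀ y < K, K.testBit y = true →
        (b = 1 → ρ y < ρ (hh a k)) ∧ (b = 0 → ρ (hh a k) < ρ y))
    (pr_bex (pr_dec .id 2) (pr_bex (pr_dec .fst 3) ((pr_bit (pr_dec (Primrec.fst.comp .fst) 2)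
      (Primrec.snd.comp .fst)).and ((pr_bit (pr_dec (Primrec.fst.comp .fst) 3) .snd).and
      (pr_ball (Primrec.succ.comp .snd) (pr_imp (Primrec.nat_le.comp
        (Primrec.snd.comp (Primrec.fst.comp .fst)) .snd) (pr_ball
          (pr_dec (Primrec.fst.comp (Primrec.fst.comp .fst)) 0) (pr_imp (pr_bit (pr_dec
            (Primrec.fst.comp (Primrec.fst.comp (Primrec.fst.comp .fst))) 0) .snd) ((pr_imp
            (Primrec.eq.comp (pr_dec (Primrec.fst.comp (Primrec.fst.comp (Primrec.fst.comp .fst))) 1)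
              (.const 1)) (pr_ρ .snd (pr_hh (pr_dec (Primrec.fst.comp (Primrec.fst.comp
                (Primrec.fst.comp .fst))) 4) (Primrec.snd.comp .fst)))).and (pr_imp
            (Primrec.eq.comp (pr_dec (Primrec.fst.comp (Primrec.fst.comp (Primrec.fst.comp .fst))) 1)
              (.const 0)) (pr_ρ (pr_hh (pr_dec (Primrec.fst.comp (Primrec.fst.comp
                (Primrec.fst.comp .fst))) 4) (Primrec.snd.comp .fst))
                  .snd)))).primrecRel)).primrecRel))).primrecRel).primrecRel) 0 1 2 3 4)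
  obtain ⟨a, ha⟩ := ex_rep h.fs.bid
  have k1 : ∀ n, ∃ u v, Sub (M p) u (Om p) ∧ Sub (M p) v (Om p)ᶜ ∧ ∀ᶠ m in p.U, ∃ i < rep u m,
      ∃ j < rep v m, (rep u m).testBit i = true ∧ (rep v m).testBit j = true ∧ ∀ k < j + 1, i ≤ k →
        ρ (P n) < ρ (hh m k) ∧ ρ (hh m k) < ρ (Q n) := fun n => by
    obtain ⟨j, b1, b2⟩ := h.fs.over (W := fun m z => ∀ k < z + 1, N n ≤ k →
      ρ (P n) < ρ (hh m k) ∧ ρ (hh m k) < ρ (Q n)) (in_rel ((Primrec.nat_le.comp .fst .snd).or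
        (pr_ball (Primrec.succ.comp (Primrec.succ.comp .snd)) (pr_imp (Primrec.nat_le.comp (.const _) .snd)
          ((pr_ρ (.const _) (pr_hh (Primrec.fst.comp .fst) .snd)).and
            (pr_ρ (pr_hh (Primrec.fst.comp .fst) .snd) (.const _)))).primrecRel).not).primrecRel h.fs.hid)
      (fun m z z' e a k b => a k (by omega)) fun z => (eventually_all_finite (Set.finite_Iio (z + 1))).2
        fun k _ => (em (N n ≤ k)).elim (fun e => (h.hN n k e).mono fun _ a _ => a)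
          fun e => Eventually.of_forall fun _ a => (e a).elim
    obtain ⟨i, hi⟩ := ex_rep (p := p) (bd_cst (N n))
    obtain ⟨u, b3, b4⟩ := sing i
    obtain ⟨v, b5, b6⟩ := sing j
    refine ⟨u, v, (b4 _).2 ⟨_, hi.mono fun _ => le_of_eq⟩, (b6 _).2 b1, ?_⟩
    filter_upwards [b2, hi, b3, b5] with m c1 c2 c3 c4
    rw [c3, c4, c2]
    exact ⟨_, Nat.lt_two_pow_self, _, Nat.lt_two_pow_self, by simp, by simp, c1⟩
  have k2 : ∀ {u v : I p} {W : ℕ → ℕ → Prop}, Sub (M p) u (Om p) → Sub (M p) v (Om p)ᶜ →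
      (∀ᶠ m in p.U, ∃ i < rep u m, ∃ j < rep v m, (rep u m).testBit i = true ∧
        (rep v m).testBit j = true ∧ ∀ k < j + 1, i ≤ k → W m k) → ∀ n, ∃ k, ∀ᶠ m in p.U, W m k ∧
          ρ (P n) < ρ (hh m k) ∧ ρ (hh m k) < ρ (Q n) := fun b1 b2 b3 n => by
    obtain ⟨i, b1⟩ := sub_om b1
    refine ⟨max i (N n), (Eventually.mono (b1.and ((sub_nom b2 (max i (N n))).and b3)) ?_).and
      (h.hN n _ (le_max_right _ _))⟩
    rintro m ⟨c1, c2, i', -, j, -, c3, c4, c5⟩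
    exact c5 _ (Nat.lt_succ_of_lt (c2 _ c4)) ((c1 _ c3).trans (le_max_left _ _))
  refine ⟨θ.ex, fun _ => a, ⟨θ, h1, rfl⟩, fun K => ?_⟩
  simp only [h2, cons]
  refine ⟨⟨fun e => ?_, fun ⟨u, v, b1, b2, b3⟩ y b => by_contra fun e => ?_⟩,
    fun e => ?_, fun ⟨u, v, b1, b2, b3⟩ y b ⟨n, e⟩ => ?_⟩
  · obtain ⟨n, e⟩ := (subX K).1 e
    obtain ⟨u, v, b1, b2, b3⟩ := k1 n
    refine ⟨u, v, b1, b2, ?_⟩
    filter_upwards [e, b3, ha, one_ae] with m c1 ⟨i, c2, j, c3, c4, c5, c6⟩ c7 c8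
    rw [c7]
    exact ⟨i, c2, j, c3, c4, c5, fun k d1 d2 y _ d3 => ⟨fun _ => (c1 y d3).trans_lt (c6 k d1 d2).1,
      fun d => by omega⟩⟩
  · obtain ⟨n, e⟩ := (h.split y).1 e
    obtain ⟨k, c⟩ := k2 b1 b2 b3 n
    obtain ⟨m, c1, c2, c3, c4, c5⟩ := (c.and (e.and (ha.and (one_ae.and ((mem_iff _ _).1 b))))).exists
    rw [c3] at c1
    exact (c2.trans_lt ((c1.1 _ (bit_lt c5) c5).1 c4)).not_gt c1.2.2
  · obtain ⟨n, e⟩ := (h.subC K).1 e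
    obtain ⟨u, v, b1, b2, b3⟩ := k1 n
    refine ⟨u, v, b1, b2, ?_⟩
    filter_upwards [e, b3, ha, zero_ae] with m c1 ⟨i, c2, j, c3, c4, c5, c6⟩ c7 c8
    rw [c7]
    exact ⟨i, c2, j, c3, c4, c5, fun k d1 d2 y _ d3 => ⟨fun d => by omega,
      fun _ => (c6 k d1 d2).2.trans_le (c1 y d3)⟩⟩
  · obtain ⟨k, c⟩ := k2 b1 b2 b3 n
    obtain ⟨m, c1, c2, c3, c4, c5⟩ := (c.and (e.and (ha.and (zero_ae.and ((mem_iff _ _).1 b))))).exists
    rw [c3] at c1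
    exact (((c1.1 _ (bit_lt c5) c5).2 c4).trans_le c2).not_gt c1.2.1

theorem key4 (h : FS p) {θ : Fm} (hθ : Bdd θ) (w : ℕ → I p) : ∃ d, Bd p d ∧ ∀ K b u v : I p,
    Sat (M p) θ.ex (cons K (cons b (cons u (cons v w)))) ↔ ∀ᶠ m in p.U,
      Sat std θ.ex (cons (rep K m) (cons (rep b m) (cons (rep u m) (cons (rep v m) (dec (d m)))))) := by
  obtain ⟨d, w', h1, h2, h3⟩ := recode w θ.sup
  exact ⟨d, h1, fun K b u v => (sat_congr (M := M p) θ.ex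
    (cons_congr (cons_congr (cons_congr (cons_congr h2 v) u) b) K)).trans
      (h.los1 hθ _ _ (cons_ae (cons_ae (cons_ae (cons_ae h3 rfl_ae) rfl_ae) rfl_ae) rfl_ae))⟩

theorem Gn.notc (h : Gn p P Q N) : ¬ RedK (M p) (X p P) ∅ := by
  rintro ⟨_, w, ⟨θ, hθ, rfl⟩, e⟩
  obtain ⟨d, h1, h2⟩ := key4 h.fs hθ w
  have k1 : ∀ n, ∀ᶠ m in p.U, P n ≤ m ∧ RR θ.ex (d m) (P n) := fun n => by
    obtain ⟨i, hi⟩ := ex_rep (p := p) (bd_cst (P n))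
    obtain ⟨K, b1, b2⟩ := sing i
    obtain ⟨u, v, b3, -, b4⟩ := (e K).1.1 ((b2 _).2 ⟨n, hi.mono fun _ a => a ▸ le_rfl⟩)
    filter_upwards [hi, b1, sub_empty b3, (h2 _ _ _ _).1 b4, one_ae, h.fs.hU (P n)] with m c1 c2 c3 c4 c5 c6
    exact ⟨c6, _, by rwa [c2, c1, c3, c5] at c4⟩
  obtain ⟨y, hy⟩ := ex_min (P := fun m x => x ≤ m ∧ RR θ.ex (d m) x ∧ ∀ y ≤ m, RR θ.ex (d m) y → ρ y ≤ ρ x)
    (by simpa only [op, Nat.unpair_pair] using h.ho 4 θ.ex 0 0 _ (h.fs.bid.pair h1).1) h.fs.bid.2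
    ((k1 0).mono fun m a => by
      obtain ⟨x, b, c⟩ := Set.exists_max_image {x | x ≤ m ∧ RR θ.ex (d m) x} ρ
        ((Set.finite_Iic m).subset fun _ => And.left) ⟨_, a⟩
      exact ⟨x, b.1, b.1, b.2, fun y c1 c2 => c y ⟨c1, c2⟩⟩)
  obtain ⟨K, b1, b2⟩ := sing y
  obtain ⟨z, hz⟩ := h.fs.wit_pr (Q := fun a z => Sat std θ (dec (Nat.pair z.unpair.2 (Nat.pair a.unpair.1
      (Nat.pair 1 (Nat.pair 0 (Nat.pair z.unpair.1 a.unpair.2))))))) ((pr_sat hθ).comp (pr_pair (pr_r .snd)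
        (pr_pair (pr_l .fst) (pr_pair (.const 1) (pr_pair (.const 0)
          (pr_pair (pr_l .snd) (pr_r .fst))))))).primrecRel ((bd_rep K).pair h1)
    ((hy.and b1).mono fun m ⟨⟨⟨_, ⟨v, w, a⟩, _⟩, _⟩, b⟩ => ⟨Nat.pair v w, by
      simpa only [Nat.unpair_pair, dec_pair, b] using a⟩)
  obtain ⟨v, hv⟩ := ex_rep (bd_rep z).l
  obtain ⟨n, b3⟩ := (b2 _).1 ((e K).1.2 ⟨_, v, sub_zero zero_ae _, fun _ _ => id, (h2 _ _ _ _).2 (by
    filter_upwards [hz, hv, zero_ae, one_ae] with m c1 c2 c3 c4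
    rw [c2, c3, c4]
    exact ⟨_, by simpa only [Nat.unpair_pair, dec_pair] using c1.1⟩)⟩)
  obtain ⟨m, c1, c2, c3⟩ := (hy.and (b3.and (k1 (n + 1)))).exists
  exact (h.hP n.lt_succ_self).not_ge ((c1.1.2.2 _ c3.1 c3.2).trans c2)

theorem Gn.noto (h : Gn p P Q N) : ¬ RedK (M p) (Om p) (X p P) := by
  rintro ⟨_, w, ⟨θ, hθ, rfl⟩, e⟩
  obtain ⟨d, h1, h2⟩ := key4 h.fs hθ w
  obtain ⟨n, ⟨z, a⟩ | a⟩ := h.gen θ.ex d h1.1
  · obtain ⟨i, hi⟩ := ex_rep (p := p) (bd_cst z)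
    obtain ⟨K, b1, b2⟩ := sing i
    obtain ⟨t, ht⟩ := h.fs.wit_pr (Q := fun a t => (∀ y < dec t 0, (dec t 0).testBit y = true →
        ¬ ρ (P n) < ρ y) ∧ (∀ y < dec t 1, (dec t 1).testBit y = true → ¬ ρ y < ρ (Q n)) ∧
        Sat std θ (dec (Nat.pair (dec t 2) (Nat.pair (2 ^ z) (Nat.pair 0 (Nat.pair (dec t 0)
          (Nat.pair (dec t 1) a))))))) ((pr_ball (pr_dec .snd 0) (pr_imp (pr_bit (pr_dec
            (Primrec.snd.comp .fst) 0) .snd) (pr_ρ (.const _) .snd).not).primrecRel).and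
          ((pr_ball (pr_dec .snd 1) (pr_imp (pr_bit (pr_dec (Primrec.snd.comp .fst) 1) .snd)
            (pr_ρ .snd (.const _)).not).primrecRel).and ((pr_sat hθ).comp (pr_pair (pr_dec .snd 2)
              (pr_pair (.const _) (pr_pair (.const 0) (pr_pair (pr_dec .snd 0)
                (pr_pair (pr_dec .snd 1) .fst)))))))).primrecRel h1
      (a.mono fun m ⟨u, v, a, b, w, c⟩ => ⟨Nat.pair u (Nat.pair v (Nat.pair w 0)), by
        simp only [dec_pair, cons]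
        exact ⟨fun y _ e => (a y e).not_gt, fun y _ e => (b y e).not_gt, c⟩⟩)
    obtain ⟨s, hs⟩ := decs (bd_rep t)
    refine (b2 _).1 ((e K).2.2 ⟨s 0, s 1, (subX _).2 ⟨n, (ht.and (hs 0)).mono fun m c y b => not_lt.1
      (c.1.1.1 y (c.2 ▸ bit_lt b) (c.2 ▸ b))⟩, (h.subC _).2 ⟨n, (ht.and (hs 1)).mono fun m c y b =>
        not_lt.1 (c.1.1.2.1 y (c.2 ▸ bit_lt b) (c.2 ▸ b))⟩, (h2 _ _ _ _).2 ?_⟩)
      ⟨z, hi.mono fun _ => le_of_eq⟩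
    filter_upwards [ht, hs 0, hs 1, zero_ae, hi, b1] with m c1 c2 c3 c4 c5 c6
    rw [c2, c3, c4, c6, c5]
    exact ⟨_, by simpa only [dec_pair] using c1.1.2.2⟩
  · obtain ⟨j, b1, b2⟩ := h.fs.over (W := fun m => G (Ps θ.ex (d m)) (P n) (Q n))
      (by simpa only [op, Nat.unpair_pair] using h.ho 3 θ.ex (P n) (Q n) _ (h.fs.bid.pair h1).1)
      (fun _ _ _ => G.anti) a
    obtain ⟨K, b3, b4⟩ := sing j
    obtain ⟨u, v, c1, c2, c3⟩ := (e K).2.1 ((b4 _).2 b1)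
    obtain ⟨i, c1⟩ := (subX _).1 c1
    obtain ⟨k, c2⟩ := (h.subC _).1 c2
    obtain ⟨m, d1, d2, d3, d4, d5, d6, d7, d8⟩ := (b2.and (b3.and (c1.and (c2.and (((h2 _ _ _ _).1 c3).and
      (zero_ae.and ((om_not.1 b1 (P (max n i))).and (om_not.1 b1 (Q (max n k)))))))))).exists
    exact d1 _ le_rfl _ d7.le _ d8.le (h.hP.monotone (le_max_left _ _)) (h.pq _ _) (h.hQ (le_max_left _ _))
      ⟨_, _, fun y b => (d3 y b).trans (h.hP.monotone (le_max_right _ _)),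
        fun y b => (h.hQ (le_max_right _ _)).trans (d4 y b), by rwa [d2, d6] at d5⟩

theorem main : ∃ M : Mod, PAm M ∧ Ind M 0 ∧ Bnd M 1 ∧ Bnd M 2 ∧ ∃ I X : Set M.N, IsCut M I ∧ Dfn M 2 true I ∧
    RedK M ∅ X ∧ ¬ RedK M X ∅ ∧ RedK M X I ∧ ¬ RedK M I X := by
  obtain ⟨p, P, Q, N, h⟩ := ex_gn
  exact ⟨M p, pam, ind0, bnd1, h.fs.bnd2, Om p, X p P, h.fs.cut, h.fs.def2, red_empty _, h.notc, h.red,
    h.noto⟩

end Pool.Agent.H40.Minc
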