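import Pool.Agent.H74.NilHomogDefs

/-! Isotypic algebras, logical homogeneity and separability for algebras over a field. -/

namespace Pool.Agent.H40.NilReg

open Pool.Agent.H74.NilHomog

/-- A tuple of `H₁` and a tuple of `H₂` satisfy the same first-order formulas. -/
def SameTp (K H₁ H₂ : Type) [Field K] [AddCommGroup H₁] [Module K H₁] [AddCommGroup H₂]
    [Module K H₂] (m₁ : H₁ → H₁ → H₁) (m₂ : H₂ → H₂ → H₂) {k : ℕ} (a : Fin k → H₁)
    (b : Fin k → H₂) : Prop :=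
  ∀ φ : (Lang K).Formula (Fin k),
    @FirstOrder.Language.Formula.Realize (Lang K) H₁ (str K H₁ m₁) (Fin k) φ a ↔
      @FirstOrder.Language.Formula.Realize (Lang K) H₂ (str K H₂ m₂) (Fin k) φ b

/-- The two algebras realise the same types of `k`-tuples, for each `k ≥ 1`. -/
def Isotypic (K H₁ H₂ : Type) [Field K] [AddCommGroup H₁] [Module K H₁] [AddCommGroup H₂]
    [Module K H₂] (m₁ : H₁ → H₁ → H₁) (m₂ : H₂ → H₂ → H₂) : Prop :=
  ∀ k : ℕ, 1 ≤ k → (∀ a : Fin k → H₁, ∃ b : Fin k → H₂, SameTp K H₁ H₂ m₁ m₂ a b) ∧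
    ∀ b : Fin k → H₂, ∃ a : Fin k → H₁, SameTp K H₁ H₂ m₁ m₂ a b

/-- The identity `x₁ x₂ ⋯ xₙ = 0`. -/
def Nil (n : ℕ) (A : Type) [NonUnitalRing A] : Prop :=
  ∀ (a : A) (l : List A), l.length + 1 = n → l.foldl (· * ·) a = 0

/-- The free nilpotent Lie algebra of class at most `n` on `r` generators. -/
abbrev W (K : Type) [Field K] (r n : ℕ) : Type :=
  FreeLieAlgebra K (Fin r) ⧸
    LieModule.lowerCentralSeries K (FreeLieAlgebra K (Fin r)) (FreeLieAlgebra K (Fin r)) n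

end Pool.Agent.H40.NilReg
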