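import Pool.Agent.H74.NilHomog
import Pool.Agent.H40.NilRegDefs

namespace Pool.Agent.H40.NilReg

open Pool.Agent.H74.NilHomog

theorem regular_abs (L : FirstOrder.Language.{0, 0}) (hL : ∀ n, IsEmpty (L.Relations n))
    (A H : Type) [L.Structure A] [L.Structure H] {r : ℕ} (x : Fin r → A)
    (hgen : ∀ w, ∃ t : L.Term (Fin r), t.realize x = w)
    (hom : ∀ a : Fin r → A, (∀ φ : L.Formula (Fin r), φ.Realize x ↔ φ.Realize a) →
      ∃ σ : L.Equiv A A, σ ∘ x = a)
    (h : Fin r → H) (hh : ∀ φ : L.Formula (Fin r), φ.Realize x ↔ φ.Realize h)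
    (h2 : ∀ b : Fin (r + 1) → H, ∃ a : Fin (r + 1) → A,
      ∀ φ : L.Formula (Fin (r + 1)), φ.Realize a ↔ φ.Realize b) : Nonempty (L.Equiv A H) := by
  choose t ht using hgen
  have eq : ∀ s s' : L.Term (Fin r), s.realize x = s'.realize x ↔ s.realize h = s'.realize h :=
    fun s s' => by simpa using hh (FirstOrder.Language.Term.equal s s')
  let f : A → H := fun w => (t w).realize h
  have hf : ∀ s : L.Term (Fin r), f (s.realize x) = s.realize h := fun s => (eq _ _).1 (ht _)
  have inj : Function.Injective f := fun u v e => by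
    rw [← ht u, ← ht v]; exact (eq _ _).2 e
  have sur : Function.Surjective f := fun z => by
    obtain ⟨a, ha⟩ := h2 (Fin.snoc h z)
    obtain ⟨σ, hσ⟩ := hom (a ∘ Fin.castSucc) fun φ => by
      have := ha (φ.relabel Fin.castSucc)
      rw [FirstOrder.Language.Formula.realize_relabel, FirstOrder.Language.Formula.realize_relabel,
        Fin.snoc_comp_castSucc] at this
      exact (hh φ).trans this.symm
    obtain ⟨w, hw⟩ := σ.surjective (a (Fin.last r))
    refine ⟨w, ?_⟩
    have h3 : (t w).realize (a ∘ Fin.castSucc) = a (Fin.last r) := by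
      rw [← hσ, FirstOrder.Language.HomClass.realize_term, ht, hw]
    have h4 := (ha (FirstOrder.Language.Term.equal ((t w).relabel Fin.castSucc)
      (.var (Fin.last r)))).1 (by simpa using h3)
    simpa [Fin.snoc_comp_castSucc] using h4
  refine ⟨⟨Equiv.ofBijective f ⟨inj, sur⟩, fun {n} g v => ?_, fun {n} R => (hL n).elim R⟩⟩
  have e : v = fun i => (t (v i)).realize x := funext fun i => (ht _).symm
  have := hf (.func g fun i => t (v i))
  simp only [FirstOrder.Language.Term.realize] at this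
  rw [← e] at this
  exact this

variable {K A : Type} [Field K] [AddCommGroup A] [Module K A] {m : A →ₗ[K] A →ₗ[K] A}

noncomputable def toEquiv (σ : A →ₗ[K] A) (h1 : IsE m σ) (h2 : Function.Bijective σ) :
    @FirstOrder.Language.Equiv (Lang K) A A (str K A fun u v => m u v) (str K A fun u v => m u v) :=
  @FirstOrder.Language.Equiv.mk (Lang K) A A (str K A fun u v => m u v) (str K A fun u v => m u v)
    (Equiv.ofBijective σ h2) (fun f v => by
      cases f
      · exact map_zero σ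
      · exact map_neg σ _
      · exact map_smul σ _ _
      · exact map_add σ _ _
      · exact h1 _ _) fun R => Empty.elim R

theorem same_of_aut (σ : A →ₗ[K] A) (h1 : IsE m σ) (h2 : Function.Bijective σ) {k : ℕ}
    (a b : Fin k → A) (h : ∀ i, σ (a i) = b i) :
    SameTp K A A (fun u v => m u v) (fun u v => m u v) a b := by
  intro φ
  letI := str K A fun u v => m u v
  have := FirstOrder.Language.StrongHomClass.realize_formula (toEquiv σ h1 h2) φ (v := a)
  rw [show (toEquiv σ h1 h2) ∘ a = b from funext h] at this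
  exact this.symm

theorem regular {r : ℕ} (x : Fin r → A)
    (hext : ∀ f : Fin r → A, ∃ φ : A →ₗ[K] A, IsE m φ ∧ ∀ i, φ (x i) = f i)
    (hgen : ∀ T : Submodule K A, (∀ i, x i ∈ T) → (∀ a ∈ T, ∀ b ∈ T, m a b ∈ T) → T = ⊤)
    (hP : ∀ k, ∀ a ∈ P m k, ∀ c d, m a (m c d) ∈ P m (k + 2)) (hN : ∃ N, P m N = ⊥)
    (H : Type) [AddCommGroup H] [Module K H] (m' : H → H → H)
    (hI : Isotypic K A H (fun u v => m u v) m') :
    ∃ f : A →ₗ[K] H, Function.Bijective f ∧ ∀ u v, f (m u v) = m' (f u) (f v) := by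
  letI := str K A fun u v => m u v
  letI := str K H m'
  obtain ⟨h, hh⟩ := (hI (r + 1) (by omega)).1 (Fin.snoc x 0)
  obtain ⟨e⟩ := regular_abs (Lang K) (fun _ => inferInstanceAs (IsEmpty Empty)) A H x (by
    let T : Submodule K A :=
      { carrier := {w | ∃ t : (Lang K).Term (Fin r), t.realize x = w}
        add_mem' := by
          rintro _ _ ⟨t, rfl⟩ ⟨t', rfl⟩
          exact ⟨.func Fn.add ![t, t'], rfl⟩
        zero_mem' := ⟨.func Fn.zero ![], rfl⟩
        smul_mem' := by
          rintro c _ ⟨t, rfl⟩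
          exact ⟨.func (Fn.smul c) ![t], rfl⟩ }
    have hT : T = ⊤ := hgen T (fun i => ⟨.var i, rfl⟩) (by
      rintro _ ⟨t, rfl⟩ _ ⟨t', rfl⟩
      exact ⟨.func Fn.mul ![t, t'], rfl⟩)
    exact fun w => (show w ∈ T from hT ▸ Submodule.mem_top)) (fun a ha => by
      obtain ⟨σ, h1, h2, h3⟩ := homog x hext hgen hP hN x a ha
      exact ⟨toEquiv σ h1 h2, funext h3⟩) (h ∘ Fin.castSucc) (fun φ => by
      have := hh (φ.relabel Fin.castSucc)
      rwa [FirstOrder.Language.Formula.realize_relabel, FirstOrder.Language.Formula.realize_relabel,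
        Fin.snoc_comp_castSucc] at this) (hI (r + 1) (by omega)).2
  have two : ∀ u v : A, e ∘ ![u, v] = ![e u, e v] := fun u v => funext fun i => by
    fin_cases i <;> rfl
  refine ⟨⟨⟨e, fun u v => ?_⟩, fun c u => e.map_fun (Fn.smul c) ![u]⟩, e.bijective,
    fun u v => e.map_fun Fn.mul ![u, v]⟩
  exact e.map_fun Fn.add ![u, v]

/-! ### Lie algebras -/

section Lie
variable (K L : Type) [Field K] [LieRing L] [LieAlgebra K L]

def br : L →ₗ[K] L →ₗ[K] L :=
  LinearMap.mk₂ K (fun a b => ⁅a, b⁆) add_lie smul_lie lie_add lie_smul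

lemma br_apply (a b : L) : br K L a b = ⁅a, b⁆ := rfl

lemma lie_mem_P (k : ℕ) (a : L) (ha : a ∈ P (br K L) k) (b : L) : ⁅a, b⁆ ∈ P (br K L) (k + 1) :=
  Submodule.apply_mem_map₂ (br K L) ha trivial

end Lie

theorem lie_data (K : Type) [Field K] (r n : ℕ) : ∃ x : Fin r → W K r n,
    (∀ f : Fin r → W K r n, ∃ φ : W K r n →ₗ[K] W K r n, IsE (br K (W K r n)) φ ∧
      ∀ i, φ (x i) = f i) ∧
    (∀ T : Submodule K (W K r n), (∀ i, x i ∈ T) →
      (∀ a ∈ T, ∀ b ∈ T, br K (W K r n) a b ∈ T) → T = ⊤) ∧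
    (∀ k, ∀ a ∈ P (br K (W K r n)) k, ∀ c d,
      br K (W K r n) a (br K (W K r n) c d) ∈ P (br K (W K r n)) (k + 2)) ∧
    ∃ N, P (br K (W K r n)) N = ⊥ := by
  let L := FreeLieAlgebra K (Fin r)
  let I : ℕ → LieIdeal K L := LieModule.lowerCentralSeries K L L
  let q : L →ₗ[K] W K r n := (I n).toSubmodule.mkQ
  have hq : ∀ u v, q ⁅u, v⁆ = ⁅q u, q v⁆ := fun u v => rfl
  have hqs : Function.Surjective q := Submodule.mkQ_surjective _
  have hN : P (br K (W K r n)) n = ⊥ := by
    have : ∀ j, P (br K (W K r n)) j ≤ (I j).toSubmodule.map q := by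
      intro j
      induction j with
      | zero =>
        intro z _
        obtain ⟨y, rfl⟩ := hqs z
        exact ⟨y, trivial, rfl⟩
      | succ j ih =>
        refine Submodule.map₂_le.2 fun u hu v _ => ?_
        obtain ⟨u', hu', rfl⟩ := ih hu
        obtain ⟨v', rfl⟩ := hqs v
        refine ⟨⁅u', v'⁆, ?_, rfl⟩
        have e : I (j + 1) = ⁅(⊤ : LieIdeal K L), I j⁆ := LieModule.lowerCentralSeries_succ K L L j
        rw [← lie_skew, e]
        exact neg_mem (LieSubmodule.lie_mem_lie (LieSubmodule.mem_top v') hu')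
    rw [eq_bot_iff]
    refine (this n).trans ?_
    rintro _ ⟨y, hy, rfl⟩
    exact (Submodule.Quotient.mk_eq_zero _).2 hy
  refine ⟨fun i => q (FreeLieAlgebra.of K i), ?_, ?_, ?_, n, hN⟩
  · intro f
    let F : L →ₗ⁅K⁆ W K r n := FreeLieAlgebra.lift K f
    have hF : ∀ j, (I j).toSubmodule ≤ (P (br K (W K r n)) j).comap F.toLinearMap := by
      intro j
      induction j with
      | zero => exact fun z _ => trivial
      | succ j ih =>
        have e : I (j + 1) = ⁅(⊤ : LieIdeal K L), I j⁆ := LieModule.lowerCentralSeries_succ K L L j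
        rw [e, LieSubmodule.lieIdeal_oper_eq_linear_span', Submodule.span_le]
        rintro _ ⟨u, -, v, hv, rfl⟩
        change F ⁅u, v⁆ ∈ P (br K (W K r n)) (j + 1)
        rw [LieHom.map_lie, ← lie_skew]
        exact neg_mem (lie_mem_P K _ j _ (ih hv) _)
    refine ⟨(I n).toSubmodule.liftQ F.toLinearMap (fun z hz => ?_), ?_, fun i => ?_⟩
    · have := hF n hz
      rwa [hN] at this
    · intro u v
      obtain ⟨u', rfl⟩ := hqs u
      obtain ⟨v', rfl⟩ := hqs v
      exact F.map_lie u' v'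
    · exact FreeLieAlgebra.lift_of_apply f i
  · intro T h1 h2
    let S : LieSubalgebra K L :=
      { T.comap q with lie_mem' := fun {u v} hu hv => h2 _ hu _ hv }
    let F : L →ₗ⁅K⁆ S := FreeLieAlgebra.lift K (fun i => ⟨FreeLieAlgebra.of K i, h1 i⟩)
    have e : S.incl.comp F = LieHom.id := FreeLieAlgebra.hom_ext fun i => by
      simp [F]
    rw [eq_top_iff]
    intro z _
    obtain ⟨y, rfl⟩ := hqs z
    have : ((F y : S) : L) = y := DFunLike.congr_fun e y
    rw [← this]
    exact (F y).2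
  · intro j u hu c d
    rw [br_apply, br_apply, leibniz_lie, ← lie_skew c]
    exact add_mem (lie_mem_P K _ _ _ (lie_mem_P K _ _ _ hu c) d)
      (neg_mem (lie_mem_P K _ _ _ (lie_mem_P K _ _ _ hu d) c))

theorem lie_perfect (K : Type) [Field K] (n r k : ℕ) (a b : Fin k → W K r n) :
    SameTp K (W K r n) (W K r n) (fun u v => ⁅u, v⁆) (fun u v => ⁅u, v⁆) a b ↔
      ∃ σ : W K r n ≃ₗ⁅K⁆ W K r n, ∀ i, σ (a i) = b i := by
  obtain ⟨x, h1, h2, h3, h4⟩ := lie_data K r n
  constructor
  · intro h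
    obtain ⟨σ, s1, s2, s3⟩ := homog x h1 h2 h3 h4 a b h
    exact ⟨LieEquiv.ofBijective { σ with map_lie' := fun {u v} => s1 u v } s2, s3⟩
  · rintro ⟨σ, h⟩
    exact same_of_aut (m := br K (W K r n)) σ.toLinearEquiv.toLinearMap
      (fun u v => σ.map_lie u v) σ.bijective a b h

theorem lie_regular (K : Type) [Field K] (n r : ℕ) (H : Type) [LieRing H] [LieAlgebra K H]
    (hI : Isotypic K (W K r n) H (fun u v => ⁅u, v⁆) (fun u v => ⁅u, v⁆)) :
    Nonempty (W K r n ≃ₗ⁅K⁆ H) := by
  obtain ⟨x, h1, h2, h3, h4⟩ := lie_data K r n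
  obtain ⟨f, s1, s2⟩ := regular x h1 h2 h3 h4 H _ hI
  exact ⟨LieEquiv.ofBijective { f with map_lie' := fun {u v} => s2 u v } s1⟩

/-! ### Associative algebras -/

section Assoc
variable {K A : Type} [Field K] [NonUnitalRing A] [Module K A] [IsScalarTower K A A]
  [SMulCommClass K A A]

theorem nil_P {n : ℕ} (hn : 1 ≤ n) (h : Nil n A) : P (LinearMap.mul K A) (n - 1) = ⊥ := by
  have lin : ∀ l : List A, ∃ F : A →ₗ[K] A, ∀ a, F a = l.foldl (· * ·) a := by
    intro l
    induction l with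
    | nil => exact ⟨LinearMap.id, fun _ => rfl⟩
    | cons b l ih =>
      obtain ⟨F, hF⟩ := ih
      exact ⟨F ∘ₗ LinearMap.mulRight K b, fun a => hF _⟩
  have key : ∀ k (l : List A), k + l.length + 1 = n → ∀ z ∈ P (LinearMap.mul K A) k,
      l.foldl (· * ·) z = 0 := by
    intro k
    induction k with
    | zero => exact fun l hl z _ => h z l (by omega)
    | succ k ih =>
      intro l hl
      obtain ⟨F, hF⟩ := lin l
      have : P (LinearMap.mul K A) (k + 1) ≤ LinearMap.ker F :=
        Submodule.map₂_le.2 fun a ha b _ => (hF _).trans (ih (b :: l) (by simp; omega) a ha)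
      exact fun z hz => (hF z).symm.trans (this hz)
  rw [eq_bot_iff]
  exact fun z hz => key (n - 1) [] (by simp; omega) z hz

theorem assoc_main {n r : ℕ} (hn : 1 ≤ n) (x : Fin r → A) (h0 : Nil n A)
    (hU : ∀ (B : Type) [NonUnitalRing B] [Module K B] [IsScalarTower K B B] [SMulCommClass K B B],
      Nil n B → ∀ f : Fin r → B, ∃! φ : A →ₙₐ[K] B, ∀ i, φ (x i) = f i) :
    (∀ (k : ℕ) (a b : Fin k → A), SameTp K A A (· * ·) (· * ·) a b ↔
      ∃ σ : A →ₙₐ[K] A, Function.Bijective σ ∧ ∀ i, σ (a i) = b i) ∧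
    ∀ (H : Type) [NonUnitalRing H] [Module K H], Isotypic K A H (· * ·) (· * ·) →
      ∃ f : A →ₙₐ[K] H, Function.Bijective f := by
  have h1 : ∀ f : Fin r → A, ∃ φ : A →ₗ[K] A, IsE (LinearMap.mul K A) φ ∧ ∀ i, φ (x i) = f i := by
    intro f
    obtain ⟨φ, hφ, -⟩ := hU A h0 f
    exact ⟨(φ : A →ₗ[K] A), fun u v => map_mul φ u v, hφ⟩
  have h2 : ∀ T : Submodule K A, (∀ i, x i ∈ T) →
      (∀ a ∈ T, ∀ b ∈ T, LinearMap.mul K A a b ∈ T) → T = ⊤ := by
    intro T h1 h2
    let S : NonUnitalSubalgebra K A := T.toNonUnitalSubalgebra (fun u v hu hv => h2 u hu v hv)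
    have hS : Nil n S := fun a l hl => Subtype.ext (by
      have : ∀ (l : List S) (a : S), ((l.foldl (· * ·) a : S) : A) =
          (l.map Subtype.val).foldl (· * ·) (a : A) := by
        intro l
        induction l with
        | nil => exact fun _ => rfl
        | cons b l ih => exact fun a => ih (a * b)
      rw [this]
      exact h0 _ _ (by simpa using hl))
    obtain ⟨φ, hφ, -⟩ := hU S hS (fun i => ⟨x i, h1 i⟩)
    have e := (hU A h0 x).unique (y₁ := (NonUnitalSubalgebraClass.subtype S).comp φ)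
      (y₂ := NonUnitalAlgHom.id K A) (fun i => by simp [hφ]) (fun i => rfl)
    rw [eq_top_iff]
    intro z _
    have : ((φ z : S) : A) = z := DFunLike.congr_fun e z
    rw [← this]
    exact (φ z).2
  have h3 : ∀ k, ∀ a ∈ P (LinearMap.mul K A) k, ∀ c d,
      LinearMap.mul K A a (LinearMap.mul K A c d) ∈ P (LinearMap.mul K A) (k + 2) := by
    intro k a ha c d
    have : LinearMap.mul K A (LinearMap.mul K A a c) d ∈ P (LinearMap.mul K A) (k + 2) :=
      Submodule.apply_mem_map₂ _ (Submodule.apply_mem_map₂ _ ha trivial) trivial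
    simpa [mul_assoc] using this
  have h4 : ∃ N, P (LinearMap.mul K A) N = ⊥ := ⟨_, nil_P hn h0⟩
  refine ⟨fun k a b => ⟨fun h => ?_, ?_⟩, fun H _ _ hI => ?_⟩
  · obtain ⟨σ, s1, s2, s3⟩ := homog x h1 h2 h3 h4 a b h
    exact ⟨{ toFun := σ, map_smul' := σ.map_smul, map_zero' := σ.map_zero, map_add' := σ.map_add,
             map_mul' := s1 }, s2, s3⟩
  · rintro ⟨σ, s1, s2⟩
    exact same_of_aut (m := LinearMap.mul K A) (σ : A →ₗ[K] A) (fun u v => map_mul σ u v) s1 a b s2
  · obtain ⟨f, s1, s2⟩ := regular x h1 h2 h3 h4 H _ hI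
    exact ⟨{ toFun := f, map_smul' := f.map_smul, map_zero' := f.map_zero, map_add' := f.map_add,
             map_mul' := s2 }, s1⟩

end Assoc

end Pool.Agent.H40.NilReg
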