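import Pool.Agent.H40.OmegaDefs

set_option autoImplicit false

namespace Pool.Agent.H40.Omega

def neg (a : Fm) : Fm := .imp a .bot
def con (a b : Fm) : Fm := neg (.imp a (neg b))
def dia (a : Fm) : Fm := neg (.box (neg a))

section
variable {W : Type} (R : W → W → Prop) (θ : ℕ → W → Prop)

theorem sat_neg (a : Fm) (w : W) : sat R θ (neg a) w ↔ ¬ sat R θ a w := Iff.rfl

theorem sat_con (a b : Fm) (w : W) : sat R θ (con a b) w ↔ sat R θ a w ∧ sat R θ b w := by
  simp only [con, neg, sat]; tauto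

theorem sat_dia (a : Fm) (w : W) : sat R θ (dia a) w ↔ ∃ u, R w u ∧ sat R θ a u := by
  simp only [dia, neg, sat, imp_false]; push Not; rfl

theorem sat_var (n : ℕ) (w : W) : sat R θ (.var n) w ↔ θ n w := Iff.rfl

theorem sat_subst (σ : ℕ → Fm) (a : Fm) :
    ∀ w, sat R θ (a.subst σ) w ↔ sat R (fun n => sat R θ (σ n)) a w := by
  induction a with
  | var n => exact fun w => Iff.rfl
  | bot => exact fun w => Iff.rfl
  | imp a b ih1 ih2 => exact fun w => imp_congr (ih1 w) (ih2 w)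
  | box a ih => exact fun w => forall_congr' fun u => imp_congr Iff.rfl (ih u)

end

inductive P : Type
  | b : (i j : ℕ) → i + j ≤ 2 → P
  | c : ℕ → P
  | t : P

def RR : P → P → Prop
  | .b i j _, .b i' j' _ => i ≤ i' ∧ j ≤ j'
  | .b _ _ _, .c _ => True
  | .b _ _ _, .t => True
  | .c _, .b _ _ _ => False
  | .c m, .c n => m = n ∨ n + 2 ≤ m
  | .c _, .t => True
  | .t, .b _ _ _ => False
  | .t, .c _ => False
  | .t, .t => True

theorem RR_refl (x : P) : RR x x := by
  cases x <;> simp [RR]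

theorem RR_trans {x y z : P} (h1 : RR x y) (h2 : RR y z) : RR x z := by
  cases x <;> cases y <;> cases z <;> simp only [RR] at * <;> omega

def ff (N i j : ℕ) : P :=
  if h : i + j ≤ 2 then .b i j h else if 2 * i + 3 * j ≤ N then .c (N - (2 * i + 3 * j)) else .t

theorem ff_mono (N : ℕ) {i j i' j' : ℕ} (h1 : i ≤ i') (h2 : j ≤ j') :
    RR (ff N i j) (ff N i' j') := by
  unfold ff
  split_ifs <;> simp only [RR] <;> omega

theorem two_three (d : ℕ) (h : d ≠ 1) : ∃ a b, d = 2 * a + 3 * b :=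
  ⟨(d - 3 * (d % 2)) / 2, d % 2, by omega⟩

def hh : P → ℕ
  | .c m => m + 14
  | _ => 0

theorem ff_back (N i j : ℕ) (y : P) (h : RR (ff N i j) y) (hN : i + j ≤ 2 → hh y ≤ N) :
    ∃ i' j', i ≤ i' ∧ j ≤ j' ∧ ff N i' j' = y := by
  cases y with
  | b i' j' h' =>
    refine ⟨i', j', ?_, ?_, by simp [ff, h']⟩ <;>
    · unfold ff at h
      split_ifs at h <;> simp only [RR] at h
      omega
  | t => exact ⟨i + N + 3, j, by omega, le_rfl, by
      rw [ff, dif_neg (by omega), if_neg (by omega)]⟩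
  | c m =>
    by_cases h0 : i + j ≤ 2
    · have := hN h0
      simp only [hh] at this
      refine ⟨(N - m - 3 * (2 + (N - m) % 2)) / 2, 2 + (N - m) % 2, by omega, by omega, ?_⟩
      rw [ff, dif_neg (by omega), if_pos (by omega)]
      congr 1
      omega
    · unfold ff at h
      rw [dif_neg h0] at h
      split_ifs at h with h1 <;> simp only [RR] at h
      obtain ⟨a, b, hab⟩ := two_three (N - (2 * i + 3 * j) - m) (by omega)
      refine ⟨i + a, j + b, by omega, by omega, ?_⟩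
      rw [ff, dif_neg (by omega), if_pos (by omega)]
      congr 1
      omega

def gg (k N : ℕ) (x : Fin (k + 2) → ℕ) : P := ff N (x 0) (x 1)

theorem gg_back (k N : ℕ) (x : Fin (k + 2) → ℕ) (y : P) (h : RR (gg k N x) y)
    (hN : x 0 + x 1 ≤ 2 → hh y ≤ N) : ∃ x', PowLe _ x x' ∧ gg k N x' = y := by
  obtain ⟨i, j, h1, h2, h3⟩ := ff_back N _ _ y h hN
  refine ⟨fun l => if l = 0 then i else if l = 1 then j else x l, fun l => ?_, ?_⟩
  · by_cases a : l = 0
    · simpa [a] using h1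
    · by_cases b : l = 1
      · simpa [b] using h2
      · simp [a, b]
  · simpa [gg] using h3

theorem truth (k : ℕ) (θ : ℕ → P → Prop) (a : Fm) : ∃ N₀, ∀ N ≥ N₀, ∀ x,
    sat (PowLe (k + 2)) (fun n z => θ n (gg k N z)) a x ↔ sat RR θ a (gg k N x) := by
  induction a with
  | var n => exact ⟨0, fun _ _ _ => Iff.rfl⟩
  | bot => exact ⟨0, fun _ _ _ => Iff.rfl⟩
  | imp a b iha ihb =>
    obtain ⟨N₁, h1⟩ := iha
    obtain ⟨N₂, h2⟩ := ihb
    exact ⟨max N₁ N₂, fun N hN x =>
      imp_congr (h1 N (le_of_max_le_left hN) x) (h2 N (le_of_max_le_right hN) x)⟩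
  | box a ih =>
    obtain ⟨N₁, h1⟩ := ih
    obtain ⟨m, hm⟩ : ∃ m, sat RR θ a (.c m) → ∀ m', sat RR θ a (.c m') := by
      by_cases h : ∀ m', sat RR θ a (.c m')
      · exact ⟨0, fun _ => h⟩
      · obtain ⟨m, hm⟩ := not_forall.1 h
        exact ⟨m, fun h' => absurd h' hm⟩
    refine ⟨max N₁ (m + 14), fun N hN x => ⟨fun h y hy => ?_, fun h u hu => ?_⟩⟩
    · have key : ∀ y, RR (gg k N x) y → (x 0 + x 1 ≤ 2 → hh y ≤ N) → sat RR θ a y := by
        intro y h2 h3
        obtain ⟨x', h4, rfl⟩ := gg_back k N x y h2 h3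
        exact (h1 N (le_of_max_le_left hN) x').1 (h x' h4)
      by_cases h0 : x 0 + x 1 ≤ 2
      · cases y with
        | c m' =>
          refine hm (key _ ?_ fun _ => le_of_max_le_right hN) m'
          simp [gg, ff, h0, RR]
        | b i j h' => exact key _ hy fun _ => Nat.zero_le _
        | t => exact key _ hy fun _ => Nat.zero_le _
      · exact key y hy fun h' => absurd h' h0
    · exact (h1 N (le_of_max_le_left hN) u).2 (h _ (ff_mono N (hu 0) (hu 1)))

theorem ext (k : ℕ) : Extension (Log (PowLe (k + 2))) (Log RR) := by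
  refine ⟨fun a ha θ w => ?_, fun a ha σ θ w => (sat_subst _ _ _ _ _).2 (ha _ w),
    fun a b ha hb θ w => hb θ w (ha θ w), fun a ha θ w u _ => ha θ u⟩
  obtain ⟨N, hN⟩ := truth k θ a
  obtain ⟨x, -, hx⟩ := gg_back k (max N (hh w)) (fun _ => 0) w
    (by cases w <;> simp [gg, ff, RR]) fun _ => le_max_right _ _
  rw [← hx]
  exact (hN _ (le_max_left _ _) x).1 (ha _ x)

def chi : ℕ → Fm
  | 0 => con (.var 0) (con (neg (dia (.var 1))) (neg (dia (.var 2))))
  | 1 => con (.var 1) (con (neg (dia (.var 0))) (neg (dia (.var 2))))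
  | 2 => con (.var 2) (con (dia (chi 0)) (neg (dia (.var 1))))
  | k + 3 => con (dia (chi k)) (con (dia (chi (k + 1))) (neg (dia (chi (k + 2)))))

def mark (i j l : ℕ) : Fm := con (.var i) (con (neg (dia (.var j))) (neg (dia (.var l))))

def phi : Fm :=
  con (dia (con (mark 3 4 5) (con (dia (chi 1)) (dia (chi 2)))))
    (con (dia (mark 4 3 5)) (dia (mark 5 3 4)))

theorem chi_down {W : Type} (R : W → W → Prop) (θ : ℕ → W → Prop)
    (ht : ∀ x y z, R x y → R y z → R x z) (m : ℕ) :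
    ∀ k w, k + 2 ≤ m → sat R θ (chi m) w → ∃ u, R w u ∧ sat R θ (chi k) u := by
  induction m using Nat.strong_induction_on with
  | _ m ih =>
    intro k w hk h
    match m, ih, hk, h with
    | 0, _, hk, _ => omega
    | 1, _, hk, _ => omega
    | 2, _, hk, h =>
      obtain rfl : k = 0 := by omega
      rw [chi, sat_con, sat_con, sat_dia] at h
      exact h.2.1
    | m + 3, ih, hk, h =>
      rw [chi, sat_con, sat_con, sat_dia, sat_dia] at h
      by_cases c1 : k = m
      · exact c1 ▸ h.1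
      · by_cases c2 : k = m + 1
        · exact c2 ▸ h.2.1
        · obtain ⟨u, h1, h2⟩ := h.2.1
          obtain ⟨v, h3, h4⟩ := ih (m + 1) (by omega) k u (by omega) h2
          exact ⟨v, ht _ _ _ h1 h3, h4⟩

theorem chi_uniq (θ : ℕ → P → Prop) (a : ℕ) (h0 : sat RR θ (chi 0) (.c a))
    (h1 : sat RR θ (chi 1) (.c (a + 1))) (h2 : sat RR θ (chi 2) (.c (a + 2))) (k : ℕ) :
    ∀ w, sat RR θ (chi k) w ↔ w = .c (a + k) := by
  have g0 := h0
  have g1 := h1
  have g2 := h2
  simp only [chi, sat_con, sat_neg, sat_dia, sat_var, not_exists, not_and] at g0 g1 g2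
  induction k using Nat.strong_induction_on with
  | _ k ih =>
    intro w
    match k, ih with
    | 0, _ =>
      refine ⟨fun h => ?_, fun h => h ▸ h0⟩
      simp only [chi, sat_con, sat_neg, sat_dia, sat_var, not_exists, not_and] at h
      have a1 := fun hh => h.2.1 _ hh g1.1
      have a2 := fun hh => h.2.2 _ hh g2.1
      have a3 := fun hh => g1.2.1 _ hh h.1
      cases w <;> simp only [RR, P.c.injEq, imp_false, not_true] at a1 a2 a3 ⊢
      omega
    | 1, _ =>
      refine ⟨fun h => ?_, fun h => h ▸ h1⟩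
      simp only [chi, sat_con, sat_neg, sat_dia, sat_var, not_exists, not_and] at h
      have a1 := fun hh => h.2.1 _ hh g0.1
      have a2 := fun hh => h.2.2 _ hh g2.1
      have a3 := fun hh => g0.2.1 _ hh h.1
      have a4 := fun hh => g2.2.2 _ hh h.1
      cases w <;> simp only [RR, P.c.injEq, imp_false, not_true] at a1 a2 a3 a4 ⊢
      omega
    | 2, _ =>
      refine ⟨fun h => ?_, fun h => h ▸ h2⟩
      simp only [chi, sat_con, sat_neg, sat_dia, sat_var, not_exists, not_and] at h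
      have a1 := fun hh => h.2.2 _ hh g1.1
      have a2 := fun hh => g1.2.2 _ hh h.1
      have a3 := fun hh => g0.2.2 _ hh h.1
      cases w <;> simp only [RR, P.c.injEq, imp_false, not_true] at a1 a2 a3 ⊢
      omega
    | k + 3, ih =>
      rw [chi, sat_con, sat_con, sat_neg, sat_dia, sat_dia, sat_dia]
      simp only [ih k (by omega), ih (k + 1) (by omega), ih (k + 2) (by omega), exists_eq_right]
      cases w <;> simp only [RR, P.c.injEq, reduceCtorEq, not_true, and_false, false_and]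
      omega

theorem phi_dia (θ : ℕ → P → Prop) (w : P) (h : sat RR θ phi w) (k : ℕ) :
    sat RR θ (dia (chi k)) w := by
  simp only [phi, mark, sat_con, sat_neg, sat_dia, sat_var, not_exists, not_and] at h
  obtain ⟨⟨x, hx, ⟨x1, x2, x3⟩, ⟨v, hv, v1⟩, ⟨s, hs, s1⟩⟩, ⟨y, -, y1, y2, y3⟩,
    ⟨z, -, z1, z2, z3⟩⟩ := h
  have a1 := fun hh => x2 _ hh y1
  have a2 := fun hh => x3 _ hh z1
  have a3 := fun hh => y2 _ hh x1
  have a4 := fun hh => y3 _ hh z1
  have a5 := fun hh => z2 _ hh x1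
  have a6 := fun hh => z3 _ hh y1
  obtain ⟨i, j, hij, rfl, he⟩ : ∃ i j h, x = .b i j h ∧ i + j = 2 := by
    cases x <;> cases y <;> cases z <;>
      simp only [RR, imp_false, not_true, not_false_iff] at a1 a2 a3 a4 a5 a6
    · exact ⟨_, _, _, rfl, by omega⟩
    · omega
  have g1 := v1
  have g2 := s1
  rw [chi, sat_con, sat_con, sat_dia] at g2
  obtain ⟨u, hu, u1⟩ := g2.2.1
  have g0 := u1
  simp only [chi, sat_con, sat_neg, sat_dia, sat_var, not_exists, not_and] at g0 g1 g2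
  have b1 := fun hh => g0.2.1 _ hh g1.1
  have b2 := fun hh => g0.2.2 _ hh g2.1
  have b3 := fun hh => g1.2.1 _ hh g0.1
  have b4 := fun hh => g1.2.2 _ hh g2.1
  have b5 := fun hh => g2.2.2 _ hh g1.1
  have hu' := RR_trans hs hu
  obtain ⟨a, rfl, rfl, rfl⟩ : ∃ a, u = .c a ∧ v = .c (a + 1) ∧ s = .c (a + 2) := by
    cases u <;> cases v <;> cases s <;>
      simp only [RR, imp_false, not_true, not_false_iff] at b1 b2 b3 b4 b5 hu hu' hv hs
    · omega
    · exact ⟨_, rfl, by congr 1; omega, by congr 1; omega⟩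
  exact (sat_dia _ _ _ _).2 ⟨.c (a + k), RR_trans hx trivial,
    (chi_uniq θ a u1 v1 s1 k _).2 rfl⟩

def th0 : ℕ → P → Prop
  | 0, w => w = .c 0
  | 1, w => w = .c 1
  | 2, w => w = .c 2
  | 3, w => w = .b 2 0 le_rfl
  | 4, w => w = .b 1 1 le_rfl
  | _, w => w = .b 0 2 le_rfl

theorem phi_sat : sat RR th0 phi (.b 0 0 (by omega)) := by
  simp only [phi, mark, chi, sat_con, sat_neg, sat_dia, sat_var, th0, exists_eq_right]
  refine ⟨⟨.b 2 0 le_rfl, ?_, ?_, ⟨.c 1, ?_⟩, ⟨.c 2, ?_, rfl, ⟨.c 0, ?_⟩, ?_⟩⟩,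
    ⟨.b 1 1 le_rfl, ?_⟩, ⟨.b 0 2 le_rfl, ?_⟩⟩ <;> simp [RR]

theorem not_fmp : ¬ FMP (Log RR) := by
  intro h
  obtain ⟨V, _, S, h1, h2⟩ := h (neg phi) fun hh => hh th0 _ phi_sat
  simp only [Log, Set.mem_ofPred_eq, not_forall, sat_neg, not_not] at h2
  obtain ⟨θ, w, hw⟩ := h2
  have k1 : ∀ k, ∃ u, sat S θ (chi (k + 3)) u := by
    intro k
    obtain ⟨u, -, hu⟩ := (sat_dia _ _ _ _).1
      (h1 (show phi.imp (dia (chi (k + 3))) ∈ Log RR from fun θ w h => phi_dia θ w h _) θ w hw)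
    exact ⟨u, hu⟩
  choose y hy using k1
  have k2 : ∀ k m, k < m → y k ≠ y m := by
    intro k m hkm e
    have k3 := h1 (show (chi (m + 3)).imp (dia (chi (k + 2))) ∈ Log RR from fun θ w h =>
      (sat_dia _ _ _ _).2 (chi_down RR θ (fun _ _ _ => RR_trans) _ _ w (by omega) h)) θ _ (hy m)
    have k4 := hy k
    rw [chi, sat_con, sat_con, e] at k4
    exact k4.2.2 k3
  obtain ⟨k, m, hne, e⟩ := Finite.exists_ne_map_eq_of_infinite y
  rcases lt_or_gt_of_ne hne with h | h
  · exact k2 _ _ h e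
  · exact k2 _ _ h e.symm

end Pool.Agent.H40.Omega
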