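import Mathlib

set_option autoImplicit false

namespace Pool.Agent.H40.Omega

/-- Unimodal formulas. -/
inductive Fm : Type
  | var : ℕ → Fm
  | bot : Fm
  | imp : Fm → Fm → Fm
  | box : Fm → Fm

/-- Uniform substitution. -/
def Fm.subst (σ : ℕ → Fm) : Fm → Fm
  | .var n => σ n
  | .bot => .bot
  | .imp a b => .imp (a.subst σ) (b.subst σ)
  | .box a => .box (a.subst σ)

/-- Kripke semantics. -/
def sat {W : Type} (R : W → W → Prop) (θ : ℕ → W → Prop) : Fm → W → Prop
  | .var n, w => θ n w
  | .bot, _ => False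
  | .imp a b, w => sat R θ a w → sat R θ b w
  | .box a, w => ∀ u, R w u → sat R θ a u

/-- The logic of a frame: the formulas valid in it. -/
def Log {W : Type} (R : W → W → Prop) : Set Fm := {a | ∀ θ w, sat R θ a w}

/-- `L` is an extension of the normal logic `L₀`: it contains `L₀` and is closed under
substitution, modus ponens and necessitation. -/
def Extension (L₀ L : Set Fm) : Prop :=
  L₀ ⊆ L ∧ (∀ a ∈ L, ∀ σ, a.subst σ ∈ L) ∧ (∀ a b, a ∈ L → a.imp b ∈ L → b ∈ L) ∧
    ∀ a ∈ L, a.box ∈ L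

/-- Every formula outside `L` is refuted in a finite frame validating `L`. -/
def FMP (L : Set Fm) : Prop :=
  ∀ a, a ∉ L → ∃ (V : Type) (_ : Finite V) (S : V → V → Prop), L ⊆ Log S ∧ a ∉ Log S

/-- The componentwise order on `ω^n`. -/
def PowLe (n : ℕ) (x y : Fin n → ℕ) : Prop := ∀ i, x i ≤ y i

end Pool.Agent.H40.Omega
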