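import Pool.Agent.H40.OntoDefs

set_option autoImplicit false

namespace Pool.Agent.H40.Onto

theorem LF.val_imp (v : ℕ → ℕ → Prop) (a b : LF) : (a.imp b).val v ↔ (a.val v → b.val v) := by
  simp only [LF.imp, LF.val]; tauto

theorem LF.val_and (v : ℕ → ℕ → Prop) (a b : LF) : (a.and b).val v ↔ (a.val v ∧ b.val v) := by
  simp only [LF.and, LF.val]; tauto

theorem MF.val_imp {V : Type} (v : MF V → Prop) (a b : MF V) :
    (a.imp b).val v ↔ (a.val v → b.val v) := by
  simp only [MF.imp, MF.val]; tauto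

/-! ### Completeness of `L₁` -/

def Good (v : ℕ → ℕ → Prop) : Prop :=
  (∀ a b, v a b → v a a) ∧ (∀ a b c, v a b → v b c → v a c) ∧ ∀ a b c, v a b → v b c → v b a

theorem L1.of_fin (S : Set LF) (hS : S.Finite) (h : ∀ ψ ∈ S, L1 ψ) :
    ∀ φ : LF, (∀ v, (∀ ψ ∈ S, ψ.val v) → φ.val v) → L1 φ := by
  induction S, hS using Set.Finite.induction_on with
  | empty => exact fun φ hφ => .taut φ fun v => hφ v fun _ h => h.elim
  | @insert ψ S _ _ ih =>
    intro φ hφ
    refine .mp ψ φ (h ψ (Or.inl rfl)) (ih (fun χ hχ => h χ (Or.inr hχ)) _ fun v hv => ?_)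
    rw [LF.val_imp]
    intro h1
    refine hφ v ?_
    rintro χ (rfl | hχ)
    · exact h1
    · exact hv χ hχ

def LF.bound : LF → ℕ
  | .eps a b => max a b + 1
  | .not φ => φ.bound
  | .or φ ψ => max φ.bound ψ.bound

theorem val_cut (v : ℕ → ℕ → Prop) (N : ℕ) (φ : LF) (h : φ.bound ≤ N) :
    φ.val (fun a b => a < N ∧ b < N ∧ v a b) ↔ φ.val v := by
  induction φ with
  | eps a b =>
    simp only [LF.bound] at h
    simp only [LF.val]
    exact ⟨fun h => h.2.2, fun h' => ⟨by omega, by omega, h'⟩⟩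
  | not φ ih => simp only [LF.val, ih h]
  | or φ ψ ih1 ih2 =>
    simp only [LF.val, ih1 (le_of_max_le_left h), ih2 (le_of_max_le_right h)]

theorem L1.complete (φ : LF) (h : ∀ v, Good v → φ.val v) : L1 φ := by
  let N := φ.bound
  let f : Fin N × Fin N × Fin N → Fin 3 → LF := fun z =>
    ![(LF.eps z.1 z.2.1).imp (.eps z.1 z.1),
      ((LF.eps z.1 z.2.1).and (.eps z.2.1 z.2.2)).imp (.eps z.1 z.2.2),
      ((LF.eps z.1 z.2.1).and (.eps z.2.1 z.2.2)).imp (.eps z.2.1 z.1)]
  refine L1.of_fin (Set.range fun z : (Fin N × Fin N × Fin N) × Fin 3 => f z.1 z.2)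
    (Set.finite_range _) ?_ φ fun v hv => ?_
  · rintro _ ⟨⟨z, i⟩, rfl⟩
    fin_cases i
    · exact .ax1 _ _
    · exact .ax2 _ _ _
    · exact .ax3 _ _ _
  · rw [← val_cut v N φ le_rfl]
    refine h _ ⟨?_, ?_, ?_⟩
    · rintro a b ⟨ha, hb, hab⟩
      have := hv _ ⟨((⟨a, ha⟩, ⟨b, hb⟩, ⟨b, hb⟩), 0), rfl⟩
      exact ⟨ha, ha, (LF.val_imp _ _ _).1 this hab⟩
    · rintro a b c ⟨ha, hb, hab⟩ ⟨-, hc, hbc⟩
      have := hv _ ⟨((⟨a, ha⟩, ⟨b, hb⟩, ⟨c, hc⟩), 1), rfl⟩
      exact ⟨ha, hc, (LF.val_imp _ _ _).1 this ((LF.val_and _ _ _).2 ⟨hab, hbc⟩)⟩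
    · rintro a b c ⟨ha, hb, hab⟩ ⟨-, hc, hbc⟩
      have := hv _ ⟨((⟨a, ha⟩, ⟨b, hb⟩, ⟨c, hc⟩), 2), rfl⟩
      exact ⟨hb, ha, (LF.val_imp _ _ _).1 this ((LF.val_and _ _ _).2 ⟨hab, hbc⟩)⟩

/-! ### Derivations -/

variable {Ax : Set (MF ℕ)}

theorem t1 {a : MF ℕ} (ha : Normal Ax a) (b : MF ℕ) (h : ∀ v, a.val v → b.val v) :
    Normal Ax b :=
  .mp _ _ ha (.taut _ fun v => (MF.val_imp v _ _).2 (h v))

theorem t2 {a a' : MF ℕ} (ha : Normal Ax a) (ha' : Normal Ax a') (b : MF ℕ)
    (h : ∀ v, a.val v → a'.val v → b.val v) : Normal Ax b :=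
  .mp _ _ ha' (t1 ha _ fun v h1 => (MF.val_imp v _ _).2 (h v h1))

theorem t3 {a a' a'' : MF ℕ} (ha : Normal Ax a) (ha' : Normal Ax a') (ha'' : Normal Ax a'')
    (b : MF ℕ) (h : ∀ v, a.val v → a'.val v → a''.val v → b.val v) : Normal Ax b :=
  .mp _ _ ha'' (t2 ha ha' _ fun v h1 h2 => (MF.val_imp v _ _).2 (h v h1 h2))

theorem kk (a b : MF ℕ) : Normal Ax ((MF.box (a.imp b)).imp ((MF.box a).imp (.box b))) :=
  Normal.subst _ (fun n => if n = 0 then a else b) .k

theorem rm {a b : MF ℕ} (h : Normal Ax (a.imp b)) : Normal Ax ((MF.box a).imp (.box b)) :=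
  .mp _ _ (.nec _ h) (kk a b)

theorem rm2 {a b c : MF ℕ} (h : Normal Ax (a.imp (b.imp c))) :
    Normal Ax ((MF.box a).imp ((MF.box b).imp (.box c))) :=
  t2 (rm h) (kk b c) _ fun v => by simp only [MF.val_imp]; tauto

theorem rd2 {a b c : MF ℕ} (h : Normal Ax (a.imp (b.imp c))) :
    Normal Ax ((MF.box a).imp (b.dia.imp c.dia)) := by
  have h1 : Normal Ax (a.imp ((MF.not c).imp (.not b))) :=
    t1 h _ fun v => by simp only [MF.val_imp, MF.val]; tauto
  exact t1 (rm2 h1) _ fun v => by simp only [MF.val_imp, MF.val, MF.dia]; tauto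

theorem rd {b c : MF ℕ} (h : Normal Ax (b.imp c)) : Normal Ax (b.dia.imp c.dia) := by
  have h1 : Normal Ax ((MF.not c).imp (.not b)) :=
    t1 h _ fun v => by simp only [MF.val_imp, MF.val]; tauto
  exact t1 (rm h1) _ fun v => by simp only [MF.val_imp, MF.val, MF.dia]; tauto

/-- The logic contains all instances of T and 4. -/
def HasS4 (Ax : Set (MF ℕ)) : Prop :=
  (∀ a, Normal Ax ((MF.box a).imp a)) ∧ ∀ a, Normal Ax ((MF.box a).imp (.box (.box a)))

def BB {V : Type} (a : MF V) : MF V := .box (MF.dia (.box a))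

theorem bnec (h : HasS4 Ax) {a : MF ℕ} (ha : Normal Ax a) : Normal Ax (BB a) :=
  .nec _ (t2 (.nec _ ha) (h.1 (.not (.box a))) _ fun v => by
    simp only [MF.val_imp, MF.val, MF.dia]; tauto)

theorem dd (h : HasS4 Ax) (a : MF ℕ) : Normal Ax (a.dia.dia.imp a.dia) := by
  have h1 : Normal Ax ((MF.box (.not a)).imp (.not a.dia)) :=
    .taut _ fun v => by simp only [MF.val_imp, MF.val, MF.dia]; tauto
  exact t2 (rm h1) (h.2 (.not a)) _ fun v => by simp only [MF.val_imp, MF.val, MF.dia]; tauto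

theorem b2 (h : HasS4 Ax) {a b c : MF ℕ} (hc : Normal Ax (a.imp (b.imp c))) :
    Normal Ax ((BB a).imp ((BB b).imp (BB c))) := by
  have h1 : Normal Ax ((MF.box a).imp ((MF.box b).dia.imp (MF.box c).dia)) :=
    t2 (rd2 (rm2 hc)) (h.2 a) _ fun v => by simp only [MF.val_imp]; tauto
  have h2 : Normal Ax ((MF.box b).dia.imp ((MF.box a).imp (MF.box c).dia)) :=
    t1 h1 _ fun v => by simp only [MF.val_imp]; tauto
  have h3 : Normal Ax ((BB b).imp ((MF.box a).dia.imp (MF.box c).dia)) :=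
    t2 (rd2 h2) (dd h (.box c)) _ fun v => by simp only [MF.val_imp, BB]; tauto
  exact t2 (rm2 h3) (h.2 (MF.box b).dia) _ fun v => by simp only [MF.val_imp, BB]; tauto

def andM {V : Type} (a b : MF V) : MF V := .not (.or (.not a) (.not b))

theorem val_andM {V : Type} (v : MF V → Prop) (a b : MF V) :
    (andM a b).val v ↔ (a.val v ∧ b.val v) := by
  simp only [andM, MF.val]; tauto

def FF {V : Type} (x y : MF V) : MF V :=
  andM x (andM (BB (x.imp y)) (y.imp (BB (y.imp x))))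

theorem tr_eps (p : ℕ → ℕ) (a b : ℕ) :
    tr p (FF (.var 0) (.var 1)) (.eps a b) = FF (.var (p a)) (.var (p b)) := rfl

theorem val_tr (p : ℕ → ℕ) (F : MF (Fin 2)) (v : MF ℕ → Prop) (φ : LF) :
    (tr p F φ).val v ↔ φ.val fun a b => (tr p F (.eps a b)).val v := by
  induction φ with
  | eps a b => rfl
  | not φ ih => exact not_congr ih
  | or φ ψ ih1 ih2 => exact or_congr ih1 ih2

theorem sound (h : HasS4 Ax) (p : ℕ → ℕ) {φ : LF} (hφ : L1 φ) :
    Normal Ax (tr p (FF (.var 0) (.var 1)) φ) := by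
  have trn : ∀ x y z : MF ℕ,
      Normal Ax ((BB (x.imp y)).imp ((BB (y.imp z)).imp (BB (x.imp z)))) := fun x y z =>
    b2 h (.taut _ fun v => by simp only [MF.val_imp]; tauto)
  induction hφ with
  | taut φ h => exact .taut _ fun v => (val_tr p _ v φ).2 (h _)
  | ax1 a b =>
    refine t1 (bnec h (.taut ((MF.var (p a)).imp (.var (p a))) fun v =>
      (MF.val_imp v _ _).2 id)) _ fun v => ?_
    rw [val_tr]
    simp only [LF.val_imp, LF.val, tr_eps]
    simp only [FF, val_andM, MF.val_imp]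
    tauto
  | ax2 a b c =>
    refine t2 (trn (.var (p a)) (.var (p b)) (.var (p c)))
      (trn (.var (p c)) (.var (p b)) (.var (p a))) _ fun v => ?_
    rw [val_tr]
    simp only [LF.val_imp, LF.val_and, LF.val, tr_eps]
    simp only [FF, val_andM, MF.val_imp]
    tauto
  | ax3 a b c =>
    refine .taut _ fun v => ?_
    rw [val_tr]
    simp only [LF.val_imp, LF.val_and, LF.val, tr_eps]
    simp only [FF, val_andM, MF.val_imp]
    tauto
  | mp φ ψ _ _ ih1 ih2 => exact .mp _ _ ih1 ih2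

/-! ### Kripke semantics -/

def sat {W : Type} (R : W → W → Prop) (θ : ℕ → W → Prop) : MF ℕ → W → Prop
  | .var n, w => θ n w
  | .not a, w => ¬ sat R θ a w
  | .or a b, w => sat R θ a w ∨ sat R θ b w
  | .box a, w => ∀ u, R w u → sat R θ a u

variable {W : Type} (R : W → W → Prop)

theorem sat_imp (θ : ℕ → W → Prop) (a b : MF ℕ) (w : W) :
    sat R θ (a.imp b) w ↔ (sat R θ a w → sat R θ b w) := by
  simp only [MF.imp, sat]; tauto

theorem sat_and (θ : ℕ → W → Prop) (a b : MF ℕ) (w : W) :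
    sat R θ (andM a b) w ↔ (sat R θ a w ∧ sat R θ b w) := by
  simp only [andM, sat]; tauto

theorem sat_dia (θ : ℕ → W → Prop) (a : MF ℕ) (w : W) :
    sat R θ a.dia w ↔ ∃ u, R w u ∧ sat R θ a u := by
  simp only [MF.dia, sat]; push Not; rfl

theorem sat_subst (θ : ℕ → W → Prop) (σ : ℕ → MF ℕ) (a : MF ℕ) :
    ∀ w, sat R θ (a.subst σ) w ↔ sat R (fun n => sat R θ (σ n)) a w := by
  induction a with
  | var n => exact fun w => Iff.rfl
  | not a ih => exact fun w => not_congr (ih w)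
  | or a b ih1 ih2 => exact fun w => or_congr (ih1 w) (ih2 w)
  | box a ih => exact fun w => forall_congr' fun u => imp_congr Iff.rfl (ih u)

theorem sat_val (θ : ℕ → W → Prop) (w : W) (a : MF ℕ) :
    a.val (fun b => sat R θ b w) ↔ sat R θ a w := by
  induction a with
  | var n => rfl
  | not a ih => exact not_congr ih
  | or a b ih1 ih2 => exact or_congr ih1 ih2
  | box a _ => rfl

theorem valid (hAx : ∀ a ∈ Ax, ∀ θ w, sat R θ a w) {a : MF ℕ} (h : Normal Ax a) :
    ∀ θ w, sat R θ a w := by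
  induction h with
  | taut a h => exact fun θ w => (sat_val R θ w a).1 (h _)
  | k =>
    intro θ w
    simp only [sat_imp, sat]
    exact fun h1 h2 u hu => h1 u hu (h2 u hu)
  | ax a h => exact hAx a h
  | mp a b _ _ ih1 ih2 => exact fun θ w => (sat_imp R θ _ _ w).1 (ih2 θ w) (ih1 θ w)
  | nec a _ ih => exact fun θ w u _ => ih θ u
  | subst a σ _ ih => exact fun θ w => (sat_subst R θ σ a w).2 (ih _ w)

theorem faithful (R : Option ℕ → Option ℕ → Prop) (hAx : ∀ a ∈ Ax, ∀ θ w, sat R θ a w)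
    (p : ℕ → ℕ) (hp : Function.Injective p)
    (hB : ∀ v : ℕ → ℕ → Prop, Good v → ∀ P : Option ℕ → Prop,
      (∀ u, R none u → ∃ u', R u u' ∧ ∀ u'', R u' u'' → P u'') ↔ ∀ c, P (some c))
    {φ : LF} (h : Normal Ax (tr p (FF (.var 0) (.var 1)) φ)) : L1 φ := by
  refine L1.complete φ fun v hv => ?_
  let θ : ℕ → Option ℕ → Prop := fun n w => ∃ a, p a = n ∧ v (w.getD a) a
  have hθ : ∀ a w, θ (p a) w ↔ v (w.getD a) a := fun a w =>
    ⟨fun ⟨b, hb, h⟩ => hp hb ▸ h, fun h => ⟨a, rfl, h⟩⟩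
  have hBB : ∀ a : MF ℕ, sat R θ (BB a) none ↔ ∀ c, sat R θ a (some c) := by
    intro a
    rw [← hB v hv (sat R θ a)]
    exact forall_congr' fun u => imp_congr Iff.rfl (sat_dia R θ _ u)
  have h1 := valid R hAx h θ none
  rw [← sat_val, val_tr] at h1
  have e : (fun a b => (tr p (FF (.var 0) (.var 1)) (.eps a b)).val fun b => sat R θ b none)
      = v := by
    funext a b
    rw [sat_val, tr_eps]
    simp only [FF, sat_and, sat_imp, hBB, sat, hθ, Option.getD_none, Option.getD_some]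
    refine propext ⟨fun h => h.2.1 a h.1, fun h => ⟨hv.1 a b h, fun c hc => hv.2.1 _ _ _ hc h,
      fun hb c hc => hv.2.1 _ _ _ hc (hv.2.2 _ _ _ h hb)⟩⟩
  rwa [e] at h1

/-! ### The two logics -/

theorem grz_s4 : HasS4
    {(MF.box ((MF.box ((MF.var 0).imp (.box (.var 0)))).imp (.var 0))).imp (.var 0)} := by
  have g : ∀ a : MF ℕ, Normal
      {(MF.box ((MF.box ((MF.var 0).imp (.box (.var 0)))).imp (.var 0))).imp (.var 0)}
      ((MF.box ((MF.box (a.imp (.box a))).imp a)).imp a) := fun a =>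
    Normal.subst ((MF.box ((MF.box ((MF.var 0).imp (.box (.var 0)))).imp (.var 0))).imp (.var 0))
      (fun _ => a) (.ax _ rfl)
  refine ⟨fun a => ?_, fun a => ?_⟩
  · refine t2 (g a) (rm (a := a) (b := (MF.box (a.imp (.box a))).imp a) (.taut _ fun v => ?_)) _
      fun v => ?_
    · simp only [MF.val_imp]; tauto
    · simp only [MF.val_imp]; tauto
  · let A : MF ℕ := (MF.box a).imp (.box (.box a))
    let B : MF ℕ := andM a A
    have h0 : Normal
        {(MF.box ((MF.box ((MF.var 0).imp (.box (.var 0)))).imp (.var 0))).imp (.var 0)}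
        ((MF.box B).imp (.box a)) :=
      rm (.taut _ fun v => by simp only [MF.val_imp, B, val_andM]; tauto)
    have h1 := t1 h0 ((B.imp (.box B)).imp (a.imp (.box a))) fun v => by
      simp only [MF.val_imp, B, A, val_andM]; tauto
    have h2 := t1 (rm2 h1) (a.imp ((MF.box (B.imp (.box B))).imp B)) fun v => by
      simp only [MF.val_imp, B, A, val_andM]; tauto
    exact t2 (rm h2) (g B) _ fun v => by simp only [MF.val_imp, B, A, val_andM]; tauto

theorem grz_embeds (p : ℕ → ℕ) (hp : Function.Injective p) (φ : LF) :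
    L1 φ ↔ Grz (tr p (FF (.var 0) (.var 1)) φ) := by
  refine ⟨sound grz_s4 p, faithful (fun x y => x = none ∨ x = y) ?_ p hp ?_⟩
  · rintro _ rfl θ w
    simp only [sat_imp, sat]
    intro h
    have hl : ∀ c, (w = none ∨ w = some c) → θ 0 (some c) := by
      intro c hc
      refine h _ hc ?_
      rintro u (hu | rfl) h1 u' h2
      · exact absurd hu (by simp)
      · rcases h2 with h2 | rfl
        · exact absurd h2 (by simp)
        · exact h1
    cases w with
    | some c => exact hl c (Or.inr rfl)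
    | none =>
      refine h none (Or.inl rfl) fun u _ h1 u' h2 => ?_
      cases u' with
      | some c => exact hl c (Or.inl rfl)
      | none =>
        rcases h2 with rfl | rfl <;> exact h1
  · intro _ _ P
    constructor
    · intro h c
      obtain ⟨u, h1, h2⟩ := h (some c) (Or.inl rfl)
      rcases h1 with h1 | rfl
      · exact absurd h1 (by simp)
      · exact h2 _ (Or.inr rfl)
    · intro h u _
      refine ⟨some (u.getD 0), by cases u <;> simp, ?_⟩
      rintro u' (h1 | rfl)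
      · exact absurd h1 (by simp)
      · exact h _

theorem s42_embeds (p : ℕ → ℕ) (hp : Function.Injective p) (φ : LF) :
    L1 φ ↔ S42 (tr p (FF (.var 0) (.var 1)) φ) := by
  refine ⟨sound ⟨fun a => Normal.subst ((MF.box (.var 0)).imp (.var 0)) (fun _ => a)
      (.ax _ (Or.inl rfl)),
    fun a => Normal.subst ((MF.box (.var 0)).imp (.box (.box (.var 0)))) (fun _ => a)
      (.ax _ (Or.inr (Or.inl rfl)))⟩ p,
    faithful (fun x y => x = none ∨ y ≠ none) ?_ p hp ?_⟩
  · rintro _ (rfl | rfl | rfl) θ w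
    · simp only [sat_imp, sat]
      exact fun h => h w (em _)
    · simp only [sat_imp, sat]
      intro h u h1 u' h2
      refine h u' ?_
      tauto
    · rw [sat_imp, sat_dia]
      rintro ⟨u, -, h⟩ u' -
      exact (sat_dia _ _ _ _).2 ⟨some 0, Or.inr (by simp), h _ (Or.inr (by simp))⟩
  · intro _ _ P
    constructor
    · intro h c
      obtain ⟨u, -, h2⟩ := h none (Or.inl rfl)
      exact h2 _ (Or.inr (by simp))
    · intro h u _
      refine ⟨some 0, Or.inr (by simp), ?_⟩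
      rintro u' (h1 | h1)
      · exact absurd h1 (by simp)
      · obtain ⟨c, rfl⟩ := Option.ne_none_iff_exists'.1 h1
        exact h c

end Pool.Agent.H40.Onto
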