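import Mathlib

set_option autoImplicit false

namespace Pool.Agent.H40.Onto

/-- Formulas of `L₁`: atoms `ε a b` over name variables `ℕ`, negation, disjunction. -/
inductive LF : Type
  | eps : ℕ → ℕ → LF
  | not : LF → LF
  | or : LF → LF → LF

def LF.imp (a b : LF) : LF := .or (.not a) b

def LF.and (a b : LF) : LF := .not (.or (.not a) (.not b))

/-- Classical truth value under an assignment to the atoms. -/
def LF.val (v : ℕ → ℕ → Prop) : LF → Prop
  | .eps a b => v a b
  | .not φ => ¬ φ.val v
  | .or φ ψ => φ.val v ∨ ψ.val v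

/-- The theorems of `L₁`. -/
inductive L1 : LF → Prop
  | taut (φ : LF) : (∀ v, φ.val v) → L1 φ
  | ax1 (a b : ℕ) : L1 ((LF.eps a b).imp (.eps a a))
  | ax2 (a b c : ℕ) : L1 (((LF.eps a b).and (.eps b c)).imp (.eps a c))
  | ax3 (a b c : ℕ) : L1 (((LF.eps a b).and (.eps b c)).imp (.eps b a))
  | mp (φ ψ : LF) : L1 φ → L1 (φ.imp ψ) → L1 ψ

/-- Modal formulas over variables `V`. -/
inductive MF (V : Type) : Type
  | var : V → MF V
  | not : MF V → MF V
  | or : MF V → MF V → MF V
  | box : MF V → MF V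

def MF.imp {V : Type} (a b : MF V) : MF V := .or (.not a) b

def MF.dia {V : Type} (a : MF V) : MF V := .not (.box (.not a))

/-- Uniform substitution. -/
def MF.subst {V V' : Type} (σ : V → MF V') : MF V → MF V'
  | .var x => σ x
  | .not a => .not (a.subst σ)
  | .or a b => .or (a.subst σ) (b.subst σ)
  | .box a => .box (a.subst σ)

/-- Classical truth value, variables and boxed formulas being the atoms. -/
def MF.val {V : Type} (v : MF V → Prop) : MF V → Prop
  | .var x => v (.var x)
  | .not a => ¬ a.val v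
  | .or a b => a.val v ∨ b.val v
  | .box a => v (.box a)

/-- The least normal modal logic containing the formulas in `Ax`. -/
inductive Normal (Ax : Set (MF ℕ)) : MF ℕ → Prop
  | taut (a : MF ℕ) : (∀ v, a.val v) → Normal Ax a
  | k : Normal Ax ((MF.box ((MF.var 0).imp (.var 1))).imp
      ((MF.box (.var 0)).imp (.box (.var 1))))
  | ax (a : MF ℕ) : a ∈ Ax → Normal Ax a
  | mp (a b : MF ℕ) : Normal Ax a → Normal Ax (a.imp b) → Normal Ax b
  | nec (a : MF ℕ) : Normal Ax a → Normal Ax (.box a)
  | subst (a : MF ℕ) (σ : ℕ → MF ℕ) : Normal Ax a → Normal Ax (a.subst σ)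

/-- Grzegorczyk's logic: `□(□(p → □p) → p) → p`. -/
def Grz : MF ℕ → Prop :=
  Normal {(MF.box ((MF.box ((MF.var 0).imp (.box (.var 0)))).imp (.var 0))).imp (.var 0)}

/-- `S4.2`: `□p → p`, `□p → □□p`, `◇□p → □◇p`. -/
def S42 : MF ℕ → Prop :=
  Normal {(MF.box (.var 0)).imp (.var 0), (MF.box (.var 0)).imp (.box (.box (.var 0))),
    (MF.dia (.box (.var 0))).imp (.box (MF.dia (.var 0)))}

/-- The translation `t_F` for a formula `F` in two variables and a map `p` from names to
propositional variables. -/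
def tr (p : ℕ → ℕ) (F : MF (Fin 2)) : LF → MF ℕ
  | .eps a b => F.subst ![.var (p a), .var (p b)]
  | .not φ => .not (tr p F φ)
  | .or φ ψ => .or (tr p F φ) (tr p F ψ)

end Pool.Agent.H40.Onto
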