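import Pool.Agent.H40.OrdProdDefs

set_option autoImplicit false

namespace Pool.Agent.H40.OrdProd

universe u

variable {W : Type u}

def Fine {C : Type*} (R : W → W → Prop) (c : W → C) (U : Set W) (f : W → ℕ) : Prop :=
  (f '' U).Finite ∧ (∀ x ∈ U, ∀ y ∈ U, f x = f y → c x = c y) ∧
    ∀ x ∈ U, ∀ x' ∈ U, ∀ y, f x = f x' → R x y → ∃ y', R x' y' ∧ f y' = f y

section

variable [Preorder W] (R : W → W → Prop) (ha : ∀ x y, R x y → x ≤ y)
  (hb : ∀ x x' y, x ≤ x' → R x' y → R x y) (hc : ∀ x y y', R x y → y ≤ y' → R x y')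
  {C : Type*} [Finite C] (c : W → C)

include ha hb hc

theorem step (U : Set W) (hU : IsUpperSet U) (f : W → ℕ) (hf : Fine R c U f)
    (hne : ∃ z, z ∉ U) : ∃ z, z ∉ U ∧ ∃ g, Fine R c (U ∪ Set.Ici z) g := by
  classical
  obtain ⟨e, he⟩ := Countable.exists_injective_nat C
  have := hf.1.to_subtype
  let μ : W → Set (f '' U) × Set C × Prop := fun x =>
    ({t | ∃ y ∈ U, R x y ∧ f y = t.1}, {d | ∃ y, y ∉ U ∧ x ≤ y ∧ c y = d}, ∃ y, y ∉ U ∧ R x y)
  have anti : ∀ x x', x ≤ x' → μ x' ≤ μ x := by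
    intro x x' h
    exact ⟨fun t ⟨y, h1, h2, h3⟩ => ⟨y, h1, hb _ _ _ h h2, h3⟩,
      fun d ⟨y, h1, h2, h3⟩ => ⟨y, h1, h.trans h2, h3⟩,
      fun ⟨y, h1, h2⟩ => ⟨y, h1, hb _ _ _ h h2⟩⟩
  obtain ⟨_, ⟨z, hz, rfl⟩, hmin⟩ := (wellFounded_lt (α := Set (f '' U) × Set C × Prop)).has_min
    (μ '' Uᶜ) (Set.Nonempty.image _ hne)
  have cst : ∀ x, x ∉ U → z ≤ x → μ x = μ z := fun x h1 h2 =>
    eq_of_le_of_not_lt (anti _ _ h2) (hmin _ ⟨x, h1, rfl⟩)
  refine ⟨z, hz, fun x => if x ∈ U then 2 * f x else 2 * e (c x) + 1, ?_, ?_, ?_⟩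
  · refine ((hf.1.image fun n => 2 * n).union
      (Set.finite_range fun d => 2 * e d + 1)).subset ?_
    rintro _ ⟨x, -, rfl⟩
    by_cases hx : x ∈ U
    · exact Or.inl ⟨f x, ⟨x, hx, rfl⟩, by simp [hx]⟩
    · exact Or.inr ⟨c x, by simp [hx]⟩
  · intro x _ y _ h
    by_cases hx : x ∈ U <;> by_cases hy : y ∈ U <;> simp only [hx, hy, if_true, if_false] at h
    · exact hf.2.1 x hx y hy (by omega)
    · omega
    · omega
    · exact he (by omega)
  · intro x h1 x' h2 y h hxy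
    by_cases hx : x ∈ U <;> by_cases hx' : x' ∈ U <;>
      simp only [hx, hx', if_true, if_false] at h
    · obtain ⟨y', h3, h4⟩ := hf.2.2 x hx x' hx' y (by omega) hxy
      exact ⟨y', h3, by simp only [hU (ha _ _ hxy) hx, hU (ha _ _ h3) hx', if_true, h4]⟩
    · omega
    · omega
    · have z1 : z ≤ x := h1.resolve_left hx
      have z2 : z ≤ x' := h2.resolve_left hx'
      have e1 : μ x = μ x' := (cst x hx z1).trans (cst x' hx' z2).symm
      by_cases hy : y ∈ U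
      · have : (⟨f y, y, hy, rfl⟩ : f '' U) ∈ (μ x).1 := ⟨y, hy, hxy, rfl⟩
        rw [e1] at this
        obtain ⟨y', h3, h4, h5⟩ := this
        exact ⟨y', h4, by simp only [hy, h3, if_true]; exact congrArg _ h5⟩
      · have k1 : (μ x).2.2 := ⟨y, hy, hxy⟩
        rw [e1] at k1
        obtain ⟨v, h3, h4⟩ := k1
        have k2 : c y ∈ (μ x).2.1 := ⟨y, hy, ha _ _ hxy, rfl⟩
        rw [cst x hx z1, ← cst v h3 (z2.trans (ha _ _ h4))] at k2
        obtain ⟨y', h5, h6, h7⟩ := k2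
        exact ⟨y', hc _ _ _ h4 h6, by simp only [hy, h5, if_false, h7]⟩

theorem fine_univ [WellQuasiOrderedLE W] : ∃ f, Fine R c Set.univ f := by
  by_contra hcon
  have st : ∀ U : {U : Set W // IsUpperSet U ∧ ∃ f, Fine R c U f},
      ∃ z, z ∉ U.1 ∧ ∃ g, Fine R c (U.1 ∪ Set.Ici z) g := by
    rintro ⟨U, hU, f, hf⟩
    refine step R ha hb hc c U hU f hf ?_
    by_contra h
    push Not at h
    rw [Set.eq_univ_of_forall h] at hf
    exact hcon ⟨f, hf⟩
  choose z hz hg using st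
  let s : ℕ → {U : Set W // IsUpperSet U ∧ ∃ f, Fine R c U f} := fun n =>
    Nat.rec ⟨∅, isUpperSet_empty, fun _ => 0, by simp, by simp, by simp⟩
      (fun _ U => ⟨U.1 ∪ Set.Ici (z U), U.2.1.union (isUpperSet_Ici _), hg U⟩) n
  have hm : Monotone fun n => (s n).1 :=
    monotone_nat_of_le_succ fun n => Set.subset_union_left
  obtain ⟨m, n, h1, h2⟩ := wellQuasiOrdered_le (α := W) fun n => z (s n)
  exact hz (s n) (hm (Nat.succ_le_of_lt h1) (Or.inr h2))

end

def Tun (R : W → W → Prop) : Prop :=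
  ∀ (C : Type u) [Finite C] (c : W → C), ∃ f, Fine R c Set.univ f

theorem locFin_of (R : W → W → Prop) (h : Tun R) : LocFin R := by
  intro G hG
  have := hG.to_subtype
  obtain ⟨f, h1, h2, h3⟩ := h (G → Prop) fun x g => x ∈ g.1
  refine (h1.finite_subsets.image fun T => f ⁻¹' T).subset fun X hX => ?_
  have sat : ∀ x y, f x = f y → x ∈ X → y ∈ X := by
    induction hX with
    | base X hX =>
      intro x y e hx
      exact (congrFun (h2 x trivial y trivial e) ⟨X, hX⟩).mp hx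
    | empty => exact fun _ _ _ h => h
    | compl X _ ih => exact fun x y e hx hy => hx (ih y x e.symm hy)
    | union X Y _ _ ih1 ih2 => exact fun x y e => Or.imp (ih1 x y e) (ih2 x y e)
    | dia X _ ih =>
      rintro x y e ⟨v, hv, hxv⟩
      obtain ⟨v', h4, h5⟩ := h3 x trivial y trivial v e hxv
      exact ⟨v', ih v v' h5.symm hv, h4⟩
  refine ⟨f '' X, Set.image_mono (Set.subset_univ X), ?_⟩
  ext x
  exact ⟨fun ⟨y, hy, e⟩ => sat y x e hy, fun hx => ⟨x, hx, rfl⟩⟩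

def bound : Fm → ℕ
  | .var n => n + 1
  | .bot => 0
  | .imp a b => max (bound a) (bound b)
  | .dia a => bound a

theorem eval_congr (R : W → W → Prop) (θ θ' : ℕ → Set W) (a : Fm)
    (h : ∀ n < bound a, θ n = θ' n) : eval R θ a = eval R θ' a := by
  induction a with
  | var n => exact h n (Nat.lt_succ_self n)
  | bot => rfl
  | imp a b iha ihb =>
    simp only [eval]
    rw [iha fun n hn => h n (lt_max_of_lt_left hn), ihb fun n hn => h n (lt_max_of_lt_right hn)]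
  | dia a ih => simp only [eval]; rw [ih h]

theorem fmp_of (R : W → W → Prop) (h : Tun R) : FMP R := by
  intro φ hφ
  obtain ⟨θ, hθ⟩ := not_forall.1 hφ
  obtain ⟨f, h1, h2, h3⟩ := h (ULift (Fin (bound φ) → Prop)) fun x => ⟨fun i => x ∈ θ i⟩
  let g : W → f '' Set.univ := fun x => ⟨f x, x, trivial, rfl⟩
  let S : f '' Set.univ → f '' Set.univ → Prop := fun s t => ∃ x y, g x = s ∧ g y = t ∧ R x y
  have tr : ∀ (θ' : ℕ → Set (f '' Set.univ)) (ψ : Fm),
      eval R (fun n => g ⁻¹' θ' n) ψ = g ⁻¹' eval S θ' ψ := by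
    intro θ' ψ
    induction ψ with
    | var n => rfl
    | bot => rfl
    | imp a b iha ihb => simp only [eval, iha, ihb, Set.preimage_union, Set.preimage_compl]
    | dia a ih =>
      simp only [eval, ih]
      ext x
      constructor
      · rintro ⟨v, hv, hxv⟩
        exact ⟨g v, hv, x, v, rfl, rfl, hxv⟩
      · rintro ⟨t, ht, x', y, e, rfl, hxy⟩
        obtain ⟨y', h4, h5⟩ := h3 x' trivial x trivial y (congrArg Subtype.val e) hxy
        refine ⟨y', ?_, h4⟩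
        have : g y' = g y := Subtype.ext h5
        rwa [Set.mem_preimage, this]
  refine ⟨f '' Set.univ, h1.to_subtype, S, fun ψ hψ θ' => ?_, fun hS => hθ ?_⟩
  · refine Set.eq_univ_of_forall ?_
    rintro ⟨_, x, -, rfl⟩
    have : x ∈ g ⁻¹' eval S θ' ψ := by rw [← tr, hψ]; trivial
    exact this
  · rw [eval_congr R θ (fun n => g ⁻¹' (g '' θ n)) φ, tr, hS, Set.preimage_univ]
    intro n hn
    ext x
    refine ⟨fun hx => ⟨x, hx, rfl⟩, fun ⟨y, hy, e⟩ => ?_⟩
    exact (congrFun (congrArg ULift.down (h2 y trivial x trivial (congrArg Subtype.val e)))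
      ⟨n, hn⟩).mp hy

theorem tun_le {k : ℕ} (α : Fin k → Ordinal.{u}) : Tun (ProdLe α) := fun _ _ c =>
  fine_univ (ProdLe α) (fun _ _ h => h) (fun _ _ _ h1 h2 i => (h1 i).trans (h2 i))
    (fun _ _ _ h1 h2 i => (h1 i).trans (h2 i)) c

theorem tun_lt {k : ℕ} (α : Fin k → Ordinal.{u}) : Tun (ProdLt α) := fun _ _ c =>
  fine_univ (ProdLt α) (fun _ _ h i => (h i).le) (fun _ _ _ h1 h2 i => (h1 i).trans_lt (h2 i))
    (fun _ _ _ h1 h2 i => (h1 i).trans_le (h2 i)) c

end Pool.Agent.H40.OrdProd
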