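import Mathlib

set_option autoImplicit false

namespace Pool.Agent.H40.OrdProd

universe u

/-- The operator `◇X = {w | ∃ v ∈ X, w R v}` of the modal algebra of a frame. -/
def dia {W : Type u} (R : W → W → Prop) (X : Set W) : Set W := {w | ∃ v ∈ X, R w v}

/-- The subalgebra of `Alg(W, R)` generated by `G`. -/
inductive Gen {W : Type u} (R : W → W → Prop) (G : Set (Set W)) : Set W → Prop
  | base (X : Set W) : X ∈ G → Gen R G X
  | empty : Gen R G ∅
  | compl (X : Set W) : Gen R G X → Gen R G Xᶜ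
  | union (X Y : Set W) : Gen R G X → Gen R G Y → Gen R G (X ∪ Y)
  | dia (X : Set W) : Gen R G X → Gen R G (dia R X)

/-- `Alg(W, R)` is locally finite. -/
def LocFin {W : Type u} (R : W → W → Prop) : Prop :=
  ∀ G : Set (Set W), G.Finite → {X | Gen R G X}.Finite

/-- Unimodal formulas. -/
inductive Fm : Type
  | var : ℕ → Fm
  | bot : Fm
  | imp : Fm → Fm → Fm
  | dia : Fm → Fm

/-- The truth set of a formula under a valuation. -/
def eval {W : Type u} (R : W → W → Prop) (θ : ℕ → Set W) : Fm → Set W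
  | .var n => θ n
  | .bot => ∅
  | .imp a b => (eval R θ a)ᶜ ∪ eval R θ b
  | .dia a => dia R (eval R θ a)

/-- Validity in a frame. -/
def Valid {W : Type u} (R : W → W → Prop) (φ : Fm) : Prop := ∀ θ, eval R θ φ = Set.univ

/-- `Log(W, R)` has the finite model property. -/
def FMP {W : Type u} (R : W → W → Prop) : Prop :=
  ∀ φ, ¬ Valid R φ → ∃ (V : Type) (_ : Finite V) (S : V → V → Prop),
    (∀ ψ, Valid R ψ → Valid S ψ) ∧ ¬ Valid S φ

/-- The relation of the direct product of the frames `(α i, ≤)`. -/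
def ProdLe {k : ℕ} (α : Fin k → Ordinal.{u}) (x y : ∀ i, Set.Iio (α i)) : Prop :=
  ∀ i, x i ≤ y i

/-- The relation of the direct product of the frames `(α i, <)`. -/
def ProdLt {k : ℕ} (α : Fin k → Ordinal.{u}) (x y : ∀ i, Set.Iio (α i)) : Prop :=
  ∀ i, x i < y i

end Pool.Agent.H40.OrdProd
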