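import Pool.Agent.H40.BsigDefs

set_option autoImplicit false

namespace Pool.Agent.H40.Bsig

/-- Formulas of first-order arithmetic: no set variables. -/
inductive FO : Fm → Prop
  | eq (s t : Tm) : FO (.eq s t)
  | lt (s t : Tm) : FO (.lt s t)
  | neg {φ : Fm} : FO φ → FO φ.neg
  | and {φ ψ : Fm} : FO φ → FO ψ → FO (φ.and ψ)
  | ball (t : Tm) {φ : Fm} : FO φ → FO (.ball t φ)
  | all {φ : Fm} : FO φ → FO φ.all
  | ex {φ : Fm} : FO φ → FO φ.ex

variable (M : Mod)

/-- Induction for first-order `Σ_n` formulas with number parameters. -/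
def IndFO (n : ℕ) : Prop :=
  ∀ φ, FO φ → Lv n true φ → ∀ v V, Sat M φ (cons M.zero v) V →
    (∀ x, Sat M φ (cons x v) V → Sat M φ (cons (M.add x M.one) v) V) → ∀ x, Sat M φ (cons x v) V

/-- `c = (l, (a, b))` codes the first `l` values of `h` by Gödel's β function:
`h i` is the remainder of `a` modulo `b (i + 1) + 1`. -/
def SeqCode (c l : M.N) (h : M.N → M.N) : Prop :=
  ∃ a b, c = pair M l (pair M a b) ∧ ∀ i, M.lt i l →
    M.lt (h i) (M.add (M.mul b (M.add i M.one)) M.one) ∧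
      ∃ q, M.add (M.mul (M.add (M.mul b (M.add i M.one)) M.one) q) (h i) = a

/-- `T` is a set of codes of `M`-finite sequences that contains, with a code of a sequence,
every code of each of its initial segments. -/
def IsTree (T : Set M.N) : Prop :=
  (∀ c ∈ T, ∃ l h, SeqCode M c l h) ∧
    ∀ c ∈ T, ∀ l h c' l', SeqCode M c l h → ¬ M.lt l l' → SeqCode M c' l' h → c' ∈ T

/-- Every initial segment of `h` is coded in `T`. -/
def IsPath (T : Set M.N) (h : M.N → M.N) : Prop := ∀ s, ∃ c ∈ T, SeqCode M c s h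

/-- `M[g]`: the sets `Δ_1`-definable from the graph of `g`, sets in `S` and numbers. -/
def Adj (g : M.N → M.N) : Mod :=
  { M with S := {X | ∃ φ ψ v V, Lv 1 true φ ∧ Lv 1 false ψ ∧
      (∀ i, V i ∈ M.S ∨ V i = {p | ∃ s, p = pair M s (g s)}) ∧
      (∀ x, x ∈ X ↔ Sat M φ (cons x v) V) ∧ ∀ x, x ∈ X ↔ Sat M ψ (cons x v) V} }

end Pool.Agent.H40.Bsig
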