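import Pool.Agent.H40.Bsig4
import Pool.Agent.H40.PathDefs

set_option autoImplicit false

namespace Pool.Agent.H40.Bsig

def TD (f : (ℕ → ℕ) → ℕ) : Prop := ∀ ρ : ℕ → ℕ, ∃ t : Tm, ∀ v, t.ev std v = f fun i => v (ρ i)

theorem TD.var (i : ℕ) : TD fun v => v i := fun ρ => ⟨.var (ρ i), fun _ => rfl⟩
theorem TD.zero : TD fun _ => 0 := fun _ => ⟨.zero, fun _ => rfl⟩
theorem TD.one : TD fun _ => 1 := fun _ => ⟨.one, fun _ => rfl⟩
theorem TD.add {f g : (ℕ → ℕ) → ℕ} (a : TD f) (b : TD g) : TD fun v => f v + g v := fun ρ =>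
  (a ρ).elim fun s a => (b ρ).elim fun t b => ⟨.add s t, fun v => congrArg₂ (· + ·) (a v) (b v)⟩
theorem TD.mul {f g : (ℕ → ℕ) → ℕ} (a : TD f) (b : TD g) : TD fun v => f v * g v := fun ρ =>
  (a ρ).elim fun s a => (b ρ).elim fun t b => ⟨.mul s t, fun v => congrArg₂ (· * ·) (a v) (b v)⟩

def B0 (P : (ℕ → ℕ) → Prop) : Prop :=
  ∀ ρ : ℕ → ℕ, ∃ θ, Bdd θ ∧ FO θ ∧ ∀ v V, Sat std θ v V ↔ P fun i => v (ρ i)

section

variable {P Q : (ℕ → ℕ) → Prop} {f g : (ℕ → ℕ) → ℕ} {R : ℕ → (ℕ → ℕ) → Prop}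

theorem B0.congr (h : B0 P) (e : ∀ v, P v ↔ Q v) : B0 Q :=
  (show P = Q from funext fun v => propext (e v)) ▸ h
theorem B0.eq (a : TD f) (b : TD g) : B0 fun v => f v = g v := fun ρ =>
  (a ρ).elim fun s a => (b ρ).elim fun t b =>
    ⟨.eq s t, .eq s t, .eq s t, fun v _ => by rw [Sat, a, b]⟩
theorem B0.lt (a : TD f) (b : TD g) : B0 fun v => f v < g v := fun ρ =>
  (a ρ).elim fun s a => (b ρ).elim fun t b =>
    ⟨.lt s t, .lt s t, .lt s t, fun v _ => by rw [Sat, a, b]⟩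
theorem B0.not (a : B0 P) : B0 fun v => ¬ P v := fun ρ => (a ρ).elim fun θ a =>
  ⟨θ.neg, a.1.neg, a.2.1.neg, fun v V => not_congr (a.2.2 v V)⟩
theorem B0.and (a : B0 P) (b : B0 Q) : B0 fun v => P v ∧ Q v := fun ρ => (a ρ).elim fun θ a =>
  (b ρ).elim fun θ' b => ⟨θ.and θ', a.1.and b.1, a.2.1.and b.2.1,
    fun v V => and_congr (a.2.2 v V) (b.2.2 v V)⟩
theorem B0.or (a : B0 P) (b : B0 Q) : B0 fun v => P v ∨ Q v :=
  (a.not.and b.not).not.congr fun _ => by tauto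
theorem B0.ball (a : TD f) (b : B0 fun v => R (v 0) fun i => v (i + 1)) :
    B0 fun v => ∀ x < f v, R x v := fun ρ => (a ρ).elim fun t a =>
  (b (cons 0 fun i => ρ i + 1)).elim fun θ b => ⟨.ball t θ, b.1.ball t, b.2.1.ball t, fun v V => by
    rw [Sat, a]
    exact forall₂_congr fun x _ => b.2.2 _ V⟩
theorem B0.bex (a : TD f) (b : B0 fun v => R (v 0) fun i => v (i + 1)) :
    B0 fun v => ∃ x < f v, R x v :=
  (B0.ball (R := fun x v => ¬ R x v) a b.not).not.congr fun _ => by simp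
theorem B0.ren (a : B0 P) (π : ℕ → ℕ) : B0 fun v => P fun i => v (π i) := fun ρ => a fun i => ρ (π i)

def S1 (P : (ℕ → ℕ) → Prop) : Prop := ∃ Q, B0 Q ∧ ∀ v, P v ↔ ∃ w, Q (cons w v)

theorem S1.congr (h : S1 P) (e : ∀ v, P v ↔ Q v) : S1 Q :=
  (show P = Q from funext fun v => propext (e v)) ▸ h
theorem B0.s1 (a : B0 P) : S1 P := ⟨_, a.ren (· + 1), fun _ => ⟨fun h => ⟨0, h⟩, fun h => h.elim fun _ => id⟩⟩
theorem S1.ren (a : S1 P) (π : ℕ → ℕ) : S1 fun v => P fun i => v (π i) :=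
  a.elim fun Q a => ⟨_, a.1.ren (cons 0 fun i => π i + 1), fun v => (a.2 _).trans
    (exists_congr fun w => by rw [cons_comp])⟩

theorem B0.sub (a : B0 P) (π : ℕ → ℕ) {s : (ℕ → ℕ) → ℕ → ℕ} (e : ∀ v i, s v i = v (π i)) :
    B0 fun v => P (s v) := (a.ren π).congr fun v => by rw [funext (e v)]

theorem S1.ex (b : S1 fun v => R (v 0) fun i => v (i + 1)) : S1 fun v => ∃ x, R x v := by
  obtain ⟨Q, a, b⟩ := b
  refine ⟨fun v => ∃ x < v 0, ∃ y < v 0, Q (cons y (cons x fun i => v (i + 1))),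
    .bex (.var 0) (.bex (.var 1) (a.sub (cons 0 (cons 1 fun i => i + 3)) ?_)),
    fun v => ⟨fun ⟨x, h⟩ => ?_, fun ⟨w, x, _, y, _, h⟩ => ⟨x, (b (cons x v)).2 ⟨y, h⟩⟩⟩⟩
  · rintro v (_ | _ | i) <;> rfl
  obtain ⟨y, h⟩ := (b (cons x v)).1 h
  exact ⟨x + y + 1, x, by show x < x + y + 1; omega, y, by show y < x + y + 1; omega, h⟩

theorem S1.ball (a : TD f) (b : S1 fun v => R (v 0) fun i => v (i + 1)) :
    S1 fun v => ∀ x < f v, R x v := by
  obtain ⟨Q, b, c⟩ := b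
  refine ⟨fun v => ∀ x < f fun i => v (i + 1), ∃ y < v 0, Q (cons y (cons x fun i => v (i + 1))),
    .ball (fun ρ => a fun i => ρ (i + 1)) (.bex (.var 1) (b.sub (cons 0 (cons 1 fun i => i + 3)) ?_)),
    fun v => ⟨fun h => ?_, fun ⟨w, h⟩ x hx => (c (cons x v)).2 ((h x hx).imp fun _ => And.right)⟩⟩
  · rintro v (_ | _ | i) <;> rfl
  choose! y hy using fun x hx => (c (cons x v)).1 (h x hx)
  exact ⟨(Finset.range (f v)).sup y + 1, fun x hx => ⟨y x, Nat.lt_succ_of_le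
    (Finset.le_sup (f := y) (Finset.mem_range.2 hx)), hy x hx⟩⟩

theorem S1.or (a : S1 P) (b : S1 Q) : S1 fun v => P v ∨ Q v :=
  a.elim fun _ a => b.elim fun _ b => ⟨_, a.1.or b.1, fun v => (or_congr (a.2 v) (b.2 v)).trans exists_or.symm⟩

theorem S1.and (a : S1 P) (b : S1 Q) : S1 fun v => P v ∧ Q v := by
  obtain ⟨P', a, a'⟩ := a
  obtain ⟨Q', b, b'⟩ := b
  refine (S1.ex (S1.ex (B0.s1 (.and (a.sub (cons 0 fun i => i + 2) ?_)
    (b.sub (cons 1 fun i => i + 2) ?_)))) (R := fun y v => ∃ x, P' (cons x v) ∧ Q' (cons y v))).congr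
      fun v => by simp [a', b']
  all_goals rintro v (_ | i) <;> rfl

end

def Rep (f : ℕ → ℕ) : Prop := ∀ i j, S1 fun v => v i = f (v j)

theorem b0_pair {f g h : (ℕ → ℕ) → ℕ} (a : TD f) (b : TD g) (c : TD h) :
    B0 fun v => f v = Nat.pair (g v) (h v) :=
  (((B0.lt b c).and (.eq a ((c.mul c).add b))).or
    ((B0.lt b c).not.and (.eq a (((b.mul b).add b).add c)))).congr fun v => by
      rw [Nat.pair]
      split_ifs with e <;> simp [e]

theorem b0_mod {f g h : (ℕ → ℕ) → ℕ} (a : TD f) (b : TD g) (c : TD h) :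
    B0 fun v => f v = g v % (h v + 1) :=
  ((B0.lt a (c.add .one)).and (.bex (b.add .one) (R := fun q v => (h v + 1) * q + f v = g v)
    (.eq (.add (.mul (.add (fun ρ => c fun i => ρ (i + 1)) .one) (.var 0)) fun ρ => a fun i => ρ (i + 1))
      fun ρ => b fun i => ρ (i + 1)))).congr fun v => ⟨fun ⟨a, q, _, e⟩ => by
        rw [← e, Nat.mul_add_mod, Nat.mod_eq_of_lt a], fun e => ⟨e ▸ Nat.mod_lt _ (Nat.succ_pos _),
          _, Nat.lt_succ_of_le (Nat.div_le_self _ (h v + 1)), e ▸ Nat.div_add_mod _ _⟩⟩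

theorem ex_beta (l : ℕ) (h : ℕ → ℕ) : ∃ a b, ∀ i < l, h i = a % (b * (i + 1) + 1) :=
  ⟨_, _, fun i hi => by
    have := Nat.beta_unbeta_coe ((List.range l).map h) ⟨i, by simpa using hi⟩
    rw [Nat.beta, mul_comm] at this
    simpa using this.symm⟩

theorem rep_prim {f : ℕ → ℕ} (h : Nat.Primrec f) : Rep f := by
  induction h with
  | zero => exact fun i j => (B0.eq (.var i) .zero).s1
  | succ => exact fun i j => (B0.eq (.var i) (.add (.var j) .one)).s1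
  | left => exact fun i j => (S1.ex (b0_pair (.var (j + 1)) (.var (i + 1)) (.var 0)).s1
      (R := fun b v => v j = Nat.pair (v i) b)).congr fun v =>
        ⟨fun ⟨b, e⟩ => by simp [e], fun e => ⟨_, by rw [e, Nat.pair_unpair]⟩⟩
  | right => exact fun i j => (S1.ex (b0_pair (.var (j + 1)) (.var 0) (.var (i + 1))).s1
      (R := fun b v => v j = Nat.pair b (v i))).congr fun v =>
        ⟨fun ⟨b, e⟩ => by simp [e], fun e => ⟨_, by rw [e, Nat.pair_unpair]⟩⟩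
  | @pair f g _ _ a b => exact fun i j => (S1.ex (S1.ex ((a 1 (j + 2)).and ((b 0 (j + 2)).and
      (b0_pair (.var (i + 2)) (.var 1) (.var 0)).s1)))
      (R := fun x v => ∃ y, x = f (v j) ∧ y = g (v j) ∧ v i = Nat.pair x y)).congr fun v => by simp
  | @comp f g _ _ a b => exact fun i j => (S1.ex ((b 0 (j + 1)).and (a (i + 1) 0))
      (R := fun x v => x = g (v j) ∧ v i = f x)).congr fun v => by simp
  | @prec f g _ _ a b =>
    intro i j
    refine (S1.ex (.ex (.ex (.ex (.and (b0_pair (.var (j + 4)) (.var 3) (.var 2)).s1 (.and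
      (b0_mod (.var (i + 4)) (.var 1) (.mul (.var 0) (.add (.var 2) .one))).s1 (.and
      (.ex (.and (a 0 4) (b0_mod (.var 0) (.var 2) (.mul (.var 1) (.add .zero .one))).s1))
      (.ball (.var 2) (.ex (.ex (.ex (.ex (.and
        (b0_mod (.var 3) (.var 6) (.mul (.var 5) (.add (.var 4) .one))).s1 (.and
        (b0_mod (.var 2) (.var 6) (.mul (.var 5) (.add (.add (.var 4) .one) .one))).s1 (.and
        (b0_pair (.var 1) (.var 4) (.var 3)).s1 (.and (b0_pair (.var 0) (.var 8) (.var 1)).s1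
        (b 2 0))))))))))))))))
      (R := fun z v => ∃ n a b, v j = Nat.pair z n ∧ v i = a % (b * (n + 1) + 1) ∧
        (∃ y, y = f z ∧ y = a % (b * (0 + 1) + 1)) ∧ ∀ k < n, ∃ x y p q, x = a % (b * (k + 1) + 1) ∧
          y = a % (b * (k + 1 + 1) + 1) ∧ p = Nat.pair k x ∧ q = Nat.pair z p ∧ y = g q)).congr
      fun v => ⟨fun ⟨z, n, a, b, e1, e2, ⟨_, rfl, e3⟩, e4⟩ => ?_, fun e => ?_⟩
    · simp only [e1, e2, Nat.unpaired, Nat.unpair_pair]
      clear e1 e2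
      induction n with
      | zero => exact e3.symm
      | succ n ih =>
        obtain ⟨_, _, _, _, rfl, rfl, rfl, rfl, e⟩ := e4 n n.lt_succ_self
        rw [e, ih fun k hk => e4 k (hk.trans n.lt_succ_self)]
    · obtain ⟨a, b, h⟩ := ex_beta ((v j).unpair.2 + 1) fun n => n.rec (f (v j).unpair.1)
        fun y IH => g (Nat.pair (v j).unpair.1 (Nat.pair y IH))
      exact ⟨_, _, a, b, (Nat.pair_unpair _).symm, e.trans (h _ (Nat.lt_succ_self _)),
        ⟨_, rfl, h 0 (Nat.succ_pos _)⟩, fun k hk => ⟨_, _, _, _, rfl, rfl, rfl, rfl, by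
          rw [← h k (by omega), ← h (k + 1) (by omega)]⟩⟩

theorem s1_prim {P : ℕ → Prop} (h : PrimrecPred P) (j : ℕ) : S1 fun v => P (v j) := by
  classical
  exact (S1.ex ((B0.eq (.var 0) .zero).s1.and (rep_prim (Primrec.nat_iff.1
    (Primrec.ite h (.const 0) (.const 1))) 0 (j + 1)))
    (R := fun x v => x = 0 ∧ x = if P (v j) then 0 else 1)).congr fun v => by simp

end Pool.Agent.H40.Bsig
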