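import Pool.Agent.H40.Path1

set_option autoImplicit false

namespace Pool.Agent.H40.Bsig

open Filter Nat.Partrec Nat.Partrec.Code

section PR

variable {α : Type} [Primcodable α] {P : α → ℕ → Prop} {f g : α → ℕ}

theorem pr_ball (hf : Primrec f) (hP : PrimrecRel P) : PrimrecPred fun a => ∀ x < f a, P a x :=
  ((PrimrecRel.forall_mem_list (R := fun x a => P a x) (hP.comp₂ Primrec₂.right Primrec₂.left)).comp
    (Primrec.list_range.comp hf) .id).of_eq (by simp)

theorem pr_bex (hf : Primrec f) (hP : PrimrecRel P) : PrimrecPred fun a => ∃ x < f a, P a x :=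
  ((PrimrecRel.exists_mem_list (R := fun x a => P a x) (hP.comp₂ Primrec₂.right Primrec₂.left)).comp
    (Primrec.list_range.comp hf) .id).of_eq (by simp)

theorem pr_pair (hf : Primrec f) (hg : Primrec g) : Primrec fun a => Nat.pair (f a) (g a) :=
  Primrec₂.natPair.comp hf hg
theorem pr_l (hf : Primrec f) : Primrec fun a => (f a).unpair.1 :=
  Primrec.fst.comp (Primrec.unpair.comp hf)
theorem pr_r (hf : Primrec f) : Primrec fun a => (f a).unpair.2 :=
  Primrec.snd.comp (Primrec.unpair.comp hf)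
theorem pr_pow (hf : Primrec f) : Primrec fun a => 2 ^ f a :=
  (Primrec₂.unpaired'.1 Nat.Primrec.pow).comp (.const 2) hf
theorem pr_dec (hf : Primrec f) (i : ℕ) : Primrec fun a => dec (f a) i := by
  induction i generalizing f with
  | zero => exact pr_l hf
  | succ i ih => exact ih (pr_r hf)
theorem pr_const (p : Prop) : PrimrecPred fun _ : α => p := by
  classical
  exact Primrec.primrecPred (.const _)
theorem pr_iff {p q : α → Prop} (a : PrimrecPred p) (b : PrimrecPred q) :
    PrimrecPred fun x => (p x ↔ q x) := ((a.and b).or (a.not.and b.not)).of_eq fun _ => by tauto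
theorem pr_all {ι : Type} [Finite ι] {p : ι → α → Prop} (h : ∀ i, PrimrecPred (p i)) :
    PrimrecPred fun a => ∀ i, p i a := by
  have := Fintype.ofFinite ι
  have key : ∀ s : Finset ι, PrimrecPred fun a => ∀ i ∈ s, p i a := fun s => by
    classical
    induction s using Finset.induction_on with
    | empty => exact (pr_const True).of_eq (by simp)
    | insert i s _ ih => exact ((h i).and ih).of_eq (by simp)
  exact (key Finset.univ).of_eq (by simp)

end PR

def ev (z i : ℕ) : Option ℕ := evaln z (Denumerable.ofNat Code i.unpair.1) i.unpair.2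

theorem pr_ev {α : Type} [Primcodable α] {f g : α → ℕ} (hf : Primrec f) (hg : Primrec g) :
    Primrec fun a => ev (f a) (g a) :=
  primrec_evaln.comp (.pair (.pair hf ((Primrec.ofNat _).comp (pr_l hg))) (pr_r hg))

def hl (z i : ℕ) : Prop := (ev z i).isSome = true

theorem pr_hl {α : Type} [Primcodable α] {f g : α → ℕ} (hf : Primrec f) (hg : Primrec g) :
    PrimrecPred fun a => hl (f a) (g a) :=
  Primrec.eq.comp (Primrec.option_isSome.comp (pr_ev hf hg)) (.const true)

theorem hl.mono {z z' i : ℕ} (h : hl z i) (e : z ≤ z') : hl z' i ∧ ev z' i = ev z i := by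
  obtain ⟨y, hy⟩ := Option.isSome_iff_exists.1 h
  have : ev z' i = some y := evaln_mono e hy
  exact ⟨by rw [hl, this]; rfl, this.trans hy.symm⟩

def Fz (z b : ℕ) : ℕ := (b + 1) * (b + 1) + ∑ i ∈ Finset.range (b + 1), (ev z i).getD 0

noncomputable def tm (i : ℕ) : ℕ := sInf {z | hl z i}

noncomputable def FF (b : ℕ) : ℕ :=
  (b + 1) * (b + 1) + ∑ i ∈ Finset.range (b + 1), (ev (tm i) i).getD 0

theorem pr_Fz : Primrec₂ Fz := by
  have : Primrec₂ fun z b => ∑ i ∈ Finset.range b, (ev z i).getD 0 :=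
    (Primrec.nat_rec (.const 0) (Primrec.nat_add.comp (Primrec.snd.comp .snd)
      (Primrec.option_getD.comp (pr_ev .fst (Primrec.fst.comp .snd)) (.const 0))).to₂).of_eq
      fun z b => by induction b with
        | zero => rfl
        | succ b ih => rw [Finset.sum_range_succ, ← ih]
  exact Primrec.nat_add.comp (Primrec.nat_mul.comp (Primrec.succ.comp .snd) (Primrec.succ.comp .snd))
    (this.comp .fst (Primrec.succ.comp .snd))

theorem pr_it {α : Type} [Primcodable α] {f g h : α → ℕ} (hf : Primrec f) (hg : Primrec g)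
    (hh : Primrec h) : Primrec fun a => (Fz (f a))^[g a] (h a) :=
  Primrec.nat_iterate hg hh (pr_Fz.comp (hf.comp .fst) .snd).to₂

theorem FF_mono : Monotone FF := fun a b e => Nat.add_le_add (by nlinarith)
  (Finset.sum_le_sum_of_subset (Finset.range_mono (by omega)))

theorem Fz_le (z b : ℕ) : Fz z b ≤ FF b := Nat.add_le_add_left (Finset.sum_le_sum fun i _ => by
  by_cases h : hl z i
  · have e : hl (tm i) i := Nat.sInf_mem (s := {z | hl z i}) ⟨z, h⟩
    rw [(e.mono (Nat.sInf_le h)).2]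
  · rw [Option.not_isSome_iff_eq_none.1 h]
    exact Nat.zero_le _) _

theorem dom {Q : ℕ → ℕ → Prop} (h : PrimrecRel Q) : ∃ c, ∀ x, ((∃ z, hl z (Nat.pair c x)) ↔ ∃ w, Q x w) ∧
    ∀ b, Nat.pair c x ≤ b → (∃ w, Q x w) → ∃ w ≤ FF b, Q x w := by
  classical
  obtain ⟨c, hc⟩ := exists_code.1 (Partrec.nat_iff.1 (Partrec.rfind
    (p := fun x w => (Part.some (decide (Q x w)))) h.decide.to_comp.partrec₂))
  have key : ∀ x y, (∃ z, ev z (Nat.pair (Encodable.encode c) x) = some y) ↔
      Q x y ∧ ∀ {m}, m < y → ¬ Q x m := fun x y => by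
    simp only [ev, Nat.unpair_pair, Denumerable.ofNat_encode]
    refine evaln_complete.symm.trans ?_
    simp [hc, Nat.mem_rfind]
  have k2 : ∀ x, (∃ w, Q x w) → ∃ z, hl z (Nat.pair (Encodable.encode c) x) := fun x e =>
    ((key x _).2 ⟨Nat.find_spec e, Nat.find_min e⟩).imp fun z e => by rw [hl, e]; rfl
  refine ⟨Encodable.encode c, fun x => ⟨⟨fun ⟨z, e⟩ => (Option.isSome_iff_exists.1 e).imp
    fun y e => ((key x y).1 ⟨z, e⟩).1, k2 x⟩, fun b hb e => ?_⟩⟩
  obtain ⟨y, hy⟩ := Option.isSome_iff_exists.1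
    (show hl (tm _) (Nat.pair (Encodable.encode c) x) from Nat.sInf_mem (k2 x e))
  refine ⟨y, le_add_left ?_, ((key x y).1 ⟨_, hy⟩).1⟩
  have := Finset.single_le_sum (f := fun i => (ev (tm i) i).getD 0) (fun _ _ => Nat.zero_le _)
    (Finset.mem_range.2 (Nat.lt_succ_of_le hb))
  rwa [hy] at this

theorem lt_FF (b : ℕ) : b < FF b := lt_of_lt_of_le (by nlinarith) (Nat.le_add_right _ _)

theorem pair_FF {a b c : ℕ} (h : a ≤ c) (h' : b ≤ c) : Nat.pair a b ≤ FF c :=
  (Nat.pair_lt_max_add_one_sq a b).le.trans ((Nat.pow_le_pow_left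
    (Nat.succ_le_succ (max_le h h')) 2).trans ((sq _).trans_le (Nat.le_add_right _ _)))

noncomputable def c0 : ℕ := (dom (Q := fun x w => hl w x) (pr_hl .snd .fst)).choose

noncomputable def TT (b : ℕ) : ℕ := FF (FF (b + c0))

theorem hl_TT {b z i : ℕ} (h : TT b ≤ z) (hi : i ≤ b) : hl z i ↔ ∃ z, hl z i :=
  ⟨fun e => ⟨z, e⟩, fun e => (((dom (Q := fun x w => hl w x) (pr_hl .snd .fst)).choose_spec i).2 _
    (pair_FF (Nat.le_add_left _ _) (hi.trans (Nat.le_add_right _ _))) e).elim
      fun _ e => (e.2.mono (e.1.trans h)).1⟩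

theorem Fz_eq {b z : ℕ} (h : TT b ≤ z) : Fz z b = FF b :=
  congrArg (_ + ·) (Finset.sum_congr rfl fun i hi => by
    by_cases e : hl z i
    · have e' : hl (tm i) i := Nat.sInf_mem (s := {z | hl z i}) ⟨z, e⟩
      rw [(e'.mono (Nat.sInf_le e)).2]
    · rw [Option.not_isSome_iff_eq_none.1 e, Option.not_isSome_iff_eq_none.1 fun e' =>
        e ((hl_TT h (Nat.lt_succ_iff.1 (Finset.mem_range.1 hi))).2 ⟨_, e'⟩)])

theorem FF_it (a : ℕ) : StrictMono fun j => FF^[j] a :=
  strictMono_nat_of_lt_succ fun j => by rw [Function.iterate_succ_apply']; exact lt_FF _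

theorem TT_mono : Monotone TT := fun _ _ e => FF_mono (FF_mono (Nat.add_le_add_right e _))

theorem itz_le (z a j : ℕ) : (Fz z)^[j] a ≤ FF^[j] a := by
  induction j with
  | zero => rfl
  | succ j ih =>
    rw [Function.iterate_succ_apply', Function.iterate_succ_apply']
    exact (Fz_le _ _).trans (FF_mono ih)

theorem itz_eq {z a j : ℕ} (e : TT (FF^[j] a) ≤ z) : (Fz z)^[j] a = FF^[j] a := by
  induction j with
  | zero => rfl
  | succ j ih =>
    have e' := (TT_mono ((FF_it a).monotone j.le_succ)).trans e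
    rw [Function.iterate_succ_apply', Function.iterate_succ_apply', ih e', Fz_eq e']

noncomputable def ct (P : ℕ → Prop) (n : ℕ) : ℕ := @Nat.count P (fun _ => Classical.propDecidable _) n

open Classical in
theorem cnt_mod (P : ℕ → Prop) (a k : ℕ) : ct (fun n => P (n % a)) (a * k) = ct P a * k := by
  unfold ct
  induction k with
  | zero => simp
  | succ k ih =>
    rw [Nat.mul_succ, Nat.count_add, ih, Nat.mul_succ, Nat.count_eq_card_filter_range _ a,
      Nat.count_eq_card_filter_range _ a, Finset.filter_congr (p := fun n => P ((a * k + n) % a))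
        fun n hn => by rw [Nat.mul_add_mod, Nat.mod_eq_of_lt (Finset.mem_range.1 hn)]]

theorem cnt_or {r p q : ℕ → Prop} (h : ∀ x, r x → p x ∨ q x) (n : ℕ) : ct r n ≤ ct p n + ct q n := by
  unfold ct
  induction n with
  | zero => simp
  | succ n ih =>
    simp only [Nat.count_succ]
    have := h n
    by_cases a : p n <;> by_cases b : q n <;> by_cases c : r n <;> simp_all <;> omega

theorem cnt_sub {p q : ℕ → Prop} (h : ∀ x, q x → p x) (n : ℕ) :
    ct (fun x => p x ∧ ¬ q x) n + ct q n = ct p n := by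
  unfold ct
  induction n with
  | zero => simp
  | succ n ih =>
    simp only [Nat.count_succ]
    have := h n
    by_cases a : p n <;> by_cases b : q n <;> simp_all <;> omega

theorem cnt_and (p : Prop) (q : ℕ → Prop) (n a b : ℕ) (h : p → ct q n * a ≤ b) :
    ct (fun x => p ∧ q x) n * a ≤ b := by
  by_cases e : p
  · simpa [e] using h e
  · simp [e, ct]

theorem avoid (A : ℕ → ℕ → ℕ → Prop) (mono : ∀ i Z Z' n, Z ≤ Z' → A i Z (n % 2 ^ Z) → A i Z' n)
    (small : ∀ i Z, ct (A i Z) (2 ^ Z) * 2 ^ (i + 1) ≤ 2 ^ Z) :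
    ∃ G : ℕ → ℕ, (∀ y z, y ≤ z → G z % 2 ^ y = G y) ∧ ∀ i Z, ¬ A i Z (G Z) := by
  have h1 : ∀ L k, ct (fun n => ∃ i < k, A i L n) (2 ^ L) * 2 ^ k + 2 ^ L ≤ 2 ^ L * 2 ^ k := by
    intro L k
    induction k with
    | zero => simp [ct]
    | succ k ih =>
      have := cnt_or (r := fun n => ∃ i < k + 1, A i L n) (p := fun n => ∃ i < k, A i L n) (q := A k L)
        (fun n ⟨i, b, c⟩ => (Nat.lt_succ_iff_lt_or_eq.1 b).imp (⟨i, ·, c⟩) fun e : i = k => e ▸ c) (2 ^ L)
      have h := small k L
      rw [pow_succ] at *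
      nlinarith [Nat.mul_le_mul_right (2 ^ k * 2) this]
  have h2 : ∀ L, ∃ n, ∀ i < L, ¬ A i L n := fun L => by
    by_contra hc
    have := h1 L L
    rw [show (fun n => ∃ i < L, A i L n) = fun _ => True from funext fun n => eq_true (by
      simpa using not_exists.1 hc n), show ct (fun _ => True) (2 ^ L) = 2 ^ L from
      @Nat.count_of_forall _ (_) _ fun _ _ => trivial] at this
    have : 0 < 2 ^ L := by positivity
    omega
  choose n hn using h2
  choose G hG using fun y => (std_or fun L => n L % 2 ^ y).resolve_right fun h =>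
    (h (2 ^ y)).exists.elim fun L e => (Nat.mod_lt _ (by positivity)).not_ge e
  refine ⟨G, fun y z e => ((hG y).and (hG z)).exists.elim fun L a => ?_, fun i Z e =>
    ((hG Z).and ((U_ge Z).and (U_ge (i + 1)))).exists.elim fun L a =>
      hn L i a.2.2 (mono i Z L _ a.2.1 (a.1 ▸ e))⟩
  rw [← a.1, ← a.2, Nat.mod_mod_of_dvd _ (pow_dvd_pow 2 e)]

end Pool.Agent.H40.Bsig
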