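import Pool.Agent.H40.Path2

set_option autoImplicit false

namespace Pool.Agent.H40.Bsig

open Filter Classical

def inp (c x y n : ℕ) : ℕ := Nat.pair c.unpair.1 (Nat.pair c.unpair.2 (Nat.pair x (Nat.pair y n)))

def Rz (z n c x : ℕ) : Prop := ∃ y < z + 1, hl z (inp c x y (n % 2 ^ y))

theorem mod_mod {n y z : ℕ} (e : y ≤ z) : n % 2 ^ z % 2 ^ y = n % 2 ^ y :=
  Nat.mod_mod_of_dvd _ (pow_dvd_pow 2 e)

theorem Rz_mono {z z' n c x : ℕ} (e : z ≤ z') : Rz z (n % 2 ^ z) c x → Rz z' n c x :=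
  fun ⟨y, a, b⟩ => ⟨y, by omega, mod_mod (Nat.le_of_lt_succ a) ▸ (b.mono e).1⟩

theorem Rz_mod {z n c x : ℕ} : Rz z n c x → Rz z (n % 2 ^ z) c x :=
  fun ⟨y, a, b⟩ => ⟨y, a, (mod_mod (Nat.le_of_lt_succ a)).symm ▸ b⟩

theorem pr_Rz {α : Type} [Primcodable α] {f g h k : α → ℕ} (hf : Primrec f) (hg : Primrec g)
    (hh : Primrec h) (hk : Primrec k) : PrimrecPred fun a => Rz (f a) (g a) (h a) (k a) :=
  pr_bex (Primrec.succ.comp hf) (pr_hl (hf.comp .fst) (pr_pair (pr_l (hh.comp .fst)) (pr_pair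
    (pr_r (hh.comp .fst)) (pr_pair (hk.comp .fst) (pr_pair .snd
      (Primrec.nat_mod.comp (hg.comp .fst) (pr_pow .snd)))))))

noncomputable def cnt (z i : ℕ) : ℕ := ct (fun n => Rz z n i.unpair.1 i.unpair.2) (2 ^ z)

theorem pr_cnt : Primrec₂ cnt :=
  (Primrec.list_length.comp ((PrimrecRel.listFilter (R := fun n (p : ℕ × ℕ) =>
    Rz p.1 n p.2.unpair.1 p.2.unpair.2) (pr_Rz (Primrec.fst.comp .snd) .fst
      (pr_l (Primrec.snd.comp .snd)) (pr_r (Primrec.snd.comp .snd)))).comp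
    (Primrec.list_range.comp (pr_pow .fst)) .id)).of_eq fun _ => List.countP_eq_length_filter.symm

theorem ex_t : ∃ c, ∀ i, ∃ t ≤ FF (FF (FF (i + 2 ^ (i + 2)) + c)), ∀ k,
    cnt (t + k) i * 2 ^ (i + 2) ≤ cnt t i * 2 ^ k * 2 ^ (i + 2) + 2 ^ (t + k) := by
  obtain ⟨c, hc⟩ := dom (Q := fun x t => x.unpair.2 * 2 ^ t ≤ cnt t x.unpair.1 * 2 ^ (x.unpair.1 + 2))
    (Primrec.nat_le.comp (Primrec.nat_mul.comp (pr_r .fst) (pr_pow .snd)) (Primrec.nat_mul.comp
      (pr_cnt.comp .snd (pr_l .fst)) (pr_pow (Primrec.nat_add.comp (pr_l .fst) (.const 2)))))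
  refine ⟨c, fun i => ?_⟩
  set r := Nat.findGreatest (fun r => ∃ t, r * 2 ^ t ≤ cnt t i * 2 ^ (i + 2)) (2 ^ (i + 2)) with hr
  have h1 : ∃ t, r * 2 ^ t ≤ cnt t i * 2 ^ (i + 2) := Nat.findGreatest_spec
    (P := fun r => ∃ t, r * 2 ^ t ≤ cnt t i * 2 ^ (i + 2)) (Nat.zero_le _) ⟨0, by simp⟩
  have h2 : r ≤ 2 ^ (i + 2) := Nat.findGreatest_le _
  obtain ⟨t, h3, h4⟩ := (hc (Nat.pair i r)).2 _ (pair_FF (Nat.le_add_left _ _) ((pair_FF
    (Nat.le_add_right _ _) (h2.trans (Nat.le_add_left _ _))).trans (Nat.le_add_right _ _)))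
    (by simpa using h1)
  simp only [Nat.unpair_pair] at h4
  refine ⟨t, h3, fun k => ?_⟩
  have h5 : cnt (t + k) i * 2 ^ (i + 2) ≤ (r + 1) * 2 ^ (t + k) := by
    rcases h2.lt_or_eq with e | e
    · exact (not_le.1 fun e' => Nat.findGreatest_is_greatest (hr ▸ r.lt_succ_self) e ⟨_, e'⟩).le
    · have : cnt (t + k) i ≤ 2 ^ (t + k) := Nat.count_le _
      rw [← e]
      nlinarith
  have := Nat.mul_le_mul_right (2 ^ k) h4
  rw [pow_add 2 t k] at *
  nlinarith

def tin (e B a s x : ℕ) : ℕ := Nat.pair e (Nat.pair B (Nat.pair a (Nat.pair s x)))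

def HH (P : ℕ → Prop) (β : ℕ → ℕ) (k a s x : ℕ) : Prop := ∃ x' < 2 ^ (s + a), x' ≠ x ∧
  ∀ j < k, ∀ e < k, (P (tin e (β j) a s x) ↔ P (tin e (β j) a s x'))

theorem HH_cnt (P : ℕ → Prop) (β : ℕ → ℕ) (k a s : ℕ) :
    ct (fun x => ¬ HH P β k a s x) (2 ^ (s + a)) ≤ 2 ^ (k * k) := by
  rw [ct, Nat.count_eq_card_filter_range]
  refine (Finset.card_le_card_of_injOn (t := Finset.univ)
    (fun x (p : Fin k × Fin k) => P (tin p.2 (β p.1) a s x)) (fun _ _ => by simp)
    fun x hx x' hx' e => by_contra fun h => ?_).trans (by simp)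
  simp only [Finset.coe_filter, Finset.mem_range, Set.mem_ofPred_eq] at hx hx'
  exact hx.2 ⟨x', hx'.1, Ne.symm h, fun j a b c => iff_of_eq (congrFun e (⟨j, a⟩, ⟨b, c⟩))⟩

def Hlt (i : ℕ) : Prop := ∃ z, hl z i

attribute [local irreducible] Rz HH FF ct hl in
theorem ex_G : ∃ c, ∀ m, ∃ G : ℕ → ℕ, (∀ y z, y ≤ z → G z % 2 ^ y = G y) ∧
    (∀ z i, Rz z (G z) i.unpair.1 i.unpair.2 →
      ∃ t ≤ FF (FF (FF (i + 2 ^ (i + 2)) + c)), Rz t (G t) i.unpair.1 i.unpair.2) ∧
    (2 ≤ m → ∀ s, HH Hlt (fun j => FF^[j] m) (m - 2).sqrt m s (G (s + m))) := by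
  obtain ⟨c, hc⟩ := ex_t
  choose t h1 h2 using hc
  refine ⟨c, fun m => ?_⟩
  obtain ⟨G, h3, h4⟩ := avoid (fun i Z n => (t i ≤ Z ∧ Rz Z n i.unpair.1 i.unpair.2 ∧
      ¬ Rz (t i) (n % 2 ^ t i) i.unpair.1 i.unpair.2) ∨ (2 ≤ m ∧ i + m ≤ Z) ∧
      ¬ HH Hlt (fun j => FF^[j] m) (m - 2).sqrt m i (n % 2 ^ (i + m)))
    (fun i Z Z' n e => Or.imp (fun a => ⟨a.1.trans e, Rz_mono e a.2.1, by
      simpa only [mod_mod a.1] using a.2.2⟩) fun a => ⟨⟨a.1.1, a.1.2.trans e⟩, by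
        simpa only [mod_mod a.1.2] using a.2⟩) fun i Z => by
    have a1 := cnt_and (t i ≤ Z) (fun n => Rz Z n i.unpair.1 i.unpair.2 ∧
        ¬ Rz (t i) (n % 2 ^ t i) i.unpair.1 i.unpair.2) (2 ^ Z) (2 ^ (i + 2)) (2 ^ Z) fun e => by
      obtain ⟨k, rfl⟩ := Nat.exists_eq_add_of_le e
      have b1 := cnt_sub (fun n => Rz_mono (n := n) (c := i.unpair.1) (x := i.unpair.2) e)
        (2 ^ (t i + k))
      have b2 := cnt_mod (fun n => Rz (t i) n i.unpair.1 i.unpair.2) (2 ^ t i) (2 ^ k)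
      have b3 := h2 i k
      rw [← pow_add] at b2
      rw [b2] at b1
      rw [cnt, cnt, ← b1, add_mul, add_comm] at b3
      exact Nat.le_of_add_le_add_left b3
    have a2 := cnt_and (2 ≤ m ∧ i + m ≤ Z) (fun n => ¬ HH Hlt (fun j => FF^[j] m) (m - 2).sqrt m i
        (n % 2 ^ (i + m))) (2 ^ Z) (2 ^ (i + 2)) (2 ^ Z) fun e => by
      obtain ⟨k, rfl⟩ := Nat.exists_eq_add_of_le e.2
      have b2 := cnt_mod (fun n => ¬ HH Hlt (fun j => FF^[j] m) (m - 2).sqrt m i n)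
        (2 ^ (i + m)) (2 ^ k)
      rw [← pow_add] at b2
      rw [b2]
      refine (Nat.mul_le_mul_right _ (Nat.mul_le_mul_right _ (HH_cnt _ _ _ _ _))).trans ?_
      rw [← pow_add, ← pow_add]
      have := Nat.sqrt_le (m - 2)
      exact Nat.pow_le_pow_right (by omega) (by omega)
    refine Nat.le_of_mul_le_mul_right ?_ two_pos
    rw [mul_assoc, ← pow_succ, mul_two]
    exact (Nat.mul_le_mul_right _ (cnt_or (fun _ => id) _)).trans
      ((add_mul _ _ _).trans_le (Nat.add_le_add a1 a2))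
  have h5 : ∀ y z, y ≤ z → ∀ c x, Rz y (G y) c x → Rz z (G z) c x :=
    fun y z e c x h => Rz_mono e (by rwa [h3 y z e])
  refine ⟨G, h3, fun z i h => ⟨t i, h1 i, by_contra fun e => h4 i (max z (t i)) (Or.inl
    ⟨le_max_right _ _, h5 _ _ (le_max_left _ _) _ _ h, by rwa [h3 _ _ (le_max_right _ _)]⟩)⟩,
    fun e s => by_contra fun e' => h4 s (s + m) (Or.inr ⟨⟨e, le_rfl⟩, by rwa [h3 _ _ le_rfl]⟩)⟩

def PN (A B : ℕ → ℕ → Prop) : Fm → Bool → (ℕ → ℕ) → Prop
  | .eq s t, b, v => (s.ev std v = t.ev std v ↔ b = true)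
  | .lt s t, b, v => (s.ev std v < t.ev std v ↔ b = true)
  | .mem t i, true, v => A i (t.ev std v)
  | .mem t i, false, v => B i (t.ev std v)
  | .neg φ, b, v => PN A B φ (!b) v
  | .and φ ψ, true, v => PN A B φ true v ∧ PN A B ψ true v
  | .and φ ψ, false, v => PN A B φ false v ∨ PN A B ψ false v
  | .ball t φ, true, v => ∀ x < t.ev std v, PN A B φ true (cons x v)
  | .ball t φ, false, v => ∃ x < t.ev std v, PN A B φ false (cons x v)
  | _, _, _ => False

theorem pr_tm (t : Tm) : Primrec fun d => t.ev std (dec d) := by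
  induction t with
  | var i => exact pr_dec .id i
  | zero => exact .const 0
  | one => exact .const 1
  | add _ _ a b => exact Primrec.nat_add.comp a b
  | mul _ _ a b => exact Primrec.nat_mul.comp a b

theorem pr_PN {A B : ℕ → ℕ → ℕ → Prop} (hA : ∀ i, PrimrecRel fun q => A q i)
    (hB : ∀ i, PrimrecRel fun q => B q i) (θ : Fm) :
    ∀ b, PrimrecRel fun q d => PN (A q) (B q) θ b (dec d) := by
  induction θ with
  | eq s t =>
    exact fun b => pr_iff (Primrec.eq.comp ((pr_tm s).comp .snd) ((pr_tm t).comp .snd)) (pr_const _)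
  | lt s t =>
    exact fun b => pr_iff (Primrec.nat_lt.comp ((pr_tm s).comp .snd) ((pr_tm t).comp .snd)) (pr_const _)
  | mem t i =>
    rintro (_ | _)
    exacts [(hB i).comp .fst ((pr_tm t).comp .snd), (hA i).comp .fst ((pr_tm t).comp .snd)]
  | neg _ ih => exact fun b => ih (!b)
  | and _ _ a b =>
    rintro (_ | _)
    exacts [PrimrecPred.or (a false) (b false), PrimrecPred.and (a true) (b true)]
  | ball t φ ih =>
    have := fun b => ((ih b).comp (Primrec.fst.comp (Primrec.fst (α := ℕ × ℕ)))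
      (pr_pair .snd (Primrec.snd.comp .fst))).of_eq
      (q := fun p => PN (A p.1.1) (B p.1.1) φ b (cons p.2 (dec p.1.2))) fun p => by rw [dec_pair]
    rintro (_ | _)
    exacts [pr_bex ((pr_tm t).comp .snd) (this false), pr_ball ((pr_tm t).comp .snd) (this true)]
  | all => exact fun _ => pr_const False
  | ex => exact fun _ => pr_const False
  | allS => exact fun _ => pr_const False

theorem PN_mono {A B A' B' : ℕ → ℕ → Prop} (θ : Fm) : (∀ i < θ.sup, ∀ x, A i x → A' i x) →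
    (∀ i < θ.sup, ∀ x, B i x → B' i x) → ∀ b v, PN A B θ b v → PN A' B' θ b v := by
  induction θ with
  | eq => exact fun _ _ _ _ => id
  | lt => exact fun _ _ _ _ => id
  | mem t i =>
    rintro a a' (_ | _) v
    exacts [a' i (lt_max_of_lt_right i.lt_succ_self) _, a i (lt_max_of_lt_right i.lt_succ_self) _]
  | neg _ ih => exact fun a a' b => ih a a' (!b)
  | and _ _ p q =>
    intro a a'
    have p := p (fun i h => a i (lt_max_of_lt_left h)) fun i h => a' i (lt_max_of_lt_left h)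
    have q := q (fun i h => a i (lt_max_of_lt_right h)) fun i h => a' i (lt_max_of_lt_right h)
    rintro (_ | _) v
    exacts [Or.imp (p _ _) (q _ _), And.imp (p _ _) (q _ _)]
  | ball t φ q =>
    intro a a'
    have q := q (fun i h => a i (lt_max_of_lt_right h)) fun i h => a' i (lt_max_of_lt_right h)
    rintro (_ | _) v
    exacts [Exists.imp fun _ => And.imp_right (q _ _), fun h x hx => q _ _ (h x hx)]
  | all => exact fun _ _ _ _ => id
  | ex => exact fun _ _ _ _ => id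
  | allS => exact fun _ _ _ _ => id

theorem PN_lim {A B : ℕ → ℕ → ℕ → Prop} (θ : Fm) : ∀ b v,
    PN (fun i x => ∀ᶠ z in atTop, A z i x) (fun i x => ∀ᶠ z in atTop, B z i x) θ b v →
      ∀ᶠ z in atTop, PN (A z) (B z) θ b v := by
  induction θ with
  | eq => exact fun _ _ h => Eventually.of_forall fun _ => h
  | lt => exact fun _ _ h => Eventually.of_forall fun _ => h
  | mem t i => rintro (_ | _) v <;> exact id
  | neg _ ih => exact fun b => ih (!b)
  | and _ _ p q =>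
    rintro (_ | _) v
    exacts [fun h => h.elim (fun h => (p _ _ h).mono fun _ => Or.inl)
      fun h => (q _ _ h).mono fun _ => Or.inr, fun h => (p _ _ h.1).and (q _ _ h.2)]
  | ball t φ q =>
    rintro (_ | _) v
    exacts [fun ⟨x, a, b⟩ => (q _ _ b).mono fun _ e => ⟨x, a, e⟩,
      fun h => (eventually_all_finite (Set.finite_Iio _)).2 fun x hx => q _ _ (h x hx)]
  | all => exact fun _ _ => False.elim
  | ex => exact fun _ _ => False.elim
  | allS => exact fun _ _ => False.elim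

namespace Cut

variable {p : Cut}

theorem bex_iff {b : ℕ → ℕ} (hb : p.Bd b) (P : ℕ → ℕ → Prop) : (∀ᶠ m in U, ∃ x < b m, P m x) ↔
    ∃ x : p.I, (∀ᶠ m in U, rep x m < b m) ∧ ∀ᶠ m in U, P m (rep x m) := by
  refine ⟨fun h => ?_, fun ⟨x, h, h'⟩ => (h.and h').mono fun m e => ⟨_, e⟩⟩
  obtain ⟨f, hf⟩ := ae_choose h
  obtain ⟨x, hx⟩ := ex_rep (hb.mono (hf.mono fun _ e => e.1.le))
  exact ⟨x, (hf.and hx).mono fun m e => e.2 ▸ e.1.1, (hf.and hx).mono fun m e => e.2 ▸ e.1.2⟩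

theorem PN_los {θ : Fm} (hθ : Bdd θ) {V : ℕ → Set p.I} {A B : ℕ → ℕ → ℕ → Prop}
    (hA : ∀ i x, (∀ᶠ m in U, A m i (rep x m)) ↔ x ∈ V i)
    (hB : ∀ i x, (∀ᶠ m in U, B m i (rep x m)) ↔ x ∉ V i) : ∀ b (v : ℕ → p.I) (u : ℕ → ℕ → ℕ),
    (∀ i, ∀ᶠ m in U, rep (v i) m = u m i) →
      ((∀ᶠ m in U, PN (A m) (B m) θ b (u m)) ↔ (Sat p.M θ v V ↔ b = true)) := by
  have key : ∀ {θ}, Bdd θ → ∀ (b : Bool) (v : ℕ → p.I) (u : ℕ → ℕ → ℕ),
      (∀ i, ∀ᶠ m in U, rep (v i) m = u m i) →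
      ((∀ᶠ m in U, (Sat std θ (u m) (fun _ => Set.univ) ↔ b = true)) ↔
        (Sat p.M θ v (fun _ => Set.univ) ↔ b = true)) := fun h b v u e => by
    rw [los h (W := fun _ _ => Set.univ) (fun _ _ => by simp) v u e]
    cases b
    · simp
    · simp
  induction hθ with
  | eq s t => exact key (.eq s t)
  | lt s t => exact key (.lt s t)
  | mem t i =>
    rintro (_ | _) v u h
    · exact (eventually_congr ((los_tm t v u h).mono fun m e => by rw [e]; rfl)).symm.trans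
        ((hB i _).trans (by simp [Sat]))
    · exact (eventually_congr ((los_tm t v u h).mono fun m e => by rw [e]; rfl)).symm.trans
        ((hA i _).trans (by simp [Sat]))
  | neg _ ih => exact fun b v u h => (ih (!b) v u h).trans (by cases b <;> simp [Sat])
  | and _ _ a a' =>
    rintro (_ | _) v u h
    · exact ae_or.trans ((or_congr (a _ v u h) (a' _ v u h)).trans (by simp [Sat]; tauto))
    · exact eventually_and.trans ((and_congr (a _ v u h) (a' _ v u h)).trans (by simp [Sat]))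
  | @ball t φ _ ih =>
    have k2 := fun b v (u : ℕ → ℕ → ℕ) h (x : p.I) => ih b (cons x v) (fun m => cons (rep x m) (u m))
      (cons_ae h rfl_ae)
    rintro (_ | _) v u h
    · exact (eventually_congr ((los_tm t v u h).mono fun m e => by rw [e]; rfl)).symm.trans
        ((bex_iff (bd_rep _) fun m x => PN (A m) (B m) φ false (cons x (u m))).trans
          ((exists_congr fun x => and_congr Iff.rfl (k2 _ v u h x)).trans (by simp [Sat])))
    · exact (eventually_congr ((los_tm t v u h).mono fun m e => by rw [e]; rfl)).symm.trans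
        ((ball_iff (bd_rep _) fun m x => PN (A m) (B m) φ true (cons x (u m))).symm.trans
          ((forall₂_congr fun x _ => k2 _ v u h x).trans (by simp [Sat])))

end Cut

end Pool.Agent.H40.Bsig
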