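import Pool.Agent.H40.Path4

set_option autoImplicit false

namespace Pool.Agent.H40.Bsig

open Filter Cut

theorem pair_mono {a b c d : ℕ} (h : a ≤ c) (h' : b ≤ d) : Nat.pair a b ≤ Nat.pair c d :=
  (h.lt_or_eq.elim (fun e => (Nat.pair_lt_pair_left b e).le) fun e => (congrArg (Nat.pair · b) e).le).trans
    (h'.lt_or_eq.elim (fun e => (Nat.pair_lt_pair_right c e).le) fun e => (congrArg _ e).le)

noncomputable def th (k a s x : ℕ) : ℕ := TT (tin k (FF^[k] a) a s (x + 2 ^ (s + a)))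

theorem le_tin (e B a s x : ℕ) : B ≤ tin e B a s x :=
  (Nat.left_le_pair _ _).trans (Nat.right_le_pair _ _)

theorem HH_loc {k a s x z : ℕ} (h : th k a s x ≤ z) :
    HH (hl z) (fun j => (Fz z)^[j] a) k a s x ↔ HH Hlt (fun j => FF^[j] a) k a s x := by
  refine exists_congr fun x' => and_congr_right fun b => and_congr_right fun _ =>
    forall₂_congr fun j hj => forall₂_congr fun e he => ?_
  have c := (FF_it a).monotone hj.le
  have key : ∀ y ≤ x + 2 ^ (s + a), hl z (tin e (FF^[j] a) a s y) ↔ Hlt (tin e (FF^[j] a) a s y) :=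
    fun y hy => hl_TT h (pair_mono he.le (pair_mono c (pair_mono le_rfl (pair_mono le_rfl hy))))
  simp only [itz_eq ((TT_mono (c.trans (le_tin _ _ _ _ _))).trans h)]
  rw [key x (by omega), key x' (by omega)]

def Pz (z a s x u : ℕ) : Prop := u.unpair.2 ≤ z ∧ (u.unpair.2 < (Fz z)^[u.unpair.1] a ∨
  HH (hl z) (fun j => (Fz z)^[j] a) u.unpair.1 a s x)

theorem pr_Pz : PrimrecPred fun d => Pz (dec d 0) (dec d 1) (dec d 2) (dec d 3) (dec d 4) := by
  have d := pr_dec (Primrec.id (α := ℕ))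
  have d3 := fun i => (d i).comp (Primrec.fst.comp (Primrec.fst.comp (Primrec.fst (α := (ℕ × ℕ) × ℕ)
    (β := ℕ))))
  have t := fun {f : ((ℕ × ℕ) × ℕ) × ℕ → ℕ} (hf : Primrec f) => pr_hl (d3 0) (pr_pair .snd (pr_pair
    (pr_it (d3 0) (Primrec.snd.comp .fst) (d3 1)) (pr_pair (d3 1) (pr_pair (d3 2) hf))))
  exact (Primrec.nat_le.comp (pr_r (d 4)) (d 0)).and ((Primrec.nat_lt.comp (pr_r (d 4))
    (pr_it (d 0) (pr_l (d 4)) (d 1))).or (pr_bex (pr_pow (Primrec.nat_add.comp (d 2) (d 1)))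
    ((Primrec.eq.comp .snd ((d 3).comp .fst)).not.and (pr_ball ((pr_l (d 4)).comp .fst)
      (pr_ball ((pr_l (d 4)).comp (Primrec.fst.comp .fst)) (pr_iff (t (d3 3))
        (t (Primrec.snd.comp (Primrec.fst.comp .fst)))).primrecRel).primrecRel)).primrecRel))

def XX (s x : C1.I) : Prop := ∀ j, ∀ᶠ m in U, HH Hlt (fun j => FF^[j] m) j m (rep s m) (rep x m)

theorem bd_TT {f : ℕ → ℕ} (h : C1.Bd f) : C1.Bd fun m => TT (f m) := (h.add (bd_const c0)).F.F

theorem XX_iff (s x : C1.I) :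
    (∀ u : C1.I, ∀ᶠ m in U, ∃ z, Pz z m (rep s m) (rep x m) (rep u m)) ↔ XX s x := by
  refine ⟨fun h j => ?_, fun h u => ?_⟩
  · obtain ⟨u, hu⟩ := ex_rep ((bd_const j).pair (bd_TT ((bd_const j).pair ((bd_it j).pair ((bd_it 0).pair
      ((bd_rep s).pair ((bd_rep x).add (bd_pow ((bd_rep s).add (bd_it 0))))))))))
    filter_upwards [hu, h u] with m a ⟨z, b⟩
    simp only [Pz, a, Nat.unpair_pair] at b
    exact (HH_loc b.1).1 (b.2.resolve_left (not_lt.2 ((itz_le _ _ _).trans ((le_tin _ _ _ _ _).trans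
      ((Nat.le_add_right _ _).trans ((lt_FF _).le.trans (lt_FF _).le))))))
  · rcases std_or fun m => (rep u m).unpair.1 with ⟨j, hj⟩ | hk
    · filter_upwards [hj, h j] with m a c
      subst a
      exact ⟨max _ (th _ m (rep s m) (rep x m)), le_max_left _ _,
        Or.inr ((HH_loc (le_max_right _ _)).2 c)⟩
    · obtain ⟨j, hj⟩ := bd_rep u
      filter_upwards [hj, hk (j + 1)] with m a c
      refine ⟨max _ (TT (FF^[(rep u m).unpair.1] m)), le_max_left _ _, Or.inl ?_⟩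
      rw [itz_eq (le_max_right _ _)]
      exact ((Nat.unpair_right_le _).trans a).trans_lt (FF_it m c)

theorem beta_iff (a b i x : C1.I) :
    (C1.M.lt x (C1.M.add (C1.M.mul b (C1.M.add i C1.M.one)) C1.M.one) ∧
      ∃ q, C1.M.add (C1.M.mul (C1.M.add (C1.M.mul b (C1.M.add i C1.M.one)) C1.M.one) q) x = a) ↔
      ∀ᶠ m in U, rep x m = rep a m % (rep b m * (rep i m + 1) + 1) := by
  have k1 : ∀ᶠ m in U, rep (C1.M.add (C1.M.mul b (C1.M.add i C1.M.one)) C1.M.one) m =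
      rep b m * (rep i m + 1) + 1 := los_tm (.add (.mul (.var 0) (.add (.var 1) .one)) .one)
    (cons b fun _ => i) _ (cons_ae (fun _ => rfl_ae) rfl_ae)
  have key : ∀ q : C1.I, ∀ᶠ m in U, rep (C1.M.add (C1.M.mul (C1.M.add (C1.M.mul b
      (C1.M.add i C1.M.one)) C1.M.one) q) x) m = (rep b m * (rep i m + 1) + 1) * rep q m + rep x m :=
    fun q => los_tm (.add (.mul (.add (.mul (.var 0) (.add (.var 1) .one)) .one) (.var 2)) (.var 3))
      (cons b (cons i (cons q fun _ => x))) _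
      (cons_ae (cons_ae (cons_ae (fun _ => rfl_ae) rfl_ae) rfl_ae) rfl_ae)
  refine ⟨fun ⟨h, q, e⟩ => ?_, fun h => ⟨(h.and k1).mono fun m e => e.1.trans_lt
    ((Nat.mod_lt _ (Nat.succ_pos _)).trans_eq e.2.symm), ?_⟩⟩
  · filter_upwards [h, k1, key q] with m a1 a2 a3
    rw [← e, a3, Nat.mul_add_mod, Nat.mod_eq_of_lt (a1.trans_eq a2)]
  · obtain ⟨q, hq⟩ := ex_rep (f := fun m => rep a m / (rep b m * (rep i m + 1) + 1))
      ((bd_rep a).mono (Eventually.of_forall fun _ => Nat.div_le_self _ _))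
    exact ⟨q, (ext_iff _ _).2 (((key q).and (h.and hq)).mono fun m e => by
      rw [e.1, e.2.1, e.2.2, Nat.div_add_mod])⟩

theorem tri (l a b : C1.I) : ∀ᶠ m in U,
    rep (pair C1.M l (pair C1.M a b)) m = sp (rep l m) (sp (rep a m) (rep b m)) :=
  ((pair_ae l _).and (pair_ae a b)).mono fun _ e => by rw [e.1, e.2]

def TR : Set C1.I := {c | ∀ u : C1.I, ∀ᶠ m in U, ∃ l a b, rep c m = sp l (sp a b) ∧
  ∀ s < l, ∃ x, x = a % (b * (s + 1) + 1) ∧ ∃ z, Pz z m s x (rep u m)}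

theorem TR_def : ∃ φ v, FO φ ∧ Lv 2 false φ ∧ ∀ c V, c ∈ TR ↔ Sat C1.M φ (cons c v) V := by
  obtain ⟨θ, h1, h2, h3⟩ := absl (P := fun v => ∃ l a b, v 1 = sp l (sp a b) ∧
      ∀ s < l, ∃ x, x = a % (b * (s + 1) + 1) ∧ ∃ z, Pz z (v 2) s x (v 0)) (by
    have sp : ∀ {f g}, TD f → TD g → TD fun v => sp (f v) (g v) :=
      fun a b => ((a.add b).mul (a.add b)).add a
    exact .ex (.ex (.ex (.and (B0.eq (.var 4) (sp (.var 2) (sp (.var 1) (.var 0)))).s1
      (.ball (.var 2) (.ex (.and (b0_mod (.var 0) (.var 3) (.mul (.var 2) (.add (.var 1) .one))).s1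
        (.ex (s1_five pr_Pz 0 8 2 1 6)))))))))
  obtain ⟨a, ha⟩ := ex_rep (bd_it (p := C1) 0)
  exact ⟨θ.ex.all, fun _ => a, h2.ex.all, ⟨_, ⟨_, h1, rfl⟩, rfl⟩, fun c V => forall_congr' fun u =>
    ((h3 (cons u (cons c fun _ => a)) V).trans (eventually_congr (ha.mono fun m e => by
      simp only [cons, e]
      rfl))).symm⟩

theorem mem_TR {c l : C1.I} {h : C1.I → C1.I} (hc : SeqCode C1.M c l h) :
    c ∈ TR ↔ ∀ s, C1.M.lt s l → XX s (h s) := by
  obtain ⟨a, b, rfl, hc⟩ := hc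
  refine Iff.trans (forall_congr' fun u => ?_) (forall_comm.trans (forall_congr' fun s =>
    forall_comm.trans (forall_congr' fun _ => XX_iff s (h s))))
  refine Iff.trans (eventually_congr ((tri l a b).mono fun m e => ?_))
    ((ball_iff (bd_rep l) fun m s => ∃ z, Pz z m s (rep a m % (rep b m * (s + 1) + 1))
      (rep u m)).symm.trans (forall₂_congr fun s hs => eventually_congr
        (((beta_iff _ _ _ _).1 (hc s hs)).mono fun m e => by rw [e])))
  rw [e]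
  refine ⟨fun ⟨l', a', b', h1, h2⟩ s hs => ?_, fun h => ⟨_, _, _, rfl, fun s hs => ⟨_, rfl, h s hs⟩⟩⟩
  obtain ⟨e1, e2⟩ := sp_inj h1
  obtain ⟨x, rfl, h3⟩ := h2 s (e1 ▸ hs)
  rwa [(sp_inj e2).1, (sp_inj e2).2]

theorem tree : IsTree C1.M TR := by
  refine ⟨fun c hc => ?_, fun c hc l h c' l' h1 h2 h3 => (mem_TR h3).2 fun s hs => (mem_TR h1).1 hc s
    ((hs.and (ae_not.2 h2)).mono fun m e => by omega)⟩
  obtain ⟨l, hl⟩ := ae_choose (hc c)
  obtain ⟨a, ha⟩ := ae_choose hl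
  obtain ⟨b, hb⟩ := ae_choose ha
  have e : ∀ᶠ m in U, rep c m = sp (l m) (sp (a m) (b m)) := hb.mono fun m e => e.1
  obtain ⟨l', hl'⟩ := ex_rep (f := l) ((bd_rep c).mono (e.mono fun m e => e ▸ (le_sp _ _).1))
  obtain ⟨a', ha'⟩ := ex_rep (f := a) ((bd_rep c).mono
    (e.mono fun m e => e ▸ (le_sp _ _).1.trans (le_sp _ _).2))
  obtain ⟨b', hb'⟩ := ex_rep (f := b) ((bd_rep c).mono
    (e.mono fun m e => e ▸ (le_sp _ _).2.trans (le_sp _ _).2))
  choose h hh using fun i : C1.I => ex_rep (f := fun m => rep a' m % (rep b' m * (rep i m + 1) + 1))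
    ((bd_rep a').mono (Eventually.of_forall fun _ => Nat.mod_le _ _))
  refine ⟨l', h, a', b', (ext_iff _ _).2 ?_, fun i _ => (beta_iff _ _ _ _).2 (hh i)⟩
  filter_upwards [e, hl', ha', hb', tri l' a' b'] with m a1 a2 a3 a4 a5
  rw [a5, a1, a2, a3, a4]

theorem bd_GG {f : ℕ → ℕ} (h : C1.Bd f) : C1.Bd fun m => GG m (f m + m) :=
  (bd_pow (h.add (bd_it 0))).mono (Eventually.of_forall fun m =>
    (GG_mod m le_rfl).symm.trans_le (Nat.mod_lt _ (by positivity)).le)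

noncomputable def gg (s : C1.I) : C1.I := mkI _ (bd_GG (bd_rep s))

theorem path : IsPath C1.M TR gg := by
  intro l
  obtain ⟨w, h1, h2⟩ := bd_dom (Q := fun x w => ∀ i < x.unpair.1, x.unpair.2.unpair.2 %
      2 ^ (i + x.unpair.2.unpair.1) = w.unpair.1 % (w.unpair.2 * (i + 1) + 1))
    (pr_ball (pr_l .fst) (Primrec.eq.comp (Primrec.nat_mod.comp (pr_r (pr_r (Primrec.fst.comp .fst)))
      (pr_pow (Primrec.nat_add.comp .snd (pr_l (pr_r (Primrec.fst.comp .fst))))))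
      (Primrec.nat_mod.comp (pr_l (Primrec.snd.comp .fst)) (Primrec.succ.comp (Primrec.nat_mul.comp
        (pr_r (Primrec.snd.comp .fst)) (Primrec.succ.comp .snd))))).primrecRel)
    ((bd_rep l).pair ((bd_it 0).pair (bd_GG (bd_rep l)))) (Eventually.of_forall fun m =>
      (ex_beta _ _).elim fun a h => h.elim fun b h => ⟨Nat.pair a b, by
        simpa only [Nat.unpair_pair] using h⟩)
  obtain ⟨a, ha⟩ := ex_rep (h1.mono (Eventually.of_forall fun m => Nat.unpair_left_le _))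
  obtain ⟨b, hb⟩ := ex_rep (h1.mono (Eventually.of_forall fun m => Nat.unpair_right_le _))
  have h : SeqCode C1.M _ l gg := ⟨a, b, rfl, fun i hi => (beta_iff _ _ _ _).2 (by
    filter_upwards [h2, ha, hb, hi, rep_mk _ (bd_GG (bd_rep i))] with m a1 a2 a3 a4 a5
    simp only [Nat.unpair_pair] at a1
    rw [a2, a3, ← a1 _ a4]
    exact a5.trans (GG_mod m (Nat.add_le_add_right a4.le m)).symm)⟩
  refine ⟨_, (mem_TR h).2 fun s _ j => ?_, h⟩
  filter_upwards [U_ge (j * j + 2), rep_mk _ (bd_GG (bd_rep s))] with m a1 a2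
  obtain ⟨x', b1, b2, b3⟩ := (ex_G.choose_spec m).choose_spec.2.2 (by omega) (rep s m)
  have : j ≤ (m - 2).sqrt := Nat.le_sqrt.2 (by omega)
  rw [show rep (gg s) m = _ from a2]
  exact ⟨x', b1, b2, fun i hi e he => b3 i (by omega) e (by omega)⟩

theorem graph : {p | ∃ s, p = pair C1.M s (gg s)} ∈ C1.M.S := by
  have := decC (Q := fun a x n => ∃ s < x + 1, x = sp s (n % 2 ^ (s + a))) (pr_bex
    (Primrec.succ.comp (pr_l (pr_r .id))) (by
    have t := Primrec.nat_add.comp .snd (Primrec.nat_mod.comp (pr_r (pr_r (pr_r (Primrec.fst (β := ℕ)))))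
      (pr_pow (Primrec.nat_add.comp .snd (pr_l .fst))))
    exact Primrec.eq.comp (pr_l (pr_r .fst)) (Primrec.nat_add.comp (Primrec.nat_mul.comp t t) .snd)))
  refine (congrArg (· ∈ C1.M.S) (Set.ext fun x => ⟨fun h => ?_, ?_⟩)).mp this
  · obtain ⟨f, hf⟩ := ae_choose h
    obtain ⟨s, hs⟩ := ex_rep (f := f) ((bd_rep x).mono (hf.mono fun _ e => Nat.le_of_lt_succ e.1))
    refine ⟨s, (ext_iff _ _).2 ?_⟩
    filter_upwards [hf, hs, pair_ae s (gg s), rep_mk _ (bd_GG (bd_rep s))] with m a1 a2 a3 a4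
    rw [a3, show rep (gg s) m = _ from a4, a2, ← GG_mod m (Nat.add_le_add_right
      (Nat.le_of_lt_succ a1.1) m), ← a1.2]
  · rintro ⟨s, rfl⟩
    filter_upwards [pair_ae s (gg s), rep_mk _ (bd_GG (bd_rep s))] with m a3 a4
    rw [a3, show rep (gg s) m = _ from a4]
    exact ⟨_, Nat.lt_succ_of_le (le_sp _ _).1, by
      rw [GG_mod m (Nat.add_le_add_right (le_sp _ _).1 m)]⟩

theorem adj : Bnd (Adj C1.M gg) 2 := by
  rintro _ ⟨_, ⟨θ, hθ, rfl⟩, rfl⟩ v V hV
  have e : ∀ v, Sat (Adj C1.M gg) θ.all.ex v V ↔ Sat C1.M θ.all.ex v V := fun v =>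
    exists_congr fun _ => forall_congr' fun _ => sat_bdd (M := C1.M) _ hθ V _
  simp only [e]
  refine bnd sigC _ ⟨_, ⟨θ, hθ, rfl⟩, rfl⟩ v V fun i => ?_
  obtain ⟨φ, ψ, w, W, h1, h2, h3, h4, h5⟩ := hV i
  exact (Set.ext h4 : V i = _) ▸ (rca sigC ⟨_, graph⟩).2.2.2 φ ψ h1 h2 w W
    (fun i => (h3 i).elim id fun e => e ▸ graph) fun x => (h4 x).symm.trans (h5 x)

theorem notIndFO : ¬ IndFO C1.M 2 := by
  obtain ⟨θ, h1, h2, h3⟩ := absl (P := fun v => ∃ z, v 0 < (Fz z)^[v 1] (v 2))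
    (.ex (s1_five (P := fun z y k a _ => y < (Fz z)^[k] a) (Primrec.nat_lt.comp (pr_dec .id 1)
      (pr_it (pr_dec .id 0) (pr_dec .id 2) (pr_dec .id 3))) 0 1 2 3 0))
  obtain ⟨a, ha⟩ := ex_rep (bd_it (p := C1) 0)
  have key : ∀ k, Sat C1.M θ.neg.all.ex (cons k fun _ => a) (fun _ => ∅) ↔
      ∃ j, ∀ᶠ m in U, rep k m = j := fun k => by
    refine (exists_congr fun y => not_exists.symm.trans ((not_congr (h3 _ _)).trans
      ae_not.symm)).trans ⟨fun ⟨y, hy⟩ => (std_or _).resolve_right fun h => ?_, fun ⟨j, hj⟩ => ?_⟩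
    · obtain ⟨j, hj⟩ := bd_rep y
      obtain ⟨m, a1, a2, a3, a4⟩ := (hj.and (ha.and (hy.and (h (j + 1))))).exists
      refine a3 ⟨TT (FF^[rep k m] m), ?_⟩
      simp only [cons, a2]
      exact (a1.trans_lt (FF_it m a4)).trans_eq (itz_eq le_rfl).symm
    · obtain ⟨y, hy⟩ := ex_rep (bd_it (p := C1) j)
      exact ⟨y, (hj.and (hy.and ha)).mono fun m e ⟨z, b⟩ => by
        simp only [cons, e.1, e.2.1, e.2.2] at b
        exact b.not_ge (itz_le _ _ _)⟩
  intro h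
  obtain ⟨j, hj⟩ := (key a).1 (h _ h2.neg.all.ex ⟨_, ⟨_, h1.neg, rfl⟩, rfl⟩ _ _
    ((key _).2 ⟨0, rep_mk _ _⟩) (fun x hx => ((key x).1 hx).elim fun j e => (key _).2
      ⟨j + 1, (e.and (succ_ae x)).mono fun m e => by rw [e.2, e.1]⟩) a)
  obtain ⟨m, a1, a2, a3⟩ := (ha.and (hj.and (U_ge (j + 1)))).exists
  rw [a1] at a2
  exact absurd (a2 ▸ a3 : j + 1 ≤ j) (by omega)

noncomputable abbrev C2 : Cut := { C1 with R := fun _ _ _ => False }

theorem nodef (h : C1.I → C1.I) (hp : IsPath C1.M TR h) (φ : Fm) (hφ : FO φ) (v : ℕ → C1.I)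
    (V : ℕ → Set C1.I) : ¬ ∀ x y, h x = y ↔ Sat C1.M φ (cons y (cons x v)) V := by
  intro hf
  obtain ⟨d, h3, h4⟩ := code φ.sup v
  obtain ⟨s, hs⟩ := ex_rep h3
  choose w hw using fun i => ex_rep (f := fun m => dec (rep s m) i)
    ((bd_rep s).mono (Eventually.of_forall fun _ => dec_le _ _))
  have key : ∀ p, h s = p ↔ Sat C2.M φ (cons p (cons s w)) fun i => Zs (p := C2) (cons p (cons s w) i) :=
    fun p => (hf s p).trans ((sat_congr φ (cons_congr (cons_congr (fun i hi => (ext_iff _ _).2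
      (((hw i).and (hs.and (h4 i hi))).mono fun m e => by rw [e.1, e.2.1, e.2.2])) _) _)
      fun _ _ => rfl).trans (sat_fo (M := C1.M) C2.M.S hφ _ _ _).symm)
  obtain ⟨c, hc, hc'⟩ := hp (C1.M.add s C1.M.one)
  obtain ⟨K, h6, h7⟩ := overspill ((mem_TR hc').1 hc s ((succ_ae s).mono fun m e => by omega))
  obtain ⟨x', h8⟩ := ae_choose h7
  obtain ⟨K', h9, h10⟩ := overspill (P := fun k m => E (fun j => FF^[j] m) (fun _ _ => False) k
      (dec (Nat.pair (rep (h s) m) (Nat.pair (rep s m) (rep s m))))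
      (dec (Nat.pair (x' m) (Nat.pair (rep s m) (rep s m))))) fun k => by
    obtain ⟨T, _, τ, b1, b2⟩ := E_prim k
    choose e he using fun t => dom (Q := fun y _ => τ (fun j => (Fz y.unpair.1)^[j] y.unpair.2.unpair.1)
      (dec (Nat.pair y.unpair.2.unpair.2.unpair.2 (Nat.pair y.unpair.2.unpair.2.unpair.1
        y.unpair.2.unpair.2.unpair.1))) = t) ((b2 _ (fun j => pr_it (pr_l .id) (.const j)
          (pr_l (pr_r .id))) t).comp .fst (pr_pair (pr_r (pr_r (pr_r .fst))) (pr_pair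
            (pr_l (pr_r (pr_r .fst))) (pr_l (pr_r (pr_r .fst))))))
    obtain ⟨J, hJ⟩ := bd_TT (bd_it k)
    filter_upwards [hJ, h8, h6 (J + 1), (eventually_all (ι := T)).2 fun t => h6 (e t + 1)] with
      m a1 a2 a3 a4
    refine E_congr (β := fun j => (Fz (FF^[J] m))^[j] m)
      (fun j hj => itz_eq ((TT_mono ((FF_it m).monotone hj.le)).trans a1)) (b1 _ _ _ ?_)
    have := fun t => ((he t _).1.symm.trans (a2.2.2 J a3 (e t) (a4 t))).trans (he t _).1
    simp only [Nat.unpair_pair, exists_const] at this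
    exact ((this _).1 rfl).symm
  obtain ⟨p, hp⟩ := ex_rep (f := x') ((bd_pow ((bd_rep s).add (bd_it 0))).mono
    (h8.mono fun _ e => e.1.le))
  have := (key p).2 ((C2.isBF.sat φ (fun _ => Iff.rfl) id id ⟨id, K', _, _, h9, ?_, h10⟩).1
    ((key _).1 rfl))
  · obtain ⟨m, a1, a2⟩ := (h8.and hp).exists
    exact a1.2.1 (by rw [this, a2])
  · simp only [dec_pair]
    rintro (_ | _ | i)
    · exact hp.mono fun _ e => ⟨rfl, e⟩
    · exact Eventually.of_forall fun _ => ⟨rfl, rfl⟩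
    · exact (hw i).mono fun _ e => ⟨e, e⟩

end Pool.Agent.H40.Bsig
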