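import Pool.Agent.H40.Cut1

set_option autoImplicit false

namespace Pool.Agent.H40.Gen.Cs

open Filter
open Bsig (cons)

theorem td_cst (c : ℕ) : TD fun _ => c := by
  induction c with
  | zero => exact .zero
  | succ c ih => exact ih.add .one

theorem td_sub (t : Tm) {s : ℕ → (ℕ → ℕ) → ℕ} (h : ∀ i, TD (s i)) :
    TD fun u => t.ev std fun i => s i u := by
  induction t with
  | var i => exact h i
  | zero => exact .zero
  | one => exact .one
  | add _ _ a b => exact a.add b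
  | mul _ _ a b => exact a.mul b
  | pow _ _ a b => exact TD.pow a b

theorem b0_sub {θ : Fm} (hθ : Bdd θ) : ∀ {s : ℕ → (ℕ → ℕ) → ℕ}, (∀ i, TD (s i)) →
    B0 fun u => Sat std θ fun i => s i u := by
  induction hθ with
  | eq a b => exact fun h => .eq (td_sub a h) (td_sub b h)
  | lt a b => exact fun h => .lt (td_sub a h) (td_sub b h)
  | neg _ a => exact fun h => (a h).not
  | and _ _ a b => exact fun h => (a h).and (b h)
  | @ball t φ _ a =>
    intro s h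
    refine .ball (td_sub t h) (R := fun x u => Sat std φ (cons x fun i => s i u))
      ((a (s := cons (fun u => u 0) fun i u => s i fun k => u (k + 1)) ?_).congr fun u => ?_)
    · rintro (_ | i)
      exacts [.var 0, fun ρ => h i fun k => ρ (k + 1)]
    · exact iff_of_eq (congrArg _ (funext (by rintro (_ | i) <;> rfl)))

theorem b0_le {f g : (ℕ → ℕ) → ℕ} (a : TD f) (b : TD g) : B0 fun v => f v ≤ g v :=
  (B0.lt b a).not.congr fun _ => not_lt

theorem b0_imp {P Q : (ℕ → ℕ) → Prop} (a : B0 P) (b : B0 Q) : B0 fun v => P v → Q v :=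
  (a.not.or b).congr fun _ => imp_iff_not_or.symm

theorem s1_fm {P : (ℕ → ℕ) → Prop} (h : S1 P) : ∃ φ, Lv 1 true φ ∧ ∀ v, Sat std φ v ↔ P v := by
  obtain ⟨Q, h, h'⟩ := h
  obtain ⟨θ, h1, h3⟩ := h id
  exact ⟨θ.ex, ⟨θ, h1, rfl⟩, fun v => (exists_congr fun w => h3 _).trans (h' v).symm⟩

theorem ex_bits (n : ℕ) (P : ℕ → Prop) : ∃ a < 2 ^ n, ∀ x, a.testBit x = true ↔ x < n ∧ P x := by
  classical
  refine ⟨Nat.ofBits fun i : Fin n => decide (P i), Nat.ofBits_lt_two_pow _, fun x => ?_⟩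
  rw [Nat.testBit_ofBits]
  split_ifs with h <;> simp [h]

variable (HA HW : ℕ → ℕ → Prop)

def HT (p s : ℕ) : Prop := HA p s ∧ ∀ w < s, ¬ HA p w

def Gap (V : ℕ → Prop) (s t : ℕ) : Prop := EE s ≤ t ∧ ∀ x < s + 1, V x ∨ ∃ w < t + 1, HW x w

def Ch (V : ℕ → Prop) (n : ℕ) : ℕ → ℕ → Prop
  | 0, t => n ≤ t
  | d + 1, t => ∃ p < n, ∃ s < t, HT HA p s ∧ Ch V n d s ∧ Gap HW V s t

variable {HA HW} {V V' : ℕ → Prop} {n : ℕ}

theorem Gap.mono {s t t' : ℕ} (h : Gap HW V s t) (e : t ≤ t') : Gap HW V s t' :=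
  ⟨h.1.trans e, fun x hx => (h.2 x hx).imp_right fun ⟨w, a, b⟩ => ⟨w, by omega, b⟩⟩

theorem Ch.mono {d t t' : ℕ} (h : Ch HA HW V n d t) (e : t ≤ t') : Ch HA HW V n d t' := by
  cases d with
  | zero => exact le_trans h e
  | succ d =>
    obtain ⟨p, a, s, b, c, k, l⟩ := h
    exact ⟨p, a, s, b.trans_le e, c, k, l.mono e⟩

theorem Ch.le : ∀ {d t : ℕ}, Ch HA HW V n d t → n ≤ t
  | 0, _, h => h
  | _ + 1, _, ⟨_, _, _, b, _, k, _⟩ => k.le.trans b.le

theorem Ch.imp : ∀ {d t : ℕ}, (∀ x < t + 1, V x → V' x) → Ch HA HW V n d t → Ch HA HW V' n d t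
  | 0, _, _, h => h
  | _ + 1, _, e, ⟨p, a, s, b, c, k, l⟩ => ⟨p, a, s, b, c, k.imp fun x hx => e x (by omega), l.1,
      fun x hx => (l.2 x hx).imp_left (e x (by omega))⟩

theorem Ch.seq : ∀ {d t : ℕ}, Ch HA HW V n d t → ∃ f g : ℕ → ℕ, g d = t ∧ ∀ i < d,
    f i < n ∧ HT HA (f i) (g i) ∧ n ≤ g i ∧ Gap HW V (g i) (g (i + 1))
  | 0, t, _ => ⟨id, fun _ => t, rfl, by simp⟩
  | d + 1, t, ⟨p, a, s, _, c, k, l⟩ => by
    obtain ⟨f, g, h1, h2⟩ := k.seq
    refine ⟨Function.update f d p, Function.update g (d + 1) t, by simp, fun i hi => ?_⟩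
    rw [Function.update_of_ne hi.ne t g]
    rcases (Nat.lt_succ_iff.1 hi).eq_or_lt with rfl | e
    · simp only [Function.update_self, h1]
      exact ⟨a, c, k.le, l⟩
    · rw [Function.update_of_ne e.ne, Function.update_of_ne (by omega)]
      exact h2 i e

theorem ex_gap (s : ℕ) : ∃ t, Gap HW (fun x => ¬ ∃ w, HW x w) s t := by
  have : ∀ x, ∃ w, (∃ w, HW x w) → HW x w := fun x => by
    by_cases e : ∃ w, HW x w
    exacts [e.imp fun _ a _ => a, ⟨0, fun a => absurd a e⟩]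
  choose y hy using this
  refine ⟨EE s + (Finset.range (s + 1)).sup y, Nat.le_add_right _ _, fun x hx => or_iff_not_imp_left.2
    fun e => ⟨y x, ?_, hy x (not_not.1 e)⟩⟩
  have := Finset.le_sup (f := y) (Finset.mem_range.2 hx)
  omega

theorem b0_HT (hA : ∀ i j, B0 fun u => HA (u i) (u j)) (i j : ℕ) : B0 fun u => HT HA (u i) (u j) :=
  (hA i j).and (.ball (.var j) (hA (i + 1) 0).not (R := fun w u => ¬ HA (u i) w))

theorem b0_Ch (hA : ∀ i j, B0 fun u => HA (u i) (u j)) (hW : ∀ i j, B0 fun u => HW (u i) (u j))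
    (d : ℕ) : ∀ i j k, B0 fun u => Ch HA HW (fun x => (u k).testBit x = true) (u i) d (u j) := by
  induction d with
  | zero => exact fun i j k => b0_le (.var i) (.var j)
  | succ d ih =>
    exact fun i j k => .bex (.var i) (.bex (.var (j + 1)) ((b0_HT hA 1 0).and ((ih (i + 2) 0 (k + 2)).and
      ((b0_le (TD.pow ((TD.var 0).add (td_cst 2)) ((TD.var 0).add (td_cst 2))) (.var (j + 2))).and
        (.ball ((TD.var 0).add .one) ((b0_bit 0 (k + 3)).or (.bex ((TD.var (j + 3)).add .one) (hW 1 0)))))))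
      (R := fun s u => HT HA (u 0) s ∧ Ch HA HW (fun x => (u (k + 1)).testBit x = true) (u (i + 1)) d s ∧
        Gap HW (fun x => (u (k + 1)).testBit x = true) s (u (j + 1))))
      (R := fun p u => ∃ s < u j, HT HA p s ∧ Ch HA HW (fun x => (u k).testBit x = true) (u i) d s ∧
        Gap HW (fun x => (u k).testBit x = true) s (u j))

theorem ex_HT {p : ℕ} (h : ∃ w, HA p w) : ∃ s, HT HA p s := by
  classical
  exact ⟨_, Nat.find_spec h, fun _ => Nat.find_min h⟩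

theorem red_std (hA : ∀ i j, B0 fun u => HA (u i) (u j)) (hW : ∀ i j, B0 fun u => HW (u i) (u j))
    (hd : ∃ d n₀, ∀ n, n₀ ≤ n → ∀ t, ¬ Ch HA HW (fun x => ¬ ∃ w, HW x w) n d t) :
    Red std {p | ∃ w, HA p w} {x | ∃ w, HW x w} := by
  classical
  obtain ⟨n₀, h0⟩ := Nat.find_spec hd
  obtain ⟨d, e⟩ := Nat.exists_eq_succ_of_ne_zero (n := Nat.find hd) fun e =>
    h0 n₀ le_rfl n₀ (by rw [e]; exact le_rfl)
  have h1 := Nat.find_min hd (m := d) (by omega)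
  rw [e] at h0
  have h1 : ∀ n₀, ∃ n, n₀ ≤ n ∧ ∃ t, Ch HA HW (fun x => ¬ ∃ w, HW x w) n d t := fun n₀ =>
    by_contra fun e => h1 ⟨n₀, fun n a t b => e ⟨n, a, t, b⟩⟩
  have h2 : ∀ n t p, n₀ ≤ n → Ch HA HW (fun x => ¬ ∃ w, HW x w) n d t → p < n → (∃ w, HA p w) →
      ∃ w < t, HA p w := fun n t p a b c k => by
    obtain ⟨s, k⟩ := ex_HT k
    obtain ⟨t', l⟩ := ex_gap (HW := HW) s
    exact ⟨s, not_le.1 fun e => h0 n a t' ⟨p, c, s, (lt_EE s).trans_le l.1, k, b.mono e, l⟩, k.1⟩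
  obtain ⟨φ, a1, a2⟩ := s1_fm (P := fun u => ∃ n t, n₀ ≤ n ∧ u 0 ≤ n ∧ u 1 ≤ n ∧
      Ch HA HW (fun x => (u 3).testBit x = true) n d t ∧
      (∀ z < u 0, (u 0).testBit z = true → ∃ w < t, HA z w) ∧
      ∀ z < u 1, (u 1).testBit z = true → ¬ ∃ w < t, HA z w)
    (.ex (.ex (B0.s1 ((b0_le (td_cst n₀) (.var 1)).and ((b0_le (.var 2) (.var 1)).and
      ((b0_le (.var 3) (.var 1)).and ((b0_Ch hA hW d 1 0 5).and (B0.and
        (.ball (.var 2) (b0_imp (b0_bit 0 3) (.bex (.var 1) (hA 1 0))))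
        (.ball (.var 3) (b0_imp (b0_bit 0 4) (B0.bex (.var 1) (hA 1 0)).not))))))))))
  refine ⟨φ, fun _ => 0, a1, fun x y => ?_⟩
  simp only [a2, Sub, mem_std, cons]
  refine ⟨fun ⟨b1, b2⟩ => ?_, fun ⟨u, v, _, b1, n, t, b2, b3, b4, b5, b6, b7⟩ =>
    ⟨fun z hz => (b6 z (bit_lt hz) hz).imp fun _ => And.right, fun z hz e => b7 z (bit_lt hz) hz
      (h2 n t z b2 (b5.imp fun x _ => b1 x) ((bit_lt hz).trans_le b4) e)⟩⟩
  obtain ⟨n, b3, t, b4⟩ := h1 (n₀ + x + y)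
  obtain ⟨v, -, hv⟩ := ex_bits (t + 1) fun x => ¬ ∃ w, HW x w
  exact ⟨0, v, by simp, fun z hz => ((hv z).1 hz).2, n, t, by omega, by omega, by omega,
    b4.imp fun z a b => (hv z).2 ⟨a, b⟩, fun z a b => h2 n t z (by omega) b4 (by omega) (b1 z b),
    fun z _ b e => b2 z b (e.imp fun _ => And.right)⟩

def QQ (HA HW : ℕ → ℕ → Prop) (t x y n S : ℕ) : Prop := ∃ p < n, ∃ q < n, ∃ s < t, S.testBit p = true ∧
  S.testBit q = true ∧ HT HA p s ∧ HT HA q t ∧ x ≤ s ∧ y ≤ s ∧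
    (∀ z < x, x.testBit z = true → ∃ w < t + 1, HW z w) ∧
      ∀ z < y, y.testBit z = true → ¬ ∃ w < t + 1, HW z w

theorem HT.uniq {p s t : ℕ} (a : HT HA p s) (b : HT HA p t) : s = t :=
  le_antisymm (not_lt.1 fun e => a.2 _ e b.1) (not_lt.1 fun e => b.2 _ e a.1)

theorem ex_sys (hA : ∀ i j, B0 fun u => HA (u i) (u j)) (hW : ∀ i j, B0 fun u => HW (u i) (u j))
    (hd : ∀ d, ∃ n t, Ch HA HW (fun x => ¬ ∃ w, HW x w) n d t) :
    ∃ p : Sys, ∀ B, Red (M p) {x | ∃ w : I p, ∀ᶠ m in p.U, HW (rep x m) (rep w m)} B := by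
  choose n t h using hd
  choose f g _ h using fun d => (h d).seq
  have hU : ∀ k : ℕ, ∀ᶠ m in (hyperfilter ℕ : Filter ℕ), k ≤ m := Bsig.U_ge
  let p : Sys := ⟨hyperfilter ℕ, Set.univ, fun k m => g m k, fun _ => trivial, fun _ _ _ _ => trivial,
    fun _ _ _ _ => trivial, fun _ => trivial, fun k => (hU (k + 1)).mono fun m e => (h m k e).2.2.2.1⟩
  have ch : ∀ {P : ℕ → ℕ → Prop} (b : I p), (∀ᶠ m in p.U, ∃ x < rep b m + 1, P m x) →
      ∃ x : I p, ∀ᶠ m in p.U, P m (rep x m) := fun b e => (ex_min (Set.mem_univ _) (bd_rep b).2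
    (e.mono fun _ => Exists.imp fun _ a => ⟨Nat.lt_succ_iff.1 a.1, a.2⟩)).imp fun _ a =>
      a.mono fun _ => And.left
  choose S h1 h2 using fun m => ex_bits (n m) fun x => ∃ i < m, x = f m i
  have bn : Bd p n := ⟨trivial, 0, (hU 1).mono fun m e => (h m 0 e).2.2.1⟩
  obtain ⟨N, hN⟩ := ex_rep bn
  obtain ⟨T, hT⟩ := ex_rep (p := p) (f := S) ⟨trivial, ((bd_cst 2).pow bn).2.mono
    (Eventually.of_forall fun m => (h1 m).le)⟩
  obtain ⟨θ, a1, a2⟩ := absl0 (p := p) (P := fun u => QQ HA HW (u 0) (u 1) (u 2) (u 5) (u 6))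
    (.bex (.var 5) (.bex (.var 6) (.bex (.var 2) ((b0_bit 2 9).and ((b0_bit 1 9).and
      ((b0_HT hA 2 0).and ((b0_HT hA 1 3).and ((b0_le (.var 4) (.var 0)).and
        ((b0_le (.var 5) (.var 0)).and (B0.and
        (.ball (.var 4) (b0_imp (b0_bit 0 5) (.bex ((TD.var 4).add .one) (hW 1 0))))
        (.ball (.var 5) (b0_imp (b0_bit 0 6) (B0.bex ((TD.var 4).add .one) (hW 1 0)).not))))))))))))
  have gm : ∀ m i j, i ≤ j → j ≤ m → g m i ≤ g m j := fun m i j a => by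
    induction a with
    | refl => exact fun _ => le_rfl
    | step _ ih => exact fun b => (ih (by omega)).trans ((lt_EE _).le.trans (h m _ b).2.2.2.1)
  refine ⟨p, fun B => ⟨θ.ex, cons N fun _ => T, ⟨θ, a1, rfl⟩, fun x y => ?_⟩⟩
  simp only [Sat, a2, Sub, mem_iff, cons]
  refine ⟨fun ⟨b1, b2⟩ => ?_, fun ⟨u, v, _, _, t, b⟩ => ⟨fun z hz => ch t ((b.and hz).mono
    fun m ⟨⟨_, _, _, _, _, _, _, _, _, _, _, _, a, _⟩, c⟩ => a _ (bit_lt c) c), fun z hz ⟨w, e⟩ => ?_⟩⟩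
  · obtain ⟨k, b3⟩ := ((bd_rep x).add (bd_rep y)).2
    obtain ⟨t, ht⟩ := ex_rep (p := p) (bd_be (k + 1))
    have z0 : ∀ z : I p, ¬ ∀ᶠ m in p.U, (rep (M p).zero m).testBit (rep z m) = true := fun z e =>
      (e.and zero_ae).exists.elim fun m e => by simp [e.2] at e
    have b4 : ∀ᶠ m in p.U, ∀ z < rep x m, (rep x m).testBit z = true → ∃ w < rep t m + 1, HW z w := by
      by_contra e
      obtain ⟨z, hz⟩ := ch (P := fun m z => (rep x m).testBit z = true ∧ ¬ ∃ w < rep t m + 1, HW z w) x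
        ((ae_not.2 e).mono fun m e => by
          push Not at e ⊢
          exact e.imp fun _ a => ⟨by omega, a.2⟩)
      obtain ⟨w, hw⟩ := b1 z (hz.mono fun _ => And.left)
      obtain ⟨m, c1, c2, c3, c4, c5⟩ := (hz.and (hw.and (b3.and (ht.and (hU (k + 1)))))).exists
      exact c1.2 (c4 ▸ ((h m k c5).2.2.2.2 _ (Nat.lt_succ_of_le (((bit_lt c1.1).le.trans
        (Nat.le_add_right _ _)).trans c3))).resolve_left
        fun e => e ⟨_, c2⟩)
    have b5 : ∀ᶠ m in p.U, ∀ z < rep y m, (rep y m).testBit z = true → ¬ ∃ w < rep t m + 1, HW z w := by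
      by_contra e
      obtain ⟨z, hz⟩ := ch (P := fun m z => (rep y m).testBit z = true ∧ ∃ w < rep t m + 1, HW z w) y
        ((ae_not.2 e).mono fun m e => by
          push Not at e
          exact e.imp fun _ a => ⟨by omega, a.2⟩)
      exact b2 z (hz.mono fun _ => And.left) (ch t (hz.mono fun _ => And.right))
    refine ⟨(M p).zero, (M p).zero, fun z e => (z0 z e).elim, fun z e => (z0 z e).elim, t, ?_⟩
    filter_upwards [b3, ht, b4, b5, hN, hT, hU (k + 2)] with m c1 c2 c3 c4 c5 c6 c7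
    have c1 : rep x m + rep y m ≤ g m k := c1
    have c2 : rep t m = g m (k + 1) := c2
    have d1 := h m k (by omega)
    have d2 := h m (k + 1) (by omega)
    rw [c5, c6]
    exact ⟨_, d1.1, _, d2.1, g m k, c2 ▸ (lt_EE _).trans_le d1.2.2.2.1, (h2 m _).2 ⟨d1.1, k, by omega, rfl⟩,
      (h2 m _).2 ⟨d2.1, k + 1, by omega, rfl⟩, d1.2.1, c2 ▸ d2.2.1, by omega, by omega, c3, c4⟩
  · obtain ⟨m, ⟨p, _, q, _, s, c1, c2, c3, c4, c5, _, c6, _, c7⟩, d1, d2, d3⟩ :=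
      (b.and (hz.and (e.and hT))).exists
    rw [d3] at c2 c3
    obtain ⟨-, i, e1, rfl⟩ := (h2 m _).1 c2
    obtain ⟨-, j, e2, rfl⟩ := (h2 m _).1 c3
    have e3 := c4.uniq (h m i e1).2.1
    have e4 := c5.uniq (h m j e2).2.1
    have e5 : i < j := not_le.1 fun e => by have := gm m j i e e1.le; omega
    have := bit_lt d1
    exact c7 _ this d1 ((((h m i e1).2.2.2.mono (e4 ▸ gm m _ _ e5 e2.le)).2 _
      (by omega)).resolve_left fun e => e ⟨_, d2⟩)

theorem dichotomy (φ : Fm) (hφ : Lv 1 true φ) : ∃ M : Mod, PAm M ∧ Ind M 0 ∧ Bnd M 1 ∧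
    ((∀ B, Red M {x | Sat M φ (cons x fun _ => M.zero)} B) ∨
      ∀ A, Dfn M 1 true A → Red M A {x | Sat M φ (cons x fun _ => M.zero)}) := by
  obtain ⟨θ, hθ, rfl⟩ := hφ
  have k : ∀ {α}, Bdd α → ∀ (v : ℕ → ℕ) i j, B0 fun u => Sat std α (cons (u j) (cons (u i) v)) :=
    fun hα v i j => (b0_sub hα (s := cons (fun u => u j) (cons (fun u => u i) fun k _ => v k)) (by
      rintro (_ | _ | i)
      exacts [.var _, .var _, td_cst _])).congr
      fun u => iff_of_eq (congrArg _ (funext (by rintro (_ | _ | i) <;> rfl)))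
  by_cases h : ∀ A, Dfn std 1 true A → Red std A {x | Sat std θ.ex (cons x fun _ => 0)}
  · exact ⟨std, std_pam, std_ind 0, std_bnd 1, Or.inr h⟩
  push Not at h
  obtain ⟨A, ⟨_, v, ⟨α, hα, rfl⟩, h1⟩, h2⟩ := h
  obtain ⟨p, hp⟩ := ex_sys (HA := fun p w => Sat std α (cons w (cons p v)))
    (HW := fun x w => Sat std θ (cons w (cons x fun _ => 0))) (k hα v) (k hθ _) fun d =>
    by_contra fun e => h2 (by
      rw [show A = _ from Set.ext h1]
      exact red_std (k hα v) (k hθ _) ⟨d, 0, fun n _ t a => e ⟨n, t, a⟩⟩)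
  refine ⟨M p, pam, ind0, bnd1, Or.inl fun B => ?_⟩
  rw [show {x | Sat (M p) θ.ex (cons x fun _ => (M p).zero)} = _ from Set.ext fun x =>
    exists_congr fun w => los hθ _ _ (cons_ae (cons_ae (fun _ => zero_ae) rfl_ae) rfl_ae)]
  exact hp B

end Pool.Agent.H40.Gen.Cs
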