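import Mathlib

set_option autoImplicit false

namespace Pool.Agent.H40.Sib

abbrev G : Type := FreeGroup ℕ

noncomputable def tot : (G →₀ ZMod 2) →ₗ[ZMod 2] ZMod 2 :=
  Finsupp.linearCombination (ZMod 2) fun _ => 1

theorem tot_single (a : G) (b : ZMod 2) : tot (Finsupp.single a b) = b := by
  simp [tot]

noncomputable def tr (g : G) (c : G →₀ ZMod 2) : G →₀ ZMod 2 :=
  Finsupp.mapDomain (Equiv.mulLeft g⁻¹) c

theorem tr_apply (g : G) (c : G →₀ ZMod 2) (x : G) : tr g c x = c (g * x) := by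
  rw [tr, Finsupp.mapDomain_equiv_apply]
  simp

theorem tot_tr (g : G) (c : G →₀ ZMod 2) : tot (tr g c) = tot c := by
  rw [tr, tot, Finsupp.linearCombination_mapDomain]
  rfl

instance : Countable G :=
  (show Function.Injective (FreeGroup.toWord : G → _) from fun _ _ h =>
    FreeGroup.toWord_injective h).countable

def step (g : G) (c : G → ZMod 2) : Equiv.Perm (G × ZMod 2) where
  toFun := fun z => (g * z.1, z.2 + c z.1)
  invFun := fun z => (g⁻¹ * z.1, z.2 - c (g⁻¹ * z.1))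
  left_inv := fun z => by simp
  right_inv := fun z => by simp

theorem exists_chi : ∃ χ : G → ZMod 2,
    (∀ g, ∃ c : G →₀ ZMod 2, tot c = 0 ∧ ∀ x, χ (g * x) = χ x + c x) ∧
    ∀ f f' : G →₀ ZMod 2, tot f = tot f' → ∃ g, ∀ x, χ (g * x) + f' (g * x) = χ x + f x := by
  haveI : Nonempty {z : (G →₀ ZMod 2) × (G →₀ ZMod 2) // tot z.1 = tot z.2} := ⟨⟨(0, 0), rfl⟩⟩
  obtain ⟨e, he⟩ :=
    exists_surjective_nat {z : (G →₀ ZMod 2) × (G →₀ ZMod 2) // tot z.1 = tot z.2}
  let Φ : G →* Equiv.Perm (G × ZMod 2) := FreeGroup.lift fun n =>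
    step (FreeGroup.of n) ((e n).1.1 - tr (FreeGroup.of n) (e n).1.2 : G →₀ ZMod 2)
  have hof : ∀ n, Φ (FreeGroup.of n) =
      step (FreeGroup.of n) ((e n).1.1 - tr (FreeGroup.of n) (e n).1.2 : G →₀ ZMod 2) :=
    fun n => FreeGroup.lift_apply_of
  have key : ∀ g, ∃ c : G →₀ ZMod 2, tot c = 0 ∧ ∀ x b, Φ g (x, b) = (g * x, b + c x) := by
    intro g
    induction g using FreeGroup.induction_on with
    | C1 => exact ⟨0, map_zero _, fun x b => by simp⟩
    | of n =>
      exact ⟨(e n).1.1 - tr (FreeGroup.of n) (e n).1.2,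
        by rw [map_sub, tot_tr, (e n).2, sub_self], fun x b => by rw [hof]; rfl⟩
    | inv_of n ih =>
      obtain ⟨c, h1, h2⟩ := ih
      refine ⟨-tr (FreeGroup.of n)⁻¹ c, by rw [map_neg, tot_tr, h1, neg_zero], fun x b => ?_⟩
      rw [map_inv, Equiv.Perm.inv_eq_iff_eq, h2, Finsupp.neg_apply, tr_apply, mul_inv_cancel_left,
        neg_add_cancel_right]
    | mul g h ihg ihh =>
      obtain ⟨c, h1, h2⟩ := ihg
      obtain ⟨d, h3, h4⟩ := ihh
      refine ⟨d + tr h c, by rw [map_add, tot_tr, h1, h3, add_zero], fun x b => ?_⟩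
      rw [map_mul, Equiv.Perm.mul_apply, h4, h2]
      simp [tr_apply, mul_assoc, add_assoc]
  have h0 : ∀ x, Φ x (1, 0) = (x, (Φ x (1, 0)).2) := fun x => by
    obtain ⟨c, -, h⟩ := key x
    rw [h, mul_one]
  refine ⟨fun x => (Φ x (1, 0)).2, fun g => ?_, fun f f' h => ?_⟩
  · obtain ⟨c, h1, h2⟩ := key g
    exact ⟨c, h1, fun x => by simp only; rw [map_mul, Equiv.Perm.mul_apply, h0 x, h2]⟩
  · obtain ⟨n, hn⟩ := he ⟨(f, f'), h⟩
    refine ⟨FreeGroup.of n, fun x => ?_⟩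
    simp only
    rw [map_mul, Equiv.Perm.mul_apply, h0 x, hof, hn]
    simp only [step, Equiv.coe_fn_mk, Finsupp.sub_apply, tr_apply]
    ring

noncomputable def chi : G → ZMod 2 := exists_chi.choose

theorem chi_a (g : G) : ∃ c : G →₀ ZMod 2, tot c = 0 ∧ ∀ x, chi (g * x) = chi x + c x :=
  exists_chi.choose_spec.1 g

theorem chi_b (f f' : G →₀ ZMod 2) (h : tot f = tot f') :
    ∃ g, ∀ x, chi (g * x) + f' (g * x) = chi x + f x :=
  exists_chi.choose_spec.2 f f' h

theorem chi_two : ∃ a b, a ≠ b ∧ chi a = 1 ∧ chi b = 1 := by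
  let a : G := FreeGroup.of 0
  let b : G := FreeGroup.of 1
  let d : G := FreeGroup.of 2
  have h1 : a ≠ b := FreeGroup.of_injective.ne (by omega)
  have h2 : a ≠ d := FreeGroup.of_injective.ne (by omega)
  have h3 : b ≠ d := FreeGroup.of_injective.ne (by omega)
  obtain ⟨g, hg⟩ := chi_b 0 (Finsupp.single a (1 - chi a) + Finsupp.single b (1 - chi b) +
    Finsupp.single d (-(1 - chi a) - (1 - chi b))) (by simp [tot_single])
  refine ⟨g⁻¹ * a, g⁻¹ * b, fun h => h1 (mul_left_cancel h), ?_, ?_⟩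
  · have := hg (g⁻¹ * a)
    simpa [Finsupp.single_apply, h1.symm, h2.symm] using this.symm
  · have := hg (g⁻¹ * b)
    simpa [Finsupp.single_apply, h1, h3.symm] using this.symm

end Pool.Agent.H40.Sib
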