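import Pool.Agent.H40.Sib1

set_option autoImplicit false

namespace Pool.Agent.H40.Sib

open FirstOrder FirstOrder.Language

inductive Rl : ℕ → Type
  | r : G → Rl 2
  | k : Rl 1

abbrev LL : FirstOrder.Language.{0, 0} := ⟨fun _ => Empty, Rl⟩

instance : LL.IsRelational := fun _ => inferInstanceAs (IsEmpty Empty)

instance (n : ℕ) : Countable (Rl n) := by
  let f : Rl n → Option G := fun z => match n, z with
    | _, .r s => some s
    | _, .k => none
  refine (show Function.Injective f from fun a b h => ?_).countable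
  cases a <;> cases b
  · simp only [f, Option.some.injEq] at h
    rw [h]
  · rfl

instance : Countable LL.Symbols :=
  inferInstanceAs (Countable ((Σ _ : ℕ, Empty) ⊕ Σ n : ℕ, Rl n))

abbrev MM : Type := {p : G × Bool // p.2 = true → chi p.1 = 1}

instance str : LL.Structure MM where
  funMap := fun f => f.elim
  RelMap := fun {n} R v => match n, R, v with
    | _, .r s, v => (v 1).1.1 = (v 0).1.1 * s
    | _, .k, v => (v 0).1.2 = true

def base (x : G) : MM := ⟨(x, false), fun h => absurd h (by simp)⟩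

/-! ### Siblings -/

theorem emb_shift {A : Type} [LL.Structure A] (i u : LL.Embedding A MM) (a₀ : A)
    (h : (i a₀).1.1 = 1) (a : A) :
    (u a).1.1 = (u a₀).1.1 * (i a).1.1 ∧ (u a).1.2 = (i a).1.2 := by
  constructor
  · exact (u.map_rel (Rl.r (i a).1.1) ![a₀, a]).2 ((i.map_rel (Rl.r (i a).1.1) ![a₀, a]).1
      (show (i a).1.1 = (i a₀).1.1 * (i a).1.1 by rw [h, one_mul]))
  · exact Bool.eq_iff_iff.2 ((u.map_rel Rl.k ![a]).trans (i.map_rel Rl.k ![a]).symm)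

def In (N : LL.Substructure MM) (p : G × Bool) : Prop := ∃ h, (⟨p, h⟩ : MM) ∈ N

def Rep (N : LL.Substructure MM) (f : G →₀ ZMod 2) : Prop :=
  ∀ p : G × Bool, In N p ↔ (p.2 = true → chi p.1 + f p.1 = 1)

theorem zm (a : ZMod 2) : a = 0 ∨ a = 1 := by revert a; decide

theorem zm_ext {a b : ZMod 2} (h : a = 1 ↔ b = 1) : a = b := by revert a b; decide

theorem exists_rep (N : LL.Substructure MM) (e : LL.Embedding MM N) : ∃ f, Rep N f := by
  classical
  have h1 := emb_shift (Embedding.refl LL MM) (N.subtype.comp e) (base 1) rfl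
  set h := ((N.subtype.comp e) (base 1)).1.1
  have h2 : ∀ a : MM, In N (h * a.1.1, a.1.2) := fun a => by
    have e1 : (e a).1.1 = (h * a.1.1, a.1.2) := Prod.ext (h1 a).1 (h1 a).2
    exact ⟨e1 ▸ (e a).1.2, by
      have := (e a).2
      rwa [show (e a).1 = ⟨(h * a.1.1, a.1.2), e1 ▸ (e a).1.2⟩ from Subtype.ext e1] at this⟩
  obtain ⟨c, -, hc⟩ := chi_a h⁻¹
  let F : G → ZMod 2 := fun y => (if In N (y, true) then 1 else 0) - chi y
  have hF : (Function.support F).Finite := by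
    refine c.hasFiniteSupport.subset fun y hy hc0 => hy ?_
    by_cases h3 : chi y = 1
    · have h4 := h2 ⟨(h⁻¹ * y, true), fun _ => by rw [hc, hc0, h3, add_zero]⟩
      simp only [mul_inv_cancel_left] at h4
      simp only [F, if_pos h4, h3, sub_self]
    · have h4 : ¬ In N (y, true) := fun ⟨hh, _⟩ => h3 (hh rfl)
      simp only [F, if_neg h4, (zm _).resolve_right h3, sub_self]
  refine ⟨Finsupp.ofSupportFinite F hF, ?_⟩
  rintro ⟨y, _ | _⟩
  · refine iff_of_true ?_ fun h => absurd h (by simp)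
    have := h2 (base (h⁻¹ * y))
    simpa [base] using this
  · simp only [Finsupp.ofSupportFinite_coe, F, add_sub_cancel, forall_const]
    split_ifs with h3
    · exact iff_of_true h3 rfl
    · exact iff_of_false h3 (by decide)

def shiftE {N N' : LL.Substructure MM} {f f' : G →₀ ZMod 2} (h : Rep N f) (h' : Rep N' f')
    (g : G) (hg : ∀ x, chi (g * x) + f' (g * x) = chi x + f x) (a : N) : N' :=
  have k := (h' (g * a.1.1.1, a.1.1.2)).2 fun h1 =>
    (hg _).trans ((h a.1.1).1 ⟨a.1.2, a.2⟩ h1)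
  ⟨⟨(g * a.1.1.1, a.1.1.2), k.1⟩, k.2⟩

theorem iso_of {N N' : LL.Substructure MM} {f f' : G →₀ ZMod 2} (h : Rep N f) (h' : Rep N' f')
    (e : tot f = tot f') : Nonempty (LL.Equiv N N') := by
  obtain ⟨g, hg⟩ := chi_b f f' e
  have hg' : ∀ x, chi (g⁻¹ * x) + f (g⁻¹ * x) = chi x + f' x := fun x => by
    rw [← hg, mul_inv_cancel_left]
  refine ⟨⟨⟨shiftE h h' g hg, shiftE h' h g⁻¹ hg', fun a => ?_, fun a => ?_⟩,
    fun f => f.elim, ?_⟩⟩
  · exact Subtype.ext (Subtype.ext (Prod.ext (inv_mul_cancel_left _ _) rfl))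
  · exact Subtype.ext (Subtype.ext (Prod.ext (mul_inv_cancel_left _ _) rfl))
  · intro n R x
    cases R with
    | r s =>
      show g * (x 1).1.1.1 = g * (x 0).1.1.1 * s ↔ (x 1).1.1.1 = (x 0).1.1.1 * s
      rw [mul_assoc, mul_right_inj]
    | k => exact Iff.rfl

theorem tot_eq {N N' : LL.Substructure MM} {f f' : G →₀ ZMod 2} (h : Rep N f) (h' : Rep N' f')
    (e : LL.Equiv N N') : tot f = tot f' := by
  obtain ⟨h0, h1⟩ := (h (1, false)).2 fun h => absurd h (by simp)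
  have h2 := emb_shift N.subtype (N'.subtype.comp e.toEmbedding) ⟨_, h1⟩ rfl
  set g := ((N'.subtype.comp e.toEmbedding) ⟨_, h1⟩).1.1
  obtain ⟨c, h3, h4⟩ := chi_a g
  have h5 : ∀ x, chi x + f x = chi (g * x) + f' (g * x) := by
    intro x
    refine zm_ext ⟨fun h6 => ?_, fun h6 => ?_⟩
    · obtain ⟨h7, h8⟩ := (h (x, true)).2 fun _ => h6
      have h9 := (h' (e ⟨_, h8⟩).1.1).1 ⟨(e ⟨_, h8⟩).1.2, (e ⟨_, h8⟩).2⟩ (h2 ⟨_, h8⟩).2
      rwa [show (e ⟨_, h8⟩).1.1.1 = g * x from (h2 ⟨_, h8⟩).1] at h9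
    · obtain ⟨h7, h8⟩ := (h' (g * x, true)).2 fun _ => h6
      obtain ⟨a, ha⟩ := e.surjective ⟨_, h8⟩
      have k1 : (e a).1.1.1 = g * a.1.1.1 := (h2 a).1
      have k2 : (e a).1.1.2 = a.1.1.2 := (h2 a).2
      rw [ha] at k1 k2
      have h9 := (h a.1.1).1 ⟨a.1.2, a.2⟩ k2.symm
      rwa [← show x = a.1.1.1 from mul_left_cancel k1] at h9
  have h6 : f = c + tr g f' := Finsupp.ext fun x => by
    have := h5 x
    rw [h4, add_assoc] at this
    rw [Finsupp.add_apply, tr_apply]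
    exact add_left_cancel this
  rw [h6, map_add, h3, tot_tr, zero_add]

def sub (f : G →₀ ZMod 2) : LL.Substructure MM :=
  ⟨{a | a.1.2 = true → chi a.1.1 + f a.1.1 = 1}, fun f => f.elim⟩

theorem rep_sub (f : G →₀ ZMod 2) (h : ∀ x, f x = 1 → chi x = 1) : Rep (sub f) f := by
  refine fun p => ⟨fun ⟨_, h1⟩ => h1, fun h1 => ⟨fun h2 => ?_, h1⟩⟩
  rcases zm (f p.1) with h3 | h3
  · simpa [h3] using h1 h2
  · exact h _ h3

abbrev Sb : Type := {N : LL.Substructure MM // Nonempty (LL.Embedding MM N)}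

abbrev Qt : Type := Quot fun N N' : Sb => Nonempty (LL.Equiv N.1 N'.1)

theorem two : Finite Qt ∧ Nontrivial Qt := by
  choose F hF using fun N : Sb => exists_rep N.1 N.2.some
  let t : Qt → ZMod 2 := Quot.lift (fun N => tot (F N)) fun N N' ⟨e⟩ => tot_eq (hF N) (hF N') e
  have ht : Function.Injective t := by
    rintro ⟨N⟩ ⟨N'⟩ h
    exact Quot.sound (iso_of (hF N) (hF N') h)
  refine ⟨Finite.of_injective t ht, ?_⟩
  obtain ⟨a, b, hab, ha, hb⟩ := chi_two
  have r0 : Rep ⊤ 0 := fun p => ⟨fun ⟨h, _⟩ h1 => by simpa using h h1,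
    fun h => ⟨fun h1 => by simpa using h h1, trivial⟩⟩
  have r1 : Rep (sub (Finsupp.single a 1)) (Finsupp.single a 1) := rep_sub _ fun x hx => by
    by_cases h : a = x
    · exact h ▸ ha
    · simp [h] at hx
  have r2 : Rep (sub (Finsupp.single a 1 + Finsupp.single b 1))
      (Finsupp.single a 1 + Finsupp.single b 1) := rep_sub _ fun x hx => by
    by_cases h : a = x
    · exact h ▸ ha
    · by_cases h' : b = x
      · exact h' ▸ hb
      · simp [h, h'] at hx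
  obtain ⟨e⟩ := iso_of r0 r2 (by rw [map_add, tot_single, tot_single, map_zero]; decide)
  have hle : sub (Finsupp.single a 1 + Finsupp.single b 1) ≤ sub (Finsupp.single a 1) := by
    intro x hx h1
    have h2 := hx h1
    have h3 := x.2 h1
    by_cases h' : b = x.1.1
    · exfalso
      rw [← h'] at h2
      simp [hb, hab] at h2
    · simpa [h'] using h2
  refine ⟨Quot.mk _ ⟨⊤, ⟨Substructure.topEquiv.symm.toEmbedding⟩⟩,
    Quot.mk _ ⟨sub (Finsupp.single a 1), ⟨(Substructure.inclusion hle).comp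
      (e.toEmbedding.comp Substructure.topEquiv.symm.toEmbedding)⟩⟩, fun h => ?_⟩
  have h1 := congrArg t h
  simp only [t] at h1
  rw [tot_eq (hF _) r0 (Language.Equiv.refl _ _), tot_eq (hF _) r1 (Language.Equiv.refl _ _),
    tot_single, map_zero] at h1
  exact absurd h1 (by decide)

/-! ### Mutual algebraicity -/

def Close (S C : Set G) (P : Set (MM × MM)) : Prop :=
  (∀ z ∈ P, z.1.1.2 = z.2.1.2 ∧ (∀ s ∈ S, chi (z.1.1.1 * s) = chi (z.2.1.1 * s)) ∧
    ∀ c ∈ C, (z.1.1.1 = c ↔ z.2.1.1 = c)) ∧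
  ∀ z ∈ P, ∀ w ∈ P, ∀ s ∈ S, (w.1.1.1 = z.1.1.1 * s ↔ w.2.1.1 = z.2.1.1 * s)

theorem Close.swap {S C : Set G} {P : Set (MM × MM)} (h : Close S C P) :
    Close S C (Prod.swap '' P) := by
  constructor
  · rintro _ ⟨z, hz, rfl⟩
    exact ⟨(h.1 z hz).1.symm, fun s hs => ((h.1 z hz).2.1 s hs).symm,
      fun c hc => ((h.1 z hz).2.2 c hc).symm⟩
  · rintro _ ⟨z, hz, rfl⟩ _ ⟨w, hw, rfl⟩ s hs
    exact (h.2 z hz w hw s hs).symm

theorem Close.mono {S C S' C' : Set G} {P : Set (MM × MM)} (h : Close S' C' P) (h1 : S ⊆ S')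
    (h2 : C ⊆ C') : Close S C P :=
  ⟨fun z hz => ⟨(h.1 z hz).1, fun s hs => (h.1 z hz).2.1 s (h1 hs),
    fun c hc => (h.1 z hz).2.2 c (h2 hc)⟩, fun z hz w hw s hs => h.2 z hz w hw s (h1 hs)⟩

theorem fib (T : Set G) (hT : T.Finite) : {a : MM | a.1.1 ∈ T}.Finite :=
  ((hT.prod (Set.finite_univ (α := Bool))).preimage Subtype.val_injective.injOn).subset
    fun _ ha => ⟨ha, trivial⟩

theorem ext_step (S C : Set G) (hS : S.Finite) (hC : C.Finite) :
    ∃ S' C' : Set G, S'.Finite ∧ C'.Finite ∧ ∀ P : Set (MM × MM), P.Finite → Close S' C' P →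
      ∀ a, ∃ a', Close S C (insert (a, a') P) := by
  let T : Set G := insert 1 (S ∪ S⁻¹)
  have hT : T.Finite := (hS.union hS.inv).insert 1
  haveI := hS.to_subtype
  haveI := hC.to_subtype
  let pr : MM → Bool × (S → ZMod 2) × (C → Prop) := fun a =>
    (a.1.2, fun s => chi (a.1.1 * s), fun c => a.1.1 = c)
  let Y : Set MM := {a | (pr ⁻¹' {pr a}).Finite}
  have hY : Y.Finite := (Set.Finite.biUnion (Set.toFinite {ρ | (pr ⁻¹' {ρ}).Finite})
    fun ρ h => h).subset fun a ha => Set.mem_biUnion (show pr a ∈ {ρ | (pr ⁻¹' {ρ}).Finite} from ha)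
      rfl
  refine ⟨Set.image2 (· * ·) T T,
    Set.image2 (· * ·) (C ∪ (fun a : MM => a.1.1) '' Y) T, hT.image2 _ hT,
    (hC.union (hY.image _)).image2 _ hT, fun P hP h a => ?_⟩
  have t1 : (1 : G) ∈ T := Or.inl rfl
  have t2 : ∀ s ∈ S, s ∈ T := fun s hs => Or.inr (Or.inl hs)
  have t3 : ∀ s ∈ T, s⁻¹ ∈ T := by
    rintro s (rfl | hs | hs)
    · exact Or.inl inv_one
    · exact Or.inr (Or.inr (Set.inv_mem_inv.2 hs))
    · exact Or.inr (Or.inl hs)
  have key : ∀ a' : MM, pr a = pr a' →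
      (∀ z ∈ P, ∀ s ∈ T, (a.1.1 = z.1.1.1 * s ↔ a'.1.1 = z.2.1.1 * s)) →
      Close S C (insert (a, a') P) := by
    intro a' h1 h2
    have h0 := h.mono (S := S) (C := C) (fun s hs => ⟨s, t2 s hs, 1, t1, mul_one s⟩)
      fun c hc => ⟨c, Or.inl hc, 1, t1, mul_one c⟩
    constructor
    · rintro z (rfl | hz)
      · exact ⟨congrArg (·.1) h1, fun s hs => congrFun (congrArg (·.2.1) h1) ⟨s, hs⟩,
          fun c hc => iff_of_eq (congrFun (congrArg (·.2.2) h1) ⟨c, hc⟩)⟩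
      · exact h0.1 z hz
    · rintro z (rfl | hz) w (rfl | hw) s hs
      · simp only [left_eq_mul]
      · simp only [← mul_inv_eq_iff_eq_mul]
        exact eq_comm.trans ((h2 w hw _ (t3 s (t2 s hs))).trans eq_comm)
      · exact h2 z hz s (t2 s hs)
      · exact h0.2 z hz w hw s hs
  by_cases hc : ∃ z ∈ P, ∃ g ∈ T, a.1.1 = z.1.1.1 * g
  · obtain ⟨z, hz, g, hg, h1⟩ := hc
    refine ⟨⟨(z.2.1.1 * g, a.1.2), fun h2 => ?_⟩, key _ (Prod.ext rfl (Prod.ext
      (funext fun s => ?_) (funext fun c => propext ?_))) fun w hw s hs => ?_⟩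
    · rw [← (h.1 z hz).2.1 g ⟨g, hg, 1, t1, mul_one g⟩, ← h1]
      exact a.2 h2
    · show chi (a.1.1 * s) = chi (z.2.1.1 * g * s)
      rw [h1, mul_assoc, mul_assoc]
      exact (h.1 z hz).2.1 _ ⟨g, hg, s, t2 s s.2, rfl⟩
    · show a.1.1 = c ↔ z.2.1.1 * g = c
      rw [h1, ← eq_mul_inv_iff_mul_eq, ← eq_mul_inv_iff_mul_eq]
      exact (h.1 z hz).2.2 _ ⟨c, Or.inl c.2, _, t3 g hg, rfl⟩
    · show a.1.1 = w.1.1.1 * s ↔ z.2.1.1 * g = w.2.1.1 * s
      rw [h1, ← eq_mul_inv_iff_mul_eq, ← eq_mul_inv_iff_mul_eq, mul_assoc, mul_assoc]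
      exact h.2 w hw z hz _ ⟨s, hs, _, t3 g hg, rfl⟩
  · by_cases hy : a ∈ Y
    · refine ⟨a, key a rfl fun w hw s hs => ?_⟩
      simp only [← mul_inv_eq_iff_eq_mul]
      exact eq_comm.trans (((h.1 w hw).2.2 _ ⟨_, Or.inr ⟨a, hy, rfl⟩, _, t3 s hs, rfl⟩).trans
        eq_comm)
    · obtain ⟨a', h1, h2⟩ := Set.Infinite.exists_notMem_finite hy
        (fib _ ((hP.image fun z => z.2.1.1).image2 (· * ·) hT))
      exact ⟨a', key a' (Eq.symm h1) fun w hw s hs => iff_of_false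
        (fun h3 => hc ⟨w, hw, s, hs, h3⟩) fun h3 => h2 ⟨_, ⟨w, hw, rfl⟩, s, hs, h3.symm⟩⟩

theorem term_var {α : Type} (t : LL.Term α) : ∃ a, t = Term.var a := by
  cases t with
  | var a => exact ⟨a, rfl⟩
  | func f _ => exact f.elim

theorem local_ {α : Type} {l : ℕ} (φ : LL.BoundedFormula α l) :
    ∃ (S C : Set G) (F : Set α), S.Finite ∧ C.Finite ∧ F.Finite ∧
      ∀ P : Set (MM × MM), P.Finite → Close S C P →
      ∀ (v v' : α → MM) (xs xs' : Fin l → MM), (∀ a ∈ F, (v a, v' a) ∈ P) →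
        (∀ i, (xs i, xs' i) ∈ P) → (φ.Realize v xs ↔ φ.Realize v' xs') := by
  have pr : ∀ {l : ℕ} (P : Set (MM × MM)) (v v' : α → MM) (xs xs' : Fin l → MM) (b : α ⊕ Fin l),
      (∀ a, Sum.inl a = b → (v a, v' a) ∈ P) → (∀ i, (xs i, xs' i) ∈ P) →
      (Sum.elim v xs b, Sum.elim v' xs' b) ∈ P := by
    rintro l P v v' xs xs' (a | i) h1 h2
    · exact h1 a rfl
    · exact h2 i
  induction φ with
  | falsum => exact ⟨∅, ∅, ∅, Set.finite_empty, Set.finite_empty, Set.finite_empty,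
      fun _ _ _ _ _ _ _ _ _ => Iff.rfl⟩
  | equal t₁ t₂ =>
    obtain ⟨a, rfl⟩ := term_var t₁
    obtain ⟨b, rfl⟩ := term_var t₂
    refine ⟨{1}, ∅, Sum.inl ⁻¹' {a, b}, Set.finite_singleton _, Set.finite_empty,
      (Set.toFinite _).preimage Sum.inl_injective.injOn, fun P _ hP v v' xs xs' h1 h2 => ?_⟩
    have ha := pr P v v' xs xs' a (fun c hc => h1 c (Or.inl hc)) h2
    have hb := pr P v v' xs xs' b (fun c hc => h1 c (Or.inr hc)) h2
    have h3 := hP.2 _ hb _ ha 1 rfl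
    have h4 := (hP.1 _ ha).1
    have h5 := (hP.1 _ hb).1
    simp only [mul_one] at h3 h4 h5
    show Sum.elim v xs a = Sum.elim v xs b ↔ Sum.elim v' xs' a = Sum.elim v' xs' b
    rw [Subtype.ext_iff, Subtype.ext_iff, Prod.ext_iff, Prod.ext_iff, h3, h4, h5]
  | @rel l k R ts =>
    choose a ha using fun i => term_var (ts i)
    obtain rfl : ts = fun i => Term.var (a i) := funext ha
    have hf : (Sum.inl ⁻¹' Set.range a).Finite :=
      (Set.finite_range _).preimage Sum.inl_injective.injOn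
    cases R with
    | r s =>
      exact ⟨{s}, ∅, _, Set.finite_singleton _, Set.finite_empty, hf,
        fun P _ hP v v' xs xs' h1 h2 =>
          hP.2 _ (pr P v v' xs xs' (a 0) (fun c hc => h1 c ⟨0, hc.symm⟩) h2) _
            (pr P v v' xs xs' (a 1) (fun c hc => h1 c ⟨1, hc.symm⟩) h2) s rfl⟩
    | k =>
      exact ⟨∅, ∅, _, Set.finite_empty, Set.finite_empty, hf, fun P _ hP v v' xs xs' h1 h2 =>
        iff_of_eq (congrArg (· = true)
          (hP.1 _ (pr P v v' xs xs' (a 0) (fun c hc => h1 c ⟨0, hc.symm⟩) h2)).1)⟩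
  | imp φ ψ ih1 ih2 =>
    obtain ⟨S, C, F, a1, a2, h1, h2⟩ := ih1
    obtain ⟨S', C', F', a3, a4, h3, h4⟩ := ih2
    exact ⟨S ∪ S', C ∪ C', F ∪ F', a1.union a3, a2.union a4, h1.union h3,
      fun P hf hP v v' xs xs' h5 h6 => imp_congr
      (h2 P hf (hP.mono Set.subset_union_left Set.subset_union_left) v v' xs xs'
        (fun a ha => h5 a (Or.inl ha)) h6)
      (h4 P hf (hP.mono Set.subset_union_right Set.subset_union_right) v v' xs xs'
        (fun a ha => h5 a (Or.inr ha)) h6)⟩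
  | @all l φ ih =>
    obtain ⟨S, C, F, a1, a2, h1, h2⟩ := ih
    obtain ⟨S', C', a3, a4, h0⟩ := ext_step S C a1 a2
    have key : ∀ P : Set (MM × MM), P.Finite → Close S' C' P →
        ∀ (v v' : α → MM) (xs xs' : Fin l → MM), (∀ a ∈ F, (v a, v' a) ∈ P) →
        (∀ i, (xs i, xs' i) ∈ P) → φ.all.Realize v' xs' → φ.all.Realize v xs := by
      intro P hf hP v v' xs xs' h3 h4 h5 a
      obtain ⟨a', h6⟩ := h0 P hf hP a
      refine (h2 _ (hf.insert _) h6 v v' _ (Fin.snoc xs' a') (fun b hb => Or.inr (h3 b hb))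
        fun i => ?_).2 (h5 a')
      refine Fin.lastCases ?_ (fun j => ?_) i
      · simp
      · simpa using Or.inr (h4 j)
    exact ⟨S', C', F, a3, a4, h1, fun P hf hP v v' xs xs' h3 h4 =>
      ⟨key _ (hf.image _) hP.swap v' v xs' xs (fun a ha => ⟨_, h3 a ha, rfl⟩)
        fun i => ⟨_, h4 i, rfl⟩, key P hf hP v v' xs xs' h3 h4⟩⟩

theorem bool_comb {X : Type} (F : Set (Set X)) (h0 : ∅ ∈ F) (h1 : ∀ u ∈ F, uᶜ ∈ F)
    (h2 : ∀ u ∈ F, ∀ v ∈ F, u ∪ v ∈ F) (T : Set (Set X)) (hT : T.Finite) (hF : T ⊆ F) :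
    ∀ s : Set X, (∀ x x', (∀ t ∈ T, x ∈ t ↔ x' ∈ t) → x ∈ s → x' ∈ s) → s ∈ F := by
  have h3 : ∀ u ∈ F, ∀ v ∈ F, u ∩ v ∈ F := fun u hu v hv => by
    rw [Set.inter_eq_compl_compl_union_compl]
    exact h1 _ (h2 _ (h1 u hu) _ (h1 v hv))
  induction T, hT using Set.Finite.induction_on with
  | empty =>
    intro s hs
    rcases s.eq_empty_or_nonempty with rfl | ⟨x, hx⟩
    · exact h0
    · rw [Set.eq_univ_of_forall fun y => hs x y (fun _ h => h.elim) hx, ← Set.compl_empty]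
      exact h1 _ h0
  | @insert t T _ _ ih =>
    intro s hs
    have key : ∀ u : Set X, {x | ∃ y ∈ s ∩ u, ∀ t' ∈ T, y ∈ t' ↔ x ∈ t'} ∈ F := fun u =>
      ih (fun _ h => hF (Or.inr h)) _ fun x x' h ⟨y, h4, h5⟩ =>
        ⟨y, h4, fun t' ht' => (h5 t' ht').trans (h t' ht')⟩
    have e : s = ({x | ∃ y ∈ s ∩ t, ∀ t' ∈ T, y ∈ t' ↔ x ∈ t'} ∩ t) ∪
        ({x | ∃ y ∈ s ∩ tᶜ, ∀ t' ∈ T, y ∈ t' ↔ x ∈ t'} ∩ tᶜ) := by
      ext x
      constructor
      · intro hx
        by_cases h : x ∈ t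
        · exact Or.inl ⟨⟨x, ⟨hx, h⟩, fun _ _ => Iff.rfl⟩, h⟩
        · exact Or.inr ⟨⟨x, ⟨hx, h⟩, fun _ _ => Iff.rfl⟩, h⟩
      · rintro (⟨⟨y, h4, h5⟩, h6⟩ | ⟨⟨y, h4, h5⟩, h6⟩) <;> refine hs y x ?_ h4.1 <;>
          rintro t' (rfl | h)
        · exact iff_of_true h4.2 h6
        · exact h5 t' h
        · exact iff_of_false h4.2 h6
        · exact h5 t' h
    rw [e]
    exact h2 _ (h3 _ (key _) _ (hF (Or.inl rfl))) _ (h3 _ (key _) _ (h1 _ (hF (Or.inl rfl))))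

theorem def_k : (Set.univ : Set MM).Definable LL {b : Fin 1 → MM | (b 0).1.2 = true} :=
  Set.definable_iff_exists_formula_sum.2
    ⟨Relations.formula (L := LL) Rl.k fun _ => Term.var (Sum.inr 0), rfl⟩

theorem def_c (c : G) : (Set.univ : Set MM).Definable LL {b : Fin 1 → MM | (b 0).1.1 = c} :=
  Set.definable_iff_exists_formula_sum.2
    ⟨Relations.formula (L := LL) (Rl.r 1)
      ![Term.var (Sum.inl ⟨base c, trivial⟩), Term.var (Sum.inr 0)],
      Set.ext fun b => (show (b 0).1.1 = c ↔ (b 0).1.1 = c * 1 by rw [mul_one])⟩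

theorem def_r (s : G) :
    (Set.univ : Set MM).Definable LL {b : Fin 2 → MM | (b 1).1.1 = (b 0).1.1 * s} :=
  Set.definable_iff_exists_formula_sum.2
    ⟨Relations.formula (L := LL) (Rl.r s) ![Term.var (Sum.inr 0), Term.var (Sum.inr 1)], rfl⟩

theorem def_x (s : G) :
    (Set.univ : Set MM).Definable LL {b : Fin 1 → MM | chi ((b 0).1.1 * s) = 1} := by
  refine Set.definable_iff_exists_formula_sum.2
    ⟨BoundedFormula.ex (Relations.boundedFormula (L := LL) (Rl.r s)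
      ![Term.var (Sum.inl (Sum.inr 0)), Term.var (Sum.inr 0)] ⊓
      Relations.boundedFormula (L := LL) Rl.k fun _ => Term.var (Sum.inr 0)), Set.ext fun b => ?_⟩
  refine Iff.trans ?_ BoundedFormula.realize_ex.symm
  simp only [BoundedFormula.realize_inf]
  exact ⟨fun h => ⟨⟨((b 0).1.1 * s, true), fun _ => h⟩, rfl, rfl⟩,
    fun ⟨a, h1, h2⟩ => (congrArg chi (show a.1.1 = (b 0).1.1 * s from h1)).symm.trans (a.2 h2)⟩

theorem enc (T : Set (Fin 2 → MM)) (i j : Fin 2) (hij : ∀ k, k = i ∨ k = j) (a : MM) (c : G)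
    (h : ∀ b ∈ T, b i = a → (b j).1.1 = c) : {b ∈ T | b i = a}.encard ≤ (2 : ℕ) := by
  have h1 : Set.InjOn (fun b : Fin 2 → MM => (b j).1.2) {b ∈ T | b i = a} := by
    intro b hb b' hb' e
    funext k
    rcases hij k with rfl | rfl
    · exact hb.2.trans hb'.2.symm
    · exact Subtype.ext (Prod.ext ((h b hb.1 hb.2).trans (h b' hb'.1 hb'.2).symm) e)
  rw [← h1.encard_image]
  exact (Set.encard_le_encard (t := {false, true}) fun x _ => by cases x <;> simp).trans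
    (Set.encard_pair (by simp)).le

theorem ma (n : ℕ) (s : Set (Fin n → MM)) (hs : (Set.univ : Set MM).Definable LL s)
    (F : Set (Set (Fin n → MM))) (h0 : ∅ ∈ F) (h1 : ∀ u ∈ F, uᶜ ∈ F)
    (h2 : ∀ u ∈ F, ∀ v ∈ F, u ∪ v ∈ F)
    (h3 : ∀ (m : ℕ) (f : Fin m → Fin n) (t : Set (Fin m → MM)), Function.Injective f →
      (Set.univ : Set MM).Definable LL t →
      (m = 1 ∨ (2 ≤ m ∧ ∃ K : ℕ, ∀ (i : Fin m) (a : MM),
        ({b ∈ t | b i = a}).encard ≤ (K : ℕ∞))) → {x : Fin n → MM | x ∘ f ∈ t} ∈ F) :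
    s ∈ F := by
  obtain ⟨φ, rfl⟩ := Set.definable_iff_exists_formula_sum.1 hs
  obtain ⟨S, C, B, hS, hC, hB, h⟩ := local_ φ
  let B' : Set MM := (fun a : (Set.univ : Set MM) => a.1) '' (Sum.inl ⁻¹' B)
  have hB' : B'.Finite := (hB.preimage Sum.inl_injective.injOn).image _
  let C' : Set G := C ∪ Set.image2 (fun (a : MM) s => a.1.1 * s) B' (S ∪ S⁻¹)
  have hC' : C'.Finite := hC.union (hB'.image2 _ (hS.union hS.inv))
  have u1 : ∀ (i : Fin n) (t : Set (Fin 1 → MM)), (Set.univ : Set MM).Definable LL t →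
      {x : Fin n → MM | x ∘ (fun _ => i) ∈ t} ∈ F := fun i t ht =>
    h3 1 _ t (fun _ _ _ => Subsingleton.elim _ _) ht (Or.inl rfl)
  refine bool_comb F h0 h1 h2 ((Set.range fun i => {x | (x i).1.2 = true}) ∪
    (Set.image2 (fun i s => {x | chi ((x i).1.1 * s) = 1}) Set.univ S ∪
    (Set.image2 (fun i c => {x | (x i).1.1 = c}) Set.univ C' ∪
    Set.image2 (fun (z : Fin n × Fin n) s => {x | (x z.2).1.1 = (x z.1).1.1 * s})
      {z | z.1 ≠ z.2} S)))
    ((Set.finite_range _).union ((Set.finite_univ.image2 _ hS).union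
      ((Set.finite_univ.image2 _ hC').union ((Set.toFinite _).image2 _ hS)))) ?_ _
    fun x x' hx => (h (Set.range (fun i => (x i, x' i)) ∪ (fun a => (a, a)) '' B')
      ((Set.finite_range _).union (hB'.image _)) ?_ _ _ _ _ ?_ fun i => i.elim0).1
  · rintro _ (⟨i, rfl⟩ | ⟨i, -, s, -, rfl⟩ | ⟨i, -, c, -, rfl⟩ | ⟨⟨i, j⟩, hij, s, -, rfl⟩)
    · exact u1 i _ def_k
    · exact u1 i _ (def_x s)
    · exact u1 i _ (def_c c)
    · refine h3 2 ![i, j] _ ?_ (def_r s) (Or.inr ⟨le_rfl, 2, fun k a => ?_⟩)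
      · intro a b hab
        fin_cases a <;> fin_cases b
        · rfl
        · exact absurd hab hij
        · exact absurd hab.symm hij
        · rfl
      · fin_cases k
        · exact enc _ 0 1 (by decide) a (a.1.1 * s) fun b hb e => e ▸ hb
        · exact enc _ 1 0 (by decide) a (a.1.1 * s⁻¹) fun b hb e =>
            eq_mul_inv_iff_mul_eq.2 (e ▸ hb.symm)
  · have hc : ∀ i, ∀ c ∈ C', ((x i).1.1 = c ↔ (x' i).1.1 = c) := fun i c hc =>
      hx _ (Or.inr (Or.inr (Or.inl ⟨i, trivial, c, hc, rfl⟩)))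
    constructor
    · rintro _ (⟨i, rfl⟩ | ⟨a, -, rfl⟩)
      · exact ⟨Bool.eq_iff_iff.2 (hx _ (Or.inl ⟨i, rfl⟩)),
          fun s hs => zm_ext (hx _ (Or.inr (Or.inl ⟨i, trivial, s, hs, rfl⟩))),
          fun c h => hc i c (Or.inl h)⟩
      · exact ⟨rfl, fun _ _ => rfl, fun _ _ => Iff.rfl⟩
    · rintro _ (⟨i, rfl⟩ | ⟨a, ha, rfl⟩) _ (⟨j, rfl⟩ | ⟨b, hb, rfl⟩) s hs
      · by_cases e : i = j
        · subst e
          simp only [left_eq_mul]
        · exact hx _ (Or.inr (Or.inr (Or.inr ⟨(i, j), e, s, hs, rfl⟩)))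
      · simp only [← mul_inv_eq_iff_eq_mul]
        exact eq_comm.trans ((hc i _ (Or.inr ⟨b, hb, _, Or.inr (Set.inv_mem_inv.2 hs), rfl⟩)).trans
          eq_comm)
      · exact hc j _ (Or.inr ⟨a, ha, s, Or.inl hs, rfl⟩)
      · exact Iff.rfl
  · rintro (a | i) ha
    · exact Or.inr ⟨a.1, ⟨a, ha, rfl⟩, rfl⟩
    · exact Or.inl ⟨i, rfl⟩

end Pool.Agent.H40.Sib
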