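import Pool.Agent.H40.SobDefs

set_option autoImplicit false

namespace Pool.Agent.H40.Sob

open Filter FirstOrder FirstOrder.Language

theorem exU (X : Type) : ∃ U : Ultrafilter (Finset X), ∀ x, ∀ᶠ s in (U : Filter (Finset X)), x ∈ s :=
  ⟨Ultrafilter.of atTop, fun x => Ultrafilter.of_le _
    ((eventually_ge_atTop ({x} : Finset X)).mono fun _ h => h (Finset.mem_singleton_self x))⟩

theorem enl_of {I X : Type} (W : Ultrafilter I) (e : Set X → I → Prop)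
    (h1 : ∀ A, ∀ᶠ i in W, e A i) (h2 : ∀ i, {A | e A i}.Finite) : Enl W X := by
  intro 𝒜 h
  choose f hf using fun i => h (𝒜 ∩ {A | e A i}) Set.inter_subset_left ((h2 i).inter_of_right _)
  exact ⟨f, fun A hA => (h1 A).mono fun i hi => hf i A ⟨hA, hi⟩⟩

noncomputable abbrev V : Ultrafilter ℕ := hyperfilter ℕ

theorem V_ge (m : ℕ) : ∀ᶠ n in (V : Filter ℕ), m ≤ n :=
  hyperfilter_le_cofinite (Nat.cofinite_eq_atTop ▸ eventually_ge_atTop m)

def tens {α β : Type} (A : Ultrafilter α) (B : Ultrafilter β) : Ultrafilter (α × β) :=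
  A.bind fun a => B.map (Prod.mk a)

theorem ev_tens {α β : Type} (A : Ultrafilter α) (B : Ultrafilter β) (P : α × β → Prop) :
    (∀ᶠ p in tens A B, P p) ↔ ∀ᶠ a in A, ∀ᶠ b in B, P (a, b) := Iff.rfl

theorem mm {α β : Type} {W : Ultrafilter α} {f : α → β} {S : Set β}
    (h : ∀ᶠ a in (W : Filter α), f a ∈ S) : S ∈ W.map f := h

theorem mm' {α β : Type} {W : Ultrafilter α} {f : α → β} {S : Set β}
    (h : S ∈ W.map f) : ∀ᶠ a in (W : Filter α), f a ∈ S := h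

theorem t1 {α β : Type} {A : Ultrafilter α} {B : Ultrafilter β} {P : α → Prop}
    (h : ∀ᶠ a in (A : Filter α), P a) : ∀ᶠ p in (tens A B : Filter (α × β)), P p.1 :=
  (ev_tens _ _ _).2 (h.mono fun _ ha => Eventually.of_forall fun _ => ha)

theorem t2 {α β : Type} {A : Ultrafilter α} {B : Ultrafilter β} {P : β → Prop}
    (h : ∀ᶠ a in (B : Filter β), P a) : ∀ᶠ p in (tens A B : Filter (α × β)), P p.2 :=
  (ev_tens _ _ _).2 (Eventually.of_forall fun _ => h)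

theorem exW (X : Type) : ∃ (I : Type) (U : Ultrafilter I), Enl (tens V U) X ∧ Enl (tens V U) ℕ+ := by
  obtain ⟨U, hU⟩ := exU (Set X ⊕ Set ℕ+)
  exact ⟨_, U, enl_of _ (fun A i => Sum.inl A ∈ i.2) (fun A => t2 (hU _))
      fun i => i.2.finite_toSet.preimage Sum.inl_injective.injOn,
    enl_of _ (fun A i => Sum.inr A ∈ i.2) (fun A => t2 (hU _))
      fun i => i.2.finite_toSet.preimage Sum.inr_injective.injOn⟩

theorem exH : ∃ H : Ultrafilter (ℕ × ℕ), (∀ P : ℕ → Prop, (∀ᶠ n in V, P n) →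
      ∀ᶠ p in (H : Filter (ℕ × ℕ)), P p.1) ∧
    (∀ᶠ p in (H : Filter (ℕ × ℕ)), p.2 ≤ p.1) ∧ ∀ φ : ℕ → ℕ, ∀ᶠ p in (H : Filter (ℕ × ℕ)), p.2 ≠ φ p.1 := by
  obtain ⟨U, hU⟩ := exU (ℕ → ℕ)
  have h : ∀ (Φ : Finset (ℕ → ℕ)) (n : ℕ), ∃ s ≤ n, Φ.card ≤ n → ∀ φ ∈ Φ, s ≠ φ n := by
    intro Φ n
    by_cases hn : Φ.card ≤ n
    · obtain ⟨s, h1, h2⟩ := Finset.exists_mem_notMem_of_card_lt_card
        (s := Φ.image fun φ => φ n) (t := Finset.range (n + 1))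
        (Finset.card_image_le.trans_lt (by simpa using Nat.lt_succ_of_le hn))
      exact ⟨s, Nat.lt_succ_iff.1 (Finset.mem_range.1 h1),
        fun _ φ hφ h3 => h2 (Finset.mem_image.2 ⟨φ, hφ, h3.symm⟩)⟩
    · exact ⟨0, Nat.zero_le _, fun h => absurd h hn⟩
  choose σ h1 h2 using h
  have key : ∀ P : ℕ × ℕ → Prop, (∀ᶠ Φ in U, ∀ᶠ n in V, P (n, σ Φ n)) →
      ∀ᶠ p in (U.bind fun Φ => V.map fun n => (n, σ Φ n)), P p := fun _ h => h
  exact ⟨_, fun P hP => key _ (Eventually.of_forall fun _ => hP),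
    key _ (Eventually.of_forall fun Φ => Eventually.of_forall (h1 Φ)),
    fun φ => key _ ((hU φ).mono fun Φ hΦ => (V_ge Φ.card).mono fun n hn => h2 Φ n hn φ hΦ)⟩

theorem no_sec {I : Type} (U : Ultrafilter I) {H : Ultrafilter (ℕ × ℕ)}
    (hH : ∀ φ : ℕ → ℕ, ∀ᶠ p in (H : Filter (ℕ × ℕ)), p.2 ≠ φ p.1) (c : ℕ × ℕ → ℕ+) (hc : Function.Injective c)
    (z : ℕ × I → ℕ+) (hz : z ∈ Monad (tens V U) (H.map c))
    (h : ∀ᶠ p in (tens V U : Filter (ℕ × I)), ∃ s ≤ p.1, z p = c (p.1, s)) : False := by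
  have h1 : ∀ n, ∃ s, (∀ᶠ i in U, ∃ s ≤ n, z (n, i) = c (n, s)) → ∀ᶠ i in U, z (n, i) = c (n, s) := by
    intro n
    by_cases h2 : ∀ᶠ i in U, ∃ s ≤ n, z (n, i) = c (n, s)
    · obtain ⟨s, -, h3⟩ := (Ultrafilter.finite_biUnion_mem_iff (f := U) (Set.finite_Iic n)
        (s := fun s => {i | z (n, i) = c (n, s)})).1 (mem_of_superset h2 fun i ⟨s, h3, h4⟩ =>
          Set.mem_biUnion h3 h4)
      exact ⟨s, fun _ => h3⟩
    · exact ⟨0, fun h => absurd h h2⟩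
  choose φ hφ using h1
  have h2 := hz (Set.range fun n => c (n, φ n))ᶜ (mm ((hH φ).mono fun p hp ⟨n, hn⟩ => by
    rw [← hc hn] at hp
    exact hp rfl))
  obtain ⟨n, h3, h4⟩ := (((ev_tens _ _ _).1 h).and ((ev_tens _ _ _).1 h2)).exists
  obtain ⟨i, h5, h6⟩ := ((hφ n h3).and h4).exists
  exact h6 ⟨n, h5.symm⟩

noncomputable def r (n : ℕ) : ℕ+ := ⟨Nat.nth Nat.Prime n, (Nat.prime_nth_prime n).pos⟩

theorem r_prime (n : ℕ) : (r n : ℕ).Prime := Nat.prime_nth_prime n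

theorem r_dvd {n m : ℕ} (h : (r n : ℕ) ∣ r m) : n = m :=
  Nat.nth_injective Nat.infinite_setOfPred_prime
    ((Nat.prime_dvd_prime_iff_eq (r_prime n) (r_prime m)).1 h)

theorem r_dvd2 {n m s : ℕ} (h : (r (n + 1) : ℕ) ∣ r (m + 1) * r 0 ^ s) : n = m := by
  rcases (r_prime _).dvd_mul.1 h with h | h
  · exact Nat.succ_injective (r_dvd h)
  · exact absurd (r_dvd ((r_prime _).dvd_of_dvd_pow h)) (by simp)

theorem mult (X : Type) : ∃ (I : Type) (W : Ultrafilter I), Enl W X ∧ Enl W ℕ+ ∧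
    ∃ F G : Ultrafilter ℕ+, TDvd F G ∧ ∃ x ∈ Monad W F, ∀ y ∈ Monad W G, ¬ SDvd W x y := by
  obtain ⟨I, U, h1, h2⟩ := exW X
  obtain ⟨H, h3, h4, h5⟩ := exH
  refine ⟨_, _, h1, h2, V.map fun n => r (n + 1), H.map fun p => r (p.1 + 1) * r 0 ^ p.2,
    fun A hA => mm ((h3 _ (mm' hA)).mono fun p hp => ⟨_, hp, dvd_mul_right _ _⟩),
    fun p => r (p.1 + 1),
    fun A hA => t1 (mm' hA),
    fun y hy ⟨z, hz⟩ => no_sec U h5 _ (fun p q h => ?_) y hy ?_⟩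
  · have h6 : (r (p.1 + 1) : ℕ) * r 0 ^ p.2 = r (q.1 + 1) * r 0 ^ q.2 := by
      simpa using congrArg PNat.val h
    have h7 : p.1 = q.1 := r_dvd2 (h6 ▸ dvd_mul_right _ _)
    rw [h7] at h6
    exact Prod.ext h7 (Nat.pow_right_injective (r_prime 0).two_le
      (Nat.eq_of_mul_eq_mul_left (r _).pos h6))
  · filter_upwards [hz, hy {a | ∃ p : ℕ × ℕ, p.2 ≤ p.1 ∧ a = r (p.1 + 1) * r 0 ^ p.2}
      (mm (h4.mono fun p hp => ⟨p, hp, rfl⟩))] with p a1 ⟨q, a2, a3⟩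
    have h6 : (r (q.1 + 1) : ℕ) * r 0 ^ q.2 = r (p.1 + 1) * z p := by
      simpa using congrArg PNat.val (a3.symm.trans a1)
    have h7 : p.1 = q.1 := r_dvd2 ⟨_, h6⟩
    exact ⟨q.2, h7 ▸ a2, h7 ▸ a3⟩

theorem divi (X : Type) : ∃ (I : Type) (W : Ultrafilter I), Enl W X ∧ Enl W ℕ+ ∧
    ∃ F G : Ultrafilter ℕ+, TDvd F G ∧ ∃ y ∈ Monad W G, ∀ x ∈ Monad W F, ¬ SDvd W x y := by
  obtain ⟨I, U, h1, h2⟩ := exW X
  obtain ⟨H, h3, h4, h5⟩ := exH
  let y : ℕ → ℕ+ := fun n => ∏ s ∈ Finset.range (n + 1), r (Nat.pair n s)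
  refine ⟨_, _, h1, h2, H.map fun p => r (Nat.pair p.1 p.2), V.map y, fun A hA => ?_,
    fun p => y p.1,
    fun A hA => t1 (mm' hA),
    fun x hx ⟨z, hz⟩ => no_sec U h5 _ (fun p q h => ?_) x hx ?_⟩
  · by_contra hc
    obtain ⟨p, a1, a2, a3⟩ := ((h3 (fun n => y n ∉ Up A)
      (Ultrafilter.compl_mem_iff_notMem.2 hc)).and (h4.and (mm' hA))).exists
    exact a1 ⟨_, a3, Finset.dvd_prod_of_mem _ (Finset.mem_range.2 (Nat.lt_succ_of_le a2))⟩
  · have := Nat.pair_eq_pair.1 (r_dvd (dvd_of_eq (congrArg PNat.val h)))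
    exact Prod.ext this.1 this.2
  · filter_upwards [hz, hx (Set.range r) (mm (Eventually.of_forall fun p => ⟨_, rfl⟩))]
      with p a1 ⟨k, a2⟩
    have h6 : (r k : ℕ) ∣ ∏ s ∈ Finset.range (p.1 + 1), (r (Nat.pair p.1 s) : ℕ) := by
      rw [a2]
      exact ⟨z p, (map_prod PNat.coeMonoidHom _ _).symm.trans (congrArg PNat.val a1)⟩
    obtain ⟨s, a3, a4⟩ := ((r_prime k).prime.dvd_finsetProd_iff _).1 h6
    exact ⟨s, Nat.lt_succ_iff.1 (Finset.mem_range.1 a3), by rw [← a2, r_dvd a4]⟩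

instance : LF.Structure ℕ := strN

def rel {α : Type} {k : ℕ} (R : Set (Fin k → ℕ)) (ρ : Fin k → α) : LF.Formula α :=
  Relations.formula (L := LF) R fun i => Term.var (ρ i)

theorem real_rel {N α : Type} [LF.Structure N] {k : ℕ} (R : Set (Fin k → ℕ)) (ρ : Fin k → α)
    (x : α → N) : (rel R ρ).Realize x ↔ St R (x ∘ ρ) := Iff.rfl

theorem exExt : ∃ (N : Type) (_ : LF.Structure N), IsExt N := by
  obtain ⟨U, hU⟩ := exU (Set ℕ)
  refine ⟨(U : Filter (Finset (Set ℕ))).Product fun _ => ℕ, inferInstance,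
    ⟨⟨fun a => ((fun _ => a : Finset (Set ℕ) → ℕ) : (U : Filter (Finset (Set ℕ))).Product fun _ => ℕ),
      fun k φ y => (Ultraproduct.realize_formula_cast (M := fun _ => ℕ) φ
        (fun i _ => y i)).trans eventually_const⟩⟩, fun F => ?_⟩
  obtain ⟨f, hf⟩ := enl_of U (fun A i => A ∈ i) hU (fun i => i.finite_toSet) F.sets fun T h1 h2 =>
    Ultrafilter.nonempty_of_mem ((sInter_mem h2).2 h1)
  refine ⟨(f : (U : Filter (Finset (Set ℕ))).Product fun _ => ℕ), fun A hA => ?_⟩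
  have := (Ultraproduct.realize_formula_cast (M := fun _ => ℕ) (rel {v : Fin 1 → ℕ | v 0 ∈ A} id)
    (fun _ => f)).2 (hf A hA)
  exact (iff_of_eq (congrArg _ (funext fun i : Fin 1 => by fin_cases i; rfl))).1
    ((real_rel _ _ _).1 this)

variable {N : Type} [LF.Structure N]

theorem tr (h : IsExt N) {α : Type} [Finite α] (φ : LF.Formula α) (hφ : ∀ v : α → ℕ, φ.Realize v)
    (x : α → N) : φ.Realize x := by
  obtain ⟨j⟩ := h.1
  have h1 : ((φ.relabel Sum.inr : LF.Formula (Empty ⊕ α)).iAlls α).Realize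
      (Empty.elim : Empty → ℕ) :=
    Formula.realize_iAlls.2 fun v => Formula.realize_relabel.2 (hφ _)
  have h2 := Formula.realize_iAlls.1 ((j.map_formula _ _).2 h1) x
  rw [Formula.realize_relabel] at h2
  exact h2

theorem St_of (h : IsExt N) {k m : ℕ} {R : Set (Fin k → ℕ)} {S : Set (Fin m → ℕ)}
    (ρ : Fin m → Fin k) (hR : ∀ v ∈ R, v ∘ ρ ∈ S) {x : Fin k → N} (hx : St R x) {y : Fin m → N}
    (hy : ∀ i, y i = x (ρ i)) : St S y := by
  rw [show y = x ∘ ρ from funext hy]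
  exact Formula.realize_imp.1 (tr h ((rel R id).imp (rel S ρ))
    (fun v => Formula.realize_imp.2 (hR v)) x) hx

theorem St_not (h : IsExt N) {A : Set ℕ} {x : N} (h1 : x ∈ St1 A) (h2 : x ∈ St1 Aᶜ) : False :=
  Formula.realize_imp.1 (tr h ((rel {v : Fin 1 → ℕ | v 0 ∈ Aᶜ} id).imp
    (rel {v : Fin 1 → ℕ | v 0 ∈ A} id).not) (fun v => Formula.realize_imp.2 id) ![x]) h2 h1

theorem St_or (h : IsExt N) (A : Set ℕ) (x : N) (h1 : x ∉ St1 Aᶜ) : x ∈ St1 A := by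
  by_contra h2
  exact h1 (Formula.realize_imp.1 (tr h ((rel {v : Fin 1 → ℕ | v 0 ∈ A} id).not.imp
    (rel {v : Fin 1 → ℕ | v 0 ∈ Aᶜ} id)) (fun v => Formula.realize_imp.2 id) ![x]) h2)

theorem realz (h : IsExt N) {k : ℕ} (W : Ultrafilter (Fin k → ℕ)) :
    ∃ x : Fin k → N, ∀ R ∈ W, St R x := by
  obtain ⟨e, he⟩ := exists_injective_nat (Fin k → ℕ)
  obtain ⟨w, hw⟩ := h.2 (W.map e)
  let E : Set (Fin (k + 1) → ℕ) := {v | e (Fin.tail v) = v 0}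
  let ρ : Fin (k + 1) → Fin 1 ⊕ Fin k := Fin.cons (Sum.inl 0) Sum.inr
  obtain ⟨x, hx⟩ := Formula.realize_iExs.1 (Formula.realize_imp.1 (tr h
    ((rel {v : Fin 1 → ℕ | v 0 ∈ Set.range e} id).imp ((rel E ρ).iExs (Fin k)))
    (fun v => Formula.realize_imp.2 fun ⟨u, hu⟩ => Formula.realize_iExs.2 ⟨u, hu⟩) ![w])
    (hw _ (mm (Eventually.of_forall fun u => ⟨u, rfl⟩))))
  refine ⟨x, fun R hR => Formula.realize_imp.1 (Formula.realize_imp.1 (tr h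
    ((rel E ρ).imp ((rel {v : Fin 1 → ℕ | v 0 ∈ e '' R} Sum.inl).imp (rel R Sum.inr)))
    (fun v => Formula.realize_imp.2 fun h1 => Formula.realize_imp.2 fun ⟨u, h2, h3⟩ => ?_)
    (Sum.elim ![w] x)) hx) (hw _ (mm (Eventually.mono hR fun u hu => ⟨u, hu, rfl⟩)))⟩
  have h4 : u = v ∘ Sum.inr := he (h3.trans (Eq.symm h1))
  rw [h4] at h2
  exact h2

theorem nonconvex (h : IsExt N) : ∃ F : Ultrafilter ℕ, {n | 0 < n} ∈ F ∧
    ∃ x ∈ (Mon F : Set N), ∃ y ∈ (Mon F : Set N), ∃ z ∈ (St1 {n | 0 < n} : Set N),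
      NDvd x z ∧ NDvd z y ∧ z ∉ Mon F := by
  let F : Ultrafilter ℕ := V.map Nat.factorial
  have h0 : {n | 0 < n} ∈ F := mm (Eventually.of_forall fun n => n.factorial_pos)
  obtain ⟨x, hx⟩ := realz h ((tens F F).map fun p => ![p.1, p.2, 2 * p.1])
  refine ⟨F, h0, x 0, fun A hA => St_of h ![0] (fun _ => id) (hx {v | v 0 ∈ A} (mm (t1 hA)))
      fun i => by fin_cases i; rfl,
    x 1, fun A hA => St_of h ![1] (fun _ => id) (hx {v | v 1 ∈ A} (mm (t2 hA)))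
      fun i => by fin_cases i; rfl,
    x 2, St_of h ![2] (fun _ => id) (hx {v | 0 < v 2} (mm ((t1 h0).mono fun p hp =>
      Nat.mul_pos two_pos hp))) fun i => by fin_cases i; rfl,
    St_of h ![0, 2] (fun _ => id) (hx {v | v 0 ∣ v 2} (mm (Eventually.of_forall fun p =>
      dvd_mul_left p.1 2))) fun i => by fin_cases i <;> rfl,
    St_of h ![2, 1] (fun _ => id) (hx {v | v 2 ∣ v 1} (mm ((ev_tens _ _ _).2
      (Eventually.mono h0 fun a ha => mm (S := {b | 2 * a ∣ b})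
      ((V_ge (2 * a)).mono fun n hn => Nat.dvd_factorial (Nat.mul_pos two_pos ha) hn)))))
      fun i => by fin_cases i <;> rfl, fun hz => ?_⟩
  have key : ∀ B ∈ F, (∀ a, 0 < a → a ∈ B → 2 * a ∉ B) → False := fun B hB h2 =>
    St_not h (hz B hB) (St_of h ![2] (fun _ => id) (hx {v | v 2 ∈ Bᶜ}
      (mm (((t1 h0).and (t1 hB)).mono fun p hp => h2 _ hp.1 hp.2))) fun i => by fin_cases i; rfl)
  have h3 : ∀ a, 0 < a → (Even (padicValNat 2 (2 * a)) ↔ ¬ Even (padicValNat 2 a)) := fun a ha => by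
    rw [padicValNat.mul two_ne_zero ha.ne', padicValNat_self, add_comm, Nat.even_add_one]
  rcases F.mem_or_compl_mem {n | Even (padicValNat 2 n)} with h2 | h2
  · exact key _ h2 fun a ha h4 h5 => (h3 a ha).1 h5 h4
  · exact key _ h2 fun a ha h4 h5 => h5 ((h3 a ha).2 h4)

theorem notmul (h : IsExt N) : ∃ x y z a b : N, NMul x z a ∧ NMul y z b ∧ Eqv x y ∧ ¬ Eqv a b := by
  obtain ⟨x, hx⟩ := realz h ((tens V V).map fun p =>
    ![(r p.1 : ℕ), r p.2, r p.1 * r p.1, r p.2 * r p.1])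
  have h1 : ∀ A : Set ℕ, (∀ᶠ n in V, (r n : ℕ) ∈ A) → x 0 ∈ St1 A ∧ x 1 ∈ St1 A := fun A hA =>
    ⟨St_of h ![0] (fun _ => id) (hx {v | v 0 ∈ A} (mm (t1 hA))) fun i => by fin_cases i; rfl,
    St_of h ![1] (fun _ => id) (hx {v | v 1 ∈ A} (mm (t2 hA))) fun i => by fin_cases i; rfl⟩
  let A : Set ℕ := {n | ∃ p, p.Prime ∧ p * p ∣ n}
  refine ⟨x 0, x 1, x 0, x 2, x 3,
    St_of h ![0, 0, 2] (fun _ => id) (hx {v | v 0 * v 0 = v 2}
      (mm (Eventually.of_forall fun _ => rfl))) fun i => by fin_cases i <;> rfl,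
    St_of h ![1, 0, 3] (fun _ => id) (hx {v | v 1 * v 0 = v 3}
      (mm (Eventually.of_forall fun _ => rfl))) fun i => by fin_cases i <;> rfl,
    fun B _ => ?_, fun h2 => St_not h ((h2 A ?_).1
    (St_of h ![2] (fun _ => id) (hx {v | v 2 ∈ A} (mm (Eventually.of_forall fun p =>
      ⟨_, r_prime p.1, dvd_rfl⟩))) fun i => by fin_cases i; rfl))
    (St_of h ![3] (fun _ => id) (hx {v | v 3 ∈ Aᶜ} (mm ((ev_tens _ _ _).2
      (Eventually.of_forall fun n => (V_ge (n + 1)).mono fun m hm => ?_))))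
      fun i => by fin_cases i; rfl)⟩
  · rcases V.mem_or_compl_mem {n | (r n : ℕ) ∈ B} with h2 | h2
    · exact iff_of_true (h1 B h2).1 (h1 B h2).2
    · exact iff_of_false (fun h3 => St_not h h3 (h1 Bᶜ h2).1) fun h3 => St_not h h3 (h1 Bᶜ h2).2
  · exact Set.Subset.antisymm (fun n ⟨a, ⟨p, h3, h4⟩, h5⟩ => ⟨p, h3, h4.trans h5⟩)
      fun n hn => ⟨n, hn, dvd_rfl⟩
  · rintro ⟨p, h3, h4⟩
    have h5 : Squarefree ((r m : ℕ) * r n) := Nat.squarefree_mul_iff.2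
      ⟨(Nat.coprime_primes (r_prime m) (r_prime n)).2 fun h6 => by
        have := r_dvd (h6 ▸ dvd_rfl : (r m : ℕ) ∣ r n)
        omega, (r_prime m).prime.squarefree, (r_prime n).prime.squarefree⟩
    exact h3.prime.not_isUnit (h5 p h4)

end Pool.Agent.H40.Sob
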