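import Mathlib

set_option autoImplicit false

namespace Pool.Agent.H40.Sob

section Ultrapower

variable {I : Type} (W : Ultrafilter I)

/-- The extension of `A` in the ultrapower: sequences lying in `A` almost everywhere. -/
def Star {X : Type} (A : Set X) : Set (I → X) := {f | ∀ᶠ i in W, f i ∈ A}

/-- Enlargement for subsets of `X`: families with the finite intersection property have a common
element of the extensions. -/
def Enl (X : Type) : Prop :=
  ∀ 𝒜 : Set (Set X), (∀ T ⊆ 𝒜, T.Finite → (⋂₀ T).Nonempty) → ∃ f : I → X, ∀ A ∈ 𝒜, f ∈ Star W A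

/-- The monad of an ultrafilter. -/
def Monad (F : Ultrafilter ℕ+) : Set (I → ℕ+) := {f | ∀ A ∈ F, f ∈ Star W A}

/-- Divisibility in the ultrapower. -/
def SDvd (x y : I → ℕ+) : Prop := ∃ z : I → ℕ+, ∀ᶠ i in W, y i = x i * z i

end Ultrapower

/-- Upward closure under divisibility. -/
def Up {X : Type} [Dvd X] (A : Set X) : Set X := {n | ∃ a ∈ A, a ∣ n}

/-- Tilde divisibility of ultrafilters. -/
def TDvd (F G : Ultrafilter ℕ+) : Prop := ∀ A ∈ F, Up A ∈ G

/-- The full language: one symbol for every relation on the natural numbers. -/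
abbrev LF : FirstOrder.Language.{0, 0} := ⟨fun _ => Empty, fun k => Set (Fin k → ℕ)⟩

/-- The natural numbers with all their relations. -/
@[reducible] def strN : LF.Structure ℕ where
  funMap := fun f => f.elim
  RelMap := fun R x => x ∈ R

section Extension

variable {N : Type} [LF.Structure N]

/-- The extension of a `k`-ary relation. -/
def St {k : ℕ} (R : Set (Fin k → ℕ)) (x : Fin k → N) : Prop :=
  FirstOrder.Language.Structure.RelMap (L := LF) R x

/-- The extension of a set. -/
def St1 (A : Set ℕ) : Set N := {x | St {v : Fin 1 → ℕ | v 0 ∈ A} ![x]}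

/-- The extension of divisibility. -/
def NDvd (x y : N) : Prop := St {v : Fin 2 → ℕ | v 0 ∣ v 1} ![x, y]

/-- The extension of the graph of multiplication. -/
def NMul (x y z : N) : Prop := St {v : Fin 3 → ℕ | v 0 * v 1 = v 2} ![x, y, z]

/-- The monad of an ultrafilter. -/
def Mon (F : Ultrafilter ℕ) : Set N := {x | ∀ A ∈ F, x ∈ St1 A}

/-- The ultrafilters of `x` and `y` contain the same upward closed sets. -/
def Eqv (x y : N) : Prop := ∀ A : Set ℕ, Up A = A → (x ∈ St1 A ↔ y ∈ St1 A)

end Extension

/-- An elementary extension of the full structure in which every monad is nonempty. -/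
def IsExt (N : Type) [LF.Structure N] : Prop :=
  Nonempty (@FirstOrder.Language.ElementaryEmbedding LF ℕ N strN _) ∧
    ∀ F : Ultrafilter ℕ, (Mon F : Set N).Nonempty

end Pool.Agent.H40.Sob
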