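import Pool.Agent.H40.SpanDefs

set_option autoImplicit false
set_option maxRecDepth 100000

namespace Pool.Agent.H40.Span

open Polynomial

def AN : ℕ := 2628746676707523487433325727347431150459487584444994497945717050231575145286542371250384010603824038329352333892828054046623993362978213284228068410689244
def SN : ℕ := 21263816907832081167261978278249220521252426188952589088970965191992773216091349620746260366016734081933683294363739224851726812247258458209774845001939170861253141129483305546275142765851241132469412500751158143086429777103468729901131264535116283353462546002841178992068545841613178507050996583885056095233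
def CN : ℕ := 1056509228497374818303045924202797328233107813450639019113490543885589599357172104199938705511411882061245495019159415457102004743597638605454540620447257669044441161745787771008266125461646573618229978416590279144276582975466525435917758429651080779288280191298325130666280947945013864777884622601
def LG : ℕ := 125666274994847308571628569639420950040536824368857886511508329782776612299500268005713602447399520598594092928747260492154027215339797108840979884167309470640325355771736458679084624998327652230677311246736208624129819059906371841315407921367473998311482934492180148012498038135119217752609350066176545188463076073989622883974588628890514682276638717276112179217665229734697099867982264244133196430905652977459879661702324509090038928434441004319427432869631296126960475442105171416239089244694031330010742491322659427921441046789941861200669259740377131009836814847992587742616564381689541024391091860001077828915892361287947854534547071021710027206960386351739806264343639538352932910596933115576572408425380084009094127598845718898480852475125336334296940567703802537970859510467439291277695613159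08827701674380937540855738246014868861866171239549212996863111227748269689437324838916327353705705335476770360036398509906395282033622777707685662743522840593685297474917182840349762890616924510227174547940489473289862790615457467389632409032092934579506067348703338635251514299803207193907871671555306764102336917695460731365495551183293881000623491580122127288721855197194825243415015264448733506621107577874471486481332464044258308697450201738494255651523908883782779295090803902141850212368358370549956300849854224142258792527618205639853696743866951306706513780173002511223772938240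
def PS : ℕ := 2942641387530227586471193997431454101340549716126022669019194918721665661621944591108541166703207448093302143874979877888055894421157624262582098075880438585810027613139800779868534916932241494394374511959944549022794448924878061602696157865533452080400795606719347513604541033918713912239017401361672107352098398726183626860903934637034674660218021988199498626819378215323338955264956266625760002151884111881417756563624453073324540014571101425215995017470690503041188315215040499312222470414713344017120288530291694470348606371464657953390457582027405741246694272822381789988772222803142872942156010947753359943104602586509241277687402470671168893482480543993925524514393501512788471055749194828147191424584334552166984696971504553657423830242442102899361797417177305638018505613130683837351554422891440382278171062190208576572848707841174007521283958150118274611735029325799783396150456955555743451167680328937420471934924150495541444562731136870900535135594334798549558957857013779501162549839746075232346945266087605790469323444588827358669902267632375804504395810588405242219136304428525028511582960853546164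6743102899337171480852960646203509613739415255464020512178515614326970263468336512698175487700211862329065167360199294508032155966083954317799964600088568803849346696109552352899096037810614444450453806991507057088869749666633573223828989658577867057945801208096028068707737113837588363158267766378466420461445714140185540424255589367774228060323014958645367348224180128276421948534762557838576272374980880164540284081725001318146380565643034595534670944228155993967016106824397506641458041319965945877176118515256119890464622595031544314543902548726794121556046156457555099161890237911272811709196888378025975594984529609263760985173071706068425969850307275372331023513401330823132464026152998202100642379887876695400002757756843781844834233834659745007590049063104893025468157631676030151609807469534934939051593585162236949188413171604436987983950117882034802211576602472469241358802494942894136557028200592667605417873993050316252293774574076806968254624849432580627018519001309150175643607223441710861001679474737137799348351848321887945666027283763936274308682496929352727692711618038447005278748758797679737588205780815941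309435178899597557007236527704562205742712618847734953113051280077946645458874214564317682329425901544029119229706996773480426352686865400050967748389908917436986977698774865770756825017785591441763356133960632763732365075794094689748461678124194607608907927188559926105228880237053055944681446943394912056140714071818103543532342175373717795826988150180197543601605409426559281032792318844065957033188058445082092397498186340547759950458745619464485232696601482497347644171924177072338737461486583116779733817981959259950265210787082222880602247344423677382721858469456859845309236905725353938009041895155476348981067746724784765084298792260948787837296207648645233115997735863999046424975052116554955613717209505447009386310935696900334757334875375673958022143180879920155886455939808497708933226618087461988423901268239689876326651527168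

def tz (b : Bool) : ZMod 2 := if b then 1 else 0
def lg (a : ℕ) : ℕ := (LG >>> (9 * a)) % 512
def ps (a : ℕ) : ℕ := (PS >>> (10 * a)) % 1024
def step (a : ℕ) : ℕ := if a < 256 then 2 * a else (2 * a) ^^^ 911
def G (a : ℕ) : Bool := a != 0 && AN.testBit (lg a)
def S2 : ℕ := SN + SN * 2 ^ 1023
def sq (k : ℕ) : ZMod 2 := tz (SN.testBit (k % 1023))

theorem tz_xor (a b : Bool) : tz (a ^^ b) = tz a + tz b := by revert a b; decide
theorem tz_and (a b : Bool) : tz (a && b) = tz a * tz b := by revert a b; decide

noncomputable def P : (ZMod 2)[X] := X ^ 9 + X ^ 8 + X ^ 7 + X ^ 3 + X ^ 2 + X + 1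

theorem P_monic : P.Monic := by unfold P; monicity!
theorem P_deg : P.natDegree = 9 := by unfold P; compute_degree!

abbrev K : Type := AdjoinRoot P
noncomputable def al : K := AdjoinRoot.root P

theorem two : ∀ x : K, x + x = 0 := fun x => by
  have : (1 + 1 : ZMod 2) • x = 0 := by rw [show (1 + 1 : ZMod 2) = 0 from rfl, zero_smul]
  rwa [add_smul, one_smul] at this

noncomputable def Ph (a : ℕ) : K := ∑ j ∈ Finset.range 10, tz (a.testBit j) • al ^ j

theorem Ph_xor (a b : ℕ) : Ph (a ^^^ b) = Ph a + Ph b := by
  simp only [Ph, Nat.testBit_xor, tz_xor, add_smul, Finset.sum_add_distrib]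

theorem Ph_p : Ph 911 = 0 := by
  have h : aeval al P = 0 := by rw [al, AdjoinRoot.aeval_eq, AdjoinRoot.mk_self]
  simp only [P, map_add, map_pow, aeval_X, map_one] at h
  rw [← h]
  simp only [Ph, Finset.sum_range_succ, Finset.sum_range_zero]
  norm_num [tz, Nat.testBit, Nat.shiftRight_eq_div_pow]
  ring

theorem Ph_two (a : ℕ) (h : a < 512) : Ph (2 * a) = al * Ph a := by
  have h1 : a.testBit 9 = false := Nat.testBit_lt_two_pow h
  have h2 : ∀ j, (2 * a).testBit (j + 1) = a.testBit j := fun j => by
    rw [Nat.testBit_succ, Nat.mul_div_cancel_left _ (by norm_num)]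
  rw [Ph, Ph, Finset.sum_range_succ', Finset.sum_range_succ _ 9, h1, mul_add, Finset.mul_sum]
  simp only [h2]
  simp [tz, pow_succ']

theorem Ph_step (a : ℕ) (h : a < 512) : Ph (step a) = al * Ph a := by
  unfold step
  split_ifs
  · exact Ph_two a h
  · rw [Ph_xor, Ph_p, add_zero, Ph_two a h]

theorem step_lt : ∀ a < 512, step a < 512 := by decide +kernel

theorem pw_lt (t : ℕ) : step^[t] 1 < 512 := by
  induction t with
  | zero => decide
  | succ t ih => rw [Function.iterate_succ_apply']; exact step_lt _ ih

theorem Ph_zero : Ph 0 = 0 := by simp [Ph, tz]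

theorem Ph_pw (t : ℕ) : Ph (step^[t] 1) = al ^ t := by
  induction t with
  | zero => simp [Ph, Finset.sum_range_succ, tz, Nat.testBit]
  | succ t ih => rw [Function.iterate_succ_apply', Ph_step _ (pw_lt t), ih, pow_succ']

theorem surj (x : K) : ∃ a : Fin 512, Ph a = x := by
  induction x using AdjoinRoot.induction_on with
  | ih q =>
    induction q using Polynomial.induction_on' with
    | add p q h1 h2 =>
      obtain ⟨a, h1⟩ := h1
      obtain ⟨b, h2⟩ := h2
      exact ⟨⟨a ^^^ b, Nat.xor_lt_two_pow (n := 9) a.2 b.2⟩, by rw [Ph_xor, h1, h2, map_add]⟩
    | monomial n c =>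
      rcases (by decide : ∀ c : ZMod 2, c = 0 ∨ c = 1) c with rfl | rfl
      · exact ⟨0, by simpa using Ph_zero⟩
      · exact ⟨⟨_, pw_lt n⟩, by rw [Ph_pw, ← C_mul_X_pow_eq_monomial]; simp [al]⟩

noncomputable instance : Fintype K := Fintype.ofSurjective (fun a : Fin 512 => Ph a) surj

theorem card : Fintype.card K = 512 := by
  haveI := (AdjoinRoot.powerBasis' P_monic).finite
  rw [Module.card_eq_pow_finrank (K := ZMod 2), (AdjoinRoot.powerBasis' P_monic).finrank,
    AdjoinRoot.powerBasis'_dim, P_deg, ZMod.card]
  rfl

noncomputable def e : Fin 512 ≃ K := Equiv.ofBijective (fun a : Fin 512 => Ph a)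
  ((Fintype.bijective_iff_surjective_and_card _).2 ⟨surj, by rw [card, Fintype.card_fin]⟩)

theorem c1 : ∀ a < 512, a ≠ 0 → step^[lg a] 1 = a ∧ lg a < 511 := by decide +kernel
theorem c2 : ∀ t < 511, lg (step^[t] 1) = t ∧ step^[t] 1 ≠ 0 := by decide +kernel
theorem c3 : step^[511] 1 = 1 := by decide +kernel

theorem al_pow : al ^ 511 = 1 := by rw [← Ph_pw, c3, ← pow_zero al, ← Ph_pw]; rfl

theorem gen (x : K) (h : x ≠ 0) : ∃ t < 511, al ^ t = x := by
  obtain ⟨a, rfl⟩ := surj x
  have := c1 a a.2 fun h0 => h (by rw [h0, Ph_zero])
  exact ⟨_, this.2, by rw [← Ph_pw, this.1]⟩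

theorem symm_Ph (a : ℕ) (h : a < 512) : (e.symm (Ph a)).1 = a :=
  congrArg Fin.val (e.symm_apply_apply ⟨a, h⟩)

theorem pow_inj {s t : ℕ} (hs : s < 511) (ht : t < 511) (h : al ^ s = al ^ t) : s = t := by
  rw [← Ph_pw, ← Ph_pw] at h
  rw [← (c2 s hs).1, ← (c2 t ht).1, ← symm_Ph _ (pw_lt s), h, symm_Ph _ (pw_lt t)]

theorem pow_ne {s : ℕ} (hs : s < 511) : al ^ s ≠ 0 := fun h => by
  rw [← Ph_pw, ← Ph_zero] at h
  exact (c2 s hs).2 (by rw [← symm_Ph _ (pw_lt s), h, symm_Ph _ (by norm_num)])

theorem isField : IsField K where
  exists_pair_ne := ⟨_, _, pow_ne (s := 0) (by norm_num)⟩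
  mul_comm := mul_comm
  mul_inv_cancel := fun {x} h => by
    obtain ⟨t, h1, rfl⟩ := gen x h
    exact ⟨al ^ (511 - t), by rw [← pow_add, Nat.add_sub_cancel' h1.le, al_pow]⟩

noncomputable def g (x : K) : ZMod 2 := tz (G (e.symm x))

theorem g_Ph (a : ℕ) (h : a < 512) : g (Ph a) = tz (G a) := by rw [g, symm_Ph a h]

theorem g_zero : g 0 = 0 := by rw [← Ph_zero, g_Ph _ (by norm_num)]; rfl

theorem g_pow (t : ℕ) : g (al ^ t) = tz (AN.testBit (t % 511)) := by
  have h := c2 _ (Nat.mod_lt t (by norm_num : 0 < 511))
  rw [pow_eq_pow_mod t al_pow, ← Ph_pw, g_Ph _ (pw_lt _), G, h.1, bne_iff_ne.2 h.2, Bool.true_and]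

theorem sum_K (f : K → ℤ) : ∑ x, f x = f 0 + ∑ i ∈ Finset.range 511, f (al ^ i) := by
  classical
  rw [← Finset.add_sum_erase _ _ (Finset.mem_univ 0)]
  refine congrArg _ (Finset.sum_bij (fun i _ => al ^ i) ?_ ?_ ?_ fun _ _ => rfl).symm
  · exact fun i hi => Finset.mem_erase.2 ⟨pow_ne (Finset.mem_range.1 hi), Finset.mem_univ _⟩
  · exact fun i hi j hj => pow_inj (Finset.mem_range.1 hi) (Finset.mem_range.1 hj)
  · intro x hx
    obtain ⟨t, h1, h2⟩ := gen x (Finset.mem_erase.1 hx).1
    exact ⟨t, Finset.mem_range.2 h1, h2⟩

def cnt (X : ℕ) : ℕ → ℕ
  | 0 => 0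
  | n + 1 => if X.testBit n then cnt X n + 1 else cnt X n

theorem sum_cnt (X n : ℕ) :
    ∑ i ∈ Finset.range n, (-1 : ℤ) ^ (tz (X.testBit i)).val = n - 2 * cnt X n := by
  induction n with
  | zero => rfl
  | succ n ih =>
    rw [Finset.sum_range_succ, ih, cnt]
    cases X.testBit n
    · simp [tz]; ring
    · simp [tz, ZMod.val_one]; ring

def A2 : ℕ := AN + AN * 2 ^ 511

theorem c4 : ∀ t < 511, t ≠ 0 → cnt ((A2 >>> t) ^^^ AN) 511 = 256 := by decide +kernel
theorem c5 : cnt AN 511 = 256 := by decide +kernel
theorem c6 : ∀ j < 1022, A2.testBit j = AN.testBit (j % 511) := by decide +kernel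

theorem orth (l : K) (h : l ≠ 1) : ∑ x : K, (-1 : ℤ) ^ (g (l * x) + g x).val = 0 := by
  rw [sum_K, mul_zero, g_zero]
  by_cases h0 : l = 0
  · rw [Finset.sum_congr rfl (g := fun i => (-1 : ℤ) ^ (tz (AN.testBit i)).val) fun i hi => by
      rw [h0, zero_mul, g_zero, zero_add, g_pow, Nat.mod_eq_of_lt (Finset.mem_range.1 hi)],
      sum_cnt, c5]
    rfl
  · obtain ⟨t, h1, rfl⟩ := gen l h0
    rw [Finset.sum_congr rfl (g := fun i => (-1 : ℤ) ^ (tz (((A2 >>> t) ^^^ AN).testBit i)).val)
      fun i hi => by
        have := Finset.mem_range.1 hi
        rw [← pow_add, g_pow, g_pow, Nat.mod_eq_of_lt this, Nat.testBit_xor, tz_xor,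
          Nat.testBit_shiftRight, c6 _ (by omega)], sum_cnt, c4 t h1 fun h2 => h (by simp [h2])]
    rfl

theorem order : orderOf al = 511 := by
  refine (orderOf_eq_iff (by norm_num)).2 ⟨al_pow, fun m h1 h2 h3 => ?_⟩
  exact h2.ne' (pow_inj h1 (by norm_num) (h3.trans (pow_zero _).symm))

theorem nonaff : ¬ ∀ x y, g (x + y) = g x + g y + g 0 := fun h => by
  have := h (Ph 1) (Ph 10)
  rw [← Ph_xor, g_zero, g_Ph _ (by decide), g_Ph _ (by decide), g_Ph _ (by decide)] at this
  revert this
  decide +kernel

theorem c7 : ∀ j < 2046, S2.testBit j = SN.testBit (j % 1023) := by decide +kernel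

theorem sq_eq (k j : ℕ) (h : j < 1023) : sq (k + j) = tz (S2.testBit (k % 1023 + j)) := by
  rw [c7 _ (by omega), sq, Nat.mod_add_mod]

theorem c8 : ∀ k < 1023, S2.testBit (k + 10) =
    (S2.testBit (k + 0) ^^ G ((S2 >>> (k + 1)) % 2 ^ 9)) := by decide +kernel

theorem recur (k : ℕ) : sq (k + 10) =
    0 + sq k + g (∑ j : Fin 9, ((sq (k + (j + 1))).val : K) * al ^ (j : ℕ)) := by
  have h1 : ∑ j : Fin 9, ((sq (k + (j + 1))).val : K) * al ^ (j : ℕ) =
      Ph ((S2 >>> (k % 1023 + 1)) % 2 ^ 9) := by
    rw [Ph, Finset.sum_range_succ, Nat.testBit_mod_two_pow, Finset.sum_range]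
    simp only [lt_self_iff_false, decide_false, Bool.false_and, tz, Bool.false_eq_true, if_false,
      zero_smul, add_zero]
    refine Finset.sum_congr rfl fun j _ => ?_
    rw [sq_eq _ _ (by omega), Nat.testBit_mod_two_pow, Nat.testBit_shiftRight,
      show k % 1023 + 1 + j = k % 1023 + (j + 1) by omega, decide_eq_true j.2, Bool.true_and]
    cases S2.testBit (k % 1023 + (j + 1)) <;> simp [tz, ZMod.val_one]
  rw [h1, g_Ph _ (Nat.mod_lt (y := 2 ^ 9) _ (by norm_num)), sq_eq _ _ (by norm_num), ← add_zero k,
    sq_eq _ _ (by norm_num), add_zero k, c8 _ (Nat.mod_lt _ (by norm_num)), tz_xor, zero_add]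

def enc (w : Fin 10 → ZMod 2) : ℕ := ∑ i, (w i).val * 2 ^ (i : ℕ)

theorem c9 : ∀ k < 1023, ps (enc fun i => sq (k + i)) = k ∧ enc (fun i => sq (k + i)) ≠ 0 := by
  decide +kernel

theorem span : IsSpan 10 sq := by
  refine ⟨fun k => by simp [sq], fun w hw => ?_⟩
  have hinj : ∀ k < 1023, ∀ k' < 1023, (fun i : Fin 10 => sq (k + i)) = (fun i : Fin 10 => sq (k' + i)) →
      k = k' := fun k hk k' hk' h => by rw [← (c9 k hk).1, h, (c9 k' hk').1]
  let f : Fin 1023 → {w : Fin 10 → ZMod 2 // w ≠ 0} := fun k =>
    ⟨fun i => sq (k + i), fun h => (c9 k k.2).2 (by rw [h]; rfl)⟩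
  have hf : Function.Bijective f := (Fintype.bijective_iff_injective_and_card f).2
    ⟨fun k k' h => Fin.ext (hinj k k.2 k' k'.2 (congrArg Subtype.val h)), by simp⟩
  obtain ⟨k, hk⟩ := hf.2 ⟨w, hw⟩
  have hk' : (fun i : Fin 10 => sq (k + i)) = w := congrArg Subtype.val hk
  exact ⟨k, ⟨k.2, congrFun hk'⟩, fun k' h => hinj k' h.1 k k.2 ((funext h.2).trans hk'.symm)⟩

def acc : ℕ → ℕ
  | 0 => 0
  | n + 1 => if CN.testBit n then acc n ^^^ (S2 >>> n) else acc n

theorem acc_bit (k n : ℕ) : tz ((acc n).testBit k) =
    ∑ i ∈ Finset.range n, tz (CN.testBit i) * tz (S2.testBit (k + i)) := by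
  induction n with
  | zero => simp [acc, tz]
  | succ n ih =>
    rw [Finset.sum_range_succ, ← ih, acc]
    cases CN.testBit n
    · simp [tz]
    · rw [if_pos rfl, Nat.testBit_xor, tz_xor, Nat.testBit_shiftRight, add_comm n k]
      simp [tz]

theorem c10 : acc 987 % 2 ^ 1023 = (S2 >>> 987) % 2 ^ 1023 := by decide +kernel

theorem lin : linSpan sq ≤ 987 := by
  refine Nat.sInf_le ⟨fun i => tz (CN.testBit i), fun k => ?_⟩
  have h1 : k % 1023 < 1023 := Nat.mod_lt _ (by norm_num)
  have h2 := congrArg (fun x => Nat.testBit x (k % 1023)) c10
  simp only [Nat.testBit_mod_two_pow, h1, decide_true, Bool.true_and, Nat.testBit_shiftRight] at h2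
  rw [sq_eq _ _ (by norm_num), add_comm, ← h2, acc_bit, ← Fin.sum_univ_eq_sum_range
    (fun i => tz (CN.testBit i) * tz (S2.testBit (k % 1023 + i))) 987]
  exact Finset.sum_congr rfl fun i _ => by rw [sq_eq _ _ (by omega)]

end Pool.Agent.H40.Span
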