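import Mathlib

set_option autoImplicit false

namespace Pool.Agent.H40.Span

/-- Orthogonal Boolean function on a finite field. -/
def Orth {K : Type} [Field K] [Fintype K] (g : K → ZMod 2) : Prop :=
  ∀ l : K, l ≠ 1 → ∑ x : K, (-1 : ℤ) ^ (g (l * x) + g x).val = 0

/-- Period `2^n - 1`, and every nonzero `n`-tuple occurs exactly once among the windows. -/
def IsSpan (n : ℕ) (s : ℕ → ZMod 2) : Prop :=
  (∀ k, s (k + (2 ^ n - 1)) = s k) ∧
    ∀ w : Fin n → ZMod 2, w ≠ 0 → ∃! k, k < 2 ^ n - 1 ∧ ∀ i : Fin n, s (k + i) = w i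

/-- The linear span: least length of a linear feedback shift register generating `s`. -/
noncomputable def linSpan (s : ℕ → ZMod 2) : ℕ :=
  sInf {L | ∃ c : Fin L → ZMod 2, ∀ k, s (k + L) = ∑ i : Fin L, c i * s (k + i)}

end Pool.Agent.H40.Span
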