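import Pool.Agent.H40.SteinerDefs

set_option autoImplicit false

namespace Pool.Agent.H40.Steiner

variable {K : Type} [Field K]

def det (u v : K × K) : K := u.1 * v.2 - u.2 * v.1

def line (a v : K × K) : Set (K × K) := {x | det v (x - a) = 0}

def Lines (K : Type) [Field K] : Set (Set (K × K)) := {L | ∃ a v, v ≠ 0 ∧ L = line a v}

theorem exists_det_one {u : K × K} (hu : u ≠ 0) : ∃ u', det u u' = 1 := by
  by_cases h : u.1 = 0
  · have h2 : u.2 ≠ 0 := fun h2 => hu (Prod.ext h h2)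
    exact ⟨(-u.2⁻¹, 0), by simp [det, h2]⟩
  · exact ⟨(0, u.1⁻¹), by simp [det, h]⟩

theorem det_trans {u v w : K × K} (hv : v ≠ 0) (h1 : det v u = 0) (h2 : det v w = 0) :
    det u w = 0 := by
  obtain ⟨v', h⟩ := exists_det_one hv
  simp only [det] at *
  linear_combination (-(u.1 * w.2 - u.2 * w.1)) * h + (w.1 * v'.2 - w.2 * v'.1) * (-h1) +
    (u.1 * v'.2 - u.2 * v'.1) * h2

theorem eq_zero_of_det {u v w : K × K} (h : det u v ≠ 0) (h1 : det u w = 0) (h2 : det v w = 0) :
    w = 0 := by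
  by_contra hw
  apply h
  apply det_trans hw
  · simp only [det] at *; linear_combination -h1
  · simp only [det] at *; linear_combination -h2

theorem line_eq {L : Set (K × K)} (hL : L ∈ Lines K) {x y : K × K} (hx : x ∈ L) (hy : y ∈ L)
    (hxy : x ≠ y) : L = line x (y - x) := by
  obtain ⟨a, v, hv, rfl⟩ := hL
  have hyx : y - x ≠ 0 := sub_ne_zero.mpr hxy.symm
  have h1 : det v (y - x) = 0 := by
    simp only [line, det, Set.mem_ofPred_eq, Prod.fst_sub, Prod.snd_sub] at *
    linear_combination hy - hx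
  ext z
  constructor
  · intro hz
    refine det_trans hv h1 ?_
    simp only [line, det, Set.mem_ofPred_eq, Prod.fst_sub, Prod.snd_sub] at *
    linear_combination hz - hx
  · intro hz
    have h2 : det v (z - x) = 0 := by
      refine det_trans hyx ?_ hz
      simp only [det] at *; linear_combination -h1
    simp only [line, det, Set.mem_ofPred_eq, Prod.fst_sub, Prod.snd_sub] at *
    linear_combination h2 + hx

theorem line_infinite [Infinite K] {L : Set (K × K)} (hL : L ∈ Lines K) : L.Infinite := by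
  obtain ⟨a, v, hv, rfl⟩ := hL
  refine Set.infinite_of_injective_forall_mem (f := fun t : K => a + t • v) ?_ ?_
  · intro s t h
    exact smul_left_injective K hv (add_left_cancel h)
  · intro t
    simp only [line, det, Set.mem_ofPred_eq, add_sub_cancel_left, Prod.smul_fst, Prod.smul_snd,
      smul_eq_mul]
    ring

theorem two_lines : ∃ b₁ ∈ Lines K, ∃ b₂ ∈ Lines K, b₁ ≠ b₂ := by
  refine ⟨line 0 (1, 0), ⟨_, _, by simp, rfl⟩, line 0 (0, 1), ⟨_, _, by simp, rfl⟩, fun h => ?_⟩
  have : ((1, 0) : K × K) ∈ line (0 : K × K) (1, 0) := by simp [line, det]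
  rw [h] at this
  simp [line, det] at this

theorem left_mem (x v : K × K) : x ∈ line x v := by simp [line, det]

theorem right_mem (x y : K × K) : y ∈ line x (y - x) := by
  simp only [line, det, Set.mem_ofPred_eq]; ring

theorem steiner2 [Infinite K] : IsSteiner 2 (Lines K) := by
  classical
  refine ⟨fun b hb => by rw [(line_infinite hb).encard_eq]; exact le_top, two_lines,
    fun s hs => ?_⟩
  obtain ⟨x, y, hxy, rfl⟩ := Finset.card_eq_two.mp hs
  refine ⟨line x (y - x), ⟨⟨_, _, sub_ne_zero.mpr hxy.symm, rfl⟩, ?_⟩, ?_⟩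
  · simp only [Finset.coe_insert, Finset.coe_singleton]
    exact Set.insert_subset (left_mem _ _) (Set.singleton_subset_iff.mpr (right_mem _ _))
  · rintro L ⟨hL, hs⟩
    exact line_eq hL (hs (by simp)) (hs (by simp)) hxy

theorem preserves_iff {Ω : Type} (g : Equiv.Perm Ω) (B : Set (Set Ω)) :
    Preserves g B ↔ (∀ b ∈ B, g '' b ∈ B) ∧ ∀ b ∈ B, g.symm '' b ∈ B := by
  constructor
  · intro h
    refine ⟨fun b hb => h ▸ ⟨b, hb, rfl⟩, fun b hb => ?_⟩
    rw [← h] at hb
    obtain ⟨c, hc, rfl⟩ := hb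
    simpa [Set.image_image] using hc
  · rintro ⟨h1, h2⟩
    ext b
    constructor
    · rintro ⟨c, hc, rfl⟩; exact h1 c hc
    · intro hb
      exact ⟨_, h2 b hb, by simp [Set.image_image]⟩

def aff (x u u' y w w' : K × K) (z : K × K) : K × K :=
  y + det (z - x) u' • w + det u (z - x) • w'

theorem aff_aff {x u u' y w w' : K × K} (hu : det u u' = 1) (hw : det w w' = 1) (z : K × K) :
    aff y w w' x u u' (aff x u u' y w w' z) = z := by
  simp only [aff, det] at *
  ext
  · simp only [Prod.fst_add, Prod.smul_fst, Prod.fst_sub, Prod.snd_sub, Prod.snd_add,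
      Prod.smul_snd, smul_eq_mul]
    linear_combination (((z.1 - x.1) * u'.2 - (z.2 - x.2) * u'.1) * u.1 +
      (u.1 * (z.2 - x.2) - u.2 * (z.1 - x.1)) * u'.1) * hw + (z.1 - x.1) * hu
  · simp only [Prod.fst_add, Prod.smul_fst, Prod.fst_sub, Prod.snd_sub, Prod.snd_add,
      Prod.smul_snd, smul_eq_mul]
    linear_combination (((z.1 - x.1) * u'.2 - (z.2 - x.2) * u'.1) * u.2 +
      (u.1 * (z.2 - x.2) - u.2 * (z.1 - x.1)) * u'.2) * hw + (z.2 - x.2) * hu

theorem det_aff {x u u' y w w' : K × K} (hu : det u u' = 1) (hw : det w w' = 1) (a b c : K × K) :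
    det (aff x u u' y w w' b - aff x u u' y w w' a) (aff x u u' y w w' c - aff x u u' y w w' a) =
      det (b - a) (c - a) := by
  simp only [aff, det, Prod.fst_add, Prod.smul_fst, Prod.fst_sub, Prod.snd_sub, Prod.snd_add,
      Prod.smul_snd, smul_eq_mul] at *
  linear_combination ((b.1 - a.1) * (c.2 - a.2) - (b.2 - a.2) * (c.1 - a.1)) * hu +
    (((b.1 - a.1) * (c.2 - a.2) - (b.2 - a.2) * (c.1 - a.1)) * (u.1 * u'.2 - u.2 * u'.1)) * hw

def affE {x u u' y w w' : K × K} (hu : det u u' = 1) (hw : det w w' = 1) : Equiv.Perm (K × K) where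
  toFun := aff x u u' y w w'
  invFun := aff y w w' x u u'
  left_inv := aff_aff hu hw
  right_inv := aff_aff hw hu

theorem affE_line {x u u' y w w' : K × K} (hu : det u u' = 1) (hw : det w w' = 1)
    (L : Set (K × K)) (hL : L ∈ Lines K) : affE (x := x) (y := y) hu hw '' L ∈ Lines K := by
  obtain ⟨a, v, hv, rfl⟩ := hL
  let g := affE (x := x) (y := y) hu hw
  refine ⟨g a, g (a + v) - g a, ?_, ?_⟩
  · rw [sub_ne_zero]
    intro h
    exact hv (by simpa using g.injective h)
  · ext z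
    obtain ⟨z, rfl⟩ := g.surjective z
    rw [g.injective.mem_set_image]
    have := det_aff (x := x) (y := y) hu hw a (a + v) z
    simp only [add_sub_cancel_left] at this
    simp only [line, Set.mem_ofPred_eq]
    rw [← this]
    rfl

theorem trans2 : AutTransitive 2 (Lines K) := by
  intro x y hx hy
  have h1 : x 1 - x 0 ≠ 0 := sub_ne_zero.mpr (fun h => absurd (hx h) (by decide))
  have h2 : y 1 - y 0 ≠ 0 := sub_ne_zero.mpr (fun h => absurd (hy h) (by decide))
  obtain ⟨u', hu⟩ := exists_det_one h1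
  obtain ⟨w', hw⟩ := exists_det_one h2
  refine ⟨affE (x := x 0) (y := y 0) hu hw, (preserves_iff _ _).mpr
    ⟨affE_line hu hw, affE_line hw hu⟩, fun i => ?_⟩
  fin_cases i
  · simp [affE, aff, det]
  · show aff _ _ _ _ _ _ (x 1) = y 1
    have : det (x 1 - x 0) (x 1 - x 0) = 0 := by simp only [det]; ring
    simp [aff, hu, this]

def Par {Ω : Type} (B : Set (Set Ω)) (a b c d : Ω) : Prop :=
  ∃ L1 ∈ B, ∃ L2 ∈ B, ∃ L3 ∈ B, ∃ L4 ∈ B, a ∈ L1 ∧ b ∈ L1 ∧ c ∈ L2 ∧ d ∈ L2 ∧ a ∈ L3 ∧ c ∈ L3 ∧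
    b ∈ L4 ∧ d ∈ L4 ∧ Disjoint L1 L2 ∧ Disjoint L3 L4

def Ext {Ω : Type} (B : Set (Set Ω)) : Set (Set Ω) :=
  B ∪ {X | ∃ a b c d, Par B a b c d ∧ X = {a, b, c, d}}

theorem ext_image {Ω : Type} {B : Set (Set Ω)} (g : Equiv.Perm Ω) (h : ∀ b ∈ B, g '' b ∈ B) :
    ∀ b ∈ Ext B, g '' b ∈ Ext B := by
  rintro X (hX | ⟨a, b, c, d, ⟨L1, h1, L2, h2, L3, h3, L4, h4, e1, e2, e3, e4, e5, e6, e7, e8,
    d1, d2⟩, rfl⟩)
  · exact Or.inl (h X hX)
  · refine Or.inr ⟨g a, g b, g c, g d, ⟨_, h _ h1, _, h _ h2, _, h _ h3, _, h _ h4,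
      ⟨_, e1, rfl⟩, ⟨_, e2, rfl⟩, ⟨_, e3, rfl⟩, ⟨_, e4, rfl⟩, ⟨_, e5, rfl⟩, ⟨_, e6, rfl⟩,
      ⟨_, e7, rfl⟩, ⟨_, e8, rfl⟩, (Set.disjoint_image_iff g.injective).mpr d1,
      (Set.disjoint_image_iff g.injective).mpr d2⟩, ?_⟩
    simp [Set.image_insert_eq]

theorem preserves_ext {Ω : Type} {B : Set (Set Ω)} (g : Equiv.Perm Ω) (h : Preserves g B) :
    Preserves g (Ext B) := by
  rw [preserves_iff] at *
  exact ⟨ext_image g h.1, ext_image g.symm h.2⟩

theorem par_of_disjoint {a v b w : K × K} (h : Disjoint (line a v) (line b w)) : det v w = 0 := by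
  by_contra hne
  have h1 : a + (det w (a - b) / det v w) • v ∈ line a v := by
    simp only [line, det, Set.mem_ofPred_eq, add_sub_cancel_left, Prod.smul_fst, Prod.smul_snd,
      smul_eq_mul]
    ring
  have h2 : a + (det w (a - b) / det v w) • v ∈ line b w := by
    obtain ⟨t, ht⟩ : ∃ t, t = det w (a - b) / det v w := ⟨_, rfl⟩
    have ht' : t * det v w = det w (a - b) := by rw [ht]; field_simp
    rw [← ht]
    simp only [line, det, Set.mem_ofPred_eq, Prod.smul_fst, Prod.smul_snd, Prod.fst_sub,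
      Prod.snd_sub, Prod.fst_add, Prod.snd_add, smul_eq_mul] at *
    linear_combination -ht'
  exact Set.disjoint_left.mp h h1 h2

theorem par_iff (a b c d : K × K) :
    Par (Lines K) a b c d ↔ det (b - a) (c - a) ≠ 0 ∧ d = b + c - a := by
  constructor
  · rintro ⟨L1, h1, L2, h2, L3, h3, L4, h4, e1, e2, e3, e4, e5, e6, e7, e8, d1, d2⟩
    have hab : a ≠ b := fun h => Set.disjoint_left.mp d2 e5 (h ▸ e7)
    have hac : a ≠ c := fun h => Set.disjoint_left.mp d1 e1 (h ▸ e3)
    have k1 := line_eq h1 e1 e2 hab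
    have k3 := line_eq h3 e5 e6 hac
    subst k1 k3
    have hD : det (b - a) (c - a) ≠ 0 := fun h => Set.disjoint_left.mp d1 h e3
    obtain ⟨p, v, hv, rfl⟩ := h2
    obtain ⟨q, w, hw, rfl⟩ := h4
    have p1 := par_of_disjoint d1
    have p2 := par_of_disjoint d2
    have q1 : det (b - a) (d - c) = 0 := by
      refine det_trans hv ?_ ?_
      · simp only [det] at *; linear_combination -p1
      · simp only [line, det, Set.mem_ofPred_eq, Prod.fst_sub, Prod.snd_sub] at *
        linear_combination e4 - e3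
    have q2 : det (c - a) (d - b) = 0 := by
      refine det_trans hw ?_ ?_
      · simp only [det] at *; linear_combination -p2
      · simp only [line, det, Set.mem_ofPred_eq, Prod.fst_sub, Prod.snd_sub] at *
        linear_combination e8 - e7
    refine ⟨hD, ?_⟩
    rw [← sub_eq_zero]
    refine eq_zero_of_det hD ?_ ?_
    · simp only [det, Prod.fst_sub, Prod.snd_sub, Prod.fst_add, Prod.snd_add] at *
      linear_combination q1
    · simp only [det, Prod.fst_sub, Prod.snd_sub, Prod.fst_add, Prod.snd_add] at *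
      linear_combination q2
  · rintro ⟨hD, rfl⟩
    have hb : b - a ≠ 0 := fun h => hD (by simp [h, det])
    have hc : c - a ≠ 0 := fun h => hD (by simp [h, det])
    refine ⟨line a (b - a), ⟨_, _, hb, rfl⟩, line c (b - a), ⟨_, _, hb, rfl⟩,
      line a (c - a), ⟨_, _, hc, rfl⟩, line b (c - a), ⟨_, _, hc, rfl⟩, left_mem _ _,
      right_mem _ _, left_mem _ _, ?_, left_mem _ _, right_mem _ _, left_mem _ _, ?_, ?_, ?_⟩
    · simp only [line, det, Set.mem_ofPred_eq, Prod.fst_sub, Prod.snd_sub, Prod.fst_add,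
        Prod.snd_add]
      ring
    · simp only [line, det, Set.mem_ofPred_eq, Prod.fst_sub, Prod.snd_sub, Prod.fst_add,
        Prod.snd_add]
      ring
    · rw [Set.disjoint_left]
      intro z h1 h2
      apply hD
      simp only [line, det, Set.mem_ofPred_eq, Prod.fst_sub, Prod.snd_sub] at *
      linear_combination h1 - h2
    · rw [Set.disjoint_left]
      intro z h1 h2
      apply hD
      simp only [line, det, Set.mem_ofPred_eq, Prod.fst_sub, Prod.snd_sub] at *
      linear_combination h2 - h1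

/-- the symmetric description in characteristic two -/
def Quad (a b c d : K × K) : Prop := det (b - a) (c - a) ≠ 0 ∧ d = b + c - a

section two

variable [CharP K 2]

theorem neg_eq2 (x : K × K) : -x = x := by
  ext <;> simp [CharTwo.neg_eq]

theorem Quad.s1 {a b c d : K × K} (h : Quad a b c d) : Quad b a c d := by
  obtain ⟨h, rfl⟩ := h
  refine ⟨fun e => h ?_, ?_⟩
  · simp only [det, Prod.fst_sub, Prod.snd_sub] at *
    linear_combination -e
  · rw [sub_eq_add_neg, sub_eq_add_neg, neg_eq2, neg_eq2]; abel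

theorem Quad.s2 {a b c d : K × K} (h : Quad a b c d) : Quad a c b d := by
  obtain ⟨h, rfl⟩ := h
  refine ⟨fun e => h ?_, ?_⟩
  · simp only [det, Prod.fst_sub, Prod.snd_sub] at *
    linear_combination -e
  · abel

theorem Quad.s3 {a b c d : K × K} (h : Quad a b c d) : Quad a b d c := by
  obtain ⟨h, rfl⟩ := h
  refine ⟨fun e => h ?_, ?_⟩
  · simp only [det, Prod.fst_sub, Prod.snd_sub, Prod.fst_add, Prod.snd_add] at *
    linear_combination e
  · have h1 : b + b = 0 := by nth_rewrite 1 [← neg_eq2 b]; exact neg_add_cancel b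
    have h2 : a + a = 0 := by nth_rewrite 1 [← neg_eq2 a]; exact neg_add_cancel a
    calc c = c + (b + b) - (a + a) := by rw [h1, h2]; simp
      _ = _ := by abel

theorem Quad.first {a b c d x : K × K} (h : Quad a b c d) (hx : x ∈ ({a, b, c, d} : Set (K × K))) :
    ∃ b' c' d', Quad x b' c' d' ∧ ({a, b, c, d} : Set (K × K)) = {x, b', c', d'} := by
  rcases hx with rfl | rfl | rfl | rfl
  · exact ⟨b, c, d, h, rfl⟩
  · exact ⟨a, c, d, h.s1, by ext; simp only [Set.mem_insert_iff, Set.mem_singleton_iff]; tauto⟩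
  · exact ⟨a, b, d, h.s2.s1, by ext; simp only [Set.mem_insert_iff, Set.mem_singleton_iff]; tauto⟩
  · exact ⟨a, b, c, h.s3.s2.s1,
      by ext; simp only [Set.mem_insert_iff, Set.mem_singleton_iff]; tauto⟩

theorem Quad.second {a b c d y : K × K} (h : Quad a b c d)
    (hy : y ∈ ({a, b, c, d} : Set (K × K))) (hne : a ≠ y) :
    ∃ c' d', Quad a y c' d' ∧ ({a, b, c, d} : Set (K × K)) = {a, y, c', d'} := by
  rcases hy with rfl | rfl | rfl | rfl
  · exact absurd rfl hne
  · exact ⟨c, d, h, rfl⟩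
  · exact ⟨b, d, h.s2, by ext; simp only [Set.mem_insert_iff, Set.mem_singleton_iff]; tauto⟩
  · exact ⟨b, c, h.s3.s2, by ext; simp only [Set.mem_insert_iff, Set.mem_singleton_iff]; tauto⟩

theorem Quad.third {a b c d z : K × K} (h : Quad a b c d)
    (hz : z ∈ ({a, b, c, d} : Set (K × K))) (hne : a ≠ z) (hne' : b ≠ z) :
    ∃ d', Quad a b z d' ∧ ({a, b, c, d} : Set (K × K)) = {a, b, z, d'} := by
  rcases hz with rfl | rfl | rfl | rfl
  · exact absurd rfl hne
  · exact absurd rfl hne'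
  · exact ⟨d, h, rfl⟩
  · exact ⟨c, h.s3, by ext; simp only [Set.mem_insert_iff, Set.mem_singleton_iff]; tauto⟩

theorem Quad.three {a b c d x y z : K × K} (h : Quad a b c d)
    (hx : x ∈ ({a, b, c, d} : Set (K × K))) (hy : y ∈ ({a, b, c, d} : Set (K × K)))
    (hz : z ∈ ({a, b, c, d} : Set (K × K))) (hxy : x ≠ y) (hxz : x ≠ z) (hyz : y ≠ z) :
    det (y - x) (z - x) ≠ 0 ∧ ({a, b, c, d} : Set (K × K)) = {x, y, z, y + z - x} := by
  obtain ⟨b1, c1, d1, h1, e1⟩ := h.first hx
  rw [e1] at hy hz ⊢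
  obtain ⟨c2, d2, h2, e2⟩ := h1.second hy hxy
  rw [e2] at hz ⊢
  obtain ⟨d3, h3, e3⟩ := h2.third hz hxz hyz
  rw [e3, h3.2]
  exact ⟨h3.1, rfl⟩

omit [CharP K 2] in
theorem Quad.ne12 {a b c d : K × K} (h : Quad a b c d) : a ≠ b := fun e => h.1 (by simp [e, det])

theorem steiner3 [Infinite K] : IsSteiner 3 (Ext (Lines K)) := by
  classical
  refine ⟨?_, ?_, fun s hs => ?_⟩
  · rintro X (hX | ⟨a, b, c, d, h, rfl⟩)
    · rw [(line_infinite hX).encard_eq]; exact le_top
    · have h : Quad a b c d := (par_iff a b c d).mp h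
      have n1 := h.ne12
      have n2 := h.s2.ne12
      have n3 := h.s3.s2.ne12
      have n4 := h.s1.s2.ne12
      have n5 := h.s1.s3.s2.ne12
      have n6 := h.s2.s1.s3.s2.ne12
      rw [Set.encard_insert_of_notMem (by simp [n1, n2, n3]),
        Set.encard_insert_of_notMem (by simp [n4, n5]),
        Set.encard_insert_of_notMem (by simp [n6]), Set.encard_singleton]
      norm_num
  · obtain ⟨b1, h1, b2, h2, h⟩ := two_lines (K := K)
    exact ⟨b1, Or.inl h1, b2, Or.inl h2, h⟩
  · obtain ⟨x, y, z, hxy, hxz, hyz, rfl⟩ := Finset.card_eq_three.mp hs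
    simp only [Finset.coe_insert, Finset.coe_singleton, Set.insert_subset_iff,
      Set.singleton_subset_iff]
    by_cases hD : det (y - x) (z - x) = 0
    · refine ⟨line x (y - x), ⟨Or.inl ⟨_, _, sub_ne_zero.mpr hxy.symm, rfl⟩, left_mem _ _,
        right_mem _ _, hD⟩, ?_⟩
      rintro X ⟨hX | ⟨a, b, c, d, h, rfl⟩, hx, hy, hz⟩
      · exact line_eq hX hx hy hxy
      · have h : Quad a b c d := (par_iff a b c d).mp h
        exact absurd hD (h.three hx hy hz hxy hxz hyz).1
    · refine ⟨{x, y, z, y + z - x}, ⟨Or.inr ⟨x, y, z, _, (par_iff _ _ _ _).mpr ⟨hD, rfl⟩, rfl⟩,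
        by simp, by simp, by simp⟩, ?_⟩
      rintro X ⟨hX | ⟨a, b, c, d, h, rfl⟩, hx, hy, hz⟩
      · rw [line_eq hX hx hy hxy] at hz
        exact absurd hz hD
      · have h : Quad a b c d := (par_iff a b c d).mp h
        exact (h.three hx hy hz hxy hxz hyz).2

end two

theorem countable_K : Countable (AlgebraicClosure (ZMod 2)) := by
  rw [← Cardinal.mk_le_aleph0_iff]
  refine (Algebra.IsAlgebraic.cardinalMk_le_max (ZMod 2) _).trans ?_
  simp

end Pool.Agent.H40.Steiner
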