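import Mathlib

set_option autoImplicit false

namespace Pool.Agent.H40.Steiner

/-- A Steiner `k`-system: blocks have at least `k + 1` points, there are at least two blocks, and
any `k` distinct points lie in exactly one block. -/
def IsSteiner {Ω : Type} (k : ℕ) (B : Set (Set Ω)) : Prop :=
  (∀ b ∈ B, ((k + 1 : ℕ) : ℕ∞) ≤ b.encard) ∧ (∃ b₁ ∈ B, ∃ b₂ ∈ B, b₁ ≠ b₂) ∧
    ∀ s : Finset Ω, s.card = k → ∃! b, b ∈ B ∧ (s : Set Ω) ⊆ b

/-- The permutation `g` maps the family `B` onto itself. -/
def Preserves {Ω : Type} (g : Equiv.Perm Ω) (B : Set (Set Ω)) : Prop :=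
  (fun b => g '' b) '' B = B

/-- The full automorphism group of `B` is transitive on ordered `k`-tuples of distinct points. -/
def AutTransitive {Ω : Type} (k : ℕ) (B : Set (Set Ω)) : Prop :=
  ∀ x y : Fin k → Ω, Function.Injective x → Function.Injective y →
    ∃ g : Equiv.Perm Ω, Preserves g B ∧ ∀ i, g (x i) = y i

end Pool.Agent.H40.Steiner
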