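import Pool.Agent.H40.StubDefs

namespace Pool.Agent.H40.Stub

open Set

variable {σ τ : ℕ → Type} {M N : Type}

/-! ### Invariance under automorphisms -/

def autEquiv (B : Str σ M) (g : Equiv.Perm M) (hg : IsAut B g) :
    @FirstOrder.Language.Equiv (lang σ) M M B.toStructure B.toStructure :=
  @FirstOrder.Language.Equiv.mk (lang σ) M M B.toStructure B.toStructure g
    (fun f _ => Empty.elim f) (fun r x => hg _ r x)

theorem FoDef.inv {B : Str σ M} {n : ℕ} {s : Set (Fin n → M)} (h : FoDef B s) {g : Equiv.Perm M}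
    (hg : IsAut B g) (x : Fin n → M) : g ∘ x ∈ s ↔ x ∈ s := by
  obtain ⟨φ, hφ⟩ := h
  letI := B.toStructure
  rw [hφ, hφ]
  exact FirstOrder.Language.StrongHomClass.realize_formula (autEquiv B g hg) φ

theorem Reduct.aut {A : Str τ M} {B : Str σ M} (h : Reduct A B) {g : Equiv.Perm M}
    (hg : IsAut B g) : IsAut A g := fun n r x => (h n r).inv hg x

theorem foDef_rel (B : Str σ M) (n : ℕ) (r : σ n) : FoDef B {x | B n r x} := by
  letI := B.toStructure
  refine ⟨FirstOrder.Language.Relations.formula (L := lang σ) r fun i => .var i, fun x => ?_⟩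
  rw [FirstOrder.Language.Formula.realize_rel]
  rfl

/-! ### Closure properties of pp-definable sets -/

def Atom.map {β γ : Type} (f : β → γ) : Atom σ β → Atom σ γ
  | .eq a b => .eq (f a) (f b)
  | .rel k r t => .rel k r (f ∘ t)

theorem Atom.holds_map (A : Str σ M) {β γ : Type} (f : β → γ) (v : γ → M) (a : Atom σ β) :
    (a.map f).Holds A v ↔ a.Holds A (v ∘ f) := by
  cases a <;> rfl

variable {A : Str σ M}

theorem pp_atom {α : Type} (a : Atom σ α) : PPDef A {x | a.Holds A x} := by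
  refine ⟨Empty, inferInstance, {a.map Sum.inl}, finite_singleton _, fun x => ?_⟩
  simp only [mem_ofPred_eq, mem_singleton_iff, forall_eq, Atom.holds_map, Sum.elim_comp_inl]
  exact ⟨fun h => ⟨Empty.elim, h⟩, fun ⟨_, h⟩ => h⟩

theorem PPDef.comap {α γ : Type} {s : Set (α → M)} (h : PPDef A s) (f : α → γ) :
    PPDef A {x : γ → M | x ∘ f ∈ s} := by
  obtain ⟨β, _, l, hl, h⟩ := h
  refine ⟨β, inferInstance, Atom.map (Sum.map f id) '' l, hl.image _, fun x => ?_⟩
  simp only [mem_ofPred_eq, h, forall_mem_image, Atom.holds_map]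
  refine exists_congr fun y => ?_
  have : Sum.elim x y ∘ Sum.map f id = Sum.elim (x ∘ f) y := by
    funext a; cases a <;> rfl
  rw [this]

theorem PPDef.ex {α γ : Type} [Finite γ] {s : Set (α ⊕ γ → M)} (h : PPDef A s) :
    PPDef A {x : α → M | ∃ y : γ → M, Sum.elim x y ∈ s} := by
  obtain ⟨β, _, l, hl, h⟩ := h
  refine ⟨γ ⊕ β, inferInstance, Atom.map (Equiv.sumAssoc α γ β) '' l, hl.image _, fun x => ?_⟩
  simp only [mem_ofPred_eq, h, forall_mem_image, Atom.holds_map]
  constructor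
  · rintro ⟨y, z, hz⟩
    refine ⟨Sum.elim y z, ?_⟩
    have : Sum.elim x (Sum.elim y z) ∘ Equiv.sumAssoc α γ β = Sum.elim (Sum.elim x y) z := by
      funext a; rcases a with (a | a) | a <;> rfl
    rw [this]; exact hz
  · rintro ⟨w, hw⟩
    refine ⟨w ∘ Sum.inl, w ∘ Sum.inr, ?_⟩
    have : Sum.elim x w ∘ Equiv.sumAssoc α γ β =
        Sum.elim (Sum.elim x (w ∘ Sum.inl)) (w ∘ Sum.inr) := by
      funext a; rcases a with (a | a) | a <;> rfl
    rw [← this]; exact hw

theorem pp_iInter {α ι : Type} [Finite ι] {s : ι → Set (α → M)} (h : ∀ i, PPDef A (s i)) :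
    PPDef A (⋂ i, s i) := by
  choose β hβ l hl h using h
  refine ⟨Σ i, β i, inferInstance, ⋃ i, Atom.map (Sum.map id (Sigma.mk i)) '' l i,
    finite_iUnion fun i => (hl i).image _, fun x => ?_⟩
  simp only [mem_iInter, h, mem_iUnion, forall_exists_index]
  constructor
  · intro H
    choose y hy using H
    refine ⟨fun p => y p.1 p.2, ?_⟩
    rintro _ i ⟨a, ha, rfl⟩
    rw [Atom.holds_map]
    have : Sum.elim x (fun p : Σ i, β i => y p.1 p.2) ∘ Sum.map id (Sigma.mk i) =
        Sum.elim x (y i) := by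
      funext a; cases a <;> rfl
    rw [this]; exact hy i a ha
  · rintro ⟨y, hy⟩ i
    refine ⟨fun b => y ⟨i, b⟩, fun a ha => ?_⟩
    have h1 := hy _ i ⟨a, ha, rfl⟩
    rw [Atom.holds_map] at h1
    have : Sum.elim x y ∘ Sum.map id (Sigma.mk i) = Sum.elim x fun b => y ⟨i, b⟩ := by
      funext a; cases a <;> rfl
    rwa [this] at h1

theorem pp_univ {α : Type} : PPDef A (univ : Set (α → M)) := by
  have := pp_iInter (A := A) (α := α) (ι := Empty) (s := Empty.elim) fun i => i.elim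
  simpa using this

theorem PPDef.inter {α : Type} {s t : Set (α → M)} (hs : PPDef A s) (ht : PPDef A t) :
    PPDef A (s ∩ t) := by
  have := pp_iInter (A := A) (ι := Bool) (s := fun b => cond b s t) fun b => by cases b <;> simpa
  rwa [← inter_eq_iInter] at this

theorem PPDef.hom {α : Type} {s : Set (α → M)} (h : PPDef A s) {f : M → M} (hf : IsHom A A f)
    {x : α → M} (hx : x ∈ s) : f ∘ x ∈ s := by
  obtain ⟨β, _, l, -, h⟩ := h
  obtain ⟨y, hy⟩ := (h x).1 hx
  refine (h _).2 ⟨f ∘ y, fun a ha => ?_⟩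
  have e : Sum.elim (f ∘ x) (f ∘ y) = f ∘ Sum.elim x y := by funext a; cases a <;> rfl
  rw [e]
  have := hy a ha
  cases a with
  | eq a b => exact congrArg f this
  | rel k r t => exact hf _ _ _ this

/-! ### Orbits are pp-definable in oligomorphic model-complete cores -/

def Olig (A : Str σ M) : Prop :=
  ∀ n : ℕ, ∃ (T : Type) (_ : Finite T) (t : (Fin n → M) → T),
    ∀ u v, t u = t v → ∃ g, IsAut A g ∧ g ∘ u = v

def Le (A : Str σ M) {n : ℕ} (u v : Fin n → M) : Prop := ∀ s, PPDef A s → u ∈ s → v ∈ s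

theorem IsAut.hom {g : Equiv.Perm M} (hg : IsAut A g) : IsHom A A g :=
  fun n r x h => (hg n r x).2 h

theorem pp_le (hA : Olig A) {n : ℕ} (u : Fin n → M) : PPDef A {v | Le A u v} := by
  obtain ⟨T, _, t, ht⟩ := hA n
  have : ∀ c : T, ∃ s : Set (Fin n → M), PPDef A s ∧ u ∈ s ∧ ∀ v, t v = c → v ∈ s → Le A u v := by
    intro c
    by_cases h : ∃ v, t v = c ∧ ¬ Le A u v
    · obtain ⟨v, hv, hle⟩ := h
      simp only [Le] at hle
      push Not at hle
      obtain ⟨s, hs, hu, hvs⟩ := hle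
      refine ⟨s, hs, hu, fun w hw hws => ?_⟩
      obtain ⟨g, hg, e⟩ := ht w v (hw.trans hv.symm)
      exact absurd (e ▸ hs.hom hg.hom hws) hvs
    · push Not at h
      exact ⟨univ, pp_univ, trivial, fun v hv _ => h v hv⟩
  choose s hs hu h using this
  have e : {v | Le A u v} = ⋂ c, s c := by
    ext v
    simp only [mem_ofPred_eq, mem_iInter]
    exact ⟨fun H c => H _ (hs c) (hu c), fun H => h _ v rfl (H _)⟩
  rw [e]; exact pp_iInter hs

theorem le_snoc (hA : Olig A) {n : ℕ} {u v : Fin n → M} (h : Le A u v) (c : M) :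
    ∃ d, Le A (Fin.snoc u c : Fin (n + 1) → M) (Fin.snoc v d) := by
  let f : Fin (n + 1) → Fin n ⊕ Unit := Fin.lastCases (Sum.inr ()) Sum.inl
  have hf : ∀ (x : Fin n → M) (y : Unit → M), Sum.elim x y ∘ f = Fin.snoc x (y ()) := by
    intro x y; funext i
    refine Fin.lastCases ?_ (fun i => ?_) i <;> simp [f]
  have h1 := ((pp_le hA (Fin.snoc u c : Fin (n + 1) → M)).comap f).ex
  obtain ⟨y, hy⟩ := h _ h1 ⟨fun _ => c, by
    show Le A _ _
    rw [hf]; exact fun s _ hs => hs⟩
  refine ⟨y (), ?_⟩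
  have : Le A _ (Sum.elim v y ∘ f) := hy
  rwa [hf] at this

theorem le_hom [Countable M] [Nonempty M] (hA : Olig A) {n : ℕ} {u v : Fin n → M} (h : Le A u v) :
    ∃ f, IsHom A A f ∧ f ∘ u = v := by
  classical
  obtain ⟨e, he⟩ := exists_surjective_nat M
  let a : ℕ → M := fun i => if h : i < n then u ⟨i, h⟩ else e (i - n)
  have ha : Function.Surjective a := fun x => by
    obtain ⟨i, rfl⟩ := he x
    exact ⟨i + n, by simp [a]⟩
  let Good : ℕ → (ℕ → M) → Prop := fun k b => Le A (fun i : Fin k => a i) (fun i : Fin k => b i)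
  have step : ∀ k b, Good k b → ∃ d, Good (k + 1) (Function.update b k d) := by
    intro k b hb
    obtain ⟨d, hd⟩ := le_snoc hA hb (a k)
    refine ⟨d, ?_⟩
    have e1 : (fun i : Fin (k + 1) => a i) = Fin.snoc (fun i : Fin k => a i) (a k) := by
      funext i; refine Fin.lastCases ?_ (fun i => ?_) i <;> simp
    have e2 : (fun i : Fin (k + 1) => Function.update b k d i) =
        Fin.snoc (fun i : Fin k => b i) d := by
      funext i; refine Fin.lastCases ?_ (fun i => ?_) i
      · simp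
      · simp [Function.update_of_ne i.2.ne]
    show Le A _ _
    rw [e1, e2]; exact hd
  choose! d hd using step
  let b0 : ℕ → M := fun i => if h : i < n then v ⟨i, h⟩ else e 0
  let B : ℕ → ℕ → M := fun j => Nat.rec b0 (fun j b => Function.update b (n + j) (d (n + j) b)) j
  have hB : ∀ j, Good (n + j) (B j) := by
    intro j
    induction j with
    | zero =>
      have e1 : (fun i : Fin n => a i) = u := by funext i; simp [a]
      have e2 : (fun i : Fin n => b0 i) = v := by funext i; simp [b0]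
      show Le A (fun i : Fin n => a i) (fun i : Fin n => b0 i)
      rw [e1, e2]; exact h
    | succ j ih => exact hd _ _ ih
  have stab : ∀ i j k, i < n + j → B (j + k) i = B j i := by
    intro i j k hi
    induction k with
    | zero => rfl
    | succ k ih =>
      show Function.update (B (j + k)) (n + (j + k)) _ i = _
      rw [Function.update_of_ne (by omega), ih]
  let b : ℕ → M := fun i => B (i + 1) i
  have hb : ∀ j i, i < n + j → B j i = b i := by
    intro j i hi
    have h1 := stab i j (i + 1) hi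
    have h2 := stab i (i + 1) j (by omega)
    rw [add_comm] at h2
    exact h1.symm.trans h2
  have key : ∀ (α : Type) [Finite α] (ι : α → ℕ) (s : Set (α → M)), PPDef A s → a ∘ ι ∈ s →
      b ∘ ι ∈ s := by
    intro α _ ι s hs hι
    obtain ⟨K, hK⟩ := (finite_range ι).bddAbove
    have hK' : ∀ x, ι x < n + (K + 1) := fun x => by
      have := hK (mem_range_self x); omega
    have h1 := hB (K + 1) _ (hs.comap fun x => (⟨ι x, hK' x⟩ : Fin (n + (K + 1)))) hι
    have e : b ∘ ι = fun x => B (K + 1) (ι x) := funext fun x => (hb _ _ (hK' x)).symm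
    rw [e]; exact h1
  choose c hc using ha
  have hf : ∀ i, b (c (a i)) = b i := fun i =>
    key Bool (fun x => cond x (c (a i)) i) _ (pp_atom (.eq true false)) (hc _)
  refine ⟨fun x => b (c x), fun k r x hx => ?_, ?_⟩
  · refine key (Fin k) (c ∘ x) _ (pp_atom (.rel k r id)) ?_
    have : a ∘ c ∘ x = x := funext fun i => hc _
    rw [this]; exact hx
  · funext i
    have e1 : u i = a i := by simp [a]
    show b (c (u i)) = v i
    rw [e1, hf, ← hb 0 i i.2]
    show b0 i = v i
    simp [b0]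

theorem pp_orbit [Countable M] [Nonempty M] (hA : Olig A) (hc : McCore A) {n : ℕ} (u : Fin n → M) :
    PPDef A {v | ∃ g, IsAut A g ∧ g ∘ u = v} := by
  have : {v | ∃ g, IsAut A g ∧ g ∘ u = v} = {v | Le A u v} := by
    ext v
    constructor
    · rintro ⟨g, hg, rfl⟩ s hs hu
      exact hs.hom hg.hom hu
    · intro h
      obtain ⟨f, hf, rfl⟩ := le_hom hA h
      exact hc f hf n u
  rw [this]; exact pp_le hA u

/-! ### Polymorphisms of the triangle -/

theorem gl_idem {I : Type} [Finite I] (f : (I → Fin 3) → Fin 3)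
    (hf : ∀ u v : I → Fin 3, (∀ i, u i ≠ v i) → f u ≠ f v) (h1 : ∀ a, f (fun _ => a) = a) :
    ∃ i, ∀ u, f u = u i := by
  classical
  let w : Set I → Fin 3 → Fin 3 → I → Fin 3 := fun S a b i => if i ∈ S then a else b
  have two : ∀ S a b, a ≠ b → f (w S a b) = a ∨ f (w S a b) = b := by
    intro S a b hab
    obtain ⟨c, hca, hcb, hc⟩ := (by decide : ∀ a b : Fin 3, a ≠ b →
      ∃ c, a ≠ c ∧ b ≠ c ∧ ∀ z, z ≠ c → z = a ∨ z = b) a b hab
    refine hc _ ?_
    rw [← h1 c]
    refine hf _ _ fun i => ?_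
    by_cases hi : i ∈ S <;> simp [w, hi, hca, hcb]
  have mv : ∀ S a b c, a ≠ b → c ≠ a → f (w S a b) = a → f (w S c a) = c := by
    intro S a b c hab hca h
    refine (two S c a hca).resolve_right fun h2 => hf (w S a b) (w S c a) (fun i => ?_)
      (h.trans h2.symm)
    by_cases hi : i ∈ S <;> simp [w, hi, hab.symm, hca.symm]
  let U : Set I → Prop := fun S => f (w S 0 1) = 0
  have all : ∀ S, U S → ∀ a b, a ≠ b → f (w S a b) = a := by
    intro S h01
    have h10 := mv S 0 1 1 (by decide) (by decide) h01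
    have h20 := mv S 0 1 2 (by decide) (by decide) h01
    have h21 := mv S 1 0 2 (by decide) (by decide) h10
    have h02 := mv S 2 0 0 (by decide) (by decide) h20
    have h12 := mv S 2 0 1 (by decide) (by decide) h20
    intro a b hab
    fin_cases a <;> fin_cases b <;> first | exact absurd rfl hab | assumption
  have nall : ∀ S, ¬ U S → ∀ a b, a ≠ b → f (w S a b) = b := by
    intro S hS a b hab
    refine (two S a b hab).resolve_left fun h => hS ?_
    have h1 : ∀ c, c ≠ a → f (w S c a) = c := fun c hc => mv S a b c hab hc h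
    have h2 : ∀ c d, c ≠ a → d ≠ c → f (w S d c) = d := fun c d hc hd =>
      mv S c a d hc hd (h1 c hc)
    by_cases ha : a = 1
    · subst ha; exact h1 0 (by decide)
    · exact h2 1 0 (Ne.symm ha) (by decide)
  have adj : ∀ (u : I → Fin 3) a b, b ≠ a → f u ≠ f (w {i | u i = a} b a) := by
    intro u a b hb
    refine hf _ _ fun i => ?_
    by_cases hi : u i = a <;> simp [w, hi, hb.symm]
  have main1 : ∀ (u : I → Fin 3) a, f u = a ↔ U {i | u i = a} := by
    intro u a
    constructor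
    · intro h
      by_contra hn
      obtain ⟨b, hb⟩ := exists_ne a
      exact adj u a b hb (h.trans (nall _ hn b a hb).symm)
    · intro h
      by_contra hn
      exact adj u a (f u) hn (all _ h _ _ hn).symm
  have hU : U univ := by
    have : w univ 0 1 = fun _ => 0 := by funext i; simp [w]
    show f _ = 0
    rw [this, h1]
  have hE : ¬ U ∅ := by
    have : w ∅ 0 1 = fun _ => 1 := by funext i; simp [w]
    show ¬ f _ = 0
    rw [this, h1]; decide
  obtain ⟨S, hS, hmin⟩ := (wellFounded_lt (α := Set I)).has_min {S | U S} ⟨univ, hU⟩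
  obtain ⟨i, hi⟩ : S.Nonempty := nonempty_iff_ne_empty.2 fun e => hE (e ▸ hS)
  have part : ∀ (S T : Set I), U S → Disjoint S T → ¬ U T := by
    intro S T h1 hd h2
    let u : I → Fin 3 := fun j => if j ∈ S then 0 else if j ∈ T then 1 else 2
    have e0 : {j | u j = 0} = S := by
      ext j; by_cases a : j ∈ S <;> by_cases b : j ∈ T <;> simp [u, a, b]
    have e1 : {j | u j = 1} = T := by
      ext j
      have : j ∈ S → j ∉ T := fun h => disjoint_left.1 hd h
      by_cases a : j ∈ S <;> by_cases b : j ∈ T <;> simp_all [u]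
    have a0 := (main1 u 0).2 (e0 ▸ h1)
    have a1 := (main1 u 1).2 (e1 ▸ h2)
    exact absurd (a0.symm.trans a1) (by decide)
  have hsing : U {i} := by
    let u : I → Fin 3 := fun j => if j = i then 0 else if j ∈ S then 1 else 2
    have e0 : {j | u j = 0} = {i} := by
      ext j; by_cases a : j = i <;> by_cases b : j ∈ S <;> simp [u, a, b]
    have e1 : {j | u j = 1} = S \ {i} := by
      ext j; by_cases a : j = i <;> by_cases b : j ∈ S <;> simp_all [u]
    have e2 : {j | u j = 2} = Sᶜ := by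
      ext j; by_cases a : j = i <;> by_cases b : j ∈ S <;> simp_all [u]
    have := (main1 u _).1 rfl
    rcases (by decide : ∀ a : Fin 3, a = 0 ∨ a = 1 ∨ a = 2) (f u) with h | h | h <;> rw [h] at this
    · exact e0 ▸ this
    · exact absurd (sdiff_singleton_ssubset.2 hi) (hmin _ (e1 ▸ this))
    · exact absurd (e2 ▸ this) (part S Sᶜ hS disjoint_compl_right)
  refine ⟨i, fun u => ?_⟩
  by_contra hn
  exact part _ _ hsing (disjoint_singleton_left.2 fun h : u i = f u => hn h.symm)
    ((main1 u _).1 rfl)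

theorem gl {I : Type} [Finite I] (f : (I → Fin 3) → Fin 3)
    (hf : ∀ u v : I → Fin 3, (∀ i, u i ≠ v i) → f u ≠ f v) :
    ∃ (π : Equiv.Perm (Fin 3)) (i : I), ∀ u, f u = π (u i) := by
  have inj : Function.Injective fun a : Fin 3 => f fun _ => a := by
    intro a b h
    by_contra hn
    exact hf _ _ (fun _ => hn) h
  let π : Equiv.Perm (Fin 3) := Equiv.ofBijective _ (Finite.injective_iff_bijective.1 inj)
  obtain ⟨i, hi⟩ := gl_idem (fun u => π.symm (f u))
    (fun u v h e => hf u v h (π.symm.injective e)) fun a => π.symm_apply_apply a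
  exact ⟨π, i, fun u => by rw [← hi u, Equiv.apply_symm_apply]⟩

/-! ### A pp-definable triangle pp-constructs every finite structure -/

theorem pp_inv (t : Fin 3 → M) (ht : Function.Injective t)
    (hE : PPDef A {x : Fin 2 → M | ∃ a b, a ≠ b ∧ x 0 = t a ∧ x 1 = t b})
    {α I : Type} [Finite α] [Finite I] (w : I → α → Fin 3) :
    PPDef A {x : α → M | ∃ (π : Equiv.Perm (Fin 3)) (i : I), ∀ a, x a = t (π (w i a))} := by
  have h1 : PPDef A (⋂ p : {p : (I → Fin 3) × (I → Fin 3) // ∀ i, p.1 i ≠ p.2 i},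
      {z : α ⊕ (I → Fin 3) → M | z ∘ ![Sum.inr p.1.1, Sum.inr p.1.2] ∈
        {x : Fin 2 → M | ∃ a b, a ≠ b ∧ x 0 = t a ∧ x 1 = t b}}) :=
    pp_iInter fun p => hE.comap _
  have h2 : PPDef A (⋂ a : α, {z : α ⊕ (I → Fin 3) → M |
      (Atom.eq (σ := σ) (Sum.inl a) (Sum.inr fun i => w i a)).Holds A z}) :=
    pp_iInter fun a => pp_atom _
  have h3 := (h1.inter h2).ex
  refine (congrArg (PPDef A) ?_).mp h3
  ext x
  simp only [mem_ofPred_eq, mem_inter_iff, mem_iInter, Atom.Holds, Sum.elim_inl, Sum.elim_inr,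
    Function.comp_apply, Matrix.cons_val_zero, Matrix.cons_val_one]
  constructor
  · rintro ⟨y, hy, hx⟩
    have : ∀ u, ∃ a, y u = t a := fun u => by
      obtain ⟨a, b, -, h, -⟩ := hy ⟨(u, fun i => u i + 1),
        fun i => (by decide : ∀ a : Fin 3, a ≠ a + 1) _⟩
      exact ⟨a, h⟩
    choose f hf using this
    obtain ⟨π, i, hπ⟩ := gl f fun u v huv e => by
      obtain ⟨a, b, hab, ha, hb⟩ := hy ⟨(u, v), huv⟩
      exact hab (ht (by rw [← ha, ← hb, hf, hf, e]))
    exact ⟨π, i, fun a => by rw [hx, hf, hπ]⟩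
  · rintro ⟨π, i, h⟩
    exact ⟨fun u => t (π (u i)), fun p => ⟨_, _, π.injective.ne (p.2 i), rfl, rfl⟩, h⟩

theorem pp_constructs (t : Fin 3 → M) (ht : Function.Injective t)
    (hE : PPDef A {x : Fin 2 → M | ∃ a b, a ≠ b ∧ x 0 = t a ∧ x 1 = t b})
    [Finite N] [Nonempty N] (D : Str τ N) : PPConstructs A D := by
  classical
  obtain ⟨m, ⟨e⟩⟩ := Finite.exists_equiv_fin N
  let cd : N → Fin (3 + m) → Fin 3 := fun d => Fin.append id fun j => if j = e d then 1 else 0
  have uniq : ∀ (π π' : Equiv.Perm (Fin 3)) d d', (∀ j, π (cd d j) = π' (cd d' j)) → d = d' := by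
    intro π π' d d' h
    have h1 : π = π' := Equiv.ext fun a => by simpa [cd] using h (Fin.castAdd m a)
    subst h1
    have h2 := π.injective (h (Fin.natAdd 3 (e d)))
    simp only [cd, Fin.append_right, if_true] at h2
    by_contra hn
    rw [if_neg fun h => hn (e.injective h)] at h2
    exact absurd h2 (by decide)
  refine ⟨3 + m, by omega, fun k r x => ∃ (π : Equiv.Perm (Fin 3)) (d : {d : Fin k → N // D k r d}),
    ∀ p : Fin k × Fin (3 + m), x p.1 p.2 = t (π (cd (d.1 p.1) p.2)), fun k r => ?_, ?_, ?_⟩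
  · exact pp_inv t ht hE fun (d : {d : Fin k → N // D k r d}) (p : Fin k × Fin (3 + m)) =>
      cd (d.1 p.1) p.2
  · have : ∀ x : Fin (3 + m) → M, ∃ d : N, ∀ (π : Equiv.Perm (Fin 3)) d',
        (∀ j, x j = t (π (cd d' j))) → d = d' := by
      intro x
      by_cases h : ∃ (π : Equiv.Perm (Fin 3)) (d : N), ∀ j, x j = t (π (cd d j))
      · obtain ⟨π, d, h⟩ := h
        exact ⟨d, fun π' d' h' => uniq π π' d d' fun j => ht ((h j).symm.trans (h' j))⟩
      · exact ⟨Classical.arbitrary N, fun π d h' => absurd ⟨π, d, h'⟩ h⟩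
    choose f hf using this
    refine ⟨f, ?_⟩
    rintro k r x ⟨π, d, h⟩
    have : f ∘ x = d.1 := funext fun i => hf _ π _ fun j => h (i, j)
    rw [this]; exact d.2
  · exact ⟨fun d j => t (cd d j), fun k r d hd => ⟨1, ⟨d, hd⟩, fun _ => rfl⟩⟩

/-! ### The rationals -/

open Order Order.PartialIso in
theorem rat_ext {α : Type} [Finite α] (u v : α → ℚ) (h : ∀ i j, u i < u j ↔ v i < v j) :
    ∃ g : ℚ ≃o ℚ, ∀ i, g (u i) = v i := by
  classical
  have := Fintype.ofFinite α
  let p : PartialIso ℚ ℚ := ⟨Finset.univ.image fun i => (u i, v i), by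
    intro p hp q hq
    obtain ⟨i, -, rfl⟩ := Finset.mem_image.1 hp
    obtain ⟨j, -, rfl⟩ := Finset.mem_image.1 hq
    simp only [cmp, cmpUsing, h]⟩
  let to_cofinal : ℚ ⊕ ℚ → Cofinal (PartialIso ℚ ℚ) := fun p ↦
    Sum.recOn p (definedAtLeft ℚ) (definedAtRight ℚ)
  let our_ideal : Order.Ideal (PartialIso ℚ ℚ) := idealOfCofinals p to_cofinal
  let F a := funOfIdeal a our_ideal (cofinal_meets_idealOfCofinals _ to_cofinal (Sum.inl a))
  let G b := invOfIdeal b our_ideal (cofinal_meets_idealOfCofinals _ to_cofinal (Sum.inr b))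
  refine ⟨OrderIso.ofCmpEqCmp (fun a ↦ (F a).val) (fun b ↦ (G b).val) fun a b ↦ ?_, fun i => ?_⟩
  · rcases (F a).prop with ⟨f, hf, ha⟩
    rcases (G b).prop with ⟨g, hg, hb⟩
    rcases our_ideal.directed _ hf _ hg with ⟨m, _, fm, gm⟩
    exact m.prop (a, _) (fm ha) (_, b) (gm hb)
  · show (F (u i)).val = v i
    rcases (F (u i)).prop with ⟨f, hf, ha⟩
    rcases our_ideal.directed _ hf _ (mem_idealOfCofinals p to_cofinal) with ⟨m, _, fm, gm⟩
    have := m.prop (u i, _) (fm ha) (u i, v i)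
      (gm (Finset.mem_image.2 ⟨i, Finset.mem_univ _, rfl⟩))
    simp only [cmp_self_eq_eq] at this
    exact (cmp_eq_eq_iff _ _).1 this.symm

theorem rat_core : McCore ratLt := by
  intro f hf n u
  have hm : StrictMono f := fun a b hab => hf 2 Bin.lt ![a, b] hab
  obtain ⟨g, hg⟩ := rat_ext u (f ∘ u) fun i j => hm.lt_iff_lt.symm
  refine ⟨g.toEquiv, fun n r x => ?_, funext hg⟩
  cases r
  exact g.lt_iff_lt

theorem rat_min {α : Type} {s : Set (α → ℚ)} (h : PPDef ratLt s) {x y : α → ℚ} (hx : x ∈ s)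
    (hy : y ∈ s) : (fun a => min (x a) (y a)) ∈ s := by
  obtain ⟨β, _, l, -, h⟩ := h
  obtain ⟨x', hx'⟩ := (h x).1 hx
  obtain ⟨y', hy'⟩ := (h y).1 hy
  refine (h _).2 ⟨fun b => min (x' b) (y' b), fun a ha => ?_⟩
  have e : Sum.elim (fun a => min (x a) (y a)) (fun b => min (x' b) (y' b)) =
      fun c => min (Sum.elim x x' c) (Sum.elim y y' c) := by funext c; cases c <;> rfl
  rw [e]
  have h1 := hx' a ha
  have h2 := hy' a ha
  cases a with
  | eq a b =>
    simp only [Atom.Holds] at h1 h2 ⊢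
    rw [h1, h2]
  | rel k r t =>
    cases r
    exact min_lt_min h1 h2

theorem rat_not_stubborn : ¬ Stubborn ratLt := by
  rintro ⟨ρ, H, hI, -, h⟩
  let D : Str Bin Bool := fun _ r => match r with
    | Bin.lt => fun x => x 0 ≠ x 1
  obtain ⟨n, -, P, hP, ⟨f, hf⟩, g, hg⟩ := h Bin ratLt hI rat_core Bin Bool D
  have h1 := hg 2 Bin.lt ![true, false] (by simp [D])
  have h2 := hg 2 Bin.lt ![false, true] (by simp [D])
  have h3 := rat_min (hP 2 Bin.lt) (x := fun p => g (![true, false] p.1) p.2)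
    (y := fun p => g (![false, true] p.1) p.2) h1 h2
  have h4 := hf 2 Bin.lt _ h3
  apply h4
  simp [min_comm]

theorem rat_not_eq : ¬ InterdefEq ratLt := by
  rintro ⟨e, h, -⟩
  have h1 := h.aut (g := Equiv.swap (e.symm 0) (e.symm 1)) (fun _ r => r.elim) 2 Bin.lt
    ![e.symm 0, e.symm 1]
  simp [ratLt] at h1
  norm_num at h1

/-! ### The stubborn structure -/

inductive Sig : ℕ → Type
  | U : Sig 1
  | lt : Sig 2

abbrev MM : Type := Fin 3 ⊕ ℚ

def ltM (x y : MM) : Prop := ∃ p q : ℚ, p < q ∧ x = Sum.inr p ∧ y = Sum.inr q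

def BB : Str Sig MM := fun _ r => match r with
  | Sig.U => fun x => (x 0).isLeft
  | Sig.lt => fun x => ltM (x 0) (x 1)

def AA : Str Bin MM := fun _ r => match r with
  | Bin.lt => fun x => ltM (x 0) (x 1)

theorem aut_sum (π : Equiv.Perm (Fin 3)) (g : ℚ ≃o ℚ) : IsAut BB (Equiv.sumCongr π g.toEquiv) := by
  intro n r x
  cases r
  · simp [BB]
  · simp only [BB, Function.comp_apply, ltM]
    rcases x 0 with a | a <;> rcases x 1 with b | b <;> simp

theorem ext_aut {n : ℕ} (u v : Fin n → MM) (h1 : ∀ i j, u i = u j ↔ v i = v j)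
    (h2 : ∀ i, (u i).isLeft ↔ (v i).isLeft) (h3 : ∀ i j, ltM (u i) (u j) ↔ ltM (v i) (v j)) :
    ∃ g, IsAut BB g ∧ g ∘ u = v := by
  have hl : ∀ i : {i // (u i).isLeft}, ∃ a b, u i = Sum.inl a ∧ v i = Sum.inl b := fun i => by
    obtain ⟨a, ha⟩ := Sum.isLeft_iff.1 i.2
    obtain ⟨b, hb⟩ := Sum.isLeft_iff.1 ((h2 i).1 i.2)
    exact ⟨a, b, ha, hb⟩
  have hr : ∀ i : {i // ¬ (u i).isLeft}, ∃ a b, u i = Sum.inr a ∧ v i = Sum.inr b := fun i => by
    obtain ⟨a, ha⟩ := Sum.isRight_iff.1 (Sum.not_isLeft.1 i.2)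
    obtain ⟨b, hb⟩ := Sum.isRight_iff.1 (Sum.not_isLeft.1 fun h => i.2 ((h2 i).2 h))
    exact ⟨a, b, ha, hb⟩
  choose a b ha hb using hl
  choose p q hp hq using hr
  obtain ⟨g, hg⟩ := rat_ext p q fun i j => by
    have := h3 i j
    simpa [ltM, hp, hq] using this
  have hab : ∀ i j, a i = a j ↔ b i = b j := fun i j => by
    have := h1 i j
    simpa [ha, hb] using this
  have hs : ∀ c : range a, ∃ i, a i = c := fun c => c.2
  choose s hs using hs
  obtain ⟨π, hπ⟩ := Equiv.Perm.exists_extending_pair (f := fun c : range a => c.1)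
    (g := fun c => b (s c)) Subtype.val_injective fun c d h =>
      Subtype.ext (by rw [← hs c, ← hs d]; exact (hab _ _).2 h)
  refine ⟨_, aut_sum π g, funext fun i => ?_⟩
  by_cases hi : (u i).isLeft
  · have e1 := ha ⟨i, hi⟩
    have e2 := hb ⟨i, hi⟩
    have e3 := hπ ⟨a ⟨i, hi⟩, mem_range_self _⟩
    have e4 := (hab _ _).1 (hs ⟨a ⟨i, hi⟩, mem_range_self _⟩)
    simp only at e1 e2 e3 e4
    simp [e1, e2, e3, e4]
  · have e1 := hp ⟨i, hi⟩
    have e2 := hq ⟨i, hi⟩
    simp only at e1 e2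
    simp [e1, e2, hg]

theorem homog : Homog BB := fun _ u v h1 h2 =>
  ext_aut u v h1 (fun i => h2 1 Sig.U ![i]) fun i j => h2 2 Sig.lt ![i, j]

theorem olig : Olig BB := fun n =>
  ⟨(Fin n → Fin n → Prop) × (Fin n → Prop) × (Fin n → Fin n → Prop), inferInstance,
    fun u => (fun i j => u i = u j, fun i => (u i).isLeft, fun i j => ltM (u i) (u j)),
    fun u v h => by
      simp only [Prod.mk.injEq] at h
      exact ext_aut u v (fun i j => iff_of_eq (congrFun (congrFun h.1 i) j))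
        (fun i => iff_of_eq (congrFun h.2.1 i))
        fun i j => iff_of_eq (congrFun (congrFun h.2.2 i) j)⟩

theorem stubborn : StubbornHom BB := by
  refine ⟨homog, fun ρ A hI hc τ N _ _ D => ?_⟩
  have hO : Olig A := fun n => by
    obtain ⟨T, _, t, ht⟩ := olig n
    refine ⟨T, inferInstance, t, fun u v h => ?_⟩
    obtain ⟨g, hg, e⟩ := ht u v h
    exact ⟨g, hI.1.aut hg, e⟩
  refine pp_constructs Sum.inl Sum.inl_injective ?_ D
  refine (congrArg (PPDef A) ?_).mp (pp_orbit hO hc ![Sum.inl 0, Sum.inl 1])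
  ext x
  constructor
  · rintro ⟨g, hg, rfl⟩
    have hB := hI.2.aut hg
    obtain ⟨a, ha⟩ := Sum.isLeft_iff.1 ((hB 1 Sig.U ![Sum.inl 0]).2 rfl)
    obtain ⟨b, hb⟩ := Sum.isLeft_iff.1 ((hB 1 Sig.U ![Sum.inl 1]).2 rfl)
    refine ⟨a, b, ?_, ha, hb⟩
    rintro rfl
    have := g.injective (ha.trans hb.symm)
    simp at this
  · rintro ⟨a, b, hab, ha, hb⟩
    obtain ⟨g, hg, e⟩ := ext_aut ![Sum.inl 0, Sum.inl 1] x
      (by simp [Fin.forall_fin_two, ha, hb, hab, hab.symm])
      (by simp [Fin.forall_fin_two, ha, hb]) (by simp [Fin.forall_fin_two, ha, hb, ltM])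
    exact ⟨g, hI.1.aut hg, e⟩

theorem sig_finite : Finite (Σ n, Sig n) :=
  Finite.of_surjective (fun b : Bool => cond b (⟨1, Sig.U⟩ : Σ n, Sig n) ⟨2, Sig.lt⟩) fun ⟨_, r⟩ => by
    cases r
    · exact ⟨true, rfl⟩
    · exact ⟨false, rfl⟩

theorem counter : ∃ (σ : ℕ → Type) (M : Type) (B : Str σ M) (A : Str Bin M),
    Finite (Σ n, σ n) ∧ Countable M ∧ Infinite M ∧ StubbornHom B ∧ Reduct A B ∧
      McCore ratLt ∧ HomEq A ratLt ∧ ¬ Stubborn ratLt ∧ ¬ InterdefEq ratLt := by
  refine ⟨Sig, MM, BB, AA, sig_finite, inferInstance, inferInstance, stubborn, ?_, rat_core,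
    ⟨⟨Sum.elim (fun _ => 0) id, ?_⟩, ⟨Sum.inr, ?_⟩⟩, rat_not_stubborn, rat_not_eq⟩
  · intro n r
    cases r
    exact foDef_rel BB 2 Sig.lt
  · intro n r x h
    cases r
    obtain ⟨p, q, h, h0, h1⟩ := h
    simpa [ratLt, h0, h1] using h
  · intro n r x h
    cases r
    exact ⟨_, _, h, rfl, rfl⟩

end Pool.Agent.H40.Stub
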