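import Mathlib

/-! Relational structures, reducts, model-complete cores, pp-constructions, stubbornness. -/

namespace Pool.Agent.H40.Stub

/-- A relational structure on `M` whose `n`-ary relation symbols are the elements of `σ n`. -/
def Str (σ : ℕ → Type) (M : Type) : Type := ∀ n, σ n → (Fin n → M) → Prop

/-- The first-order language with relation symbols `σ` and no function symbols. -/
def lang (σ : ℕ → Type) : FirstOrder.Language.{0, 0} := ⟨fun _ => Empty, σ⟩

variable {σ τ : ℕ → Type} {M N : Type}

/-- The first-order structure given by a relational structure. -/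
@[reducible] def Str.toStructure (A : Str σ M) : (lang σ).Structure M where
  funMap := fun f _ => Empty.elim f
  RelMap := fun r x => A _ r x

/-- First-order definability without parameters. -/
def FoDef (A : Str σ M) {n : ℕ} (s : Set (Fin n → M)) : Prop :=
  ∃ φ : (lang σ).Formula (Fin n), ∀ x,
    x ∈ s ↔ @FirstOrder.Language.Formula.Realize _ M A.toStructure _ φ x

/-- `A` is a first-order reduct of `B`. -/
def Reduct (A : Str τ M) (B : Str σ M) : Prop := ∀ n r, FoDef B {x | A n r x}

/-- First-order interdefinability. -/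
def Interdef (A : Str τ M) (B : Str σ M) : Prop := Reduct A B ∧ Reduct B A

/-- The structure with no relations (only equality). -/
def pure (M : Type) : Str (fun _ => Empty) M := fun _ r _ => r.elim

/-- `C` is first-order interdefinable with `(ℕ; =)` up to a bijection of domains. -/
def InterdefEq (C : Str τ N) : Prop :=
  ∃ e : ℕ ≃ N, Interdef (fun n r x => C n r (e ∘ x) : Str τ ℕ) (pure ℕ)

/-- Homomorphisms. -/
def IsHom (A : Str σ M) (B : Str σ N) (f : M → N) : Prop := ∀ n r x, A n r x → B n r (f ∘ x)

/-- Automorphisms. -/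
def IsAut (A : Str σ M) (g : Equiv.Perm M) : Prop := ∀ n r x, A n r (g ∘ x) ↔ A n r x

/-- Homomorphic equivalence. -/
def HomEq (A : Str σ M) (B : Str σ N) : Prop := (∃ f, IsHom A B f) ∧ ∃ g, IsHom B A g

/-- Every isomorphism between finite substructures extends to an automorphism. -/
def Homog (A : Str σ M) : Prop :=
  ∀ (n : ℕ) (u v : Fin n → M), (∀ i j, u i = u j ↔ v i = v j) →
    (∀ k r (ι : Fin k → Fin n), A k r (u ∘ ι) ↔ A k r (v ∘ ι)) → ∃ g, IsAut A g ∧ g ∘ u = v

/-- Automorphisms are dense in the endomorphisms. -/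
def McCore (A : Str σ M) : Prop :=
  ∀ f, IsHom A A f → ∀ (n : ℕ) (u : Fin n → M), ∃ g, IsAut A g ∧ g ∘ u = f ∘ u

/-- Atomic formulas with variables in `β`. -/
inductive Atom (σ : ℕ → Type) (β : Type) : Type
  | eq : β → β → Atom σ β
  | rel : (k : ℕ) → σ k → (Fin k → β) → Atom σ β

/-- Truth of an atomic formula. -/
def Atom.Holds (A : Str σ M) {β : Type} (v : β → M) : Atom σ β → Prop
  | .eq a b => v a = v b
  | .rel k r t => A k r (v ∘ t)

/-- Primitive positive definability: finitely many existential quantifiers in front of a finite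
conjunction of atomic formulas. -/
def PPDef (A : Str σ M) {α : Type} (s : Set (α → M)) : Prop :=
  ∃ (β : Type) (_ : Finite β) (l : Set (Atom σ (α ⊕ β))), l.Finite ∧
    ∀ x, x ∈ s ↔ ∃ y : β → M, ∀ a ∈ l, a.Holds A (Sum.elim x y)

/-- `D` is homomorphically equivalent to a pp-power of `A`. -/
def PPConstructs (A : Str σ M) (D : Str τ N) : Prop :=
  ∃ n : ℕ, 0 < n ∧ ∃ P : Str τ (Fin n → M),
    (∀ k r, PPDef A {x : Fin k × Fin n → M | P k r fun i j => x (i, j)}) ∧ HomEq P D

/-- A stubborn homogeneous structure. -/
def StubbornHom (B : Str σ M) : Prop :=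
  Homog B ∧ ∀ (ρ : ℕ → Type) (A : Str ρ M), Interdef A B → McCore A →
    ∀ (τ : ℕ → Type) (N : Type) [Finite N] [Nonempty N] (D : Str τ N), PPConstructs A D

/-- A structure interdefinable with a stubborn homogeneous structure. -/
def Stubborn (C : Str σ M) : Prop :=
  ∃ (ρ : ℕ → Type) (H : Str ρ M), Interdef C H ∧ StubbornHom H

/-- The signature with one binary relation symbol. -/
inductive Bin : ℕ → Type
  | lt : Bin 2

/-- The structure `(ℚ; <)`. -/
def ratLt : Str Bin ℚ := fun _ r => match r with
  | Bin.lt => fun x => x 0 < x 1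

end Pool.Agent.H40.Stub
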