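import Mathlib

set_option autoImplicit false

namespace Pool.Agent.H40.Tp

universe w

variable {U : Type w}

def Inc (k : ℕ) (f : ℕ → Set U) : Prop := ∀ (x : U) (s : Finset ℕ), (∀ i ∈ s, x ∈ f i) → s.card < k

def D (k : ℕ) (F : Set (Set U)) : ℕ → Set U → Prop
  | 0, X => X.Nonempty
  | n + 1, X => ∃ c : ℕ → Set U, (∀ i, c i ∈ F) ∧ Inc k c ∧ ∀ i, D k F n (X ∩ c i)

theorem Inc.comp {k : ℕ} {f : ℕ → Set U} (h : Inc k f) {g : ℕ → ℕ} (hg : Function.Injective g) :
    Inc k (f ∘ g) := fun x s hs => by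
  rw [← Finset.card_image_of_injective s hg]
  exact h x _ (by simpa using hs)

theorem Inc.pair {k : ℕ} {f : ℕ → Set U} (h : Inc (k + 2) f) :
    Inc (k + 1) fun i => f (2 * i) ∩ f (2 * i + 1) := fun x s hs => by
  rcases s.eq_empty_or_nonempty with rfl | ⟨i, hi⟩
  · simp
  · have h1 := h x (insert (2 * i + 1) (s.image fun j => 2 * j)) (by
      simp only [Finset.mem_insert, Finset.mem_image]
      rintro _ (rfl | ⟨j, hj, rfl⟩)
      · exact (hs i hi).2
      · exact (hs j hj).1)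
    rw [Finset.card_insert_of_notMem (by simp only [Finset.mem_image]; omega),
      Finset.card_image_of_injective s fun a b h => by simpa using h] at h1
    omega

theorem D.mono {k : ℕ} {F : Set (Set U)} {n : ℕ} : ∀ {X Y : Set U}, D k F n X → X ⊆ Y →
    D k F n Y := by
  induction n with
  | zero => exact fun h h' => Set.Nonempty.mono h' h
  | succ n ih =>
    exact fun ⟨c, h1, h2, h3⟩ h' =>
      ⟨c, h1, h2, fun i => ih (h3 i) (Set.inter_subset_inter_left _ h')⟩

theorem D.monoK {k k' : ℕ} (hk : k ≤ k') {F : Set (Set U)} {n : ℕ} : ∀ {X : Set U},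
    D k F n X → D k' F n X := by
  induction n with
  | zero => exact id
  | succ n ih =>
    exact fun ⟨c, h1, h2, h3⟩ => ⟨c, h1, fun x s hs => (h2 x s hs).trans_le hk, fun i => ih (h3 i)⟩

def I (F G : Set (Set U)) : Set (Set U) := Set.image2 (· ∩ ·) F G

def Pw (F : Set (Set U)) : ℕ → Set (Set U)
  | 0 => {Set.univ}
  | d + 1 => I F (Pw F d)

theorem kill (k : ℕ) (F : Set (Set U)) (m d : ℕ) : ∀ (Z : Set (Set U)) (W : Set U), Z.Finite →
    (∀ Y ∈ Z, ¬ D k F d Y) → D k F (m + d) W →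
    ∃ P ∈ Pw F d, D k F m (W ∩ P) ∧ ∀ Y ∈ Z, Y ∩ P = ∅ := by
  induction d with
  | zero =>
    exact fun Z W _ h1 h2 => ⟨Set.univ, rfl, by simpa using h2, fun Y hY => by
      simpa using Set.not_nonempty_iff_eq_empty.1 (h1 Y hY)⟩
  | succ d ih =>
    rintro Z W hZ h1 ⟨c, h2, h3, h4⟩
    have h5 : (⋃ Y ∈ Z, {i | D k F d (Y ∩ c i)}).Finite := hZ.biUnion fun Y hY => by
      by_contra h
      let g := Set.Infinite.natEmbedding _ h
      exact h1 Y hY ⟨c ∘ fun i => (g i).1, fun i => h2 _,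
        h3.comp (Subtype.val_injective.comp g.injective), fun i => (g i).2⟩
    obtain ⟨i, hi⟩ := h5.exists_notMem
    simp only [Set.mem_iUnion, not_exists] at hi
    obtain ⟨P, h6, h7, h8⟩ := ih ((· ∩ c i) '' Z) (W ∩ c i) (hZ.image _)
      (by rintro _ ⟨Y, hY, rfl⟩; exact hi Y hY) (h4 i)
    exact ⟨c i ∩ P, ⟨_, h2 i, _, h6, rfl⟩, by rwa [← Set.inter_assoc], fun Y hY => by
      rw [← Set.inter_assoc]; exact h8 _ ⟨Y, hY, rfl⟩⟩

theorem caseB (k : ℕ) (F : Set (Set U)) (d r : ℕ) (X : Set U) (XX : Set (Set U)) (hX : X ∈ XX)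
    (h1 : ∀ Y ∈ I F F, D (k + 2) F d (X ∩ Y) → D (k + 1) (I F F) r (X ∩ Y))
    (h2 : ¬ D (k + 1) (I F F) (r + 1) X) (n : ℕ) : ∀ X' ⊆ X, D (k + 2) F (n * (d + 1)) X' →
      D 2 (I XX (I F (Pw F d))) n X' := by
  induction n with
  | zero => exact fun X' _ h => by rw [Nat.zero_mul] at h; exact h
  | succ n ih =>
    intro X' hX' h
    rw [show (n + 1) * (d + 1) = n * (d + 1) + d + 1 by ring] at h
    obtain ⟨c, h3, h4, h5⟩ := h
    obtain ⟨g, hg | hg⟩ := exists_increasing_or_nonincreasing_subseq'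
      (fun i j => D (k + 2) F d (X ∩ (c i ∩ c j))) id
    · exact absurd ⟨_, fun i => ⟨_, h3 _, _, h3 _, rfl⟩, (h4.comp g.injective).pair,
        fun i => h1 _ ⟨_, h3 _, _, h3 _, rfl⟩ (hg (2 * i))⟩ h2
    · have key := fun i => kill (k + 2) F (n * (d + 1)) d
        ((fun j => X ∩ (c (g j) ∩ c (g i))) '' Set.Iio i) _ ((Set.finite_Iio i).image _)
        (by rintro _ ⟨j, hj, rfl⟩; exact hg j i hj) (h5 (g i))
      choose P h6 h7 h8 using key
      refine ⟨fun i => X ∩ (c (g i) ∩ P i), fun i => ⟨_, hX, _, ⟨_, h3 _, _, h6 i, rfl⟩, rfl⟩,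
        fun x s hs => ?_, fun i => ih _ (fun x hx => hx.2.1) ((h7 i).mono fun x hx =>
          ⟨hx.1.1, hX' hx.1.1, hx.1.2, hx.2⟩)⟩
      have k1 : ∀ i ∈ s, ∀ j ∈ s, ¬ j < i := fun i hi j hj hlt =>
        (h8 i _ ⟨j, hlt, rfl⟩).subset ⟨⟨(hs i hi).1, (hs j hj).2.1, (hs i hi).2.1⟩, (hs i hi).2.2⟩
      exact Nat.lt_succ_of_le (Finset.card_le_one.2 fun a ha b hb =>
        le_antisymm (not_lt.1 (k1 a ha b hb)) (not_lt.1 (k1 b hb a ha)))

theorem red (Good : Set (Set U) → Prop) (g1 : Good {Set.univ})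
    (g2 : ∀ F G, Good F → Good G → Good (I F G)) (k : ℕ) : ∀ F, Good F →
    (∀ n, D (k + 2) F n Set.univ) → ∃ G, Good G ∧ ∀ n, D 2 G n Set.univ := by
  induction k with
  | zero => exact fun F h1 h2 => ⟨F, h1, h2⟩
  | succ k ih =>
    intro F hF h
    by_cases hc : ∀ n, D (k + 2) (I F F) n Set.univ
    · exact ih _ (g2 _ _ hF hF) hc
    obtain ⟨r, hr⟩ := not_forall.1 hc
    have gP : ∀ d, Good (Pw F d) := fun d => by
      induction d with
      | zero => exact g1
      | succ d ih => exact g2 _ _ hF ih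
    have claim : ∀ r XX, Good XX →
        (∀ n, ∃ X ∈ XX, D (k + 3) F n X ∧ ¬ D (k + 2) (I F F) r X) →
        ∃ G, Good G ∧ ∀ n, D 2 G n Set.univ := by
      intro r
      induction r with
      | zero =>
        intro XX _ h1
        obtain ⟨X, -, h2, h3⟩ := h1 0
        exact absurd h2 h3
      | succ r ih =>
        intro XX hX h1
        by_cases hA : ∀ n, ∃ X ∈ I XX (I F F), D (k + 3) F n X ∧ ¬ D (k + 2) (I F F) r X
        · exact ih _ (g2 _ _ hX (g2 _ _ hF hF)) hA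
        push Not at hA
        obtain ⟨d, hd⟩ := hA
        refine ⟨_, g2 _ _ hX (g2 _ _ hF (gP d)), fun n => ?_⟩
        obtain ⟨X, h2, h3, h4⟩ := h1 (n * (d + 1))
        exact (caseB (k + 1) F d r X XX h2 (fun Y hY => hd _ ⟨X, h2, Y, hY, rfl⟩) h4 n X
          subset_rfl h3).mono (Set.subset_univ _)
    exact claim r _ g1 fun n => ⟨_, rfl, h n, hr⟩

theorem tree (G : Set (Set U)) (n : ℕ) (h : D 2 G (n + 1) Set.univ) :
    ∃ (a : List ℕ → Set U) (p : List ℕ → U), (∀ η, a η ∈ G) ∧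
      (∀ η ν : List ℕ, η.length ≤ n → ν <:+ η → p η ∈ a ν) ∧
      ∀ (η : List ℕ) i j, η.length < n → ∀ x, x ∈ a (i :: η) → x ∈ a (j :: η) → i = j := by
  obtain ⟨c₀, h1, -, h2⟩ := h
  have k1 : ∀ (m : ℕ) (X : Set U), ∃ c : ℕ → Set U, (∀ i, c i ∈ G) ∧
      (D 2 G (m + 1) X → Inc 2 c ∧ ∀ i, D 2 G m (X ∩ c i)) := fun m X => by
    by_cases hc : D 2 G (m + 1) X
    · obtain ⟨c, h3, h4⟩ := hc
      exact ⟨c, h3, fun _ => h4⟩
    · exact ⟨c₀, h1, fun h => absurd h hc⟩
  choose ch h3 h4 using k1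
  let Xs : List ℕ → Set U := fun η => η.rec (Set.univ ∩ c₀ 0)
    fun i η X => X ∩ ch (n - η.length - 1) X i
  let a : List ℕ → Set U := fun η => η.casesOn (c₀ 0) fun i η => ch (n - η.length - 1) (Xs η) i
  have k2 : ∀ η : List ℕ, η.length ≤ n → D 2 G (n - η.length) (Xs η) := by
    intro η
    induction η with
    | nil => exact fun _ => h2 0
    | cons i η ih =>
      intro hl
      have h5 := ih (Nat.le_of_succ_le hl)
      rw [List.length_cons] at hl
      rw [show n - η.length = n - η.length - 1 + 1 by omega] at h5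
      exact (h4 _ _ h5).2 i
  have k3 : ∀ m X, D 2 G m X → X.Nonempty := by
    intro m
    induction m with
    | zero => exact fun _ h => h
    | succ m ih => exact fun X ⟨c, _, _, h⟩ => (ih _ (h 0)).mono Set.inter_subset_left
  have k4 : ∀ η ν : List ℕ, ν <:+ η → Xs η ⊆ a ν := by
    intro η
    induction η with
    | nil => intro ν h; rw [List.suffix_nil.1 h]; exact Set.inter_subset_right
    | cons i η ih =>
      intro ν h
      rcases List.suffix_cons_iff.1 h with rfl | h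
      · exact Set.inter_subset_right
      · exact Set.inter_subset_left.trans (ih ν h)
  have k5 : ∀ η : List ℕ, ∃ x, η.length ≤ n → x ∈ Xs η := fun η => by
    by_cases hl : η.length ≤ n
    · obtain ⟨x, hx⟩ := k3 _ _ (k2 η hl)
      exact ⟨x, fun _ => hx⟩
    · exact ⟨(k3 _ _ (h2 0)).some, fun h => absurd h hl⟩
  choose p hp using k5
  refine ⟨a, p, fun η => ?_, fun η ν h5 h6 => k4 η ν h6 (hp η h5), fun η i j hl x h5 h6 => ?_⟩
  · cases η
    · exact h1 0
    · exact h3 _ _ _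
  · have h7 := k2 η hl.le
    rw [show n - η.length = n - η.length - 1 + 1 by omega] at h7
    have h8 := (h4 _ _ h7).1 x {i, j} (by
      simp only [Finset.mem_insert, Finset.mem_singleton]
      rintro _ (rfl | rfl)
      · exact h5
      · exact h6)
    by_contra hne
    rw [Finset.card_pair hne] at h8
    omega

theorem avoid {N J : Type} [Finite J] (η : J → N) (Bad : J → Set (N → ℕ))
    (h : ∀ j, ∀ g ∈ Bad j, ∀ g' ∈ Bad j, (∀ ν, ν ≠ η j → g ν = g' ν) → g (η j) = g' (η j)) :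
    ∃ g, ∀ j, g ∉ Bad j := by
  classical
  by_contra hc
  push Not at hc
  haveI := Fintype.ofFinite J
  haveI : Fintype (Set.range η) := (Set.finite_range η).fintype
  let K := Fintype.card J + 1
  let ex : (Set.range η → Fin K) → N → ℕ := fun g ν =>
    if h : ν ∈ Set.range η then g ⟨ν, h⟩ else 0
  choose j hj using fun g : Set.range η → Fin K => hc (ex g)
  have inj : Function.Injective fun z : (Set.range η → Fin K) × Fin K =>
      (Function.update z.1 ⟨η (j z.1), j z.1, rfl⟩ z.2, j z.1) := by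
    rintro ⟨g, t⟩ ⟨g', t'⟩ e
    have e1 : j g = j g' := congrArg Prod.snd e
    have e2 : Function.update g ⟨η (j g), j g, rfl⟩ t =
      Function.update g' ⟨η (j g'), j g', rfl⟩ t' := congrArg Prod.fst e
    rw [← e1] at e2
    have e3 : ∀ ν, ν ≠ ⟨η (j g), j g, rfl⟩ → g ν = g' ν := fun ν hν => by
      have := congrFun e2 ν
      rwa [Function.update_of_ne hν, Function.update_of_ne hν] at this
    have e4 := h (j g) _ (hj g) _ (e1 ▸ hj g') fun ν hν => by
      simp only [ex]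
      split_ifs with h1
      · rw [e3 _ fun h => hν (congrArg Subtype.val h)]
      · rfl
    simp only [ex, Set.mem_range_self, dif_pos] at e4
    refine Prod.ext (funext fun ν => ?_) ?_
    · by_cases hν : ν = ⟨η (j g), j g, rfl⟩
      · rw [hν]
        exact Fin.ext e4
      · exact e3 ν hν
    · have := congrFun e2 ⟨η (j g), j g, rfl⟩
      rwa [Function.update_self, Function.update_self] at this
  have h1 := Fintype.card_le_of_injective _ inj
  rw [Fintype.card_prod, Fintype.card_prod, Fintype.card_fin] at h1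
  have h2 := Nat.le_of_mul_le_mul_left h1 Fintype.card_pos
  omega

def emb (g : List ℕ → ℕ) : List ℕ → List ℕ
  | [] => []
  | i :: η => Nat.pair i (g (i :: η)) :: emb g η

theorem emb_len (g : List ℕ → ℕ) (η : List ℕ) : (emb g η).length = η.length := by
  induction η <;> simp_all [emb]

theorem emb_congr (g g' : List ℕ → ℕ) (η : List ℕ) (h : ∀ ν, ν <:+ η → g ν = g' ν) :
    emb g η = emb g' η := by
  induction η with
  | nil => rfl
  | cons i η ih =>
    rw [emb, emb, h _ List.suffix_rfl, ih fun ν hν => h ν (hν.trans (List.suffix_cons i η))]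

theorem emb_suffix (g : List ℕ → ℕ) {ν η : List ℕ} (h : ν <:+ η) : emb g ν <:+ emb g η := by
  induction η with
  | nil => rw [List.suffix_nil.1 h]
  | cons i η ih =>
    rcases List.suffix_cons_iff.1 h with rfl | h
    · exact List.suffix_rfl
    · exact (ih h).trans (List.suffix_cons _ _)

theorem exact_tree (G : Set (Set U)) (n : ℕ) (h : D 2 G (n + 1) Set.univ) (T : Set (List ℕ))
    (hT : T.Finite) (hl : ∀ η ∈ T, η.length ≤ n) :
    ∃ (a : List ℕ → Set U) (p : List ℕ → U), (∀ η, a η ∈ G) ∧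
      (∀ η ∈ T, ∀ ν ∈ T, p η ∈ a ν ↔ ν <:+ η) ∧
      ∀ (η : List ℕ) i j, η.length < n → ∀ x, x ∈ a (i :: η) → x ∈ a (j :: η) → i = j := by
  obtain ⟨a, p, h1, h2, h3⟩ := tree G n h
  haveI := hT.to_subtype
  obtain ⟨g, hg⟩ := avoid (fun z : T × T => z.2.1)
    (fun z => {g | ¬ z.2.1 <:+ z.1.1 ∧ p (emb g z.1.1) ∈ a (emb g z.2.1)}) (by
      rintro ⟨⟨η, hη⟩, ⟨ν, hν⟩⟩ g ⟨h4, h5⟩ g' ⟨-, h6⟩ h7
      simp only at h4 h5 h6 h7 ⊢
      cases ν with
      | nil => exact absurd List.nil_suffix h4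
      | cons i ρ =>
        rw [← emb_congr g g' η fun μ hμ => h7 μ fun e => h4 (e ▸ hμ), emb,
          ← emb_congr g g' ρ fun μ hμ => h7 μ fun e => by
            have := hμ.length_le
            rw [e, List.length_cons] at this
            omega] at h6
        exact (Nat.pair_eq_pair.1 (h3 _ _ _ (by rw [emb_len]; exact hl _ hν) _ h5 h6)).2)
  refine ⟨fun η => a (emb g η), fun η => p (emb g η), fun η => h1 _, fun η hη ν hν =>
    ⟨fun h4 => ?_, fun h4 => h2 _ _ (by rw [emb_len]; exact hl _ hη) (emb_suffix g h4)⟩,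
    fun η i j h4 x h5 h6 => (Nat.pair_eq_pair.1 (h3 _ _ _ (by rwa [emb_len]) x h5 h6)).1⟩
  by_contra h5
  exact hg (⟨η, hη⟩, ⟨ν, hν⟩) ⟨h5, h4⟩

end Pool.Agent.H40.Tp
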