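import Pool.Agent.H40.TpDefs
import Pool.Agent.H40.TpComb

set_option autoImplicit false

namespace Pool.Agent.H40.Tp

open FirstOrder FirstOrder.Language

universe u v w

variable {L : FirstOrder.Language.{u, v}}

inductive Sg : Type
  | P : List ℕ → Sg
  | A : List ℕ → ℕ → Sg
  | B : List ℕ → ℕ → Sg

def Sg.le : Sg → Sg → Prop
  | .P η, .P η' => η = η'
  | .P η, .A ρ i => (i :: ρ) <:+ η
  | .P η, .B ρ i => ρ <:+ η ∧ ¬ (i :: ρ) <:+ η
  | .A ρ i, .A ρ' j => ρ = ρ' ∧ i = j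
  | .A ρ i, .B ρ' j => ρ = ρ' ∧ i ≠ j
  | .B ρ i, .B ρ' j => ρ = ρ' ∧ i = j
  | _, _ => False

theorem sib {ρ η : List ℕ} {i j : ℕ} (h1 : (i :: ρ) <:+ η) (h2 : (j :: ρ) <:+ η) : i = j :=
  List.head_eq_of_cons_eq ((List.suffix_of_suffix_length_le h1 h2 le_rfl).eq_of_length rfl)

instance : PartialOrder Sg where
  le := Sg.le
  le_refl := fun a => by cases a <;> simp [Sg.le]
  le_trans := fun a b c h1 h2 => by
    cases a <;> cases b <;> cases c <;> simp only [Sg.le] at h1 h2 ⊢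
    · exact h1.trans h2
    · exact h1 ▸ h2
    · exact h1 ▸ h2
    · exact h2.1 ▸ h2.2 ▸ h1
    · obtain ⟨rfl, h3⟩ := h2
      exact ⟨(List.suffix_cons _ _).trans h1, fun h => h3 (sib h1 h)⟩
    · exact h2.1 ▸ h2.2 ▸ h1
    · exact ⟨h1.1.trans h2.1, h1.2.trans h2.2⟩
    · exact ⟨h1.1.trans h2.1, h1.2 ▸ h2.2⟩
    · exact ⟨h1.1.trans h2.1, h2.2 ▸ h1.2⟩
    · exact ⟨h1.1.trans h2.1, h1.2.trans h2.2⟩
  le_antisymm := fun a b h1 h2 => by
    cases a <;> cases b <;> simp only [Sg.le] at h1 h2 ⊢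
    · rw [h1]
    · rw [h1.1, h1.2]
    · rw [h1.1, h1.2]

/-! ### Definable predicates -/

section Df

variable (L) {M : Type w} [L.Structure M]

def Df {γ : Type} (R : (γ → M) → Prop) : Prop := ∃ ψ : L.Formula γ, ∀ v, ψ.Realize v ↔ R v

variable {L} {γ : Type} {R R' : (γ → M) → Prop}

theorem Df.and (h : Df L R) (h' : Df L R') : Df L fun v => R v ∧ R' v :=
  let ⟨ψ, h⟩ := h; let ⟨ψ', h'⟩ := h'
  ⟨ψ ⊓ ψ', fun v => Formula.realize_inf.trans (and_congr (h v) (h' v))⟩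

theorem Df.or (h : Df L R) (h' : Df L R') : Df L fun v => R v ∨ R' v :=
  let ⟨ψ, h⟩ := h; let ⟨ψ', h'⟩ := h'
  ⟨ψ ⊔ ψ', fun v => Formula.realize_sup.trans (or_congr (h v) (h' v))⟩

theorem Df.not (h : Df L R) : Df L fun v => ¬ R v :=
  let ⟨ψ, h⟩ := h
  ⟨ψ.not, fun v => Formula.realize_not.trans (not_congr (h v))⟩

theorem Df.imp (h : Df L R) (h' : Df L R') : Df L fun v => R v → R' v :=
  let ⟨ψ, h⟩ := h; let ⟨ψ', h'⟩ := h'
  ⟨ψ.imp ψ', fun v => Formula.realize_imp.trans (imp_congr (h v) (h' v))⟩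

theorem Df.eq (a b : γ) : Df L fun v : γ → M => v a = v b :=
  ⟨(Term.var a).equal (Term.var b), fun _ => Formula.realize_equal⟩

theorem Df.eqs {β : Type} [Finite β] (f g : β → γ) : Df L fun v : γ → M => v ∘ f = v ∘ g :=
  ⟨Formula.iInf fun b => (Term.var (f b)).equal (Term.var (g b)), fun _ =>
    Formula.realize_iInf.trans ((forall_congr' fun _ => Formula.realize_equal).trans
      funext_iff.symm)⟩

theorem Df.rel {α β : Type} (φ : L.Formula (α ⊕ β)) (f : α → γ) (g : β → γ) :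
    Df L fun v : γ → M => φ.Realize (Sum.elim (v ∘ f) (v ∘ g)) :=
  ⟨φ.relabel (Sum.elim f g), fun v => by rw [Formula.realize_relabel, Sum.comp_elim]⟩

theorem Df.all {α : Type} [Finite α] {R : (γ ⊕ α → M) → Prop} (h : Df L R) :
    Df L fun v : γ → M => ∀ x : α → M, R (Sum.elim v x) :=
  let ⟨ψ, h⟩ := h
  ⟨ψ.iAlls α, fun v => Formula.realize_iAlls.trans (forall_congr' fun x => h _)⟩

end Df

theorem tp_of_sop (T : L.Theory) (h : HasSOP.{u, v, w} T Sg) : HasTP.{u, v, w} T := by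
  obtain ⟨α, β, _, _, φ, M, _, _, hM, a, ha⟩ := h
  have d : ∀ f g : β → β ⊕ β ⊕ β, Df L fun v : β ⊕ β ⊕ β → M => ∀ x : α → M,
      φ.Realize (Sum.elim x (v ∘ f)) → φ.Realize (Sum.elim x (v ∘ g)) := fun f g =>
    ((Df.rel φ Sum.inr (Sum.inl ∘ f)).imp (Df.rel φ Sum.inr (Sum.inl ∘ g))).all
  obtain ⟨ψ, hψ⟩ := (d Sum.inl (Sum.inr ∘ Sum.inl)).and (d Sum.inl (Sum.inr ∘ Sum.inr)).not
  let par : List ℕ → β ⊕ β → M := fun η => Sum.elim (a (.A η.tail η.head!)) (a (.B η.tail η.head!))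
  refine ⟨β, β ⊕ β, inferInstance, inferInstance, ψ, M, inferInstance, inferInstance, hM,
    fun η => par (η.reverse ++ [0]), fun b N => ⟨a (.P (((List.range N).map b).reverse ++ [0])),
      fun n hn => (hψ _).2 ?_⟩, 2, fun η s hs => ?_⟩
  · have h1 : ((List.range n).map b).reverse ++ [0] <:+ ((List.range N).map b).reverse ++ [0] :=
      (List.suffix_append_self_iff).2 (List.reverse_suffix.2 (List.IsPrefix.map _
        (by rw [← min_eq_left hn.le, ← List.take_range]; exact List.take_prefix _ _)))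
    have h2 := List.cons_head!_tail (l := ((List.range n).map b).reverse ++ [0]) (by simp)
    rw [← h2] at h1
    exact ⟨(ha _ (.A _ _)).2 h1, fun h => ((ha _ (.B _ _)).1 h).2 h1⟩
  · rintro ⟨z, hz⟩
    obtain ⟨i, j, hij, rfl⟩ := Finset.card_eq_two.1 hs
    have h1 := ((hψ _).1 (hz i (by simp))).1
    have h2 := ((hψ _).1 (hz j (by simp))).2
    refine h2 fun x hx => (ha (.A _ _) (.B _ _)).2 ⟨?_, ?_⟩ x (h1 x hx)
    · simp
    · simpa using hij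

theorem exact_of_tp (T : L.Theory) (h : HasTP.{u, v, w} T) :
    ∃ (α β : Type) (_ : Finite α) (_ : Finite β) (φ : L.Formula (α ⊕ β)) (M : Type w)
      (_ : L.Structure M) (_ : Nonempty M), T.Model M ∧
      ∃ (a : List ℕ → β → M) (p : List ℕ → α → M),
        (∀ η ν, φ.Realize (Sum.elim (p η) (a ν)) ↔ ν <:+ η) ∧
        ∀ η i j x, φ.Realize (Sum.elim x (a (i :: η))) → φ.Realize (Sum.elim x (a (j :: η))) →
          i = j := by
  obtain ⟨α, β, _, _, φ, M, _, _, hM, a, h1, k, h2⟩ := h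
  let Good : Set (Set (α → M)) → Prop := fun F => ∃ (β : Type) (_ : Finite β)
    (φ : L.Formula (α ⊕ β)), ∀ X ∈ F, ∃ b : β → M, X = {x | φ.Realize (Sum.elim x b)}
  let F : Set (Set (α → M)) := Set.range fun b : β → M => {x | φ.Realize (Sum.elim x b)}
  have hD : ∀ n (η : List ℕ), D k F n {x | ∀ ν, ν <+: η → φ.Realize (Sum.elim x (a ν))} := by
    intro n
    induction n with
    | zero =>
      intro η
      obtain ⟨x, hx⟩ := h1 (fun i => η.getD i 0) (η.length + 1)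
      refine ⟨x, fun ν hν => ?_⟩
      have e : (List.range ν.length).map (fun i => η.getD i 0) = ν :=
        List.ext_getElem (by simp) fun i h3 h4 => by
          rw [List.getElem_map, List.getElem_range, hν.getElem h4,
            List.getD_eq_getElem _ _ (h4.trans_le hν.length_le)]
      exact e ▸ hx _ (Nat.lt_succ_of_le hν.length_le)
    | succ n ih =>
      refine fun η => ⟨fun i => {x | φ.Realize (Sum.elim x (a (η ++ [i])))}, fun i => ⟨_, rfl⟩,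
        fun x s hs => ?_, fun i => (ih (η ++ [i])).mono fun x hx =>
          ⟨fun ν hν => hx ν (hν.trans (List.prefix_append _ _)), hx _ List.prefix_rfl⟩⟩
      by_contra hc
      obtain ⟨t, h3, h4⟩ := Finset.exists_subset_card_eq (not_lt.1 hc)
      exact h2 η t h4 ⟨x, fun i hi => hs i (h3 hi)⟩
  obtain ⟨G, ⟨β', _, φ', hG⟩, hD'⟩ := red Good
    ⟨Empty, inferInstance, ⊤, by
      rintro _ rfl
      exact ⟨Empty.elim, (Set.eq_univ_of_forall fun x => Formula.realize_top.2 trivial).symm⟩⟩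
    (by
      rintro F G ⟨β₁, _, φ₁, h3⟩ ⟨β₂, _, φ₂, h4⟩
      obtain ⟨ψ, hψ⟩ := (Df.rel (M := M) (γ := α ⊕ β₁ ⊕ β₂) φ₁ Sum.inl (Sum.inr ∘ Sum.inl)).and
        (Df.rel φ₂ Sum.inl (Sum.inr ∘ Sum.inr))
      refine ⟨β₁ ⊕ β₂, inferInstance, ψ, ?_⟩
      rintro _ ⟨X, hX, Y, hY, rfl⟩
      obtain ⟨b₁, rfl⟩ := h3 X hX
      obtain ⟨b₂, rfl⟩ := h4 Y hY
      exact ⟨Sum.elim b₁ b₂, Set.ext fun x => (hψ (Sum.elim x (Sum.elim b₁ b₂))).symm⟩)
    k F ⟨β, inferInstance, φ, fun _ ⟨b, hb⟩ => ⟨b, hb.symm⟩⟩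
    fun n => ((hD n []).monoK (Nat.le_add_right k 2)).mono (Set.subset_univ _)
  have key := fun n => exact_tree G n (hD' (n + 1))
    {η | Encodable.encode η ≤ n ∧ η.length ≤ n}
    (((Set.finite_Iic n).preimage Encodable.encode_injective.injOn).subset fun _ h => h.1)
    fun _ h => h.2
  choose A p k1 k2 k3 using key
  choose b hb using fun n η => hG _ (k1 n η)
  let U := Filter.hyperfilter ℕ
  have hU : ∀ m, ∀ᶠ n in (U : Filter ℕ), m ≤ n := fun m =>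
    Filter.hyperfilter_le_cofinite (Nat.cofinite_eq_atTop ▸ Filter.eventually_ge_atTop m)
  have los : ∀ (x : α → ℕ → M) (y : β' → ℕ → M),
      φ'.Realize (Sum.elim (fun i => (x i : (U : Filter ℕ).Product fun _ => M))
        fun i => (y i : (U : Filter ℕ).Product fun _ => M)) ↔
      ∀ᶠ n in (U : Filter ℕ), φ'.Realize (Sum.elim (fun i => x i n) fun i => y i n) := by
    intro x y
    refine (iff_of_eq (congrArg _ (funext ?_))).trans
      ((Ultraproduct.realize_formula_cast (M := fun _ => M) φ' (Sum.elim x y)).trans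
        (Filter.eventually_congr (Filter.Eventually.of_forall fun n =>
          iff_of_eq (congrArg _ (funext ?_))))) <;> rintro (i | i) <;> rfl
  refine ⟨α, β', inferInstance, inferInstance, φ', (U : Filter ℕ).Product fun _ => M,
    inferInstance, inferInstance, ⟨fun σ hσ => (Ultraproduct.sentence_realize σ).2
      (Filter.Eventually.of_forall fun _ => hM.realize_of_mem σ hσ)⟩,
    fun η i => ((fun n => b n η i : ℕ → M) : (U : Filter ℕ).Product fun _ => M),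
    fun η i => ((fun n => p n η i : ℕ → M) : (U : Filter ℕ).Product fun _ => M),
    fun η ν => (los _ _).trans ((Filter.eventually_congr ?_).trans Filter.eventually_const),
    fun η i j x h3 h4 => ?_⟩
  · filter_upwards [hU (Encodable.encode η), hU η.length, hU (Encodable.encode ν), hU ν.length]
      with n c1 c2 c3 c4
    rw [← k2 n η ⟨c1, c2⟩ ν ⟨c3, c4⟩, hb]
    rfl
  · choose y hy using fun i => Quotient.exists_rep (x i)
    obtain rfl : (fun i => (y i : (U : Filter ℕ).Product fun _ => M)) = x := funext hy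
    obtain ⟨n, c1, c2, c3⟩ := (((los _ _).1 h3).and (((los _ _).1 h4).and
      (hU (η.length + 1)))).exists
    exact k3 n η i j c3 (fun i => y i n) (by rw [hb]; exact c1) (by rw [hb]; exact c2)

section Code

variable {M : Type w} {α β : Type}

def QQ (Φ : (α → M) → (β → M) → Prop) (u : α → M) (v₁ v₂ : β → M) (c₀ c₁ c₂ : M)
    (u' : α → M) (y₁ y₂ : β → M) (d₀ d₁ d₂ : M) : Prop :=
  (d₀ = d₁ ∧ c₀ = c₁ ∧ u = u') ∨
  (¬ d₀ = d₁ ∧ d₀ = d₂ ∧ ((c₀ = c₁ ∧ Φ u y₁ ∧ Φ u y₂) ∨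
    (¬ c₀ = c₁ ∧ c₀ = c₂ ∧ v₁ = y₁ ∧ v₂ = y₂))) ∨
  (¬ d₀ = d₁ ∧ ¬ d₀ = d₂ ∧ ((c₀ = c₁ ∧ Φ u y₁ ∧ ¬ Φ u y₂) ∨
    (¬ c₀ = c₁ ∧ c₀ = c₂ ∧ v₁ = y₁ ∧ ¬ v₂ = y₂) ∨
    (¬ c₀ = c₁ ∧ ¬ c₀ = c₂ ∧ v₁ = y₁ ∧ v₂ = y₂)))

abbrev Gm (α β : Type) : Type := α ⊕ (β ⊕ β) ⊕ Fin 3

def mk (u : α → M) (v₁ v₂ : β → M) (c₀ c₁ c₂ : M) : Gm α β → M :=
  Sum.elim u (Sum.elim (Sum.elim v₁ v₂) ![c₀, c₁, c₂])

def i0 : α → Gm α β := Sum.inl
def i1 : β → Gm α β := fun b => Sum.inr (Sum.inl (Sum.inl b))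
def i2 : β → Gm α β := fun b => Sum.inr (Sum.inl (Sum.inr b))
def i3 : Fin 3 → Gm α β := fun b => Sum.inr (Sum.inr b)

end Code

theorem sop_of_tp (T : L.Theory) (h : HasTP.{u, v, w} T) : HasSOP.{u, v, w} T Sg := by
  obtain ⟨α, β, _, _, φ, M, _, _, hM, a, p, h1, h2⟩ := exact_of_tp T h
  let Φ : (α → M) → (β → M) → Prop := fun x y => φ.Realize (Sum.elim x y)
  have h1' : ∀ η ν, Φ (p η) (a ν) ↔ ν <:+ η := h1
  have h2' : ∀ η i j x, Φ x (a (i :: η)) → Φ x (a (j :: η)) → i = j := h2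
  have ha : ∀ η ν, a η = a ν ↔ η = ν := fun η ν => ⟨fun e =>
    ((h1' ν η).1 (e ▸ (h1' ν ν).2 List.suffix_rfl)).eq_of_length_le
      ((h1' η ν).1 (e ▸ (h1' η η).2 List.suffix_rfl)).length_le, fun e => e ▸ rfl⟩
  have hp : ∀ η ν, p η = p ν ↔ η = ν := fun η ν => ⟨fun e =>
    ((h1' ν η).1 (e ▸ (h1' η η).2 List.suffix_rfl)).eq_of_length_le
      ((h1' η ν).1 (e ▸ (h1' ν ν).2 List.suffix_rfl)).length_le, fun e => e ▸ rfl⟩
  obtain ⟨e₀, e₁, he⟩ : ∃ e₀ e₁ : M, ¬ e₀ = e₁ := by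
    by_contra hc
    push Not at hc
    exact absurd ((ha [] [0]).1 (funext fun _ => hc _ _)) (by simp)
  have hd : Df L fun z : Gm α β ⊕ Gm α β → M => QQ Φ (z ∘ Sum.inl ∘ i0) (z ∘ Sum.inl ∘ i1)
      (z ∘ Sum.inl ∘ i2) (z (.inl (i3 0))) (z (.inl (i3 1))) (z (.inl (i3 2)))
      (z ∘ Sum.inr ∘ i0) (z ∘ Sum.inr ∘ i1) (z ∘ Sum.inr ∘ i2) (z (.inr (i3 0)))
      (z (.inr (i3 1))) (z (.inr (i3 2))) :=
    ((Df.eq _ _).and ((Df.eq _ _).and (Df.eqs _ _))).or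
      (((Df.eq _ _).not.and ((Df.eq _ _).and
        (((Df.eq _ _).and ((Df.rel φ _ _).and (Df.rel φ _ _))).or
          ((Df.eq _ _).not.and ((Df.eq _ _).and ((Df.eqs _ _).and (Df.eqs _ _))))))).or
      ((Df.eq _ _).not.and ((Df.eq _ _).not.and
        (((Df.eq _ _).and ((Df.rel φ _ _).and (Df.rel φ _ _).not)).or
          (((Df.eq _ _).not.and ((Df.eq _ _).and ((Df.eqs _ _).and (Df.eqs _ _).not))).or
          ((Df.eq _ _).not.and ((Df.eq _ _).not.and ((Df.eqs _ _).and (Df.eqs _ _)))))))))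
  obtain ⟨χ, hχ⟩ := hd
  let par : Sg → Gm α β → M := fun s => match s with
    | .P η => mk (p η) (a []) (a []) e₀ e₀ e₀
    | .A ρ i => mk (p []) (a ρ) (a (i :: ρ)) e₀ e₁ e₀
    | .B ρ i => mk (p []) (a ρ) (a (i :: ρ)) e₀ e₁ e₁
  let R : Sg → (α → M) → (β → M) → (β → M) → M → M → M → Prop := fun s u v₁ v₂ c₀ c₁ c₂ =>
    match s with
    | .P η => c₀ = c₁ ∧ u = p η
    | .A ρ i => (c₀ = c₁ ∧ Φ u (a ρ) ∧ Φ u (a (i :: ρ))) ∨
        (¬ c₀ = c₁ ∧ c₀ = c₂ ∧ v₁ = a ρ ∧ v₂ = a (i :: ρ))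
    | .B ρ i => (c₀ = c₁ ∧ Φ u (a ρ) ∧ ¬ Φ u (a (i :: ρ))) ∨
        (¬ c₀ = c₁ ∧ c₀ = c₂ ∧ v₁ = a ρ ∧ ¬ v₂ = a (i :: ρ)) ∨
        (¬ c₀ = c₁ ∧ ¬ c₀ = c₂ ∧ v₁ = a ρ ∧ v₂ = a (i :: ρ))
  have hR : ∀ s (x : Gm α β → M), χ.Realize (Sum.elim x (par s)) ↔
      R s (x ∘ i0) (x ∘ i1) (x ∘ i2) (x (i3 0)) (x (i3 1)) (x (i3 2)) := by
    intro s x
    rw [hχ]
    cases s with
    | P η =>
      show QQ Φ (x ∘ i0) (x ∘ i1) (x ∘ i2) (x (i3 0)) (x (i3 1)) (x (i3 2)) (p η) (a []) (a [])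
        e₀ e₀ e₀ ↔ _
      simp only [QQ, R, true_and, not_true, false_and, or_false]
    | A ρ i =>
      show QQ Φ (x ∘ i0) (x ∘ i1) (x ∘ i2) (x (i3 0)) (x (i3 1)) (x (i3 2)) (p []) (a ρ)
        (a (i :: ρ)) e₀ e₁ e₀ ↔ _
      simp only [QQ, R, he, true_and, not_true, false_and, or_false, false_or, not_false_iff,
        and_false]
    | B ρ i =>
      show QQ Φ (x ∘ i0) (x ∘ i1) (x ∘ i2) (x (i3 0)) (x (i3 1)) (x (i3 2)) (p []) (a ρ)
        (a (i :: ρ)) e₀ e₁ e₁ ↔ _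
      simp only [QQ, R, he, true_and, not_true, false_and, or_false, false_or, not_false_iff,
        and_false]
  refine ⟨Gm α β, Gm α β, inferInstance, inferInstance, χ, M, inferInstance, inferInstance, hM,
    par, fun s t => ?_⟩
  simp only [hR]
  have e : (∀ x : Gm α β → M,
      R s (x ∘ i0) (x ∘ i1) (x ∘ i2) (x (i3 0)) (x (i3 1)) (x (i3 2)) →
      R t (x ∘ i0) (x ∘ i1) (x ∘ i2) (x (i3 0)) (x (i3 1)) (x (i3 2))) ↔
      ∀ u v₁ v₂ c₀ c₁ c₂, R s u v₁ v₂ c₀ c₁ c₂ → R t u v₁ v₂ c₀ c₁ c₂ :=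
    ⟨fun h u v₁ v₂ c₀ c₁ c₂ => h (mk u v₁ v₂ c₀ c₁ c₂), fun h x => h _ _ _ _ _ _⟩
  rw [e]
  constructor
  · intro h
    show Sg.le s t
    cases s with
    | P η =>
      have k := h (p η) (a []) (a []) e₀ e₀ e₀ ⟨rfl, rfl⟩
      cases t <;> simp only [R, Sg.le, hp, h1', true_and, not_true, false_and, or_false] at k ⊢
      · exact k
      · exact k.2
      · exact k
    | A ρ i =>
      have k := h (p []) (a ρ) (a (i :: ρ)) e₀ e₁ e₀ (Or.inr ⟨he, rfl, rfl, rfl⟩)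
      cases t <;> simp only [R, Sg.le, ha, he, true_and, not_true, false_and, or_false, false_or,
        not_false_iff, and_false, List.cons.injEq] at k ⊢
      · exact ⟨k.1, k.2.1⟩
      · exact ⟨k.1, fun h => k.2 ⟨h, k.1⟩⟩
    | B ρ i =>
      have k := h (p []) (a ρ) (a (i :: ρ)) e₀ e₁ e₁ (Or.inr (Or.inr ⟨he, he, rfl, rfl⟩))
      cases t <;> simp only [R, Sg.le, ha, he, true_and, not_true, false_and, or_false, false_or,
        not_false_iff, and_false, List.cons.injEq] at k ⊢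
      exact ⟨k.1, k.2.1⟩
  · intro (h : Sg.le s t) u v₁ v₂ c₀ c₁ c₂ k
    cases s <;> cases t <;> simp only [Sg.le] at h
    · exact h ▸ k
    · obtain ⟨k1, rfl⟩ := k
      exact Or.inl ⟨k1, (h1' _ _).2 ((List.suffix_cons _ _).trans h), (h1' _ _).2 h⟩
    · obtain ⟨k1, rfl⟩ := k
      exact Or.inl ⟨k1, (h1' _ _).2 h.1, fun h' => h.2 ((h1' _ _).1 h')⟩
    · exact h.1 ▸ h.2 ▸ k
    · obtain ⟨rfl, h⟩ := h
      rcases k with ⟨k1, k2, k3⟩ | ⟨k1, k2, k3, rfl⟩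
      · exact Or.inl ⟨k1, k2, fun k4 => h (h2' _ _ _ _ k3 k4)⟩
      · exact Or.inr (Or.inl ⟨k1, k2, k3, fun k4 => h (List.head_eq_of_cons_eq ((ha _ _).1 k4))⟩)
    · exact h.1 ▸ h.2 ▸ k

end Pool.Agent.H40.Tp
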