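import Mathlib

set_option autoImplicit false

namespace Pool.Agent.H40.Tp

open FirstOrder

universe u v w

variable {L : FirstOrder.Language.{u, v}}

/-- `T` has `Σ`-SOP for the poset `S`: a partitioned formula `φ(x, y)` and parameters `a s` in a
model of `T` such that `φ(x, a s)` implies `φ(x, a t)` exactly when `s ≤ t`. -/
def HasSOP (T : L.Theory) (S : Type) [PartialOrder S] : Prop :=
  ∃ (α β : Type) (_ : Finite α) (_ : Finite β) (φ : L.Formula (α ⊕ β)) (M : Type w)
    (_ : L.Structure M) (_ : Nonempty M), T.Model M ∧ ∃ a : S → β → M, ∀ s t,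
      (∀ x : α → M, φ.Realize (Sum.elim x (a s)) → φ.Realize (Sum.elim x (a t))) ↔ s ≤ t

/-- `T` has the tree property: every branch is consistent (finitely satisfiable in the model),
and for some `k` any `k` children of a node are inconsistent. -/
def HasTP (T : L.Theory) : Prop :=
  ∃ (α β : Type) (_ : Finite α) (_ : Finite β) (φ : L.Formula (α ⊕ β)) (M : Type w)
    (_ : L.Structure M) (_ : Nonempty M), T.Model M ∧ ∃ a : List ℕ → β → M,
      (∀ (b : ℕ → ℕ) (N : ℕ), ∃ x : α → M, ∀ n < N,
        φ.Realize (Sum.elim x (a ((List.range n).map b)))) ∧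
      ∃ k : ℕ, ∀ (η : List ℕ) (s : Finset ℕ), s.card = k →
        ¬ ∃ x : α → M, ∀ i ∈ s, φ.Realize (Sum.elim x (a (η ++ [i])))

end Pool.Agent.H40.Tp
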