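import Pool.Agent.H40.Js13

set_option autoImplicit false

/-! Permutation models on sequence spaces: permutations that are almost translations. -/

namespace Pool.Agent.H40.Js

open Set Filter

section
variable {A : Type} (Λ : Subgroup (Equiv.Perm A)) (S : Set A → Prop)
  (hS : ∀ (g : Λ) y, S y → S (g.1 ⁻¹' y))

@[reducible] def subNF : NF Λ where
  F := ⨅ y, ⨅ (_ : y ∈ {y | S y}), 𝓟 {g | ∀ x, g • x ∈ y ↔ x ∈ y}
  conj h := tendsto_iInf.2 fun y => tendsto_iInf.2 fun hy => tendsto_principal.2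
    (mem_iInf_of_mem ((h⁻¹).1 ⁻¹' y) (mem_iInf_of_mem (hS _ y hy) fun g hg x => by
      rw [mul_smul, mul_smul]
      refine (hg (h • x)).trans ?_
      show h⁻¹ • h • x ∈ y ↔ _
      rw [inv_smul_smul]))
  inv := tendsto_iInf.2 fun y => tendsto_iInf.2 fun hy => tendsto_principal.2
    (mem_iInf_of_mem y (mem_iInf_of_mem hy fun g hg x => by
      rw [← hg (g⁻¹ • x), smul_inv_smul]))

variable {Λ S hS}

theorem sub_ev {p : Λ → Prop} :
    (∀ᶠ g in (subNF Λ S hS).F, p g) ↔ ∃ F : Set (Set A), F.Finite ∧ (∀ y ∈ F, S y) ∧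
      ∀ g : Λ, (∀ y ∈ F, ∀ x, g.1 x ∈ y ↔ x ∈ y) → p g :=
  mem_biInf_principal.trans (exists_congr fun _ => and_congr_right' (and_congr_right'
    ⟨fun h _ hg => h (mem_iInter₂.2 hg), fun h g hg => h g (mem_iInter₂.1 hg)⟩))

end

namespace Tr

variable {V : Type} [AddCommGroup V]

def Ep (π : Equiv.Perm (ℕ → V)) (e : ℕ → V) : Prop := ∀ᶠ x in cofinite, π x = x + e

theorem Ep.mul {π ρ : Equiv.Perm (ℕ → V)} {e f : ℕ → V} (a : Ep π e) (b : Ep ρ f) :
    Ep (π * ρ) (f + e) := by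
  filter_upwards [ρ.injective.tendsto_cofinite.eventually a, b] with x c d
  rw [Equiv.Perm.mul_apply, c, d, add_assoc]

theorem Ep.inv {π : Equiv.Perm (ℕ → V)} {e : ℕ → V} (a : Ep π e) : Ep π⁻¹ (-e) := by
  filter_upwards [π⁻¹.injective.tendsto_cofinite.eventually a] with x c
  rw [← sub_eq_add_neg, eq_sub_iff_add_eq, ← c]
  simp

def TG (Z : AddSubgroup (ℕ → V)) : Subgroup (Equiv.Perm (ℕ → V)) where
  carrier := {π | ∃ e ∈ Z, Ep π e}
  one_mem' := ⟨0, Z.zero_mem, Eventually.of_forall fun x => by simp⟩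
  mul_mem' := fun ⟨_, a, b⟩ ⟨_, c, d⟩ => ⟨_, Z.add_mem c a, b.mul d⟩
  inv_mem' := fun ⟨_, a, b⟩ => ⟨_, Z.neg_mem a, b.inv⟩

def cyl (n : ℕ) (u : ℕ → V) : Set (ℕ → V) := {x | ∀ i < n, x i = u i}

def S0 (y : Set (ℕ → V)) : Prop := y.Finite ∨ ∃ n u, y =ᶠ[cofinite] cyl n u

theorem s0_pre {Z : AddSubgroup (ℕ → V)} (g : TG Z) (y : Set (ℕ → V)) (h : S0 y) :
    S0 (g.1 ⁻¹' y) :=
  h.imp (·.preimage g.1.injective.injOn) fun ⟨n, u, h⟩ => by
    obtain ⟨e, -, he⟩ := g.2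
    refine ⟨n, u - e, ?_⟩
    filter_upwards [g.1.injective.tendsto_cofinite.eventually h, he] with x a b
    refine a.trans ?_
    rw [b]
    exact propext (forall₂_congr fun i _ => eq_sub_iff_add_eq.symm)

instance (Z : AddSubgroup (ℕ → V)) : NF (TG Z) := subNF _ S0 s0_pre

variable {Z : AddSubgroup (ℕ → V)}

def Pr (F : Set (Set (ℕ → V))) (g : TG Z) : Prop := ∀ y ∈ F, ∀ x, g.1 x ∈ y ↔ x ∈ y

theorem ev {p : TG Z → Prop} : (∀ᶠ g in NF.F, p g) ↔ ∃ F : Set (Set (ℕ → V)), F.Finite ∧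
    (∀ y ∈ F, S0 y) ∧ ∀ g : TG Z, Pr F g → p g := sub_ev (hS := s0_pre)

theorem sym0 {y : Set (ℕ → V)} (h : S0 y) : Sym (TG Z) y :=
  ev.2 ⟨{y}, finite_singleton _, fun _ e => e ▸ h, fun _ hg => hg y rfl⟩

instance : Fx (TG Z) (ℕ → V) :=
  ⟨fun a => (sym0 (Or.inl (finite_singleton a))).mono fun _ hg => (hg a).2 rfl⟩

theorem one_mem (S : Set (TG Z)) (h : S ∈ NF.F) : (1 : TG Z) ∈ S := by
  obtain ⟨F, -, -, h⟩ := (ev (p := (· ∈ S))).1 h
  exact h 1 fun _ _ _ => Iff.rfl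

theorem typed (S : Set (TG Z)) (h : S ∈ NF.F) : ∃ e : El (TG Z) (ℕ → V) (.w (.p .n (.w .a))),
    ∀ γ : TG Z, γ • e = e → γ ∈ S := by
  obtain ⟨F, h1, h2, h⟩ := (ev (p := (· ∈ S))).1 h
  obtain ⟨c, hc⟩ := Set.countable_iff_exists_injOn.1 h1.countable
  let D : Set (El (TG Z) (ℕ → V) (.p .n (.w .a))) := {z | z.2.1 ∈ F ∧ z.1 = c z.2.1}
  have hD : Sym (TG Z) D := sym_fin (Finite.of_finite_image (f := fun z => z.2.1) (h1.subset (by
    rintro _ ⟨z, a, rfl⟩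
    exact a.1))
    fun z a w b e => Prod.ext (a.2.trans ((congrArg c e).trans b.2.symm)) (Subtype.ext e))
  refine ⟨ps D hD, fun γ e => h γ fun y hy x => ?_⟩
  · let y' : PS (TG Z) (ℕ → V) := ⟨y, sym0 (h2 y hy)⟩
    have := (smul_mem (g := γ) (s := ps D hD) (x := (c y, y'))).2 ⟨hy, rfl⟩
    rw [show γ • ps D hD = _ from e] at this
    have e2 : (γ • y').1 = y := (hc hy this.1 this.2).symm
    exact (iff_of_eq (congrArg (γ • x ∈ ·) e2.symm)).trans smul_mem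

def Sim (m : ℕ) (W : Set V) (x y : ℕ → V) : Prop := ∀ i < m, x i = y i ∨ x i ∉ W ∧ y i ∉ W

theorem tame {F : Set (Set (ℕ → V))} (h1 : F.Finite) (h2 : ∀ y ∈ F, S0 y) :
    ∃ (m : ℕ) (W : Set V) (B : Set (ℕ → V)), W.Finite ∧ B.Finite ∧
      ∀ x ∉ B, ∀ x' ∉ B, Sim m W x x' → ∀ y ∈ F, x ∈ y ↔ x' ∈ y := by
  induction F, h1 using Set.Finite.induction_on with
  | empty => exact ⟨0, ∅, ∅, finite_empty, finite_empty, fun _ _ _ _ _ _ h => h.elim⟩
  | @insert y F _ _ ih =>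
    obtain ⟨m, W, B, a, b, c⟩ := ih fun z hz => h2 z (Or.inr hz)
    rcases h2 y (Or.inl rfl) with h | ⟨n, u, h⟩
    · exact ⟨m, W, _, a, b.union h, fun x d x' d' e => forall_mem_insert.2
        ⟨iff_of_false (fun f => d (Or.inr f)) fun f => d' (Or.inr f),
          c x (fun f => d (Or.inl f)) x' (fun f => d' (Or.inl f)) e⟩⟩
    · refine ⟨max m n, _, _, a.union ((finite_lt_nat n).image u), b.union h, fun x d x' d' e =>
        forall_mem_insert.2 ⟨?_, c x (fun f => d (Or.inl f)) x' (fun f => d' (Or.inl f)) fun i hi =>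
          (e i (lt_max_of_lt_left hi)).imp_right fun f =>
            ⟨fun g => f.1 (Or.inl g), fun g => f.2 (Or.inl g)⟩⟩⟩
      rw [show (x ∈ y) = (x ∈ cyl n u) from not_not.1 fun f => d (Or.inr f),
        show (x' ∈ y) = (x' ∈ cyl n u) from not_not.1 fun f => d' (Or.inr f)]
      refine forall₂_congr fun i hi => ?_
      rcases e i (lt_max_of_lt_right hi) with f | f
      · rw [f]
      · exact iff_of_false (fun g => f.1 (Or.inr ⟨i, hi, g.symm⟩))
          fun g => f.2 (Or.inr ⟨i, hi, g.symm⟩)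

theorem sim_cyl {m : ℕ} {W : Set V} {x y u : ℕ → V} (a : x ∈ cyl m u) (b : y ∈ cyl m u) :
    Sim m W x y := fun i hi => Or.inl ((a i hi).trans (b i hi).symm)

theorem cyl_mono {m n : ℕ} (h : m ≤ n) (u : ℕ → V) : cyl n u ⊆ cyl m u :=
  fun _ a i hi => a i (hi.trans_le h)

open Classical in
noncomputable def sw (a b : ℕ → V) : TG Z := ⟨Equiv.swap a b, 0, Z.zero_mem, by
  filter_upwards [eventually_cofinite_ne a, eventually_cofinite_ne b] with x h1 h2
  rw [Equiv.swap_apply_of_ne_of_ne h1 h2, add_zero]⟩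

open Classical in
theorem pr_sw {F : Set (Set (ℕ → V))} {a b : ℕ → V} (h : ∀ y ∈ F, a ∈ y ↔ b ∈ y) :
    Pr F (sw a b : TG Z) := swap_pres h

open Classical in
theorem sw_conj (g : TG Z) (a b : ℕ → V) : g * sw a b = sw (g • a) (g • b) * g :=
  Subtype.ext (Equiv.mul_swap_eq_swap_mul g.1 a b)

open Classical in
theorem sw_left (a b : ℕ → V) : (sw a b : TG Z) • a = b := Equiv.swap_apply_left a b

open Classical in
theorem sw_ne {a b c : ℕ → V} (h : c ≠ a) (h' : c ≠ b) : (sw a b : TG Z) • c = c :=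
  Equiv.swap_apply_of_ne_of_ne h h'

open Classical in
theorem sw_sw (a b : ℕ → V) : (sw a b : TG Z) * sw a b = 1 := Subtype.ext (Equiv.swap_mul_self a b)

open Classical in
theorem sw_comm (a b : ℕ → V) : (sw a b : TG Z) = sw b a := Subtype.ext (Equiv.swap_comm a b)

theorem symU (U : PS (TG Z) (ℕ → V)) : ∃ (m : ℕ) (W : Set V) (B : Set (ℕ → V)), W.Finite ∧
    B.Finite ∧ ∀ x ∉ B, ∀ x' ∉ B, Sim m W x x' → x ∈ U.1 → x' ∈ U.1 := by
  obtain ⟨F, h1, h2, h3⟩ := ev.1 U.2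
  obtain ⟨m, W, B, a, b, c⟩ := tame h1 h2
  exact ⟨m, W, B, a, b, fun x d x' d' e f => sw_left (Z := Z) x x' ▸
    (h3 _ (pr_sw (c x d x' d' e)) x).2 f⟩

theorem Pr.mul {F : Set (Set (ℕ → V))} {g h : TG Z} (a : Pr F g) (b : Pr F h) : Pr F (g * h) :=
  fun y hy x => (a y hy _).trans (b y hy x)

theorem Pr.inv {F : Set (Set (ℕ → V))} {g : TG Z} (a : Pr F g) : Pr F g⁻¹ :=
  fun y hy x => by rw [← a y hy]; simp

def PrG (F : Set (Set (ℕ → V))) : Subgroup (TG Z) where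
  carrier := {g | Pr F g}
  one_mem' _ _ _ := Iff.rfl
  mul_mem' := Pr.mul
  inv_mem' := Pr.inv

variable (h2 : ∀ v : V, v + v = 0)

include h2 in
theorem ex_fs {e : ℕ → V} (he : e ∈ Z) {B : Set (ℕ → V)} (hB : B.Finite) : ∃ g : TG Z, Ep g.1 e ∧
    ∀ x, (g • x = x ∧ (x ∈ B ∨ x + e ∈ B)) ∨ (x ∉ B ∧ x + e ∉ B ∧ g • x = x + e) := by
  classical
  have h0 : ∀ x : ℕ → V, x + e + e = x := fun x => funext fun i => by simp [add_assoc, h2]
  let f : (ℕ → V) → ℕ → V := fun x => if x ∈ B ∨ x + e ∈ B then x else x + e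
  have inv : Function.Involutive f := fun x => by
    by_cases h : x ∈ B ∨ x + e ∈ B
    · simp only [f, if_pos h]
    · simp only [f, if_neg h, h0, if_neg (or_comm.not.1 h)]
  have h3 : Ep inv.toPerm e := (hB.union (hB.preimage (add_left_injective e).injOn)).subset
    fun x hx => by_contra fun h => hx (if_neg h)
  refine ⟨⟨_, e, he, h3⟩, h3, fun x => ?_⟩
  by_cases h : x ∈ B ∨ x + e ∈ B
  · exact Or.inl ⟨if_pos h, h⟩
  · exact Or.inr ⟨fun a => h (Or.inl a), fun a => h (Or.inr a), if_neg h⟩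

include h2 in
/-- translations vanishing below the level of `F` are realised by permutations preserving `F` -/
theorem ex_pr {F : Set (Set (ℕ → V))} (h1 : F.Finite) (h0 : ∀ y ∈ F, S0 y) : ∃ m, ∀ e ∈ Z,
    e ∈ cyl m 0 → ∃ g : TG Z, Ep g.1 e ∧ Pr F g := by
  obtain ⟨m, W, B, -, b, c⟩ := tame h1 h0
  refine ⟨m, fun e he h => (ex_fs h2 he b).imp fun g hg => ⟨hg.1, fun y hy x => ?_⟩⟩
  rcases hg.2 x with d | d
  · exact iff_of_eq (congrArg (· ∈ y) d.1)
  · rw [show g.1 x = _ from d.2.2]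
    exact c _ d.2.1 _ d.1 (fun i hi => Or.inl (by simp [h i hi])) y hy

theorem fin_triv {X : Type} [MulAction (TG Z) X] {x : X} {R : (ℕ → V) → (ℕ → V) → Prop}
    (hR : Equivalence R) (h : ∀ a b, R a b → (sw a b : TG Z) • x = x) (n : ℕ) : ∀ g : TG Z,
    {c : ℕ → V | g • c ≠ c}.Finite → {c : ℕ → V | g • c ≠ c}.ncard ≤ n → (∀ c, R c (g • c)) → g • x = x := by
  induction n with
  | zero =>
    intro g a b _
    rw [show g = 1 from Subtype.ext (Equiv.ext fun c => by_contra fun e =>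
      ((ncard_pos a).2 ⟨c, e⟩).not_ge b), one_smul]
  | succ n ih =>
    intro g a b c
    by_cases e : ∃ d : ℕ → V, g • d ≠ d
    · obtain ⟨d, e⟩ := e
      have k : {c | (sw d (g • d) * g) • c ≠ c} ⊆ {c | g • c ≠ c} \ {d} := fun z hz => by
        refine ⟨fun f => hz ?_, fun f => hz ?_⟩
        · rw [mul_smul, f]
          exact sw_ne (fun i => e (i ▸ f)) fun i => e (by
            have := smul_left_cancel g (f.trans i); rw [← this, f])
        · rw [show z = d from f, mul_smul, sw_comm, sw_left]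
      have := ih (sw d (g • d) * g) ((a.subset sdiff_subset).subset k) (by
        have := ncard_le_ncard k (a.subset sdiff_subset)
        rw [ncard_sdiff_singleton_of_mem (show d ∈ {c | g • c ≠ c} from e)] at this
        omega) fun z => hR.trans (c z) (by
          rw [mul_smul]
          by_cases f : g • z = d
          · rw [f, sw_left]; exact c d
          by_cases f' : g • z = g • d
          · rw [f', sw_comm, sw_left]; exact hR.symm (c d)
          · rw [sw_ne f f']; exact hR.refl _)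
      rw [← one_smul (TG Z) (g • x), ← sw_sw d (g • d), mul_smul, ← mul_smul _ g, this, h _ _ (c d)]
    · push Not at e
      rw [show g = 1 from Subtype.ext (Equiv.ext e), one_smul]

variable [Nontrivial V]

theorem cyl_inf (n : ℕ) (u : ℕ → V) : (cyl n u).Infinite := by
  obtain ⟨v, hv⟩ := exists_ne (0 : V)
  refine infinite_of_injective_forall_mem (f := fun k => u + Pi.single (n + k) v)
    (fun a b h => by_contra fun e => hv ?_) fun k i hi => by simp [Pi.single_eq_of_ne (by omega : i ≠ n + k)]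
  simpa [Pi.single_eq_of_ne (by omega : n + a ≠ n + b)] using congrFun h (n + a)

theorem ep_cyl {g : TG Z} {e u : ℕ → V} {n : ℕ} (h : Ep g.1 e)
    (h' : ∀ x, g.1 x ∈ cyl n u ↔ x ∈ cyl n u) : e ∈ cyl n 0 := by
  obtain ⟨x, a, b⟩ := ((frequently_cofinite_iff_infinite.2 (cyl_inf n u)).and_eventually h).exists
  intro i hi
  have := (h' x).2 a i hi
  rw [b, Pi.add_apply, a i hi] at this
  simpa using this

include h2 in
theorem dich {X : Type} [MulAction (TG Z) X] (hX : ∀ x : X, ∀ᶠ g in NF.F (Γ := TG Z), g • x = x)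
    {s : Set X} (hs : Sym (TG Z) s) (hi : s.Infinite) :
    (∃ n u, ∃ B : Set (ℕ → V), B.Finite ∧ ∃ φ : (ℕ → V) → X, InjOn φ (cyl n u \ B) ∧
      (∀ c ∈ cyl n u \ B, φ c ∈ s) ∧ ∀ᶠ g in NF.F (Γ := TG Z), ∀ c, φ (g • c) = g • φ c) ∨
    ∃ O : ℕ → Set X, (∀ k, (O k).Finite ∧ (O k).Nonempty ∧ O k ⊆ s) ∧
      (∀ k l, ∀ x ∈ O k, x ∈ O l → k = l) ∧ ∀ᶠ g in NF.F (Γ := TG Z), ∀ k, ∀ x ∈ O k, g • x ∈ O k := by
  obtain ⟨F, f1, f2, f3⟩ := ev.1 hs
  obtain ⟨m, W, B, -, hB, ht⟩ := tame f1 f2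
  by_cases hc : ∃ x ∈ s, ∃ a ∉ B, ∃ b ∉ B, (∀ y ∈ F, a ∈ y ↔ b ∈ y) ∧ (sw a b : TG Z) • x ≠ x
  · obtain ⟨x, hx, a, ha, b, hb, h3, h4⟩ := hc
    obtain ⟨F', g1, g2, g3⟩ := ev.1 (hX x)
    obtain ⟨m', W', B', -, hB', ht'⟩ := tame g1 g2
    let E := cyl (max m m') a \ (B ∪ B' ∪ {a, b})
    have e0 : (B ∪ B' ∪ {a, b}).Finite := (hB.union hB').union (toFinite _)
    have e1 : ∀ c ∈ E, ∀ d ∈ E, (sw c d : TG Z) • x = x := fun c hc d hd => g3 _ (pr_sw (ht' c
      (fun e => hc.2 (Or.inl (Or.inr e))) d (fun e => hd.2 (Or.inl (Or.inr e))) (sim_cyl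
        (cyl_mono (le_max_right _ _) _ hc.1) (cyl_mono (le_max_right _ _) _ hd.1))))
    have e2 : ∀ c ∈ E, ∀ y ∈ F, c ∈ y ↔ a ∈ y := fun c hc => ht c (fun e => hc.2 (Or.inl (Or.inl e)))
      a ha (sim_cyl (cyl_mono (le_max_left _ _) _ hc.1) fun _ _ => rfl)
    have e3 : ∀ (g : TG Z) c d, g • x = x → (sw c d : TG Z) • x = x →
        (sw (g • c) (g • d) : TG Z) • x = x := fun g c d k l => by
      rw [← k, ← mul_smul, ← sw_conj, mul_smul, l]
    obtain ⟨z, z1, z2, z3⟩ : ∃ z ∉ E, (∀ c ∈ E, ∀ y ∈ F, c ∈ y ↔ z ∈ y) ∧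
        ∀ c ∈ E, (sw c z : TG Z) • x ≠ x := by
      by_cases k : ∃ c ∈ E, (sw c a : TG Z) • x = x
      · obtain ⟨c, k, l⟩ := k
        refine ⟨b, fun e => e.2 (Or.inr (Or.inr rfl)), fun c hc y hy => (e2 c hc y hy).trans
          (h3 y hy), fun d hd e => h4 ?_⟩
        have k1 := e3 _ _ _ (e1 d hd c k) e
        rw [sw_left, sw_ne (fun f => hd.2 (Or.inr (Or.inr f.symm)))
          fun f => k.2 (Or.inr (Or.inr f.symm))] at k1
        have k2 := e3 _ _ _ l k1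
        rwa [sw_left, sw_ne (fun f => k.2 (Or.inr (Or.inr f.symm)))
          fun f => h4 (by rw [f, show (sw a a : TG Z) = 1 from Subtype.ext (by simp [sw]; rfl),
            one_smul])] at k2
      · push Not at k
        exact ⟨a, fun e => e.2 (Or.inr (Or.inl rfl)), e2, k⟩
    refine Or.inl ⟨_, a, _, e0, fun c => (sw c z : TG Z) • x, fun c hc d hd e => by_contra fun k => ?_,
      fun c hc => (f3 _ (pr_sw (z2 c hc)) x).2 hx, ?_⟩
    · obtain ⟨w, w1, w2⟩ := ((cyl_inf _ a).sdiff e0).exists_notMem_finite (toFinite {c, d})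
      have k1 : (sw d z * sw c z : TG Z) • x = x := by
        rw [mul_smul, show (sw c z : TG Z) • x = _ from e, ← mul_smul, sw_sw, one_smul]
      have k2 := e3 _ _ _ k1 (e1 w w1 d hd)
      have w3 : w ≠ z := fun f => z1 (f ▸ w1)
      rw [mul_smul, mul_smul, sw_ne (fun f => w2 (Or.inl f)) w3, sw_ne (fun f => w2 (Or.inr f)) w3,
        sw_ne (Ne.symm k) fun f : d = z => z1 (f ▸ hd), sw_left] at k2
      exact z3 w w1 k2
    · filter_upwards [hX x, Fx.fx z] with g k l c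
      rw [← mul_smul g, sw_conj, mul_smul, k, l]
  push Not at hc
  let F1 := F ∪ singleton '' B
  have k1 : F1.Finite := f1.union (hB.image _)
  have k2 : ∀ y ∈ F1, S0 y := by
    rintro y (h | ⟨b, -, rfl⟩)
    exacts [f2 y h, Or.inl (finite_singleton b)]
  have k3 : ∀ x ∈ s, ∃ m', ∀ (g : TG Z) e, Pr F1 g → Ep g.1 e → e ∈ Z → e ∈ cyl m' 0 → g • x = x := by
    intro x hx
    obtain ⟨F', g1, g2, g3⟩ := ev.1 (hX x)
    obtain ⟨m', h⟩ := ex_pr (Z := Z) h2 (k1.union g1) fun y hy => hy.elim (k2 y) (g2 y)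
    refine ⟨m', fun g e a b c d => ?_⟩
    obtain ⟨ρ, r1, r2⟩ := h e c d
    rw [← mul_inv_cancel_left ρ g, mul_smul, fin_triv (R := fun a b => ∀ y ∈ F1, a ∈ y ↔ b ∈ y)
      ⟨fun _ _ _ => Iff.rfl, fun h y hy => (h y hy).symm, fun h h' y hy => (h y hy).trans (h' y hy)⟩
      (fun a b h => ?_) _ _ ?_ le_rfl fun c y hy =>
        (((Pr.inv fun y hy => r2 y (Or.inl hy)).mul a) y hy c).symm, g3 ρ fun y hy => r2 y (Or.inr hy)]
    · have := r1.inv.mul b
      rw [add_neg_cancel] at this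
      exact Finite.subset this fun c hc f => hc (f.trans (add_zero c))
    · by_cases e : a = b
      · rw [e, show (sw b b : TG Z) = 1 from Subtype.ext (by simp [sw]; rfl), one_smul]
      · exact hc x hx a (fun f => e ((h _ (Or.inr ⟨a, f, rfl⟩)).1 rfl).symm) b
          (fun f => e ((h _ (Or.inr ⟨b, f, rfl⟩)).2 rfl)) fun y hy => h y (Or.inl hy)
  obtain ⟨G, g1, g2, s', g3, g4⟩ : ∃ G : Subgroup (TG Z), (∀ᶠ g in NF.F, g ∈ G) ∧
      (∀ g ∈ G, Pr F1 g) ∧ ∃ s' ⊆ s, s'.Infinite ∧ ∀ x ∈ s', (MulAction.orbit G x).Finite := by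
    by_cases h : ∀ x ∈ s, (MulAction.orbit (PrG (Z := Z) F1) x).Finite
    · exact ⟨PrG F1, ev.2 ⟨F1, k1, k2, fun _ h => h⟩, fun _ h => h, s, subset_rfl, hi, h⟩
    push Not at h
    obtain ⟨x, hx, h⟩ := h
    obtain ⟨m', h3⟩ := k3 x hx
    refine ⟨PrG (insert (cyl m' 0) F1), ev.2 ⟨_, k1.insert _, forall_mem_insert.2
      ⟨Or.inr ⟨_, _, .rfl⟩, k2⟩, fun _ h => h⟩, fun g a y hy => a y (Or.inr hy), _, ?_, h, ?_⟩
    · rintro _ ⟨g, rfl⟩
      exact (f3 g (fun y hy => g.2 y (Or.inl hy)) x).2 hx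
    · rintro _ ⟨g, rfl⟩
      refine (finite_singleton (g.1 • x)).subset ?_
      rintro _ ⟨ρ, rfl⟩
      obtain ⟨e, e1, e2⟩ := ρ.1.2
      obtain ⟨f, -, f2⟩ := g.1.2
      have := (f2.inv.mul e2).mul f2
      rw [add_comm e, add_neg_cancel_left] at this
      have := h3 (g.1⁻¹ * ρ.1 * g.1) e ((g.2.inv.mul fun y hy => ρ.2 y (Or.inr hy)).mul g.2) this e1
        (ep_cyl e2 (ρ.2 _ (Or.inl rfl)))
      rw [mul_smul, mul_smul, inv_smul_eq_iff] at this
      exact this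
  have h4 : (MulAction.orbit G '' s').Infinite := fun h => g4.1 ((h.sUnion (forall_mem_image.2
    g4.2)).subset fun x hx => ⟨_, ⟨x, hx, rfl⟩, MulAction.mem_orbit_self x⟩)
  choose x x1 x2 using fun k => (h4.natEmbedding _ k).2
  refine Or.inr ⟨fun k => MulAction.orbit G (x k), fun k => ⟨g4.2 _ (x1 k),
    ⟨_, MulAction.mem_orbit_self _⟩, ?_⟩, fun k l z a b => (h4.natEmbedding _).injective
      (Subtype.ext ?_), g1.mono fun g hg k z hz => ?_⟩
  · rintro _ ⟨g, rfl⟩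
    exact (f3 g (fun y hy => g2 g g.2 y (Or.inl hy)) _).2 (g3 (x1 k))
  · rw [← x2, ← x2, ← MulAction.orbit_eq_iff.2 a, ← MulAction.orbit_eq_iff.2 b]
  · exact MulAction.mem_orbit_of_mem_orbit (⟨g, hg⟩ : G) hz

end Tr

end Pool.Agent.H40.Js
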