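import Pool.Agent.H40.Tr1
import Pool.Agent.H40.JzDefs4

set_option autoImplicit false

/-! Finite-to-one covers and pulling back filterbases. -/

namespace Pool.Agent.H40.Js

open Set Filter
open Pool.Agent.H40.Bspt Pool.Agent.H40.Jz

section
variable {Λ : Type} [Group Λ] [NF Λ] {A : Type} [MulAction Λ A] (J : JS Λ A)

namespace JS

/-- `g` is a finite-to-one map from a subset of `a` onto `Y` -/
def Cov (g a Y : J.M) : Prop := (∀ z y, App J.E g z y → J.E z a ∧ J.E y Y) ∧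
  (∀ z y y', App J.E g z y → App J.E g z y' → y = y') ∧ (∀ y, J.E y Y → ∃ z, App J.E g z y) ∧
    ∀ y, {z | App J.E g z y}.Finite

theorem few_ext {P : J.M → Prop} : Few J.E P ↔ {z | P z}.Finite :=
  ⟨fun ⟨_, a, b⟩ => (J.fin_ext a).subset b, fun h => (J.ex_fin h).imp fun _ a =>
    ⟨a.1, fun z hz => (a.2 z).2 hz⟩⟩

theorem fin_ext' {a : J.M} : IsFin J.E a ↔ {z | J.E z a}.Finite := ⟨J.fin_ext, J.fin_of⟩

theorem cov_of {t u : Ty} {s : PS Λ (El Λ A t)} {Y : PS Λ (El Λ A u)} {a f : J.M}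
    (f1 : ∀ x, J.E x (J.ν (.w _) s) → ∃ y, J.E y a ∧ App J.E f x y)
    (f2 : ∀ x y x' y', App J.E f x y → App J.E f x' y' → (x = x' ↔ y = y'))
    (r : PS Λ (El Λ A (.p t u))) (r1 : ∀ y ∈ Y.1, ∃ x ∈ s.1, (x, y) ∈ r.1)
    (r2 : ∀ x y y', (x, y) ∈ r.1 → (x, y') ∈ r.1 → y = y') (r3 : ∀ y, {x | (x, y) ∈ r.1}.Finite) :
    ∃ g, J.Cov g a (J.ν (.w u) Y) := by
  obtain ⟨g, hg⟩ := J.zf.rel (R := fun z y => ∃ x, App J.E f x z ∧ App J.E (J.ν (.w _) r) x y)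
    (by repeat' first | exact Tm.var _ | exact Tm.const _ | apply Df.app | apply Df.and | apply Df.ex')
    a (J.ν (.w u) Y)
  refine ⟨g, fun z y h => ⟨((hg _ _).1 h).1, ((hg _ _).1 h).2.1⟩, fun z y y' h h' => ?_,
    J.all_mem.2 fun y hy => ?_, fun y => ?_⟩
  · obtain ⟨-, -, x, a1, a2⟩ := (hg _ _).1 h
    obtain ⟨-, -, x', b1, b2⟩ := (hg _ _).1 h'
    obtain rfl := (f2 _ _ _ _ a1 b1).2 rfl
    obtain ⟨x, y, a3, rfl, rfl⟩ := J.app_iff.1 a2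
    obtain ⟨x', y', b3, e, rfl⟩ := J.app_iff.1 b2
    rw [r2 _ _ _ a3 (J.inj _ e ▸ b3)]
  · obtain ⟨x, a1, a2⟩ := r1 y hy
    obtain ⟨z, b1, b2⟩ := f1 _ (J.mem'.2 a1)
    exact ⟨z, (hg _ _).2 ⟨b1, J.mem'.2 hy, _, b2, J.app_iff.2 ⟨x, y, a2, rfl, rfl⟩⟩⟩
  · by_cases hy : J.E y (J.ν (.w u) Y)
    swap
    · exact finite_empty.subset fun z hz => hy ((hg _ _).1 hz).2.1
    obtain ⟨y, -, rfl⟩ := (J.mem _ _ _).1 hy
    refine ((r3 y).biUnion (t := fun x => {z | App J.E f (J.ν t x) z}) fun x _ =>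
      Subsingleton.finite fun z a z' b => (f2 _ _ _ _ a b).1 rfl).subset fun z hz => ?_
    obtain ⟨-, -, x, a1, a2⟩ := (hg _ _).1 hz
    obtain ⟨x, y', a3, rfl, e⟩ := J.app_iff.1 a2
    exact mem_biUnion (J.inj _ e ▸ a3 : (x, y) ∈ r.1) a1

variable {J} {g a Y : J.M}

def Pl (g a : J.M) (p : Prop) (C U : J.M) : Prop := ∀ z, J.E z U ↔ J.E z a ∧
  ((∃ y, J.E y C ∧ App J.E g z y) ∨ p ∧ ¬ ∃ y, App J.E g z y)

theorem ex_pl (g a : J.M) (p : Prop) (C : J.M) : ∃ U, Pl g a p C U := by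
  by_cases h : p
  · simp only [Pl, h, true_and]
    exact J.zf.sepD' (by repeat' first | exact Tm.var _ | exact Tm.const _ | apply Df.app | apply Df.mem' | apply Df.and | apply Df.or | apply Df.neg | apply Df.ex') a
  · simp only [Pl, h, false_and, or_false]
    exact J.zf.sepD' (by repeat' first | exact Tm.var _ | exact Tm.const _ | apply Df.app | apply Df.mem' | apply Df.and | apply Df.ex') a

theorem Cov.fin (h : J.Cov g a Y) {s : Set J.M} (hs : s.Finite) :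
    {z | ∃ y ∈ s, App J.E g z y}.Finite :=
  (hs.biUnion fun y _ => h.2.2.2 y).subset fun _ ⟨_, b, c⟩ => mem_biUnion b c

theorem Cov.fin' (h : J.Cov g a Y) {s : Set J.M} (hs : ∀ y ∈ s, J.E y Y)
    (h' : {z | ∃ y ∈ s, App J.E g z y}.Finite) : s.Finite := by
  choose! G hG using h.2.2.1
  exact Finite.of_finite_image (f := G) (h'.subset (by
    rintro _ ⟨y, hy, rfl⟩
    exact ⟨y, hy, hG y (hs y hy)⟩)) fun y a y' b e => h.2.1 _ _ _ (hG y (hs y a)) (e ▸ hG y' (hs y' b))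

theorem Cov.nas (h : J.Cov g a Y) (h1 : ¬ IsFin J.E Y) (h2 : ¬ Amorph J.E Y) : ¬ Amorph J.E a := by
  refine fun h3 => h2 ⟨h1, fun C hC hi => ?_⟩
  obtain ⟨U, hU⟩ := ex_pl g a False C
  have := h3.2 U (fun z hz => ((hU z).1 hz).1) fun e => hi (J.fin_of (h.fin' hC
    ((J.fin_ext e).subset fun z ⟨y, b, c⟩ => (hU z).2 ⟨(h.1 _ _ c).1, Or.inl ⟨y, b, c⟩⟩)))
  rw [few_ext] at this ⊢
  refine h.fin' (fun y hy => hy.1) (this.subset fun z ⟨y, b, c⟩ => ⟨(h.1 _ _ c).1, fun e => ?_⟩)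
  rcases ((hU z).1 e).2 with ⟨y', d, e⟩ | e
  exacts [b.2 (h.2.1 _ _ _ e c ▸ d), e.1]

def PV (g a : J.M) (p : Prop) (V V' : J.M) : Prop := ∀ U, J.E U V' ↔ ∃ C, J.E C V ∧ Pl g a p C U

theorem Cov.gfb (h : J.Cov g a Y) {p : Prop} {V V' : J.M} (h1 : Gfb J.E Y V) (h2 : PV g a p V V') :
    Gfb J.E a V' := by
  have inf : ∀ U, J.E U V' → ¬ IsFin J.E U := fun U hU e => by
    obtain ⟨C, b, c⟩ := (h2 U).1 hU
    exact h1.2.2.2.1 C b (J.fin_of (h.fin' (h1.1.2.1 C b).1 ((J.fin_ext e).subset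
      fun z ⟨y, d, e⟩ => (c z).2 ⟨(h.1 _ _ e).1, Or.inl ⟨y, d, e⟩⟩)))
  have int : ∀ U W Z, J.E U V' → J.E W V' → (∀ x, J.E x Z ↔ J.E x U ∧ J.E x W) → J.E Z V' := by
    intro U W Z hU hW e
    obtain ⟨C, b, c⟩ := (h2 U).1 hU
    obtain ⟨D, b', c'⟩ := (h2 W).1 hW
    obtain ⟨I, hI⟩ := J.zf.sepD' (P := fun z => J.E z D) (Df.mem' (Tm.var _) (Tm.const _)) C
    refine (h2 Z).2 ⟨I, h1.2.2.1 _ _ _ b b' hI, fun z => ?_⟩
    rw [e, c, c']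
    refine ⟨fun ⟨⟨k, l⟩, _, m⟩ => ⟨k, ?_⟩, fun ⟨k, l⟩ => ⟨⟨k, l.imp_left fun ⟨y, i, j⟩ =>
      ⟨y, ((hI y).1 i).1, j⟩⟩, k, l.imp_left fun ⟨y, i, j⟩ => ⟨y, ((hI y).1 i).2, j⟩⟩⟩
    rcases l with ⟨y, i, j⟩ | l
    · rcases m with ⟨y', i', j'⟩ | m
      exacts [Or.inl ⟨y, (hI y).2 ⟨i, h.2.1 _ _ _ j' j ▸ i'⟩, j⟩, Or.inr m]
    · exact Or.inr l
  refine ⟨⟨?_, fun U hU => ⟨fun z hz => ?_, by_contra fun e => inf U hU (J.zf.fin0 fun y hy =>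
    e ⟨y, hy⟩)⟩, fun U W hU hW => ?_⟩, fun U W Z hU hW e => ?_, int, inf, fun U W hU hW => ?_⟩
  · obtain ⟨C, hC⟩ := h1.1.1
    obtain ⟨U, hU⟩ := ex_pl g a p C
    exact ⟨U, (h2 U).2 ⟨C, hC, hU⟩⟩
  · obtain ⟨C, -, c⟩ := (h2 U).1 hU
    exact ((c z).1 hz).1
  · obtain ⟨I, hI⟩ := J.zf.sepD' (P := fun z => J.E z W) (Df.mem' (Tm.var _) (Tm.const _)) U
    exact ⟨I, int _ _ _ hU hW hI, fun z hz => ((hI z).1 hz).1, fun z hz => ((hI z).1 hz).2⟩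
  all_goals
    obtain ⟨C, b, c⟩ := (h2 U).1 hU
    obtain ⟨D, b', c'⟩ := (h2 W).1 hW
  · obtain ⟨I, hI⟩ := J.zf.union2 C D
    refine (h2 Z).2 ⟨I, h1.2.1 _ _ _ b b' hI, fun z => ?_⟩
    simp only [e, c z, c' z, hI, or_and_right, exists_or]
    rw [← and_or_left, or_or_or_comm, or_self]
  · have := h1.2.2.2.2 C D b b'
    rw [few_ext] at this ⊢
    refine (h.fin this).subset fun z ⟨k, l⟩ => ?_
    rcases (c z).1 k with ⟨m, ⟨y, i, j⟩ | i⟩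
    · exact ⟨y, ⟨i, fun e => l ((c' z).2 ⟨m, Or.inl ⟨y, e, j⟩⟩)⟩, j⟩
    · exact absurd ((c' z).2 ⟨m, Or.inr i⟩) l

theorem df_pv {α : Type} (g a : J.M) {p : (α → J.M) → Prop}
    {s t : (α → J.M) → J.M} (hs : Tm s) (ht : Tm t) {q r : (α → J.M) → J.M} (hq : Tm q) (hr : Tm r) (hp : ∀ v, p v ↔ q v = r v) :
    Df J.E α fun v => PV g a (p v) (s v) (t v) := by
  obtain ⟨s, rfl⟩ := hs
  obtain ⟨t, rfl⟩ := ht
  obtain ⟨q, rfl⟩ := hq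
  obtain ⟨r, rfl⟩ := hr
  simp only [PV, Pl, hp]
  rcases s with s | s <;> rcases t with t | t <;> rcases q with q | q <;> rcases r with r | r <;>
  simp only [Sum.elim_inl, Sum.elim_inr, id] <;>
  repeat' first | exact Tm.var _ | exact Tm.const _ | apply Df.app | apply Df.mem' | apply Df.eq' | apply Df.and | apply Df.or | apply Df.iff | apply Df.neg | apply Df.ex' | apply Df.all'

theorem ex_pv (g a : J.M) : ∃ b, ∀ p V, ∃ V', J.E V' b ∧ PV g a p V V' := by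
  obtain ⟨c, hc⟩ := J.zf.power a
  obtain ⟨b, hb⟩ := J.zf.power c
  refine ⟨b, fun p V => ?_⟩
  obtain ⟨V', h⟩ := J.zf.sepD' (P := fun U => ∃ C, J.E C V ∧ Pl g a p C U) (by
    by_cases h : p <;> simp only [Pl, h, true_and, false_and, or_false] <;>
    repeat' first | exact Tm.var _ | exact Tm.const _ | apply Df.app | apply Df.mem' | apply Df.and | apply Df.or | apply Df.iff | apply Df.neg | apply Df.ex' | apply Df.all') c
  exact ⟨V', (hb _).2 fun U e => ((h U).1 e).1, fun U => (h U).trans (and_iff_right_of_imp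
    fun ⟨C, _, e⟩ => (hc U).2 fun z hz => ((e z).1 hz).1)⟩

theorem PV.uniq {p : Prop} {V V' V'' : J.M} (h : PV g a p V V') (h' : PV g a p V V'') : V' = V'' :=
  J.zf.ext _ _ fun U => (h U).trans (h' U).symm

theorem Cov.sfbi (h : J.Cov g a Y) (h1 : SFBI J.E J.nu Y) : SFBI J.E J.nu a := by
  obtain ⟨V, ⟨f, hf⟩, h2, h3, h4⟩ := h1
  obtain ⟨b, hb⟩ := ex_pv g a
  choose V' k1 k2 using fun n => hb False (V n)
  obtain ⟨f', hf'⟩ := J.zf.rel (R := fun n y => ∃ v, App J.E f n v ∧ PV g a False v y)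
    (Df.ex' ((Df.app (Tm.const _) (Tm.var _) (Tm.var _)).and (df_pv g a (Tm.var _) (Tm.var _)
      (Tm.const (J.nu 0)) (Tm.const (J.nu 1)) fun _ => iff_of_false id fun e =>
        zero_ne_one (α := ℕ) (J.inj .n e)))) (J.ν (.w .n) (un _)) b
  refine ⟨V', ⟨f', fun n y => (hf' _ _).trans ⟨fun ⟨_, _, v, c, d⟩ => ((hf n v).1 c ▸ d).uniq (k2 n),
    fun e => e ▸ ⟨J.mem'.2 trivial, k1 n, _, (hf n _).2 rfl, k2 n⟩⟩⟩, fun i => h.gfb (h2 i) (k2 i),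
    fun i j e => ?_, fun n U hU e => ?_⟩
  · obtain ⟨C, D, c, d, e⟩ := h3 i j e
    obtain ⟨U, hU⟩ := ex_pl g a False C
    obtain ⟨W, hW⟩ := ex_pl g a False D
    refine ⟨U, W, (k2 i U).2 ⟨C, c, hU⟩, (k2 j W).2 ⟨D, d, hW⟩, ?_⟩
    rw [few_ext] at e ⊢
    refine (h.fin e).subset fun z ⟨k, l⟩ => ?_
    obtain ⟨y, i, j⟩ := ((hU z).1 k).2.resolve_right fun e => e.1
    obtain ⟨y', i', j'⟩ := ((hW z).1 l).2.resolve_right fun e => e.1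
    exact ⟨y, ⟨i, h.2.1 _ _ _ j' j ▸ i'⟩, j⟩
  · haveI := J.zf.ne
    choose! C c1 c2 using fun i hi => (k2 i _).1 (hU i hi)
    refine h4 n C c1 ?_
    rw [few_ext] at e ⊢
    refine h.fin' (fun y hy => hy.1) (e.subset fun z ⟨y, k, l⟩ => ⟨(h.1 _ _ l).1, fun i hi m => ?_⟩)
    obtain ⟨y', i', j'⟩ := ((c2 i hi z).1 m).2.resolve_right fun e => e.1
    exact k.2 i hi (h.2.1 _ _ _ j' l ▸ i')

theorem Cov.dfbi (h : J.Cov g a Y) (h1 : DFBI J.E J.nu Y) : DFBI J.E J.nu a := by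
  obtain ⟨V, ⟨f, hf⟩, h2⟩ := h1
  obtain ⟨b, hb⟩ := ex_pv g a
  choose V' k1 k2 using fun n i => hb (i = 1) (V n i)
  obtain ⟨f', hf'⟩ := J.zf.rel (R := fun p y => ∃ n i v, IsPair J.E p n i ∧ App J.E f p v ∧
      PV g a (i = J.nu 1) v y)
    (Df.ex' (Df.ex' (Df.ex' ((Df.pair (Tm.var _) (Tm.var _) (Tm.var _)).and ((Df.app (Tm.const _)
      (Tm.var _) (Tm.var _)).and (df_pv g a (Tm.var _) (Tm.var _) (Tm.var _) (Tm.const _)
        fun _ => Iff.rfl)))))) (J.ν (.w (.p .n .n)) (un _)) b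
  have e1 : ∀ i, (J.nu i = J.nu 1) = (i = 1) := fun i => propext (J.inj .n).eq_iff
  refine ⟨V', ⟨f', fun n i a1 a2 a3 y => (J.op_nu (u := .n)).trans ((hf' _ _).trans
    ⟨fun ⟨_, _, n', i', v, c, d, e⟩ => ?_, fun e => e ▸ ⟨J.mem'.2 trivial, k1 n i, _, _, _,
      J.pair .n .n n i, (J.op_nu (u := .n)).1 ((hf n i a1 a2 a3 _).2 rfl), e1 i ▸ k2 n i⟩⟩)⟩,
    fun n hn => ⟨fun i a1 a2 => h.gfb ((h2 n hn).1 i a1 a2) (k2 n i),
      fun i j a1 a2 a3 a4 a5 W G hW hG => ?_, fun U hU => ?_⟩⟩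
  · obtain ⟨rfl, rfl⟩ := J.zf.pair_inj c (J.pair .n .n n i)
    obtain rfl := (hf n i a1 a2 a3 v).1 ((J.op_nu (u := .n)).2 d)
    exact (e1 i ▸ e).uniq (k2 n i)
  · obtain ⟨C, c1, c2⟩ := (k2 n i W).1 hW
    obtain ⟨D, d1, d2⟩ := (k2 n j G).1 hG
    obtain ⟨X, X', x1, x2, x3, x4⟩ := (h2 n hn).2.1 i j a1 a2 a3 a4 a5 C D c1 d1
    obtain ⟨U, hU⟩ := ex_pl g a (2 * i - 1 = 1) X
    obtain ⟨U', hU'⟩ := ex_pl g a (2 * i = 1) X'
    refine ⟨U, U', (k2 _ _ U).2 ⟨X, x1, hU⟩, (k2 _ _ U').2 ⟨X', x2, hU'⟩, ?_⟩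
    have key : ∀ z, J.E z U ∨ J.E z U' → J.E z a ∧ ((∃ y, (J.E y X ∨ J.E y X') ∧ App J.E g z y) ∨
        i = 1 ∧ ¬ ∃ y, App J.E g z y) := by
      rintro z (e | e)
      · exact ((hU z).1 e).imp_right (Or.imp (fun ⟨y, k, l⟩ => ⟨y, Or.inl k, l⟩)
          fun k => ⟨by omega, k.2⟩)
      · exact ((hU' z).1 e).imp_right (Or.imp (fun ⟨y, k, l⟩ => ⟨y, Or.inr k, l⟩)
          fun k => ⟨by omega, k.2⟩)
    rw [few_ext] at x3 x4
    rw [few_ext, few_ext]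
    refine ⟨(h.fin x3).subset fun z ⟨k, l⟩ => ?_, (h.fin x4).subset fun z ⟨k, l⟩ => ?_⟩
    · rcases key z k with ⟨m, ⟨y, i, j⟩ | i⟩
      · exact ⟨y, ⟨i, fun e => l ((c2 z).2 ⟨m, Or.inl ⟨y, e, j⟩⟩)⟩, j⟩
      · exact absurd ((c2 z).2 ⟨m, Or.inr i⟩) l
    · rcases key z k with ⟨m, ⟨y, i, j⟩ | i⟩ <;> rcases ((d2 z).1 l).2 with ⟨y', i', j'⟩ | i'
      · exact ⟨y, ⟨i, h.2.1 _ _ _ j' j ▸ i'⟩, j⟩
      · exact absurd ⟨y, j⟩ i'.2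
      · exact absurd ⟨y', j'⟩ i.2
      · exact absurd (i.1.trans i'.1.symm) a5
  · haveI := J.zf.ne
    choose! C c1 c2 using fun i a1 a2 => (k2 n i _).1 (hU i a1 a2)
    have := (h2 n hn).2.2 C c1
    rw [few_ext] at this ⊢
    refine (h.fin this).subset fun z ⟨k, l⟩ => ?_
    by_cases e : ∃ y, App J.E g z y
    · obtain ⟨y, e⟩ := e
      exact ⟨y, ⟨(h.1 _ _ e).2, fun i a1 a2 m => l i a1 a2 ((c2 i a1 a2 z).2
        ⟨k, Or.inl ⟨y, m, e⟩⟩)⟩, e⟩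
    · exact absurd ((c2 1 le_rfl Nat.one_le_two_pow z).2 ⟨k, Or.inr ⟨rfl, e⟩⟩)
        (l 1 le_rfl Nat.one_le_two_pow)

end JS

end

namespace Tr

variable {V : Type} [AddCommGroup V] {Z : AddSubgroup (ℕ → V)} {A : Type} [MulAction (TG Z) A]
  {ι : (ℕ → V) → A}

structure Emb (Z : AddSubgroup (ℕ → V)) {A : Type} [MulAction (TG Z) A] (ι : (ℕ → V) → A) :
    Prop where
  inj : Function.Injective ι
  eqv : ∀ (g : TG Z) x, ι (g • x) = g • ι x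

def Emb.im (h : Emb Z ι) (y : Set (ℕ → V)) (hy : Sym (TG Z) y) : PS (TG Z) A :=
  ⟨ι '' y, sym_of (hy.mono fun g a _ ⟨x, b, c⟩ => ⟨_, (a x).2 b, c ▸ h.eqv g x⟩)⟩

def Emb.pre (h : Emb Z ι) (u : PS (TG Z) A) : PS (TG Z) (ℕ → V) :=
  ⟨ι ⁻¹' u.1, u.2.mono fun g a x => by rw [mem_preimage, h.eqv]; exact a _⟩

theorem s0_diff {n : ℕ} {u : ℕ → V} {B : Set (ℕ → V)} (h : B.Finite) : S0 (cyl n u \ B) :=
  Or.inr ⟨n, u, h.eventually_cofinite_notMem.mono fun _ a => propext (and_iff_left a)⟩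

theorem ex_tr [Nontrivial V] [Fx (TG Z) A] (h2 : ∀ v : V, v + v = 0) (h : Emb Z ι) :
    ∃ J : JS (TG Z) A, ∀ a, ¬ IsFin J.E a → ∃ g, J.Cov g a (J.ν (.w .n) (un _)) ∨
      ∃ n u, ∃ B : Set (ℕ → V), ∃ hB : B.Finite, J.Cov g a (J.sA (h.im _ (sym0 (s0_diff (n := n) (u := u) hB)))) := by
  obtain ⟨J, hJ⟩ := ex_js2 (Λ := TG Z) (A := A) Fx.fx one_mem (t := .w (.p .n (.w .a))) fun S hS => by
    obtain ⟨F, h1, h2, h3⟩ := (ev (p := (· ∈ S))).1 hS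
    obtain ⟨c, hc⟩ := Set.countable_iff_exists_injOn.1 h1.countable
    let D : Set (El (TG Z) A (.p .n (.w .a))) := {z | ∃ y, ∃ hy : y ∈ F,
      z = (c y, h.im y (sym0 (h2 y hy)))}
    have hD : Sym (TG Z) D := sym_fin (by
      have := h1.to_subtype
      exact (finite_range fun y : F => ((c y, h.im y (sym0 (h2 y y.2))) :
        El (TG Z) A (.p .n (.w .a)))).subset fun z ⟨y, a, b⟩ => ⟨⟨y, a⟩, b.symm⟩)
    refine ⟨ps D hD, fun γ e => h3 γ fun y hy x => ?_⟩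
    have := (smul_mem (g := γ) (s := ps D hD)).2 ⟨y, hy, rfl⟩
    rw [show γ • ps D hD = _ from e] at this
    obtain ⟨y', a, b⟩ := this
    obtain rfl := hc hy a (congrArg Prod.fst b)
    have e2 : γ • h.im y (sym0 (h2 y hy)) = _ := congrArg Prod.snd b
    rw [← h.inj.mem_set_image, ← h.inj.mem_set_image (a := x)]
    exact (iff_of_eq (congrArg₂ (· ∈ ·) (h.eqv γ x) (congrArg Subtype.val e2).symm)).trans smul_mem
  refine ⟨J, fun a ha => ?_⟩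
  obtain ⟨s, s1, f, f1, f2⟩ := (hJ a).resolve_left ha
  rcases dich h2 fix s.2 s1 with ⟨n, u, B, hB, φ, a1, a2, a3⟩ | ⟨O, a1, a2, a3⟩
  · obtain ⟨g, hg⟩ := J.cov_of (u := .a) (Y := h.im _ (sym0 (s0_diff (n := n) (u := u) hB))) f1 f2
      (ps {z | ∃ c ∈ cyl n u \ B, z = (φ c, ι c)} (sym_of (by
        filter_upwards [a3, sym0 (Z := Z) (s0_diff (n := n) (u := u) hB)] with g b c
        rintro _ ⟨x, d, rfl⟩
        exact ⟨_, (c x).2 d, Prod.ext (b x).symm (h.eqv g x).symm⟩)))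
      (by rintro _ ⟨c, b, rfl⟩; exact ⟨_, a2 c b, c, b, rfl⟩)
      (fun x y y' ⟨c, b, e⟩ ⟨c', b', e'⟩ => by
        obtain ⟨rfl, rfl⟩ := Prod.ext_iff.1 e
        obtain ⟨k, rfl⟩ := Prod.ext_iff.1 e'
        exact congrArg ι (a1 b b' k))
      fun y => Subsingleton.finite fun x ⟨c, b, e⟩ x' ⟨c', b', e'⟩ => by
        obtain ⟨rfl, rfl⟩ := Prod.ext_iff.1 e
        obtain ⟨rfl, k⟩ := Prod.ext_iff.1 e'
        exact congrArg φ (h.inj k)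
    exact ⟨g, Or.inr ⟨n, u, B, hB, hg⟩⟩
  · obtain ⟨g, hg⟩ := J.cov_of (u := .n) (Y := un _) f1 f2 (ps {z | z.1 ∈ O z.2}
      (sym_of (a3.mono fun g b z c => b _ _ c)))
      (fun k _ => (a1 k).2.1.imp fun x b => ⟨(a1 k).2.2 b, b⟩) (fun x k l => a2 k l x)
      fun k => (a1 k).1
    exact ⟨g, Or.inl hg⟩

end Tr

end Pool.Agent.H40.Js
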