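import Pool.Agent.H40.Tr2

set_option autoImplicit false

/-! Traces of neighbourhood filters in compactifications of discrete spaces. -/

namespace Pool.Agent.H40.Js

open Set Filter
open Pool.Agent.H40.Bspt Pool.Agent.H40.Jz

variable {Λ : Type} [Group Λ] [NF Λ] {A : Type} [MulAction Λ A] {J : JS Λ A}

namespace JS

theorem not_amorph {t : Ty} {s y : PS Λ (El Λ A t)} (h : y.1 ⊆ s.1) (h1 : y.1.Infinite)
    (h2 : (s.1 \ y.1).Infinite) : ¬ Amorph J.E (J.ν (.w t) s) := fun e =>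
  h2 (((J.few_ext.1 (e.2 _ (J.sub_iff.2 h) fun f => h1 (J.fin_iff.1 f))).preimage
    (J.inj t).injOn).subset fun _ a => ⟨J.mem'.2 a.1, fun b => a.2 (J.mem'.1 b)⟩)

theorem top_inter {K T U W : J.M} (h : IsTop J.E K T) (a : J.E U T) (b : J.E W T) :
    ∃ I, J.E I T ∧ ∀ z, J.E z I ↔ J.E z U ∧ J.E z W := by
  obtain ⟨I, hI⟩ := J.zf.sepD' (P := fun z => J.E z W) (Df.mem' (Tm.var _) (Tm.const _)) U
  exact ⟨I, h.2.2.1 _ _ _ a b hI, hI⟩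

theorem fin_nhd {K T z : J.M} (h : IsTop J.E K T) (h' : T2 J.E K T) (hz : J.E z K) {S : Set J.M}
    (hS : S.Finite) (h1 : ∀ y ∈ S, J.E y K ∧ y ≠ z) :
    ∃ W, J.E W T ∧ J.E z W ∧ ∀ y ∈ S, ¬ J.E y W := by
  induction S, hS using Set.Finite.induction_on with
  | empty => exact ⟨K, h.2.1, hz, fun _ h => h.elim⟩
  | @insert y S _ _ ih =>
    obtain ⟨W, a, b, c⟩ := ih fun y hy => h1 y (Or.inr hy)
    obtain ⟨d, e⟩ := h1 y (Or.inl rfl)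
    obtain ⟨U, U', k1, k2, k3, k4, k5⟩ := h' y z d hz e
    obtain ⟨I, i1, i2⟩ := top_inter h a k2
    exact ⟨I, i1, (i2 z).2 ⟨b, k4⟩, forall_mem_insert.2 ⟨fun f => k5 y d k3 ((i2 y).1 f).2,
      fun w hw f => c w hw ((i2 w).1 f).1⟩⟩

variable {D K T : J.M} {h : Ex J.E D → Ex J.E K}

theorem cpt_isol (hc : Cpt J.E D K T h) (a : Ex J.E D) :
    ∃ U, J.E U T ∧ J.E (h a).1 U ∧ ∀ y, J.E y U → y = (h a).1 := by
  obtain ⟨U, h1, h2, h3⟩ := hc.2.2.2.2.1 a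
  refine ⟨U, h1, h2, fun y hy => by_contra fun e => ?_⟩
  obtain ⟨W, k1, k2, k3⟩ := fin_nhd hc.1 hc.2.2.1 (hc.1.1 U h1 y hy) (finite_singleton (h a).1)
    fun w hw => hw ▸ ⟨(h a).2, Ne.symm e⟩
  obtain ⟨I, i1, i2⟩ := top_inter hc.1 h1 k1
  obtain ⟨b, hb⟩ := hc.2.2.2.2.2 I i1 ⟨y, (i2 y).2 ⟨hy, k2⟩⟩
  exact k3 _ rfl (h3 b ((i2 _).1 hb).1 ▸ ((i2 _).1 hb).2)

theorem scat_of_fin (hc : Cpt J.E D K T h) (hf : {z | J.E z K ∧ ∀ a, (h a).1 ≠ z}.Finite) :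
    Scattered J.E K T := by
  rintro Y hY ⟨z, hz⟩
  by_cases e : ∃ a, J.E (h a).1 Y
  · obtain ⟨a, e⟩ := e
    obtain ⟨U, h1, h2, h3⟩ := cpt_isol hc a
    exact ⟨_, e, U, h1, h2, fun y _ => h3 y⟩
  · obtain ⟨W, k1, k2, k3⟩ := fin_nhd hc.1 hc.2.2.1 (hY z hz) (S := {y | J.E y Y ∧ y ≠ z})
      (hf.subset fun y hy => ⟨hY y hy.1, fun a f => e ⟨a, f ▸ hy.1⟩⟩) fun y hy => ⟨hY y hy.1, hy.2⟩
    exact ⟨z, hz, W, k1, k2, fun y a b => by_contra fun f => k3 y ⟨a, f⟩ b⟩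

/-- `U` contains the trace of a neighbourhood of `z` -/
def Nb (D T f z U : J.M) : Prop := ∃ W, J.E W T ∧ J.E z W ∧
  ∀ x y, J.E x D → App J.E f x y → J.E y W → J.E x U

theorem df_nb {α : Type} (D T f : J.M) {s t : (α → J.M) → J.M} (hs : Tm s) (ht : Tm t) :
    Df J.E α fun v => Nb D T f (s v) (t v) := by
  obtain ⟨s, rfl⟩ := hs
  obtain ⟨t, rfl⟩ := ht
  simp only [Nb]
  rcases s with s | s <;> rcases t with t | t <;> simp only [Sum.elim_inl, Sum.elim_inr, id] <;>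
  repeat' first | exact Tm.var _ | exact Tm.const _ | apply Df.app | apply Df.mem' | apply Df.and | apply Df.ex' | apply Df.all' | apply Df.imp

/-- The filters given by the points of a compactification. -/
theorem traces {s : PS Λ A} {K T : J.M} {h : Ex J.E (J.sA s) → Ex J.E K}
    (hc : Cpt J.E (J.sA s) K T h) : ∃ F : J.M → Filter A,
      (∀ z, J.E z K → (F z).NeBot ∧ s.1 ∈ F z ∧ ((∀ a, (h a).1 ≠ z) → F z ≤ cofinite) ∧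
        (∀ t ∈ F z, ∃ u : PS Λ A, u.1 ⊆ t ∧ u.1 ∈ F z) ∧
        ∀ z', J.E z' K → z ≠ z' → Disjoint (F z) (F z')) ∧
      ∀ (t : Ty) (φ : J.M), ∀ᶠ g in NF.F (Γ := Λ), ∀ z x, App J.E φ z (J.ν t x) →
        ∃ z', App J.E φ z' (J.ν t (g • x)) ∧ (J.E z K → J.E z' K → Tendsto (g • ·) (F z) (F z')) := by
  classical
  obtain ⟨f, hf⟩ := hc.2.2.2.1
  beta_reduce at hf
  let τ : J.M → Set A := fun W => {x | ∃ hx : x ∈ s.1, J.E (h (J.eA s ⟨x, hx⟩)).1 W}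
  have sy : ∀ W, Sym Λ (τ W) := fun W => by
    have := J.sym_df (t := .a) (P := fun x => J.E x (J.sA s) ∧ ∃ y, App J.E f x y ∧ J.E y W)
      (by repeat' first | exact Tm.var _ | exact Tm.const _ | apply Df.app | apply Df.mem' | apply Df.and | apply Df.ex')
    rwa [show {x : El Λ A .a | J.E (J.ν .a x) (J.sA s) ∧ ∃ y, App J.E f (J.ν .a x) y ∧ J.E y W} = τ W
      from Set.ext fun x => ⟨fun ⟨a, y, b, c⟩ => ⟨J.memA.1 a, (hf (J.eA s ⟨x, J.memA.1 a⟩) y).1 b ▸ c⟩,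
        fun ⟨a, b⟩ => ⟨J.memA.2 a, _, (hf (J.eA s ⟨x, a⟩) _).2 rfl, b⟩⟩] at this
  let F : J.M → Filter A := fun z => if hz : J.E z K then
    ⟨{t | ∃ W, J.E W T ∧ J.E z W ∧ τ W ⊆ t}, ⟨K, hc.1.2.1, hz, subset_univ _⟩,
      fun ⟨W, a, b, c⟩ d => ⟨W, a, b, c.trans d⟩, fun ⟨W, a, b, c⟩ ⟨W', a', b', c'⟩ => by
        obtain ⟨I, i1, i2⟩ := top_inter hc.1 a a'
        exact ⟨I, i1, (i2 z).2 ⟨b, b'⟩, fun x ⟨d, e⟩ =>
          ⟨c ⟨d, ((i2 _).1 e).1⟩, c' ⟨d, ((i2 _).1 e).2⟩⟩⟩⟩ else ⊤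
  have mF : ∀ z, J.E z K → ∀ t, t ∈ F z ↔ ∃ W, J.E W T ∧ J.E z W ∧ τ W ⊆ t := fun z hz t => by
    simp only [F, dif_pos hz]; rfl
  have nb : ∀ z, J.E z K → ∀ u : PS Λ A, Nb (J.sA s) T f z (J.sA u) ↔ u.1 ∈ F z := fun z hz u =>
    (exists_congr fun W => and_congr_right' (and_congr_right' ⟨fun a x ⟨b, c⟩ => J.memA.1
      (a _ _ (J.memA.2 b) ((hf (J.eA s ⟨x, b⟩) _).2 rfl) c), fun a x y b c d => by
        obtain ⟨x, e, rfl⟩ := J.elA b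
        exact J.memA.2 (a ⟨e, (hf (J.eA s ⟨x, e⟩) y).1 c ▸ d⟩)⟩)).trans (mF z hz _).symm
  have sF : ∀ z, J.E z K → ∀ t ∈ F z, ∃ u : PS Λ A, u.1 ⊆ t ∧ u.1 ∈ F z := fun z hz t ht => by
    obtain ⟨W, a, b, c⟩ := (mF z hz t).1 ht
    exact ⟨⟨_, sy W⟩, c, (mF z hz _).2 ⟨W, a, b, subset_rfl⟩⟩
  refine ⟨F, fun z hz => ⟨forall_mem_nonempty_iff_neBot.1 fun t ht => ?_,
    (mF z hz _).2 ⟨K, hc.1.2.1, hz, fun _ a => a.1⟩, fun hr t ht => ?_, sF z hz,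
    fun z' hz' e => ?_⟩, fun t φ => ?_⟩
  · obtain ⟨W, a, b, c⟩ := (mF z hz t).1 ht
    obtain ⟨x, d⟩ := hc.2.2.2.2.2 W a ⟨z, b⟩
    obtain ⟨x, rfl⟩ := (J.eA s).surjective x
    exact ⟨x.1, c ⟨x.2, d⟩⟩
  · obtain ⟨W, a, b, c⟩ := fin_nhd hc.1 hc.2.2.1 hz
      (S := (fun x => (h (J.eA s x)).1) '' (Subtype.val ⁻¹' tᶜ))
      ((Finite.preimage Subtype.val_injective.injOn ht).image _) (by
        rintro _ ⟨x, -, rfl⟩
        exact ⟨(h _).2, hr _⟩)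
    exact (mF z hz t).2 ⟨W, a, b, fun x ⟨d, e⟩ => by_contra fun k => c _ ⟨⟨x, d⟩, k, rfl⟩ e⟩
  · obtain ⟨U, W, a, b, c, d, k⟩ := hc.2.2.1 z z' hz hz' e
    exact Filter.disjoint_iff.2 ⟨_, (mF z hz _).2 ⟨U, a, c, subset_rfl⟩, _,
      (mF z' hz' _).2 ⟨W, b, d, subset_rfl⟩, Set.disjoint_left.2 fun x ⟨i, j⟩ ⟨_, l⟩ => k _ (h _).2 j l⟩
  · filter_upwards [J.sym_df (t := .p t (.w (.w .a))) (P := fun p => ∃ z x w, IsPair J.E p x w ∧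
      App J.E φ z x ∧ ∀ U, J.E U (J.fA (un (A := A) (.w .a))) → (J.E U w ↔ Nb (J.sA s) T f z U))
      (Df.ex' (Df.ex' (Df.ex' ((Df.pair (Tm.var _) (Tm.var _) (Tm.var _)).and ((Df.app (Tm.const _)
        (Tm.var _) (Tm.var _)).and (Df.all' ((Df.mem' (Tm.var _) (Tm.const _)).imp
          ((Df.mem' (Tm.var _) (Tm.var _)).iff (df_nb _ _ _ (Tm.var _) (Tm.var _))))))))))]
      with g hg z x a
    let w : PS Λ (PS Λ A) := ⟨_, J.sym_df (t := .w .a) (df_nb (J.sA s) T f (Tm.const z) (Tm.var ()))⟩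
    obtain ⟨z', x', w', b, c, d⟩ := (hg (x, w)).2 ⟨z, _, _, J.pair t (.w (.w .a)) x w, a,
      J.allS.2 fun u _ => J.memS (s := w)⟩
    obtain ⟨rfl, rfl⟩ := J.zf.pair_inj b (J.pair t (.w (.w .a)) (g • x) (g • w))
    refine ⟨z', c, fun hz hz' t ht => ?_⟩
    obtain ⟨u, i, j⟩ := sF z' hz' t ht
    have := (nb z hz _).1 (J.memS.1 ((J.allS.1 d u trivial).2 ((nb z' hz' u).2 j)))
    exact mem_map.2 (mem_of_superset this fun y hy => i (by simpa [mem_smul] using hy))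

end JS

end Pool.Agent.H40.Js
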