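import Pool.Agent.H40.Tr2
import Pool.Agent.H40.Js9

set_option autoImplicit false

/-! Filterbases of classes modulo finite sets inside typed sets. -/

namespace Pool.Agent.H40.Js

open Set Filter
open Pool.Agent.H40.Bspt Pool.Agent.H40.Jz

variable {Λ : Type} [Group Λ] [NF Λ] {A : Type} [MulAction Λ A] {J : JS Λ A} {t : Ty}

theorem smul_cof {X : Type} [MulAction Λ X] (g : Λ) : Tendsto (fun x : X => g • x) cofinite cofinite :=
  (MulAction.injective g).tendsto_cofinite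

theorem cl_aux {X : Type} [MulAction Λ X] {s U : PS Λ X} {c : Set X} {g : Λ}
    (a : ∀ x, g⁻¹ • x ∈ s.1 ↔ x ∈ s.1) (b : ∀ᶠ x in cofinite, g⁻¹ • x ∈ c ↔ x ∈ c)
    (h : U.1 ⊆ s.1 ∧ U.1 =ᶠ[cofinite] c) : (g • U).1 ⊆ s.1 ∧ (g • U).1 =ᶠ[cofinite] c :=
  ⟨fun x hx => (a x).1 (h.1 hx), by
    filter_upwards [(smul_cof g⁻¹).eventually h.2, b] with x d e using d.trans (propext e)⟩

def cl (s c : PS Λ (El Λ A t)) : PS Λ (El Λ A (.w t)) :=
  ⟨{U : PS Λ (El Λ A t) | U.1 ⊆ s.1 ∧ U.1 =ᶠ[cofinite] c.1}, sym_of (X := PS Λ (El Λ A t)) (by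
    filter_upwards [NF.inv.eventually s.2, NF.inv.eventually c.2] with g a b U
    exact cl_aux a (Eventually.of_forall b))⟩

theorem cl_fix {ι : Type} (s : PS Λ (El Λ A t)) {c : ι → PS Λ (El Λ A t)}
    (h : ∀ᶠ g in NF.F (Γ := Λ), ∀ k, ∀ᶠ x in cofinite, g • x ∈ (c k).1 ↔ x ∈ (c k).1) :
    ∀ᶠ g in NF.F (Γ := Λ), ∀ k, g • cl s (c k) = cl s (c k) := by
  filter_upwards [s.2, h, NF.inv.eventually s.2, NF.inv.eventually h] with g a b a' b' k
  refine Subtype.ext (Set.ext fun U : PS Λ (El Λ A t) => ⟨fun e => ?_,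
    cl_aux (X := El Λ A t) (by simpa using a) (by simpa using b k)⟩)
  have := cl_aux (U := g⁻¹ • U) a' (b' k) e
  rwa [smul_inv_smul] at this

namespace JS

theorem few_t {P : J.M → Prop} (h : ∀ z, P z → ∃ a, z = J.ν t a) :
    Few J.E P ↔ {a | P (J.ν t a)}.Finite :=
  J.few_ext.trans ⟨fun e => e.preimage (J.inj t).injOn, fun e => (e.image (J.ν t)).subset fun z hz =>
    let ⟨x, a⟩ := h z hz; ⟨x, (a ▸ hz : P (J.ν t x)), a.symm⟩⟩

theorem is_t {s : PS Λ (El Λ A t)} {z : J.M} (h : J.E z (J.ν (.w t) s)) : ∃ a, z = J.ν t a :=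
  ((J.mem _ _ _).1 h).imp fun _ a => a.2

theorem el_cl {s c : PS Λ (El Λ A t)} {U : J.M} (h : J.E U (J.ν (.w (.w t)) (cl s c))) :
    ∃ u : PS Λ (El Λ A t), (u.1 ⊆ s.1 ∧ u.1 =ᶠ[cofinite] c.1) ∧ U = J.ν (.w t) u :=
  (J.mem (.w t) _ _).1 h

theorem mem_cl {s c : PS Λ (El Λ A t)} (h : c.1 ⊆ s.1) :
    J.E (J.ν (.w t) c) (J.ν (.w (.w t)) (cl s c)) := (J.mem' (t := .w t)).2 ⟨h, .rfl⟩

theorem gfb_cl {s c : PS Λ (El Λ A t)} (h : c.1 ⊆ s.1) (hc : c.1.Infinite) :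
    Gfb J.E (J.ν (.w t) s) (J.ν (.w (.w t)) (cl s c)) := by
  have inf : ∀ U, J.E U (J.ν (.w (.w t)) (cl s c)) → ¬ IsFin J.E U := fun U hU e => by
    obtain ⟨u, a, rfl⟩ := el_cl hU
    exact hc (fin_ae a.2.symm (J.fin_iff.1 e))
  have int : ∀ U W Z, J.E U (J.ν (.w (.w t)) (cl s c)) → J.E W (J.ν (.w (.w t)) (cl s c)) →
      (∀ x, J.E x Z ↔ J.E x U ∧ J.E x W) → J.E Z (J.ν (.w (.w t)) (cl s c)) := by
    intro U W Z hU hW e
    obtain ⟨U, a, rfl⟩ := el_cl hU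
    obtain ⟨W, b, rfl⟩ := el_cl hW
    obtain ⟨Z, d, rfl⟩ := J.sub' (s := U) (a := Z) fun z hz => ((e z).1 hz).1
    have : Z.1 = U.1 ∩ W.1 := Set.ext fun x => by rw [← J.mem', e, J.mem', J.mem']; rfl
    exact (J.mem' (t := .w t)).2 ⟨d.trans a.1, by rw [this, ← inter_self c.1]; exact a.2.inter b.2⟩
  refine ⟨⟨⟨_, mem_cl h⟩, fun U hU => ⟨?_, by_contra fun e => inf U hU (J.zf.fin0 fun y hy =>
    e ⟨y, hy⟩)⟩, fun U W hU hW => ?_⟩, fun U W Z hU hW e => ?_, int, inf, fun U W hU hW => ?_⟩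
  · obtain ⟨u, a, rfl⟩ := el_cl hU
    exact J.sub_iff.2 a.1
  · obtain ⟨I, hI⟩ := J.zf.sepD' (P := fun z => J.E z W) (Df.mem' (Tm.var _) (Tm.const _)) U
    exact ⟨I, int _ _ _ hU hW hI, fun z hz => ((hI z).1 hz).1, fun z hz => ((hI z).1 hz).2⟩
  all_goals
    obtain ⟨U, a, rfl⟩ := el_cl hU
    obtain ⟨W, b, rfl⟩ := el_cl hW
  · obtain ⟨Z, d, rfl⟩ := J.sub' (s := s) (a := Z) fun z hz =>
      ((e z).1 hz).elim (J.sub_iff.2 a.1 z) (J.sub_iff.2 b.1 z)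
    have : Z.1 = U.1 ∪ W.1 := Set.ext fun x => by rw [← J.mem', e, J.mem', J.mem']; rfl
    exact (J.mem' (t := .w t)).2 ⟨d, by rw [this, ← union_self c.1]; exact a.2.union b.2⟩
  · rw [few_t fun z h => is_t h.1]
    simp only [J.mem']
    exact Finite.subset (a.2.trans b.2.symm) fun x hx e => hx.2 (Eq.mp e hx.1)

theorem sfbi_of {s : PS Λ (El Λ A t)} (c : ℕ → PS Λ (El Λ A t)) (h1 : ∀ k, (c k).1 ⊆ s.1)
    (h2 : ∀ k, (c k).1.Infinite) (h3 : ∀ i j, i ≠ j → ∀ x ∈ (c i).1, x ∉ (c j).1)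
    (h4 : ∀ᶠ g in NF.F (Γ := Λ), ∀ k, ∀ᶠ x in cofinite, g • x ∈ (c k).1 ↔ x ∈ (c k).1) :
    SFBI J.E J.nu (J.ν (.w t) s) := by
  refine ⟨fun k => J.ν (.w (.w t)) (cl s (c k)), J.seq_of (t := .w (.w t)) (cl_fix s h4),
    fun k => gfb_cl (h1 k) (h2 k), fun i j e => ⟨_, _, mem_cl (h1 i), mem_cl (h1 j), ?_⟩,
    fun n U hU e => h2 n ?_⟩
  · rw [few_t fun z h => is_t h.1]
    simp only [J.mem']
    exact finite_empty.subset fun x a => h3 i j e x a.1 a.2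
  · have : Nonempty (PS Λ (El Λ A t)) := ⟨s⟩
    choose! u a b using fun i hi => el_cl (hU i hi)
    rw [few_t fun z h => is_t h.1] at e
    refine (e.union ((eventually_all_finite (finite_lt_nat n)).2 fun i hi => (a i hi).2)).subset
      fun x hx => or_iff_not_imp_right.2 fun k => ⟨J.mem'.2 (h1 n hx), fun i hi l => ?_⟩
    rw [b i hi, J.mem'] at l
    exact h3 n i (Nat.ne_of_gt hi) x hx (Eq.mp (not_not.1 k i hi) l)

open Classical in
noncomputable def dy (b : ℕ → Prop) : ℕ → ℕ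
  | 0 => 1
  | n + 1 => 2 * dy b n - if b n then 1 else 0

theorem dy_bd (b : ℕ → Prop) (n : ℕ) : 1 ≤ dy b n ∧ dy b n ≤ 2 ^ n := by
  induction n with
  | zero => simp [dy]
  | succ n ih => rw [dy]; split_ifs <;> omega

theorem dy_congr {b b' : ℕ → Prop} {n : ℕ} : dy b n = dy b' n ↔ ∀ k < n, b k ↔ b' k := by
  induction n with
  | zero => simp [dy]
  | succ n ih =>
    have := dy_bd b n
    have := dy_bd b' n
    rw [Nat.forall_lt_succ_right, ← ih, dy, dy]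
    split_ifs with h1 h2 h2 <;> simp only [h1, h2, iff_self, and_true, iff_false, iff_true,
      not_true, and_false] <;> omega

theorem dy_surj (n : ℕ) : ∀ i, 1 ≤ i → i ≤ 2 ^ n → ∃ b, dy b n = i := by
  classical
  induction n with
  | zero => exact fun i a b => ⟨fun _ => True, by simp [dy]; omega⟩
  | succ n ih =>
    intro i h1 h2
    obtain ⟨b, hb⟩ := ih ((i + 1) / 2) (by omega) (by omega)
    refine ⟨Function.update b n (i % 2 = 1), ?_⟩
    rw [dy, Function.update_self, (dy_congr (b' := b)).2 fun k hk => by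
      rw [Function.update_of_ne hk.ne], hb]
    split_ifs <;> omega

theorem dfbi_of {s : PS Λ (El Λ A t)} (β : El Λ A t → ℕ → Prop)
    (h1 : ∀ n (p : ℕ → Prop), Sym Λ {x ∈ s.1 | ∀ k < n, β x k ↔ p k})
    (h2 : ∀ n (p : ℕ → Prop), {x ∈ s.1 | ∀ k < n, β x k ↔ p k}.Infinite)
    (h4 : ∀ (g : Λ) k, ∀ᶠ x in cofinite, β (g • x) k ↔ β x k) :
    DFBI J.E J.nu (J.ν (.w t) s) := by
  let c : ℕ × ℕ → PS Λ (El Λ A t) := fun p => ⟨{x ∈ s.1 | dy (β x) p.1 = p.2}, by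
    by_cases h : ∃ b, dy b p.1 = p.2
    · obtain ⟨b, h⟩ := h
      simpa only [← h, dy_congr] using h1 p.1 b
    · exact sym_all fun _ x a => (h ⟨_, a.2⟩).elim⟩
  have fx := cl_fix s (c := c) (s.2.mono fun g a p => ((eventually_all_finite (finite_lt_nat p.1)).2
    fun k _ => h4 g k).mono fun x b => and_congr (a x) (by rw [dy_congr.2 b]))
  obtain ⟨f, hf⟩ := J.intl2_of (s := .n) (t := .n) (u := .w (.w t))
    (φ := fun z w : Om J.E => J.ν (.w (.w t)) (cl s (c (J.omE.symm z, J.omE.symm w)))) univ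
    (fun p => cl s (c p)) (fx.mono fun g a x _ => ⟨trivial, (a x).symm⟩) fun z w =>
      ⟨(_, _), trivial, J.omE_symm z, J.omE_symm w, rfl⟩
  have sb : ∀ p, (c p).1 ⊆ s.1 := fun _ _ a => a.1
  refine ⟨fun n i => J.ν (.w (.w t)) (cl s (c (n, i))), ⟨f, fun n i _ _ _ y => by
    simpa [JS.omE_val, JS.nu] using hf (J.omE n) (J.omE i) y⟩, fun n _ => ⟨fun i a b => ?_,
      fun i j a1 a2 _ _ e W G hW hG => ⟨_, _, mem_cl (sb _), mem_cl (sb _), ?_⟩, fun U hU => ?_⟩⟩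
  · obtain ⟨p, rfl⟩ := dy_surj n i a b
    exact gfb_cl (sb _) ((h2 n p).mono fun x d => ⟨d.1, dy_congr.2 d.2⟩)
  · obtain ⟨W, a, rfl⟩ := el_cl hW
    obtain ⟨G, b, rfl⟩ := el_cl hG
    rw [few_t fun z h => h.1.elim is_t is_t, few_t fun z h => h.1.elim is_t is_t]
    simp only [J.mem']
    have key : ∀ x, x ∈ (c (n + 1, 2 * i - 1)).1 ∨ x ∈ (c (n + 1, 2 * i)).1 → x ∈ (c (n, i)).1 := by
      have := fun x => dy_bd (β x) n
      rintro x (⟨d, e⟩ | ⟨d, e⟩) <;> refine ⟨d, ?_⟩ <;> have := this x <;> simp only [dy] at e ⊢ <;>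
        split_ifs at e <;> omega
    exact ⟨Finite.subset a.2 fun x d k => d.2 (Eq.mpr k (key x d.1)),
      Finite.subset b.2 fun x d k => e ((key x d.1).2.symm.trans (Eq.mp k d.2).2)⟩
  · have : Nonempty (PS Λ (El Λ A t)) := ⟨s⟩
    choose! u a b using fun i h1 h2 => el_cl (hU i h1 h2)
    rw [few_t fun z h => is_t h.1]
    refine Finite.subset ((eventually_all_finite (finite_Icc 1 (2 ^ n))).2
      fun i hi => (a i hi.1 hi.2).2) fun x hx k => ?_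
    have d := dy_bd (β x) n
    exact hx.2 _ d.1 d.2 (b _ d.1 d.2 ▸ J.mem'.2 (Eq.mpr (k _ d) ⟨J.mem'.1 hx.1, rfl⟩))

theorem sfbi_om : SFBI J.E J.nu (J.ν (.w .n) (un _)) :=
  sfbi_of (fun k => ps {x : ℕ | x.unpair.1 = k} (sym_all fun _ _ a => a)) (fun _ => subset_univ _)
    (fun k => infinite_of_injective_forall_mem (f := Nat.pair k)
      (fun a b e => (Nat.pair_eq_pair.1 e).2) fun a => congrArg Prod.fst (Nat.unpair_pair k a))
    (fun i j e x a b => e (a.symm.trans b)) (.of_forall fun _ _ => .of_forall fun _ => Iff.rfl)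

theorem dfbi_om : DFBI J.E J.nu (J.ν (.w .n) (un _)) := by
  classical
  let e := Denumerable.eqv (Finset ℕ × ℕ)
  exact dfbi_of (fun (x : ℕ) k => k ∈ (e.symm x).1) (fun _ _ => sym_all fun _ _ a => a)
    (fun n p => infinite_of_injective_forall_mem (f := fun m => e ((Finset.range n).filter p, m))
      (fun a b h => (Prod.ext_iff.1 (e.injective h)).2) fun m => ⟨trivial, fun k hk => by simp [hk]⟩)
    fun _ _ => .of_forall fun _ => Iff.rfl

end JS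

end Pool.Agent.H40.Js
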