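import Pool.Agent.H40.Tr4

set_option autoImplicit false

/-! Invariant filters on sequence spaces over a countably infinite group. -/

namespace Pool.Agent.H40.Js

open Set Filter

namespace Tr

variable {V : Type} [AddCommGroup V] {Z : AddSubgroup (ℕ → V)}

def Sim2 (W : Set V) (x y : ℕ → V) : Prop := ∃ k, y ∈ cyl k x ∧ x k ∉ W ∧ y k ∉ W

omit [AddCommGroup V] in
theorem sim2_cyl {W : Set V} {x y u : ℕ → V} {n : ℕ} (h : Sim2 W x y) (h' : u '' Iio n ⊆ W) :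
    x ∈ cyl n u ↔ y ∈ cyl n u := by
  obtain ⟨k, a, b, c⟩ := h
  rcases lt_or_ge k n with e | e
  · exact iff_of_false (fun f => b (h' ⟨k, e, (f k e).symm⟩)) fun f => c (h' ⟨k, e, (f k e).symm⟩)
  · exact forall₂_congr fun i hi => by rw [a i (hi.trans_le e)]

theorem tame2 {F : Set (Set (ℕ → V))} (h1 : F.Finite) (h2 : ∀ y ∈ F, S0 y) :
    ∃ (W : Set V) (B : Set (ℕ → V)), W.Finite ∧ B.Finite ∧
      ∀ x ∉ B, ∀ x' ∉ B, Sim2 W x x' → ∀ y ∈ F, x ∈ y ↔ x' ∈ y := by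
  induction F, h1 using Set.Finite.induction_on with
  | empty => exact ⟨∅, ∅, finite_empty, finite_empty, fun _ _ _ _ _ _ h => h.elim⟩
  | @insert y F _ _ ih =>
    obtain ⟨W, B, a, b, c⟩ := ih fun z hz => h2 z (Or.inr hz)
    rcases h2 y (Or.inl rfl) with h | ⟨n, u, h⟩
    · exact ⟨W, _, a, b.union h, fun x d x' d' e => forall_mem_insert.2
        ⟨iff_of_false (fun f => d (Or.inr f)) fun f => d' (Or.inr f),
          c x (fun f => d (Or.inl f)) x' (fun f => d' (Or.inl f)) e⟩⟩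
    · refine ⟨_, _, a.union ((finite_lt_nat n).image u), b.union h, fun x d x' d' e =>
        forall_mem_insert.2 ⟨?_, c x (fun f => d (Or.inl f)) x' (fun f => d' (Or.inl f))
          (e.imp fun k f => ⟨f.1, fun g => f.2.1 (Or.inl g), fun g => f.2.2 (Or.inl g)⟩)⟩⟩
      rw [show (x ∈ y) = (x ∈ cyl n u) from not_not.1 fun f => d (Or.inr f),
        show (x' ∈ y) = (x' ∈ cyl n u) from not_not.1 fun f => d' (Or.inr f)]
      exact sim2_cyl e subset_union_right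

theorem symU2 (U : PS (TG Z) (ℕ → V)) : ∃ (W : Set V) (B : Set (ℕ → V)), W.Finite ∧
    B.Finite ∧ ∀ x ∉ B, ∀ x' ∉ B, Sim2 W x x' → x ∈ U.1 → x' ∈ U.1 := by
  obtain ⟨F, h1, h2, h3⟩ := ev.1 U.2
  obtain ⟨W, B, a, b, c⟩ := tame2 h1 h2
  exact ⟨W, B, a, b, fun x d x' d' e f => sw_left (Z := Z) x x' ▸
    (h3 _ (pr_sw (c x d x' d' e)) x).2 f⟩

theorem ex_shift [Infinite V] {W : Set V} (h : W.Finite) : ∃ w, ∀ a ∈ W, a + w ∉ W := by
  obtain ⟨w, hw⟩ := (h.image2 (fun a b => a - b) h).exists_notMem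
  exact ⟨w, fun a b c => hw ⟨_, c, a, b, by simp⟩⟩

theorem no_unc [Infinite V] [Countable V] (h2 : ∀ v : V, v + v = 0) {I : Type}
    (F : I → Filter (ℕ → V)) (h0 : ∀ i, (F i).NeBot) (h1 : ∀ i, F i ≤ cofinite)
    (h3 : ∀ i, ∀ t ∈ F i, ∃ u : PS (TG (⊤ : AddSubgroup (ℕ → V))) (ℕ → V), u.1 ⊆ t ∧ u.1 ∈ F i)
    (h4 : ∀ᶠ g in NF.F (Γ := TG (⊤ : AddSubgroup (ℕ → V))), ∀ i, Tendsto (g • ·) (F i) (F i))
    (h5 : ∀ i j, i ≠ j → Disjoint (F i) (F j)) : Countable I := by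
  obtain ⟨S, s1, s2, s3⟩ := ev.1 h4
  obtain ⟨m, hm⟩ := ex_pr (Z := ⊤) h2 s1 s2
  have key : ∀ i, ∃ k ≤ m, ∃ s : ℕ → V, ∀ t ∈ F i, ∃ W : Set V, W.Finite ∧
      ∀ᶠ y in cofinite, y ∈ cyl k s → y k ∉ W → y ∈ t := fun i => by
    have := h0 i
    let 𝒰 := Ultrafilter.of (F i)
    have hU : (𝒰 : Filter (ℕ → V)) ≤ F i := Ultrafilter.of_le _
    have ind : ∀ n, (∃ s, cyl n s ∈ 𝒰) ∨ ∃ k < n, ∃ s, cyl k s ∈ 𝒰 ∧ ∀ v, ∀ᶠ y : ℕ → V in 𝒰, y k ≠ v := by
      intro n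
      induction n with
      | zero => exact Or.inl ⟨0, univ_mem' fun _ _ h => absurd h (by omega)⟩
      | succ n ih =>
        rcases ih with ⟨s, a⟩ | ⟨k, a, b⟩
        · by_cases e : ∀ v, ∀ᶠ y : ℕ → V in 𝒰, y n ≠ v
          · exact Or.inr ⟨n, by omega, s, a, e⟩
          obtain ⟨v, e⟩ := not_forall.1 e
          refine Or.inl ⟨Function.update s n v, mem_of_superset (inter_mem a
            (Ultrafilter.eventually_not.2 e)) fun y b => Nat.forall_lt_succ_right.2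
              ⟨fun j hj => ?_, ?_⟩⟩
          · rw [Function.update_of_ne hj.ne]; exact b.1 j hj
          · rw [Function.update_self]; exact not_not.1 b.2
        · exact Or.inr ⟨k, by omega, b⟩
    obtain ⟨k, k1, s, k2⟩ : ∃ k ≤ m, ∃ s, ∀ u ∈ F i, ∀ W : Set V, W.Finite → ∀ B : Set (ℕ → V),
        B.Finite → ∃ z ∈ u, z ∉ B ∧ z ∈ cyl k s ∧ z k ∉ W := by
      rcases ind m with ⟨s, a⟩ | ⟨k, a, s, b, c⟩
      · refine ⟨m, le_rfl, s, fun u hu W hW B hB => ?_⟩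
        obtain ⟨w, hw⟩ := ex_shift hW
        obtain ⟨g, g1, g2⟩ := hm (Pi.single m w) trivial fun i hi => Pi.single_eq_of_ne hi.ne _
        obtain ⟨y, a1, ⟨a2, a3⟩, a4, a5, a6⟩ := Ultrafilter.nonempty_of_mem (inter_mem a (hU
          (inter_mem (inter_mem hu (s3 g g2 i hu)) (h1 i (g1.and (hB.eventually_cofinite_notMem.and
            ((smul_cof g).eventually hB.eventually_cofinite_notMem)))))))
        by_cases e : y m ∈ W
        · refine ⟨g.1 y, a3, a6, fun j hj => ?_, ?_⟩ <;> rw [a4]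
          · simpa [Pi.single_eq_of_ne hj.ne] using a1 j hj
          · simpa using hw _ e
        · exact ⟨y, a2, a5, a1, e⟩
      · refine ⟨k, a.le, s, fun u hu W hW B hB => ?_⟩
        obtain ⟨y, a1, a2, a3, a4⟩ := Ultrafilter.nonempty_of_mem (inter_mem ((eventually_all_finite
          hW).2 fun v _ => c v) (inter_mem b (hU (inter_mem hu (h1 i hB.eventually_cofinite_notMem)))))
        exact ⟨y, a3, a4, a2, fun e => a1 _ e rfl⟩
    refine ⟨k, k1, s, fun t ht => ?_⟩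
    obtain ⟨u, u1, u2⟩ := h3 i t ht
    obtain ⟨W, B, a, b, c⟩ := symU2 u
    obtain ⟨z, z1, z2, z3, z4⟩ := k2 _ u2 W a B b
    exact ⟨W, a, b.eventually_cofinite_notMem.mono fun y d e f => u1 (c z z2 y d
      ⟨k, fun j hj => (e j hj).trans (z3 j hj).symm, z4, f⟩ z1)⟩
  choose k k1 s k2 using key
  refine Function.Injective.countable (f := fun i => (k i, fun j : Fin m => s i j))
    fun i j e => by_contra fun ne => ?_
  obtain ⟨e1, e2⟩ := Prod.ext_iff.1 e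
  obtain ⟨t, a, t', b, c⟩ := Filter.disjoint_iff.1 (h5 i j ne)
  obtain ⟨W, w1, w2⟩ := k2 i t a
  obtain ⟨W', w3, w4⟩ := k2 j t' b
  obtain ⟨v, hv⟩ := (w1.union w3).exists_notMem
  obtain ⟨y, y1, y2, y3⟩ := ((frequently_cofinite_iff_infinite.2 (cyl_inf (k i + 1)
    (Function.update (s i) (k i) v))).and_eventually (w2.and w4)).exists
  have y4 : y (k i) = v := (y1 _ (by omega)).trans (Function.update_self ..)
  have y5 : y ∈ cyl (k i) (s i) := fun l hl => (y1 l (by omega)).trans (Function.update_of_ne hl.ne ..)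
  rw [← show k i = k j from e1] at y3
  exact Set.disjoint_left.1 c (y2 y5 fun f => hv (Or.inl (y4 ▸ f))) (y3 (fun l hl => (y5 l hl).trans
    (congrFun e2 ⟨l, hl.trans_le (k1 i)⟩)) fun f => hv (Or.inr (y4 ▸ f)))

abbrev V2 : Type := ℕ →₀ ZMod 2

theorem v2 (v : V2) : v + v = 0 := Finsupp.ext fun i => by
  have : ∀ a : ZMod 2, a + a = 0 := by decide
  exact this _

end Tr

end Pool.Agent.H40.Js
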