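import Pool.Agent.H40.Tr3

set_option autoImplicit false

/-! Building compactifications from systems of filters. -/

namespace Pool.Agent.H40.Js

open Set Filter
open Pool.Agent.H40.Bspt Pool.Agent.H40.Jz

variable {Λ : Type} [Group Λ] [NF Λ] {A : Type} [MulAction Λ A] {J : JS Λ A}

namespace JS

theorem pair_not_mem {p x R : J.M} (h : IsPair J.E p x R) : ¬ J.E p R := fun e => by
  obtain ⟨q, hq⟩ := J.zf.pair x R
  obtain ⟨S, -, hS⟩ := J.ex_fin (toFinite ({R, q, p} : Set J.M))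
  obtain ⟨y, a, b⟩ := J.zf.found S ⟨R, (hS _).2 (by simp)⟩
  rcases (hS y).1 a with rfl | rfl | rfl
  · exact b p e ((hS _).2 (by simp))
  · exact b R ((hq R).2 (Or.inr rfl)) ((hS _).2 (by simp))
  · exact b q ((h q).2 (Or.inr hq)) ((hS _).2 (by simp))

def Good (a R τ t W : J.M) : Prop := (∀ z, J.E z R → J.E t z → J.E z W) ∧
  Few J.E fun x => J.E x a ∧ App J.E τ t x ∧ ∀ p, IsPair J.E p x R → ¬ J.E p W

theorem df_good {α : Type} (a R τ : J.M) {s t : (α → J.M) → J.M} (hs : Tm s) (ht : Tm t) :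
    Df J.E α fun v => Good a R τ (s v) (t v) := by
  obtain ⟨s, rfl⟩ := hs
  obtain ⟨t, rfl⟩ := ht
  simp only [Good, Few]
  rcases s with s | s <;> rcases t with t | t <;> simp only [Sum.elim_inl, Sum.elim_inr, id] <;>
  repeat' first | exact Tm.var _ | exact Tm.const _ | apply Df.app | apply Df.mem' | apply Df.fin | apply Df.pair | apply Df.neg | apply Df.and | apply Df.ex' | apply Df.all' | apply Df.imp

theorem build {a R τ : J.M} (f0 : ∃ z, J.E z R) (f0' : ∀ z, J.E z R → ∃ t, J.E t z)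
    (f1 : ∀ z, J.E z R → ∀ t t', J.E t z → J.E t' z → ∃ u, J.E u z ∧
      (∀ z', J.E z' R → J.E u z' → J.E t z' ∧ J.E t' z') ∧
        ∀ x, App J.E τ u x → App J.E τ t x ∧ App J.E τ t' x)
    (f2 : ∀ z, J.E z R → ∀ t, J.E t z → {x | J.E x a ∧ App J.E τ t x}.Infinite)
    (f3 : ∀ z z', J.E z R → J.E z' R → z ≠ z' → ∃ t t', J.E t z ∧ J.E t' z' ∧
      ∀ x, App J.E τ t x → ¬ App J.E τ t' x)
    (f4 : ∀ C, (∀ t, J.E t C → ∃ z, J.E z R ∧ J.E t z) → (∀ z, J.E z R → ∃ t, J.E t C ∧ J.E t z) →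
      ∃ D : Set J.M, D.Finite ∧ (∀ t ∈ D, J.E t C) ∧ (∀ z, J.E z R → ∃ t ∈ D, J.E t z) ∧
        {x | J.E x a ∧ ∀ t ∈ D, ¬ App J.E τ t x}.Finite)
    (f5 : ∀ z, J.E z R → ∀ t, J.E t z → ∃ z', J.E z' R ∧ z' ≠ z ∧ J.E t z') :
    ∃ K T h, Cpt J.E a K T h ∧ ¬ Scattered J.E K T := by
  choose π hπ using fun x => J.zf.exPair x R
  have πi : ∀ {x y}, π x = π y → x = y := fun {x y} e => (J.zf.pair_inj (hπ x) (e ▸ hπ y)).1
  have πR : ∀ x, ¬ J.E (π x) R := fun x => pair_not_mem (hπ x)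
  obtain ⟨K, hK⟩ : ∃ K, ∀ p, J.E p K ↔ J.E p R ∨ ∃ x, J.E x a ∧ p = π x := by
    obtain ⟨r, hr⟩ := J.zf.pair R R
    obtain ⟨c, hc⟩ := J.zf.prod a r
    refine (J.zf.union2 R c).imp fun K h p => (h p).trans (or_congr_right ((hc p).trans
      ⟨fun ⟨x, y, b, d, e⟩ => ⟨x, b, J.zf.pair_uniq e ?_⟩, fun ⟨x, b, e⟩ =>
        ⟨x, R, b, (hr R).2 (Or.inl rfl), e ▸ hπ x⟩⟩))
    rw [((hr y).1 d).elim id id]
    exact hπ x
  have gd : ∀ {t W}, Good a R τ t W ↔ (∀ z, J.E z R → J.E t z → J.E z W) ∧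
      {x | J.E x a ∧ App J.E τ t x ∧ ¬ J.E (π x) W}.Finite := fun {t W} =>
    and_congr_right' (J.few_ext.trans (iff_of_eq (congrArg _ (Set.ext fun x => and_congr_right'
      (and_congr_right' ⟨fun h => h _ (hπ x), fun h p e => J.zf.pair_uniq (hπ x) e ▸ h⟩)))))
  obtain ⟨T, hT⟩ : ∃ T, ∀ W, J.E W T ↔ Sub J.E W K ∧ ∀ z, J.E z R → J.E z W → ∃ t, J.E t z ∧
      Good a R τ t W := by
    obtain ⟨P, hP⟩ := J.zf.power K
    exact (J.zf.sepD' (P := fun W => ∀ z, J.E z R → J.E z W → ∃ t, J.E t z ∧ Good a R τ t W)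
      (Df.all' ((Df.mem' (Tm.var _) (Tm.const _)).imp ((Df.mem' (Tm.var _) (Tm.var _)).imp
        (Df.ex' ((Df.mem' (Tm.var _) (Tm.var _)).and (df_good _ _ _ (Tm.var _) (Tm.var _))))))) P).imp
      fun T h W => (h W).trans (and_congr_left' (hP W))
  have RK : ∀ z, J.E z R → J.E z K := fun z h => (hK z).2 (Or.inl h)
  have sing : ∀ x, J.E x a → ∃ U V, J.E U T ∧ J.E V T ∧ (∀ p, J.E p U ↔ p = π x) ∧
      ∀ p, J.E p V ↔ J.E p K ∧ p ≠ π x := fun x hx => by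
    obtain ⟨U, hU⟩ := J.zf.pair (π x) (π x)
    obtain ⟨V, hV⟩ := J.zf.sepD' (P := fun p => ¬ p = π x) (Df.eq' (Tm.var _) (Tm.const _)).neg K
    simp only [or_self] at hU
    refine ⟨U, V, (hT U).2 ⟨fun p e => (hK p).2 (Or.inr ⟨x, hx, (hU p).1 e⟩), fun z b c =>
      absurd ((hU z).1 c ▸ b) (πR x)⟩, (hT V).2 ⟨fun p e => ((hV p).1 e).1, fun z b _ =>
        (f0' z b).imp fun t c => ⟨c, gd.2 ⟨fun z d _ => (hV z).2 ⟨RK z d, fun e => πR x (e ▸ d)⟩,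
          (finite_singleton x).subset fun y d => by_contra fun e => d.2.2 ((hV _).2
            ⟨(hK _).2 (Or.inr ⟨y, d.1, rfl⟩), fun f => e (πi f)⟩)⟩⟩⟩, hU, hV⟩
  have bas : ∀ t, ∃ W, J.E W T ∧ (∀ z, J.E z R → (J.E z W ↔ J.E t z)) ∧
      ∀ x, J.E x a → (J.E (π x) W ↔ App J.E τ t x) := fun t => by
    obtain ⟨W, hW⟩ := J.zf.sepD' (P := fun p => (J.E p R ∧ J.E t p) ∨ ∃ x, IsPair J.E p x R ∧
      App J.E τ t x) (by repeat' first | exact Tm.var _ | exact Tm.const _ | apply Df.app | apply Df.mem' | apply Df.pair | apply Df.and | apply Df.or | apply Df.ex') K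
    have k1 : ∀ z, J.E z R → (J.E z W ↔ J.E t z) := fun z b => (hW z).trans ⟨fun c => c.2.elim (·.2)
      fun ⟨x, d, _⟩ => absurd b (pair_not_mem d), fun c => ⟨RK z b, Or.inl ⟨b, c⟩⟩⟩
    have k2 : ∀ x, J.E x a → (J.E (π x) W ↔ App J.E τ t x) := fun x b => (hW _).trans ⟨fun c =>
      c.2.elim (fun d => absurd d.1 (πR x)) fun ⟨y, d, e⟩ => (J.zf.pair_inj d (hπ x)).1 ▸ e,
      fun c => ⟨(hK _).2 (Or.inr ⟨x, b, rfl⟩), Or.inr ⟨x, hπ x, c⟩⟩⟩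
    exact ⟨W, (hT W).2 ⟨fun p e => ((hW p).1 e).1, fun z b c => ⟨t, (k1 z b).1 c, gd.2
      ⟨fun z b => (k1 z b).2, finite_empty.subset fun x d => d.2.2 ((k2 x d.1).2 d.2.1)⟩⟩⟩, k1, k2⟩
  refine ⟨K, T, fun x => ⟨π x.1, (hK _).2 (Or.inr ⟨_, x.2, rfl⟩)⟩, ⟨⟨fun U e => ((hT U).1 e).1,
    (hT K).2 ⟨fun _ => id, fun z b _ => (f0' z b).imp fun t c => ⟨c, gd.2 ⟨fun z d _ => RK z d,
      finite_empty.subset fun x d => d.2.2 ((hK _).2 (Or.inr ⟨x, d.1, rfl⟩))⟩⟩⟩,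
    fun U V W hU hV e => (hT W).2 ⟨fun p b => ((hT U).1 hU).1 p ((e p).1 b).1, fun z b c => ?_⟩,
    fun C W hC e => (hT W).2 ⟨fun p b => let ⟨U, c, d⟩ := (e p).1 b; ((hT U).1 (hC U c)).1 p d,
      fun z b c => ?_⟩⟩, fun C hC hc => ?_, fun p q hp hq e => ?_,
    J.zf.intl (R := fun x y => IsPair J.E y x R) (Df.pair (Tm.var _) (Tm.var _) (Tm.const _)) a K
      (·.2) (fun x => (hK _).2 (Or.inr ⟨_, x.2, rfl⟩)) fun x y _ =>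
        ⟨fun e => J.zf.pair_uniq e (hπ _), fun e => e ▸ hπ _⟩, fun x => ?_, fun U hU ⟨p, hp⟩ => ?_⟩,
    fun h => ?_⟩
  · obtain ⟨t, a1, a2⟩ := ((hT U).1 hU).2 z b ((e z).1 c).1
    obtain ⟨t', b1, b2⟩ := ((hT V).1 hV).2 z b ((e z).1 c).2
    obtain ⟨u, c1, c2, c3⟩ := f1 z b t t' a1 b1
    rw [gd] at a2 b2
    refine ⟨u, c1, gd.2 ⟨fun z d k => (e z).2 ⟨a2.1 z d (c2 z d k).1, b2.1 z d (c2 z d k).2⟩,
      (a2.2.union b2.2).subset fun x d => ?_⟩⟩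
    exact (not_and_or.1 (mt (e _).2 d.2.2)).imp (fun k => ⟨d.1, (c3 x d.2.1).1, k⟩)
      fun k => ⟨d.1, (c3 x d.2.1).2, k⟩
  · obtain ⟨U, a1, a2⟩ := (e z).1 c
    obtain ⟨t, b1, b2⟩ := ((hT U).1 (hC U a1)).2 z b a2
    rw [gd] at b2
    exact ⟨t, b1, gd.2 ⟨fun z d k => (e z).2 ⟨U, a1, b2.1 z d k⟩, b2.2.subset fun x d =>
      ⟨d.1, d.2.1, fun k => d.2.2 ((e _).2 ⟨U, a1, k⟩)⟩⟩⟩
  · obtain ⟨S, hS⟩ := J.zf.union R
    obtain ⟨C', hC'⟩ := J.zf.sepD' (P := fun t => ∃ W, J.E W C ∧ Good a R τ t W)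
      (Df.ex' ((Df.mem' (Tm.var _) (Tm.const _)).and (df_good _ _ _ (Tm.var _) (Tm.var _)))) S
    obtain ⟨D, d1, d2, d3, d4⟩ := f4 C' (fun t e => (hS t).1 ((hC' t).1 e).1) fun z b => by
      obtain ⟨W, c, d⟩ := hc z (RK z b)
      obtain ⟨t, e, k⟩ := ((hT W).1 (hC W c)).2 z b d
      exact ⟨t, (hC' t).2 ⟨(hS t).2 ⟨z, b, e⟩, W, c, k⟩, e⟩
    have := J.zf.ne
    choose! w w1 w2 using fun t ht => ((hC' t).1 (d2 t ht)).2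
    choose! v v1 v2 using fun x (hx : J.E x a) => hc (π x) ((hK _).2 (Or.inr ⟨x, hx, rfl⟩))
    have k := d4.union (d1.biUnion fun t ht => (gd.1 (w2 t ht)).2)
    obtain ⟨F, g1, g2⟩ := J.ex_fin ((d1.image w).union (k.image v))
    refine ⟨F, fun U e => ?_, g1, fun p hp => ?_⟩
    · rcases (g2 U).1 e with ⟨t, b, rfl⟩ | ⟨x, b | b, rfl⟩
      · exact w1 t b
      · exact v1 x b.1
      · obtain ⟨t, _, b⟩ := mem_iUnion₂.1 b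
        exact v1 x b.1
    rcases (hK p).1 hp with b | ⟨x, b, rfl⟩
    · obtain ⟨t, c, d⟩ := d3 p b
      exact ⟨w t, (g2 _).2 (Or.inl ⟨t, c, rfl⟩), (w2 t c).1 p b d⟩
    · by_cases e : ∃ t ∈ D, J.E (π x) (w t)
      · obtain ⟨t, c, d⟩ := e
        exact ⟨w t, (g2 _).2 (Or.inl ⟨t, c, rfl⟩), d⟩
      · refine ⟨v x, (g2 _).2 (Or.inr ⟨x, or_iff_not_imp_right.2 fun i => ⟨b, fun t c d =>
          i (mem_biUnion c ⟨b, d, fun j => e ⟨t, c, j⟩⟩)⟩, rfl⟩), v2 x b⟩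
  · rcases (hK p).1 hp with b | ⟨x, b, rfl⟩
    · rcases (hK q).1 hq with c | ⟨x, c, rfl⟩
      · obtain ⟨t, t', a1, a2, a3⟩ := f3 p q b c e
        obtain ⟨U, u1, u2, u3⟩ := bas t
        obtain ⟨V, v1, v2, v3⟩ := bas t'
        refine ⟨U, V, u1, v1, (u2 p b).2 a1, (v2 q c).2 a2, fun z hz i j => ?_⟩
        rcases (hK z).1 hz with d | ⟨x, d, rfl⟩
        · obtain ⟨u, c1, -, c3⟩ := f1 z d t t' ((u2 z d).1 i) ((v2 z d).1 j)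
          obtain ⟨x, -, k⟩ := (f2 z d u c1).nonempty
          exact a3 x (c3 x k).1 (c3 x k).2
        · exact a3 x ((u3 x d).1 i) ((v3 x d).1 j)
      · obtain ⟨U, V, u, v, u1, v1⟩ := sing x c
        exact ⟨V, U, v, u, (v1 p).2 ⟨hp, e⟩, (u1 _).2 rfl, fun z _ i j => ((v1 z).1 i).2 ((u1 z).1 j)⟩
    · obtain ⟨U, V, u, v, u1, v1⟩ := sing x b
      exact ⟨U, V, u, v, (u1 _).2 rfl, (v1 q).2 ⟨hq, e.symm⟩, fun z _ i j => ((v1 z).1 j).2 ((u1 z).1 i)⟩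
  · obtain ⟨U, V, u, -, u1, -⟩ := sing x.1 x.2
    exact ⟨U, u, (u1 _).2 rfl, fun y e => Subtype.ext (πi ((u1 _).1 e))⟩
  · rcases (hK p).1 (((hT U).1 hU).1 p hp) with b | ⟨x, b, rfl⟩
    · obtain ⟨t, c, d⟩ := ((hT U).1 hU).2 p b hp
      obtain ⟨x, i, j⟩ := ((f2 p b t c).sdiff (gd.1 d).2).nonempty
      exact ⟨⟨x, i.1⟩, by_contra fun k => j ⟨i.1, i.2, k⟩⟩
    · exact ⟨⟨x, b⟩, hp⟩
  · obtain ⟨z, b, U, c, d, e⟩ := h R RK f0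
    obtain ⟨t, i, j⟩ := ((hT U).1 c).2 z b d
    obtain ⟨z', k, l, m⟩ := f5 z b t i
    exact l (e z' k (j.1 z' k m))

theorem Cov.build {g a : J.M} {t : Ty} {Y : PS Λ (El Λ A t)} (h : J.Cov g a (J.ν (.w t) Y))
    {I : Type} (i0 : I) (Φ : I → Filter (El Λ A t)) (z : I → PS Λ (El Λ A (.w t)))
    (hz : ∀ i (u : PS Λ (El Λ A t)), u ∈ (z i).1 ↔ u.1 ∈ Φ i)
    (g1 : Sym Λ (X := El Λ A (.w (.w t))) (range z))
    (g2 : ∀ i, ∀ u ∈ Φ i, (u ∩ Y.1).Infinite)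
    (g3 : ∀ i j, z i ≠ z j → ∃ u : PS Λ (El Λ A t), u.1 ∈ Φ i ∧ u.1ᶜ ∈ Φ j)
    (g4 : ∀ C : PS Λ (PS Λ (El Λ A t)), (∀ i, ∃ u ∈ C.1, u.1 ∈ Φ i) → ∃ D ⊆ C.1, D.Finite ∧
      (∀ i, ∃ u ∈ D, u.1 ∈ Φ i) ∧ ∀ᶠ y in cofinite, y ∈ Y.1 → ∃ u ∈ D, y ∈ u.1)
    (g5 : ∀ i (u : PS Λ (El Λ A t)), u.1 ∈ Φ i → ∃ j, z j ≠ z i ∧ u.1 ∈ Φ j) :
    ∃ K T k, Cpt J.E a K T k ∧ ¬ Scattered J.E K T := by
  obtain ⟨τ, hτ⟩ := J.zf.rel (R := fun u x => (∃ y, J.E y u ∧ App J.E g x y) ∨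
    J.E u (J.ν (.w (.w t)) (z i0)) ∧ ¬ ∃ y, App J.E g x y)
    (by repeat' first | exact Tm.var _ | exact Tm.const _ | apply Df.app | apply Df.mem' | apply Df.neg | apply Df.and | apply Df.or | apply Df.ex')
    (J.ν (.w (.w t)) (un _)) a
  have m : ∀ {i} {u : PS Λ (El Λ A t)}, J.E (J.ν (.w t) u) (J.ν (.w (.w t)) (z i)) ↔ u.1 ∈ Φ i :=
    fun {i u} => (J.mem' (t := .w t)).trans (hz i u)
  have tr : ∀ {u : PS Λ (El Λ A t)} {x}, App J.E τ (J.ν (.w t) u) x ↔ J.E x a ∧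
      ((∃ y ∈ u.1, App J.E g x (J.ν t y)) ∨ u.1 ∈ Φ i0 ∧ ¬ ∃ y, App J.E g x y) := fun {u x} =>
    (hτ _ _).trans ((and_iff_right ((J.mem' (s := un _)).2 trivial)).trans (and_congr_right'
      (or_congr J.ex_mem (and_congr_left' m))))
  have aR : ∀ {Q : J.M → Prop}, (∀ w, J.E w (J.ν (.w (.w (.w t))) (ps (t := .w (.w t)) _ g1)) → Q w) ↔
      ∀ i, Q (J.ν (.w (.w t)) (z i)) := J.all_mem.trans forall_mem_range
  have mR : ∀ i, J.E (J.ν (.w (.w t)) (z i)) (J.ν (.w (.w (.w t))) (ps (t := .w (.w t)) _ g1)) :=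
    fun i => J.mem'.2 ⟨i, rfl⟩
  have el : ∀ {i U}, J.E U (J.ν (.w (.w t)) (z i)) → ∃ u : PS Λ (El Λ A t), u.1 ∈ Φ i ∧
      U = J.ν (.w t) u := fun {i U} e => ((J.mem _ _ _).1 e).imp fun u b => ⟨(hz i u).1 b.1, b.2⟩
  refine JS.build (τ := τ) ⟨_, mR i0⟩ (aR.2 fun i => ⟨_, (m (u := un t)).2 univ_mem⟩)
    (aR.2 fun i U V a b => ?_) (aR.2 fun i U b e => ?_) (fun w w' b c e => ?_) (fun C b c => ?_)
    (aR.2 fun i U b => ?_)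
  · obtain ⟨u, -, rfl⟩ := el a
    obtain ⟨v, -, rfl⟩ := el b
    rw [m] at a b
    refine ⟨J.ν (.w t) (ps _ (sym_inter u.2 v.2)), m.2 (inter_mem a b), aR.2 fun j c =>
      ⟨m.2 (inter_mem_iff.1 (m.1 c)).1, m.2 (inter_mem_iff.1 (m.1 c)).2⟩, fun x c => ?_⟩
    obtain ⟨c, d⟩ := tr.1 c
    exact ⟨tr.2 ⟨c, d.imp (fun ⟨y, e, k⟩ => ⟨y, e.1, k⟩) fun e => ⟨(inter_mem_iff.1 e.1).1, e.2⟩⟩,
      tr.2 ⟨c, d.imp (fun ⟨y, e, k⟩ => ⟨y, e.2, k⟩) fun e => ⟨(inter_mem_iff.1 e.1).2, e.2⟩⟩⟩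
  · obtain ⟨u, -, rfl⟩ := el b
    refine g2 i _ (m.1 b) (Finite.of_finite_image (h.fin' ?_ (e.subset ?_)) (J.inj t).injOn)
    · rintro _ ⟨y, c, rfl⟩
      exact J.mem'.2 c.2
    · rintro x ⟨_, ⟨y, c, rfl⟩, d⟩
      exact ⟨(h.1 _ _ d).1, tr.2 ⟨(h.1 _ _ d).1, Or.inl ⟨y, c.1, d⟩⟩⟩
  · obtain ⟨_, ⟨i, rfl⟩, rfl⟩ := (J.mem _ _ _).1 b
    obtain ⟨_, ⟨j, rfl⟩, rfl⟩ := (J.mem _ _ _).1 c
    obtain ⟨u, c, d⟩ := g3 i j fun k => e (congrArg _ k)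
    refine ⟨_, J.ν (.w t) (ps _ (sym_compl u.2)), m.2 c, m.2 d, fun x k l => ?_⟩
    rcases (tr.1 k).2 with ⟨y, k1, k2⟩ | k <;> rcases (tr.1 l).2 with ⟨y', l1, l2⟩ | l
    · exact l1 (J.inj t (h.2.1 _ _ _ k2 l2) ▸ k1)
    · exact l.2 ⟨_, k2⟩
    · exact k.2 ⟨_, l2⟩
    · exact g2 i0 _ (inter_mem k.1 l.1) (finite_empty.subset fun y e => e.1.2 e.1.1)
  · obtain ⟨C, rfl⟩ := J.sub (.w t) C fun U e => by
      obtain ⟨w, k, l⟩ := b U e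
      obtain ⟨_, ⟨i, rfl⟩, rfl⟩ := (J.mem _ _ _).1 k
      exact (el l).imp fun _ d => d.2
    obtain ⟨D, d1, d2, d3, d4⟩ := g4 C fun i => (J.ex_mem.1 (aR.1 c i)).imp fun u e => ⟨e.1, m.1 e.2⟩
    refine ⟨J.ν (.w t) '' D, d2.image _, forall_mem_image.2 fun u e => J.mem'.2 (d1 e),
      aR.2 fun i => (d3 i).elim fun u e => ⟨_, ⟨u, e.1, rfl⟩, m.2 e.2⟩,
      (h.fin (Finite.image (J.ν t) d4)).subset fun x ⟨k, l⟩ => ?_⟩
    by_cases e : ∃ y, App J.E g x y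
    · obtain ⟨y, e⟩ := e
      obtain ⟨y, i, rfl⟩ := (J.mem _ _ _).1 (h.1 _ _ e).2
      exact ⟨_, ⟨y, fun j => (j i).elim fun u n => l _ ⟨u, n.1, rfl⟩
        (tr.2 ⟨k, Or.inl ⟨y, n.2, e⟩⟩), rfl⟩, e⟩
    · obtain ⟨u, i, j⟩ := d3 i0
      exact absurd (tr.2 ⟨k, Or.inr ⟨j, e⟩⟩) (l _ ⟨u, i, rfl⟩)
  · obtain ⟨u, -, rfl⟩ := el b
    obtain ⟨j, c, d⟩ := g5 i u (m.1 b)
    exact ⟨_, mR j, fun e => c (J.inj (.w (.w t)) e), m.2 d⟩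

theorem Cov.build_om {g a : J.M} (h : J.Cov g a (J.ν (.w .n) (un _))) :
    ∃ K T k, Cpt J.E a K T k ∧ ¬ Scattered J.E K T := by
  let q : Set ℕ → PS Λ (El Λ A .n) := fun s => ps s (sym_all fun _ _ a => a)
  have k : ∀ (f : ℕ → ℕ), Function.Injective f → ((hyperfilter ℕ).map f : Filter ℕ) ≤ cofinite :=
    fun f hf => hf.tendsto_cofinite.mono_left hyperfilter_le_cofinite
  refine h.build (I := {U : Ultrafilter ℕ // (U : Filter ℕ) ≤ cofinite})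
    ⟨_, hyperfilter_le_cofinite⟩ (fun U => (U.1 : Filter ℕ))
    (fun U => ps {u | u.1 ∈ U.1} (sym_all fun _ _ a => a)) (fun _ _ => Iff.rfl)
    (sym_all fun _ _ a => a) (fun U u b e => ?_) (fun U V e => ?_) (fun C b => ?_) fun U u b => ?_
  · exact Ultrafilter.compl_notMem_iff.2 b (U.2 (e.subset fun x d => ⟨not_not.1 d, trivial⟩))
  · obtain ⟨s, b⟩ := not_forall.1 fun b : ∀ s ∈ U.1, s ∈ V.1 => e (by
      rw [show V = U from Subtype.ext (Ultrafilter.eq_of_le b)])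
    exact ⟨q s, (Classical.not_imp.1 b).1, Ultrafilter.compl_mem_iff_notMem.2 (Classical.not_imp.1 b).2⟩
  · by_contra e
    have : (cofinite ⊓ ⨅ u ∈ C.1, 𝓟 u.1ᶜ : Filter ℕ).NeBot := ⟨fun c => e (by
      obtain ⟨s, c1, s', c2, c3⟩ := mem_inf_iff_superset.1 (empty_mem_iff_bot.2 c)
      obtain ⟨D, d1, d2, d3⟩ := mem_biInf_principal.1 c2
      have d4 : s ⊆ ⋃ u ∈ D, u.1 := fun x i => by_contra fun j => c3 ⟨i, d3 (mem_iInter₂.2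
        fun u l n => j (mem_biUnion l n))⟩
      exact ⟨D, d2, d1, fun U => (Ultrafilter.finite_biUnion_mem_iff d1).1
        (mem_of_superset (U.2 c1) d4), mem_of_superset c1 fun x i _ => let ⟨u, l, n⟩ := mem_iUnion₂.1 (d4 i); ⟨u, l, n⟩⟩)⟩
    obtain ⟨U, c⟩ := Ultrafilter.exists_le (cofinite ⊓ ⨅ u ∈ C.1, 𝓟 u.1ᶜ : Filter ℕ)
    obtain ⟨u, d, i⟩ := b ⟨U, c.trans inf_le_left⟩
    exact Ultrafilter.compl_notMem_iff.2 i (le_principal_iff.1 ((c.trans inf_le_right).trans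
      (iInf₂_le u d)))
  · have c : Set.Infinite (α := ℕ) u.1 := fun e =>
      Ultrafilter.compl_notMem_iff.2 b (U.2 e.compl_mem_cofinite)
    let f := c.natEmbedding
    have i : ∀ r, Function.Injective fun n => (f (2 * n + r)).1 := fun r n m e => by
      have := f.injective (Subtype.ext e); omega
    by_contra e
    push Not at e
    have j : ∀ r, range (fun n => (f (2 * n + r)).1) ∈ U.1 := fun r => by
      have := by_contra fun l => e ⟨_, k _ (i r)⟩ l (mem_map.2 (univ_mem' fun n => (f _).2))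
      exact (Set.ext_iff.1 (congrArg Subtype.val this) (q _)).1 range_mem_map
    obtain ⟨_, ⟨n, rfl⟩, m, l⟩ := Ultrafilter.nonempty_of_mem (inter_mem (j 0) (j 1))
    have := f.injective (Subtype.ext l)
    omega

end JS

end Pool.Agent.H40.Js
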