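import Mathlib

set_option autoImplicit false

/-! The forcing framework of `Pool.Agent.H42.Frc1`-`Frc3`, one universe higher. -/

namespace Pool.Agent.H40.UZ

open Set

section
variable {M : Type 2} (E : M → M → Prop)

def Sub (x y : M) : Prop := ∀ z, E z x → E z y

def IsPair (p a b : M) : Prop :=
  ∀ z, E z p ↔ (∀ w, E w z ↔ w = a) ∨ (∀ w, E w z ↔ w = a ∨ w = b)

def App (f a b : M) : Prop := ∃ p, E p f ∧ IsPair E p a b

def Succ (s n : M) : Prop := ∀ z, E z s ↔ E z n ∨ z = n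

end

inductive Nm (P : Type 1) : Type 2
  | mk (ι : Type 1) (A : ι → Nm P) (b : ι → P) : Nm P

variable {P : Type 1}

def Nm.ι : Nm P → Type 1
  | .mk ι _ _ => ι

def Nm.A : (x : Nm P) → x.ι → Nm P
  | .mk _ A _ => A

def Nm.b : (x : Nm P) → x.ι → P
  | .mk _ _ b => b

variable [Preorder P]

def eqF : Nm P → Nm P → P → Prop
  | .mk _ A b, .mk _ C d => fun p =>
    (∀ i q, q ≤ p → q ≤ b i → ∃ r ≤ q, ∃ j, r ≤ d j ∧ eqF (A i) (C j) r) ∧
    (∀ j q, q ≤ p → q ≤ d j → ∃ r ≤ q, ∃ i, r ≤ b i ∧ eqF (A i) (C j) r)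

theorem eqF_iff (x y : Nm P) (p : P) : eqF x y p ↔
    (∀ i q, q ≤ p → q ≤ x.b i → ∃ r ≤ q, ∃ j, r ≤ y.b j ∧ eqF (x.A i) (y.A j) r) ∧
    (∀ j q, q ≤ p → q ≤ y.b j → ∃ r ≤ q, ∃ i, r ≤ x.b i ∧ eqF (x.A i) (y.A j) r) := by
  cases x; cases y; rfl

theorem eqF_mono {x y : Nm P} {p q : P} (h : eqF x y p) (hq : q ≤ p) : eqF x y q := by
  rw [eqF_iff] at h ⊢
  exact ⟨fun i r hr => h.1 i r (hr.trans hq), fun i r hr => h.2 i r (hr.trans hq)⟩

theorem eqF_reg {x y : Nm P} {p : P} (h : ∀ q ≤ p, ∃ r ≤ q, eqF x y r) : eqF x y p := by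
  rw [eqF_iff]
  constructor
  · intro i q hq hb
    obtain ⟨r, hr, h'⟩ := h q hq
    obtain ⟨s, hs, h''⟩ := ((eqF_iff _ _ _).1 h').1 i r le_rfl (hr.trans hb)
    exact ⟨s, hs.trans hr, h''⟩
  · intro i q hq hb
    obtain ⟨r, hr, h'⟩ := h q hq
    obtain ⟨s, hs, h''⟩ := ((eqF_iff _ _ _).1 h').2 i r le_rfl (hr.trans hb)
    exact ⟨s, hs.trans hr, h''⟩

theorem eqF_refl (x : Nm P) (p : P) : eqF x x p := by
  induction x generalizing p with
  | mk ι A b ih =>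
    exact ⟨fun i q _ hb => ⟨q, le_rfl, i, hb, ih i q⟩, fun i q _ hb => ⟨q, le_rfl, i, hb, ih i q⟩⟩

theorem eqF_symm {x y : Nm P} {p : P} (h : eqF x y p) : eqF y x p := by
  induction x generalizing y p with
  | mk ι A b ih =>
    cases y with
    | mk κ C d =>
      refine ⟨fun j q hq hb => ?_, fun i q hq hb => ?_⟩
      · obtain ⟨r, hr, i, h1, h2⟩ := h.2 j q hq hb
        exact ⟨r, hr, i, h1, ih i h2⟩
      · obtain ⟨r, hr, j, h1, h2⟩ := h.1 i q hq hb
        exact ⟨r, hr, j, h1, ih i h2⟩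

theorem eqF_trans {x y z : Nm P} {p : P} (h : eqF x y p) (h' : eqF y z p) : eqF x z p := by
  induction x generalizing y z p with
  | mk ι A b ih =>
    cases y with
    | mk κ C d =>
      cases z with
      | mk μ D e =>
        refine ⟨fun i q hq hb => ?_, fun k q hq hb => ?_⟩
        · obtain ⟨r, hr, j, h1, h2⟩ := h.1 i q hq hb
          obtain ⟨s, hs, k, h3, h4⟩ := h'.1 j r (hr.trans hq) h1
          exact ⟨s, hs.trans hr, k, h3, ih i (eqF_mono h2 hs) h4⟩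
        · obtain ⟨r, hr, j, h1, h2⟩ := h'.2 k q hq hb
          obtain ⟨s, hs, i, h3, h4⟩ := h.2 j r (hr.trans hq) h1
          exact ⟨s, hs.trans hr, i, h3, ih i h4 (eqF_mono h2 hs)⟩

def memF (x y : Nm P) (p : P) : Prop := ∀ q ≤ p, ∃ r ≤ q, ∃ j, r ≤ y.b j ∧ eqF x (y.A j) r

theorem memF_congr {x x' y y' : Nm P} {p : P} (h : memF x y p) (h1 : eqF x x' p)
    (h2 : eqF y y' p) : memF x' y' p := by
  intro q hq
  obtain ⟨r, hr, j, h3, h4⟩ := h q hq
  obtain ⟨s, hs, k, h5, h6⟩ := ((eqF_iff _ _ _).1 h2).1 j r (hr.trans hq) h3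
  exact ⟨s, hs.trans hr, k, h5, eqF_trans (eqF_symm (eqF_mono h1 (hs.trans (hr.trans hq))))
    (eqF_trans (eqF_mono h4 hs) h6)⟩

/-- Ultrafilters on the set of conditions that contain every dense lower set. -/
structure Ult (P : Type 1) [Preorder P] where
  U : Ultrafilter P
  dense : ∀ D : Set P, IsLowerSet D → (∀ p, ∃ q ≤ p, q ∈ D) → D ∈ U

theorem ex_ult (p : P) : ∃ U : Ult P, Iic p ∈ U.U := by
  let F : Filter P :=
    { sets := {S | ∃ D : Set P, IsLowerSet D ∧ (∀ p, ∃ q ≤ p, q ∈ D) ∧ D ∩ Iic p ⊆ S}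
      univ_sets := ⟨univ, isLowerSet_univ, fun p => ⟨p, le_rfl, trivial⟩, subset_univ _⟩
      sets_of_superset := fun ⟨D, h1, h2, h3⟩ h => ⟨D, h1, h2, h3.trans h⟩
      inter_sets := fun ⟨D, h1, h2, h3⟩ ⟨D', h1', h2', h3'⟩ => ⟨D ∩ D', h1.inter h1', fun q => by
        obtain ⟨r, hr, hD⟩ := h2 q
        obtain ⟨s, hs, hD'⟩ := h2' r
        exact ⟨s, hs.trans hr, h1 hs hD, hD'⟩,
        fun x hx => ⟨h3 ⟨hx.1.1, hx.2⟩, h3' ⟨hx.1.2, hx.2⟩⟩⟩ }
  have hF : F.NeBot := by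
    rw [← Filter.forall_mem_nonempty_iff_neBot]
    rintro S ⟨D, -, h2, h3⟩
    obtain ⟨q, hq, hD⟩ := h2 p
    exact ⟨q, h3 ⟨hD, hq⟩⟩
  refine ⟨⟨Ultrafilter.of F, fun D h1 h2 => Ultrafilter.of_le F ⟨D, h1, h2, inter_subset_left⟩⟩,
    Ultrafilter.of_le F ⟨univ, isLowerSet_univ, fun p => ⟨p, le_rfl, trivial⟩, inter_subset_right⟩⟩

/-- `p` forces `Q`. -/
def Frc (p : P) (Q : Ult P → Prop) : Prop := ∀ U : Ult P, Iic p ∈ U.U → Q U

/-- `Q` has a truth value. -/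
def Cl (Q : Ult P → Prop) : Prop := ∀ U, Q U ↔ {p | Frc p Q} ∈ U.U

theorem Frc.mono {p q : P} {Q : Ult P → Prop} (h : Frc p Q) (hq : q ≤ p) : Frc q Q :=
  fun U hU => h U (Filter.mem_of_superset hU (Iic_subset_Iic.2 hq))

theorem Frc.imp {p : P} {Q R : Ult P → Prop} (h : Frc p Q) (h' : ∀ U, Q U → R U) : Frc p R :=
  fun U hU => h' U (h U hU)

theorem Frc.ex {p : P} {Q : Ult P → Prop} (h : Frc p Q) : ∃ U, Iic p ∈ U.U ∧ Q U := by
  obtain ⟨U, hU⟩ := ex_ult p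
  exact ⟨U, hU, h U hU⟩

theorem Ult.or_neg (U : Ult P) {S : Set P} (hS : IsLowerSet S) :
    S ∪ {q | ∀ r ≤ q, r ∉ S} ∈ U.U := by
  refine U.dense _ (hS.union fun a b hab h r hr => h r (hr.trans hab)) fun p => ?_
  by_cases h : ∃ r ≤ p, r ∈ S
  · obtain ⟨r, hr, h⟩ := h; exact ⟨r, hr, Or.inl h⟩
  · exact ⟨p, le_rfl, Or.inr fun r hr h' => h ⟨r, hr, h'⟩⟩

/-- A set dense below the members of a set in `U` is in `U`. -/
theorem Ult.of_dense (U : Ult P) {S T : Set P} (hS : IsLowerSet S) (hT : T ∈ U.U)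
    (h : ∀ p ∈ T, ∃ q ≤ p, q ∈ S) : S ∈ U.U := by
  filter_upwards [U.or_neg hS, hT] with p h1 h2
  rcases h1 with h1 | h1
  · exact h1
  · obtain ⟨q, hq, h3⟩ := h p h2
    exact absurd h3 (h1 q hq)

theorem frc_iff {Q : Ult P → Prop} {S : Set P} (hS : IsLowerSet S) (h : ∀ U, Q U ↔ S ∈ U.U)
    (p : P) : Frc p Q ↔ ∀ q ≤ p, ∃ r ≤ q, r ∈ S := by
  constructor
  · intro hp q hq
    obtain ⟨U, hU, hQ⟩ := (hp.mono hq).ex
    obtain ⟨r, h1, h2⟩ := Filter.nonempty_of_mem (Filter.inter_mem hU ((h U).1 hQ))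
    exact ⟨r, h1, h2⟩
  · intro hp U hU
    exact (h U).2 (U.of_dense hS hU hp)

theorem lower_frc (Q : Ult P → Prop) : IsLowerSet {p | Frc p Q} := fun _ _ hab h => h.mono hab

theorem cl_of_set {Q : Ult P → Prop} {S : Set P} (hS : IsLowerSet S) (h : ∀ U, Q U ↔ S ∈ U.U) :
    Cl Q := by
  intro U
  rw [h]
  constructor
  · intro h'
    filter_upwards [h'] with p hp
    exact (frc_iff hS h p).2 fun q hq => ⟨q, le_rfl, hS hq hp⟩
  · intro h'
    exact U.of_dense hS h' fun p hp => (frc_iff hS h p).1 hp p le_rfl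

theorem cl_set {S : Set P} (hS : IsLowerSet S) : Cl (fun U : Ult P => S ∈ U.U) :=
  cl_of_set hS fun _ => Iff.rfl

theorem Cl.dense {Q : Ult P → Prop} (h : Cl Q) {p : P} (hp : ∀ q ≤ p, ∃ r ≤ q, Frc r Q) :
    Frc p Q := (frc_iff (lower_frc Q) h p).2 hp

theorem Cl.all {Q : Ult P → Prop} (h : Cl Q) (hp : ∀ q, ∃ r ≤ q, Frc r Q) (U : Ult P) : Q U :=
  (h U).2 (U.dense _ (lower_frc Q) hp)

theorem cl_not {Q : Ult P → Prop} (h : Cl Q) : Cl (fun U => ¬ Q U) := by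
  refine cl_of_set (S := {q | ∀ r ≤ q, ¬ Frc r Q}) (fun a b hab h r hr => h r (hr.trans hab))
    fun U => ?_
  rw [h]
  constructor
  · intro h'
    exact (Ultrafilter.union_mem_iff.1 (U.or_neg (lower_frc Q))).resolve_left h'
  · intro h1 h2
    obtain ⟨r, h3, h4⟩ := Filter.nonempty_of_mem (Filter.inter_mem h1 h2)
    exact h3 r le_rfl h4

theorem Cl.decide {Q : Ult P → Prop} (h : Cl Q) {p : P} (hp : ¬ Frc p Q) :
    ∃ q ≤ p, Frc q (fun U => ¬ Q U) := by
  by_contra hc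
  refine hp fun U hU => ?_
  by_contra hQ
  obtain ⟨r, h3, h4⟩ := Filter.nonempty_of_mem (Filter.inter_mem hU ((cl_not h U).1 hQ))
  exact hc ⟨r, h3, h4⟩

/-- If `Q` holds in `U`, some condition below `p` forces it. -/
theorem Cl.ex {Q : Ult P → Prop} (h : Cl Q) {p : P} {U : Ult P} (hU : Iic p ∈ U.U) (hQ : Q U) :
    ∃ q ≤ p, Frc q Q := by
  obtain ⟨r, h3, h4⟩ := Filter.nonempty_of_mem (Filter.inter_mem hU ((h U).1 hQ))
  exact ⟨r, h3, h4⟩

theorem cl_and {Q R : Ult P → Prop} (h : Cl Q) (h' : Cl R) : Cl (fun U => Q U ∧ R U) :=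
  cl_of_set ((lower_frc Q).inter (lower_frc R)) fun U => by
    rw [h U, h' U]; exact Filter.inter_mem_iff.symm

theorem Cl.congr {Q R : Ult P → Prop} (h : Cl Q) (h' : ∀ U, R U ↔ Q U) : Cl R := by
  have : R = Q := funext fun U => propext (h' U)
  rwa [this]

theorem cl_imp {Q R : Ult P → Prop} (h : Cl Q) (h' : Cl R) : Cl (fun U => Q U → R U) :=
  (cl_not (cl_and h (cl_not h'))).congr fun U => by tauto

theorem cl_or {Q R : Ult P → Prop} (h : Cl Q) (h' : Cl R) : Cl (fun U => Q U ∨ R U) :=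
  (cl_imp (cl_not h) h').congr fun U => by tauto

theorem cl_iff {Q R : Ult P → Prop} (h : Cl Q) (h' : Cl R) : Cl (fun U => Q U ↔ R U) :=
  (cl_and (cl_imp h h') (cl_imp h' h)).congr fun U => by tauto

theorem cl_const (a : Prop) : Cl (fun _ : Ult P => a) := by
  by_cases h : a
  · exact cl_of_set isLowerSet_univ fun U => iff_of_true h Filter.univ_mem
  · exact cl_of_set isLowerSet_empty fun U => by simp [h]

theorem cl_fin {ι : Type*} [Finite ι] {Q : ι → Ult P → Prop} (h : ∀ i, Cl (Q i)) :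
    Cl (fun U => ∀ i, Q i U) :=
  cl_of_set (isLowerSet_iInter fun i => lower_frc (Q i)) fun U => by
    rw [← Ultrafilter.mem_coe, Filter.iInter_mem]; exact forall_congr' fun i => h i U

/-- To prove `Q` it suffices to refute every condition forcing its negation. -/
theorem Cl.by_contra {Q : Ult P → Prop} (h : Cl Q) (hp : ∀ p, ¬ Frc p (fun U => ¬ Q U))
    (U : Ult P) : Q U := by
  refine h.all (fun q => ⟨q, le_rfl, ?_⟩) U
  by_contra hc
  obtain ⟨r, -, hr⟩ := h.decide hc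
  exact hp r hr

def Ult.setoid (U : Ult P) : Setoid (Nm P) where
  r x y := {p | eqF x y p} ∈ U.U
  iseqv := ⟨fun x => Filter.univ_mem' (eqF_refl x),
    fun h => Filter.mem_of_superset h fun _ => eqF_symm,
    fun h h' => by filter_upwards [h, h'] with p using eqF_trans⟩

/-- The two-valued model. -/
def M (U : Ult P) : Type 2 := Quotient U.setoid

def mk (U : Ult P) (x : Nm P) : M U := Quotient.mk U.setoid x

def E (U : Ult P) : M U → M U → Prop :=
  Quotient.lift₂ (s₁ := U.setoid) (s₂ := U.setoid) (fun x y => {p | memF x y p} ∈ U.U) (by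
    intro x y x' y' h1 h2
    refine propext ⟨fun h => ?_, fun h => ?_⟩
    · filter_upwards [h, h1, h2] with p using memF_congr
    · filter_upwards [h, h1, h2] with p a b c using memF_congr a (eqF_symm b) (eqF_symm c))

theorem mk_surj {U : Ult P} (a : M U) : ∃ x, mk U x = a := Quotient.exists_rep a

theorem mk_eq {U : Ult P} {x y : Nm P} : mk U x = mk U y ↔ {p | eqF x y p} ∈ U.U :=
  Quotient.eq

theorem cl_eq (x y : Nm P) : Cl (fun U => mk U x = mk U y) :=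
  cl_of_set (fun _ _ hab h => eqF_mono h hab) fun _ => mk_eq

theorem lower_memF (x y : Nm P) : IsLowerSet {p | memF x y p} :=
  fun _ _ hab h q hq => h q (hq.trans hab)

theorem cl_mem (x y : Nm P) : Cl (fun U => E U (mk U x) (mk U y)) :=
  cl_of_set (lower_memF x y) fun _ => Iff.rfl

theorem frc_eq {x y : Nm P} {p : P} : Frc p (fun U => mk U x = mk U y) ↔ eqF x y p := by
  rw [frc_iff (fun _ _ hab h => eqF_mono h hab) fun _ => mk_eq]
  exact ⟨eqF_reg, fun h q hq => ⟨q, le_rfl, eqF_mono h hq⟩⟩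

theorem frc_mem {x y : Nm P} {p : P} : Frc p (fun U => E U (mk U x) (mk U y)) ↔ memF x y p := by
  rw [frc_iff (Q := fun U => E U (mk U x) (mk U y)) (lower_memF x y) fun _ => Iff.rfl]
  refine ⟨fun h q hq => ?_, fun h q hq => ⟨q, le_rfl, lower_memF x y hq h⟩⟩
  obtain ⟨r, hr, h'⟩ := h q hq
  obtain ⟨s, hs, h''⟩ := h' r le_rfl
  exact ⟨s, hs.trans hr, h''⟩

theorem mem_intro (y : Nm P) (j : y.ι) : Frc (y.b j) (fun U => E U (mk U (y.A j)) (mk U y)) :=
  frc_mem.2 fun q hq => ⟨q, le_rfl, j, hq, eqF_refl _ _⟩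

theorem mem_elim {x y : Nm P} {p : P} (h : Frc p (fun U => E U (mk U x) (mk U y))) :
    ∃ q ≤ p, ∃ j, q ≤ y.b j ∧ Frc q (fun U => mk U x = mk U (y.A j)) := by
  obtain ⟨q, hq, j, h1, h2⟩ := frc_mem.1 h p le_rfl
  exact ⟨q, hq, j, h1, frc_eq.2 h2⟩

/-- The maximum principle. -/
theorem max_pr (Q : ∀ U : Ult P, M U → Prop) (hQ : ∀ x, Cl (fun U => Q U (mk U x))) :
    ∃ x, ∀ U, (∃ y, Q U y) → Q U (mk U x) := by
  classical
  let S : Set P := {p | ∃ x, Frc p (fun U => Q U (mk U x))}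
  obtain ⟨A, hA⟩ := zorn_subset {A : Set P | A ⊆ S ∧ ∀ a ∈ A, ∀ b ∈ A, ∀ r, r ≤ a → r ≤ b → a = b}
    (fun c hc hch => ⟨⋃₀ c, ⟨sUnion_subset fun A hA => (hc hA).1, by
      rintro a ⟨A, hA, ha⟩ b ⟨B, hB, hb⟩
      rcases hch.total hA hB with h | h
      · exact (hc hB).2 a (h ha) b hb
      · exact (hc hA).2 a ha b (h hb)⟩, fun s hs => subset_sUnion_of_mem hs⟩)
  have hmax : ∀ p ∈ S, ∃ a ∈ A, ∃ r, r ≤ a ∧ r ≤ p := by
    intro p hp
    by_contra hc
    push Not at hc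
    have h1 : insert p A ⊆ A := hA.2 ⟨insert_subset hp hA.1.1, by
      rintro a (rfl | ha) b (rfl | hb) r h1 h2
      · rfl
      · exact absurd h1 (hc b hb r h2)
      · exact absurd h2 (hc a ha r h1)
      · exact hA.1.2 a ha b hb r h1 h2⟩ (subset_insert _ _)
    exact hc p (h1 (mem_insert _ _)) p le_rfl le_rfl
  have hx : ∀ a : A, ∃ x, Frc a.1 (fun U => Q U (mk U x)) := fun a => hA.1.1 a.2
  choose x hx using hx
  let y : Nm P := .mk (Σ a : A, {ir : (x a).ι × P // ir.2 ≤ a.1 ∧ ir.2 ≤ (x a).b ir.1})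
    (fun t => (x t.1).A t.2.1.1) (fun t => t.2.1.2)
  have hy : ∀ a : A, eqF y (x a) a.1 := by
    intro a
    rw [eqF_iff]
    constructor
    · rintro ⟨a', ⟨i, r⟩, h1, h2⟩ q hq hr
      have : a = a' := Subtype.ext (hA.1.2 _ a.2 _ a'.2 q hq (le_trans hr h1))
      subst this
      exact ⟨q, le_rfl, i, le_trans hr h2, eqF_refl _ _⟩
    · intro j q hq hb
      exact ⟨q, le_rfl, ⟨a, ⟨j, q⟩, hq, hb⟩, le_rfl, eqF_refl _ _⟩
  refine ⟨y, fun U ⟨z, hz⟩ => ?_⟩
  obtain ⟨z, rfl⟩ := mk_surj z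
  refine (hQ y U).2 (U.of_dense (lower_frc _) ((hQ z U).1 hz) fun p hp => ?_)
  obtain ⟨a, ha, r, h1, h2⟩ := hmax p ⟨z, hp⟩
  refine ⟨r, h2, fun V hV => ?_⟩
  have h3 : mk V y = mk V (x ⟨a, ha⟩) := (frc_eq.2 (hy ⟨a, ha⟩)).mono h1 V hV
  show Q V (mk V y)
  rw [h3]
  exact (hx ⟨a, ha⟩).mono h1 V hV

theorem cl_ex {Q : ∀ U : Ult P, M U → Prop} (hQ : ∀ x, Cl (fun U => Q U (mk U x))) :
    Cl (fun U => ∃ y, Q U y) := by
  obtain ⟨x, hx⟩ := max_pr Q hQ
  exact (hQ x).congr fun U => ⟨hx U, fun h => ⟨_, h⟩⟩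

theorem cl_all {Q : ∀ U : Ult P, M U → Prop} (hQ : ∀ x, Cl (fun U => Q U (mk U x))) :
    Cl (fun U => ∀ y, Q U y) :=
  (cl_not (cl_ex (Q := fun U y => ¬ Q U y) fun x => cl_not (hQ x))).congr fun U => by simp

/-- Instance form of `Cl`, so that instance search proves it along the shape of a formula. -/
class C (Q : Ult P → Prop) : Prop where
  cl : Cl Q

theorem cl {Q : Ult P → Prop} [h : C Q] : Cl Q := h.cl

section inst
variable {Q R : Ult P → Prop} {S : ∀ U : Ult P, M U → Prop}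
instance (priority := low) cConst (a : Prop) : C (fun _ : Ult P => a) := ⟨cl_const a⟩
instance cNot [C Q] : C (fun U => ¬ Q U) := ⟨cl_not cl⟩
instance cAnd [C Q] [C R] : C (fun U => Q U ∧ R U) := ⟨cl_and cl cl⟩
instance cOr [C Q] [C R] : C (fun U => Q U ∨ R U) := ⟨cl_or cl cl⟩
instance cImp [C Q] [C R] : C (fun U => Q U → R U) := ⟨cl_imp cl cl⟩
instance cIff [C Q] [C R] : C (fun U => Q U ↔ R U) := ⟨cl_iff cl cl⟩
instance cAll [∀ x, C (fun U => S U (mk U x))] : C (fun U => ∀ y, S U y) := ⟨cl_all fun _ => cl⟩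
instance cEx [∀ x, C (fun U => S U (mk U x))] : C (fun U => ∃ y, S U y) := ⟨cl_ex fun _ => cl⟩
instance cEq (x y : Nm P) : C (fun U => mk U x = mk U y) := ⟨cl_eq x y⟩
instance cNe (x y : Nm P) : C (fun U => mk U x ≠ mk U y) := ⟨cl_not (cl_eq x y)⟩
instance cMem (x y : Nm P) : C (fun U => E U (mk U x) (mk U y)) := ⟨cl_mem x y⟩
instance cG (p : P) : C (fun U : Ult P => Iic p ∈ U.U) := ⟨cl_set (isLowerSet_Iic p)⟩
instance cSub (x y : Nm P) : C (fun U => Sub (E U) (mk U x) (mk U y)) := by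
  unfold Sub; infer_instance
instance cIsPair (x y z : Nm P) : C (fun U => IsPair (E U) (mk U x) (mk U y) (mk U z)) := by
  unfold IsPair; infer_instance
instance cApp (x y z : Nm P) : C (fun U => App (E U) (mk U x) (mk U y) (mk U z)) := by
  unfold App; infer_instance
instance cSucc (x y : Nm P) : C (fun U => Succ (E U) (mk U x) (mk U y)) := by
  unfold Succ; infer_instance
end inst

/-- Density argument below a hypothesis. -/
theorem by_dense {H R : Ult P → Prop} [C H] [C R] (h : ∀ p, Frc p H → ∃ q ≤ p, Frc q R)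
    (U : Ult P) (hU : H U) : R U :=
  (cl (Q := R) U).2 (U.of_dense (lower_frc R) ((cl (Q := H) U).1 hU) h)

theorem frc_and {p : P} {Q R : Ult P → Prop} (h : Frc p Q) (h' : Frc p R) :
    Frc p (fun U => Q U ∧ R U) := fun U hU => ⟨h U hU, h' U hU⟩

theorem frc_G {p q : P} (h : p ≤ q) : Frc p (fun U => Iic q ∈ U.U) :=
  fun _ hU => Filter.mem_of_superset hU (Iic_subset_Iic.2 h)

theorem frc_ex {p : P} {S : ∀ U : Ult P, M U → Prop} [∀ x, C (fun U => S U (mk U x))]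
    (h : Frc p (fun U => ∃ y, S U y)) : ∃ x, Frc p (fun U => S U (mk U x)) := by
  obtain ⟨x, hx⟩ := max_pr S fun _ => cl
  exact ⟨x, h.imp hx⟩

@[elab_as_elim] theorem mem_cases {z y : Nm P} {R : Ult P → Prop} [C R]
    (h : ∀ j U, Iic (y.b j) ∈ U.U → mk U z = mk U (y.A j) → R U) (U : Ult P)
    (hU : E U (mk U z) (mk U y)) : R U := by
  refine by_dense (H := fun U => E U (mk U z) (mk U y)) (fun p hp => ?_) U hU
  obtain ⟨q, hq, j, h1, h2⟩ := mem_elim hp
  exact ⟨q, hq, fun V hV => h j V (frc_G h1 V hV) (h2 V hV)⟩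

/-- The set of the `A i` for which `Q i` holds. -/
def fam {ι : Type 1} (A : ι → Nm P) (Q : ι → Ult P → Prop) : Nm P :=
  .mk {ip : ι × P // Frc ip.2 (Q ip.1)} (fun t => A t.1.1) (fun t => t.1.2)

section fam
variable {ι : Type 1} {A : ι → Nm P} {Q : ι → Ult P → Prop}

theorem fam_intro (i : ι) [C (Q i)] {U : Ult P} (h : Q i U) :
    E U (mk U (A i)) (mk U (fam A Q)) :=
  by_dense (H := Q i) (R := fun U => E U (mk U (A i)) (mk U (fam A Q)))
    (fun p hp => ⟨p, le_rfl, mem_intro (fam A Q) ⟨(i, p), hp⟩⟩) U h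

theorem fam_elim {z : Nm P} {p : P} (h : Frc p (fun U => E U (mk U z) (mk U (fam A Q)))) :
    ∃ q ≤ p, ∃ i, Frc q (fun U => Q i U ∧ mk U z = mk U (A i)) := by
  obtain ⟨q, hq, ⟨⟨i, r⟩, hr⟩, h1, h2⟩ := mem_elim h
  exact ⟨q, hq, i, frc_and (Frc.mono hr h1) h2⟩

@[elab_as_elim] theorem fam_cases {z : Nm P} {R : Ult P → Prop} [C R]
    (h : ∀ i U, Q i U → mk U z = mk U (A i) → R U) (U : Ult P)
    (hU : E U (mk U z) (mk U (fam A Q))) : R U :=
  mem_cases (y := fam A Q) (fun j V hV => h j.1.1 V (j.2 V hV)) U hU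

/-- For a finite family membership is plain. -/
theorem fam_fin [Finite ι] [∀ i, C (Q i)] {U : Ult P} {z : M U} :
    E U z (mk U (fam A Q)) ↔ ∃ i, Q i U ∧ z = mk U (A i) := by
  obtain ⟨z, rfl⟩ := mk_surj z
  refine ⟨fun h => ?_, fun ⟨i, h1, h2⟩ => h2 ▸ fam_intro i h1⟩
  have : C (fun U => ∃ i, Q i U ∧ mk U z = mk U (A i)) :=
    ⟨(cl_not (cl_fin (Q := fun i U => ¬ (Q i U ∧ mk U z = mk U (A i))) fun _ => cl)).congr
      fun U => by simp⟩
  exact fam_cases (R := fun U => ∃ i, Q i U ∧ mk U z = mk U (A i))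
    (fun i V h1 h2 => ⟨i, h1, h2⟩) U h

end fam

theorem M_ext {U : Ult P} {x y : M U} (h : ∀ z, E U z x ↔ E U z y) : x = y := by
  obtain ⟨x, rfl⟩ := mk_surj x
  obtain ⟨y, rfl⟩ := mk_surj y
  refine by_dense (H := fun U => ∀ z, E U z (mk U x) ↔ E U z (mk U y))
    (R := fun U => mk U x = mk U y) (fun p hp => ⟨p, le_rfl, frc_eq.2 ?_⟩) U h
  rw [eqF_iff]
  constructor
  · intro i q hq hb
    exact frc_mem.1 (fun V hV => (hp.mono hq V hV _).1 ((mem_intro x i).mono hb V hV)) q le_rfl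
  · intro j q hq hb
    obtain ⟨r, hr, i, h1, h2⟩ :=
      frc_mem.1 (fun V hV => (hp.mono hq V hV _).2 ((mem_intro y j).mono hb V hV)) q le_rfl
    exact ⟨r, hr, i, h1, eqF_symm h2⟩

theorem M_found {U : Ult P} (x : M U) (h : ∃ y, E U y x) :
    ∃ y, E U y x ∧ ¬ ∃ z, E U z x ∧ E U z y := by
  obtain ⟨x, rfl⟩ := mk_surj x
  obtain ⟨y, h⟩ := h
  obtain ⟨y, rfl⟩ := mk_surj y
  induction y generalizing U with
  | mk ι A b ih =>
    by_contra hc
    have h1 : ∃ z, E U z (mk U x) ∧ E U z (mk U (.mk ι A b)) := by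
      by_contra h1; exact hc ⟨_, h, h1⟩
    obtain ⟨z, h1, h2⟩ := h1
    obtain ⟨z, rfl⟩ := mk_surj z
    exact hc (mem_cases (y := .mk ι A b) (R := fun U => E U (mk U z) (mk U x) →
      ∃ y, E U y (mk U x) ∧ ¬ ∃ z, E U z (mk U x) ∧ E U z y)
      (fun j V _ h3 h4 => ih j (h3 ▸ h4)) U h2 h1)

/-- Separation for every property with truth values. -/
def sepN (x : Nm P) (S : ∀ U : Ult P, M U → Prop) : Nm P :=
  fam x.A (fun i U => Iic (x.b i) ∈ U.U ∧ S U (mk U (x.A i)))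

theorem mem_sepN {x : Nm P} {S : ∀ U : Ult P, M U → Prop} [∀ x, C (fun U => S U (mk U x))]
    {U : Ult P} {z : M U} : E U z (mk U (sepN x S)) ↔ E U z (mk U x) ∧ S U z := by
  obtain ⟨z, rfl⟩ := mk_surj z
  constructor
  · exact fam_cases (R := fun U => E U (mk U z) (mk U x) ∧ S U (mk U z))
      (fun i V h1 h2 => by rw [h2]; exact ⟨mem_intro x i V h1.1, h1.2⟩) U
  · rintro ⟨h1, h2⟩
    exact mem_cases (R := fun U => S U (mk U z) → E U (mk U z) (mk U (sepN x S)))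
      (fun i V h1 h2 h3 => by rw [h2] at h3 ⊢; exact fam_intro i ⟨h1, h3⟩) U h1 h2

def upair (x y : Nm P) : Nm P := fam (fun b : ULift Bool => cond b.down x y) (fun _ _ => True)

theorem mem_upair {x y : Nm P} {U : Ult P} {z : M U} :
    E U z (mk U (upair x y)) ↔ z = mk U x ∨ z = mk U y := by
  simp [upair, fam_fin, or_comm]

def insN (a y : Nm P) : Nm P :=
  fam (fun o : Option y.ι => o.elim a y.A) (fun o U => ∀ i ∈ o, Iic (y.b i) ∈ U.U)

theorem mem_insN {a y : Nm P} {U : Ult P} {z : M U} :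
    E U z (mk U (insN a y)) ↔ E U z (mk U y) ∨ z = mk U a := by
  obtain ⟨z, rfl⟩ := mk_surj z
  constructor
  · refine fam_cases (R := fun U => E U (mk U z) (mk U y) ∨ mk U z = mk U a) ?_ U
    rintro (_ | i) V h1 h2
    · exact Or.inr h2
    · exact Or.inl (h2 ▸ mem_intro y i V (h1 i rfl))
  · rintro (h | h)
    · refine mem_cases (R := fun U => E U (mk U z) (mk U (insN a y))) (fun i V h1 h2 => ?_) U h
      have : C (fun U : Ult P => ∀ j ∈ some i, Iic (y.b j) ∈ U.U) :=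
        ⟨(cl (Q := fun U : Ult P => Iic (y.b i) ∈ U.U)).congr fun U => by simp⟩
      rw [h2]
      exact fam_intro (A := fun o : Option y.ι => o.elim a y.A) (some i) (by simpa using h1)
    · have : C (fun U : Ult P => ∀ j ∈ (none : Option y.ι), Iic (y.b j) ∈ U.U) :=
        ⟨(cl_const True).congr fun U => by simp⟩
      rw [h]
      exact fam_intro (A := fun o : Option y.ι => o.elim a y.A) none (by simp)

def natN : ℕ → Nm P
  | 0 => fam (fun e : PEmpty => e.elim) (fun _ _ => True)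
  | n + 1 => insN (natN n) (natN n)

def omegaN : Nm P := fam (fun n : ULift ℕ => natN n.down) (fun _ _ => True)

theorem not_mem_zero {U : Ult P} (z : M U) : ¬ E U z (mk U (natN 0)) := by
  simp [natN, fam_fin]

theorem succ_natN {U : Ult P} (n : ℕ) : Succ (E U) (mk U (natN (n + 1))) (mk U (natN n)) :=
  fun _ => mem_insN

theorem nat_mem_omega {U : Ult P} (n : ℕ) : E U (mk U (natN n)) (mk U omegaN) :=
  fam_intro (A := fun n : ULift ℕ => natN n.down) ⟨n⟩ trivial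

@[elab_as_elim] theorem nat_cases {z : Nm P} {R : Ult P → Prop} [C R]
    (h : ∀ n U, mk U z = mk U (natN n) → R U) (U : Ult P)
    (hU : E U (mk U z) (mk U omegaN)) : R U :=
  fam_cases (fun n V _ => h n.down V) U hU

/-- A name that contains every subset of `x`. -/
def powN (x : Nm P) : Nm P :=
  fam (fun s : x.ι → P → Prop =>
    Nm.mk {ip : x.ι × P // s ip.1 ip.2} (fun t => x.A t.1.1) (fun t => t.1.2)) (fun _ _ => True)

theorem mem_powN {x : Nm P} {U : Ult P} {z : M U} (h : Sub (E U) z (mk U x)) :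
    E U z (mk U (powN x)) := by
  obtain ⟨z, rfl⟩ := mk_surj z
  have h1 : mk U z = mk U (fam x.A (fun i U => E U (mk U (x.A i)) (mk U z))) := by
    refine M_ext fun w => ?_
    obtain ⟨w, rfl⟩ := mk_surj w
    constructor
    · intro h2
      exact mem_cases (R := fun U => E U (mk U w) (mk U z) →
        E U (mk U w) (mk U (fam x.A (fun i U => E U (mk U (x.A i)) (mk U z)))))
        (fun i V _ h3 h4 => by rw [h3] at h4 ⊢; exact fam_intro i h4) U (h _ h2) h2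
    · exact fam_cases (R := fun U => E U (mk U w) (mk U z)) (fun i V h1 h2 => by rw [h2]; exact h1) U
  rw [h1]
  exact fam_intro (Q := fun _ _ => True)
    (fun i p => Frc p (fun U => E U (mk U (x.A i)) (mk U z))) trivial

theorem M_union {U : Ult P} (F : M U) : ∃ A, ∀ Y x, E U x Y → E U Y F → E U x A := by
  obtain ⟨F, rfl⟩ := mk_surj F
  refine ⟨mk U (fam (fun t : Σ i : F.ι, (F.A i).ι => (F.A t.1).A t.2) (fun _ _ => True)),
    fun Y x h1 h2 => ?_⟩
  obtain ⟨Y, rfl⟩ := mk_surj Y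
  obtain ⟨x, rfl⟩ := mk_surj x
  revert h1
  refine mem_cases (fun i U _ e1 h1 => ?_) U h2
  rw [e1] at h1
  refine mem_cases (fun j U _ e2 => ?_) U h1
  rw [e2]
  exact fam_intro (A := fun t : Σ i : F.ι, (F.A i).ι => (F.A t.1).A t.2) ⟨i, j⟩ trivial

theorem M_pow {U : Ult P} (x : M U) : ∃ y, ∀ z, (∀ w, E U w z → E U w x) → E U z y := by
  obtain ⟨x, rfl⟩ := mk_surj x
  exact ⟨_, fun z hz => mem_powN hz⟩

variable {U : Ult P}

theorem ex_upair (a b : M U) : ∃ z, ∀ w, E U w z ↔ w = a ∨ w = b := by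
  obtain ⟨a, rfl⟩ := mk_surj a
  obtain ⟨b, rfl⟩ := mk_surj b
  exact ⟨_, fun _ => mem_upair⟩

def kpair (x y : Nm P) : Nm P := upair (upair x x) (upair x y)

theorem isPair_kpair (x y : Nm P) : IsPair (E U) (mk U (kpair x y)) (mk U x) (mk U y) := by
  intro z
  rw [kpair, mem_upair]
  refine or_congr ⟨fun h w => ?_, fun h => M_ext fun w => ?_⟩
    ⟨fun h w => ?_, fun h => M_ext fun w => ?_⟩
  · rw [h, mem_upair, or_self]
  · rw [h, mem_upair, or_self]
  · rw [h, mem_upair]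
  · rw [h, mem_upair]

theorem IsPair.uniq {p q a b : M U} (h : IsPair (E U) p a b) (h' : IsPair (E U) q a b) : p = q :=
  M_ext fun z => (h z).trans (h' z).symm

theorem IsPair.inj {p a b c d : M U} (h : IsPair (E U) p a b) (h' : IsPair (E U) p c d) :
    a = c ∧ b = d := by
  have h1 : ∀ {a b c d : M U}, IsPair (E U) p a b → IsPair (E U) p c d →
      a = c ∧ (b = c ∨ b = d) := by
    intro a b c d h h'
    obtain ⟨z, hz⟩ := ex_upair a a
    obtain ⟨y, hy⟩ := ex_upair a b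
    constructor
    · rcases (h' z).1 ((h z).2 (Or.inl fun w => by rw [hz, or_self])) with h2 | h2
      · exact (h2 a).1 ((hz a).2 (Or.inl rfl))
      · exact ((hz c).1 ((h2 c).2 (Or.inl rfl))).elim Eq.symm Eq.symm
    · rcases (h' y).1 ((h y).2 (Or.inr hy)) with h2 | h2
      · exact Or.inl ((h2 b).1 ((hy b).2 (Or.inr rfl)))
      · exact (h2 b).1 ((hy b).2 (Or.inr rfl))
  obtain ⟨e1, e2⟩ := h1 h h'
  obtain ⟨-, e3⟩ := h1 h' h
  refine ⟨e1, ?_⟩
  rcases e2 with e2 | e2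
  · rcases e3 with e3 | e3
    · rw [e2, e3, e1]
    · exact e3.symm
  · exact e2

theorem mem_natN {n : ℕ} {z : M U} : E U z (mk U (natN n)) ↔ ∃ m < n, z = mk U (natN m) := by
  induction n with
  | zero => simp [not_mem_zero]
  | succ n ih =>
    rw [succ_natN n z, ih]
    constructor
    · rintro (⟨m, hm, h⟩ | h)
      · exact ⟨m, by omega, h⟩
      · exact ⟨n, by omega, h⟩
    · rintro ⟨m, hm, h⟩
      rcases Nat.lt_succ_iff_lt_or_eq.1 hm with h' | rfl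
      · exact Or.inl ⟨m, h', h⟩
      · exact Or.inr h

theorem not_mem_self (z : M U) : ¬ E U z z := by
  intro h
  obtain ⟨y, hy⟩ := ex_upair z z
  obtain ⟨w, h1, h2⟩ := M_found y ⟨z, (hy z).2 (Or.inl rfl)⟩
  have : w = z := ((hy w).1 h1).elim id id
  exact h2 ⟨z, (hy z).2 (Or.inl rfl), this ▸ h⟩

theorem natN_inj {m n : ℕ} (h : mk U (natN m) = mk U (natN n)) : m = n := by
  rcases lt_trichotomy m n with h' | h' | h'
  · exact absurd (mem_natN.2 ⟨m, h', h.symm⟩) (not_mem_self (mk U (natN n)))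
  · exact h'
  · exact absurd (mem_natN.2 ⟨n, h', h⟩) (not_mem_self (mk U (natN m)))

theorem natN_mem {m n : ℕ} : E U (mk U (natN m)) (mk U (natN n)) ↔ m < n :=
  mem_natN.trans ⟨fun ⟨_, hk, h⟩ => natN_inj h ▸ hk, fun h => ⟨m, h, rfl⟩⟩

theorem eq_zero {e : M U} (h : ∀ z, ¬ E U z e) : e = mk U (natN 0) :=
  M_ext fun z => iff_of_false (h z) (not_mem_zero z)

theorem Succ.uniq {s t n : M U} (h : Succ (E U) s n) (h' : Succ (E U) t n) : s = t :=
  M_ext fun z => (h z).trans (h' z).symm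

end Pool.Agent.H40.UZ
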