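import Pool.Agent.H40.U1
import Pool.Agent.H40.Js10

set_option autoImplicit false

/-! Symmetric names, the symmetric submodel and its Skolem hulls, one universe higher. -/

namespace Pool.Agent.H40.UZ

open Set Filter
open Pool.Agent.H40.Bspt (Fm IsZF)
open Pool.Agent.H40.Js (T bd fi allF orF impF pairF appF)

class NF (Γ : Type 1) [Group Γ] where
  F : Filter Γ
  conj : ∀ h : Γ, Tendsto (fun g => h⁻¹ * g * h) F F
  inv : Tendsto (fun g : Γ => g⁻¹) F F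

class Mo (Γ P : Type 1) [Group Γ] [Preorder P] [MulAction Γ P] : Prop where
  mono : ∀ (g : Γ) {p q : P}, p ≤ q → g • p ≤ g • q

variable {P : Type 1} [Preorder P] {Γ : Type 1} [Group Γ] [MulAction Γ P]

def act (g : Γ) : Nm P → Nm P
  | .mk ι A b => .mk ι (fun i => act g (A i)) (fun i => g • b i)

omit [Preorder P] in
theorem act_mul (g h : Γ) (x : Nm P) : act g (act h x) = act (g * h) x := by
  induction x with
  | mk ι A b ih => simp only [act, ih, mul_smul]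

omit [Preorder P] in
theorem act_one (x : Nm P) : act (1 : Γ) x = x := by
  induction x with
  | mk ι A b ih => simp only [act, ih, one_smul]

omit [Preorder P] in
theorem act_inv (g : Γ) (x : Nm P) : act g (act g⁻¹ x) = x := by
  rw [act_mul, mul_inv_cancel, act_one]

omit [Preorder P] in
theorem inv_act (g : Γ) (x : Nm P) : act g⁻¹ (act g x) = x := by
  rw [act_mul, inv_mul_cancel, act_one]

variable [Mo Γ P]

theorem le_smul {g : Γ} {p q : P} : q ≤ g • p ↔ g⁻¹ • q ≤ p :=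
  ⟨fun h => by simpa using Mo.mono g⁻¹ h, fun h => by simpa using Mo.mono g h⟩

theorem smul_le {g : Γ} {p q : P} : g • q ≤ p ↔ q ≤ g⁻¹ • p :=
  ⟨fun h => by simpa using Mo.mono g⁻¹ h, fun h => by simpa using Mo.mono g h⟩

theorem eqF_act (g : Γ) {x y : Nm P} {p : P} (h : eqF x y p) : eqF (act g x) (act g y) (g • p) := by
  induction x generalizing y p with
  | mk ι A b ih =>
    cases y with
    | mk κ B d =>
      refine ⟨fun i q h1 h2 => ?_, fun j q h1 h2 => ?_⟩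
      · obtain ⟨r, hr, j, h3, h4⟩ := h.1 i _ (le_smul.1 h1) (le_smul.1 h2)
        exact ⟨g • r, smul_le.2 hr, j, Mo.mono g h3, ih i h4⟩
      · obtain ⟨r, hr, i, h3, h4⟩ := h.2 j _ (le_smul.1 h1) (le_smul.1 h2)
        exact ⟨g • r, smul_le.2 hr, i, Mo.mono g h3, ih i h4⟩

theorem memF_act (g : Γ) {x y : Nm P} {p : P} (h : memF x y p) :
    memF (act g x) (act g y) (g • p) := by
  cases y with
  | mk κ B d =>
    intro q h1
    obtain ⟨r, hr, j, h3, h4⟩ := h _ (le_smul.1 h1)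
    exact ⟨g • r, smul_le.2 hr, j, Mo.mono g h3, eqF_act g h4⟩

def mv (g : Γ) (U : Ult P) : Ult P :=
  ⟨U.U.map (g • ·), fun D h1 h2 => U.dense {p | g • p ∈ D} (fun _ _ hab h => h1 (Mo.mono g hab) h)
    fun p => by
      obtain ⟨q, hq, h⟩ := h2 (g • p)
      exact ⟨g⁻¹ • q, le_smul.1 hq, by simpa using h⟩⟩

theorem mem_mv {g : Γ} {U : Ult P} {S : Set P} : S ∈ (mv g U).U ↔ {p | g • p ∈ S} ∈ U.U := Iff.rfl

theorem mv_inv (g : Γ) (U : Ult P) : mv g (mv g⁻¹ U) = U := by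
  obtain ⟨U, h⟩ := U
  have : (U.map (g⁻¹ • ·)).map (g • ·) = U := by
    rw [Ultrafilter.map_map]
    have : ((g • ·) ∘ (g⁻¹ • ·) : P → P) = id := funext fun p => by simp
    rw [this, Ultrafilter.map_id]
  simp only [mv, this]

theorem mv_surj (g : Γ) (U : Ult P) : ∃ V, mv g V = U := ⟨_, mv_inv g U⟩

theorem G_mv {g : Γ} {U : Ult P} {p : P} : Iic (g • p) ∈ (mv g U).U ↔ Iic p ∈ U.U := by
  rw [mem_mv]
  have : {q | g • q ∈ Iic (g • p)} = Iic p := by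
    ext q; simp only [mem_ofPred_eq, mem_Iic, smul_le, inv_smul_smul]
  rw [this]

theorem mk_mv {g : Γ} {U : Ult P} {x y : Nm P} :
    mk (mv g U) (act g x) = mk (mv g U) (act g y) ↔ mk U x = mk U y := by
  rw [mk_eq, mk_eq, mem_mv]
  refine iff_of_eq (congrArg (· ∈ U.U) (Set.ext fun p => ⟨fun h => ?_, fun h => eqF_act g h⟩))
  simpa [inv_act] using eqF_act g⁻¹ h

theorem E_mv {g : Γ} {U : Ult P} {x y : Nm P} :
    E (mv g U) (mk _ (act g x)) (mk _ (act g y)) ↔ E U (mk U x) (mk U y) := by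
  show {p | memF _ _ p} ∈ (mv g U).U ↔ {p | memF _ _ p} ∈ U.U
  rw [mem_mv]
  refine iff_of_eq (congrArg (· ∈ U.U) (Set.ext fun p => ⟨fun h => ?_, fun h => memF_act g h⟩))
  simpa [inv_act] using memF_act g⁻¹ h

theorem act_surj (g : Γ) {U : Ult P} (a : M U) : ∃ x, mk U (act g x) = a := by
  obtain ⟨x, rfl⟩ := mk_surj a
  exact ⟨act g⁻¹ x, by rw [act_inv]⟩

/-- two names agree after moving if membership corresponds -/
theorem act_eq {g : Γ} {x y : Nm P}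
    (h : ∀ U z, E U (mk U z) (mk U x) ↔ E (mv g U) (mk _ (act g z)) (mk _ y)) (U : Ult P) :
    mk U (act g x) = mk U y := by
  obtain ⟨U, rfl⟩ := mv_surj g U
  refine M_ext fun z => ?_
  obtain ⟨z, rfl⟩ := act_surj g z
  rw [E_mv, h]

variable (Γ) [NF Γ]

def Sm (x : Nm P) : Prop := ∀ᶠ g in NF.F (Γ := Γ), ∀ U, mk U (act g x) = mk U x

def HS : Nm P → Prop
  | .mk ι A b => Sm Γ (.mk ι A b) ∧ ∀ i, HS (A i)

def L (U : Ult P) (a : M U) : Prop := ∃ x, mk U x = a ∧ {p | ∃ y, HS Γ y ∧ eqF x y p} ∈ U.U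

variable {Γ}

omit [Mo Γ P] in
theorem hs_iff {x : Nm P} : HS Γ x ↔ Sm Γ x ∧ ∀ i, HS Γ (x.A i) := by cases x; rfl

omit [Mo Γ P] in
theorem hs_fam {ι : Type 1} {A : ι → Nm P} {Q : ι → Ult P → Prop} (h : Sm Γ (fam A Q))
    (h' : ∀ i, HS Γ (A i)) : HS Γ (fam A Q) := ⟨h, fun _ => h' _⟩

theorem sm_act (h : Γ) {x : Nm P} (hx : Sm Γ x) : Sm Γ (act h x) := by
  filter_upwards [(NF.conj h).eventually hx] with g hg U
  obtain ⟨U, rfl⟩ := mv_surj h U
  have : act g (act h x) = act h (act (h⁻¹ * g * h) x) := by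
    rw [act_mul, act_mul]; congr 1; group
  rw [this, mk_mv, hg]

theorem hs_act (h : Γ) {x : Nm P} (hx : HS Γ x) : HS Γ (act h x) := by
  induction x with
  | mk ι A b ih => exact ⟨sm_act h hx.1, fun i => ih i (hx.2 i)⟩

theorem sm_of_sub {x : Nm P} (h : ∀ᶠ g in NF.F (Γ := Γ), ∀ U z,
    E U (mk U z) (mk U x) → E (mv g U) (mk _ (act g z)) (mk _ x)) : Sm Γ x := by
  filter_upwards [h, NF.inv.eventually h] with g h1 h2
  refine act_eq fun U z => ⟨h1 U z, fun h3 => ?_⟩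
  have := E_mv (g := g) |>.2 (h2 _ _ h3)
  rw [mv_inv, act_inv] at this
  exact E_mv.1 this

omit [Mo Γ P] in
theorem L_mk {U : Ult P} {x : Nm P} : L Γ U (mk U x) ↔ {p | ∃ y, HS Γ y ∧ eqF x y p} ∈ U.U := by
  refine ⟨fun ⟨x', h1, h2⟩ => ?_, fun h => ⟨x, rfl, h⟩⟩
  filter_upwards [mk_eq.1 h1, h2] with p a ⟨y, b, c⟩
  exact ⟨y, b, eqF_trans (eqF_symm a) c⟩

instance cL (x : Nm P) : C (fun U => L Γ U (mk U x)) :=
  ⟨cl_of_set (S := {p | ∃ y, HS Γ y ∧ eqF x y p})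
    (fun _ _ hab ⟨y, a, b⟩ => ⟨y, a, eqF_mono b hab⟩) fun _ => L_mk⟩

omit [Mo Γ P] in
theorem L_hs {x : Nm P} (h : HS Γ x) (U : Ult P) : L Γ U (mk U x) :=
  L_mk.2 (univ_mem' fun p => ⟨x, h, eqF_refl x p⟩)

omit [Mo Γ P] in
theorem L_elim {x : Nm P} {p : P} (h : Frc p fun U => L Γ U (mk U x)) :
    ∃ q ≤ p, ∃ y, HS Γ y ∧ Frc q fun U => mk U x = mk U y := by
  obtain ⟨U, h1, h2⟩ := h.ex
  obtain ⟨q, h3, y, h4, h5⟩ := Filter.nonempty_of_mem (inter_mem h1 (L_mk.1 h2))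
  exact ⟨q, h3, y, h4, frc_eq.2 h5⟩

omit [Mo Γ P] in
@[elab_as_elim] theorem L_cases {x : Nm P} {R : Ult P → Prop} [C R]
    (h : ∀ y U, HS Γ y → mk U x = mk U y → R U) (U : Ult P) (hU : L Γ U (mk U x)) : R U := by
  refine by_dense (H := fun U => L Γ U (mk U x)) (fun p hp => ?_) U hU
  obtain ⟨q, hq, y, h1, h2⟩ := L_elim hp
  exact ⟨q, hq, fun V hV => h y V h1 (h2 V hV)⟩

omit [Mo Γ P] in
theorem L_tr {U : Ult P} {a b : M U} (h : E U a b) (hb : L Γ U b) : L Γ U a := by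
  obtain ⟨a, rfl⟩ := mk_surj a
  obtain ⟨b, rfl⟩ := mk_surj b
  revert h
  refine L_cases (fun y U hy e h => ?_) U hb
  rw [e] at h
  refine mem_cases (fun j U _ e2 => ?_) U h
  rw [e2]
  exact L_hs ((hs_iff.1 hy).2 j) U

theorem L_mv {g : Γ} {U : Ult P} {x : Nm P} :
    L Γ (mv g U) (mk _ (act g x)) ↔ L Γ U (mk U x) := by
  rw [L_mk, L_mk, mem_mv]
  refine iff_of_eq (congrArg (· ∈ U.U) (Set.ext fun p => ⟨fun ⟨y, a, h⟩ => ⟨_, hs_act g⁻¹ a, ?_⟩,
    fun ⟨y, a, h⟩ => ⟨_, hs_act g a, eqF_act g h⟩⟩))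
  simpa [inv_act] using eqF_act g⁻¹ h

def cs {α : Type 2} (a : α) (v : ℕ → α) : ℕ → α
  | 0 => a
  | n + 1 => v n

variable (Γ) in
def SL (U : Ult P) : Fm → (ℕ → M U) → Prop
  | .mem i j, v => E U (v i) (v j)
  | .eq i j, v => v i = v j
  | .neg φ, v => ¬ SL U φ v
  | .and φ ψ, v => SL U φ v ∧ SL U ψ v
  | .ex φ, v => ∃ a, L Γ U a ∧ SL U φ (cs a v)

omit [Mo Γ P] in
theorem SL_congr {U : Ult P} (φ : Fm) : ∀ {v w : ℕ → M U}, (∀ i < bd φ, v i = w i) →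
    (SL Γ U φ v ↔ SL Γ U φ w) := by
  induction φ with
  | mem i j => intro v w h; simp only [SL]; rw [h i (by simp [bd]), h j (by simp [bd])]
  | eq i j => intro v w h; simp only [SL]; rw [h i (by simp [bd]), h j (by simp [bd])]
  | neg φ ih => exact fun h => not_congr (ih h)
  | and φ ψ ih1 ih2 =>
    exact fun h => and_congr (ih1 fun i hi => h i (lt_max_of_lt_left hi))
      (ih2 fun i hi => h i (lt_max_of_lt_right hi))
  | ex φ ih =>
    refine fun h => exists_congr fun a => and_congr_right' (ih ?_)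
    rintro (_ | i) hi
    · rfl
    · exact h i (by simp only [bd]; omega)

theorem cs_mk (U : Ult P) (x : Nm P) (v : ℕ → Nm P) :
    cs (mk U x) (fun i => mk U (v i)) = fun i => mk U (cs x v i) := by
  funext i; cases i <;> rfl

omit [Mo Γ P] in
theorem cl_SL (φ : Fm) : ∀ v : ℕ → Nm P, Cl (fun U => SL Γ U φ (fun i => mk U (v i))) := by
  induction φ with
  | mem i j => exact fun v => cl_mem _ _
  | eq i j => exact fun v => cl_eq _ _
  | neg a ih => exact fun v => cl_not (ih v)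
  | and a b iha ihb => exact fun v => cl_and (iha v) (ihb v)
  | ex a ih =>
    exact fun v => cl_ex (Q := fun U x => L Γ U x ∧ SL Γ U a (cs x fun i => mk U (v i)))
      fun x => cl_and cl ((ih (cs x v)).congr fun U => by rw [cs_mk])

instance cSL (φ : Fm) (v : ℕ → Nm P) : C (fun U => SL Γ U φ (fun i => mk U (v i))) := ⟨cl_SL φ v⟩
instance cSL1 (φ : Fm) (v : ℕ → Nm P) (x : Nm P) :
    C (fun U => SL Γ U φ (cs (mk U x) fun i => mk U (v i))) :=
  ⟨(cl_SL φ (cs x v)).congr fun U => by rw [cs_mk]⟩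
instance cSL2 (φ : Fm) (v : ℕ → Nm P) (x y : Nm P) :
    C (fun U => SL Γ U φ (cs (mk U x) (cs (mk U y) fun i => mk U (v i)))) :=
  ⟨(cl_SL φ (cs x (cs y v))).congr fun U => by rw [cs_mk, cs_mk]⟩

theorem SL_mv (g : Γ) (U : Ult P) (φ : Fm) : ∀ v : ℕ → Nm P,
    SL Γ (mv g U) φ (fun i => mk _ (act g (v i))) ↔ SL Γ U φ (fun i => mk U (v i)) := by
  induction φ with
  | mem i j => exact fun v => E_mv
  | eq i j => exact fun v => mk_mv
  | neg a ih => exact fun v => not_congr (ih v)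
  | and a b iha ihb => exact fun v => and_congr (iha v) (ihb v)
  | ex a ih =>
    have key : ∀ (v : ℕ → Nm P) x, (L Γ (mv g U) (mk _ (act g x)) ∧
        SL Γ (mv g U) a (cs (mk _ (act g x)) fun i => mk _ (act g (v i)))) ↔
        (L Γ U (mk U x) ∧ SL Γ U a (cs (mk U x) fun i => mk U (v i))) := by
      intro v x
      rw [L_mv, cs_mk U, ← ih, cs_mk _ _ fun i => act g (v i)]
      refine and_congr_right' (iff_of_eq (congrArg _ (funext ?_)))
      rintro (_ | i) <;> rfl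
    intro v
    constructor
    · rintro ⟨x, h⟩
      obtain ⟨x, rfl⟩ := act_surj g x
      exact ⟨_, (key v x).1 h⟩
    · rintro ⟨x, h⟩
      obtain ⟨x, rfl⟩ := mk_surj x
      exact ⟨_, (key v x).2 h⟩

omit [Mo Γ P] in
theorem SL_ren {U : Ult P} (φ : Fm) : ∀ (ρ : ℕ → ℕ) (v : ℕ → M U),
    SL Γ U (φ.ren ρ) v ↔ SL Γ U φ (v ∘ ρ) := by
  induction φ with
  | mem i j => exact fun _ _ => Iff.rfl
  | eq i j => exact fun _ _ => Iff.rfl
  | neg _ ih => exact fun ρ v => not_congr (ih ρ v)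
  | and _ _ ih1 ih2 => exact fun ρ v => and_congr (ih1 ρ v) (ih2 ρ v)
  | ex _ ih =>
    refine fun ρ v => exists_congr fun a => and_congr_right'
      ((ih _ _).trans (iff_of_eq (congrArg _ (funext ?_))))
    rintro (_ | i) <;> rfl

theorem nat_act (g : Γ) (n : ℕ) (U : Ult P) : mk U (act g (natN n)) = mk U (natN n) := by
  induction n using Nat.strong_induction_on generalizing U with
  | _ n ih =>
    refine act_eq (fun U z => ?_) U
    rw [mem_natN, mem_natN]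
    exact exists_congr fun m => and_congr_right fun hm => by rw [← ih m hm (mv g U), mk_mv]

theorem hs_nat (n : ℕ) : HS Γ (natN n : Nm P) := by
  induction n with
  | zero => exact hs_fam (Eventually.of_forall fun g => nat_act g 0) fun e => e.elim
  | succ n ih =>
    refine hs_iff.2 ⟨Eventually.of_forall fun g => nat_act g (n + 1), ?_⟩
    rintro ⟨⟨_ | i, _⟩, _⟩
    · exact ih
    · exact (hs_iff.1 ih).2 i

omit [Mo Γ P] in
theorem L_casesN (n : ℕ) {v : ℕ → Nm P} {R : Ult P → Prop} [C R] (z : Nm P) (hz : HS Γ z)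
    (h : ∀ (w : ℕ → Nm P) U, (∀ i, HS Γ (w i)) → (∀ i < n, mk U (v i) = mk U (w i)) → R U) (U : Ult P)
    (hU : ∀ i, L Γ U (mk U (v i))) : R U := by
  have key : ∀ m, ∀ (R : Ult P → Prop) [C R], (∀ (w : ℕ → Nm P) U, (∀ i, HS Γ (w i)) →
      (∀ i < m, mk U (v i) = mk U (w i)) → R U) → R U := by
    intro m
    induction m with
    | zero => exact fun R _ h => h (fun _ => z) U (fun _ => hz) fun _ hi => absurd hi (by omega)
    | succ m ih =>
      intro R _ h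
      refine ih (fun U => L Γ U (mk U (v m)) → R U) (fun w V h1 h2 h3 => ?_) (hU m)
      have : C fun V => ∀ i : Fin m, mk V (v i) = mk V (w i) := ⟨cl_fin fun _ => cl⟩
      refine L_cases (R := fun V => (∀ i : Fin m, mk V (v i) = mk V (w i)) → R V)
        (fun y V hy e h4 => h (Function.update w m y) V (fun i => ?_) fun i hi => ?_) V h3
        fun i => h2 i i.2
      · by_cases e' : i = m
        · rw [e', Function.update_self]; exact hy
        · rw [Function.update_of_ne e']; exact h1 i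
      · by_cases e' : i = m
        · rw [e', Function.update_self]; exact e
        · rw [Function.update_of_ne e']; exact h4 ⟨i, by omega⟩
  exact key n R h

theorem sepL {U : Ult P} (φ : Fm) (v : ℕ → M U) (x : M U) (hv : ∀ i, L Γ U (v i)) (hx : L Γ U x) :
    ∃ y, L Γ U y ∧ ∀ z, E U z y ↔ E U z x ∧ SL Γ U φ (cs z v) := by
  obtain ⟨x, rfl⟩ := mk_surj x
  choose v' hv' using fun i => mk_surj (v i)
  obtain rfl : v = fun i => mk U (v' i) := funext fun i => (hv' i).symm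
  refine ⟨_, ?_, fun z => mem_sepN (S := fun U z => SL Γ U φ (cs z fun i => mk U (v' i)))⟩
  refine L_casesN (bd φ + 1) (v := cs x v') (R := fun U => L Γ U (mk U (sepN x
    fun U z => SL Γ U φ (cs z fun i => mk U (v' i))))) _ (hs_nat 0) (fun w V h1 h2 => ?_) U
    (by rintro (_ | i); exacts [hx, hv i])
  haveI : ∀ x, C fun U => SL Γ U φ (cs (mk U x) fun i => mk U (w (i + 1))) :=
    fun x => cSL1 φ (fun i => w (i + 1)) x
  have e : mk V (sepN x fun U z => SL Γ U φ (cs z fun i => mk U (v' i))) =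
      mk V (sepN (w 0) fun U z => SL Γ U φ (cs z fun i => mk U (w (i + 1)))) := by
    refine M_ext fun z => ?_
    rw [mem_sepN, mem_sepN, ← h2 0 (by omega)]
    refine and_congr_right' (SL_congr φ ?_)
    rintro (_ | i) hi
    · rfl
    · exact h2 (i + 1) (by omega)
  rw [e]
  refine L_hs (hs_fam (sm_of_sub ?_) (hs_iff.1 (h1 0)).2) V
  have : ∀ᶠ g in NF.F (Γ := Γ), ∀ i ∈ Iic (bd φ), ∀ U, mk U (act g (w i)) = mk U (w i) :=
    (eventually_all_finite (finite_Iic _)).2 fun i _ => (hs_iff.1 (h1 i)).1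
  filter_upwards [this] with g hg U z hz
  have h3 := (mem_sepN (S := fun U z => SL Γ U φ (cs z fun i => mk U (w (i + 1))))).1 hz
  refine (mem_sepN (S := fun U z => SL Γ U φ (cs z fun i => mk U (w (i + 1))))).2 ⟨?_, ?_⟩
  · rw [← hg 0 (Nat.zero_le _), E_mv]; exact h3.1
  · have h4 := h3.2
    rw [cs_mk, ← SL_mv g] at h4
    refine (SL_congr φ ?_).1 h4
    rintro (_ | i) hi
    · rfl
    · exact hg (i + 1) hi.le _

variable (Γ) in
def orbN {ι : Type 1} (A : ι → Nm P) : Nm P := fam (fun t : Γ × ι => act t.1 (A t.2)) fun _ _ => True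

theorem hs_orbN {ι : Type 1} {A : ι → Nm P} (h : ∀ i, HS Γ (A i)) : HS Γ (orbN Γ A) := by
  refine hs_fam (sm_of_sub (Eventually.of_forall fun g U z hz => ?_)) fun t => hs_act _ (h _)
  obtain ⟨U, rfl⟩ := mv_surj g⁻¹ U
  have h1 := (E_mv (g := g)).2 hz
  rw [mv_inv] at h1 ⊢
  refine mem_cases (R := fun U => E U (mk U (act g z)) (mk U (orbN Γ A))) (fun j V _ e => ?_) U h1
  rw [e]
  show E V (mk V (act g (act j.1.1.1 (A j.1.1.2)))) _
  rw [act_mul]
  exact fam_intro (A := fun t : Γ × ι => act t.1 (A t.2)) (_, _) trivial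

omit [Mo Γ P] [NF Γ] in
theorem mem_orbN {ι : Type 1} (A : ι → Nm P) (i : ι) (U : Ult P) :
    E U (mk U (A i)) (mk U (orbN Γ A)) := by
  have := fam_intro (A := fun t : Γ × ι => act t.1 (A t.2)) (Q := fun _ _ => True) (U := U) (1, i) trivial
  rwa [act_one] at this

theorem collL (x : Nm P) (S : ∀ U : Ult P, M U → M U → Prop)
    [∀ a b, C (fun U => S U (mk U a) (mk U b))] : ∃ Y : Nm P, HS Γ Y ∧ ∀ U a, E U a (mk U x) →
      (∃ b, L Γ U b ∧ S U a b) → ∃ b, E U b (mk U Y) ∧ S U a b := by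
  have : ∀ t : x.ι × P, ∃ y, HS Γ y ∧ ((∃ y, HS Γ y ∧ Frc t.2 fun U => S U (mk U (x.A t.1)) (mk U y)) →
      Frc t.2 fun U => S U (mk U (x.A t.1)) (mk U y)) := by
    intro t
    by_cases h : ∃ y, HS Γ y ∧ Frc t.2 fun U => S U (mk U (x.A t.1)) (mk U y)
    · exact h.imp fun y hy => ⟨hy.1, fun _ => hy.2⟩
    · exact ⟨_, hs_nat 0, fun h' => absurd h' h⟩
  choose y hy hy' using this
  refine ⟨orbN Γ y, hs_orbN hy, fun U a ha => ?_⟩
  obtain ⟨a, rfl⟩ := mk_surj a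
  refine mem_cases (R := fun U => (∃ b, L Γ U b ∧ S U (mk U a) b) →
    ∃ b, E U b (mk U (orbN Γ y)) ∧ S U (mk U a) b) (fun i V _ e => ?_) U ha
  rw [e]
  refine by_dense (H := fun V => ∃ b, L Γ V b ∧ S V (mk V (x.A i)) b)
    (R := fun V => ∃ b, E V b (mk V (orbN Γ y)) ∧ S V (mk V (x.A i)) b) (fun p hp => ?_) V
  obtain ⟨b, hb⟩ := frc_ex hp
  obtain ⟨q, hq, z, h1, h2⟩ := L_elim (hb.imp fun _ h => h.1)
  exact ⟨q, hq, fun W hW => ⟨_, mem_orbN y (i, q) W,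
    hy' (i, q) ⟨z, h1, fun W hW => by
      have e : mk W b = mk W z := h2 W hW
      show S W _ (mk W z)
      exact e ▸ (hb.mono hq W hW).2⟩ W hW⟩⟩

theorem bndL {U : Ult P} (x : M U) : ∃ Y, L Γ U Y ∧ ∀ a, E U a x → L Γ U a → E U a Y := by
  obtain ⟨x, rfl⟩ := mk_surj x
  obtain ⟨Y, h1, h2⟩ := collL (Γ := Γ) x fun U a b => b = a
  exact ⟨_, L_hs h1 U, fun a ha hl => by
    obtain ⟨b, h3, rfl⟩ := h2 U a ha ⟨a, hl, rfl⟩
    exact h3⟩

def nU (n : ULift ℕ) : Nm P := natN n.down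

variable (Γ)

theorem ex_wit (φ : Fm) (v : ℕ → Nm P) : ∃ x, ∀ U, L Γ U (mk U x) ∧
    ((∃ a, L Γ U a ∧ SL Γ U φ (cs a fun i => mk U (v i))) → SL Γ U φ (cs (mk U x) fun i => mk U (v i))) := by
  obtain ⟨x, hx⟩ := max_pr (fun (U : Ult P) y => L Γ U y ∧ ((∃ a, L Γ U a ∧ SL Γ U φ (cs a fun i => mk U (v i))) →
    SL Γ U φ (cs y fun i => mk U (v i)))) fun x => cl_and (cL x).cl (cl_imp (cl_SL φ.ex v) (cSL1 φ v x).cl)
  refine ⟨x, fun U => hx U ?_⟩
  by_cases h : ∃ a, L Γ U a ∧ SL Γ U φ (cs a fun i => mk U (v i))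
  · obtain ⟨a, h1, h2⟩ := h
    exact ⟨a, h1, fun _ => h2⟩
  · exact ⟨_, L_hs (hs_nat 0) U, fun h' => absurd h' h⟩

variable {B : Type} (ν : B → Nm P)

noncomputable def ev : T B → ℕ → Nm P
  | .base b => fun _ => ν b
  | .cons s t => cs (ev s 0) (ev t)
  | .sk φ t => fun _ => (ex_wit Γ φ (ev t)).choose

def H (U : Ult P) : Type := Quotient (Setoid.ker fun s : T B => mk U (ev Γ ν s 0))

variable {Γ ν} {U : Ult P}

noncomputable def j : H Γ ν U → M U := Quotient.lift (fun s => mk U (ev Γ ν s 0)) fun _ _ h => h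

def EH (a b : H Γ ν U) : Prop := E U (j a) (j b)

noncomputable def hb (b : B) : H Γ ν U := Quotient.mk _ (T.base b)

theorem j_hb (b : B) : j (hb b : H Γ ν U) = mk U (ν b) := rfl

theorem j_inj : Function.Injective (j : H Γ ν U → M U) := by
  rintro ⟨s⟩ ⟨t⟩ h
  exact Quotient.sound h

theorem j_surj (a : H Γ ν U) : ∃ s, j a = mk U (ev Γ ν s 0) := by
  obtain ⟨s⟩ := a
  exact ⟨s, rfl⟩

theorem ev_L (hν : ∀ b, HS Γ (ν b)) (s : T B) : ∀ i, L Γ U (mk U (ev Γ ν s i)) := by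
  induction s with
  | base b => exact fun _ => L_hs (hν b) U
  | cons s t ih1 ih2 => rintro (_ | i); exacts [ih1 0, ih2 i]
  | sk φ t _ => exact fun _ => ((ex_wit Γ φ (ev Γ ν t)).choose_spec U).1

theorem j_L (hν : ∀ b, HS Γ (ν b)) (a : H Γ ν U) : L Γ U (j a) := by
  obtain ⟨s, h⟩ := j_surj a
  rw [h]; exact ev_L hν s 0

theorem ex_tm (n : ℕ) : ∀ w : ℕ → H Γ ν U, ∃ t, ∀ i < n, mk U (ev Γ ν t i) = j (w i) := by
  induction n with
  | zero => exact fun w => ⟨(w 0).out, fun _ h => absurd h (by omega)⟩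
  | succ n ih =>
    intro w
    obtain ⟨t, ht⟩ := ih fun i => w (i + 1)
    obtain ⟨s, hs⟩ := j_surj (w 0)
    refine ⟨.cons s t, ?_⟩
    rintro (_ | i) hi
    · exact hs.symm
    · exact ht i (by omega)

theorem tv (φ : Fm) (w : ℕ → H Γ ν U) (h : ∃ a, L Γ U a ∧ SL Γ U φ (cs a fun i => j (w i))) :
    ∃ b : H Γ ν U, SL Γ U φ (cs (j b) fun i => j (w i)) := by
  obtain ⟨t, ht⟩ := ex_tm (bd φ) w
  have key : ∀ a, SL Γ U φ (cs a fun i => j (w i)) ↔ SL Γ U φ (cs a fun i => mk U (ev Γ ν t i)) := by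
    refine fun a => SL_congr φ ?_
    rintro (_ | i) hi
    · rfl
    · exact (ht i (by omega)).symm
  refine ⟨Quotient.mk _ (.sk φ t), (key _).2 (((ex_wit Γ φ (ev Γ ν t)).choose_spec U).2 ?_)⟩
  exact h.imp fun a ha => ⟨ha.1, (key a).1 ha.2⟩

theorem j_cons (b : H Γ ν U) (w : ℕ → H Γ ν U) :
    (fun i => j (Bspt.cons b w i)) = cs (j b) fun i => j (w i) := by
  funext i; cases i <;> rfl

theorem truth (hν : ∀ b, HS Γ (ν b)) (φ : Fm) : ∀ w : ℕ → H Γ ν U,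
    Bspt.Sat EH φ w ↔ SL Γ U φ fun i => j (w i) := by
  induction φ with
  | mem i k => exact fun _ => Iff.rfl
  | eq i k => exact fun _ => j_inj.eq_iff.symm
  | neg _ ih => exact fun w => not_congr (ih w)
  | and _ _ ih1 ih2 => exact fun w => and_congr (ih1 w) (ih2 w)
  | ex φ ih =>
    intro w
    constructor
    · rintro ⟨b, h⟩
      exact ⟨j b, j_L hν b, j_cons b w ▸ (ih _).1 h⟩
    · intro h
      obtain ⟨b, hb⟩ := tv φ w h
      exact ⟨b, (ih _).2 (j_cons b w ▸ hb)⟩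

theorem cmp (hν : ∀ b, HS Γ (ν b)) (θ : Fm) (v : ℕ → H Γ ν U)
    (h : ∃ x, ∀ a, L Γ U a → SL Γ U θ (cs a fun i => j (v i)) → E U a x) :
    ∃ y, ∀ z, EH z y ↔ Bspt.Sat EH θ (Bspt.cons z v) := by
  obtain ⟨x, hx⟩ := h
  obtain ⟨Y, h1, h2⟩ := bndL (Γ := Γ) x
  obtain ⟨y, h3, h4⟩ := sepL θ (fun i => j (v i)) Y (fun i => j_L hν _) h1
  let ρ : ℕ → ℕ := Bspt.cons 0 fun i => i + 2
  obtain ⟨b, hb⟩ := tv (.neg (.ex (.neg (fi (.mem 0 1) (θ.ren ρ))))) v ⟨y, h3, by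
    rintro ⟨z, hz, h5⟩
    refine h5 ?_
    have e : (cs z (cs y fun i => j (v i))) ∘ ρ = cs z fun i => j (v i) := by
      funext i; cases i <;> rfl
    have := h4 z
    simp only [fi, SL, SL_ren, e]
    exact ⟨fun ⟨a, b⟩ => b (this.1 a).2, fun ⟨a, b⟩ => b (this.2 ⟨h2 z (hx z hz a) hz, a⟩)⟩⟩
  refine ⟨b, fun z => ?_⟩
  have e : (cs (j z) (cs (j b) fun i => j (v i))) ∘ ρ = cs (j z) fun i => j (v i) := by
    funext i; cases i <;> rfl
  have := not_not.1 fun h => hb ⟨j z, j_L hν z, h⟩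
  simp only [fi, SL, SL_ren, e] at this
  rw [truth hν, j_cons]
  exact ⟨fun a => not_not.1 fun b => this.1 ⟨a, b⟩, fun a => not_not.1 fun b => this.2 ⟨a, b⟩⟩

theorem hull_zf [Nonempty B] (hν : ∀ b, HS Γ (ν b)) : IsZF (EH : H Γ ν U → H Γ ν U → Prop) where
  ext x y h := by
    refine j_inj (M_ext fun z => ?_)
    by_contra hc
    obtain ⟨b, hb⟩ := tv (.neg (fi (.mem 0 1) (.mem 0 2))) (Bspt.cons x fun _ => y) ⟨z, by
      by_cases h1 : E U z (j x)
      · exact L_tr h1 (j_L hν x)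
      · exact L_tr (not_not.1 fun h2 => hc (iff_of_false h1 h2)) (j_L hν y),
      fun h1 => hc ⟨fun a => not_not.1 fun b => h1.1 ⟨a, b⟩, fun a => not_not.1 fun b => h1.2 ⟨a, b⟩⟩⟩
    exact hb ⟨fun a => a.2 ((h b).1 a.1), fun a => a.2 ((h b).2 a.1)⟩
  found x := by
    rintro ⟨y, hy⟩
    obtain ⟨z, h1, h2⟩ := M_found (j x) ⟨_, hy⟩
    obtain ⟨b, hb⟩ := tv (.and (.mem 0 1) (.neg (.ex (.and (.mem 0 1) (.mem 0 2))))) (fun _ => x)
      ⟨z, L_tr h1 (j_L hν x), h1, fun ⟨a, _, h3, h4⟩ => h2 ⟨a, h4, h3⟩⟩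
    exact ⟨b, hb.1, fun c h3 h4 => hb.2 ⟨j c, j_L hν c, h3, h4⟩⟩
  pair x y := by
    obtain ⟨p, hp⟩ := ex_upair (j x) (j y)
    obtain ⟨b, hb⟩ := cmp hν (.neg (.and (.neg (.eq 0 1)) (.neg (.eq 0 2)))) (Bspt.cons x fun _ => y)
      ⟨p, fun a _ h => (hp a).2 (or_iff_not_and_not.2 h)⟩
    exact ⟨b, fun z => (hb z).trans or_iff_not_and_not.symm⟩
  union x := by
    obtain ⟨p, hp⟩ := M_union (j x)
    exact cmp hν (.ex (.and (.mem 0 2) (.mem 1 0))) (fun _ => x)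
      ⟨p, fun a _ ⟨y, _, h1, h2⟩ => hp y a h2 h1⟩
  power x := by
    obtain ⟨p, hp⟩ := M_pow (j x)
    obtain ⟨b, hb⟩ := cmp hν (.neg (.ex (.and (.mem 0 1) (.neg (.mem 0 2))))) (fun _ => x)
      ⟨p, fun a ha h => hp a fun w hw => not_not.1 fun h' => h ⟨w, L_tr hw ha, hw, h'⟩⟩
    exact ⟨b, fun z => (hb z).trans ⟨fun h y hy => not_not.1 fun h' => h ⟨y, hy, h'⟩,
      fun h ⟨y, hy, h'⟩ => h' (h y hy)⟩⟩
  inf := by
    have hm : ∀ z n, z = mk U (natN n) → E U z (mk U (orbN Γ nU)) := fun z n e => e ▸ mem_orbN nU ⟨n⟩ U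
    obtain ⟨b, h1, h2⟩ := (truth hν (.ex (.and (.ex (.and (.mem 0 1) (.neg (.ex (.mem 0 1)))))
      (.neg (.ex (.and (.mem 0 1) (.neg (.ex (.and (.mem 0 2) (.neg (.ex (.neg (fi (.mem 0 1)
        (.neg (.and (.neg (.mem 0 2)) (.neg (.eq 0 2))))))))))))))))
        fun _ => (hb (Classical.arbitrary B) : H Γ ν U)).2
      ⟨mk U (orbN Γ nU), L_hs (hs_orbN fun _ => hs_nat _) U, ⟨_, L_hs (hs_nat 0) U, hm _ 0 rfl,
        fun ⟨z, _, h⟩ => not_mem_zero z h⟩, by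
          rintro ⟨y, -, h1, h2⟩
          obtain ⟨y, rfl⟩ := mk_surj y
          obtain ⟨s, h3, h4⟩ := fam_cases (R := fun U => ∃ s, E U s (mk U (orbN Γ nU)) ∧
            Succ (E U) s (mk U y)) (fun t V _ e => ⟨_, mem_orbN nU ⟨t.2.down + 1⟩ V, by
              rw [e, nU, nU, nat_act]; exact succ_natN _⟩) U h1
          refine h2 ⟨s, L_tr h3 (L_hs (hs_orbN fun _ => hs_nat _) U), h3, fun ⟨z, _, h5⟩ => h5 ?_⟩
          exact ⟨fun a => a.2 (or_iff_not_and_not.1 ((h4 z).1 a.1)),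
            fun a => a.2 ((h4 z).2 (or_iff_not_and_not.2 a.1))⟩⟩
    obtain ⟨e, h3, h4⟩ := h1
    refine ⟨b, ⟨e, h3, fun y hy => h4 ⟨y, hy⟩⟩, fun x hx => ?_⟩
    obtain ⟨s, h5, h6⟩ := not_not.1 fun h => h2 ⟨x, hx, h⟩
    refine ⟨s, h5, fun y => ?_⟩
    have := not_not.1 fun h => h6 ⟨y, h⟩
    exact ⟨fun a => or_iff_not_and_not.2 (not_not.1 fun b => this.1 ⟨a, b⟩),
      fun a => not_not.1 fun b => this.2 ⟨or_iff_not_and_not.1 a, b⟩⟩
  sep φ v x := by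
    obtain ⟨b, hb⟩ := cmp hν (.and (.mem 0 1) (φ.ren (Bspt.cons 0 fun i => i + 2))) (Bspt.cons x v)
      ⟨j x, fun a _ h => h.1⟩
    refine ⟨b, fun z => (hb z).trans (and_congr_right' ((Bspt.sat_ren _ _ _).trans
      (iff_of_eq (congrArg _ (funext ?_)))))⟩
    rintro (_ | i) <;> rfl
  coll φ v x h := by
    let ρ : ℕ → ℕ := Bspt.cons 0 (Bspt.cons 1 fun i => i + 4)
    have e1 : ∀ (a b c d : M U) (w : ℕ → M U), cs a (cs b (cs c (cs d w))) ∘ ρ = cs a (cs b w) := by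
      intro a b c d w; funext i; rcases i with _ | _ | i <;> rfl
    have e2 : ∀ (a b c d : H Γ ν U) (w : ℕ → H Γ ν U), Bspt.cons a (Bspt.cons b (Bspt.cons c
        (Bspt.cons d w))) ∘ ρ = Bspt.cons a (Bspt.cons b w) := by
      intro a b c d w; funext i; rcases i with _ | _ | i <;> rfl
    obtain ⟨x', hx'⟩ := mk_surj (j x)
    choose v' hv' using fun i => mk_surj (j (v i))
    obtain ⟨Y, h1, h2⟩ := collL (Γ := Γ) x' fun U a b => SL Γ U φ (cs b (cs a fun i => mk U (v' i)))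
    obtain ⟨y, hy⟩ := (truth hν (.ex (.neg (.ex (.and (.mem 0 2) (.and (.ex (φ.ren ρ))
      (.neg (.ex (.and (.mem 0 2) (φ.ren ρ))))))))) (Bspt.cons x v)).2 ⟨_, L_hs h1 U, by
        rintro ⟨a, -, h3, ⟨b, h4, h5⟩, h6⟩
        rw [j_cons] at h3 h5 h6
        rw [SL_ren, e1, ← funext hv'] at h5
        obtain ⟨c, h7, h8⟩ := h2 U a (hx' ▸ h3) ⟨b, h4, h5⟩
        refine h6 ⟨c, L_tr h7 (L_hs h1 U), h7, ?_⟩
        rw [SL_ren, e1, ← funext hv']; exact h8⟩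
    refine ⟨y, fun a ha => ?_⟩
    obtain ⟨b, hb⟩ := h a ha
    obtain ⟨c, h3, h4⟩ := not_not.1 fun h' => hy ⟨a, ha, ⟨b, by rw [Bspt.sat_ren, e2]; exact hb⟩, h'⟩
    rw [Bspt.sat_ren, e2] at h4
    exact ⟨c, h3, h4⟩

theorem upair_act {g : Γ} {x y x' y' : Nm P} (h1 : ∀ U, mk U (act g x) = mk U x')
    (h2 : ∀ U, mk U (act g y) = mk U y') (U : Ult P) :
    mk U (act g (upair x y)) = mk U (upair x' y') :=
  act_eq (fun U z => by rw [mem_upair, mem_upair, ← h1, ← h2, mk_mv, mk_mv]) U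

theorem hs_upair {x y : Nm P} (hx : HS Γ x) (hy : HS Γ y) : HS Γ (upair x y) := by
  refine hs_fam ?_ (by rintro (_ | _); exacts [hy, hx])
  filter_upwards [(hs_iff.1 hx).1, (hs_iff.1 hy).1] with g a b using upair_act a b

def setN {X : Type 1} (f : X → Nm P) (s : Set X) : Nm P := fam (fun x : s => f x) fun _ _ => True

omit [MulAction Γ P] [Mo Γ P] [NF Γ] in
theorem setN_intro {X : Type 1} (f : X → Nm P) {s : Set X} {x : X} (h : x ∈ s) (U : Ult P) :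
    E U (mk U (f x)) (mk U (setN f s)) := fam_intro (A := fun x : s => f x) ⟨x, h⟩ trivial

omit [MulAction Γ P] [Mo Γ P] [NF Γ] in
@[elab_as_elim] theorem setN_cases {X : Type 1} {f : X → Nm P} {s : Set X} {z : Nm P}
    {R : Ult P → Prop} [C R] (h : ∀ x U, x ∈ s → mk U z = mk U (f x) → R U) (U : Ult P)
    (hU : E U (mk U z) (mk U (setN f s))) : R U :=
  fam_cases (fun i V _ e => h i.1 V i.2 e) U hU

theorem setN_act {X : Type 1} {f : X → Nm P} {g : Γ} (e : X ≃ X)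
    (h : ∀ x U, mk U (act g (f x)) = mk U (f (e x))) (s : Set X) (U : Ult P) :
    mk U (act g (setN f s)) = mk U (setN f {x | e.symm x ∈ s}) := by
  refine M_ext fun z => ?_
  obtain ⟨z, rfl⟩ := mk_surj z
  constructor
  · refine mem_cases (y := act g (setN f s)) (fun i V _ e1 => ?_) U
    rw [e1]
    show E V (mk V (act g (f i.1.1))) _
    rw [h]
    exact setN_intro f (by simp) V
  · refine setN_cases (fun x V hx e1 => ?_) U
    obtain ⟨V, rfl⟩ := mv_surj g V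
    rw [e1, ← e.apply_symm_apply x, ← h, E_mv]
    exact setN_intro f (s := s) hx V

omit [MulAction Γ P] [Mo Γ P] [NF Γ] in
theorem setN_mem {X : Type 1} {f : X → Nm P} {p : P}
    (h : ∀ x y (U : Ult P), Iic p ∈ U.U → mk U (f x) = mk U (f y) → x = y) {s : Set X} {x : X}
    {U : Ult P} (hU : Iic p ∈ U.U) (hx : E U (mk U (f x)) (mk U (setN f s))) : x ∈ s :=
  setN_cases (R := fun U => Iic p ∈ U.U → x ∈ s) (fun y V hy e hV => h x y V hV e ▸ hy) U hx hU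

omit [NF Γ] in
theorem fam_act {ι : Type 1} {A B : ι → Nm P} {Q Q' : ι → Ult P → Prop} [∀ i, C (Q i)]
    [∀ i, C (Q' i)] {g : Γ} (hA : ∀ i U, mk U (act g (A i)) = mk U (B i))
    (hQ : ∀ i U, Q' i (mv g U) ↔ Q i U) (U : Ult P) :
    mk U (act g (fam A Q)) = mk U (fam B Q') := by
  refine M_ext fun z => ?_
  obtain ⟨z, rfl⟩ := mk_surj z
  constructor
  · refine mem_cases (y := act g (fam A Q)) (fun i V hV e1 => ?_) U
    obtain ⟨V, rfl⟩ := mv_surj g V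
    rw [e1]
    show E _ (mk _ (act g (A i.1.1))) _
    rw [hA]
    exact fam_intro i.1.1 ((hQ _ _).2 (i.2 V (G_mv.1 hV)))
  · refine fam_cases (fun i V h e => ?_) U
    obtain ⟨V, rfl⟩ := mv_surj g V
    rw [e, ← hA, E_mv]
    exact fam_intro i ((hQ _ _).1 h)

omit [Mo Γ P] in
theorem sl_all {φ : Fm} {v : ℕ → M U} :
    SL Γ U (allF φ) v ↔ ∀ a, L Γ U a → SL Γ U φ (cs a v) := by simp [allF, SL]
omit [Mo Γ P] in
theorem sl_or {φ ψ : Fm} {v : ℕ → M U} :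
    SL Γ U (orF φ ψ) v ↔ SL Γ U φ v ∨ SL Γ U ψ v := or_iff_not_and_not.symm
omit [Mo Γ P] in
theorem sl_imp {φ ψ : Fm} {v : ℕ → M U} :
    SL Γ U (impF φ ψ) v ↔ (SL Γ U φ v → SL Γ U ψ v) := by simp [impF, SL]
omit [Mo Γ P] in
theorem sl_fi {φ ψ : Fm} {v : ℕ → M U} :
    SL Γ U (fi φ ψ) v ↔ (SL Γ U φ v ↔ SL Γ U ψ v) := by
  simp only [fi, SL]; tauto

theorem L_pair {z a b : M U} (ha : L Γ U a) (hb : L Γ U b) (h : ∀ w, E U w z ↔ w = a ∨ w = b) :
    L Γ U z := by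
  obtain ⟨a, rfl⟩ := mk_surj a
  obtain ⟨b, rfl⟩ := mk_surj b
  rw [show z = mk U (upair a b) from M_ext fun w => (h w).trans mem_upair.symm]
  refine L_casesN 2 (v := cs a fun _ => b) (R := fun U => L Γ U (mk U (upair a b))) _ (hs_nat 0)
    (fun w V h1 h2 => ?_) U (by rintro (_ | i); exacts [ha, hb])
  rw [show mk V (upair a b) = mk V (upair (w 0) (w 1)) from M_ext fun z => by
    rw [mem_upair, mem_upair, ← h2 0 (by omega), ← h2 1 (by omega)]; rfl]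
  exact L_hs (hs_upair (h1 0) (h1 1)) V

theorem sl_app {f x y : ℕ} {v : ℕ → M U} (hf : L Γ U (v f)) (hx : L Γ U (v x)) (hy : L Γ U (v y)) :
    SL Γ U (appF f x y) v ↔ App (E U) (v f) (v x) (v y) := by
  simp only [appF, pairF, SL, sl_all, sl_fi, sl_or, cs, App, IsPair]
  refine exists_congr fun p => ⟨fun ⟨h1, h2, h3⟩ => ⟨h2, fun z => ?_⟩,
    fun ⟨h1, h2⟩ => ⟨L_tr h1 hf, h1, fun z hz => ?_⟩⟩
  all_goals
    have k : ∀ {z : M U} {Q : M U → Prop}, L Γ U z → (∀ w, Q w → L Γ U w) →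
        ((∀ w, L Γ U w → (E U w z ↔ Q w)) ↔ ∀ w, E U w z ↔ Q w) := fun hz hQ =>
      ⟨fun h w => ⟨fun e => (h w (L_tr e hz)).1 e, fun e => (h w (hQ w e)).2 e⟩, fun h w _ => h w⟩
    have k1 : ∀ w, w = v x → L Γ U w := fun w e => e ▸ hx
    have k2 : ∀ w, w = v x ∨ w = v y → L Γ U w := fun w e => e.elim (· ▸ hx) (· ▸ hy)
  · by_cases hz : L Γ U z
    · rw [h3 z hz, k hz k1, k hz k2]
    · exact iff_of_false (fun e => hz (L_tr e h1)) fun e => hz (e.elim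
        (fun e => L_pair hx hx fun w => by rw [e, or_self]) (L_pair hx hy))
  · rw [h2 z, k hz k1, k hz k2]

theorem sl_pair {p x y : ℕ} {v : ℕ → M U} (hp : L Γ U (v p)) (hx : L Γ U (v x))
    (hy : L Γ U (v y)) : SL Γ U (pairF p x y) v ↔ IsPair (E U) (v p) (v x) (v y) := by
  simp only [pairF, SL, sl_all, sl_fi, sl_or, cs, IsPair]
  have k : ∀ {z : M U} {Q : M U → Prop}, L Γ U z → (∀ w, Q w → L Γ U w) →
      ((∀ w, L Γ U w → (E U w z ↔ Q w)) ↔ ∀ w, E U w z ↔ Q w) := fun hz hQ =>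
    ⟨fun h w => ⟨fun e => (h w (L_tr e hz)).1 e, fun e => (h w (hQ w e)).2 e⟩, fun h w _ => h w⟩
  have k1 : ∀ w, w = v x → L Γ U w := fun w e => e ▸ hx
  have k2 : ∀ w, w = v x ∨ w = v y → L Γ U w := fun w e => e.elim (· ▸ hx) (· ▸ hy)
  refine ⟨fun h3 z => ?_, fun h2 z hz => by rw [h2 z, k hz k1, k hz k2]⟩
  by_cases hz : L Γ U z
  · rw [h3 z hz, k hz k1, k hz k2]
  · exact iff_of_false (fun e => hz (L_tr e hp)) fun e => hz (e.elim
      (fun e => L_pair hx hx fun w => by rw [e, or_self]) (L_pair hx hy))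

omit [NF Γ]

def Eqv (x y : Nm P) : Prop := ∀ U : Ult P, mk U x = mk U y

theorem Eqv.act {x y : Nm P} (h : Eqv x y) (g : Γ) : Eqv (act g x) (act g y) := fun U => by
  obtain ⟨U, rfl⟩ := mv_surj g U
  exact mk_mv.2 (h U)

theorem frc_mv {g : Γ} {p : P} {Q : Ult P → Prop} (h : Frc p fun U => Q (mv g U)) :
    Frc (g • p) Q := fun U hU => by
  obtain ⟨U, rfl⟩ := mv_surj g U
  exact h U (G_mv.1 hU)

theorem eqv_of_sub {g : Γ} {x : Nm P}
    (h1 : ∀ U z, E U (mk U z) (mk U x) → E (mv g U) (mk _ (act g z)) (mk _ x))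
    (h2 : ∀ U z, E U (mk U z) (mk U x) → E (mv g⁻¹ U) (mk _ (act g⁻¹ z)) (mk _ x)) :
    Eqv (act g x) x := by
  refine act_eq fun U z => ⟨h1 U z, fun h3 => ?_⟩
  have := E_mv (g := g) |>.2 (h2 _ _ h3)
  rw [mv_inv, act_inv] at this
  exact E_mv.1 this

theorem ex_low {p q r : P} (h : Frc p fun U => Iic q ∈ U.U ∧ Iic r ∈ U.U) :
    ∃ s ≤ p, s ≤ q ∧ s ≤ r := by
  obtain ⟨U, a, b, c⟩ := h.ex
  obtain ⟨s, h1, h2, h3⟩ := Filter.nonempty_of_mem (inter_mem a (inter_mem b c))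
  exact ⟨s, h1, h2, h3⟩

theorem app_mv {P Γ : Type 1} [Preorder P] [Group Γ] [MulAction Γ P] [Mo Γ P] {g : Γ} {U : Ult P}
    {f a b : Nm P} (h : App (E U) (mk U f) (mk U a) (mk U b)) :
    App (E _) (mk (mv g U) (act g f)) (mk _ (act g a)) (mk _ (act g b)) := by
  obtain ⟨p, h1, h2⟩ := h
  rw [h2.uniq (isPair_kpair a b)] at h1
  refine ⟨_, E_mv.2 h1, ?_⟩
  have up : ∀ x y : Nm P, Eqv (act g (upair x y)) (upair (act g x) (act g y)) := fun x y =>
    act_eq fun U z => by rw [mem_upair, mem_upair, mk_mv, mk_mv]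
  have : mk (mv g U) (act g (kpair a b)) = mk _ (kpair (act g a) (act g b)) := by
    rw [kpair, up]
    exact M_ext fun z => by rw [mem_upair, kpair, mem_upair, up, up]
  rw [this]
  exact isPair_kpair _ _

theorem app_L {P Γ : Type 1} [Preorder P] [Group Γ] [MulAction Γ P] [NF Γ] {U : Ult P}
    {f a b : M U} (hf : L Γ U f) (h : App (E U) f a b) : L Γ U a ∧ L Γ U b := by
  obtain ⟨p, h1, h2⟩ := h
  obtain ⟨z, hz⟩ := ex_upair a b
  have := L_tr ((h2 z).2 (Or.inr hz)) (L_tr h1 hf)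
  exact ⟨L_tr ((hz a).2 (Or.inl rfl)) this, L_tr ((hz b).2 (Or.inr rfl)) this⟩

end Pool.Agent.H40.UZ
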