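import Pool.Agent.H40.U2

set_option autoImplicit false

/-! The Levy collapse of the ordinals of the first universe and its symmetric system. -/

namespace Pool.Agent.H40.UZ

open Set Filter

structure FP {L V : Type 1} (C : L → V → Prop) : Type 1 where
  f : L → Option V
  fin : {x | f x ≠ none}.Finite
  ok : ∀ x v, f x = some v → C x v

section
variable {L V : Type 1} {C : L → V → Prop}

theorem FP.ext' {p q : FP C} (h : p.f = q.f) : p = q := by
  cases p; cases q; cases h; rfl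

instance : PartialOrder (FP C) where
  le q p := ∀ x k, p.f x = some k → q.f x = some k
  le_refl _ _ _ h := h
  le_trans _ _ _ h1 h2 x k h := h1 x k (h2 x k h)
  le_antisymm p q h1 h2 := FP.ext' (funext fun x => Option.ext fun k => ⟨h2 x k, h1 x k⟩)

open Classical in
noncomputable def FP.res (p : FP C) (A : Set L) : FP C :=
  ⟨fun x => if x ∈ A then p.f x else none, p.fin.subset fun x hx => by
    by_cases h : x ∈ A <;> simp_all, fun x v h => p.ok x v (by by_cases h : x ∈ A <;> simp_all)⟩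

theorem FP.res_some {p : FP C} {A : Set L} {x : L} {k : V} :
    (p.res A).f x = some k ↔ x ∈ A ∧ p.f x = some k := by
  by_cases h : x ∈ A <;> simp [FP.res, h]

theorem FP.le_res (p : FP C) (A : Set L) : p ≤ p.res A := fun _ _ h => (FP.res_some.1 h).2

theorem FP.res_mono {p q : FP C} (h : q ≤ p) (A : Set L) : q.res A ≤ p.res A := fun x k h1 =>
  FP.res_some.2 ⟨(FP.res_some.1 h1).1, h x k (FP.res_some.1 h1).2⟩

def Cp (p q : FP C) : Prop := ∀ x k l, p.f x = some k → q.f x = some l → k = l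

theorem Cp.ex {p q : FP C} (h : Cp p q) : ∃ r, r ≤ p ∧ r ≤ q := by
  refine ⟨⟨fun x => (p.f x).or (q.f x), (p.fin.union q.fin).subset fun x hx => ?_, fun x v e => ?_⟩,
    fun x k e => by simp [e], fun x k e => ?_⟩
  · by_contra c
    simp_all
  · exact (Option.or_eq_some_iff.1 e).elim (p.ok x v) fun e => q.ok x v e.2
  · cases c : p.f x with
    | none => simp [c, e]
    | some l => simp [c, h x l k c e]

theorem cp_of {p q r : FP C} (h1 : r ≤ p) (h2 : r ≤ q) : Cp p q := fun x k l a b =>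
  Option.some.inj ((h1 x k a).symm.trans (h2 x l b))

open Classical in
noncomputable def FP.one (x : L) (k : V) (h : C x k) : FP C :=
  ⟨fun y => if y = x then some k else none, (finite_singleton x).subset fun y hy => by
    by_contra h; simp_all, fun y v e => by by_cases c : y = x <;> simp_all⟩

theorem FP.one_some {x y : L} {k l : V} {h : C x k} :
    (FP.one x k h).f y = some l ↔ y = x ∧ k = l := by
  by_cases h : y = x <;> simp [FP.one, h]

def FP.top : FP C := ⟨fun _ => none, by simp, by simp⟩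

theorem FP.le_top (p : FP C) : p ≤ FP.top := fun _ _ h => by cases h

def Sp (p : FP C) (S : Set L) : Prop := ∀ x v, p.f x = some v → x ∈ S

theorem sp_res (p : FP C) (S : Set L) : Sp (p.res S) S := fun _ _ h => (FP.res_some.1 h).1

theorem small_fp (S : Set L) (T : Set V) [Small.{0} S] [Small.{0} T]
    (h : ∀ x ∈ S, ∀ v, C x v → v ∈ T) : Small.{0} {p : FP C // Sp p S} :=
  small_of_injective (f := fun p (t : S × T) => p.1.f t.1 = some t.2.1) fun p q e => by
    have k : ∀ {p q : {p : FP C // Sp p S}}, (fun t : S × T => p.1.f t.1 = some t.2.1) =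
        (fun t => q.1.f t.1 = some t.2.1) → q.1 ≤ p.1 := fun {p q} e x v a =>
      (iff_of_eq (congrFun e (⟨x, p.2 x v a⟩, ⟨v, h x (p.2 x v a) v (p.1.ok x v a)⟩))).1 a
    exact Subtype.ext (le_antisymm (k e.symm) (k e))

variable (C) in
def GF : Subgroup (L → Equiv.Perm V) where
  carrier := {g | ∀ x v, C x (g x v) ↔ C x v}
  mul_mem' := fun {_ b} ha hb x v => (ha x (b x v)).trans (hb x v)
  one_mem' := fun _ _ => Iff.rfl
  inv_mem' := fun {a} ha x v => by rw [← ha x]; simp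

instance : MulAction (GF C) (FP C) where
  smul g p := ⟨fun x => (p.f x).map (g.1 x), p.fin.subset fun x hx e => hx (by simp [e]),
    fun x v e => by
      obtain ⟨w, a, rfl⟩ := Option.map_eq_some_iff.1 e
      exact (g.2 x w).2 (p.ok x w a)⟩
  one_smul p := FP.ext' (funext fun x => Option.map_id')
  mul_smul g h p := FP.ext' (funext fun x => (Option.map_map (g.1 x) (h.1 x) (p.f x)).symm)

theorem gf_f (g : GF C) (p : FP C) (x : L) : (g • p).f x = (p.f x).map (g.1 x) := rfl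

instance : Mo (GF C) (FP C) := ⟨fun g p q h x k e => by
  obtain ⟨w, a, rfl⟩ := Option.map_eq_some_iff.1 e
  rw [gf_f, h x w a]; rfl⟩

def gen (x : L) (k : V) : Set (FP C) := {p | p.f x = some k}

instance (x : L) (k : V) : UZ.C fun U : Ult (FP C) => gen x k ∈ U.U :=
  ⟨cl_set fun _ _ h h' => h x k h'⟩

theorem gen_uniq {U : Ult (FP C)} {x : L} {k l : V} (h : gen x k ∈ U.U) (h' : gen x l ∈ U.U) :
    k = l := by
  obtain ⟨p, a, b⟩ := Filter.nonempty_of_mem (inter_mem h h')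
  exact Option.some.inj (a.symm.trans b)

theorem restr' (S : Set L) {Q : Ult (FP C) → Prop} [UZ.C Q]
    (hQ : ∀ g : GF C, (∀ x ∈ S, g.1 x = 1) → ∀ U, Q U → Q (mv g U)) {p : FP C} (h : Frc p Q) :
    Frc (p.res S) Q := by
  classical
  refine cl.dense fun q hq => ?_
  have : ∀ x, ∃ e : Equiv.Perm V, (∀ v, C x (e v) ↔ C x v) ∧ (x ∈ S → e = 1) ∧
      ∀ a b, p.f x = some a → q.f x = some b → e a = b := by
    intro x
    by_cases c : ∃ a b, p.f x = some a ∧ q.f x = some b
    · obtain ⟨a, b, c, d⟩ := c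
      refine ⟨Equiv.swap a b, fun v => ?_, fun e => ?_, fun a' b' e f => ?_⟩
      · have := p.ok x a c
        have := q.ok x b d
        rw [Equiv.swap_apply_def]
        split_ifs <;> simp_all
      · rw [Option.some.inj (d.symm.trans (hq x a (FP.res_some.2 ⟨e, c⟩))), Equiv.swap_self]; rfl
      · rw [← Option.some.inj (c.symm.trans e), ← Option.some.inj (d.symm.trans f),
          Equiv.swap_apply_left]
    · exact ⟨1, fun _ => Iff.rfl, fun _ => rfl, fun a b e f => absurd ⟨a, b, e, f⟩ c⟩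
  choose g g1 g2 g3 using this
  obtain ⟨r, r1, r2⟩ := Cp.ex (p := q) (q := (⟨g, g1⟩ : GF C) • p) fun x k l a b => by
    obtain ⟨w, c, rfl⟩ := Option.map_eq_some_iff.1 b
    exact (g3 x w k c a).symm
  exact ⟨r, r1, (frc_mv (h.imp (hQ ⟨g, g1⟩ g2))).mono r2⟩

end

abbrev O : Type 1 := Ordinal.{0}

abbrev QQ : Type 1 := FP fun α ξ : O => ξ < α

abbrev CL (x : O × ℕ) (v : QQ) : Prop := Sp v (Iio x.1)

abbrev PL : Type 1 := FP CL

abbrev GC : Type 1 := GF CL

theorem bound {ι : Type*} [Small.{0} ι] (h : ι → O) : ∃ γ, ∀ i, h i ≤ γ :=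
  (Ordinal.bddAbove_of_small (s := range h)).imp fun _ a i => a ⟨i, rfl⟩

instance (β : O) : Small.{0} {q : QQ // Sp q (Iio β)} :=
  small_fp _ (Iio β) fun _ a _ b => lt_trans b a

def lv (β : O) : Set (O × ℕ) := {x | x.1 < β}

instance (β : O) : Small.{0} {p : PL // Sp p (lv β)} :=
  haveI : Small.{0} (lv β) := small_of_surjective (f := fun t : Iio β × ℕ =>
    (⟨(t.1, t.2), t.1.2⟩ : lv β)) fun x => ⟨(⟨_, x.2⟩, _), rfl⟩
  haveI : Small.{0} {q : QQ | Sp q (Iio β)} := inferInstanceAs (Small {q : QQ // Sp q (Iio β)})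
  small_fp _ {q | Sp q (Iio β)} fun y a _ b x v e => lt_trans (b := y.1) (b x v e) a

theorem sp_ex (q : QQ) : ∃ γ, Sp q (Iio γ) :=
  let ⟨b, hb⟩ := q.fin.bddAbove
  ⟨b + 1, fun x v e => (hb (show q.f x ≠ none by simp [e])).trans_lt (lt_add_one b)⟩

theorem ac_bd (A : Set QQ) (h : ∀ a ∈ A, ∀ b ∈ A, Cp a b → a = b) : ∃ γ, ∀ a ∈ A, Sp a (Iio γ) := by
  have step : ∀ β, ∃ β', ∀ q : QQ, Sp q (Iio β) → (∃ a ∈ A, Cp q a) →
      ∃ a ∈ A, Cp q a ∧ Sp a (Iio β') := by
    intro β
    have : ∀ q : {q : QQ // Sp q (Iio β)}, ∃ γ, (∃ a ∈ A, Cp q.1 a) →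
        ∃ a ∈ A, Cp q.1 a ∧ Sp a (Iio γ) := fun q => by
      by_cases c : ∃ a ∈ A, Cp q.1 a
      · obtain ⟨a, c, d⟩ := c
        exact (sp_ex a).imp fun γ e _ => ⟨a, c, d, e⟩
      · exact ⟨0, fun e => absurd e c⟩
    choose γ hγ using this
    obtain ⟨δ, hδ⟩ := bound γ
    exact ⟨δ, fun q a b => (hγ ⟨q, a⟩ b).imp fun _ c => ⟨c.1, c.2.1,
      fun x v e => (c.2.2 x v e).trans_le (hδ _)⟩⟩
  choose Φ hΦ using step
  let β : ℕ → O := Nat.rec 0 fun _ b => max b (Φ b)
  have mo : Monotone β := monotone_nat_of_le_succ fun n => le_max_left _ _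
  refine ⟨iSup β, fun a ha => ?_⟩
  obtain ⟨n, hn⟩ := ((eventually_all_finite (a.res (Iio (iSup β))).fin).2 fun x hx => by
    obtain ⟨v, e⟩ := Option.ne_none_iff_exists'.1 hx
    obtain ⟨n, hn⟩ := Ordinal.lt_iSup_iff.1 (sp_res a _ x v e)
    exact (eventually_ge_atTop n).mono fun m hm => hn.trans_le (mo hm) :
      ∀ᶠ n in atTop, ∀ x ∈ {x | (a.res (Iio (iSup β))).f x ≠ none}, x < β n).exists
  obtain ⟨b, h1, h2, h3⟩ := hΦ (β n) (a.res (Iio (iSup β))) (fun x v e => hn x (by simp [e]))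
    ⟨a, ha, cp_of (a.le_res _) le_rfl⟩
  have h4 : Sp b (Iio (iSup β)) := fun x v e => (h3 x v e).trans_le
    ((le_max_right _ _).trans (Ordinal.le_iSup β (n + 1)))
  rwa [h a ha b h1 fun x k l c d => h2 x k l (FP.res_some.2 ⟨h4 x l d, c⟩) d]

def Fx (β : O) (g : GC) : Prop := ∀ x ∈ lv β, g.1 x = 1

instance : NF GC where
  F := { sets := {J | ∃ β, ∀ g, Fx β g → g ∈ J}
         univ_sets := ⟨0, fun _ _ => trivial⟩
         sets_of_superset := fun ⟨β, b⟩ h => ⟨β, fun g c => h (b g c)⟩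
         inter_sets := fun ⟨β, b⟩ ⟨γ, d⟩ => ⟨max β γ, fun g e =>
          ⟨b g fun x a => e x (lt_max_of_lt_left (a := x.1) a),
            d g fun x a => e x (lt_max_of_lt_right (a := x.1) a)⟩⟩ }
  conj h := fun _ ⟨β, b⟩ => ⟨β, fun g c => b _ fun x hx => by
    show (h.1 x)⁻¹ * g.1 x * h.1 x = 1
    rw [c x hx, mul_one, inv_mul_cancel]⟩
  inv := fun _ ⟨β, b⟩ => ⟨β, fun g c => b _ fun x hx => by
    show (g.1 x)⁻¹ = 1
    rw [c x hx, inv_one]⟩

theorem ev_iff {p : GC → Prop} : (∀ᶠ g in NF.F, p g) ↔ ∃ β, ∀ g, Fx β g → p g := Iff.rfl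

theorem no_inj {T : Type 1} [Small.{0} T] : ∃ α : O, ∀ f : Iio α → T, ¬ Function.Injective f := by
  refine ⟨(Order.succ (Cardinal.mk (Shrink.{0} T))).ord, fun f hf => ?_⟩
  have := Cardinal.mk_le_of_injective hf
  rw [Cardinal.mk_Iio_ordinal, Cardinal.card_ord, ← Cardinal.lift_mk_shrink'' T, Cardinal.lift_le]
    at this
  exact (Order.lt_succ _).not_ge this

theorem ex_code : ∃ c : QQ → O, Function.Injective c := by
  have h : ∀ q : QQ, {t : O × O | q.f t.1 = some t.2}.Finite := fun q =>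
    (q.fin.image fun x => (x, (q.f x).getD 0)).subset fun t (e : _ = _) =>
      ⟨t.1, by simp [e], by simp [e]⟩
  obtain ⟨e⟩ : Nonempty (Finset (O × O) ↪ O) := Cardinal.le_def _ _ |>.1 (by
    rw [Cardinal.mk_finset_of_infinite, Cardinal.mk_prod, Cardinal.lift_id,
      Cardinal.mul_eq_self (Cardinal.aleph0_le_mk _)])
  refine ⟨fun q => e (h q).toFinset, fun p q a => FP.ext' (funext fun x => Option.ext fun v => ?_)⟩
  exact Set.ext_iff.1 (Finite.toFinset_inj.1 (e.injective a)) (x, v)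

end Pool.Agent.H40.UZ
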