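import Pool.Agent.H40.U3

set_option autoImplicit false

/-! Names and forcing facts for the symmetric Levy collapse. -/

namespace Pool.Agent.H40.UZ

open Set Filter

section
variable {P : Type 1} [Preorder P] {ι : Type 1}

theorem cas {f : ι → Nm P} {s : Set ι} {S : ∀ U : Ult P, M U → Prop}
    [∀ x, C fun U => S U (mk U x)] (h : ∀ x ∈ s, ∀ U, S U (mk U (f x))) (U : Ult P) (z : M U)
    (hz : E U z (mk U (setN f s))) : S U z := by
  obtain ⟨z, rfl⟩ := mk_surj z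
  exact setN_cases (R := fun U => S U (mk U z)) (fun x V a e => by rw [e]; exact h x a V) U hz

theorem rcasQ {A B : ι → Nm P} {Q : ι → Ult P → Prop} {S : ∀ U : Ult P, M U → M U → Prop}
    [∀ x y, C fun U => S U (mk U x) (mk U y)]
    (h : ∀ i U, Q i U → S U (mk U (A i)) (mk U (B i))) (U : Ult P) (a b : M U)
    (hz : App (E U) (mk U (fam (fun i => kpair (A i) (B i)) Q)) a b) : S U a b := by
  obtain ⟨a, rfl⟩ := mk_surj a
  obtain ⟨b, rfl⟩ := mk_surj b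
  obtain ⟨p, h1, h2⟩ := hz
  rw [h2.uniq (isPair_kpair a b)] at h1
  refine fam_cases (R := fun U => S U (mk U a) (mk U b)) (fun i V c e => ?_) U h1
  obtain ⟨e1, e2⟩ := (e ▸ isPair_kpair a b).inj (isPair_kpair _ _)
  rw [e1, e2]
  exact h i V c

def relN (A B : ι → Nm P) (s : Set ι) : Nm P := setN (fun i => kpair (A i) (B i)) s

theorem rcas {A B : ι → Nm P} {s : Set ι} {S : ∀ U : Ult P, M U → M U → Prop}
    [∀ x y, C fun U => S U (mk U x) (mk U y)]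
    (h : ∀ i ∈ s, ∀ U, S U (mk U (A i)) (mk U (B i))) (U : Ult P) (a b : M U)
    (hz : App (E U) (mk U (relN A B s)) a b) : S U a b :=
  rcasQ (A := fun i : s => A i) (B := fun i => B i) (Q := fun _ _ => True) (fun i V _ => h i i.2 V) U a b hz

theorem rel_in {A B : ι → Nm P} {s : Set ι} {i : ι} (h : i ∈ s) (U : Ult P) :
    App (E U) (mk U (relN A B s)) (mk U (A i)) (mk U (B i)) :=
  ⟨_, setN_intro _ h U, isPair_kpair _ _⟩

theorem app_iff {Γ : Type 1} [Group Γ] [MulAction Γ P] [Mo Γ P] {g : Γ} {U : Ult P}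
    {f a b : Nm P} : App (E _) (mk (mv g U) (act g f)) (mk _ (act g a)) (mk _ (act g b)) ↔
      App (E U) (mk U f) (mk U a) (mk U b) := by
  refine ⟨fun h => ?_, app_mv⟩
  obtain ⟨U, rfl⟩ := mv_surj g⁻¹ U
  rw [mv_inv] at h
  simpa only [inv_act] using app_mv (g := g⁻¹) h

theorem L_ind {Γ : Type 1} [Group Γ] [MulAction Γ P] [NF Γ] {R : ∀ U : Ult P, M U → Prop}
    [∀ x, C fun U => R U (mk U x)] (h : ∀ y, HS Γ y → ∀ U, R U (mk U y)) (U : Ult P) (a : M U)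
    (ha : L Γ U a) : R U a := by
  obtain ⟨a, rfl⟩ := mk_surj a
  exact L_cases (R := fun U => R U (mk U a)) (fun y W hy e => by rw [e]; exact h y hy W) U ha

end

def Ck (x : Nm PL) : Prop := HS GC x ∧ ∀ g : GC, Eqv (act g x) x

theorem ck_set {ι : Type 1} {f : ι → Nm PL} (s : Set ι) (h : ∀ i ∈ s, Ck (f i)) : Ck (setN f s) :=
  have a : ∀ g : GC, Eqv (act g (setN f s)) (setN f s) := fun g =>
    fam_act (fun i => (h i.1 i.2).2 g) fun _ _ => Iff.rfl
  ⟨hs_fam (Eventually.of_forall a) fun i => (h i.1 i.2).1, a⟩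

theorem ck_pair {x y : Nm PL} (a : Ck x) (b : Ck y) : Ck (kpair x y) :=
  ⟨hs_upair (hs_upair a.1 a.1) (hs_upair a.1 b.1), fun g =>
    upair_act (upair_act (a.2 g) (a.2 g)) (upair_act (a.2 g) (b.2 g))⟩

theorem ck_nat (n : ℕ) : Ck (natN n) := ⟨hs_nat n, fun g => nat_act g n⟩

noncomputable def oN : O → Nm PL :=
  wellFounded_lt.fix fun α ih => fam (fun ξ : {ξ // ξ < α} => ih ξ.1 ξ.2) fun _ _ => True

theorem oN_eq (α : O) : oN α = setN oN (Iio α) := WellFounded.fix_eq _ _ _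

theorem ck_o (α : O) : Ck (oN α) := by
  induction α using (wellFounded_lt (α := O)).induction with
  | _ α ih => rw [oN_eq]; exact ck_set _ ih

theorem o_mem {ξ α : O} (h : ξ < α) (U : Ult PL) : E U (mk U (oN ξ)) (mk U (oN α)) := by
  rw [oN_eq α]; exact setN_intro oN h U

theorem o_inj {ξ α : O} {U : Ult PL} (h : mk U (oN ξ) = mk U (oN α)) : ξ = α := by
  rcases lt_trichotomy ξ α with c | c | c
  exacts [absurd (h ▸ o_mem c U) (not_mem_self _), c, absurd (h ▸ o_mem c U) (not_mem_self _)]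

noncomputable def qN (q : QQ) : Nm PL := oN (ex_code.choose q)

theorem ck_q (q : QQ) : Ck (qN q) := ck_o _

theorem q_inj {p q : QQ} {U : Ult PL} (h : mk U (qN p) = mk U (qN q)) : p = q :=
  ex_code.choose_spec (o_inj h)

noncomputable def KN : Nm PL := setN oN univ
noncomputable def QN : Nm PL := setN qN univ
noncomputable def RN : Nm PL := relN (fun t : QQ × QQ => qN t.1) (fun t => qN t.2) {t | t.1 ≤ t.2}
noncomputable def FN : Nm PL := relN (fun t : (O × QQ) × O => kpair (oN t.1.1) (qN t.1.2))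
  (fun t => oN t.2) {t | t.1.2.f t.1.1 = some t.2}
def wN : Nm PL := setN nU univ

theorem r_in {p q : QQ} (h : p ≤ q) (U : Ult PL) : App (E U) (mk U RN) (mk U (qN p)) (mk U (qN q)) :=
  rel_in (s := {t : QQ × QQ | t.1 ≤ t.2}) (i := (p, q)) h U

theorem k_tr : ∀ (U : Ult PL) x, E U x (mk U KN) → ∀ y, E U y x → E U y (mk U KN) ∧
    ∀ z, E U z y → E U z x := by
  refine cas fun α _ => ?_
  rw [oN_eq]
  refine cas fun β hβ U => ⟨setN_intro _ (mem_univ _) U, ?_⟩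
  rw [oN_eq β]
  exact cas (S := fun U z => E U z (mk U (setN oN (Iio α))))
    (fun γ hγ U => setN_intro oN (s := Iio α) (x := γ) (lt_trans (b := β) hγ hβ) U) U

theorem k_tri : ∀ (U : Ult PL) x, E U x (mk U KN) → ∀ y, E U y (mk U KN) →
    E U x y ∨ x = y ∨ E U y x :=
  cas fun α _ => cas fun β _ U => (lt_trichotomy α β).imp (o_mem · U)
    (Or.imp (congrArg fun x => mk U (oN x)) (o_mem · U))

theorem q_k : ∀ (U : Ult PL) x, E U x (mk U QN) → E U x (mk U KN) ∧ App (E U) (mk U RN) x x ∧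
    App (E U) (mk U RN) x (mk U (qN FP.top)) :=
  cas fun q _ U => ⟨setN_intro oN (mem_univ _) U, r_in le_rfl U, r_in q.le_top U⟩

theorem r_po : ∀ (U : Ult PL) x y, App (E U) (mk U RN) x y → ∀ y' z, App (E U) (mk U RN) y' z →
    y = y' → App (E U) (mk U RN) x z ∧ (z = x → x = y) :=
  rcas fun s (a : s.1 ≤ s.2) => rcas fun t (b : t.1 ≤ t.2) U e =>
    ⟨r_in (a.trans (q_inj e ▸ b)) U, fun f => by
      rw [le_antisymm a (q_inj f ▸ q_inj e ▸ b)]⟩

theorem r_q : ∀ (U : Ult PL) x y, App (E U) (mk U RN) x y → E U x (mk U QN) :=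
  rcas fun s _ U => setN_intro qN (mem_univ s.1) U

theorem f_mem : ∀ (U : Ult PL) s ξ, App (E U) (mk U FN) s ξ → ∀ a p, IsPair (E U) s a p → E U ξ a :=
  rcas fun t h U a p e => (e.inj (isPair_kpair _ _)).1 ▸ o_mem (t.1.2.ok _ _ h) U

theorem f_hom : ∀ (U : Ult PL) s ξ, App (E U) (mk U FN) s ξ → ∀ s' η, App (E U) (mk U FN) s' η →
    ∀ r p, App (E U) (mk U RN) r p → ∀ r' q, App (E U) (mk U RN) r' q → ∀ a, r = r' →
      IsPair (E U) s a p → IsPair (E U) s' a q → ξ = η :=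
  rcas fun s (h1 : _ = _) => rcas fun t (h2 : _ = _) => rcas fun u (h3 : u.1 ≤ u.2) =>
    rcas fun v (h4 : v.1 ≤ v.2) U a e f g => by
      obtain ⟨f1, f2⟩ := f.inj (isPair_kpair _ _)
      obtain ⟨g1, g2⟩ := g.inj (isPair_kpair _ _)
      rw [← q_inj f2] at h1
      rw [← q_inj g2, ← o_inj (f1.symm.trans g1)] at h2
      rw [cp_of h3 (q_inj e ▸ h4) _ _ _ h1 h2]

theorem f_ran : ∀ (U : Ult PL) a, E U a (mk U KN) → ∀ ξ, E U ξ a → ∃ p, E U p (mk U QN) ∧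
    ∃ s, L GC U s ∧ IsPair (E U) s a p ∧ App (E U) (mk U FN) s ξ := by
  refine cas fun α _ U ξ h => ?_
  rw [oN_eq] at h
  exact cas (S := fun U ξ => ∃ p, E U p (mk U QN) ∧ ∃ s, L GC U s ∧
    IsPair (E U) s (mk U (oN α)) p ∧ App (E U) (mk U FN) s ξ) (fun ξ (h : ξ < α) U =>
      ⟨_, setN_intro qN (mem_univ (FP.one α ξ h : QQ)) U, _, L_hs (ck_pair (ck_o _) (ck_o _)).1 U,
        isPair_kpair _ _, rel_in (s := {t : (O × QQ) × O | t.1.2.f t.1.1 = some t.2})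
          (i := ((α, FP.one α ξ h), ξ)) ((FP.one_some (C := fun α ξ : O => ξ < α) (h := h)).2
            ⟨rfl, rfl⟩) U⟩) U ξ h

theorem inv_app {β : O} {y a b : Nm PL} (hy : ∀ g, Fx β g → Eqv (act g y) y) (ha : Ck a) (hb : Ck b)
    {g : GC} (hg : Fx β g) {U : Ult PL} : App (E _) (mk (mv g U) y) (mk _ a) (mk _ b) ↔
      App (E U) (mk U y) (mk U a) (mk U b) := by
  rw [← hy g hg, ← ha.2 g, ← hb.2 g, app_iff]

noncomputable def eN (γ : O) : Nm PL := fam (fun t : QQ × ℕ => kpair (qN t.1) (natN t.2))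
  fun t U => gen (γ, t.2) t.1 ∈ U.U

theorem e_hs (γ : O) : HS GC (eN γ) :=
  hs_fam (ev_iff.2 ⟨γ + 1, fun g hg => fam_act (fun _ => (ck_pair (ck_o _) (ck_nat _)).2 g)
    fun t U => by
      rw [mem_mv]
      refine iff_of_eq (congrArg (· ∈ U.U) (Set.ext fun p => ?_))
      show (p.f _).map (g.1 _) = _ ↔ _
      rw [hg _ (lt_add_one γ)]
      exact iff_of_eq (congrArg (· = _) Option.map_id')⟩) fun _ => (ck_pair (ck_o _) (ck_nat _)).1

theorem e_inj (γ : O) : ∀ (U : Ult PL) x m, App (E U) (mk U (eN γ)) x m → ∀ y m',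
    App (E U) (mk U (eN γ)) y m' → m = m' → x = y :=
  rcasQ fun s U a y m' b => rcasQ (S := fun U y m' => gen (γ, s.2) s.1 ∈ U.U →
    mk U (natN s.2) = m' → mk U (qN s.1) = y) (fun t U c d e => by
      rw [gen_uniq d (natN_inj e ▸ c)]) U y m' b a

theorem cc : ∀ (U : Ult PL) τ, L GC U τ → (∀ n x y r, App (E U) τ n x → App (E U) τ n y →
    App (E U) (mk U RN) r x → App (E U) (mk U RN) r y → x = y) →
    ∃ e, L GC U e ∧ (∀ n, E U n (mk U wN) → ∀ x, E U x (mk U QN) → App (E U) τ n x →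
      ∃ m, E U m (mk U wN) ∧ App (E U) e x m) ∧
      ∀ x m, App (E U) e x m → ∀ y m', App (E U) e y m' → m = m' → x = y := by
  refine L_ind fun y hy => by_dense fun p hp => ?_
  obtain ⟨β, iy⟩ := ev_iff.1 (hs_iff.1 hy).1
  have : ∀ t : {r : PL // Sp r (lv β)} × ℕ, ∃ γ, ∀ v ∈ {v | t.1.1 ≤ p.res (lv β) ∧
      Frc t.1.1 fun U => App (E U) (mk U y) (mk U (natN t.2)) (mk U (qN v))}, Sp v (Iio γ) :=
    fun t => ac_bd _ fun a ha b hb c => by_contra fun d => by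
      obtain ⟨u, u1, u2⟩ := c.ex
      obtain ⟨V, hV⟩ := ex_ult t.1.1
      exact (restr' (lv β) (Q := fun U => ¬ (App (E U) (mk U y) (mk U (natN t.2)) (mk U (qN a)) ∧
        App (E U) (mk U y) (mk U (natN t.2)) (mk U (qN b)))) (fun g hg U e => by
          rwa [inv_app iy (ck_nat _) (ck_q _) hg, inv_app iy (ck_nat _) (ck_q _) hg])
        (hp.imp fun U e f => d (q_inj (e _ _ _ _ f.1 f.2 (r_in u1 U) (r_in u2 U))))).mono ha.1 V hV ⟨ha.2 V hV, hb.2 V hV⟩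
  choose γ hγ using this
  obtain ⟨δ, hδ⟩ := bound γ
  refine ⟨p, le_rfl, fun V hV => ⟨_, L_hs (e_hs δ) V, fun n a x b c => ?_, e_inj δ V⟩⟩
  refine cas (S := fun V n => ∀ x, E V x (mk V QN) → Iic p ∈ V.U ∧ App (E V) (mk V y) n x →
    ∃ m, E V m (mk V wN) ∧ App (E V) (mk V (eN δ)) x m) (fun n _ => cas fun v _ => ?_) V n a x b
    ⟨hV, c⟩
  refine by_dense fun s hs => ?_
  obtain ⟨s', s1, s2, -⟩ := ex_low (hs.imp fun _ e => ⟨e.1, e.1⟩)
  have hv : Sp v (Iio δ) := fun x w e => (hγ (⟨_, sp_res s' _⟩, n.down) v ⟨FP.res_mono s2 _,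
    restr' _ (fun g hg U e => (inv_app iy (ck_nat _) (ck_o _) hg).2 e)
      ((hs.mono s1).imp fun _ e => e.2)⟩ x w e).trans_le (hδ _)
  obtain ⟨m, hm⟩ := (s'.fin.image Prod.snd).infinite_compl.nonempty
  obtain ⟨r, r1, r2⟩ := Cp.ex (p := s') (q := FP.one (δ, m) v hv) fun x k l a b =>
    absurd ⟨x, by simp [a], by rw [(FP.one_some.1 b).1]⟩ hm
  exact ⟨r, r1.trans s1, fun U hU => ⟨_, setN_intro nU (mem_univ ⟨m⟩) U, _,
    fam_intro (A := fun t : QQ × ℕ => kpair (qN t.1) (natN t.2)) (v, m)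
      (mem_of_superset hU fun q hq => hq.trans r2 _ _ (FP.one_some.2 ⟨rfl, rfl⟩)), isPair_kpair _ _⟩⟩

theorem noseq : ∀ (U : Ult PL) τ, L GC U τ → ¬ ((∀ a, E U a (mk U KN) →
    ∀ ξ, E U ξ a → ∀ s, IsPair (E U) s a ξ → ∃ n, E U n (mk U wN) ∧ App (E U) τ s n) ∧
    ∀ s s' n a ξ η, App (E U) τ s n → App (E U) τ s' n → IsPair (E U) s a ξ →
      IsPair (E U) s' a η → ξ = η) := by
  refine L_ind fun y hy => cl.by_contra fun p hp => ?_
  replace hp := hp.imp fun _ => not_not.1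
  obtain ⟨β, iy⟩ := ev_iff.1 (hs_iff.1 hy).1
  obtain ⟨α, hα⟩ := no_inj (T := {r : PL // Sp r (lv β)} × ℕ)
  have ck : ∀ ξ, Ck (kpair (oN α) (oN ξ)) := fun ξ => ck_pair (ck_o _) (ck_o _)
  have : ∀ ξ : Iio α, ∃ t : {r : PL // Sp r (lv β)} × ℕ, t.1.1 ≤ p.res (lv β) ∧ Frc t.1.1
      fun U => App (E U) (mk U y) (mk U (kpair (oN α) (oN ξ))) (mk U (natN t.2)) := fun ξ => by
    obtain ⟨n, hn⟩ := frc_ex (hp.imp fun U e => e.1 _ (setN_intro _ (mem_univ α) U) _ (o_mem ξ.2 U) _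
      (isPair_kpair _ _))
    obtain ⟨q, q1, m, q2⟩ := fam_elim (A := fun n : (univ : Set (ULift ℕ)) => nU n)
      (Q := fun _ _ => True) (hn.imp fun _ e => e.1)
    exact ⟨(⟨_, sp_res q _⟩, m.1.down), FP.res_mono q1 _, restr' _ (fun g hg U e =>
      (inv_app iy (ck _) (ck_nat _) hg).2 e) fun U hU => by
        have := (hn.mono q1 U hU).2
        rwa [(q2 U hU).2] at this⟩
  choose f f1 f2 using this
  refine hα f fun ξ η e => by_contra fun d => ?_
  obtain ⟨V, hV⟩ := ex_ult (f ξ).1.1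
  exact (restr' (lv β) (Q := fun U => ¬ (App (E U) (mk U y) (mk U (kpair (oN α) (oN ξ)))
    (mk U (natN (f ξ).2)) ∧ App (E U) (mk U y) (mk U (kpair (oN α) (oN η))) (mk U (natN (f ξ).2))))
    (fun g hg U e => by rwa [inv_app iy (ck _) (ck_nat _) hg, inv_app iy (ck _) (ck_nat _) hg])
    (hp.imp fun U e f => d (Subtype.ext (o_inj (e.2 _ _ _ _ _ _ f.1 f.2 (isPair_kpair _ _)
      (isPair_kpair _ _)))))).mono (f1 ξ) V hV ⟨f2 ξ V hV, e ▸ f2 η V (e ▸ hV)⟩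

end Pool.Agent.H40.UZ
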