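import Pool.Agent.H40.U4
import Pool.Agent.H40.Zt1

set_option autoImplicit false

/-! A small model with the properties of the symmetric Levy collapse. -/

namespace Pool.Agent.H40.UZ

open Set Filter
open Pool.Agent.H40.Bspt (Fm IsZF cons IsNat Sat)
open Pool.Agent.H40.Js (fi allF orF impF pairF appF sat_all sat_or sat_imp sat_fi sat_app)
open Pool.Agent.H40.Zt (pr pr_sp)

structure LM {M : Type} (E : M → M → Prop) (K Q R F t : M) : Prop where
  zf : IsZF E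
  ktr : ∀ x, E x K → ∀ y, E y x → E y K ∧ ∀ z, E z y → E z x
  ktri : ∀ x, E x K → ∀ y, E y K → E x y ∨ x = y ∨ E y x
  qk : ∀ x, E x Q → E x K ∧ Bspt.App E R x x ∧ Bspt.App E R x t
  tq : E t Q
  rq : ∀ x y, Bspt.App E R x y → E x Q
  rpo : ∀ x y z, Bspt.App E R x y → Bspt.App E R y z → Bspt.App E R x z ∧ (z = x → x = y)
  fmem : ∀ a p ξ, Bspt.App E F (pr E a p) ξ → E ξ a
  fhom : ∀ a p q ξ η r, Bspt.App E F (pr E a p) ξ → Bspt.App E F (pr E a q) η →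
    Bspt.App E R r p → Bspt.App E R r q → ξ = η
  fran : ∀ a, E a K → ∀ ξ, E ξ a → ∃ p, E p Q ∧ Bspt.App E F (pr E a p) ξ
  cc : ∀ S, (∀ n x y r, Bspt.App E S n x → Bspt.App E S n y → Bspt.App E R r x → Bspt.App E R r y →
    x = y) → ∃ e, (∀ n, IsNat E n → ∀ x, E x Q → Bspt.App E S n x → ∃ m, IsNat E m ∧
      Bspt.App E e x m) ∧ ∀ x y m, Bspt.App E e x m → Bspt.App E e y m → x = y
  ns : ∀ S, ¬ ((∀ a, E a K → ∀ ξ, E ξ a → ∃ n, IsNat E n ∧ Bspt.App E S (pr E a ξ) n) ∧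
    ∀ a ξ η n, Bspt.App E S (pr E a ξ) n → Bspt.App E S (pr E a η) n → ξ = η)

theorem sat_pair {M : Type} {E : M → M → Prop} {p x y : ℕ} {v : ℕ → M} :
    Sat E (pairF p x y) v ↔ Bspt.IsPair E (v p) (v x) (v y) := by
  simp only [pairF, Sat, sat_all, sat_fi, sat_or, cons, Bspt.IsPair]

def indF : Fm := .and (.ex (.and (.mem 0 1) (allF (.neg (.mem 0 1))))) (allF (impF (.mem 0 1)
  (.ex (.and (.mem 0 2) (allF (fi (.mem 0 1) (orF (.mem 0 2) (.eq 0 2))))))))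

variable {U : Ult PL}

theorem L_kp {s a b : M U} (h : IsPair (E U) s a b) (ha : L GC U a) (hb : L GC U b) : L GC U s := by
  obtain ⟨u, hu⟩ := ex_upair a a
  obtain ⟨v, hv⟩ := ex_upair a b
  refine L_pair (L_pair ha ha hu) (L_pair ha hb hv) fun w => (h w).trans (or_congr
    ⟨fun e => M_ext fun z => by rw [e, hu, or_self], fun e z => by rw [e, hu, or_self]⟩
    ⟨fun e => M_ext fun z => by rw [e, hv], fun e z => by rw [e, hv]⟩)

theorem L_cp {s a b : M U} (h : IsPair (E U) s a b) (hs : L GC U s) : L GC U a ∧ L GC U b := by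
  obtain ⟨z, hz⟩ := ex_upair a b
  have := L_tr ((h z).2 (Or.inr hz)) hs
  exact ⟨L_tr ((hz a).2 (Or.inl rfl)) this, L_tr ((hz b).2 (Or.inr rfl)) this⟩

theorem sl_ind {I : M U} (hI : L GC U I) : SL GC U indF (fun _ => I) ↔
    (∃ z, E U z I ∧ ∀ y, ¬ E U y z) ∧ ∀ x, E U x I → ∃ s, E U s I ∧ Succ (E U) s x := by
  simp only [indF, SL, sl_all, sl_imp, sl_fi, sl_or, cs]
  refine and_congr (exists_congr fun z => ⟨fun ⟨a, b, c⟩ => ⟨b, fun y e => c y (L_tr e a) e⟩,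
    fun ⟨b, c⟩ => ⟨L_tr b hI, b, fun y _ => c y⟩⟩) ⟨fun h x a => ?_, fun h x _ a => ?_⟩
  · obtain ⟨s, b, c, d⟩ := h x (L_tr a hI) a
    exact ⟨s, c, fun y => ⟨fun e => (d y (L_tr e b)).1 e, fun e => (d y (e.elim
      (L_tr · (L_tr a hI)) (· ▸ L_tr a hI))).2 e⟩⟩
  · obtain ⟨s, c, d⟩ := h x a
    exact ⟨s, L_tr c hI, c, fun y _ => d y⟩

theorem w_min : ∀ (U : Ult PL) x, E U x (mk U wN) → ∀ I, (∃ z, E U z I ∧ ∀ y, ¬ E U y z) ∧
    (∀ x, E U x I → ∃ s, E U s I ∧ ∀ z, E U z s ↔ E U z x ∨ z = x) → E U x I :=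
  cas fun ⟨n⟩ _ U I ⟨⟨z, a, b⟩, c⟩ => by
    induction n with
    | zero => exact eq_zero b ▸ a
    | succ n ih =>
      obtain ⟨s, d, e⟩ := c _ (ih trivial)
      exact Succ.uniq e (succ_natN n) ▸ d

theorem w_suc : ∀ (U : Ult PL) x, E U x (mk U wN) → ∃ s, E U s (mk U wN) ∧ Succ (E U) s x :=
  cas fun n _ U => ⟨_, setN_intro nU (mem_univ ⟨n.down + 1⟩) U, succ_natN _⟩

noncomputable def bs : Fin 6 → Nm PL := ![KN, QN, RN, FN, qN FP.top, wN]

theorem bs_hs (b : Fin 6) : HS GC (bs b) := by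
  have a : Ck KN := ck_set _ fun _ _ => ck_o _
  have b' : Ck QN := ck_set _ fun _ _ => ck_q _
  have c : Ck RN := by
    unfold RN relN
    exact ck_set _ fun t _ => ck_pair (ck_q t.1) (ck_q t.2)
  have d : Ck FN := by
    unfold FN relN
    exact ck_set _ fun t _ => ck_pair (ck_pair (ck_o t.1.1) (ck_q t.1.2)) (ck_o t.2)
  have e : Ck wN := ck_set _ fun _ _ => ck_nat _
  fin_cases b
  exacts [a.1, b'.1, c.1, d.1, (ck_q _).1, e.1]

theorem ex_lm : ∃ (M : Type) (E : M → M → Prop) (K Q R F t : M), LM E K Q R F t := by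
  obtain ⟨U, -⟩ := ex_ult (FP.top : PL)
  have zf : IsZF (EH : H GC bs U → H GC bs U → Prop) := hull_zf bs_hs
  have l : ∀ a : H GC bs U, L GC U (j a) := j_L bs_hs
  have tr := truth (U := U) bs_hs
  have ja : ∀ {f x y : H GC bs U}, Bspt.App EH f x y ↔ App (E U) (j f) (j x) (j y) := fun {f x y} =>
    ((sat_app (f := 0) (x := 1) (y := 2) (v := cons f (cons x fun _ => y))).symm.trans
      (tr _ _)).trans (sl_app (l _) (l _) (l _))
  have jp : ∀ {f x y : H GC bs U}, Bspt.IsPair EH f x y ↔ IsPair (E U) (j f) (j x) (j y) :=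
    fun {f x y} => ((sat_pair (p := 0) (x := 1) (y := 2) (v := cons f (cons x fun _ => y))).symm.trans
      (tr _ _)).trans (sl_pair (l _) (l _) (l _))
  have jr := fun x y : H GC bs U => jp.1 (pr_sp zf x y)
  have si : ∀ I : H GC bs U, Bspt.Ind EH I ↔ Sat EH indF fun _ => I := fun I => by
    simp only [indF, Sat, sat_all, sat_imp, sat_fi, sat_or, cons, Bspt.Ind]
  have hw : ∀ n : H GC bs U, IsNat EH n ↔ EH n (hb 5) := fun n =>
    ⟨fun a => a _ ((si _).2 ((tr _ _).2 ((sl_ind (l _)).2 ⟨⟨_, setN_intro nU (mem_univ ⟨0⟩) U,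
      not_mem_zero⟩, w_suc U⟩))), fun a I b => w_min U _ a _ ((sl_ind (l _)).1 ((tr _ _).1
        ((si _).1 b)))⟩
  refine ⟨H GC bs U, EH, hb 0, hb 1, hb 2, hb 3, hb 4, zf, fun x a y b => ⟨(k_tr U _ a _ b).1,
    fun z => (k_tr U _ a _ b).2 _⟩, fun x a y b => (k_tri U _ a _ b).imp_right
      (Or.imp_left fun e => j_inj e), fun x a => ⟨(q_k U _ a).1, ja.2 (q_k U _ a).2.1,
      ja.2 (q_k U _ a).2.2⟩, setN_intro qN (mem_univ _) U, fun x y a => r_q U _ _ (ja.1 a),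
    fun x y z a b => ?_,
    fun a p ξ b => f_mem U _ _ (ja.1 b) _ _ (jr a p), fun a p q ξ η r b c d e => j_inj
      (f_hom U _ _ (ja.1 b) _ _ (ja.1 c) _ _ (ja.1 d) _ _ (ja.1 e) _ rfl (jr a p) (jr a q)),
    fun a b ξ c => ?_, fun S h => ?_, fun S ⟨h1, h2⟩ => ?_⟩
  · have := r_po U _ _ (ja.1 a) _ _ (ja.1 b) rfl
    exact ⟨ja.2 this.1, fun e => j_inj (this.2 (congrArg j e))⟩
  · obtain ⟨p, d, s, e, f, g⟩ := f_ran U _ b _ c
    obtain ⟨p, d, s, f, g⟩ := (tr (.ex (.and (.mem 0 3) (.ex (.and (pairF 0 2 1) (appF 5 0 3)))))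
      (cons a (cons ξ (cons (hb 1) fun _ => hb 3)))).2 ⟨p, L_tr d (l (hb 1)), d, s, e,
        (sl_pair e (l a) (L_tr d (l (hb 1)))).2 f, (sl_app (l (hb 3)) e (l ξ)).2 g⟩
    exact ⟨p, d, zf.pair_uniq (sat_pair.1 f) (pr_sp zf _ _) ▸ sat_app.1 g⟩
  · have h1 := (tr (allF (allF (allF (allF (impF (appF 4 3 2) (impF (appF 4 3 1) (impF (appF 5 0 2)
      (impF (appF 5 0 1) (.eq 2 1))))))))) (cons S fun _ => hb 2)).1 (by
        simpa only [Sat, sat_all, sat_imp, sat_app, cons] using h)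
    simp only [SL, sl_all, sl_imp] at h1
    obtain ⟨e, a, b, c⟩ := cc U _ (l S) fun n x y r a b c d => by
      have ⟨ln, lx⟩ := app_L (l S) a
      have ⟨lr, ly⟩ := app_L (l (hb 2)) d
      exact h1 n ln x lx y ly r lr ((sl_app (l S) ln lx).2 a) ((sl_app (l S) ln ly).2 b)
        ((sl_app (l (hb 2)) lr lx).2 c) ((sl_app (l (hb 2)) lr ly).2 d)
    have := (tr (.ex (.and (allF (impF (.mem 0 4) (allF (impF (.mem 0 4) (impF (appF 3 1 0)
      (.ex (.and (.mem 0 6) (appF 3 1 0)))))))) (allF (allF (allF (impF (appF 3 2 0)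
      (impF (appF 3 1 0) (.eq 2 1)))))))) (cons S (cons (hb 1) fun _ => hb 5))).2 ⟨e, a, by
        simp only [SL, sl_all, sl_imp]
        refine ⟨fun n ln d x lx f g => ?_, fun x lx y ly m lm d f =>
          c _ _ ((sl_app a lx lm).1 d) _ _ ((sl_app a ly lm).1 f) rfl⟩
        obtain ⟨m, k, o⟩ := b n d x f ((sl_app (l S) ln lx).1 g)
        exact ⟨m, L_tr k (l (hb 5)), k, (sl_app a lx (L_tr k (l (hb 5)))).2 o⟩⟩
    simpa only [Sat, sat_all, sat_imp, sat_app, cons, hw] using this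
  · have h3 := (tr (.and (allF (impF (.mem 0 2) (allF (impF (.mem 0 1) (allF (impF (pairF 0 2 1)
      (.ex (.and (.mem 0 6) (appF 4 1 0))))))))) (allF (allF (allF (allF (allF (allF
      (impF (appF 6 5 3) (impF (appF 6 4 3) (impF (pairF 5 2 1) (impF (pairF 4 2 0)
        (.eq 1 0)))))))))))) (cons S (cons (hb 0) fun _ => hb 5))).1 (by
        simp only [Sat, sat_all, sat_imp, sat_app, sat_pair, cons, ← hw]
        exact ⟨fun a b ξ c s d => zf.pair_uniq (pr_sp zf _ _) d ▸ h1 a b ξ c,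
          fun s s' n a ξ η b c d e => h2 a ξ η n (zf.pair_uniq (pr_sp zf _ _) d ▸ b)
            (zf.pair_uniq (pr_sp zf _ _) e ▸ c)⟩)
    simp only [SL, sl_all, sl_imp] at h3
    refine noseq U _ (l S) ⟨fun a b ξ c s d => ?_, fun s s' n a ξ η b c d e => ?_⟩
    · have la := L_tr b (l (hb 0))
      have lx := L_tr c la
      obtain ⟨n, e, f, g⟩ := h3.1 a la b ξ lx c s (L_kp d la lx) ((sl_pair (L_kp d la lx) la lx).2 d)
      exact ⟨n, f, (sl_app (l S) (L_kp d la lx) e).1 g⟩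
    · have ⟨ls, ln⟩ := app_L (l S) b
      have lt := (app_L (l S) c).1
      have ⟨la, lx⟩ := L_cp d ls
      have ly := (L_cp e lt).2
      exact h3.2 s ls s' lt n ln a la ξ lx η ly ((sl_app (l S) ls ln).2 b) ((sl_app (l S) lt ln).2 c)
        ((sl_pair ls la lx).2 d) ((sl_pair lt la ly).2 e)

end Pool.Agent.H40.UZ
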