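import Pool.Agent.H40.Zt8

set_option autoImplicit false

/-! A definable pairing function on the field of an infinite well-order. -/

namespace Pool.Agent.H40.Zt

open Pool.Agent.H40.Bspt Pool.Agent.H40.Jz Classical

variable {M : Type} {E : M → M → Prop}

variable (E) in
noncomputable abbrev mn (d R : M) (P : M → Prop) : M :=
  the d fun m => (P m ∧ Ap E R m m) ∧ ∀ y, P y → Ap E R y y → Ap E R m y

variable (h : IsZF E) {A : M}
include h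

theorem WO.mn_sp {R d x : M} (w : WO E A R) (P : M → Prop) [D1 E P] (a : P x) (b : Ap E R x x) :
    (P (mn E d R P) ∧ Ap E R (mn E d R P) (mn E d R P)) ∧ ∀ y, P y → Ap E R y y → Ap E R (mn E d R P) y :=
  the_sp (Q := fun m => (P m ∧ Ap E R m m) ∧ ∀ y, P y → Ap E R y y → Ap E R m y)
    ((w.lst h P a b).imp fun _ c => ⟨⟨c.1, c.2.1⟩, c.2.2⟩) fun y z c d =>
      w.an _ _ (c.2 z d.1.1 d.1.2) (d.2 y c.1.1 c.1.2)

theorem WO.seg {R x : M} (w : WO E A R) : WO E A (seg E R x) := by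
  refine ⟨seg_sub h w.sub, fun a b => ?_, fun a b c d => w.an _ _ ((ap_seg h).1 c).1 ((ap_seg h).1 d).1,
    fun a b c => ?_, fun S y c d => ?_⟩
  · simp only [ap_seg h]
    exact fun c => ⟨⟨(w.rf _ _ c.1).1, w.tr _ _ _ c.1 c.2.1, fun e => c.2.2 (w.an _ _ c.2.1 (e ▸ c.1))⟩,
      (w.rf _ _ c.1).2, c.2⟩
  · simp only [ap_seg h]
    exact fun d e => ⟨w.tr _ _ _ d.1 e.1, e.2⟩
  · obtain ⟨m, e, f, g⟩ := w.le S y c ((ap_seg h).1 d).1
    have i := g y c ((ap_seg h).1 d).1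
    have j := ((ap_seg h).1 d).2
    exact ⟨m, e, (ap_seg h).2 ⟨f, w.tr _ _ _ i j.1, fun k => j.2 (w.an _ _ j.1 (k ▸ i))⟩, fun z k l =>
      (ap_seg h).2 ⟨g z k ((ap_seg h).1 l).1, ((ap_seg h).1 l).2⟩⟩

/-- a tower of pairs -/
theorem tower2 (B C : M) (G : M → M → Prop) [D2 E G] (f g : M → M → M) [T2 E f] [T2 E g] :
    ∃ U : M → M, T1 E U ∧ ∃ W, ∀ z, WO E W (U z) ∧ (∀ e, Ap E (U z) e e → G z (seg E (U z) e) ∧
      e = pr E (f z (seg E (U z) e)) (g z (seg E (U z) e))) ∧ (G z (U z) → E (f z (U z)) B →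
        E (g z (U z)) C → Ap E (U z) (pr E (f z (U z)) (g z (U z))) (pr E (f z (U z)) (g z (U z)))) := by
  have := @l2 _ E G _
  have := @t2 _ E f _
  have := @t2 _ E g _
  obtain ⟨W, hW⟩ := ex_prod h B C
  obtain ⟨U, a, b⟩ := tower h W fun z U => if G z U then pr E (f z U) (g z U) else W
  refine ⟨U, a, W, fun z => ⟨(b z).1, fun e c => ?_, fun c d e => ?_⟩⟩
  · have := (b z).2.1 e c
    split_ifs at this with d
    exacts [⟨d, this⟩, absurd (this ▸ (b z).1.mem h c) (h.irr W)]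
  · have := (b z).2.2
    rw [if_pos c] at this
    exact this (hW _ _ d e)

theorem godel (A : M) : ∃ φ : M → M → M → M → Prop, D4 E φ ∧ ∀ R, WO E A R →
    (∀ a b i a' b' i', φ R a b i → φ R a' b' i' → (a = a' ∧ b = b' ↔ i = i')) ∧
      ∀ m y a b, Ap E R a m → Ap E R b m → Ap E R y y → (∀ a b, Ap E R a m → Ap E R b m → ¬ φ R a b y) →
        ∃ i, φ R a b i ∧ Ap E R i y := by
  obtain ⟨N, _, hN⟩ : ∃ N : M → M → M → Prop, D3 E N ∧ ∀ U a b, N U a b ↔ ∀ i,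
    ¬ Ap E U (pr E (pr E a b) i) (pr E (pr E a b) i) := ⟨_, inferInstance, fun _ _ _ => Iff.rfl⟩
  have := @l3 _ E N _
  obtain ⟨m, _, hm⟩ : ∃ m : M → M → M, T2 E m ∧ ∀ R U, m R U = mn E A R fun m => ∃ a b, Ap E R a m ∧
    Ap E R b m ∧ N U a b := ⟨_, inferInstance, fun _ _ => rfl⟩
  have := @t2 _ E m _
  obtain ⟨p, _, hp⟩ : ∃ p : M → M → M, T2 E p ∧ ∀ R U, p R U = mn E A R fun a => Ap E R a (m R U) ∧
    ∃ b, Ap E R b (m R U) ∧ N U a b := ⟨_, inferInstance, fun _ _ => rfl⟩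
  have := @t2 _ E p _
  obtain ⟨q, _, hq⟩ : ∃ q : M → M → M, T2 E q ∧ ∀ R U, q R U = mn E A R fun b => Ap E R b (m R U) ∧
    N U (p R U) b := ⟨_, inferInstance, fun _ _ => rfl⟩
  have := @t2 _ E q _
  obtain ⟨r, _, hr⟩ : ∃ r : M → M → M, T2 E r ∧ ∀ R U, r R U = mn E A R fun i => ∀ e,
    ¬ Ap E U (pr E e i) (pr E e i) := ⟨_, inferInstance, fun _ _ => rfl⟩
  have := @t2 _ E r _
  obtain ⟨U, _, W, c⟩ := tower2 h (sq E A) A (fun R U => (∃ m a b, Ap E R a m ∧ Ap E R b m ∧ N U a b) ∧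
    ∃ i, Ap E R i i ∧ ∀ e, ¬ Ap E U (pr E e i) (pr E e i)) (fun R U => pr E (p R U) (q R U)) r
  have := @t1 _ E U _
  refine ⟨fun R a b i => Ap E (U R) (pr E (pr E a b) i) (pr E (pr E a b) i), inferInstance,
    fun R w => ?_⟩
  obtain ⟨u, c1, c2⟩ := c R
  beta_reduce
  generalize U R = U at u c1 c2
  have k1 : ∀ V k a b, Ap E R a k → Ap E R b k → N V a b → Ap E R (p R V) k ∧ Ap E R (q R V) k ∧
      N V (p R V) (q R V) := fun V k a b d e f => by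
    obtain ⟨⟨⟨a', b', g1, g2, g3⟩, -⟩, g⟩ := w.mn_sp h (d := A) (fun m => ∃ a b, Ap E R a m ∧
      Ap E R b m ∧ N V a b) ⟨a, b, d, e, f⟩ (w.rf _ _ d).2
    have g := g k ⟨a, b, d, e, f⟩ (w.rf _ _ d).2
    rw [← hm] at g g1 g2
    obtain ⟨⟨⟨i1, b'', i2, i3⟩, -⟩, -⟩ := w.mn_sp h (d := A) (fun a => Ap E R a (m R V) ∧
      ∃ b, Ap E R b (m R V) ∧ N V a b) ⟨g1, b', g2, g3⟩ (w.rf _ _ g1).1
    rw [← hp] at i1 i3
    obtain ⟨⟨⟨j1, j2⟩, -⟩, -⟩ := w.mn_sp h (d := A) (fun b => Ap E R b (m R V) ∧ N V (p R V) b)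
      ⟨i2, i3⟩ (w.rf _ _ i2).1
    rw [← hq] at j1 j2
    exact ⟨w.tr _ _ _ i1 g, w.tr _ _ _ j1 g, j2⟩
  have k2 : ∀ V i, Ap E R i i → (∀ e, ¬ Ap E V (pr E e i) (pr E e i)) → Ap E R (r R V) i ∧
      ∀ e, ¬ Ap E V (pr E e (r R V)) (pr E e (r R V)) := fun V i d e => by
    have := w.mn_sp h (d := A) (fun i => ∀ e, ¬ Ap E V (pr E e i) (pr E e i)) e d
    rw [← hr] at this
    exact ⟨this.2 i e d, this.1.1⟩
  have k3 : ∀ a b i, Ap E U (pr E (pr E a b) i) (pr E (pr E a b) i) → ∀ V,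
      V = seg E U (pr E (pr E a b) i) → N V a b ∧ (∀ e, ¬ Ap E V (pr E e i) (pr E e i)) ∧ Ap E R i i ∧
        (∀ k a' b', Ap E R a' k → Ap E R b' k → N V a' b' → Ap E R a k ∧ Ap E R b k) ∧
          ∀ y, Ap E R y y → (∀ e, ¬ Ap E V (pr E e y) (pr E e y)) → Ap E R i y := by
    rintro a b i d V e
    obtain ⟨⟨⟨k, a', b', f1, f2, f3⟩, j, f4, f5⟩, g⟩ := c1 _ d
    rw [← e] at f3 f5 g
    obtain ⟨g1, rfl⟩ := pr_inj h g
    obtain ⟨rfl, rfl⟩ := pr_inj h g1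
    exact ⟨(k1 V k a' b' f1 f2 f3).2.2, (k2 V j f4 f5).2, (w.rf _ _ (k2 V j f4 f5).1).1,
      fun k a b i l o => ⟨(k1 V k a b i l o).1, (k1 V k a b i l o).2.1⟩, fun y i l => (k2 V y i l).1⟩
  refine ⟨fun a b i a' b' i' d e => ?_, fun k y a b d e f g => ?_⟩
  · have k : ∀ a b i a' b' i', Ap E U (pr E (pr E a b) i) (pr E (pr E a' b') i') → (a = a' ∧ b = b' ↔
        i = i') := fun a b i a' b' i' f => by
      obtain ⟨g, j, -⟩ := k3 a' b' i' (u.rf _ _ f).2 _ rfl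
      have l := fun l => (ap_seg h).2 ⟨(u.rf _ _ f).1, f, l⟩
      refine ⟨fun ⟨o, s⟩ => by_contra fun t => ?_, fun o => by_contra fun t => ?_⟩
      · subst o s
        exact (hN _ _ _).1 g i (l fun v => t (pr_inj h v).2)
      · subst o
        exact j _ (l fun v => t (pr_inj h (pr_inj h v).1))
    exact (u.tot h d e).elim (k _ _ _ _ _ _) fun f => by
      simpa only [eq_comm] using k _ _ _ _ _ _ f
  · by_cases i : ∀ e, ¬ Ap E U (pr E e y) (pr E e y)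
    · by_cases j : N U a b
      · obtain ⟨l, o, s⟩ := k1 U k a b d e j
        exact absurd (c2 ⟨⟨k, a, b, d, e, j⟩, y, f, i⟩ ((ap_sq h).2 ⟨w.mem h l, w.mem h o⟩)
          (w.mem h (k2 U y f i).1)) ((hN _ _ _).1 s _)
      · obtain ⟨j', j⟩ := not_forall.1 (mt (hN _ _ _).2 j)
        exact ⟨j', not_not.1 j, (k3 a b j' (not_not.1 j) _ rfl).2.2.2.2 y f fun e l =>
          i e ((ap_seg h).1 l).1⟩
    · obtain ⟨x, i⟩ := not_forall.1 i
      have i := not_not.1 i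
      obtain ⟨a', b', rfl⟩ : ∃ a' b', x = pr E a' b' := ⟨_, _, (pr_inj h (c1 _ i).2).1⟩
      obtain ⟨-, j1, -, j, -⟩ := k3 a' b' y i _ rfl
      obtain ⟨j', l⟩ := not_forall.1 (mt (hN _ _ _).2 fun l => g a' b' (j k a b d e l).1
        (j k a b d e l).2 i)
      obtain ⟨l1, l2, l3⟩ := (ap_seg h).1 (not_not.1 l)
      refine ⟨j', l1, (k3 a b j' l1 _ rfl).2.2.2.2 y f fun e o => ?_⟩
      obtain ⟨o1, o2, o3⟩ := (ap_seg h).1 o
      exact j1 e ((ap_seg h).2 ⟨o1, u.tr _ _ _ o2 l2, fun s => l3 (u.an _ _ l2 (s ▸ o2))⟩)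

theorem hess (A : M) : ∃ gp : M → M → M → M, T3 E gp ∧ ∀ R, WO E A R → (¬ Few E fun y => Ap E R y y) →
    (∀ a b, Ap E R a a → Ap E R b b → Ap E R (gp R a b) (gp R a b)) ∧ ∀ a b a' b', Ap E R a a →
      Ap E R b b → Ap E R a' a' → Ap E R b' b' → gp R a b = gp R a' b' → a = a' ∧ b = b' := by
  obtain ⟨φ, _, hφ⟩ := godel h A
  have := @l4' _ E φ _
  obtain ⟨pp, _, hp⟩ := lemF h
  have := @t3 _ E pp _
  obtain ⟨o, ho⟩ := h.emp
  have o0 := h.nat0 ho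
  have o1 := nat_sc h o0
  obtain ⟨f, s, _, _, c⟩ : ∃ f g : M → M, T1 E f ∧ T1 E g ∧ ∀ n z, f (pr E n z) = n ∧
      g (pr E n z) = z := ⟨fun v => the v fun n => ∃ z, v = pr E n z, fun v => the v fun z => ∃ n,
        v = pr E n z, inferInstance, inferInstance, fun n z => ⟨the_eq ⟨z, rfl⟩ fun _ ⟨_, c⟩ =>
          (pr_inj h c).1.symm, the_eq ⟨n, rfl⟩ fun _ ⟨_, c⟩ => (pr_inj h c).2.symm⟩⟩
  have := @t1 _ E f _
  have := @t1 _ E s _
  obtain ⟨I, _, hI⟩ : ∃ I : M → M → M → Prop, D3 E I ∧ ∀ R x g, I R x g ↔ ((¬ Few E fun y =>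
      Ap E R y y ∧ ¬ Ap E R x y) → ∀ a b, (Ap E R a a ∧ ¬ Ap E R x a) → (Ap E R b b ∧ ¬ Ap E R x b) →
        ∃ i, (Ap E R i i ∧ ¬ Ap E R x i) ∧ (the A fun i => Ap E g (pr E a b) i) = i ∧ ∀ a' b',
          (Ap E R a' a' ∧ ¬ Ap E R x a') → (Ap E R b' b' ∧ ¬ Ap E R x b') →
            (the A fun i => Ap E g (pr E a' b') i) = i → a' = a ∧ b' = b) :=
    ⟨_, inferInstance, fun _ _ _ => Iff.rfl⟩
  have := @l3 _ E I _
  obtain ⟨B, _, hB⟩ : ∃ B : M → M → M → Prop, D3 E B ∧ ∀ R x m, B R x m ↔ ¬ Ap E R x m ∧ ∀ y,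
      Ap E R y y → ¬ Ap E R x y → ∃ a b, Ap E R a m ∧ Ap E R b m ∧ φ R a b y :=
    ⟨_, inferInstance, fun _ _ _ => Iff.rfl⟩
  have := @l3 _ E B _
  obtain ⟨sh, _, hs⟩ : ∃ sh : M → M → M → M, T3 E sh ∧ ∀ R m u, sh R m u = if u = m then
    pp (seg E R m) (mn E A R fun z => z = z) (sc E o) else pp (seg E R m) u o :=
    ⟨_, inferInstance, fun _ _ _ => rfl⟩
  have := @t3 _ E sh _
  obtain ⟨hh, _, hh'⟩ : ∃ hh : M → M → M → M, T3 E hh ∧ ∀ R e y, hh R e y = the A fun i => Ap E (s e)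
    (pr E (sh R (f e) (the A fun a => ∃ b, φ R a b y)) (sh R (f e) (the A fun b => ∃ a, φ R a b y))) i :=
    ⟨_, inferInstance, fun _ _ _ => rfl⟩
  have := @t3 _ E hh _
  obtain ⟨W, hW⟩ := ex_prod h (sq E A) A
  obtain ⟨H, _, hH⟩ : ∃ H : M → M → M → M, T3 E H ∧ ∀ R x V, H R x V = st E W fun e => ∃ a b i,
      e = pr E (pr E a b) i ∧ ((¬ ∃ m, B R x m ∧ Ap E R m m) ∧ φ R a b i ∨ ∃ m g, m = mn E A R
        (fun m => B R x m) ∧ (B R x m ∧ Ap E R m m) ∧ g = the A (fun g => Ap E V (pr E m g) (pr E m g)) ∧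
          i = the A fun i => Ap E g (pr E (hh R (pr E m g) a) (hh R (pr E m g) b)) i) :=
    ⟨_, inferInstance, fun _ _ _ => rfl⟩
  have := @t3 _ E H _
  have sH : ∀ R x V z, E z (H R x V) → E z W := fun R x V z k => ((mem_st h).1 (hH R x V ▸ k)).1
  have step : ∀ R, WO E A R → ∀ x V, (∀ m, Ap E R m m → ¬ Ap E R x m →
      I R m (the A fun g => Ap E V (pr E m g) (pr E m g))) → I R x (H R x V) := fun R w x V ih => by
    obtain ⟨φ1, φ2⟩ := hφ R w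
    refine (hI _ _ _).2 fun inf => ?_
    have aH : ∀ a b i, E a A → E b A → E i A → (Ap E (H R x V) (pr E a b) i ↔ _) := fun a b i d e g =>
      hH R x V ▸ (mem_st h).trans (and_iff_right (hW _ _ ((ap_sq h).2 ⟨d, e⟩) g))
    have mH : ∀ p i, Ap E (H R x V) p i → ∃ a b i', pr E p i = pr E (pr E a b) i' ∧ _ := fun p i d =>
      ((mem_st h).1 (hH R x V ▸ d)).2
    suffices ∃ v : M → M → M, (∀ a b, (Ap E R a a ∧ ¬ Ap E R x a) → (Ap E R b b ∧ ¬ Ap E R x b) →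
        (Ap E R (v a b) (v a b) ∧ ¬ Ap E R x (v a b)) ∧ Ap E (H R x V) (pr E a b) (v a b) ∧
          (∀ i, Ap E (H R x V) (pr E a b) i → i = v a b) ∧ ∀ a' b', (Ap E R a' a' ∧ ¬ Ap E R x a') →
            (Ap E R b' b' ∧ ¬ Ap E R x b') → v a' b' = v a b → a' = a ∧ b' = b) by
      obtain ⟨v, k⟩ := this
      exact fun a b d e => ⟨_, (k a b d e).1, the_eq (k a b d e).2.1 (k a b d e).2.2.1, fun a' b' d' e' g =>
        (k a b d e).2.2.2 a' b' d' e' ((the_eq (k a' b' d' e').2.1 (k a' b' d' e').2.2.1).symm.trans g)⟩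
    by_cases d : ∃ m, B R x m ∧ Ap E R m m
    · obtain ⟨m', d, e⟩ := d
      obtain ⟨e, -⟩ := w.mn_sp h (d := A) (fun m => B R x m) d e
      generalize hm : mn E A R (fun m => B R x m) = m at e
      obtain ⟨e1, e2⟩ := (hB _ _ _).1 e.1
      have lt : ∀ {y}, Ap E R y y ∧ ¬ Ap E R m y → Ap E R y y ∧ ¬ Ap E R x y := fun {y} i =>
        ⟨i.1, fun j => e1 (w.tr _ _ _ j ((w.tot h i.1 e.2).resolve_right i.2))⟩
      have sg : ∀ y, Ap E (seg E R m) y y ↔ Ap E R y y ∧ ¬ Ap E R m y := fun y => (ap_seg h).trans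
        (and_congr_right fun i => ⟨fun j k => j.2 (w.an _ _ j.1 k), fun j => ⟨(w.tot h i e.2).resolve_right j,
          fun k => j (k ▸ i)⟩⟩)
      have fm : ¬ Few E fun y => Ap E R y y ∧ ¬ Ap E R m y := fun i => by
        have j : Few E fun y => Ap E R y m := few_mono (few_or h i (few_one h (P := (· = m)) fun _ _ j k =>
          j.trans k.symm)) fun y j => or_iff_not_imp_right.2 fun k => ⟨(w.rf _ _ j).1, fun l =>
            k (w.an _ _ j l)⟩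
        exact inf (few_un h (fun a y => ∃ b, Ap E R b m ∧ φ R a b y) j (fun a => few_img h
          (fun b y => φ R a b y) j (fun b y z k l => (φ1 _ _ _ _ _ _ k l).1 ⟨rfl, rfl⟩) fun _ => id)
            fun y k => (e2 y k.1 k.2).elim fun a ⟨b, l, q⟩ => ⟨a, l, b, q⟩)
      obtain ⟨p1, p2⟩ := hp A _ (w.seg h (x := m)) fun i => fm (few_mono i fun y => (sg y).2)
      simp only [sg] at p1 p2
      obtain ⟨z, z1⟩ : ∃ z, Ap E R z z ∧ ¬ Ap E R m z := by_contra fun i => fm (few_one h fun y _ j =>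
        absurd ⟨y, j⟩ i)
      obtain ⟨⟨-, z2⟩, z3⟩ := w.mn_sp h (d := A) (fun z => z = z) rfl z1.1
      have z4 := And.intro z2 fun i => z1.2 (w.tr _ _ _ i (z3 z rfl z1.1))
      have le : ∀ {u}, Ap E R u m → u ≠ m → Ap E R u u ∧ ¬ Ap E R m u := fun i j =>
        ⟨(w.rf _ _ i).1, fun k => j (w.an _ _ i k)⟩
      have s1 : ∀ u, Ap E R u m → Ap E R (sh R m u) (sh R m u) ∧ ¬ Ap E R m (sh R m u) := fun u i => by
        rw [hs]
        split_ifs with j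
        exacts [p1 _ _ z4 o1, p1 _ _ (le i j) o0]
      have s2 : ∀ u v, Ap E R u m → Ap E R v m → sh R m u = sh R m v → u = v := fun u v i j => by
        rw [hs, hs]
        split_ifs with k l l
        exacts [fun _ => k.trans l.symm, fun q => absurd (p2 _ _ _ _ z4 o1 (le j l) o0 q).2.symm (sc_ne h),
          fun q => absurd (p2 _ _ _ _ (le i k) o0 z4 o1 q).2 (sc_ne h),
          fun q => (p2 _ _ _ _ (le i k) o0 (le j l) o0 q).1]
      have g1 := (hI _ _ _).1 (ih m e.2 e1) fm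
      generalize hg : the A (fun g => Ap E V (pr E m g) (pr E m g)) = g at g1
      have h1 : ∀ y, (Ap E R y y ∧ ¬ Ap E R x y) → ∃ a b, Ap E R a m ∧ Ap E R b m ∧ φ R a b y ∧
          hh R (pr E m g) y = the A fun i => Ap E g (pr E (sh R m a) (sh R m b)) i := fun y i => by
        obtain ⟨a, b, j, k, l⟩ := e2 y i.1 i.2
        refine ⟨a, b, j, k, l, ?_⟩
        rw [hh', (c m g).1, (c m g).2, the_eq (Q := fun a => ∃ b, φ R a b y) ⟨b, l⟩ fun _ ⟨_, q⟩ =>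
          ((φ1 _ _ _ _ _ _ q l).2 rfl).1, the_eq (Q := fun b => ∃ a, φ R a b y) ⟨a, l⟩ fun _ ⟨_, q⟩ =>
          ((φ1 _ _ _ _ _ _ q l).2 rfl).2]
      have h2 : ∀ y, (Ap E R y y ∧ ¬ Ap E R x y) → Ap E R (hh R (pr E m g) y) (hh R (pr E m g) y) ∧
          ¬ Ap E R m (hh R (pr E m g) y) := fun y i => by
        obtain ⟨a, b, j, k, -, l⟩ := h1 y i
        obtain ⟨_, q, r, -⟩ := g1 _ _ (s1 a j) (s1 b k)
        rwa [l, r]
      have h3 : ∀ y y', (Ap E R y y ∧ ¬ Ap E R x y) → (Ap E R y' y' ∧ ¬ Ap E R x y') →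
          hh R (pr E m g) y = hh R (pr E m g) y' → y = y' := fun y y' i i' q => by
        obtain ⟨a, b, j, k, l, r⟩ := h1 y i
        obtain ⟨a', b', j', k', l', r'⟩ := h1 y' i'
        obtain ⟨_, -, t, u⟩ := g1 _ _ (s1 a j) (s1 b k)
        have := u _ _ (s1 a' j') (s1 b' k') (by rw [← r', ← q, r, t])
        exact (φ1 _ _ _ _ _ _ l l').1 ⟨(s2 _ _ j' j this.1).symm, (s2 _ _ k' k this.2).symm⟩
      refine ⟨fun a b => the A fun i => Ap E g (pr E (hh R (pr E m g) a) (hh R (pr E m g) b)) i,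
        fun a b i j => ?_⟩
      obtain ⟨v, k, l, q⟩ := g1 _ _ (h2 a i) (h2 b j)
      beta_reduce
      rw [l]
      refine ⟨lt k, (aH _ _ _ (w.mem h i.1) (w.mem h j.1) (w.mem h k.1)).2 ⟨a, b, v, rfl, Or.inr
        ⟨m, g, hm.symm, e, hg.symm, l.symm⟩⟩, fun t u => ?_, fun a' b' i' j' r =>
          have := q _ _ (h2 a' i') (h2 b' j') r; ⟨h3 _ _ i' i this.1, h3 _ _ j' j this.2⟩⟩
      obtain ⟨a', b', t', r, ⟨r', -⟩ | ⟨_, _, rfl, -, rfl, r'⟩⟩ := mH _ _ u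
      · exact absurd ⟨m, e⟩ r'
      · obtain ⟨r1, rfl⟩ := pr_inj h r
        obtain ⟨rfl, rfl⟩ := pr_inj h r1
        rw [r', hm, hg, l]
    · have k : ∀ a b, (Ap E R a a ∧ ¬ Ap E R x a) → (Ap E R b b ∧ ¬ Ap E R x b) → ∃ i, φ R a b i ∧
          Ap E R i i ∧ ¬ Ap E R x i := fun a b i j => by
        obtain ⟨m, k, l, q⟩ : ∃ m, Ap E R a m ∧ Ap E R b m ∧ ¬ Ap E R x m := (w.tot h i.1 j.1).elim
          (fun k => ⟨b, k, j⟩) fun k => ⟨a, i.1, k, i.2⟩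
        obtain ⟨y, r⟩ := not_forall.1 fun r => d ⟨m, (hB _ _ _).2 ⟨q, r⟩, (w.rf _ _ k).2⟩
        simp only [Classical.not_imp, not_exists, not_and] at r
        exact (φ2 m y a b k l r.1 r.2.2).imp fun t u => ⟨u.1, (w.rf _ _ u.2).1, fun v =>
          r.2.1 (w.tr _ _ _ v u.2)⟩
      choose! v k using k
      refine ⟨v, fun a b i j => ⟨(k a b i j).2, (aH _ _ _ (w.mem h i.1) (w.mem h j.1)
        (w.mem h (k a b i j).2.1)).2 ⟨a, b, _, rfl, Or.inl ⟨d, (k a b i j).1⟩⟩, fun t u => ?_,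
          fun a' b' i' j' => (φ1 _ _ _ _ _ _ (k a' b' i' j').1 (k a b i j).1).2⟩⟩
      obtain ⟨a', b', t', r, ⟨-, r'⟩ | ⟨m, -, -, r', -⟩⟩ := mH _ _ u
      · obtain ⟨r1, rfl⟩ := pr_inj h r
        exact ((φ1 _ _ _ _ _ _ (k a b i j).1 r').1 (pr_inj h r1)).symm
      · exact absurd ⟨m, r'⟩ d
  obtain ⟨C, hC⟩ := h.power W
  obtain ⟨U, _, W', d⟩ := tower2 h A C (fun R U => ∃ x, Ap E R x x ∧ ∀ g, ¬ Ap E U (pr E x g) (pr E x g))
    (fun R U => mn E A R fun x => ∀ g, ¬ Ap E U (pr E x g) (pr E x g))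
    fun R U => H R (mn E A R fun x => ∀ g, ¬ Ap E U (pr E x g) (pr E x g)) U
  have := @t1 _ E U _
  refine ⟨fun R a b => the A fun i => Ap E (H R A (U R)) (pr E a b) i, inferInstance, fun R w i => ?_⟩
  obtain ⟨u, d1, d2⟩ := d R
  beta_reduce
  generalize U R = U at u d1 d2
  have k1 : ∀ x g, Ap E U (pr E x g) (pr E x g) → ∀ V, V = seg E U (pr E x g) → g = H R x V ∧ Ap E R x x ∧
      (∀ g, ¬ Ap E V (pr E x g) (pr E x g)) ∧ ∀ y, (∀ g, ¬ Ap E V (pr E y g) (pr E y g)) → Ap E R y y →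
        Ap E R x y := fun x g e V j => by
    obtain ⟨⟨y, k, l⟩, q⟩ := d1 _ e
    rw [← j] at l q
    have := w.mn_sp h (d := A) (fun x => ∀ g, ¬ Ap E V (pr E x g) (pr E x g)) l k
    rw [← (pr_inj h q).1] at this q
    exact ⟨(pr_inj h q).2, this.1.2, this.1.1, this.2⟩
  have k2 : ∀ x g g', Ap E U (pr E x g) (pr E x g) → Ap E U (pr E x g') (pr E x g') → g = g' := by
    have : ∀ x g g', Ap E U (pr E x g) (pr E x g') → g = g' := fun x g g' e => by_contra fun j =>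
      (k1 x g' (u.rf _ _ e).2 _ rfl).2.2.1 g ((ap_seg h).2 ⟨(u.rf _ _ e).1, e, fun k => j (pr_inj h k).2⟩)
    exact fun x g g' e j => (u.tot h e j).elim (this _ _ _) fun k => (this _ _ _ k).symm
  have k3 : ∀ x g, Ap E U (pr E x g) (pr E x g) → I R x g := fun x g e => by_contra fun j => by
    obtain ⟨x, ⟨g, e, j⟩, -, k⟩ := w.lst h (fun x => ∃ g, Ap E U (pr E x g) (pr E x g) ∧ ¬ I R x g)
      ⟨g, e, j⟩ (k1 x g e _ rfl).2.1
    obtain ⟨l, -, -, q⟩ := k1 x g e _ rfl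
    refine j (l ▸ step R w x _ fun m r t => ?_)
    obtain ⟨g', v⟩ := not_forall.1 fun v => t (q m v r)
    have v := not_not.1 v
    rw [the_eq (Q := fun g' => Ap E (seg E U (pr E x g)) (pr E m g') (pr E m g')) v fun z y =>
      k2 m _ _ ((ap_seg h).1 y).1 ((ap_seg h).1 v).1]
    exact by_contra fun y => t (k m ⟨g', ((ap_seg h).1 v).1, y⟩ r)
  have nA : ∀ y, ¬ Ap E R A y := fun y e => h.irr A (w.mem h e)
  have k4 := (hI _ _ _).1 (step R w A U fun m e _ => by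
    obtain ⟨g, j⟩ : ∃ g, Ap E U (pr E m g) (pr E m g) := by_contra fun j => by
      have := w.mn_sp h (d := A) (fun x => ∀ g, ¬ Ap E U (pr E x g) (pr E x g)) (not_exists.1 j) e
      exact this.1.1 _ (d2 ⟨m, e, not_exists.1 j⟩ (w.mem h this.1.2) ((hC _).2 (sH _ _ _)))
    rw [the_eq (Q := fun g => Ap E U (pr E m g) (pr E m g)) j fun z y => k2 m _ _ y j]
    exact k3 m g j) fun e => i (few_mono e fun y j => ⟨j, nA y⟩)
  refine ⟨fun a b e j => ?_, fun a b a' b' e j e' j' k => ?_⟩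
  · obtain ⟨_, k, l, -⟩ := k4 a b ⟨e, nA a⟩ ⟨j, nA b⟩
    exact l ▸ k.1
  · obtain ⟨_, -, l, q⟩ := k4 a' b' ⟨e', nA _⟩ ⟨j', nA _⟩
    exact q a b ⟨e, nA _⟩ ⟨j, nA _⟩ (k.trans l)

end Pool.Agent.H40.Zt
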