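import Pool.Agent.H40.U5
import Pool.Agent.H40.Zt9
import Pool.Agent.H40.JzDefs8

set_option autoImplicit false

/-! Chain condition and narrowness of the collapse inside the small model. -/

namespace Pool.Agent.H40.UZ

open Pool.Agent.H40.Bspt hiding App IsPair
open Pool.Agent.H40.Jz hiding Sub
open Pool.Agent.H40.Zt

variable {M : Type} {E : M → M → Prop}

variable (E) in
noncomputable abbrev lm (d : M) (P : M → Prop) : M := the d fun x => P x ∧ ∀ y, E y x → ¬ P y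

theorem lm_sp (h : IsZF E) {a d x : M} (ha : ∀ x, E x a → ∀ y, E y a → E x y ∨ x = y ∨ E y x)
    (P : M → Prop) [D1 E P] (hP : ∀ x, P x → E x a) (hx : P x) : P (lm E d P) := by
  refine (the_sp (Q := fun x => P x ∧ ∀ y, E y x → ¬ P y) ?_ fun y z b c =>
    (ha y (hP _ b.1) z (hP _ c.1)).elim (absurd b.1 <| c.2 y ·)
      (·.resolve_right (b.2 z · c.1))).1
  obtain ⟨s, hs⟩ := sep h P a
  obtain ⟨y, b, c⟩ := h.found s ⟨x, (hs x).2 ⟨hP x hx, hx⟩⟩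
  exact ⟨y, ((hs y).1 b).2, fun z e f => c z e ((hs z).2 ⟨hP z f, f⟩)⟩

theorem mk_inj (h : IsZF E) {A B : M → Prop} (F : M → M) [T1 E F] (a b : M) (hA : ∀ x, A x → E x a)
    (hB : ∀ x, A x → B (F x) ∧ E (F x) b) (hi : ∀ x y, A x → A y → F x = F y → x = y) :
    ∃ e, InjOn E e A B := by
  have := @t1 _ E F _
  obtain ⟨e, he⟩ := rel h (fun x y => y = F x) a b
  exact ⟨e, fun x c => ⟨_, (hB x c).1, (he _ _).2 ⟨hA x c, (hB x c).2, rfl⟩⟩,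
    fun x y z c d => ((he _ _).1 c).2.2.trans ((he _ _).1 d).2.2.symm,
    fun x y z c d f g => hi x y c d (((he _ _).1 f).2.2.symm.trans ((he _ _).1 g).2.2)⟩

theorem ex_fld (h : IsZF E) (f : M) : ∃ d, ∀ x y, Bspt.App E f x y → E y d := by
  obtain ⟨u, hu⟩ := h.union f
  obtain ⟨v, hv⟩ := h.union u
  refine ⟨v, fun x y ⟨p, a, b⟩ => ?_⟩
  obtain ⟨z, hz⟩ := h.pair x y
  exact (hv _).2 ⟨z, (hu _).2 ⟨p, a, (b z).2 (Or.inr hz)⟩, (hz _).2 (Or.inr rfl)⟩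

theorem ord_cmp (h : IsZF E) {a b : M} (ha : IsOrd E a) (hb : IsOrd E b) : Jz.Sub E a b ∨ E b a := by
  refine or_iff_not_imp_left.2 fun c => ?_
  have m : ∀ a b, ¬ Jz.Sub E a b → ∃ x, (E x a ∧ ¬ E x b) ∧ ∀ y, E y x → E y a → E y b := by
    intro a b c
    obtain ⟨s, hs⟩ := sep h (fun x => ¬ E x b) a
    obtain ⟨y, d, e⟩ := h.found s (by_contra fun d => c fun z e => by_contra fun f =>
      d ⟨z, (hs z).2 ⟨e, f⟩⟩)
    exact ⟨y, (hs y).1 d, fun z f g => by_contra fun k => e z f ((hs z).2 ⟨g, k⟩)⟩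
  obtain ⟨x, ⟨x1, x2⟩, x3⟩ := m a b c
  replace x3 : Jz.Sub E x b := fun y d => x3 y d (ha.1 x x1 y d)
  by_cases d : Jz.Sub E b x
  · exact h.ext x b (fun z => ⟨x3 z, d z⟩) ▸ x1
  obtain ⟨y, ⟨y1, y2⟩, y3⟩ := m b x d
  refine absurd (h.ext y x (fun z => ⟨fun e => y3 z e (hb.1 y y1 z e), fun e => ?_⟩) ▸ y1) x2
  rcases hb.2 z y (x3 z e) y1 with f | f | f
  · exact f
  · exact absurd (f ▸ e) y2
  · rcases ha.2 y x (ha.1 _ (ha.1 x x1 z e) y f) x1 with g | g | g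
    exacts [absurd g y2, absurd (g ▸ y1) x2, absurd (hb.1 y y1 x g) x2]

variable {K Q R F t : M} (L : LM E K Q R F t)
include L

theorem LM.ord : IsOrd E K := ⟨fun x a y b => (L.ktr x a y b).1, fun x y a b => L.ktri x a y b⟩

theorem LM.ord_mem {a : M} (ha : E a K) : IsOrd E a :=
  ⟨fun x b z c => (L.ktr a ha x b).2 z c, fun x y b c =>
    L.ktri x (L.ktr a ha x b).1 y (L.ktr a ha y c).1⟩

theorem LM.forcing : Forcing E Q R :=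
  ⟨fun x a => (L.qk x a).2.1, fun x y _ _ a b => (L.rpo x y x a b).2 rfl,
    fun x y z _ _ _ a b => (L.rpo x y z a b).1, t, L.tq, fun x a => (L.qk x a).2.2⟩

theorem LM.cnt (S : M → M → Prop) [D2 E S] (h1 : ∀ n x, S n x → E x Q)
    (h2 : ∀ n x y, S n x → S n y → Compat E Q R x y → x = y) : ∃ c : M → M, T1 E c ∧
      (∀ n x, IsNat E n → S n x → IsNat E (c x)) ∧
      ∀ n x m y, IsNat E n → S n x → IsNat E m → S m y → c x = c y → x = y := by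
  have h := L.zf
  obtain ⟨w, hw⟩ := h.omega'
  obtain ⟨s, hs⟩ := rel h S w Q
  obtain ⟨e, e1, e2⟩ := L.cc s fun n x y r a b c d =>
    h2 n x y ((hs _ _).1 a).2.2 ((hs _ _).1 b).2.2 ⟨r, L.rq _ _ c, c, d⟩
  have k : ∀ n x, IsNat E n → S n x → IsNat E (lm E x fun m => IsNat E m ∧ Bspt.App E e x m) ∧
      Bspt.App E e x (lm E x fun m => IsNat E m ∧ Bspt.App E e x m) := fun n x a b =>
    (e1 n a x (h1 n x b) ((hs _ _).2 ⟨(hw _).2 a, h1 n x b, b⟩)).elim fun m c =>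
      lm_sp h (a := w) (fun x a y b => tri h ((hw _).1 a) ((hw _).1 b))
        (fun m => IsNat E m ∧ Bspt.App E e x m) (fun _ a => (hw _).2 a.1) c
  exact ⟨fun x => lm E x fun m => IsNat E m ∧ Bspt.App E e x m, inferInstance,
    fun n x a b => (k n x a b).1, fun n x m y a b c d f => e2 x y _ (k n x a b).2
      (by dsimp only at f; rw [f]; exact (k m y c d).2)⟩

theorem LM.ccc : Ccc E Q R := fun A h1 h2 => by
  obtain ⟨c, _, c1, c2⟩ := L.cnt (fun _ x => E x A) (fun _ => h1) fun _ => h2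
  obtain ⟨w, hw⟩ := L.zf.omega'
  obtain ⟨o, ho⟩ := L.zf.emp
  have := L.zf.nat0 ho
  exact mk_inj L.zf c A w (fun _ => id) (fun x a => ⟨c1 o x this a, (hw _).2 (c1 o x this a)⟩)
    fun x y a b => c2 o x o y this a this b

theorem LM.not_unif : ¬ UnifNarrow E Q R := by
  have h := L.zf
  rintro ⟨G, g1, g2⟩
  obtain ⟨w, hw⟩ := h.omega'
  obtain ⟨D, hD⟩ := h.prod Q K
  obtain ⟨D', hD'⟩ := h.prod K K
  let fa : M → M := fun a => st E D fun z => ∃ p ξ, z = pr E p ξ ∧ Bspt.App E F (pr E a p) ξ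
  have f1 : ∀ a p ξ, Bspt.App E (fa a) p ξ → Bspt.App E F (pr E a p) ξ := fun a p ξ b =>
    (ex_pr h (Q := fun p ξ => Bspt.App E F (pr E a p) ξ)).1 ((mem_st h).1 ((app_pr h).1 b)).2
  have k : ∀ a, E a K → ∃ e, Bspt.App E G (fa a) e ∧ InjOn E e (E · a) (IsNat E) := fun a b =>
    g2 _ a ⟨fun z c => by
      obtain ⟨p, ξ, d, e, f⟩ := (hD _).1 ((mem_st h).1 c).1
      exact ⟨p, ξ, f, d, L.ord_mem e⟩, fun p q ξ η c d ⟨r, _, e, f⟩ =>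
        L.fhom a p q ξ η r (f1 _ _ _ c) (f1 _ _ _ d) e f⟩ (L.ord_mem b) fun ξ => ⟨fun c => by
      obtain ⟨p, d, e⟩ := L.fran a b ξ c
      exact ⟨p, (app_pr h).2 ((mem_st h).2 ⟨(hD _).2 ⟨p, ξ, d, (L.ktr a b ξ c).1, pr_sp h _ _⟩,
        p, ξ, rfl, e⟩)⟩, fun ⟨p, c⟩ => L.fmem a p ξ (f1 _ _ _ c)⟩
  obtain ⟨S, hS⟩ := rel h (fun s n => ∃ a ξ, s = pr E a ξ ∧ E a K ∧ E ξ a ∧ ∃ e,
    Bspt.App E G (st E D fun z => ∃ p ξ, z = pr E p ξ ∧ Bspt.App E F (pr E a p) ξ) e ∧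
      Bspt.App E e ξ n) D' w
  refine L.ns S ⟨fun a b ξ c => ?_, fun a ξ η n b c => ?_⟩
  · obtain ⟨e, d, f⟩ := k a b
    obtain ⟨n, g, i⟩ := f.1 ξ c
    exact ⟨n, g, (hS _ _).2 ⟨(hD' _).2 ⟨a, ξ, b, (L.ktr a b ξ c).1, pr_sp h _ _⟩, (hw _).2 g,
      a, ξ, rfl, b, c, e, d, i⟩⟩
  · obtain ⟨-, -, a1, ξ1, b1, b2, b3, e1, b4, b5⟩ := (hS _ _).1 b
    obtain ⟨-, -, a2, ξ2, c1, -, c3, e2, c4, c5⟩ := (hS _ _).1 c
    obtain ⟨rfl, rfl⟩ := pr_inj h b1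
    obtain ⟨rfl, rfl⟩ := pr_inj h c1
    obtain ⟨e, d, f⟩ := k a b2
    exact f.2.2 _ _ n b3 c3 (g1 _ _ _ b4 d ▸ b5) (g1 _ _ _ c4 d ▸ c5)

theorem LM.elem_cnt {a : M} (ha : E a K) : ∃ e, InjOn E e (E · a) (IsNat E) := by
  have h := L.zf
  obtain ⟨p, _, hp⟩ : ∃ p : M → M, T1 E p ∧ ∀ ξ, E ξ a → E (p ξ) Q ∧ Bspt.App E F (pr E a (p ξ)) ξ :=
    ⟨fun ξ => lm E ξ fun p => E p Q ∧ Bspt.App E F (pr E a p) ξ, inferInstance, fun ξ b =>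
      (L.fran a ha ξ b).elim fun _ c => lm_sp h L.ktri (fun p => E p Q ∧ Bspt.App E F (pr E a p) ξ)
        (fun x d => (L.qk x d.1).1) c⟩
  have := @t1 _ E p _
  have k : ∀ ξ η, E ξ a → E η a → Compat E Q R (p ξ) (p η) → ξ = η := fun ξ η b c ⟨r, _, d, e⟩ =>
    L.fhom a _ _ ξ η r (hp ξ b).2 (hp η c).2 d e
  obtain ⟨c, _, c1, c2⟩ := L.cnt (fun _ x => ∃ ξ, E ξ a ∧ x = p ξ)
    (fun _ _ ⟨ξ, b, c⟩ => c ▸ (hp ξ b).1) (by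
      rintro _ _ _ ⟨ξ, b, rfl⟩ ⟨η, c, rfl⟩ d
      rw [k ξ η b c d])
  have := @t1 _ E c _
  obtain ⟨w, hw⟩ := h.omega'
  obtain ⟨o, ho⟩ := h.emp
  have o0 := h.nat0 ho
  refine mk_inj h (fun ξ => c (p ξ)) a w (fun _ => id) (fun x b => ⟨c1 o _ o0 ⟨x, b, rfl⟩,
    (hw _).2 (c1 o _ o0 ⟨x, b, rfl⟩)⟩) fun x y b d e => k x y b d ?_
  rw [c2 o _ o _ o0 ⟨x, b, rfl⟩ o0 ⟨y, d, rfl⟩ e]
  exact ⟨_, (hp y d).1, (L.qk _ (hp y d).1).2.1, (L.qk _ (hp y d).1).2.1⟩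

theorem LM.narrow : Narrow E Q R := by
  have h := L.zf
  intro μ s hμ h1 h2
  obtain ⟨w, hw⟩ := h.omega'
  obtain ⟨d, hd⟩ := ex_fld h s
  obtain ⟨u, hu⟩ := h.union d
  obtain ⟨v, hv⟩ := ex_fld h u
  obtain ⟨A, hA⟩ : ∃ A : M → Prop, A = fun ξ => ∃ i f p, E i μ ∧ Bspt.App E s i f ∧ Bspt.App E f p ξ :=
    ⟨_, rfl⟩
  have : D1 E A := by rw [hA]; infer_instance
  have := @l1 _ E A _
  have av : ∀ ξ, A ξ → E ξ v := by
    rw [hA]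
    exact fun ξ ⟨i, f, p, _, b, z, c, e⟩ => hv p ξ ⟨z, (hu _).2 ⟨f, hd _ _ b, c⟩, e⟩
  have ph : ∀ i f, E i μ → Bspt.App E s i f → PHom E Q R f := fun i f a b =>
    (h1 i a).elim fun g c => h2 i g f c.1 b ▸ c.2
  have pq : ∀ i f p ξ, E i μ → Bspt.App E s i f → Bspt.App E f p ξ → E p Q :=
    fun i f p ξ a b ⟨z, c, e⟩ => by
      obtain ⟨p', ξ', k, l, -⟩ := (ph i f a b).1 z c
      exact (h.pair_inj e k).1 ▸ l
  obtain ⟨i, _, hi⟩ : ∃ i : M → M, T1 E i ∧ ∀ ξ, A ξ → E (i ξ) μ ∧ ∃ f p, Bspt.App E s (i ξ) f ∧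
      Bspt.App E f p ξ := ⟨fun ξ => lm E ξ fun i => E i μ ∧ ∃ f p, Bspt.App E s i f ∧
        Bspt.App E f p ξ, inferInstance, by
      rw [hA]
      exact fun ξ ⟨i, f, p, a, b, c⟩ => lm_sp h (fun x a y b => hμ.2 x y a b) (fun i => E i μ ∧
        ∃ f p, Bspt.App E s i f ∧ Bspt.App E f p ξ) (fun _ a => a.1) ⟨a, f, p, b, c⟩⟩
  have := @t1 _ E i _
  obtain ⟨p, _, hp⟩ : ∃ p : M → M, T1 E p ∧ ∀ ξ, A ξ → ∃ f, Bspt.App E s (i ξ) f ∧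
      Bspt.App E f (p ξ) ξ := ⟨fun ξ => lm E ξ fun p => ∃ f, Bspt.App E s (i ξ) f ∧
        Bspt.App E f p ξ, inferInstance, fun ξ a => by
      obtain ⟨b, f, p, c⟩ := hi ξ a
      exact lm_sp h L.ktri (fun p => ∃ f, Bspt.App E s (i ξ) f ∧ Bspt.App E f p ξ)
        (fun x ⟨g, e, k⟩ => (L.qk x (pq _ g x ξ b e k)).1) ⟨f, c⟩⟩
  have := @t1 _ E p _
  have p1 : ∀ ξ, A ξ → E (p ξ) Q := fun ξ a => (hp ξ a).elim fun f b => pq _ f _ ξ (hi ξ a).1 b.1 b.2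
  have k : ∀ ξ η, A ξ → A η → i ξ = i η → Compat E Q R (p ξ) (p η) → ξ = η := fun ξ η a b c e => by
    obtain ⟨f, f1, f2⟩ := hp ξ a
    obtain ⟨g, g1, g2⟩ := hp η b
    exact (ph _ f (hi ξ a).1 f1).2 _ _ _ _ f2 (h2 _ g f g1 (c ▸ f1) ▸ g2) e
  have k' : ∀ ξ η, A ξ → A η → i ξ = i η → p ξ = p η → ξ = η := fun ξ η a b c e => k ξ η a b c
    (e ▸ ⟨_, p1 ξ a, (L.qk _ (p1 ξ a)).2.1, (L.qk _ (p1 ξ a)).2.1⟩)
  rw [← hA]
  by_cases hc : ∃ e, InjOn E e (E · μ) (IsNat E)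
  · obtain ⟨e, e1, e2, e3⟩ := hc
    have n1 : ∀ ξ, A ξ → IsNat E (the ξ fun n => Bspt.App E e (i ξ) n) ∧
        Bspt.App E e (i ξ) (the ξ fun n => Bspt.App E e (i ξ) n) := fun ξ a => by
      obtain ⟨n, b, c⟩ := e1 _ (hi ξ a).1
      rw [the_eq (Q := fun n => Bspt.App E e (i ξ) n) c fun z f => e2 _ _ _ f c]
      exact ⟨b, c⟩
    obtain ⟨c, _, c1, c2⟩ := L.cnt (fun n x => ∃ ξ, A ξ ∧ Bspt.App E e (i ξ) n ∧ x = p ξ)
      (fun _ _ ⟨ξ, b, _, c⟩ => c ▸ p1 ξ b) (by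
        rintro n _ _ ⟨ξ, a, b, rfl⟩ ⟨η, c, f, rfl⟩ g
        rw [k ξ η a c (e3 _ _ n (hi ξ a).1 (hi η c).1 b f) g])
    have := @t1 _ E c _
    have n2 := fun ξ a => c1 _ _ (n1 ξ a).1 ⟨ξ, a, (n1 ξ a).2, rfl⟩
    refine mk_inj h (fun ξ => pi E (the ξ fun n => Bspt.App E e (i ξ) n) (c (p ξ))) v w av
      (fun ξ a => ⟨Or.inl (pi_nat h (n1 ξ a).1 (n2 ξ a)), (hw _).2 (pi_nat h (n1 ξ a).1 (n2 ξ a))⟩)
      fun ξ η a b f => ?_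
    obtain ⟨f1, f2⟩ := pi_inj h (n1 ξ a).1 (n2 ξ a) (n1 η b).1 (n2 η b) f
    exact k' ξ η a b (e3 _ _ _ (hi ξ a).1 (hi η b).1 (n1 ξ a).2 (f1 ▸ (n1 η b).2))
      (c2 _ _ _ _ (n1 ξ a).1 ⟨ξ, a, (n1 ξ a).2, rfl⟩ (n1 η b).1 ⟨η, b, (n1 η b).2, rfl⟩ f2)
  have km := (ord_cmp h L.ord hμ).resolve_right fun a => hc (L.elem_cnt a)
  obtain ⟨W, hW, w1⟩ : ∃ W, (∀ x y, Ap E W x y ↔ (E x μ ∧ E y μ) ∧ (E x y ∨ x = y)) ∧
    Jz.Sub E W (sq E μ) := ⟨rl E μ fun x y => E x y ∨ x = y, fun _ _ => ap_rl h, rl_sub h⟩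
  have tr : ∀ x y z, E z μ → E x y → E y z → E x z := fun x y z a b c => by
    rcases hμ.2 x z (hμ.1 _ (hμ.1 z a y c) x b) a with e | e | e
    · exact e
    all_goals
      obtain ⟨q, hq⟩ := sep h (fun r => r = x ∨ r = y ∨ r = z) μ
      have m := hμ.1 z a y c
      have n := hμ.1 y m x b
      obtain ⟨r, r1, r2⟩ := h.found q ⟨z, (hq _).2 ⟨a, Or.inr (Or.inr rfl)⟩⟩
      rcases ((hq _).1 r1).2 with rfl | rfl | rfl
    · exact absurd ((hq _).2 ⟨m, Or.inr (Or.inl rfl)⟩) (r2 y (e ▸ c))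
    · exact absurd ((hq _).2 ⟨n, Or.inl rfl⟩) (r2 x b)
    · exact absurd ((hq _).2 ⟨m, Or.inr (Or.inl rfl)⟩) (r2 y c)
    · exact absurd ((hq _).2 ⟨a, Or.inr (Or.inr rfl)⟩) (r2 z e)
    · exact absurd ((hq _).2 ⟨n, Or.inl rfl⟩) (r2 x b)
    · exact absurd ((hq _).2 ⟨m, Or.inr (Or.inl rfl)⟩) (r2 y c)
  have wo : WO E μ W := by
    refine ⟨w1, fun x y a => ?_, fun x y a b => ?_, fun x y z a b => ?_, fun S x a b => ?_⟩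
    · simp only [hW] at a ⊢
      tauto
    · rw [hW] at a b
      exact a.2.elim (fun c => b.2.elim (fun e => absurd (tr _ _ _ a.1.1 c e) (h.irr _)) Eq.symm) id
    · rw [hW] at a b ⊢
      exact ⟨⟨a.1.1, b.1.2⟩, a.2.elim (fun c => Or.inl (b.2.elim (tr _ _ _ b.1.2 c) (· ▸ c)))
        (· ▸ b.2)⟩
    · obtain ⟨q, hq⟩ := sep h (fun r => E r S) μ
      obtain ⟨r, r1, r2⟩ := h.found q ⟨x, (hq _).2 ⟨((hW _ _).1 b).1.1, a⟩⟩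
      have m := (hq _).1 r1
      refine ⟨r, m.2, (hW _ _).2 ⟨⟨m.1, m.1⟩, Or.inr rfl⟩, fun y c e => ?_⟩
      have n := ((hW _ _).1 e).1.1
      exact (hW _ _).2 ⟨⟨m.1, n⟩, (or_assoc.2 (hμ.2 r y m.1 n)).resolve_right
        fun f => r2 y f ((hq _).2 ⟨n, c⟩)⟩
  have rf : ∀ x, E x μ → Ap E W x x := fun x a => (hW _ _).2 ⟨⟨a, a⟩, Or.inr rfl⟩
  obtain ⟨gp, _, hg⟩ := hess h μ
  have := @t3 _ E gp _
  obtain ⟨g1, g2⟩ := hg W wo fun a => hc (by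
    obtain ⟨n, f, b, b', c⟩ := few_fin h a rf
    have e : ∀ x, E x μ → E (the x fun i => E i n ∧ Bspt.App E f i x) n ∧
        Bspt.App E f (the x fun i => E i n ∧ Bspt.App E f i x) x := fun x e => by
      obtain ⟨i, k, l⟩ := c x e
      rwa [the_eq (Q := fun i => E i n ∧ Bspt.App E f i x) k l]
    refine mk_inj h (fun x => the x fun i => E i n ∧ Bspt.App E f i x) μ n (fun _ => id)
      (fun x k => ⟨nel h b (e x k).1, (e x k).1⟩) fun x y k l m => ?_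
    obtain ⟨z, -, hz⟩ := b' _ (e x k).1
    exact (hz x ⟨k, (e x k).2⟩).trans (hz y ⟨l, (show _ = _ from m) ▸ (e y l).2⟩).symm)
  have q1 := fun ξ a => rf _ (hi ξ a).1
  have q2 := fun ξ a => rf _ (km _ (L.qk _ (p1 ξ a)).1)
  have q3 := fun ξ a => ((hW _ _).1 (g1 _ _ (q1 ξ a) (q2 ξ a))).1.1
  refine mk_inj h (fun ξ => gp W (i ξ) (p ξ)) v μ av (fun ξ a => ⟨Or.inr (q3 ξ a), q3 ξ a⟩)
    fun ξ η a b e => ?_
  obtain ⟨e1, e2⟩ := g2 _ _ _ _ (q1 ξ a) (q2 ξ a) (q1 η b) (q2 η b) e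
  exact k' ξ η a b e1 e2

end Pool.Agent.H40.UZ
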