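import Mathlib

set_option autoImplicit false

namespace Pool.Agent.H40.Vant

open Finset SimpleGraph

variable {V : Type} (G : SimpleGraph V)

/-- total length of a walk -/
def wt (len : Sym2 V → ℝ) {s t : V} (p : G.Walk s t) : ℝ := (p.edges.map len).sum

/-- `p` is a shortest path between its endpoints -/
def Short (len : Sym2 V → ℝ) {s t : V} (p : G.Walk s t) : Prop :=
  p.IsPath ∧ ∀ q : G.Walk s t, q.IsPath → wt G len p ≤ wt G len q

/-- positive lengths with unique shortest paths inside each component -/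
def Good (len : Sym2 V → ℝ) : Prop :=
  (∀ e ∈ G.edgeSet, 0 < len e) ∧ ∀ s t, G.Reachable s t → ∃! p : G.Walk s t, Short G len p

/-- `e` is the bottleneck edge of the shortest path from `s` to `t` -/
def Bott (len c : Sym2 V → ℝ) (s t : V) (e : Sym2 V) : Prop :=
  ∃ p : G.Walk s t, Short G len p ∧ e ∈ p.edges ∧ ∀ f ∈ p.edges, f ≠ e → c e < c f

/-- the edges revealed by the vantage points `S` -/
def R (len c : Sym2 V → ℝ) (S : Set V) : Set (Sym2 V) := {e | ∃ s ∈ S, ∃ t, Bott G len c s t e}

/-- the largest number of edges revealed by `k` vantage points -/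
noncomputable def OPT (len c : Sym2 V → ℝ) (k : ℕ) : ℕ :=
  sSup {m | ∃ S : Set V, S.ncard = k ∧ m = (R G len c S).ncard}

/-- what is learned from `s`: for each `t`, the bottleneck edge (if any) and its capacity -/
def obs (len c : Sym2 V → ℝ) (s : V) : V → Set (Sym2 V × ℝ) :=
  fun t => {x | Bott G len c s t x.1 ∧ x.2 = c x.1}

/-- a deterministic adaptive strategy: next vantage point (or stop) from all that was learned -/
def Strat (V : Type) : Type := List (V → Set (Sym2 V × ℝ)) → Option V

/-- the vantage points chosen in the first `n` steps, latest first -/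
def run (len c : Sym2 V → ℝ) (A : Strat V) : ℕ → List V
  | 0 => []
  | n + 1 => (A ((run len c A n).map (obs G len c))).toList ++ run len c A n

/-- the set of vantage points chosen in the first `n` steps -/
def chosen (len c : Sym2 V → ℝ) (A : Strat V) (n : ℕ) : Set V := {x | x ∈ run G len c A n}

def Tch (L : List V) (e : Sym2 V) : Prop := ∃ x ∈ L, x ∈ e

theorem bott_tr (len c c' : Sym2 V → ℝ) (L : List V) (m : ℝ) (s : V) (hs : s ∈ L)
    (h1 : ∀ e, Tch L e → c e = c' e ∧ c e ≤ m) (h2 : ∀ e, ¬ Tch L e → m < c e)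
    (h3 : ∀ e, ¬ Tch L e → m < c' e) (t : V) (e : Sym2 V) (h : Bott G len c s t e) :
    Tch L e ∧ Bott G len c' s t e := by
  obtain ⟨p, hp, he, hb⟩ := h
  have hT : Tch L e := by
    by_contra hn
    cases p with
    | nil => simp at he
    | cons h q =>
      rename_i u
      have t0 : Tch L s(s, u) := ⟨s, hs, Sym2.mem_mk_left _ _⟩
      have := hb s(s, u) (by simp) (fun e' => hn (e' ▸ t0))
      have := h2 e hn
      have := (h1 _ t0).2
      linarith
  refine ⟨hT, p, hp, he, fun f hf hne => ?_⟩
  by_cases hf' : Tch L f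
  · rw [← (h1 e hT).1, ← (h1 f hf').1]; exact hb f hf hne
  · rw [← (h1 e hT).1]; exact lt_of_le_of_lt (h1 e hT).2 (h3 f hf')

theorem obs_tr (len c c' : Sym2 V → ℝ) (L : List V) (m : ℝ) (s : V) (hs : s ∈ L)
    (h1 : ∀ e, Tch L e → c e = c' e ∧ c e ≤ m) (h2 : ∀ e, ¬ Tch L e → m < c e)
    (h3 : ∀ e, ¬ Tch L e → m < c' e) : obs G len c s = obs G len c' s := by
  funext t
  ext x
  constructor
  · rintro ⟨h, hx⟩
    obtain ⟨a, b⟩ := bott_tr G len c c' L m s hs h1 h2 h3 t _ h
    exact ⟨b, hx.trans (h1 _ a).1⟩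
  · rintro ⟨h, hx⟩
    obtain ⟨a, b⟩ := bott_tr G len c' c L m s hs
      (fun e he => ⟨(h1 e he).1.symm, (h1 e he).1 ▸ (h1 e he).2⟩) h3 h2 t _ h
    exact ⟨b, hx.trans (h1 _ a).1.symm⟩

open Classical in
noncomputable def cap (d : Sym2 V → ℝ) : List V → Sym2 V → ℝ
  | [], e => d e
  | s :: L, e => if Tch L e then cap d L e else if s ∈ e then ((s :: L).toFinset.card : ℝ) else d e

theorem tch_cons (s : V) (L : List V) (e : Sym2 V) : Tch (s :: L) e ↔ s ∈ e ∨ Tch L e := by
  simp [Tch]

theorem cap_not (d : Sym2 V → ℝ) (L : List V) (e : Sym2 V) (h : ¬ Tch L e) : cap d L e = d e := by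
  cases L with
  | nil => rfl
  | cons s L =>
    rw [tch_cons, not_or] at h
    simp only [cap, if_neg h.1, if_neg h.2]

open Classical in
theorem cap_tch (d d' : Sym2 V → ℝ) (L : List V) (e : Sym2 V) (h : Tch L e) :
    cap d L e = cap d' L e ∧ 0 < cap d L e ∧ cap d L e ≤ L.toFinset.card := by
  induction L with
  | nil => simp [Tch] at h
  | cons s L ih =>
    by_cases h' : Tch L e
    · obtain ⟨a, b, c⟩ := ih h'
      simp only [cap, if_pos h']
      refine ⟨a, b, c.trans ?_⟩
      exact_mod_cast card_le_card (by rw [List.toFinset_cons]; exact subset_insert _ _)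
    · have hs : s ∈ e := ((tch_cons s L e).1 h).resolve_right h'
      simp only [cap, if_neg h', if_pos hs]
      refine ⟨trivial, ?_, le_rfl⟩
      exact_mod_cast card_pos.2 ⟨s, by simp⟩

open Classical in
theorem cap_app (d : Sym2 V → ℝ) (M L : List V) (e : Sym2 V) :
    (Tch L e → cap d (M ++ L) e = cap d L e) ∧
    (¬ Tch L e → Tch (M ++ L) e → (L.toFinset.card : ℝ) < cap d (M ++ L) e) := by
  induction M with
  | nil => exact ⟨fun _ => rfl, fun h h' => absurd h' h⟩
  | cons s M ih =>
    constructor
    · intro h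
      have : Tch (M ++ L) e := by
        obtain ⟨x, a, b⟩ := h
        exact ⟨x, List.mem_append_right _ a, b⟩
      simp only [List.cons_append, cap, if_pos this]
      exact ih.1 h
    · intro h h'
      by_cases h2 : Tch (M ++ L) e
      · simp only [List.cons_append, cap, if_pos h2]
        exact ih.2 h h2
      · have hs : s ∈ e := ((tch_cons s _ e).1 h').resolve_right h2
        simp only [List.cons_append, cap, if_neg h2, if_pos hs]
        have : L.toFinset ⊂ (s :: (M ++ L)).toFinset := by
          refine ⟨fun x hx => ?_, fun hh => h ⟨s, List.mem_toFinset.1 (hh (by simp)), hs⟩⟩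
          simp [List.mem_toFinset.1 hx]
        exact_mod_cast card_lt_card this

open Classical in
theorem obs_cap [Fintype V] (len d d' : Sym2 V → ℝ) (hd : ∀ e, (Fintype.card V : ℝ) < d e)
    (hd' : ∀ e, (Fintype.card V : ℝ) < d' e) (M L : List V) :
    L.map (obs G len (cap d' (M ++ L))) = L.map (obs G len (cap d L)) := by
  refine List.map_congr_left fun s hs => ?_
  have hc : (L.toFinset.card : ℝ) ≤ Fintype.card V := by exact_mod_cast card_le_univ _
  refine obs_tr G len _ _ L L.toFinset.card s hs (fun e he => ?_) (fun e he => ?_) (fun e he => ?_)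
  · rw [(cap_app d' M L e).1 he]
    exact ⟨(cap_tch d' d L e he).1, (cap_tch d' d L e he).2.2⟩
  · by_cases h : Tch (M ++ L) e
    · exact (cap_app d' M L e).2 he h
    · rw [cap_not _ _ _ h]; exact lt_of_le_of_lt hc (hd' e)
  · rw [cap_not _ _ _ he]; exact lt_of_le_of_lt hc (hd e)

noncomputable def adv (len d : Sym2 V → ℝ) (A : Strat V) : ℕ → List V
  | 0 => []
  | n + 1 => (A ((adv len d A n).map (obs G len (cap d (adv len d A n))))).toList ++ adv len d A n

theorem adv_suf (len d : Sym2 V → ℝ) (A : Strat V) (n k : ℕ) (h : n ≤ k) :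
    ∃ M, adv G len d A k = M ++ adv G len d A n := by
  induction k, h using Nat.le_induction with
  | base => exact ⟨[], rfl⟩
  | succ k _ ih =>
    obtain ⟨M, hM⟩ := ih
    exact ⟨_ ++ M, by rw [List.append_assoc, ← hM]; rfl⟩

theorem run_mono (len c : Sym2 V → ℝ) (A : Strat V) (n k : ℕ) (h : n ≤ k) :
    chosen G len c A n ⊆ chosen G len c A k := by
  induction k, h using Nat.le_induction with
  | base => exact fun _ h => h
  | succ k _ ih => exact fun x hx => List.mem_append_right _ (ih hx)

theorem run_adv [Fintype V] (len d d' : Sym2 V → ℝ) (hd : ∀ e, (Fintype.card V : ℝ) < d e)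
    (hd' : ∀ e, (Fintype.card V : ℝ) < d' e) (A : Strat V) (T n : ℕ) (h : n ≤ T + 1) :
    run G len (cap d' (adv G len d A T)) A n = adv G len d A n := by
  induction n with
  | zero => rfl
  | succ n ih =>
    obtain ⟨M, hM⟩ := adv_suf G len d A n T (by omega)
    simp only [run, adv]
    rw [ih (by omega), hM, obs_cap G len d d' hd hd']

theorem cap_old (d : Sym2 V → ℝ) (M L : List V) (h : ∀ x ∈ M, x ∈ L) : cap d (M ++ L) = cap d L := by
  funext e
  by_cases he : Tch L e
  · exact (cap_app d M L e).1 he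
  · rw [cap_not _ _ _ he, cap_not]
    rintro ⟨x, a, b⟩
    exact he ⟨x, (List.mem_append.1 a).elim (h x) id, b⟩

open Classical in
/-- the adversary: a small list `Q` such that every completion keeps the run inside `Q`. -/
theorem adversary [Fintype V] (len : Sym2 V → ℝ) (A : Strat V) (b : ℕ) :
    ∃ Q : List V, Q.toFinset.card ≤ b ∧ ∀ d : Sym2 V → ℝ, (∀ e, (Fintype.card V : ℝ) < d e) →
      ∀ n, (chosen G len (cap d Q) A n).ncard ≤ b →
        ∀ e ∈ R G len (cap d Q) (chosen G len (cap d Q) A n), Tch Q e := by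
  let d0 : Sym2 V → ℝ := fun _ => Fintype.card V + 1
  have hd0 : ∀ e, (Fintype.card V : ℝ) < d0 e := fun _ => lt_add_one _
  let P : ℕ → Prop := fun m => m ≤ b ∧ ∃ T, (adv G len d0 A T).toFinset.card = m
  have hP : P 0 := ⟨Nat.zero_le _, 0, rfl⟩
  obtain ⟨hb, T0, hT0⟩ := Nat.findGreatest_spec (P := P) (Nat.zero_le b) hP
  have hmax : ∀ T, (adv G len d0 A T).toFinset.card ≤ b →
      (adv G len d0 A T).toFinset.card ≤ Nat.findGreatest P b :=
    fun T h => Nat.le_findGreatest h ⟨h, T, rfl⟩
  refine ⟨adv G len d0 A T0, by omega, fun d hd n hn => ?_⟩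
  set Q := adv G len d0 A T0 with hQ
  have key : ∀ k, (chosen G len (cap d Q) A k).ncard ≤ b → run G len (cap d Q) A k = adv G len d0 A k ∧
      ∀ x ∈ adv G len d0 A k, x ∈ Q := by
    intro k
    induction k with
    | zero => exact fun _ => ⟨rfl, fun x hx => by simp [adv] at hx⟩
    | succ k ih =>
      intro hk
      have hk' : (chosen G len (cap d Q) A k).ncard ≤ b :=
        (Set.ncard_le_ncard (run_mono G len _ A k (k + 1) (by omega)) (Set.toFinite _)).trans hk
      obtain ⟨i1, i2⟩ := ih hk'
      have e1 : run G len (cap d Q) A (k + 1) = adv G len d0 A (k + 1) := by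
        by_cases hkT : k ≤ T0
        · exact run_adv G len d0 d hd0 hd A T0 (k + 1) (by omega)
        · obtain ⟨M, hM⟩ := adv_suf G len d0 A T0 k (by omega)
          have : cap d Q = cap d (adv G len d0 A k) := by
            rw [hM, cap_old d M _ fun x hx => i2 x (hM ▸ List.mem_append_left _ hx)]
          rw [this]
          exact run_adv G len d0 d hd0 hd A k (k + 1) le_rfl
      refine ⟨e1, ?_⟩
      by_cases hkT : k + 1 ≤ T0
      · obtain ⟨M, hM⟩ := adv_suf G len d0 A (k + 1) T0 hkT
        intro x hx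
        rw [hQ, hM]; exact List.mem_append_right _ hx
      · obtain ⟨M, hM⟩ := adv_suf G len d0 A T0 (k + 1) (by omega)
        have hs : Q.toFinset ⊆ (adv G len d0 A (k + 1)).toFinset := by
          intro x hx
          rw [hM]; exact List.mem_toFinset.2 (List.mem_append_right _ (List.mem_toFinset.1 hx))
        have hc : (adv G len d0 A (k + 1)).toFinset.card ≤ b := by
          have : chosen G len (cap d Q) A (k + 1) = ((adv G len d0 A (k + 1)).toFinset : Set V) := by
            ext x; simp [chosen, e1]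
          rwa [this, Set.ncard_coe_finset] at hk
        have := eq_of_subset_of_card_le hs (by have := hmax _ hc; omega)
        intro x hx
        exact List.mem_toFinset.1 (this ▸ List.mem_toFinset.2 hx)
  obtain ⟨k1, k2⟩ := key n hn
  rintro e ⟨s, hs, t, h⟩
  have hs' : s ∈ Q := k2 s (k1 ▸ hs)
  have hc : (Q.toFinset.card : ℝ) ≤ Fintype.card V := by exact_mod_cast card_le_univ _
  refine (bott_tr G len _ _ Q Q.toFinset.card s hs' (fun e he => ⟨rfl, (cap_tch d d Q e he).2.2⟩)
    (fun e he => ?_) (fun e he => ?_) t e h).1 <;>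
  · rw [cap_not _ _ _ he]; exact lt_of_le_of_lt hc (hd e)

theorem path_ext {s t : V} (p : G.Walk s t) : ∀ q : G.Walk s t, p.IsPath → q.IsPath →
    (∀ e, e ∈ p.edges ↔ e ∈ q.edges) → p = q := by
  induction p with
  | nil => intro q _ hq _; exact (Walk.isPath_iff_nil.1 hq).eq_nil.symm
  | cons h p ih =>
    rename_i s u t
    intro q hp hq he
    cases q with
    | nil => simpa using he s(s, u)
    | cons h' q =>
      rename_i u'
      rw [Walk.cons_isPath_iff] at hp hq
      have h1 := (he s(s, u)).1 (by simp)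
      rw [Walk.edges_cons, List.mem_cons] at h1
      have hu : u = u' := by
        rcases h1 with h1 | h1
        · exact Sym2.congr_right.1 h1
        · exact absurd (Walk.fst_mem_support_of_mem_edges q h1) hq.2
      subst hu
      rw [ih q hp.1 hq.1 fun e => ?_]
      have := he e
      simp only [Walk.edges_cons, List.mem_cons] at this
      constructor
      · intro h2
        exact (this.1 (Or.inr h2)).resolve_left fun e' =>
          hp.2 (Walk.fst_mem_support_of_mem_edges p (e' ▸ h2))
      · intro h2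
        exact (this.2 (Or.inr h2)).resolve_left fun e' =>
          hq.2 (Walk.fst_mem_support_of_mem_edges q (e' ▸ h2))

/-- generic lengths close to a constant -/
theorem ex_len [Fintype V] : ∃ (len : Sym2 V → ℝ) (B : ℝ), Good G len ∧ 0 < B ∧
    ∀ s t (p : G.Walk s t), p.IsPath → p.length * B ≤ wt G len p ∧ wt G len p < (p.length + 1) * B := by
  classical
  let N := Fintype.card (Sym2 V)
  let ι : Sym2 V ≃ Fin N := Fintype.equivFin _
  let l : Sym2 V → ℕ := fun e => 2 ^ N + 2 ^ (ι e : ℕ)
  let w : ∀ {s t : V}, G.Walk s t → ℕ := fun p => (p.edges.map l).sum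
  let r : ∀ {s t : V}, G.Walk s t → ℕ := fun p => ∑ i ∈ p.edges.toFinset.image (fun e => (ι e : ℕ)), 2 ^ i
  have hι : Function.Injective fun e => (ι e : ℕ) := fun a b h => ι.injective (Fin.ext h)
  have hw : ∀ s t (p : G.Walk s t), wt G (fun e => (l e : ℝ)) p = w p := by
    intro s t p
    simp only [wt, w, Nat.cast_list_sum, List.map_map]
    rfl
  have h1 : ∀ s t (p : G.Walk s t), p.IsPath → w p = p.length * 2 ^ N + r p := by
    intro s t p hp
    simp only [w, r, l]
    rw [sum_image fun a _ b _ h => hι h, List.sum_toFinset _ hp.isTrail.edges_nodup,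
      List.sum_map_add]
    simp
  have h2 : ∀ s t (p : G.Walk s t), r p < 2 ^ N := by
    intro s t p
    refine Nat.geomSum_lt le_rfl fun k hk => ?_
    obtain ⟨e, -, rfl⟩ := mem_image.1 hk
    exact (ι e).2
  refine ⟨fun e => l e, 2 ^ N, ⟨fun e _ => by positivity, fun s t h => ?_⟩, by positivity,
    fun s t p hp => ?_⟩
  · obtain ⟨p, hp, hm⟩ := WellFounded.has_min (InvImage.wf (fun p : G.Walk s t => w p) Nat.lt_wfRel.wf)
      {p | p.IsPath} ⟨h.some.bypass, Walk.bypass_isPath _⟩
    have hs : Short G (fun e => (l e : ℝ)) p := ⟨hp, fun q hq => by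
      rw [hw, hw]; exact_mod_cast not_lt.1 (hm q hq)⟩
    refine ⟨p, hs, fun q hq => ?_⟩
    have e1 : w q = w p := by
      have := le_antisymm (hq.2 p hp) (hs.2 q hq.1)
      rw [hw, hw] at this
      exact_mod_cast this
    rw [h1 _ _ q hq.1, h1 _ _ p hp] at e1
    have e2 : r q = r p := by
      have := congrArg (· % 2 ^ N) e1
      simp only [Nat.mul_add_mod_self_right] at this
      rwa [Nat.mod_eq_of_lt (h2 _ _ q), Nat.mod_eq_of_lt (h2 _ _ p)] at this
    have e3 := image_injective hι (Finset.geomSum_injective le_rfl e2)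
    exact path_ext G q p hq.1 hp fun e => by rw [← List.mem_toFinset, e3, List.mem_toFinset]
  · rw [hw, h1 _ _ p hp]
    have := h2 _ _ p
    constructor
    · push_cast; have : (0 : ℝ) ≤ r p := by positivity
      linarith
    · have : p.length * 2 ^ N + r p < (p.length + 1) * 2 ^ N := by rw [add_mul]; omega
      exact_mod_cast this

end Pool.Agent.H40.Vant
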