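import Pool.Agent.H40.WoDefs

namespace Pool.Agent.H40.Wo

open Set

universe u v w

inductive Fact (M : Type u) : Type u
  | P : Fin 5 → M → Fact M
  | A : M → M → Fact M
  | R : M → M → M → Fact M

namespace Fact

variable {M : Type u} {N : Type v} {K : Type w}

def map (f : M → N) : Fact M → Fact N
  | P k a => P k (f a)
  | A a c => A (f a) (f c)
  | R a b c => R (f a) (f b) (f c)

theorem map_map (f : M → N) (g : N → K) (x : Fact M) : (x.map f).map g = x.map (g ∘ f) := by
  cases x <;> rfl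

theorem map_id' (x : Fact M) : x.map id = x := by cases x <;> rfl

def supp : Fact M → Set M
  | P _ a => {a}
  | A a c => {a, c}
  | R a b c => {a, b, c}

theorem supp_map (f : M → N) (x : Fact M) : (x.map f).supp = f '' x.supp := by
  cases x <;> simp [map, supp, image_insert_eq]

theorem supp_finite (x : Fact M) : x.supp.Finite := by
  cases x <;> simp [supp]

theorem map_congr {f g : M → N} (x : Fact M) (h : ∀ a ∈ x.supp, f a = g a) : x.map f = x.map g := by
  cases x <;> simp_all [map, supp]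

theorem map_inj {f : M → N} (hf : Function.Injective f) : Function.Injective (map f) := by
  intro x y h
  cases x <;> cases y <;> simp_all [map, hf.eq_iff]

theorem exists_map (f : M → N) (x : Fact N) (h : x.supp ⊆ range f) : ∃ y : Fact M, y.map f = x := by
  cases x with
  | P k a =>
    obtain ⟨a, rfl⟩ := h (mem_singleton a)
    exact ⟨P k a, rfl⟩
  | A a c =>
    obtain ⟨a, rfl⟩ := h (show a ∈ ({a, c} : Set N) by simp)
    obtain ⟨c, rfl⟩ := h (show c ∈ ({f a, c} : Set N) by simp)
    exact ⟨A a c, rfl⟩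
  | R a b c =>
    obtain ⟨a, rfl⟩ := h (show a ∈ ({a, b, c} : Set N) by simp)
    obtain ⟨b, rfl⟩ := h (show b ∈ ({f a, b, c} : Set N) by simp)
    obtain ⟨c, rfl⟩ := h (show c ∈ ({f a, f b, c} : Set N) by simp)
    exact ⟨R a b c, rfl⟩

def ofSum : (Fin 5 × M) ⊕ (M × M) ⊕ (M × M × M) → Fact M
  | .inl p => P p.1 p.2
  | .inr (.inl p) => A p.1 p.2
  | .inr (.inr p) => R p.1 p.2.1 p.2.2

theorem ofSum_surj : Function.Surjective (ofSum (M := M)) := by
  intro x
  cases x with
  | P k a => exact ⟨.inl (k, a), rfl⟩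
  | A a c => exact ⟨.inr (.inl (a, c)), rfl⟩
  | R a b c => exact ⟨.inr (.inr (a, b, c)), rfl⟩

instance [Finite M] : Finite (Fact M) := Finite.of_surjective _ ofSum_surj

instance [Countable M] : Countable (Fact M) := ofSum_surj.countable

end Fact

open _root_.Pool.Agent.H40.Wo.Fact

variable {M : Type u} {N : Type v}

structure Good (S : Set (Fact M)) : Prop where
  hA : ∀ u c, A u c ∈ S → P 3 c ∈ S
  hR : ∀ u v w, R u v w ∈ S → P 0 u ∈ S ∧ P 1 v ∈ S ∧ P 2 w ∈ S ∧ u ≠ w
  hT : ∀ u v w c, R u v w ∈ S → A u c ∈ S → A v c ∈ S → A w c ∈ S → False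

theorem Good.pb {S : Set (Fact N)} (h : Good S) (x : M → N) : Good {f : Fact M | f.map x ∈ S} :=
  ⟨fun _ _ => h.hA _ _, fun u v w hh => ⟨(h.hR _ _ _ hh).1, (h.hR _ _ _ hh).2.1,
    (h.hR _ _ _ hh).2.2.1, fun e => (h.hR _ _ _ hh).2.2.2 (congrArg x e)⟩,
    fun _ _ _ _ => h.hT _ _ _ _⟩

/-- The tuple `x` is injective and its facts are those of `D`. -/
def Diag (S : Set (Fact M)) {ι : Type v} (D : Set (Fact ι)) (x : ι → M) : Prop :=
  Function.Injective x ∧ ∀ f : Fact ι, f ∈ D ↔ f.map x ∈ S

def ExtP (S : Set (Fact M)) : Prop :=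
  ∀ (ι : Type v) [Finite ι] (D : Set (Fact (ι ⊕ Unit))), Good D → ∀ x : ι → M,
    Diag S {f | f.map Sum.inl ∈ D} x → ∃ y : Unit → M, Diag S D (Sum.elim x y)

theorem amalg {S : Set (Fact M)} (hS : Good S) {ι : Type v} {D : Set (Fact ι)} (hD : Good D)
    (z : ι → M) (hz : Function.Injective z) (ν : M) (h1 : ∀ g ∈ S, ν ∉ g.supp)
    (h2 : ∀ f : Fact ι, ν ∉ (f.map z).supp → (f ∈ D ↔ f.map z ∈ S)) :
    Good (S ∪ map z '' D) ∧ ∀ f : Fact ι, f ∈ D ↔ f.map z ∈ S ∪ map z '' D := by
  have pb : ∀ f : Fact ι, f ∈ D ↔ f.map z ∈ S ∪ map z '' D := fun f =>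
    ⟨fun h => Or.inr ⟨f, h, rfl⟩, fun h => h.elim (fun h => (h2 f (h1 _ h)).2 h)
      fun ⟨g, hg, e⟩ => map_inj hz e ▸ hg⟩
  have old : ∀ g ∈ S ∪ map z '' D, ν ∉ g.supp → g ∈ S := by
    rintro g (h | ⟨f, hf, rfl⟩) hn
    · exact h
    · exact (h2 f hn).1 hf
  have new : ∀ g ∈ S ∪ map z '' D, ν ∈ g.supp → g.supp ⊆ range z := by
    rintro g (h | ⟨f, hf, rfl⟩) hn
    · exact absurd hn (h1 g h)
    · rw [supp_map]; exact image_subset_range _ _
  refine ⟨⟨?_, ?_, ?_⟩, pb⟩
  · rintro u c (h | ⟨f, hf, e⟩)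
    · exact Or.inl (hS.hA u c h)
    · cases f <;> simp only [map, reduceCtorEq, A.injEq] at e
      obtain ⟨rfl, rfl⟩ := e
      exact (pb (P 3 _)).1 (hD.hA _ _ hf)
  · rintro u v w (h | ⟨f, hf, e⟩)
    · obtain ⟨a, b, c, d⟩ := hS.hR u v w h
      exact ⟨Or.inl a, Or.inl b, Or.inl c, d⟩
    · cases f <;> simp only [map, reduceCtorEq, R.injEq] at e
      obtain ⟨rfl, rfl, rfl⟩ := e
      obtain ⟨a, b, c, d⟩ := hD.hR _ _ _ hf
      exact ⟨(pb (P 0 _)).1 a, (pb (P 1 _)).1 b, (pb (P 2 _)).1 c, hz.ne d⟩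
  · intro u v w c hR hu hv hw
    have fin : u ∈ range z → v ∈ range z → w ∈ range z → c ∈ range z → False := by
      rintro ⟨u, rfl⟩ ⟨v, rfl⟩ ⟨w, rfl⟩ ⟨c, rfl⟩
      exact hD.hT u v w c ((pb (R u v w)).2 hR) ((pb (A u c)).2 hu) ((pb (A v c)).2 hv)
        ((pb (A w c)).2 hw)
    by_cases e1 : ν = c
    · subst e1
      exact fin (new _ hu (by simp [supp]) (by simp [supp])) (new _ hv (by simp [supp]) (by simp [supp]))
        (new _ hw (by simp [supp]) (by simp [supp])) (new _ hu (by simp [supp]) (by simp [supp]))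
    by_cases e2 : ν = u ∨ ν = v ∨ ν = w
    · have h := new _ hR (by simpa [supp] using e2)
      refine fin (h (by simp [supp])) (h (by simp [supp])) (h (by simp [supp])) ?_
      rcases e2 with rfl | rfl | rfl
      · exact new _ hu (by simp [supp]) (by simp [supp])
      · exact new _ hv (by simp [supp]) (by simp [supp])
      · exact new _ hw (by simp [supp]) (by simp [supp])
    · push Not at e2
      exact hS.hT u v w c (old _ hR (by simp [supp, e2])) (old _ hu (by simp [supp, e1, e2]))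
        (old _ hv (by simp [supp, e1, e2])) (old _ hw (by simp [supp, e1, e2]))

open Classical in
noncomputable def stage (e : ℕ → Set (Fact (Option ℕ))) : ℕ → Set (Fact ℕ)
  | 0 => ∅
  | n + 1 =>
    if Good (stage e n ∪ (map (·.getD n) '' e n ∩ {g | n ∈ g.supp ∧ ∀ a ∈ g.supp, a ≤ n})) then
      stage e n ∪ (map (·.getD n) '' e n ∩ {g | n ∈ g.supp ∧ ∀ a ∈ g.supp, a ≤ n})
    else stage e n

section
variable (e : ℕ → Set (Fact (Option ℕ)))

theorem stage_good (n : ℕ) : Good (stage e n) := by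
  induction n with
  | zero => exact ⟨fun _ _ h => h.elim, fun _ _ _ h => h.elim, fun _ _ _ _ h => h.elim⟩
  | succ n ih => rw [stage]; split_ifs with h; exacts [h, ih]

theorem stage_mono : Monotone (stage e) := by
  refine monotone_nat_of_le_succ fun n => ?_
  rw [stage]; split_ifs
  exacts [subset_union_left, subset_rfl]

theorem stage_supp (n : ℕ) : ∀ g ∈ stage e n, ∀ a ∈ g.supp, a < n := by
  induction n with
  | zero => exact fun _ h => h.elim
  | succ n ih =>
    intro g hg a ha
    rw [stage] at hg; split_ifs at hg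
    · rcases hg with h | h
      · exact (ih g h a ha).trans n.lt_succ_self
      · exact Nat.lt_succ_of_le (h.2.2 a ha)
    · exact (ih g hg a ha).trans n.lt_succ_self

theorem stage_stab (n : ℕ) (g : Fact ℕ) (hg : ∀ a ∈ g.supp, a < n) :
    g ∈ (⋃ m, stage e m) ↔ g ∈ stage e n := by
  refine ⟨fun h => ?_, fun h => mem_iUnion.2 ⟨n, h⟩⟩
  obtain ⟨m, hm⟩ := mem_iUnion.1 h
  have : ∀ k, g ∈ stage e (n + k) → g ∈ stage e n := by
    intro k
    induction k with
    | zero => exact id
    | succ k ih =>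
      intro h
      rw [← add_assoc, stage] at h; split_ifs at h
      · rcases h with h | h
        · exact ih h
        · have := hg _ h.2.1; omega
      · exact ih h
  exact this m (stage_mono e (by omega) hm)

theorem union_good : Good (⋃ m, stage e m) := by
  refine ⟨fun u c h => ?_, fun u v w h => ?_, fun u v w c h1 h2 h3 h4 => ?_⟩
  · obtain ⟨m, hm⟩ := mem_iUnion.1 h
    exact mem_iUnion.2 ⟨m, (stage_good e m).hA _ _ hm⟩
  · obtain ⟨m, hm⟩ := mem_iUnion.1 h
    obtain ⟨a, b, c, d⟩ := (stage_good e m).hR _ _ _ hm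
    exact ⟨mem_iUnion.2 ⟨m, a⟩, mem_iUnion.2 ⟨m, b⟩, mem_iUnion.2 ⟨m, c⟩, d⟩
  · let n := u + v + w + c + 1
    refine (stage_good e n).hT u v w c ((stage_stab e n _ ?_).1 h1) ((stage_stab e n _ ?_).1 h2)
      ((stage_stab e n _ ?_).1 h3) ((stage_stab e n _ ?_).1 h4) <;>
    simp only [supp, mem_insert_iff, mem_singleton_iff] <;> omega

end

theorem exists_generic : ∃ S : Set (Fact ℕ), Good S ∧ ExtP.{0, v} S := by
  obtain ⟨enc, henc⟩ := exists_surjective_nat (Finset (Fact (Option ℕ)))
  let e : ℕ → Set (Fact (Option ℕ)) := fun n => enc n.unpair.1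
  refine ⟨⋃ m, stage e m, union_good e, fun ι _ D hD x hx => ?_⟩
  let t : ι ⊕ Unit → Option ℕ := Sum.elim (some ∘ x) fun _ => none
  obtain ⟨k, hk⟩ := henc ((toFinite D).image (map t)).toFinset
  obtain ⟨B, hB⟩ := (finite_range x).bddAbove
  let n := Nat.pair k (B + 1)
  have hn : ∀ i, x i < n := fun i =>
    lt_of_lt_of_le (Nat.lt_succ_of_le (hB (mem_range_self i))) (Nat.right_le_pair _ _)
  have he : e n = map t '' D := by simp [e, n, hk]
  let z : ι ⊕ Unit → ℕ := Sum.elim x fun _ => n
  have hz : Function.Injective z := by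
    rintro (a | a) (b | b) h
    · exact congrArg _ (hx.1 h)
    · exact absurd h (hn a).ne
    · exact absurd h.symm (hn b).ne
    · rfl
  have hzt : (fun o : Option ℕ => o.getD n) ∘ t = z := by funext a; cases a <;> rfl
  have hzle : ∀ a, z a ≤ n := by
    rintro (a | a)
    exacts [(hn a).le, le_rfl]
  have h2 : ∀ f : Fact (ι ⊕ Unit), n ∉ (f.map z).supp → (f ∈ D ↔ f.map z ∈ stage e n) := by
    intro f hf
    obtain ⟨g, rfl⟩ := exists_map Sum.inl f fun a ha => by
      rcases a with a | a
      · exact mem_range_self a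
      · exact absurd (by rw [supp_map]; exact ⟨_, ha, rfl⟩) hf
    rw [map_map, ← stage_stab e n]
    · exact hx.2 g
    · rw [supp_map]
      rintro _ ⟨a, -, rfl⟩
      exact hn a
  obtain ⟨h3, h4⟩ := amalg (stage_good e n) hD z hz n
    (fun g hg h => lt_irrefl _ (stage_supp e n g hg n h)) h2
  have h5 : stage e n ∪ (map (·.getD n) '' e n ∩ {g | n ∈ g.supp ∧ ∀ a ∈ g.supp, a ≤ n}) =
      stage e n ∪ map z '' D := by
    rw [he, image_image]
    simp only [map_map, hzt]
    apply subset_antisymm (union_subset_union_right _ inter_subset_left)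
    rintro g (h | ⟨f, hf, rfl⟩)
    · exact Or.inl h
    · by_cases hh : n ∈ (f.map z).supp
      · refine Or.inr ⟨⟨f, hf, rfl⟩, hh, ?_⟩
        rw [supp_map]
        rintro _ ⟨a, -, rfl⟩
        exact hzle a
      · exact Or.inl ((h2 f hh).1 hf)
  have h6 : stage e (n + 1) = stage e n ∪ map z '' D := by
    rw [stage, h5, if_pos h3]
  refine ⟨fun _ => n, hz, fun f => ?_⟩
  rw [stage_stab e (n + 1), h6]
  · exact h4 f
  · rw [supp_map]
    rintro _ ⟨a, -, rfl⟩
    exact Nat.lt_succ_of_le (hzle a)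

/-! ### First-order form -/

inductive Rel : ℕ → Type
  | P : Fin 5 → Rel 1
  | A : Rel 2
  | R : Rel 3

def LL : FirstOrder.Language.{0, 0} := ⟨fun _ => Empty, Rel⟩

def facts (M : Type u) [LL.Structure M] : Set (Fact M) := {f | match f with
  | .P k a => FirstOrder.Language.Structure.RelMap (L := LL) (Rel.P k) ![a]
  | .A a c => FirstOrder.Language.Structure.RelMap (L := LL) Rel.A ![a, c]
  | .R a b c => FirstOrder.Language.Structure.RelMap (L := LL) Rel.R ![a, b, c]}

@[reducible] def ofFacts (S : Set (Fact M)) : LL.Structure M where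
  funMap := fun f _ => Empty.elim f
  RelMap := fun {_} r => match r with
    | Rel.P k => fun x => P k (x 0) ∈ S
    | Rel.A => fun x => A (x 0) (x 1) ∈ S
    | Rel.R => fun x => R (x 0) (x 1) (x 2) ∈ S

theorem facts_ofFacts (S : Set (Fact M)) : @facts M (ofFacts S) = S := by
  ext f; cases f <;> rfl

def fF {ι : Type v} : Fact ι → LL.Formula ι
  | .P k a => FirstOrder.Language.Relations.formula (L := LL) (Rel.P k) ![.var a]
  | .A a c => FirstOrder.Language.Relations.formula (L := LL) Rel.A ![.var a, .var c]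
  | .R a b c => FirstOrder.Language.Relations.formula (L := LL) Rel.R ![.var a, .var b, .var c]

theorem realize_fF [LL.Structure M] {ι : Type v} (f : Fact ι) (x : ι → M) :
    (fF f).Realize x ↔ f.map x ∈ facts M := by
  cases f <;> simp only [fF, FirstOrder.Language.Formula.realize_rel] <;>
    refine iff_of_eq (congrArg _ (funext fun i => ?_)) <;> fin_cases i <;> rfl

open Classical in
noncomputable def patF {ι : Type v} [Finite ι] (E : ι → ι → Prop) (D : Set (Fact ι)) :
    LL.Formula ι :=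
  (FirstOrder.Language.Formula.iInf fun p : ι × ι =>
    if E p.1 p.2 then FirstOrder.Language.Term.equal (.var p.1) (.var p.2)
    else (FirstOrder.Language.Term.equal (.var p.1) (.var p.2)).not) ⊓
  FirstOrder.Language.Formula.iInf fun f : Fact ι => if f ∈ D then fF f else (fF f).not

theorem realize_patF [LL.Structure M] {ι : Type v} [Finite ι] (E : ι → ι → Prop)
    (D : Set (Fact ι)) (x : ι → M) : (patF E D).Realize x ↔
      (∀ i j, E i j ↔ x i = x j) ∧ ∀ f : Fact ι, f ∈ D ↔ f.map x ∈ facts M := by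
  simp only [patF, FirstOrder.Language.Formula.realize_inf,
    FirstOrder.Language.Formula.realize_iInf, Prod.forall]
  refine and_congr (forall₂_congr fun i j => ?_) (forall_congr' fun f => ?_)
  · split_ifs with h <;> simp [h]
  · split_ifs with h <;> simp [h, realize_fF]

theorem realize_diag [LL.Structure M] {ι : Type v} [Finite ι] (D : Set (Fact ι)) (x : ι → M) :
    (patF Eq D).Realize x ↔ Diag (facts M) D x := by
  rw [realize_patF]
  exact and_congr_left fun _ => ⟨fun h i j e => (h i j).2 e, fun h i j => h.eq_iff.symm⟩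

theorem transfer [LL.Structure ℕ] (U : Type u) [LL.Structure U] [U ⊨ LL.completeTheory ℕ]
    (h1 : Good (facts ℕ)) (h2 : ExtP.{0, u} (facts ℕ)) :
    Good (facts U) ∧ ExtP.{u, u} (facts U) := by
  have loc : ∀ x : Fin 4 → U, Good {f : Fact (Fin 4) | f.map x ∈ facts U} := by
    intro x
    let φ : LL.Sentence := FirstOrder.Language.Formula.iExs (Fin 4)
      ((patF (fun i j => x i = x j) {f : Fact (Fin 4) | f.map x ∈ facts U}).relabel Sum.inr)
    have hU : U ⊨ φ := by
      simp only [φ, FirstOrder.Language.Sentence.Realize, FirstOrder.Language.Formula.realize_iExs,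
        FirstOrder.Language.Formula.realize_relabel, Sum.elim_comp_inr, realize_patF]
      exact ⟨x, fun _ _ => Iff.rfl, fun _ => Iff.rfl⟩
    have hN := (FirstOrder.Language.realize_iff_of_model_completeTheory ℕ U φ).1 hU
    simp only [φ, FirstOrder.Language.Sentence.Realize, FirstOrder.Language.Formula.realize_iExs,
      FirstOrder.Language.Formula.realize_relabel, Sum.elim_comp_inr, realize_patF] at hN
    obtain ⟨y, -, hy⟩ := hN
    have : {f : Fact (Fin 4) | f.map x ∈ facts U} = {f : Fact (Fin 4) | f.map y ∈ facts ℕ} :=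
      Set.ext hy
    rw [this]; exact h1.pb y
  refine ⟨⟨fun u c h => (loc ![u, c, c, c]).hA 0 1 h, fun u v w h => ?_,
    fun u v w c => (loc ![u, v, w, c]).hT 0 1 2 3⟩, fun ι _ D hD => ?_⟩
  · obtain ⟨a, b, c, -⟩ := (loc ![u, v, w, w]).hR 0 1 2 h
    refine ⟨a, b, c, ?_⟩
    rintro rfl
    exact ((loc ![u, v, u, u]).hR 0 1 0 h).2.2.2 rfl
  · let φ : LL.Sentence := FirstOrder.Language.Formula.iAlls ι
      (((patF Eq {f : Fact ι | f.map Sum.inl ∈ D}).imp
        (FirstOrder.Language.Formula.iExs Unit (patF Eq D))).relabel Sum.inr)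
    have hN : ℕ ⊨ φ := by
      simp only [φ, FirstOrder.Language.Sentence.Realize, FirstOrder.Language.Formula.realize_iAlls,
        FirstOrder.Language.Formula.realize_relabel, FirstOrder.Language.Formula.realize_imp,
        FirstOrder.Language.Formula.realize_iExs, realize_diag]
      exact h2 ι D hD
    have hU := (FirstOrder.Language.realize_iff_of_model_completeTheory ℕ U φ).2 hN
    simp only [φ, FirstOrder.Language.Sentence.Realize, FirstOrder.Language.Formula.realize_iAlls,
      FirstOrder.Language.Formula.realize_relabel, FirstOrder.Language.Formula.realize_imp,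
      FirstOrder.Language.Formula.realize_iExs, realize_diag] at hU
    exact hU

end Pool.Agent.H40.Wo
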