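import Pool.Agent.H40.Wo1

namespace Pool.Agent.H40.Wo

open Set
open _root_.Pool.Agent.H40.Wo.Fact

universe u v w

variable {U : Type u} [LL.Structure U]

def Iso {ι : Type v} (x y : ι → U) : Prop :=
  (∀ i j, x i = x j ↔ y i = y j) ∧ ∀ f : Fact ι, f.map x ∈ facts U ↔ f.map y ∈ facts U

theorem Iso.symm {ι : Type v} {x y : ι → U} (h : Iso x y) : Iso y x :=
  ⟨fun i j => (h.1 i j).symm, fun f => (h.2 f).symm⟩

theorem Iso.comp {ι : Type v} {κ : Type w} {x y : ι → U} (h : Iso x y) (g : κ → ι) :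
    Iso (x ∘ g) (y ∘ g) :=
  ⟨fun i j => h.1 _ _, fun f => by rw [← map_map, ← map_map]; exact h.2 _⟩

theorem iso_step (hG : Good (facts U)) (hE : ExtP.{u, u} (facts U)) {ι : Type v} [Finite ι]
    {x y : ι → U} (h : Iso x y) (a : U) :
    ∃ b, Iso (Sum.elim x fun _ : Unit => a) (Sum.elim y fun _ : Unit => b) := by
  by_cases ha : a ∈ range x
  · obtain ⟨i, rfl⟩ := ha
    refine ⟨y i, ?_⟩
    have := h.comp (Sum.elim id fun _ : Unit => i)
    rwa [Sum.comp_elim, Sum.comp_elim] at this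
  · have hσ : ∀ c : range x, ∃ i, x i = c := fun c => c.2
    choose σ hσ using hσ
    have := (finite_range x).to_subtype
    let z : range x ⊕ Unit → U := Sum.elim Subtype.val fun _ => a
    have hz : Function.Injective z := by
      rintro (c | c) (d | d) e
      · exact congrArg _ (Subtype.ext e)
      · exact absurd ((show c.1 = a from e) ▸ c.2 : a ∈ range x) ha
      · exact absurd ((show d.1 = a from e.symm) ▸ d.2 : a ∈ range x) ha
      · rfl
    have hx : x ∘ σ = Subtype.val := funext hσ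
    obtain ⟨b, hb1, hb2⟩ := hE (range x) {f | f.map z ∈ facts U} (hG.pb z) (y ∘ σ)
      ⟨fun c d e => Subtype.ext (by rw [← hσ c, ← hσ d]; exact (h.1 _ _).2 e), fun f => by
        rw [← (h.comp σ).2 f, hx]
        simp only [mem_ofPred_eq, map_map]; rfl⟩
    have h1 : Iso z (Sum.elim (y ∘ σ) b) := ⟨fun i j => by rw [hz.eq_iff, hb1.eq_iff], hb2⟩
    have h2 := h1.comp (Sum.map (rangeFactorization x) id : ι ⊕ Unit → range x ⊕ Unit)
    refine ⟨b (), ?_⟩
    have e1 : z ∘ Sum.map (rangeFactorization x) id = Sum.elim x fun _ : Unit => a := by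
      funext i; cases i <;> rfl
    have e2 : Sum.elim (y ∘ σ) b ∘ Sum.map (rangeFactorization x) id =
        Sum.elim y fun _ : Unit => b () := by
      funext i; rcases i with i | i
      · exact (h.1 _ _).1 (hσ (rangeFactorization x i))
      · rfl
    rwa [e1, e2] at h2

theorem term_var {β : Type v} (t : LL.Term β) : ∃ b, t = .var b := by
  cases t with
  | var b => exact ⟨b, rfl⟩
  | func f _ => exact Empty.elim f

theorem bf (hG : Good (facts U)) (hE : ExtP.{u, u} (facts U)) {α : Type v} [Finite α] {k : ℕ}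
    (φ : LL.BoundedFormula α k) : ∀ (v v' : α → U) (xs xs' : Fin k → U),
      Iso (Sum.elim v xs) (Sum.elim v' xs') → (φ.Realize v xs ↔ φ.Realize v' xs') := by
  induction φ with
  | falsum => exact fun _ _ _ _ _ => Iff.rfl
  | equal t₁ t₂ =>
    intro v v' xs xs' h
    obtain ⟨a, rfl⟩ := term_var t₁
    obtain ⟨b, rfl⟩ := term_var t₂
    exact h.1 a b
  | rel r ts =>
    intro v v' xs xs' h
    choose b hb using fun i => term_var (ts i)
    have e : ∀ z : _ → U, (fun i => (ts i).realize z) = z ∘ b := fun z => funext fun i => by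
      rw [hb]; rfl
    show FirstOrder.Language.Structure.RelMap r (fun i => (ts i).realize _) ↔
      FirstOrder.Language.Structure.RelMap r (fun i => (ts i).realize _)
    rw [e, e]
    cases r with
    | P k =>
      have e1 : ∀ z : _ → U, z ∘ b = ![z (b 0)] := fun z => funext fun i => by fin_cases i; rfl
      rw [e1, e1]; exact h.2 (P k (b 0))
    | A =>
      have e1 : ∀ z : _ → U, z ∘ b = ![z (b 0), z (b 1)] := fun z => funext fun i => by
        fin_cases i <;> rfl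
      rw [e1, e1]; exact h.2 (A (b 0) (b 1))
    | R =>
      have e1 : ∀ z : _ → U, z ∘ b = ![z (b 0), z (b 1), z (b 2)] := fun z => funext fun i => by
        fin_cases i <;> rfl
      rw [e1, e1]; exact h.2 (R (b 0) (b 1) (b 2))
  | imp φ ψ ih₁ ih₂ =>
    intro v v' xs xs' h
    simp only [FirstOrder.Language.BoundedFormula.realize_imp]
    exact imp_congr (ih₁ _ _ _ _ h) (ih₂ _ _ _ _ h)
  | @all k φ ih =>
    have key : ∀ (v v' : α → U) (xs xs' : Fin k → U), Iso (Sum.elim v xs) (Sum.elim v' xs') →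
        (∀ b, φ.Realize v' (Fin.snoc xs' b)) → ∀ a, φ.Realize v (Fin.snoc xs a) := by
      intro v v' xs xs' h H a
      obtain ⟨b, hb⟩ := iso_step hG hE h a
      let g : α ⊕ Fin (k + 1) → (α ⊕ Fin k) ⊕ Unit :=
        Sum.elim (Sum.inl ∘ Sum.inl) (Fin.lastCases (Sum.inr ()) (Sum.inl ∘ Sum.inr))
      have e : ∀ (v : α → U) (xs : Fin k → U) (a : U),
          (Sum.elim (Sum.elim v xs) fun _ : Unit => a) ∘ g = Sum.elim v (Fin.snoc xs a) := by
        intro v xs a; funext i; rcases i with i | i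
        · rfl
        · refine Fin.lastCases ?_ (fun i => ?_) i <;> simp [g]
      have := hb.comp g
      rw [e, e] at this
      exact (ih _ _ _ _ this).2 (H b)
    intro v v' xs xs' h
    simp only [FirstOrder.Language.BoundedFormula.realize_all]
    exact ⟨key _ _ _ _ h.symm, key _ _ _ _ h⟩

theorem bf' (hG : Good (facts U)) (hE : ExtP.{u, u} (facts U)) {α : Type v} [Finite α]
    (φ : LL.Formula α) {v v' : α → U} (h : Iso v v') : φ.Realize v ↔ φ.Realize v' := by
  refine bf hG hE φ v v' _ _ ?_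
  have := h.comp (Sum.elim id Fin.elim0 : α ⊕ Fin 0 → α)
  rw [Sum.comp_elim, Sum.comp_elim] at this
  have e : ∀ f g : Fin 0 → U, f = g := fun f g => funext fun i => i.elim0
  rw [e (v ∘ _) default, e (v' ∘ _) default] at this
  exact this

theorem fin_supp {β : Type} (φ : LL.Formula (U ⊕ β)) : ∃ s : Set U, s.Finite ∧
    ∃ ψ : LL.Formula (s ⊕ β), ∀ x : β → U,
      ψ.Realize (Sum.elim Subtype.val x) ↔ φ.Realize (Sum.elim id x) := by
  classical
  let s : Set U := Sum.inl ⁻¹' (φ.freeVarFinset : Set (U ⊕ β))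
  let f : φ.freeVarFinset → s ⊕ β := fun a => match a with
    | ⟨.inl c, h⟩ => .inl ⟨c, h⟩
    | ⟨.inr b, _⟩ => .inr b
  refine ⟨s, (Finset.finite_toSet _).preimage Sum.inl_injective.injOn, φ.restrictFreeVar f,
    fun x => ?_⟩
  refine FirstOrder.Language.BoundedFormula.realize_restrictFreeVar _ ?_
  rintro ⟨a | a, h⟩ <;> rfl

/-! ### Types -/

theorem IsType.not_both {β : Type} {p : Set (LL.Formula (U ⊕ β))} (hp : IsType LL U p)
    {φ : LL.Formula (U ⊕ β)} (h1 : φ ∈ p) (h2 : φ.not ∈ p) : False := by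
  obtain ⟨x, hx⟩ := hp.2 {φ, φ.not} (insert_subset h1 (singleton_subset_iff.2 h2)) (toFinite _)
  exact FirstOrder.Language.Formula.realize_not.1 (hx φ.not (by simp)) (hx φ (by simp))

theorem IsType.of_two {β : Type} {p : Set (LL.Formula (U ⊕ β))} (hp : IsType LL U p)
    {φ ψ χ : LL.Formula (U ⊕ β)} (h1 : φ ∈ p) (h2 : ψ ∈ p) (h : ∀ x : β → U,
      φ.Realize (Sum.elim id x) → ψ.Realize (Sum.elim id x) → χ.Realize (Sum.elim id x)) :
    χ ∈ p := by
  refine (hp.1 χ).resolve_right fun h3 => ?_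
  obtain ⟨x, hx⟩ := hp.2 {φ, ψ, χ.not}
    (insert_subset h1 (insert_subset h2 (singleton_subset_iff.2 h3))) (toFinite _)
  exact FirstOrder.Language.Formula.realize_not.1 (hx χ.not (by simp))
    (h x (hx φ (by simp)) (hx ψ (by simp)))

def Above {β : Type} (Φ : Set U → (β → U) → Prop) (p : Set (LL.Formula (U ⊕ β))) : Prop :=
  ∀ φ s, s.Finite → (∀ x, Φ s x → φ.Realize (Sum.elim id x)) → φ ∈ p

theorem exists_type {β : Type} (Φ : Set U → (β → U) → Prop)
    (mono : ∀ s t x, s ⊆ t → Φ t x → Φ s x) (sat : ∀ s, s.Finite → ∃ x, Φ s x) :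
    ∃ p, IsType LL U p ∧ Above Φ p := by
  obtain ⟨F, hF⟩ := Ultrafilter.exists_ultrafilter_of_finite_inter_nonempty
    {X : Set (β → U) | ∃ s : Set U, s.Finite ∧ X = {x | Φ s x}} (by
      intro T hT
      have : ∀ X : T, ∃ s : Set U, s.Finite ∧ X.1 = {x | Φ s x} := fun X => hT X.2
      choose s hs hX using this
      obtain ⟨x, hx⟩ := sat (⋃ X, s X) (finite_iUnion hs)
      refine ⟨x, fun X hX' => ?_⟩
      have := hX ⟨X, hX'⟩
      simp only at this
      rw [this]
      exact mono _ _ x (subset_iUnion s _) hx)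
  refine ⟨{φ | {x | φ.Realize (Sum.elim id x)} ∈ F}, ⟨fun φ => ?_, fun s hs hf => ?_⟩,
    fun φ s hs h => ?_⟩
  · refine (F.mem_or_compl_mem _).imp id fun h => ?_
    simpa [compl_ofPred] using h
  · have : (⋂ φ ∈ s, {x : β → U | φ.Realize (Sum.elim id x)}) ∈ F :=
      (Filter.biInter_mem hf).2 hs
    obtain ⟨x, hx⟩ := F.nonempty_of_mem this
    exact ⟨x, fun φ h => mem_iInter₂.1 hx φ h⟩
  · exact Filter.mem_of_superset (hF ⟨s, hs, rfl⟩) h

/-! ### Generic tuples -/

def Cond (k : Fin 5) (c : U) : Prop :=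
  P 3 c ∈ facts U ∧ (k = 0 → P 4 c ∈ facts U) ∧ (k = 1 → P 4 c ∉ facts U)

structure Gen {β : Type} (κ : β → Fin 5) (s : Set U) (x : β → U) : Prop where
  new : ∀ b, x b ∉ s
  inj : Function.Injective x
  col : ∀ b j, P j (x b) ∈ facts U ↔ j = κ b
  adj : ∀ b, ∀ c ∈ s, A (x b) c ∈ facts U ↔ Cond (κ b) c
  tri : ∀ u v w, u ∈ s ∪ range x → v ∈ s ∪ range x → w ∈ s ∪ range x → R u v w ∈ facts U →
    u ∈ s ∧ v ∈ s ∧ w ∈ s

theorem Gen.mono {β : Type} {κ : β → Fin 5} {s t : Set U} {x : β → U} (hst : s ⊆ t)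
    (h : Gen κ t x) : Gen κ s x := by
  have k : ∀ u, u ∈ s ∪ range x → u ∈ t → u ∈ s := by
    rintro u (hu | ⟨b, rfl⟩) ht
    exacts [hu, absurd ht (h.new b)]
  refine ⟨fun b hb => h.new b (hst hb), h.inj, h.col, fun b c hc => h.adj b c (hst hc),
    fun u v w hu hv hw hR => ?_⟩
  obtain ⟨a, b, c⟩ := h.tri u v w (union_subset_union_left _ hst hu)
    (union_subset_union_left _ hst hv) (union_subset_union_left _ hst hw) hR
  exact ⟨k u hu a, k v hv b, k w hw c⟩

theorem gen_iso (hG : Good (facts U)) {β : Type} {κ : β → Fin 5} (hκ : ∀ b, κ b ≠ 3) {s : Set U}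
    {x y : β → U} (hx : Gen κ s x) (hy : Gen κ s y) :
    Iso (Sum.elim (Subtype.val : s → U) x) (Sum.elim Subtype.val y) := by
  have inj : ∀ {x : β → U}, Gen κ s x → Function.Injective (Sum.elim (Subtype.val : s → U) x) := by
    rintro x hx (c | c) (d | d) e
    · exact congrArg _ (Subtype.ext e)
    · exact absurd ((show c.1 = x d from e) ▸ c.2 : x d ∈ s) (hx.new d)
    · exact absurd ((show d.1 = x c from e.symm) ▸ d.2 : x c ∈ s) (hx.new c)
    · exact congrArg _ (hx.inj e)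
  have noA : ∀ {x : β → U}, Gen κ s x → ∀ u b, A u (x b) ∉ facts U := fun hx u b h =>
    hκ b ((hx.col b 3).1 (hG.hA _ _ h)).symm
  have mem : ∀ (x : β → U) i, Sum.elim (Subtype.val : s → U) x i ∈ s ∪ range x := by
    rintro x (c | c)
    exacts [Or.inl c.2, Or.inr ⟨c, rfl⟩]
  have tr : ∀ {x y : β → U}, Gen κ s x → ∀ i j k,
      (R i j k).map (Sum.elim (Subtype.val : s → U) x) ∈ facts U →
      (R i j k).map (Sum.elim (Subtype.val : s → U) y) ∈ facts U := by
    intro x y hx i j k h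
    obtain ⟨a, b, c⟩ := hx.tri _ _ _ (mem x i) (mem x j) (mem x k) h
    rcases i with i | i
    · rcases j with j | j
      · rcases k with k | k
        · exact h
        · exact absurd c (hx.new k)
      · exact absurd b (hx.new j)
    · exact absurd a (hx.new i)
  refine ⟨fun i j => by rw [(inj hx).eq_iff, (inj hy).eq_iff], fun f => ?_⟩
  cases f with
  | P k a =>
    rcases a with a | a
    · rfl
    · exact (hx.col a k).trans (hy.col a k).symm
  | A a c =>
    rcases c with c | c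
    · rcases a with a | a
      · rfl
      · exact (hx.adj a c c.2).trans (hy.adj a c c.2).symm
    · exact iff_of_false (noA hx _ c) (noA hy _ c)
  | R i j k => exact ⟨tr hx i j k, tr hy i j k⟩

theorem iso_gen {β : Type} {κ : β → Fin 5} {s : Set U} {x y : β → U} (hx : Gen κ s x)
    (h : Iso (Sum.elim (Subtype.val : s → U) x) (Sum.elim Subtype.val y)) : Gen κ s y := by
  have new : ∀ b, y b ∉ s := fun b hb =>
    hx.new b (by
      have : x b = y b := (h.1 (.inr b) (.inl ⟨_, hb⟩)).2 rfl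
      rw [this]; exact hb)
  refine ⟨new, fun a b e => hx.inj ((h.1 (.inr a) (.inr b)).2 e),
    fun b j => (h.2 (P j (.inr b))).symm.trans (hx.col b j),
    fun b c hc => (h.2 (A (.inr b) (.inl ⟨c, hc⟩))).symm.trans (hx.adj b c hc), ?_⟩
  have lift : ∀ u ∈ s ∪ range y, ∃ i, Sum.elim (Subtype.val : s → U) y i = u ∧
      Sum.elim (Subtype.val : s → U) x i ∈ s ∪ range x ∧
      (Sum.elim (Subtype.val : s → U) x i ∈ s → u ∈ s) := by
    rintro u (hu | ⟨b, rfl⟩)
    · exact ⟨.inl ⟨u, hu⟩, rfl, Or.inl hu, id⟩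
    · exact ⟨.inr b, rfl, Or.inr ⟨b, rfl⟩, fun h => absurd h (hx.new b)⟩
  intro u v w hu hv hw hR
  obtain ⟨i, rfl, i1, i2⟩ := lift u hu
  obtain ⟨j, rfl, j1, j2⟩ := lift v hv
  obtain ⟨k, rfl, k1, k2⟩ := lift w hw
  obtain ⟨a, b, c⟩ := hx.tri _ _ _ i1 j1 k1 ((h.2 (R i j k)).2 hR)
  exact ⟨i2 a, j2 b, k2 c⟩

theorem exists_new (hG : Good (facts U)) (hE : ExtP.{u, u} (facts U)) {s : Set U} (hs : s.Finite)
    (k : Fin 5) (Q : U → U → Prop) (hQ : ∀ u v, Q u v → k = 2 ∧ P 0 u ∈ facts U ∧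
      P 1 v ∈ facts U ∧ ∀ c ∈ s, A u c ∈ facts U → A v c ∈ facts U → False) :
    ∃ y, y ∉ s ∧ (∀ j, P j y ∈ facts U ↔ j = k) ∧ (∀ c ∈ s, A y c ∈ facts U ↔ Cond k c) ∧
      (∀ u v w, u ∈ insert y s → v ∈ insert y s → w ∈ insert y s → R u v w ∈ facts U →
        u ∈ s ∧ v ∈ s ∧ (w ∈ s ∨ Q u v)) ∧ ∀ u ∈ s, ∀ v ∈ s, Q u v → R u v y ∈ facts U := by
  have := hs.to_subtype
  let D : Set (Fact (s ⊕ Unit)) := {f | match f with
    | .P j (.inl a) => P j a.1 ∈ facts U
    | .P j (.inr _) => j = k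
    | .A (.inl a) (.inl c) => A a.1 c.1 ∈ facts U
    | .A (.inr _) (.inl c) => Cond k c.1
    | .A _ (.inr _) => False
    | .R (.inl a) (.inl b) (.inl c) => R a.1 b.1 c.1 ∈ facts U
    | .R (.inl a) (.inl b) (.inr _) => Q a.1 b.1
    | .R (.inl _) (.inr _) _ => False
    | .R (.inr _) _ _ => False}
  have hD : Good D := by
    refine ⟨?_, ?_, ?_⟩
    · rintro (u | u) (c | c) h
      exacts [hG.hA _ _ h, h.elim, h.1, h.elim]
    · rintro (u | u) (v | v) (w | w) h
      · obtain ⟨a, b, c, d⟩ := hG.hR _ _ _ h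
        exact ⟨a, b, c, fun e => d (congrArg (Sum.elim Subtype.val fun _ => u.1) e)⟩
      · obtain ⟨a, b, c, -⟩ := hQ _ _ h
        exact ⟨b, c, a.symm, by simp⟩
      all_goals exact h.elim
    · rintro (u | u) (v | v) (w | w) (c | c) h h1 h2 h3
      · exact hG.hT _ _ _ _ h h1 h2 h3
      · exact h1
      · exact (hQ _ _ h).2.2.2 c c.2 h1 h2
      · exact h1
      all_goals exact h
  obtain ⟨y, hy1, hy2⟩ := hE s D hD Subtype.val ⟨Subtype.val_injective, fun f => by
    cases f <;> rfl⟩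
  refine ⟨y (), fun h => ?_, fun j => (hy2 (P j (.inr ()))).symm,
    fun c hc => (hy2 (A (.inr ()) (.inl ⟨c, hc⟩))).symm, ?_,
    fun u hu v hv h => (hy2 (R (.inl ⟨u, hu⟩) (.inl ⟨v, hv⟩) (.inr ()))).1 h⟩
  · have := hy1 (a₁ := .inr ()) (a₂ := .inl ⟨_, h⟩) rfl
    cases this
  · have lift : ∀ u ∈ insert (y ()) s, ∃ i, Sum.elim (Subtype.val : s → U) y i = u := by
      rintro u (rfl | hu)
      exacts [⟨.inr (), rfl⟩, ⟨.inl ⟨u, hu⟩, rfl⟩]
    intro u v w hu hv hw hR
    obtain ⟨i, rfl⟩ := lift u hu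
    obtain ⟨j, rfl⟩ := lift v hv
    obtain ⟨l, rfl⟩ := lift w hw
    have h := (hy2 (R i j l)).2 hR
    rcases i with i | i
    · rcases j with j | j
      · rcases l with l | l
        · exact ⟨i.2, j.2, Or.inl l.2⟩
        · exact ⟨i.2, j.2, Or.inr h⟩
      · exact h.elim
    · exact h.elim

theorem exists_gen (hG : Good (facts U)) (hE : ExtP.{u, u} (facts U)) {s : Set U} (hs : s.Finite)
    (k : Fin 5) : ∃ y : Unit → U, Gen (fun _ => k) s y := by
  obtain ⟨y, h1, h2, h3, h4, -⟩ := exists_new hG hE hs k (fun _ _ => False) fun _ _ h => h.elim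
  have e : s ∪ range (fun _ : Unit => y) = insert y s := by simp
  refine ⟨fun _ => y, fun _ => h1, fun _ _ _ => rfl, fun _ => h2, fun _ => h3, ?_⟩
  rw [e]
  intro u v w hu hv hw h
  simpa using h4 u v w hu hv hw h

theorem exists_wit (hG : Good (facts U)) (hE : ExtP.{u, u} (facts U)) (k : Fin 5) (v : U) :
    ∃ c, Cond k c ∧ A v c ∈ facts U := by
  let D : Set (Fact (PUnit.{u + 1} ⊕ Unit)) := {f | match f with
    | .P j (.inl _) => P j v ∈ facts U
    | .P j (.inr _) => j = 3 ∨ (j = 4 ∧ k = 0)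
    | .A (.inl _) (.inl _) => A v v ∈ facts U
    | .A (.inl _) (.inr _) => True
    | .A (.inr _) _ => False
    | .R _ _ _ => False}
  have hD : Good D := by
    refine ⟨?_, fun _ _ _ h => h.elim, fun _ _ _ _ h => h.elim⟩
    rintro (u | u) (c | c) h
    exacts [hG.hA _ _ h, Or.inl rfl, h.elim, h.elim]
  obtain ⟨y, -, hy⟩ := hE PUnit D hD (fun _ => v) ⟨fun _ _ _ => rfl, fun f => by
    cases f
    · rfl
    · rfl
    · exact iff_of_false id fun h => (hG.hR _ _ _ h).2.2.2 rfl⟩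
  refine ⟨y (), ⟨(hy (P 3 (.inr ()))).1 (Or.inl rfl),
    fun h => (hy (P 4 (.inr ()))).1 (Or.inr ⟨rfl, h⟩), fun h h' => ?_⟩,
    (hy (A (.inl ⟨⟩) (.inr ()))).1 trivial⟩
  rcases (hy (P 4 (.inr ()))).2 h' with h1 | h1
  · exact absurd h1 (by decide)
  · exact absurd (h.symm.trans h1.2) (by decide)

theorem gen_pair {α β : Type} {κ : α → Fin 5} {μ : β → Fin 5} {s : Set U} {x : α → U} {y : β → U}
    (hx : Gen κ (s ∪ range y) x) (hy : Gen μ s y) : Gen (Sum.elim κ μ) s (Sum.elim x y) := by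
  refine ⟨?_, ?_, ?_, ?_, ?_⟩
  · rintro (a | a)
    exacts [fun h => hx.new a (Or.inl h), hy.new a]
  · rintro (a | a) (b | b) e
    · exact congrArg _ (hx.inj e)
    · exact absurd (Or.inr ⟨b, e.symm⟩) (hx.new a)
    · exact absurd (Or.inr ⟨a, e⟩) (hx.new b)
    · exact congrArg _ (hy.inj e)
  · rintro (a | a)
    exacts [hx.col a, hy.col a]
  · rintro (a | a) c hc
    exacts [hx.adj a c (Or.inl hc), hy.adj a c hc]
  · rw [Sum.range_eq, Sum.elim_comp_inl, Sum.elim_comp_inr, union_comm (range x), ← union_assoc]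
    intro u v w hu hv hw h
    obtain ⟨a, b, c⟩ := hx.tri u v w hu hv hw h
    exact hy.tri u v w a b c h

theorem gen_orth (hG : Good (facts U)) {k : Fin 5} (hk : k = 0 ∨ k = 1) {s t : Set U}
    (hst : s ⊆ t) (hw : ∀ v ∈ s, ∃ c ∈ t, Cond k c ∧ A v c ∈ facts U) {x y : Unit → U}
    (hx : Gen (fun _ => k) t x) (hy : Gen (fun _ => 2) t y) :
    Gen (Sum.elim (fun _ => k) fun _ => 2) s (Sum.elim x y) := by
  have hk2 : k ≠ 2 := by rcases hk with rfl | rfl <;> decide
  have hxy : x () ≠ y () := fun e => hk2 ((hy.col () k).1 (e ▸ (hx.col () k).2 rfl))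
  have hx' := hx.mono hst
  have hy' := hy.mono hst
  refine ⟨?_, ?_, ?_, ?_, ?_⟩
  · rintro (a | a)
    exacts [hx'.new a, hy'.new a]
  · rintro (a | a) (b | b) e
    exacts [rfl, absurd e hxy, absurd e.symm hxy, rfl]
  · rintro (a | a)
    exacts [hx.col a, hy.col a]
  · rintro (a | a)
    exacts [hx'.adj a, hy'.adj a]
  · have e : ∀ u, u ∈ s ∪ range (Sum.elim x y) → u ∈ s ∨ u = x () ∨ u = y () := by
      rintro u (h | ⟨a | a, rfl⟩)
      exacts [Or.inl h, Or.inr (Or.inl rfl), Or.inr (Or.inr rfl)]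
    intro u v w hu hv hw' h
    obtain ⟨p0, p1, p2, -⟩ := hG.hR _ _ _ h
    have mx : x () ∈ s ∪ range x := Or.inr ⟨(), rfl⟩
    have my : y () ∈ s ∪ range y := Or.inr ⟨(), rfl⟩
    have hu' : u ∈ s ∨ u = x () := (e u hu).imp id fun h => h.resolve_right fun h =>
      absurd ((hy.col () 0).1 (h ▸ p0)) (by decide)
    have hv' : v ∈ s ∨ v = x () := (e v hv).imp id fun h => h.resolve_right fun h =>
      absurd ((hy.col () 1).1 (h ▸ p1)) (by decide)
    have hw2 : w ∈ s ∨ w = y () := (e w hw').imp id fun h => h.resolve_left fun h =>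
      hk2 ((hx.col () 2).1 (h ▸ p2)).symm
    rcases hw2 with hw2 | rfl
    · exact hx'.tri u v w (hu'.elim Or.inl fun e => e ▸ mx) (hv'.elim Or.inl fun e => e ▸ mx)
        (Or.inl hw2) h
    · rcases hu' with hu' | rfl <;> rcases hv' with hv' | rfl
      · exact hy'.tri u v _ (Or.inl hu') (Or.inl hv') my h
      · obtain ⟨c, hc, h1, h2⟩ := hw u hu'
        exact (hG.hT _ _ _ c h h2 ((hx.adj () c hc).2 h1)
          ((hy.adj () c hc).2 ⟨h1.1, by simp, by simp⟩)).elim
      · obtain ⟨c, hc, h1, h2⟩ := hw v hv'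
        exact (hG.hT _ _ _ c h ((hx.adj () c hc).2 h1) h2
          ((hy.adj () c hc).2 ⟨h1.1, by simp, by simp⟩)).elim
      · exact absurd (((hx.col () 0).1 p0).trans ((hx.col () 1).1 p1).symm) (by decide)

end Pool.Agent.H40.Wo
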