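import Pool.Agent.H40.Wo2

namespace Pool.Agent.H40.Wo

open Set
open _root_.Pool.Agent.H40.Wo.Fact

universe u

variable {U : Type u} [LL.Structure U]

theorem elim_map {β : Type} (s : Set U) (x : β → U) :
    Sum.elim id x ∘ Sum.map (Subtype.val : s → U) id = Sum.elim Subtype.val x := by
  funext i; cases i <;> rfl

theorem elim_inl {α β : Type} (z : α ⊕ β → U) :
    Sum.elim id z ∘ Sum.map (id : U → U) Sum.inl = Sum.elim id (z ∘ Sum.inl) := by
  funext i; cases i <;> rfl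

theorem elim_inr {α β : Type} (z : α ⊕ β → U) :
    Sum.elim id z ∘ Sum.map (id : U → U) Sum.inr = Sum.elim id (z ∘ Sum.inr) := by
  funext i; cases i <;> rfl

/-- The type `p` is the generic type of kind `κ`. -/
structure GT {β : Type} (κ : β → Fin 5) (p : Set (LL.Formula (U ⊕ β))) : Prop where
  ne : ∀ b, κ b ≠ 3
  sat : ∀ s : Set U, s.Finite → ∃ x, Gen κ s x
  tp : IsType LL U p
  ab : Above (Gen κ) p

theorem exists_GT {β : Type} (κ : β → Fin 5) (h1 : ∀ b, κ b ≠ 3)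
    (h2 : ∀ s : Set U, s.Finite → ∃ x, Gen κ s x) : ∃ p : Set (LL.Formula (U ⊕ β)), GT κ p := by
  obtain ⟨p, h3, h4⟩ := exists_type (Gen κ) (fun _ _ _ h hx => hx.mono h) h2
  exact ⟨p, h1, h2, h3, h4⟩

section
variable (hG : Good (facts U)) (hE : ExtP.{u, u} (facts U))
include hG hE

theorem GT.formula {β : Type} [Finite β] {κ : β → Fin 5} {p : Set (LL.Formula (U ⊕ β))}
    (h : GT κ p) {t : Set U} (ht : t.Finite) : ∃ θ : LL.Formula (t ⊕ β),
      θ.relabel (Sum.map Subtype.val id) ∈ p ∧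
        ∀ x, θ.Realize (Sum.elim Subtype.val x) → Gen κ t x := by
  obtain ⟨a, ha⟩ := h.sat t ht
  have := ht.to_subtype
  let z : t ⊕ β → U := Sum.elim Subtype.val a
  refine ⟨patF (fun i j => z i = z j) {f | f.map z ∈ facts U}, h.ab _ t ht fun x hx => ?_,
    fun x hx => iso_gen ha ((realize_patF _ _ _).1 hx)⟩
  rw [FirstOrder.Language.Formula.realize_relabel, elim_map, realize_patF]
  exact gen_iso hG h.ne ha hx

theorem gen_decides {β : Type} [Finite β] {κ : β → Fin 5} (hκ : ∀ b, κ b ≠ 3)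
    (φ : LL.Formula (U ⊕ β)) : ∃ s : Set U, s.Finite ∧ ∀ x y, Gen κ s x → Gen κ s y →
      (φ.Realize (Sum.elim id x) ↔ φ.Realize (Sum.elim id y)) := by
  obtain ⟨s, hs, ψ, hψ⟩ := fin_supp φ
  have := hs.to_subtype
  exact ⟨s, hs, fun x y hx hy => by
    rw [← hψ, ← hψ]; exact bf' hG hE ψ (gen_iso hG hκ hx hy)⟩

theorem GT.det {β : Type} [Finite β] {κ : β → Fin 5} {p : Set (LL.Formula (U ⊕ β))}
    (h : GT κ p) {φ : LL.Formula (U ⊕ β)} (hφ : φ ∈ p) :
    ∃ s : Set U, s.Finite ∧ ∀ x, Gen κ s x → φ.Realize (Sum.elim id x) := by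
  obtain ⟨s, hs, H⟩ := gen_decides hG hE h.ne φ
  refine ⟨s, hs, fun x hx => ?_⟩
  by_contra hn
  exact h.tp.not_both hφ (h.ab _ s hs fun y hy =>
    FirstOrder.Language.Formula.realize_not.2 fun hh => hn ((H x y hx hy).2 hh))

omit hG hE in
theorem facts_aut (g : LL.Equiv U U) (f : Fact U) : f.map g ∈ facts U ↔ f ∈ facts U := by
  have h := FirstOrder.Language.StrongHomClass.realize_formula g (fF f) (v := id)
  rwa [realize_fF, realize_fF, map_id'] at h

omit hG hE in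
theorem gen_aut (g : LL.Equiv U U) {β : Type} {κ : β → Fin 5} {s : Set U} {y : β → U}
    (h : Gen κ (g '' s) (g ∘ y)) : Gen κ s y := by
  have m : ∀ u ∈ s ∪ range y, g u ∈ g '' s ∪ range (g ∘ y) := by
    rintro u (hu | ⟨b, rfl⟩)
    exacts [Or.inl ⟨u, hu, rfl⟩, Or.inr ⟨b, rfl⟩]
  have m' : ∀ u, g u ∈ g '' s → u ∈ s := fun u ⟨v, hv, e⟩ => g.injective e ▸ hv
  refine ⟨fun b hb => h.new b ⟨_, hb, rfl⟩, fun a b e => h.inj (congrArg g e),
    fun b j => (facts_aut g (P j (y b))).symm.trans (h.col b j), fun b c hc => ?_,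
    fun u v w hu hv hw hR => ?_⟩
  · refine (facts_aut g (A (y b) c)).symm.trans ((h.adj b _ ⟨c, hc, rfl⟩).trans ?_)
    have e3 : P 3 (g c) ∈ facts U ↔ P 3 c ∈ facts U := facts_aut g (P 3 c)
    have e4 : P 4 (g c) ∈ facts U ↔ P 4 c ∈ facts U := facts_aut g (P 4 c)
    simp only [Cond, e3, e4]
  · obtain ⟨a, b, c⟩ := h.tri _ _ _ (m u hu) (m v hv) (m w hw) ((facts_aut g (R u v w)).2 hR)
    exact ⟨m' u a, m' v b, m' w c⟩

theorem GT.inv {β : Type} [Finite β] {κ : β → Fin 5} {p : Set (LL.Formula (U ⊕ β))}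
    (h : GT κ p) : Invariant LL U ∅ p := by
  intro g _
  have fw : ∀ φ ∈ p, φ.relabel (Sum.map g id) ∈ p := by
    intro φ hφ
    obtain ⟨s, hs, H⟩ := h.det hG hE hφ
    refine h.ab _ (g '' s) (hs.image g) fun x hx => ?_
    have e : g ∘ g.symm ∘ x = x := funext fun b => g.apply_symm_apply _
    have h1 := H (g.symm ∘ x) (gen_aut g (e.symm ▸ hx))
    have h2 := (FirstOrder.Language.StrongHomClass.realize_formula g φ).2 h1
    rw [FirstOrder.Language.Formula.realize_relabel]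
    have e2 : Sum.elim id x ∘ Sum.map g id = g ∘ Sum.elim id (g.symm ∘ x) := by
      funext i; rcases i with i | i
      · rfl
      · exact (g.apply_symm_apply _).symm
    rw [e2]; exact h2
  refine fun φ => ⟨fw φ, fun h1 => (h.tp.1 φ).resolve_right fun h2 => ?_⟩
  have h3 := fw _ h2
  refine h.tp.not_both h1 (h.tp.of_two h3 h3 fun x a _ => ?_)
  simpa [FirstOrder.Language.Formula.realize_relabel] using a

theorem GT.orth {k : Fin 5} (hk : k = 0 ∨ k = 1) {p q : Set (LL.Formula (U ⊕ Unit))}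
    (hp : GT (fun _ => k) p) (hq : GT (fun _ => 2) q) : WeaklyOrth LL U p q := by
  have hκ : ∀ b : Unit ⊕ Unit, Sum.elim (fun _ => k) (fun _ => 2) b ≠ 3 := by
    rintro (b | b)
    exacts [hp.ne b, hq.ne b]
  have key : ∀ φ : LL.Formula (U ⊕ (Unit ⊕ Unit)), ∃ c : Prop,
      ∀ r, IsType LL U r → Extends LL U r p q → (φ ∈ r ↔ c) := by
    intro φ
    obtain ⟨s, hs, H⟩ := gen_decides hG hE hκ φ
    choose c hc using exists_wit hG hE k
    have ht : (s ∪ c '' s).Finite := hs.union (hs.image c)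
    have pair : ∀ x y : Unit → U, Gen (fun _ => k) (s ∪ c '' s) x → Gen (fun _ => 2) (s ∪ c '' s) y →
        Gen (Sum.elim (fun _ => k) fun _ => 2) s (Sum.elim x y) := fun x y hx hy =>
      gen_orth hG hk subset_union_left (fun v hv => ⟨c v, Or.inr (mem_image_of_mem c hv), hc v⟩) hx hy
    obtain ⟨θ, hθ, hθ'⟩ := hp.formula hG hE ht
    obtain ⟨ψ, hψ, hψ'⟩ := hq.formula hG hE ht
    obtain ⟨a, ha⟩ := hp.sat _ ht
    obtain ⟨b, hb⟩ := hq.sat _ ht
    refine ⟨φ.Realize (Sum.elim id (Sum.elim a b)), fun r hr he => ?_⟩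
    have H2 : ∀ χ : LL.Formula (U ⊕ (Unit ⊕ Unit)), (∀ z, Gen (Sum.elim (fun _ => k) fun _ => 2) s z →
        χ.Realize (Sum.elim id z)) → χ ∈ r := by
      intro χ hχ
      refine hr.of_two (he.1 _ hθ) (he.2 _ hψ) fun z h1 h2 => hχ z ?_
      rw [FirstOrder.Language.Formula.realize_relabel, FirstOrder.Language.Formula.realize_relabel]
        at h1 h2
      rw [elim_inl, elim_map] at h1
      rw [elim_inr, elim_map] at h2
      have := pair _ _ (hθ' _ h1) (hψ' _ h2)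
      rwa [Sum.elim_comp_inl_inr] at this
    constructor
    · intro h
      by_contra hn
      exact hr.not_both h (H2 _ fun z hz => FirstOrder.Language.Formula.realize_not.2
        fun hh => hn ((H _ _ hz (pair a b ha hb)).1 hh))
    · exact fun h => H2 _ fun z hz => (H _ _ hz (pair a b ha hb)).2 h
  obtain ⟨r, hr, ha⟩ := exists_type (β := Unit ⊕ Unit)
    (fun s z => Gen (fun _ => k) s (z ∘ Sum.inl) ∧ Gen (fun _ => 2) s (z ∘ Sum.inr))
    (fun _ _ _ h hx => ⟨hx.1.mono h, hx.2.mono h⟩) fun s hs => by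
      obtain ⟨a, ha⟩ := hp.sat s hs
      obtain ⟨b, hb⟩ := hq.sat s hs
      exact ⟨Sum.elim a b, ha, hb⟩
  have he : Extends LL U r p q := by
    refine ⟨fun φ hφ => ?_, fun φ hφ => ?_⟩
    · obtain ⟨s, hs, H⟩ := hp.det hG hE hφ
      refine ha _ s hs fun z hz => ?_
      rw [FirstOrder.Language.Formula.realize_relabel, elim_inl]
      exact H _ hz.1
    · obtain ⟨s, hs, H⟩ := hq.det hG hE hφ
      refine ha _ s hs fun z hz => ?_
      rw [FirstOrder.Language.Formula.realize_relabel, elim_inr]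
      exact H _ hz.2
  refine ⟨r, ⟨hr, he⟩, fun r' h' => Set.ext fun φ => ?_⟩
  obtain ⟨c, hc⟩ := key φ
  rw [hc r' h'.1 h'.2, hc r hr he]

theorem GT.tensor {α β : Type} [Finite α] [Finite β] {κ : α → Fin 5} {μ : β → Fin 5}
    {p : Set (LL.Formula (U ⊕ α))} {q : Set (LL.Formula (U ⊕ β))}
    {r : Set (LL.Formula (U ⊕ (α ⊕ β)))} (hp : GT κ p) (hq : GT μ q) (hr : GT (Sum.elim κ μ) r) :
    IsTensor LL U ∅ p q r := by
  refine ⟨hr.tp, fun C hC => ?_⟩
  have hC' : (∅ ∪ C).Finite := finite_empty.union hC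
  generalize ∅ ∪ C = B at hC' ⊢
  have := hC'.to_subtype
  refine ⟨?_, fun b hb => ?_⟩
  · obtain ⟨b, hb⟩ := hq.sat B hC'
    refine ⟨b, fun ψ hψ => ?_⟩
    obtain ⟨s, hs, H⟩ := hq.det hG hE hψ
    obtain ⟨y, hy⟩ := hq.sat _ (hs.union hC')
    have h1 := H y (hy.mono subset_union_left)
    rw [FirstOrder.Language.Formula.realize_relabel, elim_map] at h1
    exact (bf' hG hE ψ (gen_iso hG hq.ne hb (hy.mono subset_union_right))).2 h1
  · obtain ⟨θ, hθ, hθ'⟩ := hq.formula hG hE hC'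
    have hb' := hθ' b (hb θ hθ)
    have fw : ∀ ψ : LL.Formula (B ⊕ (α ⊕ β)), ψ.relabel (Sum.map Subtype.val id) ∈ r →
        ψ.relabel (Sum.elim (Sum.inl ∘ Subtype.val) (Sum.elim Sum.inr (Sum.inl ∘ b))) ∈ p := by
      intro ψ hψ
      obtain ⟨s, hs, H⟩ := hr.det hG hE hψ
      obtain ⟨y, hy⟩ := hr.sat _ (hs.union hC')
      have h1 := H y (hy.mono subset_union_left)
      rw [FirstOrder.Language.Formula.realize_relabel, elim_map] at h1
      refine hp.ab _ (B ∪ range b) (hC'.union (finite_range b)) fun x hx => ?_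
      rw [FirstOrder.Language.Formula.realize_relabel]
      have e : Sum.elim id x ∘ Sum.elim (Sum.inl ∘ Subtype.val) (Sum.elim Sum.inr (Sum.inl ∘ b)) =
          Sum.elim (Subtype.val : B → U) (Sum.elim x b) := by
        funext i; rcases i with i | i | i <;> rfl
      rw [e]
      exact (bf' hG hE ψ (gen_iso hG hr.ne (gen_pair hx hb') (hy.mono subset_union_right))).2 h1
    refine fun ψ => ⟨fw ψ, fun h1 => (hr.tp.1 _).resolve_right fun h2 => ?_⟩
    have h3 := fw ψ.not (hr.tp.of_two h2 h2 fun x a _ => by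
      simpa [FirstOrder.Language.Formula.realize_relabel] using a)
    refine hp.tp.not_both h1 (hp.tp.of_two h3 h3 fun x a _ => ?_)
    simpa [FirstOrder.Language.Formula.realize_relabel] using a

theorem GT.not_orth {r : Set (LL.Formula (U ⊕ (Unit ⊕ Unit)))} {q : Set (LL.Formula (U ⊕ Unit))}
    (hr : GT (Sum.elim (fun _ => 0) fun _ => 1) r) (hq : GT (fun _ => 2) q) :
    ¬ WeaklyOrth LL U r q := by
  let ρ : Fact (U ⊕ ((Unit ⊕ Unit) ⊕ Unit)) :=
    R (.inr (.inl (.inl ()))) (.inr (.inl (.inr ()))) (.inr (.inr ()))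
  have mk : ∀ ε : Prop, ∃ w, (IsType LL U w ∧ Extends LL U w r q) ∧ (fF ρ ∈ w ↔ ε) := by
    intro ε
    obtain ⟨w, hw, ha⟩ := exists_type (β := (Unit ⊕ Unit) ⊕ Unit)
      (fun s z => Gen (Sum.elim (fun _ => 0) fun _ => 1) s (z ∘ Sum.inl) ∧
        Gen (fun _ => 2) s (z ∘ Sum.inr) ∧ (ρ.map (Sum.elim id z) ∈ facts U ↔ ε))
      (fun _ _ _ h hx => ⟨hx.1.mono h, hx.2.1.mono h, hx.2.2⟩) fun s hs => by
        obtain ⟨a, ha⟩ := hr.sat s hs
        have n3 : ∀ u b, A u (a b) ∉ facts U := fun u b h =>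
          hr.ne b ((ha.col b 3).1 (hG.hA _ _ h)).symm
        obtain ⟨y, h1, h2, h3, h4, h5⟩ := exists_new hG hE (hs.union (finite_range a)) 2
          (fun u v => u = a (.inl ()) ∧ v = a (.inr ()) ∧ ε) (by
            rintro _ _ ⟨rfl, rfl, -⟩
            refine ⟨rfl, (ha.col _ _).2 rfl, (ha.col _ _).2 rfl, ?_⟩
            rintro c (hc | ⟨b, rfl⟩) k1 k2
            · exact ((ha.adj _ c hc).1 k2).2.2 rfl (((ha.adj _ c hc).1 k1).2.1 rfl)
            · exact n3 _ _ k1)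
        have m : ∀ b, a b ∈ s ∪ range a := fun b => Or.inr ⟨b, rfl⟩
        refine ⟨Sum.elim a fun _ => y, ha, ⟨fun _ h => h1 (Or.inl h), fun _ _ _ => rfl,
          fun _ => h2, fun _ c hc => h3 c (Or.inl hc), ?_⟩, fun h => ?_,
          fun h => h5 _ (m _) _ (m _) ⟨rfl, rfl, h⟩⟩
        · have l : ∀ u ∈ s ∪ range (Sum.elim a (fun _ : Unit => y) ∘ Sum.inr),
              u ∈ insert y (s ∪ range a) ∧ (u ≠ y → u ∈ s) := by
            rintro u (hu | ⟨b, rfl⟩)
            exacts [⟨Or.inr (Or.inl hu), fun _ => hu⟩, ⟨Or.inl rfl, fun h => absurd rfl h⟩]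
          intro u v w hu hv hw hR
          obtain ⟨k1, k2, k3⟩ := h4 u v w (l u hu).1 (l v hv).1 (l w hw).1 hR
          have hu' := (l u hu).2 fun e => h1 (e ▸ k1)
          refine ⟨hu', (l v hv).2 fun e => h1 (e ▸ k2), k3.elim
            (fun k => (l w hw).2 fun e => h1 (e ▸ k)) fun k => absurd (k.1 ▸ hu') (ha.new _)⟩
        · obtain ⟨-, -, k3⟩ := h4 _ _ y (Or.inr (m _)) (Or.inr (m _)) (Or.inl rfl) h
          exact (k3.resolve_left h1).2.2
    refine ⟨w, ⟨hw, fun φ hφ => ?_, fun φ hφ => ?_⟩, fun h => ?_, fun h => ?_⟩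
    · obtain ⟨s, hs, H⟩ := hr.det hG hE hφ
      refine ha _ s hs fun z hz => ?_
      rw [FirstOrder.Language.Formula.realize_relabel, elim_inl]
      exact H _ hz.1
    · obtain ⟨s, hs, H⟩ := hq.det hG hE hφ
      refine ha _ s hs fun z hz => ?_
      rw [FirstOrder.Language.Formula.realize_relabel, elim_inr]
      exact H _ hz.2.1
    · by_contra hn
      exact hw.not_both h (ha _ ∅ finite_empty fun z hz =>
        FirstOrder.Language.Formula.realize_not.2 fun hh => hn (hz.2.2.1 ((realize_fF _ _).1 hh)))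
    · exact ha _ ∅ finite_empty fun z hz => (realize_fF _ _).2 (hz.2.2.2 h)
  intro h
  obtain ⟨w₁, h₁, k₁⟩ := mk True
  obtain ⟨w₂, h₂, k₂⟩ := mk False
  exact k₂.1 (h.unique h₁ h₂ ▸ k₁.2 trivial)

end

theorem counter : ∃ (L : FirstOrder.Language.{0, 0}) (T : L.Theory), T.IsComplete ∧
    ∀ (U : Type u) [L.Structure U] [U ⊨ T], Infinite U ∧
      ∃ (p₀ p₁ q : Set (L.Formula (U ⊕ Unit))) (r : Set (L.Formula (U ⊕ (Unit ⊕ Unit)))),
        IsType L U p₀ ∧ IsType L U p₁ ∧ IsType L U q ∧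
        Invariant L U ∅ p₀ ∧ Invariant L U ∅ p₁ ∧ Invariant L U ∅ q ∧
        WeaklyOrth L U p₀ q ∧ WeaklyOrth L U p₁ q ∧ IsTensor L U ∅ p₀ p₁ r ∧
        ¬ WeaklyOrth L U r q := by
  obtain ⟨S, h1, h2⟩ := exists_generic.{u}
  letI := ofFacts S
  refine ⟨LL, LL.completeTheory ℕ, FirstOrder.Language.completeTheory.isComplete LL ℕ,
    fun U _ _ => ?_⟩
  obtain ⟨hG, hE⟩ := transfer U ((facts_ofFacts S).symm ▸ h1) ((facts_ofFacts S).symm ▸ h2)
  refine ⟨not_finite_iff_infinite.1 fun _ => ?_, ?_⟩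
  · obtain ⟨y, hy⟩ := exists_gen hG hE (finite_univ (α := U)) 0
    exact hy.new () trivial
  obtain ⟨p₀, h₀⟩ := exists_GT (U := U) (fun _ : Unit => 0) (fun _ => by decide)
    fun s hs => exists_gen hG hE hs 0
  obtain ⟨p₁, h₁⟩ := exists_GT (U := U) (fun _ : Unit => 1) (fun _ => by decide)
    fun s hs => exists_gen hG hE hs 1
  obtain ⟨q, hq⟩ := exists_GT (U := U) (fun _ : Unit => 2) (fun _ => by decide)
    fun s hs => exists_gen hG hE hs 2
  obtain ⟨r, hr⟩ := exists_GT (U := U) (Sum.elim (fun _ : Unit => 0) fun _ : Unit => 1)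
    (by decide) fun s hs => by
      obtain ⟨b, hb⟩ := exists_gen hG hE hs 1
      obtain ⟨a, ha⟩ := exists_gen hG hE (hs.union (finite_range b)) 0
      exact ⟨_, gen_pair ha hb⟩
  exact ⟨p₀, p₁, q, r, h₀.tp, h₁.tp, hq.tp, h₀.inv hG hE, h₁.inv hG hE, hq.inv hG hE,
    h₀.orth hG hE (Or.inl rfl) hq, h₁.orth hG hE (Or.inr rfl) hq, h₀.tensor hG hE h₁ hr,
    hr.not_orth hG hE hq⟩

end Pool.Agent.H40.Wo
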