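import Mathlib

/-! Global types, invariance, weak orthogonality and tensor products. -/

namespace Pool.Agent.H40.Wo

universe u

variable (L : FirstOrder.Language.{0, 0}) (U : Type u) [L.Structure U]

/-- A complete type over `U` in the variables `α`: a set of formulas with parameters from `U`
that is complete and finitely satisfiable in `U`. -/
def IsType {α : Type} (p : Set (L.Formula (U ⊕ α))) : Prop :=
  (∀ φ, φ ∈ p ∨ φ.not ∈ p) ∧
    ∀ s ⊆ p, s.Finite → ∃ x : α → U, ∀ φ ∈ s, φ.Realize (Sum.elim id x)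

/-- Every automorphism of `U` fixing `A` pointwise fixes the type `p`. -/
def Invariant {α : Type} (A : Set U) (p : Set (L.Formula (U ⊕ α))) : Prop :=
  ∀ g : L.Equiv U U, (∀ a ∈ A, g a = a) → ∀ φ, φ ∈ p ↔ φ.relabel (Sum.map g id) ∈ p

/-- The set `r` of formulas in the variables `(x, y)` contains `p(x) ∪ q(y)`. -/
def Extends {α β : Type} (r : Set (L.Formula (U ⊕ (α ⊕ β)))) (p : Set (L.Formula (U ⊕ α)))
    (q : Set (L.Formula (U ⊕ β))) : Prop :=
  (∀ φ ∈ p, φ.relabel (Sum.map id Sum.inl) ∈ r) ∧ ∀ ψ ∈ q, ψ.relabel (Sum.map id Sum.inr) ∈ r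

/-- Weak orthogonality: `p(x) ∪ q(y)` has exactly one completion over `U`. -/
def WeaklyOrth {α β : Type} (p : Set (L.Formula (U ⊕ α))) (q : Set (L.Formula (U ⊕ β))) : Prop :=
  ∃! r, IsType L U r ∧ Extends L U r p q

/-- The tuple `b` realises the restriction of `q` to the parameter set `B`. -/
def RealizesOver {β : Type} (B : Set U) (q : Set (L.Formula (U ⊕ β))) (b : β → U) : Prop :=
  ∀ ψ : L.Formula (B ⊕ β), ψ.relabel (Sum.map Subtype.val id) ∈ q →
    ψ.Realize (Sum.elim Subtype.val b)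

/-- `r = p ⊗ q` for an `A`-invariant type `p`: for each finite parameter set `C`, the restriction of
`q` to `A ∪ C` is realised in `U`, and for each realisation `b` and each formula `ψ(x, y)` over
`A ∪ C`, `ψ(x, y) ∈ r` iff `ψ(x, b) ∈ p`. -/
def IsTensor {α β : Type} (A : Set U) (p : Set (L.Formula (U ⊕ α))) (q : Set (L.Formula (U ⊕ β)))
    (r : Set (L.Formula (U ⊕ (α ⊕ β)))) : Prop :=
  IsType L U r ∧ ∀ C : Set U, C.Finite → (∃ b, RealizesOver L U (A ∪ C) q b) ∧
    ∀ b, RealizesOver L U (A ∪ C) q b → ∀ ψ : L.Formula (↥(A ∪ C) ⊕ (α ⊕ β)),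
      ψ.relabel (Sum.map Subtype.val id) ∈ r ↔
        ψ.relabel (Sum.elim (Sum.inl ∘ Subtype.val) (Sum.elim Sum.inr (Sum.inl ∘ b))) ∈ p

end Pool.Agent.H40.Wo
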