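import Pool.Agent.H40.Zr7
import Pool.Agent.H40.JzDefs11

set_option autoImplicit false
set_option synthInstance.maxSize 2000

/-! Canonical decision trees on Cantor cubes. -/

namespace Pool.Agent.H40.Zt

open Pool.Agent.H40.Bspt Pool.Agent.H40.Jz Classical

variable {M : Type} (E : M → M → Prop)

abbrev Trv (G T : M) : Prop := ∀ D, E D G → ∃ j, E j D ∧ E j T

abbrev Mnt (G T : M) : Prop :=
  Trv E G T ∧ ∀ j, E j T → ¬ ∀ D, E D G → ∃ i, E i D ∧ E i T ∧ i ≠ j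

abbrev Opt (G T : M) : Prop :=
  IsFin E T ∧ Trv E G T ∧ ∀ S, IsFin E S → Trv E G S → ¬ E (sz E S) (sz E T)

abbrev Agr (F x y : M) : Prop := ∀ j, E j F → (E j y ↔ E j x)

variable {E} (h : IsZF E)
include h

theorem trF : ∀ n, IsNat E n → ∀ G, (∀ D, E D G → IsFin E D) →
    Few E fun j => ∃ T, IsFin E T ∧ E (sz E T) n ∧ Mnt E G T ∧ E j T := by
  refine natI h (fun n => ∀ G, (∀ D, E D G → IsFin E D) →
    Few E fun j => ∃ T, IsFin E T ∧ E (sz E T) n ∧ Mnt E G T ∧ E j T)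
    (fun z a G _ => few_one h fun _ _ ⟨T, b⟩ => absurd b.2.1 (a _)) fun n a ih G b => ?_
  by_cases c : ∃ D, E D G
  swap
  · exact few_one h fun j _ ⟨T, d⟩ => absurd (fun D e => absurd ⟨D, e⟩ c) (d.2.2.1.2 j d.2.2.2)
  obtain ⟨D, c⟩ := c
  refine few_un h (fun g j => j = g ∨ ∃ T, IsFin E T ∧ E (sz E T) n ∧
    Mnt E (st E G fun D => ¬ E g D) T ∧ E j T) (fin_few (b D c)) (fun g => few_or h (few_one h
      fun _ _ i j => i.trans j.symm) (ih _ fun D d => b D ((mem_st h).1 d).1))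
    fun j ⟨T, t1, t2, t3, t4⟩ => ?_
  obtain ⟨g, g1, g2⟩ := t3.1 D c
  refine ⟨g, g1, or_iff_not_imp_left.2 fun d => ?_⟩
  obtain ⟨S, hS⟩ := sep h (· ≠ g) T
  have s1 : Sub E S T := fun z e => ((hS z).1 e).1
  have s2 := sz_lt h t1 s1 g2 fun e => ((hS g).1 e).2 rfl
  refine ⟨S, fin_sub h t1 s1, ((mem_sc h).1 t2).elim (ntr h a s2) fun e : _ = n => e ▸ s2,
    ⟨fun A e => ?_, fun i e f => t3.2 i (s1 i e) fun A k => ?_⟩, (hS j).2 ⟨t4, d⟩⟩
  · rw [mem_st h] at e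
    exact (t3.1 A e.1).imp fun i f => ⟨f.1, (hS i).2 ⟨f.2, fun k => e.2 (k ▸ f.1)⟩⟩
  · by_cases l : E g A
    · exact ⟨g, l, g2, ((hS i).1 e).2.symm⟩
    · exact (f A ((mem_st h).2 ⟨k, l⟩)).imp fun z m => ⟨m.1, s1 z m.2.1, m.2.2⟩

theorem opF {G : M} (b : ∀ D, E D G → IsFin E D) : Few E fun j => ∃ T, Opt E G T ∧ E j T := by
  by_cases c : ∃ T, Opt E G T
  swap
  · exact few_one h fun _ _ ⟨T, d⟩ => absurd ⟨T, d.1⟩ c
  obtain ⟨R, r⟩ := c
  refine few_mono (trF h _ (nat_sc h (sz_nat h r.1)) G b) fun j ⟨T, t, d⟩ => ⟨T, t.1, (mem_sc h).2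
    ((or_assoc.2 (tri h (sz_nat h t.1) (sz_nat h r.1))).resolve_right (t.2.2 R r.1 r.2.1)),
      ⟨t.2.1, fun i e f => ?_⟩, d⟩
  obtain ⟨S, hS⟩ := sep h (· ≠ i) T
  have s1 : Sub E S T := fun z e => ((hS z).1 e).1
  exact t.2.2 S (fin_sub h t.1 s1) (fun A k => (f A k).imp fun z m => ⟨m.1, (hS z).2 m.2⟩)
    (sz_lt h t.1 s1 e fun e => ((hS i).1 e).2 rfl)

theorem exPhi (J : M) (H : M → Prop) [D1 E H] : ∃ Φ : M → M → M, T2 E Φ ∧ (∀ x F, IsFin E (Φ x F)) ∧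
    (∀ x y F, Agr E F x y → Φ y F = Φ x F) ∧ ∀ x F D y A, Sub E x J → Sub E D J → IsFin E D →
      (∀ z, Sub E z J → Agr E D x z → H z) → Agr E F x y → IsFin E A →
      (∀ z, Sub E z J → Sub E y J → Agr E A y z → ¬ H z) → Sub E y J →
        ∃ j, E j D ∧ ¬ E j F ∧ E j (Φ x F) := by
  have := @l1 _ E H _
  obtain ⟨P, hP⟩ := h.power J
  let G : M → M → M := fun x F => st E P fun D => IsFin E D ∧ (∀ j, E j D → ¬ E j F) ∧
    ∃ y, Sub E y J ∧ Agr E F x y ∧ ∀ z, Sub E z J → Agr E F y z → Agr E D y z → H z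
  have g : ∀ x F D, E D (G x F) ↔ E D P ∧ IsFin E D ∧ (∀ j, E j D → ¬ E j F) ∧
    ∃ y, Sub E y J ∧ Agr E F x y ∧ ∀ z, Sub E z J → Agr E F y z → Agr E D y z → H z :=
    fun _ _ _ => mem_st h
  have : T2 E G := inferInstance
  clear_value G
  have := @t2 _ E G _
  refine ⟨fun x F => st E J fun j => ∃ T, Opt E (G x F) T ∧ E j T, inferInstance, fun x F =>
    few_fin h (opF h fun D a => ((g x F D).1 a).2.1) fun z a => ((mem_st h).1 a).2, fun x y F a => ?_,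
    fun x F D y A a b c d e f i k => ?_⟩
  · beta_reduce
    rw [h.ext (G y F) (G x F) fun D => by
      simp only [g]
      exact and_congr_right' (and_congr_right' (and_congr_right' (exists_congr fun u =>
        and_congr_right' (and_congr_left' (forall₂_congr fun j b => by rw [a j b])))))]
  obtain ⟨n, ⟨-, T, t1, t2, rfl⟩, t3⟩ := least h (fun n => ∃ T, IsFin E T ∧ Trv E (G x F) T ∧ n = sz E T)
    (sz_nat h f) ⟨A, f, fun B l => by_contra fun m => by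
      obtain ⟨-, -, -, u, u1, u2, u3⟩ := (g x F B).1 l
      obtain ⟨z, hz⟩ := sep h (fun j => (E j A ∧ E j y) ∨ (¬ E j A ∧ E j u)) J
      have z1 : Sub E z J := fun j o => ((hz j).1 o).1
      refine i z z1 k (fun j o => ?_) (u3 z z1 (fun j o => ?_) fun j o => ?_)
      · have := k j; rw [hz]; tauto
      · have := u1 j; have := u2 j o; have := e j o; rw [hz]; tauto
      · have := u1 j; have : ¬ E j A := fun p => m ⟨j, o, p⟩; rw [hz]; tauto, rfl⟩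
  obtain ⟨B, hB⟩ := sep h (¬ E · F) D
  have s : Sub E B D := fun z l => ((hB z).1 l).1
  obtain ⟨j, j1, j2⟩ := t2 B ((g x F B).2 ⟨(hP B).2 fun z l => b z (s z l), fin_sub h c s,
    fun j l => ((hB j).1 l).2, x, a, fun _ _ => Iff.rfl, fun z l m o => d z l fun j p =>
      (Classical.em (E j F)).elim (m j) fun q => o j ((hB j).2 ⟨p, q⟩)⟩)
  exact ⟨j, s j j1, ((hB j).1 j1).2, (mem_st h).2 ⟨b j (s j j1), T, ⟨t1, t2, fun S l m o =>
    t3 _ o ⟨sz_nat h l, S, l, m, rfl⟩⟩, j2⟩⟩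

theorem cube_szd (ℛ : Reals E) {J P S : M} (hP : ∀ x, E x P ↔ Sub E x J)
    (hS : ∀ U, E U S ↔ Sub E U P ∧ ∀ x, E x U → ∃ F, IsFin E F ∧ Sub E F J ∧
      ∀ y, E y P → Agr E F x y → E y U) : StrZD ℛ P S := by
  rintro A B a1 b1 ⟨φ, ⟨c1, c2⟩, -, c3, c4⟩
  obtain ⟨f, _, hf⟩ := intl_r ℛ c1
  have := @tR _ _ ℛ f _
  have op : ∀ x, Sub E x J → ∀ ε > 0, ∃ D, IsFin E D ∧ Sub E D J ∧
      ∀ z, Sub E z J → Agr E D x z → |f z - f x| < ε := fun x a ε e => by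
    obtain ⟨U, u1, u2, u3⟩ := c2 ⟨x, (hP x).2 a⟩ ε e
    obtain ⟨D, d1, d2, d3⟩ := ((hS U).1 u1).2 x u2
    refine ⟨D, d1, d2, fun z b c => ?_⟩
    rw [hf ⟨z, (hP z).2 b⟩, hf ⟨x, (hP x).2 a⟩]
    exact u3 ⟨z, _⟩ (d3 z ((hP z).2 b) c)
  obtain ⟨b, b0, b2⟩ := exists_between (zero_lt_one (α := Ex E ℛ.R))
  obtain ⟨a, a0, ab⟩ := exists_between b0
  obtain ⟨Φ, _, p1, p2, p3⟩ := exPhi h J fun z => a < f z
  obtain ⟨Ψ, _, q1, q2, q3⟩ := exPhi h J fun z => f z < b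
  have := @t2 _ E Φ _
  have := @t2 _ E Ψ _
  obtain ⟨e, he⟩ := h.emp
  obtain ⟨G, _, g0, g1⟩ := iter h P (fun _ => e) (fun z _ w => st E J fun j =>
    E j w ∨ E j (Φ z w) ∨ E j (Ψ z w)) (fun _ => (hP e).2 fun j c => absurd c (he j))
    fun z n w _ => (hP _).2 fun j c => ((mem_st h).1 c).1
  have := @t2 _ E G _
  have g2 : ∀ x n j, IsNat E n → (E j (G x (sc E n)) ↔ E j J ∧
      (E j (G x n) ∨ E j (Φ x (G x n)) ∨ E j (Ψ x (G x n)))) := fun x n j c => by rw [g1 x n c, mem_st h]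
  have g3 : ∀ x n, IsNat E n → IsFin E (G x n) ∧ Sub E (G x n) J := fun x =>
    natI h (fun n => IsFin E (G x n) ∧ Sub E (G x n) J)
      (fun o c => by rw [g0 x o c]; exact ⟨h.fin0 he, fun j d => absurd d (he j)⟩)
      fun n c d => ⟨few_fin h (few_or h (fin_few d.1) (few_or h (fin_few (p1 _ _)) (fin_few (q1 _ _))))
        fun j i => ((g2 x n j c).1 i).2, fun j i => ((g2 x n j c).1 i).1⟩
  have g4 : ∀ x n, IsNat E n → Sub E (G x n) (G x (sc E n)) := fun x n c j d =>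
    (g2 x n j c).2 ⟨(g3 x n c).2 j d, Or.inl d⟩
  have g5 : ∀ x y n, IsNat E n → Agr E (G x n) x y → G y n = G x n := fun x y =>
    natI h (fun n => Agr E (G x n) x y → G y n = G x n) (fun o c _ => by rw [g0 x o c, g0 y o c])
      fun n c d i => by
        have k : Agr E (G x n) x y := fun j l => i j (g4 x n c j l)
        rw [g1 x n c, g1 y n c, d k, p2 _ _ _ k, q2 _ _ _ k]
  have tm : ∀ x D (R : M → Prop), IsFin E D → (∀ n, IsNat E n → ¬ R n →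
      ∃ j, E j D ∧ ¬ E j (G x n) ∧ E j (G x (sc E n))) → ∃ n, IsNat E n ∧ R n := fun x D R c d => by
    have k : ∀ n, IsFin E (st E D fun j => ¬ E j (G x n)) := fun n =>
      fin_sub h c fun j i => ((mem_st h).1 i).1
    obtain ⟨_, ⟨-, n, i, rfl⟩, l⟩ := least h (fun m => ∃ n, IsNat E n ∧
      m = sz E (st E D fun j => ¬ E j (G x n))) (sz_nat h (k e)) ⟨e, h.nat0 he, rfl⟩
    refine ⟨n, i, by_contra fun m => ?_⟩
    obtain ⟨j, j1, j2, j3⟩ := d n i m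
    exact l _ (sz_lt h (k n) (fun z o => by
      rw [mem_st h] at o ⊢; exact ⟨o.1, fun p => o.2 (g4 x n i z p)⟩) ((mem_st h).2 ⟨j1, j2⟩)
      fun o => by rw [mem_st h] at o; exact o.2 j3) ⟨sz_nat h (k _), _, nat_sc h i, rfl⟩
  let TA : M → M → Prop := fun x n => ∀ y, Sub E y J → Agr E (G x n) x y → f y ≤ b
  let TB : M → M → Prop := fun x n => ∀ y, Sub E y J → Agr E (G x n) x y → a ≤ f y
  have t1 : ∀ x, Sub E x J → ∃ n, IsNat E n ∧ (TA x n ∨ TB x n) := fun x c => by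
    rcases lt_or_ge a (f x) with d | d
    · obtain ⟨D, d1, d2, d3⟩ := op x c _ (sub_pos.2 d)
      refine (tm x D (TB x) d1 fun n i k => ?_).imp fun n i => ⟨i.1, Or.inr i.2⟩
      simp only [TB, not_forall, not_le] at k
      obtain ⟨y, k1, k2, k3⟩ := k
      obtain ⟨A, e1, -, e3⟩ := op y k1 _ (sub_pos.2 k3)
      exact (p3 x _ D y A c d2 d1 (fun z l m => by linarith [(abs_lt.1 (d3 z l m)).1]) k2 e1
        (fun z l _ m => not_lt.2 (by linarith [(abs_lt.1 (e3 z l m)).2])) k1).imp fun j l =>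
          ⟨l.1, l.2.1, (g2 x n j i).2 ⟨d2 j l.1, Or.inr (Or.inl l.2.2)⟩⟩
    · obtain ⟨D, d1, d2, d3⟩ := op x c _ (sub_pos.2 (d.trans_lt ab))
      refine (tm x D (TA x) d1 fun n i k => ?_).imp fun n i => ⟨i.1, Or.inl i.2⟩
      simp only [TA, not_forall, not_le] at k
      obtain ⟨y, k1, k2, k3⟩ := k
      obtain ⟨A, e1, -, e3⟩ := op y k1 _ (sub_pos.2 k3)
      exact (q3 x _ D y A c d2 d1 (fun z l m => by linarith [(abs_lt.1 (d3 z l m)).2]) k2 e1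
        (fun z l _ m => not_lt.2 (by linarith [(abs_lt.1 (e3 z l m)).1])) k1).imp fun j l =>
          ⟨l.1, l.2.1, (g2 x n j i).2 ⟨d2 j l.1, Or.inr (Or.inr l.2.2)⟩⟩
  have t2 : ∀ x y n, IsNat E n → Agr E (G x n) x y → ∀ m, E m n ∨ m = n →
      (TA y m ↔ TA x m) ∧ (TB y m ↔ TB x m) := fun x y n c d m i => by
    have k : Agr E (G x m) x y := i.elim (fun i j l => d j (by_contra fun o => chain h
      (fun n j => ¬ E j (G x n)) (fun n j p q r => q (g4 x n p j r)) c i o l)) fun i => i ▸ d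
    have l := g5 x y m (i.elim (nel h c) fun i => i ▸ c) k
    have : ∀ z, Agr E (G y m) y z ↔ Agr E (G x m) x z := fun z => by
      rw [l]; exact forall₂_congr fun j o => by rw [k j o]
    simp only [TA, TB, this, and_self]
  have t3 : ∀ x y n, IsNat E n → Agr E (G x n) x y → TA x n ∨ TB x n →
      (∃ n, IsNat E n ∧ TA x n ∧ ∀ m, E m n → ¬ TB x m) →
        ∃ n, IsNat E n ∧ TA y n ∧ ∀ m, E m n → ¬ TB y m := fun x y n c d i ⟨k, k1, k2, k3⟩ => by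
    rcases or_assoc.2 (tri h k1 c) with l | l
    · exact ⟨k, k1, (t2 x y n c d k l).1.2 k2, fun m o p => k3 m o ((t2 x y n c d m
        (Or.inl (l.elim (ntr h c o) fun q => q ▸ o))).2.1 p)⟩
    · exact ⟨n, c, (t2 x y n c d n (Or.inr rfl)).1.2 (i.resolve_right (k3 n l)), fun m o p =>
        k3 m (ntr h k1 o l) ((t2 x y n c d m (Or.inl o)).2.1 p)⟩
  obtain ⟨C, hC⟩ := sep h (fun x => ∃ n, IsNat E n ∧ TA x n ∧ ∀ m, E m n → ¬ TB x m) P
  refine ⟨C, ⟨fun x c => ((hC x).1 c).1, fun x c => ?_⟩, fun x c => ?_, fun x c d => ?_⟩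
  · obtain ⟨n, i, k⟩ := t1 x ((hP x).1 c)
    obtain ⟨U, hU⟩ := sep h (Agr E (G x n) x ·) P
    refine ⟨U, (hS U).2 ⟨fun y l => ((hU y).1 l).1, fun y l => ⟨_, (g3 x n i).1, (g3 x n i).2,
      fun z m o => (hU z).2 ⟨m, fun j p => (o j p).trans (((hU y).1 l).2 j p)⟩⟩⟩,
      (hU x).2 ⟨c, fun _ _ => Iff.rfl⟩, fun y l m => ?_⟩
    have o := ((hU y).1 m).2
    have q := t2 x y n i o n (Or.inr rfl)
    rw [hC, hC, and_iff_right l, and_iff_right c]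
    exact ⟨t3 y x n i (fun j p => (o j (g5 x y n i o ▸ p)).symm) (k.imp q.1.2 q.2.2), t3 x y n i o k⟩
  · have d := (hP x).1 (a1 x c)
    have k : ∀ m, ¬ TB x m := fun m i => by
      have := i x d fun _ _ => Iff.rfl
      rw [hf ⟨x, a1 x c⟩, c3 _ c] at this
      exact this.not_gt a0
    exact (hC x).2 ⟨a1 x c, (t1 x d).imp fun n i => ⟨i.1, i.2.resolve_right (k n), fun m _ => k m⟩⟩
  · obtain ⟨i, n, -, k, -⟩ := (hC x).1 c
    have := k x ((hP x).1 i) fun _ _ => Iff.rfl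
    rw [hf ⟨x, i⟩, c4 _ d] at this
    exact this.not_gt b2

end Pool.Agent.H40.Zt
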