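import Pool.Agent.H40.Zt7

set_option autoImplicit false

/-! Definability of the field structure of the real line of a model of ZF. -/

namespace Pool.Agent.H40.Zt

open Pool.Agent.H40.Bspt Pool.Agent.H40.Jz Classical

variable {M : Type} {E : M → M → Prop}

theorem T.of {α : Type} {s : (α → M) → M} (t : (α → M) → M) [h : T E t] (e : ∀ v, s v = t v) :
    T E s := (funext e : s = t) ▸ h

theorem D.of {α : Type} {P : (α → M) → Prop} (Q : (α → M) → Prop) [h : D E Q] (e : ∀ v, P v ↔ Q v) :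
    D E P := (funext fun v => propext (e v) : P = Q) ▸ h

instance {α : Type} {s t u r : (α → M) → M} [T E s] [T E t] [T E u] [T E r] :
    D E fun v => Op E (s v) (t v) (u v) (r v) :=
  l4 (R := Op E) (Df.op (Tm.var _) (Tm.var _) (Tm.var _) (Tm.var _))

theorem intl2_t {p q : M → Prop} {φ : Subtype p → Subtype q → M} (a : Intl2 E φ) :
    ∃ f : M → M → M, T2 E f ∧ ∀ x y, f x.1 y.1 = φ x y :=
  a.elim fun f b => ⟨fun x y => the x fun z => Op E f x y z, inferInstance, fun x y =>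
    the_eq ((b x y _).2 rfl) fun z => (b x y z).1⟩

variable (ℛ : Reals E)

noncomputable def up (m : M) : Ex E ℛ.R := if h : E m ℛ.R then ⟨m, h⟩ else 0

@[simp] theorem up_val (x : Ex E ℛ.R) : up ℛ x.1 = x := dif_pos x.2

section
variable {α : Type} {s t : (α → M) → Ex E ℛ.R} {a : (α → M) → M}

instance [T E a] : T E fun v => (up ℛ (a v)).1 :=
  T.of (fun v => if E (a v) ℛ.R then a v else (0 : Ex E ℛ.R).1) fun v => by
    unfold up; split_ifs <;> rfl

instance [T E fun v => (s v).1] [T E fun v => (t v).1] : T E fun v => (s v + t v).1 :=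
  let ⟨f, _, hf⟩ := intl2_t ℛ.add
  @T.of _ _ _ _ (fun v => f (s v).1 (t v).1) (t2 f) fun _ => (hf _ _).symm

instance [T E fun v => (s v).1] [T E fun v => (t v).1] : T E fun v => (s v * t v).1 :=
  let ⟨f, _, hf⟩ := intl2_t ℛ.mul
  @T.of _ _ _ _ (fun v => f (s v).1 (t v).1) (t2 f) fun _ => (hf _ _).symm

instance [T E fun v => (s v).1] [T E fun v => (t v).1] : D E fun v => s v ≤ t v :=
  let ⟨l, hl⟩ := ℛ.le
  D.of (fun v => App E l (s v).1 (t v).1) fun _ => (hl _ _).symm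

instance [T E fun v => (s v).1] [T E fun v => (t v).1] : D E fun v => s v < t v :=
  D.of (fun v => ¬ t v ≤ s v) fun _ => not_le.symm

instance [T E fun v => (s v).1] [T E fun v => (t v).1] : D E fun v => s v = t v :=
  D.of (fun v => (s v).1 = (t v).1) fun _ => Subtype.ext_iff

instance [T E fun v => (s v).1] : T E fun v => (- s v).1 :=
  @T.of _ _ _ _ (fun v => (-1 * s v).1) (by infer_instance) fun _ => by rw [neg_one_mul]

instance [T E fun v => (s v).1] [T E fun v => (t v).1] : T E fun v => (s v - t v).1 :=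
  T.of (fun v => (s v + - t v).1) fun _ => by rw [sub_eq_add_neg]

instance [T E fun v => (s v).1] [T E fun v => (t v).1] : T E fun v => (max (s v) (t v)).1 :=
  T.of (fun v => if s v ≤ t v then (t v).1 else (s v).1) fun _ => by
    rw [max_def]; split_ifs <;> rfl

instance [T E fun v => (s v).1] [T E fun v => (t v).1] : T E fun v => (min (s v) (t v)).1 :=
  T.of (fun v => if s v ≤ t v then (s v).1 else (t v).1) fun _ => by
    rw [min_def]; split_ifs <;> rfl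

instance [T E fun v => (s v).1] : T E fun v => (|s v|).1 :=
  T.of (fun v => (max (s v) (- s v)).1) fun _ => by rw [abs_eq_max_neg]

instance {P : (α → M) → Prop} {d : ∀ v, Decidable (P v)} [D E P]
    [T E fun v => (s v).1] [T E fun v => (t v).1] :
    T E fun v => (@ite _ (P v) (d v) (s v) (t v)).1 :=
  T.of (fun v => @ite _ (P v) (d v) (s v).1 (t v).1) fun _ => by split_ifs <;> rfl

instance {P : Ex E ℛ.R → (α → M) → Prop}
    [D E fun w : Option α → M => P (up ℛ (w none)) fun a => w (some a)] : D E fun v => ∀ r, P r v :=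
  D.of (fun v => ∀ m, P (up ℛ m) v) fun _ => ⟨fun b _ => b _, fun b r => up_val ℛ r ▸ b r.1⟩

instance {P : Ex E ℛ.R → (α → M) → Prop}
    [D E fun w : Option α → M => P (up ℛ (w none)) fun a => w (some a)] : D E fun v => ∃ r, P r v :=
  D.of (fun v => ∃ m, P (up ℛ m) v) fun _ => ⟨fun ⟨r, b⟩ => ⟨r.1, (up_val ℛ r).symm ▸ b⟩,
    fun ⟨_, b⟩ => ⟨_, b⟩⟩

end

theorem tR (G : M → Ex E ℛ.R) [T1 E fun m => (G m).1] {α : Type} {s : (α → M) → M} [T E s] :
    T E fun v => (G (s v)).1 := t1 fun m => (G m).1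

theorem tR2 (G : M → M → Ex E ℛ.R) [T2 E fun m n => (G m n).1] {α : Type} {s t : (α → M) → M}
    [T E s] [T E t] : T E fun v => (G (s v) (t v)).1 := t2 fun m n => (G m n).1

theorem dR (P : Ex E ℛ.R → Prop) [D1 E fun m => P (up ℛ m)] {α : Type} {s : (α → M) → Ex E ℛ.R}
    [T E fun v => (s v).1] : D E fun v => P (s v) :=
  @D.of _ _ _ _ (fun v => P (up ℛ (s v).1)) (l1 fun m => P (up ℛ m)) fun _ => by rw [up_val]

theorem tRR (f : Ex E ℛ.R → Ex E ℛ.R) [T1 E fun m => (f (up ℛ m)).1] {α : Type}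
    {s : (α → M) → Ex E ℛ.R} [T E fun v => (s v).1] : T E fun v => (f (s v)).1 :=
  @T.of _ _ _ _ (fun v => (f (up ℛ (s v).1)).1) (t1 fun m => (f (up ℛ m)).1) fun _ => by rw [up_val]

theorem intl_r {p : M → Prop} {φ : Subtype p → Ex E ℛ.R} (a : Intl E fun x => (φ x).1) :
    ∃ f : M → Ex E ℛ.R, (T1 E fun m => (f m).1) ∧ ∀ x, f x.1 = φ x :=
  a.elim fun f b => ⟨fun x => up ℛ (the x fun y => App E f x y), inferInstance, fun x => by
    show up ℛ (the _ _) = _
    rw [the_eq ((b x _).2 rfl) fun y => (b x y).1, up_val]⟩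

theorem intl2_r {p q : M → Prop} {φ : Subtype p → Subtype q → Ex E ℛ.R}
    (a : Intl2 E fun x y => (φ x y).1) :
    ∃ f : M → M → Ex E ℛ.R, (T2 E fun m n => (f m n).1) ∧ ∀ x y, f x.1 y.1 = φ x y :=
  let ⟨f, _, hf⟩ := intl2_t a
  have := @t2 _ E f _
  ⟨fun m n => up ℛ (f m n), inferInstance, fun x y => by show up ℛ _ = _; rw [hf, up_val]⟩

/-- supremum of a definable class of reals -/
noncomputable abbrev su (P : Ex E ℛ.R → Prop) : Ex E ℛ.R :=
  up ℛ (the ℛ.R fun z => E z ℛ.R ∧ (∀ p, P p → p ≤ up ℛ z) ∧ ∀ b, (∀ p, P p → p ≤ b) → up ℛ z ≤ b)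

variable {ℛ} (h : IsZF E)
include h

theorem intl_of {S W : M} (f : M → M) [T1 E f] (a : ∀ x, E x S → E (f x) W) :
    Intl E fun x : Ex E S => f x.1 :=
  have := @t1 _ E f _
  h.intl (R := fun x y => y = f x) D.df S W (·.2) (fun x => a x.1 x.2) fun _ _ _ => Iff.rfl

theorem intl2_of {S J W : M} (f : M → M → M) [T2 E f] (a : ∀ x y, E x S → E y J → E (f x y) W) :
    Intl2 E fun (x : Ex E S) (y : Ex E J) => f x.1 y.1 := by
  have := @t2 _ E f _
  obtain ⟨c, hc⟩ := ex_prod h S J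
  obtain ⟨g, hg⟩ := rel h (fun p z => ∃ x y, p = pr E x y ∧ z = f x y) c W
  refine ⟨g, fun x y z => ⟨fun ⟨p, b, d⟩ => ?_, fun b => ⟨_, pr_sp h _ _, (hg _ _).2
    ⟨hc _ _ x.2 y.2, b ▸ a _ _ x.2 y.2, _, _, rfl, b⟩⟩⟩⟩
  obtain ⟨-, -, u, v, e, rfl⟩ := (hg _ _).1 d
  obtain ⟨rfl, rfl⟩ := h.pair_inj b (e ▸ pr_sp h u v)
  rfl

theorem su_sp (P : Ex E ℛ.R → Prop) [D1 E fun m => P (up ℛ m)] {p b : Ex E ℛ.R} (a : P p)
    (c : ∀ p, P p → p ≤ b) : (∀ p, P p → p ≤ su ℛ P) ∧ ∀ b, (∀ p, P p → p ≤ b) → su ℛ P ≤ b := by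
  obtain ⟨S, hS⟩ := sep h (fun m => P (up ℛ m)) ℛ.R
  have e : ∀ x : Ex E ℛ.R, E x.1 S ↔ P x := fun x => by rw [hS, up_val]; exact and_iff_right x.2
  obtain ⟨s, s1, s2⟩ := ℛ.compl S ⟨p, (e p).2 a⟩ ⟨b, fun x d => c x ((e x).1 d)⟩
  refine (the_sp (Q := fun z => E z ℛ.R ∧ (∀ p, P p → p ≤ up ℛ z) ∧
    ∀ b, (∀ p, P p → p ≤ b) → up ℛ z ≤ b) ⟨s.1, s.2, ?_⟩ fun y z d f => ?_).2
  · rw [up_val]
    exact ⟨fun p d => s1 ((e p).2 d), fun b d => s2 fun x f => d x ((e x).1 f)⟩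
  · have := le_antisymm (d.2.2 _ f.2.1) (f.2.2 _ d.2.1)
    rw [show y = (⟨y, d.1⟩ : Ex E ℛ.R).1 from rfl, show z = (⟨z, f.1⟩ : Ex E ℛ.R).1 from rfl,
      up_val, up_val] at this
    exact congrArg Subtype.val this

end Pool.Agent.H40.Zt
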