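import Pool.Agent.H40.Zr9

set_option autoImplicit false
set_option synthInstance.maxSize 2000

/-! A Cantor scheme indexed by the reals of the model. -/

namespace Pool.Agent.H40.Zt

open Pool.Agent.H40.Bspt Pool.Agent.H40.Jz Classical

variable {M : Type} {E : M → M → Prop} {X Tp : M} (ℛ : Reals E) (h : IsZF E)
include h

theorem bits : ∃ b : M → M → Prop, D2 E b ∧ ∀ r s : Ex E ℛ.R,
    (∀ n, IsNat E n → (b r.1 n ↔ b s.1 n)) → r = s := by
  let u : Ex E ℛ.R → Ex E ℛ.R := fun r => (1 + r * (1 + |r|)⁻¹) * 2⁻¹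
  let v : Ex E ℛ.R → Ex E ℛ.R := fun w => if w < 2⁻¹ then 2 * w else 2 * w - 1
  have : T1 E fun z => (u (up ℛ z)).1 := inferInstance
  have : T3 E fun _ _ w => (v (up ℛ w)).1 := inferInstance
  obtain ⟨τ, _, t1, t2⟩ := iter h ℛ.R (fun z => (u (up ℛ z)).1) (fun _ _ w => (v (up ℛ w)).1)
    (fun z => (u (up ℛ z)).2) fun _ _ w _ => (v (up ℛ w)).2
  have := @Zt.t2 _ E τ _
  have p : ∀ r : Ex E ℛ.R, 0 < 1 + |r| := fun r => by positivity
  have u1 : ∀ r, 0 ≤ u r ∧ u r < 1 := fun r => by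
    have a : -1 ≤ r * (1 + |r|)⁻¹ := (le_mul_inv_iff₀ (p r)).2 (by linarith [neg_abs_le r])
    have b : r * (1 + |r|)⁻¹ < 1 := (mul_inv_lt_iff₀ (p r)).2 (by linarith [le_abs_self r])
    exact ⟨by simp only [u]; linarith, by simp only [u]; linarith⟩
  have u2 : ∀ r s, r < s → u r < u s := fun r s a => by
    have : r * (1 + |r|)⁻¹ < s * (1 + |s|)⁻¹ := by
      rw [← div_eq_mul_inv, ← div_eq_mul_inv, div_lt_div_iff₀ (p r) (p s)]
      rcases abs_cases r with b | b <;> rcases abs_cases s with c | c <;> rw [b.1, c.1] <;>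
        nlinarith [b.2, c.2]
    simp only [u]; linarith
  have : ∀ z, D1 E fun n => 0 ≤ up ℛ (τ z n) ∧ up ℛ (τ z n) < 1 := fun z => inferInstance
  have t3 : ∀ z n, IsNat E n → 0 ≤ up ℛ (τ z n) ∧ up ℛ (τ z n) < 1 := fun z =>
    natI h (fun n => 0 ≤ up ℛ (τ z n) ∧ up ℛ (τ z n) < 1)
      (fun o a => by rw [t1 z o a, up_val]; exact u1 _) fun n a b => by
        rw [t2 z n a, up_val]
        simp only [v]
        split_ifs with c
        exacts [⟨by linarith, by linarith⟩, ⟨by linarith, by linarith⟩]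
  have k : ∀ r s : Ex E ℛ.R, (∀ n, IsNat E n → (up ℛ (τ r.1 n) < 2⁻¹ ↔ up ℛ (τ s.1 n) < 2⁻¹)) →
      ¬ r < s := fun r s a b => by
    obtain ⟨o, ho⟩ := h.emp
    obtain ⟨ρ, ⟨n, c, d⟩, e⟩ := dbl h (fun ρ => ∃ n, IsNat E n ∧ ρ ≤ up ℛ (τ s.1 n) - up ℛ (τ r.1 n))
      (sub_pos.2 (u2 r s b)) ⟨o, h.nat0 ho, by rw [t1 _ o ho, t1 _ o ho]; simp only [up_val, le_refl]⟩
      (fun ρ ⟨n, c, d⟩ => ⟨_, nat_sc h c, by
        rw [t2 _ n c, t2 _ n c, up_val, up_val]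
        simp only [v, a n c]
        split_ifs <;> linarith⟩) 1
    linarith [(t3 s.1 n c).2, (t3 r.1 n c).1]
  exact ⟨fun z n => up ℛ (τ z n) < 2⁻¹, by infer_instance, fun r s a =>
    le_antisymm (le_of_not_gt (k s r fun n b => (a n b).symm)) (le_of_not_gt (k r s a))⟩

variable (t : IsTop E X Tp) (c : Compact E X Tp) (t2 : Jz.T2 E X Tp) {N : M → M → M}
  (nb : NB E X Tp N) [T2 E N]
include t c t2 nb

theorem cantor (Q : M → Prop) (ch : M → M) [D1 E Q] [T1 E ch] (q0 : ∃ q, Q q)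
    (q1 : ∀ q, Q q → E q X) (q2 : ∀ q U, Q q → E U Tp → E q U → ∃ y, E y U ∧ Q y ∧ y ≠ q)
    (q3 : ∀ Y, (∃ y, E y Y ∧ Q y) → E (ch Y) Y ∧ Q (ch Y)) (b : M → M → Prop) [D2 E b] :
    ∃ φ : M → M, T1 E φ ∧ (∀ z, E (φ z) X) ∧
      ∀ z z', φ z = φ z' → ∀ n, IsNat E n → (b z n ↔ b z' n) := by
  have := @l1 _ E Q _
  have := @l2 _ E b _
  have := @t1 _ E ch _
  have := @Zt.t2 _ E N _
  let p1 : M → M := fun w => the w fun a => ∃ b, w = pr E a b
  let p2 : M → M := fun w => the w fun b => ∃ a, w = pr E a b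
  have e1 : ∀ a b, p1 (pr E a b) = a := fun a b => the_eq ⟨b, rfl⟩ fun _ ⟨_, e⟩ => (pr_inj h e).1.symm
  have e2 : ∀ a b, p2 (pr E a b) = b := fun a b => the_eq ⟨a, rfl⟩ fun _ ⟨_, e⟩ => (pr_inj h e).2.symm
  have : T1 E p1 := inferInstance
  have : T1 E p2 := inferInstance
  clear_value p1 p2
  have := @t1 _ E p1 _
  have := @t1 _ E p2 _
  let f : M → M := fun w => ch (st E (N (p2 w) (p1 w)) fun y => y ≠ p1 w)
  let G : M → M → Prop := fun w k => E (p2 w) k ∧ (∀ q, q = p1 w ∨ q = f w → ∀ z,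
    Cl E X Tp (E · (N k q)) z → E z (N (p2 w) (p1 w))) ∧
      ∀ z, Cl E X Tp (E · (N k (p1 w))) z → ¬ Cl E X Tp (E · (N k (f w))) z
  let g : M → M := fun w => lst E w (G w)
  have g1 : ∀ w, Q (p1 w) → IsNat E (p2 w) → Q (f w) ∧ IsNat E (g w) ∧ G w (g w) := fun w a d => by
    have i := nb.op _ (p1 w) d
    have j := nb.me (p2 w) _ (q1 _ a)
    obtain ⟨y, k⟩ := q2 _ _ a i j
    obtain ⟨l, m⟩ := q3 (st E (N (p2 w) (p1 w)) fun y => y ≠ p1 w)
      ⟨y, (mem_st h).2 ⟨k.1, k.2.2⟩, k.2.1⟩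
    rw [mem_st h] at l
    obtain ⟨n, o, p⟩ := Ev.ex h (Ev.and h (ev_gt d) (Ev.and h (Ev.and h (nb_reg h t c t2 nb i j)
      (nb_reg h t c t2 nb i l.1)) (nb_sep h t c t2 nb (q1 _ a) (q1 _ m) l.2.symm)))
    exact ⟨m, lst_sp h (G w) o ⟨p.1, fun q r => r.elim (· ▸ p.2.1.1) (· ▸ p.2.1.2), p.2.2⟩⟩
  have : T1 E f := inferInstance
  have : T1 E g := inferInstance
  have g2 : ∀ w, Q (p1 w) → IsNat E (p2 w) → Q (f w) ∧ IsNat E (g w) ∧ E (p2 w) (g w) ∧
      (∀ q, q = p1 w ∨ q = f w → ∀ z, Cl E X Tp (E · (N (g w) q)) z → E z (N (p2 w) (p1 w))) ∧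
      ∀ z, Cl E X Tp (E · (N (g w) (p1 w))) z → ¬ Cl E X Tp (E · (N (g w) (f w))) z := g1
  clear g1
  clear_value g
  clear G
  clear_value f
  have := @t1 _ E f _
  have := @t1 _ E g _
  obtain ⟨ω, hω⟩ := h.omega'
  obtain ⟨C, hC⟩ := ex_prod h X ω
  obtain ⟨W, hW⟩ := sep h (fun w => Q (p1 w) ∧ IsNat E (p2 w)) C
  have w1 : ∀ q j, Q q → IsNat E j → E (pr E q j) W := fun q j a d =>
    (hW _).2 ⟨hC _ _ (q1 q a) ((hω j).2 d), by rw [e1, e2]; exact ⟨a, d⟩⟩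
  obtain ⟨q, hq⟩ := q0
  obtain ⟨o, ho⟩ := h.emp
  have w2 : ∀ z n w, E w W → E (pr E (if b z n then p1 w else f w) (g w)) W := fun z n w a => by
    have d := ((hW w).1 a).2
    refine w1 _ _ ?_ (g2 w d.1 d.2).2.1
    split_ifs
    exacts [d.1, (g2 w d.1 d.2).1]
  obtain ⟨s, _, s1, s2⟩ := iter h W (fun _ => pr E q o)
    (fun z n w => pr E (if b z n then p1 w else f w) (g w)) (fun _ => w1 q o hq (h.nat0 ho)) w2
  have := @Zt.t2 _ E s _
  have s3 : ∀ z n, IsNat E n → Q (p1 (s z n)) ∧ IsNat E (p2 (s z n)) := fun z n a =>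
    ((hW _).1 (natI h (fun n => E (s z n) W) (fun o' a => s1 z o' a ▸ w1 q o hq (h.nat0 ho))
      (fun n a d => s2 z n a ▸ w2 z n _ d) n a)).2
  have s4 := fun z n a => g2 _ (s3 z n a).1 (s3 z n a).2
  have s5 : ∀ z n, IsNat E n → p2 (s z (sc E n)) = g (s z n) := fun z n a => by rw [s2 z n a, e2]
  have s6 : ∀ z n, IsNat E n → p1 (s z (sc E n)) = if b z n then p1 (s z n) else f (s z n) :=
    fun z n a => by rw [s2 z n a, e1]
  have s7 : ∀ z i, IsNat E i → E i (p2 (s z (sc E i))) := fun z =>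
    natI h (fun i => E i (p2 (s z (sc E i)))) (fun i a => by
      have d := h.nat0 a
      rw [s5 z i d]
      exact (tri h d (s4 z i d).2.1).resolve_right (·.elim (fun e => a _ ((congrArg (E _) e).mpr (s4 z i d).2.2.1))
        (a _))) fun i a d => by
      have e := nat_sc h a
      have k := s4 z _ e
      rw [s5 z _ e]
      rcases tri h e (s3 z _ e).2 with l | l | l
      · exact ntr h k.2.1 l k.2.2.1
      · exact (congrArg (E · _) l).mpr k.2.2.1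
      · exact absurd (((mem_sc h).1 l).elim (ntr h a d) fun m => (congrArg (E i) m).mp d) (h.irr i)
  have s8 : ∀ z, ∀ n, IsNat E n → Cl E X Tp (E · (N (p2 (s z n)) (p1 (s z n))))
      (the z fun x => ∀ n, IsNat E n → Cl E X Tp (E · (N (p2 (s z n)) (p1 (s z n)))) x) := fun z =>
    the_sp (Q := fun x => ∀ n, IsNat E n → Cl E X Tp (E · (N (p2 (s z n)) (p1 (s z n)))) x)
      (nest h t c (fun n y => E y (N (p2 (s z n)) (p1 (s z n)))) (fun n x a d => by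
        refine (s4 z n a).2.2.2.1 (p1 (s z (sc E n))) ?_ x (cl_of
          (t.1 _ (nb.op _ _ (s3 z _ (nat_sc h a)).2) x d) (s5 z n a ▸ d))
        rw [s6 z n a]
        split_ifs
        exacts [Or.inl rfl, Or.inr rfl]) fun n a =>
          ⟨_, q1 _ (s3 z n a).1, nb.me _ _ (q1 _ (s3 z n a).1)⟩) fun x y a d => by_contra fun e => by
      obtain ⟨i, j, k⟩ := nb_uq h t c t2 nb (a o (h.nat0 ho)).1 (d o (h.nat0 ho)).1 e
      have l := nat_sc h j
      exact k _ (s3 z _ l).2 (s7 z i j) _ (q1 _ (s3 z _ l).1) (a _ l) (d _ l)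
  refine ⟨fun z => the z fun x => ∀ n, IsNat E n → Cl E X Tp (E · (N (p2 (s z n)) (p1 (s z n)))) x,
    inferInstance, fun z => (s8 z o (h.nat0 ho)).1, fun z z' e => ?_⟩
  have k : ∀ n, IsNat E n → s z n = s z' n → (b z n ↔ b z' n) := fun n a d => by
    have i := s8 z _ (nat_sc h a)
    have j := s8 z' _ (nat_sc h a)
    beta_reduce at e
    rw [← e, s5 _ n a, s6 _ n a, ← d] at j
    rw [s5 _ n a, s6 _ n a] at i
    have l := (s4 z n a).2.2.2.2
    refine ⟨fun m => by_contra fun p => ?_, fun m => by_contra fun p => ?_⟩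
    · rw [if_pos m] at i
      rw [if_neg p] at j
      exact l _ i j
    · rw [if_neg p] at i
      rw [if_pos m] at j
      exact l _ j i
  exact fun n a => k n a (natI h (fun n => s z n = s z' n) (fun o a => (s1 z o a).trans
    (s1 z' o a).symm) (fun n a d => by rw [s2 z n a, s2 z' n a, ← d]; simp only [k n a d]) n a)

end Pool.Agent.H40.Zt
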