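import Pool.Agent.H40.Zr8

set_option autoImplicit false
set_option synthInstance.maxSize 2000

/-! Coding subsets of `ω` by reals, and dense sets indexed by reals. -/

namespace Pool.Agent.H40.Zt

open Pool.Agent.H40.Bspt Pool.Agent.H40.Jz Classical

variable {M : Type} {E : M → M → Prop} (ℛ : Reals E) (h : IsZF E)
include h

theorem ex_c : ∃ c : M → Ex E ℛ.R, (T1 E fun n => (c n).1) ∧ (∀ n, IsNat E n → 0 < c n) ∧
    (∀ n, IsNat E n → c (sc E n) = c n * 3⁻¹) ∧ ∀ ε > 0, ∃ n, IsNat E n ∧ c n < ε := by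
  have : T3 E fun _ _ w => (up ℛ w * 3⁻¹).1 := inferInstance
  obtain ⟨τ, _, t1, t2⟩ := iter h ℛ.R (fun _ => (1 : Ex E ℛ.R).1) (fun _ _ w => (up ℛ w * 3⁻¹).1)
    (fun _ => (1 : Ex E ℛ.R).2) fun _ _ w _ => (up ℛ w * 3⁻¹).2
  have := @Zt.t2 _ E τ _
  have a : ∀ n, IsNat E n → up ℛ (τ ℛ.R (sc E n)) = up ℛ (τ ℛ.R n) * 3⁻¹ := fun n a => by
    rw [t2 _ n a, up_val]
  have : D1 E fun n => 0 < up ℛ (τ ℛ.R n) := inferInstance
  have b := natI h (fun n => 0 < up ℛ (τ ℛ.R n)) (fun o b => by rw [t1 _ o b, up_val]; exact one_pos)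
    fun n b c => by rw [a n b]; positivity
  refine ⟨fun n => up ℛ (τ ℛ.R n), inferInstance, b, a, fun ε e => ?_⟩
  obtain ⟨o, ho⟩ := h.emp
  have : D1 E fun m => ∃ n, IsNat E n ∧ up ℛ m * up ℛ (τ ℛ.R n) ≤ 1 := inferInstance
  obtain ⟨ρ, ⟨n, c, d⟩, f⟩ := dbl h (fun ρ => ∃ n, IsNat E n ∧ ρ * up ℛ (τ ℛ.R n) ≤ 1) one_pos
    ⟨o, h.nat0 ho, by rw [t1 _ o ho, up_val, one_mul]⟩ (fun ρ ⟨n, c, d⟩ => ⟨_, nat_sc h c, by
      rw [a n c]; linarith⟩) ε⁻¹
  refine ⟨n, c, lt_of_not_ge fun g => ?_⟩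
  have := mul_lt_mul_of_pos_right f (b n c)
  have := mul_le_mul_of_nonneg_left g (inv_pos.2 e).le
  rw [inv_mul_cancel₀ e.ne'] at this
  linarith

theorem ex_code : ∃ f : M → Ex E ℛ.R, (T1 E fun n => (f n).1) ∧ ∀ A B, (∀ n, E n A → IsNat E n) →
    (∀ n, E n B → IsNat E n) → f A = f B → A = B := by
  obtain ⟨c, _, c1, c2, -⟩ := ex_c ℛ h
  have := @tR _ _ ℛ c _
  have : T3 E fun A n w => (up ℛ w + if E n A then c n else 0).1 := inferInstance
  obtain ⟨τ, _, t1, t2⟩ := iter h ℛ.R (fun _ => (0 : Ex E ℛ.R).1)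
    (fun A n w => (up ℛ w + if E n A then c n else 0).1) (fun _ => (0 : Ex E ℛ.R).2)
    fun A n w _ => (up ℛ w + if E n A then c n else 0).2
  have := @Zt.t2 _ E τ _
  let g : M → M → Ex E ℛ.R := fun A n => up ℛ (τ A n)
  have g1 : ∀ A o, (∀ y, ¬ E y o) → g A o = 0 := fun A o a => by simp only [g, t1 A o a, up_val]
  have g2 : ∀ A n, IsNat E n → g A (sc E n) = g A n + if E n A then c n else 0 := fun A n a => by
    simp only [g, t2 A n a, up_val]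
  have : T2 E fun A n => (g A n).1 := inferInstance
  clear_value g
  have := @tR2 _ _ ℛ g _
  have g3 : ∀ A m n, IsNat E m → IsNat E n → g A m ≤ g A n + c n * (3 / 2) := fun A m n a b => by
    have := c1 n b
    rcases tri h a b with d | rfl | d
    · have := chain h (fun n x => g A n ≤ up ℛ x) (x := (g A n).1) (fun n x a b => by
        rw [g2 A n a] at b; split_ifs at b <;> linarith [c1 n a]) b d (by rw [up_val])
      rw [up_val] at this
      linarith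
    · linarith
    · have : D2 E fun n x => up ℛ x ≤ g A n + c n * (3 / 2) := inferInstance
      have := chain h (fun n x => up ℛ x ≤ g A n + c n * (3 / 2)) (x := (g A m).1) (fun n x a b => by
        rw [g2 A n a, c2 n a] at b; split_ifs at b <;> linarith [c1 n a]) a d
        (by rw [up_val]; linarith [c1 m a])
      rwa [up_val] at this
  obtain ⟨o, ho⟩ := h.emp
  have s := fun A => su_sp h (fun p => ∃ n, IsNat E n ∧ p = g A n) ⟨o, h.nat0 ho, rfl⟩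
    fun p ⟨n, a, b⟩ => b ▸ g3 A n o a (h.nat0 ho)
  refine ⟨fun A => su ℛ fun p => ∃ n, IsNat E n ∧ p = g A n, inferInstance, fun A B a b e => ?_⟩
  have k : ∀ A B n, IsNat E n → g A n = g B n → E n A → ¬ E n B → (su ℛ fun p => ∃ n, IsNat E n ∧
      p = g B n) < su ℛ fun p => ∃ n, IsNat E n ∧ p = g A n := fun A B n a b d e => by
    have i := (s A).1 _ ⟨_, nat_sc h a, rfl⟩
    have j := (s B).2 _ fun p ⟨m, f, i⟩ => i ▸ g3 B m _ f (nat_sc h a)
    rw [g2 _ n a, if_pos d] at i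
    rw [g2 _ n a, if_neg e, c2 n a] at j
    linarith [c1 n a]
  have l : ∀ n, IsNat E n → g A n = g B n → (E n A ↔ E n B) := fun n a b =>
    ⟨fun d => by_contra fun i => (k A B n a b d i).ne' e,
      fun d => by_contra fun i => (k B A n a b.symm d i).ne e⟩
  have m := natI h (fun n => g A n = g B n) (fun o a => by rw [g1 A o a, g1 B o a])
    fun n a b => by rw [g2 A n a, g2 B n a, b]; simp only [l n a b]
  exact h.ext _ _ fun n => ⟨fun d => (l n (a n d) (m n (a n d))).1 d,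
    fun d => (l n (b n d) (m n (b n d))).2 d⟩

theorem ex_code2 : ∃ f : M → M → Ex E ℛ.R, (T2 E fun j A => (f j A).1) ∧ ∀ i j A B, IsNat E i →
    IsNat E j → (∀ n, E n A → IsNat E n) → (∀ n, E n B → IsNat E n) → f i A = f j B →
      i = j ∧ A = B := by
  obtain ⟨f, _, f1⟩ := ex_code ℛ h
  have := @tR _ _ ℛ f _
  obtain ⟨w, hw⟩ := h.omega'
  obtain ⟨o, ho⟩ := h.emp
  have p := h.nat0 ho
  let b : M → M → M := fun j A => st E w fun n => n = pi E j o ∨ ∃ a, E a A ∧ n = pi E j (sc E a)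
  have b1 : ∀ j A n, E n (b j A) ↔ E n w ∧ (n = pi E j o ∨ ∃ a, E a A ∧ n = pi E j (sc E a)) :=
    fun j A n => mem_st h
  refine ⟨fun j A => f (b j A), inferInstance, fun i j A B c d a a' e => ?_⟩
  have e := f1 _ _ (fun n g => (hw n).1 ((b1 _ _ _).1 g).1) (fun n g => (hw n).1 ((b1 _ _ _).1 g).1) e
  obtain rfl : i = j := ((b1 _ _ _).1 (e ▸ (b1 i A _).2 ⟨(hw _).2 (pi_nat h c p), Or.inl rfl⟩)).2.elim
    (fun g => (pi_inj h c p d p g).1) fun ⟨x, g, k⟩ => (pi_inj h c p d (nat_sc h (a' x g)) k).1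
  have k : ∀ A B, (∀ n, E n A → IsNat E n) → (∀ n, E n B → IsNat E n) → b i A = b i B → Sub E A B :=
    fun A B a a' e x g => ((b1 _ _ _).1 (e ▸ (b1 i A _).2 ⟨(hw _).2 (pi_nat h c (nat_sc h (a x g))),
      Or.inr ⟨x, g, rfl⟩⟩)).2.elim (fun k => absurd ((pi_inj h c (nat_sc h (a x g)) c p k).2 ▸
        self_sc h x) (ho x)) fun ⟨y, k, l⟩ => sc_inj h (a x g)
          (pi_inj h c (nat_sc h (a x g)) c (nat_sc h (a' y k)) l).2 ▸ k
  exact ⟨rfl, h.ext _ _ fun x => ⟨k A B a a' e x, k B A a' a e.symm x⟩⟩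

/-- a totally bounded space covered by well-ordered many images of `𝒫(ω)` has a dense subset
indexed by the reals -/
theorem dense_r {X K : M} (d : M → M → Ex E ℛ.R) [T2 E fun a b => (d a b).1]
    (ds : ∀ x y, E x X → E y X → d x y = d y x)
    (dt : ∀ x y z, E x X → E y X → E z X → d x z ≤ d x y + d y z)
    (tb : ∀ ε > 0, ∃ F, IsFin E F ∧ ∀ x, E x X → ∃ u, E u F ∧ E u X ∧ d u x < ε)
    (d0 : ∀ x, E x X → d x x = 0) (kt : ∀ x y, E x K → E y K → E x y ∨ x = y ∨ E y x)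
    (Pt : M → M → M → Prop) [D3 E Pt] (p1 : ∀ α A x y, E x X → E y X → Pt α A x → Pt α A y → x = y)
    (p2 : ∀ x, E x X → ∃ α A, E α K ∧ (∀ n, E n A → IsNat E n) ∧ Pt α A x) :
    ∃ pt : M → M, T1 E pt ∧ ∀ x, E x X → ∀ ε > 0, ∃ r : Ex E ℛ.R, E (pt r.1) X ∧ d (pt r.1) x < ε := by
  have := @tR2 _ _ ℛ d _
  have := @l3 _ E Pt _
  obtain ⟨c, _, c1, -, c2⟩ := ex_c ℛ h
  have := @tR _ _ ℛ c _
  obtain ⟨f, _, f1⟩ := ex_code2 ℛ h
  have := @tR2 _ _ ℛ f _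
  let Q : M → M → Prop := fun α p => E α K ∧ E p X ∧ ∃ A, (∀ n, E n A → IsNat E n) ∧ Pt α A p
  have : D2 E Q := inferInstance
  have := @l2 _ E Q _
  let Nw : M → M → M → Prop := fun m α p => Q α p ∧ ∀ β q, E β α → Q β q → c m ≤ d p q
  have : D3 E Nw := inferInstance
  have := @l3 _ E Nw _
  have n1 : ∀ m, IsNat E m → Few E fun α => ∃ p, Nw m α p := fun m a => by
    obtain ⟨F, b, e⟩ := tb _ (half_pos (c1 m a))
    refine few_un h (fun u α => E u X ∧ ∃ p, Nw m α p ∧ d u p < c m * 2⁻¹) (fin_few b) (fun u =>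
      few_one h fun α β ⟨i, p, j, k⟩ ⟨_, q, l, n⟩ => ?_) fun α ⟨p, i⟩ => (e p i.1.2.1).imp fun u j =>
        ⟨j.1, j.2.1, p, i, by linarith [j.2.2]⟩
    have := dt p u q j.1.2.1 i l.1.2.1
    have := ds p u j.1.2.1 i
    have := ds p q j.1.2.1 l.1.2.1
    rcases kt α β j.1.1 l.1.1 with o | o | o
    exacts [by linarith [l.2 α p o j.1], o, by linarith [j.2 β q o l.1]]
  let ps : M → M → M := fun m α => cnt E α fun β => (∃ p, Nw m β p) ∧ E β α
  have n2 : ∀ m α, IsNat E m → IsNat E (ps m α) := fun m α a =>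
    cnt_nat h (few_mono (n1 m a) fun _ => And.left)
  have n3 : ∀ m α β p q, IsNat E m → Nw m α p → Nw m β q → ps m α = ps m β → α = β := by
    have k : ∀ m α β p q, IsNat E m → Nw m α p → Nw m β q → E α β → E (ps m α) (ps m β) :=
      fun m α β p q a b e g => cnt_lt h (y := α) (few_mono (n1 m a) fun _ => And.left)
        (fun γ ⟨⟨u, i⟩, j⟩ => ⟨⟨u, i⟩, (kt γ β i.1.1 e.1.1).elim id fun l => by
          obtain ⟨S, hS⟩ := sep h (fun z => z = α ∨ z = β ∨ z = γ) K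
          obtain ⟨z, o, s⟩ := h.found S ⟨α, (hS α).2 ⟨b.1.1, Or.inl rfl⟩⟩
          rcases ((hS z).1 o).2 with rfl | rfl | rfl
          · exact absurd ((hS γ).2 ⟨i.1.1, Or.inr (Or.inr rfl)⟩) (s γ j)
          · exact absurd ((hS α).2 ⟨b.1.1, Or.inl rfl⟩) (s α g)
          · exact l.elim (fun l => absurd ((hS α).2 ⟨b.1.1, Or.inl rfl⟩) (s α (l ▸ g)))
              fun l => absurd ((hS β).2 ⟨e.1.1, Or.inr (Or.inl rfl)⟩) (s β l)⟩) ⟨⟨p, b⟩, g⟩
        fun i => h.irr _ i.2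
    intro m α β p q a b e g
    rcases kt α β b.1.1 e.1.1 with o | o | o
    exacts [absurd (g ▸ k m α β p q a b e o) (h.irr _), o, absurd (g ▸ k m β α q p a e b o) (h.irr _)]
  have : T2 E ps := inferInstance
  clear_value ps
  have := @Zt.t2 _ E ps _
  let Cd : M → M → Prop := fun r p => E p X ∧ ∃ m α A, IsNat E m ∧ (∃ q, Nw m α q) ∧
    (∀ n, E n A → IsNat E n) ∧ Pt α A p ∧ (f (pi E m (ps m α)) A).1 = r
  refine ⟨fun r => the X (Cd r), inferInstance, fun x a ε e => ?_⟩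
  obtain ⟨S, hS⟩ := sep h (fun α => ∃ p, Q α p ∧ d p x < ε) K
  obtain ⟨α, b, g⟩ := h.found S ((p2 x a).imp fun α ⟨A, b, c⟩ =>
    (hS α).2 ⟨b, x, ⟨b, a, A, c⟩, (d0 x a).trans_lt e⟩)
  obtain ⟨-, p, i, j⟩ := (hS α).1 b
  obtain ⟨m, k, l⟩ := c2 _ (sub_pos.2 j)
  have n : Nw m α p := ⟨i, fun β q n o => by
    have : ε ≤ d q x := le_of_not_gt fun s => g β n ((hS β).2 ⟨o.1, q, o, s⟩)
    linarith [dt q p x o.2.1 i.2.1 a, ds p q i.2.1 o.2.1]⟩
  obtain ⟨-, i1, A, i2, i3⟩ := i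
  have : the X (Cd (f (pi E m (ps m α)) A).1) = p := the_eq ⟨i1, m, α, A, k, ⟨p, n⟩, i2, i3, rfl⟩
    fun z ⟨o, m', α', A', q1, ⟨q, q2⟩, q3, q4, q5⟩ => by
      obtain ⟨s, rfl⟩ := f1 _ _ _ _ (pi_nat h q1 (n2 _ _ q1)) (pi_nat h k (n2 _ _ k)) q3 i2
        (Subtype.ext q5)
      obtain ⟨rfl, s⟩ := pi_inj h q1 (n2 _ _ q1) k (n2 _ _ k) s
      obtain rfl := n3 _ _ _ _ _ k q2 n s
      exact p1 _ _ _ _ o i1 q4 i3
  exact ⟨f (pi E m (ps m α)) A, by beta_reduce; rw [this]; exact ⟨i1, j⟩⟩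

end Pool.Agent.H40.Zt
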