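import Pool.Agent.H40.Zr11

set_option autoImplicit false
set_option synthInstance.maxSize 2000

/-! Compact metric spaces with a well-ordered network of small sets are separable. -/

namespace Pool.Agent.H40.Zt

open Pool.Agent.H40.Bspt Pool.Agent.H40.Jz Classical

variable {M : Type} {E : M → M → Prop} (h : IsZF E)
include h

theorem ctbl_of {a : M} (R : M → M → Prop) [D2 E R] (t : ∀ x, E x a → ∃ m, IsNat E m ∧ R x m)
    (i : ∀ x y m, E x a → E y a → R x m → R y m → x = y) : Ctbl E a := by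
  have := @l2 _ E R _
  obtain ⟨w, hw⟩ := h.omega'
  have k : ∀ x, E x a → IsNat E (lst E x (R x)) ∧ R x (lst E x (R x)) := fun x b =>
    (t x b).elim fun m c => lst_sp h (R x) c.1 c.2
  exact ⟨fun x => ⟨_, (k x.1 x.2).1⟩, intl_of h (fun x => lst E x (R x)) fun x b => (hw _).2 (k x b).1,
    fun x y e => Subtype.ext (i _ _ _ x.2 y.2 (k _ x.2).2 ((show lst E x.1 (R x.1) = lst E y.1 (R y.1)
      from congrArg Subtype.val e) ▸ (k _ y.2).2))⟩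

theorem kmin {K d : M} (kt : ∀ x y, E x K → E y K → E x y ∨ x = y ∨ E y x) (P : M → Prop) [D1 E P]
    (a : ∃ x, E x K ∧ P x) : P (the d fun x => (E x K ∧ P x) ∧ ∀ y, E y x → ¬ (E y K ∧ P y)) := by
  obtain ⟨S, hS⟩ := sep h P K
  obtain ⟨z, b, c⟩ := h.found S (a.imp fun x b => (hS x).2 b)
  exact (the_sp (Q := fun x => (E x K ∧ P x) ∧ ∀ y, E y x → ¬ (E y K ∧ P y))
    ⟨z, (hS z).1 b, fun y e f => c y e ((hS y).2 f)⟩ fun x y e f => (kt x y e.1.1 f.1.1).elim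
      (fun g => absurd e.1 (f.2 x g)) (·.elim id fun g => absurd f.1 (e.2 y g))).1.2

variable {ℛ : Reals E} {X K : M} (d : M → M → Ex E ℛ.R) [T2 E fun a b => (d a b).1]
  (ds : ∀ x y, E x X → E y X → d x y = d y x)
  (dt : ∀ x y z, E x X → E y X → E z X → d x z ≤ d x y + d y z)
  (kt : ∀ x y, E x K → E y K → E x y ∨ x = y ∨ E y x)
include ds dt kt

theorem dense_n (tb : ∀ ε > 0, ∃ F, IsFin E F ∧ ∀ x, E x X → ∃ u, E u F ∧ E u X ∧ d u x < ε)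
    (Pt : M → M → Prop) [D2 E Pt] (p1 : ∀ α x y, E x X → E y X → Pt α x → Pt α y → x = y)
    (p2 : ∀ x, E x X → ∀ ε > 0, ∃ α p, (E α K ∧ E p X ∧ Pt α p) ∧ d p x < ε) :
    ∃ D, Sub E D X ∧ Ctbl E D ∧ ∀ x, E x X → ∀ ε > 0, ∃ p, E p D ∧ d p x < ε := by
  have := @tR2 _ _ ℛ d _
  have := @l2 _ E Pt _
  obtain ⟨c, _, c1, -, c2⟩ := ex_c ℛ h
  have := @tR _ _ ℛ c _
  let Q : M → M → Prop := fun α p => E α K ∧ E p X ∧ Pt α p
  have : D2 E Q := inferInstance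
  have := @l2 _ E Q _
  let Nw : M → M → M → Prop := fun m α p => Q α p ∧ ∀ β q, E β α → Q β q → c m ≤ d p q
  have : D3 E Nw := inferInstance
  have := @l3 _ E Nw _
  have n1 : ∀ m, IsNat E m → Few E fun α => ∃ p, Nw m α p := fun m a => by
    obtain ⟨F, b, e⟩ := tb _ (half_pos (c1 m a))
    refine few_un h (fun u α => E u X ∧ ∃ p, Nw m α p ∧ d u p < c m * 2⁻¹) (fin_few b) (fun u =>
      few_one h fun α β ⟨i, p, j, k⟩ ⟨_, q, l, n⟩ => ?_) fun α ⟨p, i⟩ => (e p i.1.2.1).imp fun u j =>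
        ⟨j.1, j.2.1, p, i, by linarith [j.2.2]⟩
    have := dt p u q j.1.2.1 i l.1.2.1
    have := ds p u j.1.2.1 i
    have := ds p q j.1.2.1 l.1.2.1
    rcases kt α β j.1.1 l.1.1 with o | o | o
    exacts [by linarith [l.2 α p o j.1], o, by linarith [j.2 β q o l.1]]
  let ps : M → M → M := fun m α => cnt E α fun β => (∃ p, Nw m β p) ∧ E β α
  have n2 : ∀ m α, IsNat E m → IsNat E (ps m α) := fun m α a =>
    cnt_nat h (few_mono (n1 m a) fun _ => And.left)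
  have n3 : ∀ m α β p q, IsNat E m → Nw m α p → Nw m β q → ps m α = ps m β → α = β := by
    have k : ∀ m α β p q, IsNat E m → Nw m α p → Nw m β q → E α β → E (ps m α) (ps m β) :=
      fun m α β p q a b e g => cnt_lt h (y := α) (few_mono (n1 m a) fun _ => And.left)
        (fun γ ⟨⟨u, i⟩, j⟩ => ⟨⟨u, i⟩, (kt γ β i.1.1 e.1.1).elim id fun l => by
          obtain ⟨S, hS⟩ := sep h (fun z => z = α ∨ z = β ∨ z = γ) K
          obtain ⟨z, o, s⟩ := h.found S ⟨α, (hS α).2 ⟨b.1.1, Or.inl rfl⟩⟩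
          rcases ((hS z).1 o).2 with rfl | rfl | rfl
          · exact absurd ((hS γ).2 ⟨i.1.1, Or.inr (Or.inr rfl)⟩) (s γ j)
          · exact absurd ((hS α).2 ⟨b.1.1, Or.inl rfl⟩) (s α g)
          · exact l.elim (fun l => absurd ((hS α).2 ⟨b.1.1, Or.inl rfl⟩) (s α (l ▸ g)))
              fun l => absurd ((hS β).2 ⟨e.1.1, Or.inr (Or.inl rfl)⟩) (s β l)⟩) ⟨⟨p, b⟩, g⟩
        fun i => h.irr _ i.2
    intro m α β p q a b e g
    rcases kt α β b.1.1 e.1.1 with o | o | o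
    exacts [absurd (g ▸ k m α β p q a b e o) (h.irr _), o, absurd (g ▸ k m β α q p a e b o) (h.irr _)]
  have : T2 E ps := inferInstance
  clear_value ps
  have := @Zt.t2 _ E ps _
  obtain ⟨D, hD⟩ := sep h (fun p => ∃ m α, IsNat E m ∧ Nw m α p) X
  refine ⟨D, fun p a => ((hD p).1 a).1, ctbl_of h (fun p k => ∃ m α, IsNat E m ∧ Nw m α p ∧
    k = pi E m (ps m α)) (fun p a => let ⟨m, α, b, e⟩ := ((hD p).1 a).2
      ⟨_, pi_nat h b (n2 _ _ b), m, α, b, e, rfl⟩)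
    (fun p q k _ _ ⟨m, α, a, b, e⟩ ⟨n, β, f, g, i⟩ => ?_), fun x a ε e => ?_⟩
  · obtain ⟨rfl, s⟩ := pi_inj h a (n2 _ _ a) f (n2 _ _ f) (e.symm.trans i)
    obtain rfl := n3 _ _ _ _ _ a b g s
    exact p1 _ _ _ b.1.2.1 g.1.2.1 b.1.2.2 g.1.2.2
  obtain ⟨S, hS⟩ := sep h (fun α => ∃ p, Q α p ∧ d p x < ε) K
  obtain ⟨α, b, g⟩ := h.found S ((p2 x a ε e).imp fun α ⟨p, b⟩ => (hS α).2 ⟨b.1.1, p, b⟩)
  obtain ⟨-, p, i, j⟩ := (hS α).1 b
  obtain ⟨m, k, l⟩ := c2 _ (sub_pos.2 j)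
  refine ⟨p, (hD p).2 ⟨i.2.1, m, α, k, i, fun β q n o => ?_⟩, j⟩
  have : ε ≤ d q x := le_of_not_gt fun s => g β n ((hS β).2 ⟨o.1, q, o, s⟩)
  linarith [dt q p x o.2.1 i.2.1 a, ds p q i.2.1 o.2.1]

omit ds kt in
theorem tot_bd {Tp : M} (c : Compact E X Tp) (d0 : ∀ x, E x X → d x x = 0)
    (op : ∀ U, E U Tp ↔ Sub E U X ∧ ∀ x, E x X → E x U → ∃ ε > 0, ∀ y, E y X → d x y < ε → E y U) :
    ∀ ε > 0, ∃ F, IsFin E F ∧ ∀ x, E x X → ∃ u, E u F ∧ E u X ∧ d u x < ε := fun ε a =>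
  have := @tR2 _ _ ℛ d _
  (cpt h c (fun P => ∃ F, IsFin E F ∧ ∀ x, E x X → P x → ∃ u, E u F ∧ E u X ∧ d u x < ε)
    (fun P Q ⟨F, b, e⟩ f => ⟨F, b, fun x g i => e x g (f x g i)⟩)
    (fun P Q ⟨F, b, e⟩ ⟨G, f, g⟩ => (h.finU' b f).imp fun H i => ⟨i.1, fun x j k => k.elim
      (fun k => (e x j k).imp fun u l => ⟨(i.2 u).2 (Or.inl l.1), l.2⟩)
      fun k => (g x j k).imp fun u l => ⟨(i.2 u).2 (Or.inr l.1), l.2⟩⟩)
    (h.emp.imp fun _ b => ⟨h.fin0 b, fun _ _ => False.elim⟩) fun x b => (ball h d0 dt op b a).imp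
      fun U e => ⟨e.1, e.2.1, (few_eq h x).imp fun F f =>
        ⟨f.1, fun y _ g => ⟨x, f.2 x rfl, b, e.2.2 y g⟩⟩⟩).imp fun F b =>
          ⟨b.1, fun x e => b.2 x e trivial⟩

theorem sep_of {Tp : M} (t : IsTop E X Tp) (c : Compact E X Tp)
    (d0 : ∀ x y, E x X → E y X → (d x y = 0 ↔ x = y))
    (op : ∀ U, E U Tp ↔ Sub E U X ∧ ∀ x, E x X → E x U → ∃ ε > 0, ∀ y, E y X → d x y < ε → E y U)
    (O : M → M → Prop) [D2 E O] (so : ∀ ε > 0, ∀ x, E x X → ∃ α, E α K ∧ O α x ∧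
      ∀ a, E a X → O α a → ∀ b, E b X → O α b → d a b < ε) :
    ∃ D, Sub E D X ∧ Ctbl E D ∧ ∀ x, E x X → ∀ ε > 0, ∃ p, E p D ∧ d p x < ε := by
  have := @tR2 _ _ ℛ d _
  have := @l2 _ E O _
  have d1 : ∀ x, E x X → d x x = 0 := fun x a => (d0 x x a a).2 rfl
  obtain ⟨c', _, c1, -, c2⟩ := ex_c ℛ h
  have := @tR _ _ ℛ c' _
  let G : M → M → M → Prop := fun n C β => (∃ x, E x C ∧ O β x) ∧
    ∀ a, E a X → O β a → ∀ b, E b X → O β b → d a b < c' n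
  have : D3 E G := inferInstance
  have := @l3 _ E G _
  let L : M → M → M := fun n C => the K fun β => (E β K ∧ G n C β) ∧ ∀ γ, E γ β → ¬ (E γ K ∧ G n C γ)
  have l1 : ∀ n C, IsNat E n → Sub E C X → (∃ x, E x C) → G n C (L n C) := fun n C a b ⟨x, e⟩ =>
    kmin h kt (G n C) ((so _ (c1 n a) x (b x e)).imp fun β f => ⟨f.1, ⟨x, e, f.2.1⟩, f.2.2⟩)
  have : T2 E L := inferInstance
  clear_value L
  have := @Zt.t2 _ E L _
  obtain ⟨W, hW⟩ := h.power X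
  obtain ⟨C, _, o1, o2⟩ := iter h W (fun α => st E X (O α)) (fun _ n C => st E C (O (L n C)))
    (fun _ => (hW _).2 fun y a => ((mem_st h).1 a).1)
    fun _ n C a => (hW _).2 fun y b => (hW _).1 a y ((mem_st h).1 b).1
  have := @Zt.t2 _ E C _
  have o3 : ∀ α n y, IsNat E n → (E y (C α (sc E n)) ↔ E y (C α n) ∧ O (L n (C α n)) y) :=
    fun α n y a => by rw [o2 α n a]; exact mem_st h
  have o4 : ∀ α n, IsNat E n → Sub E (C α n) X := fun α =>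
    natI h (fun n => Sub E (C α n) X) (fun o a => by rw [o1 α o a]; exact fun y b => ((mem_st h).1 b).1)
      fun n a b y e => b y ((o3 α n y a).1 e).1
  obtain ⟨o, ho⟩ := h.emp
  refine dense_n h d ds dt kt (tot_bd h d dt c d1 op)
    (fun α x => ∀ n, IsNat E n → Cl E X Tp (E · (C α n)) x) (fun α x y a b e f => (d0 x y a b).1
      (le_antisymm (le_of_forall_pos_le_add fun ε g => ?_) (by
        linarith [dt x y x a b a, ds x y a b, d1 x a]))) fun x a ε e => ?_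
  · have g : 0 < ε / 3 := by positivity
    obtain ⟨n, i, j⟩ := c2 _ g
    obtain ⟨U, u1, u2, u3⟩ := ball h d1 dt op a g
    obtain ⟨V, v1, v2, v3⟩ := ball h d1 dt op b g
    obtain ⟨u, k, l⟩ := (e _ (nat_sc h i)).2 U u1 u2
    obtain ⟨v, m, p⟩ := (f _ (nat_sc h i)).2 V v1 v2
    rw [o3 _ _ _ i] at l p
    have q := o4 α n i u l.1
    have r := o4 α n i v p.1
    linarith [(l1 n _ i (o4 α n i) ⟨u, l.1⟩).2 u q l.2 v r p.2, u3 u k, v3 v m, dt x u y a q b,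
      dt u v y q r b, ds v y r b]
  · obtain ⟨α, f, g, i⟩ := so _ (half_pos e) x a
    obtain ⟨p, j⟩ := nest h t c (fun n y => E y (C α n)) (fun n y k l => ((o3 α n y k).1 l).1)
      fun n k => (natI h (fun n => ∃ y, E y (C α n)) (fun o l => ⟨x, by
        rw [o1 α o l]; exact (mem_st h).2 ⟨a, g⟩⟩) (fun n l m => (l1 n _ l (o4 α n l) m).1.imp
          fun y q => (o3 α n y l).2 q) n k).imp fun y l => ⟨o4 α n k y l, l⟩
    have k := j o (h.nat0 ho)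
    obtain ⟨U, u1, u2, u3⟩ := ball h d1 dt op k.1 (half_pos e)
    obtain ⟨u, l, m⟩ := k.2 U u1 u2
    rw [o1 α o ho, mem_st h] at m
    exact ⟨α, p, ⟨f, k.1, j⟩, by linarith [u3 u l, i u m.1 m.2 x a g, dt p u x k.1 m.1 a]⟩

end Pool.Agent.H40.Zt
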