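import Pool.Agent.H40.Zr1

set_option autoImplicit false

/-! The multiples of four in the real line of a model of ZF, and the distance to them. -/

namespace Pool.Agent.H40.Zt

open Pool.Agent.H40.Bspt Pool.Agent.H40.Jz Classical

variable {M : Type} {E : M → M → Prop} (ℛ : Reals E)

def N4 (m : Ex E ℛ.R) : Prop :=
  ∀ S : M, E (0 : Ex E ℛ.R).1 S → (∀ r : Ex E ℛ.R, E r.1 S → E (r + 4).1 S) → E m.1 S

noncomputable def dn (t : Ex E ℛ.R) : Ex E ℛ.R := su ℛ fun d => ∀ m, N4 ℛ m → d ≤ |t - m|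

section
variable {α : Type} {s : (α → M) → Ex E ℛ.R}
instance [T E fun v => (s v).1] : D E fun v => N4 ℛ (s v) :=
  @dR _ _ ℛ (N4 ℛ) (by unfold N4; infer_instance) _ _ _
instance [T E fun v => (s v).1] : T E fun v => (dn ℛ (s v)).1 :=
  @tRR _ _ ℛ (dn ℛ) (by unfold dn; infer_instance) _ _ _
end

variable {ℛ}

theorem n4_0 : N4 ℛ 0 := fun _ a _ => a

theorem n4_s {m : Ex E ℛ.R} (a : N4 ℛ m) : N4 ℛ (m + 4) := fun S b c => c m (a S b c)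

variable (h : IsZF E)
include h

theorem n4I (P : Ex E ℛ.R → Prop) [D1 E fun m => P (up ℛ m)] (h0 : P 0)
    (h1 : ∀ r, N4 ℛ r → P r → P (r + 4)) {m : Ex E ℛ.R} (a : N4 ℛ m) : P m := by
  have := @dR _ _ ℛ P _
  obtain ⟨S, hS⟩ := sep h (fun m => N4 ℛ (up ℛ m) ∧ P (up ℛ m)) ℛ.R
  have e : ∀ x : Ex E ℛ.R, E x.1 S ↔ N4 ℛ x ∧ P x := fun x => by
    rw [hS, up_val]; exact and_iff_right x.2
  exact ((e m).1 (a S ((e 0).2 ⟨n4_0, h0⟩) fun r b =>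
    (e _).2 ⟨n4_s ((e r).1 b).1, h1 r ((e r).1 b).1 ((e r).1 b).2⟩)).2

theorem n4_pred {m : Ex E ℛ.R} (a : N4 ℛ m) : 0 ≤ m ∧ (m = 0 ∨ N4 ℛ (m - 4)) := by
  have : D1 E fun m => 0 ≤ up ℛ m ∧ (up ℛ m = 0 ∨ N4 ℛ (up ℛ m - 4)) := inferInstance
  refine n4I h (fun m => 0 ≤ m ∧ (m = 0 ∨ N4 ℛ (m - 4))) ⟨le_rfl, Or.inl rfl⟩
    (fun r b c => ⟨by linarith [c.1], Or.inr (by rwa [add_sub_cancel_right])⟩) a

theorem n4_disc {m n : Ex E ℛ.R} (a : N4 ℛ m) (b : N4 ℛ n) : m ≤ n ∨ n + 4 ≤ m := by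
  have : D1 E fun n => ∀ m, N4 ℛ m → m ≤ up ℛ n ∨ up ℛ n + 4 ≤ m := inferInstance
  refine n4I h (fun n => ∀ m, N4 ℛ m → m ≤ n ∨ n + 4 ≤ m) (fun m c => ?_) (fun r c d m e => ?_) b m a
  · exact (n4_pred h c).2.imp Eq.le fun d => by linarith [(n4_pred h d).1]
  · rcases (n4_pred h e).2 with f | f
    · exact Or.inl (by linarith [(n4_pred h c).1])
    · exact (d _ f).imp (fun g => by linarith) fun g => by linarith

theorem n4_unb (t : Ex E ℛ.R) : ∃ m, N4 ℛ m ∧ t ≤ m := by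
  by_contra a
  have b : ∀ m, N4 ℛ m → m ≤ t := fun m c => le_of_not_ge fun d => a ⟨m, c, d⟩
  obtain ⟨c, d⟩ := su_sp h (N4 ℛ) n4_0 b
  have := d (su ℛ (N4 ℛ) - 4) fun p e => by linarith [c _ (n4_s e)]
  linarith

theorem n4_few (t : Ex E ℛ.R) : Few E fun z => E z ℛ.R ∧ N4 ℛ (up ℛ z) ∧ up ℛ z < t := by
  obtain ⟨m, a, b⟩ := n4_unb h t
  have : D1 E fun n => Few E fun z => E z ℛ.R ∧ N4 ℛ (up ℛ z) ∧ up ℛ z < up ℛ n := inferInstance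
  refine few_mono (n4I h (fun n => Few E fun z => E z ℛ.R ∧ N4 ℛ (up ℛ z) ∧ up ℛ z < n)
    (few_one h fun y _ c => absurd (n4_pred h c.2.1).1 (not_le.2 c.2.2)) (fun r c d => ?_) a)
    fun z c => ⟨c.1, c.2.1, c.2.2.trans_le b⟩
  refine few_mono (few_or h d (few_one h (P := (· = r.1)) fun _ _ e f => e.trans f.symm))
    fun z e => ?_
  rcases ((n4_disc h e.2.1 c).resolve_right (not_le.2 e.2.2)).lt_or_eq with f | f
  · exact Or.inl ⟨e.1, e.2.1, f⟩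
  · exact Or.inr (congrArg Subtype.val ((up_val ℛ ⟨z, e.1⟩).symm.trans f))

theorem dn_sp (t : Ex E ℛ.R) : (∀ m, N4 ℛ m → dn ℛ t ≤ |t - m|) ∧
    ∀ d, (∀ m, N4 ℛ m → d ≤ |t - m|) → d ≤ dn ℛ t := by
  obtain ⟨a, b⟩ := su_sp h (fun d => ∀ m, N4 ℛ m → d ≤ |t - m|) (p := 0) (fun _ _ => abs_nonneg _)
    fun p c => c 0 n4_0
  exact ⟨fun m c => b _ fun p d => d m c, a⟩

theorem dn_lip (t u : Ex E ℛ.R) : |dn ℛ t - dn ℛ u| ≤ |t - u| := by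
  have a : ∀ t u : Ex E ℛ.R, dn ℛ t - |t - u| ≤ dn ℛ u := fun t u => (dn_sp h u).2 _ fun m b => by
    linarith [(dn_sp h t).1 m b, abs_sub_le t u m]
  have b := a u t
  rw [abs_sub_comm] at b
  exact abs_le.2 ⟨by linarith, by linarith [a t u]⟩

/-- if the distance is less than `3 / 2`, the shift by two is far from the multiples of four -/
theorem dn_sh {t : Ex E ℛ.R} (a : dn ℛ t < 3 / 2) {m : Ex E ℛ.R} (b : N4 ℛ m) :
    1 / 2 < |t + 2 - m| := by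
  obtain ⟨n, c, d⟩ : ∃ n, N4 ℛ n ∧ |t - n| < 3 / 2 := by
    by_contra c
    exact a.not_ge ((dn_sp h t).2 _ fun n d => le_of_not_gt fun e => c ⟨n, d, e⟩)
  rw [abs_lt] at d
  rcases n4_disc h b c with e | e
  · exact lt_abs.2 (Or.inl (by linarith))
  · exact lt_abs.2 (Or.inr (by linarith))

end Pool.Agent.H40.Zt
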