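import Pool.Agent.H40.Zr2
import Pool.Agent.H40.JzDefs11

set_option autoImplicit false

/-! Clopen ultrafilters on strongly zero-dimensional spaces inside a model of ZF. -/

namespace Pool.Agent.H40.Zt

open Pool.Agent.H40.Bspt Pool.Agent.H40.Jz Classical

variable {M : Type} {E : M → M → Prop} {ℛ : Reals E}

variable (E) in
abbrev Nr (S Tp x : M) (P : M → Prop) : Prop := ∃ U, E U Tp ∧ E x U ∧ ∀ y, E y S → E y U → P y

variable (E) in
abbrev Big (S : M) (A : M → M → Prop) (P : M → Prop) : Prop :=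
  ∃ F, IsFin E F ∧ ∀ x, E x S → (∀ f, E f F → A f x) → P x

def Ct (S Tp : M) (G : M → Ex E ℛ.R) : Prop :=
  ∀ x, E x S → ∀ ε > 0, Nr E S Tp x fun y => |G y - G x| < ε

variable {S Tp : M} {A : M → M → Prop}

theorem Nr.mono {x : M} {P Q : M → Prop} (a : Nr E S Tp x P) (b : ∀ y, E y S → P y → Q y) :
    Nr E S Tp x Q := a.imp fun _ c => ⟨c.1, c.2.1, fun y d e => b y d (c.2.2 y d e)⟩

theorem Big.mono {P Q : M → Prop} (a : Big E S A P) (b : ∀ y, E y S → P y → Q y) :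
    Big E S A Q := a.imp fun _ c => ⟨c.1, fun y d e => b y d (c.2 y d e)⟩

variable (h : IsZF E)
include h

theorem Nr.and {X x : M} (t : IsTop E X Tp) {P Q : M → Prop} (a : Nr E S Tp x P)
    (b : Nr E S Tp x Q) : Nr E S Tp x fun y => P y ∧ Q y := by
  obtain ⟨U, a1, a2, a3⟩ := a
  obtain ⟨V, b1, b2, b3⟩ := b
  obtain ⟨W, w⟩ := sep h (E · V) U
  exact ⟨W, t.2.2.1 U V W a1 b1 w, (w x).2 ⟨a2, b2⟩, fun y c d =>
    ⟨a3 y c ((w y).1 d).1, b3 y c ((w y).1 d).2⟩⟩

theorem Big.and {P Q : M → Prop} (a : Big E S A P) (b : Big E S A Q) :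
    Big E S A fun y => P y ∧ Q y := by
  obtain ⟨U, a1, a2⟩ := a
  obtain ⟨V, b1, b2⟩ := b
  obtain ⟨W, w1, w⟩ := h.finU' a1 b1
  exact ⟨W, w1, fun y c d => ⟨a2 y c fun f e => d f ((w f).2 (Or.inl e)),
    b2 y c fun f e => d f ((w f).2 (Or.inr e))⟩⟩

theorem big_one (f : M) : Big E S A (A f) :=
  (few_one h (P := (· = f)) fun _ _ e f => e.trans f.symm).imp fun _ a =>
    ⟨a.1, fun _ _ b => b f (a.2 f rfl)⟩

theorem sepc (z : StrZD ℛ S Tp) (G : M → Ex E ℛ.R) [T1 E fun m => (G m).1] (ct : Ct S Tp G)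
    {a b : Ex E ℛ.R} (ab : a < b) : ∃ C, Clopen E S Tp C ∧ (∀ x, E x S → G x ≤ a → E x C) ∧
      ∀ x, E x C → G x < b := by
  have := @tR _ _ ℛ G _
  obtain ⟨U, hU⟩ := sep h (fun x => G x ≤ a) S
  obtain ⟨V, hV⟩ := sep h (fun x => b ≤ G x) S
  have p : 0 < b - a := sub_pos.2 ab
  have : T1 E fun x => (max (min ((G x - a) * (b - a)⁻¹) 1) 0).1 := inferInstance
  refine (z U V (fun x c => ((hU x).1 c).1) (fun x c => ((hV x).1 c).1)
    ⟨fun x => max (min ((G x.1 - a) * (b - a)⁻¹) 1) 0, ⟨intl_of h (W := ℛ.R)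
      (fun x => (max (min ((G x - a) * (b - a)⁻¹) 1) 0).1) fun x _ =>
        (max (min ((G x - a) * (b - a)⁻¹) 1) 0).2,
      fun x ε e => (ct x.1 x.2 _ (mul_pos e p)).imp fun W c => ⟨c.1, c.2.1, fun y d => ?_⟩⟩,
      fun y => ⟨le_max_right _ _, max_le (min_le_right _ _) zero_le_one⟩, fun y c => ?_,
      fun y c => ?_⟩).imp fun C ⟨c1, c2, c3⟩ => ⟨c1, fun x c d => c2 x ((hU x).2 ⟨c, d⟩),
        fun x c => lt_of_not_ge fun d => c3 x c ((hV x).2 ⟨c1.1 x c, d⟩)⟩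
  · refine ((abs_max_sub_max_le_abs _ _ _).trans (abs_min_sub_min_le_max _ _ _ _)).trans_lt ?_
    rw [sub_self, abs_zero, ← sub_mul, abs_mul, abs_of_pos (inv_pos.2 p), sub_sub_sub_cancel_right]
    exact max_lt ((mul_inv_lt_iff₀ p).2 (c.2.2 y.1 y.2 d)) e
  · exact max_eq_right (min_le_of_left_le (mul_nonpos_of_nonpos_of_nonneg
      (sub_nonpos.2 ((hU _).1 c).2) (inv_pos.2 p).le))
  · show max _ _ = _
    rw [min_eq_right ((le_mul_inv_iff₀ p).2 (by linarith [((hV _).1 c).2])), max_eq_left zero_le_one]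

variable {X : M} (t : IsTop E X Tp) (z : StrZD ℛ S Tp) [D2 E A]
  (ne : ∀ F, IsFin E F → ∃ x, E x S ∧ ∀ f, E f F → A f x)
  (key : ∀ k : M → M, T1 E k → (∀ x, E x S → IsNat E (k x)) →
    (∀ x, E x S → Nr E S Tp x fun y => k y = k x) →
      ∃ f, ∀ x y, E x S → E y S → A f x → A f y → k x = k y)

omit h in
include ne in
theorem Big.ex {P : M → Prop} (a : Big E S A P) : ∃ x, E x S ∧ P x :=
  let ⟨F, b, c⟩ := a
  (ne F b).imp fun x d => ⟨d.1, c x d.1 d.2⟩

include ne key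

theorem big_lc (k : M → M) [i : T1 E k] (a : ∀ x, E x S → IsNat E (k x))
    (b : ∀ x, E x S → Nr E S Tp x fun y => k y = k x) :
    ∃ x, E x S ∧ Big E S A fun y => k y = k x := by
  obtain ⟨f, c⟩ := key k i a b
  obtain ⟨x, d, e⟩ := (big_one h (S := S) (A := A) f).ex ne
  exact ⟨x, d, (big_one h f).mono fun y g j => c y x g d j e⟩

theorem big_cl {C : M} (c : Clopen E S Tp C) : Big E S A (E · C) ∨ Big E S A (¬ E · C) := by
  obtain ⟨o, ho⟩ := h.emp
  obtain ⟨x, a, b⟩ := big_lc h ne key (fun x => if E x C then o else sc E o)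
    (fun x _ => by split_ifs; exacts [h.nat0 ho, nat_sc h (h.nat0 ho)])
    fun x a => Nr.mono (c.2 x a) fun y _ d => by simp only [d]
  by_cases d : E x C
  · exact Or.inl (b.mono fun y _ e => by_contra fun f => by
      rw [if_pos d, if_neg f] at e; exact sc_ne h e.symm)
  · exact Or.inr (b.mono fun y _ e f => by rw [if_pos f, if_neg d] at e; exact sc_ne h e)

include t z

theorem big_ub (G : M → Ex E ℛ.R) [T1 E fun m => (G m).1] (ct : Ct S Tp G) :
    ∃ b, Big E S A fun x => G x ≤ b := by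
  have := @tR _ _ ℛ G _
  obtain ⟨C, c1, c2, c3⟩ := sepc h z (fun x => dn ℛ (G x)) (a := 1 / 2) (b := 3 / 2)
    (fun x a ε e => (ct x a ε e).mono fun y _ b => (dn_lip h _ _).trans_lt b) (by norm_num)
  let s : M → Ex E ℛ.R := fun x => G x + if E x C then 2 else 0
  have : T1 E fun m => (s m).1 := inferInstance
  have := @tR _ _ ℛ s _
  have s1 : ∀ x, G x ≤ s x := fun x => by
    show _ ≤ _ + _
    split_ifs <;> linarith
  have s2 : ∀ x, E x S → ∀ m, N4 ℛ m → 1 / 2 < |s x - m| := fun x a m b => by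
    show _ < |_ + _ - _|
    split_ifs with c
    · exact dn_sh h (c3 x c) b
    · rw [add_zero]
      exact (lt_of_not_ge fun d => c (c2 x a d)).trans_le ((dn_sp h _).1 m b)
  have s3 : ∀ x, E x S → Nr E S Tp x fun y => |s y - s x| < 1 / 2 := fun x a =>
    (Nr.and h t (c1.2 x a) (ct x a (1 / 2) (by norm_num))).mono fun y _ b => by
      simp only [s, b.1, add_sub_add_right_eq_sub]; exact b.2
  clear_value s
  let L : M → M := fun x => st E ℛ.R fun z => N4 ℛ (up ℛ z) ∧ up ℛ z < s x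
  have l1 : ∀ x z, E z (L x) ↔ E z ℛ.R ∧ N4 ℛ (up ℛ z) ∧ up ℛ z < s x := fun x z => mem_st h
  have l2 : ∀ x, IsFin E (L x) := fun x => few_fin h (n4_few h (s x)) fun z => (l1 x z).1
  have : T1 E fun x => sz E (L x) := inferInstance
  obtain ⟨x, a, b⟩ := big_lc h ne key (fun x => sz E (L x)) (fun x _ => sz_nat h (l2 x))
    fun x a => (s3 x a).mono fun y _ b => congrArg _ (h.ext _ _ fun z => by
      rw [l1, l1]
      refine and_congr_right fun _ => and_congr_right fun c => ?_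
      rw [abs_lt] at b
      rcases lt_abs.1 (s2 x a _ c) with d | d
      · exact ⟨fun _ => by linarith, fun _ => by linarith⟩
      · exact ⟨fun _ => by linarith, fun _ => by linarith⟩)
  obtain ⟨m, c, d⟩ := n4_unb h (s x)
  refine ⟨m, b.mono fun y _ e => (s1 y).trans (le_of_not_gt fun f => ?_)⟩
  have := ((l1 x m.1).1 (sz_inj h (l2 y) (fun z g => (l1 y z).2 (((l1 x z).1 g).imp_right
    (·.imp_right fun i => (i.trans_le d).trans f))) e.symm m.1 ((l1 y _).2 ⟨m.2, by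
      rw [up_val]; exact ⟨c, f⟩⟩))).2.2
  rw [up_val] at this
  exact this.not_ge d

theorem big_cv (G : M → Ex E ℛ.R) [T1 E fun m => (G m).1] (ct : Ct S Tp G) {ε : Ex E ℛ.R}
    (e : 0 < ε) : Big E S A fun x => |G x - su ℛ fun p => Big E S A fun x => p ≤ G x| < ε := by
  have := @tR _ _ ℛ G _
  have := @l2 _ E A _
  obtain ⟨b, hb⟩ := big_ub h t z ne key G ct
  obtain ⟨a, ha⟩ := big_ub h t z ne key (fun x => - G x) fun x a ε e =>
    (ct x a ε e).mono fun y _ b => by rwa [neg_sub_neg, abs_sub_comm]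
  obtain ⟨c, d⟩ := su_sp h (fun p => Big E S A fun x => p ≤ G x) (p := -a) (b := b)
    (ha.mono fun y _ c => neg_le.1 c) fun p c =>
      let ⟨_, _, d⟩ := (Big.and h c hb).ex ne
      d.1.trans d.2
  generalize (su ℛ fun p => Big E S A fun x => p ≤ G x) = y at c d ⊢
  obtain ⟨p, f, g⟩ : ∃ p, (Big E S A fun x => p ≤ G x) ∧ y - ε < p := by
    by_contra f
    linarith [d (y - ε) fun p g => le_of_not_gt fun i => f ⟨p, g, i⟩]
  obtain ⟨C, c1, c2, c3⟩ := sepc h z G ct (a := y + ε / 2) (b := y + ε) (by linarith)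
  rcases big_cl h ne key c1 with i | i
  · exact (Big.and h f i).mono fun x _ j => abs_lt.2 ⟨by linarith [j.1], by linarith [c3 x j.2]⟩
  · linarith [c _ (i.mono fun x j k => le_of_not_ge fun l => k (c2 x j l))]

end Pool.Agent.H40.Zt
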