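import Pool.Agent.H40.Zr3

set_option autoImplicit false
set_option synthInstance.maxSize 2000

/-! The chain metrization lemma inside a model of ZF. -/

namespace Pool.Agent.H40.Zt

open Pool.Agent.H40.Bspt Pool.Agent.H40.Jz Classical

variable {M : Type} {E : M → M → Prop} {ℛ : Reals E}

theorem dR2 (P : M → Ex E ℛ.R → Prop) [D2 E fun a b => P a (up ℛ b)] {α : Type} {s : (α → M) → M}
    {u : (α → M) → Ex E ℛ.R} [T E s] [T E fun v => (u v).1] : D E fun v => P (s v) (u v) :=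
  @D.of _ _ _ _ (fun v => P (s v) (up ℛ (u v).1)) (l2 fun a b => P a (up ℛ b)) fun _ => by
    rw [up_val]

theorem dR3 (P : M → M → Ex E ℛ.R → Prop) [D3 E fun a b c => P a b (up ℛ c)] {α : Type}
    {s t : (α → M) → M} {u : (α → M) → Ex E ℛ.R} [T E s] [T E t] [T E fun v => (u v).1] :
    D E fun v => P (s v) (t v) (u v) :=
  @D.of _ _ _ _ (fun v => P (s v) (t v) (up ℛ (u v).1)) (l3 fun a b c => P a b (up ℛ c)) fun _ => by
    rw [up_val]

abbrev Ch (X : M) (F : M → M → Ex E ℛ.R → Prop) (η : Ex E ℛ.R) (x y : M) (r : Ex E ℛ.R) : Prop :=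
  ∀ S : M, App E S x (0 : Ex E ℛ.R).1 → (∀ u v, ∀ a b : Ex E ℛ.R, App E S u a.1 → E v X → F u v b →
    η ≤ b → App E S v (a + b).1) → App E S y r.1

variable {X : M} {F : M → M → Ex E ℛ.R → Prop} {η a b r s : Ex E ℛ.R} {x y z u v : M}

theorem ch0 : Ch X F η x x 0 := fun _ a _ => a

theorem chS (c : Ch X F η x u a) (d : E v X) (f : F u v b) (e : η ≤ b) : Ch X F η x v (a + b) :=
  fun S p q => q u v a b (c S p q) d f e

theorem ch_mono {θ : Ex E ℛ.R} (c : Ch X F η x y r) (d : θ ≤ η) : Ch X F θ x y r :=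
  fun S p q => c S p fun u v a b i j k l => q u v a b i j k (d.trans l)

variable (h : IsZF E)
include h

theorem dbl (P : Ex E ℛ.R → Prop) [D1 E fun m => P (up ℛ m)] (a : 0 < η) (b : P η)
    (c : ∀ ρ, P ρ → P (2 * ρ)) (t : Ex E ℛ.R) : ∃ ρ, P ρ ∧ t < ρ := by
  by_contra d
  obtain ⟨e, f⟩ := su_sp h P b (b := t) fun p e => le_of_not_gt fun f => d ⟨p, e, f⟩
  linarith [f (su ℛ P / 2) fun p g => by linarith [e _ (c p g)], e _ b]

/-- infimum of a definable class of nonnegative reals -/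
theorem inf_sp (P : Ex E ℛ.R → Prop) [D1 E fun m => P (up ℛ m)] (a : P r) (b : ∀ p, P p → 0 ≤ p) :
    (∀ p, P p → (su ℛ fun d => ∀ p, P p → d ≤ p) ≤ p) ∧
      ∀ d, (∀ p, P p → d ≤ p) → d ≤ su ℛ fun d => ∀ p, P p → d ≤ p := by
  have := @dR _ _ ℛ P _
  obtain ⟨c, d⟩ := su_sp h (fun d => ∀ p, P p → d ≤ p) b fun p c => c r a
  exact ⟨fun p e => d _ fun q f => f p e, c⟩

variable [D3 E fun a b c => F a b (up ℛ c)]

theorem chI (P : M → Ex E ℛ.R → Prop) [D2 E fun a b => P a (up ℛ b)] (hx : E x X) (h0 : P x 0)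
    (h1 : ∀ u v a b, E u X → Ch X F η x u a → P u a → E v X → F u v b → η ≤ b → P v (a + b))
    (c : Ch X F η x y r) : E y X ∧ P y r := by
  have := @dR2 _ _ ℛ P _
  have := @dR3 _ _ ℛ F _
  obtain ⟨S, hS⟩ := rel h (fun u a => Ch X F η x u (up ℛ a) ∧ P u (up ℛ a)) X ℛ.R
  have e : ∀ u (a : Ex E ℛ.R), App E S u a.1 ↔ E u X ∧ Ch X F η x u a ∧ P u a := fun u a => by
    rw [hS, up_val, and_iff_right a.2]
  exact ((e _ _).1 (c S ((e _ _).2 ⟨hx, ch0, h0⟩) fun u v a b i j k l =>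
    let ⟨m, n, o⟩ := (e _ _).1 i
    (e _ _).2 ⟨j, chS n j k l, h1 u v a b m n o j k l⟩)).imp_right And.right

theorem ch_cat (hy : E y X) (c : Ch X F η x y r) (d : Ch X F η y z s) : Ch X F η x z (r + s) := by
  have := @dR3 _ _ ℛ F _
  exact (chI h (fun u a => Ch X F η x u (r + a)) hy (by rwa [add_zero])
    (fun u v a b _ _ i j k l => add_assoc r a b ▸ chS i j k l) d).2

theorem ch_symm (sy : ∀ x y w, F x y w → F y x w) (hx : E x X) (c : Ch X F η x y r) :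
    Ch X F η y x r := by
  have := @dR3 _ _ ℛ F _
  exact (chI h (fun u a => Ch X F η u x a) hx ch0 (fun u v a b i _ j _ k l => by
    have := ch_cat h i (chS ch0 i (sy _ _ _ k) l) j
    rwa [zero_add, add_comm] at this) c).2

theorem ch_pos (p : 0 < η) (hx : E x X) (c : Ch X F η x y r) : 0 ≤ r ∧ (r < η → y = x) := by
  have : D2 E fun u a => 0 ≤ up ℛ a ∧ (up ℛ a < η → u = x) := inferInstance
  exact (chI h (fun u a => 0 ≤ a ∧ (a < η → u = x)) hx ⟨le_rfl, fun _ => rfl⟩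
    (fun u v a b _ _ i _ _ l => ⟨by linarith [i.1], fun j => by linarith [i.1]⟩) c).2

theorem ch_split (hx : E x X) (c : Ch X F η x y r) (t : Ex E ℛ.R) (p : 0 ≤ t) (q : t < r) :
    ∃ u v, ∃ a b c : Ex E ℛ.R, Ch X F η x u a ∧ E v X ∧ F u v b ∧ Ch X F η v y c ∧ a + b + c = r ∧
      a ≤ t ∧ t ≤ a + b := by
  have := @dR3 _ _ ℛ F _
  refine (chI h (fun y r => t < r → ∃ u v, ∃ a b c : Ex E ℛ.R, Ch X F η x u a ∧ E v X ∧ F u v b ∧
    Ch X F η v y c ∧ a + b + c = r ∧ a ≤ t ∧ t ≤ a + b) hx (fun i => absurd p i.not_ge)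
    (fun u v a b _ i j k l m n => ?_) c).2 q
  rcases le_or_gt a t with o | o
  · exact ⟨u, v, a, b, 0, i, k, l, ch0, add_zero _, o, n.le⟩
  · obtain ⟨u', v', a', b', c', j1, j2, j3, j4, j5, j6⟩ := j o
    exact ⟨u', v', a', b', c' + b, j1, j2, j3, chS j4 k l m, by rw [← j5, add_assoc _ c'], j6⟩

variable (rf : ∀ x, E x X → ∀ w > 0, F x x w) (mo : ∀ x y v w, F x y v → v ≤ w → F x y w)
  (tr : ∀ x y z u w, E x X → E y X → E z X → E u X → F x y w → F y z w → F z u w → F x u (2 * w))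
include rf mo tr

theorem ch_bd (p : 0 < η) (hx : E x X) (c : Ch X F η x y r) (q : r < s) : F x y (2 * s) := by
  have := @dR3 _ _ ℛ F _
  have : D1 E fun m => ∀ s : Ex E ℛ.R, s < up ℛ m → ∀ x y, ∀ r < s, E x X → Ch X F η x y r →
    F x y (2 * s) := inferInstance
  refine (dbl h (fun ρ => ∀ s < ρ, ∀ x y, ∀ r < s, E x X → Ch X F η x y r →
    F x y (2 * s)) p (fun s a x y r b c d => by
      obtain ⟨e, f⟩ := ch_pos h p c d
      exact f (b.trans a) ▸ rf x c _ (by linarith)) (fun ρ ih s a x y r b c d => ?_) s).elim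
    fun ρ a => a.1 s a.2 x y r q hx c
  obtain ⟨e, f⟩ := ch_pos h p c d
  rcases lt_or_ge r η with g | g
  · exact f g ▸ rf x c _ (by linarith)
  obtain ⟨u, v, a', b', c', j1, j2, j3, j4, j5, j6, j7⟩ :=
    ch_split h c d (r / 2) (by linarith) (by linarith)
  have k1 := ih (s / 2) (by linarith) x u a' (by linarith) c j1
  have k2 := ih (s / 2) (by linarith) v y c' (by linarith) j2 j4
  rw [mul_div_cancel₀ _ two_ne_zero] at k1 k2
  exact tr x u v y s c (chI h (fun _ _ => x = x) c rfl (fun _ _ _ _ _ _ _ _ _ _ => rfl) j1).1 j2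
    (chI h (fun _ _ => x = x) c rfl (fun _ _ _ _ _ _ _ _ _ _ => rfl) d).1 k1
    (mo _ _ _ _ j3 (by linarith [(ch_pos h p c j1).1, (ch_pos h p j2 j4).1])) k2

theorem frink (sy : ∀ x y w, F x y w → F y x w) (tt : ∀ x y, E x X → E y X → F x y 1) :
    ∃ δ : M → M → Ex E ℛ.R, (T2 E fun a b => (δ a b).1) ∧ ∀ x y, E x X → E y X →
      δ x x = 0 ∧ δ x y = δ y x ∧ (∀ z, E z X → δ x z ≤ δ x y + δ y z) ∧
        (∀ w > 0, F x y w → δ x y ≤ w) ∧ ∀ r, δ x y < r → F x y (2 * r) := by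
  have := @dR3 _ _ ℛ F _
  let C : M → M → Ex E ℛ.R → Prop := fun x y r => ∃ η > 0, Ch X F η x y r
  have : D3 E fun a b c => C a b (up ℛ c) := inferInstance
  have c1 : ∀ x y, E y X → ∀ w > 0, F x y w → C x y w := fun x y a w b c =>
    ⟨w, b, by simpa only [zero_add] using chS (ch0 (F := F) (x := x)) a c (le_refl w)⟩
  have c2 : ∀ x y r, E x X → C x y r → 0 ≤ r := fun x y r a ⟨_, b, c⟩ => (ch_pos h b a c).1
  have c3 : ∀ x y r, E x X → C x y r → C y x r := fun x y r a b =>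
    b.imp fun _ c => ⟨c.1, ch_symm h sy a c.2⟩
  have c4 : ∀ x y z r s, E y X → C x y r → C y z s → C x z (r + s) :=
    fun x y z r s a ⟨η, b, c⟩ ⟨θ, d, e⟩ => ⟨min η θ, lt_min b d,
      ch_cat h a (ch_mono c (min_le_left _ _)) (ch_mono e (min_le_right _ _))⟩
  have c5 : ∀ x y r s, E x X → C x y r → r < s → F x y (2 * s) := fun x y r s a ⟨_, b, c⟩ d =>
    ch_bd h rf mo tr b a c d
  have c6 : ∀ x, C x x 0 := fun x => ⟨1, one_pos, ch0⟩
  clear_value C
  have := @dR3 _ _ ℛ C _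
  let δ : M → M → Ex E ℛ.R := fun x y => su ℛ fun d => ∀ p, C x y p → d ≤ p
  have d1 : ∀ x y, E x X → E y X → (∀ p, C x y p → δ x y ≤ p) ∧
      ∀ d, (∀ p, C x y p → d ≤ p) → d ≤ δ x y := fun x y a b =>
    inf_sp h (C x y) (c1 x y b 1 one_pos (tt x y a b)) fun p => c2 x y p a
  refine ⟨δ, inferInstance, fun x y a b => ?_⟩
  clear_value δ
  have d2 : ∀ x y, E x X → E y X → δ x y ≤ δ y x := fun x y a b =>
    (d1 y x b a).2 _ fun p c => (d1 x y a b).1 p (c3 _ _ _ b c)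
  refine ⟨le_antisymm ((d1 x x a a).1 _ (c6 x)) ((d1 x x a a).2 _ fun p => c2 x x p a),
    le_antisymm (d2 x y a b) (d2 y x b a), fun z c => ?_,
    fun w c d => (d1 x y a b).1 _ (c1 x y b w c d), fun r c => by_contra fun d => c.not_ge
      ((d1 x y a b).2 _ fun p e => le_of_not_gt fun f => d (c5 x y p r a e f))⟩
  refine sub_le_iff_le_add'.1 ((d1 y z b c).2 _ fun s d => sub_le_comm.1 ?_)
  exact (d1 x y a b).2 _ fun r e => sub_le_iff_le_add.2 ((d1 x z a c).1 _ (c4 x y z r s b e d))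

end Pool.Agent.H40.Zt
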