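import Pool.Agent.H40.Zr4

set_option autoImplicit false
set_option synthInstance.maxSize 2000

/-! Compact Hausdorff quasi-metric spaces are metrizable, inside a model of ZF. -/

namespace Pool.Agent.H40.Zt

open Pool.Agent.H40.Bspt Pool.Agent.H40.Jz Classical

variable {M : Type} {E : M → M → Prop} {ℛ : Reals E}

abbrev Vq (X : M) (d : M → M → Ex E ℛ.R) (ε : Ex E ℛ.R) (x y : M) : Prop :=
  ∃ c, E c X ∧ d c x < ε ∧ d c y < ε

abbrev V3 (X : M) (d : M → M → Ex E ℛ.R) (δ ε : Ex E ℛ.R) (x : M) : Prop :=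
  ∀ y, E y X → Vq X d δ x y → ∀ z, E z X → Vq X d δ y z → ∀ u, E u X → Vq X d δ z u → Vq X d ε x u

abbrev Up (X : M) (d : M → M → Ex E ℛ.R) (w ε : Ex E ℛ.R) : Prop :=
  ∃ S, App E S w.1 ε.1 ∧ ∀ v δ : Ex E ℛ.R, App E S v.1 δ.1 → 1 ≤ v ∨ δ ≤ v ∧
    ∃ θ : Ex E ℛ.R, App E S (2 * v).1 θ.1 ∧ ∀ x, E x X → V3 X d δ θ x

variable {X Tp : M} {d : M → M → Ex E ℛ.R}

theorem Vq.mono {δ ε : Ex E ℛ.R} {x y : M} (a : Vq X d δ x y) (b : δ ≤ ε) : Vq X d ε x y :=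
  a.imp fun _ c => ⟨c.1, c.2.1.trans_le b, c.2.2.trans_le b⟩

theorem Up.inv {w ε : Ex E ℛ.R} (a : Up X d w ε) :
    1 ≤ w ∨ ε ≤ w ∧ ∃ θ, Up X d (2 * w) θ ∧ ∀ x, E x X → V3 X d ε θ x :=
  let ⟨S, b, c⟩ := a
  (c w ε b).imp_right (·.imp_right (·.imp fun _ e => ⟨⟨S, e.1, c⟩, e.2⟩))

variable (h : IsZF E)
include h

theorem up1 {w ε : Ex E ℛ.R} (a : 1 ≤ w) : Up X d w ε := by
  obtain ⟨S, hS⟩ := rel h (fun a _ => a = w.1) ℛ.R ℛ.R
  exact ⟨S, (hS _ _).2 ⟨w.2, ε.2, rfl⟩, fun v δ b =>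
    Or.inl ((Subtype.ext ((hS _ _).1 b).2.2 : v = w) ▸ a)⟩

theorem up2 {w ε θ : Ex E ℛ.R} (a : Up X d (2 * w) θ) (b : ε ≤ w) (c : ∀ x, E x X → V3 X d ε θ x) :
    Up X d w ε := by
  obtain ⟨S, a1, a2⟩ := a
  obtain ⟨S', hS⟩ := rel h (fun a b => App E S a b ∨ a = w.1 ∧ b = ε.1) ℛ.R ℛ.R
  have e : ∀ u v : Ex E ℛ.R, App E S u.1 v.1 → App E S' u.1 v.1 := fun u v i =>
    (hS _ _).2 ⟨u.2, v.2, Or.inl i⟩
  refine ⟨S', (hS _ _).2 ⟨w.2, ε.2, Or.inr ⟨rfl, rfl⟩⟩, fun v δ f => ?_⟩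
  rcases ((hS _ _).1 f).2.2 with g | g
  · exact (a2 v δ g).imp_right (·.imp_right (·.imp fun _ i => ⟨e _ _ i.1, i.2⟩))
  · obtain rfl : v = w := Subtype.ext g.1
    obtain rfl : δ = ε := Subtype.ext g.2
    exact Or.inr ⟨b, θ, e _ _ a1, c⟩

theorem cpt (c : Compact E X Tp) (Φ : (M → Prop) → Prop) [D1 E fun U => Φ (E · U)]
    [D1 E fun D => Φ fun x => ∃ U, E U D ∧ E x U]
    (mo : ∀ P Q, Φ P → (∀ x, E x X → Q x → P x) → Φ Q)
    (or : ∀ P Q, Φ P → Φ Q → Φ fun x => P x ∨ Q x) (bot : Φ fun _ => False)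
    (lo : ∀ x, E x X → ∃ U, E U Tp ∧ E x U ∧ Φ (E · U)) : Φ fun _ => True := by
  obtain ⟨C, hC⟩ := sep h (fun U => Φ (E · U)) Tp
  obtain ⟨D, a, b, e⟩ := c C (fun U a => ((hC U).1 a).1) fun x a =>
    (lo x a).imp fun U b => ⟨(hC U).2 ⟨b.1, b.2.2⟩, b.2.1⟩
  refine mo _ _ (finI h (fun D => Sub E D C → Φ fun x => ∃ U, E U D ∧ E x U)
    (fun z f _ => mo _ _ bot fun x _ ⟨U, g, _⟩ => f U g) (fun z y s _ f g i => ?_) D b a)
    fun x f _ => e x f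
  exact mo _ _ (or _ _ (f fun U j => i U ((g U).2 (Or.inl j))) ((hC y).1 (i y ((g y).2
    (Or.inr rfl)))).2) fun x _ ⟨U, j, k⟩ => ((g U).1 j).imp (⟨U, ·, k⟩) fun l : U = y => l ▸ k

variable (t : IsTop E X Tp) (c : Compact E X Tp) (t2 : Jz.T2 E X Tp) [T2 E fun a b => (d a b).1]
  (d0 : ∀ x, E x X → d x x = 0) (dt : ∀ x y z, E x X → E y X → E z X → d x z ≤ d x y + d y z)
  (op : ∀ U, E U Tp ↔ Sub E U X ∧ ∀ x, E x X → E x U → ∃ ε > 0, ∀ y, E y X → d x y < ε → E y U)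
include d0 dt op

theorem ball {x : M} (a : E x X) {ε : Ex E ℛ.R} (b : 0 < ε) :
    ∃ U, E U Tp ∧ E x U ∧ ∀ y, E y U → d x y < ε := by
  have := @tR2 _ _ ℛ d _
  obtain ⟨U, hU⟩ := sep h (fun y => d x y < ε) X
  exact ⟨U, (op U).2 ⟨fun y c => ((hU y).1 c).1, fun y c e => ⟨ε - d x y, sub_pos.2 ((hU y).1 e).2,
    fun z f g => (hU z).2 ⟨f, by linarith [dt x y z a c f]⟩⟩⟩, (hU x).2 ⟨a, by rwa [d0 x a]⟩,
    fun y c => ((hU y).1 c).2⟩

include t c t2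

theorem star {x : M} (a : E x X) {Q : M → Prop} (b : Nr E X Tp x Q) :
    ∃ δ > 0, Nr E X Tp x fun z => ∀ y, E y X → Vq X d δ z y → Q y := by
  have := @tR2 _ _ ℛ d _
  obtain ⟨U, b1, b2, b3⟩ := b
  obtain ⟨δ, e, f⟩ := cpt h c (fun P => ∃ δ > 0, Nr E X Tp x fun z => ∀ c, E c X → P c → d c z < δ →
    ∀ y, E y X → d c y < δ → E y U)
    (fun P Q ⟨δ, e, f⟩ g => ⟨δ, e, f.mono fun z _ i c j k => i c j (g c j k)⟩)
    (fun P Q ⟨δ, e, f⟩ ⟨θ, g, i⟩ => ⟨min δ θ, lt_min e g, (Nr.and h t f i).mono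
      fun z _ j c k l m y n o => l.elim
        (fun l => j.1 c k l (m.trans_le (min_le_left _ _)) y n (o.trans_le (min_le_left _ _)))
        fun l => j.2 c k l (m.trans_le (min_le_right _ _)) y n (o.trans_le (min_le_right _ _))⟩)
    ⟨1, one_pos, X, t.2.1, a, fun _ _ _ _ _ => False.elim⟩ fun c e => by
      by_cases f : E c U
      · obtain ⟨ε, g, i⟩ := ((op U).1 b1).2 c e f
        obtain ⟨O, j, k, l⟩ := ball h d0 dt op e (half_pos g)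
        exact ⟨O, j, k, ε / 2, half_pos g, X, t.2.1, a, fun z _ _ u m n _ y o p =>
          i y o (by linarith [dt c u y e m o, l u n])⟩
      · obtain ⟨A, B, p, q, r, s, v⟩ := t2 c x e a fun g => f (g ▸ b2)
        obtain ⟨ε, g, i⟩ := ((op A).1 p).2 c e r
        obtain ⟨O, j, k, l⟩ := ball h d0 dt op e (half_pos g)
        exact ⟨O, j, k, ε / 2, half_pos g, B, q, s, fun z w w' u m n o =>
          absurd w' (v z w (i z w (by linarith [dt c u z e m w, l u n])))⟩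
  exact ⟨δ, e, f.mono fun z _ g y i ⟨u, j, k, l⟩ => b3 y i (g u j trivial k y i l)⟩

theorem star3 {ε : Ex E ℛ.R} (a : 0 < ε) : ∃ δ > 0, ∀ x, E x X → V3 X d δ ε x := by
  have := @tR2 _ _ ℛ d _
  have mo : ∀ {δ θ x}, V3 X d δ ε x → θ ≤ δ → V3 X d θ ε x := fun b e y i j z k l u m n =>
    b y i (j.mono e) z k (l.mono e) u m (n.mono e)
  refine (cpt h c (fun P => ∃ δ > 0, ∀ x, E x X → P x → V3 X d δ ε x)
    (fun P Q ⟨δ, e, f⟩ g => ⟨δ, e, fun x i j => f x i (g x i j)⟩)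
    (fun P Q ⟨δ, e, f⟩ ⟨θ, g, i⟩ => ⟨min δ θ, lt_min e g, fun x j k => k.elim
      (fun k => mo (f x j k) (min_le_left _ _)) fun k => mo (i x j k) (min_le_right _ _)⟩)
    ⟨1, one_pos, fun _ _ => False.elim⟩ fun x b => ?_).imp fun δ e =>
      ⟨e.1, fun x b => e.2 x b trivial⟩
  have q0 : Nr E X Tp x fun u => d x u < ε :=
    (ball h d0 dt op b a).imp fun U e => ⟨e.1, e.2.1, fun y _ => e.2.2 y⟩
  obtain ⟨δ1, e1, q1⟩ := star h t c t2 d0 dt op b q0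
  obtain ⟨δ2, e2, q2⟩ := star h t c t2 d0 dt op b q1
  obtain ⟨δ3, e3, q3⟩ := star h t c t2 d0 dt op b q2
  obtain ⟨U, f, g, i⟩ := Nr.and h t q0 q3
  exact ⟨U, f, g, min δ1 (min δ2 δ3), lt_min e1 (lt_min e2 e3), fun v j k y l m z n o u p q =>
    ⟨x, b, (i v j k).1, (i v j k).2 y l (m.mono ((min_le_right _ _).trans (min_le_right _ _))) z n
      (o.mono ((min_le_right _ _).trans (min_le_left _ _))) u p (q.mono (min_le_left _ _))⟩⟩

theorem up_ex {w : Ex E ℛ.R} (a : 0 < w) : ∃ ε > 0, Up X d w ε := by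
  have := @tR2 _ _ ℛ d _
  have : D1 E fun m => ∀ w : Ex E ℛ.R, 0 < w → 1 ≤ up ℛ m * w → ∃ ε > 0, Up X d w ε := inferInstance
  refine (dbl h (fun ρ => ∀ w : Ex E ℛ.R, 0 < w → 1 ≤ ρ * w → ∃ ε > 0, Up X d w ε) one_pos
    (fun w _ b => ⟨1, one_pos, up1 h (by linarith)⟩) (fun ρ ih w b e => ?_) w⁻¹).elim fun ρ b =>
      b.1 w a ((inv_mul_cancel₀ a.ne').symm.trans_le (mul_le_mul_of_nonneg_right b.2.le a.le))
  obtain ⟨θ, f, g⟩ := ih (2 * w) (by linarith) (by linarith)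
  obtain ⟨δ, i, j⟩ := star3 h t c t2 d0 dt op f
  exact ⟨min δ w, lt_min i b, up2 h g (min_le_right _ _) fun x k y l m z n o u p q =>
    j x k y l (m.mono (min_le_left _ _)) z n (o.mono (min_le_left _ _)) u p
      (q.mono (min_le_left _ _))⟩

theorem metr : Metrizable ℛ X Tp := by
  have := @tR2 _ _ ℛ d _
  let F : M → M → Ex E ℛ.R → Prop := fun x y w => ∃ v, v ≤ w ∧ ∃ ε, Up X d v ε ∧ Vq X d ε x y
  have : D3 E fun a b c => F a b (up ℛ c) := inferInstance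
  have mo : ∀ x y v w, F x y v → v ≤ w → F x y w := fun x y v w a b =>
    a.imp fun _ e => ⟨e.1.trans b, e.2⟩
  have f1 : ∀ x, E x X → ∀ w > 0, ∃ ε > 0, ∀ y, d x y < ε → F x y w := fun x a w b =>
    (up_ex h t c t2 d0 dt op b).imp fun ε e => ⟨e.1, fun y f =>
      ⟨w, le_rfl, ε, e.2, x, a, (d0 x a).trans_lt e.1, f⟩⟩
  have tt : ∀ x y, E x X → E y X → F x y 1 := fun x y a b => ⟨1, le_rfl, |d x y| + 1, up1 h le_rfl,
    x, a, by rw [d0 x a]; positivity, by linarith [le_abs_self (d x y)]⟩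
  obtain ⟨δ, _, p⟩ := frink h (X := X) (F := F)
    (fun x a w b => (f1 x a w b).elim fun ε e => e.2 x ((d0 x a).trans_lt e.1)) mo
    (fun x y z u w a b e f ⟨v1, p1, e1, q1, r1⟩ ⟨v2, p2, e2, q2, r2⟩ ⟨v3, p3, e3, q3, r3⟩ => by
      have k : ∀ v ε, v ≤ w → Up X d v ε → e1 ≤ ε → e2 ≤ ε → e3 ≤ ε → F x u (2 * w) :=
        fun v ε i j l m n => j.inv.elim (fun o => mo _ _ _ _ (tt x u a f) (by linarith))
          fun ⟨_, θ, o, s⟩ => ⟨2 * v, by linarith, θ, o,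
            s x a y b (r1.mono l) z e (r2.mono m) u f (r3.mono n)⟩
      rcases le_total e1 e2 with i | i
      · rcases le_total e2 e3 with j | j
        exacts [k _ _ p3 q3 (i.trans j) j le_rfl, k _ _ p2 q2 i le_rfl j]
      · rcases le_total e1 e3 with j | j
        exacts [k _ _ p3 q3 j (i.trans j) le_rfl, k _ _ p1 q1 le_rfl i j])
    (fun x y w a => a.imp fun _ => And.imp_right (·.imp fun _ => And.imp_right
      (·.imp fun _ => And.imp_right And.symm))) tt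
  have f2 : ∀ U x, E U Tp → E x U → ∃ r > 0, ∀ y, E y X → δ x y < r → E y U := fun U x a b => by
    have e := t.1 U a x b
    obtain ⟨θ, f, W, -, g, i⟩ := star h t c t2 d0 dt op e (Q := (E · U)) ⟨U, a, b, fun _ _ => id⟩
    have j := lt_min f one_pos
    refine ⟨min θ 1 / 4, by positivity, fun y k l => ?_⟩
    obtain ⟨v, m, ε, n, o⟩ := (p x y e k).2.2.2.2 _ l
    exact n.inv.elim (fun q => by linarith [min_le_right θ 1])
      fun q => i x e g y k (o.mono (by linarith [min_le_left θ 1, q.1]))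
  refine ⟨fun x y => δ x.1 y.1, intl2_of h (W := ℛ.R) (fun x y => (δ x y).1) fun x y _ _ => (δ x y).2,
    fun x y => ⟨fun a => by_contra fun b => ?_, fun a => a ▸ (p x.1 x.1 x.2 x.2).1⟩,
    fun x y => (p _ _ x.2 y.2).2.1, fun x y z => (p _ _ x.2 y.2).2.2.1 _ z.2, fun U =>
      ⟨fun a => ⟨t.1 U a, fun x b => (f2 U x.1 a b).imp fun r e => ⟨e.1, fun y => e.2 y.1 y.2⟩⟩,
        fun a => (op U).2 ⟨a.1, fun x b e => ?_⟩⟩⟩
  · obtain ⟨U, V, e, -, f, g, i⟩ := t2 x.1 y.1 x.2 y.2 fun e => b (Subtype.ext e)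
    obtain ⟨r, j, k⟩ := f2 U x.1 e f
    exact i y.1 y.2 (k y.1 y.2 (a.trans_lt j)) g
  · obtain ⟨r, f, g⟩ := a.2 ⟨x, b⟩ e
    exact (f1 x b _ (half_pos f)).imp fun ε i => ⟨i.1, fun y j k => g ⟨y, j⟩
      (((p x y b j).2.2.2.1 _ (half_pos f) (i.2 y k)).trans_lt (half_lt_self f))⟩

end Pool.Agent.H40.Zt
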