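import Pool.Agent.H40.Zr5
import Pool.Agent.H40.JzDefs12

set_option autoImplicit false

namespace Pool.Agent.H40.Zt

open Pool.Agent.H40.Bspt Pool.Agent.H40.Jz Classical

variable {M : Type} {E : M → M → Prop} {ℛ : Reals E}

theorem qmetr (h : IsZF E) {X Tp : M} (t : IsTop E X Tp) (c : Compact E X Tp) (t2 : Jz.T2 E X Tp)
    (q : QMetrizable ℛ X Tp) : Metrizable ℛ X Tp := by
  obtain ⟨δ, a, -, b, e, -, f⟩ := q
  obtain ⟨d, _, hd⟩ := intl2_r ℛ a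
  refine metr h (d := d) t c t2 (fun x g => (hd ⟨x, g⟩ ⟨x, g⟩).trans (b _)) (fun x y z i j k => ?_)
    fun U => (f U).trans (and_congr_right fun _ => ⟨fun g x i j => (g ⟨x, i⟩ j).imp fun ε k =>
      ⟨k.1, fun y l m => k.2 ⟨y, l⟩ ((hd ⟨x, i⟩ ⟨y, l⟩).symm.trans_lt m)⟩, fun g x j =>
        (g x.1 x.2 j).imp fun ε k => ⟨k.1, fun y m => k.2 y.1 y.2 ((hd x y).trans_lt m)⟩⟩)
  have := e ⟨x, i⟩ ⟨y, j⟩ ⟨z, k⟩
  rwa [← hd, ← hd, ← hd] at this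

end Pool.Agent.H40.Zt
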