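import Pool.Agent.H40.Zt9

set_option autoImplicit false

/-! Towers of finite layers. -/

namespace Pool.Agent.H40.Zt

open Pool.Agent.H40.Bspt Pool.Agent.H40.Jz Classical

variable {M : Type} {E : M → M → Prop} (h : IsZF E) {A : M}
include h

theorem few_eq (x : M) : Few E (· = x) := few_one h fun _ _ i j => i.trans j.symm

theorem few_pow {P : M → Prop} (c : Few E P) : Few E fun S => ∀ x, E x S → P x := by
  obtain ⟨a, a1, a2⟩ := c
  refine few_mono (finI h (fun a => Few E fun S => Sub E S a) (fun z e => few_one h fun S S' f g =>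
    h.ext _ _ fun x => iff_of_false (fun i => e x (f x i)) fun i => e x (g x i))
    (fun b y s _ ih e => few_mono (few_or h ih (few_img h (fun S' S => ∀ x, E x S ↔ E x S' ∨ x = y) ih
      (fun _ _ _ f g => h.ext _ _ fun x => (f x).trans (g x).symm) fun _ => id)) fun S f => ?_) a a1)
    fun S f x g => a2 x (f x g)
  by_cases g : E y S
  · refine Or.inr ⟨st E S fun x => E x b, fun x i => ((mem_st h).1 i).2, fun x => ?_⟩
    rw [mem_st h]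
    exact ⟨fun i => ((e x).1 (f x i)).imp_left (⟨i, ·⟩), fun i => i.elim (·.1) (· ▸ g)⟩
  · exact Or.inl fun x i => ((e x).1 (f x i)).resolve_right fun j => g (j ▸ i)

theorem pig (P : M → Prop) [D1 E P] (c : Few E P) (g : M → M) [T1 E g] (a : ∀ x, P x → P (g x))
    (b : ∀ x y, P x → P y → g x = g y → x = y) {y : M} (d : P y) : ∃ x, P x ∧ g x = y := by
  have := @l1 _ E P _
  have := @t1 _ E g _
  by_contra e
  have c' : Few E fun x => P x ∧ x ≠ y := few_mono c fun _ => And.left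
  have f := cnt_lt h (d := y) (e := y) (P := fun x => P x ∧ x ≠ y) c (fun _ => And.left) d fun f : P y ∧ y ≠ y => f.2 rfl
  obtain ⟨⟨i, k, j⟩, -⟩ := sz_sp h (fin_fs h (d := y) c')
  obtain ⟨l, hl⟩ := rel h (fun i x => App E k i (g x)) (cnt E y fun x => P x ∧ x ≠ y) (cls E y P)
  have o : ∀ x, E x (cls E y P) → E (g x) (cls E y fun x => P x ∧ x ≠ y) := fun x o =>
    have o := (mem_fs h c).1 o
    (mem_fs h c').2 ⟨a x o, fun p => e ⟨x, o, p⟩⟩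
  have := sz_le h (fin_fs h (d := y) c) i ⟨l, fun x p => (j _ (o x p)).imp fun n q => ⟨q.1, (hl _ _).2
    ⟨q.1, p, q.2.1⟩, fun z r s => b z x ((mem_fs h c).1 r) ((mem_fs h c).1 p) (q.2.2 _ (o z r)
      ((hl _ _).1 s).2.2)⟩⟩
  exact ((mem_sc h).1 this).elim (fun p => h.irr _ (ntr h i f p)) fun p => h.irr _
    ((congrArg (E _) p).mp f)

theorem idx {P : M → Prop} (c : Few E P) : ∃ ι : M → M, T1 E ι ∧ (∀ x, P x → IsNat E (ι x)) ∧
    ∀ x y, P x → P y → ι x = ι y → x = y := by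
  obtain ⟨a, ⟨n, f, a1, a3⟩, a2⟩ := c
  have k : ∀ x, P x → _ := fun x b => the_sp (d := x) (Q := fun i => E i n ∧ App E f i x)
    ((a3.2 x (a2 x b)).imp fun _ => And.left) fun i j c d => (a3.2 x (a2 x b)).elim fun _ e =>
      (e.2 i c).trans (e.2 j d).symm
  exact ⟨fun x => the x fun i => E i n ∧ App E f i x, inferInstance, fun x b => nel h a1 (k x b).1,
    fun x y b c d => (a3.1 _ (k x b).1).elim fun _ e => (e.2 x ⟨a2 x b, (k x b).2⟩).trans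
      (e.2 y ⟨a2 y c, by simpa only [← d] using (k y c).2⟩).symm⟩

theorem dg (A : M) (V : M → M → M) [T2 E V] : ∃ Sx : M → M, T1 E Sx ∧ ∀ R, (∀ z, Ap E R z z → E z A) →
    (∀ z, Ap E R z z → Few E fun S => (∀ l, E l S → ∃ z m, Ap E R z z ∧ IsNat E m ∧ l = pr E z m) ∧
      V R S = z) → (∀ l, E l (Sx R) → ∃ z m, Ap E R z z ∧ IsNat E m ∧ l = pr E z m) ∧
        ¬ Ap E R (V R (Sx R)) (V R (Sx R)) := by
  have := @t2 _ E V _
  obtain ⟨ω, hω⟩ := h.omega'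
  obtain ⟨W, hW⟩ := ex_prod h A ω
  obtain ⟨B, _, hB⟩ : ∃ B : M → M → M → Prop, D3 E B ∧ ∀ R z t, B R z t ↔ ¬ ∃ S,
      (∀ l, E l S → ∃ z m, Ap E R z z ∧ IsNat E m ∧ l = pr E z m) ∧ V R S = z ∧
        ∀ u, IsNat E u → (Ap E S z u ↔ u = t) := ⟨_, inferInstance, fun _ _ _ => Iff.rfl⟩
  have := @l3 _ E B _
  refine ⟨fun R => st E W fun l => ∃ z t, Ap E R z z ∧ l = pr E z t ∧ (IsNat E t ∧ B R z t) ∧
    ∀ m, E m t → ¬ (IsNat E m ∧ B R z m), inferInstance, fun R a b => ?_⟩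
  beta_reduce
  generalize hS : st E W _ = S
  have mS : ∀ l, E l S → _ := fun l d => ((mem_st h).1 (hS ▸ d)).2
  have lS : ∀ l, E l S → ∃ z m, Ap E R z z ∧ IsNat E m ∧ l = pr E z m := fun l d =>
    let ⟨z, t, e, g, i, _⟩ := mS l d
    ⟨z, _, e, i.1, g⟩
  refine ⟨lS, fun g => ?_⟩
  generalize hz : V R S = z at g
  have fw : Few E fun t => IsNat E t ∧ ¬ B R z t := few_img h (fun S t => IsNat E t ∧ ∀ u, IsNat E u →
    (Ap E S z u ↔ u = t)) (b z g) (fun _ t t' j k => (k.2 t j.1).1 ((j.2 t j.1).2 rfl)) fun t ⟨i, j⟩ =>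
      (not_not.1 (mt (hB _ _ _).2 j)).imp fun S k => ⟨⟨k.1, k.2.1⟩, i, k.2.2⟩
  obtain ⟨t, i, j⟩ : ∃ t, IsNat E t ∧ B R z t := by_contra fun i =>
    inf_nat h (few_mono fw fun t j => ⟨j, fun k => i ⟨t, j, k⟩⟩)
  obtain ⟨t, i⟩ := least h (fun t => B R z t) i j
  refine (hB _ _ _).1 i.1.2 ⟨S, lS, hz, fun u k => ⟨fun l => ?_, ?_⟩⟩
  · obtain ⟨z', t', -, p, q⟩ := mS _ l
    obtain ⟨rfl, rfl⟩ := pr_inj h p
    exact least_u h q i
  · rintro rfl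
    exact hS ▸ (mem_st h).2 ⟨hW _ _ (a z g) ((hω _).2 k), z, u, g, rfl, i⟩

/-- disjoint finite layers indexed by an infinite well-order give an injection of labels sets -/
theorem lay : ∃ Q : M → M → M, T2 E Q ∧ ∀ C R, WO E C R → (¬ Few E fun y => Ap E R y y) →
    (∀ x, Ap E R x x → IsFin E x ∧ Sub E x A ∧ (∃ u, E u x) ∧ ∀ y u, Ap E R y y → E u x → E u y → x = y) →
      ∀ S, (∀ l, E l S → ∃ z m, Ap E R z z ∧ IsNat E m ∧ l = pr E z m) → EQ E A (Q R S) ∧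
        ∀ S', (∀ l, E l S' → ∃ z m, Ap E R z z ∧ IsNat E m ∧ l = pr E z m) → Q R S = Q R S' →
          Sub E S S' := by
  obtain ⟨pp, _, hp⟩ := lemF h
  have := @t3 _ E pp _
  obtain ⟨o, ho⟩ := h.emp
  have o0 := h.nat0 ho
  have o1 := nat_sc h o0
  refine ⟨fun R S => rl E A fun x y => x ≠ y ∧ ∃ z m, Ap E S z m ∧ (∃ s, (s = o ∨ s = sc E o) ∧
    E x (pp R z (pi E s m))) ∧ ∃ s, (s = o ∨ s = sc E o) ∧ E y (pp R z (pi E s m)), inferInstance,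
      fun C R w i a => ?_⟩
  obtain ⟨p1, p2⟩ := hp C R w i
  have n : ∀ {s}, s = o ∨ s = sc E o → IsNat E s := fun c => c.elim (· ▸ o0) (· ▸ o1)
  have k : ∀ {z m z' m' s t u}, Ap E R z z ∧ IsNat E m → Ap E R z' z' ∧ IsNat E m' → IsNat E s →
      IsNat E t → E u (pp R z (pi E s m)) → E u (pp R z' (pi E t m')) → z = z' ∧ s = t ∧ m = m' :=
    fun c e g j l q => (p2 _ _ _ _ c.1 (pi_nat h g c.2) e.1 (pi_nat h j e.2) ((a _ (p1 _ _ c.1
      (pi_nat h g c.2))).2.2.2 _ _ (p1 _ _ e.1 (pi_nat h j e.2)) l q)).imp_right (pi_inj h g c.2 j e.2)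
  have lb : ∀ {S z m}, (∀ l, E l S → ∃ z m, Ap E R z z ∧ IsNat E m ∧ l = pr E z m) → Ap E S z m →
      Ap E R z z ∧ IsNat E m := fun b c => by
    obtain ⟨_, _, d, e, f⟩ := b _ c
    obtain ⟨rfl, rfl⟩ := pr_inj h f
    exact ⟨d, e⟩
  refine fun S b => ⟨⟨rl_sub h, fun x y => ?_, fun x y z => ?_, fun x => ?_⟩, fun S' b' c l d => ?_⟩
  · simp only [ap_rl h]
    exact fun ⟨c, d, z, m, e, f, g⟩ => ⟨⟨c.symm, d.symm, z, m, e, g, f⟩, d⟩
  · simp only [ap_rl h]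
    rintro ⟨c, -, u, m, e, f, s, g, j⟩ ⟨c', -, u', m', e', ⟨s', g', j'⟩, f'⟩
    obtain ⟨rfl, -, rfl⟩ := k (lb b e) (lb b e') (n g) (n g') j j'
    exact or_iff_not_imp_left.2 fun l => ⟨⟨c.1, c'.2⟩, l, u, m, e, f, f'⟩
  · simp only [ap_rl h]
    by_cases c : ∃ z m, Ap E S z m ∧ ∃ s, (s = o ∨ s = sc E o) ∧ E x (pp R z (pi E s m))
    · obtain ⟨z, m, c, s, d, e⟩ := c
      have f := fun s (g : IsNat E s) => fin_few (a _ (p1 _ _ (lb b c).1 (pi_nat h g (lb b c).2))).1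
      refine few_mono (few_or h (f _ o0) (f _ o1)) ?_
      rintro y ⟨-, -, z', m', g, ⟨s', j, l⟩, t, q, r⟩
      obtain ⟨rfl, -, rfl⟩ := k (lb b c) (lb b g) (n d) (n j) e l
      exact q.imp (fun e : t = o => e ▸ r) fun e : t = sc E o => e ▸ r
    · exact few_one h fun y _ ⟨_, _, z, m, d, e, _⟩ => absurd ⟨z, m, d, e⟩ c
  · obtain ⟨z, m, e, f, rfl⟩ := b l d
    obtain ⟨-, g, ⟨u, j⟩, -⟩ := a _ (p1 _ _ e (pi_nat h o0 f))
    obtain ⟨-, g', ⟨v, j'⟩, -⟩ := a _ (p1 _ _ e (pi_nat h o1 f))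
    beta_reduce at c
    obtain ⟨-, -, z', m', q, ⟨s, r, t⟩, -⟩ := (ap_rl h).1 ((congrArg (Ap E · u v) c).mp ((ap_rl h).2
      ⟨⟨g u j, g' v j'⟩, fun q => sc_ne h (k ⟨e, f⟩ ⟨e, f⟩ o0 o1 j (q ▸ j')).2.1, z, m, d,
        ⟨_, Or.inl rfl, j⟩, _, Or.inr rfl, j'⟩))
    obtain ⟨rfl, -, rfl⟩ := k ⟨e, f⟩ (lb b' q) o0 (n r) j t
    exact q

theorem few_eqs {I : M → Prop} (c : Few E I) : Few E fun Q => EQ E A Q ∧ ∀ x y, Ap E Q x y → I x :=
  few_mono (few_pow h (few_un h (fun x p => ∃ y, E y c.choose ∧ p = pr E x y) c (fun x => few_img h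
    (fun y p => p = pr E x y) (fin_few c.choose_spec.1) (fun _ _ _ i j => i.trans j.symm) fun _ => id)
    (Q := fun p => ∃ x, I x ∧ ∃ y, E y c.choose ∧ p = pr E x y) fun _ => id)) fun Q d p e => by
      obtain ⟨x, y, -, -, rfl⟩ := (mem_sq h).1 (d.1.1 p e)
      exact ⟨x, d.2 x y e, y, c.choose_spec.2 y (d.2 y x (d.1.2.1 x y e).1), rfl⟩

theorem cnt3 (su : M → M) [T1 E su] (a : ∀ Q, EQ E A Q → IsThree E A (su Q))
    (b : ∀ P Q R, EQ E A P → EQ E A Q → EQ E A R → su P = su Q → su P = su R → P = Q ∨ P = R ∨ Q = R)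
    (I : M → Prop) [D1 E I] (c : Few E I) (d : ∀ x, I x → E x A)
    (e : ∀ p q r s t u, ∃ y, I y ∧ y ≠ p ∧ y ≠ q ∧ y ≠ r ∧ y ≠ s ∧ y ≠ t ∧ y ≠ u) :
    ∃ Q, (EQ E A Q ∧ ∀ x y, Ap E Q x y → I x) ∧ ∃ u, E u (su Q) ∧ ¬ I u := by
  have := @t1 _ E su _
  have := @l1 _ E I _
  by_contra f
  have f : ∀ Q, (EQ E A Q ∧ ∀ x y, Ap E Q x y → I x) → ∀ u, E u (su Q) → I u := fun Q i u j =>
    by_contra fun k => f ⟨Q, i, u, j, k⟩
  have g := few_eqs h (A := A) c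
  obtain ⟨ι, _, i1, i2⟩ := idx h g
  have := @t1 _ E ι _
  obtain ⟨O, _, hO⟩ : ∃ O : M → Prop, D1 E O ∧ ∀ Q, O Q ↔ ∃ P, (EQ E A P ∧ ∀ x y, Ap E P x y → I x) ∧
    su P = su Q ∧ E (ι P) (ι Q) := ⟨_, inferInstance, fun _ => Iff.rfl⟩
  have := @l1 _ E O _
  obtain ⟨G, _, sG, hG⟩ : ∃ G : M → M, T1 E G ∧ (∀ Q, Sub E (G Q) (sq E A)) ∧ ∀ Q x y, Ap E (G Q) x y ↔
      (E x A ∧ E y A) ∧ x ≠ y ∧ (E x (su Q) ∧ E y (su Q) ∨ O Q ∧ (I x ∧ ¬ E x (su Q)) ∧ I y ∧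
        ¬ E y (su Q)) := ⟨fun Q => rl E A _, inferInstance, fun _ => rl_sub h, fun _ _ _ => ap_rl h⟩
  obtain ⟨o, ho⟩ := h.emp
  have k1 : ∀ P Q, EQ E A P → EQ E A Q → G P = G Q → Sub E (su P) (su Q) := fun P Q i j k x l => by
    obtain ⟨p, q, r, p1, q1, r1, n1, n2, n3, s⟩ := a P i
    obtain ⟨p', q', r', -, -, -, -, -, -, s'⟩ := a Q j
    obtain ⟨y, y0, y1, y2, y3, y4, y5, y6⟩ := e p q r p' q' r'
    have m : ∀ z, E z (su P) → E z A := fun z t => by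
      rcases (s z).1 t with rfl | rfl | rfl <;> assumption
    obtain ⟨z, t, u⟩ : ∃ z, E z (su P) ∧ x ≠ z := by
      by_cases t : x = p
      exacts [⟨q, (s q).2 (Or.inr (Or.inl rfl)), t ▸ n1⟩, ⟨p, (s p).2 (Or.inl rfl), t⟩]
    have y7 : ¬ E y (su P) := fun v => ((s y).1 v).elim y1 (·.elim y2 y3)
    rcases ((hG Q x z).1 (k ▸ (hG P x z).2 ⟨⟨m x l, m z t⟩, u, Or.inl ⟨l, t⟩⟩)).2.2 with v | ⟨v, w, -⟩
    · exact v.1
    · exact (((hG P x y).1 (k ▸ (hG Q x y).2 ⟨⟨m x l, d y y0⟩, fun z => y7 (z ▸ l), Or.inr ⟨v, w, y0,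
        fun z => ((s' y).1 z).elim y4 (·.elim y5 y6)⟩⟩)).2.2.elim (y7 ·.2) (·.2.1.2 l)).elim
  have k2 : ∀ P Q, EQ E A P → su P = su Q → G P = G Q → O P → O Q := fun P Q i j k l => by
    obtain ⟨p, q, r, -, -, -, -, -, -, s⟩ := a P i
    obtain ⟨y, y0, y1, y2, y3, -⟩ := e p q r p p p
    obtain ⟨z, z0, z1, z2, z3, z4, -⟩ := e p q r y p p
    have y7 : ¬ E y (su P) := fun v => ((s y).1 v).elim y1 (·.elim y2 y3)
    exact ((hG Q y z).1 (k ▸ (hG P y z).2 ⟨⟨d y y0, d z z0⟩, z4.symm, Or.inr ⟨l, ⟨y0, y7⟩, z0,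
      fun v => ((s z).1 v).elim z1 (·.elim z2 z3)⟩⟩)).2.2.elim (fun v => absurd (j ▸ v.1) y7) And.left
  have k3 : ∀ P Q, (EQ E A P ∧ ∀ x y, Ap E P x y → I x) → (EQ E A Q ∧ ∀ x y, Ap E Q x y → I x) →
      su P = su Q → G P = G Q → ¬ E (ι P) (ι Q) := fun P Q i j k l m => by
    obtain ⟨R, p, q, r⟩ := (hO P).1 (k2 Q P j.1 k.symm l.symm ((hO Q).2 ⟨P, i, k, m⟩))
    rcases b P Q R i.1 j.1 p.1 k q.symm with rfl | rfl | rfl
    exacts [h.irr _ m, h.irr _ r, h.irr _ (ntr h (i1 _ j) r m)]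
  have k4 := pig h _ g G (y := o) (fun Q i => ⟨⟨sG Q, fun x y => ?_, fun x y z => ?_,
    fun x => few_mono c fun y j => ((hG _ _ _).1 j).2.2.elim (f Q i y ·.2) (·.2.2.1)⟩, fun x y j =>
      ((hG _ _ _).1 j).2.2.elim (f Q i x ·.1) (·.2.1.1)⟩) (fun P Q i j k => ?_)
    ⟨⟨fun p i => absurd i (ho p), fun _ _ i => absurd i (ho _), fun _ _ _ i => absurd i (ho _),
      fun _ => few_one h fun _ _ i => absurd i (ho _)⟩, fun _ _ i => absurd i (ho _)⟩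
  · obtain ⟨Q, i, j⟩ := k4
    obtain ⟨p, q, r, p1, q1, -, n1, -, -, s⟩ := a Q i.1
    exact ho _ (j ▸ (hG Q p q).2 ⟨⟨p1, q1⟩, n1, Or.inl ⟨(s p).2 (Or.inl rfl),
      (s q).2 (Or.inr (Or.inl rfl))⟩⟩ :)
  · simp only [hG]
    exact fun j => ⟨⟨j.1.symm, j.2.1.symm, j.2.2.imp And.symm fun k => ⟨k.1, k.2.2, k.2.1⟩⟩, j.2.1⟩
  · simp only [hG]
    rintro ⟨j, -, k⟩ ⟨j', -, k'⟩
    refine or_iff_not_imp_left.2 fun l => ⟨⟨j.1, j'.2⟩, l, ?_⟩
    rcases k with k | k <;> rcases k' with k' | k'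
    exacts [Or.inl ⟨k.1, k'.2⟩, absurd k.2 k'.2.1.2, absurd k'.1 k.2.2.2, Or.inr ⟨k.1, k.2.1, k'.2.2⟩]
  · have l := h.ext _ _ fun x => ⟨k1 P Q i.1 j.1 k x, k1 Q P j.1 i.1 k.symm x⟩
    exact i2 P Q i j (((tri h (i1 P i) (i1 Q j)).resolve_left (k3 P Q i j l k)).resolve_right
      (k3 Q P j i l.symm k.symm))

theorem seven (hA : ¬ IsFin E A) : ∃ B, IsFin E B ∧ Sub E B A ∧
    ∀ p q r s t u, ∃ y, E y B ∧ y ≠ p ∧ y ≠ q ∧ y ≠ r ∧ y ≠ s ∧ y ≠ t ∧ y ≠ u := by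
  have k : ∀ S : Finset M, Few E (· ∈ S) := fun S => Finset.induction_on S (few_one h (by simp))
    fun a S _ ih => few_mono (few_or h (few_eq h a) ih) fun _ => Finset.mem_insert.1
  have i : {x | E x A}.Infinite := fun i => hA (few_fin h (k i.toFinset) fun x a => i.mem_toFinset.2 a)
  obtain ⟨S, a, b⟩ := i.exists_subset_card_eq 7
  obtain ⟨D, c, d⟩ := k S
  refine ⟨st E A fun x => E x D, few_fin h (fin_few c) fun x e => ((mem_st h).1 e).2,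
    fun x e => ((mem_st h).1 e).1, fun p q r s t u => ?_⟩
  obtain ⟨y, e, f⟩ := Finset.exists_mem_notMem_of_card_lt_card (s := {p, q, r, s, t, u}) (t := S)
    (Finset.card_le_six.trans_lt (by omega))
  exact ⟨y, (mem_st h).2 ⟨a e, d y e⟩, by simpa [not_or] using f⟩

theorem thm3 (su : M → M) [T1 E su] (a : ∀ Q, EQ E A Q → IsThree E A (su Q))
    (b : ∀ P Q R, EQ E A P → EQ E A Q → EQ E A R → su P = su Q → su P = su R → P = Q ∨ P = R ∨ Q = R) :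
    IsFin E A := by
  have := @t1 _ E su _
  by_contra hA
  obtain ⟨B, b1, b2, b3⟩ := seven h hA
  obtain ⟨C, hC⟩ := h.power A
  obtain ⟨gp, _, hg⟩ := hess h C
  have := @t3 _ E gp _
  obtain ⟨Q, _, hQ⟩ := lay h (A := A)
  have := @t2 _ E Q _
  obtain ⟨K, _, hK⟩ : ∃ K : M → M → M → Prop, D3 E K ∧ ∀ R X v, K R X v ↔ ∃ x y z, Ap E R x x ∧
    Ap E R y y ∧ Ap E R z z ∧ v = gp R x (gp R y z) ∧ ∀ u, E u X → E u B ∨ E u x ∨ E u y ∨ E u z :=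
    ⟨_, inferInstance, fun _ _ _ => Iff.rfl⟩
  have := @l3 _ E K _
  obtain ⟨S, _, hS⟩ := dg h C fun R S => mn E C R fun v => K R (su (Q R S)) v
  have := @t1 _ E S _
  obtain ⟨N, _, hN⟩ : ∃ N : M → M, T1 E N ∧ ∀ R u, E u (N R) ↔ E u A ∧ ¬ (E u B ∨ ∃ x, Ap E R x x ∧
      E u x) ∧ ((Few E fun y => Ap E R y y) ∧ (∃ P, (EQ E A P ∧ ∀ x y, Ap E P x y → E x B ∨ ∃ z,
        Ap E R z z ∧ E x z) ∧ E u (su P)) ∨ (¬ Few E fun y => Ap E R y y) ∧ E u (su (Q R (S R)))) :=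
    ⟨fun R => st E A _, inferInstance, fun _ _ => mem_st h⟩
  have := @t1 _ E N _
  obtain ⟨tw, -, c⟩ := tower h C fun _ R => if IsFin E (N R) ∧ ∃ u, E u (N R) then N R else C
  obtain ⟨w, c1, c2⟩ := c C
  generalize tw C = R at w c1 c2
  have k1 : ∀ x, Ap E R x x → x = N (seg E R x) ∧ IsFin E x ∧ ∃ u, E u x := fun x d => by
    have := c1 x d
    split_ifs at this with e
    exacts [⟨this, by rwa [← this] at e⟩, absurd (this ▸ w.mem h d) (h.irr C)]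
  have k2 : ∀ x, Ap E R x x → IsFin E x ∧ Sub E x A ∧ (∃ u, E u x) ∧ ∀ y u, Ap E R y y → E u x →
      E u y → x = y := fun x d => by
    have k : ∀ x y u, Ap E R x y → E u x → E u y → x = y := fun x y u d e f => by_contra fun g =>
      ((hN _ u).1 ((k1 y (w.rf _ _ d).2).1 ▸ f :)).2.1 (Or.inr ⟨x, (ap_seg h).2 ⟨(w.rf _ _ d).1, d, g⟩, e⟩)
    exact ⟨(k1 x d).2.1, (hC x).1 (w.mem h d), (k1 x d).2.2, fun y u e f g => (w.tot h d e).elim
      (k x y u · f g) fun i => (k y x u i g f).symm⟩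
  have f3 : ∀ P, EQ E A P → (Few E fun u => E u (su P)) ∧ Sub E (su P) A := fun P d => by
    obtain ⟨p, q, r, p1, q1, r1, -, -, -, s⟩ := a P d
    exact ⟨few_mono (few_or h (few_eq h p) (few_or h (few_eq h q) (few_eq h r))) fun u => (s u).1,
      fun z t => by rcases (s z).1 t with rfl | rfl | rfl <;> assumption⟩
  suffices d : IsFin E (N R) ∧ ∃ u, E u (N R) by
    rw [if_pos d] at c2
    obtain ⟨u, e⟩ := d.2
    exact ((hN R u).1 e).2.1 (Or.inr ⟨_, c2 ((hC _).2 fun u e => ((hN R u).1 e).1), e⟩)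
  by_cases d : Few E fun y => Ap E R y y
  · have e : Few E fun u => E u B ∨ ∃ x, Ap E R x x ∧ E u x := few_or h (fin_few b1) (few_un h
      (fun x u => IsFin E x ∧ E u x) d (fun x => (_root_.em _).elim (fun e => few_mono (fin_few e)
        fun _ => And.right) fun e => few_one h fun _ _ f => absurd f.1 e) fun u ⟨x, e, f⟩ =>
          ⟨x, e, (k2 x e).1, f⟩)
    obtain ⟨P, f, u, g, i⟩ := cnt3 h su a b _ e (fun u f => f.elim (b2 u) fun ⟨x, f, g⟩ =>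
      (k2 x f).2.1 u g) fun p q r s t u => (b3 p q r s t u).imp fun y f => ⟨Or.inl f.1, f.2⟩
    refine ⟨few_fin h (few_un h (fun P u => EQ E A P ∧ E u (su P)) (few_eqs h (A := A) e) (fun P =>
      (_root_.em _).elim (fun j => few_mono (f3 P j).1 fun _ => And.right) fun j => few_one h
        fun _ _ k => absurd k.1 j) fun _ => id) fun u j => ?_,
      u, (hN R u).2 ⟨(f3 P f.1).2 u g, i, Or.inl ⟨d, P, f, g⟩⟩⟩
    obtain ⟨P, k, l⟩ := (((hN R u).1 j).2.2.resolve_right fun k => k.1 d).2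
    exact ⟨P, k, k.1, l⟩
  obtain ⟨g1, g2⟩ := hg R w d
  have q := hQ C R w d k2
  obtain ⟨s1, s2⟩ := hS R (fun z => w.mem h) fun v e => by
    have f : ∀ X, Few E fun P => EQ E A P ∧ su P = X := fun X => by
      by_cases f : ∃ P P', (EQ E A P ∧ su P = X) ∧ (EQ E A P' ∧ su P' = X) ∧ P ≠ P'
      · obtain ⟨P, P', f, g, i⟩ := f
        exact few_mono (few_or h (few_eq h P) (few_eq h P')) fun T j => ((b P P' T f.1 g.1 j.1
          (f.2.trans g.2.symm) (f.2.trans j.2.symm)).resolve_left i).imp Eq.symm Eq.symm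
      · exact few_one h fun P P' g i => by_contra fun j => f ⟨P, P', g, i, j⟩
    have g : Few E fun X => K R X v := by
      by_cases g : ∃ X, K R X v
      · obtain ⟨X, g⟩ := g
        obtain ⟨x, y, z, i, j, k, rfl, -⟩ := (hK _ _ _).1 g
        refine few_mono (few_pow h (few_or h (fin_few b1) (few_or h (fin_few (k2 x i).1) (few_or h
          (fin_few (k2 y j).1) (fin_few (k2 z k).1))))) fun X l => ?_
        obtain ⟨x', y', z', i', j', k', o, p⟩ := (hK _ _ _).1 l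
        obtain ⟨rfl, o⟩ := g2 _ _ _ _ i (g1 _ _ j k) i' (g1 _ _ j' k') o
        obtain ⟨rfl, rfl⟩ := g2 _ _ _ _ j k j' k' ‹_›
        exact p
      · exact few_one h fun X _ i => absurd ⟨X, i⟩ g
    refine few_img h (fun P S => (∀ l, E l S → ∃ z m, Ap E R z z ∧ IsNat E m ∧ l = pr E z m) ∧
      P = Q R S) (few_un h (fun X P => EQ E A P ∧ su P = X) g f fun _ => id) (fun P S S' i j =>
        h.ext _ _ fun x => ⟨(q S i.1).2 S' j.1 (i.2.symm.trans j.2) x, (q S' j.1).2 S i.1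
          (j.2.symm.trans i.2) x⟩) fun S ⟨i, j⟩ => ⟨_, ⟨_, ?_, (q S i).1, rfl⟩, i, rfl⟩
    exact (the_or C _).elim (fun k => absurd ((j.symm.trans k) ▸ w.mem h e) (h.irr C))
      fun k => j ▸ k.1.1
  have e := (q _ s1).1
  refine ⟨few_fin h (f3 _ e).1 fun u j => (((hN R u).1 j).2.2.resolve_left fun k => d k.1).2,
    by_contra fun f => s2 ?_⟩
  obtain ⟨x0, x1⟩ : ∃ x, Ap E R x x := by_contra fun g => d (few_one h fun y _ i => absurd ⟨y, i⟩ g)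
  have g : ∀ u, E u (su (Q R (S R))) → ∃ x, Ap E R x x ∧ (E u B ∨ E u x) := fun u g =>
    (by_contra fun i => f ⟨u, (hN R u).2 ⟨(f3 _ e).2 u g, i, Or.inr ⟨d, g⟩⟩⟩ : _ ∨ _).elim
      (fun i => ⟨x0, x1, Or.inl i⟩) fun ⟨x, i, j⟩ => ⟨x, i, Or.inr j⟩
  obtain ⟨p, q, r, -, -, -, -, -, -, s⟩ := a _ e
  obtain ⟨x, i, i'⟩ := g p ((s p).2 (Or.inl rfl))
  obtain ⟨y, j, j'⟩ := g q ((s q).2 (Or.inr (Or.inl rfl)))
  obtain ⟨z, k, k'⟩ := g r ((s r).2 (Or.inr (Or.inr rfl)))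
  refine (w.mn_sp h (d := C) (fun v => K R (su (Q R (S R))) v) ((hK _ _ _).2 ⟨x, y, z, i, j, k, rfl,
    fun u l => ?_⟩) (g1 _ _ i (g1 _ _ j k))).1.2
  rcases (s u).1 l with rfl | rfl | rfl
  exacts [i'.imp_right Or.inl, j'.imp_right (Or.inr ∘ Or.inl), k'.imp_right (Or.inr ∘ Or.inr)]

end Pool.Agent.H40.Zt
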