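import Pool.Agent.H40.Zr5
import Pool.Agent.H40.Zt10

set_option autoImplicit false
set_option synthInstance.maxSize 2000

/-! Iteration along the natural numbers of a model, and eventual truth. -/

namespace Pool.Agent.H40.Zt

open Pool.Agent.H40.Bspt Pool.Agent.H40.Jz Classical

variable {M : Type} {E : M → M → Prop}

instance (ℛ : Reals E) {α : Type} {s : (α → M) → Ex E ℛ.R} [T E fun v => (s v).1] :
    T E fun v => ((s v)⁻¹).1 :=
  @tRR _ _ ℛ (·⁻¹) (@T.of _ _ _ _ (fun w : Unit → M => the ℛ.R fun z => ∃ r : Ex E ℛ.R, z = r.1 ∧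
    (up ℛ (w ()) * r = 1 ∨ up ℛ (w ()) = 0 ∧ r = 0)) (by infer_instance) fun w => (the_eq
      ⟨_, rfl, (eq_or_ne (up ℛ (w ())) 0).symm.imp mul_inv_cancel₀ fun e => ⟨e, by rw [e, inv_zero]⟩⟩
      fun z ⟨r, a, b⟩ => a.trans (congrArg _ (b.elim eq_inv_of_mul_eq_one_right
        fun e => by rw [e.1, e.2, inv_zero]))).symm) _ _ _

variable (E) in
noncomputable abbrev lst (d : M) (P : M → Prop) : M :=
  the d fun n => (IsNat E n ∧ P n) ∧ ∀ m, E m n → ¬ (IsNat E m ∧ P m)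

variable (E) in
abbrev Ev (P : M → Prop) : Prop := ∃ i, IsNat E i ∧ ∀ j, IsNat E j → E i j → P j

theorem Ev.mono {P Q : M → Prop} (a : Ev E P) (b : ∀ j, IsNat E j → P j → Q j) : Ev E Q :=
  a.imp fun _ c => ⟨c.1, fun j d e => b j d (c.2 j d e)⟩

theorem ev_gt {k : M} (a : IsNat E k) : Ev E (E k) := ⟨k, a, fun _ _ => id⟩

variable (h : IsZF E)
include h

theorem lst_sp {d n : M} (P : M → Prop) [D1 E P] (a : IsNat E n) (b : P n) :
    IsNat E (lst E d P) ∧ P (lst E d P) :=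
  (the_sp (Q := fun n => (IsNat E n ∧ P n) ∧ ∀ m, E m n → ¬ (IsNat E m ∧ P m)) (least h P a b)
    fun _ _ => least_u h).1

theorem self_sc (a : M) : E a (sc E a) := (mem_sc h).2 (Or.inr rfl)

theorem Ev.ex {P : M → Prop} (a : Ev E P) : ∃ j, IsNat E j ∧ P j :=
  let ⟨i, b, c⟩ := a
  ⟨_, nat_sc h b, c _ (nat_sc h b) (self_sc h i)⟩

theorem Ev.and {P Q : M → Prop} (a : Ev E P) (b : Ev E Q) : Ev E fun j => P j ∧ Q j := by
  obtain ⟨i, a1, a2⟩ := a
  obtain ⟨k, b1, b2⟩ := b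
  rcases tri h a1 b1 with c | rfl | c
  · exact ⟨k, b1, fun j d e => ⟨a2 j d (ntr h d c e), b2 j d e⟩⟩
  · exact ⟨i, a1, fun j d e => ⟨a2 j d e, b2 j d e⟩⟩
  · exact ⟨i, a1, fun j d e => ⟨a2 j d e, b2 j d (ntr h d c e)⟩⟩

theorem ev_of {P : M → Prop} (a : ∀ j, IsNat E j → P j) : Ev E P :=
  let ⟨o, ho⟩ := h.emp
  ⟨o, h.nat0 ho, fun j b _ => a j b⟩

theorem ev_all {F : M} (a : IsFin E F) (R : M → M → Prop) [D2 E R] (b : ∀ x, E x F → Ev E (R x)) :
    Ev E fun j => ∀ x, E x F → R x j := by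
  have := @l2 _ E R _
  exact finI h (fun F => (∀ x, E x F → Ev E (R x)) → Ev E fun j => ∀ x, E x F → R x j)
    (fun z c _ => ev_of h fun _ _ x d => absurd d (c x)) (fun u y s _ c d e =>
      (Ev.and h (c fun x f => e x ((d x).2 (Or.inl f))) (e y ((d y).2 (Or.inr rfl)))).mono
        fun j _ f x g => ((d x).1 g).elim (f.1 x) fun i : x = y => i ▸ f.2) F a b

theorem sc_inj {m n : M} (a : IsNat E m) (e : sc E m = sc E n) : m = n :=
  ((mem_sc h).1 (e ▸ self_sc h m)).resolve_left fun b => ((mem_sc h).1 (e ▸ self_sc h n :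
    E n (sc E m))).elim (fun c => h.irr _ (ntr h a b c |> fun d => ntr h a d d |> fun _ => d))
      fun c => h.irr _ (c ▸ b)

theorem chain (C : M → M → Prop) [D2 E C] (a : ∀ n x, IsNat E n → C (sc E n) x → C n x)
    {i j x : M} (b : IsNat E j) (c : E i j) (d : C j x) : C i x := by
  have := @l2 _ E C _
  exact natI h (fun j => E i j → C j x → C i x) (fun z e f => absurd f (e i)) (fun n e f g k =>
    ((mem_sc h).1 g).elim (fun l => f l (a n x e k)) fun l => l ▸ a n x e k) j b c d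

theorem iter (W : M) (a : M → M) [T1 E a] (F : M → M → M → M) [T3 E F] (a1 : ∀ z, E (a z) W)
    (a2 : ∀ z n w, E w W → E (F z n w) W) : ∃ it : M → M → M, T2 E it ∧
      (∀ z o, (∀ y, ¬ E y o) → it z o = a z) ∧
        ∀ z n, IsNat E n → it z (sc E n) = F z n (it z n) := by
  have := @t1 _ E a _
  have := @t3 _ E F _
  let Rc : M → M → M → Prop := fun z n y => ∀ S, (∀ o, (∀ y, ¬ E y o) → App E S o (a z)) →
    (∀ k w, IsNat E k → App E S k w → App E S (sc E k) (F z k w)) → App E S n y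
  have : D3 E Rc := inferInstance
  have r0 : ∀ z o, (∀ y, ¬ E y o) → Rc z o (a z) := fun z o b S c _ => c o b
  have r1 : ∀ z k w, IsNat E k → Rc z k w → Rc z (sc E k) (F z k w) := fun z k w b c S d e =>
    e k w b (c S d e)
  have := @l3 _ E Rc _
  have r2 : ∀ z n y, Rc z n y → (∀ y, ¬ E y n) ∧ y = a z ∨
      ∃ k w, IsNat E k ∧ Rc z k w ∧ n = sc E k ∧ y = F z k w := fun z n y b => by
    obtain ⟨w, hw⟩ := h.omega'
    obtain ⟨S, hS⟩ := rel h (fun n y => Rc z n y ∧ ((∀ y, ¬ E y n) ∧ y = a z ∨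
      ∃ k w, IsNat E k ∧ Rc z k w ∧ n = sc E k ∧ y = F z k w)) w W
    exact ((hS _ _).1 (b S (fun o c => (hS _ _).2 ⟨(hw _).2 (h.nat0 c), a1 z, r0 z o c,
      Or.inl ⟨c, rfl⟩⟩) fun k u c d => (hS _ _).2 ⟨(hw _).2 (nat_sc h c), a2 _ _ _ ((hS _ _).1 d).2.1,
        r1 _ _ _ c ((hS _ _).1 d).2.2.1, Or.inr ⟨k, u, c, ((hS _ _).1 d).2.2.1, rfl, rfl⟩⟩)).2.2.2
  clear_value Rc
  have r3 : ∀ z o, (∀ y, ¬ E y o) → ∀ y, Rc z o y → y = a z := fun z o b y c =>
    (r2 z o y c).elim (·.2) fun ⟨k, _, _, _, d, _⟩ => absurd (d ▸ self_sc h k) (b k)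
  have r4 : ∀ z n w, IsNat E n → (∀ y, Rc z n y → y = w) → ∀ y, Rc z (sc E n) y → y = F z n w :=
    fun z n w b c y d => (r2 z _ y d).elim (fun e => absurd (self_sc h n) (e.1 n))
      fun ⟨k, u, _, e, f, g⟩ => by
        obtain rfl := sc_inj h b f
        rw [g, c u e]
  have r5 : ∀ z n, IsNat E n → ∃ w, Rc z n w ∧ ∀ y, Rc z n y → y = w := fun z =>
    natI h (fun n => ∃ w, Rc z n w ∧ ∀ y, Rc z n y → y = w) (fun o b => ⟨_, r0 z o b, r3 z o b⟩)
      fun n b ⟨w, c, d⟩ => ⟨_, r1 z n w b c, r4 z n w b d⟩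
  refine ⟨fun z n => the z (Rc z n), inferInstance, fun z o b => the_eq (r0 z o b) (r3 z o b),
    fun z n b => ?_⟩
  obtain ⟨w, c, d⟩ := r5 z n b
  show the _ _ = F z n (the _ _)
  rw [the_eq c d, the_eq (r1 z n w b c) (r4 z n w b d)]

end Pool.Agent.H40.Zt
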