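import Pool.Agent.H40.Zr7

set_option autoImplicit false
set_option synthInstance.maxSize 2000

/-! Compact Hausdorff spaces with a base that is a countable union of finite sets. -/

namespace Pool.Agent.H40.Zt

open Pool.Agent.H40.Bspt Pool.Agent.H40.Jz Classical

variable {M : Type} {E : M → M → Prop}

variable (E) in
abbrev Cl (X Tp : M) (P : M → Prop) (x : M) : Prop :=
  E x X ∧ ∀ U, E U Tp → E x U → ∃ y, E y U ∧ P y

variable {X Tp : M}

theorem Cl.mono {P Q : M → Prop} {x : M} (a : Cl E X Tp P x) (b : ∀ y, P y → Q y) :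
    Cl E X Tp Q x := ⟨a.1, fun U c d => (a.2 U c d).imp fun y e => ⟨e.1, b y e.2⟩⟩

theorem cl_of {P : M → Prop} {x : M} (a : E x X) (b : P x) : Cl E X Tp P x :=
  ⟨a, fun _ _ c => ⟨x, c, b⟩⟩

theorem Cl.cl {P : M → Prop} {x : M} (a : Cl E X Tp (Cl E X Tp P) x) : Cl E X Tp P x :=
  ⟨a.1, fun U b c => (a.2 U b c).elim fun _ d => d.2.2 U b d.1⟩

theorem ncl {P : M → Prop} {x : M} (a : E x X) (b : ¬ Cl E X Tp P x) :
    ∃ U, E U Tp ∧ E x U ∧ ∀ y, E y U → ¬ P y :=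
  by_contra fun c => b ⟨a, fun U d e => by_contra fun f => c ⟨U, d, e, fun y g i => f ⟨y, g, i⟩⟩⟩

variable (E) in
structure NB (X Tp : M) (N : M → M → M) : Prop where
  op : ∀ j q, IsNat E j → E (N j q) Tp
  me : ∀ j q, E q X → E q (N j q)
  ba : ∀ O c, E O Tp → E c O → ∃ V, E V Tp ∧ E c V ∧ Ev E fun j => ∀ q, E q V → Sub E (N j q) O
  fw : ∀ j, IsNat E j → Few E fun U => ∃ q, U = N j q

variable (h : IsZF E) (t : IsTop E X Tp)
include h t

theorem op_int {U V : M} (a : E U Tp) (b : E V Tp) :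
    ∃ W, E W Tp ∧ ∀ z, E z W ↔ E z U ∧ E z V :=
  (sep h (E · V) U).imp fun W w => ⟨t.2.2.1 U V W a b w, w⟩

theorem op_of {U : M} (a : ∀ x, E x U → ∃ V, E V Tp ∧ E x V ∧ Sub E V U) : E U Tp := by
  obtain ⟨C, c⟩ := sep h (Sub E · U) Tp
  exact t.2.2.2 C U (fun V d => ((c V).1 d).1) fun z => ⟨fun d => (a z d).imp fun V e =>
    ⟨(c V).2 ⟨e.1, e.2.2⟩, e.2.1⟩, fun ⟨V, d, e⟩ => ((c V).1 d).2 z e⟩

theorem Cl.or {P Q : M → Prop} {x : M} (a : Cl E X Tp (fun y => P y ∨ Q y) x) :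
    Cl E X Tp P x ∨ Cl E X Tp Q x := by
  by_contra b
  obtain ⟨U, c, d, e⟩ := ncl a.1 fun c => b (Or.inl c)
  obtain ⟨V, f, g, i⟩ := ncl a.1 fun c => b (Or.inr c)
  obtain ⟨W, j, k⟩ := op_int h t c f
  obtain ⟨y, l, m⟩ := a.2 W j ((k x).2 ⟨d, g⟩)
  exact m.elim (e y ((k y).1 l).1) (i y ((k y).1 l).2)

theorem cl_un (P : M → Prop) [D1 E P] (a : Few E P) {x : M}
    (b : Cl E X Tp (fun y => ∃ U, P U ∧ E y U) x) : ∃ U, P U ∧ Cl E X Tp (E · U) x := by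
  have := @l1 _ E P _
  obtain ⟨F, a1, a2⟩ := a
  exact finI h (fun F => Cl E X Tp (fun y => ∃ U, E U F ∧ P U ∧ E y U) x →
    ∃ U, P U ∧ Cl E X Tp (E · U) x) (fun z c d => (d.2 X t.2.1 d.1).elim fun _ ⟨_, U, e, _⟩ =>
      absurd e (c U)) (fun u y s _ c d e => (Cl.or h t (Q := fun z => P y ∧ E z y)
        (e.mono fun z ⟨U, f, g⟩ => ((d U).1 f).imp (⟨U, ·, g⟩) fun i : U = y => i ▸ g)).elim c
          fun f => ⟨y, (f.2 X t.2.1 f.1).elim fun _ g => g.2.1, f.mono fun _ => And.right⟩) F a1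
    (b.mono fun y ⟨U, c, d⟩ => ⟨U, a2 U c, c, d⟩)

theorem ex_nb (σ : M → M) [T1 E σ] (s1 : ∀ n, IsNat E n → IsFin E (σ n) ∧ Sub E (σ n) Tp)
    (s2 : ∀ U x, E U Tp → E x U → ∃ n V, IsNat E n ∧ E V (σ n) ∧ E x V ∧ Sub E V U) :
    ∃ N : M → M → M, T2 E N ∧ NB E X Tp N := by
  have := @t1 _ E σ _
  have f : ∀ j, IsNat E j → Few E fun U => E U Tp ∧ ∃ i, E i j ∧ E U (σ i) := fun j a =>
    few_un h (fun i U => IsNat E i ∧ E U (σ i)) (fin_few (nat_fin h a)) (fun i => by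
      by_cases b : IsNat E i
      exacts [few_mono (fin_few (s1 i b).1) fun _ => And.right, few_one h fun _ _ c => absurd c.1 b])
      fun U ⟨_, i, b, c⟩ => ⟨i, b, nel h a b, c⟩
  let I : M → M := fun S => st E X fun y => ∀ V, E V S → E y V
  let S : M → M → M := fun j q => st E Tp fun U => (∃ i, E i j ∧ E U (σ i)) ∧ E q U
  have i1 : ∀ S y, E y (I S) ↔ E y X ∧ ∀ V, E V S → E y V := fun S y => mem_st h
  have i2 : ∀ j q U, E U (S j q) ↔ E U Tp ∧ (∃ i, E i j ∧ E U (σ i)) ∧ E q U := fun j q U => mem_st h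
  have : T1 E I := inferInstance
  have : T2 E S := inferInstance
  clear_value I S
  have := @t1 _ E I _
  have := @t2 _ E S _
  have i3 : ∀ F, IsFin E F → Sub E F Tp → E (I F) Tp :=
    finI h (fun F => Sub E F Tp → E (I F) Tp) (fun z a _ => h.ext X (I z) (fun y => by
      rw [i1]; exact ⟨fun b => ⟨b, fun V c => absurd c (a V)⟩, And.left⟩) ▸ t.2.1)
      fun u y s _ a b c => t.2.2.1 _ _ _ (a fun z d => c z ((b z).2 (Or.inl d)))
        (c y ((b y).2 (Or.inr rfl))) fun z => by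
          rw [i1, i1]
          exact ⟨fun d => ⟨⟨d.1, fun V e => d.2 V ((b V).2 (Or.inl e))⟩, d.2 y ((b y).2 (Or.inr rfl))⟩,
            fun d => ⟨d.1.1, fun V e => ((b V).1 e).elim (d.1.2 V) fun g : V = y => g ▸ d.2⟩⟩
  refine ⟨fun j q => I (S j q), inferInstance, fun j q a => i3 _ (few_fin h (f j a) fun U b =>
    ((i2 _ _ _).1 b).imp_right And.left) fun U b => ((i2 _ _ _).1 b).1,
    fun j q a => (i1 _ _).2 ⟨a, fun V b => ((i2 _ _ _).1 b).2.2⟩, fun O c a b => ?_, fun j a =>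
      few_img h (fun S U => U = I S) (few_pow h (f j a)) (fun _ _ _ c d => c.trans d.symm)
        fun U ⟨q, b⟩ => ⟨S j q, fun x c => ((i2 _ _ _).1 c).imp_right And.left, b⟩⟩
  obtain ⟨n, V, d, e, g, i⟩ := s2 O c a b
  exact ⟨V, (s1 n d).2 V e, g, n, d, fun j _ k q l y m => i y (((i1 _ _).1 m).2 V
    ((i2 _ _ _).2 ⟨(s1 n d).2 V e, ⟨n, k, e⟩, l⟩))⟩

variable (c : Compact E X Tp)
include c

theorem nest (C : M → M → Prop) [D2 E C] (a : ∀ n x, IsNat E n → C (sc E n) x → C n x)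
    (b : ∀ n, IsNat E n → ∃ x, E x X ∧ C n x) : ∃ x, ∀ n, IsNat E n → Cl E X Tp (C n) x := by
  have := @l2 _ E C _
  by_contra d
  obtain ⟨n, e, f⟩ := Ev.ex h (cpt h c (fun P => Ev E fun n => ∀ x, E x X → P x → ¬ C n x)
    (fun P Q e f => e.mono fun j _ g x i k => g x i (f x i k))
    (fun P Q e f => (Ev.and h e f).mono fun j _ g x i k => k.elim (g.1 x i) (g.2 x i))
    (ev_of h fun _ _ _ _ => False.elim) fun x e => by
      obtain ⟨n, f⟩ := not_forall.1 (not_exists.1 d x)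
      obtain ⟨f, g⟩ := Classical.not_imp.1 f
      exact (ncl e g).imp fun U i => ⟨i.1, i.2.1, n, f, fun j k l y _ m o =>
        i.2.2 y m (chain h C a k l o)⟩)
  obtain ⟨x, g, i⟩ := b n e
  exact f x g trivial i

variable (t2 : Jz.T2 E X Tp)
include t2

theorem reg {x O : M} (a : E O Tp) (b : E x O) :
    ∃ W, E W Tp ∧ E x W ∧ ∀ y, Cl E X Tp (E · W) y → E y O := by
  have e := t.1 O a x b
  refine (cpt h c (fun P => ∃ W, E W Tp ∧ E x W ∧ ∀ y, P y → Cl E X Tp (E · W) y → E y O)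
    (fun P Q => fun ⟨W, f, g, i⟩ j => ⟨W, f, g, fun y k l => i y (j y l.1 k) l⟩)
    (fun P Q ⟨U, f, g, i⟩ ⟨V, j, k, l⟩ => (op_int h t f j).imp fun W m => ⟨m.1, (m.2 x).2 ⟨g, k⟩,
      fun y n o => n.elim (i y · (o.mono fun z p => ((m.2 z).1 p).1))
        (l y · (o.mono fun z p => ((m.2 z).1 p).2))⟩)
    ⟨X, t.2.1, e, fun _ => False.elim⟩ fun u f => ?_).imp fun W f => ⟨f.1, f.2.1, fun y => f.2.2 y trivial⟩
  by_cases g : E u O
  · exact ⟨O, a, g, X, t.2.1, e, fun _ i _ => i⟩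
  · obtain ⟨A, B, p, q, r, s, v⟩ := t2 u x f e fun i => g (i ▸ b)
    exact ⟨A, p, r, B, q, s, fun y i j => (j.2 A p i).elim fun z k =>
      absurd k.2 (v z (t.1 A p z k.1) k.1)⟩

variable {N : M → M → M} (nb : NB E X Tp N)
include nb

theorem nb_reg {x O : M} (a : E O Tp) (b : E x O) :
    Ev E fun j => ∀ y, Cl E X Tp (E · (N j x)) y → E y O := by
  obtain ⟨W, d, e, f⟩ := reg h t c t2 a b
  obtain ⟨V, -, g, i⟩ := nb.ba W x d e
  exact i.mono fun j _ k y l => f y (l.mono (k x g))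

theorem nb_sep {x y : M} (a : E x X) (b : E y X) (d : x ≠ y) :
    Ev E fun j => ∀ z, Cl E X Tp (E · (N j x)) z → ¬ Cl E X Tp (E · (N j y)) z := by
  obtain ⟨A, B, p, q, r, s, v⟩ := t2 x y a b d
  exact (Ev.and h (nb_reg h t c t2 nb p r) (nb_reg h t c t2 nb q s)).mono fun j _ e z f g =>
    v z f.1 (e.1 z f) (e.2 z g)

theorem nb_uq [T2 E N] {x y : M} (a : E x X) (b : E y X) (d : x ≠ y) : Ev E fun j => ∀ q, E q X →
    Cl E X Tp (E · (N j q)) x → ¬ Cl E X Tp (E · (N j q)) y := by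
  have := @Zt.t2 _ E N _
  refine (cpt h c (fun P => Ev E fun j => ∀ q, E q X → P q →
    Cl E X Tp (E · (N j q)) x → ¬ Cl E X Tp (E · (N j q)) y)
    (fun P Q e f => e.mono fun j _ g x i k => g x i (f x i k))
    (fun P Q e f => (Ev.and h e f).mono fun j _ g x i k => k.elim (g.1 x i) (g.2 x i))
    (ev_of h fun _ _ _ _ => False.elim) fun u e => ?_).mono fun j _ e q f => e q f trivial
  have k : ∀ z, E z X → u ≠ z → ∃ V, E V Tp ∧ E u V ∧ Ev E fun j => ∀ q, E q V →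
      ¬ Cl E X Tp (E · (N j q)) z := fun z f g => by
    obtain ⟨A, B, p, q, r, s, v⟩ := t2 u z e f g
    exact (nb.ba A u p r).imp fun V i => ⟨i.1, i.2.1, i.2.2.mono fun j _ k w l m =>
      (m.2 B q s).elim fun o n => v o (t.1 B q o n.1) (k w l o n.2) n.1⟩
  by_cases f : u = x
  · exact (k y b (f ▸ d)).imp fun V i => ⟨i.1, i.2.1, i.2.2.mono fun j _ k q _ l _ => k q l⟩
  · exact (k x a f).imp fun V i => ⟨i.1, i.2.1, i.2.2.mono fun j _ k q _ l m => absurd m (k q l)⟩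

end Pool.Agent.H40.Zt
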