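import Pool.Agent.H40.Zr8

set_option autoImplicit false
set_option synthInstance.maxSize 2000

/-! A Baire category argument along a tower of finite sets. -/

namespace Pool.Agent.H40.Zt

open Pool.Agent.H40.Bspt Pool.Agent.H40.Jz Classical

variable {M : Type} {E : M → M → Prop} {X Tp : M} (h : IsZF E)
include h

theorem chs {A R : M} (w : WO E A R) (κ : M → M) [T1 E κ] (Q : M → Prop) [D1 E Q]
    (k1 : ∀ x, IsNat E (κ x)) (k2 : ∀ x, Q x → ∃ F, Ap E R F F ∧ E x F ∧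
      ∀ u v, E u F → E v F → κ u = κ v → u = v) :
    ∃ ch : M → M, T1 E ch ∧ ∀ Y, (∃ y, E y Y ∧ Q y) → E (ch Y) Y ∧ Q (ch Y) := by
  have := @t1 _ E κ _
  have := @l1 _ E Q _
  let G : M → M → Prop := fun Y F => (∀ u v, E u F → E v F → κ u = κ v → u = v) ∧
    ∃ x, E x F ∧ E x Y ∧ Q x
  have : D2 E G := inferInstance
  have := @l2 _ E G _
  let F : M → M := fun Y => the Y fun F => G Y F ∧ Ap E R F F ∧ ∀ F', G Y F' → Ap E R F' F' → Ap E R F F'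
  have f1 : ∀ Y, (∃ y, E y Y ∧ Q y) → G Y (F Y) := fun Y ⟨y, a, b⟩ => by
    obtain ⟨F', c, d, e⟩ := k2 y b
    exact (the_sp (Q := fun F => G Y F ∧ Ap E R F F ∧ ∀ F', G Y F' → Ap E R F' F' → Ap E R F F')
      (w.lst h (G Y) ⟨e, y, d, a, b⟩ c) fun u v f g => w.an _ _ (f.2.2 v g.1 g.2.1)
        (g.2.2 u f.1 f.2.1)).1
  have : T1 E F := inferInstance
  clear_value F
  have := @t1 _ E F _
  refine ⟨fun Y => the Y fun x => (E x (F Y) ∧ E x Y ∧ Q x) ∧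
    κ x = lst E Y fun k => ∃ x, (E x (F Y) ∧ E x Y ∧ Q x) ∧ κ x = k, inferInstance, fun Y a => ?_⟩
  obtain ⟨b, x, c⟩ := f1 Y a
  exact (the_sp (Q := fun x => (E x (F Y) ∧ E x Y ∧ Q x) ∧
    κ x = lst E Y fun k => ∃ x, (E x (F Y) ∧ E x Y ∧ Q x) ∧ κ x = k)
    (lst_sp h (fun k => ∃ x, (E x (F Y) ∧ E x Y ∧ Q x) ∧ κ x = k) (k1 x) ⟨x, c, rfl⟩).2
    fun u v d e => b u v d.1.1 e.1.1 (d.2.trans e.2.symm)).1.2

variable (t : IsTop E X Tp) (c : Compact E X Tp) (t2 : Jz.T2 E X Tp) {N : M → M → M}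
  (nb : NB E X Tp N) [T2 E N]
include t c t2 nb

/-- a closed set missing countably many nowhere dense sets, uniformly in a parameter -/
theorem bct (P : M → Prop) [D1 E P] (p1 : ∀ x, P x → E x X) (p2 : ∀ x, Cl E X Tp P x → P x)
    (p3 : ∃ x, P x) (Q : M → M → M → Prop) [D3 E Q] : ∃ K : M → M, T1 E K ∧ ∀ R,
      (∀ n O, IsNat E n → E O Tp → (∃ p, E p O ∧ P p) → ∃ p, E p O ∧ P p ∧ ¬ Cl E X Tp (Q R n) p) →
      Closed E X Tp (K R) ∧ (∃ x, E x (K R)) ∧ ∀ x, E x (K R) → P x ∧ ∀ n, IsNat E n → ¬ Q R n x := by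
  have := @l1 _ E P _
  have := @l3 _ E Q _
  have := @Zt.t2 _ E N _
  obtain ⟨W, hW⟩ := h.power X
  let G : M → M → M → M → M → Prop := fun R n O j q => P q ∧
    ∀ y, Cl E X Tp (E · (N j q)) y → E y O ∧ ¬ Q R n y
  let J : M → M → M → M := fun R n O => lst E O fun j => ∃ q, G R n O j q
  obtain ⟨O, _, o1, o2⟩ := iter h W (fun _ => X) (fun R n O => st E X fun y =>
    ∃ q, G R n O (J R n O) q ∧ E y (N (J R n O) q)) (fun _ => (hW X).2 fun _ => id)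
    fun R n O _ => (hW _).2 fun y a => ((mem_st h).1 a).1
  have := @Zt.t2 _ E O _
  refine ⟨fun R => st E X fun x => ∀ n, IsNat E n → Cl E X Tp (fun y => P y ∧ E y (O R n)) x,
    inferInstance, fun R a => ?_⟩
  have o3 : ∀ n y, IsNat E n → (E y (O R (sc E n)) ↔ E y X ∧
      ∃ q, G R n (O R n) (J R n (O R n)) q ∧ E y (N (J R n (O R n)) q)) := fun n y b => by
    rw [o2 R n b]; exact mem_st h
  have o4 : ∀ n, IsNat E n → E (O R n) Tp → (∃ p, E p (O R n) ∧ P p) →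
      IsNat E (J R n (O R n)) ∧ ∃ q, G R n (O R n) (J R n (O R n)) q := fun n b d e => by
    obtain ⟨p, f, g, i⟩ := a n _ b d e
    obtain ⟨U, j, k, l⟩ := ncl (p1 p g) i
    obtain ⟨i, m, o⟩ := Ev.ex h (Ev.and h (nb_reg h t c t2 nb d f) (nb_reg h t c t2 nb j k))
    exact lst_sp h (fun j => ∃ q, G R n (O R n) j q) m ⟨p, g, fun y r => ⟨o.1 y r, l y (o.2 y r)⟩⟩
  have o5 : ∀ n, IsNat E n → E (O R n) Tp ∧ ∃ p, E p (O R n) ∧ P p :=
    natI h (fun n => E (O R n) Tp ∧ ∃ p, E p (O R n) ∧ P p) (fun o b => by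
      rw [o1 R o b]; exact ⟨t.2.1, p3.imp fun p d => ⟨p1 p d, d⟩⟩) fun n b d => by
        obtain ⟨e, q, f⟩ := o4 n b d.1 d.2
        refine ⟨op_of h t fun x g => ?_, q, (o3 n q b).2 ⟨p1 q f.1, q, f, nb.me _ _ (p1 q f.1)⟩, f.1⟩
        obtain ⟨-, r, i, j⟩ := (o3 n x b).1 g
        exact ⟨_, nb.op _ r e, j, fun y k => (o3 n y b).2 ⟨t.1 _ (nb.op _ r e) y k, r, i, k⟩⟩
  have o6 : ∀ n x, IsNat E n → Cl E X Tp (E · (O R (sc E n))) x → E x (O R n) ∧ ¬ Q R n x :=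
    fun n x b d => by
      obtain ⟨U, ⟨q, f, rfl⟩, g⟩ := cl_un h t (fun U => ∃ q, G R n (O R n) (J R n (O R n)) q ∧
        U = N (J R n (O R n)) q) (few_mono (nb.fw _ (o4 n b (o5 n b).1 (o5 n b).2).1)
          fun U e => e.imp fun _ => And.right) (d.mono fun y e => ((o3 n y b).1 e).2.elim
            fun q f => ⟨_, ⟨q, f.1, rfl⟩, f.2⟩)
      exact f.2 x g
  refine ⟨⟨fun x b => ((mem_st h).1 b).1, fun x b d => ?_⟩, (nest h t c (fun n y => P y ∧ E y (O R n))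
    (fun n x b d => ⟨d.1, (o6 n x b (cl_of (p1 x d.1) d.2)).1⟩) fun n b => (o5 n b).2.imp fun p d =>
      ⟨p1 p d.2, d.2, d.1⟩).imp fun x b => ?_, fun x b => ?_⟩
  · obtain ⟨n, e⟩ := not_forall.1 fun e => d ((mem_st h).2 ⟨b, e⟩)
    obtain ⟨e, f⟩ := Classical.not_imp.1 e
    exact (ncl b f).imp fun U g => ⟨g.1, g.2.1, fun y i j =>
      ((((mem_st h).1 j).2 n e).2 U g.1 i).elim fun z k => g.2.2 z k.1 k.2⟩
  · obtain ⟨o, ho⟩ := h.emp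
    exact (mem_st h).2 ⟨(b o (h.nat0 ho)).1, b⟩
  · obtain ⟨o, ho⟩ := h.emp
    have d := ((mem_st h).1 b).2
    exact ⟨p2 x ((d o (h.nat0 ho)).mono fun _ => And.left), fun n e =>
      (o6 n x e ((d _ (nat_sc h e)).mono fun _ => And.right)).2⟩

theorem dense_ch (P : M → Prop) [D1 E P] (p1 : ∀ x, P x → E x X) (p2 : ∀ x, Cl E X Tp P x → P x)
    (p3 : ∃ x, P x) (p4 : ∀ x U, P x → E U Tp → E x U → ∃ y, E y U ∧ P y ∧ y ≠ x) (m : M → M)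
    [T1 E m] (m1 : ∀ F, Closed E X Tp F → (∃ x, E x F) →
      IsFin E (m F) ∧ (∃ x, E x (m F)) ∧ Sub E (m F) F) :
    ∃ (Q : M → Prop) (ch : M → M), D1 E Q ∧ T1 E ch ∧ (∃ q, Q q) ∧ (∀ q, Q q → E q X) ∧
      (∀ q U, Q q → E U Tp → E q U → ∃ y, E y U ∧ Q y ∧ y ≠ q) ∧
        ∀ Y, (∃ y, E y Y ∧ Q y) → E (ch Y) Y ∧ Q (ch Y) := by
  have := @l1 _ E P _
  have := @Zt.t2 _ E N _
  have := @t1 _ E m _
  let Q : M → M → M → Prop := fun R n x => P x ∧ ∃ F, Ap E R F F ∧ E x F ∧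
    ∀ u v, E u F → E v F → N n u = N n v → u = v
  have : D3 E Q := inferInstance
  have := @l3 _ E Q _
  obtain ⟨K, _, k⟩ := bct h t c t2 nb P p1 p2 p3 Q
  have := @t1 _ E K _
  obtain ⟨W, hW⟩ := h.power X
  obtain ⟨tw, -, w⟩ := tower h W fun _ R => m (K R)
  obtain ⟨w, -, w2⟩ := w X
  generalize tw X = R at w w2
  by_cases a : ∀ n O, IsNat E n → E O Tp → (∃ p, E p O ∧ P p) →
    ∃ p, E p O ∧ P p ∧ ¬ Cl E X Tp (Q R n) p
  · obtain ⟨b, d, e⟩ := k R a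
    obtain ⟨f, ⟨x, g⟩, i⟩ := m1 _ b d
    have j : Sub E (m (K R)) X := fun y j => b.1 y (i y j)
    obtain ⟨n, l, o⟩ := Ev.ex h (ev_all h f (fun u n => ∀ v, E v (m (K R)) → N n u = N n v → u = v)
      fun u l => ev_all h f (fun v n => N n u = N n v → u = v) fun v o => by
        by_cases p : u = v
        · exact ev_of h fun _ _ _ => p
        · exact (nb_sep h t c t2 nb (j u l) (j v o) p).mono fun n _ q r => absurd
            (cl_of (j u l) (r ▸ nb.me n u (j u l))) (q u (cl_of (j u l) (nb.me n u (j u l)))))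
    exact absurd ⟨(e x (i x g)).1, _, w2 ((hW _).2 j), g, fun u v p q => o u p v q⟩
      ((e x (i x g)).2 n l)
  push Not at a
  obtain ⟨n, O, a, b, ⟨p, d, e⟩, f⟩ := a
  obtain ⟨ι, _, i1, i2⟩ := idx h (nb.fw n a)
  have := @t1 _ E ι _
  obtain ⟨ch, i, j⟩ := chs h w (fun x => ι (N n x)) (fun x => E x O ∧ Q R n x)
    (fun x => i1 _ ⟨x, rfl⟩) fun x g => g.2.2.imp fun F i => ⟨i.1, i.2.1, fun u v j k l =>
      i.2.2 u v j k (i2 _ _ ⟨u, rfl⟩ ⟨v, rfl⟩ l)⟩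
  refine ⟨fun x => E x O ∧ Q R n x, ch, inferInstance, i, (f p d e).2 O b d,
    fun q g => p1 q g.2.1, fun q U g k l => ?_, j⟩
  obtain ⟨V, o, r⟩ := op_int h t k b
  obtain ⟨y, s, u, v⟩ := p4 q V g.2.1 o ((r q).2 ⟨l, g.1⟩)
  obtain ⟨A, B, a1, -, a2, a3, a4⟩ := t2 y q (p1 y u) (p1 q g.2.1) v
  obtain ⟨V', b1, b2⟩ := op_int h t o a1
  obtain ⟨z, c1, c2⟩ := (f y ((r y).1 s).2 u).2 V' b1 ((b2 y).2 ⟨s, a2⟩)
  exact ⟨z, ((r z).1 ((b2 z).1 c1).1).1, ⟨((r z).1 ((b2 z).1 c1).1).2, c2⟩, fun i =>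
    a4 z (p1 z c2.1) ((b2 z).1 c1).2 (i ▸ a3)⟩

end Pool.Agent.H40.Zt
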