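import Pool.Agent.H40.Zt1

set_option autoImplicit false

/-! Counting, a pairing function, well-orders and towers inside a model. -/

namespace Pool.Agent.H40.Zt

open Pool.Agent.H40.Bspt Pool.Agent.H40.Jz Classical

variable {M : Type} {E : M → M → Prop}

variable (E) in
noncomputable abbrev cls (d : M) (P : M → Prop) : M := the d fun y => ∀ z, E z y ↔ P z

variable (E) in
noncomputable abbrev cnt (d : M) (P : M → Prop) : M := sz E (cls E d P)

variable (E) in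
noncomputable def mx (a b : M) : M := if E a b then b else a

variable (E) in
def Pl (a b m n : M) : Prop := E (mx E a b) (mx E m n) ∨ mx E a b = mx E m n ∧ (E a m ∨ a = m ∧ E b n)

variable (E) in
noncomputable def pi (m n : M) : M :=
  cnt E m fun p => ∃ a b, IsNat E a ∧ IsNat E b ∧ p = pr E a b ∧ Pl E a b m n

variable (E) in
noncomputable def sq (A : M) : M := cls E A fun p => ∃ x y, E x A ∧ E y A ∧ p = pr E x y

variable (E) in
abbrev Ap (R x y : M) : Prop := E (pr E x y) R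

variable (E) in
noncomputable abbrev rl (A : M) (Q : M → M → Prop) : M :=
  st E (sq E A) fun p => ∃ x y, p = pr E x y ∧ Q x y

variable (E) in
structure WO (A R : M) : Prop where
  sub : Sub E R (sq E A)
  rf : ∀ x y, Ap E R x y → Ap E R x x ∧ Ap E R y y
  an : ∀ x y, Ap E R x y → Ap E R y x → x = y
  tr : ∀ x y z, Ap E R x y → Ap E R y z → Ap E R x z
  le : ∀ S x, E x S → Ap E R x x → ∃ m, E m S ∧ Ap E R m m ∧ ∀ y, E y S → Ap E R y y → Ap E R m y

variable (E) in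
noncomputable def seg (R x : M) : M := st E R fun p => ∃ a b, p = pr E a b ∧ Ap E R b x ∧ b ≠ x

variable (E) in
noncomputable def pos (R z : M) : M := cnt E z fun y => Ap E R y z ∧ y ≠ z

section
variable {α : Type} {s t u r : (α → M) → M}
instance [T E s] [T E t] : T E fun v => mx E (s v) (t v) :=
  @t2 _ E (mx E) (by unfold mx; infer_instance) _ _ _ _ _
instance [T E s] [T E t] [T E u] [T E r] : D E fun v => Pl E (s v) (t v) (u v) (r v) :=
  l4 (D.df (self := by unfold Pl; infer_instance))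
instance [T E s] [T E t] : T E fun v => pi E (s v) (t v) :=
  @t2 _ E (pi E) (by unfold pi; infer_instance) _ _ _ _ _
instance [T E s] : T E fun v => sq E (s v) := @t1 _ E (sq E) (by unfold sq; infer_instance) _ _ _
instance [T E s] [T E t] : D E fun v => s v ≠ t v := inferInstanceAs (D E fun v => ¬ s v = t v)
instance [T E s] [T E t] : T E fun v => seg E (s v) (t v) :=
  @t2 _ E (seg E) (by unfold seg; infer_instance) _ _ _ _ _
instance [T E s] [T E t] : T E fun v => pos E (s v) (t v) :=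
  @t2 _ E (pos E) (by unfold pos; infer_instance) _ _ _ _ _
instance [T E s] [T E t] : D E fun v => WO E (s v) (t v) :=
  @l2 _ E (WO E) ⟨(D.df (P := fun w : Bool → M => Sub E (w true) (sq E (w false)) ∧
    (∀ x y, Ap E (w true) x y → Ap E (w true) x x ∧ Ap E (w true) y y) ∧
    (∀ x y, Ap E (w true) x y → Ap E (w true) y x → x = y) ∧
    (∀ x y z, Ap E (w true) x y → Ap E (w true) y z → Ap E (w true) x z) ∧
    ∀ S x, E x S → Ap E (w true) x x → ∃ m, E m S ∧ Ap E (w true) m m ∧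
      ∀ y, E y S → Ap E (w true) y y → Ap E (w true) m y)).congr fun _ =>
      ⟨fun a => ⟨a.1, a.2.1, a.2.2.1, a.2.2.2.1, a.2.2.2.2⟩, fun a => ⟨a.1, a.2, a.3, a.4, a.5⟩⟩⟩ _ _ _ _ _
end

variable (h : IsZF E)
include h

theorem mem_cls {d z U : M} {P : M → Prop} [D1 E P] (c : ∀ z, P z → E z U) : E z (cls E d P) ↔ P z :=
  the_sp (Q := fun y => ∀ z, E z y ↔ P z) ((sep h P U).imp fun _ a z => (a z).trans
    (and_iff_right_of_imp (c z))) (fun _ _ b c => h.ext _ _ fun w => (b w).trans (c w).symm) z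

theorem mem_fs {d z : M} {P : M → Prop} [D1 E P] (c : Few E P) : E z (cls E d P) ↔ P z :=
  c.elim fun _ a => mem_cls h a.2

theorem fin_fs {d : M} {P : M → Prop} [D1 E P] (c : Few E P) : IsFin E (cls E d P) :=
  few_fin h c fun _ => (mem_fs h c).1

theorem cnt_nat {d : M} {P : M → Prop} [D1 E P] (c : Few E P) : IsNat E (cnt E d P) :=
  sz_nat h (fin_fs h c)

theorem cnt_lt {d e y : M} {P Q : M → Prop} [D1 E P] [D1 E Q] (c : Few E Q) (a : ∀ z, P z → Q z)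
    (b : Q y) (f : ¬ P y) : E (cnt E d P) (cnt E e Q) :=
  have g := few_mono c a
  sz_lt h (fin_fs h c) (fun z k => (mem_fs h c).2 (a z ((mem_fs h g).1 k))) ((mem_fs h c).2 b)
    fun k => f ((mem_fs h g).1 k)

theorem mx_sp {a b : M} (c : IsNat E a) (d : IsNat E b) :
    IsNat E (mx E a b) ∧ E a (sc E (mx E a b)) ∧ E b (sc E (mx E a b)) := by
  unfold mx
  split_ifs with e
  · exact ⟨d, (mem_sc h).2 (Or.inl e), (mem_sc h).2 (Or.inr rfl)⟩
  · exact ⟨c, (mem_sc h).2 (Or.inr rfl), (mem_sc h).2 (((tri h c d).resolve_left e).symm.imp_right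
      Eq.symm)⟩

theorem pi_few {m n : M} (c : IsNat E m) (d : IsNat E n) :
    Few E fun p => ∃ a b, IsNat E a ∧ IsNat E b ∧ p = pr E a b ∧ Pl E a b m n := by
  have e := nat_sc h (mx_sp h c d).1
  have f := fin_few (nat_fin h e)
  refine few_un h (fun a p => ∃ b, E b (sc E (mx E m n)) ∧ p = pr E a b) f (fun a => few_img h
    (fun b p => p = pr E a b) f (fun _ _ _ i j => i.trans j.symm) fun _ => id) ?_
  rintro _ ⟨a, b, i, j, rfl, k⟩
  have : ∀ x, E x (sc E (mx E a b)) → E x (sc E (mx E m n)) := fun x l =>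
    k.elim (fun k => (mem_sc h).2 (Or.inl (((mem_sc h).1 l).elim (ntr h (mx_sp h c d).1 · k)
      (· ▸ k)))) fun k => k.1 ▸ l
  exact ⟨a, this a (mx_sp h i j).2.1, b, this b (mx_sp h i j).2.2, rfl⟩

theorem pi_nat {m n : M} (c : IsNat E m) (d : IsNat E n) : IsNat E (pi E m n) :=
  cnt_nat h (pi_few h c d)

theorem pi_lt {a b m n : M} (i : IsNat E a) (j : IsNat E b) (c : IsNat E m) (d : IsNat E n)
    (k : Pl E a b m n) : E (pi E a b) (pi E m n) := by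
  refine cnt_lt h (y := pr E a b) (pi_few h c d) (fun p ⟨x, y, e, f, g, l⟩ => ⟨x, y, e, f, g, ?_⟩)
    ⟨a, b, i, j, rfl, k⟩ fun ⟨x, y, _, _, g, l⟩ => ?_
  · have := (mx_sp h c d).1
    rcases l with l | ⟨l, o⟩ <;> rcases k with k | ⟨k, q⟩
    · exact Or.inl (ntr h this l k)
    · exact Or.inl (k ▸ l)
    · exact Or.inl (l ▸ k)
    · refine Or.inr ⟨l.trans k, ?_⟩
      rcases o with o | ⟨rfl, o⟩ <;> rcases q with q | ⟨rfl, q⟩
      exacts [Or.inl (ntr h c o q), Or.inl o, Or.inl q, Or.inr ⟨rfl, ntr h d o q⟩]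
  · obtain ⟨rfl, rfl⟩ := pr_inj h g
    exact l.elim (h.irr _) fun l => l.2.elim (h.irr _) fun l => h.irr _ l.2

theorem pi_inj {a b m n : M} (i : IsNat E a) (j : IsNat E b) (c : IsNat E m) (d : IsNat E n)
    (e : pi E a b = pi E m n) : a = m ∧ b = n := by
  have k : ¬ Pl E a b m n := fun k => h.irr _ (e ▸ pi_lt h i j c d k)
  have l : ¬ Pl E m n a b := fun k => h.irr _ (e ▸ pi_lt h c d i j k)
  have o := ((tri h (mx_sp h i j).1 (mx_sp h c d).1).resolve_left fun o => k (Or.inl o)).resolve_right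
    fun o => l (Or.inl o)
  have q := ((tri h i c).resolve_left fun q => k (Or.inr ⟨o, Or.inl q⟩)).resolve_right
    fun q => l (Or.inr ⟨o.symm, Or.inl q⟩)
  exact ⟨q, ((tri h j d).resolve_left fun r => k (Or.inr ⟨o, Or.inr ⟨q, r⟩⟩)).resolve_right
    fun r => l (Or.inr ⟨o.symm, Or.inr ⟨q.symm, r⟩⟩)⟩

theorem ex_prod (a b : M) : ∃ c, ∀ x y, E x a → E y b → E (pr E x y) c :=
  (h.prod a b).imp fun _ d x y e f => (d _).2 ⟨x, y, e, f, pr_sp h x y⟩

theorem mem_sq {A p : M} : E p (sq E A) ↔ ∃ x y, E x A ∧ E y A ∧ p = pr E x y :=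
  (ex_prod h A A).elim fun _ a => mem_cls h fun _ ⟨x, y, b, c, d⟩ => d ▸ a x y b c

theorem ap_sq {A x y : M} : Ap E (sq E A) x y ↔ E x A ∧ E y A :=
  (mem_sq h).trans ⟨fun ⟨_, _, a, b, c⟩ => ⟨(pr_inj h c).1 ▸ a, (pr_inj h c).2 ▸ b⟩,
    fun a => ⟨x, y, a.1, a.2, rfl⟩⟩

theorem ex_pr {x y : M} {Q : M → M → Prop} : (∃ a b, pr E x y = pr E a b ∧ Q a b) ↔ Q x y :=
  ⟨fun ⟨_, _, c, d⟩ => (pr_inj h c).1 ▸ (pr_inj h c).2 ▸ d, fun c => ⟨x, y, rfl, c⟩⟩

theorem ap_rl {A x y : M} {Q : M → M → Prop} [D2 E Q] :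
    Ap E (rl E A Q) x y ↔ (E x A ∧ E y A) ∧ Q x y := by
  have := @l2 _ E Q _
  exact (mem_st h).trans (and_congr (ap_sq h) (ex_pr h))

theorem rl_sub {A : M} {Q : M → M → Prop} [D2 E Q] : Sub E (rl E A Q) (sq E A) := by
  have := @l2 _ E Q _
  exact fun _ a => ((mem_st h).1 a).1

theorem rext {A R S : M} (a : Sub E R (sq E A)) (b : Sub E S (sq E A))
    (c : ∀ x y, Ap E R x y ↔ Ap E S x y) : R = S :=
  h.ext _ _ fun p => ⟨fun d => by obtain ⟨x, y, -, -, rfl⟩ := (mem_sq h).1 (a p d); exact (c x y).1 d,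
    fun d => by obtain ⟨x, y, -, -, rfl⟩ := (mem_sq h).1 (b p d); exact (c x y).2 d⟩

theorem ap_seg {R x a b : M} : Ap E (seg E R x) a b ↔ Ap E R a b ∧ Ap E R b x ∧ b ≠ x :=
  (mem_st h).trans (and_congr_right' (ex_pr h (Q := fun _ b => Ap E R b x ∧ b ≠ x)))

theorem seg_sub {A R x : M} (a : Sub E R (sq E A)) : Sub E (seg E R x) (sq E A) :=
  fun p b => a p ((mem_st h).1 b).1

theorem WO.mem {A R x y : M} (w : WO E A R) (a : Ap E R x y) : E x A := ((ap_sq h).1 (w.sub _ a)).1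

theorem WO.lst {A R x : M} (w : WO E A R) (P : M → Prop) [D1 E P] (a : P x) (b : Ap E R x x) :
    ∃ m, P m ∧ Ap E R m m ∧ ∀ y, P y → Ap E R y y → Ap E R m y := by
  obtain ⟨m, c, d, e⟩ := w.le (st E A P) x ((mem_st h).2 ⟨w.mem h b, a⟩) b
  exact ⟨m, ((mem_st h).1 c).2, d, fun y f g => e y ((mem_st h).2 ⟨w.mem h g, f⟩) g⟩

theorem WO.tot {A R x y : M} (w : WO E A R) (a : Ap E R x x) (b : Ap E R y y) :
    Ap E R x y ∨ Ap E R y x := by
  obtain ⟨m, rfl | rfl, -, e⟩ := w.lst h (fun z => z = x ∨ z = y) (Or.inl rfl) a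
  exacts [Or.inl (e y (Or.inr rfl) b), Or.inr (e x (Or.inl rfl) a)]

theorem WO.pos_nat {A R z : M} (w : WO E A R) (f : Few E fun y => Ap E R y y) : IsNat E (pos E R z) :=
  cnt_nat h (few_mono f fun y a => (w.rf _ _ a.1).1)

theorem WO.pos_inj {A R x y : M} (w : WO E A R) (f : Few E fun y => Ap E R y y) (a : Ap E R x x)
    (b : Ap E R y y) (e : pos E R x = pos E R y) : x = y := by
  have k : ∀ x y, Ap E R x y → x ≠ y → E (pos E R x) (pos E R y) := fun x y c d =>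
    cnt_lt h (y := x) (few_mono f fun y a => (w.rf _ _ a.1).1) (fun z g => ⟨w.tr _ _ _ g.1 c,
      fun i => d (w.an _ _ c (i ▸ g.1))⟩) ⟨c, d⟩ fun g => g.2 rfl
  exact by_contra fun d => (w.tot h a b).elim (fun c => h.irr _ (e ▸ k x y c d))
    fun c => h.irr _ (e ▸ k y x c (Ne.symm d))

theorem conf_cmp {A R S : M} {F : M → M} (w : WO E A R) (v : WO E A S)
    (a : ∀ x, Ap E R x x → x = F (seg E R x)) (b : ∀ x, Ap E S x x → x = F (seg E S x)) :
    (∀ x y, Ap E R y y → (Ap E R x y ↔ Ap E S x y)) ∨ ∀ x y, Ap E S y y → (Ap E S x y ↔ Ap E R x y) := by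
  have k1 : ∀ {R S : M}, WO E A R → WO E A S → ∀ x y, (Ap E R y y ∧ Ap E S y y ∧ seg E R y = seg E S y) →
      Ap E R x y → Ap E S x y := fun {R S} w v x y g c => by
    by_cases d : x = y
    · exact d ▸ (d ▸ g.2.1 :)
    · exact ((ap_seg h).1 (g.2.2 ▸ (ap_seg h).2 ⟨(w.rf _ _ c).1, c, d⟩ : Ap E (seg E S y) x x)).2.1
  have k2 : ∀ {R S : M}, WO E A R → WO E A S → ∀ x y, (Ap E R y y ∧ Ap E S y y ∧ seg E R y = seg E S y) →
      Ap E R x y → x ≠ y → ∀ p q, Ap E (seg E R x) p q → Ap E (seg E S x) p q :=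
    fun {R S} w v x y g c d p q e => by
      obtain ⟨e1, e2, e3⟩ := (ap_seg h).1 e
      have f : ∀ p q, Ap E R p q → Ap E R q x → Ap E S p q := fun p q i j => ((ap_seg h).1
        (g.2.2 ▸ (ap_seg h).2 ⟨i, w.tr _ _ _ j c, fun l => d (w.an _ _ c (l ▸ j))⟩ :
          Ap E (seg E S y) p q)).1
      exact (ap_seg h).2 ⟨f p q e1 e2, f q x e2 (w.rf _ _ c).1, e3⟩
  have k3 : ∀ {R S : M}, WO E A R → WO E A S → (∀ x y, Ap E R y y → (Ap E R x y ↔ Ap E S x y)) ∨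
      ∃ x, Ap E R x x ∧ ¬ (Ap E R x x ∧ Ap E S x x ∧ seg E R x = seg E S x) ∧ ∀ p q,
        Ap E (seg E R x) p q ↔ Ap E R p q ∧ Ap E R q q ∧ Ap E S q q ∧ seg E R q = seg E S q :=
    fun {R S} w v => by
      refine or_iff_not_imp_left.2 fun c => ?_
      obtain ⟨x, c⟩ := not_forall.1 c
      obtain ⟨y, c⟩ := not_forall.1 c
      obtain ⟨c, d⟩ := Classical.not_imp.1 c
      obtain ⟨m, e, f, g⟩ := w.lst h (x := y) (fun x => ¬ (Ap E R x x ∧ Ap E S x x ∧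
        seg E R x = seg E S x)) (fun e => d ⟨k1 w v x y e, k1 v w x y ⟨e.2.1, e.1, e.2.2.symm⟩⟩) c
      refine ⟨m, f, e, fun p q => (ap_seg h).trans (and_congr_right fun i => ⟨fun j => by_contra
        fun l => j.2 (w.an _ _ j.1 (g q l (w.rf _ _ i).2)), fun j => ?_⟩)⟩
      have l : q ≠ m := fun l => e (l ▸ j)
      refine ⟨(w.tot h j.1 f).resolve_right fun o => ?_, l⟩
      have r := k1 w v m q j o
      exact e ⟨f, (v.rf _ _ r).1, rext h (seg_sub h w.sub) (seg_sub h v.sub) fun p' q' =>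
        ⟨k2 w v m q j o l.symm p' q', k2 v w m q ⟨j.2.1, j.1, j.2.2.symm⟩ r l.symm p' q'⟩⟩
  refine (k3 w v).imp_right fun ⟨x, c, d, e⟩ => (k3 v w).resolve_right fun ⟨y, f, _, g⟩ => ?_
  have i : seg E R x = seg E S y := rext h (seg_sub h w.sub) (seg_sub h v.sub) fun p q => by
    rw [e, g]
    exact ⟨fun j => ⟨k1 w v p q j.2 j.1, j.2.2.1, j.2.1, j.2.2.2.symm⟩,
      fun j => ⟨k1 v w p q j.2 j.1, j.2.2.1, j.2.1, j.2.2.2.symm⟩⟩
  obtain rfl : x = y := (a x c).trans (i ▸ (b y f).symm)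
  exact d ⟨c, f, i⟩

/-- the largest well-order in which every element is the value of `F z` at its initial segment -/
theorem tower (A : M) (F : M → M → M) [T2 E F] : ∃ tw : M → M, T1 E tw ∧ ∀ z, WO E A (tw z) ∧
    (∀ x, Ap E (tw z) x x → x = F z (seg E (tw z) x)) ∧
      (E (F z (tw z)) A → Ap E (tw z) (F z (tw z)) (F z (tw z))) := by
  have := @t2 _ E F _
  refine ⟨fun z => rl E A fun a b => ∃ R, (WO E A R ∧ ∀ x, Ap E R x x → x = F z (seg E R x)) ∧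
    Ap E R a b, inferInstance, fun z => ?_⟩
  beta_reduce
  generalize hU : (rl E A fun a b => ∃ R, (WO E A R ∧ ∀ x, Ap E R x x → x = F z (seg E R x)) ∧
    Ap E R a b) = U
  have sU : Sub E U (sq E A) := hU ▸ rl_sub h
  have aU : ∀ a b, Ap E U a b ↔ ∃ R, (WO E A R ∧ ∀ x, Ap E R x x → x = F z (seg E R x)) ∧
      Ap E R a b := fun a b => hU ▸ (ap_rl h).trans (and_iff_right_of_imp fun ⟨R, c, d⟩ =>
        (ap_sq h).1 (c.1.sub _ d))
  have is : ∀ {R a b}, (WO E A R ∧ ∀ x, Ap E R x x → x = F z (seg E R x)) → Ap E R b b →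
      Ap E U a b → Ap E R a b := fun {R a b} c d e => by
    obtain ⟨S, f, g⟩ := (aU a b).1 e
    exact (conf_cmp h c.1 f.1 c.2 f.2).elim (fun i => (i a b d).2 g)
      fun i => (i a b (f.1.rf _ _ g).2).1 g
  have wU : WO E A U := by
    refine ⟨sU, fun a b c => ?_, fun a b c d => ?_, fun a b c d e => ?_, fun S x c d => ?_⟩
    · obtain ⟨R, e, f⟩ := (aU a b).1 c
      exact ⟨(aU _ _).2 ⟨R, e, (e.1.rf _ _ f).1⟩, (aU _ _).2 ⟨R, e, (e.1.rf _ _ f).2⟩⟩
    · obtain ⟨R, e, f⟩ := (aU a b).1 c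
      exact e.1.an _ _ f (is e (e.1.rf _ _ f).1 d)
    · obtain ⟨R, f, g⟩ := (aU b c).1 e
      exact (aU _ _).2 ⟨R, f, f.1.tr _ _ _ (is f (f.1.rf _ _ g).1 d) g⟩
    · obtain ⟨R, f, g⟩ := (aU x x).1 d
      obtain ⟨m, i, j, k⟩ := f.1.le S x c g
      refine ⟨m, i, (aU _ _).2 ⟨R, f, j⟩, fun y l o => ?_⟩
      obtain ⟨R', q, r⟩ := (aU y y).1 o
      rcases conf_cmp h f.1 q.1 f.2 q.2 with t | t
      · exact (q.1.tot h ((t m m j).1 j) r).elim (fun u => (aU _ _).2 ⟨R', q, u⟩) fun u =>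
          (aU _ _).2 ⟨R, f, k y l (f.1.rf _ _ ((t y m j).2 u)).1⟩
      · exact (aU _ _).2 ⟨R, f, k y l ((t y y r).1 r)⟩
  have cU : ∀ x, Ap E U x x → x = F z (seg E U x) := fun x c => by
    obtain ⟨R, f, g⟩ := (aU x x).1 c
    refine (f.2 x g).trans (congrArg _ (rext h (seg_sub h f.1.sub) (seg_sub h sU) fun a b => ?_))
    rw [ap_seg h, ap_seg h]
    exact ⟨fun i => ⟨(aU _ _).2 ⟨R, f, i.1⟩, (aU _ _).2 ⟨R, f, i.2.1⟩, i.2.2⟩, fun i =>
      ⟨is f (f.1.rf _ _ (is f g i.2.1)).1 i.1, is f g i.2.1, i.2.2⟩⟩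
  refine ⟨wU, cU, fun c => by_contra fun d => ?_⟩
  generalize hy : F z U = y at c d
  have aV : ∀ a b, Ap E (rl E A fun a b => Ap E U a b ∨ b = y ∧ (Ap E U a a ∨ a = y)) a b ↔
      Ap E U a b ∨ b = y ∧ (Ap E U a a ∨ a = y) := fun a b => (ap_rl h).trans (and_iff_right_of_imp
    fun e => e.elim (fun e => (ap_sq h).1 (sU _ e)) fun e => ⟨e.2.elim (wU.mem h) (· ▸ c), e.1 ▸ c⟩)
  have sV : Sub E (rl E A fun a b => Ap E U a b ∨ b = y ∧ (Ap E U a a ∨ a = y)) (sq E A) := rl_sub h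
  generalize (rl E A fun a b => Ap E U a b ∨ b = y ∧ (Ap E U a a ∨ a = y)) = V at aV sV
  have n1 : ∀ a, ¬ Ap E U a y := fun a e => d (wU.rf _ _ e).2
  have n2 : ∀ a, ¬ Ap E U y a := fun a e => d (wU.rf _ _ e).1
  have r := wU.rf
  refine d ((aU y y).2 ⟨V, ⟨⟨sV, fun a b => ?_, fun a b => ?_, fun a b c => ?_, fun S x e f => ?_⟩,
    fun x e => ?_⟩, (aV y y).2 (Or.inr ⟨rfl, Or.inr rfl⟩)⟩)
  · simp only [aV]
    exact fun e => e.elim (fun f => ⟨Or.inl (r _ _ f).1, Or.inl (r _ _ f).2⟩) fun f =>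
      ⟨f.2.imp_right fun g => ⟨g, Or.inr g⟩, Or.inr ⟨f.1, Or.inr f.1⟩⟩
  · simp only [aV]
    rintro (e | ⟨rfl, -⟩) (f | ⟨f, -⟩)
    exacts [wU.an _ _ e f, (n2 b (f ▸ e)).elim, (n2 a f).elim, f]
  · simp only [aV]
    rintro (e | ⟨rfl, e⟩) (f | ⟨f, -⟩)
    exacts [Or.inl (wU.tr _ _ _ e f), Or.inr ⟨f, Or.inl (r _ _ e).1⟩, (n2 _ f).elim, Or.inr ⟨f, e⟩]
  · by_cases g : ∃ x, E x S ∧ Ap E U x x
    · obtain ⟨x, g, i⟩ := g
      obtain ⟨m, j, k, l⟩ := wU.le S x g i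
      exact ⟨m, j, (aV _ _).2 (Or.inl k), fun w o q => (aV _ _).2 (((aV _ _).1 q).imp (l w o)
        fun q => ⟨q.1, Or.inl k⟩)⟩
    · have i : ∀ w, E w S → Ap E V w w → w = y := fun w o q => (((aV _ _).1 q).resolve_left
        fun q => g ⟨w, o, q⟩).1
      exact ⟨x, e, f, fun w o q => (i w o q).trans (i x e f).symm ▸ f⟩
  · rcases (aV x x).1 e with f | ⟨rfl, -⟩
    · refine (cU x f).trans (congrArg _ (rext h (seg_sub h sU) (seg_sub h sV) fun a b => ?_))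
      simp only [ap_seg h, aV]
      refine ⟨fun i => ⟨Or.inl i.1, Or.inl i.2.1, i.2.2⟩, fun i => ?_⟩
      have j := i.2.1.resolve_right fun j => d (j.1 ▸ f)
      exact ⟨i.1.resolve_right fun k => n2 x (k.1 ▸ j), j, i.2.2⟩
    · refine hy.symm.trans (congrArg _ (rext h sU (seg_sub h sV) fun a b => ?_))
      rw [ap_seg h, aV, aV]
      exact ⟨fun i => ⟨Or.inl i, Or.inr ⟨rfl, Or.inl (r _ _ i).2⟩, fun j => n1 a (j ▸ i)⟩,
        fun i => i.1.resolve_right fun j => i.2.2 j.1⟩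

end Pool.Agent.H40.Zt
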