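import Pool.Agent.H40.Zt2

set_option autoImplicit false

/-! An infinite well-order absorbs `ω`; diagonal arguments along towers. -/

namespace Pool.Agent.H40.Zt

open Pool.Agent.H40.Bspt Pool.Agent.H40.Jz Classical

variable {M : Type} {E : M → M → Prop}

variable (E) in
abbrev Iv (R c b y : M) : Prop := Ap E R c y ∧ Ap E R y b ∧ y ≠ b

variable (E) in
noncomputable def lam (R b : M) : M := the b fun c => (Ap E R c b ∧ Few E fun y => Iv E R c b y) ∧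
  ∀ d, Ap E R d b → (Few E fun y => Iv E R d b y) → Ap E R c d

section
variable {α : Type} {s t : (α → M) → M}
instance [T E s] [T E t] : T E fun v => lam E (s v) (t v) :=
  @t2 _ E (lam E) (by unfold lam; infer_instance) _ _ _ _ _
end

variable (E) in
noncomputable def kk (R b : M) : M := cnt E b fun y => Iv E R (lam E R b) b y

section
variable {α : Type} {s t : (α → M) → M}
instance [T E s] [T E t] : T E fun v => kk E (s v) (t v) :=
  @t2 _ E (kk E) (by unfold kk; infer_instance) _ _ _ _ _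
end

variable (h : IsZF E)
include h

theorem cnt_emp {d o : M} {P : M → Prop} [D1 E P] (ho : ∀ y, ¬ E y o) (a : ∀ z, ¬ P z) :
    cnt E d P = o := by
  have c : ∀ z, ¬ E z (cls E d P) := fun z e => a z ((mem_cls h (U := o) fun z f => absurd f (a z)).1 e)
  exact (sz_emp h c).trans (h.ext _ _ fun z => iff_of_false (c z) (ho z))

theorem cnt_ins {d e y : M} {P Q : M → Prop} [D1 E P] [D1 E Q] (c : Few E P)
    (a : ∀ z, Q z ↔ P z ∨ z = y) (b : ¬ P y) : cnt E e Q = sc E (cnt E d P) :=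
  have f : Few E Q := few_mono (few_or h c (few_one h (P := (· = y)) fun _ _ i j => i.trans j.symm))
    fun z => (a z).1
  sz_ins h (fin_fs h c) (fun z => by rw [mem_fs h f, mem_fs h c, a]) fun k => b ((mem_fs h c).1 k)

section
variable {A R : M} (w : WO E A R)
include w

theorem lam_sp {b : M} (a : Ap E R b b) : (Ap E R (lam E R b) b ∧ Few E fun y => Iv E R (lam E R b) b y) ∧
    ∀ d, Ap E R d b → (Few E fun y => Iv E R d b y) → Ap E R (lam E R b) d := by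
  refine the_sp (Q := fun c => (Ap E R c b ∧ Few E fun y => Iv E R c b y) ∧
    ∀ d, Ap E R d b → (Few E fun y => Iv E R d b y) → Ap E R c d) ?_ fun y z i j =>
      w.an _ _ (i.2 z j.1.1 j.1.2) (j.2 y i.1.1 i.1.2)
  obtain ⟨m, c, -, e⟩ := w.lst h (fun c => Ap E R c b ∧ Few E fun y => Iv E R c b y)
    ⟨a, few_one h fun y _ i => absurd (w.an _ _ i.2.1 i.1) i.2.2⟩ a
  exact ⟨m, c, fun d f g => e d ⟨f, g⟩ (w.rf _ _ f).1⟩

theorem lam_eq {a b : M} (c : Ap E R a b) (d : Few E fun y => Iv E R a b y) : lam E R a = lam E R b := by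
  obtain ⟨⟨e, f⟩, g⟩ := lam_sp h w (w.rf _ _ c).1
  obtain ⟨⟨i, j⟩, k⟩ := lam_sp h w (w.rf _ _ c).2
  have l := k _ (w.tr _ _ _ e c) (few_mono (few_or h f d) fun y o => by
    by_cases q : Ap E R a y
    · exact Or.inr ⟨q, o.2⟩
    · exact Or.inl ⟨o.1, (w.tot h (w.rf _ _ c).1 (w.rf _ _ o.1).2).resolve_left q,
        fun r => q (r ▸ (w.rf _ _ o.1).2)⟩)
  exact w.an _ _ (g _ (w.tr _ _ _ l e) (few_mono j fun y o => ⟨o.1, w.tr _ _ _ o.2.1 c,
    fun r => o.2.2 (w.an _ _ o.2.1 (r ▸ c))⟩)) l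

theorem kk_nat {b : M} (a : Ap E R b b) : IsNat E (kk E R b) := cnt_nat h (lam_sp h w a).1.2

theorem kk_inj {a b : M} (c : Ap E R a a) (d : Ap E R b b) (e : lam E R a = lam E R b)
    (f : kk E R a = kk E R b) : a = b := by
  have k : ∀ a b, lam E R a = lam E R b → Ap E R a b → a ≠ b → E (kk E R a) (kk E R b) :=
    fun a b e c g => cnt_lt h (y := a) (lam_sp h w (w.rf _ _ c).2).1.2 (fun z i => ⟨e ▸ i.1,
      w.tr _ _ _ i.2.1 c, fun j => g (w.an _ _ c (j ▸ i.2.1))⟩)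
      ⟨e ▸ (lam_sp h w (w.rf _ _ c).1).1.1, c, g⟩ fun i => i.2.2 rfl
  exact by_contra fun g => (w.tot h c d).elim (fun i => h.irr _ (f ▸ k a b e i g))
    fun i => h.irr _ (f ▸ k b a e.symm i (Ne.symm g))

theorem kk_ex {a n : M} (c : Ap E R a a) (d : ¬ Few E fun y => Ap E R a y) (e : IsNat E n) :
    ∃ b, Ap E R b b ∧ lam E R b = lam E R a ∧ kk E R b = n := by
  obtain ⟨⟨f, g⟩, -⟩ := lam_sp h w c
  refine natI h (fun n => ∃ b, Ap E R b b ∧ lam E R b = lam E R a ∧ kk E R b = n) (fun z i =>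
    ⟨_, (w.rf _ _ f).1, lam_eq h w f g, cnt_emp h i fun y j => j.2.2 (w.an _ _ j.2.1
      (lam_eq h w f g ▸ j.1))⟩) (fun x _ ⟨b, i, j, k⟩ => ?_) n e
  obtain ⟨⟨l, o⟩, -⟩ := lam_sp h w i
  obtain ⟨y, q, r⟩ : ∃ y, Ap E R b y ∧ y ≠ b := by_contra fun q => d (few_mono (few_or h o
    (few_one h (P := (· = b)) fun _ _ i j => i.trans j.symm)) fun y r => or_iff_not_imp_right.2
      fun t => ⟨j ▸ w.tr _ _ _ f r, (w.tot h i (w.rf _ _ r).2).resolve_left fun u => q ⟨y, u, t⟩, t⟩)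
  obtain ⟨m, ⟨t, u⟩, v, z⟩ := w.lst h (fun y => Ap E R b y ∧ y ≠ b) ⟨q, r⟩ (w.rf _ _ q).2
  have k1 : ∀ y, Ap E R y m → y ≠ m → Ap E R y b := fun y p1 p2 => (w.tot h i (w.rf _ _ p1).1).elim
    (fun p3 => by_contra fun p4 => p2 (w.an _ _ p1 (z y ⟨p3, fun p5 => p4 (p5 ▸ p5 ▸ i)⟩
      (w.rf _ _ p1).1))) id
  have k2 := lam_eq h w t (few_one h fun y y' p1 p2 => (w.an _ _ (k1 y p1.2.1 p1.2.2) p1.1).trans
    (w.an _ _ p2.1 (k1 y' p2.2.1 p2.2.2)))
  refine ⟨m, v, k2 ▸ j, k ▸ cnt_ins h (y := b) o (fun y => ?_) fun p => p.2.2 rfl⟩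
  rw [← k2]
  refine ⟨fun p => or_iff_not_imp_right.2 fun p1 => ⟨p.1, k1 y p.2.1 p.2.2, p1⟩, ?_⟩
  rintro (p | rfl)
  exacts [⟨p.1, w.tr _ _ _ p.2.1 t, fun p1 => u (w.an _ _ (p1 ▸ p.2.1) t)⟩, ⟨l, t, u.symm⟩]

end

theorem sc_ne {o : M} : o ≠ sc E o := fun a => h.irr o (a ▸ (mem_sc h).2 (Or.inr a.symm))

/-- a definable injection of `B × ω` into the field `B` of an infinite well-order -/
theorem lemF : ∃ pp : M → M → M → M, T3 E pp ∧ ∀ A R, WO E A R → (¬ Few E fun y => Ap E R y y) →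
    (∀ z n, Ap E R z z → IsNat E n → Ap E R (pp R z n) (pp R z n)) ∧ ∀ z n z' n', Ap E R z z →
      IsNat E n → Ap E R z' z' → IsNat E n' → pp R z n = pp R z' n' → z = z' ∧ n = n' := by
  obtain ⟨o, ho⟩ := h.emp
  have o0 := h.nat0 ho
  have o1 := nat_sc h o0
  refine ⟨fun R z n => the z fun b => Ap E R b b ∧ ((¬ Few E fun y => Ap E R z y) ∧ lam E R b =
    lam E R z ∧ kk E R b = pi E o (pi E (kk E R z) n) ∨ (Few E fun y => Ap E R z y) ∧
      (∃ c, (∀ y, Ap E R y y → Ap E R c y) ∧ lam E R b = lam E R c) ∧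
        kk E R b = pi E (sc E o) (pi E (kk E R z) n)), inferInstance, fun A R w i => ?_⟩
  beta_reduce
  have k : ∀ z n, Ap E R z z → IsNat E n → ∀ Q : M → Prop, (Q = fun b => Ap E R b b ∧
      ((¬ Few E fun y => Ap E R z y) ∧ lam E R b =
      lam E R z ∧ kk E R b = pi E o (pi E (kk E R z) n) ∨ (Few E fun y => Ap E R z y) ∧
      (∃ c, (∀ y, Ap E R y y → Ap E R c y) ∧ lam E R b = lam E R c) ∧
        kk E R b = pi E (sc E o) (pi E (kk E R z) n))) → Q (the z Q) := by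
    rintro z n a b Q rfl
    have c := pi_nat h (kk_nat h w a) b
    refine the_sp ?_ ?_
    · by_cases d : Few E fun y => Ap E R z y
      · obtain ⟨m, -, e, f⟩ := w.lst h (fun x => x = x) rfl a
        obtain ⟨x, g, j, k⟩ := kk_ex h w e (fun g => i (few_mono g fun y => f y rfl)) (pi_nat h o1 c)
        exact ⟨x, g, Or.inr ⟨d, ⟨m, fun y => f y rfl, j⟩, k⟩⟩
      · obtain ⟨x, g, j, k⟩ := kk_ex h w a d (pi_nat h o0 c)
        exact ⟨x, g, Or.inl ⟨d, j, k⟩⟩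
    · rintro x y ⟨d, e | ⟨e, ⟨p, f, g⟩, j⟩⟩ ⟨d', e' | ⟨e', ⟨p', f', g'⟩, j'⟩⟩
      · exact kk_inj h w d d' (e.2.1.trans e'.2.1.symm) (e.2.2.trans e'.2.2.symm)
      · exact absurd e' e.1
      · exact absurd e e'.1
      · obtain rfl := w.an _ _ (f p' (w.rf _ _ (f' z a)).1) (f' p (w.rf _ _ (f z a)).1)
        exact kk_inj h w d d' (g.trans g'.symm) (j.trans j'.symm)
  refine ⟨fun z n a b => (k z n a b _ rfl).1, fun z n z' n' a b a' b' e => ?_⟩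
  have c := (k z n a b _ rfl).2
  have d := (k z' n' a' b' _ rfl).2
  rw [← e] at d
  have p := pi_nat h (kk_nat h w a) b
  have p' := pi_nat h (kk_nat h w a') b'
  have q := pi_inj h (kk_nat h w a) b (kk_nat h w a') b'
  rcases c with ⟨c, f, g⟩ | ⟨c, -, g⟩ <;> rcases d with ⟨d, f', g'⟩ | ⟨d, -, g'⟩
  · have := q (pi_inj h o0 p o0 p' (g.symm.trans g')).2
    exact ⟨kk_inj h w a a' (f.symm.trans f') this.1, this.2⟩
  · exact absurd (pi_inj h o0 p o1 p' (g.symm.trans g')).1 (sc_ne h)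
  · exact absurd (pi_inj h o0 p' o1 p (g'.symm.trans g)).1 (sc_ne h)
  · have := q (pi_inj h o1 p o1 p' (g.symm.trans g')).2
    refine ⟨kk_inj h w a a' ((w.tot h a a').elim (fun j => lam_eq h w j (few_mono c fun _ => And.left))
      fun j => (lam_eq h w j (few_mono d fun _ => And.left)).symm) this.1, this.2⟩

/-- `val` maps admissible sets finite-to-one into `ω × A` -/
structure Hyp (E : M → M → Prop) (A : M) (Adm : M → Prop) (val : M → M) : Prop where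
  df : T1 E val
  mem : ∀ Q, Adm Q → ∃ n z, IsNat E n ∧ E z A ∧ val Q = pr E n z
  fto : ∀ v, Few E fun Q => Adm Q ∧ val Q = v

/-- the diagonal argument -/
theorem fam {A : M} {Adm : M → Prop} {val : M → M} (H : Hyp E A Adm val) (Q : M → M → M → Prop)
    [D3 E Q] : ∃ nw : M → M, T1 E nw ∧ ∀ R, (∀ z, Ap E R z z → E z A) →
      (∀ S, (∀ l, E l S → ∃ z m, Ap E R z z ∧ IsNat E m ∧ l = pr E z m) →
        Adm (st E (sq E A) fun p => ∃ l, E l S ∧ Q R l p)) →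
      (∀ z m, Ap E R z z → IsNat E m → ∃ p, E p (sq E A) ∧ Q R (pr E z m) p ∧ ∀ z' m', Ap E R z' z' →
        IsNat E m' → Q R (pr E z' m') p → z' = z ∧ m' = m) → E (nw R) A ∧ ¬ Ap E R (nw R) (nw R) := by
  have := @t1 _ E val H.df
  have := @l3 _ E Q _
  obtain ⟨ω, hω⟩ := h.omega'
  obtain ⟨W, hW⟩ := ex_prod h A ω
  obtain ⟨V, _, hV⟩ : ∃ V : M → M → M, T2 E V ∧ ∀ R S, V R S =
    st E (sq E A) fun p => ∃ l, E l S ∧ Q R l p := ⟨_, inferInstance, fun _ _ => rfl⟩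
  have := @t2 _ E V _
  obtain ⟨B, _, hB⟩ : ∃ B : M → M → M → Prop, D3 E B ∧ ∀ R v t, B R v t ↔ ¬ ∃ S,
      (∀ l, E l S → ∃ z m, Ap E R z z ∧ IsNat E m ∧ l = pr E z m) ∧ val (V R S) = v ∧ ∃ n z,
        v = pr E n z ∧ ∀ u, IsNat E u → (Ap E S z (pi E n u) ↔ u = t) :=
    ⟨_, inferInstance, fun _ _ _ => Iff.rfl⟩
  have := @l3 _ E B _
  obtain ⟨S, _, hS⟩ : ∃ S : M → M, T1 E S ∧ ∀ R, S R = st E W fun l => ∃ z n t, Ap E R z z ∧
      IsNat E n ∧ l = pr E z (pi E n t) ∧ (IsNat E t ∧ B R (pr E n z) t) ∧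
        ∀ m, E m t → ¬ (IsNat E m ∧ B R (pr E n z) m) := ⟨_, inferInstance, fun _ => rfl⟩
  have := @t1 _ E S _
  refine ⟨fun R => the A fun z => ∃ n, val (V R (S R)) = pr E n z, inferInstance, fun R a b c => ?_⟩
  simp only [← hV] at b
  have mS : ∀ l, E l (S R) → _ := fun l d => ((mem_st h).1 (hS R ▸ d)).2
  have lS : ∀ l, E l (S R) → ∃ z m, Ap E R z z ∧ IsNat E m ∧ l = pr E z m := fun l d =>
    let ⟨z, n, t, e, f, g, i, _⟩ := mS l d
    ⟨z, _, e, pi_nat h f i.1, g⟩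
  obtain ⟨n, z, d, e, f⟩ := H.mem _ (b _ lS)
  beta_reduce
  rw [the_eq (Q := fun z => ∃ n, val (V R (S R)) = pr E n z) ⟨n, f⟩
    fun y ⟨m, g⟩ => (pr_inj h (g.symm.trans f)).2]
  refine ⟨e, fun g => ?_⟩
  have inj : ∀ S S', (∀ l, E l S → ∃ z m, Ap E R z z ∧ IsNat E m ∧ l = pr E z m) →
      (∀ l, E l S' → ∃ z m, Ap E R z z ∧ IsNat E m ∧ l = pr E z m) → V R S = V R S' → Sub E S S' :=
    fun S S' i j k l o => by
      obtain ⟨z, m, p, q, rfl⟩ := i l o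
      obtain ⟨x, r, s, t⟩ := c z m p q
      obtain ⟨l, u, v⟩ := ((mem_st h).1 (hV R S' ▸ k ▸ hV R S ▸ (mem_st h).2 ⟨r, _, o, s⟩ :
        E x (st E (sq E A) fun p => ∃ l, E l S' ∧ Q R l p))).2
      obtain ⟨z', m', p', q', rfl⟩ := j l u
      obtain ⟨rfl, rfl⟩ := t z' m' p' q' v
      exact u
  have fw : Few E fun t => IsNat E t ∧ ¬ B R (pr E n z) t := by
    refine few_img h (fun X t => ∃ S, (∀ l, E l S → ∃ z m, Ap E R z z ∧ IsNat E m ∧ l = pr E z m) ∧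
      X = V R S ∧ IsNat E t ∧ ∀ u, IsNat E u → (Ap E S z (pi E n u) ↔ u = t)) (H.fto (pr E n z)) ?_ ?_
    · rintro _ t t' ⟨S, i, rfl, j, k⟩ ⟨S', i', l, -, k'⟩
      exact (k' t j).1 (inj S S' i i' l _ ((k t j).2 rfl))
    · rintro t ⟨i, j⟩
      obtain ⟨S, k, l, n', z', o, p⟩ := not_not.1 (mt (hB _ _ _).2 j)
      obtain ⟨rfl, rfl⟩ := pr_inj h o
      exact ⟨_, ⟨b S k, l⟩, S, k, rfl, i, p⟩
  obtain ⟨t, i, j⟩ : ∃ t, IsNat E t ∧ B R (pr E n z) t := by_contra fun i =>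
    inf_nat h (few_mono fw fun t j => ⟨j, fun k => i ⟨t, j, k⟩⟩)
  obtain ⟨t, i⟩ := least h (fun t => B R (pr E n z) t) i j
  refine (hB _ _ _).1 i.1.2 ⟨S R, lS, f, n, z, rfl, fun u k => ⟨fun l => ?_, ?_⟩⟩
  · obtain ⟨z', n', t', -, o, p, q⟩ := mS _ l
    obtain ⟨rfl, r⟩ := pr_inj h p
    obtain ⟨rfl, rfl⟩ := pi_inj h d k o q.1.1 r
    exact least_u h q i
  · rintro rfl
    exact hS R ▸ (mem_st h).2 ⟨hW _ _ e ((hω _).2 (pi_nat h d k)), z, n, u, g, d, rfl, i⟩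

end Pool.Agent.H40.Zt
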