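import Pool.Agent.H40.Zt3

set_option autoImplicit false

/-! Finite towers. -/

namespace Pool.Agent.H40.Zt

open Pool.Agent.H40.Bspt Pool.Agent.H40.Jz Classical

variable {M : Type} {E : M → M → Prop}

variable (E) in
/-- matchings on `A` -/
def Mt (A Q : M) : Prop := Sub E Q (sq E A) ∧ (∀ x y, Ap E Q x y → Ap E Q y x ∧ x ≠ y) ∧
  ∀ x y z, Ap E Q x y → Ap E Q x z → y = z

abbrev D4 (E : M → M → Prop) (P : M → M → M → M → Prop) :=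
  D E fun w : Fin 4 → M => P (w 0) (w 1) (w 2) (w 3)

theorem l4' (R : M → M → M → M → Prop) [h : D4 E R] {α : Type} {s t u r : (α → M) → M} [T E s]
    [T E t] [T E u] [T E r] : D E fun v => R (s v) (t v) (u v) (r v) := l4 h.df

variable (h : IsZF E) {A : M} {val : M → M}
include h

theorem wi (H : Hyp E A (Mt E A) val) : ∃ nw : M → M, T1 E nw ∧ ∀ R, WO E A R →
    (¬ Few E fun y => Ap E R y y) → E (nw R) A ∧ ¬ Ap E R (nw R) (nw R) := by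
  obtain ⟨pp, _, hp⟩ := lemF h
  have := @t3 _ E pp _
  obtain ⟨o, ho⟩ := h.emp
  have o0 := h.nat0 ho
  have o1 := nat_sc h o0
  obtain ⟨nw, a, b⟩ := fam h H fun R l p => ∃ z m, l = pr E z m ∧
    (p = pr E (pp R z (pi E o m)) (pp R z (pi E (sc E o) m)) ∨
      p = pr E (pp R z (pi E (sc E o) m)) (pp R z (pi E o m)))
  refine ⟨nw, a, fun R w i => ?_⟩
  obtain ⟨p1, p2⟩ := hp A R w i
  have k : ∀ {z m z' m' s t}, Ap E R z z → IsNat E m → Ap E R z' z' → IsNat E m' → IsNat E s →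
      IsNat E t → pp R z (pi E s m) = pp R z' (pi E t m') → z = z' ∧ s = t ∧ m = m' :=
    fun c d e f g j l => (p2 _ _ _ _ c (pi_nat h g d) e (pi_nat h j f) l).imp_right (pi_inj h g d j f)
  refine b R (fun z => w.mem h) (fun S c => ?_) fun z m c d => ⟨_, (ap_sq h).2
    ⟨w.mem h (p1 _ _ c (pi_nat h o0 d)), w.mem h (p1 _ _ c (pi_nat h o1 d))⟩,
      ⟨z, m, rfl, Or.inl rfl⟩, ?_⟩
  · generalize hQ : st E (sq E A) _ = Q
    have aQ : ∀ x y, Ap E Q x y ↔ (E x A ∧ E y A) ∧ ∃ z m, (Ap E R z z ∧ IsNat E m) ∧ Ap E S z m ∧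
        (x = pp R z (pi E o m) ∧ y = pp R z (pi E (sc E o) m) ∨
          x = pp R z (pi E (sc E o) m) ∧ y = pp R z (pi E o m)) := fun x y => hQ ▸ (mem_st h).trans
      (and_congr (ap_sq h) ⟨fun ⟨l, d, z, m, e, f⟩ => by
        obtain ⟨z', m', g, j, rfl⟩ := c l d
        obtain ⟨rfl, rfl⟩ := pr_inj h e
        exact ⟨_, _, ⟨g, j⟩, d, f.imp (pr_inj h) (pr_inj h)⟩, fun ⟨z, m, _, e, f⟩ => ⟨_, e, z, m, rfl,
          f.imp (fun ⟨f, g⟩ => congrArg₂ _ f g) fun ⟨f, g⟩ => congrArg₂ _ f g⟩⟩)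
    refine ⟨hQ ▸ fun _ d => ((mem_st h).1 d).1, fun x y d => ?_, fun x y y' d d' => ?_⟩
    · obtain ⟨e, z, m, f, g, j⟩ := (aQ x y).1 d
      refine ⟨(aQ y x).2 ⟨e.symm, z, m, f, g, j.symm.imp And.symm And.symm⟩, ?_⟩
      rintro rfl
      exact sc_ne h (k f.1 f.2 f.1 f.2 o0 o1 (j.elim (fun j => j.1.symm.trans j.2)
        fun j => j.2.symm.trans j.1)).2.1
    · obtain ⟨-, z, m, f, -, ⟨rfl, rfl⟩ | ⟨rfl, rfl⟩⟩ := (aQ x y).1 d <;>
        obtain ⟨-, z', m', f', -, ⟨j, rfl⟩ | ⟨j, rfl⟩⟩ := (aQ _ y').1 d'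
      · obtain ⟨rfl, -, rfl⟩ := k f.1 f.2 f'.1 f'.2 o0 o0 j; rfl
      · exact absurd (k f.1 f.2 f'.1 f'.2 o0 o1 j).2.1 (sc_ne h)
      · exact absurd (k f.1 f.2 f'.1 f'.2 o1 o0 j).2.1.symm (sc_ne h)
      · obtain ⟨rfl, -, rfl⟩ := k f.1 f.2 f'.1 f'.2 o1 o1 j; rfl
  · rintro z' m' e f ⟨z'', m'', g, j⟩
    obtain ⟨rfl, rfl⟩ := pr_inj h g
    have := j.elim (fun j => k c d e f o0 o0 (pr_inj h j).1) fun j => k c d e f o0 o1 (pr_inj h j).1 |>.imp_right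
      fun l => absurd l.1 (sc_ne h)
    exact ⟨this.1.symm, this.2.2.symm⟩

theorem gl (H : Hyp E A (Mt E A) val) (C : M → M → M → M → Prop) [D4 E C] : ∃ Rz : M → M, T1 E Rz ∧
    ∀ z, WO E A (Rz z) ∧ (Few E fun y => Ap E (Rz z) y y) ∧
      (∀ x, Ap E (Rz z) x x → ∃ c, IsNat E c ∧ C z (seg E (Rz z) x) c x) ∧
      ((∀ c y y', IsNat E c → E y A → E y' A → C z (Rz z) c y → C z (Rz z) c y' → y = y') →
        ∀ c y, IsNat E c → E y A → C z (Rz z) c y → Ap E (Rz z) y y) := by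
  obtain ⟨nw, _, a⟩ := wi h H
  have := @t1 _ E nw _
  have := @l4' _ E C _
  obtain ⟨tw, b, c⟩ := tower h A fun z R => if Few E fun y => Ap E R y y then the A fun y => ∃ c,
    (E y A ∧ C z R c y ∧ ¬ Ap E R y y) ∧ (IsNat E c ∧ ∃ y, E y A ∧ C z R c y ∧ ¬ Ap E R y y) ∧
      ∀ m, E m c → ¬ (IsNat E m ∧ ∃ y, E y A ∧ C z R m y ∧ ¬ Ap E R y y) else nw R
  refine ⟨tw, b, fun z => ?_⟩
  obtain ⟨w, d, e⟩ := c z
  have f : Few E fun y => Ap E (tw z) y y := by_contra fun f => by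
    rw [if_neg f] at e
    exact (a _ w f).2 (e (a _ w f).1)
  refine ⟨w, f, fun x g => ?_, fun g c y i j k => by_contra fun l => ?_⟩
  · have i := d x g
    rw [if_pos (few_mono f fun y i => ((ap_seg h).1 i).1)] at i
    refine (the_or A _).elim (fun j => absurd (i.trans j ▸ w.mem h g) (h.irr A)) fun j => ?_
    rw [← i] at j
    exact j.imp fun c j => ⟨j.2.1.1, j.1.2.1⟩
  · obtain ⟨n, o⟩ := least h (fun c => ∃ y, E y A ∧ C z (tw z) c y ∧ ¬ Ap E (tw z) y y) i ⟨y, j, k, l⟩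
    obtain ⟨x, p⟩ := o.1.2
    rw [if_pos f, the_eq (y := x) ⟨n, p, o⟩ fun x' ⟨n', p', o'⟩ => g n x' x o.1.1 p'.1 p.1
      (least_u h (P := fun c => ∃ y, E y A ∧ C z (tw z) c y ∧ ¬ Ap E (tw z) y y) o' o ▸ p'.2.1) p.2.1] at e
    exact p.2.2 (e p.1)

theorem df (H : Hyp E A (Mt E A) val) (C : M → M → Prop) [D2 E C]
    (a : ∀ c y y', IsNat E c → E y A → E y' A → C c y → C c y' → y = y') :
    Few E fun y => E y A ∧ ∃ c, IsNat E c ∧ C c y := by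
  have := @l2 _ E C _
  obtain ⟨R, -, b⟩ := gl h H fun _ _ c y => C c y
  obtain ⟨-, c, -, d⟩ := b A
  exact few_mono c fun y ⟨e, n, f, g⟩ => d a n y f e g

theorem pl (H : Hyp E A (Mt E A) val) {Adm : M → Prop} {val' : M → M} (H' : Hyp E A Adm val')
    (K : M → Prop) [D1 E K] (Q : M → M → Prop) [D2 E Q] (a : ∀ k, K k → IsNat E k)
    (b : ∀ S, (∀ k, E k S → K k) → Adm (st E (sq E A) fun p => ∃ k, E k S ∧ Q k p))
    (c : ∀ k, K k → ∃ p, E p (sq E A) ∧ Q k p ∧ ∀ k', K k' → Q k' p → k' = k) : Few E K := by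
  have := @l1 _ E K _
  have := @l2 _ E Q _
  by_contra d
  obtain ⟨ω, hω⟩ := h.omega'
  obtain ⟨pp, _, hp⟩ := lemF h
  have := @t3 _ E pp _
  obtain ⟨R, sR, aR⟩ : ∃ R, Sub E R (sq E ω) ∧ ∀ x y, Ap E R x y ↔ K x ∧ K y ∧ (E x y ∨ x = y) :=
    ⟨rl E ω fun x y => K x ∧ K y ∧ (E x y ∨ x = y), rl_sub h, fun x y => (ap_rl h).trans
      (and_iff_right_of_imp fun e => ⟨(hω _).2 (a _ e.1), (hω _).2 (a _ e.2.1)⟩)⟩
  have fR : ∀ x, Ap E R x x ↔ K x := fun x => (aR x x).trans ⟨And.left, fun e => ⟨e, e, Or.inr rfl⟩⟩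
  have w : WO E ω R := by
    refine ⟨sR, fun x y e => ⟨(fR _).2 ((aR _ _).1 e).1, (fR _).2 ((aR _ _).1 e).2.1⟩,
      fun x y => ?_, fun x y z => ?_, fun S x e f => ?_⟩
    · simp only [aR]
      exact fun e f => e.2.2.resolve_left fun g => f.2.2.elim (fun i => h.irr _ (ntr h (a _ e.1) g i))
        fun i => h.irr _ (i ▸ g)
    · simp only [aR]
      exact fun e f => ⟨e.1, f.2.1, e.2.2.elim (fun g => Or.inl (f.2.2.elim (ntr h (a _ f.2.1) g)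
        (· ▸ g))) (· ▸ f.2.2)⟩
    · obtain ⟨m, ⟨g, i, j⟩, k⟩ := least h (fun m => E m S ∧ K m) (a _ ((fR _).1 f)) ⟨e, (fR _).1 f⟩
      exact ⟨m, i, (fR _).2 j, fun y l o => have p := (fR _).1 o; (aR _ _).2 ⟨j, p, (or_assoc.2
        (tri h g (a _ p))).resolve_right fun q => k y q ⟨a _ p, l, p⟩⟩⟩
  have iR : ¬ Few E fun y => Ap E R y y := fun e => d (few_mono e fun y => (fR y).2)
  obtain ⟨k0, e⟩ : ∃ k, Ap E R k k := by_contra fun e => iR (few_one h fun y _ f => absurd ⟨y, f⟩ e)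
  obtain ⟨p1, p2⟩ := hp ω R w iR
  obtain ⟨nw, _, f⟩ := fam h H' fun U l p => ∃ z m, l = pr E z m ∧ Q (pp R k0 (pi E (pos E U z) m)) p
  have := @t1 _ E nw _
  obtain ⟨Rz, -, g⟩ := gl h H fun _ U _ y => y = nw U
  obtain ⟨wU, fU, -, g⟩ := g A
  generalize Rz A = U at wU fU g
  have n : ∀ {z}, IsNat E (pos E U z) := wU.pos_nat h fU
  have i := f U (fun z => wU.mem h) (fun S i => ?_) fun z m i j => ?_
  · obtain ⟨o, ho⟩ := h.emp
    exact i.2 (g (fun _ _ _ _ _ _ j k => j.trans k.symm) o _ (h.nat0 ho) i.1 rfl)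
  · have j : ∀ k, E k (st E ω fun k => ∃ z m, Ap E S z m ∧ k = pp R k0 (pi E (pos E U z) m)) ↔
        ∃ z m, Ap E S z m ∧ k = pp R k0 (pi E (pos E U z) m) ∧ K k := fun k => (mem_st h).trans
      ⟨fun ⟨_, z, m, j, l⟩ => ⟨z, m, j, l, by
        obtain ⟨z', m', -, o, p⟩ := i _ j
        exact l ▸ (fR _).1 (p1 _ _ e (pi_nat h n ((pr_inj h p).2 ▸ o)))⟩,
        fun ⟨z, m, j, l, o⟩ => ⟨(hω _).2 (a _ o), z, m, j, l⟩⟩
    refine (congrArg (fun P => Adm (st E (sq E A) P)) (funext fun p => propext ?_)).mpr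
      (b _ fun k l => ((j k).1 l).elim fun _ ⟨_, o⟩ => o.2.2)
    refine ⟨fun ⟨_, l, z, m, o, q⟩ => ⟨_, (mem_st h).2 ⟨?_, z, m, (o ▸ l : E (pr E z m) S), rfl⟩, q⟩, fun ⟨k, l, o⟩ => ?_⟩
    · obtain ⟨z', m', -, r, s⟩ := i _ l
      exact w.mem h (p1 _ _ e (pi_nat h n ((pr_inj h (o.symm.trans s)).2 ▸ r)))
    · obtain ⟨z, m, q, rfl, -⟩ := (j k).1 l
      exact ⟨_, q, z, m, rfl, o⟩
  · obtain ⟨p, k, l, o⟩ := c _ ((fR _).1 (p1 _ _ e (pi_nat h n j)))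
    refine ⟨p, k, ⟨z, m, rfl, l⟩, fun z' m' q r ⟨_, _, s, t⟩ => ?_⟩
    obtain ⟨rfl, rfl⟩ := pr_inj h s
    have := pi_inj h n r n j (p2 _ _ _ _ e (pi_nat h n r) e (pi_nat h n j)
      (o _ ((fR _).1 (p1 _ _ e (pi_nat h n r))) t)).2
    exact ⟨wU.pos_inj h fU q i this.1, this.2⟩

end Pool.Agent.H40.Zt
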