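import Pool.Agent.H40.Zt4

set_option autoImplicit false

/-! Permutations. -/

namespace Pool.Agent.H40.Zt

open Pool.Agent.H40.Bspt Pool.Agent.H40.Jz Classical

variable {M : Type} {E : M → M → Prop}

variable (E) in
/-- fixed-point free permutations of a subset of `A` -/
def PP (A Q : M) : Prop := Sub E Q (sq E A) ∧
  (∀ x y, Ap E Q x y → x ≠ y ∧ (∃ z, Ap E Q y z) ∧ ∃ z, Ap E Q z x) ∧
  (∀ x y z, Ap E Q x y → Ap E Q x z → y = z) ∧ ∀ x y z, Ap E Q x z → Ap E Q y z → x = y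

variable (E) in
noncomputable def pm (A Q : M) : M := rl E A fun x y => Ap E Q x y ∨ x = y ∧ ¬ ∃ z, Ap E Q x z

section
variable {α : Type} {s t : (α → M) → M}
instance [T E s] [T E t] : T E fun v => pm E (s v) (t v) :=
  @t2 _ E (pm E) (by unfold pm; infer_instance) _ _ _ _ _
instance [T E s] [T E t] : D E fun v => PP E (s v) (t v) :=
  @l2 _ E (PP E) (by unfold PP; infer_instance) _ _ _ _ _
end

theorem Hyp.mono {A : M} {val : M → M} {P Q : M → Prop} (H : Hyp E A P val) (a : ∀ x, Q x → P x) :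
    Hyp E A Q val := ⟨H.df, fun x b => H.mem x (a x b), fun v => few_mono (H.fto v) fun x b => ⟨a x b.1, b.2⟩⟩

theorem Hyp.mt {A : M} {val : M → M} (H : Hyp E A (PP E A) val) : Hyp E A (Mt E A) val :=
  H.mono fun _ a => ⟨a.1, fun x y b => ⟨(a.2.1 x y b).2, ⟨x, (a.2.1 x y b).1⟩, y, (a.2.1 x y b).1⟩,
    a.2.2, fun x y z b c => a.2.2 z x y (a.2.1 _ _ b).1 (a.2.1 _ _ c).1⟩

variable (h : IsZF E) {A : M} {val : M → M}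
include h

theorem ap_pm {Q x y : M} :
    Ap E (pm E A Q) x y ↔ (E x A ∧ E y A) ∧ (Ap E Q x y ∨ x = y ∧ ¬ ∃ z, Ap E Q x z) := ap_rl h

theorem pm_perm {Q : M} (a : Sub E Q (sq E A)) (b : ∀ x y, Ap E Q x y → (∃ z, Ap E Q y z) ∧ ∃ z, Ap E Q z x)
    (c : ∀ x y z, Ap E Q x y → Ap E Q x z → y = z) (d : ∀ x y z, Ap E Q x z → Ap E Q y z → x = y) :
    IsPerm E A (pm E A Q) := by
  refine ⟨fun p e => ?_, fun x e => ?_, fun y e => ?_⟩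
  · obtain ⟨x, y, f, g, rfl⟩ := (mem_sq h).1 (rl_sub h p e)
    exact ⟨x, y, f, g, pr_sp h x y⟩
  · simp only [app_pr h, ap_pm h]
    by_cases f : ∃ y, Ap E Q x y
    · obtain ⟨y, f⟩ := f
      have g := (ap_sq h).1 (a _ f)
      exact ⟨y, ⟨g.2, g, Or.inl f⟩, fun z i => i.2.2.elim (c x z y · f) fun j => absurd ⟨y, f⟩ j.2⟩
    · exact ⟨x, ⟨e, ⟨e, e⟩, Or.inr ⟨rfl, f⟩⟩, fun z i => i.2.2.elim (absurd ⟨z, ·⟩ f) fun j => j.1.symm⟩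
  · simp only [app_pr h, ap_pm h]
    by_cases f : ∃ x, Ap E Q x y
    · obtain ⟨x, f⟩ := f
      have g := (ap_sq h).1 (a _ f)
      exact ⟨x, ⟨g.1, g, Or.inl f⟩, fun z i => i.2.2.elim (d z x y · f) fun j =>
        absurd (j.1 ▸ (b x y f).1) j.2⟩
    · exact ⟨y, ⟨e, ⟨e, e⟩, Or.inr ⟨rfl, fun ⟨z, g⟩ => f (b y z g).2⟩⟩, fun z i => i.2.2.elim
        (absurd ⟨z, ·⟩ f) And.left⟩

theorem Hyp.pp (H : Hyp E A (IsPerm E A) val) : Hyp E A (PP E A) fun Q => val (pm E A Q) := by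
  have := @t1 _ E val H.df
  have k : ∀ Q, PP E A Q → IsPerm E A (pm E A Q) := fun Q a =>
    pm_perm h a.1 (fun x y b => (a.2.1 x y b).2) a.2.2.1 a.2.2.2
  have l : ∀ Q Q' x y, PP E A Q → pm E A Q = pm E A Q' → Ap E Q x y → Ap E Q' x y :=
    fun Q Q' x y a b c => ((ap_pm h).1 (b ▸ (ap_pm h).2 ⟨(ap_sq h).1 (a.1 _ c), Or.inl c⟩ :
      Ap E (pm E A Q') x y)).2.resolve_right fun d => (a.2.1 x y c).1 d.1
  exact ⟨inferInstance, fun Q a => H.mem _ (k Q a), fun v => few_img h (fun σ Q => PP E A Q ∧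
    σ = pm E A Q) (H.fto v) (fun _ Q Q' a b => rext h a.1.1 b.1.1 fun x y => ⟨l Q Q' x y a.1
      (a.2.symm.trans b.2), l Q' Q x y b.1 (b.2.symm.trans a.2)⟩) fun Q a => ⟨_, ⟨k Q a.1, a.2⟩, a.1, rfl⟩⟩

theorem plg (H : Hyp E A (PP E A) val) (P : M → Prop) [D1 E P] (g ι ρ : M → M) [T1 E g] [T1 E ι]
    [T1 E ρ] (a : ∀ x, P x → E x A ∧ E (g x) A ∧ g x ≠ x ∧ IsNat E (ι x) ∧ IsNat E (ρ x) ∧ ρ (g x) = ρ x)
    (b : ∀ x y, P x → P y → ι x = ι y → g x = g y → x = y) : Few E fun m => ∃ x, P x ∧ ρ x = m := by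
  have := @l1 _ E P _
  have := @t1 _ E g _
  have := @t1 _ E ι _
  have := @t1 _ E ρ _
  obtain ⟨U, _, hU⟩ : ∃ U : M → Prop, D1 E U ∧ ∀ x, U x ↔ P x ∧ ∀ y, P y → ρ y = ρ x →
    ¬ E (ι y) (ι x) := ⟨_, inferInstance, fun _ => Iff.rfl⟩
  have := @l1 _ E U _
  obtain ⟨V, _, hV⟩ : ∃ V : M → Prop, D1 E V ∧ ∀ x, V x ↔ U x ∧ (¬ U (g x) ∨
    (∀ y, U y → ρ y = ρ x → U (g y)) ∧ ¬ ∃ y, U y ∧ g y = x) := ⟨_, inferInstance, fun _ => Iff.rfl⟩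
  have := @l1 _ E V _
  obtain ⟨W, _, hW⟩ : ∃ W : M → Prop, D1 E W ∧ ∀ x, W x ↔ U x ∧ ∀ y, ρ y = ρ x → ¬ V y :=
    ⟨_, inferInstance, fun _ => Iff.rfl⟩
  have := @l1 _ E W _
  have u : ∀ {x}, U x → _ := fun {x} c => a x ((hU x).1 c).1
  have r : ∀ {x}, U x → ρ (g x) = ρ x := fun c => (u c).2.2.2.2.2
  have v : ∀ {x}, V x → U x := fun c => ((hV _).1 c).1
  have w : ∀ {x}, W x → U x := fun c => ((hW _).1 c).1
  have inj : ∀ {x y}, U x → U y → g x = g y → x = y := fun {x y} c d e => by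
    have f : ρ x = ρ y := (r c).symm.trans (e ▸ r d)
    obtain ⟨c1, c2⟩ := (hU x).1 c
    obtain ⟨d1, d2⟩ := (hU y).1 d
    exact b x y c1 d1 (((tri h (u c).2.2.2.1 (u d).2.2.2.1).resolve_left (d2 x c1 f)).resolve_right
      (c2 y d1 f.symm)) e
  have k1 : ∀ {x}, V x → ¬ V (g x) := fun {x} c d => ((hV _).1 c).2.elim (· (v d)) fun e =>
    ((hV _).1 d).2.elim (· (e.1 _ (v d) (r (v c)))) fun f => f.2 ⟨x, v c, rfl⟩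
  have k4 : ∀ {x y}, V x → W y → ρ x ≠ ρ y := fun c d e => ((hW _).1 d).2 _ e c
  have k5 : ∀ {x y}, W x → U y → ρ y = ρ x → U (g y) := fun c d e => by_contra fun f =>
    k4 ((hV _).2 ⟨d, Or.inl f⟩) c e
  have k6 : ∀ {x y}, W x → U y → ρ y = ρ x → W y := fun c d e =>
    (hW _).2 ⟨d, fun z f g => k4 g c (f.trans e)⟩
  have k3 : ∀ {x}, W x → ∃ y, W y ∧ g y = x := fun {x} c => by
    obtain ⟨y, d, e⟩ : ∃ y, U y ∧ g y = x := by_contra fun d =>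
      k4 ((hV _).2 ⟨w c, Or.inr ⟨fun y => k5 c, d⟩⟩) c rfl
    exact ⟨y, k6 c d ((r d).symm.trans (congrArg ρ e)), e⟩
  refine pl h H.mt H (fun m => ∃ x, P x ∧ ρ x = m) (fun k p => ∃ x y, p = pr E x y ∧ ρ x = k ∧
    (V x ∧ y = g x ∨ V y ∧ x = g y ∨ W x ∧ y = g x)) (fun k ⟨x, c, d⟩ => d ▸ (a x c).2.2.2.2.1)
    (fun S _ => ?_) fun k ⟨x, c, d⟩ => ?_
  · generalize hQ : st E (sq E A) _ = Q
    have aQ : ∀ x y, Ap E Q x y ↔ E (ρ x) S ∧ (V x ∧ y = g x ∨ V y ∧ x = g y ∨ W x ∧ y = g x) :=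
      fun x y => hQ ▸ (mem_st h).trans ⟨fun ⟨_, k, c, d⟩ => ((ex_pr h).1 d).imp_left fun e : ρ x = k => e ▸ c,
        fun ⟨c, d⟩ => ⟨(ap_sq h).2 (by
          rcases d with ⟨d, rfl⟩ | ⟨d, rfl⟩ | ⟨d, rfl⟩
          exacts [⟨(u (v d)).1, (u (v d)).2.1⟩, ⟨(u (v d)).2.1, (u (v d)).1⟩, ⟨(u (w d)).1, (u (w d)).2.1⟩]),
          _, c, x, y, rfl, rfl, d⟩⟩
    refine ⟨hQ ▸ fun _ d => ((mem_st h).1 d).1, fun x y => ?_, fun x y z => ?_, fun x y z => ?_⟩ <;>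
      simp only [aQ]
    · rintro ⟨c, ⟨d, rfl⟩ | ⟨d, rfl⟩ | ⟨d, rfl⟩⟩
      · exact ⟨(u (v d)).2.2.1.symm, ⟨x, (r (v d)).symm ▸ c, Or.inr (Or.inl ⟨d, rfl⟩)⟩,
          _, (r (v d)).symm ▸ c, Or.inr (Or.inl ⟨d, rfl⟩)⟩
      · exact ⟨(u (v d)).2.2.1, ⟨_, r (v d) ▸ c, Or.inl ⟨d, rfl⟩⟩, y, r (v d) ▸ c, Or.inl ⟨d, rfl⟩⟩
      · obtain ⟨y, e, rfl⟩ := k3 d
        exact ⟨(u (w d)).2.2.1.symm, ⟨_, (r (w d)).symm ▸ c, Or.inr (Or.inr ⟨k6 d (k5 d (w d) rfl)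
          (r (w d)), rfl⟩)⟩, y, r (w e) ▸ c, Or.inr (Or.inr ⟨e, rfl⟩)⟩
    · rintro ⟨-, ⟨d, rfl⟩ | ⟨d, rfl⟩ | ⟨d, rfl⟩⟩ ⟨-, ⟨e, f⟩ | ⟨e, f⟩ | ⟨e, f⟩⟩
      exacts [f.symm, absurd (f ▸ d) (k1 e), absurd rfl (k4 d e), absurd e (k1 d), inj (v d) (v e) f,
        absurd (r (v d)).symm (k4 d e), absurd rfl (k4 e d), absurd (f ▸ (r (v e)).symm) (k4 e d), f.symm]
    · rintro ⟨-, ⟨d, rfl⟩ | ⟨d, rfl⟩ | ⟨d, rfl⟩⟩ ⟨-, ⟨e, f⟩ | ⟨e, f⟩ | ⟨e, f⟩⟩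
      exacts [inj (v d) (v e) f, absurd e (k1 d), absurd ((r (v d)).symm.trans (f ▸ r (w e))) (k4 d e),
        absurd (f ▸ d) (k1 e), f.symm, absurd (f ▸ r (w e)) (k4 d e),
        absurd ((r (v e)).symm.trans (f ▸ r (w d))) (k4 e d), absurd (r (w d)) (k4 e d), inj (w d) (w e) f]
  · obtain ⟨n, ⟨-, y, e, f, rfl⟩, i⟩ := least h (fun n => ∃ y, P y ∧ ρ y = k ∧ ι y = n)
      (a x c).2.2.2.1 ⟨x, c, d, rfl⟩
    have j : U y := (hU y).2 ⟨e, fun z l o p => i _ p ⟨(a z l).2.2.2.1, z, l, o.trans f, rfl⟩⟩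
    obtain ⟨z, l, o, p⟩ : ∃ z, U z ∧ ρ z = k ∧ (V z ∨ W z) := by_contra fun l => l ⟨y, j, f, Or.inr
      ((hW y).2 ⟨j, fun z o p => l ⟨z, v p, o.trans f, Or.inl p⟩⟩)⟩
    exact ⟨_, (ap_sq h).2 ⟨(u l).1, (u l).2.1⟩, ⟨z, _, rfl, o, p.elim (fun p => Or.inl ⟨p, rfl⟩)
      fun p => Or.inr (Or.inr ⟨p, rfl⟩)⟩, fun k' _ q => ((ex_pr h).1 q).1.symm.trans o⟩

end Pool.Agent.H40.Zt
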