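import Pool.Agent.H40.Zt5

set_option autoImplicit false

/-! Closures under a pairing function. -/

namespace Pool.Agent.H40.Zt

open Pool.Agent.H40.Bspt Pool.Agent.H40.Jz Classical

variable {M : Type} {E : M → M → Prop} (h : IsZF E) {A : M} {val : M → M}
include h

theorem cnt_mono {d e k : M} {P Q : M → Prop} [D1 E P] [D1 E Q] (c : Few E Q) (a : ∀ z, P z → Q z)
    (b : E k (cnt E d P)) : E k (cnt E e Q) :=
  sz_mono h (fin_fs h c) (fun z f => (mem_fs h c).2 (a z ((mem_fs h (few_mono c a)).1 f))) k b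

theorem clo (H : Hyp E A (Mt E A) val) (j ν : M → M → M) [T2 E j] [T2 E ν]
    (a : ∀ x y, E x A → E y A → E (j x y) A ∧ IsNat E (ν x y))
    (b : ∀ x y x' y', E x A → E y A → E x' A → E y' A → j x y = j x' y' → ν x y = ν x' y' →
      x = x' ∧ y = y') : ∃ R : M → M, T1 E R ∧ ∀ z, WO E A (R z) ∧ (Few E fun y => Ap E (R z) y y) ∧
        (E z A → Ap E (R z) z z) ∧ (∀ x y, E x A → E y A → (Ap E (R z) (j x y) (j x y) ↔
          Ap E (R z) x x ∧ Ap E (R z) y y)) ∧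
        ∀ w y, Ap E (R w) z z → Ap E (R z) y y → Ap E (R w) y y := by
  have := @t2 _ E j _
  have := @t2 _ E ν _
  obtain ⟨o, ho⟩ := h.emp
  have o0 := h.nat0 ho
  have o1 := nat_sc h o0
  have ne : o ≠ sc E o := sc_ne h
  obtain ⟨R, _, c⟩ := gl h H fun z R c y => ∃ s t n, (IsNat E s ∧ IsNat E t ∧ IsNat E n) ∧
    c = pi E s (pi E t n) ∧ (s = o ∧ (t = o ∧ y = z ∨ t = sc E o ∧ ∃ p q, Ap E R p p ∧ Ap E R q q ∧
      n = pi E (pos E R p) (pos E R q) ∧ y = j p q) ∨ s = sc E o ∧ ∃ p q, (E p A ∧ E q A) ∧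
        Ap E R (j p q) (j p q) ∧ n = pi E (pos E R (j p q)) (ν p q) ∧
          (t = o ∧ y = p ∨ t = sc E o ∧ y = q))
  have := @t1 _ E R _
  have k : ∀ z, (E z A → Ap E (R z) z z) ∧ ∀ x y, E x A → E y A → (Ap E (R z) (j x y) (j x y) ↔
      Ap E (R z) x x ∧ Ap E (R z) y y) := fun z => by
    obtain ⟨w, f, -, g⟩ := c z
    have n : ∀ {x}, IsNat E (pos E (R z) x) := w.pos_nat h f
    have g := g ?_
    · exact ⟨fun d => g _ z (pi_nat h o0 (pi_nat h o0 o0)) d ⟨o, o, o, ⟨o0, o0, o0⟩, rfl,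
        Or.inl ⟨rfl, Or.inl ⟨rfl, rfl⟩⟩⟩, fun x y d e => have m := pi_nat h n (a x y d e).2
        ⟨fun i => ⟨g _ x (pi_nat h o1 (pi_nat h o0 m)) d ⟨_, _, _, ⟨o1, o0, m⟩, rfl, Or.inr ⟨rfl, x, y,
          ⟨d, e⟩, i, rfl, Or.inl ⟨rfl, rfl⟩⟩⟩, g _ y (pi_nat h o1 (pi_nat h o1 m)) e ⟨_, _, _, ⟨o1, o1, m⟩,
            rfl, Or.inr ⟨rfl, x, y, ⟨d, e⟩, i, rfl, Or.inr ⟨rfl, rfl⟩⟩⟩⟩, fun i => g _ _ (pi_nat h o0
              (pi_nat h o1 (pi_nat h n n))) (a x y d e).1 ⟨_, _, _, ⟨o0, o1, pi_nat h n n⟩, rfl,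
                Or.inl ⟨rfl, Or.inr ⟨rfl, x, y, i.1, i.2, rfl, rfl⟩⟩⟩⟩⟩
    · rintro _ y y' - - - ⟨s, t, m, ⟨d1, d2, d3⟩, rfl, d⟩ ⟨s', t', m', ⟨e1, e2, e3⟩, i, e⟩
      obtain ⟨rfl, i1⟩ := pi_inj h d1 (pi_nat h d2 d3) e1 (pi_nat h e2 e3) i
      obtain ⟨rfl, rfl⟩ := pi_inj h d2 d3 e2 e3 i1
      rcases d with ⟨rfl, d⟩ | ⟨rfl, p, q, d, f1, rfl, f2⟩ <;>
        rcases e with ⟨e, l⟩ | ⟨e, p', q', l, l1, l2, l3⟩
      · rcases d with ⟨rfl, rfl⟩ | ⟨rfl, p, q, f1, f2, rfl, rfl⟩ <;>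
          rcases l with ⟨l, rfl⟩ | ⟨l, p', q', l1, l2, l3, rfl⟩
        · rfl
        · exact absurd l ne
        · exact absurd l.symm ne
        · obtain ⟨r1, r2⟩ := pi_inj h n n n n l3
          rw [w.pos_inj h f f1 l1 r1, w.pos_inj h f f2 l2 r2]
      · exact absurd e ne
      · exact absurd e.symm ne
      · obtain ⟨r1, r2⟩ := pi_inj h n (a p q d.1 d.2).2 n (a p' q' l.1 l.2).2 l2
        obtain ⟨rfl, rfl⟩ := b p q p' q' d.1 d.2 l.1 l.2 (w.pos_inj h f f1 l1 r1) r2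
        rcases f2 with ⟨rfl, rfl⟩ | ⟨rfl, rfl⟩ <;> rcases l3 with ⟨l3, rfl⟩ | ⟨l3, rfl⟩
        exacts [rfl, absurd l3 ne, absurd l3.symm ne, rfl]
  refine ⟨R, ‹_›, fun z => ⟨(c z).1, (c z).2.1, (k z).1, (k z).2, fun w y d e => by_contra fun f => ?_⟩⟩
  obtain ⟨u, -, g, -⟩ := c z
  obtain ⟨m, i, l, p0⟩ := u.lst h (fun y => ¬ Ap E (R w) y y) f e
  have q : ∀ x, Ap E (seg E (R z) m) x x → Ap E (R w) x x := fun x r => by_contra fun s =>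
    have r := (ap_seg h).1 r
    r.2.2 (u.an _ _ r.2.1 (p0 x s r.1))
  obtain ⟨-, -, s, t, n, -, -, ⟨-, ⟨-, rfl⟩ | ⟨-, p, p', r, r', -, rfl⟩⟩ | ⟨-, p, p', r, r', -, v⟩⟩ := g m l
  · exact i d
  · exact i (((k w).2 p p' ((c w).1.mem h (q p r)) ((c w).1.mem h (q p' r'))).2 ⟨q p r, q p' r'⟩)
  · have := ((k w).2 p p' r.1 r.2).1 (q _ r')
    exact i (v.elim (·.2 ▸ this.1) (·.2 ▸ this.2))

theorem thmP (H : Hyp E A (PP E A) val) (j ν : M → M → M) [T2 E j] [T2 E ν]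
    (a : ∀ x y, E x A → E y A → E (j x y) A ∧ IsNat E (ν x y))
    (b : ∀ x y x' y', E x A → E y A → E x' A → E y' A → j x y = j x' y' → ν x y = ν x' y' →
      x = x' ∧ y = y') : IsFin E A := by
  have := @t2 _ E j _
  have := @t2 _ E ν _
  by_contra hA
  obtain ⟨R, _, c⟩ := clo h H.mt j ν a b
  have := @t1 _ E R _
  have w := fun z => (c z).1
  have f := fun z => (c z).2.1
  have c1 := fun z => (c z).2.2.1
  have c2 := fun z => (c z).2.2.2.1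
  have c3 := fun w z => (c z).2.2.2.2 w
  have c4 := fun x y (d : E x A) (e : E y A) => (c2 _ x y d e).1 (c1 _ (a x y d e).1)
  obtain ⟨ρ, _, hρ⟩ : ∃ ρ : M → M, T1 E ρ ∧ ∀ z, ρ z = cnt E A fun y => Ap E (R z) y y :=
    ⟨_, inferInstance, fun _ => rfl⟩
  have := @t1 _ E ρ _
  have r1 : ∀ z, IsNat E (ρ z) := fun z => hρ z ▸ cnt_nat h (f z)
  have r2 : ∀ w z k, Ap E (R w) z z → E k (ρ z) → E k (ρ w) := fun w z k d e =>
    hρ w ▸ cnt_mono h (f w) (fun y => c3 w z y d) (hρ z ▸ e)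
  have r3 : ∀ w z, Ap E (R w) z z → Ap E (R z) w w → ρ z = ρ w := fun w z d e =>
    h.ext _ _ fun k => ⟨r2 w z k d, r2 z w k e⟩
  have out : ∀ z, ∃ x, E x A ∧ ¬ Ap E (R z) x x := fun z => by_contra fun d => hA (few_fin h (f z)
    fun x e => by_contra fun g => d ⟨x, e, g⟩)
  have big : ∀ m, IsNat E m → ∃ z, E z A ∧ ∀ k, E k m → E k (ρ z) := fun m d => by
    refine natI h (fun m => ∃ z, E z A ∧ ∀ k, E k m → E k (ρ z)) (fun m d => (out A).imp fun z e =>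
      ⟨e.1, fun k g => absurd g (d k)⟩) (fun m d ⟨z, e, g⟩ => ?_) m d
    obtain ⟨x, i, l⟩ := out z
    have o : E (ρ z) (ρ (j x z)) := hρ z ▸ hρ (j x z) ▸ cnt_lt h (f _) (fun y => c3 _ z y (c4 x z i e).2)
      (c4 x z i e).1 l
    exact ⟨_, (a x z i e).1, fun k p => ((mem_sc h).1 p).elim (fun p => ntr h (r1 _) (g k p) o)
      fun p => p ▸ (h.nat_le' (r1 z) m d g).elim (ntr h (r1 _) · o) (· ▸ o)⟩
  obtain ⟨L, _, hL⟩ : ∃ L : M → M → Prop, D2 E L ∧ ∀ m x, L m x ↔ E x A ∧ ∀ y, E y A →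
    ¬ Ap E (R y) x x → E (ρ (j x y)) m := ⟨_, inferInstance, fun _ _ => Iff.rfl⟩
  have := @l2 _ E L _
  have l1 : ∀ x, E x A → ∃ m, IsNat E m ∧ ∀ n, (∀ k, E k m → E k n) → L n x := fun x d => by
    obtain ⟨m, e, g⟩ := few_bd h (plg h H (fun y => E y A ∧ ¬ Ap E (R y) x x) (fun y => j x y)
      (fun y => ν x y) (fun y => ρ (j x y)) (fun y e => have i := a x y d e.1; ⟨e.1, i.1,
        fun l => e.2 (l ▸ (c4 x y d e.1).1), i.2, r1 _, r3 _ _ ((c2 _ _ _ d i.1).2 ⟨(c4 x y d e.1).1,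
          c1 _ i.1⟩) (c4 _ _ d i.1).2⟩) fun y z e g i l => (b x y x z d e.1 d g.1 l i).2)
    exact ⟨m, e, fun n i => (hL n x).2 ⟨d, fun y l o => i _ (g _ (r1 _) ⟨y, ⟨l, o⟩, rfl⟩)⟩⟩
  have l2 : ∀ m, IsNat E m → Few E (L m) := fun m d => by
    obtain ⟨z, e, g⟩ := big m d
    refine few_mono (f z) fun x i => by_contra fun l => ?_
    obtain ⟨o, p⟩ := (hL m x).1 i
    exact h.irr _ (r2 _ z _ (c4 x z o e).2 (g _ (p z e l)))
  obtain ⟨s, _, hs⟩ : ∃ s : M → M, T1 E s ∧ ∀ z, (∃ x, Ap E (R z) x x ∧ Ap E (R x) z z ∧ x ≠ z) →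
      Ap E (R z) (s z) (s z) ∧ Ap E (R (s z)) z z ∧ s z ≠ z := by
    refine ⟨fun z => the z fun x => (Ap E (R z) x x ∧ Ap E (R x) z z ∧ x ≠ z) ∧ ∀ y, (Ap E (R z) y y ∧
      Ap E (R y) z z ∧ y ≠ z) → Ap E (R z) x y, inferInstance, fun z ⟨x, d⟩ => ?_⟩
    obtain ⟨m, e, -, g⟩ := (w z).lst h (fun x => Ap E (R z) x x ∧ Ap E (R x) z z ∧ x ≠ z) d d.1
    exact (the_sp (Q := fun x => (Ap E (R z) x x ∧ Ap E (R x) z z ∧ x ≠ z) ∧ ∀ y, (Ap E (R z) y y ∧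
      Ap E (R y) z z ∧ y ≠ z) → Ap E (R z) x y) ⟨m, e, fun y i => g y i i.1⟩
        fun y y' i l => (w z).an _ _ (i.2 _ l.1) (l.2 _ i.1)).1
  have := @t1 _ E s _
  obtain ⟨m0, n0, nt⟩ := few_bd h (plg h H (fun z => ∃ x, Ap E (R z) x x ∧ Ap E (R x) z z ∧ x ≠ z) s
    (fun z => pos E (R (s z)) z) ρ (fun z d => have e := hs z d; ⟨(w _).mem h e.2.1, (w _).mem h e.1,
      e.2.2, (w _).pos_nat h (f _), r1 z, r3 _ _ e.1 e.2.1⟩) fun x y d e g i => (w (s y)).pos_inj h (f _)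
        (i ▸ (hs x d).2.1) (hs y e).2.1 (i ▸ g))
  have gen : ∀ X, IsFin E X → (∀ x, E x X → E x A) → (∃ x, E x X) → ∃ z, E z A ∧ (∀ x, E x X →
      Ap E (R z) x x) ∧ ∀ w, (∀ x, E x X → Ap E (R w) x x) → Ap E (R w) z z := fun X d => by
    refine finI h (fun X => (∀ x, E x X → E x A) → (∃ x, E x X) → ∃ z, E z A ∧ (∀ x, E x X →
      Ap E (R z) x x) ∧ ∀ w, (∀ x, E x X → Ap E (R w) x x) → Ap E (R w) z z)
      (fun X d _ ⟨x, e⟩ => absurd e (d x)) (fun Y y X _ ih d e _ => ?_) X d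
    have g := (d y).2 (Or.inr rfl)
    by_cases i : ∃ x, E x Y
    · obtain ⟨z, l, o, p⟩ := ih (fun x l => e x ((d x).2 (Or.inl l))) i
      exact ⟨_, (a z y l (e y g)).1, fun x q => ((d x).1 q).elim (fun q => c3 _ z x (c4 z y l (e y g)).1
        (o x q)) (· ▸ (c4 z y l (e y g)).2), fun w q => (c2 w z y l (e y g)).2
          ⟨p w fun x r => q x ((d x).2 (Or.inl r)), q y g⟩⟩
    · exact ⟨y, e y g, fun x l => ((d x).1 l).elim (absurd ⟨x, ·⟩ i) (· ▸ c1 y (e y g)), fun w l => l y g⟩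
  refine hA (few_fin h (df h H.mt (fun c y => ∃ m z, IsNat E m ∧ ((∀ x, L m x → Ap E (R z) x x) ∧
    ∀ w, (∀ x, L m x → Ap E (R w) x x) → Ap E (R w) z z) ∧ ¬ E (ρ z) m0 ∧ Ap E (R z) y y ∧
      c = pi E m (pos E (R z) y)) ?_) fun y d => ⟨d, ?_⟩)
  · rintro _ y y' - - - ⟨m, z, d, e, g, i, rfl⟩ ⟨m', z', d', e', -, i', l⟩
    obtain ⟨rfl, l0⟩ := pi_inj h d ((w _).pos_nat h (f _)) d' ((w _).pos_nat h (f _)) l
    obtain rfl : z' = z := by_contra fun o => g (nt _ (r1 z) ⟨z, ⟨z', e'.2 z e.1, e.2 z' e'.1, o⟩, rfl⟩)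
    exact (w _).pos_inj h (f _) i i' l0
  · obtain ⟨x, e, g⟩ := big m0 n0
    obtain ⟨m1, i, l⟩ := l1 x e
    obtain ⟨m2, i', l'⟩ := l1 y d
    obtain ⟨o, p, q⟩ := mx_sp h i i'
    have k : ∀ m, E m (sc E (mx E m1 m2)) → ∀ k, E k m → E k (mx E m1 m2) := fun m r k t =>
      ((mem_sc h).1 r).elim (ntr h o t) (· ▸ t)
    have t := l2 _ o
    obtain ⟨z, -, u, v⟩ := gen (cls E A (L (mx E m1 m2))) (fin_fs h t) (fun x u => ((hL _ _).1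
      ((mem_fs h t).1 u)).1) ⟨x, (mem_fs h t).2 (l _ (k _ p))⟩
    simp only [mem_fs h t] at u v
    exact ⟨_, pi_nat h o ((w z).pos_nat h (f z)), _, z, o, ⟨u, v⟩, fun r => h.irr _
      (r2 z x _ (u x (l _ (k _ p))) (g _ r)), u y (l' _ (k _ q)), rfl⟩

end Pool.Agent.H40.Zt
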