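import Pool.Agent.H40.Zt6

set_option autoImplicit false

/-! From permutations to pairs. -/

namespace Pool.Agent.H40.Zt

open Pool.Agent.H40.Bspt Pool.Agent.H40.Jz Classical

variable {M : Type} {E : M → M → Prop}

noncomputable def sw (a b x : M) : M := if x = a then b else if x = b then a else x

theorem sw_sw (a b x : M) : sw a b (sw a b x) = x := by
  unfold sw
  split_ifs <;> simp_all

theorem sw_mem {P : M → Prop} {a b x : M} (c : P a) (d : P b) (e : P x) : P (sw a b x) := by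
  unfold sw
  split_ifs <;> assumption

instance {α : Type} {s t u : (α → M) → M} [T E s] [T E t] [T E u] :
    T E fun v => sw (s v) (t v) (u v) := @t3 _ E sw (by unfold sw; infer_instance) _ _ _ _ _ _ _

variable (h : IsZF E) {A : M} {val : M → M}
include h

theorem sig (hA : ¬ IsFin E A) : ∃ σ : M → M → M, T2 E σ ∧ ∀ a b, E a A → E b A →
    IsPerm E A (σ a b) ∧ ∀ a' b', E a' A → E b' A → a ≠ b → a' ≠ b' → σ a b = σ a' b' →
      a = a' ∧ b = b' := by
  obtain ⟨x, y, c, d, e⟩ : ∃ x y, E x A ∧ E y A ∧ x ≠ y := by_contra fun c => hA (few_fin h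
    (few_one h fun x y d e => by_contra fun f => c ⟨x, y, d, e, f⟩) fun _ => id)
  have m : ∀ {a b z}, E a A → E b A → E z A → E (sw a b z) A := sw_mem (P := fun z => E z A)
  have k : ∀ a b p q, E a A → E b A → (Ap E (rl E A fun p q => q = sw x a (sw y (sw x a b) p)) p q ↔
      E p A ∧ q = sw x a (sw y (sw x a b) p)) := fun a b p q f g => (ap_rl h).trans
    ⟨fun i => ⟨i.1.1, i.2⟩, fun i => ⟨⟨i.1, i.2 ▸ m c f (m d (m c f g) i.1)⟩, i.2⟩⟩
  have l : ∀ a b p q, E a A → E b A → E p A → (Ap E (pm E A (rl E A fun p q =>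
      q = sw x a (sw y (sw x a b) p))) p q ↔ q = sw x a (sw y (sw x a b) p)) := fun a b p q f g i =>
    (ap_pm h).trans ⟨fun j => j.2.elim (fun j => ((k a b p q f g).1 j).2) fun j => absurd
      ⟨_, (k a b p _ f g).2 ⟨i, rfl⟩⟩ j.2, fun j => ⟨⟨i, j ▸ m c f (m d (m c f g) i)⟩,
        Or.inl ((k a b p q f g).2 ⟨i, j⟩)⟩⟩
  have s1 : ∀ a b : M, sw a b a = b := fun a b => if_pos rfl
  have s2 : ∀ a b, a ≠ b → sw x a (sw y (sw x a b) x) = a := fun a b f => by
    have : x ≠ sw x a b := fun g => f (by rw [← sw_sw x a b, ← g, s1])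
    rw [show sw y (sw x a b) x = x from (if_neg e).trans (if_neg this), s1]
  refine ⟨fun a b => pm E A (rl E A fun p q => q = sw x a (sw y (sw x a b) p)), inferInstance,
    fun a b f g => ⟨pm_perm h (rl_sub h) (fun p q => ?_) (fun p q r => ?_) fun p q r => ?_,
      fun a' b' f' g' i i' j => ?_⟩⟩
  · simp only [k a b _ _ f g]
    rintro ⟨i, rfl⟩
    exact ⟨⟨_, m c f (m d (m c f g) i), rfl⟩, _, m d (m c f g) (m c f i), by rw [sw_sw, sw_sw]⟩
  · simp only [k a b _ _ f g]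
    exact fun i j => i.2.trans j.2.symm
  · simp only [k a b _ _ f g]
    exact fun i j => by simpa [sw_sw] using congrArg (fun z => sw y (sw x a b) (sw x a z)) (i.2.symm.trans j.2)
  · beta_reduce at j
    have o := (l a' b' x _ f' g' c).1 (j ▸ (l a b x _ f g c).2 rfl)
    have p := (l a' b' y _ f' g' d).1 (j ▸ (l a b y _ f g d).2 rfl)
    rw [s2 a b i, s2 a' b' i'] at o
    rw [s1, s1, sw_sw, sw_sw] at p
    exact ⟨o, p⟩

theorem thmQ (H : Hyp E A (IsPerm E A) val) (σ κ : M → M → M) [T2 E σ] [T2 E κ]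
    (a : ∀ x y, E x A → E y A → IsPerm E A (σ x y) ∧ (x ≠ y → IsNat E (κ x y)))
    (b : ∀ x y x' y', E x A → E y A → E x' A → E y' A → x ≠ y → x' ≠ y' →
      val (σ x y) = val (σ x' y') → κ x y = κ x' y' → x = x' ∧ y = y') : IsFin E A := by
  have := @t1 _ E val H.df
  have := @t2 _ E σ _
  have := @t2 _ E κ _
  obtain ⟨o, ho⟩ := h.emp
  have o0 := h.nat0 ho
  have o1 := nat_sc h o0
  obtain ⟨f, g, _, _, c⟩ : ∃ f g : M → M, T1 E f ∧ T1 E g ∧ ∀ n z, f (pr E n z) = n ∧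
      g (pr E n z) = z := ⟨fun v => the v fun n => ∃ z, v = pr E n z, fun v => the v fun z => ∃ n,
        v = pr E n z, inferInstance, inferInstance, fun n z => ⟨the_eq ⟨z, rfl⟩ fun _ ⟨_, c⟩ =>
          (pr_inj h c).1.symm, the_eq ⟨n, rfl⟩ fun _ ⟨_, c⟩ => (pr_inj h c).2.symm⟩⟩
  have := @t1 _ E f _
  have := @t1 _ E g _
  refine thmP h (H.pp h) (fun x y => if x = y then x else g (val (σ x y))) (fun x y => if x = y then
    pi E o o else pi E (sc E o) (pi E (f (val (σ x y))) (κ x y))) (fun x y d e => ?_)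
    fun x y x' y' d e d' e' => ?_
  · obtain ⟨n, z, i, j, k⟩ := H.mem _ (a x y d e).1
    split_ifs with l
    · exact ⟨d, pi_nat h o0 o0⟩
    · rw [k, (c n z).1, (c n z).2]
      exact ⟨j, pi_nat h o1 (pi_nat h i ((a x y d e).2 l))⟩
  · obtain ⟨n, z, i, j, k⟩ := H.mem _ (a x y d e).1
    obtain ⟨n', z', i', j', k'⟩ := H.mem _ (a x' y' d' e').1
    have := b x y x' y' d e d' e'
    rw [k, k'] at this ⊢
    rw [(c n z).1, (c n z).2, (c n' z').1, (c n' z').2]
    split_ifs with l l' l'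
    · exact fun p _ => ⟨p, l ▸ l' ▸ p⟩
    · exact fun _ p => absurd (pi_inj h o0 o0 o1 (pi_nat h i' ((a x' y' d' e').2 l')) p).1 (sc_ne h)
    · exact fun _ p => absurd (pi_inj h o0 o0 o1 (pi_nat h i ((a x y d e).2 l)) p.symm).1 (sc_ne h)
    · intro p q
      have r := (a x y d e).2 l
      have r' := (a x' y' d' e').2 l'
      have s := pi_inj h i r i' r' (pi_inj h o1 (pi_nat h i r) o1 (pi_nat h i' r') q).2
      exact this l l' (s.1 ▸ p ▸ rfl) s.2

theorem thm_inj (H : Hyp E A (IsPerm E A) val)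
    (a : ∀ σ τ, IsPerm E A σ → IsPerm E A τ → val σ = val τ → σ = τ) : IsFin E A := by
  by_contra hA
  obtain ⟨σ, _, b⟩ := sig h hA
  obtain ⟨o, ho⟩ := h.emp
  exact hA (thmQ h H σ (fun _ _ => o) (fun x y c d => ⟨(b x y c d).1, fun _ => h.nat0 ho⟩)
    fun x y x' y' c d c' d' e e' f _ => (b x y c d).2 x' y' c' d' e e' (a _ _ (b x y c d).1
      (b x' y' c' d').1 f))

theorem thm_lin (H : Hyp E A (IsPerm E A) val) (lt : M → M → Prop) [D2 E lt] (ir : ∀ x, ¬ lt x x)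
    (tr : ∀ x y z, lt x y → lt y z → lt x z) (tt : ∀ x y, E x A → E y A → x ≠ y → lt x y ∨ lt y x) :
    IsFin E A := by
  by_contra hA
  obtain ⟨σ, _, b⟩ := sig h hA
  have := @t1 _ E val H.df
  have := @t2 _ E σ _
  have := @l2 _ E lt _
  have rk : ∀ (P : M → Prop) [D1 E P], Few E P → (∀ x, P x → E x A) → ∀ x y, P x → P y →
      (cnt E A fun z => lt z x ∧ P z) = (cnt E A fun z => lt z y ∧ P z) → x = y := fun P _ c d => by
    have := @l1 _ E P _
    have k : ∀ x y, P x → lt x y → E (cnt E A fun z => lt z x ∧ P z) (cnt E A fun z => lt z y ∧ P z) :=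
      fun x y e f => cnt_lt h (y := x) (few_mono c fun _ => And.right) (fun z g => ⟨tr _ _ _ g.1 f, g.2⟩)
        ⟨f, e⟩ fun g => ir x g.1
    exact fun x y e f g => by_contra fun i => (tt x y (d x e) (d y f) i).elim
      (fun j => h.irr _ (g ▸ k x y e j)) fun j => h.irr _ (g ▸ k y x f j)
  have f1 : ∀ v, Few E fun x => E x A ∧ ∃ y, E y A ∧ x ≠ y ∧ val (σ x y) = v := fun v =>
    few_img h (fun τ x => E x A ∧ ∃ y, E y A ∧ x ≠ y ∧ τ = σ x y) (H.fto v)
      (fun _ x x' ⟨c, y, d, e, f⟩ ⟨c', y', d', e', f'⟩ => ((b x y c d).2 x' y' c' d' e e'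
        (f.symm.trans f')).1) fun x ⟨c, y, d, e, f⟩ => ⟨_, ⟨(b x y c d).1, f⟩, c, y, d, e, rfl⟩
  have f2 : ∀ v, Few E fun y => E y A ∧ ∃ x, E x A ∧ x ≠ y ∧ val (σ x y) = v := fun v =>
    few_img h (fun τ y => E y A ∧ ∃ x, E x A ∧ x ≠ y ∧ τ = σ x y) (H.fto v)
      (fun _ y y' ⟨d, x, c, e, f⟩ ⟨d', x', c', e', f'⟩ => ((b x y c d).2 x' y' c' d' e e'
        (f.symm.trans f')).2) fun y ⟨d, x, c, e, f⟩ => ⟨_, ⟨(b x y c d).1, f⟩, d, x, c, e, rfl⟩
  have n1 : ∀ v p, IsNat E (cnt E A fun x => lt x p ∧ E x A ∧ ∃ y, E y A ∧ x ≠ y ∧ val (σ x y) = v) :=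
    fun v p => cnt_nat h (few_mono (f1 v) fun _ => And.right)
  have n2 : ∀ v p, IsNat E (cnt E A fun y => lt y p ∧ E y A ∧ ∃ x, E x A ∧ x ≠ y ∧ val (σ x y) = v) :=
    fun v p => cnt_nat h (few_mono (f2 v) fun _ => And.right)
  refine hA (thmQ h H σ (fun p q => pi E (cnt E A fun x => lt x p ∧ E x A ∧ ∃ y, E y A ∧ x ≠ y ∧
    val (σ x y) = val (σ p q)) (cnt E A fun y => lt y q ∧ E y A ∧ ∃ x, E x A ∧ x ≠ y ∧
      val (σ x y) = val (σ p q))) (fun x y c d => ⟨(b x y c d).1, fun _ => pi_nat h (n1 _ _) (n2 _ _)⟩)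
    fun x y x' y' c d c' d' e e' f g => ?_)
  rw [← f] at g
  have := pi_inj h (n1 _ _) (n2 _ _) (n1 _ _) (n2 _ _) g
  exact ⟨rk _ (f1 _) (fun _ => And.left) x x' ⟨c, y, d, e, rfl⟩ ⟨c', y', d', e', f.symm⟩ this.1,
    rk _ (f2 _) (fun _ => And.left) y y' ⟨d, x, c, e, rfl⟩ ⟨d', x', c', e', f.symm⟩ this.2⟩

/-- an internal function as a definable term -/
theorem intl_t {p : M → Prop} {φ : Subtype p → M} (a : Intl E φ) :
    ∃ f : M → M, T1 E f ∧ ∀ x, f x.1 = φ x :=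
  a.elim fun f b => ⟨fun x => the x fun y => App E f x y, inferInstance, fun x =>
    the_eq ((b x _).2 rfl) fun y => (b x y).1⟩

end Pool.Agent.H40.Zt
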