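import Pool.Agent.H40.Zt7

set_option autoImplicit false

/-! Partitions with finite blocks. -/

namespace Pool.Agent.H40.Zt

open Pool.Agent.H40.Bspt Pool.Agent.H40.Jz Classical

variable {M : Type} {E : M → M → Prop}

variable (E) in
/-- the off-diagonal part of an equivalence relation with finite classes -/
def EQ (A Q : M) : Prop := Sub E Q (sq E A) ∧ (∀ x y, Ap E Q x y → Ap E Q y x ∧ x ≠ y) ∧
  (∀ x y z, Ap E Q x y → Ap E Q y z → x = z ∨ Ap E Q x z) ∧ ∀ x, Few E fun y => Ap E Q x y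

variable (E) in
noncomputable def part (A Q : M) : M :=
  cls E A fun B => ∃ x, E x A ∧ B = st E A fun y => x = y ∨ Ap E Q x y

section
variable {α : Type} {s t : (α → M) → M}
instance [T E s] [T E t] : T E fun v => part E (s v) (t v) :=
  @t2 _ E (part E) (by unfold part; infer_instance) _ _ _ _ _
instance [T E s] [T E t] : D E fun v => EQ E (s v) (t v) :=
  @l2 _ E (EQ E) (by unfold EQ; infer_instance) _ _ _ _ _
end

variable (h : IsZF E) {A : M} {val : M → M}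
include h

theorem Hyp.mt' (H : Hyp E A (EQ E A) val) : Hyp E A (Mt E A) val :=
  H.mono fun _ a => ⟨a.1, a.2.1, fun x y z b c => Or.inl (a.2.2 y x z (a.2.1 _ _ b).1 c),
    fun x => few_one h (a.2.2 x)⟩

theorem mem_part {Q B : M} : E B (part E A Q) ↔ ∃ x, E x A ∧ B = st E A fun y => x = y ∨ Ap E Q x y :=
  (h.power A).elim fun _ a => mem_cls h fun B ⟨_, _, b⟩ => (a B).2 fun _ c => ((mem_st h).1 (b ▸ c)).1

theorem part_sp {Q : M} (a : EQ E A Q) : FinPart E A (part E A Q) ∧ ∀ x y, Ap E Q x y ↔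
    x ≠ y ∧ ∃ B, E B (part E A Q) ∧ E x B ∧ E y B := by
  have k : ∀ x y z, (x = y ∨ Ap E Q x y) → (x = z ∨ Ap E Q x z) → y = z ∨ Ap E Q y z := by
    rintro x y z (rfl | b) (rfl | c)
    exacts [Or.inl rfl, Or.inr c, Or.inr (a.2.1 _ _ b).1, a.2.2.1 _ _ _ (a.2.1 _ _ b).1 c]
  refine ⟨⟨fun B b => ?_, fun x b => ⟨_, (mem_part h).2 ⟨x, b, rfl⟩, (mem_st h).2 ⟨b, Or.inl rfl⟩⟩,
    fun B C x b c d e => ?_⟩, fun x y => ⟨fun b => ?_, fun ⟨b, B, c, d, e⟩ => ?_⟩⟩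
  · obtain ⟨x, c, rfl⟩ := (mem_part h).1 b
    exact ⟨fun y d => ((mem_st h).1 d).1, few_fin h (few_or h (few_one h (P := (x = ·)) fun _ _ i j =>
      i.symm.trans j) (a.2.2.2 x)) fun y d => ((mem_st h).1 d).2, x, (mem_st h).2 ⟨c, Or.inl rfl⟩⟩
  · obtain ⟨y, -, rfl⟩ := (mem_part h).1 b
    obtain ⟨z, -, rfl⟩ := (mem_part h).1 c
    have d := ((mem_st h).1 d).2
    have e := ((mem_st h).1 e).2
    refine h.ext _ _ fun w => ?_
    rw [mem_st h, mem_st h]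
    exact and_congr_right' ⟨fun f => k x z w (k z x z e (Or.inl rfl)) (k y x w d f),
      fun f => k x y w (k y x y d (Or.inl rfl)) (k z x w e f)⟩
  · have c := (ap_sq h).1 (a.1 _ b)
    exact ⟨(a.2.1 _ _ b).2, _, (mem_part h).2 ⟨x, c.1, rfl⟩, (mem_st h).2 ⟨c.1, Or.inl rfl⟩,
      (mem_st h).2 ⟨c.2, Or.inr b⟩⟩
  · obtain ⟨z, -, rfl⟩ := (mem_part h).1 c
    exact (k z x y ((mem_st h).1 d).2 ((mem_st h).1 e).2).resolve_left b

theorem Hyp.eq (H : Hyp E A (FinPart E A) val) : Hyp E A (EQ E A) fun Q => val (part E A Q) :=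
  have := @t1 _ E val H.df
  ⟨inferInstance, fun Q a => H.mem _ (part_sp h a).1, fun v => few_img h (fun σ Q => EQ E A Q ∧
    σ = part E A Q) (H.fto v) (fun _ Q Q' a b => rext h a.1.1 b.1.1 fun x y => by
      rw [(part_sp h a.1).2, (part_sp h b.1).2, ← a.2, ← b.2])
    fun Q a => ⟨_, ⟨(part_sp h a.1).1, a.2⟩, a.1, rfl⟩⟩

theorem plb (H : Hyp E A (EQ E A) val) (B : M → M → Prop) [D2 E B] (ρ : M → M) [T1 E ρ]
    (a : ∀ z x, B z x → E x A ∧ IsNat E (ρ z)) (b : ∀ z z' x, B z x → B z' x → z = z')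
    (c : ∀ z, Few E (B z)) : Few E fun m => ∃ z x y, B z x ∧ B z y ∧ x ≠ y ∧ ρ z = m := by
  have := @l2 _ E B _
  have := @t1 _ E ρ _
  refine pl h (H.mt' h) H _ (fun k p => ∃ x y, p = pr E x y ∧ x ≠ y ∧ ∃ z, B z x ∧ B z y ∧ ρ z = k)
    (fun k ⟨z, x, _, d, _, _, e⟩ => e ▸ (a z x d).2) (fun S _ => ?_) fun k ⟨z, x, y, d, e, f, g⟩ =>
      ⟨_, (ap_sq h).2 ⟨(a z x d).1, (a z y e).1⟩, ⟨x, y, rfl, f, z, d, e, g⟩, fun k' _ i =>
        let ⟨_, z', j, _, l⟩ := (ex_pr h).1 i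
        l.symm.trans (b z z' x d j ▸ g)⟩
  generalize hQ : st E (sq E A) _ = Q
  have aQ : ∀ x y, Ap E Q x y ↔ x ≠ y ∧ ∃ z, B z x ∧ B z y ∧ E (ρ z) S := fun x y => hQ ▸
    (mem_st h).trans ⟨fun ⟨_, k, d, e⟩ => ((ex_pr h).1 e).imp_right fun ⟨z, f, g, i⟩ =>
      ⟨z, f, g, i ▸ d⟩, fun ⟨d, z, e, f, g⟩ => ⟨(ap_sq h).2 ⟨(a z x e).1, (a z y f).1⟩, _, g, x, y, rfl,
        d, z, e, f, rfl⟩⟩
  refine ⟨hQ ▸ fun _ d => ((mem_st h).1 d).1, fun x y => ?_, fun x y z => ?_, fun x => ?_⟩ <;>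
    simp only [aQ]
  · exact fun ⟨d, z, e, f, g⟩ => ⟨⟨d.symm, z, f, e, g⟩, d⟩
  · exact fun ⟨_, u, e, f, g⟩ ⟨_, v, i, j, _⟩ => or_iff_not_imp_left.2 fun k =>
      ⟨k, u, e, b v u y i f ▸ j, g⟩
  · exact few_un h B (few_one h (P := fun z => B z x) fun z z' => b z z' x) c
      fun y ⟨_, z, d, e, _⟩ => ⟨z, d, e⟩

theorem lev_fin (H : Hyp E A (EQ E A) val) (L : M → M → Prop) [D2 E L]
    (a : ∀ x, E x A → ∃ m, IsNat E m ∧ L m x) (b : ∀ m, IsNat E m → Few E (L m)) : IsFin E A := by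
  have := @l2 _ E L _
  obtain ⟨B, _, hB⟩ : ∃ B : M → M → Prop, D2 E B ∧ ∀ m x, B m x ↔ E x A ∧ (IsNat E m ∧ L m x) ∧
    ∀ k, E k m → ¬ (IsNat E k ∧ L k x) := ⟨_, inferInstance, fun _ _ => Iff.rfl⟩
  have := @l2 _ E B _
  have c : ∀ m, Few E (B m) := fun m => (_root_.em (IsNat E m)).elim (fun c => few_mono (b m c) fun x d =>
    ((hB m x).1 d).2.1.2) fun c => few_one h fun x _ d => absurd ((hB m x).1 d).2.1.1 c
  have d := plb h H B (fun m => m) (fun m x d => ⟨((hB m x).1 d).1, ((hB m x).1 d).2.1.1⟩)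
    (fun m n x d e => least_u h (P := fun m => L m x) ((hB m x).1 d).2 ((hB n x).1 e).2) c
  refine few_fin h (few_or h (few_un h B d c fun _ => id) (df h (H.mt' h) (fun m y => B m y ∧
    ¬ ∃ z x y, B z x ∧ B z y ∧ x ≠ y ∧ z = m) fun m y y' _ _ _ e f => by_contra fun g =>
      e.2 ⟨m, y, y', e.1, f.1, g, rfl⟩)) fun x e => ?_
  obtain ⟨m, f, g⟩ := a x e
  obtain ⟨m, f⟩ := least h (fun m => L m x) f g
  have g := (hB m x).2 ⟨e, f⟩
  exact or_iff_not_imp_left.2 fun i => ⟨e, m, f.1.1, g, fun j => i ⟨m, j, g⟩⟩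

theorem thmB (f : M → M) [T1 E f] (a : ∀ Q, EQ E A Q → E (f Q) A)
    (b : ∀ z, Few E fun Q => EQ E A Q ∧ f Q = z) : IsFin E A := by
  have := @t1 _ E f _
  by_contra hA
  obtain ⟨o, ho⟩ := h.emp
  have H : Hyp E A (EQ E A) fun Q => pr E o (f Q) := ⟨inferInstance, fun Q c => ⟨o, _, h.nat0 ho,
    a Q c, rfl⟩, fun v => few_un h (fun z Q => EQ E A Q ∧ f Q = z) (few_one h (P := fun z =>
      pr E o z = v) fun _ _ c d => (pr_inj h (c.trans d.symm)).2) b fun Q c => ⟨_, c.2, c.1, rfl⟩⟩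
  obtain ⟨N, _, hN⟩ : ∃ N : M → M → Prop, D2 E N ∧ ∀ z y, N z y ↔ ∃ Q, (EQ E A Q ∧ f Q = z) ∧
    (Few E fun u => ∃ v, Ap E Q u v) ∧ ∃ v, Ap E Q y v := ⟨_, inferInstance, fun _ _ => Iff.rfl⟩
  have := @l2 _ E N _
  have n1 : ∀ z, Few E (N z) := fun z => few_un h (fun Q y => (Few E fun u => ∃ v, Ap E Q u v) ∧
    ∃ v, Ap E Q y v) (b z) (fun Q => (_root_.em _).elim (fun c => few_mono c fun _ => And.right) fun c =>
      few_one h fun _ _ d => absurd d.1 c) fun y => (hN z y).1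
  have n2 : ∀ z y, N z y → E y A := fun z y c =>
    let ⟨_, d, _, _, e⟩ := (hN z y).1 c
    ((ap_sq h).1 (d.1.1 _ e)).1
  have blk : ∀ (P : M → Prop) [D1 E P], Few E P → E (f (rl E A fun x y => P x ∧ P y ∧ x ≠ y)) A ∧
      ∀ x y, E x A → E y A → P x → P y → x ≠ y → N (f (rl E A fun x y => P x ∧ P y ∧ x ≠ y)) x :=
    fun P _ c => by
      have := @l1 _ E P _
      have d : EQ E A (rl E A fun x y => P x ∧ P y ∧ x ≠ y) := by
        refine ⟨rl_sub h, fun x y => ?_, fun x y z => ?_, fun x => few_mono c fun y d =>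
          ((ap_rl h).1 d).2.2.1⟩ <;> simp only [ap_rl h]
        · exact fun d => ⟨⟨d.1.symm, d.2.2.1, d.2.1, d.2.2.2.symm⟩, d.2.2.2⟩
        · exact fun d e => or_iff_not_imp_left.2 fun g => ⟨⟨d.1.1, e.1.2⟩, d.2.1, e.2.2.1, g⟩
      exact ⟨a _ d, fun x y e g i j k => (hN _ _).2 ⟨_, ⟨d, rfl⟩, few_mono c fun u ⟨_, l⟩ =>
        ((ap_rl h).1 l).2.1, y, (ap_rl h).2 ⟨⟨e, g⟩, i, j, k⟩⟩⟩
  have one : ∀ x, Few E (· = x) := fun x => few_one h fun _ _ i j => i.trans j.symm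
  have out : ∀ P, Few E P → ∃ x, E x A ∧ ¬ P x := fun P c => by_contra fun d => hA (few_fin h c
    fun x e => by_contra fun g => d ⟨x, e, g⟩)
  have big : ∀ m, IsNat E m → ∃ z, E z A ∧ ∀ k, E k m → E k (cnt E A fun y => N z y) := fun m d => by
    refine natI h (fun m => ∃ z, E z A ∧ ∀ k, E k m → E k (cnt E A fun y => N z y)) (fun m d =>
      (out _ (one A)).imp fun z e => ⟨e.1, fun k g => absurd g (d k)⟩) (fun m d ⟨z, e, g⟩ => ?_) m d
    obtain ⟨x, i, l⟩ := out _ (n1 z)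
    obtain ⟨y, i', l'⟩ := out _ (one x)
    obtain ⟨p, q⟩ := blk (fun u => N z u ∨ u = x ∨ u = y) (few_or h (n1 z) (few_or h (one x) (one y)))
    have r := cnt_lt h (d := A) (e := A) (n1 _) (fun u r => q u x (n2 z u r) i (Or.inl r)
      (Or.inr (Or.inl rfl)) fun s => l (s ▸ r)) (q x y i i' (Or.inr (Or.inl rfl)) (Or.inr (Or.inr rfl))
        (Ne.symm l')) l
    have s := cnt_nat h (d := A) (n1 z)
    refine ⟨_, p, fun k t => ?_⟩
    have u := fun k => ntr h (k := k) (cnt_nat h (n1 _)) (c := r)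
    exact ((mem_sc h).1 t).elim (fun t => u k (g k t)) fun t => t ▸ (h.nat_le' s m d g).elim (u m) (· ▸ r)
  obtain ⟨g, _, hg⟩ : ∃ g : M → M → M, T2 E g ∧ ∀ x y, E x A → E y A → y ≠ x →
      E (g x y) A ∧ N (g x y) x ∧ N (g x y) y := ⟨fun p q => f (rl E A fun x y => (x = p ∨ x = q) ∧
        (y = p ∨ y = q) ∧ x ≠ y), inferInstance, fun x y c d e =>
    have i := blk (fun u => u = x ∨ u = y) (few_or h (one x) (one y))
    ⟨i.1, i.2 x y c d (Or.inl rfl) (Or.inr rfl) e.symm, i.2 y x d c (Or.inr rfl) (Or.inl rfl) e⟩⟩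
  have := @t2 _ E g _
  have n3 : ∀ z, Few E fun y => ∃ u, N z u ∧ N u y := fun z => few_un h N (n1 z) n1 fun _ => id
  refine hA (lev_fin h H (fun m x => E x A ∧ ∀ y, E y A → y ≠ x → ¬ N y x →
    E (cnt E A fun v => ∃ u, N (g x y) u ∧ N u v) m) (fun x c => ?_) fun m c => ?_)
  · obtain ⟨m, d, e⟩ := few_bd h (plb h H (fun z y => (E y A ∧ y ≠ x ∧ ¬ N y x) ∧ g x y = z ∨
      y = z ∧ E y A ∧ N y x) (fun z => cnt E A fun v => ∃ u, N z u ∧ N u v)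
      (fun z y d => ⟨d.elim (·.1.1) (·.2.1), cnt_nat h (n3 z)⟩) (by
        rintro z z' y (d | d) (e | e)
        exacts [d.2.symm.trans e.2, absurd e.2.2 d.1.2.2, absurd d.2.2 e.1.2.2, d.1.symm.trans e.1])
      fun z => few_mono (few_or h (n1 z) (one z)) fun y d => d.imp (fun ⟨d, e⟩ => e ▸
        (hg x y c d.1 d.2.1).2.2) And.left)
    exact ⟨m, d, c, fun y i j k => have l := hg x y c i j; e _ (cnt_nat h (n3 _)) ⟨g x y, y, g x y,
      Or.inl ⟨⟨i, j, k⟩, rfl⟩, Or.inr ⟨rfl, l.1, l.2.1⟩, fun p => k (p ▸ l.2.1), rfl⟩⟩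
  · obtain ⟨z, d, e⟩ := big m c
    refine few_mono (few_or h (n1 z) (one z)) fun x ⟨i, j⟩ => by_contra fun k => ?_
    have l : z ≠ x := fun l => k (Or.inr l.symm)
    exact h.irr _ (cnt_mono h (n3 _) (fun v p => ⟨z, (hg x z i d l).2.2, p⟩)
      (e _ (j z d l fun p => k (Or.inl p))))

end Pool.Agent.H40.Zt
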